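import Pool.Agent.Lib.MP_cad414_al.Cg.Base

/-! Alternating groups: three conjugate involutions. -/

namespace Pool.Agent.Lib.MP_cad414_al.Cg

open Subgroup Equiv Equiv.Perm

section Block

variable {α : Type} [DecidableEq α] {L : Subgroup (Perm α)}

/-- The three-cycles on `a, b, c` lie in `L` (or two of the points coincide). -/
def Tri (L : Subgroup (Perm α)) (a b c : α) : Prop :=
  a = b ∨ a = c ∨ b = c ∨ swap a b * swap a c ∈ L

theorem Tri.swap23 {a b c : α} (h : Tri L a b c) : Tri L a c b := by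
  rcases h with h | h | h | h
  exacts [.inr (.inl h), .inl h, .inr (.inr (.inl h.symm)),
    .inr (.inr (.inr (by simpa using L.inv_mem h)))]

theorem Tri.swap12 {a b c : α} (h : Tri L a b c) : Tri L b a c := by
  by_cases h1 : a = b
  · exact .inl h1.symm
  by_cases h2 : a = c
  · exact .inr (.inr (.inl h2))
  by_cases h3 : b = c
  · exact .inr (.inl h3)
  have h4 := L.inv_mem (((h.resolve_left h1).resolve_left h2).resolve_left h3)
  refine .inr (.inr (.inr ?_))
  have e : swap b c = swap a b * swap a c * swap a b := by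
    have := swap_apply_apply (swap a b) a c
    rwa [swap_apply_left, swap_apply_of_ne_of_ne (Ne.symm h2) (Ne.symm h3), swap_inv] at this
  rw [e, swap_comm b a, ← mul_assoc, ← mul_assoc, swap_mul_self, one_mul]
  simpa using h4

theorem Tri.glue {u v x y : α} (huv : u ≠ v) (hx : Tri L u v x) (hy : Tri L u v y) :
    Tri L u x y := by
  rcases hx with h | h | rfl | h
  · exact absurd h huv
  · exact .inl h
  · exact hy
  rcases hy with h' | h' | rfl | h'
  · exact absurd h' huv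
  · exact .inr (.inl h')
  · exact Tri.swap23 (.inr (.inr (.inr h)))
  · refine .inr (.inr (.inr ?_))
    have := L.mul_mem (L.inv_mem h) h'
    rwa [mul_inv_rev, swap_inv, swap_inv, mul_assoc, swap_mul_self_mul] at this

theorem Tri.full {u v x y z : α} (huv : u ≠ v) (hx : Tri L u v x) (hy : Tri L u v y)
    (hz : Tri L u v z) : Tri L x y z := by
  by_cases h : u = x
  · exact h ▸ hy.glue huv hz
  · exact (hx.glue huv hy).swap12.glue (Ne.symm h) (hx.glue huv hz).swap12

theorem Tri.ext {u v x y z : α} (huv : u ≠ v) (hxy : x ≠ y) (hx : Tri L u v x) (hy : Tri L u v y)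
    (hz : Tri L x y z) : Tri L u v z :=
  Tri.full hxy (hx.full huv hy (.inr (.inl rfl))) (hx.full huv hy (.inr (.inr (.inl rfl)))) hz

theorem Tri.map {g : Perm α} (hg : g ∈ L) {a b c : α} (h : Tri L a b c) :
    Tri L (g a) (g b) (g c) := by
  rcases h with h | h | h | h
  exacts [.inl (by rw [h]), .inr (.inl (by rw [h])), .inr (.inr (.inl (by rw [h]))),
    .inr (.inr (.inr (by
      have := L.mul_mem (L.mul_mem hg h) (L.inv_mem hg)
      rwa [swap_apply_apply, swap_apply_apply, mul_assoc (g * _), mul_assoc g (swap a c),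
        inv_mul_cancel_left, ← mul_assoc, mul_assoc g])))]

/-- The set of all `x` with `Tri L u v x` is a block as soon as it has three points. -/
theorem Tri.block {u v w : α} (huv : u ≠ v) (huw : u ≠ w) (hvw : v ≠ w) (hw : Tri L u v w)
    {g : Perm α} (hg : g ∈ L) {a x : α} (ha : Tri L u v a) (hga : Tri L u v (g a))
    (hx : Tri L u v x) : Tri L u v (g x) := by
  have hu : Tri L u v u := .inr (.inl rfl)
  have hv : Tri L u v v := .inr (.inr (.inl rfl))
  have two : ∀ p : α, ∃ b c, Tri L u v b ∧ Tri L u v c ∧ b ≠ c ∧ b ≠ p ∧ c ≠ p := fun p => by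
    by_cases h1 : u = p
    · exact ⟨v, w, hv, hw, hvw, h1 ▸ huv.symm, h1 ▸ huw.symm⟩
    by_cases h2 : v = p
    · exact ⟨u, w, hu, hw, huw, h1, h2 ▸ hvw.symm⟩
    · exact ⟨u, v, hu, hv, huv, h1, h2⟩
  by_contra hgx
  have hxa : x ≠ a := fun e => hgx (e ▸ hga)
  obtain ⟨c, hc, hca, hcx⟩ : ∃ c, Tri L u v c ∧ c ≠ a ∧ c ≠ x := by
    obtain ⟨b, c, hb, hc, hbc, hba, hca⟩ := two a
    by_cases h : b = x
    exacts [⟨c, hc, hca, h ▸ hbc.symm⟩, ⟨b, hb, hba, h⟩]
  have h1 : Tri L (g a) (g c) (g x) := (ha.full huv hc hx).map hg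
  have hgc : ¬ Tri L u v (g c) := fun h =>
    hgx (hga.ext huv (g.injective.ne hca.symm) h h1)
  have h2 := ((h1.resolve_left (g.injective.ne hca.symm)).resolve_left
    (g.injective.ne hxa.symm)).resolve_left (g.injective.ne hcx)
  obtain ⟨p, q, hp, hq, hpq, hpa, hqa⟩ := two (g a)
  have fix : ∀ p, Tri L u v p → p ≠ g a → (swap (g a) (g c) * swap (g a) (g x)) p = p :=
    fun p hp h => by
      have e1 : p ≠ g x := fun e => hgx (by rw [← e]; exact hp)
      have e2 : p ≠ g c := fun e => hgc (by rw [← e]; exact hp)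
      rw [Perm.mul_apply, swap_apply_of_ne_of_ne h e1, swap_apply_of_ne_of_ne h e2]
  have h3 := (hp.full huv hq hga).map h2
  rw [fix p hp hpa, fix q hq hqa, Perm.mul_apply, swap_apply_left,
    swap_apply_of_ne_of_ne (g.injective.ne hxa) (g.injective.ne hcx.symm)] at h3
  exact hgx (hp.ext huv hpq hq h3)

theorem Tri.alt_le [Fintype α] {u v : α} (huv : u ≠ v) (h : ∀ x, Tri L u v x) :
    alternatingGroup α ≤ L := by
  rw [← closure_three_cycles_eq_alternating, closure_le]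
  intro g hg
  obtain ⟨a, ha⟩ := hg.isCycle.nonempty_support
  have h1 := hg.nodup_iff_mem_support.2 ha
  simp only [List.nodup_cons, List.mem_cons, List.not_mem_nil, or_false, not_or] at h1
  have h2 := (h (g a)).full huv (h a) (h (g (g a)))
  rw [hg.eq_swap_mul_swap_iff_mem_support.2 ha, swap_comm a]
  exact ((h2.resolve_left (Ne.symm h1.1.1)).resolve_left h1.2.1).resolve_left h1.1.2

end Block

section Path

variable {n k : ℕ}

def altF (k x : ℕ) : ℕ := if x = 0 ∨ 2 * k < x then x else if x % 2 = 1 then x + 1 else x - 1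

theorem altF_inv (k x : ℕ) : altF k (altF k x) = x := by
  have h : altF k x = x ∧ (x = 0 ∨ 2 * k < x) ∨ altF k x = x + 1 ∧ x % 2 = 1 ∧ x ≤ 2 * k ∨
      altF k x = x - 1 ∧ x % 2 = 0 ∧ x ≤ 2 * k ∧ 0 < x := by
    unfold altF
    split_ifs <;> omega
  generalize altF k x = y at h
  unfold altF
  split_ifs <;> omega

def altT (h : 2 * k < n) : Perm (Fin n) :=
  Function.Involutive.toPerm (fun x => ⟨altF k x.1, by
    have := x.2; unfold altF; split_ifs <;> omega⟩) fun x => Fin.ext (altF_inv k x.1)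

def altR (h : 2 * k < n) : Perm (Fin n) :=
  Function.Involutive.toPerm (fun x => ⟨if x.1 ≤ 2 * k then 2 * k - x.1 else x.1, by
    have := x.2; split_ifs <;> omega⟩) fun x => Fin.ext (by dsimp only; split_ifs <;> omega)

theorem altT_val (h : 2 * k < n) (x : Fin n) : (altT h x).1 = if x.1 = 0 ∨ 2 * k < x.1 then x.1
    else if x.1 % 2 = 1 then x.1 + 1 else x.1 - 1 := rfl

theorem altR_val (h : 2 * k < n) (x : Fin n) :
    (altR h x).1 = if x.1 ≤ 2 * k then 2 * k - x.1 else x.1 := rfl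

theorem altT2_val (h : 2 * k < n) (x : Fin n) : ((altR h * altT h * (altR h)⁻¹) x).1 =
    if 2 * k ≤ x.1 then x.1 else if x.1 % 2 = 0 then x.1 + 1 else x.1 - 1 := by
  change (altR h (altT h (altR h x))).1 = _
  rw [altR_val, altT_val, altR_val]
  split_ifs <;> omega

theorem altT_sq (h : 2 * k < n) : altT h * altT h = 1 :=
  Equiv.ext (Function.Involutive.toPerm_involutive _)

theorem altT_sign (h : 2 * k < n) (h0 : 0 < k) (hk : Even k) : sign (altT h) = 1 := by
  rw [sign_of_pow_two_eq_one (by rw [pow_two, altT_sq])]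
  have e : Fintype.card (Function.fixedPoints (altT h)) = n - 2 * k := by
    have e1 : (Finset.univ.filter fun x : Fin n => x ∈ Function.fixedPoints (altT h)) =
        (Finset.Icc (⟨1, by omega⟩ : Fin n) ⟨2 * k, h⟩)ᶜ := by
      ext x
      simp only [Finset.mem_filter, Finset.mem_univ, true_and, Function.mem_fixedPoints_iff,
        Finset.mem_compl, Finset.mem_Icc, Fin.ext_iff, altT_val, Fin.le_def]
      split_ifs <;> omega
    rw [Fintype.card_subtype, e1, Finset.card_compl, Fin.card_Icc, Fintype.card_fin]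
    rfl
  rw [e, Fintype.card_fin, show (n - (n - 2 * k)) / 2 = k by omega, hk.neg_one_pow]

theorem alt_emb_conj {m : ℕ} (ι : Fin m ↪ Fin n) {t : Perm (Fin n)} {τ : Perm (Fin m)}
    (h : ∀ i, t (ι i) = ι (τ i)) (u : Perm (Fin m)) :
    t * viaEmbeddingHom ι u * t⁻¹ = viaEmbeddingHom ι (τ * u * τ⁻¹) := by
  rw [mul_inv_eq_iff_eq_mul]
  ext1 x
  simp only [Perm.mul_apply, viaEmbeddingHom_apply]
  by_cases hx : x ∈ Set.range ι
  · obtain ⟨i, rfl⟩ := hx
    simp [viaEmbedding_apply, h]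
  · rw [viaEmbedding_apply_of_notMem _ _ _ hx, viaEmbedding_apply_of_notMem]
    rintro ⟨i, hi⟩
    exact hx ⟨τ⁻¹ i, t.injective (by simp [h, hi])⟩

theorem alt_emb_swap {m : ℕ} (ι : Fin m ↪ Fin n) (a b : Fin m) :
    viaEmbeddingHom ι (swap a b) = swap (ι a) (ι b) := by
  ext1 x
  rw [viaEmbeddingHom_apply]
  by_cases hx : x ∈ Set.range ι
  · obtain ⟨i, rfl⟩ := hx
    rw [viaEmbedding_apply, ι.injective.swap_apply]
  · rw [viaEmbedding_apply_of_notMem _ _ _ hx,
      swap_apply_of_ne_of_ne (fun e => hx ⟨a, e.symm⟩) fun e => hx ⟨b, e.symm⟩]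

variable {G : Type} [Group G] [IsSimpleGroup G]

theorem alt_conj {t : Perm (Fin n)} {a b : Fin n} (hab : a ≠ b) (h1 : t a = b) (h2 : t b = a)
    (c : Perm (Fin n)) : ∃ c' ∈ alternatingGroup (Fin n), c' * t * c'⁻¹ = c * t * c⁻¹ := by
  rcases Int.units_eq_one_or (sign c) with h | h
  · exact ⟨c, h, rfl⟩
  · refine ⟨c * swap a b, by simp [mem_alternatingGroup, h, hab], ?_⟩
    have e : swap a b * t = t * swap a b := by rw [mul_swap_eq_swap_mul, h1, h2, swap_comm]
    rw [mul_assoc c, e, mul_inv_rev, swap_inv]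
    simp only [mul_assoc, swap_mul_self_mul]

theorem alt_core (hG : NA G) (hA : Img G (alternatingGroup (Fin n))) (h : 2 * k < n) (h0 : 0 < k)
    (hk : Even k) {m : ℕ} (ι : Fin m ↪ Fin n) (τ u : Perm (Fin m)) (a b c : Fin m) (N : ℕ)
    (hd : a ≠ b ∧ a ≠ c ∧ b ≠ c ∧ (τ * u * τ⁻¹ * u⁻¹) ^ N = swap a b * swap a c ∧ τ b = c ∧
      (u * τ * u⁻¹) a = b)
    (hτ : ∀ i, altT h (ι i) = ι (τ i)) (ha : 2 * k < (ι a).1 ∨ (ι a).1 = 0 ∧ (ι b).1 = 1)
    (hb : (ι b).1 ≤ 2 * k)
    (hex : ∀ x : Fin n, 2 * k < x.1 → ∃ i, ι ((u * τ * u⁻¹) i) = x ∧ (ι i).1 ≤ 2 * k) :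
    3 ∈ GenSizes G := by
  obtain ⟨hab, hac, hbc, hN, h1, h3⟩ := hd
  set U := viaEmbeddingHom ι u with hU
  have s1 := altT_sign h h0 hk
  have sw : ∀ c : Perm (Fin n), ∃ c' ∈ alternatingGroup (Fin n),
      c' * altT h * c'⁻¹ = c * altT h * c⁻¹ :=
    alt_conj (a := ⟨1, by omega⟩) (b := ⟨2, by omega⟩) (by simp)
      (Fin.ext (show altF k 1 = 2 by rw [altF, if_neg (by omega), if_pos rfl]))
      (Fin.ext (show altF k 2 = 1 by rw [altF, if_neg (by omega), if_neg (by omega)]))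
  obtain ⟨c2, m2, e2⟩ := sw (altR h)
  obtain ⟨c3, m3, e3⟩ := sw U
  have mem : ∀ c : Perm (Fin n), c * altT h * c⁻¹ ∈ alternatingGroup (Fin n) := fun c => by
    simp [mem_alternatingGroup, s1]
  refine hG.three_of_sub hA (t1 := altT h) s1 (mem (altR h)) (mem U) m2 m3
    (fun g _ => by rw [altT_sq]; exact Commute.one_left g)
    (fun g _ => by rw [e2, inv_mul_cancel]; exact Commute.one_left g)
    (fun g _ => by rw [e3, inv_mul_cancel]; exact Commute.one_left g)
    fun L l1 l2 l3 _ => (commutator_le.2 fun g hg g' hg' => ?_ : _ ≤ alternatingGroup (Fin n)).trans ?_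
  · exact mul_mem (mul_mem (mul_mem hg hg') (inv_mem hg)) (inv_mem hg')
  have t3 : ∀ i, (U * altT h * U⁻¹) (ι i) = ι ((u * τ * u⁻¹) i) := fun i => by
    rw [hU, ← map_inv]
    simp only [Perm.mul_apply, viaEmbeddingHom_apply, viaEmbedding_apply, hτ]
  have hw : Tri L (ι a) (ι b) (ι c) := .inr (.inr (.inr (by
    have e : altT h * (U * altT h * U⁻¹) = viaEmbeddingHom ι (τ * u * τ⁻¹ * u⁻¹) := by
      rw [map_mul _ _ u⁻¹, ← alt_emb_conj ι hτ, map_inv, ← hU,
        inv_eq_of_mul_eq_one_right (altT_sq h)]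
      simp only [mul_assoc]
    have := L.pow_mem (L.mul_mem l1 l3) N
    rwa [e, ← map_pow, hN, map_mul, alt_emb_swap, alt_emb_swap] at this)))
  have hu : Tri L (ι a) (ι b) (ι a) := .inr (.inl rfl)
  have hv : Tri L (ι a) (ι b) (ι b) := .inr (.inr (.inl rfl))
  have blk := fun g hg p x => Tri.block (ι.injective.ne hab) (ι.injective.ne hac)
    (ι.injective.ne hbc) hw (g := g) hg (a := p) (x := x)
  have b1 := fun x => blk _ l1 _ x hv (by rw [hτ, h1]; exact hw)
  have b3 := fun x => blk _ l3 _ x hu (by rw [t3, h3]; exact hv)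
  have b2 := fun x => blk _ l2 _ x hu (by
    rcases ha with ha | ha
    · rw [show (altR h * altT h * (altR h)⁻¹) (ι a) = ι a from
        Fin.ext (by rw [altT2_val, if_pos ha.le])]
      exact hu
    · rw [show (altR h * altT h * (altR h)⁻¹) (ι a) = ι b from
        Fin.ext (by rw [altT2_val]; split_ifs <;> omega)]
      exact hv)
  have step : ∀ x y : Fin n, x.1 ≤ 2 * k → y.1 ≤ 2 * k → x.1 + 1 = y.1 ∨ y.1 + 1 = x.1 →
      Tri L (ι a) (ι b) x → Tri L (ι a) (ι b) y := fun x y hx hy e hx' => by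
    have : altT h x = y ∨ (altR h * altT h * (altR h)⁻¹) x = y := by
      rw [Fin.ext_iff, Fin.ext_iff, altT_val, altT2_val]
      split_ifs <;> omega
    rcases this with rfl | rfl
    exacts [b1 x hx', b2 x hx']
  have path : ∀ (j : ℕ) (hj : j ≤ 2 * k), Tri L (ι a) (ι b) ⟨0, by omega⟩ ↔
      Tri L (ι a) (ι b) ⟨j, by omega⟩ := fun j => by
    induction j with
    | zero => exact fun _ => Iff.rfl
    | succ j ih =>
      exact fun hj => (ih (by omega)).trans ⟨step _ _ (by simp; omega) hj (.inl rfl),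
        step _ _ hj (by simp; omega) (.inr rfl)⟩
  have all : ∀ x : Fin n, x.1 ≤ 2 * k → Tri L (ι a) (ι b) x := fun x hx =>
    (path x.1 hx).1 ((path _ hb).2 hv)
  refine Tri.alt_le (ι.injective.ne hab) fun x => (le_or_gt x.1 (2 * k)).elim (all x) fun hx => ?_
  obtain ⟨i, rfl, hi⟩ := hex x hx
  exact t3 i ▸ b3 _ (all _ hi)

theorem alt_list (hG : NA G) (hA : Img G (alternatingGroup (Fin n))) (h : 2 * k < n) (h0 : 0 < k)
    (hk : Even k) {m : ℕ} (f : Fin m → ℕ) (τ u σ : Perm (Fin m)) (a b c : Fin m) (N : ℕ)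
    (hd : (a ≠ b ∧ a ≠ c ∧ b ≠ c ∧ (τ * u * τ⁻¹ * u⁻¹) ^ N = swap a b * swap a c ∧ τ b = c ∧
      (u * τ * u⁻¹) a = b) ∧ u * τ * u⁻¹ = σ) (h1 : ∀ i, f i < n) (h2 : ∀ i j, f i = f j → i = j)
    (hτ : ∀ i, altF k (f i) = f (τ i)) (ha : 2 * k < f a ∨ f a = 0 ∧ f b = 1) (hb : f b ≤ 2 * k)
    (hex : ∀ x, 2 * k < x → x < n → ∃ i, f (σ i) = x ∧ f i ≤ 2 * k) : 3 ∈ GenSizes G :=
  alt_core hG hA h h0 hk ⟨fun i => ⟨f i, h1 i⟩, fun i j e => h2 i j (congrArg Fin.val e)⟩ τ u a b c
    N hd.1 (fun i => Fin.ext (hτ i)) ha hb fun x hx => by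
      obtain ⟨i, e1, e2⟩ := hex x.1 hx x.2
      exact ⟨i, Fin.ext (hd.2 ▸ e1), e2⟩

theorem alt_three (hG : NA G) {n : ℕ} (h5 : 5 ≤ n) (h8 : n ≠ 8)
    (h : Img G (alternatingGroup (Fin n))) : 3 ∈ GenSizes G := by
  obtain ⟨l, hl⟩ : ∃ l, n = 4 * l + 1 ∨ n = 4 * l + 2 ∨ n = 4 * l + 3 ∨ n = 4 * l + 4 :=
    ⟨(n - 1) / 4, by omega⟩
  have hn : 2 * (2 * l) < n := by omega
  have one : ∀ g : ℕ, g < n → (g = 0 ∨ 4 * l < g) → (∀ x, 4 * l < x → x < n → x = g) →
      3 ∈ GenSizes G := fun g g1 g2 g3 => by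
    refine alt_list hG h hn (by omega) (even_two_mul l) ![g, 1, 2] (swap 1 2) (swap 0 2) (swap 1 0)
      0 1 2 1 (by decide +kernel) (fun i => by fin_cases i <;> simp <;> omega)
      (fun i j => by fin_cases i <;> fin_cases j <;> simp <;> omega) (fun i => ?_) ?_ ?_
      fun x hx hx' => ⟨1, ?_, ?_⟩
    · have g4 : altF (2 * l) g = g := if_pos (by omega)
      fin_cases i
      · exact g4
      all_goals simp [altF]; omega
    · simp; omega
    · simp; omega
    · exact (g3 _ (by omega) hx').symm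
    · simp; omega
  rcases hl with hl | hl | hl | hl
  · exact one 0 (by omega) (.inl rfl) (by omega)
  · exact one (4 * l + 1) (by omega) (by omega) (by omega)
  · refine alt_list hG h hn (by omega) (even_two_mul l) ![0, 1, 2, 3, 4, 4 * l + 1, 4 * l + 2]
      (swap 1 2 * swap 3 4) (swap 6 2 * swap 5 3 * swap 0 4) (swap 5 0 * swap 6 1) 6 1 2 4
      (by decide +kernel) (fun i => by fin_cases i <;> simp <;> omega)
      (fun i j => by fin_cases i <;> fin_cases j <;> simp <;> omega) (fun i => ?_) ?_ ?_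
      fun x hx hx' => ?_
    · fin_cases i <;> simp [altF, swap_apply_def] <;> omega
    · simp; omega
    · simp; omega
    · rcases (by omega : 4 * l + 1 = x ∨ 4 * l + 2 = x) with e | e
      exacts [⟨0, e, by simp⟩, ⟨1, e, by simp; omega⟩]
  · refine alt_list hG h hn (by omega) (even_two_mul l)
      ![1, 2, 3, 4, 5, 6, 4 * l + 1, 4 * l + 2, 4 * l + 3] (swap 0 1 * swap 2 3 * swap 4 5)
      (swap 1 6 * swap 2 6 * swap 3 7 * swap 5 8) (swap 6 0 * swap 1 7 * swap 8 4) 8 4 5 4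
      (by decide +kernel) (fun i => by fin_cases i <;> simp <;> omega)
      (fun i j => by fin_cases i <;> fin_cases j <;> simp <;> omega) (fun i => ?_) ?_ ?_
      fun x hx hx' => ?_
    · fin_cases i <;> simp [altF, swap_apply_def] <;> omega
    · simp; omega
    · simp; omega
    · rcases (by omega : 4 * l + 1 = x ∨ 4 * l + 2 = x ∨ 4 * l + 3 = x) with e | e | e
      exacts [⟨0, e, by simp; omega⟩, ⟨1, e, by simp; omega⟩, ⟨4, e, by simp; omega⟩]

end Path

end Pool.Agent.Lib.MP_cad414_al.Cg
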