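import Pool.Agent.Lib.MP_cad414_al.Cg.Alt

/-! The alternating group of degree eight needs four conjugate involutions. -/

namespace Pool.Agent.Lib.MP_cad414_al.Cg

open Subgroup Equiv Equiv.Perm

def a8ap (x i : ℕ) : ℕ := Nat.mod (Nat.shiftRight x (Nat.mul 3 i)) 8

def a8bit (s i : ℕ) : ℕ := Nat.land 1 (Nat.shiftRight s i)

def a8sw (j i : ℕ) : ℕ := bif Nat.beq i j then j.succ else bif Nat.beq i j.succ then j else i

def a8f (n : ℕ) (f : ℕ → Bool) : Bool := n.rec (f 0) fun k _ => f k.succ

theorem a8f_eq (n : ℕ) (f : ℕ → Bool) : a8f n f = f n := by cases n <;> rfl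

def a8R : List ℕ := [0, 1, 2, 3, 4, 5, 6, 7]

theorem mem_a8R {i : ℕ} : i ∈ a8R ↔ i < 8 := List.mem_range (n := 8)

def a8pk (w : ℕ) (f : ℕ → ℕ) : ℕ := a8R.foldr (fun i y => Nat.add (f i) (Nat.mul w y)) 0

def a8Inv (L : List ℕ) (x : ℕ) : Bool :=
  L.all fun s => a8f (a8pk 2 fun i => a8bit s (a8ap x i)) fun y =>
    L.any (Nat.beq y) && a8R.all fun i => Nat.beq (a8bit y i) (a8bit s (a8ap x i))

def a8Not (L : List ℕ) (x : ℕ) : Bool :=
  L.any fun s => L.all fun y => a8R.any fun i => !Nat.beq (a8bit y i) (a8bit s (a8ap x i))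

def a8Cd (x : ℕ) (g : Perm (Fin 8)) : Prop := ∀ i : Fin 8, a8ap x i = g i

def a8P (L : List ℕ) (g : Perm (Fin 8)) : Prop :=
  ∀ s ∈ L, ∃ s' ∈ L, ∀ i : Fin 8, a8bit s' i = a8bit s (g i)

theorem a8P_of {L : List ℕ} {x : ℕ} {g : Perm (Fin 8)} (h : a8Cd x g) (e : a8Inv L x = true) :
    a8P L g := fun s hs => by
  simp only [a8Inv, a8f_eq, List.all_eq_true, List.any_eq_true, mem_a8R, Nat.beq_eq,
    Bool.and_eq_true] at e
  obtain ⟨⟨y, hy, e1⟩, e2⟩ := e s hs
  exact ⟨y, hy, fun i => by rw [← e1, e2 i i.2, h i]⟩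

theorem a8P.not {L : List ℕ} {x : ℕ} {g : Perm (Fin 8)} (h : a8Cd x g) (e : a8P L g) :
    a8Not L x ≠ true := fun e' => by
  simp only [a8Not, List.all_eq_true, List.any_eq_true, mem_a8R, Bool.not_eq_true',
    ← Bool.not_eq_true, Nat.beq_eq] at e'
  obtain ⟨s, hs, e1⟩ := e'
  obtain ⟨y, hy, e2⟩ := e s hs
  obtain ⟨i, hi, e3⟩ := e1 y hy
  exact e3 (by rw [e2 ⟨i, hi⟩, h ⟨i, hi⟩])

theorem a8P.mul {L : List ℕ} {g g' : Perm (Fin 8)} (h : a8P L g) (h' : a8P L g') :
    a8P L (g * g') := fun s hs => by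
  obtain ⟨s1, h1, e1⟩ := h s hs
  obtain ⟨s2, h2, e2⟩ := h' s1 h1
  exact ⟨s2, h2, fun i => by rw [e2, e1, Perm.mul_apply]⟩

def a8K (L : List ℕ) : Subgroup (Perm (Fin 8)) where
  carrier := {g | a8P L g ∧ a8P L g⁻¹}
  one_mem' := ⟨fun s hs => ⟨s, hs, fun _ => rfl⟩, fun s hs => ⟨s, hs, fun _ => rfl⟩⟩
  mul_mem' := fun h h' => ⟨h.1.mul h'.1, by rw [mul_inv_rev]; exact h'.2.mul h.2⟩
  inv_mem' := fun h => ⟨h.2, by rw [inv_inv]; exact h.1⟩

def a8Ck (r : ℕ) (C : List (ℕ × ℕ)) (Ls : List (List ℕ)) : Bool :=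
  C.any (fun p => Nat.beq p.1 r) &&
  C.all (fun p => [0, 1, 2, 3, 4, 5, 6].all fun j =>
    a8f (a8pk 8 fun i => a8sw j (a8ap p.1 (a8sw j i))) fun y => (C.any fun q => Nat.beq q.1 y) &&
    a8R.all fun i => Nat.beq (a8ap y (a8sw j i)) (a8sw j (a8ap p.1 i))) &&
  C.all (fun p => decide (p.2 < 2 ^ Ls.length) && (List.range Ls.length).all fun j =>
    !p.2.testBit j || a8Inv (Ls.getD j []) p.1) &&
  C.all (fun p => C.all fun q => Nat.ble 1 (Nat.land p.2 q.2)) &&
  Ls.all fun L => a8Inv L r && (a8Not L 16434754 || a8Not L 4151504)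

theorem a8_case {r : ℕ} {C : List (ℕ × ℕ)} {Ls : List (List ℕ)} (h : a8Ck r C Ls = true)
    {ρ t0 t1 t2 : Perm (Fin 8)} (hr : a8Cd r ρ) (h2 : ρ * ρ = 1) (c0 : IsConj ρ t0)
    (c1 : IsConj ρ t1) (c2 : IsConj ρ t2) :
    ¬ alternatingGroup (Fin 8) ≤ closure {t0, t1, t2} := fun hA => by
  simp only [a8Ck, Bool.and_eq_true, List.all_eq_true, List.any_eq_true, List.mem_range, a8f_eq,
    Nat.beq_eq, decide_eq_true_eq, Bool.or_eq_true, Bool.not_eq_true', Nat.ble_eq, mem_a8R] at h
  obtain ⟨⟨⟨⟨⟨p0, m0, e0⟩, hS⟩, hM⟩, hP⟩, hL⟩ := h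
  have all : ∀ c g : Perm (Fin 8), (∃ p ∈ C, a8Cd p.1 g) → ∃ p ∈ C, a8Cd p.1 (c * g * c⁻¹) := by
    intro c
    have hc : c ∈ Submonoid.closure (Set.range fun i : Fin 7 => swap i.castSucc i.succ) :=
      mclosure_swap_castSucc_succ 7 ▸ Submonoid.mem_top c
    induction hc using Submonoid.closure_induction with
    | one => simp
    | mul a b _ _ ha hb =>
      intro g hg
      simpa only [mul_inv_rev, mul_assoc] using ha _ (hb g hg)
    | mem c hc =>
      obtain ⟨j, rfl⟩ := hc
      rintro g ⟨p, hp, e⟩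
      obtain ⟨⟨q, hq, e1⟩, e'⟩ := hS p hp j (List.mem_range.2 j.2)
      have sw : ∀ (j : Fin 7) (i : Fin 8), a8sw j i = swap j.castSucc j.succ i := by decide
      refine ⟨q, hq, fun i => ?_⟩
      obtain ⟨i, rfl⟩ := (swap j.castSucc j.succ).surjective i
      rw [← sw, e1, e' i i.2, e, sw]
      simp
  obtain ⟨c, rfl⟩ := isConj_iff.1 c0
  have key : ∀ t, IsConj ρ t → ∃ p ∈ C, ∀ j, p.2.testBit j = true → j < Ls.length ∧
      c⁻¹ * t * c ∈ a8K (Ls.getD j []) := fun t ht => by
    obtain ⟨d, rfl⟩ := isConj_iff.1 ht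
    obtain ⟨p, hp, e⟩ := all (c⁻¹ * d) ρ ⟨p0, m0, e0 ▸ hr⟩
    refine ⟨p, hp, fun j hj => ?_⟩
    have h1 : j < Ls.length := by
      by_contra h
      rw [Nat.testBit_lt_two_pow ((hM p hp).1.trans_le
        (Nat.pow_le_pow_right two_pos (not_lt.1 h)))] at hj
      exact Bool.noConfusion hj
    have h3 := a8P_of e (((hM p hp).2 j h1).resolve_left (by simp [hj]))
    have e1 : c⁻¹ * (d * ρ * d⁻¹) * c = c⁻¹ * d * ρ * (c⁻¹ * d)⁻¹ := by group
    have e2 : (c⁻¹ * d * ρ * (c⁻¹ * d)⁻¹)⁻¹ = c⁻¹ * d * ρ * (c⁻¹ * d)⁻¹ := by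
      rw [conj_inv, inv_eq_of_mul_eq_one_right h2]
    exact ⟨h1, e1 ▸ ⟨h3, e2.symm ▸ h3⟩⟩
  obtain ⟨p, hp, k1⟩ := key t1 c1
  obtain ⟨q, hq, k2⟩ := key t2 c2
  obtain ⟨j, hj⟩ := Nat.exists_testBit_of_ne_zero (x := p.2 &&& q.2)
    (Nat.one_le_iff_ne_zero.1 (hP p hp q hq))
  rw [Nat.testBit_and, Bool.and_eq_true] at hj
  have hj' := (k1 j hj.1).1
  have hl := hL (Ls.getD j []) (by rw [List.getD_eq_getElem _ _ hj']; exact List.getElem_mem hj')
  have h3 := a8P_of hr hl.1
  have h4 : closure {c * ρ * c⁻¹, t1, t2} ≤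
      (a8K (Ls.getD j [])).comap (MulAut.conj c⁻¹).toMonoidHom := (closure_le _).2 (by
    rintro _ (rfl | rfl | rfl)
    · change c⁻¹ * (c * ρ * c⁻¹) * c⁻¹⁻¹ ∈ a8K _
      rw [show c⁻¹ * (c * ρ * c⁻¹) * c⁻¹⁻¹ = ρ by group]
      exact ⟨h3, (inv_eq_of_mul_eq_one_right h2).symm ▸ h3⟩
    · exact (k1 j hj.1).2
    · exact (k2 j hj.2).2)
  have h5 : ∀ (x : ℕ) (g : Perm (Fin 8)), a8Cd x g → sign g = 1 →
      a8Not (Ls.getD j []) x ≠ true := fun x g e hg => by
    have h6 : c⁻¹ * (c * g * c⁻¹) * c⁻¹⁻¹ ∈ a8K _ :=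
      h4 (hA (show sign (c * g * c⁻¹) = 1 by simp [hg]))
    rw [show c⁻¹ * (c * g * c⁻¹) * c⁻¹⁻¹ = g by group] at h6
    exact h6.1.not e
  exact hl.2.elim
    (h5 _ (swap 0 1 * swap 0 2) (by unfold a8Cd; decide +kernel) (by decide +kernel))
    (h5 _ (swap 0 1 * finRotate 8) (by unfold a8Cd; decide +kernel) (by decide +kernel))

def a8L2 : List (List ℕ) :=
  [[3], [15], [19], [31], [35], [47], [51], [63], [67], [79], [83], [95], [99], [111], [115],
  [127], [131], [143], [147], [159], [163], [175], [179], [191], [195], [207], [211], [223],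
  [227], [239], [243]]

def a8L4 : List (List ℕ) :=
  [[15, 51, 60, 85, 90, 102, 105, 150, 153, 165, 170, 195, 204, 240], [15, 53, 58, 86, 89, 99,
  108, 147, 156, 166, 169, 197, 202, 240], [15, 54, 57, 83, 92, 101, 106, 149, 154, 163, 172,
  198, 201, 240], [23, 43, 60, 78, 89, 101, 114, 141, 154, 166, 177, 195, 212, 232], [27, 39, 60,
  77, 86, 106, 113, 142, 149, 169, 178, 195, 216, 228], [29, 46, 51, 75, 86, 101, 120, 135, 154,
  169, 180, 204, 209, 226], [30, 45, 51, 71, 89, 106, 116, 139, 149, 166, 184, 204, 210, 225]]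

def a8C2 : List (ℕ × ℕ) :=
  [(14571144, 1124073667), (11789960, 1076890627), (9926280, 1074540547), (14596232, 419430553),
  (16201864, 269062153), (12302472, 277874953), (14535304, 620757157), (15854216, 69305377),
  (10091144, 75768097), (11521160, 542116357), (15621256, 37847617), (9370760, 138682897),
  (7818888, 537546757), (8019592, 42090817), (7532168, 136463377), (14599368, 2130706687),
  (16205000, 1880092687), (12305608, 1894780687), (16405704, 1136903107), (15918280, 1278463027),
  (10155208, 1288450867), (14591752, 419430553), (16197384, 269062153), (12297992, 277874953),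
  (16362248, 25264513), (15641864, 135366673), (8040200, 143134993), (14501704, 620757157),
  (15820616, 69305377), (10057544, 75768097), (16333128, 25264513), (15551816, 537239557),
  (7950152, 547357957), (11257736, 542116357), (15357832, 37847617), (9107336, 138682897),
  (15382920, 135366673), (15321992, 537239557), (6999944, 704643157), (5720008, 537546757),
  (5920712, 42090817), (5433288, 136463377), (5945800, 143134993), (5884872, 547357957),
  (5164488, 704643157), (14599760, 704643242), (16205392, 537567242), (12306000, 547359242),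
  (16406096, 42107522), (15918672, 136480802), (10155600, 143139362), (16431184, 143165576),
  (16370256, 547397792), (15649872, 704686592), (8048208, 715784192), (14598808, 704643242),
  (16204440, 537567242), (12305048, 547359242), (16405144, 42107522), (15917720, 136480802),
  (10154648, 143139362), (16425752, 143165576), (16335704, 547397792), (15385496, 704686592),
  (5948376, 715784192), (14587552, 1275068620), (16193184, 1074577420), (12293792, 1086327820),
  (16358048, 75793540), (15637664, 138709060), (8036000, 143148100), (16422112, 1288490188),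
  (16324448, 75793540), (15374240, 138709060), (5937120, 143148100), (14468776, 1879048432),
  (15787688, 1076936752), (10024616, 1086337072), (16300200, 277909648), (15518888, 542154832),
  (7917224, 547377232), (16303336, 1894838512), (16295720, 277909648), (15255464, 542154832),
  (5818344, 547377232), (10995376, 1879052032), (15095472, 1124123392), (8844976, 1275081472),
  (15120560, 419469568), (15059632, 620799232), (6737584, 704664832), (15123696, 2130771712),
  (15116080, 419469568), (15026032, 620799232), (4638704, 704664832), (3622584, 1880031232),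
  (3823288, 1136852992), (3335864, 1278410752), (3848376, 429457408), (3787448, 631570432),
  (3067064, 710213632), (3851512, 2147418112), (3843896, 429457408), (3753848, 631570432),
  (2803640, 710213632), (14599809, 2130706687), (16205441, 1880092687), (12306049, 1894780687),
  (16406145, 1136903107), (15918721, 1278463027), (10155649, 1288450867), (16431233, 429496729),
  (16370305, 631612837), (15649921, 710257237), (8048257, 715806037), (16434369, 2147483647),
  (16426753, 429496729), (16336705, 631612837), (15386497, 710257237), (5949377, 715806037),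
  (14599690, 704643242), (16205322, 537567242), (12305930, 547359242), (16406026, 42107522),
  (15918602, 136480802), (10155530, 143139362), (16431114, 143165576), (16370186, 547397792),
  (15649802, 704686592), (8048138, 715784192), (16433690, 715827882), (16422434, 143165576),
  (16303658, 547397792), (15124018, 704686592), (3851834, 715784192), (14598283, 704643242),
  (16203915, 537567242), (12304523, 547359242), (16404619, 42107522), (15917195, 136480802),
  (10154123, 143139362), (16425227, 143165576), (16335179, 547397792), (15384971, 704686592),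
  (5947851, 715784192), (16433235, 715827882), (16421027, 143165576), (16302251, 547397792),
  (15122611, 704686592), (3850427, 715784192), (14583436, 1275068620), (16189068, 1074577420),
  (12289676, 1086327820), (16353932, 75793540), (15633548, 138709060), (8031884, 143148100),
  (16417996, 1288490188), (16320332, 75793540), (15370124, 138709060), (5933004, 143148100),
  (16418388, 143165576), (16417436, 143165576), (16287404, 1086374080), (15107764, 1275120640),
  (3835580, 1288437760), (14435981, 1879048432), (15754893, 1076936752), (9991821, 1086337072),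
  (16267405, 277909648), (15486093, 542154832), (7884429, 547377232), (16270541, 1894838512),
  (16262925, 277909648), (15222669, 542154832), (5785549, 547377232), (16270933, 547397792),
  (16269981, 547397792), (16258725, 1086374080), (14960309, 1879109632), (3688125, 1894776832),
  (10733198, 1879052032), (14833294, 1124123392), (8582798, 1275081472), (14858382, 419469568),
  (14797454, 620799232), (6475406, 704664832), (14861518, 2130771712), (14853902, 419469568),
  (14763854, 620799232), (4376526, 704664832), (14861910, 704686592), (14860958, 704686592),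
  (14849702, 1275120640), (14730926, 1879109632), (2279102, 2130706432), (1525391, 1880031232),
  (1726095, 1136852992), (1238671, 1278410752), (1751183, 429457408), (1690255, 631570432),
  (969871, 710213632), (1754319, 2147418112), (1746703, 429457408), (1656655, 631570432),
  (706447, 710213632), (1754711, 715784192), (1753759, 715784192), (1742503, 1288437760),
  (1623727, 1894776832), (444087, 2130706432)]

def a8C4 : List (ℕ × ℕ) :=
  [(14570689, 127), (11789505, 7), (9925825, 7), (14527233, 25), (11513089, 44), (7810817, 74),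
  (14498113, 25), (9272641, 50), (7434049, 84), (11254145, 84), (9042817, 74), (6971265, 97),
  (5716417, 50), (5368769, 44), (5135809, 97), (14570010, 7), (11788826, 7), (9925146, 127),
  (14522914, 74), (11508770, 25), (7806498, 44), (14465066, 50), (9239594, 84), (7401002, 25),
  (10991666, 97), (8780338, 84), (6708786, 74), (3618874, 44), (3271226, 97), (3038266, 50),
  (14569555, 7), (11788371, 127), (9924691, 7), (14487907, 84), (11243939, 50), (5706211, 25),
  (14459179, 44), (8974763, 25), (5300715, 74), (10985779, 50), (8745331, 97), (4608499, 44),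
  (3612987, 97), (3236219, 74), (2773435, 84), (14518868, 44), (11504724, 74), (7802452, 25),
  (14484316, 50), (11240348, 25), (5702620, 84), (14451948, 97), (6852524, 97), (5017068, 127),
  (10978548, 44), (6623092, 7), (4557812, 84), (3605756, 50), (2952572, 74), (2722748, 7),
  (14432341, 84), (9206869, 25), (7368277, 50), (14426909, 74), (8942493, 44), (5268445, 25),
  (14423269, 97), (6823845, 127), (4988389, 97), (8680693, 74), (6565685, 50), (4471285, 7),
  (3171581, 84), (2895165, 7), (2636221, 44), (10729558, 74), (8518230, 97), (6446678, 84),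
  (10724126, 97), (8483678, 44), (4346846, 50), (10720486, 84), (6365030, 44), (4299750, 7),
  (8451310, 50), (6336302, 7), (4241902, 74), (2249982, 25), (2206526, 25), (2177406, 127),
  (1521751, 97), (1174103, 50), (941143, 44), (1516319, 84), (1139551, 97), (676767, 74),
  (1512679, 74), (859495, 7), (629671, 50), (1107183, 44), (830767, 84), (571823, 7), (414967,
  25), (371511, 127), (342391, 25)]

theorem a8_ck2 : a8Ck 16434369 a8C2 a8L2 = true := by decide +kernel

theorem a8_ck4 : a8Ck 14570689 a8C4 a8L4 = true := by decide +kernel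

theorem a8_conj {s t : Perm (Fin 8)} (hs : s * s = 1) (ht : t * t = 1)
    (h : s.support.card = t.support.card) : IsConj s t := by
  have e1 := cycleType_of_pow_prime_eq_one (p := 2) (σ := s) (by rw [pow_two, hs])
  have e2 := cycleType_of_pow_prime_eq_one (p := 2) (σ := t) (by rw [pow_two, ht])
  rw [← sum_cycleType, ← sum_cycleType, e1, e2, Multiset.sum_replicate, Multiset.sum_replicate,
    smul_eq_mul, smul_eq_mul] at h
  rw [isConj_iff_cycleType_eq, e1, e2, Nat.eq_of_mul_eq_mul_right two_pos h]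

theorem a8_not_three : 3 ∉ GenSizes (alternatingGroup (Fin 8)) := by
  rintro ⟨t, h1, h2, h3⟩
  have hA : alternatingGroup (Fin 8) ≤ closure {(t 0).1, (t 1).1, (t 2).1} := by
    refine (range_subtype _).ge.trans ?_
    rw [MonoidHom.range_eq_map, ← h3, MonoidHom.map_closure]
    refine closure_mono ?_
    rintro _ ⟨_, ⟨i, rfl⟩, rfl⟩
    fin_cases i <;> simp
  have hc : ∀ i, IsConj (t 0).1 (t i).1 := fun i => (alternatingGroup _).subtype.map_isConj (h2 0 i)
  have ho : orderOf (t 0).1 = 2 := by rw [Subgroup.orderOf_coe, h1]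
  have hsq : (t 0).1 * (t 0).1 = 1 := by
    have := pow_orderOf_eq_one (t 0).1
    rwa [ho, pow_two] at this
  obtain ⟨k, hk⟩ := cycleType_prime_order (σ := (t 0).1) (by rw [ho]; exact Nat.prime_two)
  have e1 := sum_cycleType (t 0).1
  have e2 := sum_cycleType_le (t 0).1
  have e3 := sign_of_cycleType (t 0).1
  rw [hk, ho, Multiset.sum_replicate, smul_eq_mul] at e1 e2 e3
  rw [mem_alternatingGroup.1 (t 0).2, Multiset.card_replicate] at e3
  rw [Fintype.card_fin] at e2
  obtain rfl | rfl | rfl | rfl : k = 0 ∨ k = 1 ∨ k = 2 ∨ k = 3 := by omega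
  · exact absurd e3 (by decide)
  · have c := a8_conj (s := swap 0 1 * swap 2 3) (by decide +kernel) hsq (by rw [← e1]; decide +kernel)
    exact a8_case a8_ck2 (by unfold a8Cd; decide +kernel) (by decide +kernel) c (c.trans (hc 1))
      (c.trans (hc 2)) hA
  · exact absurd e3 (by decide)
  · have c := a8_conj (s := swap 0 1 * swap 2 3 * swap 4 5 * swap 6 7) (by decide +kernel) hsq
      (by rw [← e1]; decide +kernel)
    exact a8_case a8_ck4 (by unfold a8Cd; decide +kernel) (by decide +kernel) c (c.trans (hc 1))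
      (c.trans (hc 2)) hA

theorem a8_gen {L : Subgroup (Perm (Fin 8))} (l1 : swap 1 2 * swap 3 4 ∈ L)
    (l2 : swap 0 1 * swap 2 3 ∈ L) (l3 : swap 5 0 * swap 6 1 ∈ L) (l4 : swap 7 1 * swap 3 4 ∈ L) :
    alternatingGroup (Fin 8) ≤ L := by
  have hw : Tri L 6 1 2 := .inr (.inr (.inr (by
    have := L.pow_mem (L.mul_mem l1 l3) 4
    rwa [show (swap 1 2 * swap 3 4 * (swap 5 0 * swap 6 1) : Perm (Fin 8)) ^ 4 =
      swap 6 1 * swap 6 2 by decide +kernel] at this)))
  have hu : Tri L 6 1 6 := .inr (.inl rfl)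
  have hv : Tri L 6 1 1 := .inr (.inr (.inl rfl))
  have blk := fun g hg p x => Tri.block (by decide) (by decide) (by decide) hw (g := g) hg (a := p)
    (x := x)
  have h0 : Tri L 6 1 0 := blk _ l2 6 1 hu hu hv
  have h3 : Tri L 6 1 3 := blk _ l2 6 2 hu hu hw
  have h4 : Tri L 6 1 4 := blk _ l1 6 3 hu hu h3
  have h5 : Tri L 6 1 5 := blk _ l3 6 0 hu hv h0
  have h7 : Tri L 6 1 7 := blk _ l4 6 1 hu hu hv
  refine Tri.alt_le (u := 6) (v := 1) (by decide) fun x => ?_
  fin_cases x
  exacts [h0, hv, hw, h3, h4, h5, hu, h7]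

theorem a8_four : 4 ∈ GenSizes (alternatingGroup (Fin 8)) := by
  have := alternatingGroup.isSimpleGroup (α := Fin 8) (by simp)
  let T : Fin 4 → Perm (Fin 8) :=
    ![swap 1 2 * swap 3 4, swap 0 1 * swap 2 3, swap 5 0 * swap 6 1, swap 7 1 * swap 3 4]
  let D : Fin 4 → Perm (Fin 8) :=
    ![1, swap 0 2 * swap 0 4, swap 0 1 * swap 0 3 * swap 2 5 * swap 4 6, swap 7 2 * swap 3 4]
  have h : ∀ i, sign (T i) = 1 ∧ sign (D i) = 1 ∧ D i * T 0 * (D i)⁻¹ = T i ∧ T 0 * T 0 = 1 := by
    decide +kernel
  let t : Fin 4 → alternatingGroup (Fin 8) := fun i => ⟨T i, (h i).1⟩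
  refine mem_genSizes (t 0) t (Subtype.ext (h 0).2.2.2)
    (fun i => isConj_iff.2 ⟨⟨D i, (h i).2.1⟩, Subtype.ext (h i).2.2.1⟩)
    (top_le_iff.1 fun g _ => ?_)
  have m : ∀ i, (t i).1 ∈ (closure (Set.range t)).map (alternatingGroup _).subtype := fun i =>
    ⟨t i, subset_closure ⟨i, rfl⟩, rfl⟩
  obtain ⟨g', h1, h2⟩ := a8_gen (m 0) (m 1) (m 2) (m 3) g.2
  exact Subtype.ext h2 ▸ h1

variable {G H : Type} [Group G] [Group H]

/-- An image of a simple group is isomorphic to it. -/
theorem genSizes_img [IsSimpleGroup G] [IsSimpleGroup H] (h : Img G H) {n : ℕ} :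
    n ∈ GenSizes G ↔ n ∈ GenSizes H := by
  obtain ⟨f, hf⟩ := h
  refine ⟨fun hn => ?_, genSizes_map f hf⟩
  have hi : Function.Injective f := (MonoidHom.ker_eq_bot_iff f).1
    ((IsSimpleGroup.eq_bot_or_eq_top_of_normal f.ker inferInstance).resolve_right fun e => by
      obtain ⟨g, hg⟩ := exists_ne (1 : G)
      obtain ⟨a, rfl⟩ := hf g
      exact hg (MonoidHom.mem_ker.1 (e ▸ mem_top a)))
  let φ := MulEquiv.ofBijective f ⟨hi, hf⟩
  exact genSizes_map φ.symm.toMonoidHom φ.symm.surjective hn

theorem alt_four [IsSimpleGroup G] (_hG : NA G) (h : Img G (alternatingGroup (Fin 8))) :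
    4 ∈ GenSizes G ∧ 3 ∉ GenSizes G := by
  have := alternatingGroup.isSimpleGroup (α := Fin 8) (by simp)
  exact ⟨(genSizes_img h).2 a8_four, fun e => a8_not_three ((genSizes_img h).1 e)⟩

end Pool.Agent.Lib.MP_cad414_al.Cg
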