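import Pool.Agent.Lib.MP_cad414_al.Cg.Defs

/-! Generic lemmas on generation by three conjugate involutions. -/

namespace Pool.Agent.Lib.MP_cad414_al.Cg

open Subgroup

/-- `G` is not abelian. -/
def NA (G : Type) [Group G] : Prop := ∃ a b : G, a * b ≠ b * a

/-- There is a simple group of order `N` generated by three conjugate involutions. -/
def Spor (N : ℕ) : Prop :=
  ∃ (G : Type) (_ : Group G), IsSimpleGroup G ∧ Nat.card G = N ∧ 3 ∈ GenSizes G

variable {G H S : Type} [Group G] [Group H] [Group S]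

theorem NA.zpowers_ne (hG : NA G) (a : G) : zpowers a ≠ ⊤ := fun h => by
  obtain ⟨x, y, hxy⟩ := hG
  obtain ⟨i, rfl⟩ : x ∈ zpowers a := h ▸ mem_top x
  obtain ⟨j, rfl⟩ : y ∈ zpowers a := h ▸ mem_top y
  exact hxy (zpow_mul_comm a i j)

theorem NA.center_eq [IsSimpleGroup G] (hG : NA G) : center G = ⊥ :=
  (IsSimpleGroup.eq_bot_or_eq_top_of_normal (center G) inferInstance).resolve_right fun h => by
    obtain ⟨x, y, hxy⟩ := hG
    exact hxy (mem_center_iff.1 (h ▸ mem_top y) x)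

theorem NA.commutator_eq [IsSimpleGroup G] (hG : NA G) : commutator G = ⊤ :=
  (IsSimpleGroup.eq_bot_or_eq_top_of_normal (commutator G) inferInstance).resolve_left fun h => by
    obtain ⟨x, y, hxy⟩ := hG
    have h1 := commutator_mem_commutator (mem_top x) (mem_top y)
    rw [← commutator_def, h, mem_bot, commutatorElement_eq_one_iff_mul_comm] at h1
    exact hxy h1

/-- A subgroup normalised by a generating set is normal. -/
theorem normal_of_gen {s : Set G} (hs : closure s = ⊤) {L : Subgroup G}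
    (h : ∀ g ∈ s, g ∈ normalizer (L : Set G)) : L.Normal :=
  normalizer_eq_top_iff.1 (top_le_iff.1 (hs ▸ (closure_le _).2 h))

theorem NA.not_two [IsSimpleGroup G] (hG : NA G) {a b : G} (ha : a * a = 1) (hb : b * b = 1) :
    closure {a, b} ≠ ⊤ := fun h => by
  have ha' : a⁻¹ = a := inv_eq_of_mul_eq_one_right ha
  have hb' : b⁻¹ = b := inv_eq_of_mul_eq_one_right hb
  have key : ∀ g : G, g⁻¹ = g → g * (a * b) * g⁻¹ = (a * b)⁻¹ →
      g ∈ normalizer (zpowers (a * b) : Set G) := fun g hg e => by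
    have h1 : ∀ x ∈ zpowers (a * b), g * x * g⁻¹ ∈ zpowers (a * b) := by
      rintro _ ⟨k, rfl⟩
      rw [← conj_zpow, e]
      exact zpow_mem (inv_mem (mem_zpowers _)) k
    refine mem_normalizer_iff.2 fun x => ⟨h1 x, fun hx => ?_⟩
    have h2 := h1 _ hx
    have h3 : g * g = 1 := by rw [← hg, inv_mul_eq_one, hg]
    rwa [hg, ← mul_assoc, ← mul_assoc, h3, one_mul, mul_assoc, h3, mul_one] at h2
  have hn : (zpowers (a * b)).Normal := normal_of_gen h (by
    rintro g (rfl | rfl)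
    · exact key _ ha' (by rw [← mul_assoc, ha, one_mul, mul_inv_rev, hb'])
    · exact key _ hb' (by rw [mul_inv_rev, ha', mul_assoc, mul_assoc, mul_inv_cancel, mul_one, hb']))
  rcases hn.eq_bot_or_eq_top with h1 | h1
  · have h2 : b = a := by
      rw [← ha', eq_inv_iff_mul_eq_one, ← mul_eq_one_comm]
      exact mem_bot.1 (h1 ▸ mem_zpowers _)
    rw [h2, Set.pair_eq_singleton, ← zpowers_eq_closure] at h
    exact hG.zpowers_ne _ h
  · exact hG.zpowers_ne _ h1

theorem NA.three_le [IsSimpleGroup G] (hG : NA G) {n : ℕ} (hn : n ∈ GenSizes G) : 3 ≤ n := by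
  by_contra h
  obtain ⟨t, h1, -, h3⟩ := hn
  have hsq : ∀ i, t i * t i = 1 := fun i => by rw [← pow_two, ← h1 i, pow_orderOf_eq_one]
  refine hG.not_two (a := if h : 0 < n then t ⟨0, h⟩ else 1) (b := if h : 1 < n then t ⟨1, h⟩ else 1)
    (by split_ifs <;> simp [hsq]) (by split_ifs <;> simp [hsq]) (top_le_iff.1 (h3 ▸ closure_mono ?_))
  rintro _ ⟨⟨i, hi⟩, rfl⟩
  rcases (by omega : i = 0 ∨ i = 1) with rfl | rfl
  · exact Or.inl (by rw [dif_pos hi])
  · exact Or.inr (by rw [dif_pos hi]; rfl)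

theorem NA.isLeast_three [IsSimpleGroup G] (hG : NA G) (h : 3 ∈ GenSizes G) :
    IsLeast (GenSizes G) 3 := ⟨h, fun _ hn => hG.three_le hn⟩

theorem NA.isLeast_four [IsSimpleGroup G] (hG : NA G) (h : 4 ∈ GenSizes G ∧ 3 ∉ GenSizes G) :
    IsLeast (GenSizes G) 4 :=
  ⟨h.1, fun _ hn => (hG.three_le hn).lt_of_ne fun e => h.2 (e ▸ hn)⟩

/-- `n` conjugates of an element of square one that generate a nontrivial group. -/
theorem mem_genSizes [Nontrivial G] {n : ℕ} (a : G) (t : Fin n → G) (ha : a * a = 1)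
    (hc : ∀ i, IsConj a (t i)) (hcl : closure (Set.range t) = ⊤) : n ∈ GenSizes G := by
  have h1 : a ≠ 1 := fun e => by
    subst e
    refine bot_ne_top (α := Subgroup G) (top_le_iff.1 (hcl ▸ (closure_le _).2 ?_))
    rintro _ ⟨i, rfl⟩
    exact mem_bot.2 (isConj_one_right.1 (hc i))
  refine ⟨t, fun i => ?_, fun i j => (hc i).symm.trans (hc j), hcl⟩
  obtain ⟨c, e⟩ := isConj_iff.1 (hc i)
  rw [← e, ← MulAut.conj_apply, MulEquiv.orderOf_eq]
  exact orderOf_eq_prime (by rw [pow_two, ha]) h1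

theorem mem_three [Nontrivial G] {t1 t2 t3 : G} (h1 : t1 * t1 = 1) (h2 : IsConj t1 t2)
    (h3 : IsConj t1 t3) (hcl : closure {t1, t2, t3} = ⊤) : 3 ∈ GenSizes G := by
  refine mem_genSizes t1 ![t1, t2, t3] h1 (fun i => ?_) (by
    rw [← hcl]; congr 1; ext g; simp [or_comm, or_left_comm])
  fin_cases i
  exacts [IsConj.refl _, h2, h3]

/-- Passage to a quotient. -/
theorem genSizes_map [Nontrivial G] (f : H →* G) (hf : Function.Surjective f) {n : ℕ}
    (h : n ∈ GenSizes H) : n ∈ GenSizes G := by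
  obtain ⟨t, h1, h2, h3⟩ := h
  have hcl : closure (Set.range (f ∘ t)) = ⊤ := by
    rw [Set.range_comp, ← MonoidHom.map_closure, h3, map_top_of_surjective f hf]
  rcases n with _ | n
  · exact ⟨f ∘ t, fun i => i.elim0, fun i => i.elim0, hcl⟩
  · exact mem_genSizes (f (t 0)) _
      (by rw [← map_mul, ← pow_two, ← h1 0, pow_orderOf_eq_one, map_one])
      (fun i => f.map_isConj (h2 0 i)) hcl

theorem NA.map_center [IsSimpleGroup G] (hG : NA G) {f : H →* G} (hf : Function.Surjective f)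
    {z : H} (hz : z ∈ center H) : f z = 1 := by
  rw [← mem_bot, ← hG.center_eq, mem_center_iff]
  intro g
  obtain ⟨g, rfl⟩ := hf g
  rw [← map_mul, ← map_mul, mem_center_iff.1 hz]

/-- Main tool: everything may be checked modulo the centre, and it suffices to generate the
commutator subgroup. -/
theorem NA.three_of_img [IsSimpleGroup G] (hG : NA G) (h : Img G H) (t1 t2 t3 c2 c3 : H)
    (h1 : t1 * t1 ∈ center H) (h2 : t2⁻¹ * (c2 * t1 * c2⁻¹) ∈ center H)
    (h3 : t3⁻¹ * (c3 * t1 * c3⁻¹) ∈ center H)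
    (hcl : ∀ L : Subgroup H, t1 ∈ L → t2 ∈ L → t3 ∈ L → center H ≤ L → commutator H ≤ L) :
    3 ∈ GenSizes G := by
  obtain ⟨f, hf⟩ := h
  have key : ∀ t c : H, t⁻¹ * (c * t1 * c⁻¹) ∈ center H → IsConj (f t1) (f t) := fun t c e => by
    have := hG.map_center hf e
    rw [map_mul, map_inv, inv_mul_eq_one, map_mul, map_mul, map_inv] at this
    exact isConj_iff.2 ⟨f c, this.symm⟩
  refine mem_three (by rw [← map_mul, hG.map_center hf h1]) (key _ _ h2) (key _ _ h3) ?_
  have h4 := hcl ((closure {f t1, f t2, f t3}).comap f) (subset_closure (by simp))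
    (subset_closure (by simp)) (subset_closure (by simp))
    fun z hz => by rw [mem_comap, hG.map_center hf hz]; exact one_mem _
  rw [← map_le_iff_le_comap, commutator_def, map_commutator, map_top_of_surjective f hf,
    ← commutator_def, hG.commutator_eq] at h4
  exact top_le_iff.1 h4

/-- The same for a subgroup `A` of an ambient group. -/
theorem NA.three_of_sub [IsSimpleGroup G] (hG : NA G) {A : Subgroup S} (h : Img G A)
    {t1 t2 t3 c2 c3 : S} (m1 : t1 ∈ A) (m2 : t2 ∈ A) (m3 : t3 ∈ A) (n2 : c2 ∈ A) (n3 : c3 ∈ A)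
    (h1 : ∀ g ∈ A, Commute (t1 * t1) g) (h2 : ∀ g ∈ A, Commute (t2⁻¹ * (c2 * t1 * c2⁻¹)) g)
    (h3 : ∀ g ∈ A, Commute (t3⁻¹ * (c3 * t1 * c3⁻¹)) g)
    (hcl : ∀ L : Subgroup S, t1 ∈ L → t2 ∈ L → t3 ∈ L →
      (∀ z ∈ A, (∀ g ∈ A, Commute z g) → z ∈ L) → ⁅A, A⁆ ≤ L) : 3 ∈ GenSizes G := by
  have key : ∀ z : A, (∀ g ∈ A, Commute (z : S) g) → z ∈ center A := fun z hz =>
    mem_center_iff.2 fun g => Subtype.ext (hz g g.2).symm.eq
  refine hG.three_of_img h ⟨t1, m1⟩ ⟨t2, m2⟩ ⟨t3, m3⟩ ⟨c2, n2⟩ ⟨c3, n3⟩ (key _ h1) (key _ h2)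
    (key _ h3) fun L l1 l2 l3 lc => ?_
  have h4 := hcl (L.map A.subtype) ⟨_, l1, rfl⟩ ⟨_, l2, rfl⟩ ⟨_, l3, rfl⟩
    fun z hz hc => ⟨⟨z, hz⟩, lc (key ⟨z, hz⟩ hc), rfl⟩
  rw [← map_le_map_iff_of_injective A.subtype_injective, commutator_def, map_commutator,
    ← MonoidHom.range_eq_map, range_subtype]
  exact h4

/-- `commutator A` as a subgroup of the ambient group. -/
theorem Img.of_commutator {A : Subgroup S} (h : Img G (commutator A)) :
    Img G (⁅A, A⁆ : Subgroup S) := by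
  obtain ⟨f, hf⟩ := h
  have e : (commutator A).map A.subtype = ⁅A, A⁆ := by
    rw [commutator_def, map_commutator, ← MonoidHom.range_eq_map, range_subtype]
  let φ := ((commutator A).equivMapOfInjective _ A.subtype_injective).trans
    (MulEquiv.subgroupCongr e)
  exact ⟨f.comp φ.symm.toMonoidHom, hf.comp φ.symm.surjective⟩

theorem Img.of_equiv {H' : Type} [Group H'] (h : Img G H) (φ : H ≃* H') : Img G H' := by
  obtain ⟨f, hf⟩ := h
  exact ⟨f.comp φ.symm.toMonoidHom, hf.comp φ.symm.surjective⟩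

theorem NA.three_of_pder [IsSimpleGroup G] (hG : NA G) (h : Img G (commutator H))
    (h3 : 3 ∈ GenSizes (PDer H)) : 3 ∈ GenSizes G := by
  obtain ⟨f, hf⟩ := h
  refine genSizes_map (H := PDer H)
    (QuotientGroup.lift _ f fun z hz => hG.map_center hf hz) (fun g => ?_) h3
  obtain ⟨a, rfl⟩ := hf g
  exact ⟨QuotientGroup.mk a, rfl⟩

/-- A `(2,3)`-generated simple group is generated by three conjugate involutions. -/
theorem NA.three_of_two_three [IsSimpleGroup G] (hG : NA G) {a b : G} (ha : a * a = 1)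
    (hb : b * b * b = 1) (h : closure {a, b} = ⊤) : 3 ∈ GenSizes G := by
  have hb' : b⁻¹ = b * b := inv_eq_of_mul_eq_one_left hb
  set L := closure {a, b * a * b⁻¹, b⁻¹ * a * b⁻¹⁻¹} with hL
  have m1 : a ∈ L := subset_closure (by simp)
  have m2 : b * a * b⁻¹ ∈ L := subset_closure (by simp)
  have m3 : b⁻¹ * a * b⁻¹⁻¹ ∈ L := subset_closure (by simp)
  have key : ∀ x ∈ L, b * x * b⁻¹ ∈ L := fun x hx => by
    have : L ≤ L.comap (MulAut.conj b).toMonoidHom := (closure_le _).2 (by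
      rintro _ (rfl | rfl | rfl)
      · exact m2
      · change b * (b * a * b⁻¹) * b⁻¹ ∈ L
        have e : b * (b * a * b⁻¹) * b⁻¹ = (b * b) * a * (b * b)⁻¹ := by group
        rwa [e, ← hb']
      · change b * (b⁻¹ * a * b⁻¹⁻¹) * b⁻¹ ∈ L
        have e : b * (b⁻¹ * a * b⁻¹⁻¹) * b⁻¹ = a := by group
        rwa [e])
    exact this hx
  have hn : L.Normal := normal_of_gen h (by
    rintro g (rfl | rfl)
    · exact le_normalizer m1
    · refine mem_normalizer_iff.2 fun x => ⟨key x, fun hx => ?_⟩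
      have h2 := key _ (key _ hx)
      have e : g * (g * (g * x * g⁻¹) * g⁻¹) * g⁻¹ = (g * g * g) * x * (g * g * g)⁻¹ := by group
      rwa [e, hb, one_mul, inv_one, mul_one] at h2)
  rcases hn.eq_bot_or_eq_top with h1 | h1
  · rw [h1, mem_bot] at m1
    rw [m1, closure_insert_one, ← zpowers_eq_closure] at h
    exact absurd h (hG.zpowers_ne _)
  · exact mem_three ha (isConj_iff.2 ⟨b, rfl⟩) (isConj_iff.2 ⟨b⁻¹, rfl⟩) h1

theorem Spor.isLeast {N : ℕ} (h : Spor N) (hN : N ≠ 2) :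
    ∃ (G : Type) (_ : Group G), IsSimpleGroup G ∧ Nat.card G = N ∧ IsLeast (GenSizes G) 3 := by
  obtain ⟨G, _, _, h1, h2⟩ := h
  refine ⟨G, inferInstance, inferInstance, h1, NA.isLeast_three ?_ h2⟩
  by_contra hc
  obtain ⟨t, e1, e2, e3⟩ := h2
  have hc' : ∀ a b : G, a * b = b * a := fun a b => by
    by_contra h
    exact hc ⟨a, b, h⟩
  have h4 : zpowers (t 0) = ⊤ := top_le_iff.1 (e3 ▸ (closure_le _).2 (by
    rintro _ ⟨i, rfl⟩
    obtain ⟨c, e⟩ := isConj_iff.1 (e2 0 i)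
    rw [← e, hc' c, mul_inv_cancel_right]
    exact mem_zpowers _))
  exact hN (by rw [← h1, ← card_top, ← h4, Nat.card_zpowers, e1])

end Pool.Agent.Lib.MP_cad414_al.Cg
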