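import Pool.Agent.Lib.MP_cad414_al.Cg.Gl

/-! Decoders for packed words and further rules. -/

namespace Pool.Agent.Lib.MP_cad414_al.Cg

open Subgroup

noncomputable section

attribute [local instance] mact

/-- The word with letters `d - 1` for the digits `d` of `x` in base `1024`, lowest first. -/
def W (x : ℕ) : List ℕ :=
  Nat.rec (motive := fun _ => ℕ → List ℕ) (fun _ => [])
    (fun _ ih y => Nat.rec (motive := fun _ => List ℕ) []
      (fun d _ => frc (Nat.shiftRight y 10) fun y' => d :: ih y') (Nat.land y 1023)) x x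

def WS (l : List ℕ) : List (List ℕ) :=
  List.rec (motive := fun _ => List (List ℕ)) [] (fun a _ ih => W a :: ih) l

/-- Triples `h', k, h''`. -/
def WI (l : List ℕ) : List (List ℕ × ℕ × List ℕ) :=
  List.rec (motive := fun _ => ℕ → ℕ → ℕ → List (List ℕ × ℕ × List ℕ)) (fun _ _ _ => [])
    (fun a _ ih s x y => Nat.rec (motive := fun _ => List (List ℕ × ℕ × List ℕ)) (ih 1 a 0)
      (fun s _ => Nat.rec (motive := fun _ => List (List ℕ × ℕ × List ℕ)) (ih 2 x a)
        (fun _ _ => (W x, y, W a) :: ih 0 0 0) s) s) l 0 0 0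

/-- Table entries that are products. -/
def WD (l : List ℕ) : List Ins :=
  List.rec (motive := fun _ => List Ins) [] (fun a _ ih => (0, 0, W a) :: ih) l

def chkOr (lS : List ℕ) (rs o : List (List ℕ)) (h : Hsh) (w c : ℕ) (ops : List ℕ) (m : ℕ) :
    Env → List ℕ → Bool := chkOrb lS rs o h w c ops (Nat.pred (Nat.pow 2 m))

variable {Γ X : Type} [Group Γ] [MulAction Γ X] {M : Mdl Γ X} {I : List Ins}

namespace Mdl

theorem ok_def {J : List Ins} (h : M.Ok I) (e : (al J fun x => !x.2.2.isEmpty) = true) :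
    M.Ok (I ++ J) :=
  h.app fun x hx e' => by simpa [e'] using al_iff.1 e x hx

variable [Finite Γ]

theorem or1 (h : M.Ok I) {lS ops : List ℕ} {rs o : List (List ℕ)} {H : Hsh} {w c m : ℕ}
    (e : M.Ck I (chkOr lS rs o H w c ops m)) : M.OR I lS rs o m := or_of h e

theorem ub_pc1 (h : M.Ok I) {d : List Pc} {l l' : List ℕ} {b b' : ℕ} (e : M.Ck I (chkPcs l d))
    (hb : M.UB I l b) (e' : d.foldl (fun l x => x.1 :: l) l = l' ∧
      d.foldl (fun b x => x.2.1 * b) b = b') : M.UB I l' b' := e'.1 ▸ e'.2 ▸ ub_pc h d e hb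

theorem ub_orb1 {lH lK : List ℕ} {o : List (List ℕ)} {m b B : ℕ} (h : M.OR I lH [[]] o m)
    (hK : M.Le I lK lH) (hf : M.Fix I lK o) (hB : M.UB I lH B)
    (e : Nat.blt B (m * (b + 1)) = true) : M.UB I lK b :=
  Nat.le_of_lt_succ (Nat.lt_of_mul_lt_mul_left (a := m) (lt_of_le_of_lt
    (le_trans (Orb.low h (st_sub le_rfl rfl) hK hf) hB) (by simpa using e)))

theorem ub_row {lG lH lS : List ℕ} {rows : List (ℕ × ℕ)} {B b i m : ℕ} (h : M.CV I lG lH rows)
    (hB : M.UB I lH B) (hG : M.LB I lG (B * (1 + (rows.map Prod.snd).sum)))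
    (hq : (i, m) ∈ rows) (hS : M.Le I lS lH) (hc : M.Cj I [i] lS lH)
    (e : Nat.blt B (m * (b + 1)) = true) : M.UB I lS b := by
  have h1 := Cov.tight h (by simpa using CV.he hB hG) (q := (M.g I i, m))
    (List.mem_cons_of_mem _ (List.mem_map_of_mem (f := fun q => (M.g I q.1, q.2)) hq))
  have h2 := dc_le _ _ (M.g I i) hS (by simpa [Cj] using hc)
  have h3 : Nat.card (M.cl I lH) * (m * Nat.card (M.cl I lS)) ≤
      Nat.card (M.cl I lH) * Nat.card (M.cl I lH) := by
    rw [← mul_assoc]; exact (Nat.mul_le_mul_right _ h1).trans h2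
  exact Nat.le_of_lt_succ (Nat.lt_of_mul_lt_mul_left (a := m) (lt_of_le_of_lt
    (le_trans (Nat.le_of_mul_le_mul_left h3 (card_pos' _)) hB) (by simpa using e)))

omit [Finite Γ] in
theorem OR.mono {lS : List ℕ} {rs o : List (List ℕ)} {m k : ℕ} (h : M.OR I lS rs o m)
    (e : Nat.ble k m = true) : M.OR I lS rs o k := le_trans (Nat.le_of_ble_eq_true e) h

omit [Finite Γ] in
theorem cv_app (J : List Ins) {lG lH : List ℕ} {rows : List (ℕ × ℕ)}
    (e : lt lG I.length = true) (e' : lt lH I.length = true)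
    (e'' : lt (rows.map Prod.fst) I.length = true) :
    M.CV (I ++ J) lG lH rows ↔ M.CV I lG lH rows := by
  rw [CV, CV, cl_app J e, cl_app J e', List.map_congr_left fun q hq => by
    rw [g_app J (by simpa using al_iff.1 e'' _ (List.mem_map_of_mem hq))]]

omit [Finite Γ] in
theorem cj_app (J : List Ins) {a l l' : List ℕ} (e0 : lt a I.length = true)
    (e : lt l I.length = true) (e' : lt l' I.length = true) :
    M.Cj (I ++ J) a l l' ↔ M.Cj I a l l' := by
  rw [Cj, Cj, cl_app J e, cl_app J e', wd_app' J e0]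

end Mdl

end

end Pool.Agent.Lib.MP_cad414_al.Cg
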