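import Mathlib

/-!
Matrices over `ZMod p` packed in one natural number.
-/

namespace Pool.Agent.Lib.MP_cad414_al.Cg

open Finset Matrix

/-- Force the value of `x`. -/
def frc {α : Type} (x : ℕ) (k : ℕ → α) : α :=
  Nat.rec (motive := fun _ => α) (k 0) (fun n _ => k (Nat.succ n)) x

@[simp] theorem frc_eq {α : Type} (x : ℕ) (k : ℕ → α) : frc x k = k x := by cases x <;> rfl

/-- The number with digits `c u`, `u < T`, in base `2 ^ w`. -/
def pk (w : ℕ) (c : ℕ → ℕ) (T : ℕ) : ℕ := ∑ u ∈ range T, c u * 2 ^ (w * u)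

/-- The digit number `u` in base `2 ^ w`. -/
def sl (w N u : ℕ) : ℕ := N >>> (w * u) % 2 ^ w

/-- `T` digits `2 ^ j - 1` in base `2 ^ W`. -/
def msk (W j T : ℕ) : ℕ :=
  Nat.mul (Nat.sub (Nat.pow 2 j) 1)
    (Nat.div (Nat.sub (Nat.pow 2 (Nat.mul W T)) 1) (Nat.sub (Nat.pow 2 W) 1))

/-- Slot width `w`, bits per entry `t`, the constants `m`, `s` of the division by `p`, and
precomputed numbers. -/
structure Par (p n : ℕ) where
  w : ℕ
  t : ℕ
  m : ℕ
  s : ℕ
  sh : ℕ
  rw : ℕ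
  mk' : ℕ
  md : ℕ
  mt : ℕ
  me : ℕ
  mq : ℕ

def mkPar (p n w t m s : ℕ) : Par p n :=
  ⟨w, t, m, s, Nat.mul w (Nat.pred n), Nat.mul w (Nat.succ n), msk (Nat.mul w (Nat.succ n)) w n,
    Nat.pred (Nat.pow 2 (Nat.mul w n)), msk w t (Nat.mul (Nat.succ n) n),
    msk (Nat.mul w 2) w (Nat.div (Nat.mul (Nat.succ n) n) 2),
    msk (Nat.mul w 2) (Nat.sub (Nat.mul w 2) s) (Nat.div (Nat.mul (Nat.succ n) n) 2)⟩

/-- `mkPar` with all numbers evaluated. -/
def Par.run {α : Type} (p n w t m s : ℕ) (k : Par p n → α) : α :=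
  frc (mkPar p n w t m s).sh fun a => frc (mkPar p n w t m s).rw fun b =>
    frc (mkPar p n w t m s).mk' fun c => frc (mkPar p n w t m s).md fun d =>
      frc (mkPar p n w t m s).mt fun e => frc (mkPar p n w t m s).me fun f =>
        frc (mkPar p n w t m s).mq fun g => k ⟨w, t, m, s, a, b, c, d, e, f, g⟩

theorem Par.run_eq {α : Type} (p n w t m s : ℕ) (k : Par p n → α) :
    Par.run p n w t m s k = k (mkPar p n w t m s) := by
  simp only [Par.run, frc_eq]
  rfl

/-- The inequalities between the parameters. -/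
def okb (p n w t m s : ℕ) : Bool :=
  decide (2 ≤ p ∧ 2 ≤ n ∧ t ≤ w ∧ p < 2 ^ w ∧ n * (p - 1) * (p - 1) < 2 ^ w ∧
    2 ^ t - 1 ≤ n * (p - 1) * (p - 1) ∧ n * (p - 1) * (p - 1) * m < 2 ^ (w * 2) ∧ s ≤ w * 2 ∧
    2 ^ s ≤ m * p ∧ n * (p - 1) * (p - 1) * (m * p - 2 ^ s) < 2 ^ s)

structure Par.Ok {p n : ℕ} (P : Par p n) : Prop where
  eq : P = mkPar p n P.w P.t P.m P.s
  p2 : 2 ≤ p
  n2 : 2 ≤ n
  tw : P.t ≤ P.w
  pw : p < 2 ^ P.w
  bd : n * (p - 1) * (p - 1) < 2 ^ P.w
  tb : 2 ^ P.t - 1 ≤ n * (p - 1) * (p - 1)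
  mw : n * (p - 1) * (p - 1) * P.m < 2 ^ (P.w * 2)
  sw : P.s ≤ P.w * 2
  dv : ∀ y ≤ n * (p - 1) * (p - 1), (y * P.m) >>> P.s = y / p

variable {p n : ℕ}

def dec (P : Par p n) (a : ℕ) : Matrix (Fin n) (Fin n) (ZMod p) :=
  of fun i j => (sl P.w a (n - 1 - j + (n + 1) * i) : ℕ)

def enc (P : Par p n) (y : Fin n → ZMod p) : ℕ :=
  pk P.w (fun k => if h : k < n then (y ⟨k, h⟩).val else 0) n

def Wf (P : Par p n) (a : ℕ) : Prop :=
  ∃ c : ℕ → ℕ, (∀ u, c u < p) ∧ a = pk P.w c ((n + 1) * n)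

/-- Matrix times vector. -/
def app (P : Par p n) (a v : ℕ) : ℕ :=
  (fun y => Nat.mod (Nat.sub y (Nat.mul (Nat.land (Nat.shiftRight (Nat.mul y P.m) P.s) P.mk') p))
    P.md) (Nat.land (Nat.shiftRight (Nat.mul a v) P.sh) P.mk')

/-- Reduce all slots modulo `p`. -/
def red (P : Par p n) (x : ℕ) : ℕ :=
  Nat.sub x (Nat.mul (Nat.add
    (Nat.land (Nat.shiftRight (Nat.mul (Nat.land x P.me) P.m) P.s) P.mq)
    (Nat.shiftLeft (Nat.land (Nat.shiftRight
      (Nat.mul (Nat.land (Nat.shiftRight x P.w) P.me) P.m) P.s) P.mq) P.w)) p)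

/-- Matrix times matrix. -/
def mul (P : Par p n) (a b : ℕ) : ℕ :=
  red P (Nat.rec (motive := fun _ => ℕ) 0 (fun j ih => Nat.add ih (Nat.mul
    (Nat.land (Nat.shiftRight a (Nat.sub P.sh (Nat.mul P.w j))) P.mk')
    (Nat.land (Nat.shiftRight b (Nat.mul P.rw j)) P.md))) n)

/-- The unit matrix. -/
def one (P : Par p n) : ℕ := Nat.shiftLeft (msk (Nat.mul P.w n) 1 n) P.sh

/-- The basis vector number `k`. -/
def bas (P : Par p n) (k : ℕ) : ℕ := Nat.shiftLeft 1 (Nat.mul P.w k)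

def wfb (P : Par p n) (a : ℕ) : Bool :=
  Bool.rec (motive := fun _ => Bool) false (Nat.beq (red P a) a) (Nat.beq (Nat.land a P.mt) a)

def vecb (P : Par p n) (v : ℕ) : Bool :=
  Bool.rec (motive := fun _ => Bool) false (wfb P v) (Nat.ble v P.md)

/-- Move blocks of `t * h` bits, of which there are `2 * c`, so that pairs at distance `2 * w * h`
become single blocks at distance `w * h`. -/
def spr (w t h c x : ℕ) : ℕ :=
  (fun M => Nat.add (Nat.land x M)
    (Nat.shiftLeft (Nat.land (Nat.shiftRight x (Nat.mul t h)) M) (Nat.mul w h)))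
    (msk (Nat.mul (Nat.mul w h) 2) (Nat.mul t h) c)

/-- From `2 ^ l` digits of `t` bits to digits of `w` bits (no proof is needed). -/
def expand (w t l x : ℕ) : ℕ :=
  Nat.rec (motive := fun _ => ℕ → ℕ → ℕ) (fun _ x => x)
    (fun i ih c x => frc (spr w t (Nat.pow 2 i) c x) (ih (Nat.mul 2 c))) l 1 x

theorem pk_succ (w : ℕ) (c : ℕ → ℕ) (T : ℕ) : pk w c (T + 1) = pk w c T + c T * 2 ^ (w * T) :=
  sum_range_succ _ _

theorem pk_congr {w T : ℕ} {c d : ℕ → ℕ} (h : ∀ u < T, c u = d u) : pk w c T = pk w d T :=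
  sum_congr rfl fun u hu => by rw [h u (mem_range.1 hu)]

theorem pk_lt {w T : ℕ} {c : ℕ → ℕ} (h : ∀ u < T, c u < 2 ^ w) : pk w c T < 2 ^ (w * T) := by
  induction T with
  | zero => simp [pk]
  | succ T ih =>
    have h1 := ih fun u hu => h u (by omega)
    have h2 : (c T + 1) * 2 ^ (w * T) ≤ 2 ^ w * 2 ^ (w * T) :=
      Nat.mul_le_mul_right _ (h T (by omega))
    rw [pk_succ, Nat.mul_succ, pow_add, mul_comm (2 ^ (w * T))]
    linarith

theorem testBit_pk {w T : ℕ} {c : ℕ → ℕ} (hw : 0 < w) (h : ∀ u < T, c u < 2 ^ w) (u r : ℕ)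
    (hr : r < w) : (pk w c T).testBit (w * u + r) = (decide (u < T) && (c u).testBit r) := by
  induction T with
  | zero => simp [pk]
  | succ T ih =>
    have h' : ∀ u < T, c u < 2 ^ w := fun u hu => h u (by omega)
    rw [pk_succ, add_comm, mul_comm (c T), Nat.testBit_two_pow_mul_add _ (pk_lt h'), ih h']
    rcases lt_trichotomy u T with h1 | rfl | h1
    · have : w * u + r < w * T := by nlinarith
      simp [this, h1, h1.le]
    · simp
    · have h2 : w * T + w ≤ w * u := by nlinarith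
      rw [if_neg (by omega), Nat.testBit_lt_two_pow ((h T (by omega)).trans_le
        (Nat.pow_le_pow_right two_pos (by omega)))]
      simp [show ¬u < T + 1 by omega]

theorem pk_ones {W j T : ℕ} (hW : 0 < W) : msk W j T = pk W (fun _ => 2 ^ j - 1) T := by
  have h := Nat.geomSum_eq (m := 2 ^ W) (Nat.one_lt_two_pow hW.ne') T
  show (2 ^ j - 1) * ((2 ^ (W * T) - 1) / (2 ^ W - 1)) = _
  rw [pow_mul, ← h, mul_sum]
  simp only [pk, pow_mul]

theorem land_msk {W j T : ℕ} (hW : 0 < W) (hj : j ≤ W) (N s : ℕ) :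
    Nat.land (Nat.shiftRight N s) (msk W j T) = pk W (fun u => N >>> (s + W * u) % 2 ^ j) T := by
  have hp : 2 ^ j ≤ 2 ^ W := Nat.pow_le_pow_right two_pos hj
  refine Nat.eq_of_testBit_eq fun b => ?_
  have hr := Nat.mod_lt b hW
  show (N >>> s &&& _).testBit b = _
  rw [← Nat.div_add_mod b W, pk_ones hW, Nat.testBit_land,
    testBit_pk hW (fun _ _ => by have := Nat.two_pow_pos j; omega) _ _ hr,
    testBit_pk hW (fun _ _ => (Nat.mod_lt _ (Nat.two_pow_pos j)).trans_le hp) _ _ hr]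
  simp only [Nat.testBit_two_pow_sub_one, Nat.testBit_mod_two_pow, Nat.testBit_shiftRight,
    add_assoc]
  cases decide (b / W < T) <;> cases decide (b % W < j) <;> simp

theorem pk_slot {w T : ℕ} {c : ℕ → ℕ} (h : ∀ u < T, c u < 2 ^ w) {u s j : ℕ} (hu : u < T)
    (hs : s + j ≤ w) : pk w c T >>> (s + w * u) % 2 ^ j = c u >>> s % 2 ^ j := by
  refine Nat.eq_of_testBit_eq fun b => ?_
  simp only [Nat.testBit_mod_two_pow, Nat.testBit_shiftRight]
  by_cases hb : b < j
  · rw [show s + w * u + b = w * u + (s + b) by ring, testBit_pk (by omega) h _ _ (by omega)]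
    simp [hu]
  · simp [hb]

theorem sl_pk {w T : ℕ} {c : ℕ → ℕ} (h : ∀ u < T, c u < 2 ^ w) {u : ℕ} (hu : u < T) :
    sl w (pk w c T) u = c u := by
  have := pk_slot h hu (s := 0) (j := w) (by omega)
  rw [zero_add] at this
  rw [sl, this, Nat.shiftRight_zero, Nat.mod_eq_of_lt (h u hu)]

theorem pk_add (w : ℕ) (c d : ℕ → ℕ) (T : ℕ) :
    pk w c T + pk w d T = pk w (fun u => c u + d u) T := by
  simp only [pk, add_mul, sum_add_distrib]

theorem pk_mul (w : ℕ) (c : ℕ → ℕ) (T m : ℕ) : pk w c T * m = pk w (fun u => c u * m) T := by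
  simp only [pk, sum_mul, mul_right_comm]

theorem pk_split (w : ℕ) (c : ℕ → ℕ) (T S : ℕ) :
    pk w c (T + S) = pk w c T + pk w (fun u => c (T + u)) S * 2 ^ (w * T) := by
  simp only [pk, sum_range_add, sum_mul, mul_add, pow_add, mul_assoc, mul_comm (2 ^ (w * T))]

theorem pk_nest (w k : ℕ) (hk : 0 < k) (f : ℕ → ℕ → ℕ) (r : ℕ) :
    pk (w * k) (fun i => pk w (f i) k) r = pk w (fun u => f (u / k) (u % k)) (k * r) := by
  induction r with
  | zero => simp [pk]
  | succ r ih =>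
    rw [pk_succ, ih, Nat.mul_succ, pk_split, mul_assoc]
    congr 2
    exact pk_congr fun u hu => by
      rw [Nat.mul_add_div hk, Nat.mul_add_mod, Nat.div_eq_of_lt hu, Nat.mod_eq_of_lt hu, add_zero]

theorem pk_sub (w : ℕ) (c : ℕ → ℕ) (T p : ℕ) :
    pk w c T - pk w (fun u => c u / p) T * p = pk w (fun u => c u % p) T := by
  rw [pk_mul]
  refine Nat.sub_eq_of_eq_add ?_
  rw [pk_add]
  exact pk_congr fun u _ => (Nat.mod_add_div' _ _).symm

theorem ok_of {w t m s : ℕ} (h : okb p n w t m s = true) : (mkPar p n w t m s).Ok := by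
  obtain ⟨h1, h2, h3, h4, h5, h6, h7, h8, h9, h10⟩ := of_decide_eq_true h
  refine ⟨rfl, h1, h2, h3, h4, h5, h6, h7, h8, fun y hy => ?_⟩
  show (y * m) >>> s = y / p
  obtain ⟨e, he⟩ := Nat.exists_eq_add_of_le h9
  rw [he, Nat.add_sub_cancel_left] at h10
  have hy' : y * e < 2 ^ s := (Nat.mul_le_mul_right _ hy).trans_lt h10
  have a1 := Nat.div_add_mod y p
  have a2 := Nat.mod_lt y (show 0 < p by omega)
  rw [Nat.shiftRight_eq_div_pow]
  refine Nat.div_eq_of_lt_le ?_ ?_
  · have : y / p * (m * p) ≤ y * m := by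
      rw [show y / p * (m * p) = p * (y / p) * m by ring]
      exact Nat.mul_le_mul_right _ (by omega)
    exact (Nat.mul_le_mul_left _ h9).trans this
  · refine Nat.lt_of_mul_lt_mul_right (a := p) ?_
    have : (y + 1) * 2 ^ s ≤ (p * (y / p) + p) * 2 ^ s := Nat.mul_le_mul_right _ (by omega)
    rw [mul_assoc, he]
    linarith

variable {P : Par p n}

namespace Par.Ok

variable (h : P.Ok)
include h

theorem w0 : 0 < P.w := by
  rcases Nat.eq_zero_or_pos P.w with e | e
  · have := h.pw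
    have := h.p2
    rw [e] at *
    omega
  · exact e

theorem sh : P.sh = P.w * (n - 1) := congrArg Par.sh h.eq

theorem rw' : P.rw = P.w * (n + 1) := congrArg Par.rw h.eq

theorem mk'' : P.mk' = msk (P.w * (n + 1)) P.w n := congrArg Par.mk' h.eq

theorem md : P.md = 2 ^ (P.w * n) - 1 := congrArg Par.md h.eq

theorem mt : P.mt = msk P.w P.t ((n + 1) * n) := congrArg Par.mt h.eq

theorem me : P.me = msk (P.w * 2) P.w ((n + 1) * n / 2) := congrArg Par.me h.eq

theorem mq : P.mq = msk (P.w * 2) (P.w * 2 - P.s) ((n + 1) * n / 2) := congrArg Par.mq h.eq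

/-- Division of spread slots. -/
theorem quo {W j T : ℕ} {c : ℕ → ℕ} (hc : ∀ u < T, c u ≤ n * (p - 1) * (p - 1))
    (hW : P.w * 2 ≤ W) (hs : P.s + j ≤ W) (hj : P.w * 2 - P.s ≤ j ∨ P.w ≤ j) :
    Nat.land (Nat.shiftRight (Nat.mul (pk W c T) P.m) P.s) (msk W j T) =
      pk W (fun u => c u / p) T := by
  have := h.w0
  have b : ∀ u < T, c u * P.m < 2 ^ (P.w * 2) := fun u hu =>
    (Nat.mul_le_mul_right _ (hc u hu)).trans_lt h.mw
  rw [land_msk (by omega) (by omega)]
  refine pk_congr fun u hu => ?_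
  show (pk W c T * P.m) >>> _ % _ = _
  rw [pk_mul, pk_slot (fun u hu => (b u hu).trans_le (Nat.pow_le_pow_right two_pos hW)) hu hs]
  rw [Nat.mod_eq_of_lt, h.dv _ (hc u hu)]
  rcases hj with hj | hj
  · rw [Nat.shiftRight_eq_div_pow, Nat.div_lt_iff_lt_mul (Nat.two_pow_pos _), ← pow_add]
    exact (b u hu).trans_le (Nat.pow_le_pow_right two_pos (by omega))
  · rw [h.dv _ (hc u hu)]
    exact ((Nat.div_le_self _ _).trans (hc u hu)).trans_lt
      (h.bd.trans_le (Nat.pow_le_pow_right two_pos hj))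

theorem red_pk {c : ℕ → ℕ} (hc : ∀ u < (n + 1) * n, c u ≤ n * (p - 1) * (p - 1)) :
    red P (pk P.w c ((n + 1) * n)) = pk P.w (fun u => c u % p) ((n + 1) * n) := by
  have := h.w0
  have := h.sw
  obtain ⟨T, hT⟩ : ∃ T, (n + 1) * n = 2 * T :=
    (mul_comm n (n + 1) ▸ Nat.even_mul_succ_self n).two_dvd
  have b : ∀ u < 2 * T, c u < 2 ^ P.w := fun u hu => (hc u (hT ▸ hu)).trans_lt h.bd
  have e : ∀ r < 2, Nat.land (Nat.shiftRight (pk P.w c (2 * T)) (P.w * r)) (msk (P.w * 2) P.w T) =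
      pk (P.w * 2) (fun u => c (2 * u + r)) T := fun r hr => by
    rw [land_msk (by omega) (by omega)]
    exact pk_congr fun u hu => by
      rw [show P.w * r + P.w * 2 * u = P.w * (2 * u + r) by ring]
      exact sl_pk b (by omega)
  have e0 : Nat.land (pk P.w c (2 * T)) _ = _ := e 0 two_pos
  have e1 := e 1 one_lt_two
  rw [mul_one] at e1
  have q : ∀ r < 2, _ := fun r hr => h.quo (W := P.w * 2) (j := P.w * 2 - P.s) (T := T)
    (c := fun u => c (2 * u + r)) (fun u hu => hc _ (by omega)) le_rfl (by omega) (.inl le_rfl)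
  rw [red, h.me, h.mq, hT, Nat.mul_div_cancel_left _ two_pos, e0, e1, q 0 two_pos, q 1 one_lt_two,
    ← pk_sub]
  congr 2
  show _ + pk _ _ _ <<< P.w = _
  rw [Nat.shiftLeft_eq, pk_mul, pk_add]
  refine .trans (pk_congr fun u _ => ?_)
    ((pk_nest P.w 2 two_pos (fun i r => c (2 * i + r) / p) T).trans
      (pk_congr fun u _ => by rw [Nat.div_add_mod]))
  simp [pk, sum_range_succ]

end Par.Ok

theorem wf_of (h : P.Ok) {a : ℕ} (ha : wfb P a = true) : Wf P a := by
  have := h.p2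
  rw [wfb] at ha
  cases e : Nat.beq (Nat.land a P.mt) a with
  | false => rw [e] at ha; cases ha
  | true =>
    rw [e] at ha
    have e1 := land_msk (T := (n + 1) * n) h.w0 h.tw a 0
    rw [← h.mt] at e1
    have e2 : a = _ := (Nat.eq_of_beq_eq_true e).symm.trans e1
    have e3 : red P a = a := Nat.eq_of_beq_eq_true ha
    exact ⟨_, fun u => Nat.mod_lt _ (by omega), e3.symm.trans ((congrArg _ e2).trans
      (h.red_pk fun u _ => (Nat.le_sub_one_of_lt (Nat.mod_lt _ (Nat.two_pow_pos _))).trans h.tb))⟩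

theorem dec_pk (h : P.Ok) {c : ℕ → ℕ} (hc : ∀ u, c u < p) (i j : Fin n) :
    dec P (pk P.w c ((n + 1) * n)) i j = (c (n - 1 - j + (n + 1) * i) : ℕ) := by
  have hi : (n + 1) * i + (n + 1) ≤ (n + 1) * n := Nat.mul_le_mul_left (n + 1) i.2
  rw [dec, of_apply, sl_pk (fun u _ => (hc u).trans h.pw) (by omega)]

theorem sum_bd {f g : ℕ → ℕ} (hf : ∀ k, f k < p) (hg : ∀ k, g k < p) :
    ∑ k ∈ range n, f k * g k ≤ n * (p - 1) * (p - 1) := by
  have := sum_le_card_nsmul (range n) (fun k => f k * g k) ((p - 1) * (p - 1)) fun k _ =>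
    Nat.mul_le_mul (Nat.le_sub_one_of_lt (hf k)) (Nat.le_sub_one_of_lt (hg k))
  rwa [card_range, smul_eq_mul, ← mul_assoc] at this

theorem pk_conv (w : ℕ) (c y : ℕ → ℕ) (T n : ℕ) : pk w c T * pk w y n =
    pk w (fun u => ∑ k ∈ range n, (if k ≤ u ∧ u < T + k then c (u - k) else 0) * y k) (T + n) := by
  simp only [pk, mul_sum, sum_mul]
  rw [sum_comm (s := range (T + n))]
  refine sum_congr rfl fun k hk => ?_
  have hk := mem_range.1 hk
  simp only [ite_mul, zero_mul]
  rw [← sum_filter]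
  refine sum_bij (fun u _ => u + k) (fun u hu => ?_) (fun _ _ _ _ e => by omega)
    (fun u hu => ⟨u - k, ?_, ?_⟩) fun u _ => ?_
  · simp only [mem_range, mem_filter] at *
    omega
  · simp only [mem_range, mem_filter] at *
    omega
  · simp only [mem_range, mem_filter] at *
    omega
  · rw [Nat.add_sub_cancel, mul_add, pow_add]
    ring

theorem pk_gather {w n : ℕ} {r : ℕ → ℕ} (hn : 0 < n) (hr : ∀ i < n, r i + 1 < 2 ^ w) :
    pk (w * (n + 1)) r n % (2 ^ (w * n) - 1) = pk w r n := by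
  have h1 : pk w r n + pk w (fun _ => 1) n < 2 ^ (w * n) := by
    rw [pk_add]
    exact pk_lt hr
  have h2 : 1 * 2 ^ (w * 0) ≤ pk w (fun _ => 1) n :=
    single_le_sum (f := fun u => 1 * 2 ^ (w * u)) (fun _ _ => Nat.zero_le _) (mem_range.2 hn)
  rw [mul_zero, pow_zero] at h2
  rw [← Nat.mod_eq_of_lt (show pk w r n < 2 ^ (w * n) - 1 by omega)]
  refine Nat.ModEq.sum fun i _ => Nat.ModEq.mul_left _ ?_
  have h3 : 2 ^ (w * n) ≡ 1 [MOD 2 ^ (w * n) - 1] :=
    ((Nat.modEq_iff_dvd' (Nat.two_pow_pos _)).2 dvd_rfl).symm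
  rw [show w * (n + 1) * i = w * i + w * n * i by ring, pow_add, pow_mul _ (w * n)]
  simpa using (h3.pow i).mul_left (2 ^ (w * i))

theorem enc_lt (h : P.Ok) (y : Fin n → ZMod p) (k : ℕ) :
    (if h : k < n then (y ⟨k, h⟩).val else 0) < p := by
  have := h.p2
  have : NeZero p := ⟨by omega⟩
  split_ifs
  exacts [ZMod.val_lt _, by omega]

theorem app_eq (h : P.Ok) {a : ℕ} (ha : Wf P a) (y : Fin n → ZMod p) :
    app P a (enc P y) = enc P (dec P a *ᵥ y) := by
  obtain ⟨c, hc, rfl⟩ := ha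
  have := h.w0
  have := h.p2
  have := h.n2
  have := h.sw
  have : NeZero p := ⟨by omega⟩
  set Y := fun k => if h : k < n then (y ⟨k, h⟩).val else 0 with hY
  have hb : ∀ u, ∑ k ∈ range n, (if k ≤ u ∧ u < (n + 1) * n + k then c (u - k) else 0) * Y k ≤
      n * (p - 1) * (p - 1) := fun u => sum_bd (fun k => by
    split_ifs
    exacts [hc _, by omega]) (enc_lt h y)
  have hW : P.w * 3 ≤ P.w * (n + 1) := Nat.mul_le_mul_left _ (by omega)
  have e : Nat.land (Nat.shiftRight (Nat.mul (pk P.w c ((n + 1) * n)) (enc P y)) P.sh) P.mk' =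
      pk (P.w * (n + 1)) (fun i => ∑ k ∈ range n, c (n - 1 - k + (n + 1) * i) * Y k) n := by
    rw [h.mk'', land_msk (by omega) (by omega), h.sh]
    refine pk_congr fun i hi => ?_
    have hi : (n + 1) * i + (n + 1) ≤ (n + 1) * n := Nat.mul_le_mul_left (n + 1) hi
    rw [show P.w * (n - 1) + P.w * (n + 1) * i = P.w * (n - 1 + (n + 1) * i) by ring]
    show sl _ (pk _ _ _ * pk _ Y _) _ = _
    rw [pk_conv, sl_pk (fun u _ => (hb u).trans_lt h.bd) (by omega)]
    refine sum_congr rfl fun k hk => ?_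
    have hk := mem_range.1 hk
    rw [if_pos (by omega), show n - 1 + (n + 1) * i - k = n - 1 - k + (n + 1) * i by omega]
  have hd : ∀ i < n, ∑ k ∈ range n, c (n - 1 - k + (n + 1) * i) * Y k ≤ n * (p - 1) * (p - 1) :=
    fun i _ => sum_bd (fun k => hc _) (enc_lt h y)
  simp only [app]
  rw [e, h.mk'', h.quo hd (by omega) (by omega) (.inr le_rfl), h.md]
  show (_ - pk _ _ _ * p) % _ = _
  rw [pk_sub, pk_gather (by omega) fun i _ =>
    (Nat.succ_le_of_lt (Nat.mod_lt _ (by omega))).trans_lt h.pw]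
  refine pk_congr fun i hi => ?_
  rw [dif_pos hi, ← ZMod.val_natCast, mulVec, dotProduct, ← Fin.sum_univ_eq_sum_range
    (fun k => c (n - 1 - k + (n + 1) * i) * Y k)]
  congr 1
  push_cast
  refine sum_congr rfl fun k _ => ?_
  rw [dec_pk h hc, hY]
  simp

theorem mul_ok (h : P.Ok) {a b : ℕ} (ha : Wf P a) (hb : Wf P b) :
    Wf P (mul P a b) ∧ dec P (mul P a b) = dec P a * dec P b := by
  obtain ⟨c, hc, rfl⟩ := ha
  obtain ⟨d, hd, rfl⟩ := hb
  have := h.w0
  have := h.p2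
  have := h.n2
  have hW : P.w * 3 ≤ P.w * (n + 1) := Nat.mul_le_mul_left _ (by omega)
  set F : ℕ → ℕ → ℕ → ℕ := fun r i l => ∑ j ∈ range r,
    c (n - 1 - j + (n + 1) * i) * if l < n then d (l + (n + 1) * j) else 0 with hF
  have e : ∀ r ≤ n, Nat.rec (motive := fun _ => ℕ) 0 (fun j ih => Nat.add ih (Nat.mul
      (Nat.land (Nat.shiftRight (pk P.w c ((n + 1) * n)) (Nat.sub P.sh (Nat.mul P.w j))) P.mk')
      (Nat.land (Nat.shiftRight (pk P.w d ((n + 1) * n)) (Nat.mul P.rw j)) P.md))) r =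
      pk (P.w * (n + 1)) (fun i => pk P.w (F r i) (n + 1)) n := fun r hr => by
    induction r with
    | zero => simp [hF, pk]
    | succ j ih =>
      have hj : (n + 1) * j + (n + 1) ≤ (n + 1) * n := Nat.mul_le_mul_left (n + 1) hr
      have e1 : Nat.land (Nat.shiftRight (pk P.w c ((n + 1) * n)) (Nat.sub P.sh (Nat.mul P.w j)))
          P.mk' = pk (P.w * (n + 1)) (fun i => c (n - 1 - j + (n + 1) * i)) n := by
        rw [h.mk'', land_msk (by omega) (by omega), h.sh]
        refine pk_congr fun i hi => ?_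
        have hi : (n + 1) * i + (n + 1) ≤ (n + 1) * n := Nat.mul_le_mul_left (n + 1) hi
        show _ >>> (P.w * (n - 1) - P.w * j + _) % _ = _
        rw [← Nat.mul_sub, mul_assoc, ← mul_add]
        exact sl_pk (fun u _ => (hc u).trans h.pw) (by omega)
      have e2 : Nat.land (Nat.shiftRight (pk P.w d ((n + 1) * n)) (Nat.mul P.rw j)) P.md =
          pk P.w (fun l => if l < n then d (l + (n + 1) * j) else 0) (n + 1) := by
        have : P.md = msk P.w P.w n := by
          rw [h.md]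
          refine (Nat.mul_div_cancel' ?_).symm
          show 2 ^ P.w - 1 ∣ 2 ^ (P.w * n) - 1
          rw [pow_mul]
          simpa using Nat.sub_dvd_pow_sub_pow (2 ^ P.w) 1 n
        rw [this, land_msk (by omega) le_rfl, h.rw', pk_succ, if_neg (lt_irrefl n), zero_mul,
          add_zero]
        refine pk_congr fun l hl => ?_
        show _ >>> (P.w * (n + 1) * j + _) % _ = _
        rw [if_pos hl, mul_assoc, ← mul_add, add_comm l]
        exact sl_pk (fun u _ => (hd u).trans h.pw) (by omega)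
      show _ + Nat.land _ _ * Nat.land _ _ = _
      rw [ih (by omega), e1, e2, pk_mul, pk_add]
      refine pk_congr fun i _ => ?_
      rw [mul_comm (c _), pk_mul, pk_add]
      exact pk_congr fun l _ => by simp only [hF, sum_range_succ, mul_comm]
  have hb : ∀ i l, F n i l ≤ n * (p - 1) * (p - 1) := fun i l => sum_bd (fun _ => hc _) fun _ => by
    split_ifs
    exacts [hd _, by omega]
  have hm : ∀ u, F n (u / (n + 1)) (u % (n + 1)) % p < p := fun u => Nat.mod_lt _ (by omega)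
  rw [mul, e n le_rfl, pk_nest _ _ n.succ_pos, h.red_pk fun u _ => hb _ _]
  refine ⟨⟨_, hm, rfl⟩, ext fun i l => ?_⟩
  have hl := l.2
  rw [dec_pk h hm, Nat.add_mul_div_left _ _ n.succ_pos, Nat.add_mul_mod_self_left,
    Nat.div_eq_of_lt (by omega), Nat.mod_eq_of_lt (show n - 1 - l < n + 1 by omega), zero_add,
    ZMod.natCast_mod, mul_apply, hF]
  simp only [if_pos (show n - 1 - l < n by omega)]
  rw [← Fin.sum_univ_eq_sum_range
    (fun j => c (n - 1 - j + (n + 1) * i) * d (n - 1 - l + (n + 1) * j))]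
  push_cast
  exact sum_congr rfl fun j _ => by rw [dec_pk h hc, dec_pk h hd]

theorem one_ok (h : P.Ok) : Wf P (one P) ∧ dec P (one P) = 1 := by
  have := h.w0
  have := h.p2
  have := h.n2
  have hc : ∀ u, (if u % (n + 1) = n - 1 - u / (n + 1) then 1 else 0) < p := fun u => by
    split_ifs <;> omega
  have e : one P = pk P.w (fun u => if u % (n + 1) = n - 1 - u / (n + 1) then 1 else 0)
      ((n + 1) * n) := by
    rw [← pk_nest P.w (n + 1) n.succ_pos fun i l => if l = n - 1 - i then 1 else 0]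
    show msk (P.w * n) 1 n <<< _ = _
    rw [Nat.shiftLeft_eq, pk_ones (by positivity), h.sh, pk, sum_mul]
    refine sum_congr rfl fun i hi => ?_
    have hi := mem_range.1 hi
    obtain ⟨k, rfl⟩ := Nat.exists_eq_add_of_lt hi
    simp only [pk, ite_mul, zero_mul, sum_ite_eq', mem_range, one_mul]
    rw [if_pos (by omega), show i + k + 1 - 1 - i = k by omega, Nat.add_sub_cancel]
    ring
  rw [e]
  refine ⟨⟨_, hc, rfl⟩, ext fun i l => ?_⟩
  have hl := l.2
  have hi := i.2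
  rw [dec_pk h hc, Nat.add_mul_div_left _ _ n.succ_pos, Nat.add_mul_mod_self_left,
    Nat.div_eq_of_lt (by omega), Nat.mod_eq_of_lt (show n - 1 - l < n + 1 by omega), zero_add,
    one_apply]
  by_cases e : i = l
  · simp [e]
  · rw [if_neg e, if_neg fun e' => e (Fin.ext (by omega)), Nat.cast_zero]

theorem enc_inj (h : P.Ok) : Function.Injective (enc P) := fun y y' e => by
  have := h.p2
  have : NeZero p := ⟨by omega⟩
  funext k
  have e' := congrArg (sl P.w · k) e
  simp only [enc, sl_pk (fun u _ => (enc_lt h _ u).trans h.pw) k.2, dif_pos k.2] at e'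
  exact ZMod.val_injective p e'

theorem vecb_ex (h : P.Ok) {v : ℕ} (hv : vecb P v = true) : ∃ y, v = enc P y := by
  have := h.p2
  have := h.n2
  have : NeZero p := ⟨by omega⟩
  rw [vecb] at hv
  cases e : Nat.ble v P.md with
  | false => rw [e] at hv; cases hv
  | true =>
    rw [e] at hv
    obtain ⟨c, hc, rfl⟩ := wf_of h hv
    have hl := Nat.le_of_ble_eq_true e
    have h2 := Nat.two_pow_pos (P.w * n)
    rw [h.md, add_mul, one_mul, add_comm, pk_split] at hl
    refine ⟨fun k => (c k : ℕ), ?_⟩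
    rw [add_mul, one_mul, add_comm, pk_split]
    rcases Nat.eq_zero_or_pos (pk P.w (fun u => c (n + u)) (n * n)) with z | z
    · rw [z, zero_mul, add_zero]
      exact pk_congr fun k hk => by rw [dif_pos hk, ZMod.val_natCast, Nat.mod_eq_of_lt (hc k)]
    · have := Nat.le_mul_of_pos_left (2 ^ (P.w * n)) z
      omega

theorem bas_eq (h : P.Ok) (k : Fin n) : bas P k = enc P (Pi.single k 1) := by
  have : Fact (1 < p) := ⟨h.p2⟩
  show 1 <<< (P.w * k) = _
  rw [Nat.shiftLeft_eq, enc, pk, sum_eq_single_of_mem k.1 (mem_range.2 k.2)]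
  · simp [ZMod.val_one]
  · intro u hu hne
    rw [dif_pos (mem_range.1 hu), Pi.single_eq_of_ne fun e => hne (congrArg Fin.val e)]
    simp

end Pool.Agent.Lib.MP_cad414_al.Cg
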