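import Pool.Agent.Lib.MP_cad414_al.Cg.Gq
import Pool.Agent.Lib.MP_cad414_al.Cg.Mx

/-! Tables of group elements given by codes, words, and checks of identities. -/

namespace Pool.Agent.Lib.MP_cad414_al.Cg

open Subgroup

/-- The computational side of a model. -/
structure Env where
  ap : ℕ → ℕ → ℕ
  mu : ℕ → ℕ → ℕ
  one : ℕ
  ex : ℕ → ℕ
  full : Bool
  base : List ℕ
  vec : ℕ → Bool
  lit : ℕ → ℕ → Bool

/-- A model: codes of group elements and of points. -/
structure Mdl (Γ X : Type) [Group Γ] [MulAction Γ X] where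
  E : Env
  run : (Env → Bool) → Bool
  run_eq : ∀ k, run k = k E
  R : ℕ → Γ → Prop
  en : X → ℕ
  de : ℕ → X
  de_en : ∀ v, de (en v) = v
  uniq : ∀ {c a b}, R c a → R c b → a = b
  one : R E.one 1
  mu : ∀ {a b x y}, R a x → R b y → R (E.mu a b) (x * y)
  ap : ∀ {a x}, R a x → ∀ v, E.ap a (en v) = en (x • v)
  vec : ∀ {c}, E.vec c = true → ∃ v, c = en v
  lit : ∀ {c k}, E.lit c k = true → ∃ x, R c x
  base : ∀ c ∈ E.base, ∃ v, c = en v
  sep : ∀ x : Γ, (∀ c ∈ E.base, x • de c = de c) → x = 1

/-- A table entry: a literal `(c, k, [])` or a product `(_, _, w)` of earlier entries. -/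
abbrev Ins := ℕ × ℕ × List ℕ

noncomputable section

def get (d : ℕ) (T : List ℕ) (i : ℕ) : ℕ :=
  List.rec (motive := fun _ => ℕ → ℕ) (fun _ => d)
    (fun a _ ih i => Nat.rec (motive := fun _ => ℕ) a (fun j _ => ih j) i) T i

theorem get_eq (d : ℕ) (T : List ℕ) (i : ℕ) : get d T i = T.getD i d := by
  induction T generalizing i with
  | nil => rfl
  | cons a T ih => cases i with
    | zero => rfl
    | succ i => exact ih i

def al {α : Type} (l : List α) (f : α → Bool) : Bool :=
  List.rec (motive := fun _ => Bool) true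
    (fun a _ ih => Bool.rec (motive := fun _ => Bool) false ih (f a)) l

theorem al_iff {α : Type} {l : List α} {f : α → Bool} : al l f = true ↔ ∀ a ∈ l, f a = true := by
  induction l with
  | nil => simp [al]
  | cons a l ih =>
    rw [List.forall_mem_cons, ← ih]
    show Bool.rec (motive := fun _ => Bool) false (al l f) (f a) = true ↔ _
    cases f a <;> simp

def al2 {α β : Type} (f : α → β → Bool) (l : List α) : List β → Bool :=
  List.rec (motive := fun _ => List β → Bool) (fun _ => true)
    (fun a _ ih m => List.rec (motive := fun _ => Bool) false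
      (fun b m' _ => Bool.rec (motive := fun _ => Bool) false (ih m') (f a b)) m) l

theorem al2_ex {α β : Type} {f : α → β → Bool} {l : List α} {m : List β}
    (h : al2 f l m = true) : ∀ a ∈ l, ∃ b, f a b = true := by
  induction l generalizing m with
  | nil => simp
  | cons a l ih => cases m with
    | nil => cases h
    | cons b m =>
      have h' : Bool.rec (motive := fun _ => Bool) false (al2 f l m) (f a b) = true := h
      cases e : f a b with
      | false => rw [e] at h'; cases h'
      | true => rw [e] at h'; exact List.forall_mem_cons.2 ⟨⟨b, e⟩, ih h'⟩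

def mem (j : ℕ) (l : List ℕ) : Bool :=
  List.rec (motive := fun _ => Bool) false
    (fun a _ ih => Bool.rec (motive := fun _ => Bool) ih true (Nat.beq a j)) l

theorem mem_of {j : ℕ} {l : List ℕ} (h : mem j l = true) : j ∈ l := by
  induction l with
  | nil => cases h
  | cons a l ih =>
    have h' : Bool.rec (motive := fun _ => Bool) (mem j l) true (Nat.beq a j) = true := h
    cases e : Nat.beq a j with
    | false => rw [e] at h'; exact List.mem_cons_of_mem _ (ih h')
    | true => rw [Nat.eq_of_beq_eq_true e]; exact List.mem_cons_self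

def sub (w l : List ℕ) : Bool := al w fun j => mem j l

theorem sub_of {w l : List ℕ} (h : sub w l = true) : ∀ j ∈ w, j ∈ l :=
  fun j hj => mem_of (al_iff.1 h j hj)

/-- The code of the product of a word. -/
def pw (E : Env) (T w : List ℕ) : ℕ :=
  List.rec (motive := fun _ => ℕ) E.one (fun i t ih => frc (get E.one T i) fun a =>
    List.rec (motive := fun _ => ℕ) a (fun _ _ _ => frc ih fun c => E.mu a c) t) w

/-- A word applied to a point. -/
def aw (E : Env) (T w : List ℕ) (v : ℕ) : ℕ :=
  List.rec (motive := fun _ => ℕ) v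
    (fun i _ ih => frc ih fun c => frc (get E.one T i) fun a => E.ap a c) w

def eqw (E : Env) (T w₁ w₂ : List ℕ) : Bool :=
  Bool.rec (motive := fun _ => Bool)
    (al E.base fun v => frc v fun v => Nat.beq (aw E T w₁ v) (aw E T w₂ v))
    (Nat.beq (pw E T w₁) (pw E T w₂)) E.full

def val (E : Env) (acc : List ℕ) (x : Ins) : ℕ :=
  List.rec (motive := fun _ => ℕ) (E.ex x.1) (fun _ _ _ => pw E acc x.2.2) x.2.2

def tabA (E : Env) (I : List Ins) (acc : List ℕ) : List ℕ :=
  I.foldl (fun acc x => acc ++ [val E acc x]) acc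

def tab (E : Env) (I : List Ins) : List ℕ := tabA E I []

def snoc {α : Type} (l : List ℕ) (c : ℕ) : (List ℕ → α) → α :=
  List.rec (motive := fun _ => (List ℕ → α) → α) (fun k => k [c])
    (fun a _ ih k => ih fun t => k (a :: t)) l

theorem snoc_eq {α : Type} (l : List ℕ) (c : ℕ) (k : List ℕ → α) : snoc l c k = k (l ++ [c]) := by
  induction l generalizing k with
  | nil => rfl
  | cons a l ih => exact ih _

def bld (E : Env) (k : List ℕ → Bool) (I : List Ins) : List ℕ → Bool :=
  List.rec (motive := fun _ => List ℕ → Bool) k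
    (fun x _ ih acc => frc (val E acc x) fun c => snoc acc c ih) I

theorem bld_eq (E : Env) (k : List ℕ → Bool) (I : List Ins) (acc : List ℕ) :
    bld E k I acc = k (tabA E I acc) := by
  induction I generalizing acc with
  | nil => rfl
  | cons x I ih =>
    show frc (val E acc x) (fun c => snoc acc c (bld E k I)) = _
    rw [frc_eq, snoc_eq, ih]; rfl

theorem tabA_pre (E : Env) (I : List Ins) (acc : List ℕ) :
    ∃ t, tabA E I acc = acc ++ t ∧ t.length = I.length := by
  induction I generalizing acc with
  | nil => exact ⟨[], by simp [tabA], rfl⟩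
  | cons x I ih =>
    obtain ⟨t, h, hl⟩ := ih (acc ++ [val E acc x])
    exact ⟨val E acc x :: t, by rw [show tabA E (x :: I) acc = _ from h]; simp, by simp [hl]⟩

theorem tab_len (E : Env) (I : List Ins) : (tab E I).length = I.length := by
  obtain ⟨t, h, hl⟩ := tabA_pre E I []
  rw [tab, h, List.nil_append, hl]

theorem get_app (E : Env) (I J : List Ins) {i : ℕ} (hi : i < I.length) :
    get E.one (tab E (I ++ J)) i = get E.one (tab E I) i := by
  obtain ⟨t, h, -⟩ := tabA_pre E J (tab E I)
  have : tab E (I ++ J) = tabA E J (tab E I) := List.foldl_append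
  rw [this, h, get_eq, get_eq, List.getD_append _ _ _ _ (by rw [tab_len]; exact hi)]

theorem get_last (E : Env) (I : List Ins) (x : Ins) :
    get E.one (tab E (I ++ [x])) I.length = val E (tab E I) x := by
  have : tab E (I ++ [x]) = tab E I ++ [val E (tab E I) x] := List.foldl_append
  rw [this, get_eq, ← tab_len E I]
  simp

variable {Γ X : Type} [Group Γ] [MulAction Γ X] (M : Mdl Γ X)

namespace Mdl

/-- Run a check on the table of `I`. -/
def go (I : List Ins) (k : Env → List ℕ → Bool) : Bool := M.run fun E => bld E (k E) I []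

theorem go_eq (I : List Ins) (k : Env → List ℕ → Bool) : M.go I k = k M.E (tab M.E I) := by
  rw [go, M.run_eq, bld_eq]; rfl

open Classical in
/-- The element with code `c`. -/
def el (c : ℕ) : Γ := if h : ∃ x, M.R c x then h.choose else 1

theorem el_eq {c : ℕ} {x : Γ} (h : M.R c x) : M.el c = x := by
  have h' : ∃ x, M.R c x := ⟨x, h⟩
  rw [el, dif_pos h']
  exact M.uniq h'.choose_spec h

def g (I : List Ins) (i : ℕ) : Γ := M.el (get M.E.one (tab M.E I) i)

def wd (I : List Ins) (w : List ℕ) : Γ := (w.map (M.g I)).prod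

def gs (I : List Ins) (l : List ℕ) : Set Γ := M.g I '' {i | i ∈ l}

def cl (I : List Ins) (l : List ℕ) : Subgroup Γ := closure (M.gs I l)

/-- All literals of the table are codes of group elements. -/
def Ok (I : List Ins) : Prop := ∀ x ∈ I, x.2.2 = [] → ∃ y, M.R (M.E.ex x.1) y

variable {M} {I : List Ins}

@[simp] theorem wd_nil : M.wd I [] = 1 := rfl

@[simp] theorem wd_cons (i : ℕ) (w : List ℕ) : M.wd I (i :: w) = M.g I i * M.wd I w := by
  simp [wd]

@[simp] theorem wd_app (v w : List ℕ) : M.wd I (v ++ w) = M.wd I v * M.wd I w := by simp [wd]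

theorem wd_rep (e i : ℕ) : M.wd I (List.replicate e i) = M.g I i ^ e := by simp [wd]

theorem g_mem {l : List ℕ} {i : ℕ} (h : i ∈ l) : M.g I i ∈ M.cl I l := subset_closure ⟨i, h, rfl⟩

theorem wd_mem {l w : List ℕ} (h : ∀ j ∈ w, j ∈ l) : M.wd I w ∈ M.cl I l := by
  induction w with
  | nil => exact one_mem _
  | cons i w ih =>
    rw [wd_cons]
    exact mul_mem (g_mem (h i List.mem_cons_self)) (ih fun j hj => h j (List.mem_cons_of_mem _ hj))

theorem cl_le {l : List ℕ} {H : Subgroup Γ} (h : ∀ i ∈ l, M.g I i ∈ H) : M.cl I l ≤ H :=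
  (closure_le _).2 (by rintro _ ⟨i, hi, rfl⟩; exact h i hi)

theorem pw_R {T : List ℕ} {f : ℕ → Γ} {w : List ℕ} (h : ∀ i ∈ w, M.R (get M.E.one T i) (f i)) :
    M.R (pw M.E T w) (w.map f).prod := by
  induction w with
  | nil => exact M.one
  | cons i t ih =>
    have hi := h i List.mem_cons_self
    have ih := ih fun j hj => h j (List.mem_cons_of_mem _ hj)
    cases t with
    | nil => simpa [pw] using hi
    | cons j t =>
      have : pw M.E T (i :: j :: t) = M.E.mu (get M.E.one T i) (pw M.E T (j :: t)) := by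
        simp [pw]
      rw [this, List.map_cons, List.prod_cons]
      exact M.mu hi ih

theorem Ok.ex (h : M.Ok I) : ∀ i, ∃ y, M.R (get M.E.one (tab M.E I) i) y := by
  induction I using List.reverseRecOn with
  | nil => exact fun i => ⟨1, M.one⟩
  | append_singleton I x ih =>
    have ih := ih fun y hy => h y (List.mem_append_left _ hy)
    intro i
    rcases lt_trichotomy i I.length with hi | rfl | hi
    · rw [get_app _ _ _ hi]; exact ih i
    · rw [get_last]
      obtain ⟨c, k, w⟩ := x
      cases w with
      | nil => exact h (c, k, []) (by simp) rfl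
      | cons j w =>
        choose f hf using ih
        exact ⟨_, pw_R (w := j :: w) fun i _ => hf i⟩
    · rw [get_eq, List.getD_eq_default _ _ (by rw [tab_len]; simp; omega)]
      exact ⟨1, M.one⟩

theorem Ok.R (h : M.Ok I) (i : ℕ) : M.R (get M.E.one (tab M.E I) i) (M.g I i) := by
  obtain ⟨y, hy⟩ := h.ex i
  rw [g, M.el_eq hy]; exact hy

theorem Ok.app {J : List Ins} (h : M.Ok I) (h' : M.Ok J) : M.Ok (I ++ J) :=
  fun x hx => (List.mem_append.1 hx).elim (h x) (h' x)

theorem ok_of (h : (M.run fun E => al I fun x => List.rec (motive := fun _ => Bool)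
    (frc (E.ex x.1) fun c => E.lit c x.2.1) (fun _ _ _ => true) x.2.2) = true) : M.Ok I := by
  rw [M.run_eq, al_iff] at h
  intro x hx e
  have := h x hx
  rw [e] at this
  exact M.lit (k := x.2.1) (by simpa using this)

theorem g_app (J : List Ins) {i : ℕ} (hi : i < I.length) : M.g (I ++ J) i = M.g I i := by
  rw [g, g, get_app _ _ _ hi]

theorem g_def (h : M.Ok I) {i : ℕ} {x : Ins} (hx : I[i]? = some x) (h0 : x.2.2 ≠ [])
    (hl : ∀ j ∈ x.2.2, j < i) : M.g I i = M.wd I x.2.2 := by
  obtain ⟨hi, rfl⟩ := List.getElem?_eq_some_iff.1 hx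
  have e : I = (I.take i ++ [I[i]]) ++ I.drop (i + 1) := by simp
  have hlen : (I.take i).length = i := by simp; omega
  have e1 : get M.E.one (tab M.E I) i = val M.E (tab M.E (I.take i)) I[i] := by
    conv_lhs => rw [e]
    rw [get_app _ _ _ (by simp; omega)]
    have := get_last M.E (I.take i) I[i]
    rwa [hlen] at this
  have e2 : val M.E (tab M.E (I.take i)) I[i] = pw M.E (tab M.E (I.take i)) I[i].2.2 := by
    unfold val
    cases hw : I[i].2.2 with
    | nil => exact absurd hw h0
    | cons _ _ => rfl
  rw [g, e1, e2]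
  refine M.el_eq (pw_R fun j hj => ?_)
  have := h.R j
  rwa [← List.take_append_drop i I, get_app _ _ _ (by rw [hlen]; exact hl j hj),
    List.take_append_drop] at this

theorem aw_eq (h : M.Ok I) (w : List ℕ) (v : X) :
    aw M.E (tab M.E I) w (M.en v) = M.en (M.wd I w • v) := by
  induction w with
  | nil => simp [aw]
  | cons i w ih =>
    have : aw M.E (tab M.E I) (i :: w) (M.en v) =
        M.E.ap (get M.E.one (tab M.E I) i) (aw M.E (tab M.E I) w (M.en v)) := by simp [aw]
    rw [this, ih, M.ap (h.R i), wd_cons, mul_smul]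

theorem en_inj {v w : X} (h : M.en v = M.en w) : v = w := by rw [← M.de_en v, h, M.de_en]

theorem eqw_of (h : M.Ok I) {v w : List ℕ} (e : eqw M.E (tab M.E I) v w = true) :
    M.wd I v = M.wd I w := by
  unfold eqw at e
  cases hf : M.E.full with
  | true =>
    rw [hf] at e
    exact M.uniq (pw_R fun i _ => h.R i) (Nat.eq_of_beq_eq_true e ▸ pw_R fun i _ => h.R i)
  | false =>
    rw [hf] at e
    rw [← inv_mul_eq_one]
    refine M.sep _ fun c hc => ?_
    obtain ⟨y, rfl⟩ := M.base c hc
    have := al_iff.1 e _ hc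
    rw [frc_eq, aw_eq h, aw_eq h] at this
    rw [M.de_en, mul_smul, ← en_inj (Nat.eq_of_beq_eq_true this), inv_smul_smul]

end Mdl

end

end Pool.Agent.Lib.MP_cad414_al.Cg
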