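import Pool.Agent.Lib.MP_cad414_al.Cg.Ck

/-! Checks of inclusions, conjugations, objects and orbits. -/

namespace Pool.Agent.Lib.MP_cad414_al.Cg

open Subgroup

noncomputable section

/-- The action on multisets of points. -/
@[reducible] def mact (Γ X : Type) [Group Γ] [MulAction Γ X] : MulAction Γ (Multiset X) where
  smul g s := s.map (g • ·)
  one_smul s := by
    show s.map _ = s
    simp
  mul_smul a b s := by
    show s.map _ = (s.map _).map _
    simp [mul_smul]

attribute [local instance] mact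

def bn (a b : Bool) : Bool := Bool.rec (motive := fun _ => Bool) false b a

theorem bn_iff {a b : Bool} : bn a b = true ↔ a = true ∧ b = true := by
  cases a <;> cases b <;> simp [bn]

def an (a b : Env → List ℕ → Bool) (E : Env) (T : List ℕ) : Bool := bn (a E T) (b E T)

def mapK {α β : Type} (f : α → (α → β) → β) (l : List α) : (List α → β) → β :=
  List.rec (motive := fun _ => (List α → β) → β) (fun k => k [])
    (fun a _ ih k => f a fun a' => ih fun t => k (a' :: t)) l

theorem mapK_eq {α β : Type} {f : α → (α → β) → β} {f' : α → α} (h : ∀ a k, f a k = k (f' a))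
    (l : List α) (k : List α → β) : mapK f l k = k (l.map f') := by
  induction l generalizing k with
  | nil => rfl
  | cons a l ih => exact (h a _).trans (ih _)

/-- A map on codes applied to an object. -/
def apo {β : Type} (f : ℕ → ℕ) (o : List (List ℕ)) (k : List (List ℕ) → β) : β :=
  mapK (mapK fun c k => frc (f c) k) o k

theorem apo_eq {β : Type} (f : ℕ → ℕ) (o : List (List ℕ)) (k : List (List ℕ) → β) :
    apo f o k = k (o.map (List.map f)) :=
  mapK_eq (fun l k => mapK_eq (fun _ _ => frc_eq _ _) l k) o k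

def rem {α : Type} (r : α → α → Bool) (a : α) (l : List α) : (List α → Bool) → Bool :=
  List.rec (motive := fun _ => (List α → Bool) → Bool) (fun _ => false)
    (fun b t ih k => Bool.rec (motive := fun _ => Bool) (ih fun t' => k (b :: t')) (k t) (r a b)) l

def perm {α : Type} (r : α → α → Bool) (l : List α) : List α → Bool :=
  List.rec (motive := fun _ => List α → Bool)
    (fun m => List.rec (motive := fun _ => Bool) true (fun _ _ _ => false) m)
    (fun a _ ih m => rem r a m ih) l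

theorem rem_of {α β : Type} {r : α → α → Bool} {f : α → β} (hr : ∀ a b, r a b = true → f a = f b)
    (a : α) (l : List α) (k : List α → Bool) (h : rem r a l k = true) :
    ∃ t, k t = true ∧ ((l.map f : List β) : Multiset β) = f a ::ₘ (t.map f : List β) := by
  induction l generalizing k with
  | nil => cases h
  | cons b l ih =>
    have h' : Bool.rec (motive := fun _ => Bool) (rem r a l fun t' => k (b :: t')) (k l) (r a b)
      = true := h
    cases e : r a b with
    | true => rw [e] at h'; exact ⟨l, h', by rw [hr a b e]; rfl⟩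
    | false =>
      rw [e] at h'
      obtain ⟨t, h1, h2⟩ := ih _ h'
      refine ⟨b :: t, h1, ?_⟩
      rw [List.map_cons, List.map_cons, ← Multiset.cons_coe, ← Multiset.cons_coe, h2,
        Multiset.cons_swap]

theorem perm_of {α β : Type} {r : α → α → Bool} {f : α → β} (hr : ∀ a b, r a b = true → f a = f b)
    (l m : List α) (h : perm r l m = true) :
    ((l.map f : List β) : Multiset β) = (m.map f : List β) := by
  induction l generalizing m with
  | nil => cases m with
    | nil => rfl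
    | cons _ _ => cases h
  | cons a l ih =>
    obtain ⟨t, h1, h2⟩ := rem_of hr a m _ h
    rw [h2, ← ih t h1]; rfl

def mix (Q c : ℕ) : ℕ := Nat.mod (Nat.pow c 2) Q

def sm {α : Type} (f : α → ℕ) (l : List α) : ℕ :=
  List.rec (motive := fun _ => ℕ) 0 (fun a _ ih => Nat.add (f a) ih) l

theorem sm_eq {α : Type} (f : α → ℕ) (l : List α) : sm f l = (l.map f).sum := by
  induction l with
  | nil => rfl
  | cons a l ih => rw [List.map_cons, List.sum_cons, ← ih]; rfl

def key (Q : ℕ) (o : List (List ℕ)) : ℕ := sm (fun l => mix Q (sm (mix Q) l)) o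

/-- The data of a hash function with values below `m`. -/
structure Hsh where
  Q : ℕ
  a : ℕ
  b : ℕ
  w : ℕ
  D : ℕ
  m : ℕ

def Hsh.at (h : Hsh) (k : ℕ) : ℕ :=
  Nat.mod (Nat.add (Nat.mod k h.b)
    (Nat.mod (Nat.shiftRight h.D (Nat.mul h.w (Nat.mod k h.a))) (Nat.pow 2 h.w))) h.m

def Hsh.put (h : Hsh) (o : List (List ℕ)) (b : ℕ) : ℕ :=
  frc (key h.Q o) fun k => Nat.lor b (Nat.shiftLeft 1 (h.at k))

/-- `put` without evaluation of the new set (evaluated sets with equal low bits collide in the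
caches of the kernel). -/
def Hsh.putK {β : Type} (h : Hsh) (o : List (List ℕ)) (b : ℕ) (k : ℕ → β) : β :=
  frc (key h.Q o) fun x => frc (h.at x) fun j => k (Nat.lor b (Nat.shiftLeft 1 j))

theorem Hsh.putK_eq {β : Type} (h : Hsh) (o : List (List ℕ)) (b : ℕ) (k : ℕ → β) :
    h.putK o b k = k (h.put o b) := by
  simp only [Hsh.putK, Hsh.put, frc_eq]

/-- The stack of objects and the set of hash values met so far. -/
structure Stk where
  stk : List (List (List ℕ))
  bits : ℕ

/-- One step of the walk: `op = 4 * generator + 2 * (keep parent) + (keep child)`. -/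
def step (E : Env) (G : List ℕ) (h : Hsh) (op : ℕ) (s : Stk) (k : Stk → Stk) : Stk :=
  Stk.rec (motive := fun _ => Stk) (fun stk b => List.rec (motive := fun _ => Stk) (k ⟨[], b⟩)
    (fun o rest _ => frc (get E.one G (Nat.shiftRight op 2)) fun a => apo (E.ap a) o fun o' =>
      h.putK o' b fun b' =>
        Bool.rec (motive := fun _ => Stk)
          (Bool.rec (motive := fun _ => Stk) (k ⟨o' :: o :: rest, b'⟩) (k ⟨o :: rest, b'⟩)
            (Nat.beq (Nat.land op 1) 0))
          (Bool.rec (motive := fun _ => Stk) (k ⟨o' :: rest, b'⟩) (k ⟨rest, b'⟩)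
            (Nat.beq (Nat.land op 1) 0))
          (Nat.beq (Nat.land op 2) 0)) stk) s

def inner (E : Env) (G : List ℕ) (h : Hsh) (w c : ℕ) : ℕ → Stk → Stk :=
  Nat.rec (motive := fun _ => ℕ → Stk → Stk) (fun _ s => s)
    (fun _ ih ch s => frc (Nat.mod ch (Nat.pow 2 w)) fun op => step E G h op s fun s' =>
      frc (Nat.shiftRight ch w) fun ch' => ih ch' s') c

def outer (E : Env) (G : List ℕ) (h : Hsh) (w c : ℕ) (l : List ℕ) : Stk → Stk :=
  List.rec (motive := fun _ => Stk → Stk) (fun s => s)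
    (fun ch _ ih s => Stk.rec (motive := fun _ => Stk) (fun a b => frc b fun b' => ih ⟨a, b'⟩)
      (inner E G h w c ch s)) l

def start (E : Env) (T : List ℕ) (h : Hsh) (o : List (List ℕ)) (rs : List (List ℕ)) : Stk :=
  List.rec (motive := fun _ => Stk) ⟨[], 0⟩ (fun r _ ih => Stk.rec (motive := fun _ => Stk)
    (fun stk b => apo (aw E T r) o fun o' => frc (h.put o' b) fun b' => ⟨o' :: stk, b'⟩) ih) rs

def vecs (E : Env) (o : List (List ℕ)) : Bool := al o fun l => al l E.vec

def chkOrb (lS : List ℕ) (rs o : List (List ℕ)) (h : Hsh) (w c : ℕ) (ops : List ℕ) (b : ℕ)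
    (E : Env) (T : List ℕ) : Bool :=
  bn (vecs E o) (frc h.D fun D => mapK (fun i k => frc (get E.one T i) k) lS fun G =>
    Nat.beq (outer E G ⟨h.Q, h.a, h.b, h.w, D, h.m⟩ w c ops
      (start E T ⟨h.Q, h.a, h.b, h.w, D, h.m⟩ o rs)).bits b)

def same (o o' : List (List ℕ)) : Bool := perm (perm Nat.beq) o o'

def chkMove (w : List ℕ) (o o' : List (List ℕ)) (E : Env) (T : List ℕ) : Bool :=
  bn (vecs E o) (apo (aw E T w) o fun q => same q o')

def chkFix (l : List ℕ) (o : List (List ℕ)) (E : Env) (T : List ℕ) : Bool :=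
  al l fun i => chkMove [i] o o E T

def chkMem (x l w : List ℕ) (E : Env) (T : List ℕ) : Bool := bn (sub w l) (eqw E T x w)

def chkLe (l l' : List ℕ) (ws : List (List ℕ)) (E : Env) (T : List ℕ) : Bool :=
  al2 (fun i w => chkMem [i] l' w E T) l ws

/-- Inclusion read off from the definitions of the entries `via`. -/
def chkLeD (I : List Ins) (l via : List ℕ) : List ℕ → Bool :=
  List.rec (motive := fun _ => List ℕ → Bool) (fun cur => sub l cur)
    (fun i _ ih cur => Option.rec (motive := fun _ => Bool) false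
      (fun x => bn (bn (!x.2.2.isEmpty) (al x.2.2 fun j => bn (Nat.blt j i) (mem j cur)))
        (ih (i :: cur))) I[i]?) via

def chkCj (a l l' : List ℕ) (ws : List (List ℕ)) (E : Env) (T : List ℕ) : Bool :=
  al2 (fun i w => bn (sub w l') (eqw E T (a ++ [i]) (w ++ a))) l ws

def chkCi (a l l' : List ℕ) (ws : List (List ℕ)) (E : Env) (T : List ℕ) : Bool :=
  al2 (fun i w => bn (sub w l') (eqw E T (i :: a) (a ++ w))) l ws

def chkIds (lH reps a : List ℕ) (z : ℕ) (rs : List (List ℕ)) (d : List (List ℕ × ℕ × List ℕ))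
    (E : Env) (T : List ℕ) : Bool :=
  al2 (fun r x => bn (bn (sub x.1 lH) (sub x.2.2 lH)) (eqw E T (a ++ (r ++ [z]))
    (x.1 ++ Bool.rec (motive := fun _ => List ℕ) x.2.2 (x.2.1 :: x.2.2) (mem x.2.1 reps)))) rs d

variable {Γ X : Type} [Group Γ] [MulAction Γ X] (M : Mdl Γ X)

namespace Mdl

/-- The check `k` succeeds on the table of `I`. -/
def Ck (I : List Ins) (k : Env → List ℕ → Bool) : Prop := k M.E (tab M.E I) = true

/-- The object with code `o`. -/
def ob (o : List (List ℕ)) : Multiset (Multiset X) :=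
  (o.map fun l => ((l.map M.de : List X) : Multiset X) : List (Multiset X))

def keyS (Q : ℕ) (ω : Multiset (Multiset X)) : ℕ :=
  (ω.map fun s => mix Q (s.map fun v => mix Q (M.en v)).sum).sum

def Vs (o : List (List ℕ)) : Prop := ∀ l ∈ o, ∀ c ∈ l, ∃ v, c = M.en v

def Le (I : List Ins) (l l' : List ℕ) : Prop := M.cl I l ≤ M.cl I l'

def Fix (I : List Ins) (l : List ℕ) (o : List (List ℕ)) : Prop :=
  ∀ k ∈ M.cl I l, k • M.ob o = M.ob o

def Cj (I : List Ins) (a l l' : List ℕ) : Prop :=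
  ∀ s ∈ M.cl I l, M.wd I a * s * (M.wd I a)⁻¹ ∈ M.cl I l'

def Ci (I : List Ins) (a l l' : List ℕ) : Prop :=
  ∀ s ∈ M.cl I l, (M.wd I a)⁻¹ * s * M.wd I a ∈ M.cl I l'

def Ids (I : List Ins) (lH reps a : List ℕ) (z : ℕ) (rs : List (List ℕ)) : Prop :=
  ∀ w ∈ rs, ∃ r ∈ 1 :: reps.map (M.g I), M.wd I a * M.wd I w * M.g I z ∈ DC (M.cl I lH) r

def st (I : List Ins) (lS : List ℕ) (rs : List (List ℕ)) : Set Γ :=
  {a | ∃ s ∈ M.cl I lS, ∃ t ∈ M.wd I '' {w | w ∈ rs}, a = s * t}

/-- Every bit of `b` is the hash value of a translate of `o`. -/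
def Hit (I : List Ins) (lS : List ℕ) (rs o : List (List ℕ)) (h : Hsh) (b : ℕ) : Prop :=
  ∀ i, b.testBit i = true → ∃ a ∈ M.st I lS rs, h.at (M.keyS h.Q (a • M.ob o)) = i

variable {M} {I : List Ins}

theorem ck_go {k : Env → List ℕ → Bool} (h : M.go I k = true) : M.Ck I k := by
  rwa [go_eq] at h

theorem Ck.l {a b : Env → List ℕ → Bool} (h : M.Ck I (an a b)) : M.Ck I a := (bn_iff.1 h).1

theorem Ck.r {a b : Env → List ℕ → Bool} (h : M.Ck I (an a b)) : M.Ck I b := (bn_iff.1 h).2

theorem vs_of {o : List (List ℕ)} (h : vecs M.E o = true) : M.Vs o :=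
  fun l hl c hc => M.vec (al_iff.1 (al_iff.1 h l hl) c hc)

theorem key_eq {o : List (List ℕ)} (h : M.Vs o) (Q : ℕ) : key Q o = M.keyS Q (M.ob o) := by
  simp only [key, keyS, ob, sm_eq, Multiset.map_coe, Multiset.sum_coe, List.map_map]
  congr 1
  refine List.map_congr_left fun l hl => ?_
  simp only [Function.comp, Multiset.map_coe, Multiset.sum_coe, List.map_map]
  congr 2
  refine List.map_congr_left fun c hc => ?_
  obtain ⟨v, rfl⟩ := h l hl c hc
  simp [M.de_en]

theorem map_ob {o : List (List ℕ)} (h : M.Vs o) {f : ℕ → ℕ} {x : Γ}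
    (hf : ∀ v, f (M.en v) = M.en (x • v)) :
    M.Vs (o.map (List.map f)) ∧ M.ob (o.map (List.map f)) = x • M.ob o := by
  constructor
  · intro l hl c hc
    obtain ⟨l', hl', rfl⟩ := List.mem_map.1 hl
    obtain ⟨c', hc', rfl⟩ := List.mem_map.1 hc
    obtain ⟨v, rfl⟩ := h l' hl' c' hc'
    exact ⟨_, hf v⟩
  · show _ = Multiset.map (fun s : Multiset X => s.map (x • ·)) _
    simp only [ob, Multiset.map_coe, List.map_map]
    congr 1
    refine List.map_congr_left fun l hl => ?_
    simp only [Function.comp, Multiset.map_coe, List.map_map]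
    congr 1
    refine List.map_congr_left fun c hc => ?_
    obtain ⟨v, rfl⟩ := h l hl c hc
    simp [hf, M.de_en]

theorem same_of {o o' : List (List ℕ)} (h : same o o' = true) : M.ob o = M.ob o' :=
  perm_of (fun a b e => perm_of (fun _ _ e => by rw [Nat.eq_of_beq_eq_true e]) a b e) o o' h

theorem move_of (h : M.Ok I) {w : List ℕ} {o o' : List (List ℕ)}
    (e : M.Ck I (chkMove w o o')) : M.wd I w • M.ob o = M.ob o' := by
  obtain ⟨e1, e2⟩ := bn_iff.1 e
  rw [apo_eq] at e2
  rw [← same_of e2, (map_ob (vs_of e1) (aw_eq h w)).2]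

theorem fix_of (h : M.Ok I) {l : List ℕ} {o : List (List ℕ)}
    (e : M.Ck I (chkFix l o)) : M.Fix I l o :=
  cl_le (H := MulAction.stabilizer Γ (M.ob o)) fun i hi => by
    simpa using move_of h (al_iff.1 e i hi)

theorem mem_of' (h : M.Ok I) {x l w : List ℕ} (e : M.Ck I (chkMem x l w)) :
    M.wd I x ∈ M.cl I l := by
  obtain ⟨e1, e2⟩ := bn_iff.1 e
  rw [eqw_of h e2]; exact wd_mem (sub_of e1)

theorem le_of (h : M.Ok I) {l l' : List ℕ} {ws : List (List ℕ)}
    (e : M.Ck I (chkLe l l' ws)) : M.Le I l l' :=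
  cl_le fun i hi => by
    obtain ⟨w, hw⟩ := al2_ex e i hi
    simpa using mem_of' h hw

theorem leD (h : M.Ok I) (l via l' : List ℕ) (e : chkLeD I l via l' = true) : M.Le I l l' := by
  induction via generalizing l' with
  | nil => exact cl_le fun i hi => g_mem (sub_of e i hi)
  | cons i via ih =>
    have e' : Option.rec (motive := fun _ => Bool) false
      (fun x => bn (bn (!x.2.2.isEmpty) (al x.2.2 fun j => bn (Nat.blt j i) (mem j l')))
        (chkLeD I l via (i :: l'))) I[i]? = true := e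
    cases hx : I[i]? with
    | none => rw [hx] at e'; cases e'
    | some x =>
      rw [hx] at e'
      obtain ⟨e1, e2⟩ := bn_iff.1 e'
      obtain ⟨e0, e1⟩ := bn_iff.1 e1
      have e1 := fun j hj => bn_iff.1 (al_iff.1 e1 j hj)
      refine le_trans (ih _ e2) (cl_le fun j hj => ?_)
      rcases List.mem_cons.1 hj with rfl | hj
      · rw [g_def h hx (by simpa using e0) fun j hj => by simpa using (e1 j hj).1]
        exact wd_mem fun j hj => mem_of (e1 j hj).2
      · exact g_mem hj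

theorem cj_of (h : M.Ok I) {a l l' : List ℕ} {ws : List (List ℕ)}
    (e : M.Ck I (chkCj a l l' ws)) : M.Cj I a l l' :=
  conj_cl _ _ _ _ (by simp) (by
    rintro _ ⟨i, hi, rfl⟩
    obtain ⟨w, hw⟩ := al2_ex e i hi
    obtain ⟨e1, e2⟩ := bn_iff.1 hw
    have := eqw_of h e2
    simp only [wd_app, wd_cons, wd_nil, mul_one] at this
    rw [this, mul_inv_cancel_right]
    exact wd_mem (sub_of e1))

theorem ci_of (h : M.Ok I) {a l l' : List ℕ} {ws : List (List ℕ)}
    (e : M.Ck I (chkCi a l l' ws)) : M.Ci I a l l' :=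
  conj_cl _ _ _ _ (by simp) (by
    rintro _ ⟨i, hi, rfl⟩
    obtain ⟨w, hw⟩ := al2_ex e i hi
    obtain ⟨e1, e2⟩ := bn_iff.1 hw
    have := eqw_of h e2
    simp only [wd_app, wd_cons] at this
    rw [mul_assoc, this, inv_mul_cancel_left]
    exact wd_mem (sub_of e1))

theorem ids_of (h : M.Ok I) {lH reps a : List ℕ} {z : ℕ} {rs : List (List ℕ)}
    {d : List (List ℕ × ℕ × List ℕ)} (e : M.Ck I (chkIds lH reps a z rs d)) :
    M.Ids I lH reps a z rs := by
  intro r hr
  obtain ⟨x, hx⟩ := al2_ex e r hr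
  obtain ⟨e1, e2⟩ := bn_iff.1 hx
  obtain ⟨e0, e1⟩ := bn_iff.1 e1
  have := eqw_of h e2
  simp only [wd_app, wd_cons, wd_nil, mul_one] at this
  rw [mul_assoc, this]
  cases hm : mem x.2.1 reps with
  | false => exact ⟨1, List.mem_cons_self, _, wd_mem (sub_of e0), _, wd_mem (sub_of e1), by simp⟩
  | true =>
    exact ⟨M.g I x.2.1, List.mem_cons_of_mem _ (List.mem_map_of_mem (mem_of hm)), _,
      wd_mem (sub_of e0), _, wd_mem (sub_of e1), by simp [mul_assoc]⟩

theorem Ids.app {lH reps a : List ℕ} {z : ℕ} {rs rs' : List (List ℕ)}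
    (h : M.Ids I lH reps a z rs) (h' : M.Ids I lH reps a z rs') :
    M.Ids I lH reps a z (rs ++ rs') :=
  fun x hx => (List.mem_append.1 hx).elim (h x) (h' x)

section Walk

variable {lS : List ℕ} {rs o : List (List ℕ)} {H : Hsh}

variable (M I lS rs o H) in
def Good (s : Stk) : Prop :=
  (∀ q ∈ s.stk, M.Vs q ∧ ∃ a ∈ M.st I lS rs, M.ob q = a • M.ob o) ∧ M.Hit I lS rs o H s.bits

theorem Hit.put {b : ℕ} (hb : M.Hit I lS rs o H b) {q : List (List ℕ)}
    (hq : M.Vs q ∧ ∃ a ∈ M.st I lS rs, M.ob q = a • M.ob o) : M.Hit I lS rs o H (H.put q b) := by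
  intro i hi
  rw [Hsh.put, frc_eq] at hi
  have hi' : (b ||| 1 <<< H.at (key H.Q q)).testBit i = true := hi
  rw [Nat.testBit_or, Bool.or_eq_true, Nat.one_shiftLeft, Nat.testBit_two_pow] at hi'
  rcases hi' with hi' | hi'
  · exact hb i hi'
  · obtain ⟨hv, a, ha, e⟩ := hq
    exact ⟨a, ha, by rw [← e, ← key_eq hv]; simpa using hi'⟩

theorem good_step (h : M.Ok I) (op : ℕ) {s : Stk} (hs : M.Good I lS rs o H s) (k : Stk → Stk) :
    ∃ s', M.Good I lS rs o H s' ∧
      step M.E (lS.map (get M.E.one (tab M.E I))) H op s k = k s' := by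
  obtain ⟨stk, b⟩ := s
  cases stk with
  | nil => exact ⟨_, hs, rfl⟩
  | cons q rest =>
    obtain ⟨h1, h2⟩ := hs
    obtain ⟨hq, hr⟩ := List.forall_mem_cons.1 h1
    obtain ⟨x, hx, hR⟩ : ∃ x ∈ M.cl I lS,
        M.R (get M.E.one (lS.map (get M.E.one (tab M.E I))) (Nat.shiftRight op 2)) x := by
      rw [get_eq]
      by_cases hi : Nat.shiftRight op 2 < lS.length
      · refine ⟨_, g_mem (List.getElem_mem hi), ?_⟩
        rw [List.getD_eq_getElem _ _ (by simpa using hi), List.getElem_map]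
        exact h.R _
      · rw [List.getD_eq_default _ _ (by simpa using hi)]
        exact ⟨1, one_mem _, M.one⟩
    have hm := map_ob hq.1 (M.ap hR)
    have hq' : M.Vs _ ∧ ∃ a ∈ M.st I lS rs, M.ob _ = a • M.ob o := ⟨hm.1, by
      obtain ⟨_, ⟨s, hs, t, ht, rfl⟩, e⟩ := hq.2
      exact ⟨x * s * t, ⟨_, mul_mem hx hs, t, ht, rfl⟩, by rw [hm.2, e, mul_assoc, mul_smul x]⟩⟩
    have hp := h2.put hq'
    simp only [step, frc_eq, apo_eq, Hsh.putK_eq]
    cases Nat.beq (Nat.land op 2) 0 <;> cases Nat.beq (Nat.land op 1) 0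
    · refine ⟨_, ?_, rfl⟩
      exact ⟨List.forall_mem_cons.2 ⟨hq', h1⟩, hp⟩
    · refine ⟨_, ?_, rfl⟩
      exact ⟨h1, hp⟩
    · refine ⟨_, ?_, rfl⟩
      exact ⟨List.forall_mem_cons.2 ⟨hq', hr⟩, hp⟩
    · refine ⟨_, ?_, rfl⟩
      exact ⟨hr, hp⟩

theorem good_inner (h : M.Ok I) (w c ch : ℕ) {s : Stk} (hs : M.Good I lS rs o H s) :
    M.Good I lS rs o H (inner M.E (lS.map (get M.E.one (tab M.E I))) H w c ch s) := by
  induction c generalizing ch s with
  | zero => exact hs
  | succ c ih =>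
    obtain ⟨s', h1, h2⟩ := good_step h (Nat.mod ch (Nat.pow 2 w)) hs fun s' =>
      frc (Nat.shiftRight ch w) fun ch' =>
        inner M.E (lS.map (get M.E.one (tab M.E I))) H w c ch' s'
    show M.Good I lS rs o H (frc (Nat.mod ch (Nat.pow 2 w)) fun op =>
      step M.E (lS.map (get M.E.one (tab M.E I))) H op s fun s' =>
        frc (Nat.shiftRight ch w) fun ch' =>
          inner M.E (lS.map (get M.E.one (tab M.E I))) H w c ch' s')
    rw [frc_eq, h2, frc_eq]
    exact ih _ h1

theorem good_outer (h : M.Ok I) (w c : ℕ) (l : List ℕ) {s : Stk} (hs : M.Good I lS rs o H s) :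
    M.Good I lS rs o H (outer M.E (lS.map (get M.E.one (tab M.E I))) H w c l s) := by
  induction l generalizing s with
  | nil => exact hs
  | cons ch l ih =>
    have e : ∀ E G, outer E G H w c (ch :: l) s = outer E G H w c l (inner E G H w c ch s) :=
      fun E G => frc_eq (inner E G H w c ch s).bits fun b' =>
        outer E G H w c l ⟨(inner E G H w c ch s).stk, b'⟩
    rw [e]
    exact ih (good_inner h w c ch hs)

theorem good_start (h : M.Ok I) (hv : M.Vs o) (l : List (List ℕ)) (hl : ∀ r ∈ l, r ∈ rs) :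
    M.Good I lS rs o H (start M.E (tab M.E I) H o l) := by
  induction l with
  | nil => exact ⟨by simp [start], fun i hi => by simp [start] at hi⟩
  | cons r l ih =>
    obtain ⟨h1, h2⟩ := ih fun x hx => hl x (List.mem_cons_of_mem _ hx)
    have hm := map_ob hv (aw_eq h r)
    have hq' : M.Vs _ ∧ ∃ a ∈ M.st I lS rs, M.ob _ = a • M.ob o := ⟨hm.1, _,
      ⟨1, one_mem _, _, ⟨r, hl r List.mem_cons_self, rfl⟩, rfl⟩, by rw [hm.2, one_mul]⟩
    have : start M.E (tab M.E I) H o (r :: l) = ⟨_ :: (start M.E (tab M.E I) H o l).stk,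
        H.put _ (start M.E (tab M.E I) H o l).bits⟩ := (apo_eq _ _ _).trans (frc_eq _ _)
    rw [this]
    exact ⟨List.forall_mem_cons.2 ⟨hq', h1⟩, h2.put hq'⟩

theorem hit_of (h : M.Ok I) {w c b : ℕ} {ops : List ℕ}
    (e : M.Ck I (chkOrb lS rs o H w c ops b)) : M.Hit I lS rs o H b := by
  obtain ⟨e1, e2⟩ := bn_iff.1 e
  rw [frc_eq, mapK_eq (fun _ _ => frc_eq _ _)] at e2
  rw [← Nat.eq_of_beq_eq_true e2]
  exact (good_outer h w c ops (good_start h (vs_of e1) rs fun _ hr => hr)).2

theorem Hit.or {b b' : ℕ} (h : M.Hit I lS rs o H b) (h' : M.Hit I lS rs o H b') :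
    M.Hit I lS rs o H (Nat.lor b b') := by
  intro i hi
  have hi' : (b ||| b').testBit i = true := hi
  rw [Nat.testBit_or, Bool.or_eq_true] at hi'
  exact hi'.elim (h i) (h' i)

/-- Roots of the form (word in `lS`) times (root in `rs`). -/
theorem Hit.re {b : ℕ} (d : List (List ℕ × List ℕ))
    (h : M.Hit I lS (d.map fun x => x.1 ++ x.2) o H b)
    (e : (al d fun x => bn (sub x.1 lS) (rs.elem x.2)) = true) : M.Hit I lS rs o H b := by
  intro i hi
  obtain ⟨_, ⟨s, hs, _, ⟨w, hw, rfl⟩, rfl⟩, e'⟩ := h i hi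
  obtain ⟨x, hx, rfl⟩ := List.mem_map.1 hw
  obtain ⟨e1, e2⟩ := bn_iff.1 (al_iff.1 e x hx)
  exact ⟨_, ⟨s * M.wd I x.1, mul_mem hs (wd_mem (sub_of e1)), _,
    ⟨x.2, List.mem_of_elem_eq_true e2, rfl⟩, rfl⟩, by rw [← e', wd_app, mul_assoc]⟩

theorem Hit.orb [Finite Γ] {b m : ℕ} (h : M.Hit I lS rs o H b)
    (e : Nat.beq (Nat.succ b) (Nat.pow 2 m) = true) : Orb (M.st I lS rs) (M.ob o) m := by
  have eb : b = 2 ^ m - 1 := by
    have : b + 1 = 2 ^ m := Nat.eq_of_beq_eq_true e
    omega
  have hf := (Set.toFinite (M.st I lS rs)).image fun a : Γ => a • M.ob o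
  calc m = (Set.Iio m).ncard := by simp
    _ ≤ ((fun ω => H.at (M.keyS H.Q ω)) '' ((fun a : Γ => a • M.ob o) '' M.st I lS rs)).ncard := by
      refine Set.ncard_le_ncard (fun i hi => ?_) (hf.image _)
      obtain ⟨a, ha, e'⟩ := h i (by rw [eb, Nat.testBit_two_pow_sub_one]; simpa using hi)
      exact ⟨_, ⟨a, ha, rfl⟩, e'⟩
    _ ≤ _ := Set.ncard_image_le hf

end Walk

end Mdl

end

end Pool.Agent.Lib.MP_cad414_al.Cg
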