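import Pool.Agent.Lib.MP_cad414_al.Cg.Cl

/-! Bounds for orders, double coset steps, and the final theorem on tables. -/

namespace Pool.Agent.Lib.MP_cad414_al.Cg

open Subgroup

noncomputable section

attribute [local instance] mact

theorem fa0 {α : Type} {p : α → Prop} : ∀ x ∈ ([] : List α), p x := by simp

theorem fa {α : Type} {p : α → Prop} {a : α} {l : List α} (h : p a) (h' : ∀ x ∈ l, p x) :
    ∀ x ∈ a :: l, p x := List.forall_mem_cons.2 ⟨h, h'⟩

/-- One cyclic step: new generator, exponent, words for the conjugates, word for the power. -/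
abbrev Pc := ℕ × ℕ × List (List ℕ) × List ℕ

def chkPc (d : List Pc) (E : Env) (T : List ℕ) : List ℕ → Bool :=
  List.rec (motive := fun _ => List ℕ → Bool) (fun _ => true)
    (fun x _ ih l => bn (bn (Nat.blt 0 x.2.1) (chkCj [x.1] l l x.2.2.1 E T))
      (bn (chkMem (List.replicate x.2.1 x.1) l x.2.2.2 E T) (ih (x.1 :: l)))) d

def chkPcs (l : List ℕ) (d : List Pc) (E : Env) (T : List ℕ) : Bool := chkPc d E T l

def chkOrd (u p v : ℕ) (E : Env) (T : List ℕ) : Bool :=
  bn (eqw E T (List.replicate p u) []) (bn (E.vec v) (!Nat.beq (aw E T [u] v) v))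

def chkEq (v w : List ℕ) (E : Env) (T : List ℕ) : Bool := eqw E T v w

def chkBase (lG lS : List ℕ) (x y : ℕ) (ws : List (List ℕ)) (E : Env) (T : List ℕ) : Bool :=
  bn (bn (E.vec x) (al lS fun i => Nat.beq (aw E T [i] x) x))
    (al2 (fun b w => bn (sub w lG) (Nat.beq (aw E T [y] b) (aw E T w x))) E.base ws)

def lt (l : List ℕ) (n : ℕ) : Bool := al l fun j => Nat.blt j n

variable {Γ X : Type} [Group Γ] [MulAction Γ X] (M : Mdl Γ X)

namespace Mdl

def UB (I : List Ins) (l : List ℕ) (b : ℕ) : Prop := Nat.card (M.cl I l) ≤ b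

def LB (I : List Ins) (l : List ℕ) (b : ℕ) : Prop := b ≤ Nat.card (M.cl I l)

def DV (I : List Ins) (l : List ℕ) (b : ℕ) : Prop := b ∣ Nat.card (M.cl I l)

/-- The double coset of entry `q.1` has at most `q.2` cosets. -/
def RB (I : List Ins) (lH : List ℕ) (q : ℕ × ℕ) : Prop :=
  (DC (M.cl I lH) (M.g I q.1)).ncard ≤ Nat.card (M.cl I lH) * q.2

def RZ (I : List Ins) (lH reps a : List ℕ) (z : ℕ) : Prop :=
  RowZ (M.cl I lH) (1 :: reps.map (M.g I)) (M.wd I a) (M.g I z)

def CV (I : List Ins) (lG lH : List ℕ) (rows : List (ℕ × ℕ)) : Prop :=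
  Cov (M.cl I lG) (M.cl I lH) ((1, 1) :: rows.map fun q => (M.g I q.1, q.2))

def CO (I : List Ins) (lG lS lZ : List ℕ) : Prop := Core (M.cl I lG) (M.cl I lS) (M.cl I lZ)

variable {M} {I : List Ins}

theorem cl_nil : M.cl I [] = ⊥ := by simp [cl, gs]

theorem Le.trans {a b c : List ℕ} (h : M.Le I a b) (h' : M.Le I b c) : M.Le I a c := le_trans h h'

theorem le_sub {a b : List ℕ} (h : sub a b = true) : M.Le I a b :=
  cl_le fun i hi => g_mem (sub_of h i hi)

theorem Le.app {a b c : List ℕ} (h : M.Le I a c) (h' : M.Le I b c) : M.Le I (a ++ b) c :=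
  cl_le fun _ hi => (List.mem_append.1 hi).elim (fun e => h (g_mem e)) fun e => h' (g_mem e)

theorem Le.mem {a b : List ℕ} (h : M.Le I a b) {i : ℕ} (hi : i ∈ a) : M.g I i ∈ M.cl I b :=
  h (g_mem hi)

theorem fix_nil (o : List (List ℕ)) : M.Fix I [] o := fun k hk => by
  rw [cl_nil, mem_bot] at hk; rw [hk, one_smul]

theorem Fix.le {a b : List ℕ} {o : List (List ℕ)} (h : M.Fix I b o) (h' : M.Le I a b) :
    M.Fix I a o := fun k hk => h k (h' hk)

theorem eq_of (h : M.Ok I) {v w : List ℕ} (e : M.Ck I (chkEq v w)) : M.wd I v = M.wd I w :=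
  eqw_of h e

theorem ub_nil : M.UB I [] 1 := by simp [UB, cl_nil]

theorem UB.mono {l : List ℕ} {a b : ℕ} (h : M.UB I l a) (e : Nat.ble a b = true) : M.UB I l b :=
  le_trans h (Nat.le_of_ble_eq_true e)

theorem LB.mono {l : List ℕ} {a b : ℕ} (h : M.LB I l a) (e : Nat.ble b a = true) : M.LB I l b :=
  le_trans (Nat.le_of_ble_eq_true e) h

theorem DV.lcm {l : List ℕ} {a b : ℕ} (h : M.DV I l a) (h' : M.DV I l b) :
    M.DV I l (Nat.lcm a b) := Nat.lcm_dvd h h'

theorem DV.le {a b : List ℕ} {n : ℕ} (h : M.DV I a n) (h' : M.Le I a b) : M.DV I b n :=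
  dvd_trans h (card_dvd_of_le h')

theorem dv_ex {l : List ℕ} {n : ℕ} (h : M.UB I l n) (h' : M.LB I l n) : M.DV I l n :=
  le_antisymm h' h ▸ dvd_rfl

theorem dv_ord (h : M.Ok I) {u p v : ℕ} (hp : p.Prime) (e : M.Ck I (chkOrd u p v)) :
    M.DV I [u] p := by
  obtain ⟨e1, e2⟩ := bn_iff.1 e
  obtain ⟨e2, e3⟩ := bn_iff.1 e2
  obtain ⟨y, rfl⟩ := M.vec e2
  refine dvd_of_pow (g_mem List.mem_cons_self) hp (by simpa [wd_rep] using eqw_of h e1) fun e => ?_
  rw [aw_eq h, wd_cons, e] at e3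
  simp at e3

theorem co_base (h : M.Ok I) {lG lS : List ℕ} {x y : ℕ} {ws : List (List ℕ)}
    (e : M.Ck I (chkBase lG lS x y ws)) : M.CO I lG lS [] := by
  obtain ⟨e1, e2⟩ := bn_iff.1 e
  obtain ⟨e0, e1⟩ := bn_iff.1 e1
  obtain ⟨v, rfl⟩ := M.vec e0
  have hf : M.cl I lS ≤ MulAction.stabilizer Γ v := cl_le fun i hi => by
    have := Nat.eq_of_beq_eq_true (al_iff.1 e1 i hi)
    rw [aw_eq h] at this
    simpa using en_inj this
  intro a _ ha
  rw [cl_nil, mem_bot]
  have : (M.g I y)⁻¹ * a * M.g I y = 1 := M.sep _ fun c hc => by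
    obtain ⟨w, hw⟩ := al2_ex e2 c hc
    obtain ⟨b, rfl⟩ := M.base c hc
    obtain ⟨e3, e4⟩ := bn_iff.1 hw
    have e5 := Nat.eq_of_beq_eq_true e4
    rw [aw_eq h, aw_eq h] at e5
    have e6 : M.g I y • b = M.wd I w • v := by simpa using en_inj e5
    rw [M.de_en, mul_smul, mul_smul, e6, Core.fix (G := M.cl I lG) hf ha (wd_mem (sub_of e3)), ← e6,
      inv_smul_smul]
  calc a = M.g I y * ((M.g I y)⁻¹ * a * M.g I y) * (M.g I y)⁻¹ := by group
    _ = 1 := by rw [this]; group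

theorem co_self (lG lZ : List ℕ) : M.CO I lG lZ lZ := Core.self _ _

section Transport

variable (J : List Ins) {n : ℕ}

theorem cl_app {l : List ℕ} (e : lt l I.length = true) : M.cl (I ++ J) l = M.cl I l := by
  unfold cl gs
  congr 1
  exact Set.image_congr fun i hi => g_app J (by simpa using al_iff.1 e i hi)

theorem wd_app' {l : List ℕ} (e : lt l I.length = true) : M.wd (I ++ J) l = M.wd I l := by
  unfold wd
  congr 1
  exact List.map_congr_left fun i hi => g_app J (by simpa using al_iff.1 e i hi)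

theorem ub_app {l : List ℕ} (e : lt l I.length = true) : M.UB (I ++ J) l n ↔ M.UB I l n := by
  rw [UB, UB, cl_app J e]

theorem lb_app {l : List ℕ} (e : lt l I.length = true) : M.LB (I ++ J) l n ↔ M.LB I l n := by
  rw [LB, LB, cl_app J e]

theorem dv_app {l : List ℕ} (e : lt l I.length = true) : M.DV (I ++ J) l n ↔ M.DV I l n := by
  rw [DV, DV, cl_app J e]

theorem le_app {l l' : List ℕ} (e : lt l I.length = true) (e' : lt l' I.length = true) :
    M.Le (I ++ J) l l' ↔ M.Le I l l' := by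
  rw [Le, Le, cl_app J e, cl_app J e']

theorem fix_app {l : List ℕ} {o : List (List ℕ)} (e : lt l I.length = true) :
    M.Fix (I ++ J) l o ↔ M.Fix I l o := by
  rw [Fix, Fix, cl_app J e]

theorem ci_app {a l l' : List ℕ} (e0 : lt a I.length = true) (e : lt l I.length = true)
    (e' : lt l' I.length = true) : M.Ci (I ++ J) a l l' ↔ M.Ci I a l l' := by
  rw [Ci, Ci, cl_app J e, cl_app J e', wd_app' J e0]

theorem rb_app {l : List ℕ} {q : ℕ × ℕ} (e : lt (q.1 :: l) I.length = true) :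
    M.RB (I ++ J) l q ↔ M.RB I l q := by
  obtain ⟨e1, e2⟩ := List.forall_mem_cons.1 (al_iff.1 e)
  rw [RB, RB, cl_app J (al_iff.2 e2), g_app J (by simpa using e1)]

theorem rz_app {l reps a : List ℕ} {z : ℕ} (e : lt (z :: l) I.length = true)
    (e' : lt reps I.length = true) (e'' : lt a I.length = true) :
    M.RZ (I ++ J) l reps a z ↔ M.RZ I l reps a z := by
  obtain ⟨e1, e2⟩ := List.forall_mem_cons.1 (al_iff.1 e)
  rw [RZ, RZ, cl_app J (al_iff.2 e2), g_app J (by simpa using e1), wd_app' J e'',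
    List.map_congr_left fun i hi => g_app J (by simpa using al_iff.1 e' i hi)]

theorem co_app {a b c : List ℕ} (e : lt a I.length = true) (e' : lt b I.length = true)
    (e'' : lt c I.length = true) : M.CO (I ++ J) a b c ↔ M.CO I a b c := by
  rw [CO, CO, cl_app J e, cl_app J e', cl_app J e'']

end Transport

variable [Finite Γ]

theorem lb_one (l : List ℕ) : M.LB I l 1 := card_pos' _

theorem UB.le {a b : List ℕ} {n : ℕ} (h : M.UB I b n) (h' : M.Le I a b) : M.UB I a n :=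
  le_trans (card_le_of_le h') h

theorem LB.le {a b : List ℕ} {n : ℕ} (h : M.LB I a n) (h' : M.Le I a b) : M.LB I b n :=
  le_trans h (card_le_of_le h')

theorem DV.lb {l : List ℕ} {n : ℕ} (h : M.DV I l n) : M.LB I l n := Nat.le_of_dvd (card_pos' _) h

theorem ub_pc (h : M.Ok I) (d : List Pc) {l : List ℕ} {b : ℕ} (e : M.Ck I (chkPcs l d))
    (hb : M.UB I l b) :
    M.UB I (d.foldl (fun l x => x.1 :: l) l) (d.foldl (fun b x => x.2.1 * b) b) := by
  induction d generalizing l b with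
  | nil => exact hb
  | cons x d ih =>
    obtain ⟨e1, e2⟩ := bn_iff.1 e
    obtain ⟨e0, e1⟩ := bn_iff.1 e1
    obtain ⟨e2, e3⟩ := bn_iff.1 e2
    refine ih e3 ?_
    have h1 := cj_of h e1
    have h2 := mem_of' h e2
    rw [wd_rep] at h2
    have := pc_le (M.gs I l) (M.g I x.1) x.2.1 (by simpa using e0)
      (fun s hs => by simpa [cl] using h1 s (subset_closure hs)) h2
    have e4 : M.gs I (x.1 :: l) = insert (M.g I x.1) (M.gs I l) := by
      simp only [gs, ← Set.image_insert_eq]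
      congr 1
      ext i
      simp
    unfold UB cl
    rw [e4]
    exact this.trans (Nat.mul_le_mul_left _ hb)

omit [Finite Γ] in
theorem st_sub {lS lH : List ℕ} {rs : List (List ℕ)} (h : M.Le I lS lH)
    (e : (al rs fun w => sub w lH) = true) : ∀ a ∈ M.st I lS rs, a ∈ M.cl I lH := by
  rintro _ ⟨s, hs, _, ⟨w, hw, rfl⟩, rfl⟩
  exact mul_mem (h hs) (wd_mem (sub_of (al_iff.1 e w hw)))

/-- The translates of `o` by `lS` times roots are at least `m`. -/
def OR (M : Mdl Γ X) (I : List Ins) (lS : List ℕ) (rs o : List (List ℕ)) (m : ℕ) : Prop :=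
  Orb (M.st I lS rs) (M.ob o) m

theorem or_of (h : M.Ok I) {lS ops : List ℕ} {rs o : List (List ℕ)} {H : Hsh} {w c m : ℕ}
    (e : M.Ck I (chkOrb lS rs o H w c ops (Nat.pred (Nat.pow 2 m)))) : M.OR I lS rs o m :=
  (hit_of h e).orb (by
    have : 0 < Nat.pow 2 m := Nat.two_pow_pos m
    rw [Nat.succ_pred_eq_of_pos this]; simp)

theorem lb_orb {lH lK : List ℕ} {o : List (List ℕ)} {m b : ℕ} (h : M.OR I lH [[]] o m)
    (hK : M.Le I lK lH) (hf : M.Fix I lK o) (hb : M.LB I lK b) : M.LB I lH (m * b) :=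
  le_trans (Nat.mul_le_mul_left _ hb) (Orb.low h (st_sub le_rfl rfl) hK hf)

theorem rb_of {lH lS : List ℕ} {i m B b : ℕ} (hS : M.Le I lS lH) (hc : M.Cj I [i] lS lH)
    (hB : M.UB I lH B) (hb : M.LB I lS b) (e : Nat.ble B (m * b) = true) : M.RB I lH (i, m) :=
  dc_bound _ _ _ _ hS (by simpa [Cj] using hc)
    (le_trans hB ((Nat.le_of_ble_eq_true e).trans (Nat.mul_le_mul_left _ hb)))

theorem rz_of {lH lK lS reps a : List ℕ} {rs o : List (List ℕ)} {z m B b : ℕ}
    (hS : M.Le I lS lH) (hc : M.Cj I a lS lH) (hK : M.Le I lK lH) (hz : M.Ci I [z] lK lH)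
    (hf : M.Fix I lK o) (hB : M.UB I lH B) (hb : M.LB I lK b) (e : Nat.ble B (m * b) = true)
    (ho : M.OR I lS rs o m) (er : (al rs fun w => sub w lH) = true)
    (hi : M.Ids I lH reps a z rs) : M.RZ I lH reps a z :=
  rowZ_of _ (M.cl I lK) (M.cl I lS) _ _ _ (M.wd I '' {w | w ∈ rs}) hc (by simpa [Ci] using hz)
    (Orb.cov ho (st_sub hS er) hK hf
      (le_trans hB ((Nat.le_of_ble_eq_true e).trans (Nat.mul_le_mul_left _ hb))))
    (by rintro _ ⟨w, hw, rfl⟩; exact hi w hw)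

omit [Finite Γ] in
theorem rz_one {lH reps : List ℕ} {z : ℕ} (hi : M.Ids I lH reps [] z [[]]) :
    M.RZ I lH reps [] z := by
  intro h hh
  obtain ⟨r, hr, a, ha, b, hb, e⟩ := hi [] List.mem_cons_self
  refine ⟨r, hr, h * a, mul_mem hh ha, b, hb, ?_⟩
  simp only [wd_nil, one_mul] at e ⊢
  rw [e]; group

theorem cv_of {lH zs : List ℕ} {rows : List (ℕ × ℕ)} (hb : ∀ q ∈ rows, M.RB I lH q)
    (h1 : ∀ z ∈ zs, M.RZ I lH (rows.map Prod.fst) [] z)
    (hz : ∀ q ∈ rows, ∀ z ∈ zs, M.RZ I lH (rows.map Prod.fst) [q.1] z) :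
    M.CV I (zs ++ lH) lH rows := by
  refine ⟨cl_le fun i hi => g_mem (List.mem_append_right _ hi), fun x hx => ?_, fa ?_ ?_⟩
  · have e : M.gs I (zs ++ lH) = M.gs I zs ∪ M.gs I lH := by
      simp only [gs, ← Set.image_union]
      congr 1
      ext i
      simp
    rw [cl, e] at hx
    obtain ⟨r, hr, hx⟩ := cover_of (M.gs I lH) (M.gs I zs) (1 :: (rows.map Prod.fst).map (M.g I))
      List.mem_cons_self (fa (by rintro _ ⟨z, hz', rfl⟩; exact h1 z hz') (by
        intro g hg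
        simp only [List.map_map, List.mem_map] at hg
        obtain ⟨q, hq, rfl⟩ := hg
        rintro _ ⟨z, hz', rfl⟩
        simpa [RZ, cl] using hz q hq z hz')) x hx
    rcases List.mem_cons.1 hr with rfl | hr
    · exact ⟨_, List.mem_cons_self, hx⟩
    · simp only [List.map_map, List.mem_map] at hr
      obtain ⟨q, hq, rfl⟩ := hr
      exact ⟨_, List.mem_cons_of_mem _ (List.mem_map_of_mem hq), hx⟩
  · exact dc_bound _ _ _ _ le_rfl (by simp) (by simp)
  · intro q hq
    obtain ⟨q, hq', rfl⟩ := List.mem_map.1 hq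
    exact hb q hq'

theorem CV.ub {lG lH : List ℕ} {rows : List (ℕ × ℕ)} {B : ℕ} (h : M.CV I lG lH rows)
    (hB : M.UB I lH B) : M.UB I lG (B * (1 + (rows.map Prod.snd).sum)) := by
  have := Cov.ub h
  simp only [List.map_cons, List.sum_cons, List.map_map] at this
  exact this.trans (Nat.mul_le_mul_right _ hB)

omit [Finite Γ] in
theorem CV.he {lG lH : List ℕ} {rows : List (ℕ × ℕ)} {B : ℕ} (hB : M.UB I lH B)
    (hG : M.LB I lG (B * (1 + (rows.map Prod.snd).sum))) :
    Nat.card (M.cl I lH) * (1 + ((rows.map fun q => (M.g I q.1, q.2)).map Prod.snd).sum) ≤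
      Nat.card (M.cl I lG) := by
  rw [List.map_map]
  exact (Nat.mul_le_mul_right _ hB).trans hG

theorem co_row {lG lH lS lZ : List ℕ} {rows : List (ℕ × ℕ)} {B b i m : ℕ} (h : M.CV I lG lH rows)
    (hB : M.UB I lH B) (hG : M.LB I lG (B * (1 + (rows.map Prod.snd).sum)))
    (hq : (i, m) ∈ rows) (hi : M.Le I [i] lG) (hS : M.Le I lS lH) (hc : M.Cj I [i] lS lH)
    (hb : M.LB I lS b) (e : Nat.ble B (m * b) = true) (hZ : M.CO I lG lS lZ) :
    M.CO I lG lH lZ :=
  Core.row h (by simpa using CV.he hB hG) (g := M.g I i) (m := m)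
    (List.mem_cons_of_mem _ (List.mem_map_of_mem (f := fun q => (M.g I q.1, q.2)) hq))
    (hi.mem List.mem_cons_self) hS (by simpa [Cj] using hc)
    (le_trans hB ((Nat.le_of_ble_eq_true e).trans (Nat.mul_le_mul_left _ hb))) hZ

theorem co_step (h : M.Ok I) {lG lS lK lZ w : List ℕ} {o o' : List (List ℕ)} {B b m : ℕ}
    (hf : M.Fix I lS o) (ew : sub w lG = true) (em : M.Ck I (chkMove w o o'))
    (ho : M.OR I lS [[]] o' m) (hK : M.Le I lK lS) (hf' : M.Fix I lK o') (hB : M.UB I lS B)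
    (hb : M.LB I lK b) (e : Nat.ble B (m * b) = true) (hZ : M.CO I lG lK lZ) :
    M.CO I lG lS lZ :=
  Core.step hf (wd_mem (sub_of ew)) (by
    rw [move_of h em]
    exact Orb.stab ho (st_sub le_rfl rfl) hK hf'
      (le_trans hB ((Nat.le_of_ble_eq_true e).trans (Nat.mul_le_mul_left _ hb)))) hZ

/-- The identities between `u y v t c d t₂ t₃`. -/
def chkFin (lZ : List ℕ) (r u y v t c d t₂ t₃ : ℕ) (wt wz : List ℕ) (E : Env) (T : List ℕ) : Bool :=
  bn (bn (eqw E T (List.replicate r u) []) (eqw E T [v, y] [y, u]))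
    (bn (bn (chkMem [t] [u, v] wt E T) (chkMem [t, t] lZ wz E T))
      (bn (eqw E T [t₂, c] [c, t]) (eqw E T [t₃, d] [d, t])))

theorem spor (h : M.Ok I) {lG lH lZ wt wz : List ℕ} {rows : List (ℕ × ℕ)}
    {B zc N r u y v t c d t₂ t₃ : ℕ} (hcv : M.CV I lG lH rows) (hB : M.UB I lH B)
    (hG : M.LB I lG (B * (1 + (rows.map Prod.snd).sum))) (hco : M.CO I lG lH lZ)
    (hZ : M.Le I lZ lG) (hZn : ∀ i ∈ lG, M.Cj I [i] lZ lZ) (hz1 : M.UB I lZ zc)
    (hz2 : M.LB I lZ zc) (hr : r.Prime) (hin : M.Le I [u, y, c, d] lG)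
    (hf : M.Ck I (chkFin lZ r u y v t c d t₂ t₃ wt wz)) (hgen : M.Le I lG ([t, t₂, t₃] ++ lZ))
    (e : (decide (B * (1 + (rows.map Prod.snd).sum) = N * zc ∧ N ≠ 1 ∧ B % r ≠ 0) &&
      ssOk (1 + (rows.map Prod.snd).sum) r (rows.map Prod.snd) 1) = true) : Spor N := by
  rw [Bool.and_eq_true, decide_eq_true_eq] at e
  obtain ⟨⟨e1, e2, e3⟩, e4⟩ := e
  obtain ⟨f1, f3⟩ := bn_iff.1 hf
  obtain ⟨f1, f2⟩ := bn_iff.1 f1
  obtain ⟨f3, f5⟩ := bn_iff.1 f3
  obtain ⟨f3, f4⟩ := bn_iff.1 f3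
  obtain ⟨f5, f6⟩ := bn_iff.1 f5
  have g1 : M.g I u ^ r = 1 := by simpa [wd_rep] using eqw_of h f1
  have cj : ∀ {a b c : ℕ}, eqw M.E (tab M.E I) [a, b] [b, c] = true →
      M.g I b * M.g I c * (M.g I b)⁻¹ = M.g I a := fun e => by
    have := eqw_of h e
    simp only [wd_cons, wd_nil, mul_one] at this
    rw [← this, mul_inv_cancel_right]
  have cG : Nat.card (M.cl I lG) = B * (1 + (rows.map Prod.snd).sum) :=
    le_antisymm (hcv.ub hB) hG
  have cH : Nat.card (M.cl I lH) = B := by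
    have := Cov.ub hcv
    simp only [List.map_cons, List.sum_cons, List.map_map] at this
    rw [cG] at this
    exact le_antisymm hB (Nat.le_of_mul_le_mul_right this (by omega))
  have hu := hin.mem (i := u) (by simp)
  refine spor_of hZ (cl_right _ {g | ∀ z ∈ M.cl I lZ, g * z * g⁻¹ ∈ M.cl I lZ} (by simp) ?_)
    (by rw [cG, e1, le_antisymm hz1 hz2]) e2 (M.g I u) (M.g I y) (M.g I t) (M.g I c) (M.g I d) hu
    (hin.mem (by simp)) (hin.mem (by simp)) (hin.mem (by simp)) ?_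
    (by simpa using mem_of' h f4) ?_ fun N _ => ?_
  · rintro _ ⟨i, hi, rfl⟩ a ha z hz
    have := ha _ (hZn i hi z hz)
    simp only [wd_cons, wd_nil, mul_one] at this
    rwa [show a * M.g I i * z * (a * M.g I i)⁻¹ = a * (M.g I i * z * (M.g I i)⁻¹) * a⁻¹ by group]
  · rw [cj f2]
    have : M.cl I [u, v] ≤ closure {M.g I u, M.g I v} := cl_le fun i hi =>
      subset_closure (by
        simp only [List.mem_cons, List.not_mem_nil, or_false] at hi
        rcases hi with rfl | rfl <;> simp)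
    exact this (by simpa using mem_of' h f3)
  · rw [cj f5, cj f6]
    refine le_trans hgen (cl_le fun i hi => subset_closure ?_)
    rcases List.mem_append.1 hi with hi | hi
    · left
      simp only [List.mem_cons, List.not_mem_nil, or_false] at hi
      rcases hi with rfl | rfl | rfl <;> simp
    · exact Or.inr (g_mem hi)
  · refine normal_cases hcv (CV.he hB hG) hr ?_ (by rwa [List.map_map]) hco ⟨_, hu⟩
      (Subtype.ext g1) N
    rw [cH, Nat.dvd_iff_mod_eq_zero]
    exact e3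

omit [Finite Γ] in
theorem cj_nil (lG : List ℕ) : ∀ i ∈ lG, M.Cj I [i] [] [] := fun _ _ s hs => by
  rw [cl_nil, mem_bot] at hs ⊢; simp [hs]

end Mdl

end

end Pool.Agent.Lib.MP_cad414_al.Cg
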