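import Pool.Agent.Lib.MP_cad414_al.Cg.Gl

/-! Certificate for the sporadic group Co3. -/

namespace Pool.Agent.Lib.MP_cad414_al.Cg

namespace Co3

open Mdl

attribute [local instance] gact

noncomputable section

def M := glM 2 23 5 1 1 1 10 (by decide)

def I : List Ins := [(0xa3754001e321e19851410b30a3fdf141fa4182bc81008001c21ee120bc71e13650e394f1c01940c4db20a062a14bdbc0b3dac1038451221fd080e121e31cf3e3566580500, 2, []),
  (0x87b251052ac0864e50458810c434d1452c81452a802080c0009e80c3b6b1e3a850a094f0468ac1630c6085bae0080430b59c30650610879870413001e01732e298756682c, 2, []),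
  (0xa750f0e35110022210e710b1e40100077100e766c0a441b0c4e2a10546300357a14041e0c069a1a12681e574f12861519551e14570d02510e0e16110c210c2c406f5c2356, 2, []),
  (0x107cd51453040236bf107cdc1626fb0e477c007218165e6012080e124aae043af7142943044fb90033ce1258f304f72a170e4f02707602084c14752510130b3279a0443cf3, 2, []),
  (0x106a6c1052ac042e09144468142ce4007dc30c49af0c718a101ef5142ed2084a2a082ae4046eb30c780d18219b1caf5f055f2618220f0c3f1402707b106868246b1e543dff, 2, []),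
  (0x100003900000400000800001000001b00006e0000b300010c000a8f00151e0008080010370039800059ae0099bf0119bf0810a71009110210a304091520089a40110b, 1, []),
  (0x18c2c810436a0c38140c6a410aaaae1c09f204cb5b1c01ea04af9e1869ce0c26a40ca28f1c2af208cc9c0884d7142c75114f2510e05c10ec291003d01cafac20a069500617, 2, []),
  (0xa225f12088d0c4e180a38e20a7efd08746118066f10044e026ac6026af40c0d7b006ede1c056a0059a61a19db12fb01115d531e4d66040c1e1035a90274f62410bf4e3b20, 3, []),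
  (0x1cecda0606ae0c5080063f4208f3dc02155e0086340409b410da540c1c04082dc608ca90001ac410e4dc1caeea06913c0bbd7e16e65218bdd306060c18c2323e4bac529aee, 3, []),
  (0xca3720493661e48c006720818b23202890602018006954512d8bc042ce81ad8c10ab1311acba010975f1cdcca16ffb21955e7144db90093640ca60e0a81e934243b483017, 1, []),
  (0x13696705915216a6d40776dc16b42412c1f20062d0039582145bb015233614b1f41452b012a1a6055e14053e1417d08216321215ad22145f220bc612110bf2312f3447fd66, 1, []),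
  (0x198f1901239f1ab13d0bb518008e2c0aac1d0537390289150a7a211358a02a3d2d1a0e190afca40b3b89107da138c3bc19b6902b070c33766120c93d3a198832632852d7a4, 1, []),
  (0x5838305899c6481d803058ac3084b420842100f95038884450b1b45aa5a0689d855064b4408501088d951869d560c9e579c1c5400a906c609510882018297070e85100cde4, 1, [])]

theorem kI : M.Ok I := Mdl.ok_of (by decide +kernel)

theorem c1 : M.Ck I (chkPcs [] [(0, 3, [], []), (1, 3, [[0]], []), (2, 3, [[1, 0, 0], [0]], []), (3, 3, [[2], [1], [0]], []), (4, 3, [[3, 0], [2, 0], [1], [0]], []), (5, 2, [[4, 4], [3, 3], [2, 2, 0], [1, 1, 0, 0], [0]], []), (6, 3, [[5, 3], [4, 2, 2, 1, 1], [3], [3, 3, 1, 1], [3, 2, 1, 1, 0], [0]], []), (7, 2, [[6, 6, 3, 0], [5, 2, 2, 1, 0, 0], [4, 4, 3, 3, 2, 1, 1, 0, 0], [3, 2, 1, 0], [4, 4, 3, 3, 2, 2, 1, 0], [4, 3, 3, 1, 0, 0], [0, 0]], [5, 4, 1, 1, 0]), (8, 2, [[7, 6, 6, 5, 4, 4, 3, 3, 1, 0,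 0], [6, 6, 3], [5, 4, 3, 3, 1, 1], [3, 3, 1, 1], [3, 2, 2, 1, 1], [4, 4, 2, 1, 0, 0], [4, 3, 3, 2, 1], [0]], [5, 3, 3, 1, 1, 0])]) :=
  ck_go (by decide +kernel)

theorem u4 : M.UB I [8, 7, 6, 5, 4, 3, 2, 1, 0] 5832 :=
  ((ub_pc kI _ c1 ub_nil).le (le_sub (by decide +kernel))).mono (by decide +kernel)

def T3a : List Ins := [(0, 0, [8, 4, 2, 6, 7, 1]),
  (0, 0, [4, 7, 4, 5, 0])]

def T3 : List Ins := I ++ T3a

theorem kT3 : M.Ok T3 := kI.app (Mdl.ok_of (by decide +kernel))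

def B2a : List Ins := [(0, 0, [14, 13, 14, 14, 14, 13, 14, 13, 13]),
  (0, 0, [13, 14, 14, 13, 14, 13, 14, 13, 13, 14, 14, 13, 14, 13, 13, 13])]

def B2 : List Ins := T3 ++ B2a

theorem kB2 : M.Ok B2 := kT3.app (Mdl.ok_of (by decide +kernel))

theorem c3 : M.Ck B2 (an (chkOrb [13, 14] [[]] [[1024]]
  ⟨0x837e612d7d, 40, 869, 7, 0x782e6b90005b9101241002e5df8108ac3802810d93060478092140024adc0840409c00, 81⟩ 3 64
  [0x8ea6ec8e826c5516dd1646e8aa825bb21b132e8a6c5536db, 0x6874d06c8ec] (Nat.pred (Nat.pow 2 81)))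
  (an (chkFix [15, 16] [[1024]])
  (chkOrb [15, 16] [[]] [[32768]]
  ⟨0x8f6bcd275b, 3, 73, 3, 2, 8⟩ 3 7
  [182427] (Nat.pred (Nat.pow 2 8))))) :=
  ck_go (by decide +kernel)

theorem b2 : M.LB T3 [13, 14] 648 :=
  (lb_app B2a (by decide +kernel)).1 ((lb_orb (or_of kB2 c3.l) (leD kB2 _ [15, 16] _ (by decide +kernel)) (fix_of kB2 c3.r.l)
  (lb_orb (or_of kB2 c3.r.r) (le_sub rfl) (fix_nil _) (lb_one _))).mono rfl)

theorem c4 : M.Ck T3 (an (an (chkCi [9] [13, 14] [8, 7, 6, 5, 4, 3, 2, 1, 0] [[8, 6, 6, 5, 4, 1, 0], [7, 6, 6, 4, 4, 3, 3, 2, 2, 1, 0]])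
  (an (chkFix [13, 14] [[0x1000000802108420, 0x4200042008400084210042000001, 0x4200042008401084210800108400]])
  (chkIds [8, 7, 6, 5, 4, 3, 2, 1, 0] [9] [] 9 [[]] [([], 9, [])])))
  (an (chkCj [9] [13, 14] [8, 7, 6, 5, 4, 3, 2, 1, 0] [[8, 6, 6, 5, 4, 1, 0], [7, 6, 6, 4, 4, 3, 3, 2, 2, 1, 0]])
  (an (chkOrb [13, 14] [[], [8]] [[0x1000000802108420, 0x4200042008400084210042000001, 0x4200042008401084210800108400]]
  ⟨0x83e529da4f, 4, 111, 4, 16438, 9⟩ 3 8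
  [0x1644d8] (Nat.pred (Nat.pow 2 9)))
  (chkIds [8, 7, 6, 5, 4, 3, 2, 1, 0] [9] [9] 9 [[], [8]]
  [([], 15, []), ([8, 6, 4, 3, 3, 1], 9, [1])])))) :=
  ck_go (by decide +kernel)

theorem v3 : M.UB T3 [8, 7, 6, 5, 4, 3, 2, 1, 0] 5832 := (ub_app T3a (by decide +kernel)).2 u4

theorem s30 : M.Le T3 [13, 14] [8, 7, 6, 5, 4, 3, 2, 1, 0] := leD kT3 _ [13, 14] _ (by decide +kernel)

theorem d3 : M.CV T3 [9, 8, 7, 6, 5, 4, 3, 2, 1, 0] [8, 7, 6, 5, 4, 3, 2, 1, 0] [(9, 9)] :=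
  cv_of (zs := [9]) (fa (rb_of s30 (cj_of kT3 c4.r.l) v3 b2 rfl) fa0)
  (fa (rz_one (ids_of kT3 c4.l.r.r)) fa0)
  (fa (fa (rz_of s30 (cj_of kT3 c4.r.l) s30 (ci_of kT3 c4.l.l) (fix_of kT3 c4.l.r.l) v3 b2 rfl
    (or_of kT3 c4.r.r.l) rfl (ids_of kT3 c4.r.r.r)) fa0)
  fa0)

theorem u3 : M.UB I [9, 8, 7, 6, 5, 4, 3, 2, 1, 0] 58320 :=
  (ub_app T3a (by decide +kernel)).1 ((d3.ub v3).mono rfl)

def T2a : List Ins := [(0, 0, [10, 9, 10]),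
  (0, 0, [0, 6, 4, 0, 9, 3, 2, 1, 4]),
  (0, 0, [8, 4, 9, 7, 2, 2]),
  (0, 0, [1, 9, 7, 4, 1, 0, 0]),
  (0, 0, [8, 9, 6, 6])]

def T2 : List Ins := I ++ T2a

theorem kT2 : M.Ok T2 := kI.app (Mdl.ok_of (by decide +kernel))

def B5a : List Ins := [(0, 0, [14, 15, 15, 14, 15, 15, 14, 15, 15, 15, 15, 14, 14, 15]),
  (0, 0, [14, 14, 14, 15, 15, 14, 15, 14, 15, 15, 14, 14]),
  (0, 0, [18, 18, 18, 18, 19, 19])]

def B5 : List Ins := T2 ++ B5a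

theorem kB5 : M.Ok B5 := kT2.app (Mdl.ok_of (by decide +kernel))

theorem c6 : M.Ck B5 (an (an (chkOrb [14, 15] [[]] [[1024]]
  ⟨0xe56b87e1d9, 21, 569, 6, 0x1a04000b0417ad0412af82f4a4080509, 54⟩ 3 53
  [0xa2a2ec89d89bb20add86bb246e87648dd06badb] (Nat.pred (Nat.pow 2 54)))
  (chkFix [18, 19] [[1024]]))
  (an (chkOrb [18, 19] [[]] [[32768]]
  ⟨0xe000d14395, 12, 163, 5, 0x390107900000426, 18⟩ 3 17
  [0x4268b45562adb] (Nat.pred (Nat.pow 2 18)))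
  (an (chkFix [20] [[32768]])
  (chkOrb [20] [[]] [[0x100000]]
  ⟨0xa69a857a57, 1, 29, 1, 0, 2⟩ 2 1
  [0] (Nat.pred (Nat.pow 2 2)))))) :=
  ck_go (by decide +kernel)

theorem b5 : M.LB T2 [14, 15] 1944 :=
  (lb_app B5a (by decide +kernel)).1 ((lb_orb (or_of kB5 c6.l.l) (leD kB5 _ [18, 19] _ (by decide +kernel)) (fix_of kB5 c6.l.r)
  (lb_orb (or_of kB5 c6.r.l) (leD kB5 _ [20] _ (by decide +kernel)) (fix_of kB5 c6.r.r.l)
  (lb_orb (or_of kB5 c6.r.r.r) (le_sub rfl) (fix_nil _) (lb_one _)))).mono rfl)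

def B7a : List Ins := [(0, 0, [17, 16, 17, 17, 17, 16]),
  (0, 0, [16, 17, 16, 17, 16, 16, 17, 17, 17, 17, 16, 16])]

def B7 : List Ins := T2 ++ B7a

theorem kB7 : M.Ok B7 := kT2.app (Mdl.ok_of (by decide +kernel))

theorem c8 : M.Ck B7 (an (chkOrb [16, 17] [[]] [[0x200000000000]]
  ⟨0x842eaa662b, 24, 689, 6, 0x2c01801ae840a4010060e303d0007b180058, 60⟩ 3 59
  [0xd16bb0d953b2b764b53a0d05d84b7451557455554db] (Nat.pred (Nat.pow 2 60)))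
  (an (chkFix [18, 19] [[0x200000000000]])
  (chkOrb [18, 19] [[]] [[32768]]
  ⟨0xb0a8aca0e3, 8, 101, 4, 0x1a104b30, 12⟩ 3 11
  [0x10d95d8ab] (Nat.pred (Nat.pow 2 12))))) :=
  ck_go (by decide +kernel)

theorem b7 : M.LB T2 [16, 17] 720 :=
  (lb_app B7a (by decide +kernel)).1 ((lb_orb (or_of kB7 c8.l) (leD kB7 _ [18, 19] _ (by decide +kernel)) (fix_of kB7 c8.r.l)
  (lb_orb (or_of kB7 c8.r.r) (le_sub rfl) (fix_nil _) (lb_one _))).mono rfl)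

theorem c9 : M.Ck T2 (an (an (an (chkCi [10] [14, 15] [9, 8, 7, 6, 5, 4, 3, 2, 1, 0] [[4, 9, 6, 6, 4, 3, 3, 2, 2, 1, 1, 0], [9, 8, 9, 6, 6, 4, 4, 3, 1, 1]])
  (chkFix [14, 15] [[0x4200800008020000210802008421]]))
  (an (chkIds [9, 8, 7, 6, 5, 4, 3, 2, 1, 0] [10, 13] [] 10 [[]] [([], 10, [])])
  (chkCj [10] [14, 15] [9, 8, 7, 6, 5, 4, 3, 2, 1, 0] [[4, 9, 6, 6, 4, 3, 3, 2, 2, 1, 1, 0], [9, 8, 9, 6, 6, 4, 4, 3, 1, 1]])))
  (an (an (chkOrb [14, 15] [[], [9], [3]] [[0x4200800008020000210802008421]]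
  ⟨0x952bcbdec5, 15, 341, 5, 0x701d3849900d1a48021, 30⟩ 3 28
  [0x28a1ba09b1d15596b6e8] (Nat.pred (Nat.pow 2 30)))
  (chkIds [9, 8, 7, 6, 5, 4, 3, 2, 1, 0] [10, 13] [10] 10 [[], [9], [3]]
  [([], 18, []), ([], 13, []), ([9, 8, 6, 6, 1, 1], 10, [0])]))
  (an (chkCj [13] [16, 17] [9, 8, 7, 6, 5, 4, 3, 2, 1, 0] [[7, 9, 6, 6, 4, 2, 2, 0], [9, 8, 6, 6, 5, 3, 3, 2, 2, 1, 0]])
  (an (chkOrb [16, 17] [[], [9]] [[0x4200800008020000210802008421]]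
  ⟨0xdc9c3f8983, 15, 371, 5, 0x6178ca3008a04bbb1, 30⟩ 3 28
  [0x81d80b745b286dc8ecb1b] (Nat.pred (Nat.pow 2 30)))
  (chkIds [9, 8, 7, 6, 5, 4, 3, 2, 1, 0] [10, 13] [13] 10 [[], [9]]
  [([], 10, [9]), ([8, 5, 4, 4, 3, 3, 2, 2, 1, 0], 13, [9, 6, 1])]))))) :=
  ck_go (by decide +kernel)

theorem v2 : M.UB T2 [9, 8, 7, 6, 5, 4, 3, 2, 1, 0] 58320 := (ub_app T2a (by decide +kernel)).2 u3

theorem s20 : M.Le T2 [14, 15] [9, 8, 7, 6, 5, 4, 3, 2, 1, 0] := leD kT2 _ [14, 15] _ (by decide +kernel)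

theorem s21 : M.Le T2 [16, 17] [9, 8, 7, 6, 5, 4, 3, 2, 1, 0] := leD kT2 _ [16, 17] _ (by decide +kernel)

theorem d2 : M.CV T2 [10, 9, 8, 7, 6, 5, 4, 3, 2, 1, 0] [9, 8, 7, 6, 5, 4, 3, 2, 1, 0] [(10, 30), (13, 81)] :=
  cv_of (zs := [10]) (fa (rb_of s20 (cj_of kT2 c9.l.r.r) v2 b5 rfl) (fa (rb_of s21 (cj_of kT2 c9.r.r.l) v2 b7 rfl) fa0))
  (fa (rz_one (ids_of kT2 c9.l.r.l)) fa0)
  (fa (fa (rz_of s20 (cj_of kT2 c9.l.r.r) s20 (ci_of kT2 c9.l.l.l) (fix_of kT2 c9.l.l.r) v2 b5 rfl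
    (or_of kT2 c9.r.l.l) rfl (ids_of kT2 c9.r.l.r)) fa0)
  (fa (fa (rz_of s21 (cj_of kT2 c9.r.r.l) s20 (ci_of kT2 c9.l.l.l) (fix_of kT2 c9.l.l.r) v2 b5 rfl
    (or_of kT2 c9.r.r.r.l) rfl (ids_of kT2 c9.r.r.r.r)) fa0)
  fa0))

theorem u2 : M.UB I [10, 9, 8, 7, 6, 5, 4, 3, 2, 1, 0] 6531840 :=
  (ub_app T2a (by decide +kernel)).1 ((d2.ub v2).mono rfl)

def T1a : List Ins := [(0, 0, [11, 9, 11]),
  (0, 0, [0, 3, 3, 4, 7, 4, 8, 9, 7]),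
  (0, 0, [9, 10, 8, 6, 7, 10, 9, 7]),
  (0, 0, [6, 1, 9, 4, 0, 8, 6, 10, 0, 6, 7, 5]),
  (0, 0, [8, 7, 6, 4])]

def T1 : List Ins := I ++ T1a

theorem kT1 : M.Ok T1 := kI.app (Mdl.ok_of (by decide +kernel))

def B10a : List Ins := [(0, 0, [14, 14, 15, 14, 15, 14, 15, 15, 15, 14, 15, 14, 15]),
  (0, 0, [14, 15, 15, 15, 15, 15, 15, 14, 14, 14, 14]),
  (0, 0, [18, 18, 18, 19, 19, 19, 18, 19, 18, 18, 18, 19, 19, 18, 18, 19]),
  (0, 0, [19, 18, 19, 19, 18, 18, 18, 19, 18, 18, 19, 18])]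

def B10 : List Ins := T1 ++ B10a

theorem kB10 : M.Ok B10 := kT1.app (Mdl.ok_of (by decide +kernel))

theorem c11 : M.Ck B10 (an (an (chkOrb [14, 15] [[]] [[1024]]
  ⟨0xa986e1aab3, 32, 899, 7, 0x22005811a22237022428e2614480001c000380644c051819c5000300, 81⟩ 3 64
  [0x95b745361b13762b2b6ec0eaa0d94b745899b2ab2b6e8a5b, 0x8ac4e8a6c44d] (Nat.pred (Nat.pow 2 81)))
  (chkFix [18, 19] [[1024]]))
  (an (chkOrb [18, 19] [[]] [[32768]]
  ⟨0xdf95b7a665, 40, 571, 6, 0xc4000700023041901007d144cb002240004020004001135ec12c0008c80, 60⟩ 3 59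
  [0x2c74586a7644ea6ec560acba2caecb0b761b1d94badb] (Nat.pred (Nat.pow 2 60)))
  (an (chkFix [20, 21] [[32768]])
  (chkOrb [20, 21] [[]] [[0x100000]]
  ⟨0x98845be9c9, 6, 109, 4, 0x300072, 12⟩ 3 11
  [0x10d95d8ab] (Nat.pred (Nat.pow 2 12)))))) :=
  ck_go (by decide +kernel)

theorem b10 : M.LB T1 [14, 15] 58320 :=
  (lb_app B10a (by decide +kernel)).1 ((lb_orb (or_of kB10 c11.l.l) (leD kB10 _ [18, 19] _ (by decide +kernel)) (fix_of kB10 c11.l.r)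
  (lb_orb (or_of kB10 c11.r.l) (leD kB10 _ [20, 21] _ (by decide +kernel)) (fix_of kB10 c11.r.r.l)
  (lb_orb (or_of kB10 c11.r.r.r) (le_sub rfl) (fix_nil _) (lb_one _)))).mono rfl)

def B12a : List Ins := [(0, 0, [17, 16, 17, 16, 17, 17, 16, 17, 17, 17, 16]),
  (0, 0, [17, 17, 16, 16, 16, 16, 16, 17, 17, 16, 17]),
  (0, 0, [18, 19, 18, 18, 19, 18, 19, 19, 18]),
  (0, 0, [18, 18, 18, 19, 18, 19, 18, 18])]

def B12 : List Ins := T1 ++ B12a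

theorem kB12 : M.Ok B12 := kT1.app (Mdl.ok_of (by decide +kernel))

theorem c13 : M.Ck B12 (an (an (chkOrb [16, 17] [[]] [[1024]]
  ⟨0xa167e780b1, 52, 1539, 7, 0x1800f01c00004f0001d8c04041392c2c28400080ab9c5c0010631803ca0400000001030c00780005400e4e042c0, 105⟩ 3 64
  [0xec8d9a0d364acb6dd8ac8dd468a0d7606eba09a097432cb, 0x163b1566c8cd7413412ec341a0b6ec] (Nat.pred (Nat.pow 2 105)))
  (chkFix [18, 19] [[1024]]))
  (an (chkOrb [18, 19] [[]] [[32768]]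
  ⟨0xa92f4c0f45, 32, 913, 6, 0x2830970c5480fc0241285040000047116574001b6e00e496, 64⟩ 3 63
  [0x2d81ba0bb0db2ba0b762a2d741b13745a0bb158a87636db] (Nat.pred (Nat.pow 2 64)))
  (an (chkFix [20, 21] [[32768]])
  (chkOrb [20, 21] [[]] [[0x100000]]
  ⟨0xdac47313f3, 3, 85, 3, 128, 6⟩ 3 5
  [17763] (Nat.pred (Nat.pow 2 6)))))) :=
  ck_go (by decide +kernel)

theorem b12 : M.LB T1 [16, 17] 40320 :=
  (lb_app B12a (by decide +kernel)).1 ((lb_orb (or_of kB12 c13.l.l) (leD kB12 _ [18, 19] _ (by decide +kernel)) (fix_of kB12 c13.l.r)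
  (lb_orb (or_of kB12 c13.r.l) (leD kB12 _ [20, 21] _ (by decide +kernel)) (fix_of kB12 c13.r.r.l)
  (lb_orb (or_of kB12 c13.r.r.r) (le_sub rfl) (fix_nil _) (lb_one _)))).mono rfl)

theorem c14 : M.Ck T1 (an (an (an (chkCi [11] [14, 15] [10, 9, 8, 7, 6, 5, 4, 3, 2, 1, 0] [[10, 4, 10, 9, 10, 7, 9, 6, 6, 3, 1, 1, 0, 0], [9, 4, 10, 8, 10, 7, 6, 5, 3, 2, 2, 1, 0]])
  (chkFix [14, 15] [[0x1000000802108420]]))
  (an (chkIds [10, 9, 8, 7, 6, 5, 4, 3, 2, 1, 0] [11, 13] [] 11 [[]] [([], 11, [])])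
  (chkCj [11] [14, 15] [10, 9, 8, 7, 6, 5, 4, 3, 2, 1, 0] [[10, 4, 10, 9, 10, 7, 9, 6, 6, 3, 1, 1, 0, 0], [9, 4, 10, 8, 10, 7, 6, 5, 3, 2, 2, 1, 0]])))
  (an (an (chkOrb [14, 15] [[], [10], [9]] [[0x1000000802108420]]
  ⟨0xc6eec7aca7, 56, 1667, 7, 0xaa00b1901795901c0c00b0742f00060025b020b5000104001061e7800800d90d8a002a0561f879600182480811e8037180, 112⟩ 3 64
  [0x6e8b43a2c4ea6683417452eb6e4b2d6e8a1d91bb2c8dd4d8, 0x22aaa26c549741b65963adba2ca1ba68aa8] (Nat.pred (Nat.pow 2 112)))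
  (chkIds [10, 9, 8, 7, 6, 5, 4, 3, 2, 1, 0] [11, 13] [11] 11 [[], [10], [9]]
  [([], 18, []), ([10, 5, 10, 9, 10, 9, 8, 9, 6, 1, 1, 0], 11, [9, 10, 8]), ([], 13, [])]))
  (an (chkCj [13] [16, 17] [10, 9, 8, 7, 6, 5, 4, 3, 2, 1, 0] [[9, 10, 4, 10, 8, 9, 8, 6, 6, 5, 4, 4, 3, 1, 0], [1, 10, 8, 10, 4, 9, 7, 2]])
  (an (chkOrb [16, 17] [[], [10]] [[0x1000000802108420]]
  ⟨0xcab228f66b, 56, 1373, 7, 0x870010200a9014d31cd360a09bad009c30502007850c0020d04001031b40c840a040210951985ba0009800002001404200, 112⟩ 3 64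
  [0xb23acb711a0d89d95ba29b2d65d9513559237627453432db, 0x2226c88b74526d741b2c35bb2134b74589d] (Nat.pred (Nat.pow 2 112)))
  (chkIds [10, 9, 8, 7, 6, 5, 4, 3, 2, 1, 0] [11, 13] [13] 11 [[], [10]]
  [([], 11, [9]), ([6, 10, 9, 10, 9, 8, 9, 6, 6, 5, 3, 3, 2, 1], 13, [10, 5, 3])]))))) :=
  ck_go (by decide +kernel)

theorem v1 : M.UB T1 [10, 9, 8, 7, 6, 5, 4, 3, 2, 1, 0] 6531840 := (ub_app T1a (by decide +kernel)).2 u2

theorem s10 : M.Le T1 [14, 15] [10, 9, 8, 7, 6, 5, 4, 3, 2, 1, 0] := leD kT1 _ [14, 15] _ (by decide +kernel)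

theorem s11 : M.Le T1 [16, 17] [10, 9, 8, 7, 6, 5, 4, 3, 2, 1, 0] := leD kT1 _ [16, 17] _ (by decide +kernel)

theorem d1 : M.CV T1 [11, 10, 9, 8, 7, 6, 5, 4, 3, 2, 1, 0] [10, 9, 8, 7, 6, 5, 4, 3, 2, 1, 0] [(11, 112), (13, 162)] :=
  cv_of (zs := [11]) (fa (rb_of s10 (cj_of kT1 c14.l.r.r) v1 b10 rfl) (fa (rb_of s11 (cj_of kT1 c14.r.r.l) v1 b12 rfl) fa0))
  (fa (rz_one (ids_of kT1 c14.l.r.l)) fa0)
  (fa (fa (rz_of s10 (cj_of kT1 c14.l.r.r) s10 (ci_of kT1 c14.l.l.l) (fix_of kT1 c14.l.l.r) v1 b10 rfl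
    (or_of kT1 c14.r.l.l) rfl (ids_of kT1 c14.r.l.r)) fa0)
  (fa (fa (rz_of s11 (cj_of kT1 c14.r.r.l) s10 (ci_of kT1 c14.l.l.l) (fix_of kT1 c14.l.l.r) v1 b10 rfl
    (or_of kT1 c14.r.r.r.l) rfl (ids_of kT1 c14.r.r.r.r)) fa0)
  fa0))

theorem u1 : M.UB I [11, 10, 9, 8, 7, 6, 5, 4, 3, 2, 1, 0] 1796256000 :=
  (ub_app T1a (by decide +kernel)).1 ((d1.ub v1).mono rfl)

def T0a : List Ins := [(0, 0, [7, 4, 9, 7, 4, 1]),
  (0, 0, [6, 10, 11, 9, 8, 4]),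
  (0, 0, [12, 3, 12, 6, 12, 5, 11, 5]),
  (0, 0, [12, 15, 12]),
  (0, 0, [15, 16, 15, 16, 15, 16, 15, 16, 15, 16]),
  (0, 0, [5, 17, 5]),
  (0, 0, [11, 17, 11])]

def T0 : List Ins := I ++ T0a

theorem kT0 : M.Ok T0 := kI.app (Mdl.ok_of (by decide +kernel))

def B15a : List Ins := [(0, 0, [14, 14, 14, 13, 14, 13, 13, 13, 14]),
  (0, 0, [14, 13, 14, 13, 14, 13, 13, 14, 13, 13, 13, 13, 14, 13, 13, 14]),
  (0, 0, [20, 20, 21, 21, 20, 21, 20, 21, 20, 21, 20, 21]),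
  (0, 0, [20, 20, 20, 21, 20, 21, 20, 20, 21, 21, 21, 21, 20, 21, 20, 20]),
  (0, 0, [23, 23, 22, 23, 23, 22, 23, 23, 23, 23, 22, 23, 23, 23]),
  (0, 0, [22, 23, 22, 22, 22, 22, 22, 23, 23, 23, 22, 23, 22, 22])]

def B15 : List Ins := T0 ++ B15a

theorem kB15 : M.Ok B15 := kT0.app (Mdl.ok_of (by decide +kernel))

theorem c16 : M.Ck B15 (an (an (chkOrb [13, 14] [[]] [[32]]
  ⟨0xc7c02ef145, 108, 2371, 8, 0x1a8e000834002800000500002d0000202600010000031e000465001300001100000361002000009a07001179001529008315000d7d00050000110000000400014b000d61002908000500000000000840000000000024007f9300034e00000a00073700032e000018004000, 162⟩ 3 64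
  [0x7646ed6e8362353b29762a1d153a9d86c46c6ed91575badd, 0x35585d963add84d82b76b7647558eca5d54526cb53b0bb22, 0xb458dd468362a5d4e8365668] (Nat.pred (Nat.pow 2 162)))
  (an (chkFix [20, 21] [[32]])
  (chkOrb [20, 21] [[]] [[1024]]
  ⟨0xae00fbb5a5, 52, 925, 7, 0x7738080000408110007886e22a0003581c66e042870004f40d0480002d00080538dfb50600002140828000217b0, 105⟩ 3 64
  [0x6e8368aec563a9d06ca2d6dd16d9458dbb23a6c341a1b6db, 0x4d85d0686ed06d16c2dd88d868a9b] (Nat.pred (Nat.pow 2 105)))))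
  (an (an (chkFix [22, 23] [[1024]])
  (chkOrb [22, 23] [[]] [[32768]]
  ⟨0xdf7f91f3e9, 42, 1003, 6, 0x16011003000001062117002a2304200d1c102630000414058000b20201a, 64⟩ 3 63
  [0x2ab237658ec763760768353b2274575bb01b15753b2d35b] (Nat.pred (Nat.pow 2 64))))
  (an (chkFix [24, 25] [[32768]])
  (chkOrb [24, 25] [[]] [[0x100000]]
  ⟨0xc769e62563, 4, 95, 3, 1026, 6⟩ 3 5
  [2603] (Nat.pred (Nat.pow 2 6)))))) :=
  ck_go (by decide +kernel)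

theorem b15 : M.LB T0 [13, 14] 6531840 :=
  (lb_app B15a (by decide +kernel)).1 ((lb_orb (or_of kB15 c16.l.l) (leD kB15 _ [20, 21] _ (by decide +kernel)) (fix_of kB15 c16.l.r.l)
  (lb_orb (or_of kB15 c16.l.r.r) (leD kB15 _ [22, 23] _ (by decide +kernel)) (fix_of kB15 c16.r.l.l)
  (lb_orb (or_of kB15 c16.r.l.r) (leD kB15 _ [24, 25] _ (by decide +kernel)) (fix_of kB15 c16.r.r.l)
  (lb_orb (or_of kB15 c16.r.r.r) (le_sub rfl) (fix_nil _) (lb_one _))))).mono rfl)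

theorem c17 : M.Ck T0 (an (an (an (chkCi [12] [13, 14] [11, 10, 9, 8, 7, 6, 5, 4, 3, 2, 1, 0] [[8, 11, 7, 10, 11, 10, 4, 10, 9, 10, 1, 9, 8, 7, 6, 6, 3, 2, 2, 1, 1, 0, 0], [5, 11, 9, 11, 2, 10, 8, 10, 2, 8, 9, 8, 7, 6, 6, 4, 2, 2, 1, 1]])
  (chkFix [13, 14] [[0x4210000000421084000842100020]]))
  (an (chkIds [11, 10, 9, 8, 7, 6, 5, 4, 3, 2, 1, 0] [12] [] 12 [[]] [([], 12, [])])
  (chkCj [12] [13, 14] [11, 10, 9, 8, 7, 6, 5, 4, 3, 2, 1, 0] [[8, 11, 7, 10, 11, 10, 4, 10, 9, 10, 1, 9, 8, 7, 6, 6, 3, 2, 2, 1, 1, 0, 0], [5, 11, 9, 11, 2, 10, 8, 10, 2, 8, 9, 8, 7, 6, 6, 4, 2, 2, 1, 1]])))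
  (an (an (chkOrb [13, 14] [[], [11], [8]] [[0x4210000000421084000842100020]]
  ⟨0xfb7f59d8cf, 137, 4241, 9, 0x230ba540c0f04800001d5100066000585c00011080001030c2241248098081409653b82e1904800b2050000078ba002b05e00008000000580000600090b40a00010d4003c001a4000e000200200060283814408000828112c80805038155e0c0205d18fb00000ae050088d4604040046aac0081400ee0b805c2630000008030106802005b0302404000040104048780000000121e0a058805200, 275⟩ 3 64
  [0x741aeba2a3658ec753a0d8acadd6ec96c6e8aac753b2bad8, 0xb4589d55badd06c762a9db644eca5d7658ab3652ea741b22, 0xb2b765368a1d6ec351aaa741b11b2d763753b1546d84d153, 0x8aaa5d868b1d15d8ddb2d46aa2c4ed143add6ec362762b13, 0x446d91bb03a9d] (Nat.pred (Nat.pow 2 275)))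
  (chkIds [11, 10, 9, 8, 7, 6, 5, 4, 3, 2, 1, 0] [12] [12] 12 [[], [11], [8]]
  [([], 20, []), ([6, 11, 8, 11, 8, 5, 10, 7, 9, 7, 5, 4, 4, 3, 3, 2, 2, 1], 12, [7, 9, 11]), ([3, 10, 11, 8, 9, 10, 2, 8, 9, 7, 5, 1, 1, 0, 0], 12, [11, 7, 10])]))
  (an (chkBase [12, 11, 10, 9, 8, 7, 6, 5, 4, 3, 2, 1, 0] [11, 10, 9, 8, 7, 6, 5, 4, 3, 2, 1, 0] 1 20 [[], [11, 9, 11, 12], [10, 12, 7, 12], [2, 5, 6, 12], [1, 2, 8, 12], [9, 2, 7, 12], [11, 9, 12, 11, 12], [8, 11, 12], [11, 0, 8, 12], [12, 10, 6, 12], [11, 10, 5, 12], [10, 2, 12], [8, 5, 10, 12], [4, 5, 12], [2, 10, 2, 12], [3, 5, 10, 12], [12, 6, 12], [2, 6, 12], [12, 7, 11, 12], [0, 5, 10, 12], [10, 11, 10, 12], [5, 10, 8, 12], [7, 5, 7, 12]])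
  (chkFin [] 23 15 12 16 17 5 11 18 19 [15, 16, 15, 16, 15, 16, 15, 16, 15, 16] [])))) :=
  ck_go (by decide +kernel)

theorem v0 : M.UB T0 [11, 10, 9, 8, 7, 6, 5, 4, 3, 2, 1, 0] 1796256000 := (ub_app T0a (by decide +kernel)).2 u1

theorem s00 : M.Le T0 [13, 14] [11, 10, 9, 8, 7, 6, 5, 4, 3, 2, 1, 0] := leD kT0 _ [13, 14] _ (by decide +kernel)

theorem d0 : M.CV T0 [12, 11, 10, 9, 8, 7, 6, 5, 4, 3, 2, 1, 0] [11, 10, 9, 8, 7, 6, 5, 4, 3, 2, 1, 0] [(12, 275)] :=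
  cv_of (zs := [12]) (fa (rb_of s00 (cj_of kT0 c17.l.r.r) v0 b15 rfl) fa0)
  (fa (rz_one (ids_of kT0 c17.l.r.l)) fa0)
  (fa (fa (rz_of s00 (cj_of kT0 c17.l.r.r) s00 (ci_of kT0 c17.l.l.l) (fix_of kT0 c17.l.l.r) v0 b15 rfl
    (or_of kT0 c17.r.l.l) rfl (ids_of kT0 c17.r.l.r)) fa0)
  fa0)

def B18a : List Ins := [(0, 0, [19, 18, 17, 19, 19, 18, 17, 18, 18, 17, 17, 18, 19]),
  (0, 0, [18, 19, 17, 19, 17, 19, 17, 18, 17, 19, 18, 17, 19]),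
  (0, 0, [21, 21, 21, 20, 21, 20, 21, 20, 20, 21, 21, 21, 20, 21, 20, 21, 21, 20, 21, 21, 21, 20, 20, 20, 21, 21, 21]),
  (0, 0, [21, 20, 21, 20, 21, 21, 20, 21, 21, 21, 21, 21, 21, 20, 21, 21, 21, 21, 20, 20]),
  (0, 0, [23, 23, 22, 23, 22, 22, 23, 23, 23, 22, 22]),
  (0, 0, [22, 23, 22, 22, 22, 22, 23, 22, 23, 22, 22, 22]),
  (0, 0, [25, 24, 25, 25, 25, 24, 24, 25, 25, 25, 25, 25, 24]),
  (0, 0, [25, 24, 24, 24, 24, 24, 25, 25, 24, 25, 24, 25, 24, 25, 24, 24, 24]),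
  (0, 0, [26, 26, 27, 27, 27, 26, 27]),
  (0, 0, [27, 27, 27, 27, 26, 26, 27, 26, 27, 26, 26, 26, 27])]

def B18 : List Ins := T0 ++ B18a

theorem kB18 : M.Ok B18 := kT0.app (Mdl.ok_of (by decide +kernel))

theorem c19 : M.Ck B18 (an (an (an (chkOrb [17, 18, 19] [[]] [[1]]
  ⟨0x9d7aeac089, 138, 3173, 9, 0x1006901aac2a0001000009703018146a7003c003f0301800000d86004470f00048000082000010e8dc0606010321c0002049b4180a8740e3a020240a5e1681000003480006f9279c450008681400010080806220005d489e038100e0741838060c7d0a800000085c1679008106cff0000400000185c010e5580006047780402000100c58000000000a70d809bc0f73000449e461f0001c000040017, 276⟩ 4 64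
  [0x9394439415937154191954194358539093539859852986371982529835373973, 0x8391529805359371541988735198052935909825987352941983737394439154, 0x1949825293544393909737194883519443950907398619373937858391586394, 0x8435192539849271509397394949437198419353580543942927353981549539, 0x4925825398635198354] (Nat.pred (Nat.pow 2 276)))
  (chkFix [20, 21] [[1]]))
  (an (chkOrb [20, 21] [[]] [[32]]
  ⟨0xd24996b769, 110, 2931, 9, 0x722d0c01800b85709c6cbb010381e030202c3e1d15ab4289402808e08d000185ec806000005648041043a5c000000c023403a0006800080206800060003b8c002969800001606060008719800720e05018422a00810001e0187442000a8149617018b00409371242003078340835000080003008340033000253c09, 275⟩ 3 64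
  [0x75d762b6576c36baac36c76ca6cb1d75d165aac75d75d75d, 0x8ac75575d963aa9b29b5d55d14db62b63aec568b55764755, 0xa6c56d762aad15555d545aebb28b5db5d745568aeab4556d, 0x8ed869b1d76bb2d8eaaaab62aeba2c76caed345b2baeba2d, 0x596aae8b55745] (Nat.pred (Nat.pow 2 275)))
  (an (chkFix [22, 23] [[32]])
  (chkOrb [22, 23] [[]] [[1024]]
  ⟨0xd91aee6a6f, 81, 2395, 8, 0x80029f150a040f001300000100005947000000018e07840205007a35710000001f963f024055000c1400005f4e09727700040b0206618d0c37010003001a000404a1090701040a040700321d000c088c, 162⟩ 3 64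
  [0xb23b11aa8adb7653612ecb1595d6ecb1d9416ec6ec88d6db, 0x9606eca8bb2874d8a8a992dbb11b2d9136ec25d92d74515b, 0x4343b23b65b5d941b1585b6dd] (Nat.pred (Nat.pow 2 162))))))
  (an (an (chkFix [24, 25] [[1024]])
  (an (chkOrb [24, 25] [[]] [[32768]]
  ⟨0xcf6974648d, 52, 1025, 7, 0xe6f30204180846000200001465b000ac15034c31a791400100080062f3c0a000001000025b00000c00b184eb85, 105⟩ 3 64
  [0x913a9b6ec26c46bb2c561b2a6dbb2d8ad74589d81d15b75b, 0x903b132ed8aab032cd155b016ec8cd] (Nat.pred (Nat.pow 2 105)))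
  (chkFix [26, 27] [[32768]])))
  (an (chkOrb [26, 27] [[]] [[0x100000]]
  ⟨0xd075b3c35b, 32, 843, 6, 0x380cd64c00af63226a00d02a9aee87eb90001c42ca043fc3, 64⟩ 3 63
  [0x2aa6cb237656ecb450dd155765153a2c6ec0e8aec46a6db] (Nat.pred (Nat.pow 2 64)))
  (an (chkFix [28, 29] [[0x100000]])
  (chkOrb [28, 29] [[]] [[0x40000000]]
  ⟨0xf612845821, 4, 69, 3, 258, 6⟩ 3 5
  [2603] (Nat.pred (Nat.pow 2 6))))))) :=
  ck_go (by decide +kernel)

theorem b18 : M.LB T0 [17, 18, 19] 495766656000 :=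
  (lb_app B18a (by decide +kernel)).1 ((lb_orb (or_of kB18 c19.l.l.l) (leD kB18 _ [20, 21] _ (by decide +kernel)) (fix_of kB18 c19.l.l.r)
  (lb_orb (or_of kB18 c19.l.r.l) (leD kB18 _ [22, 23] _ (by decide +kernel)) (fix_of kB18 c19.l.r.r.l)
  (lb_orb (or_of kB18 c19.l.r.r.r) (leD kB18 _ [24, 25] _ (by decide +kernel)) (fix_of kB18 c19.r.l.l)
  (lb_orb (or_of kB18 c19.r.l.r.l) (leD kB18 _ [26, 27] _ (by decide +kernel)) (fix_of kB18 c19.r.l.r.r)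
  (lb_orb (or_of kB18 c19.r.r.l) (leD kB18 _ [28, 29] _ (by decide +kernel)) (fix_of kB18 c19.r.r.r.l)
  (lb_orb (or_of kB18 c19.r.r.r.r) (le_sub rfl) (fix_nil _) (lb_one _))))))).mono rfl)

theorem e1 : M.Le T0 [17, 18, 19] [12, 11, 10, 9, 8, 7, 6, 5, 4, 3, 2, 1, 0] := leD kT0 _ [15, 16, 17, 18, 19] _ (by decide +kernel)

theorem fin : Spor 495766656000 :=
  spor kT0 d0 v0 ((b18.le e1).mono rfl) (co_base kT0 c17.r.r.l) (le_sub rfl) (cj_nil _) ub_nil (lb_one _)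
    (by norm_num) (leD kT0 _ [15] _ (by decide +kernel)) c17.r.r.r
    (Subgroup.eq_of_le_of_card_ge e1 (le_trans (d0.ub v0) (b18.mono rfl))).ge (by decide +kernel)

end

end Co3

theorem spor_Co3 : Spor 495766656000 := Co3.fin

end Pool.Agent.Lib.MP_cad414_al.Cg
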