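import Pool.Agent.Lib.MP_cad414_al.Defs

/-! The list of the finite simple groups. -/

namespace Pool.Agent.Lib.MP_cad414_al.Cg

open Matrix

/-- `G` is a homomorphic image of `H`. -/
def Img (G H : Type) [Group G] [Group H] : Prop := ∃ f : H →* G, Function.Surjective f

/-- `Q` is nonsingular and `G` is an image of the commutator subgroup of `O(Q)`. -/
def Orth (G : Type) {F V : Type} [Group G] [Field F] [AddCommGroup V] [Module F V]
    (Q : QuadraticForm F V) : Prop :=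
  (∀ v, Q v = 0 → (∀ w, QuadraticMap.polar Q v w = 0) → v = 0) ∧ Img G (commutator (OG Q))

section
variable (G F : Type) [Group G] [Field F]

/-- `G` is an image of `SU_n` over `F`. -/
def Uni [StarRing F] (n : ℕ) : Prop :=
  (∃ a : F, star a ≠ a) ∧ Img G (specialUnitaryGroup (Fin n) F)

/-- Alternating and classical groups other than `A8` and `U3(3)`. -/
def Classic (n : ℕ) : Prop :=
  (5 ≤ n ∧ n ≠ 8 ∧ Img G (alternatingGroup (Fin n))) ∨
  (3 ≤ n ∧ (n = 3 → 9 < Nat.card F) ∧ ∃ _ : StarRing F, Uni G F n) ∨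
  (2 ≤ n ∧ (n ≤ 4 → Nat.card F ≠ 2) ∧ (n = 2 → Nat.card F ≠ 3) ∧
    Img G (SpecialLinearGroup (Fin n) F)) ∨
  (3 ≤ n ∧ (2 : F) ≠ 0 ∧ Img G (symplecticGroup (Fin n) F)) ∨
  (5 ≤ n ∧ n ≠ 6 ∧ ∃ Q : QuadraticForm F (Fin n → F), Orth G Q)

/-- The Suzuki groups. -/
def Suz : Prop :=
  ∃ θ : F →+* F, (∀ a, θ (θ a) = a ^ 2) ∧
    2 < Nat.card F ∧ Img G (Subgroup.closure {g : GL (Fin 4) F |
      (∃ a b, g.1 = !![1, 0, 0, 0; a, 1, 0, 0; b, θ a, 1, 0;
        a ^ 2 * θ a + a * b + θ b, a * θ a + b, a, 1]) ∨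
      (∃ k, g.1 = diagonal ![k * θ k, k, k⁻¹, (k * θ k)⁻¹]) ∨
      g.1 = of fun i j => if i = j.rev then 1 else 0})

/-- The small Ree groups. -/
def Ree : Prop :=
  ∃ θ : F →+* F, (∀ a, θ (θ a) ^ 3 = a) ∧ (3 : F) = 0 ∧
    3 < Nat.card F ∧ Img G (Subgroup.closure {g : GL (Fin 7) F | (∃ a s, s = θ a ∧
      (g.1 = !![1, s, 0, 0, -s ^ 3 * a, -s ^ 3 * a ^ 2, s ^ 4 * a ^ 2;
        0, 1, a, s * a, -s ^ 2 * a, 0, -s ^ 3 * a ^ 2;
        0, 0, 1, s, -s ^ 2, 0, s ^ 3 * a;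
        0, 0, 0, 1, s, 0, 0;
        0, 0, 0, 0, 1, -a, s * a;
        0, 0, 0, 0, 0, 1, -s;
        0, 0, 0, 0, 0, 0, 1] ∨
      g.1 = diagonal ![s, a / s, s ^ 2 / a, 1, a / s ^ 2, s / a, 1 / s])) ∨
      g.1 = of fun i j => if i = j.rev then -1 else 0})

end

section
variable {K S : Type} [Field K] [Group S] (x : (Fin 8 → ℤ) → K → S) (θ : RingAut K)

/-- The Steinberg relations of type `E8` over `K`; roots are the vectors of norm two in the basis
of simple roots, the edges of the diagram are oriented towards the branch node. -/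
def St : Prop :=
  ∀ r s, r ⬝ᵥ CartanMatrix.E₈ *ᵥ r = 2 → s ⬝ᵥ CartanMatrix.E₈ *ᵥ s = 2 → ∀ a b,
    x r (a + b) = x r a * x r b ∧ (r + s ≠ 0 → x r a * x s b =
      (if r ⬝ᵥ CartanMatrix.E₈ *ᵥ s = -1 then
        x (r + s) ((-1) ^ (r ⬝ᵥ s + ∑ i : Fin 8, ∑ j : Fin 8,
          if ![2, 1, 1, 0, 1, 2, 3, 4] j < ![2, 1, 1, 0, 1, 2, 3, 4] i
          then r i * CartanMatrix.E₈ i j * s j else 0) * a * b)
      else 1) * x s b * x r a)

/-- The subgroup generated by the folded simple and negative simple root elements; `O` lists the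
orbits of nodes. -/
def Fold (O : List (List (Fin 8))) : Subgroup S :=
  Subgroup.closure {g | ∃ o ∈ O, ∃ e : ℤˣ, ∃ t, (θ ^ o.length) t = t ∧
    g = (o.mapIdx fun j i => x (Pi.single i e) ((θ ^ j) t)).prod}

/-- The subgroup generated by the fundamental root elements of the large Ree group. -/
def RF4 : Subgroup S :=
  Subgroup.closure {g | ∃ e : ℤˣ, ∃ t,
    g = x (Pi.single 1 e) t * x (Pi.single 0 e) (θ t) * x (Pi.single 5 e) (θ t) ∨
    g = x (Pi.single 2 e) (θ t) * x (Pi.single 4 e) (θ t) * x (Pi.single 3 e) t *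
      x (Pi.single 2 e + Pi.single 3 e) (t * θ t) * x (Pi.single 3 e + Pi.single 4 e) (t * θ t)}

end

/-- Exceptional and twisted groups inside a group with the Steinberg relations of type `E8`. -/
def Exc (G K : Type) [Group G] [Field K] : Prop :=
  ∃ (S : Type) (_ : Group S) (x : (Fin 8 → ℤ) → K → S) (θ : RingAut K), St x ∧
    ((∃ O ∈ [[[0], [1], [2], [3], [4], [5], [6], [7]], [[0], [1], [2], [3], [4], [5], [6]],
        [[0], [1], [2], [3], [4], [5]], [[1], [3], [2, 4], [0, 5]], [[3], [1, 2, 4]]],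
      θ ^ (O.getLastD []).length = 1 ∧ (O.length = 2 → Nat.card K ≠ 2) ∧ Img G (Fold x θ O)) ∨
    ((∀ t, θ (θ t) ^ 2 = t) ∧ Img G (commutator (RF4 x θ))))

/-- `G` is an image of the commutator subgroup of a group generated by elements that satisfy the
Coxeter relations of the diagram `Y_pqr` and the spider relation. -/
def YGp (G : Type) [Group G] (p q r : ℕ) : Prop :=
  ∃ (W : Type) (_ : Group W) (s : ℕ → W),
    (∀ u v, u ≤ v → v ≤ p + q + r → (s u * s v) ^ (if u = v then 1 else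
      if u = (if v = p + 1 ∨ v = p + q + 1 then 0 else v - 1) then 3 else 2) = 1) ∧
    (s 0 * s 1 * s 2 * s 0 * s (p + 1) * s (p + 2) * s 0 * s (p + q + 1) *
      s (p + q + 2)) ^ 10 = 1 ∧
    Img G (commutator (Subgroup.closure (s '' Set.Iic (p + q + r))))

end Pool.Agent.Lib.MP_cad414_al.Cg
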