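import Pool.Agent.Lib.MP_cad414_al.Cg.Gl

/-! A fast model of `GL_n(F_2)`: one bit per entry, column `j` in the bits from `(n + 1) * j`. -/

namespace Pool.Agent.Lib.MP_cad414_al.Cg

open Finset Matrix

/-- Precomputed numbers. -/
structure P2 where
  s : ℕ
  rp : ℕ
  mk' : ℕ
  md : ℕ
  fl : List (ℕ × ℕ)

def fl2 (s : ℕ) : ℕ → List (ℕ × ℕ)
  | 0 => []
  | m + 1 => (s * 2 ^ m, 2 ^ (s * 2 ^ m) - 1) :: fl2 s m

def mk2 (n l : ℕ) : P2 := ⟨n + 1, msk n 1 n, msk (n + 1) 1 n, 2 ^ n - 1, fl2 (n + 1) l⟩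

noncomputable section

def flK {α : Type} (s m : ℕ) : (List (ℕ × ℕ) → α) → α :=
  Nat.rec (motive := fun _ => (List (ℕ × ℕ) → α) → α) (fun k => k [])
    (fun m ih k => frc (Nat.mul s (Nat.pow 2 m)) fun a => frc (Nat.pred (Nat.pow 2 a)) fun b =>
      ih fun t => k ((a, b) :: t)) m

theorem flK_eq {α : Type} (s m : ℕ) (k : List (ℕ × ℕ) → α) : flK s m k = k (fl2 s m) := by
  induction m generalizing k with
  | zero => rfl
  | succ m ih =>
    show frc (Nat.mul s (Nat.pow 2 m)) (fun a => frc (Nat.pred (Nat.pow 2 a)) fun b =>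
      flK s m fun t => k ((a, b) :: t)) = _
    rw [frc_eq, frc_eq, ih]
    rfl

def run2 {α : Type} (n l : ℕ) (k : P2 → α) : α :=
  frc (Nat.succ n) fun s => frc (msk n 1 n) fun a => frc (msk s 1 n) fun b =>
    frc (Nat.pred (Nat.pow 2 n)) fun c => flK s l fun t => k ⟨s, a, b, c, t⟩

theorem run2_eq {α : Type} (n l : ℕ) (k : P2 → α) : run2 n l k = k (mk2 n l) := by
  simp only [run2, frc_eq, flK_eq]
  rfl

def fold2 (l : List (ℕ × ℕ)) : ℕ → ℕ :=
  List.rec (motive := fun _ => ℕ → ℕ) (fun t => t)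
    (fun p _ ih t => ih (Nat.xor (Nat.shiftRight t p.1) (Nat.land t p.2))) l

/-- Matrix times vector. -/
def app2 (P : P2) (a v : ℕ) : ℕ :=
  fold2 P.fl (Nat.land a (Nat.mul (Nat.land (Nat.mul P.rp v) P.mk') P.md))

/-- Matrix times matrix. -/
def mul2 (P : P2) (n a b : ℕ) : ℕ :=
  Nat.rec (motive := fun _ => ℕ) 0 (fun j ih => Nat.xor ih (Nat.mul
    (Nat.land (Nat.shiftRight b j) P.mk') (Nat.land (Nat.shiftRight a (Nat.mul P.s j)) P.md))) n

def one2 (n : ℕ) : ℕ := msk (n + 2) 1 n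

def bt (x p : ℕ) : ZMod 2 := if x.testBit p then 1 else 0

def dec2 (n a : ℕ) : Matrix (Fin n) (Fin n) (ZMod 2) := of fun i j => bt a ((n + 1) * j + i)

def enc2 {n : ℕ} (y : Fin n → ZMod 2) : ℕ :=
  pk 1 (fun k => if h : k < n then (y ⟨k, h⟩).val else 0) n

theorem bt_xor (x y p : ℕ) : bt (Nat.xor x y) p = bt x p + bt y p := by
  show bt (x ^^^ y) p = _
  simp only [bt, Nat.testBit_xor]
  cases x.testBit p <;> cases y.testBit p <;> decide

theorem bt_land (x y p : ℕ) : bt (Nat.land x y) p = bt x p * bt y p := by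
  show bt (x &&& y) p = _
  simp only [bt, Nat.testBit_and]
  cases x.testBit p <;> cases y.testBit p <;> decide

theorem bt_shift (x k p : ℕ) : bt (Nat.shiftRight x k) p = bt x (k + p) := by
  show bt (x >>> k) p = _
  simp only [bt, Nat.testBit_shiftRight]

theorem bt_ones (k p : ℕ) : bt (2 ^ k - 1) p = if p < k then 1 else 0 := by
  simp [bt]

theorem bt_ext {x y : ℕ} (h : ∀ p, bt x p = bt y p) : x = y :=
  Nat.eq_of_testBit_eq fun p => by
    have := h p
    unfold bt at this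
    revert this
    cases x.testBit p <;> cases y.testBit p <;> decide

theorem bt_lt {x k p : ℕ} (h : x < 2 ^ k) (hp : k ≤ p) : bt x p = 0 := by
  rw [bt, Nat.testBit_lt_two_pow (h.trans_le (Nat.pow_le_pow_right two_pos hp))]
  rfl

theorem bt_pk {w T : ℕ} {c : ℕ → ℕ} (h : ∀ u < T, c u < 2 ^ w) (u : ℕ) {r : ℕ} (hr : r < w) :
    bt (pk w c T) (w * u + r) = if u < T then bt (c u) r else 0 := by
  rw [bt, testBit_pk (by omega) h u r hr, bt]
  by_cases e : u < T <;> simp [e]

theorem bt_enc {n : ℕ} (y : Fin n → ZMod 2) (k : ℕ) :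
    bt (enc2 y) k = if h : k < n then y ⟨k, h⟩ else 0 := by
  have := bt_pk (w := 1) (T := n) (c := fun k => if h : k < n then (y ⟨k, h⟩).val else 0)
    (fun u hu => by rw [dif_pos hu]; exact ZMod.val_lt _) k one_pos
  rw [one_mul, add_zero] at this
  rw [enc2, this]
  split_ifs with h
  · generalize y ⟨k, h⟩ = z
    revert z
    decide
  · rfl

theorem enc2_lt {n : ℕ} (y : Fin n → ZMod 2) : enc2 y < 2 ^ n := by
  have := pk_lt (w := 1) (T := n) (c := fun k => if h : k < n then (y ⟨k, h⟩).val else 0)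
    fun u hu => by rw [dif_pos hu]; exact ZMod.val_lt _
  rwa [one_mul] at this

/-- Selected bits times a short number. -/
theorem bt_outer {w T m : ℕ} (hm : m < 2 ^ w) (N s u : ℕ) {r : ℕ} (hr : r < w) :
    bt (Nat.mul (Nat.land (Nat.shiftRight N s) (msk w 1 T)) m) (w * u + r) =
      if u < T then bt N (s + w * u) * bt m r else 0 := by
  have e : ∀ u, N >>> (s + w * u) % 2 ^ 1 * m = if N.testBit (s + w * u) then m else 0 := fun u => by
    rw [pow_one, Nat.testBit, Nat.one_and_eq_mod_two]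
    rcases Nat.mod_two_eq_zero_or_one (N >>> (s + w * u)) with h | h <;> simp [h]
  rw [land_msk (by omega) (by omega)]
  show bt (pk _ _ _ * m) _ = _
  rw [pk_mul, bt_pk (fun u _ => by rw [e]; split_ifs; exacts [hm, Nat.two_pow_pos _]) u hr, e]
  unfold bt
  cases N.testBit (s + w * u) <;> simp

theorem fold2_eq (s m t : ℕ) (ht : ∀ p, s * 2 ^ m ≤ p → bt t p = 0) (i : ℕ) :
    bt (fold2 (fl2 s m) t) i = if i < s then ∑ j ∈ range (2 ^ m), bt t (s * j + i) else 0 := by
  induction m generalizing t with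
  | zero =>
    show bt t i = _
    split_ifs with h
    · simp
    · exact ht i (by omega)
  | succ m ih =>
    have e : ∀ p, bt (Nat.xor (Nat.shiftRight t (s * 2 ^ m)) (Nat.land t (2 ^ (s * 2 ^ m) - 1))) p =
        bt t (s * 2 ^ m + p) + if p < s * 2 ^ m then bt t p else 0 := fun p => by
      rw [bt_xor, bt_shift, bt_land, bt_ones, mul_ite, mul_one, mul_zero]
    refine (ih _ fun p hp => ?_).trans (if_ctx_congr Iff.rfl (fun hi => ?_) fun _ => rfl)
    · rw [e, if_neg (by omega), add_zero]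
      exact ht _ (by rw [pow_succ, ← mul_assoc]; omega)
    · rw [pow_succ, mul_two, sum_range_add, add_comm, ← sum_add_distrib]
      refine sum_congr rfl fun j hj => ?_
      have : s * j + s ≤ s * 2 ^ m := Nat.mul_le_mul_left s (mem_range.1 hj)
      rw [e, if_pos (by omega), mul_add, add_assoc]

theorem app2_eq {n l : ℕ} (h : n ≤ 2 ^ l) (a : ℕ) (y : Fin n → ZMod 2) :
    app2 (mk2 n l) a (enc2 y) = enc2 (dec2 n a *ᵥ y) := by
  have h1 : 2 ^ n - 1 < 2 ^ (n + 1) := by have := Nat.two_pow_pos n; omega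
  have e : ∀ j i, i < n + 1 → bt (Nat.land a (Nat.mul (Nat.land (Nat.mul (msk n 1 n) (enc2 y))
      (msk (n + 1) 1 n)) (2 ^ n - 1))) ((n + 1) * j + i) =
      if i < n then bt a ((n + 1) * j + i) * bt (enc2 y) j else 0 := fun j i hi => by
    rw [bt_land]
    refine (congrArg _ (bt_outer h1 _ 0 j hi)).trans ?_
    by_cases hj : j < n
    · have : bt (Nat.mul (msk n 1 n) (enc2 y)) (n * j + j) = bt (enc2 y) j := by
        rw [pk_ones (by omega)]
        show bt (pk _ _ _ * _) _ = _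
        rw [pk_mul, bt_pk (fun _ _ => by simpa using enc2_lt y) j hj, if_pos hj]
        simp
      rw [if_pos hj, zero_add, bt_ones, show (n + 1) * j = n * j + j by ring, this]
      simp
    · rw [if_neg hj, bt_lt (enc2_lt y) (not_lt.1 hj)]
      simp
  refine bt_ext fun i => (fold2_eq (n + 1) l _ (fun p hp => ?_) i).trans ?_
  · have h2 : n ≤ p / (n + 1) := (Nat.le_div_iff_mul_le n.succ_pos).2 (by nlinarith)
    rw [← Nat.div_add_mod p (n + 1)]
    refine (e _ _ (Nat.mod_lt _ n.succ_pos)).trans ?_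
    rw [bt_lt (enc2_lt y) h2]
    simp
  · rw [bt_enc]
    by_cases hi : i < n
    · rw [if_pos (by omega), dif_pos hi]
      refine (sum_congr rfl fun j _ => e j i (by omega)).trans ?_
      rw [← sum_subset (range_subset_range.2 h) fun j _ hj => by
        rw [bt_lt (enc2_lt y) (by simpa using hj)]; simp, mulVec, dotProduct,
        ← Fin.sum_univ_eq_sum_range]
      exact sum_congr rfl fun j _ => by rw [if_pos hi, bt_enc, dif_pos j.2]; rfl
    · rw [dif_neg hi]
      split_ifs with h2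
      · exact sum_eq_zero fun j _ => (e j i h2).trans (if_neg hi)
      · rfl

theorem mul2_eq (n l a b : ℕ) : dec2 n (mul2 (mk2 n l) n a b) = dec2 n a * dec2 n b := by
  ext i k
  have e : ∀ r, bt (mul2 (mk2 n l) r a b) ((n + 1) * k + i) =
      ∑ j ∈ range r, bt a ((n + 1) * j + i) * bt b ((n + 1) * k + j) := fun r => by
    induction r with
    | zero => simp [mul2, bt]
    | succ j ih =>
      have h1 : Nat.land (Nat.shiftRight a ((n + 1) * j)) (2 ^ n - 1) < 2 ^ (n + 1) :=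
        Nat.and_lt_two_pow _ (by have := Nat.two_pow_pos n; omega)
      rw [sum_range_succ, ← ih]
      refine (bt_xor _ _ _).trans (congrArg _ ((bt_outer h1 b j k (by omega)).trans ?_))
      rw [if_pos k.2, bt_land, bt_shift, bt_ones, if_pos i.2, mul_one, mul_comm, add_comm j]
  rw [mul_apply]
  exact (e n).trans (Fin.sum_univ_eq_sum_range
    (fun j => bt a ((n + 1) * j + i) * bt b ((n + 1) * k + j)) n).symm

theorem one2_eq (n : ℕ) : dec2 n (one2 n) = 1 := by
  ext i j
  have hi := i.2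
  have hj := j.2
  have b : ∀ u < n, 2 ^ 1 - 1 < 2 ^ (n + 2) := fun _ _ => Nat.one_lt_two_pow (by omega)
  rw [dec2, of_apply, one2, pk_ones (by omega), one_apply]
  by_cases h : (j : ℕ) ≤ i
  · rw [show (n + 1) * j + i = (n + 2) * j + (i - j) by
      rw [show (n + 2) * j = (n + 1) * j + j by ring]; omega, bt_pk b _ (by omega), if_pos hj,
      bt_ones]
    exact if_congr (by rw [Fin.ext_iff]; omega) rfl rfl
  · obtain ⟨u, hu⟩ : ∃ u, (j : ℕ) = u + 1 := ⟨j - 1, by omega⟩
    rw [show (n + 1) * j + i = (n + 2) * u + (n + 1 + i - u) by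
      rw [hu, show (n + 2) * u = (n + 1) * u + u by ring, mul_add]; omega, bt_pk b _ (by omega),
      if_pos (by omega), bt_ones, if_neg (by omega), if_neg fun e => h (by rw [e])]

theorem enc2_inj {n : ℕ} : Function.Injective (enc2 (n := n)) := fun y y' e => by
  funext k
  have := congrArg (bt · k) e
  simpa only [bt_enc, dif_pos k.2] using this

theorem bas2_eq {n : ℕ} (k : Fin n) : Nat.shiftLeft 1 k = enc2 (Pi.single k 1) :=
  bt_ext fun p => by
    show bt (1 <<< _) _ = _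
    rw [bt_enc, Nat.one_shiftLeft, bt, Nat.testBit_two_pow]
    split_ifs with h1 h2 h2
    · rw [show (⟨p, h2⟩ : Fin n) = k from Fin.ext (by simpa using h1 : _ = p).symm, Pi.single_eq_same]
    · exact absurd ((by simpa using h1 : _ = p) ▸ k.2) h2
    · rw [Pi.single_eq_of_ne fun e : (⟨p, h2⟩ : Fin n) = k => h1 (by simp [← e])]
    · rfl

def pwr2 (P : P2) (n c k : ℕ) : ℕ :=
  Nat.rec (motive := fun _ => ℕ) c (fun _ ih => frc ih fun a => mul2 P n c a) k

/-- `k < 1000`: the order is `k + 1`; otherwise `k` is the code of the inverse. -/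
def lit2 (P : P2) (n o c k : ℕ) : Bool :=
  Nat.beq (Bool.rec (motive := fun _ => ℕ) (mul2 P n c k) (pwr2 P n c k) (Nat.blt k 1000)) o

def env2 (P : P2) (n o : ℕ) : Env :=
  ⟨app2 P, mul2 P n, o, fun c => c, true, (List.range n).map (Nat.shiftLeft 1),
    fun c => Nat.ble c P.md, lit2 P n o⟩

theorem pwr2_eq (n l c k : ℕ) : dec2 n (pwr2 (mk2 n l) n c k) = dec2 n c * dec2 n c ^ k := by
  induction k with
  | zero => simp [pwr2]
  | succ k ih =>
    rw [show pwr2 _ n c (k + 1) = mul2 _ n c (pwr2 _ n c k) from frc_eq _ _, mul2_eq, ih, pow_succ']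

attribute [local instance] gact

/-- The model of `GL_n(F_2)`; `2 ^ l` is at least `n`. -/
def f2M (n l : ℕ) (ok : Nat.ble n (Nat.pow 2 l) = true) :
    Mdl (GL (Fin n) (ZMod 2)) (Fin n → ZMod 2) where
  E := env2 (mk2 n l) n (one2 n)
  run k := run2 n l fun P => frc (one2 n) fun o => k (env2 P n o)
  run_eq k := by rw [run2_eq, frc_eq]
  R c x := dec2 n c = x.1
  en := enc2
  de := Function.invFun enc2
  de_en := Function.leftInverse_invFun enc2_inj
  uniq ha hb := Units.ext (ha.symm.trans hb)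
  one := one2_eq n
  mu ha hb := by rw [Units.val_mul, ← ha, ← hb]; exact mul2_eq _ _ _ _
  ap ha v := (app2_eq (Nat.le_of_ble_eq_true ok) _ v).trans (by rw [ha]; rfl)
  vec {c} e := ⟨fun k => bt c k, bt_ext fun p => by
    have h1 : c ≤ 2 ^ n - 1 := Nat.le_of_ble_eq_true e
    have h2 := Nat.two_pow_pos n
    rw [bt_enc]
    split_ifs with h
    exacts [rfl, bt_lt (by omega) (not_lt.1 h)]⟩
  lit {c k} e := by
    have e' := congrArg (dec2 n) (Nat.eq_of_beq_eq_true e)
    obtain ⟨d, hd⟩ : ∃ d, dec2 n c * d = 1 := by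
      rw [one2_eq] at e'
      cases hk : Nat.blt k 1000 with
      | true => rw [hk] at e'; exact ⟨_, (pwr2_eq n l c k).symm.trans e'⟩
      | false => rw [hk] at e'; exact ⟨_, (mul2_eq n l c k).symm.trans e'⟩
    exact ⟨⟨_, d, hd, mul_eq_one_comm.1 hd⟩, rfl⟩
  base c hc := by
    obtain ⟨k, hk, rfl⟩ := List.mem_map.1 hc
    exact ⟨_, bas2_eq ⟨k, List.mem_range.1 hk⟩⟩
  sep x hx := by
    apply Units.ext
    ext i j
    have := hx (Nat.shiftLeft 1 j) (List.mem_map_of_mem (List.mem_range.2 j.2))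
    rw [bas2_eq, Function.leftInverse_invFun enc2_inj] at this
    have h2 : x.1 *ᵥ Pi.single j 1 = Pi.single j 1 := this
    have h3 := congrFun h2 i
    rw [mulVec_single_one] at h3
    rw [Units.val_one, one_apply, show x.1 i j = _ from h3, Pi.single_apply]

variable {Γ X : Type} [Group Γ] [MulAction Γ X] [Finite Γ] {M : Mdl Γ X} {I : List Ins}

/-- A product of a subgroup with a subgroup that normalises it. -/
theorem card_nrm {A B H : Subgroup Γ} (hn : ∀ b ∈ B, ∀ a ∈ A, b * a * b⁻¹ ∈ A) {S : Set Γ}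
    (hS : ∀ s ∈ S, s ∈ A ∨ s ∈ B) (hH : H ≤ Subgroup.closure S) :
    Nat.card H ≤ Nat.card A * Nat.card B := by
  let f : A × B → Γ := fun q => q.1 * q.2
  have hsub : ∀ x ∈ Subgroup.closure S, x ∈ Set.range f := by
    apply cl_right
    · exact ⟨(1, 1), by simp [f]⟩
    · rintro s hs _ ⟨⟨a, b⟩, rfl⟩
      rcases hS s hs with h | h
      · exact ⟨(⟨_, A.mul_mem a.2 (hn b b.2 s h)⟩, b), by simp [f, mul_assoc]⟩
      · exact ⟨(a, ⟨_, B.mul_mem b.2 h⟩), by simp [f, mul_assoc]⟩
  calc Nat.card H ≤ Nat.card (Set.range f) :=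
        Nat.card_mono (Set.toFinite _) fun x hx => hsub x (hH hx)
    _ ≤ Nat.card (A × B) := Finite.card_range_le f
    _ = _ := Nat.card_prod _ _

/-- `lH` normalises `lA`, contains `lB` and lies in the group generated by both. -/
theorem Mdl.ub_nrm {lH lA lB : List ℕ} {a b : ℕ} (hn : ∀ i ∈ lH, M.Cj I [i] lA lA)
    (hB : M.Le I lB lH) (hH : M.Le I lH (lA ++ lB)) (ha : M.UB I lA a) (hb : M.UB I lB b) :
    M.UB I lH (a * b) := by
  refine (card_nrm (A := M.cl I lA) (B := M.cl I lB) (fun x hx => ?_) ?_ hH).trans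
    (Nat.mul_le_mul ha hb)
  · refine cl_right (M.gs I lH) {g | ∀ z ∈ M.cl I lA, g * z * g⁻¹ ∈ M.cl I lA} (by simp) ?_ x (hB hx)
    rintro _ ⟨i, hi, rfl⟩ a ha z hz
    have := ha _ (hn i hi z hz)
    simp only [Mdl.wd_cons, Mdl.wd_nil, mul_one] at this
    rwa [show a * M.g I i * z * (a * M.g I i)⁻¹ = a * (M.g I i * z * (M.g I i)⁻¹) * a⁻¹ by group]
  · rintro _ ⟨i, hi, rfl⟩
    exact (List.mem_append.1 hi).imp Mdl.g_mem Mdl.g_mem

end

end Pool.Agent.Lib.MP_cad414_al.Cg
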