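import Pool.Agent.Lib.MP_cad414_al.Cg.Cm

/-! The model `GL_n(F_p)` and its restriction to a subgroup with a small base. -/

namespace Pool.Agent.Lib.MP_cad414_al.Cg

open Matrix

noncomputable section

/-- The action on column vectors. -/
@[reducible] def gact (p n : ℕ) : MulAction (GL (Fin n) (ZMod p)) (Fin n → ZMod p) where
  smul g v := g.1 *ᵥ v
  one_smul v := one_mulVec v
  mul_smul a b v := (mulVec_mulVec v a.1 b.1).symm

attribute [local instance] gact

variable {p n : ℕ}

def pwr (P : Par p n) (c k : ℕ) : ℕ :=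
  Nat.rec (motive := fun _ => ℕ) c (fun _ ih => frc ih fun a => mul P c a) k

/-- `k < 1000`: the order is `k + 1`; otherwise `k` is the short code of the inverse. -/
def glLit (P : Par p n) (l c k : ℕ) : Bool :=
  bn (wfb P c) (Bool.rec (motive := fun _ => Bool)
    (frc (expand P.w P.t l k) fun d => bn (wfb P d) (Nat.beq (mul P c d) (one P)))
    (Nat.beq (pwr P c k) (one P)) (Nat.blt k 1000))

def glBase (P : Par p n) : List ℕ := (List.range n).map (bas P)

def glEnv (P : Par p n) (l o : ℕ) : Env :=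
  ⟨app P, mul P, o, expand P.w P.t l, true, glBase P, vecb P, glLit P l⟩

theorem pwr_ok {P : Par p n} (h : P.Ok) {c : ℕ} (hc : Wf P c) (k : ℕ) :
    Wf P (pwr P c k) ∧ dec P (pwr P c k) = dec P c * dec P c ^ k := by
  induction k with
  | zero => exact ⟨hc, by simp [pwr]⟩
  | succ k ih =>
    have : pwr P c (k + 1) = mul P c (pwr P c k) := frc_eq _ _
    rw [this]
    exact ⟨(mul_ok h hc ih.1).1, by rw [(mul_ok h hc ih.1).2, ih.2, pow_succ']⟩

theorem wf_uniq {P : Par p n} {c : ℕ} {a b : GL (Fin n) (ZMod p)} (ha : dec P c = a.1)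
    (hb : dec P c = b.1) : a = b := Units.ext (ha.symm.trans hb)

theorem glLit_ok {P : Par p n} (h : P.Ok) {l c k : ℕ} (e : glLit P l c k = true) :
    ∃ x : GL (Fin n) (ZMod p), Wf P c ∧ dec P c = x.1 := by
  obtain ⟨e1, e2⟩ := bn_iff.1 e
  have hc := wf_of h e1
  obtain ⟨d, hd⟩ : ∃ d, dec P c * d = 1 := by
    cases hk : Nat.blt k 1000 with
    | true =>
      rw [hk] at e2
      exact ⟨_, by rw [← (pwr_ok h hc k).2, Nat.eq_of_beq_eq_true e2, (one_ok h).2]⟩
    | false =>
      rw [hk] at e2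
      obtain ⟨e3, e4⟩ := bn_iff.1 ((frc_eq _ _).symm.trans e2)
      exact ⟨_, by rw [← (mul_ok h hc (wf_of h e3)).2, Nat.eq_of_beq_eq_true e4, (one_ok h).2]⟩
  exact ⟨⟨_, d, hd, mul_eq_one_comm.1 hd⟩, hc, rfl⟩

/-- The model of `GL_n(F_p)`; `2 ^ l` is at least `n * (n + 1)`. -/
def glM (p n w t m s l : ℕ) (ok : okb p n w t m s = true) :
    Mdl (GL (Fin n) (ZMod p)) (Fin n → ZMod p) where
  E := glEnv (mkPar p n w t m s) l (one (mkPar p n w t m s))
  run k := Par.run p n w t m s fun P => frc (one P) fun o => k (glEnv P l o)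
  run_eq k := by rw [Par.run_eq, frc_eq]
  R c x := Wf (mkPar p n w t m s) c ∧ dec (mkPar p n w t m s) c = x.1
  en := enc (mkPar p n w t m s)
  de := Function.invFun (enc (mkPar p n w t m s))
  de_en := Function.leftInverse_invFun (enc_inj (ok_of ok))
  uniq ha hb := wf_uniq ha.2 hb.2
  one := one_ok (ok_of ok)
  mu ha hb := ⟨(mul_ok (ok_of ok) ha.1 hb.1).1, by
    rw [Units.val_mul, ← ha.2, ← hb.2]; exact (mul_ok (ok_of ok) ha.1 hb.1).2⟩
  ap ha v := (app_eq (ok_of ok) ha.1 v).trans (by rw [ha.2]; rfl)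
  vec := vecb_ex (ok_of ok)
  lit := glLit_ok (ok_of ok)
  base c hc := by
    obtain ⟨k, hk, rfl⟩ := List.mem_map.1 hc
    exact ⟨_, bas_eq (ok_of ok) ⟨k, List.mem_range.1 hk⟩⟩
  sep x hx := by
    apply Units.ext
    ext i j
    have := hx (bas _ j) (List.mem_map_of_mem (List.mem_range.2 j.2))
    rw [bas_eq (ok_of ok), Function.leftInverse_invFun (enc_inj (ok_of ok))] at this
    have h2 : x.1 *ᵥ Pi.single j 1 = Pi.single j 1 := this
    have h3 := congrFun h2 i
    rw [mulVec_single_one] at h3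
    rw [Units.val_one, one_apply, show x.1 i j = _ from h3, Pi.single_apply]

theorem glFin (p n : ℕ) [NeZero p] : Finite (GL (Fin n) (ZMod p)) := inferInstance

variable {Γ X : Type} [Group Γ] [MulAction Γ X]

/-- The restriction of a model to a subgroup `A` with the base `bs`.  Validity of literals has to
be proved directly. -/
def Mdl.res (M : Mdl Γ X) (A : Subgroup Γ) (bs : List ℕ) (hb : ∀ c ∈ bs, ∃ v, c = M.en v)
    (hs : ∀ x ∈ A, (∀ c ∈ bs, x • M.de c = M.de c) → x = 1) : Mdl A X where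
  E := ⟨M.E.ap, M.E.mu, M.E.one, M.E.ex, false, bs, M.E.vec, fun _ _ => false⟩
  run k := M.run fun E => k ⟨E.ap, E.mu, E.one, E.ex, false, bs, E.vec, fun _ _ => false⟩
  run_eq _ := M.run_eq _
  R c x := M.R c x.1
  en := M.en
  de := M.de
  de_en := M.de_en
  uniq ha hb := Subtype.ext (M.uniq ha hb)
  one := M.one
  mu := M.mu
  ap := M.ap
  vec := M.vec
  lit h := nomatch h
  base := hb
  sep x hx := Subtype.ext (hs x x.2 hx)

end

end Pool.Agent.Lib.MP_cad414_al.Cg
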