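import Pool.Agent.Lib.MP_cad414_al.Defs

/-! Abstract lemmas for order and simplicity certificates in a finite group. -/

namespace Pool.Agent.Lib.MP_cad414_al.Cg

open Subgroup

variable {Γ : Type} [Group Γ] [Finite Γ]

theorem card_pos' (H : Subgroup Γ) : 0 < Nat.card H := Nat.card_pos

theorem inv_eq_pow (x : Γ) : ∃ k : ℕ, x⁻¹ = x ^ k := by
  refine ⟨orderOf x - 1, ?_⟩
  have h := orderOf_pos x
  rw [inv_eq_iff_mul_eq_one, ← pow_succ', Nat.sub_add_cancel h, pow_orderOf_eq_one]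

theorem cl_right (S A : Set Γ) (h1 : (1 : Γ) ∈ A) (h : ∀ s ∈ S, ∀ a ∈ A, a * s ∈ A) :
    ∀ x ∈ closure S, x ∈ A := by
  have key : ∀ x ∈ closure S, ∀ a ∈ A, a * x ∈ A := by
    intro x hx
    induction hx using closure_induction with
    | mem s hs => exact h s hs
    | one => intro a ha; simpa using ha
    | mul x y _ _ hx hy => intro a ha; rw [← mul_assoc]; exact hy _ (hx a ha)
    | inv x _ hx =>
      obtain ⟨k, hk⟩ := inv_eq_pow x
      rw [hk]
      clear hk
      induction k with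
      | zero => intro a ha; simpa using ha
      | succ k ih => intro a ha; rw [pow_succ, ← mul_assoc]; exact hx _ (ih a ha)
  intro x hx
  simpa using key x hx 1 h1

omit [Finite Γ] in
theorem conj_cl (S : Set Γ) (H : Subgroup Γ) (a b : Γ) (hab : b * a = 1)
    (h : ∀ s ∈ S, a * s * b ∈ H) : ∀ s ∈ closure S, a * s * b ∈ H := by
  have hb : b = a⁻¹ := eq_inv_of_mul_eq_one_left hab
  subst hb
  intro x hx
  induction hx using closure_induction with
  | mem s hs => exact h s hs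
  | one => simp
  | mul x y _ _ hx hy =>
    have : a * (x * y) * a⁻¹ = a * x * a⁻¹ * (a * y * a⁻¹) := by group
    rw [this]; exact H.mul_mem hx hy
  | inv x _ hx =>
    have : a * x⁻¹ * a⁻¹ = (a * x * a⁻¹)⁻¹ := by group
    rw [this]; exact H.inv_mem hx

/-- One cyclic step. -/
theorem pc_le (S : Set Γ) (y : Γ) (e : ℕ) (he : 0 < e) (hc : ∀ s ∈ S, y * s * y⁻¹ ∈ closure S)
    (hp : y ^ e ∈ closure S) :
    Nat.card (closure (insert y S)) ≤ e * Nat.card (closure S) := by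
  set P := closure S with hP
  have hn := conj_cl S P y y⁻¹ (by simp) hc
  let f : Fin e × P → Γ := fun q => (y ^ (q.1 : ℕ))⁻¹ * q.2
  have hsub : ∀ x ∈ closure (insert y⁻¹ S), x ∈ Set.range f := by
    apply cl_right
    · exact ⟨(⟨0, he⟩, 1), by simp [f]⟩
    · rintro s hs a ⟨⟨i, p⟩, rfl⟩
      rcases hs with rfl | hs
      · have hq : y * p * y⁻¹ ∈ P := hn _ p.2
        by_cases hi : (i : ℕ) + 1 < e
        · refine ⟨(⟨i + 1, hi⟩, ⟨_, hq⟩), ?_⟩
          simp only [f, pow_succ']; group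
        · have hi' : e = i + 1 := by have := i.2; omega
          refine ⟨(⟨0, he⟩, ⟨_, P.mul_mem (P.inv_mem hp) hq⟩), ?_⟩
          simp only [f]
          generalize (i : ℕ) = j at hi'
          subst hi'
          simp only [pow_succ']; group
      · exact ⟨(i, ⟨p * s, P.mul_mem p.2 (subset_closure hs)⟩), by simp [f, mul_assoc]⟩
  have hle : closure (insert y S) ≤ closure (insert y⁻¹ S) := by
    rw [closure_le]
    rintro s (rfl | hs)
    · exact (inv_mem_iff (H := closure (insert s⁻¹ S))).1 (subset_closure (Set.mem_insert _ _))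
    · exact subset_closure (Set.mem_insert_of_mem _ hs)
  calc Nat.card (closure (insert y S)) ≤ Nat.card (Set.range f) :=
        Nat.card_mono (Set.toFinite _) (fun x hx => hsub x (hle hx))
    _ ≤ Nat.card (Fin e × P) := Finite.card_range_le f
    _ = e * Nat.card P := by simp

section Orb

variable {Ω : Type} [MulAction Γ Ω]

/-- The elements of `A` move `o` to at least `m` places. -/
def Orb (A : Set Γ) (o : Ω) (m : ℕ) : Prop := m ≤ ((fun a : Γ => a • o) '' A).ncard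

theorem Orb.low {A : Set Γ} {o : Ω} {m : ℕ} (h : Orb A o m) {H K : Subgroup Γ}
    (hA : ∀ a ∈ A, a ∈ H) (hK : K ≤ H) (hf : ∀ k ∈ K, k • o = o) :
    m * Nat.card K ≤ Nat.card H := by
  set O := (fun a : Γ => a • o) '' A with hO
  have ch : ∀ w : O, ∃ a, a ∈ H ∧ a • o = w := by
    rintro ⟨w, a, ha, rfl⟩; exact ⟨a, hA a ha, rfl⟩
  choose c hc hc' using ch
  let f : O × K → H := fun q => ⟨c q.1 * q.2, H.mul_mem (hc _) (hK q.2.2)⟩
  have hinj : Function.Injective f := by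
    rintro ⟨w, k⟩ ⟨w', k'⟩ hq
    have e : c w * k = c w' * k' := congrArg Subtype.val hq
    have hw : w = w' := by
      apply Subtype.ext
      rw [← hc' w, ← hc' w']
      have := congrArg (· • o) e
      simpa [mul_smul, hf _ k.2, hf _ k'.2] using this
    subst hw
    have : k = k' := Subtype.ext (mul_left_cancel e)
    rw [this]
  have := Nat.card_le_card_of_injective f hinj
  rw [Nat.card_prod, Nat.card_coe_set_eq] at this
  exact le_trans (Nat.mul_le_mul_right _ h) this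

theorem Orb.stab {A : Set Γ} {o : Ω} {m : ℕ} (h : Orb A o m) {H K : Subgroup Γ}
    (hA : ∀ a ∈ A, a ∈ H) (hK : K ≤ H) (hf : ∀ k ∈ K, k • o = o)
    (hub : Nat.card H ≤ m * Nat.card K) : ∀ x ∈ H, x • o = o → x ∈ K := by
  have h1 := h.low hA (K := H ⊓ MulAction.stabilizer Γ o) inf_le_left (fun k hk => hk.2)
  have hm : 0 < m := by
    rcases Nat.eq_zero_or_pos m with rfl | hm
    · have := card_pos' H; omega
    · exact hm
  have h2 : Nat.card (H ⊓ MulAction.stabilizer Γ o : Subgroup Γ) ≤ Nat.card K :=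
    Nat.le_of_mul_le_mul_left (h1.trans hub) hm
  have h3 : K = H ⊓ MulAction.stabilizer Γ o :=
    eq_of_le_of_card_ge (le_inf hK hf) h2
  intro x hx hxo
  rw [h3]; exact ⟨hx, hxo⟩

theorem Orb.cov {A : Set Γ} {o : Ω} {m : ℕ} (h : Orb A o m) {H K : Subgroup Γ}
    (hA : ∀ a ∈ A, a ∈ H) (hK : K ≤ H) (hf : ∀ k ∈ K, k • o = o)
    (hub : Nat.card H ≤ m * Nat.card K) : ∀ x ∈ H, ∃ a ∈ A, a⁻¹ * x ∈ K := by
  intro x hx
  by_cases hin : x • o ∈ (fun a : Γ => a • o) '' A
  · obtain ⟨a, ha, e⟩ := hin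
    refine ⟨a, ha, h.stab hA hK hf hub _ (H.mul_mem (H.inv_mem (hA a ha)) hx) ?_⟩
    rw [mul_smul, ← e]; simp
  · exfalso
    have h' : Orb (insert x A) o (m + 1) := by
      unfold Orb at *
      rw [Set.image_insert_eq, Set.ncard_insert_of_notMem hin ((Set.toFinite A).image _)]
      omega
    have := h'.low (H := H) (K := K) (by rintro a (rfl | ha); exacts [hx, hA a ha]) hK hf
    have hp := card_pos' K
    nlinarith

end Orb

/-- The double coset `H g H`. -/
def DC (H : Subgroup Γ) (g : Γ) : Set Γ := {x | ∃ a ∈ H, ∃ b ∈ H, x = a * g * b}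

theorem dc_le (H S : Subgroup Γ) (g : Γ) (hS : S ≤ H) (hc : ∀ s ∈ S, g * s * g⁻¹ ∈ H) :
    (DC H g).ncard * Nat.card S ≤ Nat.card H * Nat.card H := by
  have ch : ∀ d : DC H g, ∃ a b, a ∈ H ∧ b ∈ H ∧ (d : Γ) = a * g * b := by
    rintro ⟨d, a, ha, b, hb, e⟩; exact ⟨a, b, ha, hb, e⟩
  choose a b ha hb e using ch
  let f : DC H g × S → H × H := fun q =>
    (⟨a q.1 * (g * q.2 * g⁻¹)⁻¹, H.mul_mem (ha _) (H.inv_mem (hc _ q.2.2))⟩,
      ⟨q.2 * b q.1, H.mul_mem (hS q.2.2) (hb _)⟩)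
  have hinj : Function.Injective f := by
    rintro ⟨d, s⟩ ⟨d', s'⟩ hq
    have e1 : a d * (g * s * g⁻¹)⁻¹ = a d' * (g * s' * g⁻¹)⁻¹ :=
      congrArg (fun q : H × H => (q.1 : Γ)) hq
    have e2 : s * b d = s' * b d' := congrArg (fun q : H × H => (q.2 : Γ)) hq
    have hd : d = d' := by
      apply Subtype.ext
      calc (d : Γ) = a d * (g * s * g⁻¹)⁻¹ * g * (s * b d) := by rw [e d]; group
        _ = a d' * (g * s' * g⁻¹)⁻¹ * g * (s' * b d') := by rw [e1, e2]
        _ = d' := by rw [e d']; group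
    subst hd
    have : s = s' := Subtype.ext (mul_right_cancel e2)
    rw [this]
  have := Nat.card_le_card_of_injective f hinj
  rwa [Nat.card_prod, Nat.card_prod, Nat.card_coe_set_eq] at this

theorem dc_bound (H S : Subgroup Γ) (g : Γ) (m : ℕ) (hS : S ≤ H)
    (hc : ∀ s ∈ S, g * s * g⁻¹ ∈ H) (hm : Nat.card H ≤ m * Nat.card S) :
    (DC H g).ncard ≤ Nat.card H * m := by
  have h1 := dc_le H S g hS hc
  have h2 : (DC H g).ncard * Nat.card S ≤ Nat.card H * m * Nat.card S := by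
    rw [mul_assoc]; exact h1.trans (Nat.mul_le_mul_left _ hm)
  exact Nat.le_of_mul_le_mul_right h2 (card_pos' S)

theorem dc_exact (H S : Subgroup Γ) (g : Γ) (m : ℕ) (hS : S ≤ H)
    (hc : ∀ s ∈ S, g * s * g⁻¹ ∈ H) (hm : Nat.card H ≤ m * Nat.card S)
    (hex : Nat.card H * m ≤ (DC H g).ncard) : ∀ x ∈ H, g * x * g⁻¹ ∈ H → x ∈ S := by
  let S' : Subgroup Γ := H ⊓ H.comap (MulAut.conj g).toMonoidHom
  have h1 := dc_le H S' g inf_le_left (fun s hs => hs.2)
  have hH := card_pos' H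
  have hm0 : 0 < m := by
    rcases Nat.eq_zero_or_pos m with rfl | hm
    · omega
    · exact hm
  have h2 : Nat.card H * m * Nat.card S' ≤ Nat.card H * m * Nat.card S := by
    calc _ ≤ (DC H g).ncard * Nat.card S' := Nat.mul_le_mul_right _ hex
      _ ≤ _ := h1
      _ ≤ _ := by rw [mul_assoc]; exact Nat.mul_le_mul_left _ hm
  have h3 : S = S' := eq_of_le_of_card_ge (fun s hs => ⟨hS hs, hc s hs⟩)
    (Nat.le_of_mul_le_mul_left h2 (Nat.mul_pos hH hm0))
  intro x hx hx'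
  rw [h3]; exact ⟨hx, hx'⟩

/-- `g h z` lies in one of the listed double cosets for every `h` in `H`. -/
def RowZ (H : Subgroup Γ) (reps : List Γ) (g z : Γ) : Prop :=
  ∀ h ∈ H, ∃ r ∈ reps, g * h * z ∈ DC H r

omit [Finite Γ] in
theorem rowZ_of (H K S : Subgroup Γ) (reps : List Γ) (g z : Γ) (R : Set Γ)
    (hc : ∀ s ∈ S, g * s * g⁻¹ ∈ H) (hz : ∀ k ∈ K, z⁻¹ * k * z ∈ H)
    (hcov : ∀ x ∈ H, ∃ a ∈ {a | ∃ s ∈ S, ∃ t ∈ R, a = s * t}, a⁻¹ * x ∈ K)
    (hid : ∀ t ∈ R, ∃ r ∈ reps, g * t * z ∈ DC H r) : RowZ H reps g z := by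
  intro h hh
  obtain ⟨_, ⟨s, hs, t, ht, rfl⟩, hk⟩ := hcov h hh
  obtain ⟨r, hr, a, ha, b, hb, e⟩ := hid t ht
  refine ⟨r, hr, g * s * g⁻¹ * a, H.mul_mem (hc s hs) ha, b * (z⁻¹ * ((s * t)⁻¹ * h) * z),
    H.mul_mem hb (hz _ hk), ?_⟩
  calc g * h * z = g * s * g⁻¹ * (g * t * z) * (z⁻¹ * ((s * t)⁻¹ * h) * z) := by group
    _ = _ := by rw [e]; group

theorem cover_of (S zs : Set Γ) (reps : List Γ) (h1 : (1 : Γ) ∈ reps)
    (hr : ∀ g ∈ reps, ∀ z ∈ zs, RowZ (closure S) reps g z) :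
    ∀ x ∈ closure (zs ∪ S), ∃ r ∈ reps, x ∈ DC (closure S) r := by
  apply cl_right (zs ∪ S) {x | ∃ r ∈ reps, x ∈ DC (closure S) r}
  · exact ⟨1, h1, 1, one_mem _, 1, one_mem _, by simp⟩
  · rintro s hs _ ⟨r, hr', a, ha, b, hb, rfl⟩
    rcases hs with hs | hs
    · obtain ⟨r', h', a', ha', b', hb', e⟩ := hr r hr' s hs b hb
      refine ⟨r', h', a * a', mul_mem ha ha', b', hb', ?_⟩
      calc a * r * b * s = a * (r * b * s) := by group
        _ = _ := by rw [e]; group
    · exact ⟨r, hr', a, ha, b * s, mul_mem hb (subset_closure hs), by group⟩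

theorem union_le (H : Subgroup Γ) (rows : List (Γ × ℕ))
    (hb : ∀ q ∈ rows, (DC H q.1).ncard ≤ Nat.card H * q.2) (A : Set Γ)
    (hA : ∀ x ∈ A, ∃ q ∈ rows, x ∈ DC H q.1) :
    A.ncard ≤ Nat.card H * (rows.map Prod.snd).sum := by
  induction rows generalizing A with
  | nil =>
    have : A = ∅ := Set.eq_empty_of_forall_notMem fun x hx => by simpa using hA x hx
    simp [this]
  | cons q l ih =>
    have h1 := ih (fun q' h => hb q' (List.mem_cons_of_mem _ h)) (A \ DC H q.1) (by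
      rintro x ⟨hx, hx'⟩
      obtain ⟨q', hq', e⟩ := hA x hx
      rcases List.mem_cons.1 hq' with rfl | hq'
      · exact absurd e hx'
      · exact ⟨q', hq', e⟩)
    have h2 := hb q List.mem_cons_self
    have h3 : A.ncard ≤ (A \ DC H q.1).ncard + (DC H q.1).ncard :=
      Set.ncard_le_ncard_sdiff_add_ncard _ _
    rw [List.map_cons, List.sum_cons, mul_add]
    omega

theorem sum_filter_add {α : Type} (l : List (α × ℕ)) (p : α × ℕ → Bool) :
    ((l.filter p).map Prod.snd).sum + ((l.filter fun q => !p q).map Prod.snd).sum =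
      (l.map Prod.snd).sum := by
  induction l with
  | nil => simp
  | cons a l ih => cases h : p a <;> simp [h] <;> omega

end Pool.Agent.Lib.MP_cad414_al.Cg
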