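import Pool.Agent.Lib.MP_cad414_al.Cg.Gp
import Pool.Agent.Lib.MP_cad414_al.Cg.Base

/-! Simplicity from exact double coset data, and the final packaging. -/

namespace Pool.Agent.Lib.MP_cad414_al.Cg

open Subgroup

variable {Γ : Type} [Group Γ] [Finite Γ]

/-- `G` is covered by the double cosets of the rows, each of size at most `m * card H`. -/
structure Cov (G H : Subgroup Γ) (rows : List (Γ × ℕ)) : Prop where
  le : H ≤ G
  cov : ∀ x ∈ G, ∃ q ∈ rows, x ∈ DC H q.1
  bd : ∀ q ∈ rows, (DC H q.1).ncard ≤ Nat.card H * q.2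

theorem Cov.ub {G H : Subgroup Γ} {rows : List (Γ × ℕ)} (h : Cov G H rows) :
    Nat.card G ≤ Nat.card H * (rows.map Prod.snd).sum := by
  have := union_le H rows h.bd G h.cov
  rwa [← Nat.card_coe_set_eq] at this

theorem Cov.tight {G H : Subgroup Γ} {rows : List (Γ × ℕ)} (h : Cov G H rows)
    (he : Nat.card H * (rows.map Prod.snd).sum ≤ Nat.card G) {q : Γ × ℕ} (hq : q ∈ rows) :
    Nat.card H * q.2 ≤ (DC H q.1).ncard := by
  obtain ⟨l1, l2, rfl⟩ := List.append_of_mem hq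
  have h1 := union_le H (l1 ++ l2) (fun q' h' => h.bd q' (by
    rcases List.mem_append.1 h' with h' | h' <;> simp [h'])) (G \ DC H q.1) (by
    rintro x ⟨hx, hx'⟩
    obtain ⟨q', hq', e⟩ := h.cov x hx
    rcases List.mem_append.1 hq' with h' | h'
    · exact ⟨q', List.mem_append_left _ h', e⟩
    · rcases List.mem_cons.1 h' with rfl | h'
      · exact absurd e hx'
      · exact ⟨q', List.mem_append_right _ h', e⟩)
  have h3 : (G : Set Γ).ncard ≤ ((G : Set Γ) \ DC H q.1).ncard + (DC H q.1).ncard :=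
    Set.ncard_le_ncard_sdiff_add_ncard _ _
  rw [← Nat.card_coe_set_eq] at h3
  simp only [List.map_append, List.map_cons, List.sum_append, List.sum_cons, mul_add] at he h1
  have : Nat.card (G : Set Γ) = Nat.card G := rfl
  omega

open Classical in
theorem Cov.mid {G H : Subgroup Γ} {rows : List (Γ × ℕ)} (h : Cov G H rows)
    (he : Nat.card H * (rows.map Prod.snd).sum ≤ Nat.card G) (M : Subgroup Γ) (h1 : H ≤ M)
    (h2 : M ≤ G) :
    Nat.card M = Nat.card H * ((rows.filter fun q => decide (q.1 ∈ M)).map Prod.snd).sum := by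
  have key : ∀ g x, x ∈ DC H g → (x ∈ M ↔ g ∈ M) := by
    rintro g _ ⟨a, ha, b, hb, rfl⟩
    rw [M.mul_mem_cancel_right (h1 hb), M.mul_mem_cancel_left (h1 ha)]
  have a1 := union_le H (rows.filter fun q => decide (q.1 ∈ M))
    (fun q hq => h.bd q (List.mem_of_mem_filter hq)) M (fun x hx => by
      obtain ⟨q, hq, e⟩ := h.cov x (h2 hx)
      exact ⟨q, List.mem_filter.2 ⟨hq, decide_eq_true ((key _ _ e).1 hx)⟩, e⟩)
  have a2 := union_le H (rows.filter fun q => !decide (q.1 ∈ M))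
    (fun q hq => h.bd q (List.mem_of_mem_filter hq)) (G \ M) (fun x hx => by
      obtain ⟨q, hq, e⟩ := h.cov x hx.1
      refine ⟨q, List.mem_filter.2 ⟨hq, ?_⟩, e⟩
      simpa using fun hh => hx.2 ((key _ _ e).2 hh))
  have a3 := sum_filter_add rows fun q => decide (q.1 ∈ M)
  have a4 : (G : Set Γ).ncard ≤ ((G : Set Γ) \ M).ncard + (M : Set Γ).ncard :=
    Set.ncard_le_ncard_sdiff_add_ncard _ _
  rw [← a3, mul_add] at he
  have e1 : Nat.card G = (G : Set Γ).ncard := Nat.card_coe_set_eq _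
  have e2 : Nat.card M = (M : Set Γ).ncard := Nat.card_coe_set_eq _
  omega

/-- No subset sum `s > 1` has `s * r` dividing `idx`. -/
def ssOk (idx r : ℕ) : List ℕ → ℕ → Bool
  | [], s => s == 1 || idx % (s * r) != 0
  | m :: l, s => ssOk idx r l s && (decide (idx < (s + m) * r) || ssOk idx r l (s + m))

theorem ssOk_sub {idx r : ℕ} (h0 : 0 < idx) (l l' : List ℕ) (hs : l'.Sublist l) (s : ℕ)
    (h : ssOk idx r l s = true) : s + l'.sum = 1 ∨ ¬ (s + l'.sum) * r ∣ idx := by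
  induction hs generalizing s with
  | slnil =>
    simp only [ssOk, Bool.or_eq_true, beq_iff_eq, bne_iff_ne] at h
    simpa [Nat.dvd_iff_mod_eq_zero] using h
  | cons a _ ih =>
    simp only [ssOk, Bool.and_eq_true] at h
    exact ih s h.1
  | cons_cons a _ ih =>
    simp only [ssOk, Bool.and_eq_true, Bool.or_eq_true, decide_eq_true_eq] at h
    rw [List.sum_cons, ← add_assoc]
    rcases h.2 with h2 | h2
    · right
      intro hd
      have := Nat.le_of_dvd h0 hd
      rw [add_mul (s + a)] at this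
      omega
    · exact ih _ h2

/-- Every element of `G` all of whose conjugates lie in `S` lies in `Z`. -/
def Core (G S Z : Subgroup Γ) : Prop := ∀ x ∈ G, (∀ g ∈ G, g * x * g⁻¹ ∈ S) → x ∈ Z

omit [Finite Γ] in
theorem Core.self (G Z : Subgroup Γ) : Core G Z Z := fun x _ h => by simpa using h 1 G.one_mem

theorem Core.row {G H S Z : Subgroup Γ} {rows : List (Γ × ℕ)} (h : Cov G H rows)
    (he : Nat.card H * (rows.map Prod.snd).sum ≤ Nat.card G) {g : Γ} {m : ℕ} (hq : (g, m) ∈ rows)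
    (hg : g ∈ G) (hS : S ≤ H) (hc : ∀ s ∈ S, g * s * g⁻¹ ∈ H)
    (hm : Nat.card H ≤ m * Nat.card S) (hZ : Core G S Z) : Core G H Z := by
  intro x hx hh
  refine hZ x hx fun a ha => dc_exact H S g m hS hc hm (h.tight he hq) _ (hh a ha) ?_
  have := hh (g * a) (G.mul_mem hg ha)
  rwa [show g * a * x * (g * a)⁻¹ = g * (a * x * a⁻¹) * g⁻¹ by group] at this

omit [Finite Γ] in
theorem Core.fix {Ω : Type} [MulAction Γ Ω] {G S : Subgroup Γ} {o : Ω}
    (hf : ∀ s ∈ S, s • o = o) {x : Γ} (hh : ∀ g ∈ G, g * x * g⁻¹ ∈ S) {w : Γ} (hw : w ∈ G) :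
    x • w • o = w • o := by
  have := hf _ (hh w⁻¹ (G.inv_mem hw))
  rw [inv_inv, mul_smul, mul_smul, inv_smul_eq_iff] at this
  exact this

omit [Finite Γ] in
theorem Core.step {Ω : Type} [MulAction Γ Ω] {G S K Z : Subgroup Γ} {o : Ω}
    (hf : ∀ s ∈ S, s • o = o) {w : Γ} (hw : w ∈ G)
    (hst : ∀ x ∈ S, x • w • o = w • o → x ∈ K) (hZ : Core G K Z) : Core G S Z := by
  intro x hx hh
  refine hZ x hx fun a ha => hst _ (hh a ha) (Core.fix (G := G) hf (fun g hg => ?_) hw)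
  have := hh (g * a) (G.mul_mem hg ha)
  rwa [show g * a * x * (g * a)⁻¹ = g * (a * x * a⁻¹) * g⁻¹ by group] at this

theorem normal_cases {G H Z : Subgroup Γ} {rows : List (Γ × ℕ)} (h : Cov G H ((1, 1) :: rows))
    (he : Nat.card H * (1 + (rows.map Prod.snd).sum) ≤ Nat.card G) {r : ℕ} (hr : r.Prime)
    (hrH : ¬ r ∣ Nat.card H)
    (hss : ssOk (1 + (rows.map Prod.snd).sum) r (rows.map Prod.snd) 1 = true)
    (hcore : Core G H Z) (u : G) (hu : u ^ r = 1) (N : Subgroup G) [hN : N.Normal] :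
    (∀ x ∈ N, (x : Γ) ∈ Z) ∨ u ∈ N := by
  classical
  set H' : Subgroup G := H.subgroupOf G with hH'
  set M : Subgroup G := H' ⊔ N with hM
  have cH : Nat.card H' = Nat.card H := Nat.card_congr (subgroupOfEquivOfLe h.le).toEquiv
  have cM : Nat.card (M.map G.subtype) = Nat.card M :=
    (Nat.card_congr (M.equivMapOfInjective _ G.subtype_injective).toEquiv).symm
  have hHM : H ≤ M.map G.subtype := fun x hx =>
    ⟨⟨x, h.le hx⟩, (le_sup_left : H' ≤ M) hx, rfl⟩
  have he' : Nat.card H * ((((1 : Γ), 1) :: rows).map Prod.snd).sum ≤ Nat.card G := by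
    simpa using he
  have hm := h.mid he' (M.map G.subtype) hHM (map_subtype_le M)
  rw [List.filter_cons_of_pos (by simp), List.map_cons, List.sum_cons, cM] at hm
  have hG : Nat.card G = Nat.card H * (1 + (rows.map Prod.snd).sum) :=
    le_antisymm (by simpa using h.ub) he
  have hpos := card_pos' H
  rcases ssOk_sub (by omega) _ _ ((List.filter_sublist
    (p := fun q => decide (q.1 ∈ M.map G.subtype))).map Prod.snd) 1 hss with h1 | h1
  · left
    have e : H' = M := eq_of_le_of_card_ge le_sup_left (by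
      rw [hm, cH]; simp only at h1 ⊢; rw [h1, mul_one])
    intro x hx
    refine hcore x x.2 fun g hg => ?_
    have : (⟨g, hg⟩ : G) * x * (⟨g, hg⟩ : G)⁻¹ ∈ H' := by
      rw [e]; exact (le_sup_right : N ≤ M) (hN.conj_mem x hx _)
    exact this
  · right
    have i1 : N.relIndex M * M.index = N.index := relIndex_mul_index le_sup_right
    have i2 : N.relIndex M ∣ Nat.card H := by
      rw [hM, relIndex_sup_right, ← cH]; exact relIndex_dvd_card _ _
    have i3 : Nat.card M * M.index = Nat.card G := card_mul_index M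
    have i4 : ¬ r ∣ M.index := by
      rintro ⟨c, hc⟩
      apply h1
      rw [hm, hG, hc, mul_assoc] at i3
      have := Nat.eq_of_mul_eq_mul_left hpos i3
      exact ⟨c, by rw [← this, mul_assoc]⟩
    have i5 : Nat.Coprime r N.index := by
      rw [hr.coprime_iff_not_dvd, ← i1]
      intro hd
      rcases (Nat.Prime.dvd_mul hr).1 hd with hd | hd
      · exact hrH (hd.trans i2)
      · exact i4 hd
    have i6 : u ^ N.index ∈ N := N.pow_index_mem u
    have i7 : u ^ Nat.gcd r N.index ∈ N := by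
      rw [← QuotientGroup.eq_one_iff] at i6 ⊢
      rw [QuotientGroup.mk_pow] at i6 ⊢
      rw [pow_gcd_eq_one]
      exact ⟨by rw [← QuotientGroup.mk_pow, hu]; rfl, i6⟩
    rwa [i5, pow_one] at i7

theorem spor_of {G Z : Subgroup Γ} (hZG : Z ≤ G) (hZ : ∀ g ∈ G, ∀ z ∈ Z, g * z * g⁻¹ ∈ Z)
    {N : ℕ} (hN : Nat.card G = N * Nat.card Z) (hN1 : N ≠ 1) (u y t c d : Γ) (hu : u ∈ G)
    (hy : y ∈ G) (hc : c ∈ G) (hd : d ∈ G) (ht : t ∈ closure {u, y * u * y⁻¹}) (ht2 : t * t ∈ Z)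
    (hgen : G ≤ closure ({t, c * t * c⁻¹, d * t * d⁻¹} ∪ (Z : Set Γ)))
    (hcases : ∀ (M : Subgroup G) [M.Normal], (∀ x ∈ M, (x : Γ) ∈ Z) ∨ (⟨u, hu⟩ : G) ∈ M) :
    Spor N := by
  set Z' : Subgroup G := Z.subgroupOf G with hZ'
  have hn : Z'.Normal := ⟨fun z hz g => hZ g g.2 z hz⟩
  have htG : t ∈ G := (closure_le G).2 (by
    rintro s (rfl | rfl)
    exacts [hu, G.mul_mem (G.mul_mem hy hu) (G.inv_mem hy)]) ht
  let π := QuotientGroup.mk' Z'
  have cQ : Nat.card (G ⧸ Z') = N := by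
    have h1 := card_eq_card_quotient_mul_card_subgroup Z'
    rw [Nat.card_congr (subgroupOfEquivOfLe hZG).toEquiv, hN] at h1
    exact (Nat.eq_of_mul_eq_mul_right (card_pos' Z) h1).symm
  let T : G ⧸ Z' := π ⟨t, htG⟩
  let C : G ⧸ Z' := π ⟨c, hc⟩
  let D : G ⧸ Z' := π ⟨d, hd⟩
  have top : ∀ M : Subgroup (G ⧸ Z'), T ∈ M → C * T * C⁻¹ ∈ M → D * T * D⁻¹ ∈ M → M = ⊤ := by
    intro M h1 h2 h3
    rw [eq_top_iff]
    intro q _
    obtain ⟨x, rfl⟩ := QuotientGroup.mk'_surjective Z' q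
    have : G ≤ (M.comap π).map G.subtype := hgen.trans ((closure_le _).2 (by
      rintro s ((rfl | rfl | rfl) | hs)
      · exact ⟨⟨s, htG⟩, h1, rfl⟩
      · exact ⟨⟨c, hc⟩ * ⟨t, htG⟩ * ⟨c, hc⟩⁻¹, h2, rfl⟩
      · exact ⟨⟨d, hd⟩ * ⟨t, htG⟩ * ⟨d, hd⟩⁻¹, h3, rfl⟩
      · refine ⟨⟨s, hZG hs⟩, ?_, rfl⟩
        have : π ⟨s, hZG hs⟩ = 1 := (QuotientGroup.eq_one_iff _).2 hs
        show π _ ∈ M
        rw [this]; exact M.one_mem))
    obtain ⟨x', hx', e⟩ := this x.2
    rw [show x = x' from Subtype.ext e.symm]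
    exact hx'
  have hT1 : T ≠ 1 := by
    intro e
    have := top ⊥ (by simp [e]) (by simp [e]) (by simp [e])
    apply hN1
    rw [← cQ, ← card_top, ← this, card_bot]
  have hT2 : orderOf T = 2 := by
    refine orderOf_eq_prime ?_ hT1
    rw [sq, ← map_mul]
    exact (QuotientGroup.eq_one_iff _).2 ht2
  have : Nontrivial (G ⧸ Z') := ⟨T, 1, hT1⟩
  refine ⟨G ⧸ Z', inferInstance, ⟨fun M hM => ?_⟩, cQ, ![T, C * T * C⁻¹, D * T * D⁻¹], ?_, ?_, ?_⟩
  · have := hM.comap π
    rcases hcases (M.comap π) with h | h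
    · left
      rw [eq_bot_iff]
      intro q hq
      obtain ⟨x, rfl⟩ := QuotientGroup.mk'_surjective Z' q
      exact (QuotientGroup.eq_one_iff _).2 (h x hq)
    · right
      have hT : T ∈ M := by
        have : closure {u, y * u * y⁻¹} ≤ (M.comap π).map G.subtype := (closure_le _).2 (by
          rintro s (rfl | rfl)
          · exact ⟨_, h, rfl⟩
          · exact ⟨_, this.conj_mem _ h ⟨y, hy⟩, rfl⟩)
        obtain ⟨x', hx', e⟩ := this ht
        rw [show x' = ⟨t, htG⟩ from Subtype.ext e] at hx'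
        exact hx'
      exact top M hT (hM.conj_mem _ hT _) (hM.conj_mem _ hT _)
  · have hc : ∀ a : G ⧸ Z', orderOf (a * T * a⁻¹) = 2 := fun a => by
      rw [← hT2]; exact (MulAut.conj a).orderOf_eq T
    intro i
    fin_cases i
    exacts [hT2, hc _, hc _]
  · have hc : ∀ i, IsConj T (![T, C * T * C⁻¹, D * T * D⁻¹] i) := by
      intro i
      fin_cases i
      exacts [IsConj.refl _, isConj_iff.2 ⟨C, rfl⟩, isConj_iff.2 ⟨D, rfl⟩]
    exact fun i j => (hc i).symm.trans (hc j)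
  · exact top _ (subset_closure ⟨0, rfl⟩) (subset_closure ⟨1, rfl⟩) (subset_closure ⟨2, rfl⟩)

omit [Finite Γ] in
theorem dvd_of_pow {G : Subgroup Γ} {u : Γ} (hu : u ∈ G) {p : ℕ} (hp : p.Prime) (h : u ^ p = 1)
    (h1 : u ≠ 1) : p ∣ Nat.card G := by
  have := Fact.mk hp
  rw [← orderOf_eq_prime h h1]
  exact G.orderOf_dvd_natCard hu

end Pool.Agent.Lib.MP_cad414_al.Cg
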