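import Pool.Agent.Lib.MP_cad414_al.Cg.Gl

/-! Certificate for the sporadic group HS. -/

namespace Pool.Agent.Lib.MP_cad414_al.Cg

namespace HS

open Mdl

attribute [local instance] gact

noncomputable section

def M := glM 2 22 5 1 1 1 9 (by decide)

def I : List Ins := [(0x5cd75050c160509ec184de820b6a0a105e131ef00a1d7864c800f1e340726460e39f039bee0d0fa212282c184080080b206cdb41e1304166ed084d342b928e, 2, []),
  (0xd6688716320535c60cf14c19c198d787210788220dbc812d4083f0b108e84811ff4866329011468048dc23a68845650885dca2080000346a88ff5682fe0a3, 2, []),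
  (0x80f30601e63e018404030830f9d0e1350b224ea501a98c03500706427e0c48047cd8000090f06b43c332c545e98887101702723036ac54d7d00aa680c, 1, []),
  (0x5f17e0617321f8b840bc6f043b8f06569c1c476c132b387642807ec6e00ca58138bb8574d50697a302bff43dac8032d880146720d84203ca5408c5fe2b6244, 3, []),
  (0x2b8ea8a391716d18410e2102844986b2ba0c273834af744cc8481d80b014a8c3606545e14281391f1342bc3d0c645e98885c9d7027230280900f65a825f3d1, 1, []),
  (0x12e6580776804558200a52c138818a416f1498822e880003b21807cc80a10440d788440153017d08008610282b9c58de5837ca500e8542578dcd1f51a810e2, 3, []),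
  (0x8fffc31f9fc40654086cae106b978050ce8203c4c0e57f8d0a1e094d4021a504554c00c10ff0ab1680f8b541ec608c2b0711d9fe099600d964521a52d, 1, []),
  (0x8d36512ada506141a0e39a8387758095a007410848283c8cc4311b8c506628844df2c019a180a8eb1061540014380da1410198f0753a60d9f2098c84b2b342, 1, []),
  (0xede0ba532dd7229b482f8690c70690c70902c93c53835da627cad5c9122d13453a15c43e2701ba1761ecace653794e92e0fe08303b038057105e482bbc8c19, 1, [])]

theorem kI : M.Ok I := Mdl.ok_of (by decide +kernel)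

theorem c1 : M.Ck I (chkPcs [] [(0, 3, [], []), (1, 3, [[0]], []), (2, 2, [[1, 1], [0, 0]], []), (3, 2, [[2, 1], [1, 0, 0], [1, 1, 0, 0]], [2, 1, 0]), (4, 2, [[3, 2, 1, 0, 0], [2], [1, 1], [1, 0]], []), (5, 2, [[4, 3, 2, 1, 1, 0], [3, 2, 1, 0], [2, 0], [1, 1, 0, 0], [1, 1, 0]], [2, 1, 0])]) :=
  ck_go (by decide +kernel)

theorem u3 : M.UB I [5, 4, 3, 2, 1, 0] 144 :=
  ((ub_pc kI _ c1 ub_nil).le (le_sub (by decide +kernel))).mono (by decide +kernel)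

def T2a : List Ins := [(0, 0, [5, 2, 0]),
  (0, 0, [4, 3, 1])]

def T2 : List Ins := I ++ T2a

theorem kT2 : M.Ok T2 := kI.app (Mdl.ok_of (by decide +kernel))

theorem c3 : M.Ck T2 (chkOrb [9, 10] [[]] [[1024]]
  ⟨0xc674e27c9f, 8, 245, 4, 0x50517420, 16⟩ 3 15
  [0x29b0d868adb] (Nat.pred (Nat.pow 2 16))) :=
  ck_go (by decide +kernel)

theorem b2 : M.LB T2 [9, 10] 16 :=
  (lb_orb (or_of kT2 c3) (le_sub rfl) (fix_nil _) (lb_one _)).mono rfl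

theorem c4 : M.Ck T2 (an (an (chkCi [6] [9, 10] [5, 4, 3, 2, 1, 0] [[5, 3, 2], [4, 3, 1]])
  (an (chkFix [9, 10] [[0x108400000210840008421, 0x108421000010840008000, 0x40000000000000000000000, 0x40008420080210002108400, 0x10042000021000210040108400, 0x10800008421080000040100000, 0x10802000401004210000108020, 0x10802008401004210800100000, 0x10802008401080000000000000, 0x10802100401080010840100401, 0x200042008001084200040000401, 0x200042100021080200840000421, 0x210002000021004010002108421, 0x210040008001084210840100020, 0x210040108420080010042008400, 0x210042100401004200002000020, 0x210042108420004000842108421, 0x210840100400004200802100401]])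
  (chkIds [5, 4, 3, 2, 1, 0] [6] [] 6 [[]] [([], 6, [])])))
  (an (chkCj [6] [9, 10] [5, 4, 3, 2, 1, 0] [[5, 3, 2], [4, 3, 1]])
  (an (chkOrb [9, 10] [[], [5]] [[0x108400000210840008421, 0x108421000010840008000, 0x40000000000000000000000, 0x40008420080210002108400, 0x10042000021000210040108400, 0x10800008421080000040100000, 0x10802000401004210000108020, 0x10802008401004210800100000, 0x10802008401080000000000000, 0x10802100401080010840100401, 0x200042008001084200040000401, 0x200042100021080200840000421, 0x210002000021004010002108421, 0x210040008001084210840100020, 0x210040108420080010042008400, 0x210042100401004200002000020, 0x210042108420004000842108421, 0x210840100400004200802100401]]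
  ⟨0xb7c82e16dd, 4, 91, 4, 775, 9⟩ 3 8
  [0x86c458] (Nat.pred (Nat.pow 2 9)))
  (chkIds [5, 4, 3, 2, 1, 0] [6] [6] 6 [[], [5]]
  [([], 11, []), ([3], 6, [3, 5])])))) :=
  ck_go (by decide +kernel)

theorem v2 : M.UB T2 [5, 4, 3, 2, 1, 0] 144 := (ub_app T2a (by decide +kernel)).2 u3

theorem s20 : M.Le T2 [9, 10] [5, 4, 3, 2, 1, 0] := leD kT2 _ [9, 10] _ (by decide +kernel)

theorem d2 : M.CV T2 [6, 5, 4, 3, 2, 1, 0] [5, 4, 3, 2, 1, 0] [(6, 9)] :=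
  cv_of (zs := [6]) (fa (rb_of s20 (cj_of kT2 c4.r.l) v2 b2 rfl) fa0)
  (fa (rz_one (ids_of kT2 c4.l.r.r)) fa0)
  (fa (fa (rz_of s20 (cj_of kT2 c4.r.l) s20 (ci_of kT2 c4.l.l) (fix_of kT2 c4.l.r.l) v2 b2 rfl
    (or_of kT2 c4.r.r.l) rfl (ids_of kT2 c4.r.r.r)) fa0)
  fa0)

theorem u2 : M.UB I [6, 5, 4, 3, 2, 1, 0] 1440 :=
  (ub_app T2a (by decide +kernel)).1 ((d2.ub v2).mono rfl)

def T1a : List Ins := [(0, 0, [7, 5, 7]),
  (0, 0, [7, 5, 7, 5, 7]),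
  (0, 0, [6, 3, 3, 6]),
  (0, 0, [6, 4, 3]),
  (0, 0, [6, 4, 3]),
  (0, 0, [2, 1]),
  (0, 0, [2, 1, 4, 0]),
  (0, 0, [0, 6, 5, 3, 0, 0]),
  (0, 0, [5, 6, 1, 6, 4, 6])]

def T1 : List Ins := I ++ T1a

theorem kT1 : M.Ok T1 := kI.app (Mdl.ok_of (by decide +kernel))

def B5a : List Ins := [(0, 0, [12, 11, 12, 12, 12, 11, 12, 12, 12, 12, 11, 12, 11, 11, 12, 11, 12, 11])]

def B5 : List Ins := T1 ++ B5a

theorem kB5 : M.Ok B5 := kT1.app (Mdl.ok_of (by decide +kernel))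

theorem c6 : M.Ck B5 (an (chkOrb [11, 12] [[]] [[32768]]
  ⟨0x9d5e58bd13, 40, 723, 6, 0x8eb3010d10a0007c0105b64240240081298ab81000000050091c9001003, 60⟩ 3 59
  [0x121b62b5d35d969a6ab23b2d75d76554d365a6bb0daeb] (Nat.pred (Nat.pow 2 60)))
  (an (chkFix [18] [[32768]])
  (chkOrb [18] [[]] [[1024]]
  ⟨0xc27f87d8df, 1, 17, 1, 0, 2⟩ 2 1
  [0] (Nat.pred (Nat.pow 2 2))))) :=
  ck_go (by decide +kernel)

theorem b5 : M.LB T1 [11, 12] 120 :=
  (lb_app B5a (by decide +kernel)).1 ((lb_orb (or_of kB5 c6.l) (leD kB5 _ [18] _ (by decide +kernel)) (fix_of kB5 c6.r.l)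
  (lb_orb (or_of kB5 c6.r.r) (le_sub rfl) (fix_nil _) (lb_one _))).mono rfl)

theorem c8 : M.Ck T1 (chkOrb [13, 14] [[]] [[32768]]
  ⟨0xbb1980996f, 10, 197, 5, 0x1220800160a42, 20⟩ 3 19
  [0x10d899a29b0d8db] (Nat.pred (Nat.pow 2 20))) :=
  ck_go (by decide +kernel)

theorem b7 : M.LB T1 [13, 14] 20 :=
  (lb_orb (or_of kT1 c8) (le_sub rfl) (fix_nil _) (lb_one _)).mono rfl

theorem c10 : M.Ck T1 (chkOrb [15, 16, 17] [[]] [[32768]]
  ⟨0xaa8984a665, 8, 137, 4, 0x80284a01, 16⟩ 4 15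
  [0x98683709868373] (Nat.pred (Nat.pow 2 16))) :=
  ck_go (by decide +kernel)

theorem b9 : M.LB T1 [15, 16, 17] 16 :=
  (lb_orb (or_of kT1 c10) (le_sub rfl) (fix_nil _) (lb_one _)).mono rfl

theorem c11 : M.Ck T1 (an (an (an (chkCi [7] [11, 12] [6, 5, 4, 3, 2, 1, 0] [[3, 2, 6, 3, 0, 0], [1, 6, 4, 3, 2]])
  (an (chkFix [11, 12] [[0x210000000421004000000100021]])
  (chkIds [6, 5, 4, 3, 2, 1, 0] [7, 9, 10] [] 7 [[]] [([], 7, [])])))
  (an (chkCj [7] [11, 12] [6, 5, 4, 3, 2, 1, 0] [[3, 2, 6, 3, 0, 0], [1, 6, 4, 3, 2]])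
  (an (chkOrb [11, 12] [[], [6], [5]] [[0x210000000421004000000100021]]
  ⟨0xb8524bdf99, 8, 191, 4, 0xa230a009, 12⟩ 3 10
  [0x556c158] (Nat.pred (Nat.pow 2 12)))
  (chkIds [6, 5, 4, 3, 2, 1, 0] [7, 9, 10] [7] 7 [[], [6], [5]]
  [([], 18, []), ([6, 2, 1, 0, 0], 7, [6, 4]), ([], 9, [])]))))
  (an (an (chkCj [9] [13, 14] [6, 5, 4, 3, 2, 1, 0] [[2, 1, 6, 4, 3, 2, 1, 1], [2]])
  (an (chkOrb [13, 14] [[], [6], [5], [2, 5]] [[0x210000000421004000000100021]]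
  ⟨0xce88a27d9d, 8, 105, 4, 0x1b080249, 12⟩ 3 10
  [0x424c858] (Nat.pred (Nat.pow 2 12)))
  (chkIds [6, 5, 4, 3, 2, 1, 0] [7, 9, 10] [9] 7 [[], [6], [5], [2, 5]]
  [([], 7, [5]), ([5, 6, 5, 4, 2, 0], 9, [3, 1, 2]), ([], 10, []), ([2, 1, 6, 5, 4, 3, 1, 1, 0, 0], 9, [2, 5])])))
  (an (chkCj [10] [15, 16, 17] [6, 5, 4, 3, 2, 1, 0] [[3, 6, 5, 4, 3], [3, 6, 5, 2, 0, 0], [5, 6, 4, 1]])
  (an (chkOrb [15, 16, 17] [[], [6]] [[0x210000000421004000000100021]]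
  ⟨0xd7d65da3ab, 8, 173, 4, 0x6232000, 12⟩ 4 10
  [0x986837443] (Nat.pred (Nat.pow 2 12)))
  (chkIds [6, 5, 4, 3, 2, 1, 0] [7, 9, 10] [10] 7 [[], [6]]
  [([], 9, [5]), ([0, 6, 4, 3, 1, 1], 10, [5, 1, 3])]))))) :=
  ck_go (by decide +kernel)

theorem v1 : M.UB T1 [6, 5, 4, 3, 2, 1, 0] 1440 := (ub_app T1a (by decide +kernel)).2 u2

theorem s10 : M.Le T1 [11, 12] [6, 5, 4, 3, 2, 1, 0] := leD kT1 _ [11, 12] _ (by decide +kernel)

theorem s11 : M.Le T1 [13, 14] [6, 5, 4, 3, 2, 1, 0] := leD kT1 _ [13, 14] _ (by decide +kernel)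

theorem s12 : M.Le T1 [15, 16, 17] [6, 5, 4, 3, 2, 1, 0] := leD kT1 _ [15, 16, 17] _ (by decide +kernel)

theorem d1 : M.CV T1 [7, 6, 5, 4, 3, 2, 1, 0] [6, 5, 4, 3, 2, 1, 0] [(7, 12), (9, 72), (10, 90)] :=
  cv_of (zs := [7]) (fa (rb_of s10 (cj_of kT1 c11.l.r.l) v1 b5 rfl) (fa (rb_of s11 (cj_of kT1 c11.r.l.l) v1 b7 rfl) (fa (rb_of s12 (cj_of kT1 c11.r.r.l) v1 b9 rfl) fa0)))
  (fa (rz_one (ids_of kT1 c11.l.l.r.r)) fa0)
  (fa (fa (rz_of s10 (cj_of kT1 c11.l.r.l) s10 (ci_of kT1 c11.l.l.l) (fix_of kT1 c11.l.l.r.l) v1 b5 rfl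
    (or_of kT1 c11.l.r.r.l) rfl (ids_of kT1 c11.l.r.r.r)) fa0)
  (fa (fa (rz_of s11 (cj_of kT1 c11.r.l.l) s10 (ci_of kT1 c11.l.l.l) (fix_of kT1 c11.l.l.r.l) v1 b5 rfl
    (or_of kT1 c11.r.l.r.l) rfl (ids_of kT1 c11.r.l.r.r)) fa0)
  (fa (fa (rz_of s12 (cj_of kT1 c11.r.r.l) s10 (ci_of kT1 c11.l.l.l) (fix_of kT1 c11.l.l.r.l) v1 b5 rfl
    (or_of kT1 c11.r.r.r.l) rfl (ids_of kT1 c11.r.r.r.r)) fa0)
  fa0)))

theorem u1 : M.UB I [7, 6, 5, 4, 3, 2, 1, 0] 252000 :=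
  (ub_app T1a (by decide +kernel)).1 ((d1.ub v1).mono rfl)

def T0a : List Ins := [(0, 0, [6, 4, 1, 7, 7, 2, 3]),
  (0, 0, [7, 1, 0, 4, 7, 3, 5, 7]),
  (0, 0, [2, 3, 8, 6, 2, 8, 4]),
  (0, 0, [8, 11, 8]),
  (0, 0, [11, 12, 11, 12, 11, 12]),
  (0, 0, [7, 13, 7]),
  (0, 0, [8, 13, 8])]

def T0 : List Ins := I ++ T0a

theorem kT0 : M.Ok T0 := kI.app (Mdl.ok_of (by decide +kernel))

def B12a : List Ins := [(0, 0, [10, 10, 10, 9, 9, 10, 10, 10, 10, 10, 9]),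
  (0, 0, [9, 10, 9, 10, 9, 9, 10, 10, 10, 10, 10, 10, 10, 9, 10]),
  (0, 0, [9, 10, 9, 9, 10, 10, 9, 10, 9, 10, 9, 9, 10, 10, 9])]

def B12 : List Ins := T0 ++ B12a

theorem kB12 : M.Ok B12 := kT0.app (Mdl.ok_of (by decide +kernel))

theorem c13 : M.Ck B12 (an (chkOrb [9, 10] [[]] [[1024]]
  ⟨0x9b87e04fb3, 60, 967, 7, 0x11d00b9480630c304a60098000b800104000038a30012b204581048c003160228500f81810e0400ba80290000c548e02bc7aa, 90⟩ 3 64
  [0xa0bb13b155537458aa76489bb137558ac4ec45d81d553acb, 0x4819aaaa0d4dd8aab13] (Nat.pred (Nat.pow 2 90)))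
  (an (chkFix [16, 17, 18] [[1024]])
  (chkOrb [16, 17, 18] [[]] [[32]]
  ⟨0xee1968c803, 8, 197, 4, 0x70613a20, 16⟩ 4 15
  [0x498749878686333] (Nat.pred (Nat.pow 2 16))))) :=
  ck_go (by decide +kernel)

theorem b12 : M.LB T0 [9, 10] 1440 :=
  (lb_app B12a (by decide +kernel)).1 ((lb_orb (or_of kB12 c13.l) (leD kB12 _ [16, 17, 18] _ (by decide +kernel)) (fix_of kB12 c13.r.l)
  (lb_orb (or_of kB12 c13.r.r) (le_sub rfl) (fix_nil _) (lb_one _))).mono rfl)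

theorem c14 : M.Ck T0 (an (an (an (chkCi [8] [9, 10] [7, 6, 5, 4, 3, 2, 1, 0] [[3, 2, 6, 4], [7, 3, 5, 7, 3, 2, 6]])
  (chkFix [9, 10] [[0x10842000021000000842000021]]))
  (an (chkIds [7, 6, 5, 4, 3, 2, 1, 0] [8] [] 8 [[]] [([], 8, [])])
  (chkCj [8] [9, 10] [7, 6, 5, 4, 3, 2, 1, 0] [[3, 2, 6, 4], [7, 3, 5, 7, 3, 2, 6]])))
  (an (an (chkOrb [9, 10] [[], [7], [6], [5]] [[0x10842000021000000842000021]]
  ⟨0xad8687fc0f, 58, 2505, 8, 0xb1a287c91102b02116b042701ae01040000030351008f1601210301120d058a06090701891601ab510112002557046f39040b3a04150911096a, 175⟩ 3 64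
  [0xa9bb22b13762a9d89bb2489d89bb1589d89d8aab13a9d6d8, 0xa2c553745913762a9d06c4dd8aaa2a75b722b154dd922762, 0x913b155454dd89d05d82ab154dd15589b] (Nat.pred (Nat.pow 2 175)))
  (chkIds [7, 6, 5, 4, 3, 2, 1, 0] [8] [8] 8 [[], [7], [6], [5]]
  [([], 16, []), ([7, 5, 0, 6, 7, 5, 7, 1, 6, 3, 2], 8, [5, 7, 1]), ([1, 6, 5, 7, 5, 7, 0, 6, 5, 4, 3, 2], 8, [5, 3, 6, 7]), ([5, 7, 5, 7, 5, 6, 7, 2, 6, 3, 2, 1, 0], 8, [0, 4])]))
  (an (chkBase [8, 7, 6, 5, 4, 3, 2, 1, 0] [7, 6, 5, 4, 3, 2, 1, 0] 1 16 [[], [8, 7, 8, 7, 8], [7, 2, 8], [5, 7, 3, 7, 8], [0, 2, 8], [6, 8], [1, 3, 6, 8], [2, 8], [7, 0, 6, 8], [7, 1, 2, 8], [1, 8, 5, 7, 8], [2, 5, 7, 8], [7, 1, 8], [8, 5, 7, 8], [7, 5, 2, 8], [6, 8, 7, 8], [5, 7, 8], [5, 5, 6, 7, 8], [8, 0, 4, 8], [3, 7, 3, 8], [8, 5, 1, 8], [5, 2, 7, 8]])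
  (chkFin [] 11 11 8 12 13 7 8 14 15 [11, 12, 11, 12, 11, 12] [])))) :=
  ck_go (by decide +kernel)

theorem v0 : M.UB T0 [7, 6, 5, 4, 3, 2, 1, 0] 252000 := (ub_app T0a (by decide +kernel)).2 u1

theorem s00 : M.Le T0 [9, 10] [7, 6, 5, 4, 3, 2, 1, 0] := leD kT0 _ [9, 10] _ (by decide +kernel)

theorem d0 : M.CV T0 [8, 7, 6, 5, 4, 3, 2, 1, 0] [7, 6, 5, 4, 3, 2, 1, 0] [(8, 175)] :=
  cv_of (zs := [8]) (fa (rb_of s00 (cj_of kT0 c14.l.r.r) v0 b12 rfl) fa0)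
  (fa (rz_one (ids_of kT0 c14.l.r.l)) fa0)
  (fa (fa (rz_of s00 (cj_of kT0 c14.l.r.r) s00 (ci_of kT0 c14.l.l.l) (fix_of kT0 c14.l.l.r) v0 b12 rfl
    (or_of kT0 c14.r.l.l) rfl (ids_of kT0 c14.r.l.r)) fa0)
  fa0)

def B15a : List Ins := [(0, 0, [14, 13, 15, 14, 13, 14, 14, 14, 13, 13, 14, 13, 15, 13, 15, 15, 15, 13, 13, 13, 14, 13, 13]),
  (0, 0, [14, 13, 14, 13, 14, 14, 13, 14, 15, 13, 15, 15, 15, 14, 15, 13, 14, 15]),
  (0, 0, [16, 16, 16, 16, 17, 17, 17, 17, 17, 16, 16, 16, 16, 16]),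
  (0, 0, [17, 16, 17, 17, 16, 17, 17, 17, 17, 16, 16, 17, 16, 16, 17]),
  (0, 0, [17, 16, 16, 17, 17, 16, 17, 16, 17, 17, 16, 16, 17, 17]),
  (0, 0, [20, 20, 18, 18, 19, 20, 20]),
  (0, 0, [19, 20, 18, 18, 20, 18, 20]),
  (0, 0, [20, 18, 18, 20, 18, 19, 20, 19, 20, 20, 19])]

def B15 : List Ins := T0 ++ B15a

theorem kB15 : M.Ok B15 := kT0.app (Mdl.ok_of (by decide +kernel))

theorem c16 : M.Ck B15 (an (an (chkOrb [13, 14, 15] [[]] [[1]]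
  ⟨0xc4e482ad4b, 70, 2811, 8, 0x1f001400760302140e052c002592000305a2076b040108299f002a0737000a0d040a10000c0003381793151d0d0026180000130f2c0002309a4a9d00591313180006080034, 176⟩ 4 64
  [0x7190942963529095294371985490715053909152949373982509497390937373, 0x7373905925150515398071582519851739886352919373588271905359815943, 0x88635439852983715415098535390519886358593905983] (Nat.pred (Nat.pow 2 176)))
  (an (chkFix [16, 17] [[1]])
  (chkOrb [16, 17] [[]] [[32]]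
  ⟨0x98eff81b71, 70, 2767, 8, 0x100003b4f05331701090a370003053990001b0023003b080402a10828024201440500002102490306809d091f031d0f1200023109000302052ba41a86432d00a50d03000c0d, 175⟩ 3 64
  [0x24bb25145b136dd94505b2ec05d16976585daac95db1b6db, 0x56ca096dd5451641636db6dd9056ec95ba1db2da096eca4d, 0x202cd92a6ec8dd968b646dd16c85b76cb45] (Nat.pred (Nat.pow 2 175)))))
  (an (an (chkFix [18, 19, 20] [[32]])
  (chkOrb [18, 19, 20] [[]] [[1024]]
  ⟨0xccc6552bbb, 45, 1277, 7, 0x68000007001535009c280014402800005a30002500045c02300002cb0002800091400e3a009bd, 90⟩ 4 64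
  [0x372398558694272394290390503974986578947337419478623941965413733, 0x4194570590709639860939867] (Nat.pred (Nat.pow 2 90))))
  (an (chkFix [21, 22, 23] [[1024]])
  (chkOrb [21, 22, 23] [[]] [[0x100000]]
  ⟨0xb0da8f0811, 10, 169, 4, 0x10430e0, 16⟩ 4 15
  [0x498749878686333] (Nat.pred (Nat.pow 2 16)))))) :=
  ck_go (by decide +kernel)

theorem b15 : M.LB T0 [13, 14, 15] 44352000 :=
  (lb_app B15a (by decide +kernel)).1 ((lb_orb (or_of kB15 c16.l.l) (leD kB15 _ [16, 17] _ (by decide +kernel)) (fix_of kB15 c16.l.r.l)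
  (lb_orb (or_of kB15 c16.l.r.r) (leD kB15 _ [18, 19, 20] _ (by decide +kernel)) (fix_of kB15 c16.r.l.l)
  (lb_orb (or_of kB15 c16.r.l.r) (leD kB15 _ [21, 22, 23] _ (by decide +kernel)) (fix_of kB15 c16.r.r.l)
  (lb_orb (or_of kB15 c16.r.r.r) (le_sub rfl) (fix_nil _) (lb_one _))))).mono rfl)

theorem e1 : M.Le T0 [13, 14, 15] [8, 7, 6, 5, 4, 3, 2, 1, 0] := leD kT0 _ [11, 12, 13, 14, 15] _ (by decide +kernel)

theorem fin : Spor 44352000 :=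
  spor kT0 d0 v0 ((b15.le e1).mono rfl) (co_base kT0 c14.r.r.l) (le_sub rfl) (cj_nil _) ub_nil (lb_one _)
    (by norm_num) (leD kT0 _ [11] _ (by decide +kernel)) c14.r.r.r
    (Subgroup.eq_of_le_of_card_ge e1 (le_trans (d0.ub v0) (b15.mono rfl))).ge (by decide +kernel)

end

end HS

theorem spor_HS : Spor 44352000 := HS.fin

end Pool.Agent.Lib.MP_cad414_al.Cg
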