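import Pool.Agent.Lib.MP_cad414_al.Cg.HnM
import Pool.Agent.Lib.MP_cad414_al.Cg.HnD

/-! Access to the tables. -/

namespace Pool.Agent.Lib.MP_cad414_al.Cg.Hn

def nth (l : List ℕ) : ℕ → ℕ := List.rec (motive := fun _ => ℕ → ℕ) (fun _ => 0)
  (fun a _ ih k => Nat.rec (motive := fun _ => ℕ) a (fun k _ => ih k) k) l

def get (P : Par 11 133) (l : List ℕ) (k : ℕ) : ℕ := frc k fun k =>
  Nat.land (Nat.shiftRight (nth l (Nat.div k 133)) (Nat.mul P.rw (Nat.mod k 133))) P.md

def frcL (f : ℕ → ℕ) (l : List ℕ) : (List ℕ → Bool) → Bool :=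
  List.rec (motive := fun _ => (List ℕ → Bool) → Bool) (fun k => k [])
    (fun a _ ih k => frc (f a) fun x => ih fun t => k (x :: t)) l

theorem frcL_eq (f : ℕ → ℕ) (l : List ℕ) (k : List ℕ → Bool) : frcL f l k = k (l.map f) := by
  induction l generalizing k with
  | nil => rfl
  | cons a l ih => exact (frc_eq (f a) fun x => frcL f l fun t => k (x :: t)).trans (ih _)

def tb (P : Par 11 133) (l : List ℕ) (m : ℕ) : ℕ :=
  get P l (Nat.land (Nat.shiftRight ixT (Nat.mul 9 m)) 511)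

def P0 : Par 11 133 := mkPar 11 133 14 4 2979 15

def T0 : ℕ → ℕ := tb P0 (nbC.map (expand 14 4 15))

def G0 (i : ℕ) : ℕ := expand 14 4 15 (nth gC i)

def run (k : Par 11 133 → (ℕ → ℕ) → Bool) : Bool :=
  Par.run 11 133 14 4 2979 15 fun P => frcL (expand 14 4 15) nbC fun l => k P (tb P l)

theorem run_eq (k : Par 11 133 → (ℕ → ℕ) → Bool) : run k = k P0 T0 :=
  (Par.run_eq _ _ _ _ _ _ _).trans (frcL_eq _ _ _)

/-- A block of eight identities. -/
def CI (k : ℕ) : Prop := run (fun P t => ((ids.drop (8 * k)).take 8).all (idb P t G0)) = true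

/-- An orbit of vectors. -/
def CO (o : OD) (l : List ℕ) (r : ℕ) : Prop :=
  run (fun P t => frcL (expand 14 4 15) l fun l => orbb P t G0 o (get P l) r) = true

instance (k : ℕ) : Decidable (CI k) := inferInstanceAs (Decidable (_ = true))

instance (o : OD) (l : List ℕ) (r : ℕ) : Decidable (CO o l r) :=
  inferInstanceAs (Decidable (_ = true))

end Pool.Agent.Lib.MP_cad414_al.Cg.Hn
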