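import Pool.Agent.Lib.MP_cad414_al.Cg.HnG
import Pool.Agent.Lib.MP_cad414_al.Cg.HnR

/-! The Harada-Norton group. -/

namespace Pool.Agent.Lib.MP_cad414_al.Cg

open Matrix Hn

set_option maxRecDepth 100000

theorem Hn.c1 : ∀ k < 14, CI k := by
  intro k hk
  interval_cases k <;> decide +kernel

theorem Hn.c2 : CO o0 tC0_ 1 ∧ CO o1 tC1_ 1 ∧ CO o2 tC2_ 1 ∧ CO o3 tC3_ 5 := by
  refine ⟨?_, ?_, ?_, ?_⟩ <;> decide +kernel

theorem Hn.c3 : run (fun P t => Nat.beq (hm P t cI) (one P) && repb P t cR && repb P t cS &&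
    Nat.beq (G0 0) (one P) && Nat.beq (sl P.w (hm P t cA) 265) 0) = true := by
  decide +kernel

theorem spor_HN : Spor 273030912000000 := by
  have h : P0.Ok := ok_of (by decide +kernel)
  have h3 := c3
  rw [run_eq] at h3
  simp only [Bool.and_eq_true] at h3
  obtain ⟨⟨⟨⟨a1, a2⟩, a3⟩, a4⟩, a5⟩ := h3
  obtain ⟨R, hR, hv⟩ := rep_all h a1 a2 a3
  have o : ∀ {o l r}, CO o l r → Orv R (fun k => (dec P0 (G0 k))ᵀ) (rv P0 (T0 0)) o :=
    fun e => orbb_ok h hR ((frcL_eq _ _ _).symm.trans ((run_eq _).symm.trans e))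
  refine spor' (R := R) (g := fun k => (dec P0 (G0 k))ᵀ) (fun e he => ?_) ?_ (fun e => ?_) hv ?_
  · obtain ⟨i, hi, rfl⟩ := List.getElem_of_mem he
    have hl : ids.length = 107 := by decide +kernel
    refine idb_ok h hR (List.all_eq_true.1 ((run_eq _).symm.trans (c1 (i / 8) (by omega))) _
      (List.mem_iff_getElem.2 ⟨i % 8, by simp only [List.length_take, List.length_drop]; omega,
        by simp only [List.getElem_take, List.getElem_drop, Nat.div_add_mod]⟩))
  · rw [Nat.eq_of_beq_eq_true a4, (one_ok h).2, transpose_one]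
  · rw [hR, ← hm_eq h (by decide +kernel)] at e
    have := congrFun (congrFun e 1) 1
    rw [transpose_apply, one_apply_eq, dec, of_apply,
      show 133 - 1 - ((1 : Fin 133) : ℕ) + (133 + 1) * ((1 : Fin 133) : ℕ) = 265 from rfl,
      Nat.eq_of_beq_eq_true a5] at this
    exact absurd this (by decide)
  · simp only [dO, List.forall_mem_cons]
    exact ⟨o c2.1, o c2.2.1, o c2.2.2.1, o c2.2.2.2, by simp⟩

end Pool.Agent.Lib.MP_cad414_al.Cg
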