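import Pool.Agent.Lib.MP_cad414_al.Cg.Mx
import Pool.Agent.Lib.MP_cad414_al.Cg.Gp

/-! Orbits by enumeration, permutations of twelve points given by numbers. -/

namespace Pool.Agent.Lib.MP_cad414_al.Cg.Hn

open Subgroup MulAction Equiv

def allb (n : ℕ) (p : ℕ → Bool) : Bool :=
  Nat.rec (motive := fun _ => Bool) true
    (fun j ih => Bool.rec (motive := fun _ => Bool) false ih (p j)) n

theorem allb_of {n : ℕ} {p : ℕ → Bool} (h : allb n p = true) : ∀ j < n, p j = true := by
  induction n with
  | zero => simp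
  | succ n ih =>
    change Bool.rec (motive := fun _ => Bool) false (allb n p) (p n) = true at h
    cases e : p n with
    | false => rw [e] at h; cases h
    | true =>
      rw [e] at h
      intro j hj
      rcases Nat.lt_succ_iff_lt_or_eq.1 hj with hj | rfl
      exacts [ih h j hj, e]

theorem tb_or {R x j : ℕ} (h : (Nat.lor R (Nat.shiftLeft 1 x)).testBit j = true) :
    R.testBit j = true ∨ x = j := by
  change (R ||| 1 <<< x).testBit j = true at h
  simpa [Nat.one_shiftLeft, Nat.testBit_two_pow] using h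

/-- The set of the values `f j`, `j < n`. -/
def orm (f : ℕ → ℕ) (n : ℕ) : ℕ :=
  Nat.rec (motive := fun _ => ℕ) 0 (fun j ih => Nat.lor ih (Nat.shiftLeft 1 (f j))) n

theorem orm_of {f : ℕ → ℕ} {n x : ℕ} (h : (orm f n).testBit x = true) : ∃ j < n, f j = x := by
  induction n with
  | zero => simp [orm] at h
  | succ n ih =>
    rcases tb_or (R := orm f n) h with h | h
    · obtain ⟨j, hj, e⟩ := ih h
      exact ⟨j, by omega, e⟩
    · exact ⟨n, by omega, h⟩

section
variable {ι : Type} (f : ι → ℕ → ℕ) (L : List ι)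

/-- Depth first search. -/
def dfs (k : ℕ) : List ℕ → ℕ → ℕ :=
  Nat.rec (motive := fun _ => List ℕ → ℕ → ℕ) (fun _ R => R)
    (fun _ ih st R => List.rec (motive := fun _ => ℕ) R (fun x st _ => frc x fun x =>
      Bool.rec (motive := fun _ => ℕ) (frc (Nat.lor R (Nat.shiftLeft 1 x))
        (ih (List.rec (motive := fun _ => List ℕ) st (fun c _ t => f c x :: t) L)))
        (ih st R) (R.testBit x)) st) k

/-- The size of the orbit, or `1` if the search fails. -/
def orbn (n k j : ℕ) : ℕ := frc (dfs f L k [j] 0) fun R =>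
  if R.testBit j && allb n fun i => !R.testBit i || L.all fun c => R.testBit (f c i) then
    Nat.count (fun i => R.testBit i = true) n else 1

variable {f L}

theorem dfs_of {Pr : ℕ → Prop} (hf : ∀ c ∈ L, ∀ j, Pr j → Pr (f c j)) (k : ℕ) :
    ∀ st R, (∀ j ∈ st, Pr j) → (∀ j, R.testBit j = true → Pr j) →
      ∀ j, (dfs f L k st R).testBit j = true → Pr j := by
  induction k with
  | zero => exact fun _ _ _ h => h
  | succ k ih =>
    intro st R hs hR
    cases st with
    | nil => exact hR
    | cons x st =>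
      have hx := hs x (by simp)
      have hst : ∀ j ∈ st, Pr j := fun j hj => hs j (by simp [hj])
      have key : ∀ l : List ι, (∀ c ∈ l, c ∈ L) → ∀ j ∈ (List.rec (motive := fun _ => List ℕ) st
          (fun c _ t => f c x :: t) l), Pr j := fun l hl => by
        induction l with
        | nil => exact hst
        | cons c l ih =>
          intro j hj
          rcases List.mem_cons.1 hj with rfl | hj
          exacts [hf c (hl c (by simp)) x hx, ih (fun c hc => hl c (by simp [hc])) j hj]
      change ∀ j, (frc x fun x => Bool.rec (motive := fun _ => ℕ)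
        (frc (Nat.lor R (Nat.shiftLeft 1 x)) (dfs f L k (List.rec (motive := fun _ => List ℕ) st
          (fun c _ t => f c x :: t) L))) (dfs f L k st R) (R.testBit x)).testBit j = true → Pr j
      simp only [frc_eq]
      cases R.testBit x with
      | true => exact ih st R hst hR
      | false => exact ih _ _ (key L fun _ h => h) fun j hj => (tb_or hj).elim (hR j) (· ▸ hx)

variable {Γ X : Type} [Group Γ] [Finite Γ] [MulAction Γ X]

omit [Finite Γ] in
theorem dv0 {S T : Subgroup Γ} (x : X) (hle : T ≤ S) (hx : ∀ y ∈ T, y • x = x) :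
    (orbit S x).ncard * Nat.card T ∣ Nat.card S := by
  rw [← index_stabilizer, ← (stabilizer S x).index_mul_card,
    ← Nat.card_congr (subgroupOfEquivOfLe hle).toEquiv]
  exact Nat.mul_dvd_mul_left _ (card_dvd_of_le fun y hy => hx y hy)

theorem dv (g : ι → Γ) (pt : ℕ → X) {n j : ℕ} (k : ℕ)
    (hi : ∀ a < n, ∀ b < n, pt a = pt b → a = b)
    (hg : ∀ c ∈ L, ∀ i < n, f c i < n ∧ g c • pt i = pt (f c i)) (hj : j < n) {T : Subgroup Γ}
    (hle : T ≤ closure (g '' {c | c ∈ L})) (hx : ∀ y ∈ T, y • pt j = pt j) :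
    orbn f L n k j * Nat.card T ∣ Nat.card (closure (g '' {c | c ∈ L})) := by
  rw [orbn, frc_eq]
  split_ifs with h
  swap
  · rw [one_mul]
    exact card_dvd_of_le hle
  set S := closure (g '' {c | c ∈ L})
  set R := dfs f L k [j] 0 with hR
  rw [Bool.and_eq_true] at h
  have e : orbit S (pt j) = pt '' ((Finset.range n).filter fun i => R.testBit i = true) := by
    refine subset_antisymm ?_ ?_
    · rintro _ ⟨⟨y, hy⟩, rfl⟩
      replace hy : y⁻¹ ∈ closure (g '' {c | c ∈ L})⁻¹ := by
        rw [closure_inv]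
        exact inv_mem hy
      have := cl_right _ {y : Γ | y⁻¹ • pt j ∈
        pt '' ((Finset.range n).filter fun i => R.testBit i = true)} ⟨j, by simp [hj, h.1], by simp⟩
        (by
          rintro s ⟨c, hc, e⟩ a ⟨i, hi', e'⟩
          simp only [Finset.coe_filter, Finset.mem_range, Set.mem_ofPred_eq] at hi'
          have h2 := allb_of h.2 i hi'.1
          simp only [hi'.2, Bool.not_true, Bool.false_or, List.all_eq_true] at h2
          exact ⟨f c i, by simp [(hg c hc i hi'.1).1, h2 c hc], by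
            rw [mul_inv_rev, mul_smul, ← e, ← e', (hg c hc i hi'.1).2]⟩) _ hy
      simpa using this
    · rintro _ ⟨i, hi', rfl⟩
      refine (dfs_of (Pr := fun i => i < n ∧ pt i ∈ orbit S (pt j)) (fun c hc i hi => ?_) k [j] 0
        (by simp [hj]) (by simp) i (Finset.mem_filter.1 hi').2).2
      refine ⟨(hg c hc i hi.1).1, ?_⟩
      rw [← (hg c hc i hi.1).2]
      exact mapsTo_smul_orbit (⟨g c, subset_closure ⟨c, hc, rfl⟩⟩ : S) _ hi.2
  have := dv0 (pt j) hle hx
  rwa [e, Set.InjOn.ncard_image fun a ha b hb => hi a (by simp at ha; exact ha.1) b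
    (by simp at hb; exact hb.1), Set.ncard_coe_finset, ← Nat.count_eq_card_filter_range] at this

end

/-- Digit `j` of the code `c`. -/
def dg (c j : ℕ) : ℕ := Nat.mod (Nat.land (Nat.shiftRight c (Nat.mul 4 j)) 15) 12

theorem dg_lt (c j : ℕ) : dg c j < 12 := Nat.mod_lt _ (by norm_num)

def pf (c : ℕ) (j : Fin 12) : Fin 12 := ⟨dg c j, dg_lt c j⟩

def pb (c : ℕ) : Bool := Nat.beq (orm (dg c) 12) 4095

open Classical in
/-- The permutation whose inverse has the digits of `c` as values. -/
noncomputable def pm (c : ℕ) : Perm (Fin 12) :=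
  if h : Function.Bijective (pf c) then (Equiv.ofBijective _ h)⁻¹ else 1

theorem pm_inv {c : ℕ} (h : pb c = true) (j : Fin 12) : (pm c)⁻¹ j = pf c j := by
  have : Function.Bijective (pf c) := Finite.surjective_iff_bijective.1 fun y => by
    obtain ⟨x, hx, e⟩ := orm_of (f := dg c) (n := 12) (x := y) (by
      rw [Nat.eq_of_beq_eq_true h]
      exact (Nat.testBit_two_pow_sub_one 12 y).trans (decide_eq_true y.2))
    exact ⟨⟨x, hx⟩, Fin.ext e⟩
  rw [pm, dif_pos this]
  rfl

/-- The number of inversions is even. -/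
def par (c n : ℕ) : Bool := Nat.rec (motive := fun _ => Bool) true (fun j ih =>
  Nat.rec (motive := fun _ => Bool) ih (fun i ih =>
    Bool.rec (motive := fun _ => Bool) ih (!ih) (Nat.ble (dg c j) (dg c i))) j) n

theorem par_eq (c n : ℕ) : (∏ j ∈ Finset.range n, ∏ i ∈ Finset.range j,
    if dg c i < dg c j then 1 else -1 : ℤˣ) = if par c n then 1 else -1 := by
  induction n with
  | zero => rfl
  | succ n ih =>
    rw [Finset.prod_range_succ, ih]
    change _ = if Nat.rec (motive := fun _ => Bool) (par c n) (fun i ih =>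
      Bool.rec (motive := fun _ => Bool) ih (!ih) (Nat.ble (dg c n) (dg c i))) n = true then _ else _
    generalize dg c n = a
    generalize par c n = b
    clear ih
    induction n with
    | zero => simp
    | succ n ih =>
      rw [Finset.prod_range_succ, ← mul_assoc, ih]
      have key : ∀ e : Bool, ((if e = true then 1 else -1) * if dg c n < a then 1 else -1 : ℤˣ) =
          if Bool.rec (motive := fun _ => Bool) e (!e) (Nat.ble a (dg c n)) = true then 1
          else -1 := fun e => by
        cases h : Nat.ble a (dg c n) with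
        | true => cases e <;> simp [(Nat.le_of_ble_eq_true h).not_gt]
        | false =>
          simp [show dg c n < a from not_le.1 (Nat.not_le_of_not_ble_eq_true (by simp [h]))]
      exact key _

/-- A valid code of an even permutation. -/
def vc (c : ℕ) : Bool := pb c && par c 12

abbrev A : Subgroup (Perm (Fin 12)) := alternatingGroup (Fin 12)

theorem vc_of {c : ℕ} (h : vc c = true) : pb c = true ∧ pm c ∈ A := by
  rw [vc, Bool.and_eq_true] at h
  refine ⟨h.1, inv_mem_iff.1 (Perm.mem_alternatingGroup.2 ?_)⟩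
  have := par_eq c 12
  rw [if_pos h.2, ← Fin.prod_univ_eq_prod_range] at this
  rw [Perm.sign_eq_prod_prod_Iio]
  refine (Finset.prod_congr rfl fun j _ => ?_).trans this
  rw [← Nat.Iio_eq_range, ← Fin.map_valEmbedding_Iio, Finset.prod_map]
  simp only [pm_inv h.1]
  rfl

theorem card_A : Nat.card A = 239500800 := by
  rw [nat_card_alternatingGroup, Nat.card_fin]
  rfl

/-- Product of orbit lengths along a chain of point stabilisers. -/
def ordc : List (ℕ × ℕ) → List ℕ → ℕ
  | [], _ => 1
  | (b, d) :: r, l => if b < 12 ∧ ∀ c ∈ l.drop d, dg c b = b then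
      orbn dg l 12 200 b * ordc r (l.drop d) else 1

theorem ordc_dvd (r : List (ℕ × ℕ)) : ∀ (l : List ℕ) (S : Subgroup (Perm (Fin 12))),
    (∀ c ∈ l, pb c = true ∧ pm c ∈ S) → ordc r l ∣ Nat.card S := by
  induction r with
  | nil => exact fun _ _ _ => one_dvd _
  | cons a r ih =>
    intro l S h
    rw [ordc]
    split_ifs with h'
    swap
    · exact one_dvd _
    set S' := closure ((fun c => (pm c)⁻¹) '' {c | c ∈ l})
    have h1 := dv (f := dg) (L := l) (fun c => (pm c)⁻¹) (Fin.ofNat 12) 200
      (fun a ha b hb e => by simpa [Fin.ofNat, Nat.mod_eq_of_lt ha, Nat.mod_eq_of_lt hb] using e)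
      (fun c hc i hi => ⟨dg_lt c i, by
        rw [Perm.smul_def, pm_inv (h c hc).1]
        exact Fin.ext (by simp [pf, Nat.mod_eq_of_lt hi, Nat.mod_eq_of_lt (dg_lt c i)])⟩)
      h'.1 (T := S' ⊓ stabilizer _ (Fin.ofNat 12 a.1)) inf_le_left fun y hy => hy.2
    refine ((Nat.mul_dvd_mul_left _ (ih _ _ fun c hc => ?_)).trans h1).trans (card_dvd_of_le
      ((closure_le _).2 (by rintro _ ⟨c, hc, rfl⟩; exact inv_mem (h c hc).2)))
    have hc' := List.mem_of_mem_drop hc
    refine ⟨(h c hc').1, inv_mem_iff.1 ⟨subset_closure ⟨c, hc', rfl⟩, ?_⟩⟩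
    change (pm c)⁻¹ _ = _
    rw [pm_inv (h c hc').1]
    exact Fin.ext (by simp [pf, Nat.mod_eq_of_lt h'.1, h'.2 c hc])

/-- Strong generators as words in `X`, and the chain. -/
def chn (X : List ℕ) (W : List (ℕ × List ℕ)) (r : List (ℕ × ℕ)) : ℕ :=
  if W.all fun a => pb a.1 && a.2.all X.contains &&
      allb 12 fun j => Nat.beq (dg a.1 j) (a.2.foldr dg j) then
    ordc r (W.map Prod.fst) else 1

theorem chn_dvd {X : List ℕ} (W : List (ℕ × List ℕ)) (r : List (ℕ × ℕ))
    {S : Subgroup (Perm (Fin 12))} (h : ∀ c ∈ X, pb c = true ∧ pm c ∈ S) :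
    chn X W r ∣ Nat.card S := by
  rw [chn]
  split_ifs with h'
  swap
  · exact one_dvd _
  refine ordc_dvd _ _ _ fun c hc => ?_
  obtain ⟨a, ha, rfl⟩ := List.mem_map.1 hc
  have h0 := List.all_eq_true.1 h' a ha
  simp only [Bool.and_eq_true, List.all_eq_true, List.contains_iff_mem] at h0
  obtain ⟨⟨h1, h2⟩, h3⟩ := h0
  have key : ∀ w : List ℕ, (∀ x ∈ w, x ∈ X) → ∃ y ∈ S, ∀ j : Fin 12, (y j).1 = w.foldr dg j :=
    fun w hw => by
      induction w with
      | nil => exact ⟨1, one_mem _, fun _ => rfl⟩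
      | cons x w ih =>
        obtain ⟨y, hy, e⟩ := ih fun x hx => hw x (by simp [hx])
        have hx := h x (hw x (by simp))
        exact ⟨(pm x)⁻¹ * y, mul_mem (inv_mem hx.2) hy, fun j => by
          rw [Perm.mul_apply, pm_inv hx.1, List.foldr_cons, ← e]; rfl⟩
  obtain ⟨y, hy, e⟩ := key _ h2
  refine ⟨h1, inv_mem_iff.1 ?_⟩
  rwa [show (pm a.1)⁻¹ = y from Equiv.ext fun j => Fin.ext (by
    rw [pm_inv h1, e, ← Nat.eq_of_beq_eq_true (allb_of h3 j j.2)]; rfl)]

/-- Subsets of the twelve points. -/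
def Ob : Type := Fin 12 → Bool

instance : MulAction (Perm (Fin 12)) Ob := arrowAction

def um (m : ℕ) : Ob := fun j => m.testBit j

def mask (f : Ob) : ℕ := pk 1 (fun j => if h : j < 12 then (f ⟨j, h⟩).toNat else 0) 12

/-- The action on many subsets at once. -/
def actv (c N M : ℕ) : ℕ := Nat.rec (motive := fun _ => ℕ) 0
  (fun j ih => Nat.add ih (Nat.shiftLeft (Nat.land (Nat.shiftRight N (dg c j)) M) j)) 12

def act (c m : ℕ) : ℕ := actv c m 1

def s12 (N u : ℕ) : ℕ := Nat.land (Nat.shiftRight N (Nat.mul 12 u)) 4095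

def idT : ℕ := (2 ^ 12 + 4095 * 2 ^ 49164 - 4096 * 2 ^ 49152) / 4095 ^ 2

def actT (c m : ℕ) : ℕ := s12 (actv c idT (msk 12 1 4096)) m

def pop (f : Ob) : ℕ := ∑ j, (f j).toNat

def popm (m : ℕ) : ℕ := Nat.rec (motive := fun _ => ℕ) 0
  (fun j ih => Nat.add ih (Nat.land (Nat.shiftRight m j) 1)) 12

theorem bit_eq (m j : ℕ) : Nat.land (Nat.shiftRight m j) 1 = (m.testBit j).toNat := by
  change m >>> j &&& 1 = _
  rw [Nat.toNat_testBit, Nat.and_one_is_mod, Nat.shiftRight_eq_div_pow]

theorem mask_bd (f : Ob) : ∀ u < 12, (if h : u < 12 then (f ⟨u, h⟩).toNat else 0) < 2 ^ 1 :=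
  fun u hu => by rw [dif_pos hu]; exact Bool.toNat_lt _

theorem mask_lt (f : Ob) : mask f < 4096 := pk_lt (mask_bd f)

theorem um_mask (f : Ob) : um (mask f) = f := funext fun j => by
  have := testBit_pk one_pos (mask_bd f) j 0 one_pos
  rw [one_mul, add_zero] at this
  rw [um, mask, this, dif_pos j.2]
  cases f j <;> simp

theorem um_inj {a b : ℕ} (ha : a < 4096) (hb : b < 4096) (h : um a = um b) : a = b :=
  Nat.eq_of_testBit_eq fun j => by
    by_cases hj : j < 12
    · exact congrFun h ⟨j, hj⟩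
    · have : 2 ^ 12 ≤ 2 ^ j := Nat.pow_le_pow_right two_pos (by omega)
      rw [Nat.testBit_lt_two_pow (by omega), Nat.testBit_lt_two_pow (by omega)]

theorem act_eq {c : ℕ} (h : pb c = true) (m : ℕ) : act c m = mask (pm c • um m) := by
  have key : ∀ r, Nat.rec (motive := fun _ => ℕ) 0 (fun j ih => Nat.add ih
      (Nat.shiftLeft (Nat.land (Nat.shiftRight m (dg c j)) 1) j)) r =
      pk 1 (fun j => (m.testBit (dg c j)).toNat) r := fun r => by
    induction r with
    | zero => rfl
    | succ r ih =>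
      change _ + _ <<< r = _
      rw [ih, pk_succ, bit_eq, Nat.shiftLeft_eq, one_mul]
  refine (key 12).trans (pk_congr fun j hj => ?_)
  rw [dif_pos hj]
  exact congrArg (fun x : Fin 12 => (m.testBit x).toNat) (pm_inv h ⟨j, hj⟩).symm

theorem s12_actv {c : ℕ} (h : pb c = true) (N : ℕ) {T u : ℕ} (hu : u < T) :
    s12 (actv c N (msk 12 1 T)) u = mask (pm c • um (s12 N u)) := by
  have e : ∀ N, s12 N u = sl 12 N u := fun N => Nat.and_two_pow_sub_one_eq_mod _ 12
  have key : ∀ r, Nat.rec (motive := fun _ => ℕ) 0 (fun j ih => Nat.add ih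
      (Nat.shiftLeft (Nat.land (Nat.shiftRight N (dg c j)) (msk 12 1 T)) j)) r =
      pk 12 (fun u => Nat.rec (motive := fun _ => ℕ) 0 (fun j ih => Nat.add ih
      (Nat.shiftLeft (Nat.land (Nat.shiftRight (sl 12 N u) (dg c j)) 1) j)) r) T := fun r => by
    induction r with
    | zero => simp [pk]
    | succ r ih =>
      change _ + _ <<< r = _
      rw [ih, land_msk (by norm_num) (by norm_num), Nat.shiftLeft_eq, pk_mul, pk_add]
      refine pk_congr fun u _ => ?_
      change _ = _ + _ <<< r
      congr 1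
      rw [Nat.shiftLeft_eq, bit_eq, sl, Nat.testBit_mod_two_pow, Nat.testBit_shiftRight,
        decide_eq_true (dg_lt c r), Bool.true_and, Nat.toNat_testBit, Nat.shiftRight_eq_div_pow,
        add_comm (dg c r), pow_one]
  rw [e, e, actv, key, ← act_eq h]
  exact sl_pk (c := fun u => act c (sl 12 N u)) (fun u _ => act_eq h _ ▸ mask_lt _) hu

set_option maxRecDepth 100000 in
theorem idT_eq : allb 4096 (fun u => Nat.beq (s12 idT u) u) = true := by decide +kernel

theorem actT_eq {c m : ℕ} (h : pb c = true) (hm : m < 4096) : actT c m = mask (pm c • um m) := by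
  rw [actT, s12_actv h _ hm, Nat.eq_of_beq_eq_true (allb_of idT_eq m hm)]

theorem um_act {c : ℕ} (h : pb c = true) (m : ℕ) : um (act c m) = pm c • um m := by
  rw [act_eq h, um_mask]

theorem pop_smul (π : Perm (Fin 12)) (f : Ob) : pop (π • f) = pop f :=
  Equiv.sum_comp π⁻¹ fun j => (f j).toNat

theorem pop_um (m : ℕ) : pop (um m) = popm m := by
  simp only [popm, bit_eq, pop, um, Fin.sum_univ_castSucc]
  rfl

end Pool.Agent.Lib.MP_cad414_al.Cg.Hn
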