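import Pool.Agent.Lib.MP_cad414_al.Cg.HnM
import Pool.Agent.Lib.MP_cad414_al.Cg.Base

/-! From the identities to the order, the simplicity and the generators. -/

namespace Pool.Agent.Lib.MP_cad414_al.Cg.Hn

open Subgroup MulAction Equiv

theorem reach {Φ : ℕ → Prop} (h0 : Φ 0) (hs : ∀ t ∈ dI, Φ t.1 → Φ t.2.2.2.1) :
    ∀ k < 12, Φ k := by
  have s : ∀ i k, (∃ t ∈ dI, t.1 = i ∧ t.2.2.2.1 = k) → Φ i → Φ k := by
    rintro _ _ ⟨t, ht, rfl, rfl⟩
    exact hs t ht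
  have h1 := s 0 1 (by decide +kernel) h0
  have h2 := s 1 2 (by decide +kernel) h1
  have h3 := s 1 3 (by decide +kernel) h1
  have h4 := s 1 4 (by decide +kernel) h1
  have h5 := s 2 5 (by decide +kernel) h2
  have h6 := s 2 6 (by decide +kernel) h2
  have h7 := s 2 7 (by decide +kernel) h2
  have h8 := s 3 8 (by decide +kernel) h3
  have h9 := s 5 9 (by decide +kernel) h5
  have h10 := s 6 10 (by decide +kernel) h6
  have h11 := s 7 11 (by decide +kernel) h7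
  intro k hk
  interval_cases k <;> assumption

theorem genA {S : Subgroup (Perm (Fin 12))} (h1 : pm cA ∈ S) (h2 : pm cX ∈ S) : A ≤ S := by
  have e := (pS s0 (by simp [dS])).1
  rw [show s0.m = 1 from rfl, one_mul, show s0.X.map Prod.fst = [cA, cX] from rfl, ← card_A] at e
  have v1 := vc_of (c := cA) (by decide +kernel)
  have v2 := vc_of (c := cX) (by decide +kernel)
  have := chn_dvd (X := [cA, cX]) s0.W s0.r (S := S ⊓ A) (by
    simp only [List.forall_mem_cons]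
    exact ⟨⟨v1.1, h1, v1.2⟩, ⟨v2.1, h2, v2.2⟩, by simp⟩)
  exact (eq_of_le_of_card_ge inf_le_right (Nat.le_of_dvd Nat.card_pos (e ▸ this))).ge.trans
    inf_le_left

theorem mI {t} (h : t ∈ dI) : idI t ∈ ids := List.mem_append_right _
  (List.mem_append_right _ (List.mem_append_left _ (List.mem_map_of_mem h)))

section
variable {Γ X : Type} [Group Γ] [Finite Γ] [MulAction Γ X] (ρ : Perm (Fin 12) →* Γ) (g : ℕ → Γ)

def HH : Subgroup Γ := A.map ρ

def GG : Subgroup Γ := closure ({g 1} ∪ HH ρ)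

def Sg (x : Γ) : Subgroup (Perm (Fin 12)) :=
  A ⊓ ((HH ρ).comap (MulAut.conj x).toMonoidHom).comap ρ

variable {ρ g}

omit [Finite Γ] in
theorem mH {c : ℕ} (h : okl (.inr c) = true) : ρ (pm c) ∈ HH ρ := mem_map_of_mem _ (vc_of h).2

omit [Finite Γ] in
theorem HG : HH ρ ≤ GG ρ g := fun _ h => subset_closure (.inr h)

omit [Finite Γ] in
theorem nrm (N : Subgroup Γ) (h : ∀ y ∈ HH ρ, ∀ x ∈ N, y * x * y⁻¹ ∈ N) :
    HH ρ ≤ N ∨ ∀ π ∈ A, ρ π ∈ N → π = 1 := by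
  have := alternatingGroup.isSimpleGroup (α := Fin 12) (by simp)
  rcases (show ((N.comap ρ).subgroupOf A).Normal from ⟨fun x hx y => by
    simpa [mem_subgroupOf] using h _ (mem_map_of_mem _ y.2) _ hx⟩).eq_bot_or_eq_top with e | e
  · refine .inr fun π hπ h => ?_
    have h' : (⟨π, hπ⟩ : A) ∈ (N.comap ρ).subgroupOf A := h
    rw [e, mem_bot] at h'
    exact congrArg Subtype.val h'
  · exact .inl (map_le_iff_le_comap.2 (subgroupOf_eq_top.1 e))

variable (hI : ∀ e ∈ ids, Idn ρ g e) (g0 : g 0 = 1) (hne : ρ (pm cA) ≠ 1)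

omit [Finite Γ] in
include hne in
theorem cardm {S : Subgroup (Perm (Fin 12))} (hS : S ≤ A) : Nat.card (S.map ρ) = Nat.card S := by
  have := (nrm (ρ := ρ) ⊥ (by simp)).resolve_left fun h => hne (h (mH (by decide +kernel)))
  exact Nat.card_image_of_injOn fun a ha b hb e => eq_of_mul_inv_eq_one
    (this _ (hS (mul_mem ha (inv_mem hb))) (by simp [e]))

include hI

omit [Finite Γ] in
theorem fS {a : SD} (ha : a ∈ dS) {s : ℕ × ℕ} (hs : s ∈ a.X) : okl (.inr s.1) = true ∧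
    okl (.inr s.2) = true ∧ g a.i * ρ (pm s.1) * (g a.i)⁻¹ = ρ (pm s.2) := by
  obtain ⟨h1, h2⟩ := hI _ (List.mem_append_right _ (List.mem_append_left _
    (List.mem_flatMap.2 ⟨a, ha, List.mem_map_of_mem hs⟩)))
  exact ⟨h1 _ (by simp [idS]), h1 _ (by simp [idS]),
    mul_inv_eq_of_eq_mul (by simpa [idS, wv, val] using h2)⟩

omit [Finite Γ] in
theorem fS' {a : SD} (ha : a ∈ dS) : ∀ c ∈ a.X.map Prod.fst,
    pb c = true ∧ pm c ∈ Sg ρ (g a.i) := fun c hc => by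
  obtain ⟨s, hs, rfl⟩ := List.mem_map.1 hc
  obtain ⟨h1, h2, h3⟩ := fS hI ha hs
  refine ⟨(vc_of h1).1, (vc_of h1).2, ?_⟩
  change g a.i * _ * (g a.i)⁻¹ ∈ HH ρ
  exact h3 ▸ mH h2

omit [Finite Γ] in
theorem fI {t} (h : t ∈ dI) : okl (.inr t.2.1) = true ∧
    g t.1 * ρ (pm t.2.1) * g 1 ∈ DC (HH ρ) (g t.2.2.2.1) := by
  obtain ⟨h1, h2⟩ := hI _ (mI h)
  exact ⟨h1 _ (by simp [idI]), _, mH (h1 (.inr t.2.2.1) (by simp [idI])), _,
    mH (h1 (.inr t.2.2.2.2) (by simp [idI])), by simpa [idI, wv, val, mul_assoc] using h2⟩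

omit [Finite Γ] in
theorem prim {L : Subgroup Γ} (hL : HH ρ ≤ L) {i : ℕ} (hi : i < 12) (h0 : i ≠ 0) (h : g i ∈ L) :
    GG ρ g ≤ L := by
  have h9 : g 9 ∈ L → g 1 ∈ L := fun h => by
    obtain ⟨t, ht, e1, e2⟩ : ∃ t ∈ dI, t.1 = 9 ∧ t.2.2.2.1 = 9 := by decide +kernel
    obtain ⟨h1, a, ha, b, hb, e⟩ := fI hI ht
    rw [e1, e2] at e
    exact (mul_mem_cancel_left (mul_mem h (hL (mH h1)))).1
      (e ▸ mul_mem (mul_mem (hL ha) h) (hL hb))
  refine (closure_le _).2 (Set.union_subset (Set.singleton_subset_iff.2 ?_) hL)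
  rcases (by decide +kernel : ∀ i < 12, i = 0 ∨ i = 1 ∨ i = 9 ∨ ∃ t ∈ dJ, t.1 = i) i hi with
    e | rfl | rfl | ⟨t, ht, rfl⟩
  · exact absurd e h0
  · exact h
  · exact h9 h
  · obtain ⟨h1, h2⟩ := hI _ (List.mem_append_right _ (List.mem_append_right _
      (List.mem_append_right _ (List.mem_map_of_mem ht))))
    have m := fun c (hc : .inr c ∈ (idJ t).1 ++ (idJ t).2) => hL (mH (ρ := ρ) (h1 _ hc))
    have e : g t.1 * (ρ (pm t.2.1) * g t.1) = ρ (pm t.2.2.1) * (g 9 * ρ (pm t.2.2.2)) := by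
      simpa [idJ, wv, val] using h2
    exact h9 ((mul_mem_cancel_right (m _ (by simp [idJ]))).1 ((mul_mem_cancel_left
      (m _ (by simp [idJ]))).1 (e ▸ mul_mem h (mul_mem (m _ (by simp [idJ])) h))))

omit [Finite Γ] in
theorem stabK {π : Perm (Fin 12)} (hπ : π ∈ A) (e : π • um 63 = um 63) : π ∈ Sg ρ (g 1) := by
  have v : ∀ c ∈ [cA, cX], vc c = true := by decide +kernel
  have e1 : closure (pm '' {c | c ∈ [cA, cX]}) = A := le_antisymm
    ((closure_le _).2 (by rintro _ ⟨c, hc, rfl⟩; exact (vc_of (v c hc)).2))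
    (genA (subset_closure ⟨_, by simp, rfl⟩) (subset_closure ⟨_, by simp, rfl⟩))
  have h1 := dv (f := actT) (L := [cA, cX]) pm um (n := 4096) (j := 63) 4000
    (fun a ha b hb => um_inj ha hb) (fun c hc i hi => by
      rw [actT_eq (vc_of (v c hc)).1 hi, um_mask]
      exact ⟨mask_lt _, rfl⟩) (by norm_num) (T := A ⊓ stabilizer _ (um 63))
    (e1 ▸ inf_le_left) fun y hy => hy.2
  rw [pK.2.1, e1, card_A] at h1
  have h2 := chn_dvd (X := kX) kW kR (S := Sg ρ (g 1) ⊓ stabilizer _ (um 63)) fun c hc => by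
    have := fS' hI (a := s1) (by simp [dS]) c (pK.2.2.2 c hc).2
    refine ⟨this.1, this.2, ?_⟩
    change pm c • _ = _
    rw [← um_act this.1, (pK.2.2.2 c hc).1]
  rw [pK.1] at h2
  have h3 := Nat.le_of_dvd (by norm_num) h1
  have h4 := Nat.le_of_dvd Nat.card_pos h2
  have h5 : Sg ρ (g 1) ⊓ stabilizer _ (um 63) = A ⊓ stabilizer _ (um 63) :=
    eq_of_le_of_card_ge (inf_le_inf_right _ inf_le_left) (by omega)
  exact (h5.ge ⟨hπ, e⟩).1

include g0

omit [Finite Γ] in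
theorem step {a : SD} (ha : a ∈ dS) {π : Perm (Fin 12)} (hπ : π ∈ A) :
    ∃ b ∈ dS, g a.i * ρ π * g 1 ∈ DC (HH ρ) (g b.i) := by
  have zz : g 1 * g 1 ∈ HH ρ := by
    obtain ⟨t, ht, e1, e2, e3⟩ : ∃ t ∈ dI, t.1 = 1 ∧ t.2.1 = cI ∧ t.2.2.2.1 = 0 := by
      decide +kernel
    obtain ⟨-, a, ha, b, hb, e⟩ := fI hI ht
    rw [e1, e2, e3, pm_one, map_one, mul_one, g0, mul_one] at e
    exact e ▸ mul_mem ha hb
  have hT := fS' hI (a := s1) (by simp [dS]) cT (by decide +kernel)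
  have key := dfs_of (f := actT) (L := a.X.map Prod.fst) (Pr := fun m => m < 4096 ∧
    ∀ π ∈ A, π • um 63 = um m → ∃ b ∈ dS, g a.i * ρ π * g 1 ∈ DC (HH ρ) (g b.i))
    (fun c hc m hm => by
      obtain ⟨h1, h2, h3⟩ := fS' hI ha c hc
      rw [actT_eq h1 hm.1, um_mask]
      refine ⟨mask_lt _, fun π hπ e => ?_⟩
      obtain ⟨b, hb, x, hx, y, hy, e'⟩ := hm.2 _ (mul_mem (inv_mem h2) hπ)
        (by rw [mul_smul, e, inv_smul_smul])
      refine ⟨b, hb, _, mul_mem h3 hx, y, hy, ?_⟩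
      rw [mul_assoc _ x, mul_assoc _ (x * _), ← e']
      simp [mul_assoc]) 4000 ((dI.filter fun t => Nat.beq t.1 a.i).flatMap
      fun t => [act t.2.1 63, act t.2.1 4032]) 0 (fun m hm => by
      obtain ⟨t, ht, hm⟩ := List.mem_flatMap.1 hm
      have e : Nat.beq t.1 a.i = true := (List.mem_filter.1 ht).2
      replace ht := (List.mem_filter.1 ht).1
      obtain ⟨h1, x, hx, y, hy, e'⟩ := fI hI ht
      obtain ⟨b, hb, e2⟩ := (by decide +kernel : ∀ t ∈ dI, ∃ b ∈ dS, b.i = t.2.2.2.1) t ht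
      rw [Nat.eq_of_beq_eq_true e, ← e2] at e'
      have k : ∀ π, (pm t.2.1)⁻¹ * π ∈ Sg ρ (g 1) →
          ∃ b ∈ dS, g a.i * ρ π * g 1 ∈ DC (HH ρ) (g b.i) := fun π h => by
        refine ⟨b, hb, x, hx, _, mul_mem hy (mul_mem (mul_mem (inv_mem zz) h.2) zz), ?_⟩
        rw [← mul_assoc, ← e']
        simp [mul_assoc]
      have v := vc_of h1
      simp only [List.mem_cons, List.not_mem_nil, or_false] at hm
      rcases hm with rfl | rfl <;> rw [act_eq v.1, um_mask] <;>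
        refine ⟨mask_lt _, fun π hπ e => k π ?_⟩
      · exact stabK hI (mul_mem (inv_mem v.2) hπ) (by rw [mul_smul, e, inv_smul_smul])
      · refine (mul_mem_cancel_left (inv_mem hT.2)).1 (stabK hI
          (mul_mem (inv_mem hT.2.1) (mul_mem (inv_mem v.2) hπ)) ?_)
        rw [mul_smul, mul_smul, e, inv_smul_smul, ← pK.2.2.1, um_act hT.1, inv_smul_smul])
    (by simp) (mask (π • um 63)) (by
      rw [(pS a ha).2]
      exact (pop_of (mask_lt _)).1 (by rw [← pop_um, um_mask, pop_smul, pop_um]; rfl))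
  exact key.2 π hπ (um_mask _).symm

theorem cover : ∀ x ∈ GG ρ g, ∃ a ∈ dS, x ∈ DC (HH ρ) (g a.i) := by
  refine cl_right _ {x | ∃ a ∈ dS, x ∈ DC (HH ρ) (g a.i)}
    ⟨s0, by simp [dS], 1, one_mem _, 1, one_mem _, by rw [one_mul, mul_one]; exact g0.symm⟩ ?_
  rintro s (rfl | hs) _ ⟨a, ha, x, hx, _, ⟨π, hπ, rfl⟩, rfl⟩
  · obtain ⟨b, hb, x', hx', y, hy, e⟩ := step hI g0 ha hπ
    exact ⟨b, hb, _, mul_mem hx hx', y, hy, by simp only [mul_assoc] at e ⊢; rw [e]⟩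
  · exact ⟨a, ha, x, hx, _, mul_mem (mem_map_of_mem _ hπ) hs, mul_assoc _ _ _⟩

omit [Finite Γ] in
theorem wv_mem {w : Wd} (hw : ∀ x ∈ w, okl x = true) : wv ρ g w ∈ GG ρ g := by
  have h1 : g 1 ∈ GG ρ g := subset_closure (.inl rfl)
  have := reach (Φ := fun k => g k ∈ GG ρ g) (g0 ▸ one_mem _) fun t ht h => by
    obtain ⟨h2, a, ha, b, hb, e⟩ := fI hI ht
    exact (mul_mem_cancel_left (HG ha)).1 ((mul_mem_cancel_right (HG hb)).1
      (e ▸ mul_mem (mul_mem h (HG (mH h2))) h1))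
  refine Subgroup.list_prod_mem _ fun _ hy => ?_
  obtain ⟨x, hx, rfl⟩ := List.mem_map.1 hy
  cases x with
  | inl k => exact this k (Nat.blt_eq.mp (hw _ hx))
  | inr c => exact HG (mH (hw _ hx))

include hne

theorem card_G {v : X} (hv : ∀ π, ρ π • v = v) (hO : ∀ o ∈ dO, Orv ρ g v o) :
    Nat.card (GG ρ g) = 273030912000000 := by
  have cH : Nat.card (HH ρ) = 239500800 := (cardm hne le_rfl).trans card_A
  have h1 := union_le (HH ρ) (dS.map fun a => (g a.i, a.m)) (fun q hq => by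
    obtain ⟨a, ha, rfl⟩ := List.mem_map.1 hq
    refine dc_bound _ ((Sg ρ (g a.i)).map ρ) _ _ (map_mono inf_le_left) ?_ ?_
    · rintro _ ⟨π, hπ, rfl⟩
      exact hπ.2
    · rw [cardm hne (S := Sg ρ (g a.i)) inf_le_left, cH, ← (pS a ha).1]
      exact Nat.mul_le_mul_left _ (Nat.le_of_dvd Nat.card_pos (chn_dvd _ _ (fS' hI ha))))
    (GG ρ g) fun x hx => by
      obtain ⟨a, ha, e⟩ := cover hI g0 x hx
      exact ⟨_, List.mem_map_of_mem ha, e⟩
  rw [List.map_map, show (dS.map (Prod.snd ∘ fun a => (g a.i, a.m))).sum = 1140000 from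
    (by decide +kernel : (dS.map SD.m).sum = 1140000), cH, ← Nat.card_coe_set_eq] at h1
  have h2 : ∀ o ∈ dO, o.d ∣ Nat.card (GG ρ g) := fun o ho => by
    obtain ⟨pt, e1, e2, e3⟩ := hO o ho
    obtain ⟨p1, p2, p3, p4⟩ := pO o ho
    set S := closure ((fun c : Wd × ℕ => wv ρ g c.1) '' {c | c ∈ o.L})
    have h3 := dv (f := jt) (L := o.L) (fun c => wv ρ g c.1) pt 2000 e1
      (fun c hc i hi => ⟨Nat.blt_eq.mp (allb_of (p4 c hc) i hi), (e3 c hc).2 i hi⟩) p1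
      (T := (S.comap ρ ⊓ A).map ρ) (map_le_iff_le_comap.2 inf_le_left)
      (by rintro _ ⟨π, -, rfl⟩; rw [e2, hv])
    rw [cardm hne inf_le_right] at h3
    refine ((p2 ▸ Nat.mul_dvd_mul_left _ (chn_dvd _ _ fun x hx => ?_)).trans h3).trans
      (card_dvd_of_le ((closure_le _).2 ?_))
    · obtain ⟨c, hc, e⟩ := p3 x hx
      have v := vc_of ((e3 c hc).1 (.inr x) (by simp [e]))
      exact ⟨v.1, subset_closure ⟨c, hc, by simp [e, wv, val]⟩, v.2⟩
    · rintro _ ⟨c, hc, rfl⟩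
      exact wv_mem hI g0 (e3 c hc).1
  have h3 : 239500800 ∣ Nat.card (GG ρ g) := cH ▸ card_dvd_of_le HG
  have h4 : Nat.lcm (Nat.lcm (Nat.lcm (Nat.lcm 239500800 o0.d) o1.d) o2.d) o3.d ∣ _ :=
    Nat.lcm_dvd (Nat.lcm_dvd (Nat.lcm_dvd (Nat.lcm_dvd h3 (h2 _ (by simp [dO])))
      (h2 _ (by simp [dO]))) (h2 _ (by simp [dO]))) (h2 _ (by simp [dO]))
  rw [show Nat.lcm _ o3.d = 273030912000000 by decide +kernel] at h4
  exact le_antisymm h1 (Nat.le_of_dvd Nat.card_pos h4)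

theorem spor {v : X} (hv : ∀ π, ρ π • v = v) (hO : ∀ o ∈ dO, Orv ρ g v o) :
    Spor 273030912000000 := by
  obtain ⟨k1, k2, k3⟩ := fS hI (a := s1) (by simp [dS]) (s := (cK, cK')) (by decide +kernel)
  change g 1 * ρ (pm cK) * (g 1)⁻¹ = ρ (pm cK') at k3
  have z : g 1 ∈ GG ρ g := subset_closure (.inl rfl)
  have fus : ∀ N : Subgroup Γ, (∀ π ∈ A, ρ π ∈ N → π = 1) → ∀ b ∈ A,
      ρ (pm cK') * (ρ b * ρ (pm cK) * (ρ b)⁻¹)⁻¹ ∉ N := fun N h b hb e => by
    have := h (pm cK' * (b * pm cK * b⁻¹)⁻¹) (mul_mem (vc_of k2).2 (inv_mem (mul_mem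
      (mul_mem hb (vc_of k1).2) (inv_mem hb)))) (by simpa only [map_mul, map_inv] using e)
    have e : (pm cK')⁻¹ (b 3) = b 3 := by
      rw [eq_of_mul_inv_eq_one this, conj_inv, Perm.mul_apply, Perm.mul_apply, Perm.inv_def b,
        symm_apply_apply, pm_inv (vc_of k1).1]
      rfl
    rw [pm_inv (vc_of k2).1] at e
    exact (by decide +kernel : ∀ j, pf cK' j ≠ j) _ e
  have na : NA (GG ρ g) := ⟨⟨_, z⟩, ⟨_, HG (mH k1)⟩, fun e => fus ⊥ ((nrm (ρ := ρ) ⊥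
    (by simp)).resolve_left fun h => hne (h (mH (by decide +kernel)))) 1 (one_mem _) (by
      rw [← k3, show g 1 * ρ (pm cK) = ρ (pm cK) * g 1 from congrArg Subtype.val e]
      simp)⟩
  have top : ∀ N : Subgroup (GG ρ g), GG ρ g ≤ N.map (GG ρ g).subtype → N = ⊤ := fun N h =>
    top_le_iff.1 fun x _ => by
      obtain ⟨y, hy, e⟩ := h x.2
      exact Subtype.ext e ▸ hy
  have : Nontrivial (GG ρ g) := ⟨⟨_, HG (mH (c := cA) (by decide +kernel))⟩, 1,
    fun e => hne (congrArg Subtype.val e)⟩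
  have : IsSimpleGroup (GG ρ g) := ⟨fun N hN => by
    have c : ∀ y ∈ GG ρ g, ∀ x ∈ N.map (GG ρ g).subtype,
        y * x * y⁻¹ ∈ N.map (GG ρ g).subtype := by
      rintro y hy _ ⟨x, hx, rfl⟩
      exact ⟨_, hN.conj_mem x hx ⟨y, hy⟩, rfl⟩
    rcases nrm _ fun y hy => c y (HG hy) with h | h
    · obtain ⟨t, ht, e1, e2⟩ : ∃ t ∈ dI, t.1 = 9 ∧ t.2.2.2.1 = 9 := by decide +kernel
      obtain ⟨h1, a, ha, b, hb, e⟩ := fI hI ht
      have h9 : g 9 ∈ GG ρ g := by simpa [wv, val] using wv_mem hI g0 (w := [.inl 9]) (by decide)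
      rw [e1, e2] at e
      refine .inr (top N (prim hI h (i := 1) (by norm_num) one_ne_zero ?_))
      refine (mul_mem_cancel_left (h (mH h1))).1 ?_
      rw [show ρ (pm t.2.1) * g 1 = (g 9)⁻¹ * a * (g 9)⁻¹⁻¹ * b by
        rw [inv_inv, mul_assoc _ a, mul_assoc, ← e]; group]
      exact mul_mem (c _ (inv_mem h9) _ (h ha)) (h hb)
    · refine .inl (le_bot_iff.1 fun x hx => ?_)
      by_contra hx1
      obtain ⟨a, ha, u, hu, w, hw, e⟩ := cover hI g0 x x.2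
      have hL : HH ρ ≤ (N ⊔ (HH ρ).subgroupOf _).map (GG ρ g).subtype := fun y hy =>
        ⟨⟨y, HG hy⟩, mem_sup_right hy, rfl⟩
      obtain ⟨_, hz, e'⟩ := prim hI hL ((by decide : ∀ a ∈ dS, a.i < 12) a ha) (fun e0 => by
        rw [e0, g0, mul_one] at e
        obtain ⟨π, hπ, e'⟩ := mul_mem hu hw
        rw [← e] at e'
        exact hx1 (Subtype.ext (by rw [← e', h π hπ ⟨x, hx, e'.symm⟩, map_one]; rfl)))
        ((mul_mem_cancel_left (hL hu)).1 ((mul_mem_cancel_right (hL hw)).1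
          (e ▸ ⟨x, mem_sup_left hx, rfl⟩))) z
      obtain ⟨y, hy, ⟨_, _⟩, ⟨b, hb, rfl⟩, rfl⟩ := mem_sup_of_normal_left.1 hz
      change (y : Γ) * ρ b = g 1 at e'
      have hy' : (y : Γ) ∈ N.map (GG ρ g).subtype := ⟨y, hy, rfl⟩
      refine fus _ h b hb ?_
      have := mul_mem hy' (c _ (HG (mul_mem (mul_mem (mem_map_of_mem ρ hb) (mH k1))
        (inv_mem (mem_map_of_mem ρ hb)))) _ (inv_mem hy'))
      rw [← k3, ← e']
      convert this using 1
      group⟩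
  have f : ∀ e ∈ idE, Idn ρ g e := fun e he => hI e (List.mem_append_left _ he)
  have h3 : g 3 ∈ GG ρ g := by simpa [wv, val] using wv_mem hI g0 (w := [.inl 3]) (by decide)
  refine ⟨GG ρ g, inferInstance, this, card_G hI g0 hne hv hO, na.three_of_two_three
    (a := ⟨_, HG (mH (c := cA) (by decide +kernel))⟩) (b := ⟨_, h3⟩) (Subtype.ext ?_)
    (Subtype.ext ?_) (top _ ?_)⟩
  · simpa [wv, val, g0] using (f ([.inr cA, .inr cA], [.inl 0]) (by simp [idE])).2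
  · simpa [wv, val, g0, mul_assoc] using
      (f ([.inl 3, .inl 3, .inl 3], [.inl 0]) (by simp [idE])).2
  set L := (closure {(⟨_, HG (mH (c := cA) (by decide +kernel))⟩ : GG ρ g), ⟨_, h3⟩}).map
    (GG ρ g).subtype
  have a1 : ρ (pm cA) ∈ L := ⟨_, subset_closure (.inl rfl), rfl⟩
  have a2 : g 3 ∈ L := ⟨_, subset_closure (.inr rfl), rfl⟩
  have a3 : ∀ w : Wd, (∀ x ∈ w, x = .inl 3 ∨ x = .inr cA) → wv ρ g w ∈ L := fun w hw =>
    Subgroup.list_prod_mem _ fun _ hy => by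
      obtain ⟨x, hx, rfl⟩ := List.mem_map.1 hy
      rcases hw x hx with rfl | rfl
      exacts [a2, a1]
  have a4 : wv ρ g w1 = wv ρ g w2 * ρ (pm cX) := by
    have := (f (w1, w2 ++ [.inr cX]) (by simp [idE])).2
    rwa [wv, wv, List.map_append, List.prod_append, List.map_singleton, List.prod_singleton]
      at this
  exact prim hI (map_le_iff_le_comap.2 (genA a1 ((mul_mem_cancel_left
    (a3 w2 (by decide +kernel))).1 (a4 ▸ a3 w1 (by decide +kernel))))) (by norm_num) (by norm_num) a2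

end

theorem spor' {M X : Type} [Monoid M] [Finite M] [MulAction M X] {R : Perm (Fin 12) →* M}
    {g : ℕ → M} (hI : ∀ e ∈ ids, Idn R g e) (g0 : g 0 = 1) (hne : R (pm cA) ≠ 1) {v : X}
    (hv : ∀ π, R π • v = v) (hO : ∀ o ∈ dO, Orv R g v o) : Spor 273030912000000 := by
  classical
  have u : ∀ π, IsUnit (R π) := fun π => (Group.isUnit π).map R
  have f : ∀ t ∈ dI, g t.1 * (R (pm t.2.1) * g 1) =
      R (pm t.2.2.1) * (g t.2.2.2.1 * R (pm t.2.2.2.2)) := fun t ht => by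
    simpa [idI, wv, val] using (hI _ (mI ht)).2
  have u1 : IsUnit (g 1) := by
    obtain ⟨t, ht, e1, e2⟩ : ∃ t ∈ dI, t.1 = 1 ∧ t.2.2.2.1 = 0 := by decide +kernel
    have := f t ht
    rw [e1, e2, g0, one_mul] at this
    exact isUnit_of_mul_isUnit_left (this ▸ (u _).mul (u _))
  have hu := reach (Φ := fun k => IsUnit (g k)) (g0 ▸ isUnit_one) fun t ht h =>
    isUnit_of_mul_isUnit_left (isUnit_of_mul_isUnit_right (f t ht ▸ h.mul ((u _).mul u1)))
  let g' : ℕ → Mˣ := fun k => if h : IsUnit (g k) then h.unit else 1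
  have e : ∀ w : Wd, (∀ x ∈ w, okl x = true) → ((wv R.toHomUnits g' w : Mˣ) : M) = wv R g w :=
    fun w hw => by
      rw [wv, ← Units.coeHom_apply, map_list_prod, List.map_map]
      refine congrArg _ (List.map_congr_left fun x hx => ?_)
      cases x with
      | inl k => exact (congrArg Units.val (dif_pos (hu k (Nat.blt_eq.mp (hw _ hx))))).trans rfl
      | inr c => rfl
  refine spor (ρ := R.toHomUnits) (g := g') (fun w hw => ⟨(hI w hw).1, Units.ext ?_⟩)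
    (Units.ext ((congrArg Units.val (dif_pos (hu 0 (by norm_num)))).trans g0))
    (fun e => hne (congrArg Units.val e)) hv fun o ho => ?_
  · rw [e _ fun x hx => (hI w hw).1 x (by simp [hx]), e _ fun x hx => (hI w hw).1 x (by simp [hx]),
      (hI w hw).2]
  · obtain ⟨pt, e1, e2, e3⟩ := hO o ho
    exact ⟨pt, e1, e2, fun c hc => ⟨(e3 c hc).1, fun i hi => by
      rw [Units.smul_def, e _ (e3 c hc).1, (e3 c hc).2 i hi]⟩⟩

end Pool.Agent.Lib.MP_cad414_al.Cg.Hn
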