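import Pool.Agent.Lib.MP_cad414_al.Cg.HnS

/-! The matrix checks and their meaning. -/

namespace Pool.Agent.Lib.MP_cad414_al.Cg.Hn

open Matrix Equiv

def okl : ℕ ⊕ ℕ → Bool := Sum.rec (fun k => Nat.blt k 12) vc

section
variable {M X : Type} [Monoid M] [MulAction M X] (R : Perm (Fin 12) →* M) (g : ℕ → M)

noncomputable def val : ℕ ⊕ ℕ → M := Sum.rec g fun c => R (pm c)

noncomputable def wv (w : Wd) : M := (w.map (val R g)).prod

def Idn (e : Wd × Wd) : Prop := (∀ x ∈ e.1 ++ e.2, okl x = true) ∧ wv R g e.1 = wv R g e.2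

def Orv (v : X) (o : OD) : Prop := ∃ pt : ℕ → X, (∀ a < o.m, ∀ b < o.m, pt a = pt b → a = b) ∧
  pt o.j = v ∧ ∀ c ∈ o.L, (∀ x ∈ c.1, okl x = true) ∧ ∀ i < o.m, wv R g c.1 • pt i = pt (jt c i)

end

section
variable {p n : ℕ} (P : Par p n)

def rv (x : ℕ) : Fin n → ZMod p := fun j => (sl P.w x (n - 1 - j) : ℕ)

def rows (f : ℕ → ℕ) : ℕ := Nat.rec (motive := fun _ => ℕ) 0
  (fun i ih => Nat.add ih (Nat.shiftLeft (Nat.land (f i) P.md) (Nat.mul P.rw i))) n

def blk (a : ℕ) (f f' : ℕ → ℕ) (r : ℕ) : Bool := allb r fun b =>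
  frc (rows P fun j => f (Nat.add (Nat.mul n b) j)) fun x =>
    wfb P x && Nat.beq (mul P x a) (rows P fun j => f' (Nat.add (Nat.mul n b) j))

variable (tab Gn : ℕ → ℕ)

def hm (c : ℕ) : ℕ := frc (actv c chT (msk 12 1 n)) fun T => rows P fun j => tab (s12 T j)

def lt : ℕ ⊕ ℕ → ℕ := Sum.rec Gn (hm P tab)

def ev : Wd → ℕ := List.rec (one P) fun x w ih => List.rec (motive := fun _ => ℕ) (lt P tab Gn x)
  (fun _ _ _ => frc ih fun b => frc (lt P tab Gn x) fun a => mul P b a) w

def wok (w : Wd) : Bool := w.all fun x => okl x && wfb P (lt P tab Gn x)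

def idb (e : Wd × Wd) : Bool :=
  wok P tab Gn (e.1 ++ e.2) && Nat.beq (ev P tab Gn e.1) (ev P tab Gn e.2)

def repb (c : ℕ) : Bool := pb c && frc (hm P tab c) fun a => wfb P a &&
  frc (actv c lmT (msk 12 1 931)) fun T =>
    blk P a (fun k => tab (s12 lmT k)) (fun k => tab (s12 T k)) 7

def orbb (o : OD) (T : ℕ → ℕ) (r : ℕ) : Bool := Nat.beq (T o.j) (tab 0) && Nat.ble o.m (n * r) &&
  allb o.m (fun i => vecb P (T i) && (Nat.beq i 0 || Nat.blt (T (Nat.pred i)) (T i))) &&
  o.L.all fun c => wok P tab Gn c.1 &&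
    frc (ev P tab Gn c.1) fun a => blk P a T (fun k => T (jt c k)) r

def nbv (f : Ob) : Fin n → ZMod p := rv P (tab (mask f))

def Rm (π : Perm (Fin 12)) : Matrix (Fin n) (Fin n) (ZMod p) :=
  of fun i j => nbv P tab (π • um (s12 chT j)) i

def Rep (π : Perm (Fin 12)) : Prop :=
  ∀ f, pop f % 6 = 0 → Rm P tab π *ᵥ nbv P tab f = nbv P tab (π • f)

variable {P} (h : P.Ok)
include h

theorem dec_rows (f : ℕ → ℕ) (i : Fin n) : dec P (rows P f) i = rv P (f i) := by
  have := h.w0
  have key : ∀ r, Nat.rec (motive := fun _ => ℕ) 0 (fun i ih => Nat.add ih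
      (Nat.shiftLeft (Nat.land (f i) P.md) (Nat.mul P.rw i))) r =
      pk (P.w * (n + 1)) (fun i => f i % 2 ^ (P.w * n)) r := fun r => by
    induction r with
    | zero => rfl
    | succ r ih =>
      change _ + (f r &&& _) <<< (_ * _) = _
      rw [ih, pk_succ, Nat.shiftLeft_eq, h.md, h.rw', Nat.and_two_pow_sub_one_eq_mod]
  funext j
  have hj : P.w * (n - 1 - j) + P.w ≤ P.w * n := by
    have := j.2
    rw [← Nat.mul_succ]
    exact Nat.mul_le_mul_left _ (by omega)
  rw [rows, key, dec, of_apply, rv, sl, sl, mul_add _ _ (_ * _), ← mul_assoc, pk_slot (fun u _ =>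
    (Nat.mod_lt _ (Nat.two_pow_pos _)).trans_le (Nat.pow_le_pow_right two_pos (by nlinarith)))
    i.2 (by nlinarith)]
  refine congrArg _ (Nat.eq_of_testBit_eq fun b => ?_)
  simp only [Nat.testBit_mod_two_pow, Nat.testBit_shiftRight]
  by_cases hb : b < P.w
  · rw [decide_eq_true (show _ + b < P.w * n by omega), Bool.true_and]
  · simp [hb]

theorem blk_of {a r : ℕ} {f f' : ℕ → ℕ} (ha : Wf P a) (hb : blk P a f f' r = true) {k : ℕ}
    (hk : k < n * r) : (dec P a)ᵀ *ᵥ rv P (f k) = rv P (f' k) := by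
  have hn : 0 < n := by have := h.n2; omega
  have h1 := allb_of hb (k / n) (Nat.div_lt_of_lt_mul hk)
  rw [frc_eq, Bool.and_eq_true] at h1
  have h2 := congrFun (congrArg (dec P) (Nat.eq_of_beq_eq_true h1.2)) ⟨k % n, Nat.mod_lt _ hn⟩
  rw [(mul_ok h (wf_of h h1.1) ha).2, dec_rows h, mul_apply_eq_vecMul, dec_rows h] at h2
  rw [mulVec_transpose, ← Nat.div_add_mod k n]
  exact h2

theorem rv_inj {u v : ℕ} (hu : vecb P u = true) (hv : vecb P v = true) (e : rv P u = rv P v) :
    u = v := by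
  have := h.p2
  have : NeZero p := ⟨by omega⟩
  obtain ⟨y, rfl⟩ := vecb_ex h hu
  obtain ⟨z, rfl⟩ := vecb_ex h hv
  refine congrArg _ (funext fun k => ?_)
  have hk := k.2
  have e' := congrFun e ⟨n - 1 - k, by omega⟩
  simpa only [rv, show n - 1 - (n - 1 - k) = k by omega, enc,
    sl_pk (fun u _ => (enc_lt h _ u).trans h.pw) hk, dif_pos hk, ZMod.natCast_zmod_val] using e'

variable {tab Gn}

theorem hm_eq {c : ℕ} (hc : pb c = true) : (dec P (hm P tab c))ᵀ = Rm P tab (pm c) :=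
  ext fun i j => by
    rw [transpose_apply, hm, frc_eq, dec_rows h, s12_actv hc _ j.2]
    rfl

variable {R : Perm (Fin 12) →* Matrix (Fin n) (Fin n) (ZMod p)} (hR : ∀ π, R π = Rm P tab π)
include hR

theorem ev_ok {w : Wd} (hw : wok P tab Gn w = true) : (∀ x ∈ w, okl x = true) ∧
    Wf P (ev P tab Gn w) ∧ (dec P (ev P tab Gn w))ᵀ = wv R (fun k => (dec P (Gn k))ᵀ) w := by
  simp only [wok, List.all_eq_true, Bool.and_eq_true] at hw
  refine ⟨fun x hx => (hw x hx).1, ?_⟩
  induction w with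
  | nil => exact ⟨(one_ok h).1, (congrArg _ (one_ok h).2).trans transpose_one⟩
  | cons x w ih =>
    have hx := hw x (by simp)
    have e : (dec P (lt P tab Gn x))ᵀ = val R (fun k => (dec P (Gn k))ᵀ) x := by
      cases x with
      | inl k => rfl
      | inr c => exact (hm_eq h (vc_of hx.1).1).trans (hR _).symm
    replace ih := ih fun y hy => hw y (by simp [hy])
    rw [wv, List.map_cons, List.prod_cons, ← e, ← wv]
    cases w with
    | nil => exact ⟨wf_of h hx.2, (mul_one _).symm⟩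
    | cons y w =>
      have := mul_ok h ih.1 (wf_of h hx.2)
      rw [← ih.2, ← transpose_mul, ← this.2]
      have e' : ev P tab Gn (x :: y :: w) = frc (ev P tab Gn (y :: w)) fun b =>
        frc (lt P tab Gn x) fun a => mul P b a := rfl
      rw [e', frc_eq, frc_eq]
      exact ⟨this.1, rfl⟩

theorem idb_ok {e : Wd × Wd} (he : idb P tab Gn e = true) :
    Idn R (fun k => (dec P (Gn k))ᵀ) e := by
  rw [idb, Bool.and_eq_true] at he
  have h1 := he.1
  rw [wok, List.all_append, Bool.and_eq_true] at h1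
  exact ⟨(ev_ok h hR he.1).1, by
    rw [← (ev_ok h hR h1.1).2.2, ← (ev_ok h hR h1.2).2.2, Nat.eq_of_beq_eq_true he.2]⟩

theorem orbb_ok {o : OD} {T : ℕ → ℕ} {r : ℕ} (ho : orbb P tab Gn o T r = true) :
    Orv R (fun k => (dec P (Gn k))ᵀ) (rv P (tab 0)) o := by
  simp only [orbb, Bool.and_eq_true, List.all_eq_true, frc_eq] at ho
  obtain ⟨⟨⟨h1, h2⟩, h3⟩, h4⟩ := ho
  have h5 := allb_of h3
  simp only [Bool.and_eq_true, Bool.or_eq_true, Nat.beq_eq, Nat.blt_eq] at h5
  have key : ∀ a b, a < b → b < o.m → T a < T b := fun a b hab hb => by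
    induction b with
    | zero => omega
    | succ b ih =>
      have := (h5 _ hb).2.resolve_left (by omega)
      rcases Nat.lt_succ_iff_lt_or_eq.1 hab with e | rfl
      exacts [(ih e (by omega)).trans this, this]
  refine ⟨fun i => rv P (T i), fun a ha b hb e => ?_, by rw [← Nat.eq_of_beq_eq_true h1],
    fun c hc => ?_⟩
  · have := rv_inj h (h5 a ha).1 (h5 b hb).1 e
    rcases lt_trichotomy a b with e | e | e
    exacts [absurd this (key _ _ e hb).ne, e, absurd this (key _ _ e ha).ne']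
  · obtain ⟨e1, e2, e3⟩ := ev_ok h hR (h4 c hc).1
    exact ⟨e1, fun i hi => e3 ▸ blk_of h e2 (h4 c hc).2 (hi.trans_le (Nat.le_of_ble_eq_true h2))⟩

end

variable {p : ℕ} {P : Par p 133} (h : P.Ok) {tab : ℕ → ℕ}

theorem pop_of {m : ℕ} (hm : m < 4096) :
    (popm m = 6 → O6.testBit m = true) ∧ (popm m % 6 = 0 → ∃ k < 931, s12 lmT k = m) := by
  have := pP.1
  rw [frc_eq] at this
  replace this := allb_of this m hm
  simp only [Bool.and_eq_true, Bool.or_eq_true, bne_iff_ne] at this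
  exact ⟨fun e => this.1.resolve_left (· e), fun e => orm_of (this.2.resolve_left (· e))⟩

include h in
theorem repb_ok {c : ℕ} (hc : repb P tab c = true) : Rep P tab (pm c) := fun f hf => by
  simp only [repb, Bool.and_eq_true, frc_eq] at hc
  obtain ⟨k, hk, e⟩ := (pop_of (mask_lt f)).2 (by rwa [← pop_um, um_mask])
  have := blk_of h (wf_of h hc.2.1) hc.2.2 (k := k) hk
  rwa [hm_eq h hc.1, s12_actv hc.1 _ hk, e, um_mask] at this

theorem Rep.mul {π : Perm (Fin 12)} (hπ : Rep P tab π) (σ : Perm (Fin 12)) :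
    Rm P tab (π * σ) = Rm P tab π * Rm P tab σ := ext fun i j => by
  have := congrFun (hπ (σ • um (s12 chT j)) (by
    rw [pop_smul, pop_um]; exact beq_iff_eq.1 (allb_of pP.2 j j.2))) i
  rw [← mul_smul] at this
  exact this.symm

theorem pm_eq {c : ℕ} {π : Perm (Fin 12)} (hc : pb c = true) (e : ∀ j, π (pf c j) = j) :
    pm c = π := (eq_of_mul_inv_eq_one (Equiv.ext fun j => by
  rw [Perm.mul_apply, pm_inv hc, e, Perm.one_apply])).symm

theorem pm_one : pm cI = 1 := pm_eq (by decide +kernel) (by decide +kernel)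

include h in
theorem rep_all (h1 : Nat.beq (hm P tab cI) (one P) = true) (h2 : repb P tab cR = true)
    (h3 : repb P tab cS = true) : ∃ R : Perm (Fin 12) →* Matrix (Fin 133) (Fin 133) (ZMod p),
      (∀ π, R π = Rm P tab π) ∧ ∀ π, R π • rv P (tab 0) = rv P (tab 0) := by
  have e1 : Rm P tab 1 = 1 := by
    rw [← pm_one, ← hm_eq h (by decide +kernel), Nat.eq_of_beq_eq_true h1, (one_ok h).2, transpose_one]
  have e2 : ∀ π, Rep P tab π := fun π => cl_right _ {π | Rep P tab π}
    (fun f _ => by rw [e1, one_mulVec, one_smul]) (fun s hs a ha f hf => by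
      have : Rep P tab s := by
        rcases hs with rfl | rfl
        · rw [← pm_eq (c := cR) (π := finRotate 12) (by decide +kernel) (by decide +kernel)]
          exact repb_ok h h2
        · rw [← pm_eq (c := cS) (π := swap 0 (finRotate 12 0)) (by decide +kernel)
            (by decide +kernel)]
          exact repb_ok h h3
      rw [Rep.mul ha, ← mulVec_mulVec, this f hf, ha _ (by rwa [pop_smul]), mul_smul]) π
    (Perm.closure_cycle_adjacent_swap (isCycle_finRotate (n := 10)) support_finRotate 0 ▸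
      Subgroup.mem_top π)
  refine ⟨⟨⟨Rm P tab, e1⟩, fun a b => (e2 a).mul b⟩, fun _ => rfl, fun π => ?_⟩
  have e3 : π • um 0 = um 0 := funext fun _ => (Nat.zero_testBit _).trans (Nat.zero_testBit _).symm
  have := e2 π (um 0) (by rw [pop_um]; rfl)
  rwa [e3, nbv, show mask (um 0) = 0 by decide +kernel] at this

end Pool.Agent.Lib.MP_cad414_al.Cg.Hn
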