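import Pool.Agent.Lib.MP_cad414_al.Cg.Gl

/-! A simple group of order 175560 that is generated by three conjugate involutions. -/

namespace Pool.Agent.Lib.MP_cad414_al.Cg

namespace J1

open Mdl

noncomputable def M := glM 11 7 10 4 745 13 6 (by decide)

def I : List Ins :=
  [(62771017587707070482425220786787269609552760047963585118208, 1, []),
   (6277101969226943607903118898585243910139766096925533667328, 1, []),
   (62771017587707069698414650321612021835445829041911389749248, 1, []),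
   (105312291668557188159419670459091241540005022740360281155087368192, 6, []),
   (105312291668557210081945618774775108491535322103972699386314555392, 2, []),
   (126525600131154065172848876880404227697645121752435900044916887857, 1, []),
   (0, 0, [5, 0, 5, 0, 5, 0, 5, 0, 5]),
   (0, 0, [5, 2, 5, 1, 5, 1, 5, 2, 5]),
   (0, 0, [5, 0, 5]),
   (0, 0, [5, 1, 5, 0, 5, 1, 5, 1, 5]),
   (0, 0, [5, 2, 5, 0, 5, 1, 5]),
   (0, 0, [5, 2, 5, 2, 5]),
   (0, 0, [5, 2, 5, 1, 5, 0, 5]),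
   (0, 0, [5, 1, 5, 0, 5, 1, 5]),
   (0, 0, [5, 1, 5, 0, 5]),
   (0, 0, [3, 3, 4, 3]),
   (0, 0, [4, 3, 4, 3, 4]),
   (0, 0, [2, 3, 3, 3, 4]),
   (0, 0, [4, 3, 4, 2]),
   (0, 0, [3, 4]),
   (0, 0, [3, 3, 3, 2, 4]),
   (0, 0, [5, 4, 5, 2, 4, 5, 0, 4]),
   (0, 0, [2, 1, 4, 0]),
   (375617066375364905738771338591508175463218812333102502511324596872, 18, []),
   (754084803195294984370425442339189026509347480357447470485424343159, 1, []),
   (0, 0, [0, 1, 2, 4, 1]),
   (0, 0, [0, 5, 2, 0, 1]),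
   (791518926935252534293248113647366841223523381072128355777842330119, 1, []),
   (363409948929073042164526480305050583384655394122112910678337789971, 1, [])]

theorem ok : M.Ok I := Mdl.ok_of (by decide +kernel)

theorem ubH : M.UB I [4, 3, 2, 1, 0] 168 :=
  ub_pc ok [(0, 2, [], []), (1, 2, [[0]], []), (2, 2, [[1], [0]], []), (3, 7, [[0], [2, 0], [1]],
    []), (4, 3, [[3, 3, 3, 3], [0], [1], [2, 1, 0]], [])] (l := []) (ck_go (by decide +kernel))
    ub_nil

theorem le5 : M.Le I [15, 16] [4, 3, 2, 1, 0] :=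
  leD ok _ [15, 16] _ (by decide +kernel)

theorem c1 : M.Ck I (chkCj [5] [15, 16] [4, 3, 2, 1, 0] [[3, 4, 3], [3]]) :=
  ck_go (by decide +kernel)

theorem cj5 : M.Cj I [5] [15, 16] [4, 3, 2, 1, 0] :=
  cj_of ok c1

theorem c2 : M.Ck I (chkOrb [15, 16] [[]] [[2310346615294011397]] ⟨3597333, 10, 68, 5,
    144208901439491, 21⟩ 3 20 [676298311458538331] (Nat.pred (Nat.pow 2 21))) :=
  ck_go (by decide +kernel)

theorem lb5 : M.LB I [15, 16] 21 :=
  lb_orb (or_of ok c2) (le_sub (a := []) rfl) (fix_nil _) (lb_one _)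

theorem rb5 : M.RB I [4, 3, 2, 1, 0] (5, 8) :=
  rb_of le5 cj5 ubH lb5 rfl

theorem le6 : M.Le I [17] [4, 3, 2, 1, 0] :=
  leD ok _ [17] _ (by decide +kernel)

theorem c3 : M.Ck I (chkCj [6] [17] [4, 3, 2, 1, 0] [[3, 4, 4, 2]]) :=
  ck_go (by decide +kernel)

theorem cj6 : M.Cj I [6] [17] [4, 3, 2, 1, 0] :=
  cj_of ok c3

theorem c4 : M.Ck I (chkOrb [17] [[]] [[4616190718644322307]] ⟨6630131, 3, 11, 3, 0, 6⟩ 1 5 [15]
    (Nat.pred (Nat.pow 2 6))) :=
  ck_go (by decide +kernel)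

theorem lb6 : M.LB I [17] 6 :=
  lb_orb (or_of ok c4) (le_sub (a := []) rfl) (fix_nil _) (lb_one _)

theorem rb6 : M.RB I [4, 3, 2, 1, 0] (6, 28) :=
  rb_of le6 cj6 ubH lb6 rfl

theorem le7 : M.Le I [18] [4, 3, 2, 1, 0] :=
  leD ok _ [18] _ (by decide +kernel)

theorem c5 : M.Ck I (chkCj [7] [18] [4, 3, 2, 1, 0] [[3, 4, 3, 1]]) :=
  ck_go (by decide +kernel)

theorem cj7 : M.Cj I [7] [18] [4, 3, 2, 1, 0] :=
  cj_of ok c5

theorem c6 : M.Ck I (chkOrb [18] [[]] [[9223374240182441986]] ⟨4992383, 1, 40, 2, 0, 3⟩ 1 2 [1]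
    (Nat.pred (Nat.pow 2 3))) :=
  ck_go (by decide +kernel)

theorem lb7 : M.LB I [18] 3 :=
  lb_orb (or_of ok c6) (le_sub (a := []) rfl) (fix_nil _) (lb_one _)

theorem rb7 : M.RB I [4, 3, 2, 1, 0] (7, 56) :=
  rb_of le7 cj7 ubH lb7 rfl

theorem le8 : M.Le I [19] [4, 3, 2, 1, 0] :=
  leD ok _ [19] _ (by decide +kernel)

theorem c7 : M.Ck I (chkCj [8] [19] [4, 3, 2, 1, 0] [[3, 4]]) :=
  ck_go (by decide +kernel)

theorem cj8 : M.Cj I [8] [19] [4, 3, 2, 1, 0] :=
  cj_of ok c7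

theorem c8 : M.Ck I (chkOrb [19] [[]] [[10378553047523533824]] ⟨4992383, 1, 40, 2, 0, 3⟩ 1 2 [1]
    (Nat.pred (Nat.pow 2 3))) :=
  ck_go (by decide +kernel)

theorem lb8 : M.LB I [19] 3 :=
  lb_orb (or_of ok c8) (le_sub (a := []) rfl) (fix_nil _) (lb_one _)

theorem rb8 : M.RB I [4, 3, 2, 1, 0] (8, 56) :=
  rb_of le8 cj8 ubH lb8 rfl

theorem le9 : M.Le I [20] [4, 3, 2, 1, 0] :=
  leD ok _ [20] _ (by decide +kernel)

theorem c9 : M.Ck I (chkCj [9] [20] [4, 3, 2, 1, 0] [[3, 4, 3, 4, 0]]) :=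
  ck_go (by decide +kernel)

theorem cj9 : M.Cj I [9] [20] [4, 3, 2, 1, 0] :=
  cj_of ok c9

theorem c10 : M.Ck I (chkOrb [20] [[]] [[3459895914513039368]] ⟨8991881, 1, 28, 2, 0, 3⟩ 1 2 [1]
    (Nat.pred (Nat.pow 2 3))) :=
  ck_go (by decide +kernel)

theorem lb9 : M.LB I [20] 3 :=
  lb_orb (or_of ok c10) (le_sub (a := []) rfl) (fix_nil _) (lb_one _)

theorem rb9 : M.RB I [4, 3, 2, 1, 0] (9, 56) :=
  rb_of le9 cj9 ubH lb9 rfl

theorem le10 : M.Le I [] [4, 3, 2, 1, 0] :=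
  leD ok _ [] _ (by decide +kernel)

theorem c11 : M.Ck I (chkCj [10] [] [4, 3, 2, 1, 0] []) :=
  ck_go (by decide +kernel)

theorem cj10 : M.Cj I [10] [] [4, 3, 2, 1, 0] :=
  cj_of ok c11

theorem lb10 : M.LB I [] 1 :=
  lb_one _

theorem rb10 : M.RB I [4, 3, 2, 1, 0] (10, 168) :=
  rb_of le10 cj10 ubH lb10 rfl

theorem le11 : M.Le I [] [4, 3, 2, 1, 0] :=
  leD ok _ [] _ (by decide +kernel)

theorem c12 : M.Ck I (chkCj [11] [] [4, 3, 2, 1, 0] []) :=
  ck_go (by decide +kernel)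

theorem cj11 : M.Cj I [11] [] [4, 3, 2, 1, 0] :=
  cj_of ok c12

theorem lb11 : M.LB I [] 1 :=
  lb_one _

theorem rb11 : M.RB I [4, 3, 2, 1, 0] (11, 168) :=
  rb_of le11 cj11 ubH lb11 rfl

theorem le12 : M.Le I [] [4, 3, 2, 1, 0] :=
  leD ok _ [] _ (by decide +kernel)

theorem c13 : M.Ck I (chkCj [12] [] [4, 3, 2, 1, 0] []) :=
  ck_go (by decide +kernel)

theorem cj12 : M.Cj I [12] [] [4, 3, 2, 1, 0] :=
  cj_of ok c13

theorem lb12 : M.LB I [] 1 :=
  lb_one _

theorem rb12 : M.RB I [4, 3, 2, 1, 0] (12, 168) :=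
  rb_of le12 cj12 ubH lb12 rfl

theorem le13 : M.Le I [] [4, 3, 2, 1, 0] :=
  leD ok _ [] _ (by decide +kernel)

theorem c14 : M.Ck I (chkCj [13] [] [4, 3, 2, 1, 0] []) :=
  ck_go (by decide +kernel)

theorem cj13 : M.Cj I [13] [] [4, 3, 2, 1, 0] :=
  cj_of ok c14

theorem lb13 : M.LB I [] 1 :=
  lb_one _

theorem rb13 : M.RB I [4, 3, 2, 1, 0] (13, 168) :=
  rb_of le13 cj13 ubH lb13 rfl

theorem le14 : M.Le I [] [4, 3, 2, 1, 0] :=
  leD ok _ [] _ (by decide +kernel)

theorem c15 : M.Ck I (chkCj [14] [] [4, 3, 2, 1, 0] []) :=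
  ck_go (by decide +kernel)

theorem cj14 : M.Cj I [14] [] [4, 3, 2, 1, 0] :=
  cj_of ok c15

theorem lb14 : M.LB I [] 1 :=
  lb_one _

theorem rb14 : M.RB I [4, 3, 2, 1, 0] (14, 168) :=
  rb_of le14 cj14 ubH lb14 rfl

theorem c16 : M.Ck I (chkCi [5] [15, 16] [4, 3, 2, 1, 0] [[3, 4, 3], [3]]) :=
  ck_go (by decide +kernel)

theorem ciK : M.Ci I [5] [15, 16] [4, 3, 2, 1, 0] :=
  ci_of ok c16

theorem c17 : M.Ck I (chkFix [15, 16] [[1154048505100108801]]) :=
  ck_go (by decide +kernel)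

theorem fxK : M.Fix I [15, 16] [[1154048505100108801]] :=
  fix_of ok c17

theorem c18 : M.Ck I (chkOrb [15, 16] [[0], []] [[1154048505100108801]] ⟨3295845, 4, 23, 3, 2586,
    8⟩ 3 6 [151891] (Nat.pred (Nat.pow 2 8))) :=
  ck_go (by decide +kernel)

theorem c19 : M.Ck I (chkIds [4, 3, 2, 1, 0] [5, 6, 7, 8, 9, 10, 11, 12, 13, 14] [5] 5 [[0], []]
    [([], 8, []), ([], 1028, [])]) :=
  ck_go (by decide +kernel)

theorem rz5 : M.RZ I [4, 3, 2, 1, 0] [5, 6, 7, 8, 9, 10, 11, 12, 13, 14] [5] 5 :=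
  rz_of le5 cj5 le5 ciK fxK ubH lb5 rfl (or_of ok c18) (by decide +kernel) (ids_of ok c19)

theorem c20 : M.Ck I (chkOrb [17] [[], [1]] [[1154048505100108801]] ⟨3295845, 4, 23, 3, 2586, 8⟩ 1
    6 [15] (Nat.pred (Nat.pow 2 8))) :=
  ck_go (by decide +kernel)

theorem c21 : M.Ck I (chkIds [4, 3, 2, 1, 0] [5, 6, 7, 8, 9, 10, 11, 12, 13, 14] [6] 5 [[], [1]]
    [([4, 4, 2, 3], 10, [3, 3, 3, 2, 0]), ([3, 2, 3, 3], 7, [3, 2])]) :=
  ck_go (by decide +kernel)

theorem rz6 : M.RZ I [4, 3, 2, 1, 0] [5, 6, 7, 8, 9, 10, 11, 12, 13, 14] [6] 5 :=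
  rz_of le6 cj6 le5 ciK fxK ubH lb5 rfl (or_of ok c20) (by decide +kernel) (ids_of ok c21)

theorem c22 : M.Ck I (chkOrb [18] [[], [4, 0], [0], [2, 1]] [[1154048505100108801]] ⟨3295845, 4,
    23, 3, 2586, 8⟩ 1 4 [5] (Nat.pred (Nat.pow 2 8))) :=
  ck_go (by decide +kernel)

theorem c23 : M.Ck I (chkIds [4, 3, 2, 1, 0] [5, 6, 7, 8, 9, 10, 11, 12, 13, 14] [7] 5 [[], [4, 0],
    [0], [2, 1]] [([4, 3, 4, 3, 2, 4], 13, [2, 3, 3, 3]), ([2, 3, 3, 3, 4], 12, [4, 4, 1]), ([4, 2,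
    1], 6, [4, 1]), ([3, 1], 9, [4, 2, 1])]) :=
  ck_go (by decide +kernel)

theorem rz7 : M.RZ I [4, 3, 2, 1, 0] [5, 6, 7, 8, 9, 10, 11, 12, 13, 14] [7] 5 :=
  rz_of le7 cj7 le5 ciK fxK ubH lb5 rfl (or_of ok c22) (by decide +kernel) (ids_of ok c23)

theorem c24 : M.Ck I (chkOrb [19] [[0], [1], [], [1, 0]] [[1154048505100108801]] ⟨3295845, 4, 23,
    3, 2586, 8⟩ 1 4 [5] (Nat.pred (Nat.pow 2 8))) :=
  ck_go (by decide +kernel)

theorem c25 : M.Ck I (chkIds [4, 3, 2, 1, 0] [5, 6, 7, 8, 9, 10, 11, 12, 13, 14] [8] 5 [[0], [1],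
    [], [1, 0]] [([3, 4, 4, 3], 11, [3, 3, 4]), ([3], 14, [3]), ([], 5, [0]), ([3, 4, 1, 0], 8, [4,
    3, 4, 0])]) :=
  ck_go (by decide +kernel)

theorem rz8 : M.RZ I [4, 3, 2, 1, 0] [5, 6, 7, 8, 9, 10, 11, 12, 13, 14] [8] 5 :=
  rz_of le8 cj8 le5 ciK fxK ubH lb5 rfl (or_of ok c24) (by decide +kernel) (ids_of ok c25)

theorem c26 : M.Ck I (chkOrb [20] [[], [0], [1], [1, 0]] [[1154048505100108801]] ⟨3295845, 4, 23,
    3, 2586, 8⟩ 1 4 [5] (Nat.pred (Nat.pow 2 8))) :=
  ck_go (by decide +kernel)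

theorem c27 : M.Ck I (chkIds [4, 3, 2, 1, 0] [5, 6, 7, 8, 9, 10, 11, 12, 13, 14] [9] 5 [[], [0],
    [1], [1, 0]] [([], 13, [1]), ([2, 3, 4, 4, 3], 10, [4, 3, 4, 4, 2]), ([3, 4, 2], 9, [3, 4, 2,
    3]), ([2, 4, 3], 7, [2, 3, 0])]) :=
  ck_go (by decide +kernel)

theorem rz9 : M.RZ I [4, 3, 2, 1, 0] [5, 6, 7, 8, 9, 10, 11, 12, 13, 14] [9] 5 :=
  rz_of le9 cj9 le5 ciK fxK ubH lb5 rfl (or_of ok c26) (by decide +kernel) (ids_of ok c27)

theorem c28 : M.Ck I (chkOrb [] [[], [0], [1], [2], [4, 0], [3, 1], [1, 0], [2, 1]]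
    [[1154048505100108801]] ⟨3295845, 4, 23, 3, 2586, 8⟩ 1 1 [] (Nat.pred (Nat.pow 2 8))) :=
  ck_go (by decide +kernel)

theorem c29 : M.Ck I (chkIds [4, 3, 2, 1, 0] [5, 6, 7, 8, 9, 10, 11, 12, 13, 14] [10] 5 [[], [0],
    [1], [2], [4, 0], [3, 1], [1, 0], [2, 1]] [([3, 4, 4], 14, [3, 4, 1]), ([3, 3, 3, 4, 1, 0], 13,
    [3, 4, 3, 4, 2, 4]), ([3, 3, 4, 3, 2, 0], 12, [4, 2, 3, 4, 4]), ([3, 4, 2], 14, [2, 3, 3, 3,
    4]), ([3, 3, 3, 4, 1], 12, [3, 3, 3, 2, 0]), ([4, 3, 4, 4, 1], 11, [2, 3, 3, 3, 4]), ([4, 3, 4,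
    3, 1], 9, [3, 4, 3, 1]), ([4, 2, 3, 4], 6, [3, 4, 1])]) :=
  ck_go (by decide +kernel)

theorem rz10 : M.RZ I [4, 3, 2, 1, 0] [5, 6, 7, 8, 9, 10, 11, 12, 13, 14] [10] 5 :=
  rz_of le10 cj10 le5 ciK fxK ubH lb5 rfl (or_of ok c28) (by decide +kernel) (ids_of ok c29)

theorem c30 : M.Ck I (chkOrb [] [[], [0], [1], [2], [4, 0], [3, 1], [1, 0], [2, 1]]
    [[1154048505100108801]] ⟨3295845, 4, 23, 3, 2586, 8⟩ 1 1 [] (Nat.pred (Nat.pow 2 8))) :=
  ck_go (by decide +kernel)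

theorem c31 : M.Ck I (chkIds [4, 3, 2, 1, 0] [5, 6, 7, 8, 9, 10, 11, 12, 13, 14] [11] 5 [[], [0],
    [1], [2], [4, 0], [3, 1], [1, 0], [2, 1]] [([4, 3, 4, 3], 8, [4, 3, 2]), ([3, 2, 4], 13, [4, 2,
    4]), ([4, 3, 4, 4, 1], 11, [3, 3, 3, 4, 1, 0]), ([3, 3, 2, 3], 10, [4, 3, 4, 3, 2, 0]), ([3, 3,
    4], 14, [1, 0]), ([4, 4, 3, 2], 12, [2, 0]), ([3, 4, 3], 12, [4, 3, 4]), ([3, 3, 2, 3], 11, [3,
    4, 2, 3, 4])]) :=
  ck_go (by decide +kernel)

theorem rz11 : M.RZ I [4, 3, 2, 1, 0] [5, 6, 7, 8, 9, 10, 11, 12, 13, 14] [11] 5 :=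
  rz_of le11 cj11 le5 ciK fxK ubH lb5 rfl (or_of ok c30) (by decide +kernel) (ids_of ok c31)

theorem c32 : M.Ck I (chkOrb [] [[], [0], [1], [2], [4, 0], [3, 1], [1, 0], [2, 1]]
    [[1154048505100108801]] ⟨3295845, 4, 23, 3, 2586, 8⟩ 1 1 [] (Nat.pred (Nat.pow 2 8))) :=
  ck_go (by decide +kernel)

theorem c33 : M.Ck I (chkIds [4, 3, 2, 1, 0] [5, 6, 7, 8, 9, 10, 11, 12, 13, 14] [12] 5 [[], [0],
    [1], [2], [4, 0], [3, 1], [1, 0], [2, 1]] [([4, 3, 4], 11, [3, 3, 4, 3, 0]), ([4, 4, 2, 3, 0],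
    10, [4, 3, 4, 2, 4]), ([3, 3, 4, 1], 7, [3, 4, 1]), ([3, 4, 4, 2, 3], 14, [4, 3, 4, 3, 1]),
    ([3, 4, 4, 0], 14, [3, 4, 4, 2]), ([3, 3, 4, 3, 2], 11, [2, 0]), ([0], 12, [4, 3, 4, 3, 2, 4]),
    ([3, 4, 2, 4], 10, [4, 3, 2, 3, 3])]) :=
  ck_go (by decide +kernel)

theorem rz12 : M.RZ I [4, 3, 2, 1, 0] [5, 6, 7, 8, 9, 10, 11, 12, 13, 14] [12] 5 :=
  rz_of le12 cj12 le5 ciK fxK ubH lb5 rfl (or_of ok c32) (by decide +kernel) (ids_of ok c33)

theorem c34 : M.Ck I (chkOrb [] [[], [0], [1], [2], [4, 0], [3, 1], [1, 0], [2, 1]]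
    [[1154048505100108801]] ⟨3295845, 4, 23, 3, 2586, 8⟩ 1 1 [] (Nat.pred (Nat.pow 2 8))) :=
  ck_go (by decide +kernel)

theorem c35 : M.Ck I (chkIds [4, 3, 2, 1, 0] [5, 6, 7, 8, 9, 10, 11, 12, 13, 14] [13] 5 [[], [0],
    [1], [2], [4, 0], [3, 1], [1, 0], [2, 1]] [([], 14, [1]), ([3, 4, 3, 4, 0], 11, [4, 2, 3]),
    ([], 9, []), ([3, 1, 0], 7, [3, 3, 3]), ([4, 2], 14, [3, 3, 3, 1]), ([3, 4, 4, 2, 1], 10, [4,
    2, 3, 4, 4]), ([4, 3, 4, 3, 4, 1, 0], 13, [4, 2, 0]), ([3, 2, 0], 13, [4, 3, 4, 3, 2])]) :=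
  ck_go (by decide +kernel)

theorem rz13 : M.RZ I [4, 3, 2, 1, 0] [5, 6, 7, 8, 9, 10, 11, 12, 13, 14] [13] 5 :=
  rz_of le13 cj13 le5 ciK fxK ubH lb5 rfl (or_of ok c34) (by decide +kernel) (ids_of ok c35)

theorem c36 : M.Ck I (chkOrb [] [[], [0], [1], [2], [4, 0], [3, 1], [1, 0], [2, 1]]
    [[1154048505100108801]] ⟨3295845, 4, 23, 3, 2586, 8⟩ 1 1 [] (Nat.pred (Nat.pow 2 8))) :=
  ck_go (by decide +kernel)

theorem c37 : M.Ck I (chkIds [4, 3, 2, 1, 0] [5, 6, 7, 8, 9, 10, 11, 12, 13, 14] [14] 5 [[], [0],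
    [1], [2], [4, 0], [3, 1], [1, 0], [2, 1]] [([4, 3, 4, 3, 4], 8, [3, 0]), ([3, 4, 3, 2, 3], 12,
    [2, 4]), ([], 13, []), ([3, 4, 3, 4, 1], 10, [3, 4, 3, 4, 1]), ([4, 4, 0], 13, [4, 4, 2]), ([3,
    3, 3, 4], 10, [4, 3, 4, 3]), ([3, 4, 4, 3], 11, [4, 0]), ([3, 3, 3, 4, 0], 12, [4, 3, 2, 4])])
    :=
  ck_go (by decide +kernel)

theorem rz14 : M.RZ I [4, 3, 2, 1, 0] [5, 6, 7, 8, 9, 10, 11, 12, 13, 14] [14] 5 :=
  rz_of le14 cj14 le5 ciK fxK ubH lb5 rfl (or_of ok c36) (by decide +kernel) (ids_of ok c37)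

theorem c38 : M.Ck I (chkIds [4, 3, 2, 1, 0] [5, 6, 7, 8, 9, 10, 11, 12, 13, 14] [] 5 [[]] [([], 5,
    [])]) :=
  ck_go (by decide +kernel)

theorem rz0 : M.RZ I [4, 3, 2, 1, 0] [5, 6, 7, 8, 9, 10, 11, 12, 13, 14] [] 5 :=
  rz_one (ids_of ok c38)

theorem cv : M.CV I [5, 4, 3, 2, 1, 0] [4, 3, 2, 1, 0] [(5, 8), (6, 28), (7, 56), (8, 56), (9, 56),
    (10, 168), (11, 168), (12, 168), (13, 168), (14, 168)] :=
  cv_of (zs := [5]) (fa rb5 (fa rb6 (fa rb7 (fa rb8 (fa rb9 (fa rb10 (fa rb11 (fa rb12 (fa rb13 (fa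
    rb14 fa0))))))))))
    (fa rz0 fa0)
    (fa (fa rz5 fa0) (fa (fa rz6 fa0) (fa (fa rz7 fa0) (fa (fa rz8 fa0) (fa (fa rz9 fa0) (fa (fa
    rz10 fa0) (fa (fa rz11 fa0) (fa (fa rz12 fa0) (fa (fa rz13 fa0) (fa (fa rz14 fa0) fa0))))))))))

theorem c39 : M.Ck I (chkOrb [4, 3, 2, 1, 0] [[]] [[1160806112159606793]] ⟨9674429, 84, 191, 8,
    309520872563641956985896360517640280636216925178704645168344063413454582291278594757058334084290640524659771178925349608721579474380798776343235396363576956402963936728797209805043134064721083239940, 168⟩ 5 167 [28897943024059555880206998902030031168392518783893111919741049655172057416932084187540677032602290850615156592010643211220332215928503359581969748317831505252431594355001883373504972100996121436237001458472840940955230652036816323582031976841442597987] (Nat.pred (Nat.pow 2 168))) :=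
  ck_go (by decide +kernel)

theorem lbH : M.LB I [4, 3, 2, 1, 0] 168 :=
  lb_orb (or_of ok c39) (le_sub (a := []) rfl) (fix_nil _) (lb_one _)

theorem c40 : M.Ck I (chkOrb [5, 4, 3, 2, 1, 0] [[]] [[1152921504606846976, 11529215046068469760,
    1125899906842624, 11258999068426240, 1099511627776, 10995116277760, 1073741824, 10737418240,
    1048576, 10485760, 1024, 10240, 1, 10]] ⟨8649313, 522, 1075, 11,
    540884889117731967953361899786247303089588312671049844485302401566155966486515020054749025288190317086101540059171752209905830982634839134373438277646062776077400132623691848153923468156416421151960827386419736595975831619387337576545854628220524089813194952611480043468323222854711822621453906688807721545654073227389561719079196575766196346133978423851842569692588752966459044055960664283351288038459663380825385207747090500349910860379118179596207345211231396295217846932816006948800359022292563105963860579275989365834050555098362721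988781330589979239774989615826318982108242848877018712349754998770922470713605070972961244139204806773279167993273167659552648155681031856042559325809177740288718934696232782823110276219999777178637923163839733142924441334210673534916522905643130177387541599462198938145339931002177252508410213467429386542274761963066108714154880287075839901871219850907299800738241121588394309402648013707660833183249156034419267591961489327586550589511806580726349169538753523238831920035476064967860249520450025724565794879260660771428076844213544783487333754192069318197525152920184248762444249446376244049533226431791518526905984724218343021405858415887406904662247546373502079039389303126486298464424574759107820845851195798002242992318614003394953751750692847872580894940422342701811502280367748182663047058803801385787613987242741702584294198692408124595211095208902175586337682447545210318951302797329739343119729790584639446358477674798069856320554406094721456398330057752275194042522444577971616031681240595874303457743012641185546958039317528967441989400711721479046362393094180998704858980182300790550369911982927179810054112477774328927284577317935207240354423376467703519713877221309482533025,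 1045⟩ 5 200 [6369134050387702597399825600202176808547216237678078690018323601063466300736704223544842269271978582836751355002146064292894596072170806872283736390900740003732282920339426743554631909575473039353563881917720313297979637698383920561244238693511173224670263648951500235422453427731008099915744123522529, 5039578102257936356627620410584476907331504861019751988955935080117472676637755917629259765729860190151265638941225031933652225294710916062931419156001317892526198640751692813972320684258697048108317692160043170172980818266561936898585981334955052831827294913527129322266012782851036052747228354303626, 5819954362195137921847322104459857725322044920242605854724570570710754866955816486508772862459863029547162705754776938964378185462188285039819499439796010530128586231480015660063754960477505367140895587318873140484546889609997964868417044461336458871856817998245134061472295635719208377979150240699008, 6907552543695294108264790384735918164795855586839494931650900158363783084562497649769252295364996154286078290407271918562612902887099489463984501589254617151940033412872656590594783393494499508738734649891238642849639933355860872466029081987226234996073137553385756087023591888297610094953056664161888,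 6367024858493188697010724103880922630648455616331723197599778309455497345601596986616386294726249760569569839462656758454493157353855502528294451058812467306169754719430248255690947570251135265396516856870679414000906391386286847046546265665121488005070118377971215991739661634360718730392221557039173, 217419526623187706412764259341015036390694488434676347638370537140] (Nat.pred (Nat.pow 2 1045))) :=
  ck_go (by decide +kernel)

theorem c41 : M.Ck I (chkFix [4, 3, 2, 1, 0] [[1152921504606846976, 11529215046068469760,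
    1125899906842624, 11258999068426240, 1099511627776, 10995116277760, 1073741824, 10737418240,
    1048576, 10485760, 1024, 10240, 1, 10]]) :=
  ck_go (by decide +kernel)

theorem lbG : M.LB I [5, 4, 3, 2, 1, 0] 175560 :=
  lb_orb (or_of ok c40) (le_sub rfl) (fix_of ok c41) lbH

theorem leR : M.Le I [14] [5, 4, 3, 2, 1, 0] :=
  leD ok _ [14] _ (by decide +kernel)

theorem co : M.CO I [5, 4, 3, 2, 1, 0] [4, 3, 2, 1, 0] [] :=
  co_row (i := 14) (m := 168) cv ubH lbG (by decide) leR le14 cj14 lb14 rfl (co_self _ _)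

theorem leF : M.Le I [21, 22, 25, 26] [5, 4, 3, 2, 1, 0] :=
  leD ok _ [21, 22, 25, 26] _ (by decide +kernel)

theorem c42 : M.Ck I (chkFin [] 19 21 22 23 24 25 26 27 28 [21, 23, 21, 23, 21, 23, 21, 23, 21, 23]
    []) :=
  ck_go (by decide +kernel)

theorem c43 : M.Ck I (chkLe [5, 4, 3, 2, 1, 0] [24, 27, 28] [[28, 27, 28, 27, 24, 28, 24, 27, 28,
    27, 24, 28, 27, 28, 24, 28], [24, 28, 27, 28, 24, 28, 27, 24, 27, 28, 24, 27, 24, 27, 28, 27,
    28, 27], [24, 28, 27, 24, 27, 28, 24, 27, 28, 24, 28, 27, 28, 24, 28, 27, 24], [28, 24, 27, 24,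
    27, 24, 27, 24, 27, 24, 27, 24, 28], [28, 24, 27, 28, 24, 27, 24, 27, 24, 28, 27, 24, 28], [28,
    27, 28, 27, 28, 24, 27, 28, 24, 28, 27, 24, 28, 27, 28, 27, 28]]) :=
  ck_go (by decide +kernel)

end J1

theorem spor_J1 : Spor 175560 :=
  Mdl.spor J1.ok J1.cv J1.ubH J1.lbG J1.co (Mdl.le_sub rfl) (Mdl.cj_nil _) Mdl.ub_nil (Mdl.lb_one _)
    (r := 19) (by norm_num) J1.leF J1.c42 (Mdl.le_of J1.ok J1.c43) (by decide +kernel)

end Pool.Agent.Lib.MP_cad414_al.Cg
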