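import Pool.Agent.Lib.MP_cad414_al.Cg.J41
import Pool.Agent.Lib.MP_cad414_al.Cg.J42
import Pool.Agent.Lib.MP_cad414_al.Cg.J43


namespace Pool.Agent.Lib.MP_cad414_al.Cg.J4

open Mdl

noncomputable section

theorem f0 : M.UB I l0 2048 :=
  ub_pc ok w0 k0 ub_nil
theorem f1 : M.Cj I [0] l0 l0 :=
  cj_of ok k1
theorem f2 : M.Cj I [3] l0 l0 :=
  cj_of ok k2
theorem f3 : M.Cj I [2] l0 l0 :=
  cj_of ok k3
theorem f4 : M.UB I l1 1536 :=
  ub_pc ok w4 k4 ub_nil
theorem f5 : M.Le I l2 l1 :=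
  leD ok _ [49,50,51] _ (by decide +kernel)
theorem f6 : M.Fix I l2 [[95738410353803160]] :=
  fix_of ok k5
theorem f7 : M.OR I l2 [[]] [[1110970182416750571912429240205995]] 128 :=
  or_of ok k6
theorem f8 : M.LB I l2 128 :=
  (lb_orb (lK := []) f7 (le_sub rfl) (fix_nil _) (lb_one _)).mono (by decide +kernel)
theorem f9 : M.Ci I [46] l2 l1 :=
  ci_of ok k7
theorem f10 : M.RZ I l1 [46,52] [] 46 :=
  rz_one (ids_of ok k8)
theorem f11 : M.Le I l3 l1 :=
  leD ok _ [53,54] _ (by decide +kernel)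
theorem f12 : M.Cj I [52] l3 l1 :=
  cj_of ok k9
theorem f13 : M.OR I l3 [[]] [[2739170302289496988909580628702714]] 1536 :=
  or_of ok k10
theorem f14 : M.LB I l3 1536 :=
  (lb_orb (lK := []) f13 (le_sub rfl) (fix_nil _) (lb_one _)).mono (by decide +kernel)
theorem f15 : M.RB I l1 (52,1) :=
  rb_of f11 f12 f4 f14 (by decide +kernel)
theorem f16 : M.OR I l3 [[]] [[95738410353803160]] 12 :=
  or_of ok k11
theorem f17 : M.RZ I l1 [46,52] [52] 46 :=
  rz_of f11 f12 f5 f9 f6 f4 f8 (by decide +kernel) f16 (by decide +kernel) (ids_of ok k12)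
theorem f18 : M.Cj I [46] l2 l1 :=
  cj_of ok k13
theorem f19 : M.RB I l1 (46,12) :=
  rb_of f5 f18 f4 f8 (by decide +kernel)
theorem f20 : M.OR I l2 [[],[36],[40],[42],[42,40]] [[95738410353803160]] 12 :=
  or_of ok k14
theorem f21 : M.RZ I l1 [46,52] [46] 46 :=
  rz_of f5 f18 f5 f9 f6 f4 f8 (by decide +kernel) f20 (by decide +kernel) (ids_of ok k15)
theorem f22 : M.CV I l4 l1 [(46,12),(52,1)] :=
  cv_of (zs := [46]) (fa f19 (fa f15 fa0)) (fa f10 fa0) (fa (fa f21 fa0) (fa (fa f17 fa0) fa0))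
theorem f23 : M.UB I l4 21504 :=
  (f22.ub f4).mono (by decide +kernel)
theorem f24 : M.Le I l5 l4 :=
  leD ok _ [55,56,57] _ (by decide +kernel)
theorem f25 : M.Fix I l5 [[30412805834572262]] :=
  fix_of ok k16
theorem f26 : M.OR I l5 [[]] [[2158407480731067084258410823679206]] 1536 :=
  or_of ok k17
theorem f27 : M.LB I l5 1536 :=
  (lb_orb (lK := []) f26 (le_sub rfl) (fix_nil _) (lb_one _)).mono (by decide +kernel)
theorem f28 : M.Ci I [47] l5 l4 :=
  ci_of ok k18
theorem f29 : M.RZ I l4 [47] [] 47 :=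
  rz_one (ids_of ok k19)
theorem f30 : M.Cj I [47] l5 l4 :=
  cj_of ok k20
theorem f31 : M.RB I l4 (47,14) :=
  rb_of f24 f30 f23 f27 (by decide +kernel)
theorem f32 : M.OR I l5 [[],[46],[40]] [[30412805834572262]] 14 :=
  or_of ok k21
theorem f33 : M.RZ I l4 [47] [47] 47 :=
  rz_of f24 f30 f24 f28 f25 f23 f27 (by decide +kernel) f32 (by decide +kernel) (ids_of ok k22)
theorem f34 : M.CV I l6 l4 [(47,14)] :=
  cv_of (zs := [47]) (fa f31 fa0) (fa f29 fa0) (fa (fa f33 fa0) fa0)
theorem f35 : M.UB I l6 322560 :=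
  (f34.ub f23).mono (by decide +kernel)
theorem f36 : M.Le I l7 l6 :=
  leD ok _ [58,59] _ (by decide +kernel)
theorem f37 : M.Fix I l7 [[121559464145609422]] :=
  fix_of ok k23
theorem f38 : M.OR I l7 [[]] [[54439335363274280]] 168 :=
  or_of ok k24
theorem f39 : M.Le I l8 l7 :=
  leD ok _ [60,61,62,63] _ (by decide +kernel)
theorem f40 : M.Fix I l8 [[54439335363274280]] :=
  fix_of ok k25
theorem f41 : M.OR I l8 [[]] [[700197100704542971779833488826051]] 64 :=
  or_of ok k26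
theorem f42 : M.LB I l8 64 :=
  (lb_orb (lK := []) f41 (le_sub rfl) (fix_nil _) (lb_one _)).mono (by decide +kernel)
theorem f43 : M.LB I l7 10752 :=
  (lb_orb (lK := l8) f38 f39 f40 f42).mono (by decide +kernel)
theorem f44 : M.Ci I [48] l7 l6 :=
  ci_of ok k27
theorem f45 : M.RZ I l6 [48,64,68] [] 48 :=
  rz_one (ids_of ok k28)
theorem f46 : M.Le I l9 l6 :=
  leD ok _ [69,70] _ (by decide +kernel)
theorem f47 : M.Cj I [68] l9 l6 :=
  cj_of ok k29
theorem f48 : M.OR I l9 [[]] [[2968611487770457915632636947462654]] 720 :=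
  or_of ok k30
theorem f49 : M.LB I l9 720 :=
  (lb_orb (lK := []) f48 (le_sub rfl) (fix_nil _) (lb_one _)).mono (by decide +kernel)
theorem f50 : M.RB I l6 (68,448) :=
  rb_of f46 f47 f35 f49 (by decide +kernel)
theorem f51 : M.OR I l9 [[],[38]] [[121559464145609422]] 30 :=
  or_of ok k31
theorem f52 : M.RZ I l6 [48,64,68] [68] 48 :=
  rz_of f46 f47 f36 f44 f37 f35 f43 (by decide +kernel) f51 (by decide +kernel) (ids_of ok k32)
theorem f53 : M.Le I l10 l6 :=
  leD ok _ [65,66,67] _ (by decide +kernel)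
theorem f54 : M.Cj I [64] l10 l6 :=
  cj_of ok k33
theorem f55 : M.OR I l10 [[]] [[4649169959829994943686410649261496]] 1152 :=
  or_of ok k34
theorem f56 : M.LB I l10 1152 :=
  (lb_orb (lK := []) f55 (le_sub rfl) (fix_nil _) (lb_one _)).mono (by decide +kernel)
theorem f57 : M.RB I l6 (64,280) :=
  rb_of f53 f54 f35 f56 (by decide +kernel)
theorem f58 : M.OR I l10 [[],[47],[46]] [[121559464145609422]] 30 :=
  or_of ok k35
theorem f59 : M.RZ I l6 [48,64,68] [64] 48 :=
  rz_of f53 f54 f36 f44 f37 f35 f43 (by decide +kernel) f58 (by decide +kernel) (ids_of ok k36)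
theorem f60 : M.Cj I [48] l7 l6 :=
  cj_of ok k37
theorem f61 : M.RB I l6 (48,30) :=
  rb_of f36 f60 f35 f43 (by decide +kernel)
theorem f62 : M.OR I l7 [[],[47],[40]] [[121559464145609422]] 30 :=
  or_of ok k38
theorem f63 : M.RZ I l6 [48,64,68] [48] 48 :=
  rz_of f36 f60 f36 f44 f37 f35 f43 (by decide +kernel) f62 (by decide +kernel) (ids_of ok k39)
theorem f64 : M.CV I l11 l6 [(48,30),(64,280),(68,448)] :=
  cv_of (zs := [48]) (fa f61 (fa f57 (fa f50 fa0))) (fa f45 fa0) (fa (fa f63 fa0) (fa (fa f59 fa0) (fa (fa f52 fa0) fa0)))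
theorem f65 : M.UB I l11 244823040 :=
  (f64.ub f35).mono (by decide +kernel)
theorem f66 : M.Le I l13 l12 :=
  le_of ok k40
theorem f67 : M.Le I l11 l13 :=
  leD ok _ [6,7,4,8,10,12,5,9,14,11,16,17,15,18,19,20,21,22,24,13,48,47,46,36,37,38,39,40,41,42,43,44,45] _ (by decide +kernel)
theorem f68 : M.UB I l13 (2048 * 244823040) :=
  ub_nrm (lA := l0) (lB := l11) (fa f3 (fa f2 (fa f1 fa0))) f67 f66 f0 f65
theorem f69 : M.Le I l14 l13 :=
  leD ok _ [4,5,6,7,8,9,10,11,12,13,14,15,16,17,18,19,20,21,22,23,24] _ (by decide +kernel)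
theorem f70 : M.UB I l14 501397585920 :=
  (f68.le f69).mono (by decide +kernel)
theorem f71 : M.Le I l15 l14 :=
  leD ok _ [71,72] _ (by decide +kernel)
theorem f72 : M.Fix I l15 [[4]] :=
  fix_of ok k41
theorem f73 : M.OR I l15 [[]] [[72591618237584836]] 336 :=
  or_of ok k42
theorem f74 : M.Le I l16 l15 :=
  leD ok _ [73,74,75] _ (by decide +kernel)
theorem f75 : M.Fix I l16 [[72591618237584836]] :=
  fix_of ok k43
theorem f76 : M.OR I l16 [[]] [[114461973931951904]] 384 :=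
  or_of ok k44
theorem f77 : M.Le I l17 l16 :=
  leD ok _ [76,77,78,79] _ (by decide +kernel)
theorem f78 : M.Fix I l17 [[114461973931951904]] :=
  fix_of ok k45
theorem f79 : M.OR I l17 [[]] [[2079578672532486669266522973938812]] 256 :=
  or_of ok k46
theorem f80 : M.LB I l17 256 :=
  (lb_orb (lK := []) f79 (le_sub rfl) (fix_nil _) (lb_one _)).mono (by decide +kernel)
theorem f81 : M.LB I l16 98304 :=
  (lb_orb (lK := l17) f76 f77 f78 f80).mono (by decide +kernel)
theorem f82 : M.LB I l15 33030144 :=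
  (lb_orb (lK := l16) f73 f74 f75 f81).mono (by decide +kernel)
theorem f83 : M.Ci I [1] l15 l14 :=
  ci_of ok k47
theorem f84 : M.RZ I l14 [1,80,81,82,85,86] [] 1 :=
  rz_one (ids_of ok k48)
theorem f85 : M.Le I l18 l14 :=
  leD ok _ [93,94] _ (by decide +kernel)
theorem f86 : M.Cj I [86] l18 l14 :=
  cj_of ok k49
theorem f87 : M.OR I l18 [[]] [[118119687960045880]] 253 :=
  or_of ok k50
theorem f88 : M.Le I l19 l18 :=
  leD ok _ [95,96] _ (by decide +kernel)
theorem f89 : M.Fix I l19 [[118119687960045880]] :=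
  fix_of ok k51
theorem f90 : M.OR I l19 [[]] [[5146688888010349273808874297215373]] 24 :=
  or_of ok k52
theorem f91 : M.LB I l19 24 :=
  (lb_orb (lK := []) f90 (le_sub rfl) (fix_nil _) (lb_one _)).mono (by decide +kernel)
theorem f92 : M.LB I l18 6072 :=
  (lb_orb (lK := l19) f87 f88 f89 f91).mono (by decide +kernel)
theorem f93 : M.RB I l14 (86,82575360) :=
  rb_of f85 f86 f70 f92 (by decide +kernel)
theorem f94 : M.OR I l18 [[],[0],[4],[6],[10],[12],[13],[18],[17,0],[19,0],[21,0],[21,4],[8,14]] [[4]] 15180 :=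
  or_of ok k53
theorem f95 : M.RZ I l14 [1,80,81,82,85,86] [86] 1 :=
  rz_of f85 f86 f71 f83 f72 f70 f82 (by decide +kernel) f94 (by decide +kernel) (ids_of ok k54)
theorem f96 : M.Le I l20 l14 :=
  leD ok _ [91,92] _ (by decide +kernel)
theorem f97 : M.Cj I [85] l20 l14 :=
  cj_of ok k55
theorem f98 : M.OR I l20 [[]] [[66873797006385018]] 72 :=
  or_of ok k56
theorem f99 : M.Le I l21 l20 :=
  leD ok _ [97,98,99,100] _ (by decide +kernel)
theorem f100 : M.Fix I l21 [[66873797006385018]] :=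
  fix_of ok k57
theorem f101 : M.OR I l21 [[]] [[4252094656315492757744001167500784]] 128 :=
  or_of ok k58
theorem f102 : M.LB I l21 128 :=
  (lb_orb (lK := []) f101 (le_sub rfl) (fix_nil _) (lb_one _)).mono (by decide +kernel)
theorem f103 : M.LB I l20 9216 :=
  (lb_orb (lK := l21) f98 f99 f100 f102).mono (by decide +kernel)
theorem f104 : M.RB I l14 (85,54405120) :=
  rb_of f96 f97 f70 f103 (by decide +kernel)
theorem f105 : M.OR I l20 [[],[0],[6],[12],[14],[15],[24],[19,0],[15,4],[18,8],[14,10],[3,12],[18,13],[24,14],[12,24,4],[7,13,6],[11,7,8],[7,24,8],[20,4,13],[7,19,13],[6,10,18],[17,18,6,0],[13,13,2,12]] [[4]] 15180 :=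
  or_of ok k59
theorem f106 : M.RZ I l14 [1,80,81,82,85,86] [85] 1 :=
  rz_of f96 f97 f71 f83 f72 f70 f82 (by decide +kernel) f105 (by decide +kernel) (ids_of ok k60)
theorem f107 : M.Le I l22 l14 :=
  leD ok _ [89,90] _ (by decide +kernel)
theorem f108 : M.Cj I [82] l22 l14 :=
  cj_of ok k61
theorem f109 : M.OR I l22 [[]] [[71906719574755426]] 360 :=
  or_of ok k62
theorem f110 : M.Le I l23 l22 :=
  leD ok _ [101,102,103] _ (by decide +kernel)
theorem f111 : M.Fix I l23 [[71906719574755426]] :=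
  fix_of ok k63
theorem f112 : M.OR I l23 [[]] [[43202952376767594]] 192 :=
  or_of ok k64
theorem f113 : M.Le I l24 l23 :=
  leD ok _ [104,105,106,107,108] _ (by decide +kernel)
theorem f114 : M.Fix I l24 [[43202952376767594]] :=
  fix_of ok k65
theorem f115 : M.OR I l24 [[]] [[4627701837792238879142191568892147]] 256 :=
  or_of ok k66
theorem f116 : M.LB I l24 256 :=
  (lb_orb (lK := []) f115 (le_sub rfl) (fix_nil _) (lb_one _)).mono (by decide +kernel)
theorem f117 : M.LB I l23 49152 :=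
  (lb_orb (lK := l24) f112 f113 f114 f116).mono (by decide +kernel)
theorem f118 : M.LB I l22 17694720 :=
  (lb_orb (lK := l23) f109 f110 f111 f117).mono (by decide +kernel)
theorem f119 : M.RB I l14 (82,28336) :=
  rb_of f107 f108 f70 f118 (by decide +kernel)
theorem f120 : M.OR I l22 [[],[0],[8],[7,0],[19,4],[6,20,0,4]] [[4]] 15180 :=
  or_of ok k67
theorem f121 : M.RZ I l14 [1,80,81,82,85,86] [82] 1 :=
  rz_of f107 f108 f71 f83 f72 f70 f82 (by decide +kernel) f120 (by decide +kernel) (ids_of ok k68)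
theorem f122 : M.Le I l25 l14 :=
  leD ok _ [87,88] _ (by decide +kernel)
theorem f123 : M.Cj I [81] l25 l14 :=
  cj_of ok k69
theorem f124 : M.OR I l25 [[]] [[57838064842954948]] 384 :=
  or_of ok k70
theorem f125 : M.Le I l26 l25 :=
  leD ok _ [109,110,111] _ (by decide +kernel)
theorem f126 : M.Fix I l26 [[57838064842954948]] :=
  fix_of ok k71
theorem f127 : M.OR I l26 [[]] [[169055006269058539517171643915307]] 384 :=
  or_of ok k72
theorem f128 : M.LB I l26 384 :=
  (lb_orb (lK := []) f127 (le_sub rfl) (fix_nil _) (lb_one _)).mono (by decide +kernel)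
theorem f129 : M.LB I l25 147456 :=
  (lb_orb (lK := l26) f124 f125 f126 f128).mono (by decide +kernel)
theorem f130 : M.RB I l14 (81,3400320) :=
  rb_of f122 f123 f70 f129 (by decide +kernel)
theorem f131 : M.OR I l25 [[],[0],[15],[7,0],[15,0],[18,4],[21,6],[4,12],[10,14],[19,7,0],[20,13,4],[13,21,4],[8,17,6],[17,3,12],[18,3,12],[13,17,13],[13,19,9,12]] [[4]] 15180 :=
  or_of ok k73
theorem f132 : M.RZ I l14 [1,80,81,82,85,86] [81] 1 :=
  rz_of f122 f123 f71 f83 f72 f70 f82 (by decide +kernel) f131 (by decide +kernel) (ids_of ok k74)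
theorem f133 : M.Le I l27 l14 :=
  leD ok _ [83,84] _ (by decide +kernel)
theorem f134 : M.Cj I [80] l27 l14 :=
  cj_of ok k75
theorem f135 : M.OR I l27 [[]] [[81084775926982020]] 120 :=
  or_of ok k76
theorem f136 : M.Le I l28 l27 :=
  leD ok _ [112,113,114,115] _ (by decide +kernel)
theorem f137 : M.Fix I l28 [[81084775926982020]] :=
  fix_of ok k77
theorem f138 : M.OR I l28 [[]] [[2015532324141355843984848726752011]] 128 :=
  or_of ok k78
theorem f139 : M.LB I l28 128 :=
  (lb_orb (lK := []) f138 (le_sub rfl) (fix_nil _) (lb_one _)).mono (by decide +kernel)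
theorem f140 : M.LB I l27 15360 :=
  (lb_orb (lK := l28) f135 f136 f137 f139).mono (by decide +kernel)
theorem f141 : M.RB I l14 (80,32643072) :=
  rb_of f133 f134 f70 f140 (by decide +kernel)
theorem f142 : M.OR I l27 [[],[0],[4],[8],[10],[12],[13],[14],[7,0],[19,0],[24,0],[24,12],[11,14],[21,24],[0,18,0],[12,13,4],[5,17,4],[24,11,13],[20,11,0,4]] [[4]] 15180 :=
  or_of ok k79
theorem f143 : M.RZ I l14 [1,80,81,82,85,86] [80] 1 :=
  rz_of f133 f134 f71 f83 f72 f70 f82 (by decide +kernel) f142 (by decide +kernel) (ids_of ok k80)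
theorem f144 : M.Cj I [1] l15 l14 :=
  cj_of ok k81
theorem f145 : M.RB I l14 (1,15180) :=
  rb_of f71 f144 f70 f82 (by decide +kernel)
theorem f146 : M.OR I l15 [[],[0],[10],[14],[7,0],[14,15,4],[13,7,7,12]] [[4]] 15180 :=
  or_of ok k82
theorem f147 : M.RZ I l14 [1,80,81,82,85,86] [1] 1 :=
  rz_of f71 f144 f71 f83 f72 f70 f82 (by decide +kernel) f146 (by decide +kernel) (ids_of ok k83)
theorem f148 : M.CV I l29 l14 [(1,15180),(80,32643072),(81,3400320),(82,28336),(85,54405120),(86,82575360)] :=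
  cv_of (zs := [1]) (fa f145 (fa f141 (fa f130 (fa f119 (fa f104 (fa f93 fa0)))))) (fa f84 fa0) (fa (fa f147 fa0) (fa (fa f143 fa0) (fa (fa f132 fa0) (fa (fa f121 fa0) (fa (fa f106 fa0) (fa (fa f95 fa0) fa0))))))
theorem f149 : M.UB I l29 86775571046077562880 :=
  (f148.ub f70).mono (by decide +kernel)
theorem f150 : M.OR I l14 [[]] [[4]] 15180 :=
  or_of ok k84
theorem f151 : M.LB I l14 501397585920 :=
  (lb_orb f150 f71 f72 f82).mono (by decide +kernel)
theorem f152 : M.Le I l14 l29 :=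
  le_sub (by decide +kernel)
theorem f153 : M.DV I l14 501397585920 :=
  dv_ex f70 f151
theorem f154 : M.Le I l30 l29 :=
  leD ok _ [117] _ (by decide +kernel)
theorem f155 : M.DV I [117] 29 :=
  dv_ord ok (by norm_num) k85
theorem f156 : M.Le I l31 l29 :=
  leD ok _ [116] _ (by decide +kernel)
theorem f157 : M.DV I [116] 31 :=
  dv_ord ok (by norm_num) k86
theorem f158 : M.Le I l32 l29 :=
  leD ok _ [118] _ (by decide +kernel)
theorem f159 : M.DV I [118] 37 :=
  dv_ord ok (by norm_num) k87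
theorem f160 : M.Le I l33 l29 :=
  leD ok _ [119] _ (by decide +kernel)
theorem f161 : M.DV I [119] 43 :=
  dv_ord ok (by norm_num) k88
theorem f162 : M.UB I l34 1331 :=
  ub_pc ok w89 k89 ub_nil
theorem f163 : M.OR I l34 [[]] [[1944910134121719842189151436881424]] 1331 :=
  or_of ok k90
theorem f164 : M.LB I l34 1331 :=
  (lb_orb (lK := []) f163 (le_sub rfl) (fix_nil _) (lb_one _)).mono (by decide +kernel)
theorem f165 : M.Le I l34 l29 :=
  leD ok _ [80,122,120,86,121] _ (by decide +kernel)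
theorem f166 : M.LB I l29 86775571046077562880 :=
  ((((((f153.le f152).lcm (f155.le f154)).lcm (f157.le f156)).lcm (f159.le f158)).lcm (f161.le f160)).lcm ((dv_ex f162 f164).le f165)).lb.mono (by decide +kernel)
theorem f167 : M.Le I l35 l29 :=
  leD ok _ [116,124,125] _ (by decide +kernel)
theorem f168 : M.Le I l29 l36 :=
  leD ok _ [3,4,5,6,7,8,9,10,11,12,13,14,15,16,17,18,19,20,21,22,23,24] _ (by decide +kernel)
theorem f169 : M.CO I l29 l14 [] :=
  co_base ok k92

end

end Pool.Agent.Lib.MP_cad414_al.Cg.J4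

namespace Pool.Agent.Lib.MP_cad414_al.Cg

open Mdl J4

theorem spor_J4 : Spor 86775571046077562880 :=
  spor ok f148 f70 f166 f169 (le_sub rfl) (cj_nil _) ub_nil (lb_one _) (by norm_num) f167 k91 f168 (by decide +kernel)

end Pool.Agent.Lib.MP_cad414_al.Cg
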