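import Pool.Agent.Lib.MP_cad414_al.Cg.LyA

/-! Generation by three conjugate involutions. -/

namespace Pool.Agent.Lib.MP_cad414_al.Cg.Ly

open Mdl

noncomputable section

attribute [local instance] gact mact

def JF : List Ins := WD [0x3602807, 0x90e804, 60474, 0x3c0f03c, 62525, 0x280f828, 0x1c0f80c, 63552, 63551, 66623, 68672, 67649, 67650, 69697, 70723, 67648, 0xfc451044710446, 0x401103f110481103e, 0x1243f10c49118471143e, 75852, 76876, 76875, 79948, 75851, 78924, 80973, 78922, 78923, 79947, 84044, 75855, 77900, 77913, 82010, 83023, 82000, 78941]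

theorem okF : M.Ok (I ++ JF) :=
  ok_def okI (by decide +kernel)

def wT : List ℕ := List.range' 61 33

theorem fa1 : M.Ck (I ++ JF) (an (chkLe (List.range 6) wT (WS [0x14c4f15c561345115454, 0x128531345213c4e160561444a, 0x5b14c5b14854, 0x4c1784b1705013c51, 0x1785312c571484a, 0x14055140581404a1385c]))
    (an (chkLe [6] (wH ++ wT) (WS [0x64140d81e05c1203c480741a0281008c360440e]))
    (chkFin [] 11 57 3 58 61 39 11 62 63 (W 0xec3a0ec3a0ec3a0ec3a0ec3a0ec3a) []))) :=
  ck_go (by decide +kernel)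

theorem lT : M.Le (I ++ JF) wT ([61, 62, 63] ++ []) :=
  leD okF _ (List.range' 64 30) _ (by decide +kernel)

theorem lW : M.Le (I ++ JF) wH ([61, 62, 63] ++ []) :=
  ((leD okF _ (List.range' 7 47) _ (by decide +kernel)).trans (le_of okF fa1.l)).trans lT

theorem gen : M.Le (I ++ JF) lG ([61, 62, 63] ++ []) :=
  ((le_of okF fa1.r.l).trans (lW.app lT)).app ((le_sub (by decide +kernel)).trans lW)

theorem hin : M.Le (I ++ JF) [57, 3, 39, 11] lG :=
  leD okF _ (List.range' 7 51) _ (by decide +kernel)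

theorem fin : M.Ck (I ++ JF) (chkFin [] 11 57 3 58 61 39 11 62 63 (W 0xec3a0ec3a0ec3a0ec3a0ec3a0ec3a) []) :=
  fa1.r.r

end

end Pool.Agent.Lib.MP_cad414_al.Cg.Ly
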