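import Pool.Agent.Lib.MP_cad414_al.Cg.LyR1
import Pool.Agent.Lib.MP_cad414_al.Cg.LyR2
import Pool.Agent.Lib.MP_cad414_al.Cg.LyR3
import Pool.Agent.Lib.MP_cad414_al.Cg.LyR4
import Pool.Agent.Lib.MP_cad414_al.Cg.LyS
import Pool.Agent.Lib.MP_cad414_al.Cg.LyF

/-! A simple group of order `51765179004000000`. -/

namespace Pool.Agent.Lib.MP_cad414_al.Cg.Ly

open Mdl

noncomputable section

attribute [local instance] gact mact

theorem cv : M.CV I lG lH rows :=
  cv_of (fa rb1 (fa rb2 (fa rb3 (fa rb4 fa0)))) (fa rz0 fa0)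
    (fa (fa rz1 fa0) (fa (fa rz2 fa0) (fa (fa rz3 fa0) (fa (fa rz4 fa0) fa0))))

theorem lbG : M.LB I lG (5859000000 * (1 + (rows.map Prod.snd).sum)) :=
  (((dv_ex ubH lbH).le (le_sub (by decide +kernel))).lcm dvS).lb.mono (by decide +kernel)

theorem coH : M.CO I lG lH [] :=
  co_row cv ubH lbG (i := 6) (m := 19530) List.mem_cons_self (le_sub (by decide +kernel)) lKH cjK lbK (by decide) coK

theorem main : Spor 51765179004000000 :=
  spor okF ((cv_app JF (by decide +kernel) (by decide +kernel) (by decide +kernel)).2 cv) ((ub_app JF (by decide +kernel)).2 ubH)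
    ((lb_app JF (by decide +kernel)).2 lbG) ((co_app JF (by decide +kernel) (by decide +kernel) (by decide +kernel)).2 coH) (le_sub (by decide +kernel)) (cj_nil _) ub_nil
    (lb_one _) (r := 11) (by norm_num) hin fin gen (by decide +kernel)

end

end Pool.Agent.Lib.MP_cad414_al.Cg.Ly

theorem Pool.Agent.Lib.MP_cad414_al.Cg.spor_Ly :
    Pool.Agent.Lib.MP_cad414_al.Cg.Spor 51765179004000000 :=
  Pool.Agent.Lib.MP_cad414_al.Cg.Ly.main
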