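import Pool.Agent.Lib.MP_cad414_al.Cg.Cd

/-! Covers in two levels, upper bounds from orbits, and orbits computed in a block. -/

namespace Pool.Agent.Lib.MP_cad414_al.Cg

open Subgroup Matrix

noncomputable section

attribute [local instance] mact gact

namespace Mdl

variable {Γ X : Type} [Group Γ] [MulAction Γ X] {M : Mdl Γ X} {I : List Ins}

theorem Cj.mono {a l l' l'' : List ℕ} (h : M.Cj I a l l') (h' : M.Le I l' l'') :
    M.Cj I a l l'' := fun s hs => h' (h s hs)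

theorem Ci.mono {a l l' l'' : List ℕ} (h : M.Ci I a l l') (h' : M.Le I l' l'') :
    M.Ci I a l l'' := fun s hs => h' (h s hs)

theorem Ids.mono {l l' reps a : List ℕ} {z : ℕ} {rs : List (List ℕ)}
    (h : M.Ids I l reps a z rs) (h' : M.Le I l l') : M.Ids I l' reps a z rs := fun w hw => by
  obtain ⟨r, hr, a, ha, b, hb, e⟩ := h w hw
  exact ⟨r, hr, a, h' ha, b, h' hb, e⟩

/-- The products of `lS` and the roots lie in `lH`. -/
def In (M : Mdl Γ X) (I : List Ins) (lS : List ℕ) (rs : List (List ℕ)) (lH : List ℕ) : Prop :=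
  ∀ a ∈ M.st I lS rs, a ∈ M.cl I lH

theorem in_of {lS lW lH : List ℕ} {rs : List (List ℕ)} (h : M.Le I lS lH) (h' : M.Le I lW lH)
    (e : (al rs fun w => sub w lW) = true) : M.In I lS rs lH := by
  rintro _ ⟨s, hs, _, ⟨w, hw, rfl⟩, rfl⟩
  exact mul_mem (h hs) (h' (wd_mem (sub_of (al_iff.1 e w hw))))

/-- `lH` is covered by `lS`, the roots and `lK`. -/
def Cr (M : Mdl Γ X) (I : List Ins) (lH lS : List ℕ) (rs : List (List ℕ)) (lK : List ℕ) : Prop :=
  ∀ x ∈ M.cl I lH, ∃ a ∈ M.st I lS rs, a⁻¹ * x ∈ M.cl I lK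

def two (rs ps : List (List ℕ)) : List (List ℕ) := rs.flatMap fun r => ps.map (r ++ ·)

theorem Cr.two {lH lS lP lK : List ℕ} {rs ps : List (List ℕ)} (h : M.Cr I lH lS rs lP)
    (h' : M.Cr I lP [] ps lK) : M.Cr I lH lS (two rs ps) lK := fun x hx => by
  obtain ⟨_, ⟨s, hs, _, ⟨r, hr, rfl⟩, rfl⟩, e⟩ := h x hx
  obtain ⟨_, ⟨s', hs', _, ⟨q, hq, rfl⟩, rfl⟩, e'⟩ := h' _ e
  rw [cl_nil, mem_bot] at hs'
  refine ⟨_, ⟨s, hs, _, ⟨r ++ q, List.mem_flatMap.2 ⟨r, hr, List.mem_map_of_mem hq⟩, rfl⟩, rfl⟩, ?_⟩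
  rw [hs', one_mul, ← mul_assoc, ← _root_.mul_inv_rev, mul_assoc] at e'
  rwa [wd_app]

theorem cr_app (J : List Ins) {lH lK : List ℕ} {ps : List (List ℕ)} (e : lt lH I.length = true)
    (e' : lt lK I.length = true) (e'' : (al ps fun w => lt w I.length) = true)
    (h : M.Cr I lH [] ps lK) : M.Cr (I ++ J) lH [] ps lK := fun x hx => by
  rw [cl_app J e] at hx
  obtain ⟨_, ⟨s, hs, _, ⟨r, hr, rfl⟩, rfl⟩, h1⟩ := h x hx
  rw [cl_nil, mem_bot] at hs
  refine ⟨_, ⟨1, one_mem _, _, ⟨r, hr, rfl⟩, rfl⟩, ?_⟩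
  rwa [cl_app J e', wd_app' J (al_iff.1 e'' r hr), ← hs]

theorem rz_cr {lH lK lS reps a : List ℕ} {rs : List (List ℕ)} {z : ℕ} (hc : M.Cj I a lS lH)
    (hz : M.Ci I [z] lK lH) (hr : M.Cr I lH lS rs lK) (hi : M.Ids I lH reps a z rs) :
    M.RZ I lH reps a z :=
  rowZ_of _ (M.cl I lK) (M.cl I lS) _ _ _ (M.wd I '' {w | w ∈ rs}) hc (by simpa [Ci] using hz) hr
    (by rintro _ ⟨w, hw, rfl⟩; exact hi w hw)

variable [Finite Γ]

theorem lb_in {lH lK lS : List ℕ} {rs o : List (List ℕ)} {m b : ℕ} (ho : M.OR I lS rs o m)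
    (hA : M.In I lS rs lH) (hK : M.Le I lK lH) (hf : M.Fix I lK o) (hb : M.LB I lK b) :
    M.LB I lH (m * b) :=
  le_trans (Nat.mul_le_mul_left _ hb) (Orb.low ho hA hK hf)

theorem cr_of {lH lK lS : List ℕ} {rs o : List (List ℕ)} {m B b : ℕ} (ho : M.OR I lS rs o m)
    (hA : M.In I lS rs lH) (hK : M.Le I lK lH) (hf : M.Fix I lK o) (hB : M.UB I lH B)
    (hb : M.LB I lK b) (e : Nat.ble B (m * b) = true) : M.Cr I lH lS rs lK :=
  Orb.cov ho hA hK hf (le_trans hB ((Nat.le_of_ble_eq_true e).trans (Nat.mul_le_mul_left _ hb)))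

theorem ub_orb {lH lK lS : List ℕ} {rs o : List (List ℕ)} {m B b : ℕ} (ho : M.OR I lS rs o m)
    (hA : M.In I lS rs lH) (hK : M.Le I lK lH) (hf : M.Fix I lK o) (hB : M.UB I lH B)
    (e : Nat.blt B (m * (b + 1)) = true) : M.UB I lK b :=
  Nat.lt_succ_iff.1 (Nat.lt_of_mul_lt_mul_left
    (((Orb.low ho hA hK hf).trans hB).trans_lt (by simpa using e)))

theorem or_tr {Γ' X' : Type} [Group Γ'] [MulAction Γ' X'] {M' : Mdl Γ' X'} {I' : List Ins}
    (ι : X' → X) (hι : Function.Injective ι) {lB lS : List ℕ} {rs o : List (List ℕ)} {m : ℕ}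
    (hr : ∀ i ∈ lB, ∀ v, M.g I i • ι v = ι (M'.g I' i • v)) (hS : sub lS lB = true)
    (er : (al rs fun w => sub w lB) = true)
    (ho : M.ob o = (M'.ob o).map (Multiset.map ι)) (h : M'.OR I' lS rs o m) :
    M.OR I lS rs o m := by
  have c1 : ∀ s' ∈ M'.cl I' lS, ∃ s ∈ M.cl I lS, ∀ v, s • ι v = ι (s' • v) := by
    intro s' hs'
    induction hs' using closure_induction with
    | mem s hs =>
      obtain ⟨i, hi, rfl⟩ := hs
      exact ⟨_, g_mem hi, hr i (sub_of hS i hi)⟩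
    | one => exact ⟨1, one_mem _, by simp⟩
    | mul x y _ _ hx hy =>
      obtain ⟨a, ha, e⟩ := hx
      obtain ⟨b, hb, e'⟩ := hy
      exact ⟨a * b, mul_mem ha hb, fun v => by rw [mul_smul, mul_smul, e', e]⟩
    | inv x _ hx =>
      obtain ⟨a, ha, e⟩ := hx
      exact ⟨a⁻¹, inv_mem ha, fun v => by rw [inv_smul_eq_iff, e, smul_inv_smul]⟩
  have c2 : ∀ w : List ℕ, (∀ i ∈ w, i ∈ lB) → ∀ v, M.wd I w • ι v = ι (M'.wd I' w • v) := by
    intro w hw
    induction w with
    | nil => simp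
    | cons i w ih =>
      intro v
      rw [wd_cons, wd_cons, mul_smul, mul_smul, ih fun j hj => hw j (List.mem_cons_of_mem _ hj),
        hr i (hw i List.mem_cons_self)]
  refine le_trans h (Set.ncard_le_ncard_of_injOn (Multiset.map (Multiset.map ι)) ?_
    (Multiset.map_injective (Multiset.map_injective hι)).injOn ((Set.toFinite _).image _))
  rintro _ ⟨_, ⟨s', hs', _, ⟨w, hw, rfl⟩, rfl⟩, rfl⟩
  obtain ⟨s, hs, e⟩ := c1 s' hs'
  refine ⟨_, ⟨s, hs, _, ⟨w, hw, rfl⟩, rfl⟩, ?_⟩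
  show Multiset.map (fun t : Multiset X => t.map _) _ =
    Multiset.map _ (Multiset.map (fun t : Multiset X' => t.map _) _)
  rw [ho, Multiset.map_map, Multiset.map_map]
  refine Multiset.map_congr rfl fun t _ => ?_
  simp only [Function.comp, Multiset.map_map]
  refine Multiset.map_congr rfl fun v _ => ?_
  simp only [mul_smul, c2 w (sub_of (al_iff.1 er w hw)), e]

end Mdl

/-- The entries `lB` act on the base of `M'` as the entries of the table `I'` do. -/
def chkRel {Γ' X' : Type} [Group Γ'] [MulAction Γ' X'] (M' : Mdl Γ' X') (I' : List Ins)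
    (lB : List ℕ) (E : Env) (T : List ℕ) : Bool :=
  M'.go I' fun E' T' => al lB fun i => frc (get E.one T i) fun a => frc (get E'.one T' i) fun a' =>
    al E'.base fun b => Nat.beq (E.ap a b) (E'.ap a' b)

/-- Extension by zero. -/
def emb (p m n : ℕ) : (Fin m → ZMod p) →ₗ[ZMod p] Fin n → ZMod p where
  toFun v i := if h : (i : ℕ) < m then v ⟨i, h⟩ else 0
  map_add' v w := by ext i; by_cases h : (i : ℕ) < m <;> simp [h]
  map_smul' c v := by ext i; by_cases h : (i : ℕ) < m <;> simp [h]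

theorem enc_emb {p m n : ℕ} (P : Par p n) (P' : Par p m) (hw : P.w = P'.w) (h : m ≤ n)
    (v : Fin m → ZMod p) : enc P (emb p m n v) = enc P' v := by
  obtain ⟨d, rfl⟩ := Nat.exists_eq_add_of_le h
  rw [enc, enc, pk_split, hw, pk_congr (d := fun _ => 0) (T := d) fun u hu => by simp [emb]]
  simp only [pk, zero_mul, Finset.sum_const_zero, add_zero]
  refine Finset.sum_congr rfl fun u hu => ?_
  have := Finset.mem_range.1 hu
  simp [emb, this, show u < m + d by omega]

theorem or_blk {p n n' w t m s l l' : ℕ} [NeZero p] {ok : okb p n w t m s = true}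
    {ok' : okb p n' w t m s = true} (hn : n' ≤ n) {I I' : List Ins}
    (h : (glM p n w t m s l ok).Ok I) (h' : (glM p n' w t m s l' ok').Ok I')
    {lB lS ops : List ℕ} {rs o : List (List ℕ)} {H : Hsh} {a c k : ℕ}
    (e : (glM p n w t m s l ok).Ck I (chkRel (glM p n' w t m s l' ok') I' lB))
    (hS : sub lS lB = true) (er : (al rs fun w => sub w lB) = true)
    (ho : (glM p n' w t m s l' ok').Ck I' (chkOr lS rs o H a c ops k)) :
    (glM p n w t m s l ok).OR I lS rs o k := by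
  set M := glM p n w t m s l ok
  set M' := glM p n' w t m s l' ok'
  have hen : ∀ v, M.en (emb p n' n v) = M'.en v := enc_emb _ _ rfl hn
  refine Mdl.or_tr (emb p n' n) (fun a b e => Mdl.en_inj (M := M') (by rw [← hen, e, hen]))
    (fun i hi => ?_) hS er ?_ (Mdl.or1 h' ho)
  · have e1 := al_iff.1 ((M'.go_eq _ _).symm.trans e) i hi
    rw [frc_eq, frc_eq, al_iff] at e1
    have : (M.g I i).1.mulVecLin ∘ₗ emb p n' n = emb p n' n ∘ₗ (M'.g I' i).1.mulVecLin := by
      refine (Pi.basisFun _ _).ext fun j => ?_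
      have e2 := Nat.eq_of_beq_eq_true (e1 _ (List.mem_map_of_mem (List.mem_range.2 j.2)))
      have e3 : bas (mkPar p n' w t m s) j = M'.en (Pi.single j 1) := bas_eq (ok_of ok') j
      rw [e3, M'.ap (h'.R i), ← hen, M.ap (h.R i), ← hen] at e2
      rw [Pi.basisFun_apply]
      exact Mdl.en_inj e2
    exact fun v => LinearMap.congr_fun this v
  · have hv := Mdl.vs_of (M := M') (bn_iff.1 ho).1
    simp only [Mdl.ob, Multiset.map_coe, List.map_map]
    congr 1
    refine List.map_congr_left fun q hq => ?_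
    simp only [Function.comp, Multiset.map_coe, List.map_map]
    congr 1
    refine List.map_congr_left fun c hc => ?_
    obtain ⟨v, rfl⟩ := hv q hq c hc
    rw [Function.comp, M'.de_en, ← hen, M.de_en]

end

end Pool.Agent.Lib.MP_cad414_al.Cg
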