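import Pool.Agent.Lib.MP_cad414_al.Cg.LyA

/-! Identities for the double coset number 3. -/

namespace Pool.Agent.Lib.MP_cad414_al.Cg.Ly

open Mdl

noncomputable section

attribute [local instance] gact mact

def J3 : List Ins := WD [0x1c0d81a, 51201, 50178, 55309, 26648, 35888, 4098, 47105, 61441, 60427, 60445, 2079, 60485, 26647, 22545, 29723, 28683, 22546, 29724, 55326, 55327, 10257, 29708, 11274, 20499, 36912, 55323, 22530, 21521, 24598, 11284, 72725, 25610, 2049, 12313, 53279, 62476, 19472, 49164, 22569, 11339, 55308, 89103, 77924, 54303, 25621, 13340, 30782, 14375, 18447, 18433, 79892, 2062, 27659, 30748, 24597, 63567, 20497, 13338, 55376, 35957, 2063, 16390, 5216, 20482, 49179, 55377, 19470, 24586, 25618, 55369, 53275]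

def s3 : List ℕ := [21, 5, 57]

def w3 : List ℕ := wH ++ List.range' 57 72

def b3 : List ℕ := [3, 5, 21, 57, 59, 63, 64, 65, 66, 67, 69]

theorem ok3 : M.Ok (I ++ J3) :=
  ok_def okI (by decide +kernel)

theorem ok3s : N.Ok (I7 ++ J3) :=
  ok_def okN (by decide +kernel)

def r3a : List (List ℕ) := (WS [0, 4, 64, 65, 60, 66])

def r3b : List (List ℕ) := (WS [67, 68, 70])

def r3 : List (List ℕ) := r3a ++ r3b

theorem c3b : M.Ck (I ++ J3) (chkIds w3 (rows.map Prod.fst) [55] 6 (two r3b ps)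
    (WI [0x4a16c2c18c6e, 56, 0x341b160241507e, 0x70481746f, 54, 0x7f1a83d0705f, 0x490440e0d470, 56, 0x4b0a03d12c01, 0x781a1b86607071, 54, 0x1a40a0ac8006477, 0x500a85e13c0f, 56, 0x700480e0883412457, 0x1d0045d12814, 55, 0x1e188100844e030181e810, 0x68510d41702813, 55, 0x78471480f0d01e05801, 0xd1c8340340f, 54, 0x1f0707f04081, 0x1d0191cc3207c0e, 54, 0xd1706c0cc11, 0x74191541017417, 55, 0x1f06c0a004262006b, 0x785c1483507459, 56, 0x128612045a, 0x148011d811, 56, 0x1f1c80e0984e06c7d, 0x1a13c010d01a, 56, 0x5005c0515048, 0x17c321280f, 56, 0x347e0ac3d0f80a00810, 0x581dc5e0440f, 55, 0xc0580e0f41912001])) :=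
  ck_go (by decide +kernel)

end

end Pool.Agent.Lib.MP_cad414_al.Cg.Ly
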