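import Pool.Agent.Lib.MP_cad414_al.Cg.LyA

/-! Identities for the double coset number 4. -/

namespace Pool.Agent.Lib.MP_cad414_al.Cg.Ly

open Mdl

noncomputable section

attribute [local instance] gact mact

def J4 : List Ins := WD [0x42900c10, 0x6c180542c0d81f0641504c10, 50178, 25610, 24596, 55309, 23574, 23573, 55327, 17424, 54285, 30748, 25620, 55325, 4098, 50186, 50189, 50205, 61460, 61466, 61467, 28683, 19470, 17422, 2062, 52253, 30732, 29723, 24586, 20498, 31771, 24597, 13339, 2063, 18446, 2049, 11285, 24598, 18447, 43011, 26635, 66579, 31756, 18433, 53278, 2064, 25622, 55324, 12309, 19457, 19472, 30747, 31772, 13324, 16438, 3073, 0x18816, 70755, 11280, 80983, 27658, 26648, 55365, 20561, 71762, 65554, 23572, 26646, 39990, 17423, 64540, 26694, 24577, 43071, 11274, 64524, 26634, 17460, 35894, 43062, 50206, 0x1a43d, 42038, 23562, 28739]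

def s4 : List ℕ := [57, 58]

def w4 : List ℕ := wH ++ List.range' 57 85

def b4 : List ℕ := [3, 57, 58, 67, 71, 72, 73, 74, 75, 76, 77]

theorem ok4 : M.Ok (I ++ J4) :=
  ok_def okI (by decide +kernel)

theorem ok4s : N.Ok (I7 ++ J4) :=
  ok_def okN (by decide +kernel)

def r4a : List (List ℕ) := (WS [0, 4, 72, 73])

def r4b : List (List ℕ) := (WS [74, 75, 68])

def r4c : List (List ℕ) := (WS [76, 77, 78])

def r4 : List (List ℕ) := r4a ++ r4b ++ r4c

theorem c4b : M.Ck (I ++ J4) (chkIds w4 (rows.map Prod.fst) [56] 6 (two r4b ps)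
    (WI [0x581e8231081b04c0f, 56, 0x6e060131980e, 0x7b0a05310402, 56, 0x1680f0148b, 0x168411403416401, 55, 0x741a008880f46c, 0x1605916c341f001, 55, 0x6d0088c2105d, 0x1ec530f813, 56, 0x1f0680e0948b, 0x1d0f8420683d, 56, 0x1505e0487006c59, 0x45170361d852, 55, 0x6e0943f0681905450, 0x741719817, 56, 0x6e2345209053, 0x1d0602219818, 56, 0x6f1005b0a853, 0x5810c7e1f450, 55, 0x1bc8517c60, 0x1a1a0670d40c05c13, 55, 0x17c8c05c60, 0x341c148061a402, 56, 0x238341a80f, 0xc1e8262007f, 56, 0x347d0ac53, 0x1e038320740c, 56, 0x1e1c867094361b45c, 0x343e1707815c01, 55, 0x74560ac3602c67])) :=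
  ck_go (by decide +kernel)

end

end Pool.Agent.Lib.MP_cad414_al.Cg.Ly
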