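import Pool.Agent.Lib.MP_cad414_al.Cg.LyR4a

/-! More identities for the double coset number 4. -/

namespace Pool.Agent.Lib.MP_cad414_al.Cg.Ly

open Mdl

noncomputable section

attribute [local instance] gact mact

theorem c4c : M.Ck (I ++ J4) (chkIds w4 (rows.map Prod.fst) [56] 6 (two r4c ps)
    (WI [0x48351a802, 54, 0x943406810, 0x1902c0d81e2045d, 55, 0x1f1d4100d074, 0x1707e0f80e, 56, 0x705d1081c05c0f, 0x5a05c500903617811, 54, 0xc1003507011, 0x5f1085f04401, 56, 0x345608c4713c79, 0x74141ac2820016, 56, 0xf8361a05d, 0x541a00e20c82, 56, 0x410a4420300a, 0x1b1802421484, 56, 0x5e144360f45b, 0x34861442011c0c16443, 56, 0x8716816, 0x5c5111c1b18c0f, 56, 0x703d0a83219019, 0xb21c40, 56, 0xa03c2c11c1a05c65, 0x1547c09c472040f, 56, 0x6f0f41020c1a, 0x1b02b0fc1b05c57, 56, 0x6a194362185b, 0x4f028602200a, 56, 0x552346b1103d, 0x1c0607f0d0451180f, 56, 0x6c251088e])) :=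
  ck_go (by decide +kernel)

end

end Pool.Agent.Lib.MP_cad414_al.Cg.Ly
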