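import Pool.Agent.Lib.MP_cad414_al.Cg.Gl

/-! Certificate for the sporadic group M11. -/

namespace Pool.Agent.Lib.MP_cad414_al.Cg

namespace M11

open Mdl

attribute [local instance] gact

noncomputable section

def M := glM 2 10 4 1 1 1 7 (by decide)

def I : List Ins := [(0x10028044090300211400c090220, 2, []),
  (0x480110600400c05002804888210, 2, []),
  (0x60280120200c00a11012084208, 1, []),
  (0x12022140084100600600a090220, 3, []),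
  (0x20100400082008001000480200, 3, []),
  (0x8100100100110010010010200, 1, []),
  (0x4108110822048280300200600a0, 1, [])]

theorem kI : M.Ok I := Mdl.ok_of (by decide +kernel)

theorem c1 : M.Ck I (chkPcs [] [(0, 3, [], []), (1, 3, [[0]], []), (2, 2, [[1, 1], [0, 0]], []), (3, 2, [[2, 0, 0], [0], [1, 1]], [2, 1, 1, 0]), (4, 2, [[3, 2, 0, 0], [2, 1, 1, 0], [1, 1, 0, 0], [1, 1, 0]], [2, 1])]) :=
  ck_go (by decide +kernel)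

theorem u2 : M.UB I [4, 3, 2, 1, 0] 72 :=
  ((ub_pc kI _ c1 ub_nil).le (le_sub (by decide +kernel))).mono (by decide +kernel)

def T1a : List Ins := [(0, 0, [2, 3, 2]),
  (0, 0, [4, 3, 1, 0])]

def T1 : List Ins := I ++ T1a

theorem kT1 : M.Ok T1 := kI.app (Mdl.ok_of (by decide +kernel))

theorem c3 : M.Ck T1 (chkOrb [7, 8] [[]] [[256]]
  ⟨0xafc2f0d5d7, 5, 69, 3, 4164, 8⟩ 3 7
  [182427] (Nat.pred (Nat.pow 2 8))) :=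
  ck_go (by decide +kernel)

theorem b2 : M.LB T1 [7, 8] 8 :=
  (lb_orb (or_of kT1 c3) (le_sub rfl) (fix_nil _) (lb_one _)).mono rfl

theorem c4 : M.Ck T1 (an (an (chkCi [5] [7, 8] [4, 3, 2, 1, 0] [[4, 3, 2, 0], [3, 2, 1, 1, 0, 0]])
  (an (chkFix [7, 8] [[65536]])
  (chkIds [4, 3, 2, 1, 0] [5] [] 5 [[]] [([], 5, [])])))
  (an (chkCj [5] [7, 8] [4, 3, 2, 1, 0] [[4, 3, 2, 0], [3, 2, 1, 1, 0, 0]])
  (an (chkOrb [7, 8] [[], [4]] [[65536]]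
  ⟨0xc9bf637293, 3, 83, 4, 1552, 9⟩ 3 8
  [0x1644d8] (Nat.pred (Nat.pow 2 9)))
  (chkIds [4, 3, 2, 1, 0] [5] [5] 5 [[], [4]]
  [([], 9, []), ([4, 3, 2], 5, [3])])))) :=
  ck_go (by decide +kernel)

theorem v1 : M.UB T1 [4, 3, 2, 1, 0] 72 := (ub_app T1a (by decide +kernel)).2 u2

theorem s10 : M.Le T1 [7, 8] [4, 3, 2, 1, 0] := leD kT1 _ [7, 8] _ (by decide +kernel)

theorem d1 : M.CV T1 [5, 4, 3, 2, 1, 0] [4, 3, 2, 1, 0] [(5, 9)] :=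
  cv_of (zs := [5]) (fa (rb_of s10 (cj_of kT1 c4.r.l) v1 b2 rfl) fa0)
  (fa (rz_one (ids_of kT1 c4.l.r.r)) fa0)
  (fa (fa (rz_of s10 (cj_of kT1 c4.r.l) s10 (ci_of kT1 c4.l.l) (fix_of kT1 c4.l.r.l) v1 b2 rfl
    (or_of kT1 c4.r.r.l) rfl (ids_of kT1 c4.r.r.r)) fa0)
  fa0)

theorem u1 : M.UB I [5, 4, 3, 2, 1, 0] 720 :=
  (ub_app T1a (by decide +kernel)).1 ((d1.ub v1).mono rfl)

def T0a : List Ins := [(0, 0, [5, 3, 0, 1, 5]),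
  (0, 0, [4, 4, 5, 3, 1]),
  (0, 0, [3, 0, 6, 0, 2, 0, 3]),
  (0, 0, [6, 9, 6]),
  (0, 0, [9, 10, 9, 10]),
  (0, 0, [5, 11, 5]),
  (0, 0, [6, 11, 6])]

def T0 : List Ins := I ++ T0a

theorem kT0 : M.Ok T0 := kI.app (Mdl.ok_of (by decide +kernel))

def B5a : List Ins := [(0, 0, [8, 8, 8, 7, 8]),
  (0, 0, [7, 7, 7, 7, 7, 7, 8, 7])]

def B5 : List Ins := T0 ++ B5a

theorem kB5 : M.Ok B5 := kT0.app (Mdl.ok_of (by decide +kernel))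

theorem c6 : M.Ck B5 (an (chkOrb [7, 8] [[]] [[16]]
  ⟨0xa393ecc871, 4, 127, 4, 13856, 9⟩ 3 8
  [0x8ad88b] (Nat.pred (Nat.pow 2 9)))
  (an (chkFix [14, 15] [[16]])
  (chkOrb [14, 15] [[]] [[256]]
  ⟨0x8e5216fc67, 4, 85, 3, 264, 8⟩ 3 7
  [182427] (Nat.pred (Nat.pow 2 8))))) :=
  ck_go (by decide +kernel)

theorem b5 : M.LB T0 [7, 8] 72 :=
  (lb_app B5a (by decide +kernel)).1 ((lb_orb (or_of kB5 c6.l) (leD kB5 _ [14, 15] _ (by decide +kernel)) (fix_of kB5 c6.r.l)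
  (lb_orb (or_of kB5 c6.r.r) (le_sub rfl) (fix_nil _) (lb_one _))).mono rfl)

theorem c7 : M.Ck T0 (an (an (an (chkCi [6] [7, 8] [5, 4, 3, 2, 1, 0] [[1, 2, 5, 2, 1, 1, 0, 0], [1, 2, 5, 4, 3, 2, 1]])
  (chkFix [7, 8] [[65536]]))
  (an (chkIds [5, 4, 3, 2, 1, 0] [6] [] 6 [[]] [([], 6, [])])
  (chkCj [6] [7, 8] [5, 4, 3, 2, 1, 0] [[1, 2, 5, 2, 1, 1, 0, 0], [1, 2, 5, 4, 3, 2, 1]])))
  (an (an (chkOrb [7, 8] [[], [5]] [[65536]]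
  ⟨0x97b49f3da1, 4, 81, 4, 20484, 10⟩ 3 9
  [0x456c458] (Nat.pred (Nat.pow 2 10)))
  (chkIds [5, 4, 3, 2, 1, 0] [6] [6] 6 [[], [5]]
  [([], 14, []), ([4, 4, 5, 2, 1, 1, 0], 6, [3])]))
  (an (chkBase [6, 5, 4, 3, 2, 1, 0] [5, 4, 3, 2, 1, 0] 1 14 [[], [5, 6], [6, 3, 6], [6, 5, 6], [6], [3, 3, 6], [5, 4, 6], [4, 6], [2, 6], [4, 4, 6]])
  (chkFin [] 11 9 6 10 11 5 6 12 13 [9, 10, 9, 10] [])))) :=
  ck_go (by decide +kernel)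

theorem v0 : M.UB T0 [5, 4, 3, 2, 1, 0] 720 := (ub_app T0a (by decide +kernel)).2 u1

theorem s00 : M.Le T0 [7, 8] [5, 4, 3, 2, 1, 0] := leD kT0 _ [7, 8] _ (by decide +kernel)

theorem d0 : M.CV T0 [6, 5, 4, 3, 2, 1, 0] [5, 4, 3, 2, 1, 0] [(6, 10)] :=
  cv_of (zs := [6]) (fa (rb_of s00 (cj_of kT0 c7.l.r.r) v0 b5 rfl) fa0)
  (fa (rz_one (ids_of kT0 c7.l.r.l)) fa0)
  (fa (fa (rz_of s00 (cj_of kT0 c7.l.r.r) s00 (ci_of kT0 c7.l.l.l) (fix_of kT0 c7.l.l.r) v0 b5 rfl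
    (or_of kT0 c7.r.l.l) rfl (ids_of kT0 c7.r.l.r)) fa0)
  fa0)

def B8a : List Ins := [(0, 0, [13, 12, 11, 11, 13, 11, 11]),
  (0, 0, [11, 13, 11, 12, 11, 13, 12, 13, 11, 12, 12]),
  (0, 0, [15, 15, 15, 14, 15, 14]),
  (0, 0, [14, 15, 15, 14, 15, 14, 15, 15, 14]),
  (0, 0, [17, 16, 16, 17, 17, 16, 17, 17, 17, 17]),
  (0, 0, [16, 16, 16, 17, 16, 17, 17, 16, 16])]

def B8 : List Ins := T0 ++ B8a

theorem kB8 : M.Ok B8 := kT0.app (Mdl.ok_of (by decide +kernel))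

theorem c9 : M.Ck B8 (an (an (chkOrb [11, 12, 13] [[]] [[1]]
  ⟨0xd44ab0027d, 3, 95, 4, 518, 11⟩ 4 10
  [0x8688354393] (Nat.pred (Nat.pow 2 11)))
  (an (chkFix [14, 15] [[1]])
  (chkOrb [14, 15] [[]] [[16]]
  ⟨0x821d57b857, 4, 109, 4, 38144, 10⟩ 3 9
  [0xaac56b] (Nat.pred (Nat.pow 2 10)))))
  (an (an (chkFix [16, 17] [[16]])
  (chkOrb [16, 17] [[]] [[256]]
  ⟨0x886fc65995, 3, 73, 4, 1537, 9⟩ 3 8
  [0x86c56b] (Nat.pred (Nat.pow 2 9))))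
  (an (chkFix [18, 19] [[256]])
  (chkOrb [18, 19] [[]] [[4096]]
  ⟨0xb901146cb3, 5, 97, 3, 128, 8⟩ 3 7
  [182427] (Nat.pred (Nat.pow 2 8)))))) :=
  ck_go (by decide +kernel)

theorem b8 : M.LB T0 [11, 12, 13] 7920 :=
  (lb_app B8a (by decide +kernel)).1 ((lb_orb (or_of kB8 c9.l.l) (leD kB8 _ [14, 15] _ (by decide +kernel)) (fix_of kB8 c9.l.r.l)
  (lb_orb (or_of kB8 c9.l.r.r) (leD kB8 _ [16, 17] _ (by decide +kernel)) (fix_of kB8 c9.r.l.l)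
  (lb_orb (or_of kB8 c9.r.l.r) (leD kB8 _ [18, 19] _ (by decide +kernel)) (fix_of kB8 c9.r.r.l)
  (lb_orb (or_of kB8 c9.r.r.r) (le_sub rfl) (fix_nil _) (lb_one _))))).mono rfl)

theorem e1 : M.Le T0 [11, 12, 13] [6, 5, 4, 3, 2, 1, 0] := leD kT0 _ [9, 10, 11, 12, 13] _ (by decide +kernel)

theorem fin : Spor 7920 :=
  spor kT0 d0 v0 ((b8.le e1).mono rfl) (co_base kT0 c7.r.r.l) (le_sub rfl) (cj_nil _) ub_nil (lb_one _)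
    (by norm_num) (leD kT0 _ [9] _ (by decide +kernel)) c7.r.r.r
    (Subgroup.eq_of_le_of_card_ge e1 (le_trans (d0.ub v0) (b8.mono rfl))).ge (by decide +kernel)

end

end M11

theorem spor_M11 : Spor 7920 := M11.fin

end Pool.Agent.Lib.MP_cad414_al.Cg
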