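import Pool.Agent.Lib.MP_cad414_al.Cg.Gl

/-! Certificate for the sporadic group M12. -/

namespace Pool.Agent.Lib.MP_cad414_al.Cg

namespace M12

open Mdl

attribute [local instance] gact

noncomputable section

def M := glM 2 10 4 1 1 1 7 (by decide)

def I : List Ins := [(0xa0180602402801102004888210, 2, []),
  (0x4200400c0501200c00a11082204, 2, []),
  (0xa0060082100284404803082204, 1, []),
  (0x20141080182202401801482204, 3, []),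
  (0x280110240404803002806088210, 3, []),
  (0x18090028060080110a0048883ef, 1, []),
  (0x500909002044108018060143f7, 1, []),
  (0x90101201408a0108220401821, 1, [])]

theorem kI : M.Ok I := Mdl.ok_of (by decide +kernel)

theorem c1 : M.Ck I (chkPcs [] [(0, 3, [], []), (1, 3, [[0]], []), (2, 2, [[1, 1], [0, 0]], []), (3, 2, [[2, 0, 0], [1, 1, 0], [1, 0]], [2, 1, 0, 0]), (4, 2, [[3, 2, 1, 0, 0], [2, 1], [1, 0], [1, 0, 0]], [2, 1, 0, 0]), (5, 2, [[4, 3, 1, 1, 0], [3, 2, 0, 0], [2, 0], [1, 0, 0], [0, 0]], [])]) :=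
  ck_go (by decide +kernel)

theorem u2 : M.UB I [5, 4, 3, 2, 1, 0] 144 :=
  ((ub_pc kI _ c1 ub_nil).le (le_sub (by decide +kernel))).mono (by decide +kernel)

def T1a : List Ins := [(0, 0, [4, 4, 4]),
  (0, 0, [5, 4, 2])]

def T1 : List Ins := I ++ T1a

theorem kT1 : M.Ok T1 := kI.app (Mdl.ok_of (by decide +kernel))

theorem c3 : M.Ck T1 (chkOrb [8, 9] [[]] [[256]]
  ⟨0xb90bffe10f, 10, 143, 4, 0x741610d04, 16⟩ 3 15
  [0x115562b158db] (Nat.pred (Nat.pow 2 16))) :=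
  ck_go (by decide +kernel)

theorem b2 : M.LB T1 [8, 9] 16 :=
  (lb_orb (or_of kT1 c3) (le_sub rfl) (fix_nil _) (lb_one _)).mono rfl

theorem c4 : M.Ck T1 (an (an (chkCi [6] [8, 9] [5, 4, 3, 2, 1, 0] [[4], [5, 4, 3, 1, 1]])
  (an (chkFix [8, 9] [[65536, 65537]])
  (chkIds [5, 4, 3, 2, 1, 0] [6] [] 6 [[]] [([], 6, [])])))
  (an (chkCj [6] [8, 9] [5, 4, 3, 2, 1, 0] [[4], [5, 4, 3, 1, 1]])
  (an (chkOrb [8, 9] [[], [5]] [[65536, 65537]]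
  ⟨0xd63f3964c5, 6, 145, 4, 0x800350, 9⟩ 3 8
  [0x145458] (Nat.pred (Nat.pow 2 9)))
  (chkIds [5, 4, 3, 2, 1, 0] [6] [6] 6 [[], [5]]
  [([], 10, []), ([4, 3, 1, 0], 6, [1, 3])])))) :=
  ck_go (by decide +kernel)

theorem v1 : M.UB T1 [5, 4, 3, 2, 1, 0] 144 := (ub_app T1a (by decide +kernel)).2 u2

theorem s10 : M.Le T1 [8, 9] [5, 4, 3, 2, 1, 0] := leD kT1 _ [8, 9] _ (by decide +kernel)

theorem d1 : M.CV T1 [6, 5, 4, 3, 2, 1, 0] [5, 4, 3, 2, 1, 0] [(6, 9)] :=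
  cv_of (zs := [6]) (fa (rb_of s10 (cj_of kT1 c4.r.l) v1 b2 rfl) fa0)
  (fa (rz_one (ids_of kT1 c4.l.r.r)) fa0)
  (fa (fa (rz_of s10 (cj_of kT1 c4.r.l) s10 (ci_of kT1 c4.l.l) (fix_of kT1 c4.l.r.l) v1 b2 rfl
    (or_of kT1 c4.r.r.l) rfl (ids_of kT1 c4.r.r.r)) fa0)
  fa0)

theorem u1 : M.UB I [6, 5, 4, 3, 2, 1, 0] 1440 :=
  (ub_app T1a (by decide +kernel)).1 ((d1.ub v1).mono rfl)

def T0a : List Ins := [(0, 0, [7, 6, 7]),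
  (0, 0, [0, 2, 1, 3]),
  (0, 0, [2, 6, 5, 2, 1, 0]),
  (0, 0, [5, 3, 2, 1]),
  (0, 0, [5, 4, 6, 3, 0]),
  (0, 0, [5, 1, 6, 1]),
  (0, 0, [7, 1, 5, 4]),
  (0, 0, [7, 14, 7]),
  (0, 0, [14, 15, 14, 15]),
  (0, 0, [5, 16, 5]),
  (0, 0, [2, 16, 2])]

def T0 : List Ins := I ++ T0a

theorem kT0 : M.Ok T0 := kI.app (Mdl.ok_of (by decide +kernel))

def B5a : List Ins := [(0, 0, [9, 9, 10, 9, 9, 10, 9, 10, 9, 10, 10, 10])]

def B5 : List Ins := T0 ++ B5a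

theorem kB5 : M.Ok B5 := kT0.app (Mdl.ok_of (by decide +kernel))

theorem c6 : M.Ck B5 (an (chkOrb [9, 10] [[]] [[272]]
  ⟨0xb5c637eded, 24, 493, 6, 0x2405880400020803c20411000211d51d3092, 36⟩ 3 35
  [0x1206ec1556ecb0376515d8aaadb] (Nat.pred (Nat.pow 2 36)))
  (an (chkFix [19] [[272]])
  (chkOrb [19] [[]] [[16]]
  ⟨0xe6cf778b0d, 1, 19, 1, 0, 2⟩ 2 1
  [0] (Nat.pred (Nat.pow 2 2))))) :=
  ck_go (by decide +kernel)

theorem b5 : M.LB T0 [9, 10] 72 :=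
  (lb_app B5a (by decide +kernel)).1 ((lb_orb (or_of kB5 c6.l) (leD kB5 _ [19] _ (by decide +kernel)) (fix_of kB5 c6.r.l)
  (lb_orb (or_of kB5 c6.r.r) (le_sub rfl) (fix_nil _) (lb_one _))).mono rfl)

def B7a : List Ins := [(0, 0, [11, 13, 11, 11, 12, 11, 13])]

def B7 : List Ins := T0 ++ B7a

theorem kB7 : M.Ok B7 := kT0.app (Mdl.ok_of (by decide +kernel))

theorem c8 : M.Ck B7 (an (chkOrb [11, 12, 13] [[]] [[16]]
  ⟨0xc259e48ad5, 8, 143, 4, 0x1446200, 16⟩ 4 15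
  [0x829862978298973] (Nat.pred (Nat.pow 2 16)))
  (an (chkFix [19] [[16]])
  (chkOrb [19] [[]] [[256]]
  ⟨0x9d157ba7c7, 1, 23, 1, 0, 2⟩ 2 1
  [0] (Nat.pred (Nat.pow 2 2))))) :=
  ck_go (by decide +kernel)

theorem b7 : M.LB T0 [11, 12, 13] 32 :=
  (lb_app B7a (by decide +kernel)).1 ((lb_orb (or_of kB7 c8.l) (leD kB7 _ [19] _ (by decide +kernel)) (fix_of kB7 c8.r.l)
  (lb_orb (or_of kB7 c8.r.r) (le_sub rfl) (fix_nil _) (lb_one _))).mono rfl)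

theorem c9 : M.Ck T0 (an (an (an (chkCi [7] [9, 10] [6, 5, 4, 3, 2, 1, 0] [[1, 6, 5, 3, 2], [3, 5, 6, 3, 1]])
  (chkFix [9, 10] [[65536]]))
  (an (chkIds [6, 5, 4, 3, 2, 1, 0] [7, 8] [] 7 [[]] [([], 7, [])])
  (an (chkCj [7] [9, 10] [6, 5, 4, 3, 2, 1, 0] [[1, 6, 5, 3, 2], [3, 5, 6, 3, 1]])
  (chkOrb [9, 10] [[], [6], [2], [0, 5]] [[65536]]
  ⟨0xebcb426fd3, 10, 233, 5, 0x169135e638012, 20⟩ 3 18
  [0x40ed85836c2e8] (Nat.pred (Nat.pow 2 20))))))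
  (an (an (chkIds [6, 5, 4, 3, 2, 1, 0] [7, 8] [7] 7 [[], [6], [2], [0, 5]]
  [([], 19, []), ([], 8, []), ([6, 5, 6, 5, 3, 2, 1, 1, 0, 0], 7, [2]), ([5, 1, 6, 5, 4, 3, 1, 0, 0], 7, [0, 5])])
  (an (chkCj [8] [11, 12, 13] [6, 5, 4, 3, 2, 1, 0] [[2, 6, 4, 2], [5, 3, 1, 0], [1, 1, 6, 5, 1, 1, 0]])
  (chkOrb [11, 12, 13] [[], [6]] [[65536]]
  ⟨0x8d820b5cf7, 13, 197, 5, 0x290000100f1b004, 20⟩ 4 18
  [0x829862978298973443] (Nat.pred (Nat.pow 2 20)))))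
  (an (chkIds [6, 5, 4, 3, 2, 1, 0] [7, 8] [8] 7 [[], [6]]
  [([], 7, [6]), ([3, 5, 6, 4, 3, 2, 1, 1], 8, [0, 6])])
  (an (chkBase [7, 6, 5, 4, 3, 2, 1, 0] [6, 5, 4, 3, 2, 1, 0] 1 19 [[], [5, 6, 7], [1, 2, 7], [2, 7], [7], [1, 7], [1, 1, 7], [0, 7], [6, 5, 7], [4, 2, 7]])
  (chkFin [] 11 14 7 15 16 5 2 17 18 [14, 15, 14, 15] []))))) :=
  ck_go (by decide +kernel)

theorem v0 : M.UB T0 [6, 5, 4, 3, 2, 1, 0] 1440 := (ub_app T0a (by decide +kernel)).2 u1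

theorem s00 : M.Le T0 [9, 10] [6, 5, 4, 3, 2, 1, 0] := leD kT0 _ [9, 10] _ (by decide +kernel)

theorem s01 : M.Le T0 [11, 12, 13] [6, 5, 4, 3, 2, 1, 0] := leD kT0 _ [11, 12, 13] _ (by decide +kernel)

theorem d0 : M.CV T0 [7, 6, 5, 4, 3, 2, 1, 0] [6, 5, 4, 3, 2, 1, 0] [(7, 20), (8, 45)] :=
  cv_of (zs := [7]) (fa (rb_of s00 (cj_of kT0 c9.l.r.r.l) v0 b5 rfl) (fa (rb_of s01 (cj_of kT0 c9.r.l.r.l) v0 b7 rfl) fa0))
  (fa (rz_one (ids_of kT0 c9.l.r.l)) fa0)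
  (fa (fa (rz_of s00 (cj_of kT0 c9.l.r.r.l) s00 (ci_of kT0 c9.l.l.l) (fix_of kT0 c9.l.l.r) v0 b5 rfl
    (or_of kT0 c9.l.r.r.r) rfl (ids_of kT0 c9.r.l.l)) fa0)
  (fa (fa (rz_of s01 (cj_of kT0 c9.r.l.r.l) s00 (ci_of kT0 c9.l.l.l) (fix_of kT0 c9.l.l.r) v0 b5 rfl
    (or_of kT0 c9.r.l.r.r) rfl (ids_of kT0 c9.r.r.l)) fa0)
  fa0))

def B10a : List Ins := [(0, 0, [17, 18, 18, 18, 18, 16, 17]),
  (0, 0, [17, 18, 16, 17, 18, 17, 16, 18, 16, 16, 17]),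
  (0, 0, [17, 18, 17, 18, 16, 18, 16, 17, 16, 17, 18, 18, 17, 16, 18, 17, 18, 16, 16, 16, 18, 17, 18, 17]),
  (0, 0, [20, 21, 20, 21, 20, 20, 20, 20, 21, 19, 20]),
  (0, 0, [21, 20, 20, 21, 21, 19, 20, 19, 21]),
  (0, 0, [20, 21, 21, 20, 19, 19, 21, 20]),
  (0, 0, [22, 23, 22, 23, 23])]

def B10 : List Ins := T0 ++ B10a

theorem kB10 : M.Ok B10 := kT0.app (Mdl.ok_of (by decide +kernel))

theorem c11 : M.Ck B10 (an (an (chkOrb [16, 17, 18] [[]] [[1]]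
  ⟨0x8c2edab71f, 44, 877, 7, 0x46010b0000b013a0c09b000002d1400f90560000a00b000202001b2320000000012800282080, 66⟩ 4 64
  [0x1983509159093539815053987194093935429817397859409397198586393593, 4] (Nat.pred (Nat.pow 2 66)))
  (an (chkFix [19, 20, 21] [[1]])
  (chkOrb [19, 20, 21] [[]] [[272]]
  ⟨0xc4473c8055, 22, 373, 6, 0x2405c100010400324201e3df001064005, 45⟩ 4 44
  [0x49987861939883598839839637849398983982927353] (Nat.pred (Nat.pow 2 45)))))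
  (an (an (chkFix [22, 23, 24] [[272]])
  (chkOrb [22, 23, 24] [[]] [[4096]]
  ⟨0xf0c9da95c1, 10, 131, 4, 0x10003020, 16⟩ 4 15
  [0x852982927887293] (Nat.pred (Nat.pow 2 16))))
  (an (chkFix [25] [[4096]])
  (chkOrb [25] [[]] [[16]]
  ⟨0x82929554bb, 1, 29, 1, 0, 2⟩ 2 1
  [0] (Nat.pred (Nat.pow 2 2)))))) :=
  ck_go (by decide +kernel)

theorem b10 : M.LB T0 [16, 17, 18] 95040 :=
  (lb_app B10a (by decide +kernel)).1 ((lb_orb (or_of kB10 c11.l.l) (leD kB10 _ [19, 20, 21] _ (by decide +kernel)) (fix_of kB10 c11.l.r.l)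
  (lb_orb (or_of kB10 c11.l.r.r) (leD kB10 _ [22, 23, 24] _ (by decide +kernel)) (fix_of kB10 c11.r.l.l)
  (lb_orb (or_of kB10 c11.r.l.r) (leD kB10 _ [25] _ (by decide +kernel)) (fix_of kB10 c11.r.r.l)
  (lb_orb (or_of kB10 c11.r.r.r) (le_sub rfl) (fix_nil _) (lb_one _))))).mono rfl)

theorem e1 : M.Le T0 [16, 17, 18] [7, 6, 5, 4, 3, 2, 1, 0] := leD kT0 _ [14, 15, 16, 17, 18] _ (by decide +kernel)

theorem fin : Spor 95040 :=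
  spor kT0 d0 v0 ((b10.le e1).mono rfl) (co_base kT0 c9.r.r.r.l) (le_sub rfl) (cj_nil _) ub_nil (lb_one _)
    (by norm_num) (leD kT0 _ [14] _ (by decide +kernel)) c9.r.r.r.r
    (Subgroup.eq_of_le_of_card_ge e1 (le_trans (d0.ub v0) (b10.mono rfl))).ge (by decide +kernel)

end

end M12

theorem spor_M12 : Spor 95040 := M12.fin

end Pool.Agent.Lib.MP_cad414_al.Cg
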