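import Pool.Agent.Lib.MP_cad414_al.Cg.Gl

/-! Certificate for the sporadic group M22. -/

namespace Pool.Agent.Lib.MP_cad414_al.Cg

namespace M22

open Mdl

attribute [local instance] gact

noncomputable section

def M := glM 2 11 4 1 1 1 8 (by decide)

def I : List Ins := [(0x9c0160320b70260340d20a21b02864a4, 1, []),
  (0x2b0270b40b701f0ba0ec01513928649a, 1, []),
  (0x930830a80b70030a10f0012192231431, 1, []),
  (0x1110541f20b81600f00901200703c05a0, 1, []),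
  (0x3800a08a00802102806a00612a200422, 1, []),
  (0xc11901600811c41020010c9181341441, 3, []),
  (0x3011118d0951351a60a10151743814a4, 2, []),
  (0x111144004118104184012030014314510, 1, []),
  (0xc600228820e2a221800d28630608c68c, 1, []),
  (0x920c202008219229401080301208049, 1, [])]

theorem kI : M.Ok I := Mdl.ok_of (by decide +kernel)

theorem c1 : M.Ck I (chkPcs [] [(0, 2, [], []), (1, 2, [[0]], []), (2, 2, [[1], [0]], []), (3, 2, [[2, 1, 0], [1], [0]], []), (4, 2, [[3, 0], [2], [1], [0]], []), (5, 2, [[4, 1], [3, 1], [2, 0], [1], [0]], [1, 0]), (6, 3, [[4, 3, 0], [2, 0], [5, 4, 3, 2, 1], [4, 2, 1, 0], [1, 0], [1]], [])]) :=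
  ck_go (by decide +kernel)

theorem u3 : M.UB I [6, 5, 4, 3, 2, 1, 0] 192 :=
  ((ub_pc kI _ c1 ub_nil).le (le_sub (by decide +kernel))).mono (by decide +kernel)

def T2a : List Ins := [(0, 0, [6, 2]),
  (0, 0, [5, 5]),
  (0, 0, [5, 6])]

def T2 : List Ins := I ++ T2a

theorem kT2 : M.Ok T2 := kI.app (Mdl.ok_of (by decide +kernel))

def B2a : List Ins := [(0, 0, [11, 12, 12, 10, 11]),
  (0, 0, [10, 12, 12, 11])]

def B2 : List Ins := T2 ++ B2a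

theorem kB2 : M.Ok B2 := kT2.app (Mdl.ok_of (by decide +kernel))

theorem c3 : M.Ck B2 (an (chkOrb [10, 11, 12] [[]] [[4096]]
  ⟨0xed1335a2d3, 6, 133, 4, 0x30420a, 12⟩ 4 11
  [0x41580782533] (Nat.pred (Nat.pow 2 12)))
  (an (chkFix [13, 14] [[4096]])
  (chkOrb [13, 14] [[]] [[256]]
  ⟨0x87b78dcc59, 1, 43, 2, 0, 4⟩ 3 3
  [291] (Nat.pred (Nat.pow 2 4))))) :=
  ck_go (by decide +kernel)

theorem b2 : M.LB T2 [10, 11, 12] 48 :=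
  (lb_app B2a (by decide +kernel)).1 ((lb_orb (or_of kB2 c3.l) (leD kB2 _ [13, 14] _ (by decide +kernel)) (fix_of kB2 c3.r.l)
  (lb_orb (or_of kB2 c3.r.r) (le_sub rfl) (fix_nil _) (lb_one _))).mono rfl)

theorem c4 : M.Ck T2 (an (an (chkCi [7] [10, 11, 12] [6, 5, 4, 3, 2, 1, 0] [[6, 6, 4, 3, 2, 1], [3, 1, 0], [6, 6, 4, 2]])
  (an (chkFix [10, 11, 12] [[0x100000000, 0x1000000000, 0x1111011010, 0x11011100011]])
  (chkIds [6, 5, 4, 3, 2, 1, 0] [7] [] 7 [[]] [([], 7, [])])))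
  (an (chkCj [7] [10, 11, 12] [6, 5, 4, 3, 2, 1, 0] [[6, 6, 4, 3, 2, 1], [3, 1, 0], [6, 6, 4, 2]])
  (an (chkOrb [10, 11, 12] [[], [6]] [[0x100000000, 0x1000000000, 0x1111011010, 0x11011100011]]
  ⟨0xc19f49dc1d, 2, 57, 2, 0, 4⟩ 4 3
  [16] (Nat.pred (Nat.pow 2 4)))
  (chkIds [6, 5, 4, 3, 2, 1, 0] [7] [7] 7 [[], [6]]
  [([], 13, []), ([4, 0], 7, [6])])))) :=
  ck_go (by decide +kernel)

theorem v2 : M.UB T2 [6, 5, 4, 3, 2, 1, 0] 192 := (ub_app T2a (by decide +kernel)).2 u3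

theorem s20 : M.Le T2 [10, 11, 12] [6, 5, 4, 3, 2, 1, 0] := leD kT2 _ [10, 11, 12] _ (by decide +kernel)

theorem d2 : M.CV T2 [7, 6, 5, 4, 3, 2, 1, 0] [6, 5, 4, 3, 2, 1, 0] [(7, 4)] :=
  cv_of (zs := [7]) (fa (rb_of s20 (cj_of kT2 c4.r.l) v2 b2 rfl) fa0)
  (fa (rz_one (ids_of kT2 c4.l.r.r)) fa0)
  (fa (fa (rz_of s20 (cj_of kT2 c4.r.l) s20 (ci_of kT2 c4.l.l) (fix_of kT2 c4.l.r.l) v2 b2 rfl
    (or_of kT2 c4.r.r.l) rfl (ids_of kT2 c4.r.r.r)) fa0)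
  fa0)

theorem u2 : M.UB I [7, 6, 5, 4, 3, 2, 1, 0] 960 :=
  (ub_app T2a (by decide +kernel)).1 ((d2.ub v2).mono rfl)

def T1a : List Ins := [(0, 0, [6, 2, 7, 6]),
  (0, 0, [2, 6, 2]),
  (0, 0, [2, 3, 4, 2, 2, 5])]

def T1 : List Ins := I ++ T1a

theorem kT1 : M.Ok T1 := kI.app (Mdl.ok_of (by decide +kernel))

def B5a : List Ins := [(0, 0, [11, 12, 12, 12])]

def B5 : List Ins := T1 ++ B5a

theorem kB5 : M.Ok B5 := kT1.app (Mdl.ok_of (by decide +kernel))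

theorem c6 : M.Ck B5 (an (chkOrb [10, 11, 12] [[]] [[256]]
  ⟨0xf32740fd6b, 10, 177, 4, 0x1006000b06, 16⟩ 4 15
  [0x90978867498733] (Nat.pred (Nat.pow 2 16)))
  (an (chkFix [13] [[256]])
  (chkOrb [13] [[]] [[4096]]
  ⟨0x93ec0f4c97, 2, 31, 2, 4, 3⟩ 2 2
  [1] (Nat.pred (Nat.pow 2 3))))) :=
  ck_go (by decide +kernel)

theorem b5 : M.LB T1 [10, 11, 12] 48 :=
  (lb_app B5a (by decide +kernel)).1 ((lb_orb (or_of kB5 c6.l) (leD kB5 _ [13] _ (by decide +kernel)) (fix_of kB5 c6.r.l)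
  (lb_orb (or_of kB5 c6.r.r) (le_sub rfl) (fix_nil _) (lb_one _))).mono rfl)

theorem c7 : M.Ck T1 (an (an (chkCi [8] [10, 11, 12] [7, 6, 5, 4, 3, 2, 1, 0] [[4, 7, 6, 5, 4, 3, 2, 0], [7, 3, 2, 1, 0], [2, 7, 6, 6, 5, 2, 0]])
  (an (chkFix [10, 11, 12] [[0x111101101]])
  (chkIds [7, 6, 5, 4, 3, 2, 1, 0] [8] [] 8 [[]] [([], 8, [])])))
  (an (chkCj [8] [10, 11, 12] [7, 6, 5, 4, 3, 2, 1, 0] [[4, 7, 6, 5, 4, 3, 2, 0], [7, 3, 2, 1, 0], [2, 7, 6, 6, 5, 2, 0]])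
  (an (chkOrb [10, 11, 12] [[], [7], [3]] [[0x111101101]]
  ⟨0xc428505f33, 8, 187, 5, 0x580c590193, 20⟩ 4 18
  [0x420981703505586330] (Nat.pred (Nat.pow 2 20)))
  (chkIds [7, 6, 5, 4, 3, 2, 1, 0] [8] [8] 8 [[], [7], [3]]
  [([], 13, []), ([4, 7, 6, 2], 8, [6, 6]), ([4, 7, 6, 1, 0], 8, [1])])))) :=
  ck_go (by decide +kernel)

theorem v1 : M.UB T1 [7, 6, 5, 4, 3, 2, 1, 0] 960 := (ub_app T1a (by decide +kernel)).2 u2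

theorem s10 : M.Le T1 [10, 11, 12] [7, 6, 5, 4, 3, 2, 1, 0] := leD kT1 _ [10, 11, 12] _ (by decide +kernel)

theorem d1 : M.CV T1 [8, 7, 6, 5, 4, 3, 2, 1, 0] [7, 6, 5, 4, 3, 2, 1, 0] [(8, 20)] :=
  cv_of (zs := [8]) (fa (rb_of s10 (cj_of kT1 c7.r.l) v1 b5 rfl) fa0)
  (fa (rz_one (ids_of kT1 c7.l.r.r)) fa0)
  (fa (fa (rz_of s10 (cj_of kT1 c7.r.l) s10 (ci_of kT1 c7.l.l) (fix_of kT1 c7.l.r.l) v1 b5 rfl
    (or_of kT1 c7.r.r.l) rfl (ids_of kT1 c7.r.r.r)) fa0)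
  fa0)

theorem u1 : M.UB I [8, 7, 6, 5, 4, 3, 2, 1, 0] 20160 :=
  (ub_app T1a (by decide +kernel)).1 ((d1.ub v1).mono rfl)

def T0a : List Ins := [(0, 0, [7, 4, 3, 8, 3, 7]),
  (0, 0, [8, 0, 1, 3, 6, 5, 7, 4]),
  (0, 0, [5, 2, 9, 7]),
  (0, 0, [9, 12, 9]),
  (0, 0, [12, 13, 12, 13]),
  (0, 0, [3, 14, 3]),
  (0, 0, [2, 14, 2])]

def T0 : List Ins := I ++ T0a

theorem kT0 : M.Ok T0 := kI.app (Mdl.ok_of (by decide +kernel))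

def B8a : List Ins := [(0, 0, [10, 10, 11, 11, 10, 10, 11, 11, 10, 10, 10, 10, 10]),
  (0, 0, [11, 11, 10, 10, 11, 10, 10]),
  (0, 0, [10, 10, 11, 11, 10, 11, 10, 10, 11, 11, 11]),
  (0, 0, [18, 19, 19, 17, 19, 17, 18])]

def B8 : List Ins := T0 ++ B8a

theorem kB8 : M.Ok B8 := kT0.app (Mdl.ok_of (by decide +kernel))

theorem c9 : M.Ck B8 (an (an (chkOrb [10, 11] [[]] [[16]]
  ⟨0xa5115cfbf1, 10, 253, 5, 0xe2180010000a, 20⟩ 3 19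
  [0x12876cb4576475b] (Nat.pred (Nat.pow 2 20)))
  (chkFix [17, 18, 19] [[16]]))
  (an (chkOrb [17, 18, 19] [[]] [[4096]]
  ⟨0x8f7fc154a9, 8, 243, 4, 0x40f92b0, 16⟩ 4 15
  [0x869898783786253] (Nat.pred (Nat.pow 2 16)))
  (an (chkFix [20] [[4096]])
  (chkOrb [20] [[]] [[256]]
  ⟨0x8aaf1a5777, 2, 47, 2, 2, 3⟩ 2 2
  [1] (Nat.pred (Nat.pow 2 3)))))) :=
  ck_go (by decide +kernel)

theorem b8 : M.LB T0 [10, 11] 960 :=
  (lb_app B8a (by decide +kernel)).1 ((lb_orb (or_of kB8 c9.l.l) (leD kB8 _ [17, 18, 19] _ (by decide +kernel)) (fix_of kB8 c9.l.r)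
  (lb_orb (or_of kB8 c9.r.l) (leD kB8 _ [20] _ (by decide +kernel)) (fix_of kB8 c9.r.r.l)
  (lb_orb (or_of kB8 c9.r.r.r) (le_sub rfl) (fix_nil _) (lb_one _)))).mono rfl)

theorem c10 : M.Ck T0 (an (an (an (chkCi [9] [10, 11] [8, 7, 6, 5, 4, 3, 2, 1, 0] [[4, 6, 8, 7, 5, 2, 1, 0], [4, 6, 8, 7, 6, 6, 5, 2, 1, 0]])
  (chkFix [10, 11] [[65536]]))
  (an (chkIds [8, 7, 6, 5, 4, 3, 2, 1, 0] [9] [] 9 [[]] [([], 9, [])])
  (chkCj [9] [10, 11] [8, 7, 6, 5, 4, 3, 2, 1, 0] [[4, 6, 8, 7, 5, 2, 1, 0], [4, 6, 8, 7, 6, 6, 5, 2, 1, 0]])))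
  (an (an (chkOrb [10, 11] [[], [8]] [[65536]]
  ⟨0xed043229b9, 10, 331, 5, 0x10003014806, 21⟩ 3 20
  [0x88da2c2ec745ad8] (Nat.pred (Nat.pow 2 21)))
  (chkIds [8, 7, 6, 5, 4, 3, 2, 1, 0] [9] [9] 9 [[], [8]]
  [([], 17, []), ([6, 8, 6, 7, 6, 4], 9, [7, 6])]))
  (an (chkBase [9, 8, 7, 6, 5, 4, 3, 2, 1, 0] [8, 7, 6, 5, 4, 3, 2, 1, 0] 1 17 [[], [9, 3, 9], [6, 9], [8, 5, 9], [9], [6, 7, 9], [4, 8, 9], [0, 8, 9], [9, 7, 9], [7, 9], [8, 9]])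
  (chkFin [] 11 12 9 13 14 3 2 15 16 [12, 13, 12, 13] [])))) :=
  ck_go (by decide +kernel)

theorem v0 : M.UB T0 [8, 7, 6, 5, 4, 3, 2, 1, 0] 20160 := (ub_app T0a (by decide +kernel)).2 u1

theorem s00 : M.Le T0 [10, 11] [8, 7, 6, 5, 4, 3, 2, 1, 0] := leD kT0 _ [10, 11] _ (by decide +kernel)

theorem d0 : M.CV T0 [9, 8, 7, 6, 5, 4, 3, 2, 1, 0] [8, 7, 6, 5, 4, 3, 2, 1, 0] [(9, 21)] :=
  cv_of (zs := [9]) (fa (rb_of s00 (cj_of kT0 c10.l.r.r) v0 b8 rfl) fa0)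
  (fa (rz_one (ids_of kT0 c10.l.r.l)) fa0)
  (fa (fa (rz_of s00 (cj_of kT0 c10.l.r.r) s00 (ci_of kT0 c10.l.l.l) (fix_of kT0 c10.l.l.r) v0 b8 rfl
    (or_of kT0 c10.r.l.l) rfl (ids_of kT0 c10.r.l.r)) fa0)
  fa0)

def B11a : List Ins := [(0, 0, [15, 14, 14, 14, 16, 15, 16, 15, 14, 14, 14]),
  (0, 0, [16, 14, 15, 15, 15, 15, 16, 14, 16]),
  (0, 0, [17, 17, 17, 17, 18, 17, 17, 17, 18, 18, 18, 17, 18]),
  (0, 0, [17, 18, 17, 17, 17, 17, 18, 17, 17]),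
  (0, 0, [20, 20, 19, 19, 20, 19, 19, 19, 20]),
  (0, 0, [19, 19, 20, 19, 19, 19, 19, 20, 19, 20, 20]),
  (0, 0, [20, 19, 20, 20, 19, 19, 20]),
  (0, 0, [21, 21, 22, 23, 21, 22, 21, 23])]

def B11 : List Ins := T0 ++ B11a

theorem kB11 : M.Ok B11 := kT0.app (Mdl.ok_of (by decide +kernel))

theorem c12 : M.Ck B11 (an (an (an (chkOrb [14, 15, 16] [[]] [[1]]
  ⟨0xb7750a0323, 11, 207, 5, 0x450d44000046, 22⟩ 4 21
  [0x494935439861917881973] (Nat.pred (Nat.pow 2 22)))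
  (chkFix [17, 18] [[1]]))
  (an (chkOrb [17, 18] [[]] [[16]]
  ⟨0x838437d609, 10, 331, 5, 0x9880272c808, 21⟩ 3 20
  [0x6a3453623416d9] (Nat.pred (Nat.pow 2 21)))
  (chkFix [19, 20] [[16]])))
  (an (an (chkOrb [19, 20] [[]] [[256]]
  ⟨0xa2e50dc459, 10, 277, 5, 0x200040614cea, 20⟩ 3 19
  [0x10d8a86ecb254db] (Nat.pred (Nat.pow 2 20)))
  (chkFix [21, 22, 23] [[256]]))
  (an (chkOrb [21, 22, 23] [[]] [[4096]]
  ⟨0xf76fa9f7d9, 6, 167, 4, 0xc079b5, 16⟩ 4 15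
  [0x890354980370533] (Nat.pred (Nat.pow 2 16)))
  (an (chkFix [24] [[4096]])
  (chkOrb [24] [[]] [[65536]]
  ⟨0xdfc6287541, 1, 37, 2, 0, 3⟩ 2 2
  [1] (Nat.pred (Nat.pow 2 3))))))) :=
  ck_go (by decide +kernel)

theorem b11 : M.LB T0 [14, 15, 16] 443520 :=
  (lb_app B11a (by decide +kernel)).1 ((lb_orb (or_of kB11 c12.l.l.l) (leD kB11 _ [17, 18] _ (by decide +kernel)) (fix_of kB11 c12.l.l.r)
  (lb_orb (or_of kB11 c12.l.r.l) (leD kB11 _ [19, 20] _ (by decide +kernel)) (fix_of kB11 c12.l.r.r)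
  (lb_orb (or_of kB11 c12.r.l.l) (leD kB11 _ [21, 22, 23] _ (by decide +kernel)) (fix_of kB11 c12.r.l.r)
  (lb_orb (or_of kB11 c12.r.r.l) (leD kB11 _ [24] _ (by decide +kernel)) (fix_of kB11 c12.r.r.r.l)
  (lb_orb (or_of kB11 c12.r.r.r.r) (le_sub rfl) (fix_nil _) (lb_one _)))))).mono rfl)

theorem e1 : M.Le T0 [14, 15, 16] [9, 8, 7, 6, 5, 4, 3, 2, 1, 0] := leD kT0 _ [12, 13, 14, 15, 16] _ (by decide +kernel)

theorem fin : Spor 443520 :=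
  spor kT0 d0 v0 ((b11.le e1).mono rfl) (co_base kT0 c10.r.r.l) (le_sub rfl) (cj_nil _) ub_nil (lb_one _)
    (by norm_num) (leD kT0 _ [12] _ (by decide +kernel)) c10.r.r.r
    (Subgroup.eq_of_le_of_card_ge e1 (le_trans (d0.ub v0) (b11.mono rfl))).ge (by decide +kernel)

end

end M22

theorem spor_M22 : Spor 443520 := M22.fin

end Pool.Agent.Lib.MP_cad414_al.Cg
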