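import Pool.Agent.Lib.MP_cad414_al.Cg.Gl

/-! Certificate for the sporadic group M23. -/

namespace Pool.Agent.Lib.MP_cad414_al.Cg

namespace M23

open Mdl

attribute [local instance] gact

noncomputable section

def M := glM 2 11 4 1 1 1 8 (by decide)

def I : List Ins := [(0x4204100401400c0640400c4104240404, 1, []),
  (0x4501905b01305402701f0d810d25244e, 1, []),
  (0x601901800800c08405c038114208414, 1, []),
  (0xa20ba01f0b70b402705b09c18e23142d, 1, []),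
  (0xc00f05b05a04207c01f0c7149216451, 1, []),
  (0xb70ec05c0a50ba08e04707116f2994d3, 3, []),
  (0x9309a04a0c60c805a0120f01ca218440, 2, []),
  (0x930830a80b70030a10f0012192231431, 1, []),
  (0x1110541f20b81600f00901200703c05a0, 1, []),
  (0x2282a22c12090102212ad0a8388029489, 1, []),
  (0x6344244447640a0444644a2162624024, 1, [])]

theorem kI : M.Ok I := Mdl.ok_of (by decide +kernel)

theorem c1 : M.Ck I (chkPcs [] [(0, 2, [], []), (1, 2, [[0]], []), (2, 2, [[1], [0]], []), (3, 2, [[2], [1], [0]], []), (4, 2, [[3, 0], [2, 1], [1], [0]], []), (5, 2, [[4, 1, 0], [3, 1], [2, 1, 0], [1], [0]], [0]), (6, 3, [[4, 2, 1], [5, 4, 3, 2, 1, 0], [3, 2, 1, 0], [3, 0], [1, 0], [1]], [])]) :=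
  ck_go (by decide +kernel)

theorem u4 : M.UB I [6, 5, 4, 3, 2, 1, 0] 192 :=
  ((ub_pc kI _ c1 ub_nil).le (le_sub (by decide +kernel))).mono (by decide +kernel)

def T3a : List Ins := [(0, 0, [0]),
  (0, 0, [3, 2]),
  (0, 0, [6])]

def T3 : List Ins := I ++ T3a

theorem kT3 : M.Ok T3 := kI.app (Mdl.ok_of (by decide +kernel))

def B2a : List Ins := [(0, 0, [13, 11, 13, 11, 12, 11, 13]),
  (0, 0, [11, 13, 13, 13, 11, 12])]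

def B2 : List Ins := T3 ++ B2a

theorem kB2 : M.Ok B2 := kT3.app (Mdl.ok_of (by decide +kernel))

theorem c3 : M.Ck B2 (an (chkOrb [11, 12, 13] [[]] [[65536]]
  ⟨0xf3fca869a7, 8, 133, 4, 0x740381, 12⟩ 4 11
  [0x88978939893] (Nat.pred (Nat.pow 2 12)))
  (an (chkFix [14, 15] [[65536]])
  (chkOrb [14, 15] [[]] [[4096]]
  ⟨0xc20856b74b, 2, 59, 2, 0, 4⟩ 3 3
  [291] (Nat.pred (Nat.pow 2 4))))) :=
  ck_go (by decide +kernel)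

theorem b2 : M.LB T3 [11, 12, 13] 48 :=
  (lb_app B2a (by decide +kernel)).1 ((lb_orb (or_of kB2 c3.l) (leD kB2 _ [14, 15] _ (by decide +kernel)) (fix_of kB2 c3.r.l)
  (lb_orb (or_of kB2 c3.r.r) (le_sub rfl) (fix_nil _) (lb_one _))).mono rfl)

theorem c4 : M.Ck T3 (an (an (chkCi [7] [11, 12, 13] [6, 5, 4, 3, 2, 1, 0] [[2, 0], [3, 2], [6, 6]])
  (an (chkFix [11, 12, 13] [[0x110110011, 0x1000000000, 0x10000000000, 0x11110110100]])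
  (chkIds [6, 5, 4, 3, 2, 1, 0] [7] [] 7 [[]] [([], 7, [])])))
  (an (chkCj [7] [11, 12, 13] [6, 5, 4, 3, 2, 1, 0] [[2, 0], [3, 2], [6, 6]])
  (an (chkOrb [11, 12, 13] [[], [5]] [[0x110110011, 0x1000000000, 0x10000000000, 0x11110110100]]
  ⟨0x994e339f5d, 2, 45, 2, 2, 4⟩ 4 3
  [2192] (Nat.pred (Nat.pow 2 4)))
  (chkIds [6, 5, 4, 3, 2, 1, 0] [7] [7] 7 [[], [5]]
  [([], 14, []), ([6, 5, 3, 1, 0], 7, [4])])))) :=
  ck_go (by decide +kernel)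

theorem v3 : M.UB T3 [6, 5, 4, 3, 2, 1, 0] 192 := (ub_app T3a (by decide +kernel)).2 u4

theorem s30 : M.Le T3 [11, 12, 13] [6, 5, 4, 3, 2, 1, 0] := leD kT3 _ [11, 12, 13] _ (by decide +kernel)

theorem d3 : M.CV T3 [7, 6, 5, 4, 3, 2, 1, 0] [6, 5, 4, 3, 2, 1, 0] [(7, 4)] :=
  cv_of (zs := [7]) (fa (rb_of s30 (cj_of kT3 c4.r.l) v3 b2 rfl) fa0)
  (fa (rz_one (ids_of kT3 c4.l.r.r)) fa0)
  (fa (fa (rz_of s30 (cj_of kT3 c4.r.l) s30 (ci_of kT3 c4.l.l) (fix_of kT3 c4.l.r.l) v3 b2 rfl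
    (or_of kT3 c4.r.r.l) rfl (ids_of kT3 c4.r.r.r)) fa0)
  fa0)

theorem u3 : M.UB I [7, 6, 5, 4, 3, 2, 1, 0] 960 :=
  (ub_app T3a (by decide +kernel)).1 ((d3.ub v3).mono rfl)

def T2a : List Ins := [(0, 0, [6, 5, 3, 2, 1, 0]),
  (0, 0, [6, 5, 0, 7, 2, 3, 3, 1]),
  (0, 0, [3])]

def T2 : List Ins := I ++ T2a

theorem kT2 : M.Ok T2 := kI.app (Mdl.ok_of (by decide +kernel))

def B5a : List Ins := [(0, 0, [12, 13, 11, 13, 11, 12])]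

def B5 : List Ins := T2 ++ B5a

theorem kB5 : M.Ok B5 := kT2.app (Mdl.ok_of (by decide +kernel))

theorem c6 : M.Ck B5 (an (chkOrb [11, 12, 13] [[]] [[4096]]
  ⟨0xe11d47b22d, 8, 143, 4, 0xe007116, 16⟩ 4 15
  [0x429878358625833] (Nat.pred (Nat.pow 2 16)))
  (an (chkFix [14] [[4096]])
  (chkOrb [14] [[]] [[65536]]
  ⟨0xbd15058017, 2, 47, 2, 8, 3⟩ 2 2
  [1] (Nat.pred (Nat.pow 2 3))))) :=
  ck_go (by decide +kernel)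

theorem b5 : M.LB T2 [11, 12, 13] 48 :=
  (lb_app B5a (by decide +kernel)).1 ((lb_orb (or_of kB5 c6.l) (leD kB5 _ [14] _ (by decide +kernel)) (fix_of kB5 c6.r.l)
  (lb_orb (or_of kB5 c6.r.r) (le_sub rfl) (fix_nil _) (lb_one _))).mono rfl)

theorem c7 : M.Ck T2 (an (an (chkCi [8] [11, 12, 13] [7, 6, 5, 4, 3, 2, 1, 0] [[5, 7, 6, 3, 2, 1, 0], [6, 6, 4, 2, 0], [7, 3, 2]])
  (an (chkFix [11, 12, 13] [[0x10101001011]])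
  (chkIds [7, 6, 5, 4, 3, 2, 1, 0] [8] [] 8 [[]] [([], 8, [])])))
  (an (chkCj [8] [11, 12, 13] [7, 6, 5, 4, 3, 2, 1, 0] [[5, 7, 6, 3, 2, 1, 0], [6, 6, 4, 2, 0], [7, 3, 2]])
  (an (chkOrb [11, 12, 13] [[], [6], [1]] [[0x10101001011]]
  ⟨0xe660ed9121, 10, 233, 5, 0x837322000a40, 20⟩ 4 18
  [0x18583542986278330] (Nat.pred (Nat.pow 2 20)))
  (chkIds [7, 6, 5, 4, 3, 2, 1, 0] [8] [8] 8 [[], [6], [1]]
  [([], 14, []), ([6, 3], 8, [4, 5, 7]), ([6, 6, 4, 3, 2, 1, 0], 8, [0])])))) :=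
  ck_go (by decide +kernel)

theorem v2 : M.UB T2 [7, 6, 5, 4, 3, 2, 1, 0] 960 := (ub_app T2a (by decide +kernel)).2 u3

theorem s20 : M.Le T2 [11, 12, 13] [7, 6, 5, 4, 3, 2, 1, 0] := leD kT2 _ [11, 12, 13] _ (by decide +kernel)

theorem d2 : M.CV T2 [8, 7, 6, 5, 4, 3, 2, 1, 0] [7, 6, 5, 4, 3, 2, 1, 0] [(8, 20)] :=
  cv_of (zs := [8]) (fa (rb_of s20 (cj_of kT2 c7.r.l) v2 b5 rfl) fa0)
  (fa (rz_one (ids_of kT2 c7.l.r.r)) fa0)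
  (fa (fa (rz_of s20 (cj_of kT2 c7.r.l) s20 (ci_of kT2 c7.l.l) (fix_of kT2 c7.l.r.l) v2 b5 rfl
    (or_of kT2 c7.r.r.l) rfl (ids_of kT2 c7.r.r.r)) fa0)
  fa0)

theorem u2 : M.UB I [8, 7, 6, 5, 4, 3, 2, 1, 0] 20160 :=
  (ub_app T2a (by decide +kernel)).1 ((d2.ub v2).mono rfl)

def T1a : List Ins := [(0, 0, [5, 2, 3, 3, 8, 7, 2, 4]),
  (0, 0, [1, 8, 0, 1, 4, 8])]

def T1 : List Ins := I ++ T1a

theorem kT1 : M.Ok T1 := kI.app (Mdl.ok_of (by decide +kernel))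

def B8a : List Ins := [(0, 0, [12, 11, 11]),
  (0, 0, [11, 12, 11, 12, 12, 11, 12]),
  (0, 0, [11, 12, 11, 11, 11, 12, 12, 11, 12]),
  (0, 0, [14, 15, 15, 14])]

def B8 : List Ins := T1 ++ B8a

theorem kB8 : M.Ok B8 := kT1.app (Mdl.ok_of (by decide +kernel))

theorem c9 : M.Ck B8 (an (an (chkOrb [11, 12] [[]] [[256]]
  ⟨0x88d1ffc8e5, 8, 261, 5, 0x5116089e40, 20⟩ 3 19
  [0x128668b15762a5b] (Nat.pred (Nat.pow 2 20)))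
  (chkFix [13, 14, 15] [[256]]))
  (an (chkOrb [13, 14, 15] [[]] [[4096]]
  ⟨0xf512c568a5, 8, 241, 4, 0xc05be24, 16⟩ 4 15
  [0x96835498627433] (Nat.pred (Nat.pow 2 16)))
  (an (chkFix [16] [[4096]])
  (chkOrb [16] [[]] [[65536]]
  ⟨0xc085028a5f, 2, 31, 2, 4, 3⟩ 2 2
  [1] (Nat.pred (Nat.pow 2 3)))))) :=
  ck_go (by decide +kernel)

theorem b8 : M.LB T1 [11, 12] 960 :=
  (lb_app B8a (by decide +kernel)).1 ((lb_orb (or_of kB8 c9.l.l) (leD kB8 _ [13, 14, 15] _ (by decide +kernel)) (fix_of kB8 c9.l.r)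
  (lb_orb (or_of kB8 c9.r.l) (leD kB8 _ [16] _ (by decide +kernel)) (fix_of kB8 c9.r.r.l)
  (lb_orb (or_of kB8 c9.r.r.r) (le_sub rfl) (fix_nil _) (lb_one _)))).mono rfl)

theorem c10 : M.Ck T1 (an (an (chkCi [9] [11, 12] [8, 7, 6, 5, 4, 3, 2, 1, 0] [[4, 8, 7, 5, 0], [5, 6, 8, 7, 6, 6, 5, 2, 0]])
  (an (chkFix [11, 12] [[0x11110110100]])
  (chkIds [8, 7, 6, 5, 4, 3, 2, 1, 0] [9] [] 9 [[]] [([], 9, [])])))
  (an (chkCj [9] [11, 12] [8, 7, 6, 5, 4, 3, 2, 1, 0] [[4, 8, 7, 5, 0], [5, 6, 8, 7, 6, 6, 5, 2, 0]])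
  (an (chkOrb [11, 12] [[], [8]] [[0x11110110100]]
  ⟨0xb1c9695bcd, 10, 263, 5, 0x4c29800781a7, 21⟩ 3 20
  [0x94d94ba2c953758] (Nat.pred (Nat.pow 2 21)))
  (chkIds [8, 7, 6, 5, 4, 3, 2, 1, 0] [9] [9] 9 [[], [8]]
  [([], 13, []), ([5, 7, 6, 6, 5, 0], 9, [8])])))) :=
  ck_go (by decide +kernel)

theorem v1 : M.UB T1 [8, 7, 6, 5, 4, 3, 2, 1, 0] 20160 := (ub_app T1a (by decide +kernel)).2 u2

theorem s10 : M.Le T1 [11, 12] [8, 7, 6, 5, 4, 3, 2, 1, 0] := leD kT1 _ [11, 12] _ (by decide +kernel)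

theorem d1 : M.CV T1 [9, 8, 7, 6, 5, 4, 3, 2, 1, 0] [8, 7, 6, 5, 4, 3, 2, 1, 0] [(9, 21)] :=
  cv_of (zs := [9]) (fa (rb_of s10 (cj_of kT1 c10.r.l) v1 b8 rfl) fa0)
  (fa (rz_one (ids_of kT1 c10.l.r.r)) fa0)
  (fa (fa (rz_of s10 (cj_of kT1 c10.r.l) s10 (ci_of kT1 c10.l.l) (fix_of kT1 c10.l.r.l) v1 b8 rfl
    (or_of kT1 c10.r.r.l) rfl (ids_of kT1 c10.r.r.r)) fa0)
  fa0)

theorem u1 : M.UB I [9, 8, 7, 6, 5, 4, 3, 2, 1, 0] 443520 :=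
  (ub_app T1a (by decide +kernel)).1 ((d1.ub v1).mono rfl)

def T0a : List Ins := [(0, 0, [9, 7, 6, 8, 4, 5, 7, 6, 5, 4, 1]),
  (0, 0, [8, 5, 7, 4, 1, 0]),
  (0, 0, [8, 4, 3, 7, 9, 5, 10, 2]),
  (0, 0, [10, 13, 10]),
  (0, 0, [13, 14, 13, 14]),
  (0, 0, [9, 15, 9]),
  (0, 0, [2, 15, 2])]

def T0 : List Ins := I ++ T0a

theorem kT0 : M.Ok T0 := kI.app (Mdl.ok_of (by decide +kernel))

def B11a : List Ins := [(0, 0, [11, 11, 12, 12, 12, 12, 11, 12, 12, 12]),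
  (0, 0, [11, 11, 12, 12, 12, 12, 11, 12]),
  (0, 0, [19, 19, 18, 19, 19, 19, 18, 18, 19, 18, 18, 18]),
  (0, 0, [18, 18, 18, 18, 19, 19, 18]),
  (0, 0, [19, 19, 18, 19, 18, 19, 19, 18, 19]),
  (0, 0, [20, 21, 21, 21, 22, 21, 22])]

def B11 : List Ins := T0 ++ B11a

theorem kB11 : M.Ok B11 := kT0.app (Mdl.ok_of (by decide +kernel))

theorem c12 : M.Ck B11 (an (an (chkOrb [11, 12] [[]] [[16]]
  ⟨0x8cb97c3f0b, 10, 269, 5, 0x842040400847, 21⟩ 3 20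
  [0x143361b13b2d4d9] (Nat.pred (Nat.pow 2 21)))
  (an (chkFix [18, 19] [[16]])
  (chkOrb [18, 19] [[]] [[256]]
  ⟨0xa07779bbf7, 8, 305, 5, 0x54dec14408, 20⟩ 3 19
  [0x122a2c4dbb2c2cb] (Nat.pred (Nat.pow 2 20)))))
  (an (an (chkFix [20, 21, 22] [[256]])
  (chkOrb [20, 21, 22] [[]] [[4096]]
  ⟨0xefde19455d, 8, 203, 4, 0x1026f5c, 16⟩ 4 15
  [0x864398878378613] (Nat.pred (Nat.pow 2 16))))
  (an (chkFix [23] [[4096]])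
  (chkOrb [23] [[]] [[65536]]
  ⟨0xb5c307173b, 1, 37, 2, 0, 3⟩ 2 2
  [1] (Nat.pred (Nat.pow 2 3)))))) :=
  ck_go (by decide +kernel)

theorem b11 : M.LB T0 [11, 12] 20160 :=
  (lb_app B11a (by decide +kernel)).1 ((lb_orb (or_of kB11 c12.l.l) (leD kB11 _ [18, 19] _ (by decide +kernel)) (fix_of kB11 c12.l.r.l)
  (lb_orb (or_of kB11 c12.l.r.r) (leD kB11 _ [20, 21, 22] _ (by decide +kernel)) (fix_of kB11 c12.r.l.l)
  (lb_orb (or_of kB11 c12.r.l.r) (leD kB11 _ [23] _ (by decide +kernel)) (fix_of kB11 c12.r.r.l)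
  (lb_orb (or_of kB11 c12.r.r.r) (le_sub rfl) (fix_nil _) (lb_one _))))).mono rfl)

theorem c13 : M.Ck T0 (an (an (an (chkCi [10] [11, 12] [9, 8, 7, 6, 5, 4, 3, 2, 1, 0] [[4, 5, 9, 5, 4, 8, 4, 5, 7, 3, 2, 0], [8, 7, 6, 8, 4, 5, 7, 5, 2, 1, 0]])
  (chkFix [11, 12] [[0x1111011010]]))
  (an (chkIds [9, 8, 7, 6, 5, 4, 3, 2, 1, 0] [10] [] 10 [[]] [([], 10, [])])
  (chkCj [10] [11, 12] [9, 8, 7, 6, 5, 4, 3, 2, 1, 0] [[4, 5, 9, 5, 4, 8, 4, 5, 7, 3, 2, 0], [8, 7, 6, 8, 4, 5, 7, 5, 2, 1, 0]])))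
  (an (an (chkOrb [11, 12] [[], [9]] [[0x1111011010]]
  ⟨0xecdbe8025b, 14, 197, 5, 0xa25ae48000004ae, 22⟩ 3 21
  [0x4a2a2ecaaab112d8] (Nat.pred (Nat.pow 2 22)))
  (chkIds [9, 8, 7, 6, 5, 4, 3, 2, 1, 0] [10] [10] 10 [[], [9]]
  [([], 18, []), ([6, 9, 4, 5, 7, 5, 4, 3, 1, 0], 10, [9])]))
  (an (chkBase [10, 9, 8, 7, 6, 5, 4, 3, 2, 1, 0] [9, 8, 7, 6, 5, 4, 3, 2, 1, 0] 1 18 [[], [9, 10, 5, 10], [8, 6, 10], [5, 8, 10], [5, 10], [3, 8, 10], [3, 10], [2, 10], [6, 9, 10], [4, 10], [7, 8, 10]])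
  (chkFin [] 23 13 10 14 15 9 2 16 17 [13, 14, 13, 14] [])))) :=
  ck_go (by decide +kernel)

theorem v0 : M.UB T0 [9, 8, 7, 6, 5, 4, 3, 2, 1, 0] 443520 := (ub_app T0a (by decide +kernel)).2 u1

theorem s00 : M.Le T0 [11, 12] [9, 8, 7, 6, 5, 4, 3, 2, 1, 0] := leD kT0 _ [11, 12] _ (by decide +kernel)

theorem d0 : M.CV T0 [10, 9, 8, 7, 6, 5, 4, 3, 2, 1, 0] [9, 8, 7, 6, 5, 4, 3, 2, 1, 0] [(10, 22)] :=
  cv_of (zs := [10]) (fa (rb_of s00 (cj_of kT0 c13.l.r.r) v0 b11 rfl) fa0)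
  (fa (rz_one (ids_of kT0 c13.l.r.l)) fa0)
  (fa (fa (rz_of s00 (cj_of kT0 c13.l.r.r) s00 (ci_of kT0 c13.l.l.l) (fix_of kT0 c13.l.l.r) v0 b11 rfl
    (or_of kT0 c13.r.l.l) rfl (ids_of kT0 c13.r.l.r)) fa0)
  fa0)

def B14a : List Ins := [(0, 0, [17, 15, 17, 15, 15, 15, 17, 17, 15, 15, 17]),
  (0, 0, [15, 16, 15, 15, 17, 16, 15]),
  (0, 0, [17, 15, 16, 15, 15, 16, 16, 15, 16, 16, 16, 17, 17, 15, 17]),
  (0, 0, [19, 20, 18, 20, 19, 20, 18, 20, 20, 20, 20, 19, 20, 19, 18, 20]),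
  (0, 0, [20, 18, 19, 18, 18, 18, 18, 18, 19, 20, 18]),
  (0, 0, [22, 22, 21, 22, 22, 21, 21]),
  (0, 0, [22, 22, 21, 22, 21, 22, 21, 22, 22, 21, 22, 22, 21, 21]),
  (0, 0, [23, 23, 24, 24, 23, 24, 24, 23]),
  (0, 0, [24, 23, 23, 24, 23, 23]),
  (0, 0, [24, 24, 23, 24, 24, 24, 23, 24, 24, 23]),
  (0, 0, [27, 26, 26, 25, 25, 26])]

def B14 : List Ins := T0 ++ B14a

theorem kB14 : M.Ok B14 := kT0.app (Mdl.ok_of (by decide +kernel))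

theorem c15 : M.Ck B14 (an (an (an (chkOrb [15, 16, 17] [[]] [[1]]
  ⟨0xa54f8767ed, 15, 197, 5, 0x68a0008903c001a012, 23⟩ 4 22
  [0x4198191784839259619173] (Nat.pred (Nat.pow 2 23)))
  (chkFix [18, 19, 20] [[1]]))
  (an (chkOrb [18, 19, 20] [[]] [[16]]
  ⟨0xe6b64138b3, 14, 261, 5, 0x528120a18011800a, 22⟩ 4 21
  [0x94159095158827398737] (Nat.pred (Nat.pow 2 22)))
  (an (chkFix [21, 22] [[16]])
  (chkOrb [21, 22] [[]] [[256]]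
  ⟨0xc2402801ed, 10, 261, 5, 0x68263104e4, 21⟩ 3 20
  [0x80d4e8b60aec4db] (Nat.pred (Nat.pow 2 21))))))
  (an (an (chkFix [23, 24] [[256]])
  (an (chkOrb [23, 24] [[]] [[4096]]
  ⟨0xd00ae6876b, 13, 183, 5, 0x1985c0004000b88d, 20⟩ 3 19
  [0x293642e8b4565b] (Nat.pred (Nat.pow 2 20)))
  (chkFix [25, 26, 27] [[4096]])))
  (an (chkOrb [25, 26, 27] [[]] [[65536]]
  ⟨0x8a2b7d1f15, 8, 235, 4, 0xfa11e0, 16⟩ 4 15
  [0x862907898077433] (Nat.pred (Nat.pow 2 16)))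
  (an (chkFix [28] [[65536]])
  (chkOrb [28] [[]] [[0x100000]]
  ⟨0xfeb03d53a3, 1, 35, 2, 0, 3⟩ 2 2
  [1] (Nat.pred (Nat.pow 2 3))))))) :=
  ck_go (by decide +kernel)

theorem b14 : M.LB T0 [15, 16, 17] 10200960 :=
  (lb_app B14a (by decide +kernel)).1 ((lb_orb (or_of kB14 c15.l.l.l) (leD kB14 _ [18, 19, 20] _ (by decide +kernel)) (fix_of kB14 c15.l.l.r)
  (lb_orb (or_of kB14 c15.l.r.l) (leD kB14 _ [21, 22] _ (by decide +kernel)) (fix_of kB14 c15.l.r.r.l)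
  (lb_orb (or_of kB14 c15.l.r.r.r) (leD kB14 _ [23, 24] _ (by decide +kernel)) (fix_of kB14 c15.r.l.l)
  (lb_orb (or_of kB14 c15.r.l.r.l) (leD kB14 _ [25, 26, 27] _ (by decide +kernel)) (fix_of kB14 c15.r.l.r.r)
  (lb_orb (or_of kB14 c15.r.r.l) (leD kB14 _ [28] _ (by decide +kernel)) (fix_of kB14 c15.r.r.r.l)
  (lb_orb (or_of kB14 c15.r.r.r.r) (le_sub rfl) (fix_nil _) (lb_one _))))))).mono rfl)

theorem e1 : M.Le T0 [15, 16, 17] [10, 9, 8, 7, 6, 5, 4, 3, 2, 1, 0] := leD kT0 _ [13, 14, 15, 16, 17] _ (by decide +kernel)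

theorem fin : Spor 10200960 :=
  spor kT0 d0 v0 ((b14.le e1).mono rfl) (co_base kT0 c13.r.r.l) (le_sub rfl) (cj_nil _) ub_nil (lb_one _)
    (by norm_num) (leD kT0 _ [13] _ (by decide +kernel)) c13.r.r.r
    (Subgroup.eq_of_le_of_card_ge e1 (le_trans (d0.ub v0) (b14.mono rfl))).ge (by decide +kernel)

end

end M23

theorem spor_M23 : Spor 10200960 := M23.fin

end Pool.Agent.Lib.MP_cad414_al.Cg
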