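import Pool.Agent.Lib.MP_cad414_al.Cg.Gl

/-! Certificate for the sporadic group M24. -/

namespace Pool.Agent.Lib.MP_cad414_al.Cg

namespace M24

open Mdl

attribute [local instance] gact

noncomputable section

def M := glM 2 11 4 1 1 1 8 (by decide)

def I : List Ins := [(0x6c04a00400801804d0400c010424c40c, 1, []),
  (0x6c00a0690080500200400c8160220428, 1, []),
  (0x2c04a04c0080c204504001a10620644e, 1, []),
  (0x6c06606906501504d0400a114920c42d, 1, []),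
  (0x4909806100805800d040052151219419, 1, []),
  (0x100700400801c04d02d081108209404, 1, []),
  (0xd01202c0400d804404801815c254414, 2, []),
  (0x640a30450080950610250a41c42e073e, 1, []),
  (0x3200200609a0800830d20101922907ef, 1, []),
  (0x800200d0010190410281090892007fe, 1, []),
  (0x13a01919b03910100a32913512a0637cd, 1, []),
  (0x1446ff7bc6f56ed1627ff5fd04263f542, 1, [])]

theorem kI : M.Ok I := Mdl.ok_of (by decide +kernel)

theorem c1 : M.Ck I (chkPcs [] [(0, 2, [], []), (1, 2, [[0]], []), (2, 2, [[1], [0]], []), (3, 2, [[2, 1, 0], [1], [0]], []), (4, 2, [[3, 1], [2], [1], [0]], []), (5, 2, [[4, 0], [3], [2, 1], [1], [0]], []), (6, 3, [[5, 3, 0], [4, 2, 1, 0], [5, 1], [4, 0], [1, 0], [1]], []), (7, 2, [[6, 6, 3], [5, 1, 0], [2], [5, 3, 1], [4], [0], [1]], [])]) :=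
  ck_go (by decide +kernel)

theorem u4 : M.UB I [7, 6, 5, 4, 3, 2, 1, 0] 384 :=
  ((ub_pc kI _ c1 ub_nil).le (le_sub (by decide +kernel))).mono (by decide +kernel)

def T3a : List Ins := [(0, 0, [7, 6, 3, 2, 1]),
  (0, 0, [6, 3, 1])]

def T3 : List Ins := I ++ T3a

theorem kT3 : M.Ok T3 := kI.app (Mdl.ok_of (by decide +kernel))

def B2a : List Ins := [(0, 0, [13, 12, 12, 13, 12, 13, 13, 12, 13, 12, 13, 13, 12, 12])]

def B2 : List Ins := T3 ++ B2a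

theorem kB2 : M.Ok B2 := kT3.app (Mdl.ok_of (by decide +kernel))

theorem c3 : M.Ck B2 (an (chkOrb [12, 13] [[]] [[69632]]
  ⟨0x81c70b7b61, 19, 521, 6, 0x200320100501a12801b56684300e, 48⟩ 3 47
  [0x115899a0d8ecb2b6eca6c5656e8a286ecadb] (Nat.pred (Nat.pow 2 48)))
  (an (chkFix [14] [[69632]])
  (chkOrb [14] [[]] [[16]]
  ⟨0xe9fd9f8ac1, 1, 31, 1, 0, 2⟩ 2 1
  [0] (Nat.pred (Nat.pow 2 2))))) :=
  ck_go (by decide +kernel)

theorem b2 : M.LB T3 [12, 13] 96 :=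
  (lb_app B2a (by decide +kernel)).1 ((lb_orb (or_of kB2 c3.l) (leD kB2 _ [14] _ (by decide +kernel)) (fix_of kB2 c3.r.l)
  (lb_orb (or_of kB2 c3.r.r) (le_sub rfl) (fix_nil _) (lb_one _))).mono rfl)

theorem c4 : M.Ck T3 (an (an (chkCi [8] [12, 13] [7, 6, 5, 4, 3, 2, 1, 0] [[7, 6, 4, 3, 2, 1], [6, 4, 3, 2, 1, 0]])
  (an (chkFix [12, 13] [[0x11110110, 0x11110111, 0x1111011010, 0x1111011011, 0x10010011110, 0x10010011111, 0x11110110100, 0x11110110101]])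
  (chkIds [7, 6, 5, 4, 3, 2, 1, 0] [8] [] 8 [[]] [([], 8, [])])))
  (an (chkCj [8] [12, 13] [7, 6, 5, 4, 3, 2, 1, 0] [[7, 6, 4, 3, 2, 1], [6, 4, 3, 2, 1, 0]])
  (an (chkOrb [12, 13] [[], [6]] [[0x11110110, 0x11110111, 0x1111011010, 0x1111011011, 0x10010011110, 0x10010011111, 0x11110110100, 0x11110110101]]
  ⟨0xf5491b3e6d, 1, 61, 2, 0, 4⟩ 3 3
  [272] (Nat.pred (Nat.pow 2 4)))
  (chkIds [7, 6, 5, 4, 3, 2, 1, 0] [8] [8] 8 [[], [6]]
  [([], 14, []), ([7, 5, 4, 2], 8, [6])])))) :=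
  ck_go (by decide +kernel)

theorem v3 : M.UB T3 [7, 6, 5, 4, 3, 2, 1, 0] 384 := (ub_app T3a (by decide +kernel)).2 u4

theorem s30 : M.Le T3 [12, 13] [7, 6, 5, 4, 3, 2, 1, 0] := leD kT3 _ [12, 13] _ (by decide +kernel)

theorem d3 : M.CV T3 [8, 7, 6, 5, 4, 3, 2, 1, 0] [7, 6, 5, 4, 3, 2, 1, 0] [(8, 4)] :=
  cv_of (zs := [8]) (fa (rb_of s30 (cj_of kT3 c4.r.l) v3 b2 rfl) fa0)
  (fa (rz_one (ids_of kT3 c4.l.r.r)) fa0)
  (fa (fa (rz_of s30 (cj_of kT3 c4.r.l) s30 (ci_of kT3 c4.l.l) (fix_of kT3 c4.l.r.l) v3 b2 rfl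
    (or_of kT3 c4.r.r.l) rfl (ids_of kT3 c4.r.r.r)) fa0)
  fa0)

theorem u3 : M.UB I [8, 7, 6, 5, 4, 3, 2, 1, 0] 1920 :=
  (ub_app T3a (by decide +kernel)).1 ((d3.ub v3).mono rfl)

def T2a : List Ins := [(0, 0, [7, 4, 3, 2, 1]),
  (0, 0, [7, 6, 2, 1, 0])]

def T2 : List Ins := I ++ T2a

theorem kT2 : M.Ok T2 := kI.app (Mdl.ok_of (by decide +kernel))

def B5a : List Ins := [(0, 0, [13, 12, 13, 13, 12, 13, 13, 13, 12, 12, 13])]

def B5 : List Ins := T2 ++ B5a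

theorem kB5 : M.Ok B5 := kT2.app (Mdl.ok_of (by decide +kernel))

theorem c6 : M.Ck B5 (an (chkOrb [12, 13] [[]] [[0x1010000]]
  ⟨0xaada283b65, 19, 511, 6, 0xc0111044c050a5030a40802a100e, 48⟩ 3 47
  [0x129b157650ecaaa6e8aacb53b0d91bb0dadb] (Nat.pred (Nat.pow 2 48)))
  (an (chkFix [14] [[0x1010000]])
  (chkOrb [14] [[]] [[16]]
  ⟨0xcaabce63b7, 1, 27, 1, 0, 2⟩ 2 1
  [0] (Nat.pred (Nat.pow 2 2))))) :=
  ck_go (by decide +kernel)

theorem b5 : M.LB T2 [12, 13] 96 :=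
  (lb_app B5a (by decide +kernel)).1 ((lb_orb (or_of kB5 c6.l) (leD kB5 _ [14] _ (by decide +kernel)) (fix_of kB5 c6.r.l)
  (lb_orb (or_of kB5 c6.r.r) (le_sub rfl) (fix_nil _) (lb_one _))).mono rfl)

theorem c7 : M.Ck T2 (an (an (chkCi [9] [12, 13] [8, 7, 6, 5, 4, 3, 2, 1, 0] [[7, 5, 4, 2, 1], [7, 6, 2, 1, 0]])
  (an (chkFix [12, 13] [[4096, 4097]])
  (chkIds [8, 7, 6, 5, 4, 3, 2, 1, 0] [9] [] 9 [[]] [([], 9, [])])))
  (an (chkCj [9] [12, 13] [8, 7, 6, 5, 4, 3, 2, 1, 0] [[7, 5, 4, 2, 1], [7, 6, 2, 1, 0]])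
  (an (chkOrb [12, 13] [[], [8], [7]] [[4096, 4097]]
  ⟨0xc3634c5877, 8, 287, 5, 0x808500504, 20⟩ 3 18
  [0x58ad163a2d4d8] (Nat.pred (Nat.pow 2 20)))
  (chkIds [8, 7, 6, 5, 4, 3, 2, 1, 0] [9] [9] 9 [[], [8], [7]]
  [([], 14, []), ([3, 6, 8, 7, 5, 3], 9, [8, 6, 7]), ([7], 9, [7])])))) :=
  ck_go (by decide +kernel)

theorem v2 : M.UB T2 [8, 7, 6, 5, 4, 3, 2, 1, 0] 1920 := (ub_app T2a (by decide +kernel)).2 u3

theorem s20 : M.Le T2 [12, 13] [8, 7, 6, 5, 4, 3, 2, 1, 0] := leD kT2 _ [12, 13] _ (by decide +kernel)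

theorem d2 : M.CV T2 [9, 8, 7, 6, 5, 4, 3, 2, 1, 0] [8, 7, 6, 5, 4, 3, 2, 1, 0] [(9, 20)] :=
  cv_of (zs := [9]) (fa (rb_of s20 (cj_of kT2 c7.r.l) v2 b5 rfl) fa0)
  (fa (rz_one (ids_of kT2 c7.l.r.r)) fa0)
  (fa (fa (rz_of s20 (cj_of kT2 c7.r.l) s20 (ci_of kT2 c7.l.l) (fix_of kT2 c7.l.r.l) v2 b5 rfl
    (or_of kT2 c7.r.r.l) rfl (ids_of kT2 c7.r.r.r)) fa0)
  fa0)

theorem u2 : M.UB I [9, 8, 7, 6, 5, 4, 3, 2, 1, 0] 40320 :=
  (ub_app T2a (by decide +kernel)).1 ((d2.ub v2).mono rfl)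

def T1a : List Ins := [(0, 0, [6, 5, 7, 0, 2, 3, 1]),
  (0, 0, [7, 9, 6, 8, 6, 6, 3, 2, 0])]

def T1 : List Ins := I ++ T1a

theorem kT1 : M.Ok T1 := kI.app (Mdl.ok_of (by decide +kernel))

def B8a : List Ins := [(0, 0, [12, 13, 13, 12, 12, 13]),
  (0, 0, [12, 12, 13, 13, 13, 12, 13, 12, 12])]

def B8 : List Ins := T1 ++ B8a

theorem kB8 : M.Ok B8 := kT1.app (Mdl.ok_of (by decide +kernel))

theorem c9 : M.Ck B8 (an (chkOrb [12, 13] [[]] [[4352]]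
  ⟨0xf38ee65e45, 64, 1391, 8, 0x17c3d092f0b01180a0103030008450045260782673a1100121e0000070e13110a0013000d224b04054700005e0100021e030001000b53017501080f05027014, 160⟩ 3 64
  [0x6dd94d95d0697455657636e836266c96375d903a1ba0badb, 0xa2a3456dd968a0baeab23a68b13aab6ec8eca9d15589d915, 0x10d9550ddb03aa8a1bb0da1b] (Nat.pred (Nat.pow 2 160)))
  (an (chkFix [14, 15] [[4352]])
  (chkOrb [14, 15] [[]] [[0x100000000]]
  ⟨0xfe24117b05, 8, 113, 4, 0xb005800, 12⟩ 3 11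
  [0x115562aab] (Nat.pred (Nat.pow 2 12))))) :=
  ck_go (by decide +kernel)

theorem b8 : M.LB T1 [12, 13] 1920 :=
  (lb_app B8a (by decide +kernel)).1 ((lb_orb (or_of kB8 c9.l) (leD kB8 _ [14, 15] _ (by decide +kernel)) (fix_of kB8 c9.r.l)
  (lb_orb (or_of kB8 c9.r.r) (le_sub rfl) (fix_nil _) (lb_one _))).mono rfl)

theorem c10 : M.Ck T1 (an (an (chkCi [10] [12, 13] [9, 8, 7, 6, 5, 4, 3, 2, 1, 0] [[7, 6, 6, 5, 2, 1, 0], [6, 9, 8, 9, 6, 8, 7, 6, 5, 2, 1]])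
  (an (chkFix [12, 13] [[65536, 65537]])
  (chkIds [9, 8, 7, 6, 5, 4, 3, 2, 1, 0] [10] [] 10 [[]] [([], 10, [])])))
  (an (chkCj [10] [12, 13] [9, 8, 7, 6, 5, 4, 3, 2, 1, 0] [[7, 6, 6, 5, 2, 1, 0], [6, 9, 8, 9, 6, 8, 7, 6, 5, 2, 1]])
  (an (chkOrb [12, 13] [[], [9]] [[65536, 65537]]
  ⟨0xfdaf5c85d1, 8, 319, 5, 0x484a08c640, 21⟩ 3 20
  [0x16135d16c5456d8] (Nat.pred (Nat.pow 2 21)))
  (chkIds [9, 8, 7, 6, 5, 4, 3, 2, 1, 0] [10] [10] 10 [[], [9]]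
  [([], 14, []), ([7, 8, 9, 8, 6, 4, 2, 1], 10, [6, 5])])))) :=
  ck_go (by decide +kernel)

theorem v1 : M.UB T1 [9, 8, 7, 6, 5, 4, 3, 2, 1, 0] 40320 := (ub_app T1a (by decide +kernel)).2 u2

theorem s10 : M.Le T1 [12, 13] [9, 8, 7, 6, 5, 4, 3, 2, 1, 0] := leD kT1 _ [12, 13] _ (by decide +kernel)

theorem d1 : M.CV T1 [10, 9, 8, 7, 6, 5, 4, 3, 2, 1, 0] [9, 8, 7, 6, 5, 4, 3, 2, 1, 0] [(10, 21)] :=
  cv_of (zs := [10]) (fa (rb_of s10 (cj_of kT1 c10.r.l) v1 b8 rfl) fa0)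
  (fa (rz_one (ids_of kT1 c10.l.r.r)) fa0)
  (fa (fa (rz_of s10 (cj_of kT1 c10.r.l) s10 (ci_of kT1 c10.l.l) (fix_of kT1 c10.l.r.l) v1 b8 rfl
    (or_of kT1 c10.r.r.l) rfl (ids_of kT1 c10.r.r.r)) fa0)
  fa0)

theorem u1 : M.UB I [10, 9, 8, 7, 6, 5, 4, 3, 2, 1, 0] 887040 :=
  (ub_app T1a (by decide +kernel)).1 ((d1.ub v1).mono rfl)

def T0a : List Ins := [(0, 0, [11, 10, 11]),
  (0, 0, [6, 6, 2, 4, 8, 7, 10, 7, 2]),
  (0, 0, [8, 9, 10, 8, 6, 4, 2, 0]),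
  (0, 0, [5, 7, 4, 10, 1, 10, 4, 9, 3, 7, 5, 1, 10, 4]),
  (0, 0, [10, 7, 10, 6, 9, 3, 8, 5, 1, 0]),
  (0, 0, [0, 8, 9, 8, 11, 3, 6, 8]),
  (0, 0, [11, 17, 11]),
  (0, 0, [17, 18, 17, 18, 17, 18]),
  (0, 0, [4, 19, 4]),
  (0, 0, [3, 19, 3])]

def T0 : List Ins := I ++ T0a

theorem kT0 : M.Ok T0 := kI.app (Mdl.ok_of (by decide +kernel))

def B11a : List Ins := [(0, 0, [13, 14, 13, 14, 14, 14, 13, 14, 14, 13, 14, 13, 14, 13, 14, 13, 13]),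
  (0, 0, [13, 13, 13, 13, 14, 13, 13, 13, 13, 14, 13, 14, 13, 13, 14, 14, 14, 14]),
  (0, 0, [23, 23, 22, 23, 23, 23, 22, 22, 22, 23, 23, 22, 23])]

def B11 : List Ins := T0 ++ B11a

theorem kB11 : M.Ok B11 := kT0.app (Mdl.ok_of (by decide +kernel))

theorem c12 : M.Ck B11 (an (an (chkOrb [13, 14] [[]] [[272]]
  ⟨0xb03729facd, 105, 3301, 8, 0x700000105070000000c034cc20b00000007870000001329a41997040093040000040e9d26000c034d00135e002e010018060a03011401191f296e7c0e2d110105020609c5020602000600ac020a0303000505030c5029010e0100bdc7b76a00050000000562000032, 210⟩ 3 64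
  [0xdd4ec55516d4e836ca8d8db741b19a29a1d765943a9d6db, 0x91d0dbb2a360adbb2c7602dd1654ec05db0d6dbb29b2c745, 0xb016ec15ba2c553a2a6dd145b5d961aeca1d6cba2a362355, 0x434555582b6e8] (Nat.pred (Nat.pow 2 210)))
  (chkFix [22, 23] [[272]]))
  (an (chkOrb [22, 23] [[]] [[0x101000]]
  ⟨0xbb35d299b7, 32, 565, 6, 0x225101200787040a8001600440000002401a1a708d140080, 48⟩ 3 47
  [0x109b2d745a0d6ecb19a1d8aab2b761a2a75b] (Nat.pred (Nat.pow 2 48)))
  (an (chkFix [24] [[0x101000]])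
  (chkOrb [24] [[]] [[4096]]
  ⟨0xda1dca5eb7, 1, 21, 1, 0, 2⟩ 2 1
  [0] (Nat.pred (Nat.pow 2 2)))))) :=
  ck_go (by decide +kernel)

theorem b11 : M.LB T0 [13, 14] 20160 :=
  (lb_app B11a (by decide +kernel)).1 ((lb_orb (or_of kB11 c12.l.l) (leD kB11 _ [22, 23] _ (by decide +kernel)) (fix_of kB11 c12.l.r)
  (lb_orb (or_of kB11 c12.r.l) (leD kB11 _ [24] _ (by decide +kernel)) (fix_of kB11 c12.r.r.l)
  (lb_orb (or_of kB11 c12.r.r.r) (le_sub rfl) (fix_nil _) (lb_one _)))).mono rfl)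

def B13a : List Ins := [(0, 0, [15, 15, 16, 15, 16, 15, 15, 16, 15, 16, 16, 16, 16]),
  (0, 0, [15, 16, 15, 16, 16, 16, 16, 16, 16, 16, 15, 16, 16, 16, 16, 16]),
  (0, 0, [15, 15, 16, 16, 15, 15, 16, 15, 15, 16, 16, 16, 16, 15, 16])]

def B13 : List Ins := T0 ++ B13a

theorem kB13 : M.Ok B13 := kT0.app (Mdl.ok_of (by decide +kernel))

theorem c14 : M.Ck B13 (an (chkOrb [15, 16] [[]] [[272]]
  ⟨0xab08fa94a1, 53, 1379, 8, 0x6962f3751854e4a9d35052d1b2c1b1a2a19374542010a04013c00002157460002400f2300653437636e0802600f95027c040f0401, 160⟩ 3 64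
  [0xb5d15590976b361b13aaab2b2ec34555504d0eb741a8badb, 0x15555174554175b745aa8acd86c65d9417692ec26836a2ea, 0x12c2eaa2b36445daac143755] (Nat.pred (Nat.pow 2 160)))
  (an (chkFix [22, 23, 24] [[272]])
  (chkOrb [22, 23, 24] [[]] [[69632]]
  ⟨0xbefc02260b, 12, 317, 5, 0x7bc0601db200460, 24⟩ 4 23
  [0x86969869697869698696973] (Nat.pred (Nat.pow 2 24))))) :=
  ck_go (by decide +kernel)

theorem b13 : M.LB T0 [15, 16] 3840 :=
  (lb_app B13a (by decide +kernel)).1 ((lb_orb (or_of kB13 c14.l) (leD kB13 _ [22, 23, 24] _ (by decide +kernel)) (fix_of kB13 c14.r.l)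
  (lb_orb (or_of kB13 c14.r.r) (le_sub rfl) (fix_nil _) (lb_one _))).mono rfl)

theorem c15 : M.Ck T0 (an (an (an (chkCi [11] [13, 14] [10, 9, 8, 7, 6, 5, 4, 3, 2, 1, 0] [[6, 10, 9, 7, 8, 9, 3, 6, 8, 6, 6], [9, 10, 4, 9, 8, 9, 6, 8, 6, 4, 3]])
  (chkFix [13, 14] [[0x1111011011]]))
  (an (chkIds [10, 9, 8, 7, 6, 5, 4, 3, 2, 1, 0] [11, 12] [] 11 [[]] [([], 11, [])])
  (an (chkCj [11] [13, 14] [10, 9, 8, 7, 6, 5, 4, 3, 2, 1, 0] [[6, 10, 9, 7, 8, 9, 3, 6, 8, 6, 6], [9, 10, 4, 9, 8, 9, 6, 8, 6, 4, 3]])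
  (chkOrb [13, 14] [[], [10], [6], [3, 9]] [[0x1111011011]]
  ⟨0xc793f6501f, 22, 445, 6, 0x6020869c002a2c20430011020400c8400, 44⟩ 3 42
  [0x48cd92a741b2a6d8b03b1bb15a0d2d8] (Nat.pred (Nat.pow 2 44))))))
  (an (an (chkIds [10, 9, 8, 7, 6, 5, 4, 3, 2, 1, 0] [11, 12] [11] 11 [[], [10], [6], [3, 9]]
  [([], 22, []), ([], 12, []), ([10, 7, 10, 9, 6, 6], 11, [6]), ([8, 9, 10, 9, 3, 8, 6, 5, 4, 3, 2, 1, 0], 11, [9, 3])])
  (an (chkCj [12] [15, 16] [10, 9, 8, 7, 6, 5, 4, 3, 2, 1, 0] [[3, 9, 10, 2, 9, 8, 9, 8, 7, 3, 2, 1], [2, 10, 7, 10, 7, 9, 6, 6, 5, 4, 3]])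
  (chkOrb [15, 16] [[], [10]] [[0x1111011011]]
  ⟨0x98cb812399, 29, 449, 6, 0x1602808044000500000900006140504034878018831b, 44⟩ 3 42
  [0x22b62b13aeca2c2dd868a5ba2d8eb723] (Nat.pred (Nat.pow 2 44)))))
  (an (chkIds [10, 9, 8, 7, 6, 5, 4, 3, 2, 1, 0] [11, 12] [12] 11 [[], [10]]
  [([], 11, [10]), ([3, 7, 10, 6, 9, 8, 9, 6, 8, 7, 2, 1, 0], 12, [10, 5, 0, 10])])
  (an (chkBase [11, 10, 9, 8, 7, 6, 5, 4, 3, 2, 1, 0] [10, 9, 8, 7, 6, 5, 4, 3, 2, 1, 0] 1 22 [[], [10, 0, 3, 11], [9, 7, 8, 11], [6, 8, 11], [0, 9, 11], [2, 10, 11], [4, 8, 11], [5, 7, 11], [1, 10, 11], [2, 8, 11], [10, 11]])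
  (chkFin [] 23 17 11 18 19 4 3 20 21 [17, 18, 17, 18, 17, 18] []))))) :=
  ck_go (by decide +kernel)

theorem v0 : M.UB T0 [10, 9, 8, 7, 6, 5, 4, 3, 2, 1, 0] 887040 := (ub_app T0a (by decide +kernel)).2 u1

theorem s00 : M.Le T0 [13, 14] [10, 9, 8, 7, 6, 5, 4, 3, 2, 1, 0] := leD kT0 _ [13, 14] _ (by decide +kernel)

theorem s01 : M.Le T0 [15, 16] [10, 9, 8, 7, 6, 5, 4, 3, 2, 1, 0] := leD kT0 _ [15, 16] _ (by decide +kernel)

theorem d0 : M.CV T0 [11, 10, 9, 8, 7, 6, 5, 4, 3, 2, 1, 0] [10, 9, 8, 7, 6, 5, 4, 3, 2, 1, 0] [(11, 44), (12, 231)] :=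
  cv_of (zs := [11]) (fa (rb_of s00 (cj_of kT0 c15.l.r.r.l) v0 b11 rfl) (fa (rb_of s01 (cj_of kT0 c15.r.l.r.l) v0 b13 rfl) fa0))
  (fa (rz_one (ids_of kT0 c15.l.r.l)) fa0)
  (fa (fa (rz_of s00 (cj_of kT0 c15.l.r.r.l) s00 (ci_of kT0 c15.l.l.l) (fix_of kT0 c15.l.l.r) v0 b11 rfl
    (or_of kT0 c15.l.r.r.r) rfl (ids_of kT0 c15.r.l.l)) fa0)
  (fa (fa (rz_of s01 (cj_of kT0 c15.r.l.r.l) s00 (ci_of kT0 c15.l.l.l) (fix_of kT0 c15.l.l.r) v0 b11 rfl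
    (or_of kT0 c15.r.l.r.r) rfl (ids_of kT0 c15.r.r.l)) fa0)
  fa0))

def B16a : List Ins := [(0, 0, [21, 20, 19, 20, 19, 20, 21, 20, 19, 21, 19, 19, 21, 19, 20, 20, 21, 19, 21, 20, 20]),
  (0, 0, [20, 19, 21, 19, 21, 21, 19, 20, 21, 20, 19]),
  (0, 0, [22, 23, 22, 23, 22, 22, 23, 22, 23, 23, 23, 23, 22, 22, 22, 22]),
  (0, 0, [23, 22, 23, 23, 23, 23, 22, 23, 23, 23, 22, 22, 22, 22, 22, 22, 23, 22, 23, 23, 23, 22, 22]),
  (0, 0, [22, 23, 22, 23, 23, 22, 23, 23, 22, 23, 23, 23, 23, 23, 23, 23, 22, 23, 22, 23, 22, 23]),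
  (0, 0, [25, 26, 24, 24, 26, 25, 24, 26, 26, 25, 24, 25, 24]),
  (0, 0, [25, 26, 24, 24, 24, 25, 24, 25, 25, 26, 26, 25, 24, 24]),
  (0, 0, [25, 26, 26, 26, 25, 25, 26, 25, 24, 26, 24])]

def B16 : List Ins := T0 ++ B16a

theorem kB16 : M.Ok B16 := kT0.app (Mdl.ok_of (by decide +kernel))

theorem c17 : M.Ck B16 (an (an (chkOrb [19, 20, 21] [[]] [[1]]
  ⟨0xc55a633523, 184, 2453, 9, 0xa814000b0b000c6040600806008800004015402c0000840400a00418b006e218894020000b9000126f0020a83000059e00010000600003c06c000080006020011002005780a1000003e9360409a45300004b280000000000e00008040056008040000208600000000000000028000000261159403118300000003b80a01000007081638440e0c0000008e91b0181a15432740000000054c0000801e6e9608640a000103402014d000029500000010a00000005b000e912fe0042dbe08000003013003c5c400001841803001b00000, 276⟩ 4 64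
  [0x8359859739837394839835905959597190925849493739250590583983739373, 0x9835419259159073985961937805935853942935059598258596398358250539, 0x9854398593739825915498359497393739825882739496193585905825398373, 0x9859359483952985937398259835429259092739358819835949835935090935, 0x4839815807393585493] (Nat.pred (Nat.pow 2 276)))
  (an (chkFix [22, 23] [[1]])
  (chkOrb [22, 23] [[]] [[272]]
  ⟨0xbc2c2e3153, 92, 2241, 8, 0x7e138300031244a700594d020719000163b40810070008042f0004000236000c1a1e00041700002106310493003802130104d50002be0019001703412ec91620212220043707690705032d000107a60be600000006551f0307032601, 231⟩ 3 64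
  [0xaebb1594d755b0d96aaebb22aeaa6bb15365760aebaabaeb, 0xaeaaac355563b6aaebb0db45ae9b2576baac8eab6ab558aa, 0x55d86aa6ab0d54575d155aec3558eaa2daabaabaec34d86a, 0x5aacaecaadb5d54515d91d762b5d] (Nat.pred (Nat.pow 2 231)))))
  (an (an (chkFix [24, 25, 26] [[272]])
  (chkOrb [24, 25, 26] [[]] [[69632]]
  ⟨0x8d6f9d93e3, 106, 2557, 8, 0x71040006010102000001002001002100000000506900060b0b005c84009f0e410201030005034d031d05000271008e7100020042659b05638041000338810200930101000000022e0b0000000709502400030007534338000b008f022801144b4a8f030001009e7126, 160⟩ 4 64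
  [0x8783337842398829074233901909278290978933370905398190390982337333, 0x3398919821398837019298190937887333781998190998174133909290983789, 0x4219829098150337398829829013742] (Nat.pred (Nat.pow 2 160))))
  (an (chkFix [27, 28, 29] [[69632]])
  (chkOrb [27, 28, 29] [[]] [[0x1100000]]
  ⟨0xb033986c11, 16, 201, 5, 0x1380558c0001c0110020, 24⟩ 4 23
  [0x49494943537494949435373] (Nat.pred (Nat.pow 2 24)))))) :=
  ck_go (by decide +kernel)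

theorem b16 : M.LB T0 [19, 20, 21] 244823040 :=
  (lb_app B16a (by decide +kernel)).1 ((lb_orb (or_of kB16 c17.l.l) (leD kB16 _ [22, 23] _ (by decide +kernel)) (fix_of kB16 c17.l.r.l)
  (lb_orb (or_of kB16 c17.l.r.r) (leD kB16 _ [24, 25, 26] _ (by decide +kernel)) (fix_of kB16 c17.r.l.l)
  (lb_orb (or_of kB16 c17.r.l.r) (leD kB16 _ [27, 28, 29] _ (by decide +kernel)) (fix_of kB16 c17.r.r.l)
  (lb_orb (or_of kB16 c17.r.r.r) (le_sub rfl) (fix_nil _) (lb_one _))))).mono rfl)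

theorem e1 : M.Le T0 [19, 20, 21] [11, 10, 9, 8, 7, 6, 5, 4, 3, 2, 1, 0] := leD kT0 _ [17, 18, 19, 20, 21] _ (by decide +kernel)

theorem fin : Spor 244823040 :=
  spor kT0 d0 v0 ((b16.le e1).mono rfl) (co_base kT0 c15.r.r.r.l) (le_sub rfl) (cj_nil _) ub_nil (lb_one _)
    (by norm_num) (leD kT0 _ [17] _ (by decide +kernel)) c15.r.r.r.r
    (Subgroup.eq_of_le_of_card_ge e1 (le_trans (d0.ub v0) (b16.mono rfl))).ge (by decide +kernel)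

end

end M24

theorem spor_M24 : Spor 244823040 := M24.fin

end Pool.Agent.Lib.MP_cad414_al.Cg
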