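import Pool.Agent.Lib.MP_cad414_al.Cg.Gl

/-! Certificate for the sporadic group McL. -/

namespace Pool.Agent.Lib.MP_cad414_al.Cg

namespace McL

open Mdl

attribute [local instance] gact

noncomputable section

def M := glM 2 23 5 1 1 1 10 (by decide)

def I : List Ins := [(0x28d5c5286498084c2c28d5cc2088ad08eab508fb91049a5e046f250829eb0ca43604839a04c9c92883042c099b088f2a2946cf0261711005f72c037524ec5a00bbcd440f20, 2, []),
  (0x20f9d528a684046d3f20f9dc2c4d7b1c8e7c00e4980879732cbc6024100e2cecdd087577285243089f390067ce24b17309ee2a2665bc0c99850c69bf209356285f7864f320, 2, []),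
  (0x18cc803ceea400a4d518701438308024da3510cac50cb38124c8280cacb5045da730adf4142eb624cff10431f70c792739ff132e0e47105cc02c17c30ceae434215774d656, 2, []),
  (0x20d46c28512e10d8a12040c928a48408950d102c600cd1ad2c91c8307fa93c098d1c4c092cb4080888e914c58c20b8e509b8c422f8a0085dcd0c60f42440e8282d4c74d405, 2, []),
  (0xcd84700221e284cad288eda0cfa7128acee28ac9b2c20512025662476bf0cd3f228a4ce045e53286c9e0423cc08dbf82565812ed1bf1021230cf0b92c93450c7e45647b3c, 2, []),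
  (0x357ae020308400b06b20d89325e22f0453862da19521017f2ce38425921e2193310872ac0d22792062a72d1a8d29a3780dc14e0618912c59662c703c0133cb04879660e1d4, 2, []),
  (0x8c9d228849a104c0d08c9db386c54349c4f00f58e205855389d5618230f38dcd320454b286156208d1b0045dc18b14d21fc001a658a3099b3306998089044287d4458d11d, 1, []),
  (0x46ac90839c10487553c620914d6d21cf8903438ae3c92e8107991003cf62c283714fee620a8c014ffe4109600240f97395d0706ae1630ff570cd3d0248ba13c92ac785631, 3, []),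
  (0x25610c28690214210831400924410d19682b0cc01b2c6587012110357404094100180111152b1e100d0b18491120255c356c162e65070c65102c00172c0906150d0c502d0b, 1, []),
  (0x3e99840d9b35212e282f95923798012a851d2fd4f9126d3d011ea510841b1b290a0fed30378811222ead18d82a2b5bbb1496bc196c290ccab31852991b7f9337e8bb746c12, 1, []),
  (0x30114e413d87064ecf3303c22219152129e305660c422f802218051256c2124883245fce1130cd663e4456574a53978c623cc116384a6706c36e3c075737871509c8347084, 1, [])]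

theorem kI : M.Ok I := Mdl.ok_of (by decide +kernel)

theorem c1 : M.Ck I (chkPcs [] [(0, 3, [], []), (1, 3, [[0]], []), (2, 3, [[1], [0]], []), (3, 3, [[2, 2, 1, 1], [2], [2, 2, 1, 0]], []), (4, 3, [[3], [2], [1], [2, 2, 1, 0]], []), (5, 3, [[4, 2, 2, 1, 0, 0], [3, 2, 2, 1, 1, 0, 0], [2], [1], [0]], []), (6, 2, [[5, 1, 0], [4, 4], [3, 3], [2, 1], [1, 1], [0, 0]], []), (7, 2, [[6, 4, 3, 2, 2, 1, 1, 0], [5, 5, 2], [4, 3, 3, 2, 1, 1], [4, 4, 3, 3, 2, 2, 1], [0], [2, 1, 1, 0], [2, 2]], [6, 4, 4, 3, 0])]) :=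
  ck_go (by decide +kernel)

theorem u3 : M.UB I [7, 6, 5, 4, 3, 2, 1, 0] 2916 :=
  ((ub_pc kI _ c1 ub_nil).le (le_sub (by decide +kernel))).mono (by decide +kernel)

def T2a : List Ins := [(0, 0, [2, 2, 0, 0]),
  (0, 0, [3, 6, 1, 7, 1, 5]),
  (0, 0, [7, 7, 2, 4, 5])]

def T2 : List Ins := I ++ T2a

theorem kT2 : M.Ok T2 := kI.app (Mdl.ok_of (by decide +kernel))

def B2a : List Ins := [(0, 0, [11, 11, 12, 11, 12, 11, 11]),
  (0, 0, [12, 11, 13, 11, 13, 13, 11, 11])]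

def B2 : List Ins := T2 ++ B2a

theorem kB2 : M.Ok B2 := kT2.app (Mdl.ok_of (by decide +kernel))

theorem c3 : M.Ck B2 (an (chkOrb [11, 12, 13] [[]] [[32]]
  ⟨0xbb2da06a65, 32, 1073, 7, 0x40126044c59e2201783020010006300903c14e831efd59f8620000, 81⟩ 4 64
  [0x8968239869827498723786298257493378998743988729883378680739852733, 0x4969865852378239] (Nat.pred (Nat.pow 2 81)))
  (an (chkFix [14, 15] [[32]])
  (chkOrb [14, 15] [[]] [[1024]]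
  ⟨0xcaa8e51801, 2, 65, 2, 3, 4⟩ 3 3
  [291] (Nat.pred (Nat.pow 2 4))))) :=
  ck_go (by decide +kernel)

theorem b2 : M.LB T2 [11, 12, 13] 324 :=
  (lb_app B2a (by decide +kernel)).1 ((lb_orb (or_of kB2 c3.l) (leD kB2 _ [14, 15] _ (by decide +kernel)) (fix_of kB2 c3.r.l)
  (lb_orb (or_of kB2 c3.r.r) (le_sub rfl) (fix_nil _) (lb_one _))).mono rfl)

theorem c4 : M.Ck T2 (an (an (chkCi [8] [11, 12, 13] [7, 6, 5, 4, 3, 2, 1, 0] [[5, 2, 1, 1, 0, 0], [7, 4, 3, 2, 1, 0, 0], [6, 5, 3, 0, 0]])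
  (an (chkFix [11, 12, 13] [[0x210000000020080200842100021, 0x4000802000421004000040000020, 0x4210802008400084200802008420]])
  (chkIds [7, 6, 5, 4, 3, 2, 1, 0] [8] [] 8 [[]] [([], 8, [])])))
  (an (chkCj [8] [11, 12, 13] [7, 6, 5, 4, 3, 2, 1, 0] [[5, 2, 1, 1, 0, 0], [7, 4, 3, 2, 1, 0, 0], [6, 5, 3, 0, 0]])
  (an (chkOrb [11, 12, 13] [[], [7], [4]] [[0x210000000020080200842100021, 0x4000802000421004000040000020, 0x4210802008400084200802008420]]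
  ⟨0xea8a425341, 4, 129, 4, 17216, 9⟩ 4 7
  [0x8878870] (Nat.pred (Nat.pow 2 9)))
  (chkIds [7, 6, 5, 4, 3, 2, 1, 0] [8] [8] 8 [[], [7], [4]]
  [([], 14, []), ([6, 0], 8, [7]), ([7, 6, 5, 2, 2, 1, 1, 0, 0], 8, [7, 7, 3])])))) :=
  ck_go (by decide +kernel)

theorem v2 : M.UB T2 [7, 6, 5, 4, 3, 2, 1, 0] 2916 := (ub_app T2a (by decide +kernel)).2 u3

theorem s20 : M.Le T2 [11, 12, 13] [7, 6, 5, 4, 3, 2, 1, 0] := leD kT2 _ [11, 12, 13] _ (by decide +kernel)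

theorem d2 : M.CV T2 [8, 7, 6, 5, 4, 3, 2, 1, 0] [7, 6, 5, 4, 3, 2, 1, 0] [(8, 9)] :=
  cv_of (zs := [8]) (fa (rb_of s20 (cj_of kT2 c4.r.l) v2 b2 rfl) fa0)
  (fa (rz_one (ids_of kT2 c4.l.r.r)) fa0)
  (fa (fa (rz_of s20 (cj_of kT2 c4.r.l) s20 (ci_of kT2 c4.l.l) (fix_of kT2 c4.l.r.l) v2 b2 rfl
    (or_of kT2 c4.r.r.l) rfl (ids_of kT2 c4.r.r.r)) fa0)
  fa0)

theorem u2 : M.UB I [8, 7, 6, 5, 4, 3, 2, 1, 0] 29160 :=
  (ub_app T2a (by decide +kernel)).1 ((d2.ub v2).mono rfl)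

def T1a : List Ins := [(0, 0, [9, 7, 4, 9]),
  (0, 0, [7, 6, 1, 7, 3, 7, 4, 5, 8, 5, 7]),
  (0, 0, [7, 5, 6, 2, 2, 6]),
  (0, 0, [3, 8, 0, 1, 2, 6]),
  (0, 0, [7, 3, 8, 8, 7, 8, 5, 3]),
  (0, 0, [0, 8, 1, 7, 8, 1])]

def T1 : List Ins := I ++ T1a

theorem kT1 : M.Ok T1 := kI.app (Mdl.ok_of (by decide +kernel))

def B5a : List Ins := [(0, 0, [12, 13, 13, 13, 12, 13, 12, 13, 12, 12, 12, 13, 13, 13, 12]),
  (0, 0, [12, 13, 12, 12, 13, 13, 12, 12, 13, 12, 13, 12, 12, 13, 13])]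

def B5 : List Ins := T1 ++ B5a

theorem kB5 : M.Ok B5 := kT1.app (Mdl.ok_of (by decide +kernel))

theorem c6 : M.Ck B5 (an (chkOrb [12, 13] [[]] [[1024]]
  ⟨0xc35984a91f, 18, 413, 6, 0xc42061e5c700c0402c2422040, 45⟩ 3 44
  [0x8a9a2d7652ec1550dd86c4e82e8b13adb] (Nat.pred (Nat.pow 2 45)))
  (an (chkFix [17, 18] [[1024]])
  (chkOrb [17, 18] [[]] [[32]]
  ⟨0xbb1ad139ed, 5, 101, 3, 1986, 8⟩ 3 7
  [0x10d86b] (Nat.pred (Nat.pow 2 8))))) :=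
  ck_go (by decide +kernel)

theorem b5 : M.LB T1 [12, 13] 360 :=
  (lb_app B5a (by decide +kernel)).1 ((lb_orb (or_of kB5 c6.l) (leD kB5 _ [17, 18] _ (by decide +kernel)) (fix_of kB5 c6.r.l)
  (lb_orb (or_of kB5 c6.r.r) (le_sub rfl) (fix_nil _) (lb_one _))).mono rfl)

def B7a : List Ins := [(0, 0, [15, 16, 16, 14]),
  (0, 0, [16, 14, 16, 16, 14, 16, 14]),
  (0, 0, [16, 15, 15, 15, 16, 14, 15]),
  (0, 0, [17, 18, 18, 17, 18])]

def B7 : List Ins := T1 ++ B7a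

theorem kB7 : M.Ok B7 := kT1.app (Mdl.ok_of (by decide +kernel))

theorem c8 : M.Ck B7 (an (an (chkOrb [14, 15, 16] [[]] [[32]]
  ⟨0xea359d02c3, 27, 755, 6, 0x1304300d5406c06042c00c11497453450847a6000, 54⟩ 4 53
  [0x44394298672743941598694967786942737841786398629685373] (Nat.pred (Nat.pow 2 54)))
  (chkFix [17, 18, 19] [[32]]))
  (an (chkOrb [17, 18, 19] [[]] [[0x100000]]
  ⟨0xe2bc10f99f, 6, 137, 4, 0x306001, 9⟩ 4 8
  [0x42949873] (Nat.pred (Nat.pow 2 9)))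
  (an (chkFix [20] [[0x100000]])
  (chkOrb [20] [[]] [[1024]]
  ⟨0xf0affa2d2d, 1, 23, 1, 0, 2⟩ 2 1
  [0] (Nat.pred (Nat.pow 2 2)))))) :=
  ck_go (by decide +kernel)

theorem b7 : M.LB T1 [14, 15, 16] 972 :=
  (lb_app B7a (by decide +kernel)).1 ((lb_orb (or_of kB7 c8.l.l) (leD kB7 _ [17, 18, 19] _ (by decide +kernel)) (fix_of kB7 c8.l.r)
  (lb_orb (or_of kB7 c8.r.l) (leD kB7 _ [20] _ (by decide +kernel)) (fix_of kB7 c8.r.r.l)
  (lb_orb (or_of kB7 c8.r.r.r) (le_sub rfl) (fix_nil _) (lb_one _)))).mono rfl)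

theorem c9 : M.Ck T1 (an (an (an (chkCi [9] [12, 13] [8, 7, 6, 5, 4, 3, 2, 1, 0] [[8, 7, 6, 5, 2, 1, 1, 0], [7, 8, 7, 6, 5, 5, 4, 4, 1, 1, 0, 0]])
  (chkFix [12, 13] [[0x4000842108001084200800000420]]))
  (an (chkIds [8, 7, 6, 5, 4, 3, 2, 1, 0] [9, 11] [] 9 [[]] [([], 9, [])])
  (chkCj [9] [12, 13] [8, 7, 6, 5, 4, 3, 2, 1, 0] [[8, 7, 6, 5, 2, 1, 1, 0], [7, 8, 7, 6, 5, 5, 4, 4, 1, 1, 0, 0]])))
  (an (an (chkOrb [12, 13] [[], [8], [5], [4, 8]] [[0x4000842108001084200800000420]]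
  ⟨0xa63f534f13, 27, 721, 7, 0x5661c8e0c29b48080800c310b1140008d060464c7400e80, 81⟩ 3 64
  [0x55360d89d14374581bb03b2b6c1b03a9d9606eba28765758, 0x1360765745] (Nat.pred (Nat.pow 2 81)))
  (chkIds [8, 7, 6, 5, 4, 3, 2, 1, 0] [9, 11] [9] 9 [[], [8], [5], [4, 8]]
  [([], 17, []), ([4, 7, 8, 7, 6, 5, 5, 3, 2, 2, 1, 1, 0], 9, [2, 7]), ([7, 6, 8, 7, 6, 5, 4, 3, 2, 2, 1, 1, 0, 0], 9, [7, 5]), ([4, 8, 6, 5, 5, 0, 0], 11, [6, 4])]))
  (an (chkCj [11] [14, 15, 16] [8, 7, 6, 5, 4, 3, 2, 1, 0] [[7, 6, 8, 5, 5, 4, 3, 3, 2, 1, 1, 0, 0], [4, 6, 8, 6, 5, 5, 4, 4, 0], [7, 8, 6, 4, 4, 2, 1, 1, 0, 0]])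
  (an (chkOrb [14, 15, 16] [[], [4]] [[0x4000842108001084200800000420]]
  ⟨0xfacdc5fc1f, 54, 835, 7, 0x3003e6410000040124a002a51010f3806001800e106800a000900054001001490d6434402004df01006c902042e083, 81⟩ 4 64
  [0x9643942927305985437298947298629477092942737459829472986578827373, 0x495493948639709] (Nat.pred (Nat.pow 2 81)))
  (chkIds [8, 7, 6, 5, 4, 3, 2, 1, 0] [9, 11] [11] 9 [[], [4]]
  [([], 9, [7, 4]), ([4, 6, 8, 7, 2, 2, 1, 0, 0], 11, [4])]))))) :=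
  ck_go (by decide +kernel)

theorem v1 : M.UB T1 [8, 7, 6, 5, 4, 3, 2, 1, 0] 29160 := (ub_app T1a (by decide +kernel)).2 u2

theorem s10 : M.Le T1 [12, 13] [8, 7, 6, 5, 4, 3, 2, 1, 0] := leD kT1 _ [12, 13] _ (by decide +kernel)

theorem s11 : M.Le T1 [14, 15, 16] [8, 7, 6, 5, 4, 3, 2, 1, 0] := leD kT1 _ [14, 15, 16] _ (by decide +kernel)

theorem d1 : M.CV T1 [9, 8, 7, 6, 5, 4, 3, 2, 1, 0] [8, 7, 6, 5, 4, 3, 2, 1, 0] [(9, 81), (11, 30)] :=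
  cv_of (zs := [9]) (fa (rb_of s10 (cj_of kT1 c9.l.r.r) v1 b5 rfl) (fa (rb_of s11 (cj_of kT1 c9.r.r.l) v1 b7 rfl) fa0))
  (fa (rz_one (ids_of kT1 c9.l.r.l)) fa0)
  (fa (fa (rz_of s10 (cj_of kT1 c9.l.r.r) s10 (ci_of kT1 c9.l.l.l) (fix_of kT1 c9.l.l.r) v1 b5 rfl
    (or_of kT1 c9.r.l.l) rfl (ids_of kT1 c9.r.l.r)) fa0)
  (fa (fa (rz_of s11 (cj_of kT1 c9.r.r.l) s10 (ci_of kT1 c9.l.l.l) (fix_of kT1 c9.l.l.r) v1 b5 rfl
    (or_of kT1 c9.r.r.r.l) rfl (ids_of kT1 c9.r.r.r.r)) fa0)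
  fa0))

theorem u1 : M.UB I [9, 8, 7, 6, 5, 4, 3, 2, 1, 0] 3265920 :=
  (ub_app T1a (by decide +kernel)).1 ((d1.ub v1).mono rfl)

def T0a : List Ins := [(0, 0, [10, 7, 10]),
  (0, 0, [3]),
  (0, 0, [8, 5, 4, 9, 6, 8, 4, 9, 2, 8, 4, 8]),
  (0, 0, [9, 0, 7, 1, 1]),
  (0, 0, [9, 2, 0, 5, 4, 8, 8]),
  (0, 0, [10, 8, 7, 7, 7, 8]),
  (0, 0, [10, 16, 10]),
  (0, 0, [16, 17]),
  (0, 0, [10, 18, 10]),
  (0, 0, [9, 18, 9])]

def T0 : List Ins := I ++ T0a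

theorem kT0 : M.Ok T0 := kI.app (Mdl.ok_of (by decide +kernel))

def B10a : List Ins := [(0, 0, [13, 13, 13, 13, 13, 12, 13, 12, 12, 12, 13, 12, 12, 12, 13, 12, 13]),
  (0, 0, [13, 13, 13, 12, 13, 12, 13, 13, 12, 12, 13, 13, 13]),
  (0, 0, [12, 12, 13, 13, 13, 13, 12, 13, 12, 12, 13, 13, 13, 13, 12, 13]),
  (0, 0, [22, 23, 21, 22, 21, 23, 21, 22, 22, 23])]

def B10 : List Ins := T0 ++ B10a

theorem kB10 : M.Ok B10 := kT0.app (Mdl.ok_of (by decide +kernel))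

theorem c11 : M.Ck B10 (an (an (chkOrb [12, 13] [[]] [[32768]]
  ⟨0xb5d094113f, 42, 929, 7, 0x12aa08019210089b940600004001c4c2623cb0a0c70cbac2685020400081014c581000c180, 105⟩ 3 64
  [0xb15360aec8ab743a9d6ecb0d2ea361a4d89db1ba2d8e935b, 0x8a8a9d8ecaaa361b13add80d668353] (Nat.pred (Nat.pow 2 105)))
  (chkFix [21, 22, 23] [[32768]]))
  (an (chkOrb [21, 22, 23] [[]] [[0x200000000000]]
  ⟨0x88acb4f717, 32, 775, 6, 0x10032d87d4c10c234814500d0140010039f400d00f00d003, 64⟩ 4 63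
  [0x96254594598727239485239872786250394254390597278683529429683733] (Nat.pred (Nat.pow 2 64)))
  (an (chkFix [24] [[0x200000000000]])
  (chkOrb [24] [[]] [[32]]
  ⟨0xf24bf0bef3, 1, 41, 2, 0, 3⟩ 2 2
  [1] (Nat.pred (Nat.pow 2 3)))))) :=
  ck_go (by decide +kernel)

theorem b10 : M.LB T0 [12, 13] 20160 :=
  (lb_app B10a (by decide +kernel)).1 ((lb_orb (or_of kB10 c11.l.l) (leD kB10 _ [21, 22, 23] _ (by decide +kernel)) (fix_of kB10 c11.l.r)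
  (lb_orb (or_of kB10 c11.r.l) (leD kB10 _ [24] _ (by decide +kernel)) (fix_of kB10 c11.r.r.l)
  (lb_orb (or_of kB10 c11.r.r.r) (le_sub rfl) (fix_nil _) (lb_one _)))).mono rfl)

def B12a : List Ins := [(0, 0, [14, 14, 15, 15, 15, 14, 15, 14, 15, 15]),
  (0, 0, [14, 15, 15, 14, 15, 14, 15, 15, 14, 15, 14]),
  (0, 0, [22, 22, 21, 22, 22, 22, 22, 21, 21, 22, 21]),
  (0, 0, [21, 21, 22, 21, 22, 21, 21, 22, 22, 21, 22])]

def B12 : List Ins := T0 ++ B12a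

theorem kB12 : M.Ok B12 := kT0.app (Mdl.ok_of (by decide +kernel))

theorem c13 : M.Ck B12 (an (an (chkOrb [14, 15] [[]] [[32]]
  ⟨0xc48a101537, 54, 1135, 7, 0x51a00e040008780004800a0a003930091b8000000010a0000e0005f00140800300012460000f00340000c4400000, 81⟩ 3 64
  [0x2e83616dd913b2bb23a2b66c562b116ecb0d7623642dd6db, 0x951b152ecb2d] (Nat.pred (Nat.pow 2 81)))
  (chkFix [21, 22] [[32]]))
  (an (chkOrb [21, 22] [[]] [[1024]]
  ⟨0xe259a98c45, 22, 425, 6, 0x8c10014404010400140101c07410c2000, 45⟩ 3 44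
  [0x91d959a0d15d15bb2c668a1d4ec16375b] (Nat.pred (Nat.pow 2 45)))
  (an (chkFix [23, 24] [[1024]])
  (chkOrb [23, 24] [[]] [[32768]]
  ⟨0xcfd090406f, 3, 67, 3, 432, 8⟩ 3 7
  [182427] (Nat.pred (Nat.pow 2 8)))))) :=
  ck_go (by decide +kernel)

theorem b12 : M.LB T0 [14, 15] 29160 :=
  (lb_app B12a (by decide +kernel)).1 ((lb_orb (or_of kB12 c13.l.l) (leD kB12 _ [21, 22] _ (by decide +kernel)) (fix_of kB12 c13.l.r)
  (lb_orb (or_of kB12 c13.r.l) (leD kB12 _ [23, 24] _ (by decide +kernel)) (fix_of kB12 c13.r.r.l)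
  (lb_orb (or_of kB12 c13.r.r.r) (le_sub rfl) (fix_nil _) (lb_one _)))).mono rfl)

theorem c14 : M.Ck T0 (an (an (an (chkCi [10] [12, 13] [9, 8, 7, 6, 5, 4, 3, 2, 1, 0] [[3, 2, 9, 7, 6, 8, 7, 4, 4, 3, 3, 2, 1, 0, 0], [0, 5, 7, 9, 8, 5, 5, 4, 4, 3, 1, 0]])
  (chkFix [12, 13] [[0x200000008000000210840108400]]))
  (an (chkIds [9, 8, 7, 6, 5, 4, 3, 2, 1, 0] [10, 11] [] 10 [[]] [([], 10, [])])
  (an (chkCj [10] [12, 13] [9, 8, 7, 6, 5, 4, 3, 2, 1, 0] [[3, 2, 9, 7, 6, 8, 7, 4, 4, 3, 3, 2, 1, 0, 0], [0, 5, 7, 9, 8, 5, 5, 4, 4, 3, 1, 0]])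
  (chkOrb [12, 13] [[], [9], [7]] [[0x200000008000000210840108400]]
  ⟨0xf26cd3d8c7, 64, 1871, 8, 0x9c5200040028053400014e2a0300003054082c0c854a2600010000000301093e0054120300000f340a2c0611004466011c2c083181001300840b00050e395625, 162⟩ 3 64
  [0xa9d6e834d9552e8b1bb2d4ed86c2ec0ea741a2d8dd15bad8, 0x741aecb0bb1ba0dadc54546c6ea3450e8749b2a35589d96a, 0x16cb6c55bb1589d81d6e8b15] (Nat.pred (Nat.pow 2 162))))))
  (an (an (chkIds [9, 8, 7, 6, 5, 4, 3, 2, 1, 0] [10, 11] [10] 10 [[], [9], [7]]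
  [([], 21, []), ([6, 9, 7, 8, 7, 3], 10, [8, 5, 0]), ([], 11, [])])
  (an (chkCj [11] [14, 15] [9, 8, 7, 6, 5, 4, 3, 2, 1, 0] [[7, 6, 9, 7, 6, 8, 6, 5, 5, 2, 1, 0, 0], [9, 2, 6, 8, 9, 7, 8, 5, 3, 2, 1, 0, 0]])
  (chkOrb [14, 15] [[], [7]] [[0x200000008000000210840108400]]
  ⟨0x9d494a599b, 108, 1597, 8, 0x55000600030d86000000003f000700080c001f00000001019e0100380003010741000000000107360000005b9e000434008803043604159700060048018f0605000093012f090001552115761500046000000400000001506700006f1c580b087202320000410075900000, 162⟩ 3 64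
  [0x46a7458abb282dd760aec541b137642eb76481bb03b1d6db, 0x819a0d89bb0d555913a296dd868a1976565b163b1589b345, 0x88d95d14589b364553b156dd] (Nat.pred (Nat.pow 2 162)))))
  (an (chkIds [9, 8, 7, 6, 5, 4, 3, 2, 1, 0] [10, 11] [11] 10 [[], [7]]
  [([], 10, [7]), ([2, 4, 9, 8, 7, 6, 5, 5, 3, 3, 2, 2, 0], 11, [5, 9, 6, 9])])
  (an (chkBase [10, 9, 8, 7, 6, 5, 4, 3, 2, 1, 0] [9, 8, 7, 6, 5, 4, 3, 2, 1, 0] 1 21 [[], [5, 7, 9, 10], [3, 7, 8, 9, 10], [8, 5, 9, 10], [1, 10, 0, 10], [9, 10, 3, 7, 9, 10], [10, 7, 6, 10], [1, 10, 3, 7, 10], [0, 10, 2, 8, 10], [8, 2, 10], [1, 10], [7, 8, 7, 10], [7, 9, 10], [8, 1, 10], [3, 6, 8, 10], [7, 9, 10, 7, 9, 10], [5, 10, 2, 7, 10], [3, 9, 8, 9, 10], [9, 7, 10], [1, 8, 10], [5, 10], [5, 8, 10], [2, 9, 10]])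
  (chkFin [] 11 16 10 17 18 10 9 19 20 [16, 17] []))))) :=
  ck_go (by decide +kernel)

theorem v0 : M.UB T0 [9, 8, 7, 6, 5, 4, 3, 2, 1, 0] 3265920 := (ub_app T0a (by decide +kernel)).2 u1

theorem s00 : M.Le T0 [12, 13] [9, 8, 7, 6, 5, 4, 3, 2, 1, 0] := leD kT0 _ [12, 13] _ (by decide +kernel)

theorem s01 : M.Le T0 [14, 15] [9, 8, 7, 6, 5, 4, 3, 2, 1, 0] := leD kT0 _ [14, 15] _ (by decide +kernel)

theorem d0 : M.CV T0 [10, 9, 8, 7, 6, 5, 4, 3, 2, 1, 0] [9, 8, 7, 6, 5, 4, 3, 2, 1, 0] [(10, 162), (11, 112)] :=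
  cv_of (zs := [10]) (fa (rb_of s00 (cj_of kT0 c14.l.r.r.l) v0 b10 rfl) (fa (rb_of s01 (cj_of kT0 c14.r.l.r.l) v0 b12 rfl) fa0))
  (fa (rz_one (ids_of kT0 c14.l.r.l)) fa0)
  (fa (fa (rz_of s00 (cj_of kT0 c14.l.r.r.l) s00 (ci_of kT0 c14.l.l.l) (fix_of kT0 c14.l.l.r) v0 b10 rfl
    (or_of kT0 c14.l.r.r.r) rfl (ids_of kT0 c14.r.l.l)) fa0)
  (fa (fa (rz_of s01 (cj_of kT0 c14.r.l.r.l) s00 (ci_of kT0 c14.l.l.l) (fix_of kT0 c14.l.l.r) v0 b10 rfl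
    (or_of kT0 c14.r.l.r.r) rfl (ids_of kT0 c14.r.r.l)) fa0)
  fa0))

def B15a : List Ins := [(0, 0, [20, 18, 19, 20, 18, 20, 18, 19, 20, 20, 18, 18, 20, 19, 18, 20, 20, 18, 18, 18, 20, 18, 19, 18, 18, 20]),
  (0, 0, [20, 19, 20, 19, 18, 20, 18, 20, 18, 20, 20, 18, 18, 18, 20, 20, 20, 18, 20, 19, 19, 18, 19, 18, 20, 19, 20, 19]),
  (0, 0, [21, 21, 22, 21, 21, 22, 22, 21, 22, 21, 22, 22, 21, 22]),
  (0, 0, [21, 21, 21, 21, 21, 22, 21, 21, 22, 21, 22, 21, 22, 22, 21, 22, 21, 21, 21, 21, 21, 21]),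
  (0, 0, [24, 24, 24, 24, 23, 24, 23, 24, 24, 24, 24, 24, 24, 23, 24]),
  (0, 0, [24, 23, 23, 24, 24, 23, 24, 23, 23, 23, 24, 23, 24, 24]),
  (0, 0, [23, 23, 24, 23, 24, 24, 23, 23, 24, 23, 23, 23, 24, 23]),
  (0, 0, [27, 26, 27, 26, 26])]

def B15 : List Ins := T0 ++ B15a

theorem kB15 : M.Ok B15 := kT0.app (Mdl.ok_of (by decide +kernel))

theorem c16 : M.Ck B15 (an (an (an (chkOrb [18, 19, 20] [[]] [[1]]
  ⟨0xb92a6009ff, 137, 4235, 9, 0x340007800006e0015e00891840000018002c01520a01a031b8142c0002018306a8584010e50d02c02b307010044086801d05c09800083500800021102800000050000000003999340014000040005000c4000000000072ab7826114a11c04d60d030020002808040588800fa0900000ee02040016c01008000a07032680000010101202003012c8d00338009e03041667302800ca300039800f5, 275⟩ 4 64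
  [0x4919849073549639253739094950915982739354942987359815952919739373, 0x9435291973953984195152919859615054395193988635917358258195395159, 0x3509150595391940539544390739358150949273949505982739095297352905, 0x4295481539819273985098837393715985861943598615881739435294973539, 0x54391529258259639] (Nat.pred (Nat.pow 2 275)))
  (chkFix [21, 22] [[1]]))
  (an (chkOrb [21, 22] [[]] [[32]]
  ⟨0xf9001d059b, 64, 2543, 8, 0x78300e0503000100070600006a0c49055e4611030013119b001b05016c0100007a300a0a001c015c8a1a0038010d8c3504000000000003099f01660306385500, 162⟩ 3 64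
  [0x91b2ebb2a24d86ba0d92aaea6ec05d91d9436ec06c6d96d9, 0x55bb11341a2a6ecaa8b2c4eb6dbb24a5bb232cd88d153b0d, 0x34d345159a0d95bb05765765] (Nat.pred (Nat.pow 2 162)))
  (chkFix [23, 24] [[32]])))
  (an (an (chkOrb [23, 24] [[]] [[1024]]
  ⟨0xefcc818fa1, 70, 849, 7, 0x807002f820c08a140008b3a24080100174005020342300a82c0000006704500000a00d04000e88000be33402006848aee880040410603880c70169901, 105⟩ 3 64
  [0xa2b6dd06c75595d163b4525bb1589d5452ec96bb244dd6db, 0x68b1d765b637455640dbaac163a2b] (Nat.pred (Nat.pow 2 105)))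
  (chkFix [25, 26, 27] [[1024]]))
  (an (chkOrb [25, 26, 27] [[]] [[32768]]
  ⟨0x965426c481, 25, 803, 6, 0x80250002402302514254302114e0e5441ac3, 64⟩ 4 63
  [0x851542958295339429549317485390998637986423949983378598629493733] (Nat.pred (Nat.pow 2 64)))
  (an (chkFix [28] [[32768]])
  (chkOrb [28] [[]] [[0x100000]]
  ⟨0x9d5e609935, 2, 41, 2, 4, 3⟩ 2 2
  [1] (Nat.pred (Nat.pow 2 3))))))) :=
  ck_go (by decide +kernel)

theorem b15 : M.LB T0 [18, 19, 20] 898128000 :=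
  (lb_app B15a (by decide +kernel)).1 ((lb_orb (or_of kB15 c16.l.l.l) (leD kB15 _ [21, 22] _ (by decide +kernel)) (fix_of kB15 c16.l.l.r)
  (lb_orb (or_of kB15 c16.l.r.l) (leD kB15 _ [23, 24] _ (by decide +kernel)) (fix_of kB15 c16.l.r.r)
  (lb_orb (or_of kB15 c16.r.l.l) (leD kB15 _ [25, 26, 27] _ (by decide +kernel)) (fix_of kB15 c16.r.l.r)
  (lb_orb (or_of kB15 c16.r.r.l) (leD kB15 _ [28] _ (by decide +kernel)) (fix_of kB15 c16.r.r.r.l)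
  (lb_orb (or_of kB15 c16.r.r.r.r) (le_sub rfl) (fix_nil _) (lb_one _)))))).mono rfl)

theorem e1 : M.Le T0 [18, 19, 20] [10, 9, 8, 7, 6, 5, 4, 3, 2, 1, 0] := leD kT0 _ [16, 17, 18, 19, 20] _ (by decide +kernel)

theorem fin : Spor 898128000 :=
  spor kT0 d0 v0 ((b15.le e1).mono rfl) (co_base kT0 c14.r.r.r.l) (le_sub rfl) (cj_nil _) ub_nil (lb_one _)
    (by norm_num) (leD kT0 _ [16] _ (by decide +kernel)) c14.r.r.r.r
    (Subgroup.eq_of_le_of_card_ge e1 (le_trans (d0.ub v0) (b15.mono rfl))).ge (by decide +kernel)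

end

end McL

theorem spor_McL : Spor 898128000 := McL.fin

end Pool.Agent.Lib.MP_cad414_al.Cg
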