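import Pool.Agent.Lib.MP_cad414_al.Cg.ON2
import Pool.Agent.Lib.MP_cad414_al.Cg.ON3
import Pool.Agent.Lib.MP_cad414_al.Cg.ON4
import Pool.Agent.Lib.MP_cad414_al.Cg.ON5
import Pool.Agent.Lib.MP_cad414_al.Cg.ON6

/-! A simple group of order 460815505920 that is generated by three conjugate involutions. -/

namespace Pool.Agent.Lib.MP_cad414_al.Cg

namespace ON

open Mdl

theorem rz1 : M.RZ I lH [8, 74, 75, 76] [8] 8 :=
  rz_of le1 cj1 le1 ciK fxK ubH lb1 rfl (or_of ok o1) (by decide +kernel) (ids_of ok i1)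

theorem rz2 : M.RZ I lH [8, 74, 75, 76] [74] 8 :=
  rz_of le2 cj2 le1 ciK fxK ubH lb1 rfl (or_of ok o2) (by decide +kernel) (ids_of ok i2)

theorem rz3 : M.RZ I lH [8, 74, 75, 76] [75] 8 :=
  rz_of le3 cj3 le1 ciK fxK ubH lb1 rfl (or_of ok o3) (by decide +kernel) (ids_of ok i3)

theorem rz4 : M.RZ I lH [8, 74, 75, 76] [76] 8 :=
  rz_of le4 cj4 le1 ciK fxK ubH lb1 rfl (or_of ok o4) (by decide +kernel) (ids_of ok i4)

theorem cv : M.CV I (8 :: lH) lH [(8, 5586), (74, 52136), (75, 6384), (76, 58653)] :=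
  cv_of (zs := [8]) (fa rb1 (fa rb2 (fa rb3 (fa rb4 fa0)))) (fa rz0 fa0) (fa (fa rz1 fa0) (fa (fa
    rz2 fa0) (fa (fa rz3 fa0) (fa (fa rz4 fa0) fa0))))

theorem lbG : M.LB I (8 :: lH) 2764893035520 :=
  LB.mono (DV.lb (((((((dv_ex ubH lbH).le (le_sub (by decide +kernel))).lcm dvJ2).lcm dvJ3).lcm
    dv5).lcm dv11).lcm dv31)) (by decide +kernel)

theorem co : M.CO I (8 :: lH) lH [0] :=
  co_row (i := 8) (m := 5586) cv ubH lbG (by decide) (le_sub rfl) le1 cj1 lb1 rfl coK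

end ON

theorem spor_ON : Spor 460815505920 :=
  Mdl.spor ON.ok ON.cv ON.ubH ON.lbG ON.co (Mdl.le_sub rfl) ON.zn ON.ubZ ON.lbZ
    (r := 11) (by norm_num) ON.leF ON.cF.l ON.gen (by decide +kernel)

end Pool.Agent.Lib.MP_cad414_al.Cg
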