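import Pool.Agent.Lib.MP_cad414_al.Cg.OF

/-! Orthogonal groups in characteristic two and odd dimension. -/

namespace Pool.Agent.Lib.MP_cad414_al.Cg

set_option linter.unusedSimpArgs false

open QuadraticMap Module Ten

variable {F V : Type} [Field F] [AddCommGroup V] [Module F V] {Q : QuadraticForm F V} {ρ : V}
  {G : Type} [Group G] [IsSimpleGroup G]

theorem nd_even [FiniteDimensional F V] (h2 : (2 : F) = 0) {W : Submodule F V} (hW : ND Q W) :
    finrank F W % 2 = 0 := by
  induction hn : finrank F W using Nat.strong_induction_on generalizing W with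
  | _ n ih =>
  rcases Nat.eq_zero_or_pos n with e | e
  · rw [e]
  obtain ⟨a, ha, a0⟩ := exists_ne_zero (W := W) (by omega)
  obtain ⟨b, hb, ab⟩ := exists_dual hW ha a0 1
  obtain ⟨k1, k2, -⟩ := split2 hW ha hb (by rw [pself, h2, ab]; simp)
  have := ih _ (by omega) k1 rfl
  omega

theorem ns_cases [Finite F] [FiniteDimensional F V]
    (hQ : ∀ v, Q v = 0 → (∀ w, polar Q v w = 0) → v = 0) : ND Q ⊤ ∨ ∃ (ρ : V) (W : Submodule F V),
      Rd Q ρ ∧ ND Q W ∧ finrank F W + 1 = finrank F V ∧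
      ∀ M : Submodule F V, ρ ∈ M → W ≤ M → ⊤ ≤ M := by
  refine or_iff_not_imp_left.2 fun h => ?_
  obtain ⟨x, hx, x0⟩ : ∃ x, (∀ y, polar Q x y = 0) ∧ x ≠ 0 := by
    by_contra! H
    exact h fun x _ hx => H x fun y => hx y trivial
  have qx : Q x ≠ 0 := fun e => x0 (hQ x e hx)
  have h2 : (2 : F) = 0 := (mul_eq_zero.1 ((pself x).symm.trans (hx x))).resolve_right qx
  obtain ⟨c, hc⟩ := exists_sq h2 (Q x)⁻¹
  have o : Rd Q (c • x) := ⟨h2, by rw [Qsmul, hc, inv_mul_cancel₀ qx], fun y => by simp [hx],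
    fun y => pcomm0 (by simp [hx]), fun v hv v0 => by
      by_contra H
      exact v0 (hQ v hv fun w => by_contra fun e => H ⟨w, e⟩)⟩
  generalize c • x = ρ at o
  obtain ⟨W, hW⟩ := (F ∙ ρ).exists_isCompl
  have sp : ∀ M : Submodule F V, ρ ∈ M → W ≤ M → ⊤ ≤ M := fun M h1 h3 =>
    hW.sup_eq_top ▸ sup_le ((Submodule.span_singleton_le_iff_mem _ _).2 h1) h3
  refine ⟨ρ, W, o, fun x hx H => ?_, ?_, sp⟩
  · have h1 : ∀ y, polar Q x y = 0 := fun y =>
      sp (LinearMap.ker (polarBilin Q x)) (o.pr x) H trivial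
    obtain ⟨a, ha⟩ := o.adj x 0
    have h3 := hQ _ ha fun w => by simp [h1, o.pl0]
    exact (Submodule.disjoint_def.1 hW.disjoint) x (Submodule.mem_span_singleton.2
      ⟨-a, by rw [neg_smul, eq_neg_of_add_eq_zero_left h3]⟩) hx
  · rw [← Submodule.finrank_add_eq_of_isCompl hW, finrank_span_singleton (ne_zero_of_one o.q),
      add_comm]

theorem Rd.points [Finite F] [FiniteDimensional F V] (o : Rd Q ρ) {W : Submodule F V}
    (hW : ND Q W) {l : ℕ} (hd : finrank F W = 2 * l + 2) : ∃ p : ℕ → V, Rt Q (2 * l + 3) p ∧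
      ∀ M : Submodule F V, (∀ i j, i < 2 * l + 3 → j < 2 * l + 3 → p i - p j ∈ M) → ρ ∈ M →
        W ≤ M := by
  have h2 := o.two
  obtain ⟨f, W', t, h1, h3, h4, h5, h6, h7, h8, h9⟩ := simplex h2 hW l hd.ge
  obtain ⟨a, ha, a0⟩ := exists_ne_zero (W := W') (by omega)
  obtain ⟨b, hb, ab⟩ := exists_dual h1 ha a0 1
  obtain ⟨-, k2, k3⟩ := split2 h1 ha hb (by rw [pself, h2, ab]; simp)
  obtain ⟨c, hc⟩ := o.adj (t + a) 1
  obtain ⟨d, hd'⟩ := o.adj (t + b) 1
  have S : (∀ i, i < 2 * l → polar Q (f i) t = 1 ∧ polar Q t (f i) = 1 ∧ polar Q (f i) a = 0 ∧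
      polar Q a (f i) = 0 ∧ polar Q (f i) b = 0 ∧ polar Q b (f i) = 0) ∧ polar Q a b = 1 ∧
      polar Q b a = 1 ∧ polar Q t a = 0 ∧ polar Q a t = 0 ∧ polar Q t b = 0 ∧ polar Q b t = 0 ∧
      ∀ x, polar Q x x = 0 := ⟨fun i hi => ⟨(h5 i hi).2.2.1, (pcomm _ _).trans (h5 i hi).2.2.1,
        (h5 i hi).2.2.2 a ha, pcomm0 ((h5 i hi).2.2.2 a ha), (h5 i hi).2.2.2 b hb,
        pcomm0 ((h5 i hi).2.2.2 b hb)⟩, ab, (pcomm _ _).trans ab, h8 a ha, pcomm0 (h8 a ha),
      h8 b hb,
      pcomm0 (h8 b hb), fun x => by rw [pself, h2, zero_mul]⟩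
  obtain ⟨p, hp⟩ : ∃ p : ℕ → V, ∀ i, p i = if i = 2 * l + 2 then 0 else
    if i = 2 * l then t + a + c • ρ else if i = 2 * l + 1 then t + b + d • ρ else f i :=
    ⟨_, fun _ => rfl⟩
  have e1 : ∀ i k, i < 2 * l + 3 → k < 2 * l + 3 → polar Q (p i) (p k) =
      dl F i k - dl F i (2 * l + 2) - dl F k (2 * l + 2) + 1 := fun i k hi hk => by
    by_cases e : i = k
    · rw [e, S.2.2.2.2.2.2.2, dl_eq rfl]
      linear_combination (dl F k (2 * l + 2) - 1) * h2
    rw [hp i, hp k]
    split_ifs <;> (try omega) <;> simp (disch := omega) only [polar_add_left, polar_add_right,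
      polar_smul_left, polar_smul_right, polar_zero_left, polar_zero_right, S, o.pr, o.pl0, h6,
      dl_ne, dl_eq] <;> simp
  have e2 : ∀ i, i < 2 * l + 3 → Q (p i) = 1 - dl F i (2 * l + 2) := fun i hi => by
    rw [hp i]
    split_ifs <;> simp (disch := omega) only [hc, hd', dl_ne, dl_eq, map_zero, sub_self, sub_zero]
    exact (h5 i (by omega)).2.1
  refine ⟨p, ⟨fun i k n q hi hk hn hq => ?_, fun i k hi hk hik => ?_⟩, fun M hM hρ => ?_⟩
  · simp (disch := omega) only [polar_sub_left, polar_sub_right, e1]; ring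
  · rw [Qsub, e2 i hi, e2 k hk, e1 i k hi hk, dl_ne hik]; ring
  · have hM' := fun i hi => hM i (2 * l + 2) hi (by omega)
    simp only [hp (2 * l + 2), if_true, sub_zero] at hM'
    obtain ⟨m1, m2⟩ := h9 M fun i hi => by
      simpa (disch := omega) only [hp, if_neg] using hM' i (by omega)
    have m3 := hM' (2 * l) (by omega)
    have m4 := hM' (2 * l + 1) (by omega)
    simp (disch := omega) only [hp, if_neg, if_true] at m3 m4
    rw [M.add_mem_iff_left (M.smul_mem _ hρ), M.add_mem_iff_right m1] at m3 m4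
    exact m2 (k3 M m3 m4 (le_of_finrank_zero (by omega) _))

theorem TT_one {f : ℕ → V} {k i : ℕ} (h : PO Q f k) (hi : i < k) {x : V}
    (H : ∀ j < k, j ≠ i → polar Q x (f j) = 0) : TT Q f k • x = r Q (f i) • x := by
  induction k with
  | zero => omega
  | succ k ih =>
    rw [TT, mul_smul]
    by_cases e : k = i
    · subst e
      refine TT_fix fun j hj => ?_
      rw [r_act, polar_sub_left, polar_smul_left, H j (by omega) (by omega),
        h.2 k hi j (by omega) (by omega), smul_zero, sub_zero]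
    · rw [r_act0 (H k (by omega) e), ih (h.mono (by omega)) (by omega) fun j hj => H j (by omega)]

/-- first and third frame -/
def ga (p : ℕ → V) (a : ℕ) (x : V) : ℕ → V
  | 0 => p a - p (a + 1)
  | 1 => x
  | i + 2 => p (2 * i + 4) - p (2 * i + 5)

/-- second frame -/
def gb (p : ℕ → V) : ℕ → V
  | 0 => p 0 - p 1
  | i + 1 => p (2 * i + 3) - p (2 * i + 4)

theorem odd_two [Finite F] [FiniteDimensional F V] (hG : NA G) (o : Rd Q ρ) {l : ℕ} {p : ℕ → V}
    (rt : Rt Q (2 * l + 5) p) (sp : ∀ M : Submodule F V,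
      (∀ i j, i < 2 * l + 5 → j < 2 * l + 5 → p i - p j ∈ M) → ρ ∈ M → ⊤ ≤ M)
    (h : Img G (commutator (OG Q))) : 3 ∈ GenSizes G := by
  have h2 := o.two
  obtain ⟨g, g0, hg⟩ := exists_gen F
  obtain ⟨b, hb⟩ := exists_sq h2 g
  have b0 : b ≠ 0 := fun e => g0 (by rw [← hb, e, mul_zero])
  obtain ⟨s, hs⟩ : ∃ s, s = p 1 - p 2 + (p 3 - p (2 * l + 4)) := ⟨_, rfl⟩
  have qs : Q s = 0 := by
    simp (disch := omega) only [hs, Qadd, rt.q, rt.o]; linear_combination h2
  have s1 : ∀ i, i = 1 ∨ i = 2 ∨ i = 3 ∨ i = 2 * l + 4 → polar Q s (p i - p 0) = 1 := by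
    rintro _ (rfl | rfl | rfl | rfl) <;>
      simp (disch := omega) only [hs, polar_add_left, rt.rr, dl_ne, dl_eq] <;> grind
  have s0 : ∀ i, i < 2 * l + 4 → i = 0 ∨ 4 ≤ i → polar Q s (p i - p 0) = 0 := fun i h1 h3 => by
    simp (disch := omega) only [hs, polar_add_left, rt.rr, dl_ne]; ring
  have df : ∀ i j, polar Q s (p i - p j) = polar Q s (p i - p 0) - polar Q s (p j - p 0) :=
    fun i j => by rw [← polar_sub_right, sub_sub_sub_cancel_right]
  have s2 : ∀ i j, (i = 1 ∨ i = 2 ∨ i = 3 ∨ i = 2 * l + 4) ∧ (j = 1 ∨ j = 2 ∨ j = 3 ∨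
      j = 2 * l + 4) ∨ (i < 2 * l + 4 ∧ (i = 0 ∨ 4 ≤ i)) ∧ j < 2 * l + 4 ∧ (j = 0 ∨ 4 ≤ j) →
      polar Q s (p i - p j) = 0 := by
    rintro i j (⟨a, b⟩ | ⟨⟨a, a'⟩, b, b'⟩)
    · rw [df, s1 i a, s1 j b, sub_self]
    · rw [df, s0 i a a', s0 j b b', sub_self]
  have x0 : ∀ (c : F) u, polar Q (c • s + ρ) u = c * polar Q s u := fun c u => by
    simp only [pl Q, o.pl0, add_zero]
  have x2 := fun (c : F) i j H => show polar Q (c • s + ρ) (p i - p j) = 0 by
    rw [x0, s2 i j H, mul_zero]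
  have qx : ∀ c : F, Q (c • s + ρ) = 1 := fun c => by simp only [pl Q, qs, o.q, o.pr]; ring
  have pa : ∀ a, a = 1 ∨ a = 2 → ∀ c : F, c ≠ 0 →
      PO Q (ga p a (c • s + ρ)) (l + 2) ∧ TD0 Q (ga p a (c • s + ρ)) (l + 2) := fun a ha c c0 => by
    refine ⟨⟨fun i hi => ?_, fun i hi j hj hij => ?_⟩, fun j hj => ?_⟩
    · rcases i with _ | _ | i <;> simp (disch := omega) only [ga, qx, rt.q]
    · rcases i with _ | _ | i <;> rcases j with _ | _ | j <;>
        first | omega | exact rt.o (by omega) | exact x2 _ _ _ (by omega) |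
          exact pcomm0 (x2 _ _ _ (by omega))
    · rcases j with _ | _ | j
      · exact ⟨p a - p 0, (rt.u (by omega)).ne, by omega⟩
      · refine ⟨p (2 * l + 4) - p 0, ?_, fun i hi => ?_⟩
        · rwa [ga, x0, s1 (2 * l + 4) (by omega), mul_one]
        · interval_cases i; exact rt.o (by omega)
      · refine ⟨p (2 * j + 4) - p 0, (rt.u (by omega)).ne, fun i hi => ?_⟩
        rcases i with _ | _ | i <;> first | exact rt.o (by omega) | exact x2 _ _ _ (by omega)
  have p2 : PO Q (gb p) (l + 2) := by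
    refine ⟨fun i hi => ?_, fun i hi j hj hij => ?_⟩
    · rcases i with _ | i <;> simp (disch := omega) only [gb, rt.q]
    · rcases i with _ | i <;> rcases j with _ | j <;> first | omega | exact rt.o (by omega)
  have d2 : TD0 Q (gb p) (l + 2) := fun j hj => by
    rcases j with _ | j
    · exact ⟨p 0 - p 2, (rt.u (by omega)).ne, by omega⟩
    · refine ⟨p (2 * j + 3) - p 2, (rt.u (by omega)).ne, fun i hi => ?_⟩
      rcases i with _ | i <;> exact rt.o (by omega)
  obtain ⟨p1, d1⟩ := pa 1 (by omega) 1 one_ne_zero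
  obtain ⟨p3, d3⟩ := pa 2 (by omega) b b0
  have hO := o.omega (p2.1 0 (by omega)) (d2.nr (by omega))
  obtain ⟨c2, n2, e2⟩ := o.conj (by omega) p1 p2 d1 d2
  obtain ⟨c3, n3, e3⟩ := o.conj (by omega) p1 p3 d1 d3
  have m1 := o.mem (by omega) p1 d1
  rw [← hO] at m1 n2 n3
  refine hG.fin_sub h (TT_sq p1) m1 n2 n3 e2 e3 fun K l1 l2 l3 => ?_
  have hC := Cls_cl (p 1 - p 2) K
  have q12 := rt.q 1 2 (by omega) (by omega) (by omega)
  have q23 := rt.q 2 3 (by omega) (by omega) (by omega)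
  have k0 := mul_mem l1 l3
  rw [TT_skip (n := 2) (by omega) p3 (fun j h1 h3 => by
    rcases j with _ | _ | j <;> first | omega | rfl)] at k0
  simp only [TT, ga, one_mul] at k0
  have cm : ∀ (c : F) i j, 1 ≤ i → i ≤ 3 → 1 ≤ j → j ≤ 3 →
      Commute (r Q (c • s + ρ)) (r Q (p i - p j)) := fun c i j _ _ _ _ =>
    r_comm (x2 _ _ _ (by omega))
  rw [mul_assoc, ← mul_assoc (r Q (_ + ρ)), (cm 1 2 3 (by omega) (by omega) (by omega)
    (by omega)).eq, mul_assoc, ← mul_assoc] at k0
  have k1 : r Q (p 1 - p 2) * r Q (p 2 - p 3) ∈ K := by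
    have := pow_mem k0 4
    rwa [Commute.mul_pow (Commute.symm (Commute.mul_left (Commute.mul_right ?_ ?_)
      (Commute.mul_right ?_ ?_))), pow3 (r_mul_self _) (r_mul_self _)
      (r_braid q12 q23 (rt.u (by omega))), pow2 (r_mul_self _) (r_mul_self _) (r_comm (by
        simp only [pl Q, qs, o.pr, o.pl0, o.q]; linear_combination h2)), mul_one] at this
    all_goals apply cm <;> omega
  have k2 := (K.mul_mem_cancel_left k1).1 k0
  have u4 := merge rt (by omega) l2 k1
    ((TT_one p2 (i := 0) (by omega) fun n h1 h3 => by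
      rcases n with _ | n <;> first | omega | exact rt.o (by omega)).trans (sw rt (by omega)).2.2.2)
    ((TT_one p2 (i := 1) (by omega) fun n h1 h3 => by
      rcases n with _ | n <;> first | omega | exact rt.o (by omega)).trans
      (sw rt (i := 3) (j := 4) (by omega)).1)
  have c0 := u4 1 2 (by omega) (by omega) (by omega)
  have r1 := Cls_pr l1 c0 (Or.inr (TT_neg p1 (i := 0) (by omega)))
  have r2 := Cls_pr l2 (u4 0 1 (by omega) (by omega) (by omega))
    (Or.inr (TT_neg p2 (i := 0) (by omega)))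
  have up : ∀ n ≤ l, Up p (Cls Q (p 1 - p 2) K) (2 * n + 4) := fun n => by
    induction n with
    | zero => exact fun _ => u4
    | succ n ih =>
      intro hn
      have u := ih (by omega)
      have v1 := r1 _ (u 0 (2 * n + 4) (by omega) le_rfl (by omega))
      rw [TT_one p1 (i := n + 2) (by omega) fun k h1 h3 => by
        rcases k with _ | _ | k <;>
          first | exact rt.o (by omega) | exact pcomm0 (x2 _ _ _ (by omega)),
        ga, (sw rt (by omega)).1] at v1
      have u' := up' rt hC (by omega) u (by omega) v1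
      have v2 := r2 _ (u' 2 (2 * n + 5) (by omega) le_rfl (by omega))
      rw [TT_one p2 (i := n + 2) (by omega) fun k h1 h3 => by
        rcases k with _ | k <;> exact rt.o (by omega)] at v2
      exact up' rt hC (by omega) u' (by omega)
        ((sw rt (i := 2 * n + 5) (j := 2 * n + 6) (k := 2) (by omega)).1 ▸ v2)
  have u := up l le_rfl
  have c1 : (1 : F) • s + ρ ∈ Cls Q (p 1 - p 2) K := by
    have v := u (2 * l + 4) 0 le_rfl (by omega) (by omega)
    refine hC.force v (qx 1) (Or.inl (by rw [pcomm, x0, s1 (2 * l + 4) (by omega), mul_one])) ?_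
    have := r1 _ v
    rwa [TT_one p1 (i := 1) (by omega) fun k h1 h3 => by
      rcases k with _ | _ | k <;> first | omega | exact rt.o (by omega)] at this
  have c2 := Cls_join c1 (qx b) k2
  rw [one_smul] at c1
  have c3 : p 1 - p 0 + (p 3 - p (2 * l + 4)) + ρ ∈ Cls Q (p 1 - p 2) K := by
    have := hC.refl _ (u 2 0 (by omega) (by omega) (by omega)) _ c1
    rwa [hs, smul_add, smul_add, (sw rt (by omega)).1, sw0 rt (by omega), r_act0 (o.pl0 _)] at this
  have c4 : ∀ k, 4 ≤ k → k < 2 * l + 4 → p 1 - p 0 + (p 3 - p k) + ρ ∈ Cls Q (p 1 - p 2) K :=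
    fun k h1 h3 => by
      have := hC.refl _ (u (2 * l + 4) k (by omega) (by omega) (by omega)) _ c3
      rwa [smul_add, smul_add, (sw rt (by omega)).1, sw0 rt (by omega), r_act0 (o.pl0 _)] at this
  have c5 : b • (p 3 - p 2) + (1 - b) • ρ ∈ Cls Q (p 1 - p 2) K := by
    have v : b • (p 0 - p 2) + (1 - b) • ρ ∈ Cls Q (p 1 - p 2) K := by
      have := hC.refl _ c3 _ c2
      rw [r_act1 c3.1, x0, polar_add_right, polar_add_right, s1 1 (by omega),
        s2 3 (2 * l + 4) (by omega), o.pr, hs] at this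
      convert this using 1
      module
    have := hC.refl _ (u 0 3 (by omega) (by omega) (by omega)) _ v
    rwa [smul_add, act_smul, act_smul, (sw rt (by omega)).2.2.1, r_act0 (o.pl0 _)] at this
  have hD : Cl Q (insert ρ (Cls Q (p 1 - p 2) K)) := by
    refine ⟨?_, ?_⟩
    · rintro c (rfl | hc)
      exacts [o.q, hc.1]
    · rintro a (rfl | ha) c hc
      · rwa [r_act0 (o.pr c)]
      · rcases hc with rfl | hc
        exacts [Or.inl (r_act0 (o.pl0 a)), Or.inr (hC.refl a ha c hc)]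
  have t0 := s2 1 2 (by omega)
  have t5 : polar Q s (b • (p 3 - p 2) + (1 - b) • ρ) = 0 := by
    simp only [polar_add_right, polar_smul_right, o.pr, s2 3 2 (by omega), smul_zero, add_zero]
  have t6 : polar Q (p 1 - p 2) (b • (p 3 - p 2) + (1 - b) • ρ) = b := by
    simp (disch := omega) only [polar_add_right, polar_smul_right, o.pr, rt.rr, dl_ne, dl_eq]; simp
  have b1 : p 1 - p 2 ∈ core F (AS (NG Q (insert ρ (Cls Q (p 1 - p 2) K))) qs) := hg _ (by simp)
    (by
      rw [one_smul]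
      refine AS_rr hD (Or.inr c0) (Or.inr ?_) t0
      convert u 3 (2 * l + 4) (by omega) (by omega) (by omega) using 1
      rw [hs]
      linear_combination (norm := module) h2 • (p 1 - p 2)) fun k hk => by
    rw [← hb, ← mul_assoc]
    exact AS_mul hD (Or.inr c0) t0 (by rw [pcomm, t6]) (AS_mul hD (Or.inr c5) t5 t6 hk)
  have b2 := core_refl hD (Or.inr (u 3 2 (by omega) (by omega) (by omega))) (s2 _ _ (by omega))
    (rt.u (by omega)).ne b1
  have b3 := (Submodule.add_mem_iff_right _ (Submodule.smul_mem _ b b2)).1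
    (core_refl hD (Or.inr c5) t5 (by rwa [t6]) b1)
  have b4 : ρ ∈ core F (AS (NG Q (insert ρ (Cls Q (p 1 - p 2) K))) qs) := hg _ (by simp)
    (by rw [one_smul]; exact AS_rr hD (Or.inl rfl) (Or.inr (add_comm s ρ ▸ c1)) (o.pr s))
    fun k hk => by
      convert add_mem hk (b3 (-(k * (1 + b)))) using 1
      rw [← hb]; module
  have hE := lift_fin (sp _ (lift_rt (a := 1) fun i hi => ?_) ((lift0 (o.pr s)).2 b4))
  · rw [hO, N0, NG, Subgroup.closure_le]
    have key : ∀ a, Q a = 1 ∧ NR Q a → a ∈ Cls Q (p 1 - p 2) K := fun a ⟨h1, h3⟩ =>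
      (o.all hD qs hE (Or.inr (u 1 0 (by omega) (by omega) (by omega))) (s1 1 (by omega)) h1
        h3).resolve_left fun e => let ⟨y, hy⟩ := h3; hy (e ▸ o.pl0 y)
    rintro _ ⟨a, ha, c, hc, rfl⟩
    exact Cls_rr (key a ha) (key c hc)
  by_cases e : i = 1 ∨ i = 2 ∨ i = 3 ∨ i = 2 * l + 4
  · refine Or.inr ⟨s1 i e, ?_⟩
    rcases e with rfl | rfl | rfl | rfl
    exacts [by simp, by simpa using neg_mem b1, by simpa using sub_mem b2 b1, by
      convert sub_mem b2 core_self using 1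
      rw [hs]; abel]
  refine Or.inl ⟨s0 i (by omega) (by omega), ?_⟩
  by_cases e' : i = 0
  · simp [e']
  have := core_refl hD (Or.inr (c4 i (by omega) (by omega))) (by
    rw [polar_add_right, polar_add_right, o.pr, df 3, s1 1 (by omega), s1 3 (by omega),
      s0 i (by omega) (by omega)]; linear_combination h2) (by
    simp (disch := omega) only [polar_add_right, o.pr, rt.rr, dl_ne, dl_eq]; simp) b1
  convert sub_mem (sub_mem this b4) (sub_mem b1 b2) using 1
  linear_combination (norm := module) h2 • (p i - p 3)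

end Pool.Agent.Lib.MP_cad414_al.Cg
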