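import Pool.Agent.Lib.MP_cad414_al.Cg.OD
import Pool.Agent.Lib.MP_cad414_al.Cg.OH

/-! The orthogonal groups. -/

namespace Pool.Agent.Lib.MP_cad414_al.Cg

open Module Ten

variable {G F : Type} [Group G] [Finite G] [IsSimpleGroup G] [Field F] [Finite F]

set_option linter.unusedSectionVars false in
theorem orth_three (hG : NA G) {n : ℕ} (h5 : 5 ≤ n) (h6 : n ≠ 6)
    {Q : QuadraticForm F (Fin n → F)} (h : Orth G Q) : 3 ∈ GenSizes G := by
  have hd : finrank F (Fin n → F) = n := finrank_fin_fun F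
  obtain ⟨hQ, h⟩ := h
  rcases ns_cases hQ with hQ | ⟨ρ, W, o, h1, h3, h4⟩
  · by_cases e : n % 2 = 0 ∧ 10 ≤ n
    · exact hG.three_of_pder h (final_even hQ (Nat.even_iff.2 (by omega)) (by omega)).1
    by_cases h2 : (2 : F) = 0
    · have := nd_even h2 hQ
      rw [finrank_top] at this
      exact eight hG h2 hQ (by omega) h
    by_cases e5 : n = 5
    · exact five hG h2 hQ (by omega) h
    by_cases e7 : n % 4 = 1
    · exact orth_odd hG h2 hQ h (k := (n - 9) / 4) (by omega)
    · exact orth_odd hG h2 hQ h (k := (n - 7) / 4) (by omega)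
  · have := nd_even o.two h1
    obtain ⟨p, rt, sp⟩ := o.points h1 (l := (n - 5) / 2 + 1) (by omega)
    exact odd_two hG o (l := (n - 5) / 2) rt (fun M m1 m2 => h4 M m2 (sp M m1 m2)) h

end Pool.Agent.Lib.MP_cad414_al.Cg
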