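import Pool.Agent.Lib.MP_cad414_al.Cg.ReeM

/-! The small Ree groups are generated by three conjugate involutions. -/

set_option autoImplicit false

namespace Pool.Agent.Lib.MP_cad414_al.Cg

open Matrix

variable {F : Type} [Field F]

/-- The general unipotent element of the Ree group. -/
def reU (θ : F →+* F) (a b c : F) : Matrix (Fin 7) (Fin 7) F := reV a (θ a) b (θ b) c (θ c)

/-- The diagonal elements of the Ree group. -/
def reH (θ : F →+* F) (a : F) : Matrix (Fin 7) (Fin 7) F := reD a (θ a)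

variable {θ : F →+* F}

lemma reU_mul (h : ∀ a, θ (θ a) ^ 3 = a) (h3 : (3 : F) = 0) (a b c A B C : F) :
    reU θ a b c * reU θ A B C = reU θ (a + A) (b + B - a * θ A ^ 3)
      (c + C - A * b + A * θ A ^ 3 * a - θ A ^ 3 * a ^ 2) := by
  simp only [reU, reV_mul h3, map_add, map_sub, map_mul, map_pow, h]

lemma reU_H (h : ∀ a, θ (θ a) ^ 3 = a) (a b c : F) {k : F} (hk : k ≠ 0) :
    reU θ a b c * reH θ k =
      reH θ k * reU θ (a * (θ k ^ 3 / k ^ 2)) (b * (k / θ k ^ 3)) (c / k) := by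
  simp only [reU, reH, reV_D _ _ _ _ _ _ hk ((map_ne_zero θ).2 hk), map_mul, map_div₀, map_pow, h]

lemma reH_mul (a b : F) : reH θ a * reH θ b = reH θ (a * b) := by
  rw [reH, reH, reH, reD_mul, map_mul]

lemma reH_one : reH θ 1 = 1 := by rw [reH, map_one, reD_one]

lemma reU_zero : reU θ 0 0 0 = 1 := by rw [reU, map_zero, reV_zero]

lemma reU_one {a b c : F} (ha : a = 0) (hb : b = 0) (hc : c = 0) : reU θ a b c = 1 := by
  rw [ha, hb, hc, reU_zero]

lemma ree_ex [Finite F] (hq : 3 < Nat.card F) : ∃ x : F, x ^ 3 ≠ x := by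
  by_contra! hc
  have := Nat.card_le_card_of_surjective (![0, 1, -1] : Fin 3 → F) fun x => by
    have e : x * ((x - 1) * (x + 1)) = 0 := by linear_combination hc x
    rcases mul_eq_zero.1 e with e | e
    · exact ⟨0, e.symm⟩
    rcases mul_eq_zero.1 e with e | e
    · exact ⟨1, (sub_eq_zero.1 e).symm⟩
    · exact ⟨2, (eq_neg_of_add_eq_zero_left e).symm⟩
  rw [Nat.card_eq_fintype_card (α := Fin 3), Fintype.card_fin] at this
  omega

lemma ree_sq (h3 : (3 : F) = 0) {p : F → Prop} (hadd : ∀ x y, p x → p y → p (x + y)) {a : F}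
    (ha : a ≠ 0) (hp : ∀ m, p (a * m ^ 2)) (x : F) : p x := by
  have := hadd _ _ (hadd _ _ (hp (x / a)) (hp 1)) (hadd _ _ (hp (x / a + 1)) (hp (x / a + 1)))
  rwa [show a * (x / a) ^ 2 + a * 1 ^ 2 + (a * (x / a + 1) ^ 2 + a * (x / a + 1) ^ 2) = x by
    field_simp; grind] at this

lemma ree_all [Finite F] (h : ∀ a, θ (θ a) ^ 3 = a) (h3 : (3 : F) = 0) (hq : 3 < Nat.card F)
    {L : Subgroup (GL (Fin 7) F)} (hH : ∀ k, k ≠ 0 → InL L (reH θ (k ^ 2))) {a0 b0 c0 : F}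
    (ha0 : a0 ≠ 0) (h1 : InL L (reU θ a0 b0 c0)) (a b c : F) : InL L (reU θ a b c) := by
  have h0 : ∀ {x : F}, x ≠ 0 → θ x ≠ 0 := fun hx => (map_ne_zero θ).2 hx
  have hone : InL L (reU θ 0 0 0) := by rw [reU_zero]; exact InL.one
  have hA : ∀ a, ∃ b c, InL L (reU θ a b c) := by
    refine ree_sq h3 (fun x y ⟨_, _, e1⟩ ⟨_, _, e2⟩ => ⟨_, _, reU_mul h h3 .. ▸ e1.mul e2⟩) ha0
      fun m => ?_
    rcases eq_or_ne m 0 with rfl | hm
    · exact ⟨0, 0, by simpa using hone⟩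
    have e0 := h0 hm
    have e1 : (m ^ 2 * θ m ^ 3)⁻¹ ≠ 0 := by positivity
    have e2 := (hH _ e1).left (reU_H h _ _ _ (pow_ne_zero 2 e1) ▸ h1.mul (hH _ e1))
    rw [show θ ((m ^ 2 * θ m ^ 3)⁻¹ ^ 2) ^ 3 / ((m ^ 2 * θ m ^ 3)⁻¹ ^ 2) ^ 2 = m ^ 2 by
      simp only [map_pow, map_inv₀, map_mul, h]; field_simp] at e2
    exact ⟨_, _, e2⟩
  have hd : ∀ {x y z y' z' : F}, InL L (reU θ x y z) → InL L (reU θ x y' z') →
      InL L (reU θ 0 (y' - y) (z' - z)) := fun {x y z y' z'} e1 e2 =>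
    e1.left (by simpa [reU_mul h h3] using e2)
  have hB : ∀ b, ∃ c, InL L (reU θ 0 b c) := by
    obtain ⟨x, hx⟩ := ree_ex hq
    have hx' : θ x ^ 3 - x ≠ 0 := fun e => hx (by
      have e1 := congrArg θ (sub_eq_zero.1 e)
      rw [map_pow, h] at e1
      rw [← sub_eq_zero, ← e, ← e1])
    refine ree_sq h3 (fun x y ⟨_, e1⟩ ⟨_, e2⟩ => ⟨_, by simpa [reU_mul h h3] using e1.mul e2⟩) hx'
      fun m => ?_
    rcases eq_or_ne m 0 with rfl | hm
    · exact ⟨0, by simpa using hone⟩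
    have e0 := h0 hm
    obtain ⟨b1, c1, e1⟩ := hA (θ m ^ 3 / m * x)
    obtain ⟨b2, c2, e2⟩ := hA (θ m ^ 3 / m)
    have e3 := e1.mul e2
    have e4 := e2.mul e1
    rw [reU_mul h h3] at e3 e4
    rw [add_comm] at e4
    have e5 := hd e4 e3
    simp only [map_pow, map_div₀, map_mul, h] at e5
    rw [show b1 + b2 - θ m ^ 3 / m * x * (m / θ m) ^ 3 -
      (b2 + b1 - θ m ^ 3 / m * (m / θ m * θ x) ^ 3) = (θ x ^ 3 - x) * m ^ 2 by
        field_simp; ring] at e5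
    exact ⟨_, e5⟩
  have hC : ∀ c, InL L (reU θ 0 0 c) := fun c => by
    obtain ⟨b1, c1, e1⟩ := hA 1
    obtain ⟨c2, e2⟩ := hB c
    have e3 := e1.mul e2
    have e4 := e2.mul e1
    rw [reU_mul h h3] at e3 e4
    rw [add_comm] at e4
    have e5 := hd e4 e3
    simp only [map_zero, map_one] at e5
    rwa [show b1 + c - 1 * 0 ^ 3 - (c + b1 - 0 * 1 ^ 3) = 0 by ring,
      show c1 + c2 - 0 * b1 + 0 * 0 ^ 3 * 1 - 0 ^ 3 * 1 ^ 2 -
        (c2 + c1 - 1 * c + 1 * 1 ^ 3 * 0 - 1 ^ 3 * 0 ^ 2) = c by ring] at e5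
  obtain ⟨b1, c1, e1⟩ := hA a
  obtain ⟨c2, e2⟩ := hB (b - b1)
  simpa [reU_mul h h3] using (e1.mul e2).mul (hC (c - (c1 + c2)))

theorem ree_three {G F : Type} [Group G] [Finite G] [IsSimpleGroup G] [Field F] [Finite F]
    (_hG : NA G) (hG : Ree G F) : 3 ∈ GenSizes G := by
  obtain ⟨θ, h, h3, hq, hG⟩ := hG
  have h0 : ∀ {x : F}, x ≠ 0 → θ x ≠ 0 := fun hx => (map_ne_zero θ).2 hx
  obtain ⟨g, hg⟩ := IsCyclic.exists_monoid_generator (α := Fˣ)
  let S : Matrix (Fin 7) (Fin 7) F → Prop := fun m => (∃ a s, s = θ a ∧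
      (m = !![1, s, 0, 0, -s ^ 3 * a, -s ^ 3 * a ^ 2, s ^ 4 * a ^ 2;
        0, 1, a, s * a, -s ^ 2 * a, 0, -s ^ 3 * a ^ 2;
        0, 0, 1, s, -s ^ 2, 0, s ^ 3 * a;
        0, 0, 0, 1, s, 0, 0;
        0, 0, 0, 0, 1, -a, s * a;
        0, 0, 0, 0, 0, 1, -s;
        0, 0, 0, 0, 0, 0, 1] ∨ m = reD a s)) ∨ m = reW
  have hS : ∀ m, S m ↔ ((∃ a, m = reU θ a 0 0 ∨ m = reH θ a) ∨ m = reW) := fun m => by
    simp [S, reU, reV, reH]
  have hW : InL (Subgroup.closure {g : GL (Fin 7) F | S g.1}) reW :=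
    InL.of_gen (Or.inr rfl) reW_W
  have hH : ∀ k, k ≠ 0 → InL (Subgroup.closure {g : GL (Fin 7) F | S g.1}) (reH θ k) :=
    fun k hk => InL.of_gen (m' := reH θ k⁻¹) ((hS _).2 (Or.inl ⟨k, Or.inr rfl⟩)) (by
      rw [reH_mul, mul_inv_cancel₀ hk, reH_one])
  have hU : InL (Subgroup.closure {g : GL (Fin 7) F | S g.1}) (reU θ 1 0 0) :=
    InL.of_gen (m' := reU θ (-1) (-1) (-2)) ((hS _).2 (Or.inl ⟨1, Or.inl rfl⟩)) (by
      rw [reU_mul h h3, map_neg, map_one]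
      exact reU_one (by ring) (by ring) (by ring))
  have hm : (-1 : F) ≠ 0 := neg_ne_zero.2 one_ne_zero
  have ht := (ree_all h h3 hq (fun k hk => hH _ (pow_ne_zero 2 hk)) one_ne_zero hU 1 1 0).mul
    (hH _ hm)
  have h7 := ree_seven h3 (reU θ 1 1 0 * reH θ (-1)) _
    (by rw [reU, reH, map_neg, map_one, map_zero]) rfl
  refine InL.gen3 (S := S) hG hW (hH _ (inv_ne_zero g.ne_zero))
    (((hW.mul ht).mul (hW.mul ht)).mul (hW.mul ht)) reW_W (t2 := reW * reH θ ((g : F) ^ 2)) ?_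
    h7 fun L h1 h4 h5 => ?_
  · rw [mul_assoc, reH_mul, sq, mul_inv_cancel_right₀ g.ne_zero, reH, map_inv₀, reD_W, reH]
  have hpow : ∀ k, k ≠ 0 → ∃ n : ℕ, k = (g : F) ^ n := fun k hk =>
    let ⟨n, hn⟩ := hg (Units.mk0 k hk)
    ⟨n, by rw [← Units.val_pow_eq_pow_val, show g ^ n = _ from hn, Units.val_mk0]⟩
  have h6 : ∀ k, k ≠ 0 → InL L (reH θ (k ^ 2)) := fun k hk => by
    obtain ⟨n, rfl⟩ := hpow k hk
    clear hk
    induction n with
    | zero => rw [pow_zero, one_pow, reH_one]; exact InL.one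
    | succ n ih => rw [pow_succ (g : F), mul_pow, ← reH_mul]; exact ih.mul (h1.left h4)
  have h7 : ∀ a b c, InL L (reU θ a b c) := by
    obtain ⟨m, hx⟩ := ree_ex hq
    have hm0 : m ≠ 0 := fun e => hx (by simp [e])
    have e0 := h0 hm0
    have e1 : (m ^ 2 * θ m ^ 3)⁻¹ ≠ 0 := by positivity
    have e2 := h5.mul (h6 _ e1)
    rw [mul_assoc, reH_mul, mul_comm (-1 : F), ← reH_mul, ← mul_assoc,
      reU_H h _ _ _ (pow_ne_zero 2 e1), mul_assoc,
      show θ ((m ^ 2 * θ m ^ 3)⁻¹ ^ 2) ^ 3 / ((m ^ 2 * θ m ^ 3)⁻¹ ^ 2) ^ 2 = m ^ 2 by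
        simp only [map_pow, map_inv₀, map_mul, h]; field_simp] at e2
    have e3 : reU θ (-1) 1 0 * reU θ 1 1 0 = 1 := by
      rw [reU_mul h h3, map_one]
      exact reU_one (by ring) (by linear_combination h3) (by linear_combination -h3)
    have e4 := (h6 _ e1).left e2
    rw [← one_mul (reH θ (-1)), ← e3, mul_assoc (reU θ (-1) 1 0), ← mul_assoc,
      reU_mul h h3 _ _ _ (-1)] at e4
    exact ree_all h h3 hq h6 (fun e => hx (by linear_combination m * e)) (h5.right e4)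
  have h8 : InL L (reH θ (-1)) := (h7 1 1 0).left h5
  have h9 : ∀ k, k ≠ 0 → InL L (reH θ k) := fun k hk => by
    obtain ⟨n, rfl⟩ := hpow k hk
    obtain ⟨l, hl⟩ := hpow _ hm
    rcases Nat.even_or_odd' n with ⟨j, rfl | rfl⟩
    · rw [pow_mul']; exact h6 _ (pow_ne_zero _ g.ne_zero)
    rcases Nat.even_or_odd' l with ⟨i, rfl | rfl⟩
    · exfalso
      rw [pow_mul'] at hl
      generalize (g : F) ^ i = y at hl
      have e1 := congrArg θ hl
      have e2 := h y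
      rw [map_neg, map_one, map_pow] at e1
      have e3 : (θ y - y) * (θ y + y) = 0 := by linear_combination hl - e1
      rcases mul_eq_zero.1 e3 with e | e
      · rw [sub_eq_zero.1 e, sub_eq_zero.1 e] at e2
        grind
      · rw [eq_neg_of_add_eq_zero_left e, map_neg, eq_neg_of_add_eq_zero_left e, neg_neg] at e2
        grind
    · have := h8.mul (h6 _ (pow_ne_zero (i + j + 1) g.ne_zero))
      rwa [reH_mul, show -1 * ((g : F) ^ (i + j + 1)) ^ 2 = (g : F) ^ (2 * j + 1) by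
        linear_combination (g : F) ^ (2 * j + 1) * hl] at this
  intro u hu
  rcases (hS _).1 hu with ⟨a, e | e⟩ | e <;> rw [e]
  · exact h7 a 0 0
  · refine h9 a ?_
    rintro rfl
    have := congrFun (congrFun u.mul_inv 0) 0
    rw [e] at this
    simp [reH, reD, Matrix.diagonal_mul] at this
  · exact h1

end Pool.Agent.Lib.MP_cad414_al.Cg
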