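import Pool.Agent.Lib.MP_cad414_al.Cg.SlEvenB

/-! Even-dimensional special linear groups: three conjugate involutions. -/

namespace Pool.Agent.Lib.MP_cad414_al.Cg

namespace SlEven

section Block

open Subgroup Equiv Equiv.Perm

variable {α : Type} [DecidableEq α] {L : Subgroup (Perm α)}

/-- The three-cycles on `a, b, c` lie in `L` (or two of the points coincide). -/
def Tri (L : Subgroup (Perm α)) (a b c : α) : Prop :=
  a = b ∨ a = c ∨ b = c ∨ swap a b * swap a c ∈ L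

theorem Tri.swap23 {a b c : α} (h : Tri L a b c) : Tri L a c b := by
  rcases h with h | h | h | h
  exacts [.inr (.inl h), .inl h, .inr (.inr (.inl h.symm)),
    .inr (.inr (.inr (by simpa using L.inv_mem h)))]

theorem Tri.swap12 {a b c : α} (h : Tri L a b c) : Tri L b a c := by
  by_cases h1 : a = b
  · exact .inl h1.symm
  by_cases h2 : a = c
  · exact .inr (.inr (.inl h2))
  by_cases h3 : b = c
  · exact .inr (.inl h3)
  have h4 := L.inv_mem (((h.resolve_left h1).resolve_left h2).resolve_left h3)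
  refine .inr (.inr (.inr ?_))
  have e : swap b c = swap a b * swap a c * swap a b := by
    have := swap_apply_apply (swap a b) a c
    rwa [swap_apply_left, swap_apply_of_ne_of_ne (Ne.symm h2) (Ne.symm h3), swap_inv] at this
  rw [e, swap_comm b a, ← mul_assoc, ← mul_assoc, swap_mul_self, one_mul]
  simpa using h4

theorem Tri.glue {u v x y : α} (huv : u ≠ v) (hx : Tri L u v x) (hy : Tri L u v y) :
    Tri L u x y := by
  rcases hx with h | h | rfl | h
  · exact absurd h huv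
  · exact .inl h
  · exact hy
  rcases hy with h' | h' | rfl | h'
  · exact absurd h' huv
  · exact .inr (.inl h')
  · exact Tri.swap23 (.inr (.inr (.inr h)))
  · refine .inr (.inr (.inr ?_))
    have := L.mul_mem (L.inv_mem h) h'
    rwa [mul_inv_rev, swap_inv, swap_inv, mul_assoc, swap_mul_self_mul] at this

theorem Tri.full {u v x y z : α} (huv : u ≠ v) (hx : Tri L u v x) (hy : Tri L u v y)
    (hz : Tri L u v z) : Tri L x y z := by
  by_cases h : u = x
  · exact h ▸ hy.glue huv hz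
  · exact (hx.glue huv hy).swap12.glue (Ne.symm h) (hx.glue huv hz).swap12

theorem Tri.ext {u v x y z : α} (huv : u ≠ v) (hxy : x ≠ y) (hx : Tri L u v x) (hy : Tri L u v y)
    (hz : Tri L x y z) : Tri L u v z :=
  Tri.full hxy (hx.full huv hy (.inr (.inl rfl))) (hx.full huv hy (.inr (.inr (.inl rfl)))) hz

theorem Tri.map' (g : Perm α) {a b c : α}
    (hg : swap a b * swap a c ∈ L → g * (swap a b * swap a c) * g⁻¹ ∈ L) (h : Tri L a b c) :
    Tri L (g a) (g b) (g c) := by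
  rcases h with h | h | h | h
  exacts [.inl (by rw [h]), .inr (.inl (by rw [h])), .inr (.inr (.inl (by rw [h]))),
    .inr (.inr (.inr (by
      have := hg h
      rwa [swap_apply_apply, swap_apply_apply, mul_assoc (g * _), mul_assoc g (swap a c),
        inv_mul_cancel_left, ← mul_assoc, mul_assoc g])))]

theorem Tri.join {u v w x y z : α} (huv : u ≠ v) (huw : u ≠ w) (hvw : v ≠ w) (hw : Tri L u v w)
    (hx : Tri L u v x) (h1 : Tri L x y z) (hxy : x ≠ y) (hxz : x ≠ z) (hyz : y ≠ z) :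
    Tri L u v z := by
  have hu : Tri L u v u := .inr (.inl rfl)
  have hv : Tri L u v v := .inr (.inr (.inl rfl))
  obtain ⟨p, q, hp, hq, hpq, hpa, hqa⟩ :
      ∃ b c, Tri L u v b ∧ Tri L u v c ∧ b ≠ c ∧ b ≠ x ∧ c ≠ x := by
    by_cases h1 : u = x
    · exact ⟨v, w, hv, hw, hvw, h1 ▸ huv.symm, h1 ▸ huw.symm⟩
    by_cases h2 : v = x
    · exact ⟨u, w, hu, hw, huw, h1, h2 ▸ hvw.symm⟩
    · exact ⟨u, v, hu, hv, huv, h1, h2⟩
  by_contra hz
  have hy : ¬ Tri L u v y := fun h => hz (hx.ext huv hxy h h1)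
  have h2 := ((h1.resolve_left hxy).resolve_left hxz).resolve_left hyz
  have fix : ∀ p, Tri L u v p → p ≠ x → (swap x y * swap x z) p = p := fun p hp h => by
    have e1 : p ≠ z := fun e => hz (by rw [← e]; exact hp)
    have e2 : p ≠ y := fun e => hy (by rw [← e]; exact hp)
    rw [Perm.mul_apply, swap_apply_of_ne_of_ne h e1, swap_apply_of_ne_of_ne h e2]
  have h3 := (hp.full huv hq hx).map' (swap x y * swap x z)
    fun h => L.mul_mem (L.mul_mem h2 h) (L.inv_mem h2)
  rw [fix p hp hpa, fix q hq hqa, Perm.mul_apply, swap_apply_left,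
    swap_apply_of_ne_of_ne hxz.symm hyz.symm] at h3
  exact hz (hp.ext huv hpq hq h3)

end Block

section Core

open Matrix Equiv

variable {ι F : Type} [Fintype ι] [DecidableEq ι] [Field F]

/-- The permutations whose matrix lies in the subgroup. -/
def Pm (L : Subgroup (SpecialLinearGroup ι F)) : Subgroup (Perm ι) where
  carrier := {σ | Mm L (P F σ)}
  one_mem' := Mm.one
  mul_mem' := fun {a b} ha hb => show Mm L (P F (a * b)) from P_mul (F := F) a b ▸ Mm.mul ha hb
  inv_mem' := fun {a} ha => Mm.inv ha (P_inv a)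

lemma PE_mul (σ : Perm ι) {τ : Perm ι} {E : Matrix ι ι F} (E' : Matrix ι ι F)
    (h : Commute (P F τ) E) : P F σ * E * (P F τ * E') = P F (σ * τ) * (E * E') := by
  rw [mul_assoc, ← mul_assoc E, ← h.eq, ← P_mul]
  simp only [mul_assoc]

lemma Pm_conj {L : Subgroup (SpecialLinearGroup ι F)} {g σ : Perm ι} {E : Matrix ι ι F}
    (hg : g * g = 1) (hE : E * E = 1) (h1 : Commute (P F g) E) (h2 : Commute (P F σ) E)
    (ht : Mm L (P F g * E)) (hσ : σ ∈ Pm L) : g * σ * g⁻¹ ∈ Pm L := by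
  have h3 := (ht.mul hσ).mul ht
  rw [← mul_one (P F σ), PE_mul _ _ h2, mul_one, PE_mul _ _ h1, hE, mul_one] at h3
  rwa [inv_eq_of_mul_eq_one_right hg]

/-- Block of the first generator. -/
def B1 (δ : F) : Matrix (Fin 3) (Fin 3) F := !![-δ, 0, -δ; 0, δ, 0; 0, 0, δ]

/-- Block of the second generator. -/
def B2 (δ l : F) : Matrix (Fin 3) (Fin 3) F := !![δ, 0, 0; 0, δ, 0; -2 * δ, -δ * l, -δ]

/-- Block of the third generator. -/
def B0 (δ : F) : Matrix (Fin 3) (Fin 3) F := !![0, 1, 0; 1, 0, 0; 0, 0, δ]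

lemma B1_sq {δ : F} (h : δ * δ = 1) : B1 δ * B1 δ = 1 := by
  ext a b
  fin_cases a <;> fin_cases b <;> simp [B1, Matrix.mul_apply, Fin.sum_univ_three, h]

lemma B2_sq {δ : F} (h : δ * δ = 1) (l : F) : B2 δ l * B2 δ l = 1 := by
  ext a b
  fin_cases a <;> fin_cases b <;> simp [B2, Matrix.mul_apply, Fin.sum_univ_three, h] <;> ring

lemma B12 {δ : F} (h : δ * δ = 1) (l : F) :
    B1 δ * B2 δ l = !![1, l, 1; 0, 1, 0; -2, -l, -1] := by
  ext a b
  fin_cases a <;> fin_cases b <;> simp [B1, B2, Matrix.mul_apply, Fin.sum_univ_three, h]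
  · linear_combination 2 * h
  · linear_combination l * h
  · linear_combination 2 * h
  · linear_combination l * h

lemma B12_sq {δ : F} (h : δ * δ = 1) (l : F) : B1 δ * B2 δ l * (B1 δ * B2 δ l) = Z0 l := by
  rw [B12 h]
  ext a b
  fin_cases a <;> fin_cases b <;> simp [Z0, Matrix.mul_apply, Fin.sum_univ_three] <;> ring

lemma cjP {σ : Perm ι} {d : ι} (h : σ d = d) (s : Perm ι) (δ : F) :
    Cj (P F s * D d δ) (P F (σ * s * σ⁻¹) * D d δ) :=
  ⟨P F σ, fun e' => by simpa [e'] using det_P (F := F) σ, by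
    rw [mul_assoc, ← (P_D h δ).eq, ← mul_assoc, ← mul_assoc, P_mul, P_mul, inv_mul_cancel_right]⟩

lemma cjB {a c d : ι} (hac : a ≠ c) (had : a ≠ d) (hcd : c ≠ d) {π : Perm ι}
    (hπ : ∀ i, π (![a, c, d] i) = ![a, c, d] i) (δ : F) {B C : Matrix (Fin 3) (Fin 3) F}
    (hC : C.det ≠ 0) (h : C * B0 δ = B * C) :
    Cj (P F (π * swap a c) * D d δ) (P F π * emb ![a, c, d] B) := by
  have hf := inj3 hac had hcd
  have e1 : P F (swap a c) * D d δ = emb ![a, c, d] (B0 δ) := by
    refine mat_ext fun x => ?_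
    rw [← mulVec_mulVec, D, X_mulVec, mulVec_add, mulVec_smul, P_e, P_e,
      swap_apply_of_ne_of_ne had.symm hcd.symm]
    by_cases h1 : x = a
    · subst h1
      refine Eq.trans ?_ (emb3_e hac had hcd _ 0).symm
      simp [B0, e_ne had.symm]
    by_cases h2 : x = c
    · subst h2
      refine Eq.trans ?_ (emb3_e hac had hcd _ 1).symm
      simp [B0, e_ne hcd.symm]
    by_cases h3 : x = d
    · subst h3
      refine Eq.trans ?_ (emb3_e hac had hcd _ 2).symm
      simp [B0, e_self, swap_apply_of_ne_of_ne h1 h2, sub_smul]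
    · rw [emb_e' _ (ne3 h1 h2 h3), swap_apply_of_ne_of_ne h1 h2, e_ne (Ne.symm h3), mul_zero,
        zero_smul, add_zero]
  refine ⟨emb ![a, c, d] C, by rwa [det_emb hf], ?_⟩
  rw [← P_mul, mul_assoc, e1, ← mul_assoc, ← (P_comm_emb hπ C).eq, mul_assoc, mul_assoc,
    emb_mul hf, emb_mul hf, h]

theorem core {G : Type} [Group G] [IsSimpleGroup G] [Finite F] (hG : NA G)
    (h : Img G (SpecialLinearGroup ι F)) (hc : 5 < Fintype.card ι) {a c d p₀ p₁ q : ι}
    (hn : [a, c, d, p₀, p₁, q].Nodup) {s π R : Perm ι} (hs : s * s = 1) (hπ : π * π = 1)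
    (sd : s d = d) (s0 : s p₀ = p₀) (πa : π a = a) (πc : π c = c) (πd : π d = d) (πq : π q = q)
    (π1 : π p₁ = p₀) (Rd : R d = d) (hR : R * s * R⁻¹ = π * swap a c)
    (walk : ∀ B : ι → Prop, B p₀ → B p₁ → B q → (∀ x, x ≠ d → B x → B (s x)) →
      (∀ x, x ≠ a → x ≠ c → x ≠ d → B x → B (π x)) → ∀ x, x ≠ d → B x) : 3 ∈ GenSizes G := by
  simp only [List.nodup_cons, List.mem_cons, List.not_mem_nil, or_false, not_or, not_false_eq_true,
    List.nodup_nil, and_true] at hn
  obtain ⟨⟨hac, had, ha0, ha1, haq⟩, ⟨hcd, hc0, hc1, hcq⟩, ⟨hd0, hd1, hdq⟩, ⟨h01, h0q⟩, h1q⟩ := hn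
  obtain ⟨l, hl0, hl2, hl⟩ := exists_lam (F := F)
  have hf := inj3 hac had hcd
  set δ := (P F s).det with hδ
  have hδ2 : δ * δ = 1 := det_P s
  have hδ0 : δ ≠ 0 := left_ne_zero_of_mul_eq_one hδ2
  set τ := swap p₁ q with hτ
  have fix3 : ∀ σ : Perm ι, σ a = a → σ c = c → σ d = d →
      ∀ i, σ (![a, c, d] i) = ![a, c, d] i := fun σ h1 h2 h3 i => by
    fin_cases i
    exacts [h1, h2, h3]
  have τa : τ a = a := swap_apply_of_ne_of_ne ha1 haq
  have τc : τ c = c := swap_apply_of_ne_of_ne hc1 hcq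
  have τd : τ d = d := swap_apply_of_ne_of_ne hd1 hdq
  have τi : τ⁻¹ = τ := swap_inv _ _
  have fπ := fix3 π πa πc πd
  have fπ2 := fix3 (τ * π * τ) (by simp [τa, πa]) (by simp [τc, πc]) (by simp [τd, πd])
  let t : SpecialLinearGroup ι F := ⟨P F s * D d δ, by rw [det_mul, det_D, hδ2]⟩
  have ht : (t : Matrix ι ι F) = P F s * D d δ := rfl
  have t3sq : P F s * D d δ * (P F s * D d δ) = 1 := by
    rw [PE_mul _ _ (P_D sd δ), hs, P_one, D_sq d hδ2, one_mul]
  have hp : ∀ x, Commute (D p₀ x) (t : Matrix ι ι F) := fun x =>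
    (P_D s0 x).symm.mul_right (D_D _ _ _ _)
  have j0 : Cj (t : Matrix ι ι F) (P F (π * swap a c) * D d δ) := hR ▸ cjP Rd s δ
  obtain ⟨t1, c1, e1, k1⟩ := (j0.trans (cjB hac had hcd fπ δ (B := B1 δ)
    (C := !![0, -δ, 0; 0, 0, 1; 1, δ, 0]) (by simp [det_fin_three, hδ0]) (by
      ext i j
      fin_cases i <;> fin_cases j <;> simp [B0, B1, Matrix.mul_apply, Fin.sum_univ_three, hδ2]))).sl
    hp
  have j1 : Cj (P F (π * swap a c) * D d δ) (P F (τ * π * τ * swap a c) * D d δ) := by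
    have e2 : τ * (π * swap a c) * τ⁻¹ = τ * π * τ * swap a c := by
      have e3 := swap_apply_apply τ a c
      rw [τa, τc, τi] at e3
      rw [τi]
      nth_rewrite 2 [e3]
      simp only [mul_assoc, hτ, swap_mul_self_mul]
    exact e2 ▸ cjP τd _ δ
  obtain ⟨t2, c2, e2, k2⟩ := ((j0.trans j1).trans (cjB hac had hcd fπ2 δ (B := B2 δ l)
    (C := !![0, 0, 1; 1, δ, 0; 0, -δ * l, -1]) (by simp [det_fin_three, hδ0, hl0]) (by
      ext i j
      fin_cases i <;> fin_cases j <;>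
        simp [B0, B2, Matrix.mul_apply, Fin.sum_univ_three, hδ2] <;> ring))).sl hp
  refine hG.three_of_img h t t1 t2 c1 c2 ?_ ?_ ?_ fun L m3 m1 m2 _ => ?_
  · rw [show t * t = 1 from Subtype.ext t3sq]
    exact one_mem _
  · rw [k1, inv_mul_cancel]
    exact one_mem _
  · rw [k2, inv_mul_cancel]
    exact one_mem _
  replace m3 : Mm L (P F s * D d δ) := ⟨t, m3, rfl⟩
  replace m1 : Mm L (P F π * emb ![a, c, d] (B1 δ)) := ⟨t1, m1, e1⟩
  replace m2 : Mm L (P F (τ * π * τ) * emb ![a, c, d] (B2 δ l)) := ⟨t2, m2, e2⟩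
  suffices L = ⊤ from this ▸ le_top
  have πi : π⁻¹ = π := inv_eq_of_mul_eq_one_right hπ
  have π0 : π p₀ = p₁ := by rw [← π1, ← Perm.mul_apply, hπ, Perm.one_apply]
  set γ := swap q p₀ * swap q p₁ with hγ
  have eγ : π * (τ * π * τ) = γ := by
    have e3 := swap_apply_apply π p₁ q
    rw [π1, πq, πi] at e3
    rw [hγ, swap_comm q, swap_comm q, e3]
    simp only [mul_assoc, hτ]
  have fγ : ∀ i, γ (![a, c, d] i) = ![a, c, d] i := fun i => by
    rw [← eγ, Perm.mul_apply, fπ2, fπ]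
  have γ3 : γ * γ * γ = 1 := by
    have := pow_orderOf_eq_one γ
    rwa [(Perm.isThreeCycle_swap_mul_swap_same (Ne.symm h0q) (Ne.symm h1q) h01).orderOf,
      pow_three'] at this
  have g1 := m1.mul m2
  rw [PE_mul _ _ (P_comm_emb fπ2 _), eγ, emb_mul hf] at g1
  have g2 := g1.mul g1
  rw [PE_mul _ _ (P_comm_emb fγ _), emb_mul hf, B12_sq hδ2] at g2
  have g4 := g2.mul g2
  rw [PE_mul _ _ (P_comm_emb (fun i => by rw [Perm.mul_apply, fγ, fγ]) _), ← mul_assoc (γ * γ), γ3,
    one_mul, show emb ![a, c, d] (Z0 l) * emb ![a, c, d] (Z0 l) = 1 from Z_sq l hac had hcd, mul_one] at g4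
  have g6 := g4.mul g2
  rw [← mul_assoc, P_mul, ← mul_assoc, γ3, P_one, one_mul] at g6
  have E1 : emb ![a, c, d] (B1 δ) * emb ![a, c, d] (B1 δ) = 1 := by
    rw [emb_mul hf, B1_sq hδ2, emb_one]
  have E2 : emb ![a, c, d] (B2 δ l) * emb ![a, c, d] (B2 δ l) = 1 := by
    rw [emb_mul hf, B2_sq hδ2, emb_one]
  have sw : ∀ x y z w : ι, w ≠ x → w ≠ y → w ≠ z → (swap x y * swap x z) w = w :=
    fun x y z w h1 h2 h3 => by
      rw [Perm.mul_apply, swap_apply_of_ne_of_ne h1 h3, swap_apply_of_ne_of_ne h1 h2]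
  have b0 : Tri (Pm L) q p₀ p₀ := .inr (.inr (.inl rfl))
  have bq : Tri (Pm L) q p₀ q := .inr (.inl rfl)
  have b1 : Tri (Pm L) q p₀ p₁ := .inr (.inr (.inr g4))
  have hB := walk (Tri (Pm L) q p₀) b0 b1 bq (fun x hx bx => by
      by_cases x0 : x = p₀
      · rw [x0, s0]
        exact b0
      obtain ⟨y, by', y0, yx, yd⟩ : ∃ y, Tri (Pm L) q p₀ y ∧ p₀ ≠ y ∧ y ≠ x ∧ d ≠ y := by
        by_cases x1 : x = p₁
        exacts [⟨q, bq, h0q, x1 ▸ Ne.symm h1q, hdq⟩, ⟨p₁, b1, h01, Ne.symm x1, hd1⟩]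
      have h1 := (b0.full (Ne.symm h0q) by' bx).map' s (Pm_conj hs (D_sq d hδ2) (P_D sd δ)
        (P_D (sw _ _ _ _ hd0 yd hx.symm) δ) m3)
      refine Tri.join (Ne.symm h0q) (Ne.symm h1q) h01 b1 b0 (s0 ▸ h1) ?_ ?_ (s.injective.ne yx)
      · exact s0 ▸ s.injective.ne y0
      · exact s0 ▸ s.injective.ne (Ne.symm x0))
    (fun x xa xc xd bx => by
      have h1 := bx.map' π (Pm_conj hπ E1 (P_comm_emb fπ _) (P_comm_emb (fix3 _
        (sw _ _ _ _ haq ha0 xa.symm) (sw _ _ _ _ hcq hc0 xc.symm) (sw _ _ _ _ hdq hd0 xd.symm)) _) m1)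
      rw [πq, π0] at h1
      exact bq.ext (Ne.symm h0q) (Ne.symm h1q) b1 h1)
  have hA : Alt L d := fun x y z hx hy hz hxy hxz hyz =>
    ((((hB x hx).full (Ne.symm h0q) (hB y hy) (hB z hz)).resolve_left hxy).resolve_left
      hxz).resolve_left hyz
  have hX := all_X hc hA hl0 hl2 hl hac had hcd g6
  refine top_of hX (p := p₁) (q := q) (Ne.symm hd1) (Ne.symm hdq) (fun u => ?_) fun u => ?_
  · have h1 := m1.conj (g' := P F π * emb ![a, c, d] (B1 δ))
      (by rw [PE_mul _ _ (P_comm_emb fπ _), hπ, P_one, E1, one_mul])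
      (hX (-δ * u) q a (Ne.symm haq) (Ne.symm hdq) had)
    have h2 : e F a ᵥ* emb ![a, c, d] (B1 δ) = -δ • (e F a + e F d) :=
      (e_emb3 hac had hcd _ 0).trans (by simp [B1])
    rw [mulVec_smul, ← mulVec_mulVec, emb_e' _ (ne3 (Ne.symm haq) (Ne.symm hcq) (Ne.symm hdq)),
      P_e, πq, ← vecMul_vecMul, ← πi, e_P, πa, h2, ← T_smul, smul_smul,
      show -δ * (-δ * u) = u by linear_combination u * hδ2] at h1
    have h3 : Mm L (T (u • e F q) (-e F a)) := by
      rw [← neg_one_smul F (e F a), ← T_smul, smul_smul]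
      exact hX _ q a (Ne.symm haq) (Ne.symm hdq) had
    have h4 := h3.add_right h1 (by simp [e_dot, e_ne haq])
    rwa [neg_add_cancel_left] at h4
  · have π2i : (τ * π * τ)⁻¹ = τ * π * τ := by simp only [_root_.mul_inv_rev, τi, πi, mul_assoc]
    have π21 : (τ * π * τ) p₁ = p₁ := by simp [hτ, πq]
    have h1 := m2.conj (g' := P F (τ * π * τ) * emb ![a, c, d] (B2 δ l))
      (by rw [PE_mul _ _ (P_comm_emb fπ2 _), E2, mul_one, ← P_mul, ← P_inv (τ * π * τ), π2i])
      (hX (-δ * l⁻¹ * u) c p₁ hc1 hcd (Ne.symm hd1))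
    have h2 : emb ![a, c, d] (B2 δ l) *ᵥ e F c = δ • e F c + (-δ * l) • e F d :=
      (emb3_e hac had hcd _ 1).trans (by simp [B2])
    rw [mulVec_smul, ← mulVec_mulVec, h2, mulVec_add, mulVec_smul, mulVec_smul, P_e, P_e,
      show (τ * π * τ) c = c from fπ2 1, show (τ * π * τ) d = d from fπ2 2, ← vecMul_vecMul, ← π2i,
      e_P, π21, e_emb' _ (ne3 (Ne.symm ha1) (Ne.symm hc1) (Ne.symm hd1)), smul_add, smul_smul,
      smul_smul, show -δ * l⁻¹ * u * (-δ * l) = u by
        rw [show -δ * l⁻¹ * u * (-δ * l) = δ * δ * (l⁻¹ * l) * u by ring, hδ2,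
          inv_mul_cancel₀ hl0, one_mul, one_mul]] at h1
    have h3 : Mm L (T (-((-δ * l⁻¹ * u * δ) • e F c)) (e F p₁)) := by
      rw [← neg_smul]
      exact hX _ c p₁ hc1 hcd (Ne.symm hd1)
    have h4 := h3.add_left h1 (by simp [e_dot, e_ne (Ne.symm hc1), e_ne (Ne.symm hd1)])
    rwa [neg_add_cancel_left] at h4

end Core

section Path

open Equiv Equiv.Perm

variable {n k : ℕ}

def altF (k x : ℕ) : ℕ := if x = 0 ∨ 2 * k < x then x else if x % 2 = 1 then x + 1 else x - 1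

theorem altF_inv (k x : ℕ) : altF k (altF k x) = x := by
  have h : altF k x = x ∧ (x = 0 ∨ 2 * k < x) ∨ altF k x = x + 1 ∧ x % 2 = 1 ∧ x ≤ 2 * k ∨
      altF k x = x - 1 ∧ x % 2 = 0 ∧ x ≤ 2 * k ∧ 0 < x := by
    unfold altF
    split_ifs <;> omega
  generalize altF k x = y at h
  unfold altF
  split_ifs <;> omega

def altT (h : 2 * k < n) : Perm (Fin n) :=
  Function.Involutive.toPerm (fun x => ⟨altF k x.1, by
    have := x.2; unfold altF; split_ifs <;> omega⟩) fun x => Fin.ext (altF_inv k x.1)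

def altR (h : 2 * k < n) : Perm (Fin n) :=
  Function.Involutive.toPerm (fun x => ⟨if x.1 ≤ 2 * k then 2 * k - x.1 else x.1, by
    have := x.2; split_ifs <;> omega⟩) fun x => Fin.ext (by dsimp only; split_ifs <;> omega)

theorem altT_val (h : 2 * k < n) (x : Fin n) : (altT h x).1 = if x.1 = 0 ∨ 2 * k < x.1 then x.1
    else if x.1 % 2 = 1 then x.1 + 1 else x.1 - 1 := rfl

theorem altR_val (h : 2 * k < n) (x : Fin n) :
    (altR h x).1 = if x.1 ≤ 2 * k then 2 * k - x.1 else x.1 := rfl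

theorem altT2_val (h : 2 * k < n) (x : Fin n) : ((altR h * altT h * (altR h)⁻¹) x).1 =
    if 2 * k ≤ x.1 then x.1 else if x.1 % 2 = 0 then x.1 + 1 else x.1 - 1 := by
  change (altR h (altT h (altR h x))).1 = _
  rw [altR_val, altT_val, altR_val]
  split_ifs <;> omega

theorem altT_sq (h : 2 * k < n) : altT h * altT h = 1 :=
  Equiv.ext (Function.Involutive.toPerm_involutive _)

end Path

end SlEven

open Matrix Equiv SlEven

variable {G F : Type} [Group G] [Finite G] [IsSimpleGroup G] [Field F] [Finite F]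

theorem sl_even (hG : NA G) {n : ℕ} (h6 : 6 ≤ n) (he : Even n)
    (h : Img G (SpecialLinearGroup (Fin n) F)) : 3 ∈ GenSizes G := by
  obtain ⟨k, hk⟩ : ∃ k, n = 2 * k + 2 := by
    obtain ⟨r, hr⟩ := he
    exact ⟨r - 1, by omega⟩
  have hn : 2 * k < n := by omega
  let a : Fin n := ⟨2, by omega⟩
  let c : Fin n := ⟨3, by omega⟩
  let π : Perm (Fin n) := altR hn * altT hn * (altR hn)⁻¹ * swap a c
  have hπ : ∀ x : Fin n, (π x).1 = if 2 * k ≤ x.1 ∨ x.1 = 2 ∨ x.1 = 3 then x.1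
      else if x.1 % 2 = 0 then x.1 + 1 else x.1 - 1 := fun x => by
    change ((altR hn * altT hn * (altR hn)⁻¹) (swap a c x)).1 = _
    rw [altT2_val]
    by_cases h1 : x = a
    · rw [h1, swap_apply_left, show (a : ℕ) = 2 from rfl, show (c : ℕ) = 3 from rfl,
        if_neg (by omega), if_neg (by omega), if_pos (by omega)]
    by_cases h2 : x = c
    · rw [h2, swap_apply_right, show (a : ℕ) = 2 from rfl, show (c : ℕ) = 3 from rfl,
        if_neg (by omega), if_pos (by omega), if_pos (by omega)]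
    · rw [swap_apply_of_ne_of_ne h1 h2]
      have h3 : x.1 ≠ 2 := fun e' => h1 (Fin.ext e')
      have h4 : x.1 ≠ 3 := fun e' => h2 (Fin.ext e')
      split_ifs <;> omega
  refine core hG h (by rw [Fintype.card_fin]; omega) (a := a) (c := c)
    (d := ⟨2 * k + 1, by omega⟩) (p₀ := ⟨0, by omega⟩) (p₁ := ⟨1, by omega⟩) (q := ⟨2 * k, hn⟩)
    ?_ (s := altT hn) (π := π) (R := altR hn) (altT_sq hn) ?_ ?_ ?_ ?_ ?_ ?_ ?_ ?_ ?_ ?_ ?_
  · simp only [a, c, List.nodup_cons, List.mem_cons, List.not_mem_nil, or_false, not_or,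
      not_false_eq_true, List.nodup_nil, and_true, Fin.mk.injEq]
    omega
  · ext x
    rw [Perm.mul_apply, hπ, hπ, Perm.one_apply]
    split_ifs <;> omega
  · exact Fin.ext (by rw [altT_val, if_pos (by simp)])
  · exact Fin.ext (by rw [altT_val, if_pos (by simp)])
  · exact Fin.ext (by rw [hπ, if_pos (by simp [a])])
  · exact Fin.ext (by rw [hπ, if_pos (by simp [c])])
  · exact Fin.ext (by rw [hπ, if_pos (by simp)])
  · exact Fin.ext (by rw [hπ, if_pos (by simp)])
  · exact Fin.ext (by rw [hπ, if_neg (by simp; omega), if_neg (by simp)]; rfl)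
  · exact Fin.ext (by rw [altR_val, if_neg (by simp)])
  · rw [mul_swap_mul_self]
  · intro B b0 b1 bq hs hp
    have down : ∀ (j : ℕ) (hj : j + 3 ≤ 2 * k), B ⟨2 * k - j, by omega⟩ := by
      intro j
      induction j with
      | zero => exact fun _ => bq
      | succ j ih =>
        intro hj
        have h1 := ih (by omega)
        rcases Nat.mod_two_eq_zero_or_one j with h2 | h2
        · have h3 := hs _ (Fin.ne_of_val_ne (by dsimp only; omega)) h1
          rwa [show altT hn ⟨2 * k - j, by omega⟩ = ⟨2 * k - (j + 1), by omega⟩ from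
            Fin.ext (by rw [altT_val]; dsimp only; split_ifs <;> omega)] at h3
        · have h3 := hp _ (Fin.ne_of_val_ne (by dsimp only [a]; omega))
            (Fin.ne_of_val_ne (by dsimp only [c]; omega))
            (Fin.ne_of_val_ne (by dsimp only; omega)) h1
          rwa [show π ⟨2 * k - j, by omega⟩ = ⟨2 * k - (j + 1), by omega⟩ from
            Fin.ext (by rw [hπ]; dsimp only; split_ifs <;> omega)] at h3
    rintro ⟨x, hx⟩ hd
    have h1 : x ≠ 2 * k + 1 := fun e' => hd (Fin.ext e')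
    rcases (by omega : x = 0 ∨ x = 1 ∨ x = 2 ∨ 3 ≤ x) with rfl | rfl | rfl | h2
    · exact b0
    · exact b1
    · have h3 := hs _ (Fin.ne_of_val_ne (by dsimp only; omega)) b1
      rwa [show altT hn ⟨1, by omega⟩ = ⟨2, hx⟩ from
        Fin.ext (by rw [altT_val, if_neg (by simp; omega), if_pos (by simp)])] at h3
    · have h3 := down (2 * k - x) (by omega)
      rwa [show (⟨2 * k - (2 * k - x), by omega⟩ : Fin n) = ⟨x, hx⟩ from
        Fin.ext (by dsimp only; omega)] at h3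

end Pool.Agent.Lib.MP_cad414_al.Cg
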