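import Pool.Agent.Lib.MP_cad414_al.Cg.Base

/-! `L4(q)`, `q > 2`, is generated by three conjugate involutions. -/

namespace Pool.Agent.Lib.MP_cad414_al.Cg

open Matrix

namespace SlFour

open Matrix.SpecialLinearGroup

section generic

variable {ι F : Type} [Fintype ι] [DecidableEq ι] [Field F] {L : Subgroup (SpecialLinearGroup ι F)}

/-- The elementary matrix `x i j c` lies in `L`. -/
def T (L : Subgroup (SpecialLinearGroup ι F)) (i j : ι) (c : F) : Prop :=
  ∀ h : i ≠ j, SpecialLinearGroup.transvection h c ∈ L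

theorem T.comm {i j k : ι} {a b : F} (h1 : T L i j a) (h2 : T L j k b) (hij : i ≠ j)
    (hjk : j ≠ k) : T L i k (a * b) := fun hik => by
  have e : SpecialLinearGroup.transvection hik (a * b) *
      (SpecialLinearGroup.transvection hjk b * SpecialLinearGroup.transvection hij a) =
      SpecialLinearGroup.transvection hij a * SpecialLinearGroup.transvection hjk b := by
    refine Subtype.ext ?_
    simp only [coe_mul, transvection_coe, mul_add, add_mul, mul_one, one_mul,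
      single_mul_single_same, single_mul_single_of_ne _ _ _ _ hik.symm,
      single_mul_single_of_ne _ _ _ _ hjk.symm, add_zero]
    abel
  rw [eq_mul_inv_of_mul_eq e]
  exact L.mul_mem (L.mul_mem (h1 _) (h2 _)) (L.inv_mem (L.mul_mem (h2 _) (h1 _)))

theorem diag_eq {i j : ι} (h : i ≠ j) (a : F) (ha : a ≠ 0) :
    diag2n h a ha = 1 * SpecialLinearGroup.transvection h a *
      SpecialLinearGroup.transvection h.symm (-a⁻¹) * SpecialLinearGroup.transvection h a *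
      SpecialLinearGroup.transvection h (-1) * SpecialLinearGroup.transvection h.symm 1 *
      SpecialLinearGroup.transvection h (-1) := by
  refine Subtype.ext ?_
  change diagonal (fun k => if k = i then a else if k = j then a⁻¹ else 1) =
    1 * Matrix.transvection i j a * Matrix.transvection j i (-a⁻¹) * Matrix.transvection i j a *
      Matrix.transvection i j (-1) * Matrix.transvection j i 1 * Matrix.transvection i j (-1)
  ext k l
  by_cases h1 : l = j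
  · subst h1
    simp only [mul_transvection_apply_same, mul_transvection_apply_of_ne _ _ _ _ h,
      mul_transvection_apply_of_ne _ _ _ _ h.symm, diagonal_apply, one_apply]
    split_ifs <;> grind
  by_cases h2 : l = i
  · subst h2
    simp only [mul_transvection_apply_same, mul_transvection_apply_of_ne _ _ _ _ h,
      mul_transvection_apply_of_ne _ _ _ _ h.symm, diagonal_apply, one_apply]
    split_ifs <;> grind
  · simp only [mul_transvection_apply_of_ne _ _ _ _ h1, mul_transvection_apply_of_ne _ _ _ _ h2,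
      diagonal_apply, one_apply]
    split_ifs <;> grind

theorem top_of_all [Nontrivial ι] (h : ∀ i j c, T L i j c) : L = ⊤ := by
  refine top_le_iff.1 fun g _ => diagonal_transvection_induction' (· ∈ L) g
    (fun i j hij c hc => ?_) (fun i j hij a => h i j a hij) fun _ _ => L.mul_mem
  rw [diag_eq]
  iterate 6 refine L.mul_mem ?_ (h _ _ _ _)
  exact L.one_mem

end generic

variable {F : Type} [Field F] {L : Subgroup (SpecialLinearGroup (Fin 4) F)}

theorem top_of {b : F} (hb : ∀ c, c ≠ 0 → ∃ n : ℕ, c = b ^ n) (h1 : T L 0 1 1) (h2 : T L 0 2 1)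
    (h3 : T L 0 3 1) (k1 : T L 1 0 1) (k2 : T L 2 0 1) (k3 : T L 3 0 1) (hT : T L 2 3 b) :
    L = ⊤ := by
  have r0 : ∀ j, T L 0 j 1 := fun j => by
    fin_cases j
    exacts [fun h => absurd rfl h, h1, h2, h3]
  have c0 : ∀ j, T L j 0 1 := fun j => by
    fin_cases j
    exacts [fun h => absurd rfl h, k1, k2, k3]
  have one : ∀ i j, T L i j 1 := fun i j => by
    rcases eq_or_ne i 0 with rfl | hi
    · exact r0 j
    rcases eq_or_ne j 0 with rfl | hj
    · exact c0 i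
    simpa using (c0 i).comm (r0 j) hi hj.symm
  have R : ∀ {i j c}, T L i j c → i ≠ j → ∀ k, T L i k c := fun {i j c} h hij k => by
    rcases eq_or_ne j k with rfl | hk
    · exact h
    simpa using h.comm (one j k) hij hk
  have C : ∀ {i j c}, T L i j c → i ≠ j → ∀ k, T L k j c := fun {i j c} h hij k => by
    rcases eq_or_ne k i with rfl | hk
    · exact h
    simpa using (one k i).comm h hk hij
  have M : ∀ {c}, T L 0 3 c → ∀ k l, T L k l c := fun {c} h k l => by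
    rcases eq_or_ne l 0 with rfl | hl
    · exact C (R (C h (by decide) 1) (by decide) 0) (by decide) k
    exact C (R h (by decide) l) hl.symm k
  have pw : ∀ n : ℕ, T L 0 3 (b ^ n) := fun n => by
    induction n with
    | zero => simpa using h3
    | succ n ih => simpa [pow_succ] using (M ih 0 2).comm hT (by decide) (by decide)
  refine top_of_all fun i j c => ?_
  rcases eq_or_ne c 0 with rfl | hc
  · intro h
    rw [transvection_coeff_zero]
    exact L.one_mem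
  obtain ⟨n, rfl⟩ := hb c hc
  exact M (pw n) i j

/-- A matrix given by its entries. -/
def m (a b c d e f g h i j k l n o p q : F) : Matrix (Fin 4) (Fin 4) F :=
  !![a, b, c, d; e, f, g, h; i, j, k, l; n, o, p, q]

section calculus

variable {a b c d e f g h i j k l n o p q a' b' c' d' e' f' g' h' i' j' k' l' n' o' p' q' : F}

theorem m_mul : m a b c d e f g h i j k l n o p q *
    m a' b' c' d' e' f' g' h' i' j' k' l' n' o' p' q' =
    m (a * a' + b * e' + c * i' + d * n') (a * b' + b * f' + c * j' + d * o')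
      (a * c' + b * g' + c * k' + d * p') (a * d' + b * h' + c * l' + d * q')
      (e * a' + f * e' + g * i' + h * n') (e * b' + f * f' + g * j' + h * o')
      (e * c' + f * g' + g * k' + h * p') (e * d' + f * h' + g * l' + h * q')
      (i * a' + j * e' + k * i' + l * n') (i * b' + j * f' + k * j' + l * o')
      (i * c' + j * g' + k * k' + l * p') (i * d' + j * h' + k * l' + l * q')
      (n * a' + o * e' + p * i' + q * n') (n * b' + o * f' + p * j' + q * o')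
      (n * c' + o * g' + p * k' + q * p') (n * d' + o * h' + p * l' + q * q') := by
  ext x y
  rw [Matrix.mul_apply, Fin.sum_univ_four]
  fin_cases x <;> fin_cases y <;> rfl

omit [Field F] in
theorem m_congr (H : a = a' ∧ b = b' ∧ c = c' ∧ d = d' ∧ e = e' ∧ f = f' ∧ g = g' ∧ h = h' ∧
    i = i' ∧ j = j' ∧ k = k' ∧ l = l' ∧ n = n' ∧ o = o' ∧ p = p' ∧ q = q') :
    m a b c d e f g h i j k l n o p q = m a' b' c' d' e' f' g' h' i' j' k' l' n' o' p' q' := by
  obtain ⟨rfl, rfl, rfl, rfl, rfl, rfl, rfl, rfl, rfl, rfl, rfl, rfl, rfl, rfl, rfl, rfl⟩ := H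
  rfl

theorem m_det : (m a b c d e f g h i j k l n o p q).det =
    (a * f - b * e) * (k * q - l * p) - (a * g - c * e) * (j * q - l * o) +
    (a * h - d * e) * (j * p - k * o) + (b * g - c * f) * (i * q - l * n) -
    (b * h - d * f) * (i * p - k * n) + (c * h - d * g) * (i * o - j * n) := by
  simp [m, det_succ_row_zero, Fin.sum_univ_succ, Fin.succAbove]
  ring

theorem m_one : (1 : Matrix (Fin 4) (Fin 4) F) = m 1 0 0 0 0 1 0 0 0 0 1 0 0 0 0 1 := by
  ext x y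
  fin_cases x <;> fin_cases y <;> rfl

/-- The matrix with the given entries belongs to `L`. -/
def P (L : Subgroup (SpecialLinearGroup (Fin 4) F)) (a b c d e f g h i j k l n o p q : F) : Prop :=
  ∃ x ∈ L, x.1 = m a b c d e f g h i j k l n o p q

theorem P.mul (H : P L a b c d e f g h i j k l n o p q)
    (H' : P L a' b' c' d' e' f' g' h' i' j' k' l' n' o' p' q') :
    P L (a * a' + b * e' + c * i' + d * n') (a * b' + b * f' + c * j' + d * o')
      (a * c' + b * g' + c * k' + d * p') (a * d' + b * h' + c * l' + d * q')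
      (e * a' + f * e' + g * i' + h * n') (e * b' + f * f' + g * j' + h * o')
      (e * c' + f * g' + g * k' + h * p') (e * d' + f * h' + g * l' + h * q')
      (i * a' + j * e' + k * i' + l * n') (i * b' + j * f' + k * j' + l * o')
      (i * c' + j * g' + k * k' + l * p') (i * d' + j * h' + k * l' + l * q')
      (n * a' + o * e' + p * i' + q * n') (n * b' + o * f' + p * j' + q * o')
      (n * c' + o * g' + p * k' + q * p') (n * d' + o * h' + p * l' + q * q') := by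
  obtain ⟨x, hx, ex⟩ := H
  obtain ⟨y, hy, ey⟩ := H'
  exact ⟨x * y, L.mul_mem hx hy, by rw [coe_mul, ex, ey, m_mul]⟩

theorem P.to (H : P L a b c d e f g h i j k l n o p q)
    (E : a = a' ∧ b = b' ∧ c = c' ∧ d = d' ∧ e = e' ∧ f = f' ∧ g = g' ∧ h = h' ∧
      i = i' ∧ j = j' ∧ k = k' ∧ l = l' ∧ n = n' ∧ o = o' ∧ p = p' ∧ q = q') :
    P L a' b' c' d' e' f' g' h' i' j' k' l' n' o' p' q' := by
  obtain ⟨x, hx, ex⟩ := H
  exact ⟨x, hx, ex.trans (m_congr E)⟩

theorem P.T (H : P L a b c d e f g h i j k l n o p q) {u v : Fin 4} {t : F}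
    (E : m a b c d e f g h i j k l n o p q = 1 + single u v t) : T L u v t := fun huv => by
  obtain ⟨x, hx, ex⟩ := H
  exact (Subtype.ext (ex.trans E) : x = SpecialLinearGroup.transvection huv t) ▸ hx

end calculus

section entries

variable {c : F}

theorem T01 (H : P L 1 c 0 0 0 1 0 0 0 0 1 0 0 0 0 1) : T L 0 1 c :=
  H.T (by ext x y; fin_cases x <;> fin_cases y <;> simp [m])

theorem T02 (H : P L 1 0 c 0 0 1 0 0 0 0 1 0 0 0 0 1) : T L 0 2 c :=
  H.T (by ext x y; fin_cases x <;> fin_cases y <;> simp [m])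

theorem T03 (H : P L 1 0 0 c 0 1 0 0 0 0 1 0 0 0 0 1) : T L 0 3 c :=
  H.T (by ext x y; fin_cases x <;> fin_cases y <;> simp [m])

theorem T10 (H : P L 1 0 0 0 c 1 0 0 0 0 1 0 0 0 0 1) : T L 1 0 c :=
  H.T (by ext x y; fin_cases x <;> fin_cases y <;> simp [m])

theorem T20 (H : P L 1 0 0 0 0 1 0 0 c 0 1 0 0 0 0 1) : T L 2 0 c :=
  H.T (by ext x y; fin_cases x <;> fin_cases y <;> simp [m])

theorem T30 (H : P L 1 0 0 0 0 1 0 0 0 0 1 0 c 0 0 1) : T L 3 0 c :=
  H.T (by ext x y; fin_cases x <;> fin_cases y <;> simp [m])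

theorem T23 (H : P L 1 0 0 0 0 1 0 0 0 0 1 c 0 0 0 1) : T L 2 3 c :=
  H.T (by ext x y; fin_cases x <;> fin_cases y <;> simp [m])

theorem T32 (H : P L 1 0 0 0 0 1 0 0 0 0 1 0 0 0 c 1) : T L 3 2 c :=
  H.T (by ext x y; fin_cases x <;> fin_cases y <;> simp [m])

end entries

theorem all_of {Q : F → Prop} {k : F} (hk : k ≠ 0) (h : ∀ c, Q (k * c)) (c : F) : Q c := by
  have h1 := h (k⁻¹ * c)
  rwa [mul_inv_cancel_left₀ hk] at h1

/-- Characteristic two. -/
theorem even_top (h2 : (2 : F) = 0) {b : F} (hb : ∀ c, c ≠ 0 → ∃ n : ℕ, c = b ^ n)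
    (t1 : P L 1 1 0 0 0 1 0 0 0 0 1 b 0 0 0 1)
    (t2 : P L 1 0 1 0 0 1 0 (b + 1) 0 0 1 0 0 0 0 1)
    (t3 : P L 0 0 0 1 0 0 1 0 0 1 0 0 1 0 0 0) : L = ⊤ := by
  have u : P L 1 1 1 (b + 1) 0 1 0 (b + 1) 0 0 1 b 0 0 0 1 :=
    (t1.mul t2).to (by and_intros <;> ring1)
  have x03 : P L 1 0 0 1 0 1 0 0 0 0 1 0 0 0 0 1 :=
    (u.mul u).to (by and_intros <;> grind)
  have x30 : P L 1 0 0 0 0 1 0 0 0 0 1 0 1 0 0 1 :=
    ((t3.mul x03).mul t3).to (by and_intros <;> ring1)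
  have p03 : P L 0 0 0 1 0 1 0 0 0 0 1 0 1 0 0 0 :=
    ((x03.mul x30).mul x03).to (by and_intros <;> grind)
  have p12 : P L 1 0 0 0 0 0 1 0 0 1 0 0 0 0 0 1 :=
    (t3.mul p03).to (by and_intros <;> ring1)
  have y : P L 1 0 1 0 0 1 0 b 0 0 1 0 0 0 0 1 :=
    ((p12.mul t1).mul p12).to (by and_intros <;> ring1)
  have x13 : P L 1 0 0 0 0 1 0 1 0 0 1 0 0 0 0 1 :=
    (y.mul t2).to (by and_intros <;> grind)
  have x10 : P L 1 0 0 0 1 1 0 0 0 0 1 0 0 0 0 1 :=
    ((p03.mul x13).mul p03).to (by and_intros <;> ring1)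
  have x20 : P L 1 0 0 0 0 1 0 0 1 0 1 0 0 0 0 1 :=
    ((p12.mul x10).mul p12).to (by and_intros <;> ring1)
  have p01 : P L 0 1 0 0 1 0 0 0 0 0 1 0 0 0 0 1 :=
    ((t1.mul x10).mul t1).to (by and_intros <;> grind)
  have x01 : P L 1 1 0 0 0 1 0 0 0 0 1 0 0 0 0 1 :=
    ((p01.mul x10).mul p01).to (by and_intros <;> ring1)
  have x02 : P L 1 0 1 0 0 1 0 0 0 0 1 0 0 0 0 1 :=
    ((p12.mul x01).mul p12).to (by and_intros <;> ring1)
  have x23 : P L 1 0 0 0 0 1 0 0 0 0 1 b 0 0 0 1 :=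
    (x01.mul t1).to (by and_intros <;> grind)
  exact top_of hb (T01 x01) (T02 x02) (T03 x03) (T10 x10) (T20 x20) (T30 x30) (T23 x23)

/-- Odd characteristic. -/
theorem odd_top (h2 : (2 : F) ≠ 0) {g : F} (hg : g ≠ 0)
    (hb : ∀ c, c ≠ 0 → ∃ n : ℕ, c = (8 * g) ^ n)
    (t1 : P L (-1) 0 0 0 0 (-1) 0 0 0 0 1 0 0 0 0 1)
    (t2 : P L 0 0 1 0 0 (-1) g 1 1 0 0 0 (-g) 0 g 1)
    (t3 : P L 1 0 0 0 0 0 1 0 0 1 0 0 0 0 0 (-1)) : L = ⊤ := by
  have h8 : (8 : F) ≠ 0 := by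
    rw [show (8 : F) = 2 ^ 3 by norm_num]
    exact pow_ne_zero 3 h2
  have h2g : 2 * g ≠ 0 := mul_ne_zero h2 hg
  have d : P L (-1) 0 0 0 0 1 0 0 0 0 (-1) 0 0 0 0 1 :=
    ((t3.mul t1).mul t3).to (by and_intros <;> ring1)
  have s : P L 0 0 (-1) 0 0 1 (-g) (-1) 1 0 0 0 (-g) 0 g 1 :=
    (t1.mul t2).to (by and_intros <;> ring1)
  have s2 : P L (-1) 0 0 0 0 1 (-2 * g) (-2) 0 0 (-1) 0 0 0 (2 * g) 1 :=
    (s.mul s).to (by and_intros <;> ring1)
  have s4 : P L 1 0 0 0 0 1 (-4 * g) (-4) 0 0 1 0 0 0 0 1 :=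
    (s2.mul s2).to (by and_intros <;> ring1)
  have ng : ∀ {a c : F}, P L 1 0 0 0 0 1 a c 0 0 1 0 0 0 0 1 →
      P L 1 0 0 0 0 1 (-a) (-c) 0 0 1 0 0 0 0 1 := fun H =>
    ((t1.mul H).mul t1).to (by and_intros <;> ring1)
  have a1 : P L 1 0 0 0 0 1 (4 * g) (-4) 0 0 1 0 0 0 0 1 :=
    ((d.mul s4).mul d).to (by and_intros <;> ring1)
  have y12 : P L 1 0 0 0 0 1 (8 * g) 0 0 0 1 0 0 0 0 1 :=
    (a1.mul (ng s4)).to (by and_intros <;> ring1)
  have y13 : P L 1 0 0 0 0 1 0 8 0 0 1 0 0 0 0 1 :=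
    ((ng a1).mul (ng s4)).to (by and_intros <;> ring1)
  have sw : ∀ {c : F}, P L 1 0 0 0 0 1 0 c 0 0 1 0 0 0 0 1 →
      P L 1 0 0 0 0 1 0 0 0 0 1 (-c) 0 0 0 1 := fun H =>
    ((t3.mul H).mul t3).to (by and_intros <;> ring1)
  have pw : ∀ n : ℕ, P L 1 0 0 0 0 1 0 (8 * (8 * g) ^ n) 0 0 1 0 0 0 0 1 := fun n => by
    induction n with
    | zero => exact y13.to (by and_intros <;> ring1)
    | succ n ih =>
      rw [pow_succ, ← mul_assoc]
      generalize 8 * (8 * g) ^ n = c at ih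
      have u0 : P L 1 0 0 0 0 1 0 (-c) 0 0 1 0 0 0 0 1 := (ng ih).to (by and_intros <;> ring1)
      have u1 : P L 1 0 0 0 0 1 (8 * g) (8 * g * c) 0 0 1 c 0 0 0 1 :=
        (y12.mul (sw u0)).to (by and_intros <;> ring1)
      have u2 : P L 1 0 0 0 0 1 0 (8 * g * c) 0 0 1 c 0 0 0 1 :=
        (u1.mul (ng y12)).to (by and_intros <;> ring1)
      exact (u2.mul (sw ih)).to (by and_intros <;> ring1)
  have x13 : ∀ c, P L 1 0 0 0 0 1 0 c 0 0 1 0 0 0 0 1 := by
    refine all_of h8 fun c => ?_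
    rcases eq_or_ne c 0 with rfl | hc
    · exact ⟨1, L.one_mem, m_one.trans (m_congr (by and_intros <;> ring1))⟩
    obtain ⟨n, rfl⟩ := hb c hc
    exact pw n
  have x23 : ∀ c, P L 1 0 0 0 0 1 0 0 0 0 1 c 0 0 0 1 := fun c =>
    (sw (x13 (-c))).to (by and_intros <;> ring1)
  have y0 : ∀ c, P L 1 0 0 0 (g * c) 1 (-(g * c)) (-c) 0 0 1 0 0 0 0 1 := fun c =>
    ((t2.mul (x13 c)).mul t2).to (by and_intros <;> ring1)
  have y : ∀ c, P L 1 0 0 0 (g * c) 1 (-(g * c)) 0 0 0 1 0 0 0 0 1 := fun c =>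
    ((y0 c).mul (x13 c)).to (by and_intros <;> ring1)
  have y' : ∀ c, P L 1 0 0 0 (g * c) 1 (g * c) 0 0 0 1 0 0 0 0 1 := fun c =>
    ((t1.mul (y c)).mul t1).to (by and_intros <;> ring1)
  have x10 : ∀ c, P L 1 0 0 0 c 1 0 0 0 0 1 0 0 0 0 1 := all_of h2g fun c =>
    ((y c).mul (y' c)).to (by and_intros <;> ring1)
  have x12 : ∀ c, P L 1 0 0 0 0 1 c 0 0 0 1 0 0 0 0 1 := all_of h2g fun c =>
    ((y (-c)).mul (y' c)).to (by and_intros <;> ring1)
  have x20 : ∀ c, P L 1 0 0 0 0 1 0 0 c 0 1 0 0 0 0 1 := fun c =>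
    ((t3.mul (x10 c)).mul t3).to (by and_intros <;> ring1)
  have z0 : ∀ c, P L 1 0 c 0 0 1 (g * c) 0 0 0 1 0 0 0 (g * c) 1 := fun c =>
    ((t2.mul (x20 c)).mul t2).to (by and_intros <;> ring1)
  have z : ∀ c, P L 1 0 c 0 0 1 0 0 0 0 1 0 0 0 (g * c) 1 := fun c =>
    ((z0 c).mul (x12 (-(g * c)))).to (by and_intros <;> ring1)
  have z' : ∀ c, P L 1 0 (-c) 0 0 1 0 0 0 0 1 0 0 0 (g * c) 1 := fun c =>
    ((t1.mul (z c)).mul t1).to (by and_intros <;> ring1)
  have x32 : ∀ c, P L 1 0 0 0 0 1 0 0 0 0 1 0 0 0 c 1 := all_of h2g fun c =>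
    ((z c).mul (z' c)).to (by and_intros <;> ring1)
  have x02 : ∀ c, P L 1 0 c 0 0 1 0 0 0 0 1 0 0 0 0 1 := all_of h2 fun c =>
    ((z c).mul (z' (-c))).to (by and_intros <;> ring1)
  have x01 : P L 1 1 0 0 0 1 0 0 0 0 1 0 0 0 0 1 :=
    ((t3.mul (x02 1)).mul t3).to (by and_intros <;> ring1)
  refine top_of hb (T01 x01) (T02 (x02 1)) ?_ (T10 (x10 1)) (T20 (x20 1)) ?_ (T23 (x23 _))
  · simpa using (T02 (x02 1)).comm (T23 (x23 1)) (by decide) (by decide)
  · simpa using (T32 (x32 1)).comm (T20 (x20 1)) (by decide) (by decide)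

theorem three_of {G : Type} [Group G] [IsSimpleGroup G] (hG : NA G)
    (h : Img G (SpecialLinearGroup (Fin 4) F)) {t1 t2 t3 c2 c3 : Matrix (Fin 4) (Fin 4) F}
    (d1 : t1.det = 1) (d2 : c2.det = 1) (d3 : c3.det = 1) (h1 : t1 * t1 = 1)
    (h2 : c2 * t1 = t2 * c2) (h3 : c3 * t1 = t3 * c3)
    (hL : ∀ L : Subgroup (SpecialLinearGroup (Fin 4) F), (∃ x ∈ L, x.1 = t1) →
      (∃ x ∈ L, x.1 = t2) → (∃ x ∈ L, x.1 = t3) → L = ⊤) : 3 ∈ GenSizes G := by
  obtain ⟨x, rfl⟩ : ∃ x : SpecialLinearGroup (Fin 4) F, x.1 = t1 := ⟨⟨t1, d1⟩, rfl⟩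
  obtain ⟨y, rfl⟩ : ∃ x : SpecialLinearGroup (Fin 4) F, x.1 = c2 := ⟨⟨c2, d2⟩, rfl⟩
  obtain ⟨z, rfl⟩ : ∃ x : SpecialLinearGroup (Fin 4) F, x.1 = c3 := ⟨⟨c3, d3⟩, rfl⟩
  have key : ∀ {t : Matrix (Fin 4) (Fin 4) F} (c : SpecialLinearGroup (Fin 4) F),
      c.1 * x.1 = t * c.1 → (c * x * c⁻¹).1 = t := fun {t} c e => by
    rw [coe_mul, coe_mul, coe_inv, e, mul_assoc, mul_adjugate, c.2, one_smul, mul_one]
  refine hG.three_of_img h x (y * x * y⁻¹) (z * x * z⁻¹) y z ?_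
    (by rw [inv_mul_cancel]; exact one_mem _) (by rw [inv_mul_cancel]; exact one_mem _)
    fun L l1 l2 l3 _ => (hL L ⟨_, l1, rfl⟩ ⟨_, l2, key y h2⟩ ⟨_, l3, key z h3⟩).symm ▸ le_top
  rw [show x * x = 1 from Subtype.ext h1]
  exact one_mem _

theorem exists_gen (F : Type) [Field F] [Finite F] :
    ∃ b : F, b ≠ 0 ∧ ∀ c, c ≠ 0 → ∃ n : ℕ, c = b ^ n := by
  obtain ⟨g, hg⟩ := IsCyclic.exists_monoid_generator (α := Fˣ)
  refine ⟨g, g.ne_zero, fun c hc => ?_⟩
  obtain ⟨n, hn⟩ := hg (Units.mk0 c hc)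
  exact ⟨n, by simpa using (congrArg Units.val hn).symm⟩

end SlFour

open SlFour in
theorem sl_four {G F : Type} [Group G] [Finite G] [IsSimpleGroup G] [Field F] [Finite F]
    (hG : NA G) (h2 : Nat.card F ≠ 2) (h : Img G (SpecialLinearGroup (Fin 4) F)) :
    3 ∈ GenSizes G := by
  obtain ⟨b, hb0, hb⟩ := exists_gen F
  rcases eq_or_ne (2 : F) 0 with hc | hc
  · have hinj : Function.Injective fun y : F => y ^ 2 := fun x y e => by
      have e' : x ^ 2 = y ^ 2 := e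
      have h0 : (x - y) ^ 2 = 0 := by linear_combination e' + (y ^ 2 - x * y) * hc
      exact sub_eq_zero.1 ((pow_eq_zero_iff two_ne_zero).1 h0)
    obtain ⟨r, rfl⟩ : ∃ r : F, r ^ 2 = b := Finite.surjective_of_injective hinj b
    have hr0 : r ≠ 0 := fun e => hb0 (by rw [e]; ring)
    have hr1 : r + 1 ≠ 0 := fun e => h2 (by
      rw [Nat.card_eq_two_iff' (0 : F)]
      refine ⟨1, one_ne_zero, fun c h0 => ?_⟩
      obtain ⟨n, hn⟩ := hb c h0
      rw [hn, show r ^ 2 = 1 by linear_combination (r - 1) * e, one_pow])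
    obtain ⟨u, hu⟩ : ∃ u, u * r = 1 := ⟨r⁻¹, inv_mul_cancel₀ hr0⟩
    obtain ⟨v, hv⟩ : ∃ v, v * (r + 1) = 1 := ⟨(r + 1)⁻¹, inv_mul_cancel₀ hr1⟩
    exact three_of hG h (t1 := m 1 1 0 0 0 1 0 0 0 0 1 (r ^ 2) 0 0 0 1)
      (c2 := m (r * v) 0 0 0 0 0 (((r + 1) * u) ^ 2) 0 0 (r * v) 0 0 0 0 0 1)
      (c3 := m 1 1 0 0 0 0 u r 0 0 u 0 1 0 0 0)
      (by rw [m_det]; ring1) (by rw [m_det]; grind) (by rw [m_det]; grind)
      (by rw [m_mul, m_one]; exact m_congr (by and_intros <;> grind))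
      (by rw [m_mul, m_mul]; exact m_congr (by and_intros <;> grind))
      (by rw [m_mul, m_mul]; exact m_congr (by and_intros <;> grind))
      fun L => even_top hc hb
  · have h8 : (8 : F) ≠ 0 := by
      rw [show (8 : F) = 2 ^ 3 by norm_num]
      exact pow_ne_zero 3 hc
    obtain ⟨g, rfl⟩ : ∃ g : F, 8 * g = b := ⟨8⁻¹ * b, mul_inv_cancel_left₀ h8 b⟩
    obtain ⟨k, hk⟩ : ∃ k : F, 2 * k = 1 := ⟨2⁻¹, mul_inv_cancel₀ hc⟩
    exact three_of hG h (t1 := m (-1) 0 0 0 0 (-1) 0 0 0 0 1 0 0 0 0 1)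
      (c2 := m 0 1 0 k 1 0 k 0 0 (-1) 0 k 0 g 1 (-(g * k)))
      (c3 := m 0 0 (-1) 0 1 0 0 k (-1) 0 0 k 0 1 0 0)
      (by rw [m_det]; ring1) (by rw [m_det]; linear_combination hk)
      (by rw [m_det]; linear_combination hk)
      (by rw [m_mul, m_one]; exact m_congr (by and_intros <;> ring1))
      (by rw [m_mul, m_mul]; exact m_congr (by and_intros <;> grind))
      (by rw [m_mul, m_mul]; exact m_congr (by and_intros <;> ring1))
      fun L => odd_top hc (right_ne_zero_of_mul hb0) hb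

end Pool.Agent.Lib.MP_cad414_al.Cg
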