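import Pool.Agent.Lib.MP_cad414_al.Cg.Base

/-! The linear groups in odd dimension are generated by three conjugate involutions. -/

namespace Pool.Agent.Lib.MP_cad414_al.Cg

open Matrix

namespace SlOdd

open Matrix.SpecialLinearGroup Equiv

variable {F ι κ : Type} [Field F] [Fintype ι] [DecidableEq ι] [Fintype κ] [DecidableEq κ]

variable (F) in
/-- The matrix of the map `e_a ↦ e_(f a)`. -/
def inc (f : κ → ι) : Matrix ι κ F := (1 : Matrix ι ι F).submatrix id f

omit [DecidableEq κ] [Fintype κ] in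
theorem mul_inc {α : Type} (M : Matrix α ι F) (f : κ → ι) : M * inc F f = M.submatrix id f :=
  mul_submatrix_one (Equiv.refl ι) f M

omit [Fintype κ] in
theorem inc_inc {f : κ → ι} (hf : Function.Injective f) : (inc F f)ᵀ * inc F f = 1 := by
  rw [mul_inc, inc, transpose_submatrix, transpose_one, submatrix_submatrix]
  exact submatrix_one f hf

omit [Fintype ι] in
theorem inc_single (f : κ → ι) (a b : κ) (c : F) :
    inc F f * single a b c * (inc F f)ᵀ = single (f a) (f b) c := by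
  ext i j
  rw [mul_apply, Finset.sum_eq_single b (fun k _ hk => by simp [hk]) (by simp)]
  by_cases h1 : i = f a <;> by_cases h2 : j = f b <;>
    simp [inc, one_apply, h1, h2, eq_comm]

/-- Block embedding. -/
def emb (f : κ → ι) (hf : Function.Injective f) :
    SpecialLinearGroup κ F →* SpecialLinearGroup ι F where
  toFun M := ⟨1 + inc F f * (M.1 - 1) * (inc F f)ᵀ, by
    rw [det_one_add_mul_comm, ← Matrix.mul_assoc, inc_inc hf, Matrix.one_mul, add_sub_cancel]
    exact M.2⟩
  map_one' := Subtype.ext (by simp)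
  map_mul' M N := Subtype.ext (by
    have h : inc F f * (M.1 - 1) * (inc F f)ᵀ * (inc F f * (N.1 - 1) * (inc F f)ᵀ) =
        inc F f * ((M.1 - 1) * (N.1 - 1)) * (inc F f)ᵀ := by
      simp only [Matrix.mul_assoc]
      rw [← Matrix.mul_assoc (inc F f)ᵀ, inc_inc hf, Matrix.one_mul]
    have h2 : M.1 * N.1 - 1 = (M.1 - 1) + (N.1 - 1) + (M.1 - 1) * (N.1 - 1) := by noncomm_ring
    change 1 + inc F f * (M.1 * N.1 - 1) * (inc F f)ᵀ = (1 + _) * (1 + _)
    rw [add_mul, mul_add, mul_add, h, h2, Matrix.mul_add, Matrix.mul_add, Matrix.add_mul,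
      Matrix.add_mul, one_mul, one_mul, mul_one]
    abel)

theorem emb_x {f : κ → ι} (hf : Function.Injective f) {a b : κ} (h : a ≠ b) (c : F) :
    emb f hf (transvection h c) = transvection (hf.ne h) c := Subtype.ext (by
  change 1 + inc F f * (1 + single a b c - 1) * (inc F f)ᵀ = 1 + single (f a) (f b) c
  rw [add_sub_cancel_left, inc_single])

theorem diag_sub {a b : κ} (h : a ≠ b) {c : F} (hc : c ≠ 0) :
    (diag2n h c hc).1 = 1 + (single a a (c - 1) + single b b (c⁻¹ - 1)) := by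
  ext i j
  rw [diag2n_coe]
  by_cases h0 : i = j
  · subst h0
    by_cases h1 : i = a
    · simp [h1, h.symm]
    · by_cases h2 : i = b
      · simp [h2, h, h.symm]
      · simp [h1, h2, Ne.symm h1, Ne.symm h2]
  · rw [diagonal_apply_ne _ h0, Matrix.add_apply, Matrix.add_apply, one_apply_ne h0,
      single_apply_of_ne _ _ _ _ _ fun e => h0 (e.1.symm.trans e.2),
      single_apply_of_ne _ _ _ _ _ fun e => h0 (e.1.symm.trans e.2), add_zero, add_zero]

theorem emb_d {f : κ → ι} (hf : Function.Injective f) {a b : κ} (h : a ≠ b) {c : F}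
    (hc : c ≠ 0) : emb f hf (diag2n h c hc) = diag2n (hf.ne h) c hc := Subtype.ext (by
  change 1 + inc F f * ((diag2n h c hc).1 - 1) * (inc F f)ᵀ = _
  rw [diag_sub, diag_sub, add_sub_cancel_left, Matrix.mul_add, Matrix.add_mul, inc_single,
    inc_single])

variable (F) in
/-- Signed permutation matrices. -/
def pm (ho : Odd (Fintype.card ι)) : Perm ι →* SpecialLinearGroup ι F where
  toFun σ := ⟨((Perm.sign σ : ℤ) : F) • inc F σ, by
    rw [det_smul, inc, det_permute', det_one, mul_one]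
    rcases Int.units_eq_one_or (Perm.sign σ) with h | h <;> simp [h, ho.neg_one_pow]⟩
  map_one' := Subtype.ext (by simp [inc])
  map_mul' σ τ := Subtype.ext (by
    change _ • inc F _ = (_ • inc F σ) * (_ • inc F τ)
    rw [smul_mul_smul_comm, mul_inc, map_mul, Units.val_mul, Int.cast_mul]
    rfl)

theorem pm_conj (ho : Odd (Fintype.card ι)) (σ : Perm ι) (M : SpecialLinearGroup ι F) :
    pm F ho σ * M * (pm F ho σ)⁻¹ = emb σ σ.injective M := by
  rw [mul_inv_eq_iff_eq_mul]
  refine Subtype.ext ?_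
  change (_ • inc F σ) * M.1 = (1 + inc F σ * (M.1 - 1) * (inc F σ)ᵀ) * (_ • inc F σ)
  rw [smul_mul_assoc, mul_smul_comm, add_mul, mul_assoc, inc_inc σ.injective, mul_sub]
  simp

omit [Fintype ι] [DecidableEq ι] in
theorem inj2 {a b : ι} (h : a ≠ b) : Function.Injective ![a, b] := by
  intro i j
  fin_cases i <;> fin_cases j <;> simp [h, h.symm]

omit [Fintype ι] [DecidableEq ι] in
theorem inj3 {a b c : ι} (h1 : a ≠ b) (h2 : a ≠ c) (h3 : b ≠ c) :
    Function.Injective ![a, b, c] := by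
  intro i j
  fin_cases i <;> fin_cases j <;> simp [h1, h2, h3, h1.symm, h2.symm, h3.symm]

theorem x01 (h : (0 : Fin 3) ≠ 1) (c : F) :
    (transvection h c).1 = !![1, c, 0; 0, 1, 0; 0, 0, 1] := by
  ext i j
  fin_cases i <;> fin_cases j <;> simp [transvection_coe]

theorem x10 (h : (1 : Fin 3) ≠ 0) (c : F) :
    (transvection h c).1 = !![1, 0, 0; c, 1, 0; 0, 0, 1] := by
  ext i j
  fin_cases i <;> fin_cases j <;> simp [transvection_coe]

theorem x12 (h : (1 : Fin 3) ≠ 2) (c : F) :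
    (transvection h c).1 = !![1, 0, 0; 0, 1, c; 0, 0, 1] := by
  ext i j
  fin_cases i <;> fin_cases j <;> simp [transvection_coe]

theorem x21 (h : (2 : Fin 3) ≠ 1) (c : F) :
    (transvection h c).1 = !![1, 0, 0; 0, 1, 0; 0, c, 1] := by
  ext i j
  fin_cases i <;> fin_cases j <;> simp [transvection_coe]

theorem x02 (h : (0 : Fin 3) ≠ 2) (c : F) :
    (transvection h c).1 = !![1, 0, c; 0, 1, 0; 0, 0, 1] := by
  ext i j
  fin_cases i <;> fin_cases j <;> simp [transvection_coe]

theorem d02 (h : (0 : Fin 3) ≠ 2) {c : F} (hc : c ≠ 0) :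
    (diag2n h c hc).1 = !![c, 0, 0; 0, 1, 0; 0, 0, c⁻¹] := by
  ext i j
  fin_cases i <;> fin_cases j <;> simp [diag2n_coe]

theorem d12 (h : (1 : Fin 3) ≠ 2) {c : F} (hc : c ≠ 0) :
    (diag2n h c hc).1 = !![1, 0, 0; 0, c, 0; 0, 0, c⁻¹] := by
  ext i j
  fin_cases i <;> fin_cases j <;> simp [diag2n_coe]

/-- The block `[[l, 1], [-1, 0]]`. -/
def gg {a b : ι} (h : a ≠ b) (l : F) : SpecialLinearGroup ι F :=
  transvection h (1 - l) * transvection h.symm (-1) * transvection h 1

theorem emb_g {f : κ → ι} (hf : Function.Injective f) {a b : κ} (h : a ≠ b) (l : F) :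
    emb f hf (gg h l) = gg (hf.ne h) l := by
  rw [gg, map_mul, map_mul, emb_x, emb_x, emb_x, gg]

theorem g01 (h : (0 : Fin 3) ≠ 1) (l : F) : (gg h l).1 = !![l, 1, 0; -1, 0, 0; 0, 0, 1] := by
  simp [gg, x01, x10]

theorem g12 (h : (1 : Fin 3) ≠ 2) (l : F) : (gg h l).1 = !![1, 0, 0; 0, l, 1; 0, -1, 0] := by
  simp [gg, x12, x21]

theorem braid {a b c : ι} (h1 : a ≠ b) (h2 : a ≠ c) (h3 : b ≠ c) (l : F) :
    gg h1 l * gg h3 l * gg h1 l = transvection h2 (l * (l - 2)) * (gg h3 l * gg h1 l * gg h3 l) := by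
  have e : gg (show (0 : Fin 3) ≠ 1 by decide) l * gg (show (1 : Fin 3) ≠ 2 by decide) l *
      gg (show (0 : Fin 3) ≠ 1 by decide) l =
      transvection (show (0 : Fin 3) ≠ 2 by decide) (l * (l - 2)) *
      (gg (show (1 : Fin 3) ≠ 2 by decide) l * gg (show (0 : Fin 3) ≠ 1 by decide) l *
        gg (show (1 : Fin 3) ≠ 2 by decide) l) := Subtype.ext (by
    simp [g01, g12, x02]
    ring)
  have e' := congrArg (emb _ (inj3 h1 h2 h3)) e
  simp only [map_mul, emb_g, emb_x] at e'
  exact e'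

theorem comm {a b c : ι} (h1 : a ≠ b) (h2 : a ≠ c) (h3 : b ≠ c) (u v : F) :
    transvection h2 (u * v) =
      transvection h1 u * transvection h3 v * transvection h1 (-u) * transvection h3 (-v) := by
  have e : transvection (show (0 : Fin 3) ≠ 2 by decide) (u * v) =
      transvection (show (0 : Fin 3) ≠ 1 by decide) u *
      transvection (show (1 : Fin 3) ≠ 2 by decide) v *
      transvection (show (0 : Fin 3) ≠ 1 by decide) (-u) *
      transvection (show (1 : Fin 3) ≠ 2 by decide) (-v) := Subtype.ext (by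
    simp [x01, x12, x02])
  have e' := congrArg (emb _ (inj3 h1 h2 h3)) e
  simp only [map_mul, emb_x] at e'
  exact e'

theorem cnj {a b c : ι} (h1 : a ≠ b) (h2 : a ≠ c) (h3 : b ≠ c) {l : F} (hl : l ≠ 0) :
    diag2n h2 l hl * transvection h1.symm (-1) =
      gg h1 l * (diag2n h3 l hl * transvection h1 (-1)) := by
  have e : diag2n (show (0 : Fin 3) ≠ 2 by decide) l hl *
      transvection (show (1 : Fin 3) ≠ 0 by decide) (-1) =
      gg (show (0 : Fin 3) ≠ 1 by decide) l * (diag2n (show (1 : Fin 3) ≠ 2 by decide) l hl *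
        transvection (show (0 : Fin 3) ≠ 1 by decide) (-1)) := Subtype.ext (by
    simp [x01, x10, g01, d02, d12])
  have e' := congrArg (emb _ (inj3 h1 h2 h3)) e
  simp only [map_mul, emb_x, emb_g, emb_d] at e'
  exact e'

/-- The transvections generate. -/
theorem mem_of_all [Nontrivial ι] {L : Subgroup (SpecialLinearGroup ι F)}
    (h : ∀ (i j : ι) (h : i ≠ j) (c : F), transvection h c ∈ L) (M : SpecialLinearGroup ι F) :
    M ∈ L := by
  refine diagonal_transvection_induction' (· ∈ L) M (fun i j hij c hc => ?_) h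
    fun _ _ => L.mul_mem
  have h1 := SL2.transvection_induction (fun A => emb _ (inj2 hij) A ∈ L)
    (fun a b hab c => by rw [emb_x]; exact h _ _ _ _)
    (fun A B hA hB => by rw [map_mul]; exact L.mul_mem hA hB) (diag2n zero_ne_one c hc)
  rwa [emb_d] at h1

theorem exists_lam [Finite F] : ∃ l : F, l ≠ 0 ∧ l ≠ 2 ∧ ∀ S : Subring F, l ∈ S → ∀ x, x ∈ S := by
  obtain ⟨g, hg⟩ := IsCyclic.exists_monoid_generator (α := Fˣ)
  have h : ∀ S : Subring F, (g : F) ∈ S → ∀ x, x ∈ S := fun S hS x => by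
    by_cases hx : x = 0
    · exact hx ▸ S.zero_mem
    · obtain ⟨k, hk⟩ := hg (Units.mk0 x hx)
      have h1 : (g : F) ^ k = x := by simpa using congrArg Units.val hk
      exact h1 ▸ S.pow_mem hS k
  by_cases h2 : (g : F) = 2
  · refine ⟨1, one_ne_zero, fun e => one_ne_zero (α := F) (by linear_combination -e),
      fun S _ => h S ?_⟩
    rw [h2, ← one_add_one_eq_two]
    exact S.add_mem S.one_mem S.one_mem
  · exact ⟨g, g.ne_zero, h2, h⟩

section Gen

variable [CommRing ι] (L : Subgroup (SpecialLinearGroup ι F))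

/-- All transvections with offset `d` and parameter `c` lie in `L`. -/
def A (d : ι) (c : F) : Prop := ∀ (i j : ι) (h : i ≠ j), j = i + d → transvection h c ∈ L

variable {L}

theorem A.neg {d : ι} {c : F} (h : A L d c) : A L d (-c) := fun i j hij e => by
  rw [← transvection_inv]
  exact L.inv_mem (h i j hij e)

theorem A.mul {d e : ι} {u v : F} (hd : d ≠ 0) (he : e ≠ 0) (h1 : A L d u) (h2 : A L e v) :
    A L (d + e) (u * v) := fun i j hij k => by
  have a1 : i ≠ i + d := fun x => hd (by linear_combination -x)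
  have a2 : i + d ≠ j := fun x => he (by linear_combination -x - k)
  have a3 : j = i + d + e := by rw [k, add_assoc]
  rw [comm a1 hij a2]
  exact L.mul_mem (L.mul_mem (L.mul_mem (h1 _ _ _ rfl) (h2 _ _ _ a3)) (h1.neg _ _ _ rfl))
    (h2.neg _ _ _ a3)

theorem all_one [Finite F] (hgen : ∀ i : ι, ∃ k : ℕ, i = 2 * k) {μ : F} (hμ : μ ≠ 0)
    (h1 : A L 2 μ) (h2 : A L (-2) μ) {d : ι} (hd : d ≠ 0) : A L d 1 := by
  have u : ∀ x : ι, 2 * x = 0 → x = 0 := fun x hx => by
    obtain ⟨k, hk⟩ := hgen 1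
    linear_combination x * hk + k * hx
  have n1 : (1 : ι) ≠ 0 := fun e => hd (by linear_combination d * e)
  have n2 : (2 : ι) ≠ 0 := fun e => n1 (u 1 (by linear_combination e))
  have n4 : (2 + 2 : ι) ≠ 0 := fun e => n2 (u 2 (by linear_combination e))
  have a1 : ∀ m : ℕ, ((2 + 2) * m : ι) ≠ 0 → ∃ k : ℕ, A L ((2 + 2) * m) ((μ * μ) ^ k) := by
    intro m
    induction m with
    | zero => simp
    | succ m ih =>
      intro _
      rw [Nat.cast_succ, mul_add, mul_one]
      by_cases h0 : ((2 + 2) * m : ι) = 0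
      · exact ⟨1, by rw [h0, zero_add, pow_one]; exact h1.mul n2 n2 h1⟩
      · obtain ⟨k, hk⟩ := ih h0
        exact ⟨k + 1, by rw [pow_succ]; exact hk.mul h0 n4 (h1.mul n2 n2 h1)⟩
  have a2 : ∀ c, A L d c → A L d (c * (μ * μ)) := fun c hc => by
    rw [← mul_assoc]
    by_cases h0 : d + 2 = 0
    · have h3 := (hc.mul hd (neg_ne_zero.2 n2) h2).mul
        (fun e => n4 (by linear_combination h0 - e)) n2 h1
      rwa [neg_add_cancel_right] at h3
    · have h3 := (hc.mul hd n2 h1).mul h0 (neg_ne_zero.2 n2) h2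
      rwa [add_neg_cancel_right] at h3
  obtain ⟨k, hk⟩ := hgen d
  obtain ⟨m, hm⟩ := hgen k
  have e : d = (2 + 2) * m := by linear_combination hk + 2 * hm
  obtain ⟨r, hr⟩ := a1 m (e ▸ hd)
  rw [← e] at hr
  have a3 : ∀ j : ℕ, A L d ((μ * μ) ^ (r + j)) := fun j => by
    induction j with
    | zero => exact hr
    | succ j ih => rw [← add_assoc, pow_succ]; exact a2 _ ih
  obtain ⟨N, hN, h3⟩ := isOfFinOrder_iff_pow_eq_one.1
    (isOfFinOrder_of_finite (Units.mk0 _ (mul_ne_zero hμ hμ)))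
  have h4 : (μ * μ) ^ N = 1 := by simpa using congrArg Units.val h3
  obtain ⟨N, rfl⟩ := Nat.exists_eq_succ_of_ne_zero hN.ne'
  have h5 := a3 (r * N)
  rwa [show r + r * N = N.succ * r by rw [Nat.succ_mul]; ring, pow_mul, h4, one_pow] at h5

theorem core {G : Type} [Group G] [IsSimpleGroup G] [Finite F] (hG : NA G)
    (ho : Odd (Fintype.card ι)) (hgen : ∀ i : ι, ∃ k : ℕ, i = 2 * k) (n1 : (0 : ι) ≠ 1)
    (h : Img G (SpecialLinearGroup ι F)) : 3 ∈ GenSizes G := by
  have : Nontrivial ι := ⟨0, 1, n1⟩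
  obtain ⟨l, l0, l2, hl⟩ := exists_lam (F := F)
  obtain ⟨k, hk⟩ := hgen 1
  have k0 : (0 : ι) ≠ k := fun e => n1 (by linear_combination -hk + 2 * e)
  have k1 : (1 : ι) ≠ k := fun e => n1 (by linear_combination hk - 2 * e)
  have n2 : (0 : ι) ≠ 2 := fun e => n1 (by linear_combination -hk + k * e)
  have n3 : (1 : ι) ≠ 2 := fun e => n1 (by linear_combination e)
  have cx : ∀ (σ : Perm ι) {i j i' j' : ι} (h : i ≠ j) (h' : i' ≠ j') (c : F), σ i = i' →
      σ j = j' → pm F ho σ * transvection h c * (pm F ho σ)⁻¹ = transvection h' c := by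
    rintro σ i j _ _ h h' c rfl rfl
    rw [pm_conj, emb_x]
  refine hG.three_of_img h (pm F ho (Equiv.subLeft 1)) (gg n1 l * pm F ho (Equiv.subLeft 1))
    (pm F ho (Equiv.neg ι)) (diag2n k0 l l0 * transvection n1.symm (-1))
    (pm F ho (Equiv.addLeft (-k))) ?_ ?_ ?_ fun L t1 t2 t3 _ M _ => ?_
  · rw [← map_mul, show (Equiv.subLeft 1 * Equiv.subLeft 1 : Perm ι) = 1 by ext; simp, map_one]
    exact one_mem _
  · have e1 : pm F ho (Equiv.subLeft 1) * diag2n k0 l l0 * (pm F ho (Equiv.subLeft 1))⁻¹ =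
        diag2n k1 l l0 := by
      rw [pm_conj, emb_d]
      congr 1
      · simp
      · change (1 : ι) - k = k
        linear_combination hk
    have e2 := cx (Equiv.subLeft 1) n1.symm n1 (-1 : F) (by simp) (by simp)
    have e3 := cnj n1 k0 k1 l0
    rw [← e1, ← e2] at e3
    generalize diag2n k0 l l0 = D at e3
    generalize transvection n1.symm (-1 : F) = X at e3
    have e4 : pm F ho (Equiv.subLeft 1) * pm F ho (Equiv.subLeft 1) = 1 := by
      rw [← map_mul, show (Equiv.subLeft 1 * Equiv.subLeft 1 : Perm ι) = 1 by ext; simp, map_one]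
    generalize pm F ho (Equiv.subLeft 1) = t at e3 e4
    have e5 : D * X * t = gg n1 l * t * (D * X) := by
      conv_lhs => rw [e3]
      group
    rw [e5, mul_inv_cancel_right, inv_mul_cancel]
    exact one_mem _
  · rw [← map_inv, ← map_inv, ← map_mul, ← map_mul, ← map_mul,
      show ((Equiv.neg ι)⁻¹ * (Equiv.addLeft (-k : ι) * Equiv.subLeft 1 *
        (Equiv.addLeft (-k : ι))⁻¹) : Perm ι) = 1 by
        ext x
        simp [Perm.inv_def]
        linear_combination -hk, map_one]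
    exact one_mem _
  have g0 : gg n1 l ∈ L := by simpa using L.mul_mem t2 (L.inv_mem t1)
  have cj : ∀ σ : Perm ι, pm F ho σ ∈ L → ∀ {i j i' j' : ι} (h : i ≠ j) (h' : i' ≠ j') (c : F),
      σ i = i' → σ j = j' → transvection h c ∈ L → transvection h' c ∈ L := by
    intro σ hσ i j i' j' h h' c e e' hc
    rw [← cx σ h h' c e e']
    exact L.mul_mem (L.mul_mem hσ hc) (L.inv_mem hσ)
  have r1 : pm F ho (Equiv.addLeft 1) ∈ L := by
    rw [show (Equiv.addLeft 1 : Perm ι) = Equiv.subLeft 1 * Equiv.neg ι by ext; simp, map_mul]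
    exact L.mul_mem t1 t3
  have r2 : ∀ x : ι, pm F ho (Equiv.addLeft x) ∈ L := fun x => by
    obtain ⟨m, hm⟩ := hgen x
    have h1 := L.pow_mem r1 (2 * m)
    rwa [← map_pow, Equiv.nsmul_addLeft, nsmul_one, Nat.cast_mul, Nat.cast_two, ← hm] at h1
  have tr : ∀ {d : ι} (h : 0 ≠ d) (c : F), transvection h c ∈ L → A L d c :=
    fun h c hc i j hij e => cj _ (r2 i) h hij c (by simp) (by simp [e]) hc
  have g1 : gg n3 l ∈ L := by
    have h1 := L.mul_mem (L.mul_mem r1 g0) (L.inv_mem r1)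
    rw [pm_conj, emb_g] at h1
    convert h1 using 2 <;> simp [one_add_one_eq_two]
  have x2 : transvection n2 (l * (l - 2)) ∈ L := by
    rw [← L.mul_mem_cancel_right (L.mul_mem (L.mul_mem g1 g0) g1), ← braid n1 n2 n3]
    exact L.mul_mem (L.mul_mem g0 g1) g0
  have n4 : (0 : ι) ≠ -2 := fun e => n2 (by linear_combination -e)
  have a1 : ∀ d : ι, d ≠ 0 → A L d 1 := fun d hd =>
    all_one hgen (mul_ne_zero l0 (sub_ne_zero.2 l2)) (tr n2 _ x2)
      (tr n4 _ (cj _ t3 n2 n4 _ (by simp) (by simp) x2)) hd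
  have a2 : A L 1 (1 - l) := by
    refine tr n1 _ ?_
    rwa [gg, L.mul_mem_cancel_right (a1 1 n1.symm _ _ n1 (by simp)),
      L.mul_mem_cancel_right ((a1 (-1) (neg_ne_zero.2 n1.symm)).neg _ _ n1.symm (by simp))] at g0
  let S : Subring F :=
    { carrier := {c | ∀ d, d ≠ 0 → A L d c}
      one_mem' := a1
      zero_mem' := fun d _ i j hij _ => by rw [transvection_coeff_zero]; exact one_mem _
      add_mem' := fun ha hb d hd i j hij e => by
        rw [transvection_add]
        exact L.mul_mem (ha d hd i j hij e) (hb d hd i j hij e)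
      neg_mem' := fun ha d hd => (ha d hd).neg
      mul_mem' := fun {a b} ha hb d hd => by
        by_cases h1 : d = 1
        · have h2 := (ha 2 n2.symm).mul n2.symm (neg_ne_zero.2 n1.symm)
            (hb _ (neg_ne_zero.2 n1.symm))
          rwa [show (2 + -1 : ι) = d by rw [h1]; ring] at h2
        · have h2 := (ha 1 n1.symm).mul n1.symm (sub_ne_zero.2 h1) (hb _ (sub_ne_zero.2 h1))
          rwa [add_sub_cancel] at h2 }
  have a3 : 1 - l ∈ S := fun d hd => by
    by_cases h1 : d = 1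
    · exact h1 ▸ a2
    · have h2 := a2.mul n1.symm (sub_ne_zero.2 h1) (a1 _ (sub_ne_zero.2 h1))
      rwa [add_sub_cancel, mul_one] at h2
  have a4 : l ∈ S := by simpa using S.sub_mem S.one_mem a3
  exact mem_of_all (fun i j hij c => hl S a4 c (j - i) (sub_ne_zero.2 hij.symm) i j hij
    (by ring)) M

end Gen

end SlOdd

variable {G F : Type} [Group G] [Finite G] [IsSimpleGroup G] [Field F] [Finite F]

theorem sl_odd (hG : NA G) {n : ℕ} (h3 : 3 ≤ n) (ho : Odd n)
    (h : Img G (SpecialLinearGroup (Fin n) F)) : 3 ∈ GenSizes G := by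
  obtain ⟨k, rfl⟩ := ho
  have h1 : ∀ i : ZMod (2 * k + 1), ∃ m : ℕ, i = 2 * m := fun i => by
    obtain ⟨a, rfl⟩ := ZMod.natCast_zmod_surjective i
    refine ⟨a * (k + 1), ?_⟩
    have e := ZMod.natCast_self (2 * k + 1)
    push_cast at e ⊢
    linear_combination -(a : ZMod (2 * k + 1)) * e
  have : Fact (1 < 2 * k + 1) := ⟨by omega⟩
  have h2 : (0 : ZMod (2 * k + 1)) ≠ 1 := zero_ne_one
  exact @SlOdd.core F (Fin (2 * k + 1)) _ _ _ (ZMod.commRing (2 * k + 1)) G _ _ _ hG
    (by rw [Fintype.card_fin]; exact ⟨k, rfl⟩) h1 h2 h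

end Pool.Agent.Lib.MP_cad414_al.Cg
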