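import Pool.Agent.Lib.MP_cad414_al.Cg.SlTwo
import Pool.Agent.Lib.MP_cad414_al.Cg.SlFour
import Pool.Agent.Lib.MP_cad414_al.Cg.SlOdd
import Pool.Agent.Lib.MP_cad414_al.Cg.SlEven

/-! The linear groups. -/

namespace Pool.Agent.Lib.MP_cad414_al.Cg

open Matrix

variable {G F : Type} [Group G] [Finite G] [IsSimpleGroup G] [Field F] [Finite F]

theorem sl_three (hG : NA G) {n : ℕ} (h2 : 2 ≤ n) (h4 : n ≤ 4 → Nat.card F ≠ 2)
    (h3 : n = 2 → Nat.card F ≠ 3) (h : Img G (SpecialLinearGroup (Fin n) F)) :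
    3 ∈ GenSizes G := by
  rcases Nat.even_or_odd n with he | ho
  · obtain ⟨k, hk⟩ := id he
    rcases (by omega : n = 2 ∨ n = 4 ∨ 6 ≤ n) with rfl | rfl | h6
    · have := Finite.one_lt_card (α := F)
      have := h4 (by norm_num)
      have := h3 rfl
      exact sl_two hG (by omega) h
    · exact sl_four hG (h4 le_rfl) h
    · exact sl_even hG h6 he h
  · obtain ⟨k, hk⟩ := id ho
    exact sl_odd hG (by omega) ho h

end Pool.Agent.Lib.MP_cad414_al.Cg
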