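import Pool.Agent.Lib.MP_cad414_al.Cg.SpA

/-! Symplectic groups in odd characteristic: three conjugate involutions modulo the centre. -/

namespace Pool.Agent.Lib.MP_cad414_al.Cg

open Matrix SymplecticGroup

variable {l F : Type} [Fintype l] [DecidableEq l] [Field F]

def sE (i : l) : l ⊕ l → F := Pi.single (Sum.inl i) 1

def sF (i : l) : l ⊕ l → F := Pi.single (Sum.inr i) 1

theorem sB_E (x : l ⊕ l → F) (i : l) : sB x (sE i) = x (Sum.inr i) := by
  simp [sB_def, sE, J, dotProduct, Matrix.one_apply]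

theorem sB_F (x : l ⊕ l → F) (i : l) : sB x (sF i) = -x (Sum.inl i) := by
  simp [sB_def, sF, J, dotProduct, Matrix.one_apply]

theorem sB_EE (i j : l) : sB (sE i : l ⊕ l → F) (sE j) = 0 := by rw [sB_E]; simp [sE]

theorem sB_FF (i j : l) : sB (sF i : l ⊕ l → F) (sF j) = 0 := by rw [sB_F]; simp [sF]

theorem sB_FE (i j : l) : sB (sF i : l ⊕ l → F) (sE j) = if j = i then 1 else 0 := by
  rw [sB_E]; simp [sF, Pi.single_apply]

theorem sB_EF (i j : l) : sB (sE i : l ⊕ l → F) (sF j) = if j = i then -1 else 0 := by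
  rw [sB_F]; by_cases h : j = i <;> simp [sE, h]

theorem sp_diag (h2 : (2 : F) ≠ 0) {ρ : l → l} (hρ : Function.Involutive ρ) {P : Matrix l l F}
    (hP : P = of fun i j => if i = ρ j then 1 else 0) :
    Pᵀ = P ∧ P * P = 1 ∧ ∃ (K : Matrix l l F) (ε : l → F), (∀ i, ε i = 1 ∨ ε i = -1) ∧
      Kᵀ * P * K = diagonal ε := by
  have p1 : Pᵀ = P := by
    ext i j
    simp only [hP, transpose_apply, of_apply]
    exact if_congr ⟨fun e => by rw [e, hρ], fun e => by rw [e, hρ]⟩ rfl rfl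
  have p2 : P * P = 1 := by
    ext i j
    simp [hP, Matrix.mul_apply, hρ j, Matrix.one_apply]
  have p3 : ∀ d : l → F, P * diagonal d = diagonal (fun i => d (ρ i)) * P := fun d => by
    ext i j
    simp only [hP, mul_diagonal, diagonal_mul, of_apply]
    split_ifs with h
    · rw [h, hρ, mul_comm]
    · simp
  let v : l → ℕ := fun i => Fintype.equivFin l i
  have hv : ∀ i j, v i = v j → i = j := fun i j e => (Fintype.equivFin l).injective (Fin.ext e)
  let a : l → F := fun i => if v (ρ i) < v i then -2⁻¹ else 1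
  let b : l → F := fun i => if v (ρ i) < v i then 1 else if v i < v (ρ i) then 2⁻¹ else 0
  refine ⟨p1, p2, diagonal a + P * diagonal b, fun i => if v (ρ i) < v i then -1 else 1,
    fun i => by dsimp only; split_ifs <;> simp, ?_⟩
  have e : (diagonal a + P * diagonal b)ᵀ * P * (diagonal a + P * diagonal b) =
      diagonal (fun i => a i * a (ρ i) + b i * b (ρ i)) * P + diagonal fun i => 2 * a i * b i := by
    have e1 : ∀ X : Matrix l l F, P * (P * X) = X := fun X => by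
      rw [← Matrix.mul_assoc, p2, Matrix.one_mul]
    simp only [transpose_add, transpose_mul, diagonal_transpose, p1, Matrix.add_mul,
      Matrix.mul_add, Matrix.mul_assoc, e1]
    simp only [p3, ← Matrix.mul_assoc, diagonal_mul_diagonal, ← diagonal_add, Matrix.add_mul]
    ext i j
    simp only [Matrix.add_apply, diagonal_mul, diagonal_apply]
    split_ifs <;> ring
  rw [e]
  ext i j
  simp only [Matrix.add_apply, diagonal_mul, diagonal_apply, hP, of_apply, a, b, hρ i]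
  rcases lt_trichotomy (v (ρ i)) (v i) with h | h | h
  · simp only [if_pos h, if_neg h.not_gt]
    split_ifs <;> field_simp <;> ring
  · have h' := hv _ _ h
    have h3 : i = ρ j ↔ i = j := ⟨fun e => hρ.injective (h'.trans e), fun e => e ▸ h'.symm⟩
    simp only [h, lt_irrefl, if_false, h3]
    split_ifs <;> ring
  · simp only [if_pos h, if_neg h.not_gt]
    split_ifs <;> field_simp <;> ring

theorem sp_refl [Finite F] (h2 : (2 : F) ≠ 0) {ρ : l → l} (hρ : Function.Involutive ρ) :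
    ∃ c : symplecticGroup l F, ∀ i, sa (c * symJ l F * c⁻¹) (sE i) = sF (ρ i) ∧
      sa (c * symJ l F * c⁻¹) (sF i) = -sE (ρ i) := by
  obtain ⟨P, hP⟩ : ∃ P : Matrix l l F, P = of fun i j => if i = ρ j then 1 else 0 := ⟨_, rfl⟩
  obtain ⟨p1, p2, K, ε, hε, hK⟩ := sp_diag h2 hρ hP
  obtain ⟨p, hp⟩ := CharP.exists F
  classical
  have : NeZero p := ⟨CharP.char_ne_zero_of_finite F p⟩
  obtain ⟨α, β, h⟩ := CharP.sq_add_sq F p (-1)
  let a : l → F := fun i => if ε i = 1 then 1 else α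
  let b : l → F := fun i => if ε i = 1 then 0 else β
  have e1 : ∀ X : Matrix l l F, P * (P * X) = X := fun X => by
    rw [← Matrix.mul_assoc, p2, Matrix.one_mul]
  have e2 : ∀ X : Matrix l l F, Kᵀ * (P * (K * X)) = diagonal ε * X := fun X => by
    rw [← hK, Matrix.mul_assoc, Matrix.mul_assoc]
  have hc : fromBlocks (K * diagonal a) (-(K * diagonal b)) (P * (K * diagonal b))
      (P * (K * diagonal a)) ∈ symplecticGroup l F := by
    rw [fromBlocks_mem_iff]
    simp only [transpose_mul, transpose_neg, diagonal_transpose, p1, Matrix.mul_assoc, e2,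
      Matrix.neg_mul, Matrix.mul_neg, diagonal_mul_diagonal, sub_neg_eq_add, diagonal_add]
    refine ⟨by congr; ext; ring, by congr; ext; ring, ?_⟩
    rw [← diagonal_one]
    congr
    ext i
    simp only [a, b]
    split_ifs with h1
    · simp [h1]
    · rw [(hε i).resolve_left h1]
      push_cast at h
      linear_combination -h
  refine ⟨⟨_, hc⟩, ?_⟩
  have e3 : ((⟨_, hc⟩ : symplecticGroup l F) * symJ l F * (⟨_, hc⟩ : symplecticGroup l F)⁻¹).1 =
      fromBlocks 0 (-P) P 0 := by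
    have e4 : ((⟨_, hc⟩ : symplecticGroup l F) * symJ l F).1 =
        fromBlocks 0 (-P) P 0 * (⟨_, hc⟩ : symplecticGroup l F).1 := by
      simp [J, fromBlocks_multiply, e1]
    rw [Submonoid.coe_mul, e4, Matrix.mul_assoc, ← Submonoid.coe_mul, mul_inv_cancel]
    exact Matrix.mul_one _
  intro i
  simp only [sa_def, e3]
  constructor <;> ext (j | j) <;> simp [sE, sF, hP, Pi.single_apply]

theorem sp_ring [Finite F] (h2 : (2 : F) ≠ 0) :
    ∃ x : F, x ≠ 0 ∧ ∀ S : Subring F, 8 * x ^ 2 ∈ S → ∀ y, y ∈ S := by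
  obtain ⟨g, hg⟩ := IsCyclic.exists_monoid_generator (α := Fˣ)
  refine ⟨g, g.ne_zero, fun S h y => ?_⟩
  obtain ⟨k, hk⟩ := hg (Units.mk0 2 h2)⁻¹
  have h3 : (2 : F)⁻¹ ∈ S := by
    have := S.pow_mem (natCast_mem S 2) (orderOf (Units.mk0 2 h2) - 1)
    have e := congrArg Units.val (pow_orderOf_eq_one (Units.mk0 2 h2))
    rw [← Nat.sub_add_cancel (orderOf_pos _), pow_succ] at e
    rwa [show (2 : F)⁻¹ = 2 ^ (orderOf (Units.mk0 2 h2) - 1) from
      (eq_inv_of_mul_eq_one_left (by simpa using e)).symm]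
  have h4 : (g : F) ^ 2 ∈ S := by
    convert S.mul_mem (S.pow_mem h3 3) h using 1
    field_simp
    ring
  have sq : ∀ z : F, z ^ 2 ∈ S := fun z => by
    by_cases hz : z = 0
    · simp [hz]
    · obtain ⟨n, hn⟩ := hg (Units.mk0 z hz)
      have e : z = (g : F) ^ n := by simpa using (congrArg Units.val hn).symm
      rw [e, ← pow_mul, mul_comm, pow_mul]
      exact S.pow_mem h4 n
  convert S.mul_mem (S.pow_mem h3 2) (S.sub_mem (sq (y + 1)) (sq (y - 1))) using 1
  field_simp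
  ring

attribute [local irreducible] sE sF sa sB sT

theorem sp_main {n : ℕ} [NeZero n] (h3 : 3 ≤ n) (h2 : (2 : F) ≠ 0) {x : F} (hx : x ≠ 0)
    (hS : ∀ S : Subring F, 8 * x ^ 2 ∈ S → ∀ y, y ∈ S)
    {L : Subgroup (symplecticGroup (ZMod n) F)} {t1 t2 : symplecticGroup (ZMod n) F}
    (l1 : t1 ∈ L) (l2 : t2 ∈ L) (a0 : sa t1 (sE 0) = sF 0 + x • sE 0)
    (a1 : ∀ i, i ≠ 0 → sa t1 (sE i) = sF (-i) ∧ sa t1 (sF i) = -sE (-i))
    (a2 : ∀ i, sa t2 (sE i) = sF (1 - i) ∧ sa t2 (sF i) = -sE (1 - i))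
    (hA : Hs L (sE 0) (sF 1) 0) (g : symplecticGroup (ZMod n) F) : g ∈ L := by
  have ne : ∀ k : ℕ, 0 < k → k < n → (k : ZMod n) ≠ 0 := fun k h1 h2 e =>
    absurd (Nat.le_of_dvd h1 ((ZMod.natCast_eq_zero_iff k n).1 e)) h2.not_ge
  have n1 : (1 : ZMod n) ≠ 0 := by simpa using ne 1 one_pos (by omega)
  have n2 : (1 + 1 : ZMod n) ≠ 0 := by
    have := ne (1 + 1) two_pos (by omega)
    rwa [Nat.cast_add, Nat.cast_one] at this
  have PN : ∀ i : ZMod n, Hs L (sE (-i)) (sF (1 - i) + x • sE (1 - i)) 0 →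
      Hs L (sE i + (-x) • sF i) (sF (i + 1)) 0 := fun i h => by
    have := (h.conj l2).neg
    rw [map_add, map_smul, (a2 _).1, (a2 _).1, (a2 _).2, neg_zero, sub_neg_eq_add,
      sub_sub_cancel] at this
    convert this.swap using 1
    · module
    · rw [add_comm]
  have NN : ∀ k : ℕ, 0 < k → k < n →
      Hs L (sE (-(k : ZMod n))) (sF (1 - (k : ZMod n)) + x • sE (1 - (k : ZMod n))) 0 :=
    fun k h0 hk => by
    induction k, h0 using Nat.le_induction with
    | base =>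
      have := (hA.conj l1).neg
      rw [a0, (a1 1 n1).2, neg_neg, neg_zero] at this
      simpa using this.swap
    | succ k h0 ih =>
      have := ((PN k (ih (by omega))).conj l1).neg
      rw [map_add, map_smul, (a1 _ (ne k h0 (by omega))).1, (a1 _ (ne k h0 (by omega))).2,
        (a1 _ (by simpa using ne (k + 1) (by omega) hk)).2, neg_neg, neg_zero] at this
      simpa using this.swap
  have N : ∀ k : ℕ, 0 < k → k < n →
      Hs L (sE (k : ZMod n)) (sF ((k : ZMod n) + 1) + x • sE ((k : ZMod n) + 1)) 0 :=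
    fun k h0 hk => by
    simpa [Nat.cast_sub hk.le, add_comm] using NN (n - k) (by omega) (by omega)
  have wF : ∀ k : ℕ, 0 < k → k < n → sF (k : ZMod n) ∈ sW L (sE 0) := fun k h0 hk => by
    induction k, h0 using Nat.le_induction with
    | base => exact ⟨0, by simpa using hA⟩
    | succ k h0 ih =>
      have e1 := ne k h0 (by omega)
      have e2 := ne (k + 1) (by omega) hk
      rw [Nat.cast_succ] at e2 ⊢
      simpa [sB_FE, sB_FF] using sW_hs (PN k (NN k h0 (by omega)))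
        (by simp [sB_EE, sB_EF, e1]) (by simp [sB_EF, e2]) (ih (by omega))
  have n3 : ∀ i : ZMod n, i + 1 ≠ i := fun i e => n1 (by simpa using e)
  have wE' : ∀ k : ℕ, 0 < k → k + 1 < n →
      sF ((k : ZMod n) + 1) + x • sE ((k : ZMod n) + 1) ∈ sW L (sE 0) := fun k h0 hk => by
    have e2 := ne (k + 1) (by omega) hk
    rw [Nat.cast_succ] at e2
    simpa [sB_FE, sB_FF, n3] using sW_hs (N k h0 (by omega))
      (by simp [sB_EE]) (by simp [sB_EE, sB_EF, e2]) (wF k h0 (by omega))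
  have wE : ∀ k : ℕ, 0 < k → k < n → x • sE (k : ZMod n) ∈ sW L (sE 0) := fun k h0 hk => by
    induction k, h0 using Nat.le_induction with
    | base =>
      have := sW_hs (N 1 one_pos hk) (by simp [sB_EE]) (by simp [sB_EE, sB_EF, n2])
        (Nat.cast_succ (R := ZMod n) 1 ▸ wF (1 + 1) two_pos (by omega))
      simpa [sB_FE, sB_FF, n1] using this
    | succ k h0 _ =>
      simpa using sub_mem (wE' k h0 hk) (wF (k + 1) (by omega) hk)
  have r0 : Hs L (sE 0) 0 (2 * -x) := by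
    obtain ⟨_, h⟩ := wF (1 + 1) two_pos (by omega)
    obtain ⟨_, h'⟩ := wE (1 + 1) two_pos (by omega)
    simpa [sB_EF] using h.comm h'
  have rF : ∀ a, Hs L (sE 0) 0 a → Hs L (sF 1) 0 a := fun a h => by
    simpa [(a2 0).1] using h.conj l2
  have rZ : ∀ a, Hs L (sE 0) 0 a → Hs L (-sE 1 + x • sF 1) 0 a := fun a h => by
    simpa [a0, (a2 0).1, (a2 0).2] using (h.conj l1).conj l2
  have wZ : ∀ a, Hs L (sE 0) 0 a → (-a) • (-sE 1 + x • sF 1) ∈ sW L (sE 0) := fun a h => by
    simpa [sB_FE, sB_FF] using sW_hs (rZ a h) (by simp [sB_EE, sB_EF, n1]) (by simp)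
      (show sF 1 ∈ _ from ⟨0, hA⟩)
  let S : Subring F :=
    { carrier := {m | ∀ a, Hs L (sE 0) 0 a → Hs L (sE 0) 0 (m * a)}
      one_mem' := fun a h => by rwa [one_mul]
      mul_mem' := fun h h' a ha => by rw [mul_assoc]; exact h _ (h' a ha)
      zero_mem' := fun a _ => by rw [zero_mul]; exact Hs.zero _
      add_mem' := fun h h' a ha => by simpa [add_mul] using (h a ha).mul (h' a ha)
      neg_mem' := fun h a ha => by simpa using (h a ha).neg }
  have cE : sC L (sE 0) := fun a => by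
    have h8 : 8 * x ^ 2 ∈ S := fun a ha => by
      obtain ⟨_, h⟩ := sW_hs (rF a ha) (by simp [sB_EF, n1]) (by simp) (wZ _ r0)
      obtain ⟨_, h'⟩ := wZ _ r0
      convert h.comm h' using 1
      simp [sB_EF, sB_FF]
      ring
    convert hS S h8 (a / (2 * -x)) _ r0 using 1
    field_simp
  have cF : sC L (sF 0) := by
    simpa using ((a0 ▸ cE.conj l1 : sC L (sF 0 + x • sE 0))).add cE
      (by simp [sB_FE, sB_EE]) (-x)
  refine sC_all cE cF (by simp [sB_FE]) (fun w hw => ?_) g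
  rw [← Finset.univ_sum_single w]
  refine sum_mem fun s _ => ?_
  rw [show Pi.single s (w s) = w s • (Pi.single s 1 : ZMod n ⊕ ZMod n → F) by
    rw [← Pi.single_smul, smul_eq_mul, mul_one]]
  have hk : ∀ i : ZMod n, i ≠ 0 → ∃ k : ℕ, 0 < k ∧ k < n ∧ i = k := fun i hi =>
    ⟨i.val, (ZMod.val_pos).2 hi, i.val_lt, (ZMod.natCast_zmod_val i).symm⟩
  rcases s with i | i
  · by_cases hi : i = 0
    · obtain ⟨-, k, m, ek⟩ := cE (2 * w (Sum.inl i))
      refine ⟨0, by simp [← sE.eq_1, hi, sB_self], k, m, fun y => ?_⟩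
      simp only [ek, ← sE.eq_1, hi, map_smul, map_zero, smul_eq_mul]
      module
    · obtain ⟨k, h0, hk, rfl⟩ := hk i hi
      have := sW_smul cE cF (by simp [sB_FE]) (by simp [sB_EF, Ne.symm hi]) (wE k h0 hk)
        (w (Sum.inl k) / x)
      rwa [smul_smul, div_mul_cancel₀ _ hx, sE.eq_1 (k : ZMod n)] at this
  · by_cases hi : i = 0
    · rw [hi, ← sB_E w, hw, zero_smul]
      exact zero_mem _
    · obtain ⟨k, h0, hk, rfl⟩ := hk i hi
      rw [← sF.eq_1]
      exact sW_smul cE cF (by simp [sB_FE]) (sB_FF _ _) (wF k h0 hk) _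

variable {G : Type} [Group G] [IsSimpleGroup G] [Finite F]

theorem sp_zmod (hG : NA G) {n : ℕ} [NeZero n] (h3 : 3 ≤ n) (h2 : (2 : F) ≠ 0)
    (h : Img G (symplecticGroup (ZMod n) F)) : 3 ∈ GenSizes G := by
  obtain ⟨x, hx, hS⟩ := sp_ring h2
  obtain ⟨c1, a1⟩ := sp_refl (l := ZMod n) h2 (ρ := fun i => -i) neg_neg
  obtain ⟨c2, a2⟩ := sp_refl (l := ZMod n) h2 (ρ := fun i => 1 - i) (sub_sub_cancel 1)
  have n1 : (1 : ZMod n) ≠ 0 := fun e =>
    absurd (Nat.le_of_dvd one_pos ((ZMod.natCast_eq_zero_iff 1 n).1 (by simpa using e))) (by omega)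
  set t := c2 * symJ (ZMod n) F * c2⁻¹ with ht
  have inv : ∀ (v y : ZMod n ⊕ ZMod n → F) (a : F), sa (sT v a)⁻¹ y = y + (-a * sB y v) • v :=
    fun v y a => by
      rw [inv_eq_of_mul_eq_one_right (b := sT v (-a)) (sa_ext fun z => by
        simp [sa_mul, sa_one, sT_act, sB_self]), sT_act]
  refine hG.three_of_img h t _ _ (sT (sE 0) x * c1 * c2⁻¹) (sT (sE 0 + sF 1) 2⁻¹) ?_
    (by rw [inv_mul_cancel]; exact one_mem _) (by rw [inv_mul_cancel]; exact one_mem _)
    fun L l2 l1 l3 _ g _ => sp_main h3 h2 hx hS l1 l2 ?_ (fun i hi => ?_) a2 ?_ g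
  · have e : ∀ y, sa (t * t) y = -y := fun y => by
      rw [show t * t = c2 * (symJ (ZMod n) F * symJ (ZMod n) F) * c2⁻¹ by rw [ht]; group,
        sa_mul, sa_mul, sa_def (_ * _), Submonoid.coe_mul, coe_J, J_squared, neg_mulVec,
        one_mulVec, map_neg, sa_inv]
    exact Subgroup.mem_center_iff.2 fun g => sa_ext fun y => by
      rw [sa_mul g, sa_mul _ g, e, e, map_neg]
  · rw [show sT (sE 0) x * c1 * c2⁻¹ * t * (sT (sE 0) x * c1 * c2⁻¹)⁻¹ =
      sT (sE 0) x * (c1 * symJ (ZMod n) F * c1⁻¹) * (sT (sE 0) x)⁻¹ by rw [ht]; group]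
    simp [sa_mul _ (sT _ _)⁻¹, sa_mul (sT _ _), inv, sB_EE, (a1 0).1, sT_act, sB_FE]
  · rw [show sT (sE 0) x * c1 * c2⁻¹ * t * (sT (sE 0) x * c1 * c2⁻¹)⁻¹ =
      sT (sE 0) x * (c1 * symJ (ZMod n) F * c1⁻¹) * (sT (sE 0) x)⁻¹ by rw [ht]; group]
    simp [sa_mul _ (sT _ _)⁻¹, sa_mul (sT _ _), inv, sB_EE, (a1 i).1, (a1 i).2, sT_act, sB_FE, hi,
      Ne.symm hi]
  · refine ⟨by simp [sB_FE, n1.symm], _, L.mul_mem l3 (L.inv_mem l2), fun y => ?_⟩
    obtain ⟨z, rfl⟩ : ∃ z, y = sa t z := ⟨_, (sa_inv t y).symm⟩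
    have e : sB z (sE 0 + sF 1) = sB (sa t z) (sF 1 - sE 0) := by
      rw [← sB_sa t z, map_add (sa t), (a2 0).1, (a2 1).2, sub_zero, sub_self, sub_eq_add_neg]
    rw [sa_mul, sa_inv', sa_mul, sa_mul, inv, e, map_add (sa t), map_smul, map_add (sa t), (a2 0).1,
      (a2 1).2, sub_zero, sub_self, sT_act]
    simp only [map_add, map_sub, map_smul, map_neg, LinearMap.add_apply, LinearMap.smul_apply,
      LinearMap.neg_apply, sB_EE, sB_FF, sB_EF, sB_FE, if_neg n1, if_neg n1.symm, smul_eq_mul]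
    match_scalars <;> field_simp <;> ring

theorem sp_three (hG : NA G) {n : ℕ} (h3 : 3 ≤ n) (h2 : (2 : F) ≠ 0)
    (h : Img G (symplecticGroup (Fin n) F)) : 3 ∈ GenSizes G := by
  obtain ⟨m, rfl⟩ : ∃ m, n = m + 1 := ⟨n - 1, by omega⟩
  exact sp_zmod (n := m + 1) hG h3 h2 h

end Pool.Agent.Lib.MP_cad414_al.Cg
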