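import Pool.Agent.Lib.MP_cad414_al.Cg.Base

/-! The Suzuki groups are generated by three conjugate involutions. -/

set_option autoImplicit false

namespace Pool.Agent.Lib.MP_cad414_al.Cg

open Matrix

lemma sz_gen3 {K G : Type} [Group K] [Group G] [Nontrivial G] {H : Subgroup K} (hG : Img G H)
    {t c d : K} (ht : t ∈ H) (hc : c ∈ H) (hd : d ∈ H) (sq : t * t = 1)
    (hgen : ∀ L : Subgroup K, t ∈ L → c * t * c⁻¹ ∈ L → d * t * d⁻¹ ∈ L → H ≤ L) :
    3 ∈ GenSizes G := by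
  obtain ⟨f, hf⟩ := hG
  let e : Fin 3 → H := ![1, ⟨c, hc⟩, ⟨d, hd⟩]
  let s : Fin 3 → G := fun i => f (e i * ⟨t, ht⟩ * (e i)⁻¹)
  have h0 : ∀ i, IsConj (f ⟨t, ht⟩) (s i) := fun i =>
    isConj_iff.2 ⟨f (e i), by simp only [s, map_mul, map_inv]⟩
  have h1 : Subgroup.closure (Set.range s) = ⊤ := by
    have h2 : ∀ i, ((e i * ⟨t, ht⟩ * (e i)⁻¹ : H) : K) ∈
        ((Subgroup.closure (Set.range s)).comap f).map H.subtype := fun i =>
      ⟨_, Subgroup.subset_closure ⟨i, rfl⟩, rfl⟩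
    have h3 := hgen _ (by simpa [e] using h2 0) (h2 1) (h2 2)
    refine eq_top_iff.2 fun g _ => ?_
    obtain ⟨x, rfl⟩ := hf g
    obtain ⟨y, hy, hy'⟩ := h3 x.2
    rwa [← Subtype.ext hy']
  have h2 : orderOf (f ⟨t, ht⟩) = 2 := by
    refine orderOf_eq_prime ?_ fun h => ?_
    · rw [pow_two, ← map_mul, ← map_one f]
      exact congrArg f (Subtype.ext sq)
    · refine top_ne_bot (α := Subgroup G) ?_
      rw [← h1, Subgroup.closure_eq_bot_iff]
      rintro _ ⟨i, rfl⟩
      exact isConj_one_right.1 (h ▸ h0 i)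
  refine ⟨s, fun i => ?_, fun i j => (h0 i).symm.trans (h0 j), h1⟩
  obtain ⟨u, hu⟩ := h0 i
  rw [← h2, SemiconjBy.orderOf_eq _ hu]

variable {F : Type} [Field F]

/-- Suzuki's unipotent matrices. -/
def szS (θ : F →+* F) (a b : F) : Matrix (Fin 4) (Fin 4) F :=
  !![1, 0, 0, 0; a, 1, 0, 0; b, θ a, 1, 0; a ^ 2 * θ a + a * b + θ b, a * θ a + b, a, 1]

/-- Suzuki's diagonal matrices. -/
def szM (θ : F →+* F) (l : F) : Matrix (Fin 4) (Fin 4) F :=
  diagonal ![l * θ l, l, l⁻¹, (l * θ l)⁻¹]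

/-- The antidiagonal matrix. -/
def szT : Matrix (Fin 4) (Fin 4) F := of fun i j => if i = j.rev then 1 else 0

variable {θ : F →+* F}

lemma sz_fin {p : Fin 4 → Prop} : (∀ i, p i) ↔ p 0 ∧ p 1 ∧ p 2 ∧ p 3 :=
  ⟨fun h => ⟨h _, h _, h _, h _⟩, fun ⟨_, _, _, _⟩ i => by fin_cases i <;> assumption⟩

lemma szM_eq (l : F) :
    szM θ l = !![l * θ l, 0, 0, 0; 0, l, 0, 0; 0, 0, l⁻¹, 0; 0, 0, 0, (l * θ l)⁻¹] := by
  ext i j
  fin_cases i <;> fin_cases j <;> simp [szM]

lemma szT_eq : (szT : Matrix (Fin 4) (Fin 4) F) =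
    !![0, 0, 0, 1; 0, 0, 1, 0; 0, 1, 0, 0; 1, 0, 0, 0] := by
  ext i j
  fin_cases i <;> fin_cases j <;> simp [szT, Fin.rev]

lemma sz_two (h : ∀ x, θ (θ x) = x ^ 2) : (2 : F) = 0 := by
  have := h 2
  rw [map_ofNat, map_ofNat] at this
  linear_combination -this

lemma szS_mul (h : ∀ x, θ (θ x) = x ^ 2) (a b c d : F) :
    szS θ a b * szS θ c d = szS θ (a + c) (b + d + θ a * c) := by
  have h2 := sz_two h
  simp only [← Matrix.ext_iff, sz_fin, szS, Matrix.mul_apply, Fin.sum_univ_four, of_apply,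
    cons_val, map_add, map_mul, h]
  repeat' constructor
  all_goals first | ring1 | grind

lemma szS_zero : szS θ 0 0 = 1 := by
  ext i j
  fin_cases i <;> fin_cases j <;> simp [szS]

lemma szS_M (h : ∀ x, θ (θ x) = x ^ 2) (a b : F) {l : F} (hl : l ≠ 0) :
    szS θ a b * szM θ l = szM θ l * szS θ (a * θ l) (b * l ^ 2 * θ l) := by
  have h3 : θ l ≠ 0 := (map_ne_zero θ).2 hl
  simp only [← Matrix.ext_iff, szM, mul_diagonal, diagonal_mul]
  simp only [sz_fin, szS, of_apply, cons_val, map_mul, map_pow, h, zero_mul, mul_zero, one_mul,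
    mul_one, true_and, and_true]
  repeat' constructor
  all_goals field_simp

lemma szM_mul (l m : F) : szM θ l * szM θ m = szM θ (l * m) := by
  rw [szM, szM, szM, diagonal_mul_diagonal]
  congr 1
  ext i
  fin_cases i <;> simp <;> ring

lemma szM_one : szM θ 1 = 1 := by
  ext i j
  fin_cases i <;> fin_cases j <;> simp [szM]

lemma szT_T : (szT : Matrix (Fin 4) (Fin 4) F) * szT = 1 := by
  simp only [← Matrix.ext_iff, sz_fin, szT_eq, Matrix.mul_apply, Fin.sum_univ_four, of_apply,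
    cons_val]
  simp

lemma szM_T (l : F) : szM θ l⁻¹ * szT = szT * szM θ l := by
  simp only [← Matrix.ext_iff, szM, mul_diagonal, diagonal_mul]
  simp only [sz_fin, szT_eq, of_apply, cons_val]
  simp [mul_comm]

lemma sz_bruhat (h : ∀ x, θ (θ x) = x ^ 2) (a b N : F) (hN : N = a ^ 2 * θ a + a * b + θ b)
    (h0 : N ≠ 0) :
    szT * szS θ a b * szT = szS θ (b / N) (a / N) * szT * szM θ (N / θ N) *
      szS θ ((a * θ a + b) / N) (a / N + (a * θ a + b) / N * θ ((a * θ a + b) / N)) := by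
  have h2 := sz_two h
  have h3 : θ N ≠ 0 := (map_ne_zero θ).2 h0
  have h4 : θ N = θ a ^ 2 * a ^ 2 + θ a * θ b + b ^ 2 := by rw [hN]; simp [h]
  simp only [← Matrix.ext_iff, sz_fin, szS, szM_eq, szT_eq, Matrix.mul_apply, Fin.sum_univ_four,
    of_apply, cons_val, map_add, map_mul, map_div₀, map_pow, h, zero_mul, mul_zero, one_mul, mul_one,
    zero_add, add_zero]
  clear h
  generalize θ a = A at *
  generalize θ b = B at *
  generalize θ N = M at *
  repeat' constructor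
  all_goals field_simp
  all_goals grind

lemma sz_five (h : ∀ x, θ (θ x) = x ^ 2) : szT * szS θ 0 1 * (szT * szS θ 0 1) * szT =
    szS θ 0 1 * (szT * szS θ 0 1 * (szT * szS θ 0 1)) := by
  have h2 := sz_two h
  simp only [← Matrix.ext_iff, sz_fin, szS, szT_eq, Matrix.mul_apply, Fin.sum_univ_four,
    of_apply, cons_val, map_zero, map_one, zero_mul, mul_zero, one_mul, mul_one, zero_add, add_zero]
  repeat' constructor
  all_goals grind

/-- A matrix that underlies an element of a subgroup of `GL`. -/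
def InL {n : Type} [Fintype n] [DecidableEq n] (L : Subgroup (GL n F)) (m : Matrix n n F) : Prop :=
  ∃ g ∈ L, g.1 = m

section

variable {n : Type} [Fintype n] [DecidableEq n] {L : Subgroup (GL n F)} {m m' : Matrix n n F}

lemma InL.mul (h : InL L m) (h' : InL L m') : InL L (m * m') :=
  let ⟨g, h1, h2⟩ := h; let ⟨g', h3, h4⟩ := h'; ⟨g * g', L.mul_mem h1 h3, by rw [← h2, ← h4]; rfl⟩

lemma InL.one : InL L 1 := ⟨1, L.one_mem, rfl⟩

lemma InL.left (h : InL L m) (h' : InL L (m * m')) : InL L m' :=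
  let ⟨g, h1, h2⟩ := h; let ⟨g', h3, h4⟩ := h'
  ⟨g⁻¹ * g', L.mul_mem (L.inv_mem h1) h3, by
    rw [Units.val_mul, h4, ← h2, Units.inv_mul_cancel_left]⟩

lemma InL.right (h : InL L m) (h' : InL L (m' * m)) : InL L m' :=
  let ⟨g, h1, h2⟩ := h; let ⟨g', h3, h4⟩ := h'
  ⟨g' * g⁻¹, L.mul_mem h3 (L.inv_mem h1), by
    rw [Units.val_mul, h4, ← h2, Units.mul_inv_cancel_right]⟩

lemma InL.mem {g : GL n F} (h : InL L g.1) : g ∈ L :=
  let ⟨_, h1, h2⟩ := h; Units.ext h2 ▸ h1

/-- Matrix form of `sz_gen3`. -/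
lemma InL.gen3 {G : Type} [Group G] [Nontrivial G] {S : Matrix n n F → Prop}
    (hG : Img G (Subgroup.closure {g : GL n F | S g.1})) {t c d t2 t3 : Matrix n n F}
    (ht : InL (Subgroup.closure {g : GL n F | S g.1}) t)
    (hc : InL (Subgroup.closure {g : GL n F | S g.1}) c)
    (hd : InL (Subgroup.closure {g : GL n F | S g.1}) d) (sq : t * t = 1) (e2 : c * t = t2 * c)
    (e3 : d * t = t3 * d)
    (hgen : ∀ L : Subgroup (GL n F), InL L t → InL L t2 → InL L t3 →
      ∀ g : GL n F, S g.1 → InL L g.1) : 3 ∈ GenSizes G := by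
  obtain ⟨t, ht, rfl⟩ := ht
  obtain ⟨c, hc, rfl⟩ := hc
  obtain ⟨d, hd, rfl⟩ := hd
  refine sz_gen3 hG ht hc hd (Units.ext sq) fun L h1 h2 h3 => (Subgroup.closure_le L).2
    fun g hg => (hgen L ⟨_, h1, rfl⟩ ⟨_, h2, ?_⟩ ⟨_, h3, ?_⟩ g hg).mem
  · rw [Units.val_mul, Units.val_mul, e2, Units.mul_inv_cancel_right]
  · rw [Units.val_mul, Units.val_mul, e3, Units.mul_inv_cancel_right]

lemma InL.of_gen {S : Matrix n n F → Prop} (h : S m) (e : m * m' = 1) :
    InL (Subgroup.closure {g : GL n F | S g.1}) m :=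
  ⟨⟨m, m', e, mul_eq_one_comm.1 e⟩, Subgroup.subset_closure h, rfl⟩

end

lemma sz_all [Finite F] (h : ∀ x, θ (θ x) = x ^ 2) (hq : 2 < Nat.card F)
    {L : Subgroup (GL (Fin 4) F)} (hT : InL L szT) (hM : ∀ l, l ≠ 0 → InL L (szM θ l))
    (h1 : InL L (szS θ 0 1)) (a b : F) : InL L (szS θ a b) := by
  have h2 := sz_two h
  have hs : Function.Surjective θ := Finite.surjective_of_injective θ.injective
  have h0 : ∀ {x : F}, x ≠ 0 → θ x ≠ 0 := fun hx => (map_ne_zero θ).2 hx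
  have hc : ∀ {a b l : F}, l ≠ 0 → InL L (szS θ a b) →
      InL L (szS θ (a * θ l) (b * l ^ 2 * θ l)) :=
    fun hl ha => (hM _ hl).left (szS_M h _ _ hl ▸ ha.mul (hM _ hl))
  have hZ : ∀ b, InL L (szS θ 0 b) := fun b => by
    rcases eq_or_ne b 0 with rfl | hb
    · rw [szS_zero]; exact InL.one
    obtain ⟨l, hl⟩ := hs (θ b / b)
    have e1 : l ≠ 0 := fun e => div_ne_zero (h0 hb) hb (by rw [← hl, e, map_zero])
    have e2 : l ^ 2 = b ^ 2 / θ b := by rw [← h l, hl, map_div₀, h]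
    have := hc e1 h1
    have e3 := h0 hb
    rwa [zero_mul, e2, hl, show 1 * (b ^ 2 / θ b) * (θ b / b) = b by field_simp] at this
  have hZ' : ∀ {a b : F} (c : F), InL L (szS θ a b) → InL L (szS θ a c) := fun {a b} c ha => by
    have := ha.mul (hZ (c - b))
    rwa [szS_mul h, add_zero, mul_zero, add_zero, add_sub_cancel] at this
  -- the relation between the two unipotent parts in the big cell
  let R : F → F → F → Prop := fun a l c => InL L (szS θ a 0 * szT * szM θ l * szS θ c 0)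
  have hR : ∀ {a b l c d : F}, InL L (szS θ a b * szT * szM θ l * szS θ c d) → R a l c :=
    fun {a b l c d} ha => by
      have := ((hZ b).mul ha).mul (hZ d)
      simp only [← mul_assoc] at this
      rw [mul_assoc _ (szS θ c d), szS_mul h, szS_mul h] at this
      simpa [R, show ∀ x : F, x + x = 0 from fun x => by linear_combination x * h2] using this
  have hE : ∀ x, x ≠ 0 → R x (θ x) x := fun x hx => by
    have e0 := h0 hx
    have e1 : θ (x * θ x)⁻¹ = (θ x * x ^ 2)⁻¹ := by rw [map_inv₀, map_mul, h]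
    have e2 := sz_bruhat h 0 (x * θ x)⁻¹ (θ x * x ^ 2)⁻¹ (by rw [e1]; simp) (by positivity)
    have e3 := (hT.mul (hZ (x * θ x)⁻¹)).mul hT
    rw [e2, zero_mul, zero_add, map_inv₀, map_mul, map_pow, h,
      show (x * θ x)⁻¹ / (θ x * x ^ 2)⁻¹ = x by field_simp,
      show (θ x * x ^ 2)⁻¹ / (x ^ 2 * θ x ^ 2)⁻¹ = θ x by field_simp] at e3
    exact hR e3
  have hQ : ∀ {a l c m d : F}, l ≠ 0 → m ≠ 0 → R a l c → R a m d →
      InL L (szS θ (c * θ (m / l) + d) 0) := fun {a l c m d} hl hm ha hb => by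
    have e1 : szS θ a 0 * szT * szM θ m * szS θ d 0 = szS θ a 0 * szT * szM θ l * szS θ c 0 *
        (szS θ c (θ c * c) * szM θ (m / l) * szS θ d 0) := by
      simp only [mul_assoc]
      rw [← mul_assoc (szS θ c 0), szS_mul h, show c + c = 0 by linear_combination c * h2,
        show 0 + θ c * c + θ c * c = 0 by linear_combination θ c * c * h2, szS_zero, one_mul,
        ← mul_assoc (szM θ l), szM_mul, mul_div_cancel₀ _ hl]
    have e2 := InL.left ha ((congrArg (InL L) e1).mp hb)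
    rw [szS_M h _ _ (div_ne_zero hm hl), mul_assoc, szS_mul h] at e2
    exact hZ' _ ((hM _ (div_ne_zero hm hl)).left e2)
  have hP : ∀ x, x ≠ 0 → x ^ 3 * θ x ^ 2 + x * θ x + x + 1 ≠ 0 →
      ∃ a, a ≠ 0 ∧ InL L (szS θ a 0) := fun x hx hp => by
    have e0 := h0 hx
    obtain ⟨N, hN⟩ : ∃ N, N = x ^ 2 * θ x + x * 1 + θ 1 := ⟨_, rfl⟩
    have e1 : θ N = θ x ^ 2 * x ^ 2 + θ x + 1 := by rw [hN]; simp [h]
    have e2 : N ≠ 0 := fun e => by
      rw [e, map_zero] at e1
      rw [e, map_one] at hN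
      grind
    have e3 := h0 e2
    have e4 := (hT.mul (hZ 1)).mul (hE x hx)
    simp only [← mul_assoc] at e4
    rw [mul_assoc szT, szS_mul h, zero_add, add_zero, map_zero, zero_mul, add_zero,
      sz_bruhat h x 1 N hN e2, mul_assoc _ _ (szM θ (θ x)), szS_M h _ _ e0,
      ← mul_assoc _ (szM θ (θ x)), mul_assoc _ _ (szM θ (θ x)), szM_mul, mul_assoc _ _ (szS θ x 0),
      szS_mul h] at e4
    refine ⟨_, ?_, hQ (h0 (one_div_ne_zero e2)) (mul_ne_zero (div_ne_zero e2 e3) e0)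
      (hE _ (one_div_ne_zero e2)) (hR e4)⟩
    rw [map_one] at hN
    simp only [map_div₀, map_mul, map_one, h]
    intro e
    field_simp at e
    grind
  obtain ⟨x, hx0, hx1⟩ : ∃ x : F, x ≠ 0 ∧ x ≠ 1 := by
    by_contra! hc
    have := Nat.card_le_card_of_surjective (fun b : Bool => if b then (1 : F) else 0) fun x => by
      rcases eq_or_ne x 0 with rfl | e
      · exact ⟨false, rfl⟩
      · exact ⟨true, (hc x e).symm⟩
    rw [Nat.card_eq_fintype_card (α := Bool), Fintype.card_bool] at this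
    omega
  obtain ⟨c, hc0, hc1⟩ : ∃ a, a ≠ 0 ∧ InL L (szS θ a 0) := by
    by_contra hn
    have e0 := h0 hx0
    have e1 := not_not.1 fun e => hn (hP x hx0 e)
    have e2 := not_not.1 fun e => hn (hP x⁻¹ (inv_ne_zero hx0) e)
    rw [map_inv₀] at e2
    field_simp at e2
    have e3 : (1 + θ x) * (1 + x * θ x) = 0 := by grind
    rcases mul_eq_zero.1 e3 with e | e
    · exact hx1 (θ.injective (by rw [map_one]; linear_combination e - h2))
    · have e4 := congrArg θ e
      rw [map_add, map_one, map_mul, h, map_zero] at e4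
      exact hx1 (by grind)
  rcases eq_or_ne a 0 with rfl | ha
  · exact hZ b
  obtain ⟨l, hl⟩ := hs (a / c)
  have e1 : l ≠ 0 := fun e => div_ne_zero ha hc0 (by rw [← hl, e, map_zero])
  have := hc e1 hc1
  rw [hl, mul_div_cancel₀ _ hc0] at this
  exact hZ' _ this

theorem suz_three {G F : Type} [Group G] [Finite G] [IsSimpleGroup G] [Field F] [Finite F]
    (_hG : NA G) (hG : Suz G F) : 3 ∈ GenSizes G := by
  obtain ⟨θ, h, hq, hG⟩ := hG
  have h2 := sz_two h
  have hs : Function.Surjective θ := Finite.surjective_of_injective θ.injective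
  obtain ⟨g, hg⟩ := IsCyclic.exists_monoid_generator (α := Fˣ)
  let S : Matrix (Fin 4) (Fin 4) F → Prop := fun m =>
    (∃ a b, m = szS θ a b) ∨ (∃ k, m = szM θ k) ∨ m = szT
  have hT : InL (Subgroup.closure {g : GL (Fin 4) F | S g.1}) szT :=
    InL.of_gen (Or.inr (Or.inr rfl)) szT_T
  have hS : InL (Subgroup.closure {g : GL (Fin 4) F | S g.1}) (szS θ 0 1) :=
    InL.of_gen (m' := szS θ 0 1) (Or.inl ⟨_, _, rfl⟩) (by
      rw [szS_mul h, add_zero, mul_zero, add_zero, one_add_one_eq_two, h2, szS_zero])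
  have hM : InL (Subgroup.closure {g : GL (Fin 4) F | S g.1}) (szM θ (g : F)⁻¹) :=
    InL.of_gen (m' := szM θ g) (Or.inr (Or.inl ⟨_, rfl⟩)) (by
      rw [szM_mul, inv_mul_cancel₀ g.ne_zero, szM_one])
  refine InL.gen3 (S := S) hG hT hM ((hT.mul hS).mul (hT.mul hS)) szT_T
    (t2 := szT * szM θ ((g : F) ^ 2)) ?_ (sz_five h) fun L h1 h3 h4 => ?_
  · rw [szM_T, mul_assoc, szM_mul, sq, mul_inv_cancel_right₀ g.ne_zero]
  have h5 : ∀ n : ℕ, InL L (szM θ (((g : F) ^ n) ^ 2)) := fun n => by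
    induction n with
    | zero => rw [pow_zero, one_pow, szM_one]; exact InL.one
    | succ n ih => rw [pow_succ (g : F), mul_pow, ← szM_mul]; exact ih.mul (h1.left h3)
  have h6 : ∀ l, l ≠ 0 → InL L (szM θ l) := fun l hl => by
    obtain ⟨m, rfl⟩ := hs.comp hs l
    have e : m ≠ 0 := fun e => hl (by simp [e])
    obtain ⟨n, hn⟩ := hg (Units.mk0 m e)
    have := h5 n
    rwa [← Units.val_pow_eq_pow_val, show g ^ n = _ from hn, Units.val_mk0, ← h] at this
  rintro u (⟨a, b, e⟩ | ⟨k, e⟩ | e) <;> rw [e]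
  · exact sz_all h hq h1 h6 h4 a b
  · refine h6 k ?_
    rintro rfl
    have := congrFun (congrFun u.mul_inv 1) 1
    rw [e] at this
    simp [szM, Matrix.diagonal_mul] at this
  · exact h1

end Pool.Agent.Lib.MP_cad414_al.Cg
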