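import Pool.Agent.Lib.MP_cad414_al.Cg.ThG

/-! The Thompson group: order, simplicity and generation by three conjugate involutions. -/

namespace Pool.Agent.Lib.MP_cad414_al.Cg.Th

open Subgroup

set_option maxHeartbeats 400000

noncomputable section

theorem orb_dvd {G Ω : Type} [Group G] [Finite G] [MulAction G Ω] {p : ℕ} (hp : 0 < p) {y : G}
    {T U : Set G} (hU : ∀ u ∈ U, u = y ∨ u ∈ T) (hy : y ∈ U) (hT : T ⊆ U) {v : Ω}
    (hn : ∀ a < p, ∀ b < p, y ^ a • v = y ^ b • v → a = b) (hq : y ^ p • v = v)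
    (fx : ∀ t ∈ T, ∀ k < p, t • y ^ k • v = y ^ k • v) :
    Nat.card (closure T) * p ∣ Nat.card (closure U) := by
  set S := closure U
  have ho : MulAction.orbit S v = (fun k => y ^ k • v) '' Set.Iio p := by
    ext u
    constructor
    · rintro ⟨g, rfl⟩
      have := cl_right U {g | ∀ k < p, g • y ^ k • v ∈ (fun k => y ^ k • v) '' Set.Iio p}
        (fun k hk => ⟨k, hk, (one_smul _ _).symm⟩) (fun s hs a ha k hk => by
          rw [mul_smul]
          rcases hU s hs with rfl | hw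
          · rw [← mul_smul s, ← pow_succ']
            rcases (Nat.succ_le_of_lt hk).eq_or_lt with h1 | h1
            · have := ha 0 hp
              rw [pow_zero, one_smul] at this
              rwa [show k + 1 = p from h1, hq]
            · exact ha _ h1
          · rw [fx s hw k hk]
            exact ha k hk) g g.2 0 hp
      rwa [pow_zero, one_smul] at this
    · rintro ⟨k, -, rfl⟩
      exact ⟨⟨_, S.pow_mem (subset_closure hy) k⟩, rfl⟩
  have hc : (MulAction.stabilizer S v).index = p := by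
    rw [MulAction.index_stabilizer, ho, Set.InjOn.ncard_image (s := Set.Iio p)
      (f := fun k => y ^ k • v) fun a ha b hb => hn a ha b hb, Set.ncard_Iio_nat]
  have h3 : Nat.card (closure T) ∣ Nat.card (MulAction.stabilizer S v) := by
    rw [← Nat.card_congr (subgroupOfEquivOfLe (closure_mono hT)).toEquiv]
    refine card_dvd_of_le fun g hg => ?_
    exact (closure_le (MulAction.stabilizer G v)).2 (fun w hw => by
      have := fx w hw 0 hp
      rwa [pow_zero, one_smul] at this) hg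
  rw [← (MulAction.stabilizer S v).card_mul_index, hc]
  exact Nat.mul_dvd_mul_right h3 p

theorem its_succ (y : W) (n v : ℕ) : its y (n + 1) v = v :: its y n (apw y v) := rfl

theorem pch_cons (p : ℕ) (e : W × ℕ) (L : List (W × ℕ)) : pch p (e :: L) =
    ((frc (en (dv 2 e.2)) fun v => decide (its e.1 p v).Nodup &&
      Nat.beq (apw (rep p e.1) v) v &&
      allL L fun e' => allL (its e.1 p v) fun u => Nat.beq (apw e'.1 u) u) && pch p L) := rfl

theorem its_eq (y : W) (n : ℕ) (v : V) :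
    its y n (en v) = (List.range n).map fun k => en ((ev y ^ k) v) := by
  induction n generalizing v with
  | zero => rfl
  | succ n ih =>
    rw [List.range_succ_eq_map, List.map_cons, List.map_map, its_succ, apw_eq, ih, pow_zero]
    refine congrArg₂ _ (congrArg en rfl) (List.map_congr_left fun k _ => ?_)
    rw [Function.comp_apply, pow_succ, LinearEquiv.mul_apply]

theorem pch_ok {p : ℕ} (hp : 0 < p) {L : List (W × ℕ)} (h : pch p L = true) :
    p ^ L.length ∣ Nat.card (cl (L.map Prod.fst)) := by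
  induction L with
  | nil => simp
  | cons e L ih =>
    rw [pch_cons, frc_eq, Bool.and_eq_true, Bool.and_eq_true, Bool.and_eq_true, decide_eq_true_eq,
      its_eq, apw_eq, ev_rep] at h
    obtain ⟨⟨⟨hn, hq⟩, hf⟩, hl⟩ := h
    generalize dv 2 e.2 = v at hn hq hf
    rw [List.length_cons, pow_succ]
    refine (Nat.mul_dvd_mul_right (ih hl) p).trans (orb_dvd hp (y := ev e.1) (v := v) ?_
      ⟨_, List.mem_cons_self, rfl⟩ (fun _ ⟨w, hw, e⟩ => ⟨w, List.mem_cons_of_mem _ hw, e⟩)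
      (fun a ha b hb hab => ?_) ?_ ?_)
    · rintro _ ⟨w, hw, rfl⟩
      rcases List.mem_cons.1 hw with rfl | hw
      exacts [.inl rfl, .inr ⟨w, hw, rfl⟩]
    · rw [LinearEquiv.smul_def, LinearEquiv.smul_def] at hab
      exact List.inj_on_of_nodup_map hn (List.mem_range.2 ha) (List.mem_range.2 hb)
        (congrArg en hab)
    · rw [LinearEquiv.smul_def]
      exact en_inj (Nat.eq_of_beq_eq_true hq)
    · rintro _ ⟨w, hw, rfl⟩ k hk
      obtain ⟨e', he', rfl⟩ := List.mem_map.1 hw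
      have := allL_iff (allL_iff hf e' he') _ (List.mem_map_of_mem (List.mem_range.2 hk))
      rw [apw_eq] at this
      rw [LinearEquiv.smul_def, LinearEquiv.smul_def]
      exact en_inj (Nat.eq_of_beq_eq_true this)

theorem pch_GG {p : ℕ} (hp : 0 < p) {L : List (W × ℕ)} (h : pch p L = true) :
    p ^ L.length ∣ Nat.card GG :=
  (pch_ok hp h).trans (card_dvd_of_le (cl_le fun w _ => mem_GG w))

/-- The double coset representatives. -/
def gi (i : ℕ) : Γ := ev (nth [] gW i)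

theorem kE {j : ℕ} (hj : j < 12) : cE j = true := by
  by_cases h : j < 4
  · have := allN_iff kE0 j h
    rwa [Nat.zero_add] at this
  by_cases h2 : j < 8
  · have := allN_iff kE1 (j - 4) (by omega)
    rwa [show 4 + (j - 4) = j by omega] at this
  · have := allN_iff kE2 (j - 8) (by omega)
    rwa [show 8 + (j - 8) = j by omega] at this

theorem edge_ok {j l : ℕ} (hj : j < 12) (hl : l < 9) : (edge j l).1 < 11 ∧ ∃ d ∈ DD, ∃ b ∈ BB,
    gi (edge j l).1 * sE ^ (edge j l).2.1 = d * (ev (nth [] cW j) * (ev (nth [] zW l) * b)) := by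
  have h := allN_iff (kE hj) l hl
  simp only [Bool.and_eq_true, Nat.blt_eq] at h
  have e := chk_eq h.2
  rw [ev_cat, ev_cat, ev_cat, ev_cat, ev_one, el_s] at e
  exact ⟨h.1.1.1, _, mem_DD (noz_iff h.1.1.2), _, inB_ok h.1.2, e⟩

theorem cS_ok {i : ℕ} (hi : i < 11) : cl (sW i) ≤ DD ∧
    (∀ s ∈ cl (sW i), gi i * s * (gi i)⁻¹ ∈ DD) ∧ nth 0 nS i ≤ Nat.card (cl (sW i)) ∧
    ∀ m < 31, ∃ σ ∈ cl (sW i), ∃ j < 12, ∃ l < 9, (edge j l).1 = i ∧
      (sE ^ m)⁻¹ * σ * sE ^ (edge j l).2.1 ∈ BB := by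
  have h := allN_iff kS i hi
  simp only [cS, Bool.and_eq_true] at h
  obtain ⟨⟨⟨h1, h2⟩, h3⟩, h4⟩ := h
  have nd : ∀ w ∈ sW i, ND w := fun w hw => by
    obtain ⟨e, he, rfl⟩ := List.mem_map.1 hw
    have := allL_iff h1 e he
    simp only [Bool.and_eq_true] at this
    exact noz_iff this.1.1
  refine ⟨cl_le fun w hw => mem_DD (nd w hw), conj_cl _ _ _ _ (inv_mul_cancel _) ?_,
    Nat.eq_of_beq_eq_true h3 ▸ low_ok nd h2, fun m hm => ?_⟩
  · rintro _ ⟨w, hw, rfl⟩
    obtain ⟨e, he, rfl⟩ := List.mem_map.1 hw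
    have := allL_iff h1 e he
    simp only [Bool.and_eq_true] at this
    have e2 := chk_eq this.2
    rw [ev_cat, ev_cat] at e2
    rw [gi, e2, mul_inv_cancel_right]
    exact mem_DD (noz_iff this.1.2)
  · have := allN_iff h4 m hm
    simp only [Bool.and_eq_true, Nat.blt_eq, Nat.beq_eq] at this
    obtain ⟨⟨⟨⟨a1, a2⟩, a3⟩, a4⟩, a5⟩ := this
    have := (pw_ok (ND.fl nd (nth ([], 0, 0) (nth [] sO i) m).1) a4).2.2
    rw [a5] at this
    exact ⟨_, fl_cl _ _, _, a1, _, a2, a3, this⟩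

theorem card_DD : Nat.card DD = 319979520 :=
  le_antisymm card_DD_le ((cS_ok (i := 0) (by omega)).2.2.1.trans
    (card_le_of_le (cS_ok (by omega)).1))

theorem s_DD : sE ∈ DD := ev4 ▸ mem_cl (by simp)

theorem cover : ∀ x ∈ GG, ∃ i < 11, x ∈ DC DD (gi i) := by
  refine cl_right _ {x | ∃ i < 11, x ∈ DC DD (gi i)}
    ⟨0, by omega, 1, DD.one_mem, 1, DD.one_mem, by simp [show gi 0 = 1 from rfl]⟩ ?_
  rintro _ ⟨w, hw, rfl⟩ _ ⟨i, hi, a, ha, d, hd, rfl⟩
  by_cases h : w = [1]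
  · subst h
    obtain ⟨-, hc, -, hs⟩ := cS_ok hi
    obtain ⟨m, hm, b1⟩ := cov_DD d hd
    obtain ⟨σ, hσ, j, hj, l, hl, e, b2⟩ := hs m hm
    obtain ⟨-, d0, hd0, b, hb, e1⟩ := edge_ok hj hl
    rw [e] at e1
    obtain ⟨l', hl', b3⟩ := cov_CC _ (CC.mul_mem (CC.mul_mem (zW_mem l) (BB_le_CC
      (BB.mul_mem (BB.mul_mem hb (BB.inv_mem b2)) b1))) z_CC)
    obtain ⟨hi', d1, hd1, b', hb', e2⟩ := edge_ok hj hl'
    refine ⟨_, hi', _, DD.mul_mem (DD.mul_mem (DD.mul_mem ha (hc σ hσ)) hd0) (DD.inv_mem hd1), _,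
      DD.mul_mem (DD.pow_mem s_DD (edge j l').2.1) (BB_le (BB.mul_mem (BB.inv_mem hb') b3)), ?_⟩
    rw [ev_one, show el 1 = zE from rfl, eq_mul_inv_of_mul_eq e1, eq_mul_inv_of_mul_eq e2]
    group
  · refine ⟨i, hi, a, ha, d * ev w, DD.mul_mem hd (mem_cl ?_), mul_assoc _ _ _⟩
    simp only [List.mem_append, List.mem_cons] at hw ⊢
    tauto

def rws : List (Γ × ℕ) := (List.range' 1 10).map fun i => (gi i, 319979520 / nth 0 nS i)

theorem rws_snd : rws.map Prod.snd =
    [248, 59520, 6666240, 2539520, 106659840, 63995904, 35553280, 63995904, 2064384, 2064384] := by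
  rw [rws, List.map_map]
  decide +kernel

theorem idx_ok {i : ℕ} (hi : i < 11) :
    Nat.card DD ≤ 319979520 / nth 0 nS i * Nat.card (cl (sW i)) := by
  have h : ∀ i < 11, 319979520 / nth 0 nS i * nth 0 nS i = 319979520 := by decide +kernel
  rw [card_DD]
  exact (h i hi).ge.trans (Nat.mul_le_mul_left _ (cS_ok hi).2.2.1)

theorem mem_rws {i : ℕ} (h0 : 0 < i) (hi : i < 11) :
    (gi i, 319979520 / nth 0 nS i) ∈ ((1 : Γ), 1) :: rws :=
  List.mem_cons_of_mem _ (List.mem_map.2 ⟨i, List.mem_range'_1.2 (by omega), rfl⟩)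

theorem cov : Cov GG DD ((1, 1) :: rws) where
  le := cl_le fun w _ => mem_GG w
  cov x hx := by
    obtain ⟨i, hi, h⟩ := cover x hx
    rcases Nat.eq_zero_or_pos i with rfl | h0
    exacts [⟨_, List.mem_cons_self, h⟩, ⟨_, mem_rws h0 hi, h⟩]
  bd q hq := by
    rcases List.mem_cons.1 hq with rfl | hq
    · exact dc_bound DD DD 1 1 le_rfl (fun s hs => by simpa using hs) (by simp)
    · obtain ⟨i, hi, rfl⟩ := List.mem_map.1 hq
      have hi : i < 11 := by have := List.mem_range'_1.1 hi; omega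
      exact dc_bound DD _ _ _ (cS_ok hi).1 (cS_ok hi).2.1 (idx_ok hi)

theorem apw1 (w : W) : apw w 1 = en (ev w v1) := (congrArg (apw w) en_v1).trans (apw_eq w v1)

theorem ne_one_of {a : W} (h : (!Nat.beq (apw a 1) 1) = true) : ev a ≠ 1 := fun e => by
  rw [apw1, e, (congrArg en (show (1 : Γ) v1 = v1 from rfl)).trans en_v1.symm] at h
  cases h

theorem ne_of {a b : W} (h : (!Nat.beq (apw a 1) (apw b 1)) = true) : ev a ≠ ev b := fun e => by
  rw [apw1, apw1, e, Nat.beq_refl] at h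
  cases h

theorem kF' : ev (1 :: yW) ^ 19 = 1 ∧ ev yW ^ 3 = 1 ∧ ev d1W = ev (fl [[1], yW] d1I) ∧
    ev [4] = ev (fl [yW, d1W] sI) ∧ ev [0] = ev (fl [yW, d1W] xI) ∧
    ev [2] = ev (fl [yW, d1W] aI) ∧ ev (nth [] (sW 5) 0) ^ 3 = 1 ∧ ev (nth [] (sW 6) 0) ^ 5 = 1 ∧
    ev (1 :: yW) ≠ 1 ∧ ev [1] * ev [4] ≠ ev [4] * ev [1] := by
  have h := kF
  simp only [cF, Bool.and_eq_true] at h
  obtain ⟨⟨⟨⟨⟨⟨⟨⟨⟨a1, a2⟩, a3⟩, a4⟩, a5⟩, a6⟩, a7⟩, a8⟩, a9⟩, a0⟩ := h
  have p : ∀ {n w}, chk (rep n w) [] = true → ev w ^ n = 1 := fun h =>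
    (ev_rep _ _).symm.trans (chk_eq h)
  refine ⟨p a1, p a2, chk_eq a3, chk_eq a4, chk_eq a5, chk_eq a6, p a7, p a8, ne_one_of a9, ?_⟩
  have := ne_of a0
  rwa [ev_cons, ev_cons 4, ← ev_one, ← ev_one] at this

theorem card_GG : Nat.card GG = 90745943887872000 := by
  have h1 := cov.ub
  rw [List.map_cons, rws_snd, card_DD] at h1
  refine le_antisymm h1 (Nat.le_of_dvd (card_pos' _) ?_)
  have d2 : 1015808 ∣ Nat.card GG :=
    (show 1015808 ∣ Nat.card DD by rw [card_DD]; decide).trans (card_dvd_of_le cov.le)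
  have d3 := pch_GG (by omega) kP3
  have d5 := pch_GG (by omega) kP5
  have d7 := pch_GG (by omega) kP7
  have d13 := pch_GG (by omega) kP13
  have d19 := dvd_of_pow (mem_GG _) (by norm_num) kF'.1 kF'.2.2.2.2.2.2.2.2.1
  rw [show three.length = 10 from rfl] at d3
  rw [show five.length = 3 from rfl] at d5
  rw [show seven.length = 2 from rfl] at d7
  rw [show thirteen.length = 1 from rfl] at d13
  have e1 := Nat.Coprime.mul_dvd_of_dvd_of_dvd (by norm_num) d2 d3
  have e2 := Nat.Coprime.mul_dvd_of_dvd_of_dvd (by norm_num) e1 d5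
  have e3 := Nat.Coprime.mul_dvd_of_dvd_of_dvd (by norm_num) e2 d7
  have e4 := Nat.Coprime.mul_dvd_of_dvd_of_dvd (by norm_num) e3 d13
  have e5 := Nat.Coprime.mul_dvd_of_dvd_of_dvd (by norm_num) e4 d19
  norm_num at e5
  exact e5

theorem cyc {L : List W} {w : W} {n : ℕ} (hL : ∀ u ∈ L, u = w) (h : ev w ^ n = 1) :
    ∀ s ∈ cl L, s ^ n = 1 := fun s hs => by
  obtain ⟨k, rfl⟩ : s ∈ zpowers (ev w) := cl_le (fun u hu => hL u hu ▸ mem_zpowers _) hs
  show (ev w ^ k) ^ n = 1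
  rw [← zpow_natCast, zpow_comm, zpow_natCast, h, one_zpow]

theorem tight : Nat.card DD * (1 + (rws.map Prod.snd).sum) ≤ Nat.card GG := by
  rw [rws_snd, card_DD, card_GG]
  decide

theorem core : Core GG DD ⊥ := fun x _ hh => by
  have key : ∀ {i}, 0 < i → i < 11 → x ∈ cl (sW i) := fun h0 hi =>
    dc_exact DD _ _ _ (cS_ok hi).1 (cS_ok hi).2.1 (idx_ok hi) (cov.tight tight (mem_rws h0 hi)) x
      (by simpa using hh 1 GG.one_mem) (hh _ (mem_GG _))
  have h3 := cyc (by decide +kernel) kF'.2.2.2.2.2.2.1 x (key (i := 5) (by omega) (by omega))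
  have h5 := cyc (by decide +kernel) kF'.2.2.2.2.2.2.2.1 x (key (i := 6) (by omega) (by omega))
  have : x ^ Nat.gcd 3 5 = 1 := pow_gcd_eq_one.2 ⟨h3, h5⟩
  rwa [show Nat.gcd 3 5 = 1 from rfl, pow_one] at this

def zG : GG := ⟨ev [1], mem_GG _⟩
def yG : GG := ⟨ev yW, mem_GG _⟩

theorem top_of {M : Subgroup GG} (hz : zG ∈ M) (hy : yG ∈ M) : M = ⊤ := by
  obtain ⟨-, -, a3, a4, a5, a6, -⟩ := kF'
  set H := M.map GG.subtype
  have h1 : ev [1] ∈ H := ⟨_, hz, rfl⟩
  have h2 : ev yW ∈ H := ⟨_, hy, rfl⟩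
  have h3 : ev d1W ∈ H := by
    rw [a3]
    exact fl_mem (by simp [h1, h2]) _
  have h4 : ∀ σ, ev (fl [yW, d1W] σ) ∈ H := fl_mem (by simp [h2, h3])
  have h5 := h4 xI
  have h6 := h4 aI
  have h7 := h4 sI
  rw [← a5, ev_one] at h5
  rw [← a6, ev_one] at h6
  rw [← a4, ev4] at h7
  rw [ev_one] at h1
  have : GG ≤ H := cl_le fun w _ => ev_mem h5 h6 h7 (.inl h1)
  refine eq_top_iff.2 fun x _ => ?_
  obtain ⟨x', hx', e⟩ := this x.2
  exact Subtype.ext e ▸ hx'

theorem zG_sq : zG * zG = 1 := Subtype.ext (by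
  show ev [1] * ev [1] = 1
  rw [ev_one, mul_eq_one_iff_eq_inv, ← el_linv]
  rfl)

theorem yG_cube : yG * yG * yG = 1 := Subtype.ext (by
  show ev yW * ev yW * ev yW = 1
  rw [← pow_three']
  exact kF'.2.1)

theorem na : NA GG :=
  ⟨zG, ⟨ev [4], mem_GG _⟩, fun e => by
    have := congrArg Subtype.val e
    rw [coe_mul, coe_mul] at this
    exact kF'.2.2.2.2.2.2.2.2.2 this⟩

theorem simple : IsSimpleGroup GG := by
  have : Nontrivial GG := let ⟨_, _, h⟩ := na; ⟨_, _, h⟩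
  refine ⟨fun N hN => ?_⟩
  have e : ev (1 :: yW) = ev [1] * ev yW := by rw [ev_cons, ev_one]
  rcases normal_cases cov tight (r := 19) (by norm_num) (by rw [card_DD]; decide)
    (by rw [rws_snd]; decide +kernel) core (zG * yG)
    (Subtype.ext (show (ev [1] * ev yW) ^ 19 = 1 from e ▸ kF'.1)) N with h | h
  · exact .inl (eq_bot_iff.2 fun x hx => Subtype.ext (h x hx))
  · have h1 := (QuotientGroup.eq_one_iff _).2 h
    have h2 := congrArg (QuotientGroup.mk (s := N)) zG_sq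
    have h3 := congrArg (QuotientGroup.mk (s := N)) yG_cube
    simp only [QuotientGroup.mk_mul, QuotientGroup.mk_one] at h1 h2 h3
    have h4 := mul_left_cancel (h1.trans h2.symm)
    rw [h4, h2, one_mul] at h3
    exact .inr (top_of ((QuotientGroup.eq_one_iff _).1 h3)
      ((QuotientGroup.eq_one_iff _).1 (h4.trans h3)))

end

end Pool.Agent.Lib.MP_cad414_al.Cg.Th

namespace Pool.Agent.Lib.MP_cad414_al.Cg

theorem spor_Th : Spor 90745943887872000 :=
  haveI := Th.simple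
  ⟨Th.GG, inferInstance, Th.simple, Th.card_GG, Th.na.three_of_two_three Th.zG_sq Th.yG_cube
    (Th.top_of (Subgroup.subset_closure (by simp)) (Subgroup.subset_closure (by simp)))⟩

end Pool.Agent.Lib.MP_cad414_al.Cg
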