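import Pool.Agent.Lib.MP_cad414_al.Cg.UField

/-! The modified element of order four on a block. -/

namespace Pool.Agent.Lib.MP_cad414_al.Cg.UU

open Module

variable {F V : Type} [Field F] [StarRing F] [Finite F] [AddCommGroup V] [Module F V]
  [FiniteDimensional F V] {h : HF F V}

variable {ea fa eb fb : V}

omit [Finite F] [FiniteDimensional F V] in
theorem ublki_pp {y : V} (hy : Pp h {ea, fa, eb, fb} y) :
    h y ea = 0 ∧ h y fa = 0 ∧ h y eb = 0 ∧ h y fb = 0 :=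
  ⟨hy _ (by simp), hy _ (by simp), hy _ (by simp), hy _ (by simp)⟩

omit [Finite F] [FiniteDimensional F V] in
theorem ublki_eig (c : UG h) {g : UG h} {v : V} {a : F} (H : g • v = a • v) :
    (c * g * c⁻¹) • c • v = a • c • v := by
  rw [mul_smul, mul_smul, inv_smul_smul, H, act_smul]

omit [Finite F] in
theorem ublki_c1 (B : Blk h ea fa eb fb) (a : F) : ∃ c ∈ SU h,
    (∀ y, Pp h {ea, fa, eb, fb} y → c • y = y) ∧ c • ea = ea - star a • fb ∧ c • fa = fa ∧
      c • eb = eb + a • fa ∧ c • fb = fb := by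
  have H : OK h fb (a • fa) 0 := ⟨B.bb', by simp [B.ba'], by simp [B.aa']⟩
  refine ⟨T h fb (a • fa) 0, T_mem _ _ _, fun y hy => ?_, ?_, ?_, ?_, ?_⟩ <;> rw [T_act H]
  · simp [ublki_pp hy]
  all_goals simp [B.aa', B.ab', B.ba', B.bb', B.eaa, B.eab, B.eba, B.ebb]

omit [Finite F] in
theorem ublki_c2 (B : Blk h ea fa eb fb) (a : F) : ∃ c ∈ SU h,
    (∀ y, Pp h {ea, fa, eb, fb} y → c • y = y) ∧ c • ea = ea ∧ c • fa = fa - star a • eb ∧
      c • eb = eb ∧ c • fb = fb + a • ea := by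
  have H : OK h eb (a • ea) 0 := ⟨B.bb, by simp [B.ba], by simp [B.aa]⟩
  refine ⟨T h eb (a • ea) 0, T_mem _ _ _, fun y hy => ?_, ?_, ?_, ?_, ?_⟩ <;> rw [T_act H]
  · simp [ublki_pp hy]
  all_goals simp [B.aa, B.ab, B.ba, B.bb, B.faa, B.fab, B.fba, B.fbb]

omit [Finite F] in
theorem ublki_c3 (B : Blk h ea fa eb fb) (a : F) : ∃ c ∈ SU h,
    (∀ y, Pp h {ea, fa, eb, fb} y → c • y = y) ∧ c • ea = ea ∧ c • fa = fa - star a • fb ∧
      c • eb = eb + a • ea ∧ c • fb = fb := by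
  have H : OK h fb (a • ea) 0 := ⟨B.bb', by simp [B.fba], by simp [B.aa]⟩
  refine ⟨T h fb (a • ea) 0, T_mem _ _ _, fun y hy => ?_, ?_, ?_, ?_, ?_⟩ <;> rw [T_act H]
  · simp [ublki_pp hy]
  all_goals simp [B.aa, B.ba, B.ab', B.bb', B.eab, B.ebb, B.faa, B.fba]

omit [Finite F] in
theorem ublki_w (B : Blk h ea fa eb fb) {j : F} (hj : j ≠ 0) (hj' : star j = -j) : ∃ c ∈ SU h,
    (∀ y, Pp h {ea, fa, eb, fb} y → c • y = y) ∧ c • ea = ea ∧ c • fa = fa ∧
      c • eb = j⁻¹ • fb ∧ c • fb = (-j) • eb := by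
  have H : OK h eb 0 j := ⟨B.bb, by simp, by simp [hj']⟩
  have K : OK h fb 0 (-j⁻¹) := ⟨B.bb', by simp, by simp [hj', inv_neg]⟩
  refine ⟨T h eb 0 j * T h fb 0 (-j⁻¹) * T h eb 0 j,
    mul_mem (mul_mem (T_mem _ _ _) (T_mem _ _ _)) (T_mem _ _ _), fun y hy => ?_, ?_, ?_, ?_, ?_⟩ <;>
    simp only [mul_smul, T_act H, T_act K]
  · simp [ublki_pp hy]
  all_goals simp [B.ab, B.bb, B.ab', B.bb', B.eab, B.ebb, B.fab, B.fbb, smul_smul, hj]

omit [Finite F] in
/-- the conjugating element -/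
theorem ublki_c (B : Blk h ea fa eb fb) (two : (2 : F) ≠ 0) (l : F) {i j : F}
    (hi : i * i = -1) (hi' : star i = i) (hj : j ≠ 0) (hj' : star j = -j) : ∃ c ∈ SU h,
    (∀ y, Pp h {ea, fa, eb, fb} y → c • y = y) ∧ c • (ea - (i * j) • fb) = ea ∧
      c • (eb - (i * j) • fa) = j⁻¹ • fb ∧
      c • (ea + (i * j) • fb) = (-(2 * i * j * j)) • (eb - (l / 2) • ea) ∧
      c • (eb + (i * j) • fa) = (2 * i * j) • (fa + (star l / 2) • fb) := by
  obtain ⟨c1, m1, f1, a1, b1, d1, e1⟩ := ublki_c1 B (i * j)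
  obtain ⟨c2, m2, f2, a2, b2, d2, e2⟩ := ublki_c2 B (i / (2 * j))
  obtain ⟨c3, m3, f3, a3, b3, d3, e3⟩ := ublki_w B hj hj'
  obtain ⟨c4, m4, f4, a4, b4, d4, e4⟩ := ublki_c3 B (-(l / 2))
  refine ⟨c4 * c3 * c2 * c1, mul_mem (mul_mem (mul_mem m4 m3) m2) m1,
    fun y hy => by simp only [mul_smul, f1 y hy, f2 y hy, f3 y hy, f4 y hy], ?_, ?_, ?_, ?_⟩ <;>
  simp only [mul_smul c4, mul_smul (c4 * c3), mul_smul (c4 * c3 * c2), smul_add c1, smul_add c2,
    smul_add c3, smul_add c4, smul_sub c1, smul_sub c2, smul_sub c3, smul_sub c4, act_smul, a1, b1,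
    d1, e1, a2, b2, d2, e2, a3, b3, d3, e3, a4, b4, d4, e4, star_mul', star_div₀, star_neg,
    star_ofNat, hi', hj'] <;> match_scalars <;> field_simp <;>
    first | ring1 | linear_combination 2 * hi

omit [Finite F] in
/-- the conjugate of `t` on the block -/
theorem ublki_u (B : Blk h ea fa eb fb) (two : (2 : F) ≠ 0) (l : F) {i j : F}
    (hi : i * i = -1) (hi' : star i = i) (hj : j ≠ 0) (hj' : star j = -j)
    {t : UG h} (h1 : t • ea = j • fb) (h2 : t • fb = (-j⁻¹) • ea) (h3 : t • eb = j • fa)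
    (h4 : t • fa = (-j⁻¹) • eb) : ∃ c ∈ SU h,
    (∀ y, Pp h {ea, fa, eb, fb} y → c • y = y) ∧ (c * t * c⁻¹) • ea = i • ea ∧
      (c * t * c⁻¹) • fb = i • fb ∧ (c * t * c⁻¹) • eb = (l * i) • ea - i • eb ∧
      (c * t * c⁻¹) • fa = -(i • fa) - (star l * i) • fb := by
  obtain ⟨c, m, f, p1, p2, m1, m2⟩ := ublki_c B two l hi hi' hj hj'
  have i0 : i ≠ 0 := by rintro rfl; simp at hi
  have q1 := ublki_eig c (g := t) (v := ea - (i * j) • fb) (a := i) (by
    rw [smul_sub, act_smul, h1, h2]; match_scalars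
    · linear_combination j * hi
    · field_simp)
  have q2 := ublki_eig c (g := t) (v := eb - (i * j) • fa) (a := i) (by
    rw [smul_sub, act_smul, h3, h4]; match_scalars
    · linear_combination j * hi
    · field_simp)
  have q3 := ublki_eig c (g := t) (v := ea + (i * j) • fb) (a := -i) (by
    rw [smul_add, act_smul, h1, h2]; match_scalars
    · linear_combination j * hi
    · field_simp)
  have q4 := ublki_eig c (g := t) (v := eb + (i * j) • fa) (a := -i) (by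
    rw [smul_add, act_smul, h3, h4]; match_scalars
    · linear_combination j * hi
    · field_simp)
  refine ⟨c, m, f, ?_⟩
  generalize c * t * c⁻¹ = u at *
  rw [p1] at q1
  rw [p2, act_smul, smul_comm i] at q2
  rw [m1, act_smul, smul_comm (-i)] at q3
  rw [m2, act_smul, smul_comm (-i)] at q4
  have r2 : u • fb = i • fb := smul_right_injective V (inv_ne_zero hj) q2
  have r3 : u • (eb - (l / 2) • ea) = (-i) • (eb - (l / 2) • ea) :=
    smul_right_injective V (by simp [two, i0, hj]) q3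
  have r4 : u • (fa + (star l / 2) • fb) = (-i) • (fa + (star l / 2) • fb) :=
    smul_right_injective V (by simp [two, i0, hj]) q4
  rw [smul_sub, act_smul, q1, sub_eq_iff_eq_add] at r3
  rw [smul_add, act_smul, r2, ← eq_sub_iff_add_eq] at r4
  refine ⟨q1, r2, ?_, ?_⟩
  · rw [r3]; match_scalars <;> field_simp
    ring1
  · rw [r4]; match_scalars <;> field_simp
    ring1

/-- Let `D` be `i` on `ea, fb` and `-i` on `fa, eb`, `x = D * T fb (l • ea) 0`, `n` the element that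
acts as `t` on the block and trivially on its complement; `G = x * n⁻¹`. All of `x`, `n`, `D` are
conjugate under products of Eichler maps of the block: `x ~ D` by `T fb ((l/2) • ea) 0`; `n` has
the eigenspaces `<ea ∓ i j fb, eb ∓ i j fa>` for `±i`, so `n ~ D'` (`i` on `ea, eb`, `-i` on
`fa, fb`) by `T fb (c • fa) 0 * T eb (d • ea) 0`, and `D' ~ D` by `T eb 0 _ * T fb 0 _ * T eb 0 _`.
Formally it is enough to write down `c` and to define `G := c * t * c⁻¹ * t⁻¹` (determinant one).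
`G ^ 2 = T fb (-ea) 0`. -/
theorem blk_four (hN : ND h) (B : Blk h ea fa eb fb) (two : (2 : F) ≠ 0) {l i j : F}
    (hl : l + star l = 1) (hi : i * i = -1) (hi' : star i = i) (hj : j ≠ 0) (hj' : star j = -j)
    {t : UG h} (h1 : t • ea = j • fb) (h2 : t • fb = (star j)⁻¹ • ea) (h3 : t • eb = j • fa)
    (h4 : t • fa = (star j)⁻¹ • eb) :
    ∃ G ∈ SU h, ∃ c ∈ SU h, c * t * c⁻¹ = G * t ∧ (∀ y, Pp h {ea, fa, eb, fb} y → G • y = y) ∧
      G • ea = -((j * i) • fb) ∧ G • eb = (j * i) • (fa + star l • fb) ∧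
      G • fb = (i / j) • ea ∧ T h fb ea 0 = (G ^ 2)⁻¹ := by
  rw [hj', inv_neg] at h2 h4
  obtain ⟨c, m, f, u1, u2, u3, u4⟩ := ublki_u B two l hi hi' hj hj' h1 h2 h3 h4
  have t1 : t⁻¹ • ea = (-j) • fb := by
    rw [inv_smul_eq_iff, act_smul, h2, smul_smul]; simp [hj]
  have t2 : t⁻¹ • fb = j⁻¹ • ea := by
    rw [inv_smul_eq_iff, act_smul, h1, smul_smul]; simp [hj]
  have t3 : t⁻¹ • eb = (-j) • fa := by
    rw [inv_smul_eq_iff, act_smul, h4, smul_smul]; simp [hj]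
  have t4 : t⁻¹ • fa = j⁻¹ • eb := by
    rw [inv_smul_eq_iff, act_smul, h3, smul_smul]; simp [hj]
  have md : c * t * c⁻¹ * t⁻¹ ∈ SU h := by
    have e' := map_mul dt t t⁻¹
    rw [mul_inv_cancel, map_one] at e'
    have e2 : dt c⁻¹ = 1 := inv_mem m
    rw [mem_SU, map_mul, map_mul, map_mul, mem_SU.1 m, e2, one_mul, mul_one, e']
  have fx : ∀ y, Pp h {ea, fa, eb, fb} y → (c * t * c⁻¹ * t⁻¹) • y = y := fun y hy => by
    have hy' : Pp h {ea, fa, eb, fb} (t⁻¹ • y) := by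
      rintro v (rfl | rfl | rfl | rfl) <;> simp [hact', h1, h2, h3, h4, ublki_pp hy]
    rw [mul_smul, mul_smul, mul_smul, inv_smul_eq_iff.2 (f _ hy').symm, smul_inv_smul, f y hy]
  have g1 : (c * t * c⁻¹ * t⁻¹) • ea = -((j * i) • fb) := by
    rw [mul_smul, t1, act_smul, u2]; module
  have g2 : (c * t * c⁻¹ * t⁻¹) • fb = (i / j) • ea := by
    rw [mul_smul, t2, act_smul, u1]; match_scalars; field_simp
  have g3 : (c * t * c⁻¹ * t⁻¹) • eb = (j * i) • (fa + star l • fb) := by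
    rw [mul_smul, t3, act_smul, u4]; module
  have g4 : (c * t * c⁻¹ * t⁻¹) • fa = j⁻¹ • ((l * i) • ea - i • eb) := by
    rw [mul_smul, t4, act_smul, u3]
  refine ⟨_, md, c, m, by group, fx, g1, g3, g2, ?_⟩
  generalize c * t * c⁻¹ * t⁻¹ = G at *
  have H : OK h fb ea 0 := ⟨B.bb', B.fba, by simp [B.aa]⟩
  rw [← inv_eq_iff_eq_inv, T_inv H, pow_two]
  refine B.ext ?_ ?_ ?_ ?_ fun y hy => ?_ <;> rw [T_act H.neg, mul_smul G]
  rotate_right
  · simp [ublki_pp hy, fx y hy]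
  all_goals
    simp only [g1, g2, g3, g4, smul_neg G, smul_add G, smul_sub G, act_smul, HF.neg_right, B.aa,
      B.ba, B.ab', B.bb', B.eab, B.ebb, B.faa, B.fba, star_zero]
    match_scalars <;> field_simp <;> first
      | ring1 | linear_combination hi | linear_combination i * i * hl + hi
      | linear_combination -i * i * hl - hi

end Pool.Agent.Lib.MP_cad414_al.Cg.UU
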