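import Pool.Agent.Lib.MP_cad414_al.Cg.UBase

/-! Closure argument on the polygon. -/

namespace Pool.Agent.Lib.MP_cad414_al.Cg.UU

open Module

variable {F V : Type} [Field F] [StarRing F] [Finite F] [AddCommGroup V] [Module F V]
  [FiniteDimensional F V] {h : HF F V}

section ucore

omit [Finite F] [FiniteDimensional F V]

variable {ι : Type} [DecidableEq ι] {e f : ι → V} (W : Witt h e f) {L : Subgroup (UG h)}
include W

theorem ucore_ok {a b : ι} (hab : a ≠ b) : OK h (f b) (e a) 0 :=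
  ⟨W.ff _ _, by rw [W.fe, if_neg hab.symm], by simp [W.ee]⟩

theorem ucore_e {a b : ι} (hab : a ≠ b) : T h (f b) (e a) 0 • e b = e b + e a := by
  rw [T_act (ucore_ok W hab)]
  simp [W.ee, W.ef]

theorem ucore_f {a b : ι} (hab : a ≠ b) : T h (f b) (e a) 0 • f a = f a - f b := by
  rw [T_act (ucore_ok W hab)]
  simp [W.ff, W.fe]

theorem ucore_f' {a b c : ι} (hab : a ≠ b) (hca : c ≠ a) : T h (f b) (e a) 0 • f c = f c := by
  rw [T_act (ucore_ok W hab)]
  simp [W.ff, W.fe, hca]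

theorem ucore_comm {a b c : ι} (hab : a ≠ b) (hbc : b ≠ c) (hac : a ≠ c)
    (h1 : T h (f b) (e a) 0 ∈ L) (h2 : T h (f c) (e b) 0 ∈ L) : T h (f c) (e a) 0 ∈ L := by
  have k := ucore_ok W hbc
  have k' := k.act (T h (f b) (e a) 0)
  have h3 := L.mul_mem (Nrm.of_mem h1 _ h2) (L.inv_mem h2)
  rw [T_conj k, T_inv k] at h3
  rw [ucore_f' W hab hac.symm, ucore_e W hab] at h3 k'
  rw [T_mul k' k.neg] at h3
  convert h3 using 2
  · abel
  · simp [W.ee]

theorem ucore_E {a b s : ι} (hab : a ≠ b) (hs : s ≠ a) (h1 : T h (f b) (e a) 0 ∈ L) {μ : F}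
    (H : TA L (f s) (μ • e b)) : TA L (f s) (μ • e a) := by
  have := (H.fix (Nrm.of_mem h1) (ucore_f' W hab hs)).sub H
  rwa [act_smul, ucore_e W hab, smul_add, add_sub_cancel_left] at this

theorem ucore_E' {a b s : ι} (hab : a ≠ b) (hs : s ≠ a) (h1 : T h (f b) (e a) 0 ∈ L) {μ : F}
    (H : TA L (f s) (μ • f a)) : TA L (f s) (μ • f b) := by
  have := H.sub (H.fix (Nrm.of_mem h1) (ucore_f' W hab hs))
  rwa [act_smul, ucore_f W hab, smul_sub, sub_sub_cancel] at this

end ucore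

theorem ucore_ne {m : ℕ} {k : ℕ} (h0 : 0 < k) (hk : k < m) : (k : ZMod m) ≠ 0 := fun h =>
  absurd (Nat.le_of_dvd h0 ((ZMod.natCast_eq_zero_iff k m).1 h)) (not_le.2 hk)

omit [Finite F] [FiniteDimensional F V] in
theorem ucore_all {m : ℕ} [NeZero m] (hm : 3 ≤ m) {e f : ZMod m → V} (W : Witt h e f)
    {L : Subgroup (UG h)} {r : UG h} (hr : r ∈ L) (re : ∀ i, r • e i = e (i + 1))
    (rf : ∀ i, r • f i = f (i + 1)) (hx : T h (f 1) (e 0) 0 ∈ L) {a b : ZMod m} (hab : a ≠ b) :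
    T h (f b) (e a) 0 ∈ L := by
  have one : (1 : ZMod m) ≠ 0 := by simpa using ucore_ne (m := m) (k := 1) one_pos (by omega)
  have ne1 : ∀ i : ZMod m, i ≠ i + 1 := fun i h => one (left_eq_add.1 h)
  have h1 : ∀ i : ZMod m, T h (f (i + 1)) (e i) 0 ∈ L := fun i => by
    obtain ⟨n, rfl⟩ := ZMod.natCast_zmod_surjective i
    induction n with
    | zero => simpa using hx
    | succ n ih =>
      have := Nrm.of_mem hr _ ih
      rwa [T_conj (ucore_ok W (ne1 _)), re, rf, ← Nat.cast_succ] at this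
  have h2 : ∀ k : ℕ, k + 1 < m → T h (f (a + (k + 1 : ℕ))) (e a) 0 ∈ L := fun k => by
    induction k with
    | zero => exact fun _ => by simpa using h1 a
    | succ k ih =>
      intro hk
      have h3 := h1 (a + (k + 1 : ℕ))
      rw [add_assoc, ← Nat.cast_succ] at h3
      refine ucore_comm W (fun h => ?_) (fun h => ?_) (fun h => ?_) (ih (by omega)) h3
      · exact ucore_ne (Nat.succ_pos k) (by omega) (left_eq_add.1 h)
      · rw [Nat.cast_succ (k + 1), ← add_assoc] at h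
        exact ne1 _ h
      · exact ucore_ne (Nat.succ_pos _) hk (left_eq_add.1 h)
  have h4 : (b - a).val ≠ 0 := fun h => hab (sub_eq_zero.1 ((ZMod.val_eq_zero _).1 h)).symm
  have h5 := ZMod.val_lt (b - a)
  have h6 := h2 ((b - a).val - 1) (by omega)
  rwa [Nat.sub_add_cancel (Nat.one_le_iff_ne_zero.2 h4), ZMod.natCast_zmod_val,
    add_sub_cancel] at h6

omit [Finite F] [FiniteDimensional F V] in
/-- Write `x a b c = T (f b) (c • e a) 0` (`e b ↦ e b + c e a`, `f a ↦ f a - star c f b`). Rotation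
gives `x i (i+1) 1`, commutators (`T_conj`, `T_mul`) give `x a b 1 ∈ L` for all `a ≠ b`. Put
`E a μ := TA L (f 2) (μ • e a)`, `E' a μ := TA L (f 2) (μ • f a)` for `a ≠ 2`; by `TA.fix` with
`x a b 1` they do not depend on `a`; `G` fixes `f 2`: `E μ → E' (j μ)`, `E' μ → E (j' μ)`, and
`G • μ e 1` together with `x 1 0 1` gives `E' (j * star l * μ)`. So `E` is closed under `star l`
(`Gen.all`), all `μ` occur, then `μ • G • f 0`; `Full.of_span`. Rotate `f 2` to `f 1`, apply `G⁻¹`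
(`G⁻¹` normalises `L`), rotate `e 0` to `e 2`. -/
theorem core {m : ℕ} [NeZero m] (hm : 3 ≤ m) {e f : ZMod m → V} (W : Witt h e f)
    {L : Subgroup (UG h)} {r G : UG h} (hr : r ∈ L) (hG : G ∈ L) (re : ∀ i, r • e i = e (i + 1))
    (rf : ∀ i, r • f i = f (i + 1)) (hx : T h (f 1) (e 0) 0 ∈ L) (G2 : G • f 2 = f 2)
    {j j' l c : F} (hj : j * j' = 1 ∨ j * j' = -1) (hl : Gen (star l))
    (hc : c = 0 ∨ (c = 1 ∧ j = 1)) (G0 : G • e 0 = -(j • f 1))
    (G1 : G • e 1 = j • (f 0 + star l • f 1)) (G3 : G • f 1 = j' • e 0 - c • f 1)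
    (hsp : ∀ M : Submodule F V, (∀ i, e i ∈ M) → (∀ i, f i ∈ M) → G • f 0 ∈ M → M = ⊤) :
    Full L (f 2) ∧ Full L (e 2) := by
  have X : ∀ {a b : ZMod m}, a ≠ b → T h (f b) (e a) 0 ∈ L := ucore_all hm W hr re rf hx
  have n10 : (1 : ZMod m) ≠ 0 := by simpa using ucore_ne (m := m) (k := 1) one_pos (by omega)
  have n20 : (2 : ZMod m) ≠ 0 := by simpa using ucore_ne (m := m) (k := 2) two_pos (by omega)
  have n21 : (2 : ZMod m) ≠ 1 := fun h => n10 (by linear_combination h)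
  have j0 : j ≠ 0 := by
    rintro rfl
    simp at hj
  have N := Nrm.of_mem hG
  have s1 : ∀ μ : F, TA L (f 2) (μ • e 0) → TA L (f 2) ((j * μ) • f 1) := fun μ H => by
    convert (H.fix N G2).neg using 1
    rw [act_smul, G0]
    module
  have s2 : ∀ μ : F, TA L (f 2) (μ • f 1) → TA L (f 2) ((j' * μ) • e 0) := fun μ H => by
    have H' := H.fix N G2
    rw [act_smul, G3] at H'
    rcases hc with rfl | ⟨rfl, -⟩
    · convert H' using 1
      module
    · convert H'.add H using 1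
      module
  have s3 : ∀ μ : F, TA L (f 2) (μ • e 0) → TA L (f 2) ((star l * μ) • e 0) := fun μ H => by
    have H1 := (ucore_E W n10 n21 (X n10) H).fix N G2
    rw [act_smul, G1] at H1
    have H2 := ucore_E' W n10 n21 (X n10) (s1 μ H)
    have H3 : TA L (f 2) ((j * (star l * μ)) • f 1) := by
      convert H1.sub H2 using 1
      module
    have H4 := s2 _ H3
    rw [← mul_assoc, mul_comm j' j] at H4
    rcases hj with hj | hj <;> rw [hj] at H4
    · rwa [one_mul] at H4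
    · simpa using H4.neg
  have E0 : ∀ μ : F, TA L (f 2) (μ • e 0) := fun μ => by
    have := hl.all (fun μ => TA L (f 2) (μ • e 0)) (by simpa using TA.zero (W.ff 2 2))
      (fun a b ha hb => by simpa only [add_smul] using ha.add hb)
      (fun a ha => by simpa only [neg_smul] using ha.neg) s3 (a := 1)
      (by rw [one_smul]; exact ⟨0, ucore_ok W n20.symm, X n20.symm⟩) μ
    rwa [mul_one] at this
  have E1 : ∀ μ : F, TA L (f 2) (μ • f 1) := fun μ => by
    have := s1 _ (E0 (j⁻¹ * μ))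
    rwa [mul_inv_cancel_left₀ j0] at this
  have Ea : ∀ a, a ≠ 2 → ∀ μ : F, TA L (f 2) (μ • e a) := fun a ha μ => by
    by_cases h0 : a = 0
    · exact h0 ▸ E0 μ
    · exact ucore_E W h0 ha.symm (X h0) (E0 μ)
  have Eb : ∀ a, ∀ μ : F, TA L (f 2) (μ • f a) := fun a μ => by
    by_cases h0 : 1 = a
    · exact h0 ▸ E1 μ
    · exact ucore_E' W h0 n21 (X h0) (E1 μ)
  have F2 : Full L (f 2) := by
    refine Full.of_span (s' := e 2) (W.ff 2 2) (by simp [W.ef])
      (insert (G • f 0) (e '' {a | a ≠ 2} ∪ Set.range f)) (fun M _ h2 hS => ?_) ?_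
    · refine hsp M (fun i => ?_) (fun i => hS (Or.inr (Or.inr ⟨i, rfl⟩))) (hS (Or.inl rfl))
      by_cases h0 : i = 2
      · exact h0 ▸ h2
      · exact hS (Or.inr (Or.inl ⟨i, h0, rfl⟩))
    · rintro v (rfl | ⟨a, ha, rfl⟩ | ⟨a, rfl⟩) μ
      · simpa only [act_smul] using (Eb 0 μ).fix N G2
      · exact Ea a ha μ
      · exact Eb a μ
  refine ⟨F2, ?_⟩
  have F1 : Full L (f 1) := by
    have := F2.conj (Nrm.of_mem (L.inv_mem hr))
    rwa [← one_add_one_eq_two, ← rf, inv_smul_smul] at this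
  have F0 : Full L (e 0) := by
    have h1 : G⁻¹ • f 1 = (-j⁻¹) • e 0 := by
      rw [inv_smul_eq_iff, act_smul, G0, neg_smul_neg, inv_smul_smul₀ j0]
    have := F1.conj (Nrm.of_mem (L.inv_mem hG))
    rw [h1] at this
    exact this.smul (neg_ne_zero.2 (inv_ne_zero j0))
  have := (F0.conj (Nrm.of_mem hr)).conj (Nrm.of_mem hr)
  rwa [re, re, zero_add, one_add_one_eq_two] at this

end Pool.Agent.Lib.MP_cad414_al.Cg.UU
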