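import Pool.Agent.Lib.MP_cad414_al.Cg.UPoly
import Pool.Agent.Lib.MP_cad414_al.Cg.UCore
import Pool.Agent.Lib.MP_cad414_al.Cg.UBlkI

/-! Dimension at least six. -/

namespace Pool.Agent.Lib.MP_cad414_al.Cg.UU

open Module

variable {F V : Type} [Field F] [StarRing F] [Finite F] [AddCommGroup V] [Module F V]
  [FiniteDimensional F V] {h : HF F V}

omit [Finite F] in
/-- multiply the three elements by a scalar -/
theorem tri_of {t1 t3 G c2 c3 : UG h} {w a : F} (hw : w * star w = 1) (ha : a * star a = 1)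
    (hd : w ^ finrank F V * dt t1 = 1) (m2 : c2 ∈ SU h) (m3 : c3 ∈ SU h)
    (sq : t1 * t1 = sc h a) (e2 : c2 * t1 * c2⁻¹ = G * t1) (e3 : c3 * t1 * c3⁻¹ = t3)
    (H : ∀ L : Subgroup (UG h), G ∈ L → t1 * t3⁻¹ ∈ L →
      ∃ s s', h s s = 0 ∧ h s' s' = 0 ∧ h s s' = 1 ∧ Full L s ∧ Full L s') : Tri h := by
  have m1 : sc h w * t1 ∈ SU h := by rw [mem_SU, map_mul, sc_dt hw, hd]
  have k : ∀ c : UG h, c * (sc h w * t1) * c⁻¹ = sc h w * (c * t1 * c⁻¹) := fun c => by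
    rw [← mul_assoc c, ← (sc_comm w c).eq]; group
  refine ⟨_, m1, _, mul_mem (mul_mem m2 m1) (inv_mem m2), _, mul_mem (mul_mem m3 m1) (inv_mem m3),
    c2, m2, c3, m3, ⟨w * w * a, ?_⟩, rfl, rfl, fun L l1 l2 l3 => H L ?_ ?_⟩
  · have h3 : w * w * a * star (w * w * a) = 1 := by
      simp only [star_mul']; linear_combination (w * star w + 1) * a * star a * hw + ha
    rw [mul_assoc, ← mul_assoc t1, ← (sc_comm w t1).eq, mul_assoc, sq]
    exact uext fun x => by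
      rw [mul_smul, mul_smul, sc_act hw, sc_act hw, sc_act ha, sc_act h3, smul_smul, smul_smul]
  · convert mul_mem l2 (inv_mem l1) using 1
    rw [k, e2, ← mul_assoc, (sc_comm w G).eq]; group
  · convert mul_mem l1 (inv_mem l3) using 1
    rw [k, e3, (sc_comm w t1).eq, (sc_comm w t3).eq]
    group

theorem zm_ne {m : ℕ} (hm : 3 ≤ m) : (0 : ZMod m) ≠ 1 ∧ (2 : ZMod m) ≠ 0 ∧ (2 : ZMod m) ≠ 1 := by
  have : Fact (1 < m) := ⟨by omega⟩
  refine ⟨zero_ne_one, fun e => ?_, fun e => one_ne_zero (α := ZMod m) (by linear_combination e)⟩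
  have := (ZMod.natCast_eq_zero_iff 2 m).1 (by exact_mod_cast e)
  have := Nat.le_of_dvd two_pos this
  omega

omit [Finite F] [FiniteDimensional F V] in
theorem rot {m : ℕ} {e f : ZMod m → V} {t1 t3 : UG h} {j : F} (hj : j ≠ 0)
    (a1 : ∀ i, t1 • e i = j • f (1 - i)) (a2 : ∀ i, t1 • f i = (star j)⁻¹ • e (1 - i))
    (a3 : ∀ i, t3 • e i = j • f (-i)) (a4 : ∀ i, t3 • f i = (star j)⁻¹ • e (-i)) :
    (∀ i, (t1 * t3⁻¹) • e i = e (i + 1)) ∧ ∀ i, (t1 * t3⁻¹) • f i = f (i + 1) := by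
  have hj' : star j ≠ 0 := by simpa using hj
  constructor <;> intro i
  · have : t3⁻¹ • e i = star j • f (-i) := by
      rw [inv_smul_eq_iff, act_smul, a4, smul_smul, mul_inv_cancel₀ hj', one_smul, neg_neg]
    rw [mul_smul, this, act_smul, a2, smul_smul, mul_inv_cancel₀ hj', one_smul, sub_neg_eq_add,
      add_comm]
  · have : t3⁻¹ • f i = j⁻¹ • e (-i) := by
      rw [inv_smul_eq_iff, act_smul, a3, smul_smul, inv_mul_cancel₀ hj, one_smul, neg_neg]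
    rw [mul_smul, this, act_smul, a1, smul_smul, inv_mul_cancel₀ hj, one_smul, sub_neg_eq_add,
      add_comm]

theorem tri_even (hF : ∃ a : F, star a ≠ a) (hN : ND h) {m : ℕ} [NeZero m] (hm : 3 ≤ m)
    (hd : finrank F V = 2 * m) {e f : ZMod m → V} (W : Witt h e f)
    (hsp : ∀ M : Submodule F V, (∀ i, e i ∈ M) → (∀ i, f i ∈ M) → M = ⊤) : Tri h := by
  obtain ⟨l, hl, -, hg⟩ := exists_lam hF (Or.inl rfl)
  obtain ⟨i, hi, hi'⟩ := exists_i hF
  obtain ⟨n1, n2, n3⟩ := zm_ne hm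
  have B := W.blk n1
  have sp : ∀ M : Submodule F V, Set.range e ∪ Set.range f ⊆ M → M = ⊤ := fun M hM =>
    hsp M (fun i => hM (Or.inl ⟨i, rfl⟩)) fun i => hM (Or.inr ⟨i, rfl⟩)
  have p2 : Pp h {e 0, f 0, e 1, f 1} (f 2) := by
    rintro v (rfl | rfl | rfl | rfl) <;> simp [W.ff, W.fe, n2, n3]
  have fin : ∀ L : Subgroup (UG h), Full L (f 2) ∧ Full L (e 2) →
      ∃ s s', h s s = 0 ∧ h s' s' = 0 ∧ h s s' = 1 ∧ Full L s ∧ Full L s' := fun L H =>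
    ⟨_, _, W.ff 2 2, W.ee 2 2, by simp [W.fe], H⟩
  by_cases hc : star i = -i ∨ Even m
  · obtain ⟨t1, t3, c3, m3, e3, d, a1, a2, a3, a4, -⟩ := poly hF hN hm W one_ne_zero (Or.inl rfl)
    obtain ⟨G, -, c2, m2, e2, g0, g1, g2, g3, g4⟩ := blk_even hN B hl (t := t1) (by simp [a1])
      (by simp [a2]) (by simp [a1]) (by simp [a2])
    obtain ⟨r1, r2⟩ := rot one_ne_zero a1 a2 a3 a4
    obtain ⟨w, hw, hw'⟩ : ∃ w : F, w * star w = 1 ∧ w ^ finrank F V * dt t1 = 1 := by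
      rw [hd, d]
      rcases hc with hc | hc
      · refine ⟨i, by rw [hc]; linear_combination -hi, ?_⟩
        rw [pow_mul, pow_two, hi, ← mul_pow]; simp
      · exact ⟨1, by simp, by simp [hc.neg_one_pow]⟩
    refine tri_of hw (a := 1) (by simp) hw' m2 m3 (ext_span _ sp ?_) e2 e3 fun L l1 l2 =>
      fin L (core hm W l2 l1 r1 r2 (g4 L l1) (g0 _ p2) (j := 1) (j' := 1) (c := 0) (by simp) hg
        (Or.inl rfl) (by simp [g1]) (by simp [g2]) (by simp [g3]) fun M h1 h2 _ => hsp M h1 h2)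
    rintro _ (⟨k, rfl⟩ | ⟨k, rfl⟩) <;> simp [mul_smul, a1, a2, sc_act]
  · rw [not_or, Nat.not_even_iff_odd] at hc
    have hr : star i = i := hi'.resolve_right hc.1
    have two : (2 : F) ≠ 0 := fun e => hc.1 (by rw [hr]; linear_combination i * e)
    obtain ⟨j, hj, hj'⟩ := exists_iota hF
    obtain ⟨t1, t3, c3, m3, e3, d, a1, a2, a3, a4, -⟩ := poly hF hN hm W hj (Or.inr hc.2)
    obtain ⟨G, -, c2, m2, e2, g0, g1, g2, g3, g4⟩ := blk_four hN B two hl hi hr hj hj' (t := t1)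
      (by simp [a1]) (by simp [a2]) (by simp [a1]) (by simp [a2])
    obtain ⟨r1, r2⟩ := rot hj a1 a2 a3 a4
    refine tri_of (w := 1) (by simp) (a := -1) (by simp) (by rw [d, hj']; simp [hj]) m2
      m3 (ext_span _ sp ?_) e2 e3 fun L l1 l2 =>
      fin L (core hm W l2 l1 r1 r2 (g4 ▸ inv_mem (pow_mem l1 2)) (g0 _ p2) (j := j * i)
        (j' := i / j) (c := 0) (Or.inr (by field_simp; linear_combination hi)) hg
        (Or.inl rfl) g1 g2 (by simp [g3]) fun M h1 h2 _ => hsp M h1 h2)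
    rintro _ (⟨k, rfl⟩ | ⟨k, rfl⟩) <;>
      simp [mul_smul, a1, a2, sc_act, act_smul, smul_smul, hj', hj, inv_neg]

theorem tri_odd (hF : ∃ a : F, star a ≠ a) (hN : ND h) {m : ℕ} [NeZero m] (hm : 3 ≤ m)
    (hd : finrank F V = 2 * m + 1) {e f : ZMod m → V} {z : V} (W : Witt h e f) (zz : h z z = -1)
    (ze : ∀ i, h z (e i) = 0) (zf : ∀ i, h z (f i) = 0)
    (hsp : ∀ M : Submodule F V, (∀ i, e i ∈ M) → (∀ i, f i ∈ M) → z ∈ M → M = ⊤) : Tri h := by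
  obtain ⟨l, hl, -, hg⟩ := exists_lam hF (Or.inr rfl)
  obtain ⟨n1, n2, n3⟩ := zm_ne hm
  have B : BlkZ h (e 0) (f 0) (e 1) (f 1) z := ⟨W.blk n1, zz, ze 0, zf 0, ze 1, zf 1,
    HF.swap0 (ze 0), HF.swap0 (zf 0), HF.swap0 (ze 1), HF.swap0 (zf 1)⟩
  have sp : ∀ M : Submodule F V, insert z (Set.range e ∪ Set.range f) ⊆ M → M = ⊤ := fun M hM =>
    hsp M (fun i => hM (Or.inr (Or.inl ⟨i, rfl⟩))) (fun i => hM (Or.inr (Or.inr ⟨i, rfl⟩)))
      (hM (Or.inl rfl))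
  have p2 : Pp h {e 0, f 0, e 1, f 1, z} (f 2) := by
    rintro v (rfl | rfl | rfl | rfl | rfl) <;> simp [W.ff, W.fe, n2, n3, HF.swap0 (zf 2)]
  obtain ⟨t1, t3, c3, m3, e3, d, a1, a2, a3, a4, a5⟩ := poly hF hN hm W one_ne_zero (Or.inl rfl)
  obtain ⟨G, -, c2, m2, e2, g0, g1, g2, g3, g4, g5⟩ := blk_odd hN B hl (t := t1) (by simp [a1])
    (by simp [a2]) (by simp [a1]) (by simp [a2]) (a5 z ze zf).1
  obtain ⟨r1, r2⟩ := rot one_ne_zero a1 a2 a3 a4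
  refine tri_of (w := (-1) ^ m) (by simp [← mul_pow]) (a := 1) (by simp) ?_ m2 m3
    (ext_span _ sp ?_) e2 e3 fun L l1 l2 => ⟨_, _, W.ff 2 2, W.ee 2 2, by simp [W.fe],
      core hm W l2 l1 r1 r2 (g5 ▸ pow_mem l1 3) (g0 _ p2) (j := 1) (j' := 1) (c := 1) (by simp) hg
        (Or.inr ⟨rfl, rfl⟩) (by simp [g1]) (by simp [g2]) (by simp [g3]) fun M h1 h2 h3 =>
          hsp M h1 h2 ?_⟩
  · rw [hd, d, star_one, div_one, ← pow_succ, ← pow_mul]
    exact Even.neg_one_pow ⟨m * (m + 1), by ring⟩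
  · rintro _ (rfl | ⟨k, rfl⟩ | ⟨k, rfl⟩) <;> simp [mul_smul, a1, a2, sc_act, (a5 _ ze zf).1]
  · convert add_mem (sub_mem (add_mem h3 (h1 1)) (M.smul_mem l (h1 0))) (h2 0) using 1
    rw [g4]; module

end Pool.Agent.Lib.MP_cad414_al.Cg.UU
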