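import Pool.Agent.Lib.MP_cad414_al.Cg.UField

/-! Matrices and frames. -/

namespace Pool.Agent.Lib.MP_cad414_al.Cg.UU

open Module

variable {F : Type} [Field F] [StarRing F] [Finite F]

omit [Finite F] in
theorem ubridge_single {n : ℕ} (i j : Fin n) :
    std F n (Pi.single i 1) (Pi.single j 1) = if i = j then 1 else 0 := by
  simp [std_apply, Pi.single_apply, apply_ite star, eq_comm]

omit [Finite F] in
theorem ubridge_mulVec {n : ℕ} {A : Matrix (Fin n) (Fin n) F} (hA : star A * A = 1)
    (x y : Fin n → F) : std F n (A.mulVec x) (A.mulVec y) = std F n x y := by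
  change A.mulVec x ⬝ᵥ star (A.mulVec y) = x ⬝ᵥ star y
  rw [Matrix.star_mulVec, dotProduct_comm, Matrix.dotProduct_mulVec, Matrix.vecMul_vecMul,
    ← Matrix.star_eq_conjTranspose, hA, Matrix.vecMul_one, dotProduct_comm]

omit [Finite F] in
theorem ubridge_mem {n : ℕ} (g : SU (std F n)) :
    LinearMap.toMatrix' (g.1.1 : (Fin n → F) →ₗ[F] (Fin n → F)) ∈
      Matrix.specialUnitaryGroup (Fin n) F := by
  rw [Matrix.mem_specialUnitaryGroup_iff, Matrix.mem_unitaryGroup_iff']
  constructor
  · ext i j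
    have h := g.1.2 (Pi.single j 1) (Pi.single i 1)
    rw [ubridge_single, std_apply] at h
    rw [Matrix.mul_apply, Matrix.one_apply]
    simp only [Matrix.star_apply, LinearMap.toMatrix'_apply, LinearEquiv.coe_coe]
    rw [if_congr (eq_comm (a := i) (b := j)) rfl rfl, ← h]
    exact Finset.sum_congr rfl fun _ _ => mul_comm _ _
  · rw [LinearMap.det_toMatrix']
    exact g.2

/-- the matrix of an element of the special unitary group -/
noncomputable def ubridge_hom (F : Type) [Field F] [StarRing F] (n : ℕ) :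
    SU (std F n) →* Matrix.specialUnitaryGroup (Fin n) F where
  toFun g := ⟨_, ubridge_mem g⟩
  map_one' := Subtype.ext LinearMap.toMatrix'_id
  map_mul' a b := Subtype.ext (LinearMap.toMatrix'_comp
    (a.1.1 : (Fin n → F) →ₗ[F] (Fin n → F)) (b.1.1 : (Fin n → F) →ₗ[F] (Fin n → F)))

omit [Finite F] in
theorem ubridge_surj (n : ℕ) : Function.Surjective (ubridge_hom F n) := by
  rintro ⟨A, hA⟩
  obtain ⟨h1, h2⟩ := Matrix.mem_specialUnitaryGroup_iff.mp hA
  have h3 : star A * A = 1 := Matrix.mem_unitaryGroup_iff'.mp h1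
  have h4 : A * star A = 1 := Matrix.mem_unitaryGroup_iff.mp h1
  refine ⟨⟨mkU (h := std F n) (Matrix.toLin' A) (Matrix.toLin' (star A)) (fun x => ?_)
    (fun x => ?_) (fun x y => ubridge_mulVec h3 x y), ?_⟩, ?_⟩
  · rw [Matrix.toLin'_apply, Matrix.toLin'_apply, Matrix.mulVec_mulVec, h4, Matrix.one_mulVec]
  · rw [Matrix.toLin'_apply, Matrix.toLin'_apply, Matrix.mulVec_mulVec, h3, Matrix.one_mulVec]
  · rw [mem_SU, dt_eq (f := Matrix.toLin' A) fun _ => rfl, LinearMap.det_toLin', h2]
  · exact Subtype.ext (LinearMap.toMatrix'_toLin' A)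

omit [Finite F] in
theorem img_SU {G : Type} [Group G] {n : ℕ}
    (h : Img G (Matrix.specialUnitaryGroup (Fin n) F)) : Img G (SU (std F n)) := by
  obtain ⟨f, hf⟩ := h
  exact ⟨f.comp (ubridge_hom F n), hf.comp (ubridge_surj n)⟩

omit [StarRing F] [Finite F] in
theorem ubridge_top {n : ℕ} {M : Submodule F (Fin n → F)} (h : ∀ k, Pi.single k (1 : F) ∈ M) :
    M = ⊤ := by
  rw [eq_top_iff]
  intro x _
  rw [pi_eq_sum_univ' x]
  exact Submodule.sum_mem _ fun k _ => Submodule.smul_mem _ _ (h k)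

omit [Finite F] in
theorem ubridge_frame {b t : F} (hb : b * star b = -1) (ht : t + star t = 1) (m : ℕ) [NeZero m]
    {n : ℕ} (hn : 2 * m ≤ n) :
    ∃ e f : ZMod m → Fin n → F, Witt (std F n) e f ∧
      (∀ k : Fin n, 2 * m ≤ k → ∀ i, std F n (Pi.single k 1) (e i) = 0 ∧
        std F n (Pi.single k 1) (f i) = 0) ∧
      ∀ M : Submodule F (Fin n → F), (∀ i, e i ∈ M) → (∀ i, f i ∈ M) →
        ∀ k : Fin n, (k : ℕ) < 2 * m → Pi.single k (1 : F) ∈ M := by
  have hv : ∀ i : ZMod m, i.val < m := fun i => ZMod.val_lt i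
  let p : ZMod m → Fin n := fun i => ⟨i.val, by have := hv i; omega⟩
  let q : ZMod m → Fin n := fun i => ⟨m + i.val, by have := hv i; omega⟩
  have hp : ∀ i j, p i = p j ↔ i = j := fun i j =>
    ⟨fun h => ZMod.val_injective m (congrArg Fin.val h), fun h => h ▸ rfl⟩
  have hq : ∀ i j, q i = q j ↔ i = j := fun i j =>
    ⟨fun h => ZMod.val_injective m (Nat.add_left_cancel (congrArg Fin.val h)), fun h => h ▸ rfl⟩
  have hpq : ∀ i j, p i ≠ q j := fun i j h => by
    have h1 : i.val = m + j.val := congrArg Fin.val h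
    have := hv i
    omega
  have hqp : ∀ i j, q i ≠ p j := fun i j => (hpq j i).symm
  have hb0 : b ≠ 0 := by
    rintro rfl
    simp at hb
  refine ⟨fun i => Pi.single (p i) 1 + b • Pi.single (q i) 1,
    fun i => t • Pi.single (p i) 1 - (star t * b) • Pi.single (q i) 1, ⟨?_, ?_, ?_, ?_⟩, ?_, ?_⟩
  · intro i j
    simp only [HF.add_left, HF.add_right, HF.smul_left, HF.smul_right, ubridge_single, hp, hq,
      if_neg (hpq _ _), if_neg (hqp _ _)]
    split_ifs
    · linear_combination hb
    · ring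
  · intro i j
    simp only [HF.sub_left, HF.sub_right, HF.smul_left, HF.smul_right, ubridge_single, hp, hq,
      if_neg (hpq _ _), if_neg (hqp _ _), star_mul', star_star]
    split_ifs
    · linear_combination t * star t * hb
    · ring
  · intro i j
    simp only [HF.add_left, HF.sub_right, HF.smul_left, HF.smul_right, ubridge_single, hp, hq,
      if_neg (hpq _ _), if_neg (hqp _ _), star_mul', star_star]
    split_ifs
    · linear_combination ht - t * hb
    · ring
  · intro i j
    simp only [HF.sub_left, HF.add_right, HF.smul_left, HF.smul_right, ubridge_single, hp, hq,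
      if_neg (hpq _ _), if_neg (hqp _ _)]
    split_ifs
    · linear_combination ht - star t * hb
    · ring
  · intro k hk i
    have h1 : k ≠ p i := fun h => by
      have h2 : (k : ℕ) = i.val := congrArg Fin.val h
      have := hv i
      omega
    have h2 : k ≠ q i := fun h => by
      have h3 : (k : ℕ) = m + i.val := congrArg Fin.val h
      have := hv i
      omega
    simp only [HF.add_right, HF.sub_right, HF.smul_right, ubridge_single, if_neg h1, if_neg h2]
    constructor <;> ring
  · intro M he hf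
    have h1 : ∀ i, Pi.single (p i) (1 : F) ∈ M := fun i => by
      have h2 := M.add_mem (M.smul_mem (star t) (he i)) (hf i)
      have h3 : star t • ((Pi.single (p i) 1 : Fin n → F) + b • Pi.single (q i) 1) +
          (t • Pi.single (p i) 1 - (star t * b) • Pi.single (q i) 1) = Pi.single (p i) 1 := by
        match_scalars
        · linear_combination ht
        · ring
      rwa [h3] at h2
    have h2 : ∀ i, Pi.single (q i) (1 : F) ∈ M := fun i => by
      have h3 := M.smul_mem b⁻¹ (M.sub_mem (he i) (h1 i))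
      rwa [add_sub_cancel_left, inv_smul_smul₀ hb0] at h3
    intro k hk
    by_cases h : (k : ℕ) < m
    · have h3 : p (k : ℕ) = k := Fin.ext (ZMod.val_cast_of_lt h)
      exact h3 ▸ h1 (k : ℕ)
    · have h3 : q ((k : ℕ) - m : ℕ) = k := Fin.ext (by
        change m + (((k : ℕ) - m : ℕ) : ZMod m).val = k
        rw [ZMod.val_cast_of_lt (by omega)]
        omega)
      exact h3 ▸ h2 ((k : ℕ) - m : ℕ)

/-- on each pair of coordinates `e = (1, b)`, `f = (t, -star t * b)`, with `b * star b = -1` and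
`t + star t = 1` -/
theorem frame_even (hF : ∃ a : F, star a ≠ a) (m : ℕ) [NeZero m] :
    ∃ e f : ZMod m → Fin (2 * m) → F, Witt (std F (2 * m)) e f ∧
      ∀ M : Submodule F (Fin (2 * m) → F), (∀ i, e i ∈ M) → (∀ i, f i ∈ M) → M = ⊤ := by
  obtain ⟨b, hb⟩ := exists_nm hF
  obtain ⟨t, ht⟩ := exists_tr hF
  obtain ⟨e, f, h1, -, h2⟩ := ubridge_frame hb ht m (le_refl (2 * m))
  exact ⟨e, f, h1, fun M he hf => ubridge_top fun k => h2 M he hf k k.2⟩

theorem frame_odd (hF : ∃ a : F, star a ≠ a) (m : ℕ) [NeZero m] :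
    ∃ (e f : ZMod m → Fin (2 * m + 1) → F) (z : Fin (2 * m + 1) → F),
      Witt (std F (2 * m + 1)) e f ∧ std F (2 * m + 1) z z = -1 ∧
      (∀ i, std F (2 * m + 1) z (e i) = 0) ∧ (∀ i, std F (2 * m + 1) z (f i) = 0) ∧
      ∀ M : Submodule F (Fin (2 * m + 1) → F), (∀ i, e i ∈ M) → (∀ i, f i ∈ M) → z ∈ M →
        M = ⊤ := by
  obtain ⟨b, hb⟩ := exists_nm hF
  obtain ⟨t, ht⟩ := exists_tr hF
  obtain ⟨e, f, h1, h2, h3⟩ := ubridge_frame hb ht m (Nat.le_succ (2 * m))
  have hb0 : b ≠ 0 := by
    rintro rfl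
    simp at hb
  have h4 := h2 (Fin.last _) (le_refl _)
  refine ⟨e, f, b • Pi.single (Fin.last _) 1, h1, ?_, fun i => ?_, fun i => ?_, ?_⟩
  · rw [HF.smul_left, HF.smul_right, ubridge_single, if_pos rfl, mul_one, hb]
  · rw [HF.smul_left, (h4 i).1, mul_zero]
  · rw [HF.smul_left, (h4 i).2, mul_zero]
  · intro M he hf hz
    refine ubridge_top fun k => ?_
    by_cases h : (k : ℕ) < 2 * m
    · exact h3 M he hf k h
    · have h5 : k = Fin.last _ := Fin.ext (by have := k.2; rw [Fin.val_last]; omega)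
      have h6 := M.smul_mem b⁻¹ hz
      rwa [inv_smul_smul₀ hb0, ← h5] at h6

end Pool.Agent.Lib.MP_cad414_al.Cg.UU
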