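import Pool.Agent.Lib.MP_cad414_al.Cg.UBlk

/-! Dimension five. -/

namespace Pool.Agent.Lib.MP_cad414_al.Cg.UU

open Module

variable {F V : Type} [Field F] [StarRing F] [Finite F] [AddCommGroup V] [Module F V]
  [FiniteDimensional F V] {h : HF F V}

variable {ea fa eb fb z : V}

omit [Finite F] [FiniteDimensional F V] in
theorem ufive_pow {g : UG h} {x : V} {c : F} (H : g • x = c • x) (k : ℕ) :
    g ^ k • x = c ^ k • x := by
  induction k with
  | zero => simp
  | succ k ih => rw [pow_succ, mul_smul, H, act_smul, ih, smul_smul, pow_succ, mul_comm]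

omit [Finite F] [FiniteDimensional F V] in
theorem ufive_t1 (B : BlkZ h ea fa eb fb z) : PK h (fb - ea) (eb - fa) ∧
    P h (fb - ea) (eb - fa) • ea = fb ∧ P h (fb - ea) (eb - fa) • fb = ea ∧
    P h (fb - ea) (eb - fa) • eb = fa ∧ P h (fb - ea) (eb - fa) • fa = eb ∧
    P h (fb - ea) (eb - fa) • z = z := by
  obtain ⟨⟨_, _, _, _, _, _, _, _, _, _, _, _, _, _, _, _⟩, _, _, _, _, _, _, _, _, _⟩ := B
  have k : PK h (fb - ea) (eb - fa) := ⟨by simp [*], by simp [*], by simp [*]; norm_num⟩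
  refine ⟨k, ?_, ?_, ?_, ?_, ?_⟩ <;> rw [P_act k] <;> simp [*]

omit [Finite F] [FiniteDimensional F V] in
theorem ufive_t3 (B : BlkZ h ea fa eb fb z) {a : F} (ha : a ≠ 0) :
    P h (fb - star a • fa) (eb - a⁻¹ • ea) • ea = a • eb ∧
    P h (fb - star a • fa) (eb - a⁻¹ • ea) • fb = star a • fa ∧
    P h (fb - star a • fa) (eb - a⁻¹ • ea) • eb = a⁻¹ • ea ∧
    P h (fb - star a • fa) (eb - a⁻¹ • ea) • fa = (star a)⁻¹ • fb ∧
    P h (fb - star a • fa) (eb - a⁻¹ • ea) • z = z := by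
  obtain ⟨⟨_, _, _, _, _, _, _, _, _, _, _, _, _, _, _, _⟩, _, _, _, _, _, _, _, _, _⟩ := B
  have hs : star a ≠ 0 := by simpa using ha
  have k : PK h (fb - star a • fa) (eb - a⁻¹ • ea) :=
    ⟨by simp [*], by simp [*], by simp [*]; norm_num⟩
  refine ⟨?_, ?_, ?_, ?_, ?_⟩ <;> rw [P_act k] <;> simp [*, smul_sub, smul_smul]

omit [Finite F] [FiniteDimensional F V] in
theorem ufive_ok (B : BlkZ h ea fa eb fb z) {l : F} (hl : l + star l = -1) :
    OK h fb (l • ea - fa + z) 0 ∧ PK h fb ((2 : F) • eb) := by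
  obtain ⟨⟨_, _, _, _, _, _, _, _, _, _, _, _, _, _, _, _⟩, _, _, _, _, _, _, _, _, _⟩ := B
  refine ⟨⟨by simp [*], by simp [*], ?_⟩, ⟨by simp [*], by simp [*], by simp [*]⟩⟩
  simp [*]
  linear_combination hl

omit [Finite F] [FiniteDimensional F V] in
theorem ufive_t2 (B : BlkZ h ea fa eb fb z) {l : F} (hl : l + star l = -1) :
    X h eb fb (l • ea - fa + z) 0 • ea = ea - fb ∧ X h eb fb (l • ea - fa + z) 0 • fb = -fb ∧
    X h eb fb (l • ea - fa + z) 0 • eb = -eb + l • ea - fa + z ∧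
    X h eb fb (l • ea - fa + z) 0 • fa = fa + star l • fb ∧
    X h eb fb (l • ea - fa + z) 0 • z = z - fb := by
  obtain ⟨k, kP⟩ := ufive_ok B hl
  obtain ⟨⟨_, _, _, _, _, _, _, _, _, _, _, _, _, _, _, _⟩, _, _, _, _, _, _, _, _, _⟩ := B
  refine ⟨?_, ?_, ?_, ?_, ?_⟩ <;> rw [X, mul_smul, T_act k, P_act kP] <;> simp [*] <;> module

omit [Finite F] [FiniteDimensional F V] in
theorem ufive_cube (B : BlkZ h ea fa eb fb z)
    (hsp : ∀ M : Submodule F V, ea ∈ M → fa ∈ M → eb ∈ M → fb ∈ M → z ∈ M → M = ⊤)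
    {l : F} (hl : l + star l = -1) :
    (X h eb fb (l • ea - fa + z) 0 * P h (fb - ea) (eb - fa)) ^ 3 = T h fb ea 0 := by
  obtain ⟨-, a1, a2, a3, a4, a5⟩ := ufive_t1 B
  obtain ⟨b1, b2, b3, b4, b5⟩ := ufive_t2 B hl
  have k : OK h fb ea 0 := ⟨B.bb', B.fba, by simp [B.aa]⟩
  have hl' : star l = -1 - l := by linear_combination hl
  rw [hl'] at b4
  generalize X h eb fb (l • ea - fa + z) 0 = t2 at *
  generalize P h (fb - ea) (eb - fa) = t1 at *
  refine ext_span {ea, fa, eb, fb, z} (fun M hM => hsp M (hM (by simp)) (hM (by simp))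
    (hM (by simp)) (hM (by simp)) (hM (by simp))) ?_
  rintro v (rfl | rfl | rfl | rfl | rfl) <;>
    simp only [pow_three, mul_smul, smul_add, smul_sub, smul_neg, act_smul, a1, a2, a3, a4, a5,
      b1, b2, b3, b4, b5, T_act k, B.aa, B.eab, B.ab', B.faa, B.ebb, B.ba, B.bb', B.fba, B.z1,
      B.z4] <;> module

omit [Finite F] [FiniteDimensional F V] in
theorem ufive_comm (B : BlkZ h ea fa eb fb z) {l v : F} (hl : l + star l = -1)
    (hv : v * star v = 1) {L : Subgroup (UG h)} (m : X h eb fb (l • ea - fa + z) 0 ∈ L)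
    {g : UG h} (hg : g ∈ L) (g1 : g • ea = v • ea) (g2 : g • fa = v • fa)
    (g3 : g • eb = star v • eb) (g4 : g • fb = star v • fb) (g5 : g • z = z) :
    TA L fb ((v ^ 2 - 1) • (l • ea - fa) + (v - 1) • z) := by
  obtain ⟨k, kP⟩ := ufive_ok B hl
  have hv0 : star v ≠ 0 := right_ne_zero_of_mul_eq_one hv
  have e1 : g * P h fb ((2 : F) • eb) * g⁻¹ = P h fb ((2 : F) • eb) := by
    rw [P_conj kP]
    refine uext fun x => ?_
    rw [P_act (kP.act g), P_act kP]
    simp only [act_smul, g3, g4, HF.smul_right, star_star]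
    match_scalars
    · ring
    · linear_combination (-2 * h x fb) * hv
    · linear_combination (-(star 2 * h x eb)) * hv
  have k' := k.act g
  have e2 := T_conj k g
  rw [g4] at k' e2
  rw [T_smul k' hv0] at e2
  have e3 : (X h eb fb (l • ea - fa + z) 0)⁻¹ * (g * X h eb fb (l • ea - fa + z) 0 * g⁻¹) =
      (T h fb (l • ea - fa + z) 0)⁻¹ * ((P h fb ((2 : F) • eb))⁻¹ *
        (g * P h fb ((2 : F) • eb) * g⁻¹)) * (g * T h fb (l • ea - fa + z) 0 * g⁻¹) := by
    rw [X]; group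
  have m' := L.mul_mem (L.inv_mem m) (Nrm.of_mem hg _ m)
  rw [e3, e1, e2, inv_mul_cancel, mul_one, T_inv k, T_mul k.neg (k'.smul hv0)] at m'
  have H : TA L fb _ := ⟨_, k.neg.add (k'.smul hv0), m'⟩
  have e4 : -(l • ea - fa + z) + star (star v) • g • (l • ea - fa + z) =
      (v ^ 2 - 1) • (l • ea - fa) + (v - 1) • z := by
    simp only [star_star, smul_add, smul_sub, act_smul, g1, g2, g5]
    module
  rwa [e4] at H

omit [Finite F] [FiniteDimensional F V] in
theorem ufive_all {L : Subgroup (UG h)} {s x : V} (hs : h s s = 0) {c κ : F} (hc : Gen c)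
    (hm : ∀ μ : F, TA L s (μ • x) → TA L s ((c * μ) • x)) (hκ : κ ≠ 0) (H : TA L s (κ • x))
    (μ : F) : TA L s (μ • x) := by
  have := hc.all (fun μ => TA L s (μ • x)) (by simpa using TA.zero hs)
    (fun a b ha hb => by rw [add_smul]; exact ha.add hb)
    (fun a ha => by rw [neg_smul]; exact ha.neg) hm H (μ / κ)
  rwa [div_mul_cancel₀ _ hκ] at this

omit [Finite F] [FiniteDimensional F V] in
theorem ufive_mv (B : BlkZ h ea fa eb fb z) {L : Subgroup (UG h)} {x : V} (h1 : h fb x = 0)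
    (h2 : h z x = 0) (Hz : TA L fb z) (H : ∀ μ : F, TA L x (μ • z)) (μ : F) :
    TA L fb (μ • x) := by
  obtain ⟨c, k, m⟩ := H (star μ)
  have h3 := (Hz.fix (Nrm.of_mem m) (by rw [T_act k]; simp [h1, B.z4'])).sub Hz
  rw [T_act k] at h3
  simpa [h2, B.zz] using h3

/-- `t1`, `t3`, `a`, `u`, `s` as in `UFour` (`s • z = z`), `t2 = X w 0`, `w = l • ea - fa + z`,
`l + star l = -1` (`cj_z`, `blk_odd`). On `TA L fb`, `s` multiplies `ea, fa` by `u ^ 2` and `z` by
`u`; `t2⁻¹ s^k t2 s^(-k)` gives `(v ^ 2 - 1) • (l • ea - fa) + (v - 1) • z` for `v = u ^ k`.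
Odd characteristic: `v = -1` gives `2 • z`, so all multiples of `z` (`Gen u`); conjugation by `t1`
and `t3` gives `TA L ea (μ • z)`, `TA L fa (μ • z)`; these maps fix `fb` and send `z` to `z` plus an
arbitrary multiple of `ea`, `fa`. Characteristic two: `(t2 * t1) ^ 3 = T fb ea 0`, all multiples of
`ea` (`Gen (u ^ 2)`, the cardinality is not nine); `v = u` gives `κ • fa + κ' • z` with
`κ, κ' ≠ 0`; `TA.comm` gives `T fb 0 c`, `c ≠ 0`; conjugation by `t3` gives `T fa 0 c'`, which fixes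
`fb` and sends `μ • ea` to `μ • ea - μ c' • fa`; so all multiples of `fa`, then `κ' • z`, then all
multiples of `z` by `s`. -/
theorem tri_five (hF : ∃ a : F, star a ≠ a) (hN : ND h) (B : BlkZ h ea fa eb fb z)
    (hsp : ∀ M : Submodule F V, ea ∈ M → fa ∈ M → eb ∈ M → fb ∈ M → z ∈ M → M = ⊤) :
    Tri h := by
  have _ := hN
  obtain ⟨l, hl, -, -⟩ := exists_lam hF (t := -1) (Or.inr rfl)
  obtain ⟨a, ha, hu, hall, hu2⟩ := exists_al hF
  obtain ⟨k1, a1, a2, a3, a4, a5⟩ := ufive_t1 B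
  obtain ⟨c1, c2, c3, c4, c5⟩ := ufive_t3 B ha
  have hS : ({ea, fa, eb, fb} : Set V) ⊆ {ea, fa, eb, fb, z} := by
    rintro v (rfl | rfl | rfl | rfl) <;> simp
  obtain ⟨d2, md2, -, ed2⟩ := ((cj_n B.toBlk).mono hS).symm.trans (cj_z B hl)
  obtain ⟨d3, md3, -, ed3⟩ := ((cj_n B.toBlk).symm.trans
    (cj_lam B.toBlk (inv_ne_zero ha))).trans (cj_ab B.toBlk ha)
  refine ⟨_, P_mem _ _, _, mul_mem (P_mem _ _) (T_mem _ _ _), _, P_mem _ _, d2, md2, d3, md3,
    ⟨1, ?_⟩, ed2, ed3, fun L m1 m2 m3 => ?_⟩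
  · rw [P_sq k1]
    exact uext fun x => by rw [sc_act (by simp), one_smul, one_smul]
  have hcube := ufive_cube B hsp hl
  change X h eb fb (l • ea - fa + z) 0 ∈ L at m2
  generalize P h (fb - ea) (eb - fa) = t1 at *
  generalize P h (fb - star a • fa) (eb - a⁻¹ • ea) = t3 at *
  have hs : star a ≠ 0 := by simpa using ha
  obtain ⟨u, hud⟩ : ∃ u, u = a / star a := ⟨_, rfl⟩
  rw [← hud] at hu hall hu2
  have hsu : star u = star a / a := by rw [hud, star_div₀, star_star]
  have huu : u * star u = 1 := by rw [hsu, hud]; field_simp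
  have hu0 : star u ≠ 0 := right_ne_zero_of_mul_eq_one huu
  have ms : t1 * t3 * (t1 * t3) ∈ L := mul_mem (mul_mem m1 m3) (mul_mem m1 m3)
  have s1 : (t1 * t3 * (t1 * t3)) • ea = u • ea := by
    simp only [mul_smul, act_smul, c1, a3, c4, a2, hud, div_eq_mul_inv]
  have s2 : (t1 * t3 * (t1 * t3)) • fa = u • fa := by
    simp only [mul_smul, act_smul, c1, a3, c4, a2, hud, div_eq_inv_mul]
  have s3 : (t1 * t3 * (t1 * t3)) • eb = star u • eb := by
    simp only [mul_smul, act_smul, c3, a1, c2, a4, hsu, div_eq_inv_mul]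
  have s4 : (t1 * t3 * (t1 * t3)) • fb = star u • fb := by
    simp only [mul_smul, act_smul, c3, a1, c2, a4, hsu, div_eq_mul_inv]
  have s5 : (t1 * t3 * (t1 * t3)) • z = z := by simp only [mul_smul, c5, a5]
  generalize t1 * t3 * (t1 * t3) = s at *
  have hz : ∃ κ : F, κ ≠ 0 ∧ TA L fb (κ • z) := by
    by_cases two : (2 : F) = 0
    · have h9 : Nat.card F ≠ 9 := fun e => by
        have h3 := (nine hF e).1
        exact one_ne_zero (α := F) (by linear_combination h3 - two)
      obtain ⟨b, hb⟩ := hF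
      have hne : u ^ 2 - 1 ≠ 0 := fun e => by
        have h1 : RingHom.eqLocus (starRingEnd F) (RingHom.id F) = ⊤ :=
          hu2 h9 _ (by rw [sub_eq_zero.1 e]; exact one_mem _)
        exact hb (h1 ▸ Subring.mem_top b : b ∈ RingHom.eqLocus (starRingEnd F) (RingHom.id F))
      have hne' : u - 1 ≠ 0 := fun e => hne (by rw [sub_eq_zero.1 e]; ring)
      have k : OK h fb ea 0 := ⟨B.bb', B.fba, by simp [B.aa]⟩
      have Ha : ∀ μ : F, TA L fb (μ • ea) := by
        refine ufive_all B.bb' (hu2 h9) (fun μ H => ?_) one_ne_zero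
          ⟨0, by rwa [one_smul], by rw [one_smul, ← hcube]; exact pow_mem (mul_mem m2 m1) 3⟩
        have := H.fix' (Nrm.of_mem ms) hu0 s4
        rwa [star_star, act_smul, s1, smul_smul, smul_smul, mul_right_comm, ← pow_two] at this
      have H1 := ufive_comm B hl huu m2 ms s1 s2 s3 s4 s5
      have hsn : star (u ^ 2 - 1) ≠ 0 := by simpa only [ne_eq, star_eq_zero] using hne
      have mc := H1.comm (Ha (b / star (u ^ 2 - 1)))
      have ec : h ((b / star (u ^ 2 - 1)) • ea) ((u ^ 2 - 1) • (l • ea - fa) + (u - 1) • z) -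
          h ((u ^ 2 - 1) • (l • ea - fa) + (u - 1) • z) ((b / star (u ^ 2 - 1)) • ea) =
          star b - b := by
        simp only [HF.smul_left, HF.smul_right, HF.add_left, HF.add_right, HF.sub_left,
          HF.sub_right, B.aa, B.eaa, B.faa, B.z1, B.z1', star_div₀, star_star]
        field_simp
        ring
      rw [ec] at mc
      have kc : OK h fb 0 (star b - b) := ⟨B.bb', by simp, by simp⟩
      have kc' := kc.act t3
      have mg := Nrm.of_mem m3 _ mc
      rw [T_conj kc] at mg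
      rw [c2, smul_zero] at mg kc'
      have hc : (star b - b) * a * star a ≠ 0 :=
        mul_ne_zero (mul_ne_zero (sub_ne_zero.2 hb) ha) hs
      have Hf : ∀ ν : F, TA L fb (ν • fa) := fun ν => by
        have h3 := (Ha (ν / ((star b - b) * a * star a))).sub ((Ha _).fix (Nrm.of_mem mg)
          (by rw [T_act kc']; simp [B.ba']) (w := (ν / ((star b - b) * a * star a)) • ea))
        rw [T_act kc'] at h3
        convert h3 using 1
        simp only [HF.smul_left, HF.smul_right, HF.zero_right, B.eaa, star_star]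
        have hb' := sub_ne_zero.2 hb
        match_scalars <;> field_simp <;> ring
      refine ⟨u - 1, hne', ?_⟩
      convert (H1.sub (Ha ((u ^ 2 - 1) * l))).add (Hf (u ^ 2 - 1)) using 1
      module
    · obtain ⟨n, hn⟩ := hall (-1) (by simp)
      have H := ufive_comm B hl (v := -1) (by simp) m2 (pow_mem ms n)
        (by rw [ufive_pow s1, ← hn]) (by rw [ufive_pow s2, ← hn])
        (by rw [ufive_pow s3, ← star_pow, ← hn]) (by rw [ufive_pow s4, ← star_pow, ← hn])
        (by rw [ufive_pow (c := 1) (by rw [s5, one_smul]), one_pow, one_smul])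
      refine ⟨-1 - 1, fun e => two (by linear_combination -e), ?_⟩
      simpa using H
  obtain ⟨κ, hκ, Hκ⟩ := hz
  have Hz : ∀ μ : F, TA L fb (μ • z) := by
    refine ufive_all B.bb' hu (fun μ H => ?_) hκ Hκ
    have := H.fix' (Nrm.of_mem ms) hu0 s4
    rwa [star_star, act_smul, s5, smul_smul] at this
  have Hz1 : TA L fb z := by simpa using Hz 1
  have Ha : ∀ μ : F, TA L fb (μ • ea) := by
    refine ufive_mv B B.fba B.z1 Hz1 fun μ => ?_
    have := (Hz μ).conj (Nrm.of_mem m1)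
    rwa [a2, act_smul, a5] at this
  have Hf : ∀ μ : F, TA L fb (μ • fa) := by
    refine ufive_mv B B.ba' B.z2 Hz1 fun μ => ?_
    have := (Hz (a⁻¹ * μ)).conj (Nrm.of_mem m3)
    rw [c2, act_smul, c5] at this
    have := this.smul hs
    rwa [star_star, smul_smul, mul_inv_cancel_left₀ ha] at this
  have HF1 : Full L fb := by
    refine Full.of_span B.bb' B.ebb {ea, fa, z} (fun M h1 h2 hM =>
      hsp M (hM (by simp)) (hM (by simp)) h2 h1 (hM (by simp))) ?_
    rintro v (rfl | rfl | rfl)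
    exacts [Ha, Hf, Hz]
  refine ⟨fb, eb, B.bb', B.bb, B.fbb, HF1, ?_⟩
  have := HF1.conj (Nrm.of_mem (mul_mem m1 m3))
  rw [mul_smul, c2, act_smul, a4] at this
  exact this.smul hs

end Pool.Agent.Lib.MP_cad414_al.Cg.UU
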