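import Pool.Agent.Lib.MP_cad414_al.Cg.UConj

/-! Dimension four, `q ≠ 3`. -/

namespace Pool.Agent.Lib.MP_cad414_al.Cg.UU

open Module

variable {F V : Type} [Field F] [StarRing F] [Finite F] [AddCommGroup V] [Module F V]
  [FiniteDimensional F V] {h : HF F V}

variable {ea fa eb fb : V}

omit [Finite F] [FiniteDimensional F V] in
theorem UFour_k1 (B : Blk h ea fa eb fb) : PK h (fb - ea) (eb - fa) := by
  constructor <;>
    simp [B.aa, B.ab, B.bb, B.aa', B.ba', B.bb', B.eaa, B.eab, B.eba, B.fab, B.fba, B.fbb]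
  norm_num

omit [Finite F] [FiniteDimensional F V] in
theorem UFour_k3 (B : Blk h ea fa eb fb) {a : F} (ha : a ≠ 0) :
    PK h (fb - star a • fa) (eb - a⁻¹ • ea) := by
  have ha' : star a ≠ 0 := by simpa using ha
  constructor <;>
    simp [B.aa, B.ab, B.ba, B.bb, B.aa', B.ab', B.ba', B.bb', B.faa, B.fab, B.fba, B.fbb, ha']
  norm_num

omit [Finite F] [FiniteDimensional F V] in
theorem UFour_kD (B : Blk h ea fa eb fb) : PK h fb ((2 : F) • eb) := by
  constructor <;> simp [B.bb, B.bb', B.fbb]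

omit [Finite F] [FiniteDimensional F V] in
theorem UFour_t1 (B : Blk h ea fa eb fb) :
    P h (fb - ea) (eb - fa) • ea = fb ∧ P h (fb - ea) (eb - fa) • fa = eb ∧
      P h (fb - ea) (eb - fa) • eb = fa ∧ P h (fb - ea) (eb - fa) • fb = ea := by
  refine ⟨?_, ?_, ?_, ?_⟩ <;> rw [P_act (UFour_k1 B)] <;>
    simp [B.aa, B.ab, B.ba, B.bb, B.aa', B.ab', B.ba', B.bb', B.eaa, B.eab, B.eba, B.ebb, B.faa,
      B.fab, B.fba, B.fbb]

omit [Finite F] [FiniteDimensional F V] in
theorem UFour_t3 (B : Blk h ea fa eb fb) {a : F} (ha : a ≠ 0) :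
    P h (fb - star a • fa) (eb - a⁻¹ • ea) • ea = a • eb ∧
      P h (fb - star a • fa) (eb - a⁻¹ • ea) • fa = (star a)⁻¹ • fb ∧
      P h (fb - star a • fa) (eb - a⁻¹ • ea) • eb = a⁻¹ • ea ∧
      P h (fb - star a • fa) (eb - a⁻¹ • ea) • fb = star a • fa := by
  have ha' : star a ≠ 0 := by simpa using ha
  refine ⟨?_, ?_, ?_, ?_⟩ <;> rw [P_act (UFour_k3 B ha)] <;>
    simp [B.aa, B.ab, B.ba, B.bb, B.aa', B.ab', B.ba', B.bb', B.eaa, B.eab, B.eba, B.ebb, B.faa,
      B.fab, B.fba, B.fbb, smul_sub, smul_smul, ha, ha']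

omit [Finite F] [FiniteDimensional F V] in
/-- The closure argument. -/
theorem UFour_full (hF : ∃ a : F, star a ≠ a) (B : Blk h ea fa eb fb)
    (hsp : ∀ M : Submodule F V, ea ∈ M → fa ∈ M → eb ∈ M → fb ∈ M → M = ⊤)
    {L : Subgroup (UG h)} {u : F} (hu : u * star u = 1) (hg : Gen (u ^ 2)) {s t : UG h}
    (hs : s ∈ L) (ht : t ∈ L) (s1 : s • ea = u • ea) (s2 : s • fa = u • fa)
    (s3 : s • eb = star u • eb) (s4 : s • fb = star u • fb) (t4 : t • fb = ea)
    (h2 : X h eb fb (ea + fa) 1 ∈ L) : Full L fb := by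
  have u0 : star u ≠ 0 := right_ne_zero_of_mul_eq_one hu
  have ww : h (ea + fa) (ea + fa) = 2 := by simp [B.aa, B.aa', B.eaa, B.faa]; norm_num
  have fw : h fb (ea + fa) = 0 := by simp [B.fba, B.ba']
  have k : OK h fb (ea + fa) 1 := ⟨B.bb', fw, by rw [ww]; norm_num⟩
  have sw : ∀ m : F, s • (m • (ea + fa)) = (u * m) • (ea + fa) := fun m => by
    rw [act_smul, smul_add, s1, s2]; module
  -- conjugation by `s`
  have cs : ∀ (m c : F), OK h fb (m • (ea + fa)) c →
      OK h fb ((u ^ 2 * m) • (ea + fa)) c ∧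
      s * T h fb (m • (ea + fa)) c * s⁻¹ = T h fb ((u ^ 2 * m) • (ea + fa)) c := by
    intro m c k'
    have k2 := k'.act s
    rw [s4, sw] at k2
    have e1 : star (star u) • (u * m) • (ea + fa) = (u ^ 2 * m) • (ea + fa) := by
      rw [star_star, smul_smul]; congr 1; ring
    have e2 : star u * star (star u) * c = c := by
      rw [star_star, mul_comm (star u), hu, one_mul]
    refine ⟨?_, ?_⟩
    · have := k2.smul u0
      rwa [e1, e2] at this
    · rw [T_conj k', s4, sw, T_smul k2 u0, e1, e2]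
  have cD : s * P h fb ((2 : F) • eb) * s⁻¹ = P h fb ((2 : F) • eb) := by
    rw [P_conj (UFour_kD B)]
    refine uext fun x => ?_
    rw [P_act ((UFour_kD B).act s), P_act (UFour_kD B), act_smul, s3, s4]
    simp only [HF.smul_right, star_star]
    match_scalars
    · rfl
    · linear_combination (-(h x fb) * 2) * hu
    · linear_combination (-(star (2 : F)) * h x eb) * hu
  have k1 : OK h fb ((1 : F) • (ea + fa)) 1 := by rwa [one_smul]
  have m0 : (T h fb (ea + fa) 1)⁻¹ * T h fb ((u ^ 2 * 1) • (ea + fa)) 1 ∈ L := by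
    have := L.mul_mem (L.inv_mem h2) (L.mul_mem (L.mul_mem hs h2) (L.inv_mem hs))
    convert this using 1
    rw [← (cs 1 1 k1).2, one_smul, X]
    have e : s * (P h fb ((2 : F) • eb) * T h fb (ea + fa) 1) * s⁻¹ =
        (s * P h fb ((2 : F) • eb) * s⁻¹) * (s * T h fb (ea + fa) 1 * s⁻¹) := by group
    rw [e, cD]
    group
  rw [T_inv k, T_mul k.neg (cs 1 1 k1).1] at m0
  have k0 := k.neg.add (cs 1 1 k1).1
  have e0 : -(ea + fa) + (u ^ 2 * 1) • (ea + fa) = (u ^ 2 - 1) • (ea + fa) := by module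
  rw [e0] at m0 k0
  have u1 : u ^ 2 - 1 ≠ 0 := by
    intro e
    obtain ⟨a, ha⟩ := hF
    have : (starRingEnd F).eqLocus (RingHom.id F) = ⊤ := hg _ (by
      rw [sub_eq_zero.1 e]; exact Subring.one_mem _)
    exact ha (this ▸ Subring.mem_top a : a ∈ (starRingEnd F).eqLocus (RingHom.id F))
  -- all multiples of `ea + fa`
  have all : ∀ m : F, TA L fb (m • (ea + fa)) := fun m => by
    have := hg.all (fun m => TA L fb (m • (ea + fa))) (by simpa using TA.zero B.bb')
      (fun a b ha hb => by simpa only [add_smul] using ha.add hb)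
      (fun a ha => by simpa only [neg_smul] using ha.neg)
      (fun a ⟨c, kc, mc⟩ => ⟨c, (cs a c kc).1, (cs a c kc).2 ▸ Nrm.of_mem hs _ mc⟩)
      ⟨_, k0, m0⟩ (m / (u ^ 2 - 1))
    rwa [div_mul_cancel₀ _ u1] at this
  -- a transvection
  obtain ⟨c, c0, kc, mc⟩ : ∃ c : F, c ≠ 0 ∧ OK h fb 0 c ∧ T h fb 0 c ∈ L := by
    by_cases h2' : (2 : F) = 0
    · have kz : ∀ m : F, OK h fb (m • (ea + fa)) 0 := fun m =>
        ⟨B.bb', by rw [HF.smul_right, fw, mul_zero], by
          rw [HF.smul_left, HF.smul_right, ww, h2']; simp⟩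
      have e1 : star (1 : F) + 1 + h ((u ^ 2 * 1) • (ea + fa)) (-(ea + fa)) = 0 := by
        rw [HF.smul_left, HF.neg_right, ww, h2', star_one]; linear_combination h2'
      rw [e1] at m0
      have := hg.all (fun m => T h fb (m • (ea + fa)) 0 ∈ L)
        (by rw [zero_smul, T_zero B.bb']; exact L.one_mem)
        (fun a b ha hb => by
          have := L.mul_mem ha hb
          rw [T_mul (kz a) (kz b), HF.smul_left, HF.smul_right, ww, h2'] at this
          simpa only [add_smul, mul_zero, add_zero] using this)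
        (fun a ha => by
          have := L.inv_mem ha
          rw [T_inv (kz a), star_zero] at this
          simpa only [neg_smul] using this)
        (fun a ha => (cs a 0 (kz a)).2 ▸ Nrm.of_mem hs _ ha) m0 (-1 / (u ^ 2 - 1))
      rw [div_mul_cancel₀ _ u1] at this
      have eD : P h fb ((2 : F) • eb) = 1 := uext fun x => by
        rw [P_act (UFour_kD B), h2']; simp
      rw [X, eD, one_mul] at h2
      have m1 := L.mul_mem h2 this
      rw [T_mul k (kz (-1)), HF.smul_left, ww, h2', neg_smul, one_smul, add_neg_cancel, mul_zero,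
        add_zero, add_zero] at m1
      exact ⟨1, one_ne_zero, ⟨B.bb', by simp, by simp; linear_combination h2'⟩, m1⟩
    · obtain ⟨a, ha⟩ := hF
      refine ⟨_, ?_, ⟨B.bb', by simp, ?_⟩, (all 1).comm (all a)⟩
      · simp only [HF.smul_left, HF.smul_right, ww, star_one]
        intro e
        apply ha
        apply mul_left_cancel₀ h2'
        linear_combination -e
      · rw [star_sub, h.symm, h.symm]; simp
  have kc' := kc.act t
  have mc' := T_conj kc t ▸ Nrm.of_mem ht _ mc
  rw [t4, smul_zero] at kc' mc'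
  have hea : ∀ m : F, TA L fb (m • ea) := fun m => by
    have := (all (m / c)).sub ((all (m / c)).fix (Nrm.of_mem mc') (by
      rw [T_act kc']; simp [B.fba]))
    convert this using 1
    rw [T_act kc']
    simp only [HF.smul_left, HF.add_left, HF.zero_right, B.aa, B.faa, smul_zero, zero_smul]
    match_scalars
    · field_simp; ring
    · ring
  refine Full.of_span B.bb' B.ebb {ea, fa} (fun M h1 h2 h3 =>
    hsp M (h3 (by simp)) (h3 (by simp)) h2 h1) ?_
  rintro v (rfl | rfl) m
  · exact hea m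
  · simpa only [smul_add, add_sub_cancel_left] using (all m).sub (hea m)

/-- `t1 = P (fb - ea) (eb - fa)`, `t2 = X (ea + fa) 1`, `t3 = P (fb - star a • fa) (eb - a⁻¹ • ea)`
with `a` from `exists_al`, `u = a / star a`. `s = (t1 * t3) ^ 2` is `u` on `ea, fa` and `u⁻¹` on
`eb, fb`; it commutes with `P fb (2 • eb)` and multiplies `w` in `TA L fb w` by `u ^ 2`.
`t2⁻¹ * s * t2 * s⁻¹` gives `TA L fb ((u ^ 2 - 1) • (ea + fa))`, hence all multiples of `ea + fa`.
Some `T fb 0 c ∈ L` with `c ≠ 0` (characteristic two: `w = ea + fa` is isotropic, all `T fb (μ • w) 0`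
are in `L`, multiply with `t2`; odd: `TA.comm`); conjugation by
`t1` gives `T ea 0 c`, which fixes `fb` and sends `μ • (ea + fa)` to `μ • (ea + fa) - μ c • ea`.
`(t1 * t3) • fb` is a multiple of `eb`. -/
theorem tri_four (hF : ∃ a : F, star a ≠ a) (h9 : Nat.card F ≠ 9) (B : Blk h ea fa eb fb)
    (hsp : ∀ M : Submodule F V, ea ∈ M → fa ∈ M → eb ∈ M → fb ∈ M → M = ⊤) : Tri h := by
  obtain ⟨a, ha, -, -, hg⟩ := exists_al hF
  have ha' : star a ≠ 0 := by simpa using ha
  obtain ⟨c2, m2, -, e2⟩ := (cj_n B).symm.trans (cj_ef hF B)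
  obtain ⟨c3, m3, -, e3⟩ := ((cj_n B).symm.trans (cj_lam B (inv_ne_zero ha))).trans (cj_ab B ha)
  obtain ⟨p1, p2, p3, p4⟩ := UFour_t1 B
  obtain ⟨q1, q2, q3, q4⟩ := UFour_t3 B ha
  refine ⟨_, P_mem _ _, _, mul_mem (P_mem _ _) (T_mem _ _ _), _, P_mem _ _, c2, m2, c3, m3,
    ⟨1, ?_⟩, e2, e3, fun L h1 h2 h3 => ?_⟩
  · rw [P_sq (UFour_k1 B)]
    exact uext fun x => by rw [sc_act (by simp), one_smul, one_smul]
  · have hm := L.mul_mem h1 h3
    have su : star (a / star a) = star a / a := by rw [star_div₀, star_star]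
    have F1 : Full L fb := by
      refine UFour_full hF B hsp (u := a / star a) (by rw [su]; field_simp) (hg h9)
        (L.mul_mem hm hm) h1 ?_ ?_ ?_ ?_ p4 h2
      · simp only [mul_smul, act_smul, p3, p4, q1, q2]
        rw [smul_smul, div_eq_mul_inv]
      · simp only [mul_smul, act_smul, p3, p4, q1, q2]
        rw [smul_smul, div_eq_inv_mul]
      · simp only [mul_smul, act_smul, p1, p2, q3, q4]
        rw [smul_smul, su, div_eq_inv_mul]
      · simp only [mul_smul, act_smul, p1, p2, q3, q4]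
        rw [smul_smul, su, div_eq_mul_inv]
    refine ⟨fb, eb, B.bb', B.bb, B.fbb, F1, Full.smul (a := star a) ?_ ha'⟩
    have := F1.conj (Nrm.of_mem hm)
    rwa [mul_smul, q4, act_smul, p2] at this

end Pool.Agent.Lib.MP_cad414_al.Cg.UU
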