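import Pool.Agent.Lib.MP_cad414_al.Cg.UBlk

/-! Dimension four, `q = 3`. -/

namespace Pool.Agent.Lib.MP_cad414_al.Cg.UU

open Module

variable {F V : Type} [Field F] [StarRing F] [Finite F] [AddCommGroup V] [Module F V]
  [FiniteDimensional F V] {h : HF F V}

variable {ea fa eb fb : V}

/-- a vector from its coordinates -/
def ufourn_v (ea fa eb fb : V) (a b c d : F) : V := a • ea + b • fa + c • eb + d • fb

omit [StarRing F] [Finite F] [FiniteDimensional F V] in
theorem ufourn_congr {a b c d a' b' c' d' : F} (h1 : a = a') (h2 : b = b') (h3 : c = c')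
    (h4 : d = d') : ufourn_v ea fa eb fb a b c d = ufourn_v ea fa eb fb a' b' c' d' := by
  rw [h1, h2, h3, h4]

omit [Finite F] [FiniteDimensional F V] in
theorem ufourn_act (g : UG h) (a b c d : F) : g • ufourn_v ea fa eb fb a b c d =
    a • g • ea + b • g • fa + c • g • eb + d • g • fb := by
  simp only [ufourn_v, smul_add, act_smul]

omit [Finite F] [FiniteDimensional F V] in
theorem ufourn_t1 (B : Blk h ea fa eb fb) (a b c d : F) :
    P h (fb - ea) (eb - fa) • ufourn_v ea fa eb fb a b c d = ufourn_v ea fa eb fb d c b a := by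
  have k : PK h (fb - ea) (eb - fa) := by
    constructor <;> simp [B.aa, B.ab, B.ba, B.bb, B.aa', B.ab', B.ba', B.bb', B.eaa, B.eab, B.eba, B.ebb,
      B.faa, B.fab, B.fba, B.fbb, one_add_one_eq_two]
  simp only [ufourn_act, P_act k]
  simp [B.aa, B.ab, B.ba, B.bb, B.aa', B.ab', B.ba', B.bb', B.eaa, B.eab, B.eba, B.ebb,
      B.faa, B.fab, B.fba, B.fbb, ufourn_v]
  module

omit [Finite F] [FiniteDimensional F V] in
theorem ufourn_t2 (B : Blk h ea fa eb fb) (l a b c d : F) :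
    X h eb fb (l • ea) 0 • ufourn_v ea fa eb fb a b c d =
      ufourn_v ea fa eb fb (a + l * c) b (-c) (star l * b - d) := by
  have k : PK h fb ((2 : F) • eb) := by
    constructor <;> simp [B.aa, B.ab, B.ba, B.bb, B.aa', B.ab', B.ba', B.bb', B.eaa, B.eab, B.eba, B.ebb,
      B.faa, B.fab, B.fba, B.fbb]
  have k' : OK h fb (l • ea) 0 := by
    constructor <;> simp [B.aa, B.ab, B.ba, B.bb, B.aa', B.ab', B.ba', B.bb', B.eaa, B.eab, B.eba, B.ebb,
      B.faa, B.fab, B.fba, B.fbb]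
  simp only [ufourn_act, X, mul_smul, P_act k, T_act k']
  simp [B.aa, B.ab, B.ba, B.bb, B.aa', B.ab', B.ba', B.bb', B.eaa, B.eab, B.eba, B.ebb,
      B.faa, B.fab, B.fba, B.fbb, ufourn_v]
  module

omit [Finite F] [FiniteDimensional F V] in
theorem ufourn_pk (B : Blk h ea fa eb fb) {i : F} (h3 : (3 : F) = 0) (hi : i * i = -1)
    (hs : star i = -i) : ∃ c ∈ ({T h eb (-fa) 0 * T h fb ((1 - i) • ea + (1 + i) • fa) 0} : Set _),
      c * P h fb ((2 : F) • eb) * c⁻¹ =
        P h (fb - fa) ((-1 + i) • ea + (1 + i) • eb + (-1 - i) • fa) := by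
  have k : PK h fb ((2 : F) • eb) := by
    constructor <;> simp [B.aa, B.ab, B.ba, B.bb, B.aa', B.ab', B.ba', B.bb', B.eaa, B.eab, B.eba, B.ebb,
      B.faa, B.fab, B.fba, B.fbb]
  have k1 : OK h eb (-fa) 0 := by
    constructor <;> simp [B.aa, B.ab, B.ba, B.bb, B.aa', B.ab', B.ba', B.bb', B.eaa, B.eab, B.eba, B.ebb,
      B.faa, B.fab, B.fba, B.fbb]
  have k2 : OK h fb ((1 - i) • ea + (1 + i) • fa) 0 := by
    constructor <;> simp [B.aa, B.ab, B.ba, B.bb, B.aa', B.ab', B.ba', B.bb', B.eaa, B.eab, B.eba, B.ebb,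
      B.faa, B.fab, B.fba, B.fbb, hs]
    linear_combination (-2 : F) * hi
  refine ⟨_, rfl, ?_⟩
  rw [P_conj k]
  congr 1
  · simp only [mul_smul, T_act k1, T_act k2]
    simp [B.aa, B.ab, B.ba, B.bb, B.aa', B.ab', B.ba', B.bb', B.eaa, B.eab, B.eba, B.ebb,
      B.faa, B.fab, B.fba, B.fbb, hs]
    module
  · simp only [mul_smul, T_act k1, T_act k2]
    simp [B.aa, B.ab, B.ba, B.bb, B.aa', B.ab', B.ba', B.bb', B.eaa, B.eab, B.eba, B.ebb,
      B.faa, B.fab, B.fba, B.fbb, hs]
    match_scalars <;> grind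

omit [Finite F] [FiniteDimensional F V] in
theorem ufourn_t3 (B : Blk h ea fa eb fb) {i : F} (h3 : (3 : F) = 0) (hi : i * i = -1)
    (hs : star i = -i) (a b c d : F) :
    P h (fb - fa) ((-1 + i) • ea + (1 + i) • eb + (-1 - i) • fa) • ufourn_v ea fa eb fb a b c d =
      ufourn_v ea fa eb fb (i * a + (1 - i) * c) (a - i * b + (1 + i) * c + (1 - i) * d)
        ((1 + i) * a - i * c) ((1 - i) * a + (1 + i) * b + i * d) := by
  have k : PK h (fb - fa) ((-1 + i) • ea + (1 + i) • eb + (-1 - i) • fa) := by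
    constructor <;> simp [B.aa, B.ab, B.ba, B.bb, B.aa', B.ab', B.ba', B.bb', B.eaa, B.eab, B.eba, B.ebb,
      B.faa, B.fab, B.fba, B.fbb, hs] <;> grind
  simp only [ufourn_act, P_act k]
  simp [B.aa, B.ab, B.ba, B.bb, B.aa', B.ab', B.ba', B.bb', B.eaa, B.eab, B.eba, B.ebb,
      B.faa, B.fab, B.fba, B.fbb, hs, ufourn_v]
  match_scalars <;> grind

/-- `i` from `nine`, `l = -1 + i`. `t1 = P (fb - ea) (eb - fa)`, `t2 = X (l • ea) 0` (so
`(t2 * t1) ^ 4 = T fb (-2 • ea) 0 = T fb ea 0`, see `blk_even`), `t3 = P s w` with `s = fa - fb`,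
`w = (1 - i) • ea + (-1 - i) • eb + (1 + i) • fa`. The words (apply the letters from left to right)
`g = 1 3 1 3 2 3 1 3` and `k = 3 2 1 2 1 3 2 3` fix the line of `fb`; on `TA L fb` (`TA.fix'`)
`g` sends `ea` to `-i ea`, `k` sends `ea` to `-i ea + fa` modulo `fb` (`TA.shift`). `t3 ~ X 0 0`:
move `s` to a multiple of `fb` by `T eb _ _`, `T fb _ _` or similar, then `cj_odd`. For the second
radical use any word that sends `fb` to a vector not orthogonal to `fb` (`1 3`), rescaled. -/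
theorem tri_four9 (hF : ∃ a : F, star a ≠ a) (h9 : Nat.card F = 9) (hN : ND h)
    (B : Blk h ea fa eb fb)
    (hsp : ∀ M : Submodule F V, ea ∈ M → fa ∈ M → eb ∈ M → fb ∈ M → M = ⊤) : Tri h := by
  obtain ⟨h3, i, hi, hs, hall⟩ := nine hF h9
  have h2 : (2 : F) ≠ 0 := fun e => one_ne_zero (α := F) (by linear_combination h3 - e)
  have hl : (-1 + i : F) ≠ 0 := fun e => one_ne_zero (α := F) (by
    linear_combination (1 + i) * e - hi + h3)
  have sl : star (-1 + i : F) = -1 - i := by simp [hs, sub_eq_add_neg]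
  have A1 := ufourn_t1 B
  have A2 := ufourn_t2 B (-1 + i)
  have A3 := ufourn_t3 B h3 hi hs
  obtain ⟨c, rfl, hc⟩ := ufourn_pk B h3 hi hs
  obtain ⟨c2, m2, -, e2⟩ := (cj_n B).symm.trans (cj_lam B hl)
  obtain ⟨c3, m3, -, e3⟩ := (cj_n B).symm.trans (cj_odd h2 (S := {ea, fa, eb, fb}) (by simp)
    B.bb' B.bb B.fbb (w := fa) (Submodule.subset_span (by simp)) (c := 0)
    ⟨B.bb', B.fba ▸ B.ba', by simp [B.aa']⟩ (star_zero F) B.fab).symm
  rw [X, T_zero B.bb', mul_one] at e3
  rw [sl] at A2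
  have k1 : PK h (fb - ea) (eb - fa) := by
    constructor <;> simp [B.aa, B.ab, B.ba, B.bb, B.aa', B.ab', B.ba', B.bb', B.eaa, B.eab, B.eba, B.ebb,
      B.faa, B.fab, B.fba, B.fbb, one_add_one_eq_two]
  have m1 := P_mem (h := h) (fb - ea) (eb - fa)
  have q1 := P_sq k1
  have m2' : X h eb fb ((-1 + i) • ea) 0 ∈ SU h := mul_mem (P_mem _ _) (T_mem _ _ _)
  have m3' := P_mem (h := h) (fb - fa) ((-1 + i) • ea + (1 + i) • eb + (-1 - i) • fa)
  generalize P h (fb - ea) (eb - fa) = t1 at *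
  generalize X h eb fb ((-1 + i) • ea) 0 = t2 at *
  generalize P h (fb - fa) ((-1 + i) • ea + (1 + i) • eb + (-1 - i) • fa) = t3 at *
  refine ⟨t1, m1, t2, m2', t3, m3', c2, m2, _, mul_mem (mul_mem (T_mem eb (-fa) 0)
    (T_mem fb ((1 - i) • ea + (1 + i) • fa) 0)) m3,
    ⟨1, q1.trans (uext fun x => by rw [sc_act (by simp), one_smul, one_smul])⟩, e2,
    by rw [← hc, ← e3]; group, fun L l1 l2 l3 => ?_⟩
  have v1 : ea = ufourn_v ea fa eb fb (1 : F) 0 0 0 := by simp [ufourn_v]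
  have v2 : fa = ufourn_v ea fa eb fb (0 : F) 1 0 0 := by simp [ufourn_v]
  have v3 : eb = ufourn_v ea fa eb fb (0 : F) 0 1 0 := by simp [ufourn_v]
  have v4 : fb = ufourn_v ea fa eb fb (0 : F) 0 0 1 := by simp [ufourn_v]
  have k0 : OK h fb ea 0 := ⟨B.bb', B.fba, by simp [B.aa]⟩
  have T0 : ∀ a b c d : F, T h fb ea 0 • ufourn_v ea fa eb fb a b c d =
      ufourn_v ea fa eb fb (a + c) b c (d - b) := by
    intro a b c d
    simp only [ufourn_act, T_act k0]
    simp [B.aa, B.ab, B.ba, B.bb, B.aa', B.ab', B.ba', B.bb', B.eaa, B.eab, B.eba, B.ebb,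
      B.faa, B.fab, B.fba, B.fbb, ufourn_v]
    module
  have u4 : t2 * t1 * t2 * t1 * t2 * t1 * t2 * t1 = T h fb ea 0 := by
    refine ext_span {ea, fa, eb, fb} (fun M hM => hsp M (hM (by simp)) (hM (by simp))
      (hM (by simp)) (hM (by simp))) ?_
    have H : ∀ a b c d : F, (t2 * t1 * t2 * t1 * t2 * t1 * t2 * t1) • ufourn_v ea fa eb fb a b c d =
        T h fb ea 0 • ufourn_v ea fa eb fb a b c d := by
      intro a b c d
      simp only [mul_smul, A1, A2, T0]
      exact ufourn_congr (by grind) (by grind) (by grind) (by grind)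
    rintro v (rfl | rfl | rfl | rfl)
    · have := H 1 0 0 0
      rwa [← v1] at this
    · have := H 0 1 0 0
      rwa [← v2] at this
    · have := H 0 0 1 0
      rwa [← v3] at this
    · have := H 0 0 0 1
      rwa [← v4] at this
  have a0 : TA L fb ea := ⟨0, k0, u4 ▸ (by repeat first | assumption | apply L.mul_mem)⟩
  have ng : Nrm L (t3 * t1 * t3 * t2 * t3 * t1 * t3 * t1) :=
    Nrm.of_mem (by repeat first | assumption | apply L.mul_mem)
  have nk : Nrm L (t3 * t2 * t3 * t1 * t2 * t1 * t2 * t3) :=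
    Nrm.of_mem (by repeat first | assumption | apply L.mul_mem)
  have g1 : (t3 * t1 * t3 * t2 * t3 * t1 * t3 * t1) • ufourn_v ea fa eb fb (0 : F) 0 0 1 =
      ufourn_v ea fa eb fb 0 0 0 (1 + i) := by
    simp only [mul_smul, A1, A2, A3]
    exact ufourn_congr (by linear_combination ((10) + (-9) * i + (-10) * i ^ 2 + (5) * i ^ 3) * hi + ((-5) + (6) * i) * h3)
      (by linear_combination ((-16) + (10) * i ^ 2) * hi + ((4)) * h3)
      (by linear_combination ((-4) + (-17) * i + (-5) * i ^ 2 + (5) * i ^ 3) * hi + ((2) + (8) * i) * h3)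
      (by linear_combination ((-2) + (8) * i + (-5) * i ^ 3) * hi + ((1) + (-3) * i) * h3)
  have g2 : (t3 * t1 * t3 * t2 * t3 * t1 * t3 * t1) • ufourn_v ea fa eb fb (1 : F) 0 0 0 =
      ufourn_v ea fa eb fb (-1 + i) 0 0 0 := by
    simp only [mul_smul, A1, A2, A3]
    exact ufourn_congr (by linear_combination ((4) + (-1) * i) * hi + ((-1) + (-1) * i) * h3)
      (by linear_combination ((-4) + (17) * i + (-5) * i ^ 2 + (-5) * i ^ 3) * hi + ((2) + (-8) * i) * h3)
      (by linear_combination ((2)) * hi + (0) * h3)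
      (by linear_combination ((-6) + (-4) * i + (5) * i ^ 2 + (5) * i ^ 3) * hi + ((3)) * h3)
  have k1 : (t3 * t2 * t3 * t1 * t2 * t1 * t2 * t3) • ufourn_v ea fa eb fb (0 : F) 0 0 1 =
      ufourn_v ea fa eb fb 0 0 0 (1 - i) := by
    simp only [mul_smul, A1, A2, A3]
    exact ufourn_congr (by linear_combination (0) * hi + (0) * h3)
      (by linear_combination ((-6) + (8) * i + (-2) * i ^ 2) * hi + ((3) + (-3) * i) * h3)
      (by linear_combination (0) * hi + (0) * h3)
      (by linear_combination ((-6) * i + (2) * i ^ 2) * hi + ((-1) + (4) * i) * h3)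
  have k2 : (t3 * t2 * t3 * t1 * t2 * t1 * t2 * t3) • ufourn_v ea fa eb fb (1 : F) 0 0 0 =
      ufourn_v ea fa eb fb (1 + i) (-1 + i) 0 1 := by
    simp only [mul_smul, A1, A2, A3]
    exact ufourn_congr (by linear_combination ((6) * i + (2) * i ^ 2) * hi + ((-1) + (-4) * i) * h3)
      (by linear_combination ((-9) + (6) * i + (-2) * i ^ 2) * hi + ((2) + (-3) * i) * h3)
      (by linear_combination ((6) + (8) * i + (2) * i ^ 2) * hi + ((-3) + (-3) * i) * h3)
      (by linear_combination ((9) + (-6) * i) * hi + ((-5) + (4) * i) * h3)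
  have r1 : (t3 * t1) • ufourn_v ea fa eb fb (0 : F) 0 0 1 =
      ufourn_v ea fa eb fb i 1 (1 + i) (1 - i) := by
    simp only [mul_smul, A1, A3]
    exact ufourn_congr (by ring) (by ring) (by ring) (by ring)
  rw [← v4] at g1 k1 r1
  rw [← v1] at g2 k2
  have p1 : (1 + i : F) ≠ 0 := fun e => h2 (by linear_combination (1 - i) * e + hi)
  have p2 : (1 - i : F) ≠ 0 := fun e => h2 (by linear_combination (1 + i) * e + hi)
  have a1 : TA L fb (i • ea) := by
    have := (a0.fix' ng p1 (g1.trans (by simp [ufourn_v]))).neg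
    rw [g2] at this
    convert this using 1
    simp only [ufourn_v, star_add, star_one, hs]
    match_scalars <;> grind
  have a2 : ∀ a : F, TA L fb (a • ea) := by
    intro a
    obtain ⟨x, y, rfl⟩ := hall a
    rw [add_smul, mul_smul]
    exact (a0.nat x).add (a1.nat y)
  have a3 : ∀ a : F, TA L fb (a • fa) := by
    intro a
    have := (((a2 a).fix' nk p2 (k1.trans (by simp [ufourn_v]))).add (a2 (a * i))).shift
      (-(a * (1 + i)))
    rw [act_smul, k2] at this
    convert this using 1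
    simp only [ufourn_v, star_sub, star_one, hs]
    match_scalars <;> grind
  have F1 : Full L fb := Full.of_span B.bb' B.ebb {ea, fa}
    (fun M h1 h2 h4 => hsp M (h4 (by simp)) (h4 (by simp)) h2 h1) (by
      rintro v (rfl | rfl)
      exacts [a2, a3])
  have F2 := F1.conj (Nrm.of_mem (L.mul_mem l3 l1))
  refine ⟨fb, (-1 + i) • (t3 * t1) • fb, B.bb', by simp [B.bb'], ?_, F1,
    Full.smul (a := (-1 + i)⁻¹) (by rwa [inv_smul_smul₀ hl]) (inv_ne_zero hl)⟩
  rw [r1]
  simp [B.aa, B.ab, B.ba, B.bb, B.aa', B.ab', B.ba', B.bb', B.eaa, B.eab, B.eba, B.ebb,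
      B.faa, B.fab, B.fba, B.fbb, ufourn_v, hs]
  grind

end Pool.Agent.Lib.MP_cad414_al.Cg.UU
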