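import Mathlib

/-! Finite fields with an involution, and generation of `SU_2` from one transvection. -/

namespace Pool.Agent.Lib.MP_cad414_al.Cg.U3

variable {F : Type} [Field F] [StarRing F]

theorem h90 (h : ∃ a : F, star a ≠ a) {z : F} (hz : z * star z = 1) :
    ∃ x : F, x ≠ 0 ∧ z = x / star x := by
  by_cases h1 : z = -1
  · obtain ⟨a, ha⟩ := h
    have h2 : star a - a ≠ 0 := sub_ne_zero.2 ha
    refine ⟨a - star a, sub_ne_zero.2 ha.symm, ?_⟩
    rw [star_sub, star_star, eq_div_iff h2, h1]
    ring
  · have h2 : 1 + z ≠ 0 := fun e => h1 (by linear_combination e)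
    refine ⟨1 + z, h2, ?_⟩
    rw [eq_div_iff (star_ne_zero.2 h2), star_add, star_one]
    linear_combination hz

theorem norm_div {x : F} (hx : x ≠ 0) : x / star x * star (x / star x) = 1 := by
  have := star_ne_zero.2 hx
  rw [star_div₀, star_star]
  field_simp

theorem norm_eq_zero {x : F} (h : x * star x = 0) : x = 0 :=
  (mul_eq_zero.1 h).elim id star_eq_zero.1

theorem norm_surj [Finite F] (h : ∃ a : F, star a ≠ a) {s : F} (hs : star s = s) :
    ∃ r : F, r * star r = s := by
  by_cases h0 : s = 0
  · exact ⟨0, by rw [h0, zero_mul]⟩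
  let N : Fˣ →* Fˣ := MonoidHom.mk' (fun x => x * star x) fun x y => by
    rw [star_mul']; exact mul_mul_mul_comm _ _ _ _
  let P : Fˣ →* Fˣ := MonoidHom.mk' (fun x => x / star x) fun x y => by
    rw [star_mul']; exact mul_div_mul_comm _ _ _ _
  have e1 : N.ker ≤ P.range := fun z hz => by
    obtain ⟨x, hx, e⟩ := h90 h (z := z) (congrArg Units.val hz)
    exact ⟨Units.mk0 x hx, Units.ext (by simp [P, e])⟩
  have e2 : N.range ≤ P.ker := by
    rintro _ ⟨x, rfl⟩
    change x * star x / star (x * star x) = 1
    rw [star_mul, star_star, div_self']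
  have c1 := N.ker.card_mul_index
  have c2 := P.ker.card_mul_index
  rw [Subgroup.index_ker] at c1 c2
  have c3 := Subgroup.card_le_of_le e1
  have c4 : Nat.card P.ker ≤ Nat.card N.range := by
    by_contra hc
    have h5 : 0 < Nat.card P.range := Nat.card_pos
    have := Nat.mul_lt_mul_of_le_of_lt c3 (not_le.1 hc) h5
    rw [c1, mul_comm, c2] at this
    exact lt_irrefl _ this
  have e3 := Subgroup.eq_of_le_of_card_ge e2 c4
  have m : Units.mk0 s h0 ∈ P.ker := by
    change Units.mk0 s h0 / star (Units.mk0 s h0) = 1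
    exact Units.ext (by simp [hs, h0])
  obtain ⟨r, hr⟩ := e3 ▸ m
  exact ⟨r, congrArg Units.val hr⟩

theorem exists_gen [Finite F] (h : ∃ a : F, star a ≠ a) :
    ∃ z : F, z * star z = 1 ∧ ∀ y : F, y * star y = 1 → ∃ k : ℕ, y = z ^ k := by
  obtain ⟨l, hl⟩ := IsCyclic.exists_monoid_generator (α := Fˣ)
  refine ⟨l / star (l : F), norm_div l.ne_zero, fun y hy => ?_⟩
  obtain ⟨x, hx, rfl⟩ := h90 h hy
  obtain ⟨k, hk⟩ := hl (Units.mk0 x hx)
  have e : x = (l : F) ^ k := by simpa using (congrArg Units.val hk).symm
  exact ⟨k, by rw [e, star_pow, div_pow]⟩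

theorem exists_sq_ne (h : ∃ a : F, star a ≠ a) : ∃ z : F, z * star z = 1 ∧ star z ≠ z := by
  have key : ∀ x : F, star x ≠ x → star x ≠ -x → ∃ z : F, z * star z = 1 ∧ star z ≠ z :=
    fun x h1 h2 => by
      have hx : x ≠ 0 := fun e => h1 (by rw [e, star_zero])
      have hx' := star_ne_zero.2 hx
      refine ⟨_, norm_div hx, fun e => ?_⟩
      rw [star_div₀, star_star, div_eq_div_iff hx hx'] at e
      exact (mul_self_eq_mul_self_iff.1 e).elim h1 h2
  obtain ⟨a, ha⟩ := h
  by_cases h1 : star a = -a
  · refine key (a + 1) (by simpa using ha) fun e => ha ?_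
    rw [star_add, star_one, h1] at e
    rw [h1]
    linear_combination (-a) * e
  · exact key a ha h1

theorem exists_fixed [Finite F] (h : ∃ a : F, star a ≠ a) (h9 : 9 < Nat.card F) :
    ∃ c : F, star c = c ∧ c ≠ 0 ∧ c ≠ 1 ∧ c ≠ -1 := by
  by_contra hc
  obtain ⟨a, ha⟩ := h
  have h1 : ∀ c : F, star c = c → ∃ i : Fin 3, c = ![0, 1, -1] i := fun c e => by
    by_contra h2
    exact hc ⟨c, e, fun e => h2 ⟨0, e⟩, fun e => h2 ⟨1, e⟩, fun e => h2 ⟨2, e⟩⟩
  have h2 : star a - a ≠ 0 := sub_ne_zero.2 ha
  have h3 : a - star a ≠ 0 := sub_ne_zero.2 ha.symm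
  have h4 : Function.Surjective fun p : Fin 3 × Fin 3 =>
      ![(0 : F), 1, -1] p.1 + ![(0 : F), 1, -1] p.2 * a := fun x => by
    obtain ⟨i, hi⟩ := h1 ((x * star a - star x * a) / (star a - a)) (by
      simp only [star_div₀, star_sub, star_mul', star_star]; field_simp; ring)
    obtain ⟨j, hj⟩ := h1 ((star x - x) / (star a - a)) (by
      simp only [star_div₀, star_sub, star_star]; field_simp; ring)
    refine ⟨(i, j), ?_⟩
    simp only [← hi, ← hj]
    field_simp
    ring
  have := Nat.card_le_card_of_surjective _ h4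
  rw [Nat.card_prod, Nat.card_eq_fintype_card (α := Fin 3), Fintype.card_fin] at this
  omega

omit [StarRing F] in
theorem inv_mem_sub [Finite F] (K : Subring F) {k : F} (hk : k ∈ K) : k⁻¹ ∈ K := by
  by_cases h0 : k = 0
  · rw [h0, inv_zero]; exact K.zero_mem
  obtain ⟨n, hn, e⟩ := (isOfFinOrder_of_finite (Units.mk0 k h0)).exists_pow_eq_one
  obtain ⟨m, rfl⟩ := Nat.exists_eq_succ_of_ne_zero hn.ne'
  have e' : k ^ m * k = 1 := by simpa [pow_succ] using congrArg Units.val e
  rw [inv_eq_of_mul_eq_one_left e']
  exact K.pow_mem hk m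

/-- A subring that contains all multipliers contains the fixed field. -/
theorem fixed_mem [Finite F] (h : ∃ a : F, star a ≠ a) (K : Subring F)
    (hf : ∀ k ∈ K, star k = k) {c : F} (hc : star c = -c)
    (h0 : c ≠ 0) (h1 : c ≠ 1) (hK : ∀ r, r * star r = 1 → ∀ e : F, e = c ∨ e = -c →
      e * (star r - r) - e ^ 2 * (2 - r - star r) ∈ K) {s : F} (hs : star s = s) : s ∈ K := by
  by_cases h2 : (2 : F) = 0
  · obtain ⟨a, ha⟩ := h
    have hc' : star c = c := by rw [hc]; linear_combination (-c) * h2
    have h3 : a + star a ≠ 0 := fun e => ha (by linear_combination e - a * h2)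
    obtain ⟨w, hw⟩ : ∃ w : F, w + star w = 1 := ⟨a / (a + star a), by
      rw [star_div₀, star_add, star_star, add_comm (star a) a]; field_simp⟩
    obtain ⟨k, hk⟩ : ∃ k, k = c + c ^ 2 := ⟨_, rfl⟩
    have hk0 : k ≠ 0 := by
      rw [hk]
      intro e
      have : c * (c - 1) = 0 := by linear_combination e - c * h2
      exact (mul_eq_zero.1 this).elim h0 fun e => h1 (sub_eq_zero.1 e)
    have m1 : ∀ r, r * star r = 1 → k * (r + star r) ∈ K := fun r hr => by
      have := hK r hr c (Or.inl rfl)
      rwa [show c * (star r - r) - c ^ 2 * (2 - r - star r) = k * (r + star r) by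
        rw [hk]; linear_combination (-c * r - c ^ 2) * h2] at this
    have n0 : ∀ t, star t = t → t ^ 2 + t + w * star w ≠ 0 ∧
        (t + w) / star (t + w) + star ((t + w) / star (t + w)) =
          (t ^ 2 + t + w * star w)⁻¹ := fun t ht => by
      have e1 : t + w ≠ 0 := fun e => by
        have e2 := congrArg star e
        rw [star_add, ht, star_zero] at e2
        exact one_ne_zero (α := F) (by linear_combination e + e2 - hw - t * h2)
      have e2 := star_ne_zero.2 e1
      have e3 : t ^ 2 + t + w * star w = (t + w) * star (t + w) := by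
        rw [star_add, ht]; linear_combination (-t) * hw
      refine ⟨e3 ▸ mul_ne_zero e1 e2, ?_⟩
      rw [e3, star_div₀, star_star]
      field_simp
      rw [star_add, ht]
      linear_combination (w + star w + 1) * hw + (t ^ 2 + t * w + t * star w - w * star w) * h2
    have z1 : ∀ t, star t = t → t + w ≠ 0 := fun t ht e => (n0 t ht).1 (by
      have e2 : w = -t := by linear_combination e
      rw [e2, star_neg, ht] at hw ⊢
      linear_combination (-t) * hw - (t ^ 2 - t ^ 2 - t ^ 2 + t ^ 2) * h2)
    have m2 : ∀ t, star t = t → k * (t ^ 2 + t + w * star w)⁻¹ ∈ K := fun t ht => by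
      rw [← (n0 t ht).2]; exact m1 _ (norm_div (z1 t ht))
    have m3 : k ∈ K := by
      have e1 := n0 0 (star_zero _)
      have a1 := m2 0 (star_zero _)
      have hr := norm_div (z1 0 (star_zero _))
      generalize (0 + w) / star (0 + w) = r at e1 hr
      have a2 := m1 (r ^ 2) (by rw [star_pow, ← mul_pow, hr, one_pow])
      have e2 : r ^ 2 + star (r ^ 2) = ((0 : F) ^ 2 + 0 + w * star w)⁻¹ ^ 2 := by
        rw [← e1.2, star_pow]; linear_combination (-r * star r) * h2
      have a3 := K.mul_mem (K.mul_mem a1 a1) (inv_mem_sub K a2)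
      have e3 := e1.1
      rw [e2] at a3
      generalize (0 : F) ^ 2 + 0 + w * star w = n at a3 e3
      convert a3 using 1
      field_simp
    have m4 : ∀ t, star t = t → t ^ 2 + t + w * star w ∈ K := fun t ht => by
      have a3 := K.mul_mem m3 (inv_mem_sub K (m2 t ht))
      have e3 := (n0 t ht).1
      convert a3 using 1
      field_simp
    have m5 : w * star w ∈ K := by simpa using m4 0 (star_zero _)
    have m6 : ∀ t, star t = t → t ^ 2 + t ∈ K := fun t ht => by
      simpa using K.sub_mem (m4 t ht) m5
    obtain ⟨d, d1, d2, d3⟩ : ∃ d ∈ K, d ≠ 0 ∧ d ≠ 1 := by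
      by_cases e : k = 1
      · refine ⟨_, m5, by simpa using (n0 0 (star_zero _)).1, fun e2 => (n0 c hc').1 ?_⟩
        linear_combination e - hk + e2 + h2
      · exact ⟨k, m3, hk0, e⟩
    have a1 := K.sub_mem (m6 (d * s) (by rw [star_mul', hs, hf d d1]))
      (K.mul_mem (K.pow_mem d1 2) (m6 s hs))
    have a2 := K.mul_mem a1 (inv_mem_sub K (K.mul_mem d1 (K.sub_mem K.one_mem d1)))
    have e4 : 1 - d ≠ 0 := sub_ne_zero.2 d3.symm
    convert a2 using 1
    field_simp
    ring
  · have m1 : ∀ t, star t = t → (1 - t ^ 2 * c ^ 2) / (8 * c ^ 2) ∈ K := fun t ht => by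
      have e1 : 1 + t * c ≠ 0 := fun e => by
        have e2 := congrArg star e
        rw [star_add, star_mul', ht, hc, star_one, star_zero] at e2
        exact h2 (by linear_combination e + e2)
      have e2 : star (1 + t * c) = 1 - t * c := by
        rw [star_add, star_mul', ht, hc, star_one]; ring
      have e3 : 1 - t * c ≠ 0 := e2 ▸ star_ne_zero.2 e1
      have hr : -((1 + t * c) / star (1 + t * c)) * star (-((1 + t * c) / star (1 + t * c))) = 1 := by
        rw [star_neg, neg_mul_neg, norm_div e1]
      have a1 := K.neg_mem (inv_mem_sub K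
        (K.add_mem (hK _ hr c (Or.inl rfl)) (hK _ hr (-c) (Or.inr rfl))))
      rw [star_neg, star_div₀, star_star, e2] at a1
      have e4 : (8 : F) ≠ 0 := by
        rw [show (8 : F) = 2 ^ 3 by norm_num]; exact pow_ne_zero 3 h2
      have e5 : (1 - t ^ 2 * c ^ 2) = (1 + t * c) * (1 - t * c) := by ring
      have e6 : (1 + t * c) + (1 - t * c) = 2 := by ring
      convert a1 using 1
      rw [← inv_neg, eq_comm, inv_eq_iff_eq_inv, inv_div, e5]
      generalize 1 + t * c = u at e1 e6 ⊢
      generalize 1 - t * c = v at e3 e6 ⊢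
      field_simp
      linear_combination (2 * c * (u + v + 2)) * e6
    have m2 : ∀ t, star t = t → t ^ 2 / 8 ∈ K := fun t ht => by
      have e4 : (8 : F) ≠ 0 := by
        rw [show (8 : F) = 2 ^ 3 by norm_num]; exact pow_ne_zero 3 h2
      convert K.sub_mem (m1 0 (star_zero _)) (m1 t ht) using 1
      field_simp
      ring
    have a1 := K.sub_mem (m2 (s + 1) (by rw [star_add, hs, star_one]))
      (m2 (s - 1) (by rw [star_sub, hs, star_one]))
    have e4 : (8 : F) ≠ 0 := by
      rw [show (8 : F) = 2 ^ 3 by norm_num]; exact pow_ne_zero 3 h2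
    convert K.add_mem a1 a1 using 1
    field_simp
    ring

/-- `P a b` stands for: the matrix `!![a, b; -star b, star a]` lies in a given subgroup. One
transvection and the torus give all of `SU_2`. -/
theorem su2_all [Finite F] (h : ∃ a : F, star a ≠ a) (P : F → F → Prop)
    (hn : ∀ a b, P a b → a * star a + b * star b = 1)
    (mul : ∀ a b a' b', P a b → P a' b' → P (a * a' - b * star b') (a * b' + b * star a'))
    (inv : ∀ a b, P a b → P (star a) (-b))
    (rot : ∀ a b z, z * star z = 1 → P a b → P a (z * b))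
    {a0 b0 : F} (h0 : P a0 b0) (ht : a0 + star a0 = 2) (h1 : a0 ≠ 1) (h2 : a0 ≠ 0)
    {a b : F} (hab : a * star a + b * star b = 1) : P a b := by
  have cast : ∀ {a b a' b'}, P a b → a = a' → b = b' → P a' b' := fun p e1 e2 => e1 ▸ e2 ▸ p
  have one : P 1 0 := cast (mul _ _ _ _ h0 (inv _ _ h0))
    (by rw [star_neg]; linear_combination hn _ _ h0) (by rw [star_star]; ring)
  have canc : ∀ a b a' b', P a' b' → P (a * a' - b * star b') (a * b' + b * star a') → P a b :=
    fun a b a' b' p q => cast (mul _ _ _ _ q (inv _ _ p))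
      (by rw [star_neg]; linear_combination a * hn _ _ p)
      (by rw [star_star]; linear_combination b * hn _ _ p)
  obtain ⟨x, hx⟩ := norm_surj h (s := -1) (by rw [star_neg, star_one])
  have x0 : x ≠ 0 := fun e => by simp [e] at hx
  have rot' : ∀ c y, y * star y = -1 → P (1 - c) (c * x) → P (1 - c) (c * y) := fun c y hy p =>
    cast (rot _ _ (-(y * star x)) (by
      rw [star_neg, star_mul', star_star]; linear_combination (x * star x) * hy - hx) p) rfl
      (by linear_combination (-y * c) * hx)
  have rot2 : ∀ c y, y * star y = -1 → P (1 - c) (c * y) → P (1 - c) (c * x) := fun c y hy p =>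
    cast (rot _ _ (-(x * star y)) (by
      rw [star_neg, star_mul', star_star]; linear_combination (x * star x) * hy - hx) p) rfl
      (by linear_combination (-x * c) * hy)
  have tr : ∀ a b : F, a + star a = 2 → a * star a + b * star b = 1 →
      star (1 - a) = -(1 - a) ∧ ∃ y, y * star y = -1 ∧ b = (1 - a) * y := fun a b e1 e2 => by
    have e3 : star (1 - a) = -(1 - a) := by rw [star_sub, star_one]; linear_combination -e1
    refine ⟨e3, ?_⟩
    by_cases e : 1 - a = 0
    · refine ⟨x, hx, ?_⟩
      rw [e, zero_mul]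
      exact norm_eq_zero (by linear_combination e2 - a * e1 + (1 - a) * e)
    · refine ⟨b / (1 - a), ?_, by field_simp⟩
      rw [star_div₀, e3]
      field_simp
      linear_combination a * e1 - e2
  let A : AddSubgroup F :=
    { carrier := {c | star c = -c ∧ P (1 - c) (c * x)}
      zero_mem' := ⟨by simp, cast one (by ring) (by ring)⟩
      add_mem' := fun {c d} p q => ⟨by rw [star_add, p.1, q.1]; ring,
        cast (mul _ _ _ _ p.2 q.2)
          (by rw [star_mul', q.1]; linear_combination (c * d) * hx)
          (by rw [star_sub, star_one, q.1]; ring)⟩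
      neg_mem' := fun {c} p => ⟨by rw [star_neg, p.1],
        cast (inv _ _ p.2) (by rw [star_sub, star_one, p.1]) (by ring)⟩ }
  let K : Subring F :=
    { carrier := {k | star k = k ∧ ∀ c ∈ A, k * c ∈ A}
      zero_mem' := ⟨star_zero _, fun c _ => by rw [zero_mul]; exact A.zero_mem⟩
      one_mem' := ⟨star_one _, fun c p => by rwa [one_mul]⟩
      add_mem' := fun {k l} p q => ⟨by rw [star_add, p.1, q.1], fun c r => by
        rw [add_mul]; exact A.add_mem (p.2 c r) (q.2 c r)⟩
      mul_mem' := fun {k l} p q => ⟨by rw [star_mul', p.1, q.1], fun c r => by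
        rw [mul_assoc]; exact p.2 _ (q.2 c r)⟩
      neg_mem' := fun {k} p => ⟨by rw [star_neg, p.1], fun c r => by
        rw [neg_mul]; exact A.neg_mem (p.2 c r)⟩ }
  have toA : ∀ a b, P a b → a + star a = 2 → 1 - a ∈ A := fun a b p e => by
    obtain ⟨e1, y, hy, e2⟩ := tr a b e (hn _ _ p)
    exact ⟨e1, rot2 _ y hy (cast p (by ring) e2)⟩
  have c0 := toA _ _ h0 ht
  have key : ∀ r, r * star r = 1 → ∀ e ∈ A, e * (star r - r) - e ^ 2 * (2 - r - star r) ∈ K :=
    fun r hr e he => by
      have he1 : star e = -e := he.1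
      have hk : star (e * (star r - r) - e ^ 2 * (2 - r - star r)) =
          e * (star r - r) - e ^ 2 * (2 - r - star r) := by
        simp only [star_sub, star_mul', star_pow, star_star, he1, star_ofNat]; ring
      refine ⟨hk, fun c hc => ?_⟩
      have hc1 : star c = -c := hc.1
      have p := mul _ _ _ _ (mul _ _ _ _ he.2 (rot' c (x * r) (by
        rw [star_mul']; linear_combination (x * star x) * hr + hx) hc.2)) (inv _ _ he.2)
      have q : c * (1 + (e * (star r - r) - e ^ 2 * (2 - r - star r))) ∈ A := by
        have := toA _ _ (cast p (a' := 1 - c * (1 + (e * (star r - r) -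
          e ^ 2 * (2 - r - star r)))) (by
            simp only [star_sub, star_mul', star_neg, star_one, he1, hc1]
            linear_combination (e * c * star r * (1 + e) - e * (1 - e) * c * r -
              e ^ 2 * (1 + c)) * hx) rfl) (by
            rw [star_sub, star_mul', star_add, hk, hc1, star_one]; ring)
        rwa [sub_sub_cancel] at this
      convert A.sub_mem q hc using 1
      ring
  have c1 : 1 - a0 ≠ 0 := sub_ne_zero.2 h1.symm
  have all : ∀ c y, star c = -c → y * star y = -1 → P (1 - c) (c * y) := fun c y hc hy => by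
    have m : c / (1 - a0) ∈ K := fixed_mem h K (fun k p => p.1) c0.1 c1
      (fun e => h2 (by linear_combination -e)) (fun r hr e he => key r hr e (by
        rcases he with rfl | rfl
        exacts [c0, A.neg_mem c0])) (by rw [star_div₀, hc, c0.1, neg_div_neg_eq])
    have := m.2 _ c0
    rw [div_mul_cancel₀ _ c1] at this
    exact rot' c y hy this.2
  have gen : ∀ a b, a * star a + b * star b = 1 → b ≠ 0 → P a b := fun a b e hb => by
    obtain ⟨y, hy, hk⟩ : ∃ y, y * star y = -1 ∧ star a - a + b * star y - star b * y ≠ 0 := by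
      by_contra hc
      have h3 : ∀ y, y * star y = -1 → star a - a + b * star y - star b * y = 0 := fun y hy => by
        by_contra h4
        exact hc ⟨y, hy, h4⟩
      obtain ⟨z, hz, hz'⟩ := exists_sq_ne h
      have z1 : z - 1 ≠ 0 := fun e => hz' (by rw [sub_eq_zero.1 e, star_one])
      have e1 := h3 x hx
      have e2 := h3 (x * z) (by rw [star_mul']; linear_combination (x * star x) * hz + hx)
      have e3 := h3 (x * star z) (by
        rw [star_mul', star_star]; linear_combination (x * star x) * hz + hx)
      rw [star_mul'] at e2 e3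
      rw [star_star] at e3
      have e4 : (z - 1) * (b * star x + star b * x * z) = 0 := by
        linear_combination z * (e1 - e2) + b * star x * hz
      have e5 : (z - 1) * (b * star x * z + star b * x) = 0 := by
        linear_combination z * (e3 - e1) + star b * x * hz
      have e6 := (mul_eq_zero.1 e4).resolve_left z1
      have e7 := (mul_eq_zero.1 e5).resolve_left z1
      have e8 : b * star x * (star z - z) = 0 := by
        linear_combination star z * e6 - e7 - star b * x * hz
      exact mul_ne_zero (mul_ne_zero hb (star_ne_zero.2 x0)) (sub_ne_zero.2 hz') e8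
    obtain ⟨c, hc, hc'⟩ : ∃ c, star c = -c ∧
        c * (star a - a + b * star y - star b * y) = 2 - a - star a := by
      refine ⟨(2 - a - star a) / (star a - a + b * star y - star b * y), ?_, div_mul_cancel₀ _ hk⟩
      rw [star_div₀, ← div_neg]
      simp only [star_sub, star_add, star_mul', star_star, star_ofNat]
      congr 1 <;> ring
    refine canc _ _ _ _ (all c y hc hy) ?_
    obtain ⟨e1, y', hy', e2⟩ := tr (a * (1 - c) - b * star (c * y)) (a * (c * y) + b * star (1 - c))
      (by simp only [star_sub, star_mul', star_star, star_one, hc, star_neg]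
          linear_combination hc')
      (by simp only [star_sub, star_add, star_mul', star_star, star_one, hc, star_neg]
          linear_combination (1 - c ^ 2 - c ^ 2 * y * star y) * e - c ^ 2 * hy)
    exact cast (all _ y' e1 hy') (by ring) e2.symm
  by_cases hb : b = 0
  · have a0' : a ≠ 0 := fun e => by simp [e, hb] at hab
    refine canc _ _ _ _ c0.2 (gen _ _ ?_ ?_)
    · have e := hn _ _ c0.2
      rw [hb] at hab ⊢
      simp only [star_mul', zero_mul, sub_zero, add_zero] at hab e ⊢
      linear_combination (a * star a) * e + hab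
    · rw [hb, zero_mul, add_zero]
      exact mul_ne_zero a0' (mul_ne_zero c1 x0)
  · exact gen a b hab hb

end Pool.Agent.Lib.MP_cad414_al.Cg.U3
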