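import Pool.Agent.Lib.MP_cad414_al.Cg.UBase
import Pool.Agent.Lib.MP_cad414_al.Cg.U3F

/-! Finite fields with a non-trivial involution. -/

namespace Pool.Agent.Lib.MP_cad414_al.Cg.UU

open Module

variable {F : Type} [Field F] [StarRing F] [Finite F]

theorem ufield_gen (hF : ∃ a : F, star a ≠ a) : ∃ g : F, g ≠ 0 ∧ g + star g ≠ 0 ∧
    (∀ x : F, x ≠ 0 → ∃ k : ℕ, x = g ^ k) ∧ ∀ u, u * star u = 1 → ∃ k : ℕ, u = (g / star g) ^ k := by
  obtain ⟨l, hl⟩ := IsCyclic.exists_monoid_generator (α := Fˣ)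
  have h1 : ∀ x : F, x ≠ 0 → ∃ k : ℕ, x = (l : F) ^ k := fun x hx => by
    obtain ⟨k, hk⟩ := hl (Units.mk0 x hx)
    exact ⟨k, by simpa using (congrArg Units.val hk).symm⟩
  have h2 : ∀ u, u * star u = 1 → ∃ k : ℕ, u = ((l : F) / star (l : F)) ^ k := fun y hy => by
    obtain ⟨x, hx, rfl⟩ := U3.h90 hF hy
    obtain ⟨k, rfl⟩ := h1 x hx
    exact ⟨k, by rw [star_pow, div_pow]⟩
  refine ⟨l, l.ne_zero, fun e => ?_, h1, h2⟩
  obtain ⟨z, hz, hz'⟩ := U3.exists_sq_ne hF
  obtain ⟨k, rfl⟩ := h2 z hz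
  rw [eq_neg_of_add_eq_zero_right e, div_neg, div_self l.ne_zero] at hz'
  simp at hz'

theorem exists_tr (hF : ∃ a : F, star a ≠ a) : ∃ t : F, t + star t = 1 := by
  obtain ⟨g, -, h, -⟩ := ufield_gen hF
  exact ⟨g / (g + star g), by
    rw [star_div₀, star_add, star_star, add_comm (star g) g, ← add_div, div_self h]⟩

theorem exists_nm (hF : ∃ a : F, star a ≠ a) : ∃ b : F, b * star b = -1 :=
  U3.norm_surj hF (by rw [star_neg, star_one])

theorem ufield_zero (hF : ∃ a : F, star a ≠ a) (S : Subring F) {t : F} (ht : t + star t = 1)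
    (hS : t ∈ S) (h : ∀ y, star y = -y → y ∈ S) : S = ⊤ := by
  obtain ⟨a, ha⟩ := hF
  have hj : star (a - star a) = -(a - star a) := by rw [star_sub, star_star, neg_sub]
  have hj0 : a - star a ≠ 0 := sub_ne_zero.2 ha.symm
  refine top_le_iff.1 fun y _ => ?_
  have h1 := S.mul_mem (h ((y + star y) * (a - star a)) (by
    rw [star_mul', hj, star_add, star_star]; ring)) (U3.inv_mem_sub S (h _ hj))
  rw [mul_inv_cancel_right₀ hj0] at h1
  have h2 := h (y - (y + star y) * t) (by
    rw [star_sub, star_mul', star_add, star_star]; linear_combination -(y + star y) * ht)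
  simpa using S.add_mem h2 (S.mul_mem h1 hS)

theorem ufield_top (hF : ∃ a : F, star a ≠ a) (S : Subring F)
    (h : ∀ u, u * star u = 1 → u ∈ S) : S = ⊤ := by
  have h1 : ∀ x : F, x + star x = 1 → x ∈ S := fun x hx => by
    have h0 : x ≠ 0 := fun e => by simp [e] at hx
    have h0' := star_ne_zero.2 h0
    have h2 := h _ (U3.norm_div h0)
    have h3 := S.mul_mem h2 (U3.inv_mem_sub S (S.add_mem h2 S.one_mem))
    rwa [div_add_one h0', hx, one_div, inv_inv, div_mul_cancel₀ _ h0'] at h3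
  obtain ⟨t, ht⟩ := exists_tr hF
  refine ufield_zero hF S ht (h1 t ht) fun y hy => ?_
  simpa using S.sub_mem (h1 (y + t) (by rw [star_add, hy]; linear_combination ht)) (h1 t ht)

omit [Finite F] in
theorem ufield_inj (h3 : (3 : F) = 0) {j : F} (h0 : j ≠ 0) (hj : star j = -j) :
    Function.Injective fun p : Fin 3 × Fin 3 => ((p.1 : ℕ) : F) + ((p.2 : ℕ) : F) * j := by
  have : CharP F 3 := (CharP.charP_iff_prime_eq_zero Nat.prime_three).2 h3
  rintro ⟨x, y⟩ ⟨x', y'⟩ e
  have e' := congrArg star e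
  simp only [star_add, star_mul', star_natCast, hj] at e e'
  have e1 : ((x : ℕ) : F) = (x' : ℕ) := by
    linear_combination -e - e' + (((x : ℕ) : F) - (x' : ℕ)) * h3
  have e2 : ((y : ℕ) : F) = (y' : ℕ) := mul_right_cancel₀ h0 (by linear_combination e - e1)
  exact Prod.ext (Fin.ext (CharP.natCast_injOn_Iio F 3 x.2 x'.2 e1))
    (Fin.ext (CharP.natCast_injOn_Iio F 3 y.2 y'.2 e2))

omit [StarRing F] in
theorem ufield_sqrt (h2 : (2 : F) = 0) (a : F) : ∃ b, b * b = a :=
  (Finite.injective_iff_surjective (f := fun b : F => b * b)).1 (fun x y e =>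
    (mul_self_eq_mul_self_iff.1 e).elim id fun h => by linear_combination h - y * h2) a

/-- `l = t g / (g + star g)`, `g` a generator of `Fˣ`: a subring with `star l` contains `l`, all
`x / star x`, all elements of trace one `x / (x + star x) = u / (u + 1)`, hence everything. -/
theorem exists_lam (hF : ∃ a : F, star a ≠ a) {t : F} (ht : t = 1 ∨ t = -1) :
    ∃ l : F, l + star l = t ∧ l ≠ 0 ∧ Gen (star l) := by
  obtain ⟨g, h0, h1, -, h2⟩ := ufield_gen hF
  have h0' := star_ne_zero.2 h0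
  have ht0 : t ≠ 0 := by rcases ht with rfl | rfl <;> simp
  have e : star (t * g / (g + star g)) = t * star g / (g + star g) := by
    rw [star_div₀, star_add, star_star, add_comm (star g) g, star_mul']
    rcases ht with rfl | rfl <;> simp
  have e1 : t * g / (g + star g) + star (t * g / (g + star g)) = t := by
    rw [e]
    field_simp
  refine ⟨_, e1, div_ne_zero (mul_ne_zero ht0 h0) h1, fun S hS => ufield_top hF S fun u hu => ?_⟩
  have m1 : t ∈ S := by
    rcases ht with rfl | rfl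
    exacts [S.one_mem, S.neg_mem S.one_mem]
  have m2 := S.mul_mem (S.sub_mem m1 hS) (U3.inv_mem_sub S hS)
  rw [← eq_sub_of_add_eq e1, e] at m2
  obtain ⟨k, rfl⟩ := h2 u hu
  refine S.pow_mem ?_ k
  convert m2 using 1
  field_simp

theorem exists_i (hF : ∃ a : F, star a ≠ a) :
    ∃ i : F, i * i = -1 ∧ (star i = i ∨ star i = -i) := by
  obtain ⟨g, -, -, h, -⟩ := ufield_gen hF
  have key : ∀ y : F, y ≠ 0 → star (y * y) = -(y * y) → ∃ i : F, i * i = -1 := fun y h0 hy =>
    ⟨y / star y, by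
      rw [div_mul_div_comm, ← star_mul', hy, div_neg, div_self (mul_ne_zero h0 h0)]⟩
  obtain ⟨i, hi⟩ : ∃ i : F, i * i = -1 := by
    obtain ⟨a, ha⟩ := hF
    have hj : star (a - star a) = -(a - star a) := by rw [star_sub, star_star, neg_sub]
    have hj0 : a - star a ≠ 0 := sub_ne_zero.2 ha.symm
    obtain ⟨k, hk⟩ := h (-1) (by simp)
    obtain ⟨m, hm⟩ := h _ hj0
    rcases Nat.even_or_odd' k with ⟨k, rfl | rfl⟩
    · exact ⟨g ^ k, by rw [hk]; ring⟩
    rcases Nat.even_or_odd' m with ⟨m, rfl | rfl⟩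
    · have e : g ^ m * g ^ m = a - star a := by rw [hm]; ring
      exact key (g ^ m) (fun e' => hj0 (by rw [← e, e', mul_zero])) (by rw [e, hj])
    · have e : g ^ (m + k + 1) * g ^ (m + k + 1) = -(a - star a) := by
        rw [← neg_one_mul, hk, hm]; ring
      exact key (g ^ (m + k + 1)) (fun e' => neg_ne_zero.2 hj0 (by rw [← e, e', mul_zero]))
        (by rw [e, star_neg, hj])
  exact ⟨i, hi, mul_self_eq_mul_self_iff.1 (by rw [← star_mul', hi, star_neg, star_one])⟩

omit [Finite F] in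
theorem exists_iota (hF : ∃ a : F, star a ≠ a) : ∃ j : F, j ≠ 0 ∧ star j = -j := by
  obtain ⟨a, ha⟩ := hF
  exact ⟨a - star a, sub_ne_zero.2 ha.symm, by rw [star_sub, star_star, neg_sub]⟩

/-- `a / star a` generates the group of norm one. Its square generates the field unless `q = 3`
(`q` even: the group has odd order; `q` odd: a subring with all squares of norm one elements
contains `y + 1/y` for all `y ≠ 0` with `star y = -y`; count, or use the orders of subfields). -/
theorem exists_al (hF : ∃ a : F, star a ≠ a) :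
    ∃ a : F, a ≠ 0 ∧ Gen (a / star a) ∧ (∀ u, u * star u = 1 → ∃ k : ℕ, u = (a / star a) ^ k) ∧
      (Nat.card F ≠ 9 → Gen ((a / star a) ^ 2)) := by
  obtain ⟨g, h0, -, -, h2⟩ := ufield_gen hF
  refine ⟨g, h0, fun S hS => ufield_top hF S fun u hu => ?_, h2, fun h9 S hS => ?_⟩
  · obtain ⟨k, rfl⟩ := h2 u hu
    exact S.pow_mem hS k
  have sq : ∀ w, w * star w = 1 → w ^ 2 ∈ S := fun w hw => by
    obtain ⟨k, rfl⟩ := h2 w hw
    rw [← pow_mul, mul_comm, pow_mul]
    exact S.pow_mem hS k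
  by_cases c2 : (2 : F) = 0
  · refine ufield_top hF S fun u hu => ?_
    obtain ⟨w, rfl⟩ := ufield_sqrt c2 u
    rw [← pow_two]
    refine sq w (sub_eq_zero.1 (pow_eq_zero_iff two_ne_zero |>.1 ?_))
    rw [star_mul'] at hu
    linear_combination hu + (1 - w * star w) * c2
  have m2 : (2 : F) ∈ S := by simp
  have f : ∀ y, star y = -y → y ≠ 0 → y + y⁻¹ ∈ S := fun y hy hy0 => by
    have e1 : 1 + y ≠ 0 := fun e => by
      have e' := congrArg star e
      rw [star_add, star_one, hy, star_zero] at e'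
      exact c2 (by linear_combination e + e')
    have e2 : star (1 + y) = 1 - y := by rw [star_add, star_one, hy, sub_eq_add_neg]
    have e3 : 1 - y ≠ 0 := e2 ▸ star_ne_zero.2 e1
    have a1 := sq _ (U3.norm_div e1)
    rw [e2] at a1
    have a2 := S.mul_mem (S.mul_mem m2 (S.add_mem a1 S.one_mem))
      (U3.inv_mem_sub S (S.sub_mem a1 S.one_mem))
    have e4 : ((1 + y) / (1 - y)) ^ 2 - 1 = 2 * 2 * y / (1 - y) ^ 2 := by
      field_simp
      ring
    rw [e4] at a2
    convert a2 using 1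
    field_simp
    ring
  obtain ⟨s, s0, s1, s2, s3⟩ : ∃ s : F, star s = s ∧ s ≠ 0 ∧ 1 + s ≠ 0 ∧ s ^ 2 + s + 1 ≠ 0 := by
    by_cases c3 : (3 : F) = 0
    · obtain ⟨j, hj0, hj⟩ := exists_iota hF
      have h1 := Nat.card_le_card_of_injective _ (ufield_inj c3 hj0 hj)
      rw [Nat.card_prod, Nat.card_eq_fintype_card (α := Fin 3), Fintype.card_fin] at h1
      obtain ⟨s, a1, a2, a3, a4⟩ := U3.exists_fixed hF (by omega)
      refine ⟨s, a1, a2, fun e => a4 (by linear_combination e), fun e => a3 ?_⟩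
      exact sub_eq_zero.1 (pow_eq_zero_iff two_ne_zero |>.1 (by linear_combination e - s * c3))
    · exact ⟨1, star_one _, one_ne_zero, fun e => c2 (by linear_combination e),
        fun e => c3 (by linear_combination e)⟩
  refine ufield_zero hF S (t := 2⁻¹) (by rw [star_inv₀, star_ofNat]; field_simp; norm_num)
    (U3.inv_mem_sub S m2) fun z hz => ?_
  by_cases z0 : z = 0
  · exact z0 ▸ S.zero_mem
  obtain ⟨y, hy⟩ : ∃ y, y = (s ^ 2 + s + 1) / (s * (1 + s) * z) := ⟨_, rfl⟩
  have y0 : y ≠ 0 := hy ▸ div_ne_zero s3 (mul_ne_zero (mul_ne_zero s1 s2) z0)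
  have y1 : star y = -y := by
    simp only [hy, star_div₀, star_add, star_mul', star_pow, star_one, s0, hz, mul_neg, div_neg]
  have a := S.sub_mem (S.add_mem (f y y1 y0)
    (f (s * y) (by rw [star_mul', s0, y1, mul_neg]) (mul_ne_zero s1 y0)))
    (f ((1 + s) * y) (by rw [star_mul', star_add, star_one, s0, y1, mul_neg]) (mul_ne_zero s2 y0))
  convert a using 1
  have e : z = (s ^ 2 + s + 1) / (s * (1 + s) * y) := by
    rw [eq_div_iff (mul_ne_zero (mul_ne_zero s1 s2) y0),
      ← (eq_div_iff (mul_ne_zero (mul_ne_zero s1 s2) z0)).1 hy]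
    ring
  rw [e]
  field_simp
  ring

omit [StarRing F] in
theorem exists_sqrt (h2 : (2 : F) = 0) (a : F) : ∃ b, b * b = a :=
  ufield_sqrt h2 a

omit [StarRing F] in
theorem exists_half (h2 : (2 : F) ≠ 0) : ∃ n : ℕ, (n : F) * 2 = 1 := by
  obtain ⟨n, hn, e⟩ := (isOfFinOrder_of_finite (Units.mk0 2 h2)).exists_pow_eq_one
  obtain ⟨m, rfl⟩ := Nat.exists_eq_succ_of_ne_zero hn.ne'
  exact ⟨2 ^ m, by simpa [pow_succ] using congrArg Units.val e⟩

theorem nine (hF : ∃ a : F, star a ≠ a) (h9 : Nat.card F = 9) : (3 : F) = 0 ∧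
    ∃ i : F, i * i = -1 ∧ star i = -i ∧ ∀ a : F, ∃ x y : ℕ, a = x + y * i := by
  have := Fintype.ofFinite F
  have h3 : (3 : F) = 0 := by
    have h := FiniteField.cast_card_eq_zero F
    rw [← Nat.card_eq_fintype_card, h9] at h
    exact pow_eq_zero_iff two_ne_zero |>.1 (by push_cast at h; linear_combination h)
  obtain ⟨j, h0, hj⟩ := exists_iota hF
  have hs := ((Nat.bijective_iff_injective_and_card _).2 ⟨ufield_inj h3 h0 hj, by
    rw [h9, Nat.card_prod, Nat.card_eq_fintype_card (α := Fin 3), Fintype.card_fin]⟩).2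
  refine ⟨h3, j, ?_, hj, fun a => ?_⟩
  · obtain ⟨⟨x, y⟩, e⟩ := hs (j * j)
    have e' := congrArg star e
    simp only [star_add, star_mul', star_natCast, hj] at e e'
    have e1 : j * j = (x : ℕ) := by linear_combination e + e' + (j * j - (x : ℕ)) * h3
    fin_cases x
    · exact absurd (mul_self_eq_zero.1 (by simpa using e1)) h0
    · have e2 : j * j = 1 := by simpa using e1
      rcases mul_self_eq_one_iff.1 e2 with rfl | rfl
      · rw [star_one] at hj
        exact absurd (by linear_combination h3 - hj) h0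
      · rw [star_neg, star_one] at hj
        exact absurd (by linear_combination -h3 - hj) h0
    · have e2 : j * j = 2 := by simpa using e1
      linear_combination e2 + h3
  · obtain ⟨⟨x, y⟩, e⟩ := hs a
    exact ⟨x, y, e.symm⟩

end Pool.Agent.Lib.MP_cad414_al.Cg.UU
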