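import Pool.Agent.Lib.MP_cad414_al.Cg.U3F
import Pool.Agent.Lib.MP_cad414_al.Cg.UField

/-! The special unitary group is generated by the Eichler maps of a hyperbolic pair. -/

namespace Pool.Agent.Lib.MP_cad414_al.Cg.UM

open Matrix U3

variable {F : Type} [Field F] [StarRing F] {n : ℕ}

/-- The standard hermitian form. -/
def h (x y : Fin n → F) : F := x ⬝ᵥ star y

theorem h_add_left (x y z : Fin n → F) : h (x + y) z = h x z + h y z := add_dotProduct _ _ _
theorem h_sub_left (x y z : Fin n → F) : h (x - y) z = h x z - h y z := sub_dotProduct _ _ _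
theorem h_neg_left (x z : Fin n → F) : h (-x) z = -h x z := neg_dotProduct _ _
theorem h_smul_left (c : F) (x z : Fin n → F) : h (c • x) z = c * h x z := smul_dotProduct _ _ _
theorem h_zero_left (z : Fin n → F) : h 0 z = 0 := zero_dotProduct _
theorem star_h (x y : Fin n → F) : star (h x y) = h y x := by
  rw [h, h, ← star_dotProduct_star, star_star, dotProduct_comm]
theorem h_add_right (x y z : Fin n → F) : h x (y + z) = h x y + h x z := by
  rw [h, star_add, dotProduct_add]; rfl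
theorem h_sub_right (x y z : Fin n → F) : h x (y - z) = h x y - h x z := by
  rw [h, star_sub, dotProduct_sub]; rfl
theorem h_neg_right (x y : Fin n → F) : h x (-y) = -h x y := by
  rw [h, star_neg, dotProduct_neg]; rfl
theorem h_smul_right (c : F) (x y : Fin n → F) : h x (c • y) = star c * h x y := by
  rw [h, star_smul, dotProduct_smul]; rfl
theorem h_single_right (x : Fin n → F) (i : Fin n) : h x (Pi.single i 1) = x i := by
  rw [h, ← Pi.single_star, star_one, dotProduct_single, mul_one]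
theorem h_swap {x y : Fin n → F} {c : F} (e : h x y = c) : h y x = star c := by
  rw [← e, star_h]
theorem h_swap0 {x y : Fin n → F} (e : h x y = 0) : h y x = 0 := by rw [h_swap e, star_zero]

theorem h_su (A : specialUnitaryGroup (Fin n) F) (x y : Fin n → F) :
    h (A.1 *ᵥ x) (A.1 *ᵥ y) = h x y := by
  have e : A.1ᴴ * A.1 = 1 := mem_unitaryGroup_iff'.1 (mem_specialUnitaryGroup_iff.1 A.2).1
  rw [h, star_mulVec, dotProduct_comm, dotProduct_mulVec, vecMul_vecMul, e, vecMul_one,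
    dotProduct_comm, h]

theorem mul_vec (A B : specialUnitaryGroup (Fin n) F) (x : Fin n → F) :
    (A * B).1 *ᵥ x = A.1 *ᵥ (B.1 *ᵥ x) := (mulVec_mulVec _ _ _).symm

theorem inv_vec (A : specialUnitaryGroup (Fin n) F) (x : Fin n → F) :
    A⁻¹.1 *ᵥ (A.1 *ᵥ x) = x := by rw [← mul_vec, inv_mul_cancel]; exact one_mulVec x

theorem vec_inv (A : specialUnitaryGroup (Fin n) F) (x : Fin n → F) :
    A.1 *ᵥ (A⁻¹.1 *ᵥ x) = x := by rw [← mul_vec, mul_inv_cancel]; exact one_mulVec x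

/-- `L` contains the Eichler map of `s, w, g`. -/
def HasT (L : Subgroup (specialUnitaryGroup (Fin n) F)) (s w : Fin n → F) (g : F) : Prop :=
  ∃ A ∈ L, ∀ x, A.1 *ᵥ x = x + h x s • w - h x w • s - (g * h x s) • s

def Orb (L : Subgroup (specialUnitaryGroup (Fin n) F)) (u v : Fin n → F) : Prop :=
  ∃ A ∈ L, A.1 *ᵥ u = v

variable {L : Subgroup (specialUnitaryGroup (Fin n) F)} {u v z s s1 w0 : Fin n → F}
  {W : Submodule F (Fin n → F)}

theorem Orb.symm (p : Orb L u v) : Orb L v u := by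
  obtain ⟨A, hA, rfl⟩ := p
  exact ⟨A⁻¹, L.inv_mem hA, inv_vec A u⟩

theorem Orb.trans (p : Orb L u v) (q : Orb L v z) : Orb L u z := by
  obtain ⟨A, hA, rfl⟩ := p
  obtain ⟨B, hB, rfl⟩ := q
  exact ⟨B * A, L.mul_mem hB hA, mul_vec _ _ _⟩

theorem Orb.norm (p : Orb L u v) : h v v = h u u := by
  obtain ⟨A, -, rfl⟩ := p
  exact h_su A u u

theorem tr_surj (hF : ∃ a : F, star a ≠ a) {d : F} (hd : star d = d) : ∃ c : F, c + star c = d := by
  obtain ⟨x, hx⟩ : ∃ x : F, x + star x ≠ 0 := by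
    by_contra hc
    have h1 : ∀ x : F, x + star x = 0 := fun x => not_not.1 fun e => hc ⟨x, e⟩
    obtain ⟨a, ha⟩ := hF
    have h2 := h1 1
    rw [star_one] at h2
    exact ha (by linear_combination h1 a - a * h2)
  refine ⟨d * x / (x + star x), ?_⟩
  rw [star_div₀, star_mul', hd, star_add, star_star, add_comm (star x) x]
  field_simp

/-- All Eichler maps of `s` with second vector in `W` orthogonal to the pair. -/
def AllT (L : Subgroup (specialUnitaryGroup (Fin n) F)) (W : Submodule F (Fin n → F))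
    (s s1 : Fin n → F) : Prop :=
  ∀ w ∈ W, ∀ g, h w s = 0 → h w s1 = 0 → g + star g = h w w → HasT L s w g

theorem proj (hs : h s s = 0) (hs1 : h s1 s1 = 0) (h1 : h s s1 = 1) (x : Fin n → F) :
    h (x - h x s1 • s - h x s • s1) s = 0 ∧ h (x - h x s1 • s - h x s • s1) s1 = 0 := by
  have h2 := h_swap h1
  rw [star_one] at h2
  simp only [h_sub_left, h_smul_left, hs, hs1, h1, h2]
  constructor <;> ring

theorem orb2 (hs : h s s = 0) (hs1 : h s1 s1 = 0) (h1 : h s s1 = 1) (sW : s ∈ W) (s1W : s1 ∈ W)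
    (hT : AllT L W s s1) (vW : v ∈ W) (hv : h v s = 1) {c : F} (hc : c + star c = h v v) :
    Orb L v (s1 + c • s) := by
  obtain ⟨p1, p2⟩ := proj hs hs1 h1 v
  obtain ⟨w, hw⟩ : ∃ w, w = v - h v s1 • s - h v s • s1 := ⟨_, rfl⟩
  have wW : w ∈ W := hw ▸ W.sub_mem (W.sub_mem vW (W.smul_mem _ sW)) (W.smul_mem _ s1W)
  rw [← hw] at p1 p2
  have e1 : h w w = h w v := by
    conv_lhs => rw [show h w w = h w (v - h v s1 • s - h v s • s1) by rw [← hw]]
    rw [h_sub_right, h_sub_right, h_smul_right, h_smul_right, p1, p2]; ring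
  have e2 : h v w = h w w := by rw [← star_h w w, e1, star_h]
  have e3 : h v w = h v v - h v s1 - star (h v s1) := by
    conv_lhs => rw [hw]
    rw [h_sub_right, h_sub_right, h_smul_right, h_smul_right, hv, star_one]; ring
  obtain ⟨A, hA, e⟩ := hT (-w) (W.neg_mem wW) (h v s1 + h w w - c) (by rw [h_neg_left, p1, neg_zero])
    (by rw [h_neg_left, p2, neg_zero]) (by
      rw [h_neg_left, h_neg_right, neg_neg, star_sub, star_add, star_h w w]
      linear_combination e3 - e2 - hc)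
  refine ⟨A, hA, ?_⟩
  rw [e, h_neg_right, e2, hv]
  rw [hv] at hw
  linear_combination (norm := module) -hw

theorem orb1 [Finite F] (hF : ∃ a : F, star a ≠ a) (h1 : h s s1 = 1) (s1W : s1 ∈ W)
    (hT : AllT L W s1 s) (w0W : w0 ∈ W) (p0 : h w0 s = 0) (p1 : h w0 s1 = 0) (p2 : h w0 w0 ≠ 0)
    (vW : v ∈ W) (hv : h v s1 ≠ 0) : ∃ u ∈ W, Orb L v u ∧ h u s = 1 := by
  have h2 := h_swap h1
  rw [star_one] at h2
  have p3 := star_h w0 w0
  obtain ⟨k, hk⟩ : ∃ k, k = h v w0 / h v s1 := ⟨_, rfl⟩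
  obtain ⟨t, ht⟩ : ∃ t, t = (h v s - 1) / h v s1 := ⟨_, rfl⟩
  obtain ⟨r, hr⟩ := norm_surj hF (s := (t + star t + k * star k / h w0 w0) / h w0 w0) (by
    simp only [star_div₀, star_add, star_mul', star_star, p3]; ring)
  obtain ⟨l, hl⟩ : ∃ l, l = r - k / h w0 w0 := ⟨_, rfl⟩
  obtain ⟨A, hA, e⟩ := hT (l • w0) (W.smul_mem _ w0W) (t - star l * k)
    (by rw [h_smul_left, p1, mul_zero]) (by rw [h_smul_left, p0, mul_zero]) (by
      rw [h_smul_left, h_smul_right, hl]
      simp only [star_div₀, star_sub, star_mul', star_star, p3]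
      field_simp at hr ⊢
      linear_combination -hr)
  refine ⟨_, ?_, ⟨A, hA, rfl⟩, ?_⟩
  · rw [e]
    exact W.sub_mem (W.sub_mem (W.add_mem vW (W.smul_mem _ (W.smul_mem _ w0W))) (W.smul_mem _ s1W))
      (W.smul_mem _ s1W)
  · rw [e]
    simp only [h_sub_left, h_add_left, h_smul_left, h_smul_right, p0, h2]
    rw [hk, ht]
    field_simp
    ring

theorem orb0 [Finite F] (hF : ∃ a : F, star a ≠ a) (hs : h s s = 0) (hs1 : h s1 s1 = 0)
    (h1 : h s s1 = 1) (sW : s ∈ W) (s1W : s1 ∈ W) (hT : AllT L W s s1)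
    (hT1 : AllT L W s1 s) (w0W : w0 ∈ W) (p0 : h w0 s = 0) (p1 : h w0 s1 = 0) (p2 : h w0 w0 ≠ 0)
    (vW : v ∈ W) (hv : ∃ x ∈ W, h v x ≠ 0) : ∃ u ∈ W, Orb L v u ∧ h u s = 1 := by
  have h2 := h_swap h1
  rw [star_one] at h2
  have key : ∀ v ∈ W, h v s ≠ 0 → ∃ u ∈ W, Orb L v u ∧ h u s = 1 := fun v vW e => by
    obtain ⟨u, uW, o, e1⟩ := orb1 hF h2 sW hT w0W p1 p0 p2 vW e
    obtain ⟨u', uW', o', e2⟩ := orb1 hF h1 s1W hT1 w0W p0 p1 p2 uW (by rw [e1]; exact one_ne_zero)
    exact ⟨u', uW', o.trans o', e2⟩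
  by_cases a : h v s1 = 0
  · by_cases b : h v s = 0
    · obtain ⟨x, xW, hx⟩ := hv
      obtain ⟨q1, q2⟩ := proj hs hs1 h1 x
      obtain ⟨g, hg⟩ := tr_surj hF (star_h (x - h x s1 • s - h x s • s1) _)
      have wW := W.sub_mem (W.sub_mem xW (W.smul_mem (h x s1) sW)) (W.smul_mem (h x s) s1W)
      obtain ⟨A, hA, e⟩ := hT _ wW g q1 q2 hg
      have e1 : h (A.1 *ᵥ v) s1 ≠ 0 := by
        rw [e]
        simpa only [h_sub_left, h_add_left, h_smul_left, h_smul_right, h_sub_right, a, b, h1,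
          zero_mul, mul_zero, add_zero, sub_zero, zero_sub, mul_one, neg_ne_zero] using hx
      obtain ⟨u, uW, o, e2⟩ := orb1 hF h1 s1W hT1 w0W p0 p1 p2 (v := A.1 *ᵥ v) (by
        rw [e]
        exact W.sub_mem (W.sub_mem (W.add_mem vW (W.smul_mem _ wW)) (W.smul_mem _ sW))
          (W.smul_mem _ sW)) e1
      exact ⟨u, uW, Orb.trans ⟨A, hA, rfl⟩ o, e2⟩
    · exact key v vW b
  · exact orb1 hF h1 s1W hT1 w0W p0 p1 p2 vW a

/-- Transitivity on the vectors of a given norm. -/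
theorem orb [Finite F] (hF : ∃ a : F, star a ≠ a) (hs : h s s = 0) (hs1 : h s1 s1 = 0)
    (h1 : h s s1 = 1) (sW : s ∈ W) (s1W : s1 ∈ W) (hT : AllT L W s s1)
    (hT1 : AllT L W s1 s) (w0W : w0 ∈ W) (p0 : h w0 s = 0) (p1 : h w0 s1 = 0) (p2 : h w0 w0 ≠ 0)
    (vW : v ∈ W) (hv : ∃ x ∈ W, h v x ≠ 0) (uW : u ∈ W) (hu : ∃ x ∈ W, h u x ≠ 0)
    (e : h u u = h v v) : Orb L u v := by
  obtain ⟨c, hc⟩ := tr_surj hF (star_h v v)
  obtain ⟨v', vW', o, e1⟩ := orb0 hF hs hs1 h1 sW s1W hT hT1 w0W p0 p1 p2 vW hv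
  obtain ⟨u', uW', o', e2⟩ := orb0 hF hs hs1 h1 sW s1W hT hT1 w0W p0 p1 p2 uW hu
  exact (o'.trans (orb2 hs hs1 h1 sW s1W hT uW' e2 (by rw [o'.norm, e, hc]))).trans
    (o.trans (orb2 hs hs1 h1 sW s1W hT vW' e1 (by rw [o.norm, hc]))).symm

theorem nondeg (hv : v ≠ 0) : ∃ i, h v (Pi.single i 1) ≠ 0 := by
  obtain ⟨i, hi⟩ := Function.ne_iff.1 hv
  exact ⟨i, by rwa [h_single_right]⟩

theorem exists_w0 (hF : ∃ a : F, star a ≠ a) (hn : 3 ≤ n) (hs : h s s = 0) (hs1 : h s1 s1 = 0)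
    (h1 : h s s1 = 1) : ∃ w0, h w0 s = 0 ∧ h w0 s1 = 0 ∧ h w0 w0 ≠ 0 := by
  by_contra hc
  have c1 : ∀ w, h w s = 0 → h w s1 = 0 → h w w = 0 := fun w p q => not_not.1 fun e =>
    hc ⟨w, p, q, e⟩
  have c2 : ∀ w x, h w s = 0 → h w s1 = 0 → h x s = 0 → h x s1 = 0 → h w x + star (h w x) = 0 :=
    fun w x p q p' q' => by
      have := c1 (w + x) (by rw [h_add_left, p, p', add_zero]) (by rw [h_add_left, q, q', add_zero])
      rw [h_add_left, h_add_right, h_add_right, c1 w p q, c1 x p' q'] at this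
      rw [star_h]
      linear_combination this
  have c3 : ∀ x, x = h x s1 • s + h x s • s1 := fun x => by
    obtain ⟨p, q⟩ := proj hs hs1 h1 x
    rw [← sub_eq_zero, ← sub_sub]
    generalize x - h x s1 • s - h x s • s1 = w at p q
    by_contra hw
    obtain ⟨i, hi⟩ := nondeg hw
    obtain ⟨a, ha⟩ := hF
    obtain ⟨p', q'⟩ := proj hs hs1 h1 (Pi.single i 1)
    have e1 := c2 w _ p q p' q'
    have e2 := c2 (a • w) _ (by rw [h_smul_left, p, mul_zero]) (by rw [h_smul_left, q, mul_zero])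
      p' q'
    simp only [h_sub_right, h_smul_right, h_smul_left, p, q, mul_zero, sub_zero, star_mul'] at e1 e2
    exact mul_ne_zero (sub_ne_zero.2 ha) hi (by linear_combination star a * e1 - e2)
  have c4 : Submodule.span F (Set.range ![s, s1]) = ⊤ := top_le_iff.1 fun x _ => by
    rw [c3 x]
    exact add_mem (Submodule.smul_mem _ _ (Submodule.subset_span ⟨0, rfl⟩))
      (Submodule.smul_mem _ _ (Submodule.subset_span ⟨1, rfl⟩))
  have c5 := finrank_range_le_card (R := F) ![s, s1]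
  rw [Set.finrank, c4, finrank_top, Module.finrank_fin_fun, Fintype.card_fin] at c5
  omega

/-- Every Eichler map lies in `L`. -/
theorem all_T [Finite F] (hF : ∃ a : F, star a ≠ a) (hn : 3 ≤ n) (hs : h s s = 0)
    (hs1 : h s1 s1 = 0) (h1 : h s s1 = 1) (hT : AllT L ⊤ s s1) (hT1 : AllT L ⊤ s1 s)
    {r w : Fin n → F} {g : F} (r0 : r ≠ 0) (hr : h r r = 0) (hw : h w r = 0)
    (hg : g + star g = h w w) : HasT L r w g := by
  obtain ⟨w0, p0, p1, p2⟩ := exists_w0 hF hn hs hs1 h1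
  obtain ⟨i, hi⟩ := nondeg r0
  obtain ⟨A, hA, rfl⟩ := orb (W := ⊤) hF hs hs1 h1 trivial trivial hT hT1 trivial p0 p1 p2 (v := r) trivial
    ⟨_, trivial, hi⟩ (u := s) trivial ⟨s1, trivial, by rw [h1]; exact one_ne_zero⟩ (hs.trans hr.symm)
  obtain ⟨y, rfl⟩ : ∃ y, w = A.1 *ᵥ y := ⟨_, (vec_inv A w).symm⟩
  rw [h_su] at hw hg
  have hw' := h_swap0 hw
  obtain ⟨B, hB, e⟩ := hT (y - h y s1 • s) trivial (g - h y s1 + star (h y s1))
    (by rw [h_sub_left, h_smul_left, hw, hs]; ring) (by rw [h_sub_left, h_smul_left, h1]; ring) (by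
      simp only [h_sub_left, h_sub_right, h_smul_left, h_smul_right, hs, hw, hw', star_add, star_sub,
        star_star]
      linear_combination hg)
  refine ⟨A * B * A⁻¹, L.mul_mem (L.mul_mem hA hB) (L.inv_mem hA), fun x => ?_⟩
  obtain ⟨x, rfl⟩ : ∃ y, x = A.1 *ᵥ y := ⟨_, (vec_inv A x).symm⟩
  rw [mul_vec, mul_vec, inv_vec, e, h_su, h_su]
  simp only [mulVec_sub, mulVec_add, mulVec_smul, h_sub_right, h_smul_right]
  module

/-- The elements of `L` that fix the vectors of `S`. -/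
def Fx (L : Subgroup (specialUnitaryGroup (Fin n) F)) (S : Set (Fin n → F)) :
    Subgroup (specialUnitaryGroup (Fin n) F) where
  carrier := {A | A ∈ L ∧ ∀ y ∈ S, A.1 *ᵥ y = y}
  one_mem' := ⟨L.one_mem, fun y _ => one_mulVec y⟩
  mul_mem' := fun {A B} p q => ⟨L.mul_mem p.1 q.1, fun y hy => by rw [mul_vec, q.2 y hy, p.2 y hy]⟩
  inv_mem' := fun {A} p => ⟨L.inv_mem p.1, fun y hy => by
    conv_lhs => rw [← p.2 y hy]
    exact inv_vec A y⟩

/-- Vectors supported on the first `k` coordinates. -/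
def Wk (F : Type) [Field F] (n k : ℕ) : Submodule F (Fin n → F) where
  carrier := {x | ∀ j : Fin n, k ≤ j.1 → x j = 0}
  zero_mem' := fun _ _ => rfl
  add_mem' := fun {x y} p q j hj => by rw [Pi.add_apply, p j hj, q j hj, add_zero]
  smul_mem' := fun c x p j hj => by rw [Pi.smul_apply, p j hj, smul_zero]

theorem top_of_all [Finite F] (hF : ∃ a : F, star a ≠ a) (hn : 3 ≤ n)
    (hall : ∀ r w g, r ≠ 0 → h r r = 0 → h w r = 0 → g + star g = h w w → HasT L r w g) :
    L = ⊤ := by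
  obtain ⟨b, hb⟩ := norm_surj hF (s := -1) (by rw [star_neg, star_one])
  obtain ⟨t, ht⟩ := tr_surj hF (star_one F)
  have b0 : b ≠ 0 := fun e => by simp [e] at hb
  obtain ⟨i0, hi0⟩ : ∃ i : Fin n, i.1 = 0 := ⟨⟨0, by omega⟩, rfl⟩
  obtain ⟨i1, hi1⟩ : ∃ i : Fin n, i.1 = 1 := ⟨⟨1, by omega⟩, rfl⟩
  obtain ⟨i2, hi2⟩ : ∃ i : Fin n, i.1 = 2 := ⟨⟨2, by omega⟩, rfl⟩
  have n01 : i0 ≠ i1 := fun e => by rw [e] at hi0; omega
  have n02 : i0 ≠ i2 := fun e => by rw [e] at hi0; omega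
  have n12 : i1 ≠ i2 := fun e => by rw [e] at hi1; omega
  obtain ⟨s, es⟩ : ∃ s : Fin n → F, s = Pi.single i0 1 + b • Pi.single i1 1 := ⟨_, rfl⟩
  obtain ⟨s1, es1⟩ : ∃ s : Fin n → F, s = t • Pi.single i0 1 - (star t * b) • Pi.single i1 1 :=
    ⟨_, rfl⟩
  have hx : ∀ x, h x s = x i0 + star b * x i1 := fun x => by
    rw [es, h_add_right, h_smul_right, h_single_right, h_single_right]
  have hx1 : ∀ x, h x s1 = star t * x i0 - t * star b * x i1 := fun x => by
    rw [es1, h_sub_right, h_smul_right, h_smul_right, h_single_right, h_single_right, star_mul',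
      star_star]
  have hs : h s s = 0 := by rw [hx, es]; simp [n01, n01.symm]; linear_combination hb
  have hs1 : h s1 s1 = 0 := by
    rw [hx1, es1]; simp [n01, n01.symm]; linear_combination (t * star t) * hb
  have h1 : h s s1 = 1 := by
    rw [hx1, es]; simp [n01, n01.symm]; linear_combination ht - t * hb
  have h2 : h s1 s = 1 := by rw [h_swap h1, star_one]
  have s0 : s ≠ 0 := fun e => by rw [e, h_zero_left] at h1; exact zero_ne_one h1
  have s10 : s1 ≠ 0 := fun e => by rw [e, h_zero_left] at h2; exact zero_ne_one h2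
  have fx : ∀ (S : Set (Fin n → F)) (W : Submodule F (Fin n → F)) r r', r ≠ 0 → h r r = 0 →
      (∀ y ∈ S, h y r = 0 ∧ ∀ w ∈ W, h w r = 0 → h y w = 0) → AllT (Fx L S) W r r' :=
    fun S W r r' r0 hr hS w wW g p _ q => by
      obtain ⟨A, hA, e⟩ := hall r w g r0 hr p q
      exact ⟨A, ⟨hA, fun y hy => by rw [e, (hS y hy).1, (hS y hy).2 w wW p]; simp⟩, e⟩
  have eW : ∀ k (i : Fin n), i.1 < k → Pi.single i (1 : F) ∈ Wk F n k := fun k i hi j hj =>
    Pi.single_eq_of_ne (fun e => by rw [e] at hj; omega) _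
  have mv : ∀ k, 3 ≤ k → ∀ (A : specialUnitaryGroup (Fin n) F) (v : Fin n → F), v ∈ Wk F n k →
      v ≠ 0 → (∀ j : Fin n, k ≤ j.1 → A.1 *ᵥ Pi.single j 1 = Pi.single j 1) →
      ∃ B ∈ L, (B * A).1 *ᵥ v = v ∧
        ∀ j : Fin n, k ≤ j.1 → (B * A).1 *ᵥ Pi.single j 1 = Pi.single j 1 :=
    fun k hk A v vW v0 hA => by
      have sW : s ∈ Wk F n k :=
        es ▸ add_mem (eW k i0 (by omega)) (Submodule.smul_mem _ _ (eW k i1 (by omega)))
      have s1W : s1 ∈ Wk F n k := es1 ▸ sub_mem (Submodule.smul_mem _ _ (eW k i0 (by omega)))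
        (Submodule.smul_mem _ _ (eW k i1 (by omega)))
      have q : ∀ r ∈ Wk F n k, ∀ y ∈ {y | ∃ j : Fin n, k ≤ j.1 ∧ y = Pi.single j (1 : F)},
          h y r = 0 ∧ ∀ w ∈ Wk F n k, h w r = 0 → h y w = 0 := by
        rintro r hr _ ⟨j, hj, rfl⟩
        exact ⟨h_swap0 (by rw [h_single_right, hr j hj]), fun w hw _ =>
          h_swap0 (by rw [h_single_right, hw j hj])⟩
      have nd : ∀ x ∈ Wk F n k, x ≠ 0 → ∃ y ∈ Wk F n k, h x y ≠ 0 := fun x hx x0 => by
        obtain ⟨i, hi⟩ := nondeg x0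
        refine ⟨_, eW k i (not_le.1 fun e => hi ?_), hi⟩
        rw [h_single_right, hx i e]
      have AW : A.1 *ᵥ v ∈ Wk F n k := fun j hj => by
        rw [← h_single_right (A.1 *ᵥ v), ← hA j hj, h_su, h_single_right, vW j hj]
      obtain ⟨B, hB, e⟩ := orb hF hs hs1 h1 sW s1W (fx _ _ s s1 s0 hs (q s sW))
        (fx _ _ s1 s s10 hs1 (q s1 s1W)) (eW k i2 (by omega)) (by rw [hx]; simp [n02, n12])
        (by rw [hx1]; simp [n02, n12]) (by rw [h_single_right]; simp) vW (nd v vW v0) AW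
        (nd _ AW fun e => v0 (by rw [← inv_vec A v, e, mulVec_zero])) (h_su A v v)
      exact ⟨B, hB.1, by rw [mul_vec, e], fun j hj => by
        rw [mul_vec, hA j hj, hB.2 _ ⟨j, hj, rfl⟩]⟩
  have main : ∀ k, 3 ≤ k → ∀ A : specialUnitaryGroup (Fin n) F,
      (∀ j : Fin n, k ≤ j.1 → A.1 *ᵥ Pi.single j 1 = Pi.single j 1) → A ∈ L := by
    intro k hk
    induction k, hk using Nat.le_induction with
    | base =>
      intro A hA
      have sW : s ∈ Wk F n 3 :=
        es ▸ add_mem (eW 3 i0 (by omega)) (Submodule.smul_mem _ _ (eW 3 i1 (by omega)))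
      have s1W : s1 ∈ Wk F n 3 := es1 ▸ sub_mem (Submodule.smul_mem _ _ (eW 3 i0 (by omega)))
        (Submodule.smul_mem _ _ (eW 3 i1 (by omega)))
      obtain ⟨B, hB, e1, e2⟩ := mv 3 le_rfl A s sW s0 hA
      refine (L.mul_mem_cancel_left hB).1 ?_
      generalize B * A = C at e1 e2
      obtain ⟨D, hD, e3⟩ := orb2 (v := C.1 *ᵥ s1) (c := 0) hs hs1 h1 sW s1W
        (fx {y | y = s ∨ ∃ j : Fin n, 3 ≤ j.1 ∧ y = Pi.single j (1 : F)} (Wk F n 3) s s1 s0 hs (by
          rintro _ (rfl | ⟨j, hj, rfl⟩)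
          · exact ⟨hs, fun w _ p => h_swap0 p⟩
          · exact ⟨h_swap0 (by rw [h_single_right, sW j hj]), fun w hw _ =>
              h_swap0 (by rw [h_single_right, hw j hj])⟩))
        (fun j hj => by rw [← h_single_right (C.1 *ᵥ s1), ← e2 j hj, h_su, h_single_right, s1W j hj])
        (by rw [← e1, h_su, h2]) (by rw [h_su, hs1, star_zero, add_zero])
      refine (L.mul_mem_cancel_left hD.1).1 ?_
      have f0 : (D * C).1 *ᵥ s = s := by rw [mul_vec, e1, hD.2 s (Or.inl rfl)]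
      have f1 : (D * C).1 *ᵥ s1 = s1 := by rw [mul_vec, e3, zero_smul, add_zero]
      have f3 : ∀ j : Fin n, 3 ≤ j.1 → (D * C).1 *ᵥ Pi.single j 1 = Pi.single j 1 := fun j hj => by
        rw [mul_vec, e2 j hj, hD.2 _ (Or.inr ⟨j, hj, rfl⟩)]
      generalize D * C = E at f0 f1 f3
      have g0 : Pi.single i0 (1 : F) = star t • s + s1 := by
        rw [es, es1]
        linear_combination (norm := module) (-ht) • (Pi.single i0 1 : Fin n → F)
      have g1 : Pi.single i1 (1 : F) = b⁻¹ • (s - Pi.single i0 1) := by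
        rw [es, add_sub_cancel_left, smul_smul, inv_mul_cancel₀ b0, one_smul]
      have f4 : E.1 *ᵥ Pi.single i0 1 = Pi.single i0 1 := by
        rw [g0, mulVec_add, mulVec_smul, f0, f1]
      have f5 : ∀ j, j ≠ i2 → E.1 *ᵥ Pi.single j 1 = Pi.single j 1 := fun j hj => by
        by_cases c0 : j = i0
        · rw [c0, f4]
        by_cases c1 : j = i1
        · rw [c1, g1, mulVec_smul, mulVec_sub, f0, f4]
        exact f3 j (by rw [Fin.ext_iff] at c0 c1; rw [Ne, Fin.ext_iff] at hj; omega)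
      have f6 : ∀ i j, E.1 i j = (E.1 *ᵥ Pi.single j 1) i := fun i j => by simp
      have f7 : E.1 = diagonal fun i => E.1 i i := by
        ext i j
        by_cases e : i = j
        · rw [e, diagonal_apply_eq]
        rw [diagonal_apply_ne _ e, f6]
        by_cases c : j = i2
        · rw [← h_single_right (E.1 *ᵥ _), ← f5 i (c ▸ e), h_su, h_single_right,
            Pi.single_eq_of_ne e]
        · rw [f5 j c, Pi.single_eq_of_ne e]
      have f8 : ∀ j, j ≠ i2 → E.1 j j = 1 := fun j hj => by rw [f6, f5 j hj, Pi.single_eq_same]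
      have f9 := (mem_specialUnitaryGroup_iff.1 E.2).2
      rw [f7, det_diagonal, Finset.prod_eq_single i2 (fun j _ hj => f8 j hj) (by simp)] at f9
      have : E = 1 := Subtype.ext (by
        rw [f7]
        exact (diagonal_eq_diagonal_iff.2 fun j => if c : j = i2 then c ▸ f9 else f8 j c).trans
          diagonal_one)
      rw [this]
      exact L.one_mem
    | succ k hk ih =>
      intro A hA
      by_cases c : k < n
      · obtain ⟨B, hB, e1, e2⟩ := mv (k + 1) (by omega) A _ (eW (k + 1) ⟨k, c⟩ (Nat.lt_succ_self k))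
          (by simp) hA
        refine (L.mul_mem_cancel_left hB).1 (ih _ fun j hj => ?_)
        rcases hj.eq_or_lt with e | e
        · rwa [show j = ⟨k, c⟩ from Fin.ext e.symm]
        · exact e2 j e
      · exact ih A fun j hj => absurd j.2 (by omega)
  exact top_le_iff.1 fun A _ => main n hn A fun j hj => absurd j.2 (by omega)

/-- The generation theorem. -/
theorem eq_top [Finite F] (hF : ∃ a : F, star a ≠ a) (hn : 3 ≤ n) (hs : h s s = 0)
    (hs1 : h s1 s1 = 0) (h1 : h s s1 = 1) (hT : AllT L ⊤ s s1) (hT1 : AllT L ⊤ s1 s) : L = ⊤ :=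
  top_of_all hF hn fun _ _ _ => all_T hF hn hs hs1 h1 hT hT1

/-- A matrix that preserves the form and has determinant one. -/
theorem mem_su {A : Matrix (Fin n) (Fin n) F} (e : ∀ x y, h (A *ᵥ x) (A *ᵥ y) = h x y)
    (d : A.det = 1) : A ∈ specialUnitaryGroup (Fin n) F := by
  refine mem_specialUnitaryGroup_iff.2 ⟨mem_unitaryGroup_iff'.2 ?_, d⟩
  ext i j
  have := e (Pi.single j 1) (Pi.single i 1)
  rw [h_single_right, h, mulVec_single_one, mulVec_single_one, dotProduct_comm] at this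
  rw [one_apply, mul_apply]
  simpa [dotProduct, Pi.single_apply] using this

end Pool.Agent.Lib.MP_cad414_al.Cg.UM

namespace Pool.Agent.Lib.MP_cad414_al.Cg.UU

open Module Matrix

variable {F : Type} [Field F] [StarRing F] [Finite F]

omit [Finite F] in
theorem gen_mat {n : ℕ} {g : UG (std F n)} (hg : g ∈ SU (std F n)) :
    ∃ A : specialUnitaryGroup (Fin n) F, ∀ x, g • x = A.1 *ᵥ x := by
  have e : ∀ x, g • x = LinearMap.toMatrix' (g.1 : (Fin n → F) →ₗ[F] Fin n → F) *ᵥ x := fun x =>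
    (LinearMap.toMatrix'_mulVec _ x).symm
  refine ⟨⟨_, UM.mem_su (fun x y => ?_) ((LinearMap.det_toMatrix' _).trans hg)⟩, e⟩
  rw [← e, ← e]
  exact hact g x y

theorem gen_SU (hF : ∃ a : F, star a ≠ a) {n : ℕ} (h3 : 3 ≤ n) (L : Subgroup (UG (std F n)))
    {s s' : Fin n → F} (hs : std F n s s = 0) (hs' : std F n s' s' = 0) (h1 : std F n s s' = 1)
    (H : Full L s) (H' : Full L s') : SU (std F n) ≤ L := by
  let M : Subgroup (specialUnitaryGroup (Fin n) F) :=
    { carrier := {A | ∃ g ∈ L, ∀ x, g • x = A.1 *ᵥ x}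
      one_mem' := ⟨1, L.one_mem, fun x => (one_smul _ x).trans (one_mulVec x).symm⟩
      mul_mem' := by
        rintro A B ⟨a, ha, e⟩ ⟨b, hb, e'⟩
        exact ⟨a * b, L.mul_mem ha hb, fun x => by rw [mul_smul, e', e, UM.mul_vec]⟩
      inv_mem' := by
        rintro A ⟨a, ha, e⟩
        exact ⟨a⁻¹, L.inv_mem ha, fun x => by rw [inv_smul_eq_iff, e, UM.vec_inv]⟩ }
  have key : ∀ r r' : Fin n → F, std F n r r = 0 → std F n r' r' = 0 → std F n r r' = 1 →
      Full L r → UM.AllT M ⊤ r r' := fun r r' p p' p1 K w _ g q _ hg => by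
    obtain ⟨w0, a, -, b⟩ := UM.exists_w0 hF h3 (s := r) (s1 := r') p p' p1
    obtain ⟨t, ht⟩ := UM.tr_surj hF (star_one F)
    have a' : std F n r w0 = 0 := UM.h_swap0 a
    have q' : std F n r w = 0 := UM.h_swap0 q
    have b' : std F n w0 w0 ≠ 0 := b
    have hg' : g + star g = std F n w w := hg
    obtain ⟨c, k, m⟩ := K w q'
    have m0 := (K w0 a').comm (K ((t * (g - c) / std F n w0 w0) • w0) (by simp [a']))
    have e1 : star (g - c) = -(g - c) := by rw [star_sub]; linear_combination hg' - k.tr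
    have e2 : std F n ((t * (g - c) / std F n w0 w0) • w0) w0 -
        std F n w0 ((t * (g - c) / std F n w0 w0) • w0) = g - c := by
      rw [HF.smul_left, HF.smul_right, star_div₀, star_mul', e1, HF.symm]
      field_simp
      linear_combination (g - c) * ht
    rw [e2] at m0
    have k0 : OK (std F n) r 0 (g - c) := ⟨p, by simp, by rw [e1]; simp⟩
    have m1 := L.mul_mem m m0
    rw [T_mul k k0, add_zero, HF.zero_left, add_zero, add_sub_cancel] at m1
    obtain ⟨A, e⟩ := gen_mat (T_mem r w g)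
    exact ⟨A, ⟨_, m1, e⟩, fun x => (e x).symm.trans (T_act ⟨p, q', hg'⟩ x)⟩
  have top : M = ⊤ := UM.eq_top hF h3 (s := s) (s1 := s') hs hs' h1 (key s s' hs hs' h1 H)
    (key s' s hs' hs (HF.swap1 h1) H')
  intro g hg
  obtain ⟨A, e⟩ := gen_mat hg
  obtain ⟨k, hk, e'⟩ : A ∈ M := top ▸ Subgroup.mem_top A
  rwa [← uext fun x => (e' x).trans (e x).symm]

end Pool.Agent.Lib.MP_cad414_al.Cg.UU
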