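import Pool.Agent.Lib.MP_cad414_al.Cg.U3
import Pool.Agent.Lib.MP_cad414_al.Cg.UBig
import Pool.Agent.Lib.MP_cad414_al.Cg.UGen
import Pool.Agent.Lib.MP_cad414_al.Cg.UBridge
import Pool.Agent.Lib.MP_cad414_al.Cg.UFour
import Pool.Agent.Lib.MP_cad414_al.Cg.UFourN
import Pool.Agent.Lib.MP_cad414_al.Cg.UFive

/-! The unitary groups. -/

namespace Pool.Agent.Lib.MP_cad414_al.Cg

variable {G F : Type} [Group G] [Finite G] [IsSimpleGroup G] [Field F] [Finite F]

namespace UU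

variable [StarRing F]

omit [Finite G] in
theorem three_of_tri (hG : NA G) {n : ℕ} (h3 : 3 ≤ n) (h : Uni G F n) (H : Tri (std F n)) :
    3 ∈ GenSizes G := by
  obtain ⟨t1, m1, t2, m2, t3, m3, c2, n2, c3, n3, ⟨a, sq⟩, e2, e3, H⟩ := H
  refine hG.three_of_sub (img_SU h.2) m1 m2 m3 n2 n3 (fun g _ => sq ▸ sc_comm a g)
    (fun g _ => by simp [e2]) (fun g _ => by simp [e3]) fun L l1 l2 l3 _ => ?_
  obtain ⟨s, s', h1, h2, h4, h5, h6⟩ := H L l1 l2 l3
  exact (Subgroup.commutator_le.2 fun a ha b hb =>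
    mul_mem (mul_mem (mul_mem ha hb) (inv_mem ha)) (inv_mem hb)).trans
      (gen_SU h.1 h3 L h1 h2 h4 h5 h6)

theorem tri_std (hF : ∃ a : F, star a ≠ a) {n : ℕ} (h4 : 4 ≤ n) : Tri (std F n) := by
  have two : ∀ {p : ZMod 2 → Prop}, p 0 → p 1 → ∀ i, p i := fun h0 h1 i => by
    fin_cases i
    exacts [h0, h1]
  obtain ⟨m, rfl | rfl⟩ := Nat.even_or_odd' n
  · have : NeZero m := ⟨by omega⟩
    obtain ⟨e, f, W, hsp⟩ := frame_even hF m
    rcases (by omega : m = 2 ∨ 3 ≤ m) with rfl | hm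
    · have B := W.blk (a := 0) (b := 1) (by decide)
      by_cases h9 : Nat.card F = 9
      · exact tri_four9 hF h9 (std_nd _) B fun M a b c d => hsp M (two a c) (two b d)
      · exact tri_four hF h9 B fun M a b c d => hsp M (two a c) (two b d)
    · exact tri_even hF (std_nd _) hm (by simp) W hsp
  · have : NeZero m := ⟨by omega⟩
    obtain ⟨e, f, z, W, zz, ze, zf, hsp⟩ := frame_odd hF m
    rcases (by omega : m = 2 ∨ 3 ≤ m) with rfl | hm
    · exact tri_five hF (std_nd _) ⟨W.blk (a := 0) (b := 1) (by decide), zz, ze 0, zf 0, ze 1, zf 1,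
        HF.swap0 (ze 0), HF.swap0 (zf 0), HF.swap0 (ze 1), HF.swap0 (zf 1)⟩
        fun M a b c d => hsp M (two a c) (two b d)
    · exact tri_odd hF (std_nd _) hm (by simp) W zz ze zf hsp

end UU

theorem uni_three (hG : NA G) [StarRing F] {n : ℕ} (h3 : 3 ≤ n) (h9 : n = 3 → 9 < Nat.card F)
    (h : Uni G F n) : 3 ∈ GenSizes G := by
  rcases h3.eq_or_lt with rfl | h4
  · exact uni_three_3 hG (h9 rfl) h
  · exact UU.three_of_tri hG h3 h (UU.tri_std h.1 h4)

end Pool.Agent.Lib.MP_cad414_al.Cg
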