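import Pool.Agent.Lib.MP_cad414_al.Cg.UniFourB

/-! The group `U3(3)` is generated by four but not by three conjugate involutions. -/

namespace Pool.Agent.Lib.MP_cad414_al.Cg

open Matrix

namespace UniFour

/-- The facts about the involutions that are used. -/
structure Sys {H : Type} [Group H] (r : ℕ → H) : Prop where
  sq : ∀ a < 63, r a * r a = 1
  ne : ∀ a < 63, r a ≠ 1
  tab : ∀ a < 63, ∀ b < 63, r a * r b * r a = r (T a b)
  inv : ∀ g : H, g * g = 1 → g ≠ 1 → ∃ a < 63, g = r a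
  gen : ∀ L : Subgroup H, (∀ a < 63, r a ∈ L) → L = ⊤
  cen : ∀ g : H, (∀ t : H, t * t = 1 → g * t = t * g) → g = 1
  sep : ∀ a < 63, ∀ b < 63, a ≠ b →
    ∃ w < 63, T (T a w) (T b w) = T b w ∧ r (T a w) ≠ r (T b w)

theorem exists_bit_le {a b c : ℕ} (ha : a < 63) (hb : b ≤ a) (hc : c ≤ b) :
    ∃ j, (M a).testBit j = true ∧ (M b).testBit j = true ∧ (M c).testBit j = true := by
  have h := al_iff.1 (al_iff.1 (al_iff.1 c9 a ha) b (Nat.lt_succ_of_le hb)) c
    (Nat.lt_succ_of_le hc)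
  have h' : M a &&& M b &&& M c ≠ 0 := fun e => by
    rw [e] at h
    exact absurd h (by decide)
  obtain ⟨j, hj⟩ := Nat.exists_testBit_of_ne_zero h'
  rw [Nat.testBit_and, Nat.testBit_and, Bool.and_eq_true, Bool.and_eq_true, and_assoc] at hj
  exact ⟨j, hj⟩

theorem exists_bit {a b c : ℕ} (ha : a < 63) (hb : b < 63) (hc : c < 63) :
    ∃ j, (M a).testBit j = true ∧ (M b).testBit j = true ∧ (M c).testBit j = true := by
  rcases le_total a b with h1 | h1 <;> rcases le_total b c with h2 | h2 <;>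
    rcases le_total a c with h3 | h3
  · exact (exists_bit_le hc h2 h1).imp fun _ h => ⟨h.2.2, h.2.1, h.1⟩
  · exact (exists_bit_le hc h2 h1).imp fun _ h => ⟨h.2.2, h.2.1, h.1⟩
  · exact (exists_bit_le hb h2 h3).imp fun _ h => ⟨h.2.2, h.1, h.2.1⟩
  · exact (exists_bit_le hb h1 h3).imp fun _ h => ⟨h.2.1, h.1, h.2.2⟩
  · exact (exists_bit_le hc h3 h1).imp fun _ h => ⟨h.2.1, h.2.2, h.1⟩
  · exact (exists_bit_le ha h3 h2).imp fun _ h => ⟨h.1, h.2.2, h.2.1⟩
  · exact exists_bit_le ha h1 h2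
  · exact exists_bit_le ha h1 h2

theorem bit_T {a b j : ℕ} (ha : a < 63) (hb : b < 63) (h1 : (M a).testBit j = true)
    (h2 : (M b).testBit j = true) : (M (T a b)).testBit j = true := by
  have h := congrArg (fun n => n.testBit j)
    (Nat.eq_of_beq_eq_true (al_iff.1 (al_iff.1 c8 a ha) b hb))
  simpa only [Nat.testBit_and, h1, h2, Bool.true_and] using h

namespace Sys

variable {H G : Type} [Group H] [Group G] {r : ℕ → H} (S : Sys r)
include S

theorem inv_eq {a : ℕ} (ha : a < 63) : (r a)⁻¹ = r a := inv_eq_of_mul_eq_one_right (S.sq a ha)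

theorem conj_T {a b : ℕ} (ha : a < 63) (hb : b < 63) : IsConj (r b) (r (T a b)) :=
  isConj_iff.2 ⟨r a, by rw [S.inv_eq ha, S.tab a ha b hb]⟩

theorem conj {a : ℕ} (ha : a < 63) : IsConj (r 0) (r a) := by
  obtain ⟨w, hw, h⟩ := an_iff.1 (al_iff.1 c11 a ha)
  obtain ⟨v, hv, h⟩ := an_iff.1 h
  rw [← Nat.eq_of_beq_eq_true h]
  exact (S.conj_T hv (by norm_num)).trans (S.conj_T hw (T_lt _ _))

theorem inj {a b : ℕ} (ha : a < 63) (hb : b < 63) (e : r a = r b) : a = b := by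
  by_contra h
  obtain ⟨w, hw, -, h'⟩ := S.sep a ha b hb h
  exact h' (by rw [← S.tab a ha w hw, ← S.tab b hb w hw, e])

theorem nontrivial : Nontrivial H := ⟨_, _, S.ne 0 (by norm_num)⟩

theorem four : 4 ∈ GenSizes H := by
  have := S.nontrivial
  refine mem_genSizes (r 0) ![r 0, r 49, r 29, r 31] (S.sq 0 (by norm_num)) (fun k => ?_)
    (S.gen _ fun a ha => (all_ind (p := fun a => a < 63 ∧
      r a ∈ Subgroup.closure (Set.range ![r 0, r 49, r 29, r 31])) (fun a ha => ?_)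
      (fun x y hx hy _ => ⟨T_lt _ _, ?_⟩) a ha).2)
  · fin_cases k <;> exact S.conj (by norm_num)
  · simp only [Q, List.mem_cons, List.not_mem_nil, or_false] at ha
    rcases ha with rfl | rfl | rfl | rfl
    exacts [⟨by norm_num, Subgroup.subset_closure ⟨0, rfl⟩⟩,
      ⟨by norm_num, Subgroup.subset_closure ⟨1, rfl⟩⟩,
      ⟨by norm_num, Subgroup.subset_closure ⟨2, rfl⟩⟩,
      ⟨by norm_num, Subgroup.subset_closure ⟨3, rfl⟩⟩]
  · rw [← S.tab x hx.1 y hy.1]
    exact mul_mem (mul_mem hx.2 hy.2) hx.2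

theorem not_three : 3 ∉ GenSizes H := by
  rintro ⟨t, h1, -, h3⟩
  have h4 : ∀ k, ∃ a < 63, t k = r a := fun k =>
    S.inv _ (by rw [← pow_two, ← h1 k, pow_orderOf_eq_one]) fun e => by
      have := h1 k
      rw [e, orderOf_one] at this
      exact absurd this (by norm_num)
  choose a ha hr using h4
  obtain ⟨j, j0, j1, j2⟩ := exists_bit (ha 0) (ha 1) (ha 2)
  have hj : ∀ k, (M (a k)).testBit j = true := fun k => by
    fin_cases k
    exacts [j0, j1, j2]
  have h5 : ∀ k, ∀ s < 63, (M s).testBit j = true →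
      ∃ s' < 63, (M s').testBit j = true ∧ t k * r s * (t k)⁻¹ = r s' := fun k s hs hb =>
    ⟨_, T_lt _ _, bit_T (ha k) hs (hj k) hb, by rw [hr, S.inv_eq (ha k), S.tab _ (ha k) s hs]⟩
  have h6 : ∀ g ∈ Subgroup.closure (Set.range t), ∀ s < 63, (M s).testBit j = true →
      ∃ s' < 63, (M s').testBit j = true ∧ g * r s * g⁻¹ = r s' := by
    intro g hg
    induction hg using Subgroup.closure_induction'' with
    | mem x hx =>
      obtain ⟨k, rfl⟩ := hx
      exact h5 k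
    | inv_mem x hx =>
      obtain ⟨k, rfl⟩ := hx
      rw [show (t k)⁻¹ = t k by rw [hr, S.inv_eq (ha k)]]
      exact h5 k
    | one => exact fun s hs hb => ⟨s, hs, hb, by rw [one_mul, inv_one, mul_one]⟩
    | mul x y _ _ hx hy =>
      intro s hs hb
      obtain ⟨s', b1, b2, b3⟩ := hy s hs hb
      obtain ⟨s'', d1, d2, d3⟩ := hx s' b1 b2
      exact ⟨s'', d1, d2, by rw [← d3, ← b3]; group⟩
  have h7 : ∀ d < 63, (M d).testBit j = true := fun d hd => by
    obtain ⟨g, hg⟩ := isConj_iff.1 ((S.conj (ha 0)).symm.trans (S.conj hd))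
    obtain ⟨s, b1, b2, b3⟩ := h6 g (h3 ▸ Subgroup.mem_top g) _ (ha 0) j0
    rwa [S.inj hd b1 (hg.symm.trans b3)]
  have h8 := congrArg (fun n => n.testBit j) c10
  simp only [Nat.testBit_and, Nat.zero_testBit, h7 0 (by norm_num), h7 49 (by norm_num),
    h7 29 (by norm_num), h7 31 (by norm_num), Bool.and_self] at h8
  exact Bool.false_ne_true h8.symm

theorem injective [Nontrivial G] (f : H →* G) (hf : Function.Surjective f) :
    Function.Injective f := by
  rw [injective_iff_map_eq_one]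
  intro g hg
  refine S.cen g fun t ht => ?_
  by_contra hne
  have t1 : t ≠ 1 := fun e => hne (by rw [e, mul_one, one_mul])
  obtain ⟨a, ha, rfl⟩ := S.inv t ht t1
  obtain ⟨b, hb, e⟩ := S.inv (g * r a * g⁻¹)
    (by rw [conj_mul, ht, mul_one, mul_inv_cancel]) fun e => t1 (conj_eq_one_iff.1 e)
  have hab : a ≠ b := fun h => hne (by rw [← h] at e; exact mul_inv_eq_iff_eq_mul.1 e)
  have e1 : f (r b) = f (r a) := by
    rw [← e, map_mul, map_mul, map_inv, hg, one_mul, inv_one, mul_one]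
  obtain ⟨w, hw, w1, w2⟩ := S.sep a ha b hb hab
  have e2 : f (r (T b w)) = f (r (T a w)) := by
    rw [← S.tab a ha w hw, ← S.tab b hb w hw, map_mul, map_mul, map_mul, map_mul, e1]
  have e3 := S.tab _ (T_lt a w) _ (T_lt b w)
  rw [w1] at e3
  obtain ⟨c, hc, e4⟩ := S.inv (r (T a w) * r (T b w))
    (by rw [← mul_assoc, e3, S.sq _ (T_lt _ _)]) fun h => w2 (by
      rw [← S.inv_eq (T_lt b w)]
      exact eq_inv_of_mul_eq_one_left h)
  have e5 : f (r c) = 1 := by rw [← e4, map_mul, e2, ← map_mul, S.sq _ (T_lt _ _), map_one]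
  have e6 : f.ker = ⊤ := S.gen _ fun d hd => by
    have := f.map_isConj ((S.conj hc).symm.trans (S.conj hd))
    rw [e5] at this
    exact isConj_one_right.1 this
  obtain ⟨x, hx⟩ := exists_ne (1 : G)
  obtain ⟨y, rfl⟩ := hf x
  exact hx (MonoidHom.mem_ker.1 (e6 ▸ Subgroup.mem_top y))

end Sys

variable {F : Type} [Field F] [StarRing F] {i : F}

theorem mem_of {A : Matrix (Fin 3) (Fin 3) F} (h1 : star A = A) (h2 : A * A = 1)
    (h3 : A.det = 1) : A ∈ specialUnitaryGroup (Fin 3) F :=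
  mem_specialUnitaryGroup_iff.2 ⟨mem_unitaryGroup_iff.2 (by rw [h1, h2]), h3⟩

theorem star_mul_coe (g : specialUnitaryGroup (Fin 3) F) : star g.1 * g.1 = 1 :=
  mem_unitaryGroup_iff'.1 (mem_specialUnitaryGroup_iff.1 g.2).1

theorem det_coe (g : specialUnitaryGroup (Fin 3) F) : g.1.det = 1 :=
  (mem_specialUnitaryGroup_iff.1 g.2).2

namespace Good

variable (h : Good i)
include h

theorem basic {a : ℕ} (ha : a < 63) : dm i (R a) * dm i (R a) = 1 ∧
    star (dm i (R a)) = dm i (R a) ∧ (dm i (R a)).det = 1 ∧ dm i (R a) ≠ 1 := by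
  have e := al_iff.1 c1 a ha
  rw [Bool.and_eq_true, Bool.and_eq_true, Bool.and_eq_true, h.eqm_iff, h.eqm_iff, h.eqk_iff,
    h.dm_mm, h.dm_ct, h.dec_de, dm_on, dec_one] at e
  refine ⟨e.1, e.2.1, e.2.2.1, fun e' => ?_⟩
  have e2 := e.2.2.2
  rw [h.eqm_iff.2 (e'.trans dm_on.symm)] at e2
  exact absurd e2 (by decide)

theorem invol {A : Matrix (Fin 3) (Fin 3) F} (h1 : star A = A) (h2 : A * A = 1)
    (h3 : A.det = 1) (h4 : A ≠ 1) : ∃ k < 63, A = dm i (R k) := by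
  obtain ⟨a, ma, ea⟩ := h.ex (A 0 0)
  obtain ⟨b, mb, eb⟩ := h.ex (A 0 1)
  obtain ⟨c, mc, ec⟩ := h.ex (A 0 2)
  obtain ⟨d, md, ed⟩ := h.ex (A 1 1)
  obtain ⟨e, me, ee⟩ := h.ex (A 1 2)
  obtain ⟨f, mf, ef⟩ := h.ex (A 2 2)
  have hs : ∀ r s, A r s = star (A s r) := fun r s => (congrFun₂ h1 r s).symm
  have hA : A = dm i (UniFour.mk a b c (st b) d e (st c) (st e) f) := by
    rw [dm_mk, h.dec_st, h.dec_st, h.dec_st, ← ea, ← eb, ← ec, ← ed, ← ee, ← ef, ← hs, ← hs, ← hs]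
    exact eta_fin_three A
  have hd : ∀ {x : P} {r : Fin 3}, A r r = dec i x → eqk (st x) x = true := fun e => by
    rw [h.eqk_iff, h.dec_st, ← e, ← hs]
  rw [hA, ← h.dm_mm, ← dm_on (i := i)] at h2
  have k1 := imp_of (List.all_eq_true.1 c3 a ma) (hd ea)
  have k2 := imp_of (List.all_eq_true.1 (List.all_eq_true.1 k1 b mb) c mc)
    (h.eqk_iff.2 (congrFun₂ h2 0 0))
  have k3 := imp_of (List.all_eq_true.1 k2 d md) (hd ed)
  have k4 := imp_of (List.all_eq_true.1 k3 e me) (h.eqk_iff.2 (congrFun₂ h2 0 1))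
  have k5 := imp_of (imp_of (imp_of (List.all_eq_true.1 k4 f mf) (hd ef)) (h.eqm_iff.2 h2))
    (h.eqk_iff.2 (by rw [h.dec_de, ← hA, h3, dec_one]))
  rw [Bool.or_eq_true, h.eqm_iff, an_iff, ← hA, dm_on] at k5
  obtain ⟨k, hk, k6⟩ := k5.resolve_left h4
  exact ⟨k, hk, hA.trans (h.eqm_iff.1 k6)⟩

theorem move {A : Matrix (Fin 3) (Fin 3) F} (h1 : star A * A = 1) : ∃ w,
    (dm i (W2 w) * A) 0 0 = 1 ∧ (dm i (W2 w) * A) 1 0 = 0 ∧ (dm i (W2 w) * A) 2 0 = 0 := by
  obtain ⟨a, ma, ea⟩ := h.ex (A 0 0)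
  obtain ⟨b, mb, eb⟩ := h.ex (A 1 0)
  obtain ⟨c, mc, ec⟩ := h.ex (A 2 0)
  have e := congrFun₂ h1 0 0
  rw [mul_apply, Fin.sum_univ_three, star_apply, star_apply, star_apply, one_apply_eq] at e
  have k1 := imp_of (List.all_eq_true.1 (List.all_eq_true.1 (List.all_eq_true.1 c5 a ma) b mb) c mc)
    (h.eqk_iff.2 (by rw [h.dec_dt, h.dec_st, h.dec_st, h.dec_st, ← ea, ← eb, ← ec, e, dec_one]))
  rw [fst, Bool.and_eq_true, Bool.and_eq_true, h.eqk_iff, h.eqk_iff, h.eqk_iff, h.dec_dt, h.dec_dt,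
    h.dec_dt, ← ea, ← eb, ← ec, dec_one, dec_zero] at k1
  refine ⟨TW >>> (12 * (cd a + 9 * cd b + 81 * cd c)), ?_⟩
  simp only [mul_apply, Fin.sum_univ_three]
  exact k1

theorem stab {A : Matrix (Fin 3) (Fin 3) F} (h1 : star A * A = 1) (h2 : A.det = 1)
    (a0 : A 0 0 = 1) (a1 : A 1 0 = 0) (a2 : A 2 0 = 0) : ∃ w, A = dm i (W4 w) := by
  obtain ⟨x, mx, ex⟩ := h.ex (A 1 1)
  obtain ⟨y, my, ey⟩ := h.ex (A 2 1)
  obtain ⟨z, mz, ez⟩ := h.ex (A 1 2)
  obtain ⟨w, mw, ew⟩ := h.ex (A 2 2)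
  have b1 : A 0 1 = 0 := by
    simpa [mul_apply, Fin.sum_univ_three, a0, a1, a2] using congrFun₂ h1 0 1
  have b2 : A 0 2 = 0 := by
    simpa [mul_apply, Fin.sum_univ_three, a0, a1, a2] using congrFun₂ h1 0 2
  have b3 : star (A 1 1) * A 1 1 + star (A 2 1) * A 2 1 = 1 := by
    simpa [mul_apply, Fin.sum_univ_three, b1] using congrFun₂ h1 1 1
  have b4 : star (A 1 1) * A 1 2 + star (A 2 1) * A 2 2 = 0 := by
    simpa [mul_apply, Fin.sum_univ_three, b1] using congrFun₂ h1 1 2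
  have hA : A = dm i (UniFour.mk (1, 0) (0, 0) (0, 0) (0, 0) x z (0, 0) y w) := by
    rw [dm_mk, dec_one, dec_zero, ← ex, ← ey, ← ez, ← ew]
    conv_lhs => rw [eta_fin_three A, a0, a1, a2, b1, b2]
  have k1 := imp_of (List.all_eq_true.1 (List.all_eq_true.1 c6 x mx) y my) (h.eqk_iff.2 (by
    rw [dec_ad, h.dec_mu, h.dec_mu, h.dec_st, h.dec_st, ← ex, ← ey, b3, dec_one]))
  have k2 := imp_of (List.all_eq_true.1 (List.all_eq_true.1 k1 z mz) w mw) (h.eqk_iff.2 (by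
    rw [dec_ad, h.dec_mu, h.dec_mu, h.dec_st, h.dec_st, ← ex, ← ey, ← ez, ← ew, b4, dec_zero]))
  have k3 := imp_of k2 (h.eqk_iff.2 (by rw [h.dec_de, ← hA, h2, dec_one]))
  exact ⟨_, hA.trans (h.eqm_iff.1 k3)⟩

theorem cent {A : Matrix (Fin 3) (Fin 3) F} (h1 : A.det = 1)
    (h2 : ∀ B : Matrix (Fin 3) (Fin 3) F, star B = B → B * B = 1 → B.det = 1 → A * B = B * A) :
    A = 1 := by
  have z : ∀ x : F, x = -x → x = 0 := fun x e => by linear_combination x * h.three - e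
  have z' : ∀ x : F, -x = x → x = 0 := fun x e => z x e.symm
  have e1 := h2 !![1, 0, 0; 0, -1, 0; 0, 0, -1]
    (by ext r s; fin_cases r <;> fin_cases s <;> simp)
    (by rw [mul_fin_three, one_fin_three]; simp) (by simp [det_fin_three])
  have e2 := h2 !![-1, 0, 0; 0, 1, 0; 0, 0, -1]
    (by ext r s; fin_cases r <;> fin_cases s <;> simp)
    (by rw [mul_fin_three, one_fin_three]; simp) (by simp [det_fin_three])
  have e3 := h2 !![0, -1, 0; -1, 0, 0; 0, 0, -1]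
    (by ext r s; fin_cases r <;> fin_cases s <;> simp)
    (by rw [mul_fin_three, one_fin_three]; simp) (by simp [det_fin_three])
  have e4 := h2 !![-1, 0, 0; 0, 0, -1; 0, -1, 0]
    (by ext r s; fin_cases r <;> fin_cases s <;> simp)
    (by rw [mul_fin_three, one_fin_three]; simp) (by simp [det_fin_three])
  have a01 : A 0 1 = 0 :=
    z' _ (by simpa [mul_apply, Fin.sum_univ_three] using congrFun₂ e1 0 1)
  have a02 : A 0 2 = 0 :=
    z' _ (by simpa [mul_apply, Fin.sum_univ_three] using congrFun₂ e1 0 2)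
  have a10 : A 1 0 = 0 :=
    z _ (by simpa [mul_apply, Fin.sum_univ_three] using congrFun₂ e1 1 0)
  have a20 : A 2 0 = 0 :=
    z _ (by simpa [mul_apply, Fin.sum_univ_three] using congrFun₂ e1 2 0)
  have a12 : A 1 2 = 0 :=
    z' _ (by simpa [mul_apply, Fin.sum_univ_three] using congrFun₂ e2 1 2)
  have a21 : A 2 1 = 0 :=
    z _ (by simpa [mul_apply, Fin.sum_univ_three] using congrFun₂ e2 2 1)
  have a11 : A 0 0 = A 1 1 := by
    simpa [mul_apply, Fin.sum_univ_three] using congrFun₂ e3 0 1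
  have a22 : A 1 1 = A 2 2 := by
    simpa [mul_apply, Fin.sum_univ_three] using congrFun₂ e4 1 2
  rw [det_fin_three, a01, a02, a10, a20, a12, a21, ← a22, ← a11] at h1
  have a00 : A 0 0 = 1 := by
    have : (A 0 0 - 1) ^ 3 = 0 := by
      linear_combination h1 + (-A 0 0 ^ 2 + A 0 0) * h.three
    exact sub_eq_zero.1 (pow_eq_zero_iff three_ne_zero |>.1 this)
  rw [eta_fin_three A, a01, a02, a10, a20, a12, a21, ← a22, ← a11, a00, one_fin_three]

theorem exists_sys : ∃ r : ℕ → specialUnitaryGroup (Fin 3) F, Sys r := by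
  have h0 : ∀ a : ℕ, ∃ g : specialUnitaryGroup (Fin 3) F, a < 63 → g.1 = dm i (R a) := by
    intro a
    by_cases ha : a < 63
    · obtain ⟨b1, b2, b3, -⟩ := h.basic ha
      exact ⟨⟨_, mem_of b2 b1 b3⟩, fun _ => rfl⟩
    · exact ⟨1, fun e => absurd e ha⟩
  choose r hr using h0
  have hsq : ∀ a < 63, r a * r a = 1 := fun a ha => Subtype.ext (by
    rw [Submonoid.coe_mul, hr a ha]
    exact (h.basic ha).1)
  have h2 : ∀ w, dm i (W2 w) = (r (lt w 0) * r (lt w 1)).1 := fun w => by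
    rw [W2, h.dm_mm, Submonoid.coe_mul, hr _ (lt_lt _ _), hr _ (lt_lt _ _)]
  refine ⟨r, hsq, fun a ha e => (h.basic ha).2.2.2 (by rw [← hr a ha, e]; rfl), fun a ha => ?_,
    fun g g1 g2 => ?_, fun L hL => ?_, fun g hg => ?_, fun a ha b hb hab => ?_⟩
  · refine (all_ind (p := fun a => a < 63 ∧ ∀ b < 63, r a * r b * r a = r (T a b))
      (fun a ha => ?_) (fun x y hx hy e => ⟨T_lt _ _, fun b hb => ?_⟩) a ha).2
    · have ha' : a < 63 := by
        simp only [Q, List.mem_cons, List.not_mem_nil, or_false] at ha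
        omega
      refine ⟨ha', fun b hb => ?_⟩
      have e := al_iff.1 (List.all_eq_true.1 c2 a ha) b hb
      rw [h.eqm_iff, h.dm_mm, h.dm_mm, ← hr a ha', ← hr b hb, ← hr _ (T_lt a b)] at e
      have e' : r a * r b = r (T a b) * r a := Subtype.ext e
      rw [e', mul_assoc, hsq a ha', mul_one]
    · rw [e b hb, ← hx.2 _ (T_lt _ _), ← hy.2 _ (T_lt _ _), ← hx.2 b hb, ← hx.2 y hy.1]
      simp only [mul_assoc]
  · have e1 : star g = g := (star_eq_inv g).trans (inv_eq_of_mul_eq_one_right g1)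
    obtain ⟨k, hk, e⟩ := h.invol (congrArg Subtype.val e1) (congrArg Subtype.val g1) (det_coe g)
      fun e => g2 (Subtype.ext e)
    exact ⟨k, hk, Subtype.ext (e.trans (hr k hk).symm)⟩
  · refine top_le_iff.1 fun g _ => ?_
    obtain ⟨w, hw⟩ := h.move (star_mul_coe g)
    rw [h2, ← Submonoid.coe_mul] at hw
    obtain ⟨v, hv⟩ := h.stab (star_mul_coe _) (det_coe _) hw.1 hw.2.1 hw.2.2
    rw [W4, h.dm_mm, h.dm_mm, h2, ← hr _ (lt_lt _ _), ← hr _ (lt_lt _ _), ← Submonoid.coe_mul,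
      ← Submonoid.coe_mul] at hv
    have m : ∀ w k, r (lt w k) ∈ L := fun w k => hL _ (lt_lt w k)
    refine (L.mul_mem_cancel_left (mul_mem (m w 0) (m w 1))).1 ?_
    rw [Subtype.ext hv]
    exact mul_mem (mul_mem (mul_mem (m _ _) (m _ _)) (m _ _)) (m _ _)
  · exact Subtype.ext (h.cent (det_coe g) fun B b1 b2 b3 =>
      congrArg Subtype.val (hg ⟨B, mem_of b1 b2 b3⟩ (Subtype.ext b2)))
  · have e := al_iff.1 (al_iff.1 c7 a ha) b hb
    rw [Bool.or_eq_true, Nat.beq_eq, an_iff] at e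
    obtain ⟨w, hw, e⟩ := e.resolve_left hab
    rw [Bool.and_eq_true, Nat.beq_eq] at e
    refine ⟨w, hw, e.1, fun e' => ?_⟩
    have e2 := e.2
    rw [h.eqm_iff.2 (by rw [← hr _ (T_lt a w), ← hr _ (T_lt b w), e'])] at e2
    exact absurd e2 (by decide)

end Good

end UniFour

variable {G F : Type} [Group G] [Finite G] [IsSimpleGroup G] [Field F] [Finite F]

theorem uni_four (hG : NA G) [StarRing F] (h9 : Nat.card F = 9) (h : Uni G F 3) :
    4 ∈ GenSizes G ∧ 3 ∉ GenSizes G := by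
  obtain ⟨hs, f, hf⟩ := h
  obtain ⟨i, hi⟩ := UniFour.exists_good h9 hs
  obtain ⟨r, S⟩ := hi.exists_sys
  have := S.nontrivial
  let φ := MulEquiv.ofBijective f ⟨S.injective f hf, hf⟩
  exact ⟨genSizes_map f hf S.four,
    fun h3 => S.not_three (genSizes_map φ.symm.toMonoidHom φ.symm.surjective h3)⟩

end Pool.Agent.Lib.MP_cad414_al.Cg
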