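import Pool.Agent.Lib.MP_cad414_al.Cg.XG

/-! The groups of type `E7`. -/

namespace Pool.Agent.Lib.MP_cad414_al.Cg.XE.E7

def M1 : List ME :=
  [⟨⟨0, 1, 0, 0, 0, 0, 0, 0⟩, ⟨-2, -3, -4, -5, -4, -3, -2, -1⟩, false, []⟩, ⟨⟨0, 0, 1, 0, 0, 0,
  0, 0⟩, ⟨-2, -3, -4, -5, -4, -3, -2, -1⟩, false, []⟩, ⟨⟨0, 0, 0, 0, 1, 0, 0, 0⟩, ⟨-2, -3, -4,
  -6, -5, -3, -2, -1⟩, false, []⟩, ⟨⟨0, 0, 0, 0, 0, 0, 1, 0⟩, ⟨-2, -3, -4, -6, -5, -4, -3, -1⟩,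
  false, []⟩, ⟨⟨1, 0, 0, 0, 0, 0, 0, 0⟩, ⟨-2, -3, -3, -5, -4, -3, -2, -1⟩, false, []⟩, ⟨⟨1, 0, 0,
  0, 0, 0, 0, 0⟩, ⟨-2, -3, -3, -5, -4, -3, -2, -1⟩, false, []⟩]

def Mg : List ME :=
  [⟨⟨0, 0, 0, 0, 1, 0, 0, 0⟩, ⟨-2, -3, -4, -6, -5, -3, -2, -1⟩, false, []⟩, ⟨⟨0, 0, 0, 1, 0, 0,
  0, 0⟩, ⟨-2, -3, -4, -6, -4, -3, -2, -1⟩, false, []⟩, ⟨⟨0, 0, 1, 0, 0, 0, 0, 0⟩, ⟨-2, -3, -4,
  -5, -4, -3, -2, -1⟩, false, []⟩, ⟨⟨0, 0, 0, 0, 0, 1, 0, 0⟩, ⟨-2, -3, -4, -6, -5, -4, -2, -1⟩,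
  false, []⟩, ⟨⟨0, 0, 0, 1, 0, 0, 0, 0⟩, ⟨-2, -3, -4, -6, -4, -3, -2, -1⟩, false, []⟩, ⟨⟨1, 0, 0,
  0, 0, 0, 0, 0⟩, ⟨-2, -3, -3, -5, -4, -3, -2, -1⟩, false, []⟩, ⟨⟨0, 0, 0, 1, 0, 0, 0, 0⟩, ⟨-2,
  -3, -4, -6, -4, -3, -2, -1⟩, false, []⟩]

def M2 : List ME :=
  [⟨⟨0, 1, 0, 1, 1, 0, 0, 0⟩, ⟨-2, -3, -4, -6, -5, -3, -2, -1⟩, false, []⟩, ⟨⟨1, 0, 0, 0, 0, 0,
  0, 0⟩, ⟨-2, -3, -3, -5, -4, -3, -2, -1⟩, true, []⟩, ⟨⟨0, 0, 0, 1, 1, 1, 0, 0⟩, ⟨-2, -3, -4, -6,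
  -5, -4, -2, -1⟩, false, []⟩, ⟨⟨0, 0, 0, 0, 1, 1, 1, 0⟩, ⟨-2, -3, -4, -6, -5, -4, -3, -1⟩,
  false, []⟩, ⟨⟨-1, 0, -1, -1, -1, 0, 0, 0⟩, ⟨-1, -3, -3, -5, -4, -3, -2, -1⟩, true, []⟩, ⟨⟨-1,
  0, -1, -1, -1, 0, 0, 0⟩, ⟨-1, -3, -3, -5, -4, -3, -2, -1⟩, true, []⟩]

def y2 : Word :=
  [(⟨1, 1, 1, 1, 1, 0, 0, 0⟩, [(1, [1, 0])])]

def outs : List (R × ℕ) :=
  [(⟨1, 0, 0, 0, 0, 0, 0, 0⟩, 2), (⟨0, 1, 0, 0, 0, 0, 0, 0⟩, 1), (⟨0, 0, 1, 0, 0, 0, 0, 0⟩, 4),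
  (⟨0, 0, 0, 1, 0, 0, 0, 0⟩, 3), (⟨0, 0, 0, 0, 1, 0, 0, 0⟩, 1), (⟨0, 0, 0, 0, 0, 1, 0, 0⟩, 1),
  (⟨0, 0, 0, 0, 0, 0, 1, 0⟩, 3), (⟨-1, 0, 0, 0, 0, 0, 0, 0⟩, 2), (⟨0, -1, 0, 0, 0, 0, 0, 0⟩, 1),
  (⟨0, 0, -1, 0, 0, 0, 0, 0⟩, 4), (⟨0, 0, 0, -1, 0, 0, 0, 0⟩, 3), (⟨0, 0, 0, 0, -1, 0, 0, 0⟩, 1),
  (⟨0, 0, 0, 0, 0, -1, 0, 0⟩, 1), (⟨0, 0, 0, 0, 0, 0, -1, 0⟩, 3)]

def p0 : List Ins :=
  [.ext [(⟨0, 1, 0, 0, 0, 0, 0, 0⟩, [(1, [])])],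
   .ext [(⟨0, -1, 0, 0, 0, 0, 0, 0⟩, [(1, [])])],
   .cat [(1, false), (0, false), (1, false)],
   .ext [(⟨0, 0, 1, 0, 0, 0, 0, 0⟩, [(1, [])])],
   .ext [(⟨0, 0, -1, 0, 0, 0, 0, 0⟩, [(1, [])])],
   .cat [(1, false), (0, false), (1, false)],
   .ext [(⟨0, 0, 0, 0, 1, 0, 0, 0⟩, [(1, [])])],
   .ext [(⟨0, 0, 0, 0, -1, 0, 0, 0⟩, [(1, [])])],
   .cat [(1, false), (0, false), (1, false)],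
   .ext [(⟨0, 0, 0, 0, 0, 0, 1, 0⟩, [(1, [])])],
   .ext [(⟨0, 0, 0, 0, 0, 0, -1, 0⟩, [(1, [])])],
   .cat [(1, false), (0, false), (1, false)],
   .ext [(⟨1, 0, 0, 0, 0, 0, 0, 0⟩, [(1, [])])],
   .ext [(⟨-1, 0, 0, 0, 0, 0, 0, 0⟩, [(1, [])])],
   .cat [(1, false), (0, false), (1, false)],
   .cat [(12, false), (9, false), (6, false), (3, false), (0, false), (0, false)],
   .ext [(⟨0, 0, 0, 1, 0, 0, 0, 0⟩, [(1, [])])],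
   .ext [(⟨0, 0, 0, -1, 0, 0, 0, 0⟩, [(1, [])])],
   .cat [(1, false), (0, false), (1, false)],
   .ext [(⟨0, 0, 0, 0, 0, 1, 0, 0⟩, [(1, [])])],
   .ext [(⟨0, 0, 0, 0, 0, -1, 0, 0⟩, [(1, [])])],
   .cat [(1, false), (0, false), (1, false)],
   .cat [(13, false), (3, false), (16, false), (0, false), (3, false), (7, false), (3, false)],
   .ext [(⟨0, 0, 0, 1, 0, 0, 0, 0⟩, [(1, [1, 0])])],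
   .mon 9 [⟨⟨1, 0, 0, 0, 0, 0, 0, 0⟩, ⟨-2, -3, -3, -5, -4, -3, -2, -1⟩, false, []⟩],
   .mon 18 [⟨⟨0, 0, 1, 0, 0, 0, 0, 0⟩, ⟨-2, -3, -4, -5, -4, -3, -2, -1⟩, false, []⟩],
   .cnj [1, 0] 0]

def p1 : List Ins :=
  [.mon 2 [⟨⟨0, 1, 0, 0, 0, 0, 0, 0⟩, ⟨-2, -3, -4, -5, -4, -3, -2, -1⟩, false, []⟩, ⟨⟨0, 0, 1, 0,
   0, 0, 0, 0⟩, ⟨-2, -3, -4, -5, -4, -3, -2, -1⟩, false, []⟩, ⟨⟨0, 0, 0, 0, 1, 0, 0, 0⟩, ⟨-2, -3,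
   -4, -6, -5, -3, -2, -1⟩, false, []⟩, ⟨⟨0, 0, 0, 0, 0, 0, 1, 0⟩, ⟨-2, -3, -4, -6, -5, -4, -3,
   -1⟩, false, []⟩, ⟨⟨1, 0, 0, 0, 0, 0, 0, 0⟩, ⟨-2, -3, -3, -5, -4, -3, -2, -1⟩, false, []⟩, ⟨⟨1,
   0, 0, 0, 0, 0, 0, 0⟩, ⟨-2, -3, -3, -5, -4, -3, -2, -1⟩, false, []⟩],
   .mon 1 [⟨⟨0, 1, 0, 1, 1, 0, 0, 0⟩, ⟨-2, -3, -4, -6, -5, -3, -2, -1⟩, false, []⟩, ⟨⟨1, 0, 0, 0,
   0, 0, 0, 0⟩, ⟨-2, -3, -3, -5, -4, -3, -2, -1⟩, true, []⟩, ⟨⟨0, 0, 0, 1, 1, 1, 0, 0⟩, ⟨-2, -3,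
   -4, -6, -5, -4, -2, -1⟩, false, []⟩, ⟨⟨0, 0, 0, 0, 1, 1, 1, 0⟩, ⟨-2, -3, -4, -6, -5, -4, -3,
   -1⟩, false, []⟩, ⟨⟨-1, 0, -1, -1, -1, 0, 0, 0⟩, ⟨-1, -3, -3, -5, -4, -3, -2, -1⟩, true, []⟩,
   ⟨⟨-1, 0, -1, -1, -1, 0, 0, 0⟩, ⟨-1, -3, -3, -5, -4, -3, -2, -1⟩, true, []⟩],
   .cnj [0, 1, 0] 0,
   .col [(1, false), (0, false), (1, true), (0, true)] ⟨20001, 20007, 49, 343, -17599, 13, 101,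
   997⟩]

def p2 : List Ins :=
  [.mon 3 [⟨⟨0, 1, 0, 0, 0, 0, 0, 0⟩, ⟨-2, -3, -4, -5, -4, -3, -2, -1⟩, false, []⟩, ⟨⟨0, 0, 1, 0,
   0, 0, 0, 0⟩, ⟨-2, -3, -4, -5, -4, -3, -2, -1⟩, false, []⟩, ⟨⟨0, 0, 0, 0, 1, 0, 0, 0⟩, ⟨-2, -3,
   -4, -6, -5, -3, -2, -1⟩, false, []⟩, ⟨⟨0, 0, 0, 0, 0, 0, 1, 0⟩, ⟨-2, -3, -4, -6, -5, -4, -3,
   -1⟩, false, []⟩, ⟨⟨1, 0, 0, 0, 0, 0, 0, 0⟩, ⟨-2, -3, -3, -5, -4, -3, -2, -1⟩, false, []⟩, ⟨⟨1,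
   0, 0, 0, 0, 0, 0, 0⟩, ⟨-2, -3, -3, -5, -4, -3, -2, -1⟩, false, []⟩],
   .mon 2 [⟨⟨0, 1, 0, 1, 1, 0, 0, 0⟩, ⟨-2, -3, -4, -6, -5, -3, -2, -1⟩, false, []⟩, ⟨⟨1, 0, 0, 0,
   0, 0, 0, 0⟩, ⟨-2, -3, -3, -5, -4, -3, -2, -1⟩, true, []⟩, ⟨⟨0, 0, 0, 1, 1, 1, 0, 0⟩, ⟨-2, -3,
   -4, -6, -5, -4, -2, -1⟩, false, []⟩, ⟨⟨0, 0, 0, 0, 1, 1, 1, 0⟩, ⟨-2, -3, -4, -6, -5, -4, -3,
   -1⟩, false, []⟩, ⟨⟨-1, 0, -1, -1, -1, 0, 0, 0⟩, ⟨-1, -3, -3, -5, -4, -3, -2, -1⟩, true, []⟩,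
   ⟨⟨-1, 0, -1, -1, -1, 0, 0, 0⟩, ⟨-1, -3, -3, -5, -4, -3, -2, -1⟩, true, []⟩],
   .cnj [0, 1, 0] 1,
   .col [(2, false), (0, false), (2, true), (0, true)] ⟨20001, 20007, 49, 343, -17599, 13, 101,
   997⟩,
   .cnj [1, 0, 1, 0] 3,
   .col [(3, false), (0, false), (3, true), (0, true)] ⟨40001, 7, 49, -19657, 22401, 13, -19899,
   997⟩,
   .col [(0, false), (3, false), (0, true), (3, true)] ⟨20001, 20007, 49, 343, -17599, 13, 101,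
   997⟩,
   .cat [(0, true)],
   .cnj [1, 0, 1, 0, 1, 0, 1, 0, 1, 0] 7,
   .col [(3, false), (0, false), (3, true), (0, true)] ⟨40001, 7, -19951, 343, 2401, 13, 101,
   997⟩,
   .cnj [1, 0, 1, 0, 1, 0, 1, 0] 9,
   .col [(9, false), (0, false), (9, true), (0, true)] ⟨1, 40007, 49, -19657, 2401, 20013,
   -39899, 20997⟩,
   .cat [(0, true)],
   .cnj [0, 1, 0, 1, 0, 1, 0] 12,
   .col [(12, false), (0, false), (12, true), (0, true)] ⟨1, 7, 49, 20343, -37599, 13, 40101,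
   -19003⟩,
   .cnj [0, 1, 0, 1, 0, 1, 0, 1, 0] 14,
   .col [(1, false), (0, false), (1, true), (0, true)] ⟨1, 20007, 20049, -19657, -17599, 20013,
   101, 997⟩,
   .cnj [0, 1] 13,
   .col [(1, false), (0, false), (1, true), (0, true)] ⟨-19999, 7, 40049, -19657, 2401, 13, 101,
   997⟩,
   .cnj [1] 17,
   .col [(0, false), (6, false), (0, true), (6, true)] ⟨1, -39993, 49, 20343, 2401, -19987,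
   40101, -19003⟩,
   .cnj [1, 0, 1] 17,
   .col [(1, false), (0, false), (1, true), (0, true)] ⟨1, -19993, -19951, 40343, -17599, 13,
   101, 997⟩,
   .col [(3, false), (12, false), (3, true), (12, true)] ⟨1, 7, 49, -19657, 42401, 13, -39899,
   20997⟩,
   .cat [(0, true)],
   .cnj [0] 23,
   .col [(0, false), (10, false), (0, true), (10, true)] ⟨1, 20007, 20049, -39657, 2401, 40013,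
   -19899, 997⟩,
   .cat [(0, true)],
   .cnj [0, 1, 0, 1, 0, 1, 0, 1, 0, 1, 0] 27,
   .col [(9, false), (0, false), (9, true), (0, true)] ⟨-19999, -19993, 49, 20343, 22401, -39987,
   101, 20997⟩,
   .cnj [0, 1, 0, 1] 26,
   .col [(1, false), (0, false), (1, true), (0, true)] ⟨1, 7, 49, 343, 2401, -19987, 40101,
   -19003⟩,
   .cnj [0, 1, 0, 1, 0] 31,
   .col [(7, false), (0, false), (7, true), (0, true)] ⟨-39999, 7, 40049, -19657, 22401, 13,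
   -19899, 997⟩,
   .col [(0, false), (5, false), (0, true), (5, true)] ⟨-39999, 7, 20049, 343, 2401, 13, 101,
   997⟩,
   .cat [(0, true)],
   .cat [(15, true)],
   .col [(13, false), (28, false), (13, true), (28, true)] ⟨20001, -19993, -19951, 343, 22401,
   13, 101, 997⟩,
   .col [(0, false), (16, false), (0, true), (16, true)] ⟨20001, 7, -39951, 20343, 2401, 13, 101,
   997⟩,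
   .cat [(0, true)],
   .col [(14, false), (31, false), (14, true), (31, true)] ⟨20001, -19993, -19951, 343, 2401,
   20013, 20101, -19003⟩,
   .cnj [0, 1, 0, 1, 0, 1] 37,
   .col [(1, false), (0, false), (1, true), (0, true)] ⟨1, 20007, 20049, -39657, 22401, 13, 101,
   997⟩,
   .cat [(0, true)],
   .cat [(29, true)],
   .cat [(15, true)],
   .col [(44, false), (17, false), (44, true), (17, true)] ⟨-19999, 20007, 49, 20343, -17599,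
   -19987, 101, 20997⟩,
   .cnj [1, 0, 1, 0, 1] 43,
   .col [(1, false), (0, false), (1, true), (0, true)] ⟨1, 7, 49, 343, 2401, 20013, -39899,
   20997⟩,
   .cat [(0, true)]]

end Pool.Agent.Lib.MP_cad414_al.Cg.XE.E7

namespace Pool.Agent.Lib.MP_cad414_al.Cg

open XE XE.E7

theorem e7_three {G F : Type} [Group G] [IsSimpleGroup G] [Field F] [Finite F] {S : Type}
    [Group S] {x : (Fin 8 → ℤ) → F → S} {θ : RingAut F} (hG : NA G) (hx : St x) (hθ : θ ^ 1 = 1)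
    (h : Img G (Fold x θ [[0], [1], [2], [3], [4], [5], [6]])) : 3 ∈ GenSizes G :=
  split_three hG hx hθ h M1 Mg M2 ⟨1, 0, 1, 1, 0, 0, 0, 0⟩ ⟨1, 1, 1, 1, 0, 0, 0, 0⟩ y2 2 0 2 outs
    p0 p1 p2 (by decide +kernel) (by decide) rfl

end Pool.Agent.Lib.MP_cad414_al.Cg
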