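import Pool.Agent.Lib.MP_cad414_al.Cg.XG

/-! The groups of type `E8`. -/

namespace Pool.Agent.Lib.MP_cad414_al.Cg.XE.E8

def M1 : List ME :=
  [⟨⟨0, 1, 0, 0, 0, 0, 0, 0⟩, ⟨-2, -3, -4, -5, -4, -3, -2, -1⟩, false, []⟩, ⟨⟨0, 0, 1, 0, 0, 0,
  0, 0⟩, ⟨-2, -3, -4, -5, -4, -3, -2, -1⟩, false, []⟩, ⟨⟨0, 0, 0, 0, 1, 0, 0, 0⟩, ⟨-2, -3, -4,
  -6, -5, -3, -2, -1⟩, false, []⟩, ⟨⟨0, 0, 0, 0, 0, 0, 0, 1⟩, ⟨-2, -3, -4, -6, -5, -4, -3, -2⟩,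
  false, []⟩, ⟨⟨0, 0, 0, 1, 0, 0, 0, 0⟩, ⟨-2, -3, -4, -6, -4, -3, -2, -1⟩, false, []⟩, ⟨⟨0, 0, 0,
  1, 0, 0, 0, 0⟩, ⟨-2, -3, -4, -6, -4, -3, -2, -1⟩, false, []⟩, ⟨⟨0, 0, 0, 0, 0, 0, 1, 0⟩, ⟨-2,
  -3, -4, -6, -5, -4, -3, -1⟩, false, []⟩, ⟨⟨0, 0, 0, 0, 0, 0, 1, 0⟩, ⟨-2, -3, -4, -6, -5, -4,
  -3, -1⟩, false, []⟩]

def Mg : List ME :=
  [⟨⟨0, 0, 0, 1, 0, 0, 0, 0⟩, ⟨-2, -3, -4, -6, -4, -3, -2, -1⟩, false, []⟩, ⟨⟨0, 0, 0, 0, 0, 0,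
  0, 1⟩, ⟨-2, -3, -4, -6, -5, -4, -3, -2⟩, false, []⟩, ⟨⟨0, 0, 0, 0, 1, 0, 0, 0⟩, ⟨-2, -3, -4,
  -6, -5, -3, -2, -1⟩, false, []⟩, ⟨⟨0, 0, 0, 0, 1, 0, 0, 0⟩, ⟨-2, -3, -4, -6, -5, -3, -2, -1⟩,
  false, []⟩, ⟨⟨0, 0, 0, 0, 0, 0, 0, 1⟩, ⟨-2, -3, -4, -6, -5, -4, -3, -2⟩, false, []⟩, ⟨⟨0, 0, 1,
  0, 0, 0, 0, 0⟩, ⟨-2, -3, -4, -5, -4, -3, -2, -1⟩, false, []⟩, ⟨⟨1, 0, 0, 0, 0, 0, 0, 0⟩, ⟨-2,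
  -3, -3, -5, -4, -3, -2, -1⟩, false, []⟩, ⟨⟨0, 0, 0, 0, 0, 0, 0, 1⟩, ⟨-2, -3, -4, -6, -5, -4,
  -3, -2⟩, false, []⟩, ⟨⟨0, 0, 0, 0, 0, 0, 1, 0⟩, ⟨-2, -3, -4, -6, -5, -4, -3, -1⟩, false, []⟩,
  ⟨⟨0, 0, 0, 0, 0, 1, 0, 0⟩, ⟨-2, -3, -4, -6, -5, -4, -2, -1⟩, false, []⟩, ⟨⟨0, 0, 0, 0, 0, 0, 1,
  0⟩, ⟨-2, -3, -4, -6, -5, -4, -3, -1⟩, false, []⟩, ⟨⟨0, 0, 0, 0, 0, 1, 0, 0⟩, ⟨-2, -3, -4, -6,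
  -5, -4, -2, -1⟩, false, []⟩]

def M2 : List ME :=
  [⟨⟨0, 1, 0, 1, 0, 0, 0, 0⟩, ⟨-2, -3, -4, -6, -4, -3, -2, -1⟩, false, []⟩, ⟨⟨1, 0, 0, 0, 0, 0,
  0, 0⟩, ⟨-2, -3, -3, -5, -4, -3, -2, -1⟩, false, []⟩, ⟨⟨0, 0, 0, 1, 1, 1, 0, 0⟩, ⟨-2, -3, -4,
  -6, -5, -4, -2, -1⟩, true, []⟩, ⟨⟨0, 0, 0, 0, 0, 1, 1, 0⟩, ⟨-2, -3, -4, -6, -5, -4, -3, -1⟩,
  false, []⟩, ⟨⟨0, 0, 1, 0, 0, 0, 0, 0⟩, ⟨-2, -3, -4, -5, -4, -3, -2, -1⟩, true, []⟩, ⟨⟨0, 0, 1,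
  0, 0, 0, 0, 0⟩, ⟨-2, -3, -4, -5, -4, -3, -2, -1⟩, true, []⟩, ⟨⟨0, 0, 0, 0, 0, -1, -1, -1⟩, ⟨-2,
  -3, -4, -6, -5, -3, -2, -1⟩, false, []⟩, ⟨⟨0, 0, 0, 0, 0, -1, -1, -1⟩, ⟨-2, -3, -4, -6, -5, -3,
  -2, -1⟩, false, []⟩]

def y2 : Word :=
  [(⟨0, 1, 1, 2, 1, 1, 1, 0⟩, [(-1, [1, 0])])]

def outs : List (R × ℕ) :=
  [(⟨1, 0, 0, 0, 0, 0, 0, 0⟩, 4), (⟨0, 1, 0, 0, 0, 0, 0, 0⟩, 1), (⟨0, 0, 1, 0, 0, 0, 0, 0⟩, 4),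
  (⟨0, 0, 0, 1, 0, 0, 0, 0⟩, 3), (⟨0, 0, 0, 0, 1, 0, 0, 0⟩, 3), (⟨0, 0, 0, 0, 0, 1, 0, 0⟩, 5),
  (⟨0, 0, 0, 0, 0, 0, 1, 0⟩, 3), (⟨0, 0, 0, 0, 0, 0, 0, 1⟩, 1), (⟨-1, 0, 0, 0, 0, 0, 0, 0⟩, 2),
  (⟨0, -1, 0, 0, 0, 0, 0, 0⟩, 1), (⟨0, 0, -1, 0, 0, 0, 0, 0⟩, 4), (⟨0, 0, 0, -1, 0, 0, 0, 0⟩, 3),
  (⟨0, 0, 0, 0, -1, 0, 0, 0⟩, 3), (⟨0, 0, 0, 0, 0, -1, 0, 0⟩, 2), (⟨0, 0, 0, 0, 0, 0, -1, 0⟩, 3),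
  (⟨0, 0, 0, 0, 0, 0, 0, -1⟩, 1)]

def p0 : List Ins :=
  [.ext [(⟨0, 1, 0, 0, 0, 0, 0, 0⟩, [(1, [])])],
   .ext [(⟨0, -1, 0, 0, 0, 0, 0, 0⟩, [(1, [])])],
   .cat [(1, false), (0, false), (1, false)],
   .ext [(⟨0, 0, 1, 0, 0, 0, 0, 0⟩, [(1, [])])],
   .ext [(⟨0, 0, -1, 0, 0, 0, 0, 0⟩, [(1, [])])],
   .cat [(1, false), (0, false), (1, false)],
   .ext [(⟨0, 0, 0, 0, 1, 0, 0, 0⟩, [(1, [])])],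
   .ext [(⟨0, 0, 0, 0, -1, 0, 0, 0⟩, [(1, [])])],
   .cat [(1, false), (0, false), (1, false)],
   .ext [(⟨0, 0, 0, 0, 0, 0, 0, 1⟩, [(1, [])])],
   .ext [(⟨0, 0, 0, 0, 0, 0, 0, -1⟩, [(1, [])])],
   .cat [(1, false), (0, false), (1, false)],
   .ext [(⟨0, 0, 0, 1, 0, 0, 0, 0⟩, [(1, [])])],
   .ext [(⟨0, 0, 0, -1, 0, 0, 0, 0⟩, [(1, [])])],
   .cat [(1, false), (0, false), (1, false)],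
   .ext [(⟨0, 0, 0, 0, 0, 0, 1, 0⟩, [(1, [])])],
   .ext [(⟨0, 0, 0, 0, 0, 0, -1, 0⟩, [(1, [])])],
   .cat [(1, false), (0, false), (1, false)],
   .cat [(15, false), (12, false), (9, false), (6, false), (3, false), (3, false), (0, false),
   (0, false)],
   .ext [(⟨1, 0, 0, 0, 0, 0, 0, 0⟩, [(1, [])])],
   .ext [(⟨-1, 0, 0, 0, 0, 0, 0, 0⟩, [(1, [])])],
   .cat [(1, false), (0, false), (1, false)],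
   .ext [(⟨0, 0, 0, 0, 0, 1, 0, 0⟩, [(1, [])])],
   .ext [(⟨0, 0, 0, 0, 0, -1, 0, 0⟩, [(1, [])])],
   .cat [(1, false), (0, false), (1, false)],
   .cat [(10, false), (13, false), (16, false), (16, false), (13, false), (19, false), (3,
   false), (13, false), (7, false), (0, false), (7, false), (0, false)],
   .ext [(⟨0, 0, 0, 0, 0, 0, 0, 1⟩, [(1, [1, 0])])],
   .mon 18 [⟨⟨0, 0, 0, 0, 1, 0, 0, 0⟩, ⟨-2, -3, -4, -6, -5, -3, -2, -1⟩, false, []⟩],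
   .mon 12 [⟨⟨0, 0, 0, 1, 0, 0, 0, 0⟩, ⟨-2, -3, -4, -6, -4, -3, -2, -1⟩, false, []⟩],
   .mon 24 [⟨⟨0, 1, 0, 0, 0, 0, 0, 0⟩, ⟨-2, -3, -4, -5, -4, -3, -2, -1⟩, false, []⟩],
   .mon 21 [⟨⟨0, 0, 1, 0, 0, 0, 0, 0⟩, ⟨-2, -3, -4, -5, -4, -3, -2, -1⟩, false, []⟩],
   .mon 2 [⟨⟨0, 0, 0, 0, 0, 1, 0, 0⟩, ⟨-2, -3, -4, -6, -5, -4, -2, -1⟩, false, []⟩],
   .mon 9 [⟨⟨0, 0, 0, 0, 0, 0, 1, 0⟩, ⟨-2, -3, -4, -6, -5, -4, -3, -1⟩, false, []⟩],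
   .cnj [5, 4, 3, 2, 4, 5, 1, 0] 0]

def p1 : List Ins :=
  [.mon 1 [⟨⟨0, 1, 0, 1, 0, 0, 0, 0⟩, ⟨-2, -3, -4, -6, -4, -3, -2, -1⟩, false, []⟩, ⟨⟨1, 0, 0, 0,
   0, 0, 0, 0⟩, ⟨-2, -3, -3, -5, -4, -3, -2, -1⟩, false, []⟩, ⟨⟨0, 0, 0, 1, 1, 1, 0, 0⟩, ⟨-2, -3,
   -4, -6, -5, -4, -2, -1⟩, true, []⟩, ⟨⟨0, 0, 0, 0, 0, 1, 1, 0⟩, ⟨-2, -3, -4, -6, -5, -4, -3,
   -1⟩, false, []⟩, ⟨⟨0, 0, 1, 0, 0, 0, 0, 0⟩, ⟨-2, -3, -4, -5, -4, -3, -2, -1⟩, true, []⟩, ⟨⟨0,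
   0, 1, 0, 0, 0, 0, 0⟩, ⟨-2, -3, -4, -5, -4, -3, -2, -1⟩, true, []⟩, ⟨⟨0, 0, 0, 0, 0, -1, -1,
   -1⟩, ⟨-2, -3, -4, -6, -5, -3, -2, -1⟩, false, []⟩, ⟨⟨0, 0, 0, 0, 0, -1, -1, -1⟩, ⟨-2, -3, -4,
   -6, -5, -3, -2, -1⟩, false, []⟩],
   .cnj [0] 0,
   .col [(1, false), (0, false), (1, true), (0, true)] ⟨1, -19993, -19951, 20343, 22401, -39987,
   40101, 997⟩]

def p2 : List Ins :=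
  [.mon 3 [⟨⟨0, 1, 0, 0, 0, 0, 0, 0⟩, ⟨-2, -3, -4, -5, -4, -3, -2, -1⟩, false, []⟩, ⟨⟨0, 0, 1, 0,
   0, 0, 0, 0⟩, ⟨-2, -3, -4, -5, -4, -3, -2, -1⟩, false, []⟩, ⟨⟨0, 0, 0, 0, 1, 0, 0, 0⟩, ⟨-2, -3,
   -4, -6, -5, -3, -2, -1⟩, false, []⟩, ⟨⟨0, 0, 0, 0, 0, 0, 0, 1⟩, ⟨-2, -3, -4, -6, -5, -4, -3,
   -2⟩, false, []⟩, ⟨⟨0, 0, 0, 1, 0, 0, 0, 0⟩, ⟨-2, -3, -4, -6, -4, -3, -2, -1⟩, false, []⟩, ⟨⟨0,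
   0, 0, 1, 0, 0, 0, 0⟩, ⟨-2, -3, -4, -6, -4, -3, -2, -1⟩, false, []⟩, ⟨⟨0, 0, 0, 0, 0, 0, 1, 0⟩,
   ⟨-2, -3, -4, -6, -5, -4, -3, -1⟩, false, []⟩, ⟨⟨0, 0, 0, 0, 0, 0, 1, 0⟩, ⟨-2, -3, -4, -6, -5,
   -4, -3, -1⟩, false, []⟩],
   .mon 2 [⟨⟨0, 1, 0, 1, 0, 0, 0, 0⟩, ⟨-2, -3, -4, -6, -4, -3, -2, -1⟩, false, []⟩, ⟨⟨1, 0, 0, 0,
   0, 0, 0, 0⟩, ⟨-2, -3, -3, -5, -4, -3, -2, -1⟩, false, []⟩, ⟨⟨0, 0, 0, 1, 1, 1, 0, 0⟩, ⟨-2, -3,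
   -4, -6, -5, -4, -2, -1⟩, true, []⟩, ⟨⟨0, 0, 0, 0, 0, 1, 1, 0⟩, ⟨-2, -3, -4, -6, -5, -4, -3,
   -1⟩, false, []⟩, ⟨⟨0, 0, 1, 0, 0, 0, 0, 0⟩, ⟨-2, -3, -4, -5, -4, -3, -2, -1⟩, true, []⟩, ⟨⟨0,
   0, 1, 0, 0, 0, 0, 0⟩, ⟨-2, -3, -4, -5, -4, -3, -2, -1⟩, true, []⟩, ⟨⟨0, 0, 0, 0, 0, -1, -1,
   -1⟩, ⟨-2, -3, -4, -6, -5, -3, -2, -1⟩, false, []⟩, ⟨⟨0, 0, 0, 0, 0, -1, -1, -1⟩, ⟨-2, -3, -4,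
   -6, -5, -3, -2, -1⟩, false, []⟩],
   .cnj [0] 1,
   .col [(2, false), (0, false), (2, true), (0, true)] ⟨1, -19993, -19951, 20343, 22401, -39987,
   40101, 997⟩,
   .cnj [1, 0, 1, 0, 1, 0, 1, 0, 1, 0, 1, 0, 1, 0] 3,
   .col [(3, false), (0, false), (3, true), (0, true)] ⟨1, -19993, 49, 40343, -37599, 20013,
   -19899, 997⟩,
   .cnj [0, 1, 0, 1, 0, 1, 0, 1, 0] 5,
   .col [(1, false), (0, false), (1, true), (0, true)] ⟨1, 7, 49, 343, 22401, -39987, 40101,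
   -19003⟩,
   .cnj [0, 1, 0, 1, 0] 7,
   .col [(7, false), (0, false), (7, true), (0, true)] ⟨1, 7, 20049, -19657, 22401, -19987,
   20101, -19003⟩,
   .cnj [1, 0, 1, 0, 1, 0] 9,
   .col [(1, false), (0, false), (1, true), (0, true)] ⟨40001, -19993, 49, 343, 2401, 13, 101,
   997⟩,
   .cnj [1, 0, 1, 0, 1, 0, 1, 0, 1, 0, 1, 0, 1, 0, 1] 8,
   .col [(1, false), (0, false), (1, true), (0, true)] ⟨40001, 7, -19951, 343, 2401, 13, 101,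
   997⟩,
   .cat [(0, true)],
   .cnj [1] 13,
   .cnj [1, 0, 1, 0, 1, 0, 1, 0, 1, 0, 1, 0] 15,
   .col [(1, false), (0, false), (1, true), (0, true)] ⟨1, 60007, 49, -19657, 2401, -19987,
   20101, -19003⟩,
   .cat [(0, true)],
   .cnj [0, 1, 0, 1, 0, 1, 0, 1, 0, 1, 0, 1, 0, 1] 15,
   .col [(4, false), (0, false), (4, true), (0, true)] ⟨1, 7, 20049, 343, 2401, -19987, 101, 997⟩,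
   .cnj [0, 1, 0, 1, 0, 1, 0, 1, 0, 1, 0, 1, 0, 1, 0, 1] 17,
   .col [(1, false), (0, false), (1, true), (0, true)] ⟨-19999, 7, 40049, -19657, 2401, 13, 101,
   997⟩,
   .cat [(0, true)],
   .cnj [1, 0, 1, 0, 1, 0, 1, 0, 1] 20,
   .col [(23, false), (0, false), (23, true), (0, true)] ⟨1, 7, -19951, 20343, 2401, -19987,
   20101, 997⟩,
   .col [(0, false), (21, false), (0, true), (21, true)] ⟨1, 7, -19951, 40343, -37599, 20013,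
   -19899, 20997⟩,
   .cnj [0, 1, 0, 1, 0, 1, 0, 1, 0, 1, 0, 1, 0] 26,
   .col [(26, false), (0, false), (26, true), (0, true)] ⟨1, 7, 49, 343, 22401, -19987, 101,
   -19003⟩,
   .cnj [0, 1, 0, 1, 0, 1, 0, 1, 0, 1] 25,
   .col [(1, false), (0, false), (1, true), (0, true)] ⟨1, 7, 49, -19657, 42401, -19987, 101,
   997⟩,
   .cat [(0, true)],
   .cnj [0, 1, 0, 1, 0, 1, 0, 1, 0, 1, 0, 1, 0, 1, 0, 1, 0, 1, 0, 1, 0, 1] 28,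
   .col [(27, false), (0, false), (27, true), (0, true)] ⟨1, -19993, 49, 20343, -17599, 20013,
   101, -19003⟩,
   .cnj [1, 0, 1, 0, 1, 0, 1, 0, 1, 0, 1, 0, 1, 0, 1, 0, 1, 0, 1, 0, 1, 0, 1] 30,
   .col [(1, false), (0, false), (1, true), (0, true)] ⟨1, 7, 49, 343, -17599, 40013, -19899,
   997⟩,
   .cnj [1, 0, 1, 0, 1, 0, 1, 0, 1, 0, 1, 0, 1, 0, 1, 0, 1, 0, 1, 0] 35,
   .col [(11, false), (0, false), (11, true), (0, true)] ⟨1, 7, 49, 343, 2401, -19987, 40101,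
   -19003⟩,
   .cat [(0, true)],
   .cnj [0, 1, 0, 1, 0, 1, 0, 1, 0, 1, 0] 38,
   .col [(24, false), (0, false), (24, true), (0, true)] ⟨1, -19993, 49, 20343, 2401, -19987,
   -19899, 60997⟩,
   .cat [(0, true)],
   .cnj [0, 1, 0] 41,
   .col [(27, false), (0, false), (27, true), (0, true)] ⟨-19999, 7, 20049, 343, 2401, 13,
   -19899, 20997⟩,
   .cnj [0, 1, 0, 1, 0, 1, 0, 1, 0, 1, 0, 1, 0, 1, 0, 1, 0] 43,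
   .col [(1, false), (0, false), (1, true), (0, true)] ⟨-59999, 20007, 40049, -19657, 22401,
   -19987, 101, 997⟩,
   .cat [(0, true)],
   .col [(45, false), (7, false), (45, true), (7, true)] ⟨1, -39993, 49, 20343, 2401, 13, 101,
   997⟩,
   .col [(46, false), (35, false), (46, true), (35, true)] ⟨20001, 7, -19951, 20343, 2401,
   -19987, 101, 997⟩,
   .cnj [1, 0, 1, 0, 1, 0, 1, 0, 1, 0, 1, 0, 1, 0, 1, 0, 1] 45,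
   .col [(1, false), (0, false), (1, true), (0, true)] ⟨20001, 7, -39951, 20343, 2401, 13, 101,
   997⟩,
   .col [(41, false), (16, false), (41, true), (16, true)] ⟨1, 20007, 20049, -39657, 22401, 13,
   101, 997⟩,
   .cat [(0, true)],
   .col [(37, false), (48, false), (37, true), (48, true)] ⟨1, 7, 49, 20343, -17599, 13, -19899,
   20997⟩,
   .cnj [1, 0, 1, 0, 1, 0, 1, 0, 1, 0, 1] 50,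
   .col [(1, false), (0, false), (1, true), (0, true)] ⟨1, 7, 49, 20343, -37599, 20013, 101, 997⟩,
   .cnj [0, 1, 0, 1, 0, 1, 0, 1, 0, 1, 0, 1, 0, 1, 0, 1, 0, 1] 52,
   .col [(55, false), (0, false), (55, true), (0, true)] ⟨1, 7, 49, 343, 22401, -39987, 20101,
   997⟩,
   .col [(10, false), (30, false), (10, true), (30, true)] ⟨1, -19993, 49, 343, 22401, 13,
   -19899, 997⟩,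
   .col [(0, false), (54, false), (0, true), (54, true)] ⟨1, -19993, 49, 20343, -17599, 40013,
   -59899, 20997⟩,
   .cat [(0, true)],
   .col [(59, false), (44, false), (59, true), (44, true)] ⟨1, 7, 49, 343, 2401, 13, 20101,
   -39003⟩]

end Pool.Agent.Lib.MP_cad414_al.Cg.XE.E8

namespace Pool.Agent.Lib.MP_cad414_al.Cg

open XE XE.E8

theorem e8_three {G F : Type} [Group G] [IsSimpleGroup G] [Field F] [Finite F] {S : Type}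
    [Group S] {x : (Fin 8 → ℤ) → F → S} {θ : RingAut F} (hG : NA G) (hx : St x) (hθ : θ ^ 1 = 1)
    (h : Img G (Fold x θ [[0], [1], [2], [3], [4], [5], [6], [7]])) : 3 ∈ GenSizes G :=
  split_three hG hx hθ h M1 Mg M2 ⟨0, 1, 1, 2, 2, 1, 1, 1⟩ ⟨1, 1, 2, 3, 2, 1, 1, 0⟩ y2 2 0 2 outs
    p0 p1 p2 (by decide +kernel) (by decide) rfl

end Pool.Agent.Lib.MP_cad414_al.Cg
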