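import Pool.Agent.Lib.MP_cad414_al.Cg.XF4c

/-! The groups of type `F4` and `2E6`. -/

namespace Pool.Agent.Lib.MP_cad414_al.Cg.XE.F4

def τ (m : Mono) : Mono :=
  if m.isEmpty then [] else
    [m.headD 0, m.tail.headD 0, m.tail.tail.tail.headD 0, m.tail.tail.headD 0]

def sw (o : R × R) : List Word :=
  [[(o.1, [(1, [0, 1, 1, 0])]), (o.2, [(1, [0, 1, 0, 1])])],
    [(o.1, [(1, [0, 1, 0, 1])]), (o.2, [(1, [0, 1, 1, 0])])]]

def sh : List (R × R) :=
  [(sr 2 1, sr 4 1), (sr 0 1, sr 5 1), (sr 2 (-1), sr 4 (-1)), (sr 0 (-1), sr 5 (-1))]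

variable {K S : Type} [Field K] [Group S] {θ : RingAut K}

theorem hτ (h2 : θ ^ 2 = 1) {l c : K} (s : K) (hl : θ l = l) (hc : θ c = c) (m : Mono) :
    evM [l, c, s, θ s] (τ m) = (θ : K →+* K) (evM [l, c, s, θ s] m) := by
  have e : θ (θ s) = s := by
    have := congrArg (· s) h2
    simpa [pow_two] using this
  unfold τ
  split_ifs with h
  · rw [List.isEmpty_iff.1 h]; simp [evM]
  · rw [evM_cons l _ m, evM_cons c _ m.tail, evM_cons s _ m.tail.tail,
      evM_cons (θ s) _ m.tail.tail.tail]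
    simp only [evM, map_mul, map_zpow₀, RingHom.coe_coe, hl, hc, e, map_one]
    ring

theorem short {X : R → K → S} (hX : StR X) (h2 : θ ^ 2 = 1) {L : Subgroup S} {l s : K}
    (hs : ∀ t, ∃ c1 c2, θ c1 = c1 ∧ θ c2 = c2 ∧ t = c1 * s + c2 * θ s) {o : R × R}
    (h1 : o.1.ip o.1 = 2) (h1' : o.2.ip o.2 = 2) (h3 : 0 ≤ o.1.ip o.2)
    (h : ∀ c, c ≠ 0 → θ c = c → ∀ w ∈ sw o, evW X [l, c, s, θ s] w ∈ L) (t : K) :
    pY X (θ : K →+* K) [o.1, o.2] t ∈ L := by
  have e : θ (θ s) = s := by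
    have := congrArg (· s) h2
    simpa [pow_two] using this
  obtain ⟨c1, c2, a1, a2, rfl⟩ := hs t
  have k1 : X o.1 (c1 * s) * X o.2 (c1 * θ s) ∈ L := by
    by_cases h0 : c1 = 0
    · simp [h0, hX.zero h1, hX.zero h1']
    · simpa [evW, evP, evM] using h c1 h0 a1 _ List.mem_cons_self
  have k2 : X o.1 (c2 * θ s) * X o.2 (c2 * s) ∈ L := by
    by_cases h0 : c2 = 0
    · simp [h0, hX.zero h1, hX.zero h1']
    · simpa [evW, evP, evM] using h c2 h0 a2 _ (List.mem_cons_of_mem _ List.mem_cons_self)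
  have := mul_mem k1 k2
  simp only [pY, RingHom.coe_coe, map_add, map_mul, a1, a2, e, mul_one]
  rwa [hX.add h1, hX.add h1', mul_assoc, ← mul_assoc (X o.1 (c2 * θ s)), hX.cm0 h1 h1' h3,
    mul_assoc, ← mul_assoc]

theorem c0 : (frameb 0 (orbs [[1], [3], [2, 4], [0, 5]]).flatten M1 M2 y y2 &&
    closedb (nwords 0 Mg) && actb 0 Mg (nwords 0 M1) (nwords 0 M2) &&
    check 0 (okF 0 τ (orbs [[1], [3], [2, 4], [0, 5]])) [] p0
      [nwords 0 M1, nwords 0 Mg, y]) = true := by decide +kernel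

theorem c1 : check 0 no [y ++ y2, nwords 0 M2, nwords 0 M1] p1
    [[(r0, [(1, [(e0 : Int), 0, 0, 0])])]] = true := by decide +kernel

theorem c2 : check 0 no [[(r0, [(1, [0, 1, 0, 0])])], y ++ y2, nwords 0 M2, nwords 0 M1] p2
    (lw 2 (r0, k0) :: lw 2 (r0, k0 + j0) :: outs.map (lw 2)) = true := by decide +kernel

theorem c3 : check 0 (okF 0 τ (outs.map fun o => [o.1])) [y ++ y2, nwords 0 M2, nwords 0 M1] p3
    (sh.map sw).flatten = true := by decide +kernel

end Pool.Agent.Lib.MP_cad414_al.Cg.XE.F4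

namespace Pool.Agent.Lib.MP_cad414_al.Cg

open XE XE.F4

theorem f4_three {G F : Type} [Group G] [IsSimpleGroup G] [Field F] [Finite F] {S : Type}
    [Group S] {x : (Fin 8 → ℤ) → F → S} {θ : RingAut F} (hG : NA G) (hx : St x) (hθ : θ ^ 2 = 1)
    (h : Img G (Fold x θ [[1], [3], [2, 4], [0, 5]])) : 3 ∈ GenSizes G := by
  obtain ⟨l, l0, l1, l2⟩ := exists_gen θ
  obtain ⟨s, s0, s1⟩ := two_full θ hθ
  have hX := stR hx
  have hv : ∀ a ∈ [l, s, θ s], a ≠ 0 := by simp [l0, s0]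
  refine fold_frame hx (p := 0) Int.cast_zero hG h c0 hv (hτ hθ s l1 (map_one θ))
    fun L hL => fold_le.2 ?_
  have k1 := check_ok hX (ne_env hv one_ne_zero) Int.cast_zero no_ok c1 (hL 1 one_ne_zero) _
    List.mem_cons_self
  have k2 := long_full hX l0 l1 l2 (r := r0) (by decide) (pow_ne_zero e0 l0)
    (by rw [map_pow, l1]) (by simpa [evW, evP, evM] using k1) (j := j0) (by decide)
    (outs := outs) (by decide) (v := [s, θ s]) fun c hc hm =>
      check_ok hX (ne_env hv hc) Int.cast_zero no_ok c2 (by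
        rw [List.forall_mem_cons]
        exact ⟨by simpa [evW, evP, evM] using hm, hL c hc⟩)
  have k3 : ∀ o ∈ sh, ∀ t, pY (fun r t => x r.v t) (θ : F →+* F) [o.1, o.2] t ∈ L :=
    fun o ho => short hX hθ s1 (by revert o; decide) (by revert o; decide) (by revert o; decide)
      fun c hc hc' w hw => check_ok hX (ne_env hv hc) Int.cast_zero
        (okF_ok Int.cast_zero (hτ hθ s l1 hc') k2) c3 (hL c hc) w
        (List.mem_flatten.2 ⟨_, List.mem_map_of_mem ho, hw⟩)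
  have k4 : ∀ r, (outs.any fun o => r.eqb o.1) = true → ∀ t, (θ : F →+* F)^[1] t = t →
      pY (fun r t => x r.v t) (θ : F →+* F) [r] t ∈ L := fun r hr => by
    obtain ⟨o, ho, e⟩ := List.any_eq_true.1 hr
    rw [R.eq_of_eqb e]
    exact k2 _ (List.mem_map_of_mem ho)
  simp only [sh, List.forall_mem_cons] at k3
  simp only [orbs, List.map_cons, List.map_nil, List.cons_append, List.nil_append,
    List.forall_mem_cons]
  exact ⟨k4 _ (by decide), k4 _ (by decide), fun t _ => k3.1 t, fun t _ => k3.2.1 t,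
    k4 _ (by decide), k4 _ (by decide), fun t _ => k3.2.2.1 t, fun t _ => k3.2.2.2.1 t, by simp⟩

end Pool.Agent.Lib.MP_cad414_al.Cg
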