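import Pool.Agent.Lib.MP_cad414_al.Cg.XG2c

/-! The groups of type `G2` and `3D4`. -/

namespace Pool.Agent.Lib.MP_cad414_al.Cg.XE.G2

def τ (m : Mono) : Mono :=
  if m.isEmpty then [] else
    [m.headD 0, m.tail.headD 0, m.tail.tail.tail.tail.headD 0, m.tail.tail.headD 0,
      m.tail.tail.tail.headD 0]

def ya (e : ℤ) (f g h : Poly) : Word := [(sr 1 e, f), (sr 2 e, g), (sr 4 e, h)]

def oa (e : ℤ) : List R := [sr 1 e, sr 2 e, sr 4 e]

def LO : List (List R) := outso.map fun o => [o.1]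

def wo (o : List R) (c : Int) (m : Mono) : Word := o.map fun r => (r, [(c, m)])

def halfb (o o' : List R) (M : List ME) (φ : R) (sw : List Nat) (Mn : List ME) : Bool :=
  actb 0 M (wo o 1 [1]) (wo o (-1) [1]) && actb 0 M (wo o' 1 []) (wo o' (-1) []) &&
    colb 0 φ (wo o (-1) [1] ++ wo o 1 [1]) [] && colb 0 φ.neg (wo o' (-1) [] ++ wo o' 1 []) [] &&
    colb 0 φ (wo o 1 [1] ++ wo o 1 [1]) (wo o 2 [1]) && closedb (nwords 0 M) &&
    closedb (nwords 0 Mn) && goodb (wo o' 1 [] ++ wo o 1 [] ++ wo o' 1 []) &&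
    (swaps sw (wo o' 1 [] ++ wo o 1 [] ++ wo o' 1 [])).any (weqb (nwords 0 Mn)) &&
    okF 0 id (orbs [[3], [1, 2, 4]]) (wo o 1 [1]) && okF 0 id (orbs [[3], [1, 2, 4]]) (wo o' 1 [])

variable {K S : Type} [Field K] [Group S] {θ : RingAut K}

theorem hτ (h3 : ∀ s, θ (θ (θ s)) = s) {l c : K} (s : K) (hl : θ l = l) (hc : θ c = c)
    (m : Mono) : evM [l, c, s, θ s, θ (θ s)] (τ m) =
      (θ : K →+* K) (evM [l, c, s, θ s, θ (θ s)] m) := by
  unfold τ
  split_ifs with h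
  · rw [List.isEmpty_iff.1 h]; simp [evM]
  · rw [evM_cons l _ m, evM_cons c _ m.tail, evM_cons s _ m.tail.tail,
      evM_cons (θ s) _ m.tail.tail.tail, evM_cons (θ (θ s)) _ m.tail.tail.tail.tail]
    simp only [evM, map_mul, map_zpow₀, RingHom.coe_coe, hl, hc, h3, map_one]
    ring

theorem half {h E F : S} (a : h * E * h⁻¹ * E = 1) (b : h * F * h⁻¹ * F = 1) :
    F * (E * E) * F * h = F * E * h * (F * E)⁻¹ := by
  have k : ∀ {E : S}, h * E * h⁻¹ * E = 1 → E * h = h * E⁻¹ := fun {E} a => by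
    rw [← inv_inv E, inv_inv E⁻¹, ← congrArg (·⁻¹ * h) (eq_inv_of_mul_eq_one_left a)]
    group
  have a' := k a
  have b' := k b
  rw [mul_assoc _ F h, b', mul_assoc F, mul_assoc E E, ← mul_assoc E h, a']
  group

theorem half_ok {x : (Fin 8 → ℤ) → K → S} (hx : St x) (h2 : (2 : K) ≠ 0) {o o' : List R}
    {M Mn : List ME} {φ : R} {sw : List Nat} (h : halfb o o' M φ sw Mn = true) :
    ∃ P ∈ Fold x θ [[3], [1, 2, 4]], evW (fun r t => x r.v t) [] (nwords 0 (Mn ++ M)) =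
      P * evW (fun r t => x r.v t) [] (nwords 0 M) * P⁻¹ := by
  simp only [halfb, Bool.and_eq_true, Option.any_eq_true] at h
  obtain ⟨⟨⟨⟨⟨⟨⟨⟨⟨⟨a1, a2⟩, a3⟩, a4⟩, a5⟩, a6⟩, a7⟩, a8⟩, u, a9, a10⟩, a11⟩, a12⟩ := h
  have hX := stR hx
  have hv : ∀ a ∈ [(2 : K)⁻¹], a ≠ 0 := by simpa using h2
  have hp : ((0 : ℤ) : K) = 0 := Int.cast_zero
  have ht : ∀ m, evM [(2 : K)⁻¹] (id m) = (θ : K →+* K) (evM [(2 : K)⁻¹] m) := fun m => by
    rw [id, evM_cons]; simp [evM, map_ofNat]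
  have e : ∀ o : List R, evW (fun r t => x r.v t) [(2 : K)⁻¹] (wo o 2 [1]) =
      evW (fun r t => x r.v t) [(2 : K)⁻¹] (wo o 1 []) := fun o => by
    induction o with
    | nil => rfl
    | cons r o ih =>
      simp only [wo, List.map_cons, evW] at ih ⊢
      rw [ih]; simp [evP, evM, h2]
  have b1 := colb_ok hX hv hp a3
  have b2 := colb_ok hX hv hp a4
  have b3 := colb_ok hX hv hp a5
  have b4 := (swaps_ok (v := [(2 : K)⁻¹]) hX sw _ (good_of_b a8) a9).2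
  rw [evW_append, actb_ok hX hv hp a1] at b1
  rw [evW_append, actb_ok hX hv hp a2] at b2
  rw [evW_append, e] at b3
  rw [← eq_of_weqb a10, evW_append, evW_append, ← b3] at b4
  refine ⟨_, mul_mem (okF_ok hp ht (fold_le.1 le_rfl) _ a12)
    (okF_ok hp ht (fold_le.1 le_rfl) _ a11), ?_⟩
  rw [nwords_append, evW_append, ← evW_closed _ [(2 : K)⁻¹] a6, ← evW_closed _ [(2 : K)⁻¹] a7, b4]
  exact half b1 b2

theorem pY_add {X : R → K → S} (hX : StR X) (a b : K) :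
    pY X (θ : K →+* K) (oa 1) (a + b) =
      pY X (θ : K →+* K) (oa 1) a * pY X (θ : K →+* K) (oa 1) b := by
  simp only [oa, pY, map_add, mul_one]
  rw [hX.add (by decide), hX.add (by decide), hX.add (by decide)]
  simp only [mul_assoc]
  congr 1
  rw [← mul_assoc (X (sr 1 1) b), hX.cm0 (r := sr 1 1) (by decide) (by decide) (by decide),
    mul_assoc]
  congr 1
  rw [← mul_assoc (X (sr 2 1) _), hX.cm0 (r := sr 2 1) (by decide) (by decide) (by decide),
    mul_assoc, ← mul_assoc (X (sr 1 1) b), hX.cm0 (r := sr 1 1) (by decide) (by decide) (by decide),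
    mul_assoc]

theorem c1 : check 0 (okF 0 τ LO)
    [ya 1 [(1, [0, 0, 1, 0, 0])] [(1, [0, 0, 0, 1, 0])] [(1, [0, 0, 0, 0, 1])], nwords 0 Ms] s1
    [ya 1 [(1, [0, 1, 1, 0, 0])] [(1, [0, 1, 0, 1, 0])] [(1, [0, 1, 0, 0, 1])],
      ya (-1) [(1, [0, 0, 1, 0, 0])] [(1, [0, 0, 0, 1, 0])] [(1, [0, 0, 0, 0, 1])],
      ya 1 [(1, [0, 0, 0, 1, 1])] [(1, [0, 0, 1, 0, 1])] [(1, [0, 0, 1, 1, 0])]] = true := by
  decide +kernel

theorem short [Finite K] {x : (Fin 8 → ℤ) → K → S} (hx : St x) (h3 : θ ^ 3 = 1) {L : Subgroup S}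
    (hl : ∀ o ∈ LO, ∀ t, (θ : K →+* K)^[o.length] t = t →
      pY (fun r t => x r.v t) (θ : K →+* K) o t ∈ L)
    (hM : evW (fun r t => x r.v t) [] (nwords 0 Ms) ∈ L) {s : K} (h0 : s ≠ 0)
    (h1 : θ = 1 ∨ θ s ≠ s) (hs : pY (fun r t => x r.v t) (θ : K →+* K) (oa 1) s ∈ L) :
    Fold x θ [[3], [1, 2, 4]] ≤ L := by
  have hX := stR hx
  have hh := xf_three θ h3
  have z : ∀ e, e = 1 ∨ e = -1 → pY (fun r t => x r.v t) (θ : K →+* K) (oa e) 0 = 1 := by
    rintro _ (rfl | rfl) <;>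
    · simp only [oa, pY, map_zero]
      rw [hX.zero (by decide), hX.zero (by decide), hX.zero (by decide)]; simp
  let A : AddSubgroup K :=
    { carrier := {t | pY (fun r t => x r.v t) (θ : K →+* K) (oa 1) t ∈ L}
      zero_mem' := by
        change pY _ _ _ _ ∈ L
        rw [z 1 (Or.inl rfl)]; exact one_mem L
      add_mem' := fun ha hb => by
        change pY _ _ _ _ ∈ L
        rw [pY_add hX]; exact mul_mem ha hb
      neg_mem' := fun {a} ha => by
        change pY _ _ _ _ ∈ L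
        have e := pY_add (θ := θ) hX (-a) a
        rw [neg_add_cancel, z 1 (Or.inl rfl)] at e
        rw [eq_inv_of_mul_eq_one_left e.symm]; exact inv_mem ha }
  have k : ∀ c, c ≠ 0 → θ c = c → ∀ t, t ≠ 0 → t ∈ A → c * t ∈ A ∧
      pY (fun r t => x r.v t) (θ : K →+* K) (oa (-1)) t ∈ L ∧ θ t * θ (θ t) ∈ A := by
    intro c c0 hc t t0 ht
    have := check_ok hX (v := [1, c, t, θ t, θ (θ t)]) (by simp [c0, t0]) Int.cast_zero
      (okF_ok Int.cast_zero (hτ hh t (map_one θ) hc) hl) c1 (by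
        simp only [List.forall_mem_cons]
        refine ⟨?_, by rw [evW_closed _ _ (by decide)]; exact hM, by simp⟩
        replace ht : pY _ _ _ _ ∈ L := ht
        simpa [ya, oa, pY, evW, evP, evM] using ht)
    simp only [List.forall_mem_cons] at this
    refine ⟨?_, ?_, ?_⟩
    · change pY _ _ _ _ ∈ L
      simpa [ya, oa, pY, evW, evP, evM, hc] using this.1
    · simpa [ya, oa, pY, evW, evP, evM] using this.2.1
    · change pY _ _ _ _ ∈ L
      simpa [ya, oa, pY, evW, evP, evM, hh, mul_comm] using this.2.2.1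
  have full := sharp_full θ h3 A (fun c hc t ht => by
      by_cases c0 : c = 0
      · rw [c0, zero_mul]; exact A.zero_mem
      by_cases t0 : t = 0
      · rw [t0, mul_zero]; exact A.zero_mem
      exact (k c c0 hc t t0 ht).1) (fun t ht => by
      by_cases t0 : t = 0
      · rw [t0, map_zero, zero_mul]; exact A.zero_mem
      exact (k 1 one_ne_zero (map_one θ) t t0 ht).2.2) hs h0 h1
  refine fold_le.2 ?_
  simp only [orbs, List.map_cons, List.map_nil, List.cons_append, List.nil_append,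
    List.forall_mem_cons]
  refine ⟨hl _ (by simp [LO, outso, sr]), fun t _ => full t, hl _ (by simp [LO, outso, sr]),
    fun t _ => ?_, by simp⟩
  by_cases t0 : t = 0
  · rw [t0]; exact (z (-1) (Or.inr rfl)).symm ▸ one_mem L
  exact (k 1 one_ne_zero (map_one θ) t t0 (full t)).2.1

theorem o0 : (frameb 0 (orbs [[3], [1, 2, 4]]).flatten (Mb ++ Mh2) Ms yo yo2 &&
    halfb (oa 1) (oa (-1)) Mh ⟨0, 1, 2, 0, 3, 0, 0, 0⟩ swa Ma &&
    halfb [sr 3 1] [sr 3 (-1)] Mh2 ⟨0, 0, 0, 1, 0, 0, 0, 0⟩ [] Mb &&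
    actb 0 Mm (nwords 0 Mh) (nwords 0 Mh2) && closedb (nwords 0 Mm) &&
    closedb (nwords 0 (Mb ++ Mh2)) &&
    check 0 (okF 0 τ (orbs [[3], [1, 2, 4]])) [] q0
      [nwords 0 (Mb ++ Mh2), nwords 0 Mm, yo]) = true := by decide +kernel

theorem o1 : check 0 no [yo ++ yo2, nwords 0 Ms, nwords 0 (Mb ++ Mh2)] q1
    [[(ro, [(4, [0, 0, 0, 0, 2]), (4, [0, 0, 0, 2, 0]), (4, [0, 0, 2, 0, 0]),
      (-1, [2, 0, 0, 0, 0])])]] = true := by decide +kernel

theorem o2 : check 0 no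
    [[(ro, [(1, [0, 1, 0, 0, 0])])], yo ++ yo2, nwords 0 Ms, nwords 0 (Mb ++ Mh2)] q2
    (lw 3 (ro, ko) :: lw 3 (ro, ko + jo) :: outso.map (lw 3)) = true := by decide +kernel

theorem o3 : check 0 (okF 0 τ LO) [yo ++ yo2, nwords 0 Ms, nwords 0 (Mb ++ Mh2)] q3
    [ya 1 [(2, [0, 0, 1, 0, 0])] [(2, [0, 0, 0, 1, 0])] [(2, [0, 0, 0, 0, 1])]] = true := by
  decide +kernel

theorem v0 : (frameb 2 (orbs [[3], [1, 2, 4]]).flatten Ms Me2 ye ye2 &&
    closedb (nwords 2 Meg) && actb 2 Meg (nwords 2 Ms) (nwords 2 Me2) &&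
    check 2 (okF 2 τ (orbs [[3], [1, 2, 4]])) [] e0
      [nwords 2 Ms, nwords 2 Meg, ye]) = true := by decide +kernel

theorem v1 : check 2 no [ye ++ ye2, nwords 2 Me2, nwords 2 Ms] e1
    [[(re, [(1, [0, 0, 0, 0, 0]), (1, [0, 0, 0, 0, 2]), (1, [0, 0, 0, 2, 0]),
      (1, [0, 0, 2, 0, 0])])]] = true := by decide +kernel

theorem v2 : check 2 no [[(re, [(1, [0, 1, 0, 0, 0])])], [(re, [(1, [1, 0, 0, 0, 0])])],
    ye ++ ye2, nwords 2 Me2, nwords 2 Ms] e2
    (lw 3 (re, ke) :: lw 3 (re, ke + je) :: outse.map (lw 3)) = true := by decide +kernel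

theorem v3 : check 2 (okF 2 τ LO) [ye ++ ye2, nwords 2 Me2, nwords 2 Ms] e3
    [ya 1 [(1, [0, 0, 0, 1, 1]), (1, [0, 0, 1, 0, 0])] [(1, [0, 0, 0, 1, 0]), (1, [0, 0, 1, 0, 1])]
      [(1, [0, 0, 0, 0, 1]), (1, [0, 0, 1, 1, 0])]] = true := by decide +kernel

variable {G : Type} [Group G] [IsSimpleGroup G] [Finite K] {x : (Fin 8 → ℤ) → K → S}

theorem odd (hG : NA G) (hx : St x) (hθ : θ ^ 3 = 1) (h2 : (2 : K) ≠ 0)
    (h : Img G (Fold x θ [[3], [1, 2, 4]])) : 3 ∈ GenSizes G := by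
  obtain ⟨l, l0, l1, l2⟩ := exists_gen θ
  obtain ⟨s, s0, s1, s2⟩ := choose_odd θ hθ h2 l0
  have hX := stR hx
  have hh := xf_three θ hθ
  have hp : ((0 : ℤ) : K) = 0 := Int.cast_zero
  have hv : ∀ a ∈ [l, s, θ s, θ (θ s)], a ≠ 0 := by simp [l0, s0]
  have ht := hτ hh s l1 (map_one θ)
  have c := o0
  rw [Bool.and_eq_true, Bool.and_eq_true, Bool.and_eq_true, Bool.and_eq_true, Bool.and_eq_true,
    Bool.and_eq_true] at c
  obtain ⟨⟨⟨⟨⟨⟨a1, a2⟩, a3⟩, a4⟩, a5⟩, a6⟩, a7⟩ := c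
  obtain ⟨P1, p1, e1⟩ := half_ok (θ := θ) hx h2 a2
  obtain ⟨P2, p2, e2⟩ := half_ok (θ := θ) hx h2 a3
  have e3 := actb_ok hX (v := []) (by simp) hp a4
  have k := check_ok hX (ne_env hv one_ne_zero) hp (okF_ok hp ht (fold_le.1 le_rfl)) a7 (by simp)
  simp only [List.forall_mem_cons] at k
  rw [evW_closed _ _ a6, evW_closed _ _ a5] at k
  refine frame hX hp hG h a1 hv fold_comm k.1
    (mul_mem (mul_mem p1 (inv_mem k.2.1)) (inv_mem p2)) k.2.2.1 ?_ rfl fun L _ l2' _ hL => ?_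
  · rw [e2, e3, show Ms = Ma ++ Mh from rfl, e1]; group
  have k1 := check_ok hX (ne_env hv one_ne_zero) hp no_ok o1 (hL 1 one_ne_zero) _
    List.mem_cons_self
  have k2 := long_full hX l0 l1 l2 (r := ro) (by decide) s2
    (by simp only [map_sub, map_mul, map_add, map_pow, l1, hh, map_ofNat]; ring)
    (xf_mem k1 (by simp only [evW, mul_one]; congr 1; simp [evP, evM, zpow_ofNat]; ring))
    (j := jo) (by decide) (outs := outso) (by decide) (v := [s, θ s, θ (θ s)]) fun c hc hm =>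
      check_ok hX (ne_env hv hc) hp no_ok o2 (by
        rw [List.forall_mem_cons]
        exact ⟨by simpa [evW, evP, evM] using hm, hL c hc⟩)
  have k3 := check_ok hX (ne_env hv one_ne_zero) hp (okF_ok hp ht k2) o3 (hL 1 one_ne_zero) _
    List.mem_cons_self
  refine short hx hθ k2 l2' (mul_ne_zero h2 s0) (s1.imp_right fun a b => a ?_)
    (by simpa [ya, oa, pY, evW, evP, evM, map_ofNat] using k3)
  rw [map_mul, map_ofNat] at b
  exact mul_left_cancel₀ h2 b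

theorem even (hG : NA G) (hx : St x) (hθ : θ ^ 3 = 1) (h2 : (2 : K) = 0) (hc : Nat.card K ≠ 2)
    (h : Img G (Fold x θ [[3], [1, 2, 4]])) : 3 ∈ GenSizes G := by
  obtain ⟨l, l0, l1, l2⟩ := exists_gen θ
  obtain ⟨s, s0, s1, s2, s3⟩ := choose_even θ hθ h2 hc l0 l1 l2
  have hX := stR hx
  have hh := xf_three θ hθ
  have hp : ((2 : ℤ) : K) = 0 := by exact_mod_cast h2
  have hv : ∀ a ∈ [l, s, θ s, θ (θ s)], a ≠ 0 := by simp [l0, s0]
  have ht := hτ hh s l1 (map_one θ)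
  refine fold_frame hx hp hG h v0 hv ht fun L hL => ?_
  have k1 := check_ok hX (ne_env hv one_ne_zero) hp no_ok v1 (hL 1 one_ne_zero) _
    List.mem_cons_self
  have k0 : x re.v l ∈ L := xf_mem k1 (by
    simp only [evW, mul_one]; congr 1; rw [← s1]; simp [evP, evM, zpow_ofNat]; ring)
  have k2 := long_full hX l0 l1 l2 (r := re) (by decide) l0 l1 k0
    (j := je) (by decide) (outs := outse) (by decide) (v := [s, θ s, θ (θ s)]) fun c hc hm =>
      check_ok hX (ne_env hv hc) hp no_ok v2 (by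
        rw [List.forall_mem_cons, List.forall_mem_cons]
        exact ⟨by simpa [evW, evP, evM] using hm, by simpa [evW, evP, evM] using k0, hL c hc⟩)
  have k3 := check_ok hX (ne_env hv one_ne_zero) hp (okF_ok hp ht k2) v3 (hL 1 one_ne_zero) _
    List.mem_cons_self
  have k4 := hL 1 one_ne_zero (nwords 2 Ms) (by simp)
  rw [evW_closed _ _ (by decide)] at k4
  exact short hx hθ k2 k4 s2 s3
    (by simpa [ya, oa, pY, evW, evP, evM, hh, add_comm, mul_comm] using k3)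

end Pool.Agent.Lib.MP_cad414_al.Cg.XE.G2

namespace Pool.Agent.Lib.MP_cad414_al.Cg

theorem g2_three {G F : Type} [Group G] [IsSimpleGroup G] [Field F] [Finite F] {S : Type}
    [Group S] {x : (Fin 8 → ℤ) → F → S} {θ : RingAut F} (hG : NA G) (hx : St x) (hθ : θ ^ 3 = 1)
    (h2 : Nat.card F ≠ 2) (h : Img G (Fold x θ [[3], [1, 2, 4]])) : 3 ∈ GenSizes G := by
  by_cases e : (2 : F) = 0
  exacts [XE.G2.even hG hx hθ e h2 h, XE.G2.odd hG hx hθ e h]

end Pool.Agent.Lib.MP_cad414_al.Cg
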