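import Pool.Agent.Lib.MP_cad414_al.Cg.XR1

/-! The large Ree groups and the Tits group. -/

namespace Pool.Agent.Lib.MP_cad414_al.Cg.XE.RF

def cjs : List Word → List R → Word → Option Word
  | [], _, w => some w
  | _ :: _, [], _ => none
  | z :: l, f :: q, w => (cjs l q w).bind fun u => collect 2 f 100000 [] (z ++ (u ++ winv 2 z []))

def zs : List Word := [wt (tk 0) [], wt (tk 4) [], wt (tk 0) [], wt (tk 4) [], wt (tk 0) []]

def swb (l : List Nat) (w u : Word) : Bool := goodb w && (swaps l w).any (weqb u)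

def nodes : List R :=
  (vw 1 [] ++ vw (-1) [] ++ gw 1 [] ++ gw (-1) []).map (·.1)

variable {K S : Type} [Field K] [Group S] {X : R → K → S} {φ : K →+* K}

theorem cjs_ok (hX : StR X) (hp : ((2 : ℤ) : K) = 0) : ∀ (l : List Word) (q : List R) (w : Word)
    {u : Word}, (∀ z ∈ l, Good z) → Good w → cjs l q w = some u → Good u ∧
      evW X [] u = (l.map (evW X [])).prod * evW X [] w * (l.map (evW X [])).prod⁻¹
  | [], _, w, u, _, hw, h => by
    simp only [cjs, Option.some.injEq] at h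
    subst h; exact ⟨hw, by simp⟩
  | _ :: _, [], _, _, _, _, h => by simp [cjs] at h
  | z :: l, f :: q, w, u, hl, hw, h => by
    simp only [cjs, Option.bind_eq_some_iff] at h
    obtain ⟨u', h1, h2⟩ := h
    obtain ⟨a, b⟩ := cjs_ok hX hp l q w (fun z hz => hl z (List.mem_cons_of_mem _ hz)) hw h1
    have hz := hl z List.mem_cons_self
    have k := winv_ok hX (v := []) (by simp) hp z [] hz Good.nil
    obtain ⟨a', b'⟩ := collect_ok hX (v := []) (by simp) hp f _ _ _ Good.nil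
      (hz.append (a.append k.1)) h2
    refine ⟨a', ?_⟩
    rw [b', evR, evW_append, evW_append, k.2, b, evW, List.map_cons, List.prod_cons]
    group

theorem swb_ok (hX : StR X) {l : List Nat} {w u : Word} (h : swb l w u = true) :
    evW X [] u = evW X [] w := by
  simp only [swb, Bool.and_eq_true, Option.any_eq_true] at h
  obtain ⟨h1, u', h2, h3⟩ := h
  rw [eq_of_weqb h3]
  exact (swaps_ok hX l w (good_of_b h1) h2).2

theorem j0 : check 2 no [gw 1 [], gw (-1) [], vw 1 [], vw (-1) []] a0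
    [nwords 2 M1, wt (tk 8) [], wt (tk 12) [], wt (tk 0) [], wt (tk 4) []] = true := by
  decide +kernel

theorem j1 : (zs.all goodb && goodb (wt (tk 8) []) && goodb (wt (tk 12) []) &&
    (cjs zs ch0 (wt (tk 8) [])).any (weqb rs0) && (cjs zs ch1 (wt (tk 12) [])).any (weqb rs1) &&
    swb sw1 (wt (tk 8) [] ++ wt (tk 12) [] ++ wt (tk 8) []) (nwords 2 M1) &&
    swb sw2 (rs0 ++ rs1 ++ rs0) (nwords 2 M2) &&
    colb 2 f0 (wt (tk 8) [] ++ wt (tk 8) []) []) = true := by decide +kernel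

theorem j2 : (check 2 no [vw 1 [], nwords 2 M2, nwords 2 M1, wt (tk 8) [], wt (tk 12) []] a1
      (cms.map (·.1) ++ cms.map (·.2.1)) &&
    check 2 no (cms.map (·.2.2.2)) a2 [nwords 2 M1, wt (tk 0) [], wt (tk 4) []] &&
    cms.all fun q => comb q.2.2.1 q.1 q.2.1 q.2.2.2) = true := by decide +kernel

theorem j3 : (actb 2 (M1 ++ M2) (vw 1 [1, 0, 0, 0]) y && actb 2 M1 (winv 2 y []) y2 && goodb y &&
    comb f7 (vw 1 [1, 0, 0, 0]) (wt (tk 12) []) [] &&
    check 2 no [y ++ y2, nwords 2 M2, nwords 2 M1] b1 [wt (tk 3) [3, 1, 0, 0]] &&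
    check 2 no [wt (tk 3) [0, 0, 1, 0], y ++ y2, nwords 2 M2, nwords 2 M1] b2
      [wt (tk 3) [4, 1, 1, 0], wt (tk 3) [4, 2, 1, 0]]) = true := by decide +kernel

theorem j4 : (closedb (nwords 2 (M1 ++ M1)) && nodes.all (fixb 2 (M1 ++ M1))) = true := by
  decide +kernel

theorem WT_add (hX : StR X) (a b : K) :
    WT X φ (tk 3) (a + b) = WT X φ (tk 3) a * WT X φ (tk 3) b := by
  simp only [WT, map_add]
  rw [hX.add (by decide), hX.add (by decide), hX.add (by decide)]
  simp only [mul_assoc]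
  congr 1
  rw [← mul_assoc (X (tk 3).1 b), hX.cm0 (r := (tk 3).1) (by decide) (by decide) (by decide),
    mul_assoc]
  congr 1
  rw [← mul_assoc (X (tk 3).2.1 _), hX.cm0 (r := (tk 3).2.1) (by decide) (by decide) (by decide),
    mul_assoc, ← mul_assoc (X (tk 3).1 b),
    hX.cm0 (r := (tk 3).1) (by decide) (by decide) (by decide), mul_assoc]

theorem wtm (hφ : ∀ t, φ (φ t) = t ^ 2) (a c : K) (o : R × R × R) (m : Mono) :
    evW X [a, φ a, c, φ c] (wt o m) = WT X φ o (evM [a, φ a, c, φ c] m) := by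
  simp [wt, WT, evW, evP, hτ hφ]

theorem main {G : Type} [Group G] [IsSimpleGroup G] [Finite K] (hX : StR X)
    (hp : ((2 : ℤ) : K) = 0) (hφ : ∀ t, φ (φ t) = t ^ 2) (hs : Function.Surjective φ) (hG : NA G)
    {H : Subgroup S} (h : Img G (⁅H, H⁆ : Subgroup S)) (hH : ∀ B : Subgroup S, H ≤ B ↔
      ∀ e, e = 1 ∨ e = -1 → ∀ t, GT X φ e t ∈ B ∧ VT X φ e t ∈ B) : 3 ∈ GenSizes G := by
  obtain ⟨l, l0, la, lb⟩ := exists_gen (1 : RingAut K)
  obtain ⟨a, rfl⟩ := hs l
  have a0' : a ≠ 0 := fun e => l0 (by rw [e, map_zero])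
  have g := (hH H).1 le_rfl
  have hv : ∀ z ∈ ([] : List K), z ≠ 0 := by simp
  have m0 := check_ok (L := H) hX hv hp no_ok j0 (by
    simp only [List.forall_mem_cons, gw1 (φ := φ), vw1 (φ := φ)]
    exact ⟨(g 1 (Or.inl rfl) 1).1, (g _ (Or.inr rfl) 1).1, (g 1 (Or.inl rfl) 1).2,
      (g _ (Or.inr rfl) 1).2, by simp⟩)
  simp only [List.forall_mem_cons] at m0
  have c := j1
  simp only [Bool.and_eq_true, Option.any_eq_true, List.all_eq_true] at c
  obtain ⟨⟨⟨⟨⟨⟨⟨c1, c2⟩, c3⟩, u1, c4, c4'⟩, u2, c5, c5'⟩, c6⟩, c7⟩, c8⟩ := c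
  have e0 := (cjs_ok hX hp _ _ _ (fun z hz => good_of_b (c1 z hz)) (good_of_b c2) c4).2
  have e1 := (cjs_ok hX hp _ _ _ (fun z hz => good_of_b (c1 z hz)) (good_of_b c3) c5).2
  have e2 := swb_ok hX c6
  have e3 := swb_ok hX c7
  have e4 := colb_ok hX hv hp c8
  rw [evW_append, evW_append] at e2 e3
  rw [evW_append, evW] at e4
  rw [eq_of_weqb c4', eq_of_weqb c5', e0, e1] at e3
  have gm : ∀ B : Subgroup S, evW X [] (wt (tk 0) []) ∈ B → evW X [] (wt (tk 4) []) ∈ B →
      (zs.map (evW X [])).prod ∈ B := fun B h1 h2 =>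
    mul_mem h1 (mul_mem h2 (mul_mem h1 (mul_mem h2 (mul_mem h1 (one_mem B)))))
  generalize (zs.map (evW X [])).prod = g0 at gm e3
  have e5 : evW X [] (nwords 2 M2) = g0 * evW X [] (nwords 2 M1) * g0⁻¹ := by
    rw [e3, e2]; group
  have t2 : evW X [] (nwords 2 M2) ∈ H := e5 ▸ mul_mem (mul_mem (gm H m0.2.2.2.1 m0.2.2.2.2.1)
    m0.1) (inv_mem (gm H m0.2.2.2.1 m0.2.2.2.2.1))
  have c := j2
  rw [Bool.and_eq_true, Bool.and_eq_true, List.all_eq_true] at c
  have m1 := check_ok (L := H) hX hv hp no_ok c.1.1 (by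
    simp only [List.forall_mem_cons, vw1 (φ := φ)]
    exact ⟨(g 1 (Or.inl rfl) 1).2, t2, m0.1, m0.2.1, m0.2.2.1, by simp⟩)
  have m2 := check_ok (L := ⁅H, H⁆) hX hv hp no_ok c.1.2 fun w hw => by
    obtain ⟨q, hq, rfl⟩ := List.mem_map.1 hw
    rw [← comb_ok hX hv hp (c.2 q hq)]
    exact Subgroup.commutator_mem_commutator
      (m1 _ (List.mem_append_left _ (List.mem_map_of_mem hq)))
      (m1 _ (List.mem_append_right _ (List.mem_map_of_mem hq)))
  simp only [List.forall_mem_cons] at m2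
  have d := j3
  rw [Bool.and_eq_true, Bool.and_eq_true, Bool.and_eq_true, Bool.and_eq_true,
    Bool.and_eq_true] at d
  obtain ⟨⟨⟨⟨⟨d1, d2⟩, d3⟩, d4⟩, d5⟩, d6⟩ := d
  have e6 := comb_ok hX (env_ne (φ := φ) a0' one_ne_zero) hp d4
  rw [vwa, evW_closed (w := wt (tk 12) []) _ _ (by decide), evW] at e6
  have mv := (g 1 (Or.inl rfl) a).2
  have mw := mul_mem m0.1 t2
  have d := j4
  rw [Bool.and_eq_true] at d
  refine three_of hX hp hG h M1 nodes d.1 d.2 (fun z hz s hs => ?_) m2.1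
    (gm _ m2.2.1 m2.2.2.1) (mul_mem (Subgroup.commutator_mem_commutator mw mv)
      (Subgroup.commutator_mem_commutator mv m0.2.1)) fun L l1 l2 l3 => ?_
  · have k : ∀ r ∈ nodes, ∀ s, X r s ∈ Subgroup.centralizer {z} := fun r hr s =>
      Subgroup.mem_centralizer_singleton_iff.2 (hz r hr s).symm.eq
    simp only [nodes, vw, gw, List.cons_append, List.nil_append, List.map_cons, List.map_nil,
      List.forall_mem_cons] at k
    obtain ⟨k1, k2, k3, k4, k5, k6, k7, k8, k9, k10, k11, k12, k13, k14, k15, k16, -⟩ := k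
    have : H ≤ Subgroup.centralizer {z} := (hH _).2 (by
      rintro _ (rfl | rfl) t
      · exact ⟨mul_mem (k11 _) (mul_mem (k12 _) (k13 _)), mul_mem (k1 _) (mul_mem (k2 _)
          (mul_mem (k3 _) (mul_mem (k4 _) (k5 _))))⟩
      · exact ⟨mul_mem (k14 _) (mul_mem (k15 _) (k16 _)), mul_mem (k6 _) (mul_mem (k7 _)
          (mul_mem (k8 _) (mul_mem (k9 _) (k10 _))))⟩)
    exact (Subgroup.mem_centralizer_singleton_iff.1
      (this (((Subgroup.commutator_le_sup H H).trans (sup_idem H).le) hs))).symm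
  rw [← e5] at l2
  have b : ∀ c, c ≠ 0 → ∀ w ∈ [y ++ y2, nwords 2 M2, nwords 2 M1],
      evW X [a, φ a, c, φ c] w ∈ L := fun c hc => by
    have hc' := env_ne (φ := φ) a0' hc
    simp only [List.forall_mem_cons]
    refine ⟨?_, by rw [evW_closed _ _ (by decide)]; exact l2,
      by rw [evW_closed _ _ (by decide)]; exact l1, by simp⟩
    rw [evW_append, actb_ok hX hc' hp d2, evW_winv hX hc' hp d3, actb_ok hX hc' hp d1, vwa,
      evW_closed (w := nwords 2 M1) _ _ (by decide),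
      evW_closed (w := nwords 2 (M1 ++ M2)) _ _ (by decide), nwords_append, evW_append]
    refine xf_mem (mul_mem l3 (inv_mem l1)) ?_
    generalize evW X [] (nwords 2 M1) * evW X [] (nwords 2 M2) = w
    rw [e2, commutatorElement_def, commutatorElement_def]
    generalize evW X [] (wt (tk 8) []) = x0 at e4
    generalize evW X [] (wt (tk 12) []) = x8 at e6
    generalize VT X φ 1 a = v at e6
    have q1 : x0⁻¹ = x0 := inv_eq_of_mul_eq_one_right e4
    have q2 : x8 = v⁻¹ * x8 * v := by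
      rw [mul_assoc, eq_inv_mul_iff_mul_eq, ← mul_inv_eq_iff_eq_mul, ← mul_inv_eq_one]; exact e6
    have q3 : x0 * x8 * x0 = x0 * v⁻¹ * x0⁻¹ * (x0 * x8 * x0) * (x0 * v⁻¹ * x0⁻¹)⁻¹ := by
      calc x0 * x8 * x0 = x0 * (v⁻¹ * x8 * v) * x0⁻¹ := by rw [← q2, q1]
        _ = x0 * v⁻¹ * x8 * (x0 * x0) * v * x0⁻¹ := by rw [e4]; group
        _ = _ := by group
    generalize x0 * x8 * x0 = t at q3
    calc _ = w * v * w⁻¹ * t * (w * v * w⁻¹)⁻¹ * t⁻¹ := by group
      _ = w * v * w⁻¹ * (x0 * v⁻¹ * x0⁻¹ * t * (x0 * v⁻¹ * x0⁻¹)⁻¹) * (w * v * w⁻¹)⁻¹ * t⁻¹ := by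
        rw [← q3]
      _ = _ := by group
  let A : AddSubgroup K :=
    { carrier := {t | WT X φ (tk 3) t ∈ L}
      zero_mem' := by
        change WT _ _ _ _ ∈ L
        rw [WT_zero hX (tk_mem (by decide))]; exact one_mem L
      add_mem' := fun ha hb => by
        change WT _ _ _ _ ∈ L
        rw [WT_add hX]; exact mul_mem ha hb
      neg_mem' := fun {a} ha => by
        change WT _ _ _ _ ∈ L
        have e := WT_add (φ := φ) hX (-a) a
        rw [neg_add_cancel, WT_zero hX (tk_mem (by decide))] at e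
        rw [eq_inv_of_mul_eq_one_left e.symm]; exact inv_mem ha }
  have k : ∀ c ∈ A, a ^ 4 * φ a * c ∈ A ∧ a ^ 4 * φ a * φ a ^ 1 * c ∈ A := fun c hc => by
    by_cases c0 : c = 0
    · rw [c0, mul_zero, mul_zero]; exact ⟨A.zero_mem, A.zero_mem⟩
    have := check_ok hX (env_ne (φ := φ) a0' c0) hp no_ok d6 (by
      rw [List.forall_mem_cons, wtc]; exact ⟨hc, b c c0⟩)
    simp only [List.forall_mem_cons, wtm hφ] at this
    exact ⟨xf_mem (L := A) this.1 (by simp [evM, zpow_ofNat]; ring),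
      xf_mem (L := A) this.2.1 (by simp [evM, zpow_ofNat]; ring)⟩
  have full := full_of_mult 1 la lb A (mul_ne_zero (pow_ne_zero 4 a0') l0) (Or.inl rfl)
    (fun c hc => (k c hc).1) fun c hc => (k c hc).2
  have s0 := check_ok hX (env_ne (φ := φ) a0' one_ne_zero) hp no_ok d5 (b 1 one_ne_zero) _
    List.mem_cons_self
  rw [wtm hφ] at s0
  refine der_le hX hp hφ (fun B => (hH B).2) (allT hX hp hφ l1 l2 fun t => ?_)
  have := full (t / evM [a, φ a, 1, φ 1] [3, 1, 0, 0]) rfl _ s0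
  rwa [div_mul_cancel₀ _ (evM_ne (env_ne a0' one_ne_zero) _)] at this

end Pool.Agent.Lib.MP_cad414_al.Cg.XE.RF

namespace Pool.Agent.Lib.MP_cad414_al.Cg

open XE XE.RF

theorem rf4_three {G F : Type} [Group G] [IsSimpleGroup G] [Field F] [Finite F] {S : Type}
    [Group S] {x : (Fin 8 → ℤ) → F → S} {θ : RingAut F} (hG : NA G) (hx : St x)
    (hθ : ∀ t, θ (θ t) ^ 2 = t) (h : Img G (commutator (RF4 x θ))) : 3 ∈ GenSizes G := by
  have h2 : (2 : F) = 0 := by
    have := hθ (-1)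
    rw [map_neg, map_neg, map_one, map_one] at this
    linear_combination this
  refine main (stR hx) (φ := (θ.symm : F →+* F)) (by exact_mod_cast h2)
    (fun t => by simpa using (hθ (θ.symm (θ.symm t))).symm) θ.symm.surjective hG h.of_commutator
    fun B => ?_
  rw [RF4, Subgroup.closure_le]
  constructor
  · rintro hB _ (rfl | rfl) t
    · exact ⟨hB ⟨1, θ.symm t, Or.inl (by simp [GT, sr_v, mul_assoc])⟩,
        hB ⟨1, θ.symm t, Or.inr (by simp [VT, sr_v, v_add, mul_assoc])⟩⟩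
    · exact ⟨hB ⟨-1, θ.symm t, Or.inl (by simp [GT, sr_v, mul_assoc])⟩,
        hB ⟨-1, θ.symm t, Or.inr (by simp [VT, sr_v, v_add, mul_assoc])⟩⟩
  · rintro hB _ ⟨e, t, rfl | rfl⟩
    · have := (hB e (Int.units_eq_one_or e |>.imp (congrArg _) (congrArg _)) (θ t)).1
      simpa [GT, sr_v, mul_assoc] using this
    · have := (hB e (Int.units_eq_one_or e |>.imp (congrArg _) (congrArg _)) (θ t)).2
      simpa [VT, sr_v, v_add, mul_assoc] using this

end Pool.Agent.Lib.MP_cad414_al.Cg
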