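import Pool.Agent.Lib.MP_cad414_al.Cg.XE6
import Pool.Agent.Lib.MP_cad414_al.Cg.XE7
import Pool.Agent.Lib.MP_cad414_al.Cg.XE8
import Pool.Agent.Lib.MP_cad414_al.Cg.XF4
import Pool.Agent.Lib.MP_cad414_al.Cg.XG2
import Pool.Agent.Lib.MP_cad414_al.Cg.XR

/-! All exceptional groups inside a group with the Steinberg relations of type `E8`. -/

namespace Pool.Agent.Lib.MP_cad414_al.Cg

theorem exc_three {G F : Type} [Group G] [IsSimpleGroup G] [Field F] [Finite F]
    (hG : NA G) (h : Exc G F) : 3 ∈ GenSizes G := by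
  obtain ⟨S, _, x, θ, hx, ⟨O, hO, h1, h2, h3⟩ | h⟩ := h
  · simp only [List.mem_cons, List.not_mem_nil, or_false] at hO
    rcases hO with rfl | rfl | rfl | rfl | rfl
    exacts [e8_three hG hx h1 h3, e7_three hG hx h1 h3, e6_three hG hx h1 h3,
      f4_three hG hx h1 h3, g2_three hG hx h1 (h2 rfl) h3]
  · exact rf4_three hG hx h.1 h.2

end Pool.Agent.Lib.MP_cad414_al.Cg
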