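import Pool.Agent.Lib.MP_cad414_al.Cg.Base

/-! The groups of the diagrams `Y_pqr`. -/

namespace Pool.Agent.Lib.MP_cad414_al.Cg

open Subgroup

variable {n : ℕ} {W G : Type} [Group W] [Group G]

/-- Coxeter relations of a simply laced diagram. -/
structure YCox (adj : Fin n → Fin n → Bool) (s : Fin n → W) : Prop where
  sq : ∀ a, s a * s a = 1
  cm : ∀ a b, adj a b = false → s a * s b = s b * s a
  br : ∀ a b, adj a b = true → s a * s b * s a = s b * s a * s b

def yev (s : Fin n → W) (w : List (Fin n)) : W := (w.map s).prod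

def ypull (adj : Fin n → Fin n → Bool) : ℕ → Fin n → List (Fin n) → Option (List (Fin n))
  | f + 1, a, t :: w => if t = a then some w else if adj a t then
      (ypull adj f a w).bind fun w1 => (ypull adj f t w1).map fun w2 => t :: a :: w2
    else (ypull adj f a w).map (t :: ·)
  | _, _, _ => none

def ynorm (adj : Fin n → Fin n → Bool) : List (Fin n) → List (Fin n)
  | [] => []
  | a :: w => (ypull adj 99 a (ynorm adj w)).getD (a :: ynorm adj w)

def yrun (adj : Fin n → Fin n → Bool) (T : List (List (Fin n))) :
    List (ℕ × Bool × ℕ × Bool) → List (List (Fin n))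
  | [] => T
  | (i, b, j, c) :: l => yrun adj (T ++ [ynorm adj
      ((if b then (T.getD i []).reverse else T.getD i []) ++
        if c then (T.getD j []).reverse else T.getD j [])]) l

variable {adj : Fin n → Fin n → Bool} {s : Fin n → W}

theorem yev_cons (a : Fin n) (w : List (Fin n)) : yev s (a :: w) = s a * yev s w := by simp [yev]

theorem yev_append (v w : List (Fin n)) : yev s (v ++ w) = yev s v * yev s w := by simp [yev]

theorem YCox.inv (h : YCox adj s) (a : Fin n) : (s a)⁻¹ = s a :=
  inv_eq_of_mul_eq_one_right (h.sq a)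

theorem YCox.rev (h : YCox adj s) (w : List (Fin n)) : yev s w.reverse = (yev s w)⁻¹ := by
  induction w with
  | nil => simp [yev]
  | cons a w ih =>
    rw [List.reverse_cons, yev_append, ih, yev_cons, yev_cons, mul_inv_rev, h.inv]
    simp [yev]

theorem YCox.pull (h : YCox adj s) (f : ℕ) : ∀ (a : Fin n) (w v : List (Fin n)),
    ypull adj f a w = some v → yev s w = s a * yev s v := by
  induction f with
  | zero => intro a w v e; simp [ypull] at e
  | succ f ih =>
    rintro a (_ | ⟨t, w⟩) v e
    · simp [ypull] at e
    rw [ypull] at e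
    split_ifs at e with h1 h2
    · rw [← Option.some.inj e, h1, yev_cons]
    · obtain ⟨w1, e1, e2⟩ := Option.bind_eq_some_iff.1 e
      obtain ⟨w2, e3, rfl⟩ := Option.map_eq_some_iff.1 e2
      rw [yev_cons, ih _ _ _ e1, ih _ _ _ e3, yev_cons, yev_cons, ← mul_assoc, ← mul_assoc,
        ← h.br a t h2, mul_assoc, mul_assoc]
    · obtain ⟨w2, e3, rfl⟩ := Option.map_eq_some_iff.1 e
      rw [yev_cons, ih _ _ _ e3, yev_cons, ← mul_assoc, ← mul_assoc,
        h.cm a t (by simpa using h2)]

theorem YCox.norm (h : YCox adj s) (w : List (Fin n)) : yev s (ynorm adj w) = yev s w := by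
  induction w with
  | nil => rfl
  | cons a w ih =>
    rw [ynorm, yev_cons, ← ih]
    rcases e : ypull adj 99 a (ynorm adj w) with _ | v
    · exact yev_cons _ _
    · rw [h.pull _ _ _ _ e, ← mul_assoc, h.sq, one_mul]
      rfl

theorem YCox.one (h : YCox adj s) {w : List (Fin n)} (e : ynorm adj w = []) : yev s w = 1 := by
  rw [← h.norm, e]
  rfl

theorem YCox.run (h : YCox adj s) {L : Subgroup W} (l : List (ℕ × Bool × ℕ × Bool)) :
    ∀ T : List (List (Fin n)), (∀ w ∈ T, yev s w ∈ L) → ∀ w ∈ yrun adj T l, yev s w ∈ L := by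
  induction l with
  | nil => exact fun _ hT => hT
  | cons x l ih =>
    obtain ⟨i, b, j, c⟩ := x
    intro T hT
    have key : ∀ (i : ℕ) (b : Bool),
        yev s (if b then (T.getD i []).reverse else T.getD i []) ∈ L := fun i b => by
      have : yev s (T.getD i []) ∈ L := by
        rw [List.getD_eq_getElem?_getD]
        rcases e : T[i]? with _ | v
        · exact L.one_mem
        · exact hT v (List.mem_of_getElem? e)
      split_ifs
      · rw [h.rev]
        exact L.inv_mem this
      · exact this
    refine ih _ fun w hw => (List.mem_append.1 hw).elim (hT w) fun e => ?_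
    rw [List.mem_singleton.1 e, h.norm, yev_append]
    exact L.mul_mem (key i b) (key j c)

theorem yev_even {L : Subgroup W} (hL : ∀ a b, s a * s b ∈ L) :
    ∀ w : List (Fin n), w.length % 2 = 0 → yev s w ∈ L
  | [], _ => L.one_mem
  | [_], e => by simp at e
  | a :: b :: w, e => by
    rw [yev_cons, yev_cons, ← mul_assoc]
    exact L.mul_mem (hL a b) (yev_even hL w (by simp at e; omega))

theorem YCox.comm_le (h : YCox adj s) {L : Subgroup W} (hL : ∀ a b, s a * s b ∈ L) :
    ⁅closure (Set.range s), closure (Set.range s)⁆ ≤ L := by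
  have key : ∀ g ∈ closure (Set.range s), ∃ w, yev s w = g := fun g hg => by
    induction hg using closure_induction with
    | mem _ hx =>
      obtain ⟨a, rfl⟩ := hx
      exact ⟨[a], by simp [yev]⟩
    | one => exact ⟨[], rfl⟩
    | mul _ _ _ _ h1 h2 =>
      obtain ⟨v, rfl⟩ := h1
      obtain ⟨w, rfl⟩ := h2
      exact ⟨v ++ w, yev_append _ _⟩
    | inv _ _ h1 =>
      obtain ⟨v, rfl⟩ := h1
      exact ⟨_, h.rev v⟩
  refine commutator_le.2 fun a ha b hb => ?_
  obtain ⟨v, rfl⟩ := key a ha
  obtain ⟨w, rfl⟩ := key b hb
  rw [commutatorElement_def, ← h.rev, ← h.rev, ← yev_append, ← yev_append, ← yev_append]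
  exact yev_even hL _ (by simp; omega)

theorem YCox.adj_mem (h : YCox adj s) {a b : Fin n} (e : adj a b = true) :
    s a * s b ∈ ⁅closure (Set.range s), closure (Set.range s)⁆ := by
  have h1 := commutator_mem_commutator (H₁ := closure (Set.range s)) (H₂ := closure (Set.range s))
    (subset_closure ⟨b, rfl⟩) (subset_closure ⟨a, rfl⟩)
  rwa [commutatorElement_def, h.inv, h.inv, ← h.br a b e, mul_assoc, h.sq, mul_one] at h1

theorem commutator_le_of_self (A : Subgroup W) : ⁅A, A⁆ ≤ A :=
  commutator_le.2 fun _ ha _ hb =>
    A.mul_mem (A.mul_mem (A.mul_mem ha hb) (A.inv_mem ha)) (A.inv_mem hb)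

def ypar (p q v : ℕ) : ℕ := if v = p + 1 ∨ v = p + q + 1 then 0 else v - 1

def yadj (p q : ℕ) (a b : Fin n) : Bool :=
  decide (a < b ∧ a.1 = ypar p q b) || decide (b < a ∧ b.1 = ypar p q a)

theorem y_of_cert [IsSimpleGroup G] (hG : NA G) {p q r : ℕ} (h : YGp G p q r)
    (t1 t2 t3 c2 c3 : List (Fin (p + q + r + 1))) (l : List (ℕ × Bool × ℕ × Bool))
    (hc : (∀ w ∈ [t1, t2, t3, c2, c3], w.length % 2 = 0) ∧ ynorm (yadj p q) (t1 ++ t1) = [] ∧
      ynorm (yadj p q) (t2.reverse ++ (c2 ++ t1 ++ c2.reverse)) = [] ∧
      ynorm (yadj p q) (t3.reverse ++ (c3 ++ t1 ++ c3.reverse)) = [] ∧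
      ∀ v, ∃ w ∈ [] :: yrun (yadj p q) [t1, t2, t3] l, ynorm (yadj p q) (w ++ [v, 0]) = []) :
    3 ∈ GenSizes G := by
  obtain ⟨W, _, s₀, hs, -, h⟩ := h
  set s : Fin (p + q + r + 1) → W := fun a => s₀ a with hs'
  have e : s₀ '' Set.Iic (p + q + r) = Set.range s := by
    ext g
    exact ⟨fun ⟨a, ha, e⟩ => ⟨⟨a, Nat.lt_succ_of_le ha⟩, e⟩,
      fun ⟨a, e⟩ => ⟨a, Nat.le_of_lt_succ a.2, e⟩⟩
  rw [e] at h
  have sq : ∀ a, s a * s a = 1 := fun a => by
    simpa using hs a a le_rfl (Nat.le_of_lt_succ a.2)
  have iv : ∀ a, (s a)⁻¹ = s a := fun a => inv_eq_of_mul_eq_one_right (sq a)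
  have rel : ∀ a b, a < b → (s a * s b) ^ (if a.1 = ypar p q b then 3 else 2) = 1 :=
    fun a b hab => by
      have := hs a b (le_of_lt hab) (Nat.le_of_lt_succ b.2)
      rwa [if_neg (ne_of_lt (show a.1 < b.1 from hab))] at this
  have cm : ∀ a b : Fin _, a < b → a.1 ≠ ypar p q b → s a * s b = s b * s a := by
    intro a b hab h1
    have := rel a b hab
    rw [if_neg h1, pow_two, mul_eq_one_iff_eq_inv, mul_inv_rev, iv, iv] at this
    exact this
  have br : ∀ a b : Fin _, a < b → a.1 = ypar p q b → s a * s b * s a = s b * s a * s b :=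
    fun a b hab h1 => by
      have := rel a b hab
      rw [if_pos h1] at this
      have h2 : (s a * s b * s a) * (s b * s a * s b) = 1 := by
        rw [← this, pow_succ, pow_two]
        simp only [mul_assoc]
      rw [mul_eq_one_iff_eq_inv.1 h2, mul_inv_rev, mul_inv_rev, iv, iv, mul_assoc]
  have hY : YCox (yadj p q) s := ⟨sq, fun a b hab => by
    simp only [yadj, Bool.or_eq_false_iff, decide_eq_false_iff_not, not_and] at hab
    rcases lt_trichotomy a b with h1 | rfl | h1
    exacts [cm a b h1 (hab.1 h1), rfl, (cm b a h1 (hab.2 h1)).symm], fun a b hab => by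
    simp only [yadj, Bool.or_eq_true, decide_eq_true_eq] at hab
    exact hab.elim (fun h1 => br a b h1.1 h1.2) fun h1 => (br b a h1.1 h1.2).symm⟩
  have pair : ∀ L : Subgroup W, (∀ v, s 0 * s v ∈ L) → ∀ a b, s a * s b ∈ L := fun L hL a b => by
    have := L.mul_mem (L.inv_mem (hL a)) (hL b)
    rwa [mul_inv_rev, iv, iv, mul_assoc, ← mul_assoc (s 0), sq, one_mul] at this
  have hA : ∀ a b, s a * s b ∈ ⁅closure (Set.range s), closure (Set.range s)⁆ := by
    refine pair _ fun ⟨v, hv⟩ => ?_
    induction v using Nat.strong_induction_on with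
    | _ v ih =>
      rcases Nat.eq_zero_or_pos v with rfl | h0
      · exact (sq 0).symm ▸ one_mem _
      have h1 : ypar p q v < v := by unfold ypar; split_ifs <;> omega
      have h2 := mul_mem (ih _ h1 (h1.trans hv)) (hY.adj_mem (a := ⟨_, h1.trans hv⟩)
        (b := ⟨v, hv⟩) (by simp [yadj, h1]))
      rwa [mul_assoc, ← mul_assoc (s ⟨ypar p q v, _⟩), sq, one_mul] at h2
  obtain ⟨h1, h2, h3, h4, h5⟩ := hc
  have m : ∀ w ∈ [t1, t2, t3, c2, c3], yev s w ∈ _ := fun w hw => yev_even hA w (h1 w hw)
  refine hG.three_of_sub h.of_commutator (m t1 (by simp)) (m t2 (by simp)) (m t3 (by simp))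
    (m c2 (by simp)) (m c3 (by simp)) (fun g _ => ?_) (fun g _ => ?_) (fun g _ => ?_)
    fun L l1 l2 l3 _ => (commutator_le_of_self _).trans (hY.comm_le (pair L fun v => ?_))
  · rw [← yev_append, hY.one h2]
    exact Commute.one_left g
  · rw [← hY.rev, ← hY.rev, ← yev_append, ← yev_append, ← yev_append, hY.one h3]
    exact Commute.one_left g
  · rw [← hY.rev, ← hY.rev, ← yev_append, ← yev_append, ← yev_append, hY.one h4]
    exact Commute.one_left g
  · obtain ⟨w, hw, e⟩ := h5 v
    have h6 : yev s w ∈ L := (List.mem_cons.1 hw).elim (fun e => e ▸ L.one_mem)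
      (hY.run l _ (by simp [l1, l2, l3]) w)
    have h7 := hY.one e
    rw [yev_append, mul_eq_one_iff_eq_inv, ← hY.rev] at h7
    rw [h7] at h6
    simpa [yev] using h6

variable [IsSimpleGroup G]

theorem y332 (hG : NA G) (h : YGp G 3 3 2) : 3 ∈ GenSizes G :=
  y_of_cert hG h [1, 3, 6, 7] [1, 3, 4, 7] [0, 2, 5, 8] [5, 6, 4, 5] [3, 2, 1, 0, 7, 8, 6, 5]
    [(1, false, 0, false), (2, false, 3, false), (4, false, 4, false), (5, false, 5, false), (3,
    false, 6, false), (6, false, 4, false), (0, false, 6, false), (9, false, 0, false), (6,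
    false, 0, false), (10, true, 11, false), (9, false, 12, false), (2, false, 0, false), (6,
    false, 14, false), (15, false, 15, false), (16, false, 8, false), (17, false, 0, false), (0,
    false, 18, false), (12, false, 7, false), (20, false, 17, false), (19, false, 21, false),
    (20, false, 22, false), (20, false, 22, true), (23, false, 20, false), (0, false, 0, false),
    (26, false, 13, true), (0, false, 0, false), (28, false, 23, true), (0, false, 0, false),
    (30, false, 24, true), (31, false, 25, true), (27, false, 3, false), (31, false, 19, true),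
    (34, false, 8, false)]
    (by decide +kernel)

theorem y432 (hG : NA G) (h : YGp G 4 3 2) : 3 ∈ GenSizes G :=
  y_of_cert hG h [0, 3, 7, 9] [2, 4, 5, 9] [1, 4, 6, 8] [6, 7, 5, 6, 1, 2, 3, 4, 0, 1] [9, 8, 7, 6, 3, 4, 0, 1]
    [(1, false, 0, false), (3, false, 3, false), (4, false, 4, false), (2, false, 3, false), (6,
    false, 5, true), (7, false, 7, false), (8, false, 8, false), (9, false, 5, false), (5,
    false, 9, false), (10, false, 11, true), (12, false, 9, false), (5, false, 0, false), (13,
    false, 14, false), (2, false, 1, false), (12, false, 16, false), (9, false, 8, false), (17,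
    false, 18, false), (8, false, 7, false), (19, true, 20, false), (1, false, 12, false), (4,
    false, 3, false), (9, false, 23, false), (19, true, 24, false), (22, false, 25, false), (21,
    false, 15, false), (27, false, 20, false), (28, false, 26, false), (29, false, 21, false),
    (30, false, 1, false), (12, false, 2, false), (19, false, 1, false), (32, false, 33, false),
    (34, false, 27, false), (0, false, 0, false), (36, false, 5, true), (37, false, 12, false),
    (37, false, 31, true), (39, false, 35, true), (38, false, 9, false), (40, false, 15, false),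
    (42, false, 21, true), (43, false, 29, true), (44, false, 26, false)]
    (by decide +kernel)

theorem y442 (hG : NA G) (h : YGp G 4 4 2) : 3 ∈ GenSizes G :=
  y_of_cert hG h [0, 4, 7, 10] [1, 3, 5, 8] [2, 4, 6, 9] [4, 3, 2, 1, 0, 9, 5, 10, 0, 9, 7, 8, 1, 2, 0, 1] [10, 9, 7, 6, 1, 2, 0, 1]
    [(2, false, 0, false), (3, false, 3, false), (4, false, 4, false), (1, false, 5, false), (5,
    false, 1, false), (6, true, 7, false), (5, false, 8, true), (1, false, 7, false), (9, false,
    10, false), (10, false, 9, false), (8, false, 9, false), (11, false, 13, false), (14, false,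
    1, false), (11, false, 0, false), (16, false, 16, false), (17, false, 16, false), (17,
    false, 15, false), (15, false, 19, false), (17, false, 20, true), (4, false, 3, false), (17,
    true, 22, false), (17, false, 23, true), (24, false, 22, false), (24, true, 22, false), (22,
    false, 25, false), (0, false, 0, false), (28, false, 21, true), (0, false, 0, false), (30,
    false, 25, true), (31, false, 26, false), (32, false, 27, true), (17, false, 11, false),
    (29, false, 15, false), (32, false, 18, true), (34, false, 5, true), (37, false, 12, false)]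
    (by decide +kernel)

theorem y433 (hG : NA G) (h : YGp G 4 3 3) : 3 ∈ GenSizes G :=
  y_of_cert hG h [3, 5, 7, 8] [1, 4, 5, 9] [0, 2, 6, 10] [6, 7, 5, 6, 0, 5, 1, 0, 8, 9, 3, 4] [9, 10, 7, 6, 5, 0, 8, 9, 3, 2]
    [(1, false, 0, false), (3, false, 3, false), (4, false, 3, false), (5, false, 2, false), (6,
    false, 5, false), (6, false, 7, false), (8, false, 2, false), (2, false, 9, false), (2,
    false, 1, false), (9, true, 11, false), (12, false, 12, false), (13, false, 12, false), (13,
    false, 10, false), (4, false, 1, false), (15, false, 16, false), (13, false, 2, false), (18,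
    false, 18, false), (19, false, 18, false), (19, false, 15, false), (9, false, 21, false),
    (22, false, 9, false), (19, false, 17, false), (17, false, 24, false), (19, false, 25,
    true), (20, false, 14, false), (14, false, 27, false), (28, false, 20, false), (0, false, 0,
    false), (30, false, 26, true), (19, false, 13, false), (31, false, 17, true), (32, false,
    10, true), (34, false, 23, false), (34, false, 5, false), (35, false, 20, false), (37,
    false, 29, false), (38, false, 14, true)]
    (by decide +kernel)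

theorem y443 (hG : NA G) (h : YGp G 4 4 3) : 3 ∈ GenSizes G :=
  y_of_cert hG h [1, 8, 9, 11] [0, 3, 6, 10] [2, 4, 5, 7] [11, 10, 9, 7, 6, 8, 7, 2, 3, 0, 1, 2] [0, 9, 5, 10, 0, 11, 9, 10, 8, 7, 1, 2, 3, 4, 0, 9, 1, 2, 3, 0, 1, 2]
    [(2, false, 0, false), (3, false, 3, false), (1, false, 4, false), (4, false, 1, false), (5,
    true, 6, false), (4, false, 7, true), (8, false, 5, false), (9, false, 9, false), (10,
    false, 9, false), (9, false, 1, false), (12, false, 12, false), (13, false, 12, false), (2,
    false, 9, false), (15, false, 15, false), (16, false, 15, false), (5, false, 9, false), (18,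
    false, 18, false), (19, false, 18, false), (13, false, 11, false), (17, false, 21, false),
    (21, false, 1, false), (23, false, 16, false), (2, false, 12, false), (24, false, 25,
    false), (22, false, 26, true), (24, false, 27, false), (4, false, 3, false), (28, false, 29,
    false), (0, false, 4, false), (14, false, 31, false), (31, false, 32, false), (33, false,
    14, false), (0, false, 0, false), (35, false, 19, true), (14, false, 10, true), (37, false,
    16, false), (27, false, 17, false), (34, false, 30, false), (39, false, 11, true), (41,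
    false, 13, true), (42, false, 20, false)]
    (by decide +kernel)

theorem y_three (hG : NA G) (h : YGp G 3 3 2 ∨ YGp G 4 3 2 ∨ YGp G 4 4 2 ∨ YGp G 4 3 3 ∨
    YGp G 4 4 3) : 3 ∈ GenSizes G := by
  rcases h with h | h | h | h | h
  exacts [y332 hG h, y432 hG h, y442 hG h, y433 hG h, y443 hG h]

end Pool.Agent.Lib.MP_cad414_al.Cg
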