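import Pool.Agent.Lib.MP_cad414_al.Cg.Alt8
import Pool.Agent.Lib.MP_cad414_al.Cg.UniFour
import Pool.Agent.Lib.MP_cad414_al.Cg.Uni
import Pool.Agent.Lib.MP_cad414_al.Cg.Sl
import Pool.Agent.Lib.MP_cad414_al.Cg.Sp
import Pool.Agent.Lib.MP_cad414_al.Cg.Orth
import Pool.Agent.Lib.MP_cad414_al.Cg.Sz
import Pool.Agent.Lib.MP_cad414_al.Cg.Ree
import Pool.Agent.Lib.MP_cad414_al.Cg.XExc
import Pool.Agent.Lib.MP_cad414_al.Cg.Y
import Pool.Agent.Lib.MP_cad414_al.Cg.M11
import Pool.Agent.Lib.MP_cad414_al.Cg.M12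
import Pool.Agent.Lib.MP_cad414_al.Cg.M22
import Pool.Agent.Lib.MP_cad414_al.Cg.M23
import Pool.Agent.Lib.MP_cad414_al.Cg.M24
import Pool.Agent.Lib.MP_cad414_al.Cg.J1
import Pool.Agent.Lib.MP_cad414_al.Cg.J2
import Pool.Agent.Lib.MP_cad414_al.Cg.J3
import Pool.Agent.Lib.MP_cad414_al.Cg.J4
import Pool.Agent.Lib.MP_cad414_al.Cg.HS
import Pool.Agent.Lib.MP_cad414_al.Cg.McL
import Pool.Agent.Lib.MP_cad414_al.Cg.He
import Pool.Agent.Lib.MP_cad414_al.Cg.Ru
import Pool.Agent.Lib.MP_cad414_al.Cg.Suz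
import Pool.Agent.Lib.MP_cad414_al.Cg.ON
import Pool.Agent.Lib.MP_cad414_al.Cg.Co3
import Pool.Agent.Lib.MP_cad414_al.Cg.Co2
import Pool.Agent.Lib.MP_cad414_al.Cg.Co1
import Pool.Agent.Lib.MP_cad414_al.Cg.Hn
import Pool.Agent.Lib.MP_cad414_al.Cg.Ly
import Pool.Agent.Lib.MP_cad414_al.Cg.ThF

/-! Assembly. -/

namespace Pool.Agent.Lib.MP_cad414_al.Cg

variable {G F : Type} [Group G] [Finite G] [IsSimpleGroup G] [Field F] [Finite F]

theorem classic_three (hG : NA G) {n : ℕ} (h : Classic G F n) : 3 ∈ GenSizes G := by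
  rcases h with ⟨h1, h2, h⟩ | ⟨h1, h2, _, h⟩ | ⟨h1, h2, h3, h⟩ | ⟨h1, h2, h⟩ | ⟨h1, h2, _, h⟩
  exacts [alt_three hG h1 h2 h, uni_three hG h1 h2 h, sl_three hG h1 h2 h3 h,
    sp_three hG h1 h2 h, orth_three hG h1 h2 h]

theorem main :
    (∀ (G F : Type) [Group G] [Finite G] [IsSimpleGroup G] [Field F] [Finite F],
      (∃ a b : G, a * b ≠ b * a) →
      ((∃ n, Classic G F n) ∨ Exc G F ∨ Suz G F ∨ Ree G F ∨ YGp G 3 3 2 ∨ YGp G 4 3 2 ∨
        YGp G 4 4 2 ∨ YGp G 4 3 3 ∨ YGp G 4 4 3 → IsLeast (GenSizes G) 3) ∧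
      (Img G (alternatingGroup (Fin 8)) ∨ (Nat.card F = 9 ∧ ∃ _ : StarRing F, Uni G F 3) →
        IsLeast (GenSizes G) 4)) ∧
    ∀ N ∈ [7920, 95040, 443520, 10200960, 244823040, 175560, 604800, 50232960,
      86775571046077562880, 44352000, 898128000, 4030387200, 145926144000, 448345497600,
      460815505920, 495766656000, 42305421312000, 4157776806543360000, 273030912000000,
      51765179004000000, 90745943887872000],
      ∃ (G : Type) (_ : Group G), IsSimpleGroup G ∧ Nat.card G = N ∧ IsLeast (GenSizes G) 3 := by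
  refine ⟨fun G F _ _ _ _ _ (hG : NA G) => ⟨fun h => hG.isLeast_three ?_,
    fun h => hG.isLeast_four ?_⟩, fun N hN => ?_⟩
  · rcases h with ⟨_, h⟩ | h | h | h | h
    exacts [classic_three hG h, exc_three hG h, suz_three hG h, ree_three hG h, y_three hG h]
  · rcases h with h | ⟨h9, _, h⟩
    exacts [alt_four hG h, uni_four hG h9 h]
  · simp only [List.mem_cons, List.not_mem_nil, or_false] at hN
    rcases hN with rfl | rfl | rfl | rfl | rfl | rfl | rfl | rfl | rfl | rfl | rfl | rfl | rfl |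
      rfl | rfl | rfl | rfl | rfl | rfl | rfl | rfl
    exacts [spor_M11.isLeast (by decide), spor_M12.isLeast (by decide),
      spor_M22.isLeast (by decide), spor_M23.isLeast (by decide), spor_M24.isLeast (by decide),
      spor_J1.isLeast (by decide), spor_J2.isLeast (by decide), spor_J3.isLeast (by decide),
      spor_J4.isLeast (by decide), spor_HS.isLeast (by decide), spor_McL.isLeast (by decide),
      spor_He.isLeast (by decide), spor_Ru.isLeast (by decide), spor_Suz.isLeast (by decide),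
      spor_ON.isLeast (by decide), spor_Co3.isLeast (by decide), spor_Co2.isLeast (by decide),
      spor_Co1.isLeast (by decide), spor_HN.isLeast (by decide), spor_Ly.isLeast (by decide),
      spor_Th.isLeast (by decide)]

end Pool.Agent.Lib.MP_cad414_al.Cg
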