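import Pool.Agent.Lib.MP_cad414_al.TenC
import Pool.Agent.Lib.MP_cad414_al.Cg.Base

/-! Common tools for the orthogonal groups. -/

namespace Pool.Agent.Lib.MP_cad414_al.Cg

open QuadraticMap Module Ten

variable {F V : Type} [Field F] [AddCommGroup V] [Module F V] {Q : QuadraticForm F V}

/-- the parameters of the Eichler maps that lie in `N` -/
def AS (N : Subgroup (OG Q)) {s : V} (hs : Q s = 0) : AddSubgroup V where
  carrier := {w | polar Q s w = 0 ∧ E Q s w ∈ N}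
  zero_mem' := ⟨by simp, by rw [E_zero hs]; exact one_mem _⟩
  add_mem' := fun {a b} ha hb => ⟨by simp [ha.1, hb.1], by
    rw [E_add hs ha.1 hb.1]; exact mul_mem ha.2 hb.2⟩
  neg_mem' := fun {a} ha => ⟨by simp [ha.1], by rw [E_neg hs ha.1]; exact inv_mem ha.2⟩

section
variable {N : Subgroup (OG Q)} {s : V} {hs : Q s = 0} {C : Set V}

theorem AS_self (k : F) : k • s ∈ AS N hs :=
  ⟨by simp [hs], by rw [E_self hs]; exact one_mem _⟩

theorem AS_inv {g : OG Q} (hg : ∀ n ∈ N, g * n * g⁻¹ ∈ N) (e : g • s = s ∨ g • s = -s) {w : V}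
    (hw : w ∈ AS N hs) : g • w ∈ AS N hs := by
  have h1 := hg _ hw.2
  have h2 : polar Q (g • s) (g • w) = 0 := by rw [pact]; exact hw.1
  rw [E_conj hs hw.1] at h1
  rcases e with e | e <;> rw [e] at h1 h2
  · exact ⟨h2, h1⟩
  · rw [polar_neg_left, neg_eq_zero] at h2
    rw [← neg_one_smul F s, E_smul hs h2, neg_one_smul, E_neg hs h2] at h1
    exact ⟨h2, inv_mem_iff.1 h1⟩

theorem AS_refl (hC : Cl Q C) {d w : V} (hd : d ∈ C) (hsd : polar Q s d = 0)
    (hw : w ∈ AS (NG Q C) hs) : polar Q w d • d ∈ AS (NG Q C) hs := by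
  have := (AS _ hs).sub_mem hw (AS_inv (g := r Q d)
    (fun n => NG_conj fun c hc => hC.refl d hd c hc) (Or.inl (r_act0 hsd)) hw)
  rwa [r_act1 (hC.norm d hd), sub_sub_cancel] at this

theorem AS_rr (hC : Cl Q C) {c : V} (hc : c ∈ C) (hcs : c + s ∈ C) (h : polar Q s c = 0) :
    c ∈ AS (NG Q C) hs :=
  ⟨h, by rw [← E_rr hs (hC.norm c hc) h]; exact rr_mem hc hcs⟩

theorem AS_mul (hC : Cl Q C) {d w : V} (hd : d ∈ C) (hsd : polar Q s d = 0) {a b : F}
    (h : polar Q w d = b) (hw : a • w ∈ AS (NG Q C) hs) : (a * b) • d ∈ AS (NG Q C) hs := by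
  have := AS_refl hC hd hsd hw
  rwa [polar_smul_left, h, smul_eq_mul] at this

theorem core_inv {g : OG Q} (hg : ∀ c ∈ C, g • c ∈ C) (e : g • s = s ∨ g • s = -s) {w : V}
    (hw : w ∈ core F (AS (NG Q C) hs)) : g • w ∈ core F (AS (NG Q C) hs) := fun k => by
  rw [← act_smul]; exact AS_inv (fun n => NG_conj hg) e (hw k)

theorem core_refl (hC : Cl Q C) {d w : V} (hd : d ∈ C) (hsd : polar Q s d = 0)
    (h : polar Q w d ≠ 0) (hw : w ∈ core F (AS (NG Q C) hs)) :
    d ∈ core F (AS (NG Q C) hs) := fun k => by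
  have := AS_mul hC hd hsd rfl (hw (k / polar Q w d))
  rwa [div_mul_cancel₀ _ h] at this

theorem core_self : s ∈ core F (AS N hs) := AS_self

end

theorem smul_back {M : Submodule F V} {a : F} (ha : a ≠ 0) {x : V} (h : a • x ∈ M) : x ∈ M :=
  (M.smul_mem_iff ha).1 h

/-- the vectors whose projection to the hyperplane lies in `M` -/
def lift (Q : QuadraticForm F V) (M : Submodule F V) (s y : V) : Submodule F V :=
  M.comap (LinearMap.id - (polarBilin Q s).smulRight y)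

theorem mem_lift {M : Submodule F V} {s y x : V} :
    x ∈ lift Q M s y ↔ x - polar Q s x • y ∈ M := by simp [lift]

theorem lift0 {M : Submodule F V} {s y x : V} (h : polar Q s x = 0) :
    x ∈ lift Q M s y ↔ x ∈ M := by rw [mem_lift, h, zero_smul, sub_zero]

theorem lift_fin {N : Subgroup (OG Q)} {s y : V} {hs : Q s = 0}
    (h : ⊤ ≤ lift Q (core F (AS N hs)) s y) (w : V) (hw : polar Q s w = 0) : E Q s w ∈ N := by
  have := (lift0 hw).1 (h trivial) 1
  rw [one_smul] at this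
  exact this.2

theorem Cls_self {e : V} (he : Q e = 1) (K : Subgroup (OG Q)) : e ∈ Cls Q e K :=
  ⟨he, by rw [r_mul_self]; exact one_mem _⟩

theorem Cls_join {e x y : V} {K : Subgroup (OG Q)} (hx : x ∈ Cls Q e K) (hy : Q y = 1)
    (h : r Q x * r Q y ∈ K) : y ∈ Cls Q e K :=
  ⟨hy, by have := mul_mem hx.2 h; rwa [mul_assoc, r_cancel] at this⟩

theorem Cls_pr {e x : V} {K : Subgroup (OG Q)} {t : OG Q} (ht : t ∈ K) (hx : x ∈ Cls Q e K)
    (h : t • x = x ∨ t • x = -x) : ∀ u ∈ Cls Q e K, t • u ∈ Cls Q e K :=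
  Cls_pres (fun n hn => mul_mem (mul_mem ht hn) (inv_mem ht)) hx (by
    rcases h with h | h <;> rw [h]
    exacts [hx, (Cls_cl e K).neg hx])

theorem NG_le {e : V} {K : Subgroup (OG Q)} : NG Q (Cls Q e K) ≤ K := by
  rw [NG, Subgroup.closure_le]
  rintro _ ⟨a, ha, b, hb, rfl⟩
  exact Cls_rr ha hb

theorem AS_half [Finite F] (h2 : (2 : F) ≠ 0) {A : AddSubgroup V} {x : V}
    (h : (2 : F) • x ∈ A) : x ∈ A := by
  obtain ⟨n, hn⟩ := exists_half h2
  have := nat_mem (F := F) h n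
  rwa [hn, smul_smul, inv_mul_cancel₀ h2, one_smul] at this

variable {G : Type} [Group G] [IsSimpleGroup G]

theorem NA.fin_sub (hG : NA G) (h : Img G (commutator (OG Q))) {t1 t2 t3 c2 c3 : OG Q}
    (sq : t1 * t1 = 1) (m1 : t1 ∈ Omega Q) (n2 : c2 ∈ Omega Q) (n3 : c3 ∈ Omega Q)
    (e2 : c2 * t1 * c2⁻¹ = t2) (e3 : c3 * t1 * c3⁻¹ = t3)
    (H : ∀ K, t1 ∈ K → t2 ∈ K → t3 ∈ K → Omega Q ≤ K) : 3 ∈ GenSizes G :=
  hG.three_of_sub h m1 (e2 ▸ mul_mem (mul_mem n2 m1) (inv_mem n2))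
    (e3 ▸ mul_mem (mul_mem n3 m1) (inv_mem n3)) n2 n3 (fun g _ => by rw [sq]; exact .one_left _)
    (fun g _ => by rw [e2, inv_mul_cancel]; exact .one_left _)
    (fun g _ => by rw [e3, inv_mul_cancel]; exact .one_left _)
    fun L l1 l2 l3 _ => (Subgroup.commutator_le_left _ _).trans (H L l1 l2 l3)

theorem NA.fin_nd [Finite F] [FiniteDimensional F V] (hG : NA G) (hQ : ND Q ⊤)
    (hd : 4 ≤ finrank F V) (h : Img G (commutator (OG Q))) {t1 t2 t3 : OG Q} (sq : t1 * t1 = 1)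
    (cj : Tr Q (N1 Q) → t1 ∈ N1 Q ∧ Cj Q t1 t2 ∧ Cj Q t1 t3)
    (force : ∀ K, t1 ∈ K → t2 ∈ K → t3 ∈ K → ∃ e s y, Q s = 0 ∧
      (∀ w, polar Q s w = 0 → E Q s w ∈ NG Q (Cls Q e K)) ∧ y ∈ Cls Q e K ∧ polar Q s y ≠ 0) :
    3 ∈ GenSizes G := by
  have key : ∀ K, t1 ∈ K → t2 ∈ K → t3 ∈ K →
      Omega Q = N1 Q ∧ N1 Q ≤ K ∧ Tr Q (N1 Q) := fun K l1 l2 l3 => by
    obtain ⟨e, s, y, hs, hE, hy, hsy⟩ := force K l1 l2 l3
    have hC := Cls_cl e K
    have htr := gen_trans2 hQ hd hC hs hE hy hsy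
    have hall := gen_all hC htr hy
    have hle : NG Q (Cls Q e K) ≤ K := NG_le
    rw [hall] at htr hE hle
    exact ⟨omega_eq hQ htr hs (fun e => hsy (by simp [e])) hE, hle, htr⟩
  obtain ⟨hO, -, htr⟩ := key ⊤ trivial trivial trivial
  obtain ⟨m1, ⟨c2, n2, e2⟩, c3, n3, e3⟩ := cj htr
  rw [← hO] at m1 n2 n3
  exact hG.fin_sub h sq m1 n2 n3 e2 e3 fun K l1 l2 l3 => hO ▸ (key K l1 l2 l3).2.1

/-! ### Orthogonal frames with arbitrary norms -/

/-- pairwise orthogonal anisotropic vectors -/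
def PN (Q : QuadraticForm F V) (f : ℕ → V) (k : ℕ) : Prop :=
  (∀ i < k, Q (f i) ≠ 0) ∧ ∀ i < k, ∀ j < k, i ≠ j → polar Q (f i) (f j) = 0

theorem PN.mono {f : ℕ → V} {k n : ℕ} (h : PN Q f k) (hn : n ≤ k) : PN Q f n :=
  ⟨fun i hi => h.1 i (by omega), fun i hi j hj => h.2 i (by omega) j (by omega)⟩

theorem PN.sq {f : ℕ → V} {k : ℕ} (h : PN Q f k) : TT Q f k * TT Q f k = 1 := by
  induction k with
  | zero => simp [TT]
  | succ k ih =>
    rw [TT]
    nth_rw 2 [(comm_of_fix (g := TT Q f k) (u := f k) (Or.inl (TT_fix fun i hi =>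
      h.2 k (by omega) i (by omega) (by omega)))).eq]
    rw [mul_assoc, r_cancel, ih (h.mono (by omega))]

theorem PN.perp [FiniteDimensional F V] (h2 : (2 : F) ≠ 0) (hQ : ND Q ⊤) {f : ℕ → V} {k : ℕ}
    (h : PN Q f k) : ∃ W : Submodule F V, ND Q W ∧ finrank F W + k = finrank F V ∧
      ∀ x, x ∈ W ↔ ∀ i < k, polar Q (f i) x = 0 := by
  induction k with
  | zero => exact ⟨⊤, hQ, by simp, by simp⟩
  | succ k ih =>
    obtain ⟨W, h1, h3, h4⟩ := ih (h.mono (by omega))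
    obtain ⟨k1, k2, -⟩ := split1 h1 (u := f k)
      ((h4 _).2 fun i hi => h.2 i (by omega) k (by omega) (by omega))
      (by rw [pself]; exact mul_ne_zero h2 (h.1 k (by omega)))
    refine ⟨_, k1, by omega, fun x => ?_⟩
    rw [mem_perp, h4]
    refine ⟨fun H i hi => ?_, fun H => ⟨fun i hi => H i (by omega), H k (by omega)⟩⟩
    by_cases e : i = k
    · rw [e]; exact H.2
    · exact H.1 i (by omega)

theorem PN.move [Finite F] [FiniteDimensional F V] (h2 : (2 : F) ≠ 0) (hQ : ND Q ⊤)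
    (h : Tr Q (N1 Q)) {f : ℕ → V} {j : ℕ} (hf : PN Q f (j + 1)) (hd : j + 3 ≤ finrank F V)
    {u : V} (hu : Q u = Q (f j)) (ho : ∀ i < j, polar Q (f i) u = 0) :
    ∃ n ∈ N1 Q, (n • u = f j ∨ n • u = -f j) ∧ ∀ i < j, n • f i = f i := by
  obtain ⟨W, h1, h3, h4⟩ := hf.perp h2 hQ
  have key : ∀ v, (v = f j ∨ v = -f j) → Q (u - v) ≠ 0 →
      ∃ n ∈ N1 Q, (n • u = f j ∨ n • u = -f j) ∧ ∀ i < j, n • f i = f i := by
    intro v hv h0
    obtain ⟨w, hw, hq⟩ := universal h1 (by omega) (Q (u - v))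
    have hw' := (h4 w).1 hw
    have q : Q u = Q v := by
      rcases hv with e | e <;> rw [e]
      · exact hu
      · rw [QuadraticMap.map_neg]; exact hu
    have hvw : polar Q v w = 0 := by
      rcases hv with e | e <;> rw [e]
      · exact hw' j (by omega)
      · rw [polar_neg_left, hw' j (by omega), neg_zero]
    refine ⟨r Q w * r Q (u - v), rr_mem_N1 h hq (by rwa [hq]), ?_, fun i hi => ?_⟩
    · rw [mul_smul, r_sub q h0, r_act0 hvw]; exact hv
    · have : polar Q (f i) v = 0 := by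
        rcases hv with e | e <;> rw [e]
        · exact hf.2 i (by omega) j (by omega) (by omega)
        · rw [polar_neg_right, hf.2 i (by omega) j (by omega) (by omega), neg_zero]
      rw [mul_smul, r_act0 (u := u - v) (by rw [polar_sub_right, ho i hi, this, sub_self]),
        r_act0 (hw' i (by omega))]
  by_cases e : Q (u - f j) = 0
  · refine key _ (Or.inr rfl) fun e' => ?_
    rw [sub_neg_eq_add, Qadd, hu] at e'
    rw [Qsub, hu] at e
    apply mul_ne_zero (mul_ne_zero h2 h2) (hf.1 j (by omega))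
    linear_combination e + e'
  · exact key _ (Or.inl rfl) e

theorem PN.conj [Finite F] [FiniteDimensional F V] (h2 : (2 : F) ≠ 0) (hQ : ND Q ⊤)
    (h : Tr Q (N1 Q)) {f f' : ℕ → V} {k : ℕ} (hd : k + 2 ≤ finrank F V) (hf : PN Q f k)
    (hf' : PN Q f' k) (hq : ∀ i < k, Q (f i) = Q (f' i)) : Cj Q (TT Q f k) (TT Q f' k) := by
  have key : ∀ j ≤ k, ∃ n ∈ N1 Q, ∀ i < j, n • f i = f' i ∨ n • f i = -f' i := by
    intro j
    induction j with
    | zero => exact fun _ => ⟨1, one_mem _, by simp⟩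
    | succ j ih =>
      intro hj
      obtain ⟨n, hn, H⟩ := ih (by omega)
      obtain ⟨m, hm, e1, e2⟩ := (hf'.mono hj).move h2 hQ h (by omega) (u := n • f j)
        (by rw [Qact, hq j (by omega)]) fun i hi => by
          have := hf.2 i (by omega) j (by omega) (by omega)
          rw [← pact n] at this
          rcases H i hi with e | e <;> rw [e] at this
          · exact this
          · simpa using this
      refine ⟨m * n, mul_mem hm hn, fun i hi => ?_⟩
      rw [mul_smul]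
      by_cases e : i = j
      · rw [e]; exact e1
      · rcases H i (by omega) with e' | e' <;> rw [e']
        · exact Or.inl (e2 i (by omega))
        · right; rw [smul_neg, e2 i (by omega)]
  obtain ⟨n, hn, H⟩ := key k le_rfl
  refine ⟨n, hn, TT_conj fun i hi => ?_⟩
  rcases H i hi with e | e <;> rw [e]
  exact r_neg _

theorem chain (P : ℕ → Prop) {h : ℕ} (h1 : ∀ i < h, P (2 * i) ↔ P (2 * i + 1))
    (h2 : ∀ i, i + 1 < h → (P (2 * i + 1) ↔ P (2 * i + 2))) : ∀ i < 2 * h, P i ↔ P 0 := by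
  intro i
  induction i with
  | zero => simp
  | succ i ih =>
    intro hi
    rw [← ih (by omega)]
    rcases Nat.even_or_odd' i with ⟨k, rfl | rfl⟩
    · exact (h1 k (by omega)).symm
    · exact (h2 k (by omega)).symm

end Pool.Agent.Lib.MP_cad414_al.Cg
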