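import Pool.Agent.Lib.MP_cad414_al.Cg.OA

/-! Orthogonal groups in odd characteristic: hyperbolic pairs and dimension five. -/

namespace Pool.Agent.Lib.MP_cad414_al.Cg

set_option linter.unusedSimpArgs false

open QuadraticMap Module Ten

variable {F V : Type} [Field F] [AddCommGroup V] [Module F V] {Q : QuadraticForm F V}

theorem pl (Q : QuadraticForm F V) :
    (∀ x y z, polar Q (x + y) z = polar Q x z + polar Q y z) ∧
    (∀ x y z, polar Q x (y + z) = polar Q x y + polar Q x z) ∧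
    (∀ x y z, polar Q (x - y) z = polar Q x z - polar Q y z) ∧
    (∀ x y z, polar Q x (y - z) = polar Q x y - polar Q x z) ∧
    (∀ x y, polar Q (-x) y = -polar Q x y) ∧ (∀ x y, polar Q x (-y) = -polar Q x y) ∧
    (∀ (a : F) x y, polar Q (a • x) y = a * polar Q x y) ∧
    (∀ (a : F) x y, polar Q x (a • y) = a * polar Q x y) ∧
    (∀ x y, Q (x + y) = Q x + Q y + polar Q x y) ∧ (∀ x y, Q (x - y) = Q x + Q y - polar Q x y) ∧
    (∀ (a : F) x, Q (a • x) = a * a * Q x) ∧ (∀ x, Q (-x) = Q x) ∧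
    (∀ x, polar Q x x = 2 * Q x) :=
  ⟨polar_add_left Q, polar_add_right Q, polar_sub_left Q, polar_sub_right Q, polar_neg_left Q,
    polar_neg_right Q, polar_smul_left Q, polar_smul_right Q, Qadd, Qsub, Qsmul,
    QuadraticMap.map_neg Q, pself⟩

/-- pairwise orthogonal hyperbolic pairs -/
abbrev Hy (Q : QuadraticForm F V) (m : ℕ) (f g : ℕ → V) : Prop :=
  (∀ i, i < m → Q (f i) = 0) ∧ (∀ i, i < m → Q (g i) = 0) ∧
  (∀ i k, i < m → k < m → polar Q (f i) (f k) = 0) ∧
  (∀ i k, i < m → k < m → polar Q (g i) (g k) = 0) ∧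
  (∀ i k, i < m → k < m → polar Q (f i) (g k) = dl F i k) ∧
  (∀ i k, i < m → k < m → polar Q (g i) (f k) = dl F i k)

/-- orthogonal to the pairs -/
abbrev Og (Q : QuadraticForm F V) (m : ℕ) (f g : ℕ → V) (x : V) : Prop :=
  (∀ i, i < m → polar Q (f i) x = 0) ∧ (∀ i, i < m → polar Q (g i) x = 0) ∧
  (∀ i, i < m → polar Q x (f i) = 0) ∧ (∀ i, i < m → polar Q x (g i) = 0)

theorem Og.mk' {m : ℕ} {f g : ℕ → V} {x : V} (h1 : ∀ i, i < m → polar Q (f i) x = 0)
    (h2 : ∀ i, i < m → polar Q (g i) x = 0) : Og Q m f g x :=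
  ⟨h1, h2, fun i hi => pcomm0 (h1 i hi), fun i hi => pcomm0 (h2 i hi)⟩

theorem hyp_W [Finite F] [FiniteDimensional F V] (h2 : (2 : F) ≠ 0) {W : Submodule F V}
    (hW : ND Q W) (hd : 3 ≤ finrank F W) :
    ∃ s ∈ W, ∃ t ∈ W, Q s = 0 ∧ Q t = 0 ∧ polar Q s t = 1 := by
  obtain ⟨u, huW, hu⟩ := exists_aniso hW (by omega)
  have huu : polar Q u u ≠ 0 := by rw [pself]; exact mul_ne_zero h2 hu
  obtain ⟨h3, h4, -⟩ := split1 hW huW huu
  obtain ⟨c, hc, hq⟩ := universal h3 (by omega) (-Q u)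
  obtain ⟨hcW, hc'⟩ := mem_perp.1 hc
  have hs : Q (u + c) = 0 := by rw [Qadd, hq, hc']; ring
  have h0 : u + c ≠ 0 := fun e => huu (by
    have : polar Q u (u + c) = 0 := by rw [e]; simp
    rwa [polar_add_right, hc', add_zero] at this)
  have hm := W.add_mem huW hcW
  obtain ⟨x, hxW, hx⟩ := exists_dual hW hm h0 1
  refine ⟨u + c, hm, x - Q x • (u + c), W.sub_mem hxW (W.smul_mem _ hm), hs, ?_, ?_⟩
  · rw [Qsub, Qsmul, hs, polar_smul_right, pcomm x, hx]; simp
  · rw [polar_sub_right, polar_smul_right, pself, hs, hx]; simp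

theorem exists_hy [Finite F] [FiniteDimensional F V] (h2 : (2 : F) ≠ 0) (hQ : ND Q ⊤) (m : ℕ)
    (hm : 2 * m + 1 ≤ finrank F V) : ∃ (f g : ℕ → V) (W : Submodule F V), Hy Q m f g ∧ ND Q W ∧
      finrank F W + 2 * m = finrank F V ∧ (∀ x ∈ W, Og Q m f g x) ∧
      ∀ M : Submodule F V, (∀ i < m, f i ∈ M ∧ g i ∈ M) → W ≤ M → ⊤ ≤ M := by
  induction m with
  | zero => exact ⟨0, 0, ⊤, by simp, hQ, by simp, by simp, fun M _ h => h⟩
  | succ m ih =>
    obtain ⟨f, g, W, o, h1, h3, h4, h5⟩ := ih (by omega)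
    obtain ⟨s, hs, t, ht, qs, qt, st⟩ := hyp_W h2 h1 (by omega)
    obtain ⟨k1, k2, k3⟩ := split2 h1 hs ht (by rw [pself, qs, st]; simp)
    have ts : polar Q t s = 1 := by rw [pcomm, st]
    have os := h4 s hs
    have ot := h4 t ht
    refine ⟨fun i => if i = m then s else f i, fun i => if i = m then t else g i, _,
      ⟨fun i hi => ?_, fun i hi => ?_, fun i k hi hk => ?_, fun i k hi hk => ?_,
        fun i k hi hk => ?_, fun i k hi hk => ?_⟩, k1, by omega,
      fun x hx => Og.mk' (fun i hi => ?_) fun i hi => ?_, fun M hM hM' => h5 M (fun i hi => ?_)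
        (k3 M (by simpa using (hM m (by omega)).1) (by simpa using (hM m (by omega)).2) hM')⟩
    iterate 6
      dsimp only
      split_ifs <;> simp (disch := omega) only [o, os, ot, qs, qt, st, ts, pself, mul_zero,
        dl_ne, dl_eq]
    · split_ifs
      exacts [(mem_perp.1 (mem_perp.1 hx).1).2,
        (h4 x (mem_perp.1 (mem_perp.1 hx).1).1).1 i (by omega)]
    · split_ifs
      exacts [(mem_perp.1 hx).2, (h4 x (mem_perp.1 (mem_perp.1 hx).1).1).2.1 i (by omega)]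
    · simpa only [if_neg (show i ≠ m by omega)] using hM i (by omega)

theorem OG_smul {c : F} (hc : c ≠ 0) : OG (c • Q) = OG Q := by
  ext g
  exact forall_congr' fun x => mul_right_inj' hc

theorem polar_sm (c : F) (x y : V) : polar (c • Q) x y = c * polar Q x y := by
  simp [polar]; ring

/-- odd dimension: after scaling, a unit vector and hyperbolic pairs -/
theorem exists_odd [Finite F] [FiniteDimensional F V] (h2 : (2 : F) ≠ 0) (hQ : ND Q ⊤) {m : ℕ}
    (hm : finrank F V = 2 * m + 1) : ∃ (Q' : QuadraticForm F V) (f g : ℕ → V) (a : V),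
      OG Q' = OG Q ∧ ND Q' ⊤ ∧ Hy Q' m f g ∧ Og Q' m f g a ∧ Q' a = 1 ∧
      ∀ M : Submodule F V, (∀ i < m, f i ∈ M ∧ g i ∈ M) → a ∈ M → ⊤ ≤ M := by
  obtain ⟨f, g, W, o, h1, h3, h4, h5⟩ := exists_hy h2 hQ m hm.ge
  obtain ⟨a, ha, qa⟩ := exists_aniso h1 (by omega)
  obtain ⟨-, k2, k3⟩ := split1 h1 ha (by rw [pself]; exact mul_ne_zero h2 qa)
  have oa := h4 a ha
  have e : ∀ x, ((Q a)⁻¹ • Q) x = (Q a)⁻¹ * Q x := fun _ => rfl
  refine ⟨(Q a)⁻¹ • Q, f, fun i => Q a • g i, a, OG_smul (inv_ne_zero qa), fun x _ hx =>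
    hQ x trivial fun y _ => ?_, ⟨fun i hi => ?_, fun i hi => ?_, fun i k hi hk => ?_,
      fun i k hi hk => ?_, fun i k hi hk => ?_, fun i k hi hk => ?_⟩,
    Og.mk' (fun i hi => ?_) fun i hi => ?_, inv_mul_cancel₀ qa, fun M hM haM =>
      h5 M (fun i hi => ⟨(hM i hi).1, smul_back qa (hM i hi).2⟩)
        (k3 M haM (le_of_finrank_zero (by omega) _))⟩
  · have := hx y trivial
    rw [polar_sm] at this
    exact (mul_eq_zero.1 this).resolve_left (inv_ne_zero qa)
  all_goals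
    simp (disch := omega) only [e, polar_sm, pl Q, o, oa, mul_zero, inv_mul_cancel_left₀ qa]

variable {G : Type} [Group G] [IsSimpleGroup G]

theorem five [Finite F] [FiniteDimensional F V] (hG : NA G) (h2 : (2 : F) ≠ 0) (hQ : ND Q ⊤)
    (hd : finrank F V = 5) (h : Img G (commutator (OG Q))) : 3 ∈ GenSizes G := by
  obtain ⟨Q, f, g, a, e, hQ, o, oa, qa, sp⟩ := exists_odd h2 hQ (m := 2) hd
  rw [← e] at h
  obtain ⟨l, l0, hl⟩ := exists_tau h2 (mul_ne_zero h2 h2)
  obtain ⟨y, hy⟩ : ∃ y, y = l • g 1 + l⁻¹ • f 1 := ⟨_, rfl⟩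
  have H : Q y = 1 ∧ polar Q a y = 0 ∧ polar Q (a + f 0) y = 0 ∧ Q (a + f 0) = 1 ∧
      Q (a + f 1) = 1 ∧ Q (f 0 + g 0) = 1 ∧ polar Q (a + f 1) (f 0 + g 0) = 0 ∧
      polar Q (f 0) y = 0 ∧ polar Q (f 1) y = l ∧ polar Q y (a + f 1) = l ∧
      polar Q a (a + f 1) = 2 ∧ polar Q (a + f 1) a = 2 ∧ polar Q (f 0) (a + f 1) = 0 ∧
      polar Q (f 0) (f 0 + g 0) = 1 := by
    subst hy
    simp (disch := omega) only [pl Q, o, oa, qa, dl_ne, dl_eq]
    simp [l0]
  obtain ⟨qy, ay, asy, q1, q2, q3, p1, p2, p3, p4, p5, p6, p7, p8⟩ := H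
  have qs := o.1 0 (by omega)
  have qn := o.1 1 (by omega)
  have sa := oa.1 0 (by omega)
  have na := oa.1 1 (by omega)
  have po : ∀ u v, Q u = 1 → Q v = 1 → polar Q u v = 0 → PO Q (tr u v v) 2 := fun u v hu hv h => by
    refine ⟨fun i hi => ?_, fun i hi j hj hij => ?_⟩
    · interval_cases i <;> assumption
    · interval_cases i <;> interval_cases j <;> first | contradiction | exact h | exact pcomm0 h
  have tt : ∀ u v, TT Q (tr u v v) 2 = r Q u * r Q v := fun u v => by simp [TT, tr]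
  refine hG.fin_nd hQ (by omega) h (t1 := r Q a * r Q y) (t2 := r Q (a + f 1) * r Q (f 0 + g 0))
    (t3 := r Q (a + f 0) * r Q y) (tt a y ▸ TT_sq (po _ _ qa qy ay)) (fun H => ⟨rr_mem qa qy, ?_⟩)
    fun K l1 l2 l3 => ?_
  · simp only [← tt]
    exact ⟨conj_all hQ H (by omega) (po _ _ qa qy ay) (po _ _ q2 q3 p1) (absurd · h2)
      (absurd · h2), conj_all hQ H (by omega) (po _ _ qa qy ay) (po _ _ q1 qy asy) (absurd · h2)
      (absurd · h2)⟩
  have hC := Cls_cl a K
  have c0 := Cls_self qa K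
  have c1 := Cls_join c0 qy l1
  have c2 := Cls_join c1 q1 (by simpa [r_inv] using inv_mem l3)
  have u1 : E Q (f 0) a ∈ K := E_rr qs qa sa ▸ Cls_rr c0 c2
  have u2 : E Q (g 0) (a + (2 : F) • f 1) ∈ K := by
    have := mul_mem (mul_mem l2 u1) (inv_mem l2)
    rw [E_conj qs sa] at this
    convert this using 1
    have e1 : (r Q (a + f 1) * r Q (f 0 + g 0)) • f 0 = (-1 : F) • g 0 := by
      rw [mul_smul, r_act1 q3, r_act1 q2]
      simp (disch := omega) only [pl Q, o, oa, qa, dl_ne, dl_eq]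
      module
    have e2 : (r Q (a + f 1) * r Q (f 0 + g 0)) • a = -(a + (2 : F) • f 1) := by
      rw [mul_smul, r_act1 q3, r_act1 q2]
      simp (disch := omega) only [pl Q, o, oa, qa, dl_ne, dl_eq]
      module
    rw [e1, e2, E_smul (o.2.1 0 (by omega)) (by
      simp (disch := omega) only [pl Q, o, oa, dl_ne]; simp), neg_one_smul, neg_neg]
  have w0 : (-2 : F) • a + (-4 : F) • g 0 + (4 : F) • f 0 ∈ AS K qn := by
    have hw : polar Q (f 1) ((-2 : F) • a + (-4 : F) • g 0 + (4 : F) • f 0) = 0 := by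
      simp (disch := omega) only [pl Q, o, oa, dl_ne]; simp
    have hw' : polar Q (g 0) (a + (2 : F) • f 1) = 0 := by
      simp (disch := omega) only [pl Q, o, oa, dl_ne]; simp
    refine ⟨hw, ?_⟩
    convert pow_mem (mul_mem u1 u2) 3 using 1
    have hg : ∀ x, (E Q (f 0) a * E Q (g 0) (a + (2 : F) • f 1)) • x = x +
        (polar Q x (f 0) - polar Q x a - 2 * polar Q x (f 1)) • a +
        (2 * polar Q x (f 1) - polar Q x (f 0) - polar Q x (g 0)) • f 0 -
        (polar Q x a + 2 * polar Q x (f 1) + polar Q x (g 0)) • g 0 +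
        (2 * polar Q x (g 0)) • f 1 := fun x => by
      rw [mul_smul, E_act qs sa, E_act (o.2.1 0 (by omega)) hw']
      simp (disch := omega) only [pl Q, o, oa, qa, dl_ne, dl_eq]
      module
    refine oext fun x => ?_
    rw [pow_three, mul_smul, mul_smul (_ * _), hg, hg, hg, E_act qn hw]
    simp (disch := omega) only [pl Q, o, oa, qa, dl_ne, dl_eq, mul_zero, add_zero, sub_zero,
      mul_one]
    module
  have st : ∀ w ∈ AS K qn, E Q (f 0) a • w - w ∈ AS K qn := fun w hw =>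
    sub_mem (AS_inv (fun n hn => mul_mem (mul_mem u1 hn) (inv_mem u1)) (Or.inl (by
      rw [E_act qs sa]; simp (disch := omega) only [o, oa]; simp)) hw) hw
  have w1 := st _ w0
  have w2 := st _ w1
  have w3 : a ∈ AS K qn := by
    refine AS_half h2 (AS_half h2 ?_)
    convert sub_mem w2 w1 using 1
    simp only [E_act qs sa]
    simp (disch := omega) only [pl Q, o, oa, qa, dl_ne, dl_eq]
    module
  have c3 := Cls_join c0 q2 (E_rr qn qa na ▸ w3.2)
  have c4 := Cls_join c3 q3 l2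
  refine ⟨a, f 0, _, qs, fun w hw => (core_fin qs (o.2.1 0 (by omega)) (by
    simp (disch := omega) only [o, dl_eq]) (A := AS (NG Q (Cls Q a K)) qs) AS_self ?_ w hw).2, c4,
    by rw [p8]; exact one_ne_zero⟩
  have b1 : ∀ k : F, k • a ∈ AS (NG Q (Cls Q a K)) qs → (k * 2) • f 1 ∈ AS (NG Q (Cls Q a K)) qs :=
    fun k hk => by
      convert sub_mem (AS_mul hC c3 p7 p5 hk) (add_mem hk hk) using 1
      module
  have b2 : a ∈ core F (AS (NG Q (Cls Q a K)) qs) := hl _ (by simp)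
    (by rw [one_smul]; exact AS_rr hC c0 c2 sa) (fun a b ha hb => by
      rw [add_smul]; exact add_mem ha hb) fun k hk => by
      convert AS_mul hC c0 sa p6 (AS_mul hC c3 p7 p4 (AS_mul hC c1 p2 p3 (b1 k hk))) using 2
      ring
  have b3 := core_refl hC c3 p7 (by rwa [p5]) b2
  have b4 := (Submodule.add_mem_iff_right _ b2).1 b3
  have b5 := core_refl hC c1 p2 (by rwa [p3]) b4
  rw [hy, Submodule.add_mem_iff_left _ (Submodule.smul_mem _ _ b4)] at b5
  intro x hx
  refine (lift0 (mem_perp.1 (mem_perp.1 hx).1).2).1 (sp (lift Q _ (f 0) (g 0)) (fun i hi => ?_)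
    ((lift0 sa).2 b2) trivial)
  interval_cases i
  · exact ⟨(lift0 (by rw [pself, qs, mul_zero])).2 core_self, mem_lift.2 (by
      simp (disch := omega) only [o, dl_eq]; simp)⟩
  · exact ⟨(lift0 (o.2.2.1 _ _ (by omega) hi)).2 b4, (lift0 (by
      simp (disch := omega) only [o, dl_ne])).2 (smul_back l0 b5)⟩

end Pool.Agent.Lib.MP_cad414_al.Cg
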