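import Pool.Agent.Lib.MP_cad414_al.Cg.OB

/-! Orthogonal groups in odd characteristic: products of blocks. -/

namespace Pool.Agent.Lib.MP_cad414_al.Cg

set_option linter.unusedSimpArgs false

open QuadraticMap Module Ten

variable {F V : Type} [Field F] [AddCommGroup V] [Module F V] {Q : QuadraticForm F V}
  {h : ℕ} {y z y' z' : V} {A B A' B' : ℕ → V}

/-- minus one on the span of the hyperbolic pairs -/
noncomputable def SS (Q : QuadraticForm F V) (A B : ℕ → V) : ℕ → OG Q
  | 0 => 1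
  | h + 1 => SS Q A B h * (r Q (A h + B h) * r Q (A h - B h))

/-- the orthogonal frame -/
def fr (y z : V) (A B : ℕ → V) : ℕ → V
  | 0 => y
  | 1 => z
  | i + 2 => if i % 2 = 0 then A (i / 2) + B (i / 2) else A (i / 2) - B (i / 2)

theorem TT_fr (h : ℕ) : TT Q (fr y z A B) (2 * h + 2) = r Q y * r Q z * SS Q A B h := by
  induction h with
  | zero => simp [TT, fr, SS]
  | succ h ih =>
    rw [show 2 * (h + 1) + 2 = 2 * h + 2 + 1 + 1 by ring, TT, TT, ih, SS,
      show 2 * h + 2 + 1 = 2 * h + 1 + 2 by ring, fr, fr, if_pos (by omega), if_neg (by omega),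
      show 2 * h / 2 = h by omega, show (2 * h + 1) / 2 = h by omega]
    group

theorem Hy.mono {k : ℕ} (o : Hy Q h A B) (e : k ≤ h) : Hy Q k A B := by
  refine ⟨?_, ?_, ?_, ?_, ?_, ?_⟩ <;> intros <;> simp (disch := omega) only [o]

theorem blk_act (o : Hy Q (h + 1) A B) (x : V) : r Q (A h + B h) • r Q (A h - B h) • x =
    x - (2 * polar Q x (B h)) • A h - (2 * polar Q x (A h)) • B h := by
  simp only [r_act]
  simp (disch := omega) only [pl Q, o, dl_eq, zero_add, zero_sub, div_one, div_neg]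
  module

theorem SS_fix (o : Hy Q h A B) {x : V}
    (H : ∀ k < h, polar Q x (A k) = 0 ∧ polar Q x (B k) = 0) : SS Q A B h • x = x := by
  induction h with
  | zero => exact one_smul _ _
  | succ h ih =>
    rw [SS, mul_smul, mul_smul, blk_act o, (H h (by omega)).1, (H h (by omega)).2]
    simpa using ih (o.mono (by omega)) fun k hk => H k (by omega)

theorem SS_one (o : Hy Q h A B) {i : ℕ} (hi : i < h) {x : V}
    (H : ∀ k < h, k ≠ i → polar Q x (A k) = 0 ∧ polar Q x (B k) = 0) :
    SS Q A B h • x = x - (2 * polar Q x (B i)) • A i - (2 * polar Q x (A i)) • B i := by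
  induction h with
  | zero => omega
  | succ h ih =>
    rw [SS, mul_smul, mul_smul, blk_act o]
    by_cases e : h = i
    · subst e
      refine SS_fix (o.mono (by omega)) fun k hk => ?_
      simp (disch := omega) only [pl Q, o, dl_ne, H k (by omega) (by omega)]
      simp
    · rw [(H h (by omega) e).1, (H h (by omega) e).2]
      simpa using ih (o.mono (by omega)) (by omega) fun k hk => H k (by omega)

/-- the data of an involution -/
abbrev Fr (Q : QuadraticForm F V) (h : ℕ) (y z : V) (A B : ℕ → V) : Prop :=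
  Hy Q h A B ∧ Og Q h A B y ∧ Og Q h A B z ∧ Q y = 1 ∧ Q z = (-1) ^ h ∧ polar Q y z = 0 ∧
    polar Q z y = 0

theorem Fr.norm (o : Fr Q h y z A B) (i : ℕ) (hi : i < 2 * h + 2) :
    Q (fr y z A B i) = if i = 1 then (-1) ^ h else (-1) ^ i := by
  rcases i with _ | _ | i
  · simp [fr, o]
  · simp [fr, o]
  · rw [fr, if_neg (show ¬ i + 1 + 1 = 1 by omega)]
    split_ifs with e <;> simp (disch := omega) only [pl Q, o, dl_eq]
    · rw [Even.neg_one_pow (Nat.even_iff.2 (by omega))]; ring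
    · rw [Odd.neg_one_pow (Nat.odd_iff.2 (by omega))]; ring

theorem Fr.pn (o : Fr Q h y z A B) : PN Q (fr y z A B) (2 * h + 2) := by
  refine ⟨fun i hi => by rw [o.norm i hi]; split_ifs <;> simp, fun i hi j hj hij => ?_⟩
  rcases i with _ | _ | i <;> rcases j with _ | _ | j <;> simp only [fr] <;>
    first | omega | (split_ifs <;> simp (disch := omega) only [pl Q, o, add_zero, sub_self]; done) |
      exact o.2.2.2.2.2.1 | exact o.2.2.2.2.2.2 | skip
  by_cases e : i / 2 = j / 2 <;> split_ifs <;>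
    first | omega | (simp (disch := omega) only [pl Q, o, dl_eq, dl_ne]; ring)

theorem Fr.sq (o : Fr Q h y z A B) :
    r Q y * r Q z * SS Q A B h * (r Q y * r Q z * SS Q A B h) = 1 := by
  rw [← TT_fr]; exact o.pn.sq

theorem Fr.cj [Finite F] [FiniteDimensional F V] (h2 : (2 : F) ≠ 0) (hQ : ND Q ⊤)
    (H : Tr Q (N1 Q)) (hd : 2 * h + 4 ≤ finrank F V) (o : Fr Q h y z A B)
    (o' : Fr Q h y' z' A' B') :
    Cj Q (r Q y * r Q z * SS Q A B h) (r Q y' * r Q z' * SS Q A' B' h) := by
  rw [← TT_fr, ← TT_fr]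
  exact PN.conj h2 hQ H hd o.pn o'.pn fun i hi => by rw [o.norm i hi, o'.norm i hi]

theorem mem_N1 (H : Tr Q (N1 Q)) (o : Hy Q h A B) (hy : Q y = 1) (hz : Q z = (-1) ^ h) :
    r Q y * r Q z * SS Q A B h ∈ N1 Q := by
  induction h generalizing z with
  | zero => rw [SS, mul_one]; exact rr_mem hy (hz.trans (pow_zero _))
  | succ h ih =>
    have q1 : Q (A h + B h) = 1 := by simp (disch := omega) only [pl Q, o, dl_eq]; ring
    have q2 : Q (A h - B h) = -1 := by simp (disch := omega) only [pl Q, o, dl_eq]; ring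
    have key : ∀ u v, Q u = (-1) ^ h → Q v = Q z →
        r Q y * r Q z * (SS Q A B h * (r Q u * r Q v)) ∈ N1 Q := fun u v hu hv => by
      have h1 := ih (o.mono (by omega)) (z := SS Q A B h • u) (by rw [Qact, hu])
      have h3 := rr_mem_N1 H (a := z) (b := (SS Q A B h * r Q u) • v) (by rw [Qact, hv])
        (by rw [hz]; simp)
      rw [← r_conj] at h1 h3
      have h4 := mul_mem ((N1_normal (Q := Q)).conj_mem _ h3 (r Q y)) h1
      convert h4 using 1
      simp only [mul_inv_rev, r_inv, mul_assoc, r_cancel, inv_mul_cancel_left, inv_mul_cancel,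
        mul_one, r_mul_self]
    rw [SS]
    rcases Nat.even_or_odd h with e | e
    · exact key _ _ (by rw [q1, e.neg_one_pow]) (by rw [q2, hz, pow_succ, e.neg_one_pow]; ring)
    · rw [(r_comm (u := A h + B h) (by simp (disch := omega) only [pl Q, o, dl_eq]; ring)).eq]
      exact key _ _ (by rw [q2, e.neg_one_pow]) (by rw [q1, hz, pow_succ, e.neg_one_pow]; ring)

theorem tri {C : Set V} (hC : Cl Q C) {x y : V} (hx : x ∈ C) (hy : y ∈ C)
    (h : polar Q y x = 2) : (2 : F) • x - y ∈ C := by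
  have := hC.neg (hC.refl x hx y hy)
  rwa [r_act1 (hC.norm x hx), h, neg_sub] at this

/-- first family of pairs -/
def fA (f : ℕ → V) : ℕ → V
  | 0 => f 0
  | i + 1 => f (2 * i + 1) - f (2 * i + 2)

/-- partners of the first family -/
def fB (F : Type) [Field F] [Module F V] (g : ℕ → V) (s : V) : ℕ → V
  | 0 => g 0 + (2⁻¹ * 2⁻¹ : F) • s
  | i + 1 => (2⁻¹ : F) • (g (2 * i + 1) - g (2 * i + 2))

variable {f g : ℕ → V} {k : ℕ}

theorem Hy.one (h2 : (2 : F) ≠ 0) (o : Hy Q (2 * k + 3) f g) :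
    Hy Q (k + 1) (fA f) (fB F g (f (2 * k + 2))) := by
  refine ⟨fun i hi => ?_, fun i hi => ?_, fun i j hi hj => ?_, fun i j hi hj => ?_,
    fun i j hi hj => ?_, fun i j hi hj => ?_⟩
  iterate 2 rcases i with _ | i <;> simp (disch := omega) only [fA, fB, pl Q, o, dl_ne] <;> ring
  all_goals
    rcases i with _ | i <;> rcases j with _ | j <;> (try by_cases e : i = j) <;>
      simp (disch := omega) only [fA, fB, pl Q, o, dl_ne, dl_eq] <;>
      first | ring1 | (field_simp; ring1)

theorem Hy.two (h2 : (2 : F) ≠ 0) (o : Hy Q (2 * k + 3) f g) :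
    Hy Q (k + 1) (fun i => f (2 * i) - f (2 * i + 1))
      (fun i => (2⁻¹ : F) • (g (2 * i) - g (2 * i + 1))) := by
  refine ⟨fun i hi => ?_, fun i hi => ?_, fun i j hi hj => ?_, fun i j hi hj => ?_,
    fun i j hi hj => ?_, fun i j hi hj => ?_⟩
  iterate 2 simp (disch := omega) only [pl Q, o]; ring
  all_goals
    by_cases e : i = j <;> simp (disch := omega) only [pl Q, o, dl_ne, dl_eq] <;>
      first | ring1 | (field_simp; ring1)

theorem Hy.act1 (h2 : (2 : F) ≠ 0) (o : Hy Q (2 * k + 3) f g) {S : OG Q}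
    (hS : S = SS Q (fA f) (fB F g (f (2 * k + 2))) (k + 1)) :
    (∀ x, Og Q (2 * k + 3) f g x → S • x = x) ∧ S • f (2 * k + 2) = f (2 * k + 2) ∧
    S • f (2 * k + 1) = f (2 * k + 1) ∧
    S • g (2 * k + 2) = g (2 * k + 2) - (2⁻¹ : F) • f 0 ∧
    S • g 0 = -g 0 - (2⁻¹ : F) • f (2 * k + 2) ∧ ∀ i < k,
      S • f (2 * i + 1) = f (2 * i + 2) ∧ S • f (2 * i + 2) = f (2 * i + 1) ∧
      S • g (2 * i + 1) = g (2 * i + 2) ∧ S • g (2 * i + 2) = g (2 * i + 1) := by
  subst hS
  have o1 := Hy.one h2 o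
  refine ⟨fun x ox => SS_fix o1 fun j hj => ?_, SS_fix o1 fun j hj => ?_,
    SS_fix o1 fun j hj => ?_, (SS_one o1 (i := 0) (by omega) fun j hj e => ?_).trans ?_,
    (SS_one o1 (i := 0) (by omega) fun j hj e => ?_).trans ?_, fun i hi =>
    ⟨(SS_one o1 (i := i + 1) (by omega) fun j hj e => ?_).trans ?_,
    (SS_one o1 (i := i + 1) (by omega) fun j hj e => ?_).trans ?_,
    (SS_one o1 (i := i + 1) (by omega) fun j hj e => ?_).trans ?_,
    (SS_one o1 (i := i + 1) (by omega) fun j hj e => ?_).trans ?_⟩⟩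
  · rcases j with _ | j <;> simp (disch := omega) only [fA, fB, pl Q, o, ox] <;> simp
  all_goals first
    | (rcases j with _ | j <;> first | omega |
        (simp (disch := omega) only [fA, fB, pl Q, o, dl_ne]; simp))
    | (simp (disch := omega) only [fA, fB, pl Q, o, dl_ne, dl_eq]
       match_scalars <;> first | ring1 | (field_simp; ring1) | field_simp)

theorem Hy.act2 (h2 : (2 : F) ≠ 0) (o : Hy Q (2 * k + 3) f g) {S : OG Q}
    (hS : S = SS Q (fun i => f (2 * i) - f (2 * i + 1))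
      (fun i => (2⁻¹ : F) • (g (2 * i) - g (2 * i + 1))) (k + 1)) :
    (∀ x, Og Q (2 * k + 3) f g x → S • x = x) ∧ S • f (2 * k + 2) = f (2 * k + 2) ∧ ∀ i < k + 1,
      S • f (2 * i) = f (2 * i + 1) ∧ S • f (2 * i + 1) = f (2 * i) ∧
      S • g (2 * i) = g (2 * i + 1) ∧ S • g (2 * i + 1) = g (2 * i) := by
  subst hS
  have o1 := Hy.two h2 o
  refine ⟨fun x ox => SS_fix o1 fun j hj => ?_, SS_fix o1 fun j hj => ?_, fun i hi =>
    ⟨(SS_one o1 hi fun j hj e => ?_).trans ?_, (SS_one o1 hi fun j hj e => ?_).trans ?_,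
    (SS_one o1 hi fun j hj e => ?_).trans ?_, (SS_one o1 hi fun j hj e => ?_).trans ?_⟩⟩
  · simp (disch := omega) only [pl Q, o, ox]; simp
  all_goals first
    | (simp (disch := omega) only [pl Q, o, dl_ne]; simp; done)
    | (simp (disch := omega) only [pl Q, o, dl_ne, dl_eq]
       match_scalars <;> first | ring1 | (field_simp; ring1))

end Pool.Agent.Lib.MP_cad414_al.Cg
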