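import Pool.Agent.Lib.MP_cad414_al.Cg.OC

/-! Orthogonal groups in odd characteristic: the general family. -/

namespace Pool.Agent.Lib.MP_cad414_al.Cg

set_option linter.unusedSimpArgs false

open QuadraticMap Module Ten

variable {F V : Type} [Field F] [AddCommGroup V] [Module F V] {Q : QuadraticForm F V}
  {G : Type} [Group G] [IsSimpleGroup G]

theorem fam [Finite F] [FiniteDimensional F V] (hG : NA G) (h2 : (2 : F) ≠ 0) (hQ : ND Q ⊤)
    (h : Img G (commutator (OG Q))) {k : ℕ} (hd : 2 * k + 6 ≤ finrank F V) {f g : ℕ → V}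
    {a y p : V} (o : Hy Q (2 * k + 3) f g)
    (oa : Og Q (2 * k + 3) f g a) (oy : Og Q (2 * k + 3) f g y) (op : Og Q (2 * k + 3) f g p)
    (qa : Q a = 1) (qy : Q y = 1) (ap : polar Q a p = 0) (ya : r Q y • a = a ∨ r Q y • a = -a)
    (sp : ∀ M : Submodule F V, (∀ i < 2 * k + 3, f i ∈ M ∧ g i ∈ M) → a ∈ M → p ∈ M →
      r Q y • p ∈ M → ⊤ ≤ M) : 3 ∈ GenSizes G := by
  obtain ⟨η, hη⟩ : ∃ η : F, η = (-1) ^ (k + 1) := ⟨_, rfl⟩
  have η1 : η = 1 ∨ η = -1 := hη ▸ neg_one_pow_eq_or F (k + 1)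
  have η2 : η * η = 1 := by rcases η1 with e | e <;> rw [e] <;> ring
  have η0 : η ≠ 0 := left_ne_zero_of_mul_eq_one η2
  obtain ⟨b, b0, hb⟩ := exists_tau h2 (neg_ne_zero.2 (mul_ne_zero (mul_ne_zero h2 h2) η0))
  obtain ⟨z, hz⟩ : ∃ z, z = ((η - Q p) / b) • f (2 * k + 1) + b • g (2 * k + 1) + p := ⟨_, rfl⟩
  have pa := pcomm0 ap
  have qz : Q z = η := by
    simp (disch := omega) only [hz, pl Q, o, op, dl_eq]; field_simp; ring
  have F1 : ∀ c : F, Fr Q (k + 1) (a + c • f (2 * k + 2)) z (fA f) (fB F g (f (2 * k + 2))) := by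
    refine fun c => ⟨o.one h2, Og.mk' (fun i hi => ?_) fun i hi => ?_,
      Og.mk' (fun i hi => ?_) fun i hi => ?_, ?_, hη ▸ qz, ?_, ?_⟩
    iterate 4 rcases i with _ | i <;>
      simp (disch := omega) only [hz, fA, fB, pl Q, o, oa, op, dl_ne] <;> ring
    all_goals simp (disch := omega) only [hz, pl Q, o, oa, op, qa, ap, pa, dl_ne]; ring
  have F2 : Fr Q (k + 1) y (f (2 * k + 2) + η • g (2 * k + 2)) (fun i => f (2 * i) - f (2 * i + 1))
      (fun i => (2⁻¹ : F) • (g (2 * i) - g (2 * i + 1))) := by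
    refine ⟨o.two h2, Og.mk' (fun i hi => ?_) fun i hi => ?_,
      Og.mk' (fun i hi => ?_) fun i hi => ?_, qy, ?_, ?_, ?_⟩
    all_goals simp (disch := omega) only [pl Q, o, oy, dl_ne, dl_eq, ← hη]; ring
  have F0 := F1 0
  have F3 := F1 1
  rw [zero_smul, add_zero] at F0
  rw [one_smul] at F3
  refine hG.fin_nd hQ (by omega) h F0.sq (fun H => ⟨mem_N1 H F0.1 qa (hη ▸ qz),
    F0.cj h2 hQ H hd F2, F0.cj h2 hQ H hd F3⟩) fun K l1 l2 l3 => ?_
  obtain ⟨x1, s1, f1, t1, g1, w1⟩ := o.act1 h2 rfl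
  obtain ⟨x2, s2, w2⟩ := o.act2 h2 rfl
  have qw := F2.2.2.2.2.1
  rw [← hη] at qw
  have q1 := F3.2.2.2.1
  generalize SS Q (fA f) (fB F g (f (2 * k + 2))) (k + 1) = S1 at *
  generalize SS Q (fun i => f (2 * i) - f (2 * i + 1))
    (fun i => (2⁻¹ : F) • (g (2 * i) - g (2 * i + 1))) (k + 1) = S2 at *
  clear F0 F1 F2 F3
  have hC := Cls_cl a K
  have qs := o.1 (2 * k + 2) (by omega)
  have c0 := Cls_self qa K
  have c1 := Cls_join c0 q1 (by simpa [r_inv, mul_assoc, r_cancel] using mul_mem l1 (inv_mem l3))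
  have za : r Q z • a = a := r_act0 (by
    simp (disch := omega) only [hz, pl Q, oa, ap]; ring)
  have zf : ∀ i < 2 * k + 3, i ≠ 2 * k + 1 → r Q z • f i = f i ∧ r Q z • g i = g i :=
    fun i hi e => by
      constructor <;> apply r_act0 <;> simp (disch := omega) only [hz, pl Q, o, op, dl_ne] <;> ring
  have yf : ∀ i < 2 * k + 3, r Q y • f i = f i ∧ r Q y • g i = g i := fun i hi =>
    ⟨r_act0 (oy.1 i hi), r_act0 (oy.2.1 i hi)⟩
  have wf : ∀ (c : F) (i : ℕ), i < 2 * k + 2 →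
      r Q (f (2 * k + 2) + c • g (2 * k + 2)) • f i = f i ∧
      r Q (f (2 * k + 2) + c • g (2 * k + 2)) • g i = g i := fun c i hi => by
    constructor <;> apply r_act0 <;> simp (disch := omega) only [pl Q, o, dl_ne] <;> ring
  have wx : ∀ (c : F) x, Og Q (2 * k + 3) f g x →
      r Q (f (2 * k + 2) + c • g (2 * k + 2)) • x = x := fun c x ox =>
    r_act0 (by simp (disch := omega) only [pl Q, ox]; ring)
  have p1 : ∀ u ∈ Cls Q a K, r Q z • S1 • u ∈ Cls Q a K := fun u hu => hC.back c0 (by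
    simpa only [mul_smul] using Cls_pr l1 c0 (Or.inr (by
      rw [mul_smul, mul_smul, x1 a oa, za, r_self qa])) u hu)
  have p2 := Cls_pr l2 c0 (by rwa [mul_smul, mul_smul, x2 a oa, wx _ a oa])
  have n0 : ∀ x, polar Q x a = 0 → -a + x ∈ Cls Q a K → a + x ∈ Cls Q a K := fun x hx H => by
    have := hC.refl a c0 _ H
    rwa [smul_add, smul_neg, r_self qa, neg_neg, r_act0 hx] at this
  have n1 : ∀ x, polar Q x a = 0 → a + -x ∈ Cls Q a K → a + x ∈ Cls Q a K := fun x hx H =>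
    n0 x hx (by simpa [add_comm] using hC.neg H)
  have p3 : ∀ x, a + x ∈ Cls Q a K → a + r Q z • S1 • x ∈ Cls Q a K := fun x H => by
    have := p1 _ H
    rwa [smul_add, smul_add, x1 a oa, za] at this
  have p4 : ∀ x x', polar Q x' a = 0 → a + x ∈ Cls Q a K →
      r Q y • r Q (f (2 * k + 2) + η • g (2 * k + 2)) • S2 • x = x' → a + x' ∈ Cls Q a K :=
    fun x x' hx H e => by
      have := p2 _ H
      rw [mul_smul, mul_smul, smul_add, smul_add, smul_add, x2 a oa, wx _ a oa, e] at this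
      rcases ya with e' | e' <;> rw [e'] at this
      exacts [this, n0 _ hx this]
  have ws : r Q y • r Q (f (2 * k + 2) + η • g (2 * k + 2)) • S2 • f (2 * k + 2) =
      -(η • g (2 * k + 2)) := by
    rw [s2, r_act (_ + _), qw]
    simp (disch := omega) only [pl Q, o, dl_eq, smul_sub, smul_add, act_smul,
      yf _ (Nat.lt_succ_self _)]
    match_scalars <;> field_simp <;> ring
  have ta := oa.2.1 (2 * k + 2) (by omega)
  have c2 : a + g (2 * k + 2) ∈ Cls Q a K := by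
    have := p4 _ _ (by simp (disch := omega) only [pl Q, oa]; ring) c1 ws
    rcases η1 with e | e <;> rw [e] at this
    · exact n1 _ ta (by simpa using this)
    · simpa using this
  have c3 : f (2 * k + 2) + (1 : F) • g (2 * k + 2) ∈ Cls Q a K := by
    have := hC.neg (hC.refl _ c1 _ (n1 (-g (2 * k + 2)) (by simp [ta]) (by simpa using c2)))
    rw [r_act1 q1] at this
    simp (disch := omega) only [pl Q, o, oa, qa, dl_eq] at this
    convert this using 1
    module
  have c4 : a + f 0 ∈ Cls Q a K := by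
    have h1 := p3 _ c2
    rw [t1, smul_sub, act_smul, (zf _ (by omega) (by omega)).1, (zf _ (by omega) (by omega)).2]
      at h1
    have h3 := tri hC h1 (tri hC c2 c0 (by simp (disch := omega) only [pl Q, oa, qa]; ring)) (by
      simp (disch := omega) only [pl Q, o, oa, qa, dl_ne]; ring)
    refine n1 _ (oa.1 0 (by omega)) ?_
    convert h3 using 1
    match_scalars <;> field_simp <;> ring
  have c5 : ∀ i < 2 * (k + 1), a + f i ∈ Cls Q a K := fun i hi =>
    (chain (fun i => a + f i ∈ Cls Q a K) (h := k + 1) (fun i hi => ⟨fun H =>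
      p4 _ _ (oa.1 _ (by omega)) H (by
        rw [(w2 i hi).1, (wf _ _ (by omega)).1, (yf _ (by omega)).1]),
      fun H => p4 _ _ (oa.1 _ (by omega)) H (by
        rw [(w2 i hi).2.1, (wf _ _ (by omega)).1, (yf _ (by omega)).1])⟩) (fun i hi => ⟨fun H => by
      simpa only [(w1 i (by omega)).1, (zf (2 * i + 2) (by omega) (by omega)).1] using p3 _ H,
      fun H => by
        simpa only [(w1 i (by omega)).2.1, (zf (2 * i + 1) (by omega) (by omega)).1] using p3 _ H⟩)
      i hi).2 c4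
  have c6 : a + (f (2 * k + 1) - (b * η) • z) ∈ Cls Q a K := by
    have := p3 _ (c5 (2 * k + 1) (by omega))
    rw [f1, r_act, qz] at this
    convert this using 4
    simp (disch := omega) only [hz, pl Q, o, op, dl_eq]
    rw [eq_div_iff η0]
    linear_combination b * η2
  have sa := oa.1 (2 * k + 2) (by omega)
  have sf : ∀ i < 2 * (k + 1), polar Q (f (2 * k + 2)) (a + f i) = 0 := fun i hi => by
    simp (disch := omega) only [pl Q, o, oa, add_zero]
  have H : polar Q (f (2 * k + 2)) (a + (f (2 * k + 1) - (b * η) • z)) = 0 ∧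
      polar Q (f (2 * k + 1)) (a + (f (2 * k + 1) - (b * η) • z)) = -(b * η * b) ∧
      polar Q (a + (f (2 * k + 1) - (b * η) • z)) a = 2 ∧
      ∀ i < 2 * (k + 1), polar Q a (a + f i) = 2 := by
    refine ⟨?_, ?_, ?_, fun i hi => ?_⟩ <;>
      simp (disch := omega) only [hz, pl Q, o, oa, op, pa, qa, dl_eq, dl_ne] <;> ring
  obtain ⟨e1, e2, e3, e4⟩ := H
  have b2 : a ∈ core F (AS (NG Q (Cls Q a K)) qs) := hb _ (by simp)
    (by rw [one_smul]; exact AS_rr hC c0 c1 sa) (fun a b ha hb => by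
      rw [add_smul]; exact add_mem ha hb) fun c hc => by
      have h1 : (c * 2) • f (2 * k + 1) ∈ AS (NG Q (Cls Q a K)) qs := by
        convert sub_mem (AS_mul hC (c5 (2 * k + 1) (by omega)) (sf _ (by omega))
          (e4 _ (by omega)) hc) (add_mem hc hc) using 1
        module
      convert AS_mul hC c0 sa e3 (AS_mul hC c6 e1 e2 h1) using 2
      ring
  have b3 : ∀ i < 2 * (k + 1), f i ∈ core F (AS (NG Q (Cls Q a K)) qs) := fun i hi =>
    (Submodule.add_mem_iff_right _ b2).1 (core_refl hC (c5 i hi) (sf i hi) (by rwa [e4 i hi]) b2)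
  have b4 : z ∈ core F (AS (NG Q (Cls Q a K)) qs) := by
    have := (Submodule.add_mem_iff_right _ b2).1 (core_refl hC c6 e1 (by rwa [pcomm, e3]) b2)
    rw [Submodule.sub_mem_iff_right _ (b3 _ (by omega))] at this
    exact smul_back (mul_ne_zero b0 η0) this
  have i1 : ∀ x ∈ core F (AS (NG Q (Cls Q a K)) qs),
      r Q z • S1 • x ∈ core F (AS (NG Q (Cls Q a K)) qs) := fun x hx => by
    rw [← mul_smul]
    exact core_inv (fun c hc => by rw [mul_smul]; exact p1 c hc) (Or.inl (by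
      rw [mul_smul, s1, (zf _ (by omega) (by omega)).1])) hx
  have i1' : ∀ x ∈ core F (AS (NG Q (Cls Q a K)) qs),
      S1 • x ∈ core F (AS (NG Q (Cls Q a K)) qs) := fun x hx => by
    have := i1 x hx
    rwa [r_act, Submodule.sub_mem_iff_left _ (Submodule.smul_mem _ _ b4)] at this
  have i2 : ∀ x ∈ core F (AS (NG Q (Cls Q a K)) qs),
      r Q (f (2 * k + 2) + (1 : F) • g (2 * k + 2)) • r Q y •
        r Q (f (2 * k + 2) + η • g (2 * k + 2)) • S2 • x ∈
        core F (AS (NG Q (Cls Q a K)) qs) := fun x hx => by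
    rw [← mul_smul (r Q y), ← mul_smul (_ * _), ← mul_smul]
    refine core_inv (fun c hc => by rw [mul_smul]; exact hC.refl _ c3 _ (p2 c hc)) ?_ hx
    rw [mul_smul, mul_smul, mul_smul, ws, r_act1 c3.1]
    simp (disch := omega) only [pl Q, o, dl_eq]
    rcases η1 with e | e <;> rw [e]
    · left; module
    · right; module
  have oy' : ∀ x, Og Q (2 * k + 3) f g x → Og Q (2 * k + 3) f g (r Q y • x) := fun x ox =>
    Og.mk' (fun i hi => by rw [r_act]; simp (disch := omega) only [pl Q, ox, oy]; ring)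
      fun i hi => by rw [r_act]; simp (disch := omega) only [pl Q, ox, oy]; ring
  have i3 : ∀ (c : F) i j x, j < 2 * k + 2 → S2 • g i = g j → Og Q (2 * k + 3) f g x →
      c • g i + x ∈ core F (AS (NG Q (Cls Q a K)) qs) →
      c • g j + r Q y • x ∈ core F (AS (NG Q (Cls Q a K)) qs) := fun c i j x hj e ox H => by
    simpa only [smul_add, act_smul, e, (wf _ j hj).2, (yf j (by omega)).2, x2 x ox, wx _ x ox,
      wx _ _ (oy' x ox)] using i2 _ H
  have b5 : b • g (2 * k + 1) + p ∈ core F (AS (NG Q (Cls Q a K)) qs) := by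
    rwa [hz, add_assoc, Submodule.add_mem_iff_right _ (Submodule.smul_mem _ _ (b3 _ (by omega)))]
      at b4
  obtain ⟨x, ox, hx⟩ := (chain (fun i => ∃ x, Og Q (2 * k + 3) f g x ∧
    b • g i + x ∈ core F (AS (NG Q (Cls Q a K)) qs)) (h := k + 1) (fun i hi =>
      ⟨fun ⟨x, ox, H⟩ => ⟨_, oy' x ox, i3 _ _ _ x (by omega) (w2 i hi).2.2.1 ox H⟩,
       fun ⟨x, ox, H⟩ => ⟨_, oy' x ox, i3 _ _ _ x (by omega) (w2 i hi).2.2.2 ox H⟩⟩)
    (fun i hi => ⟨fun ⟨x, ox, H⟩ => ⟨x, ox, by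
        simpa only [smul_add, act_smul, (w1 i (by omega)).2.2.1, x1 x ox] using i1' _ H⟩,
      fun ⟨x, ox, H⟩ => ⟨x, ox, by
        simpa only [smul_add, act_smul, (w1 i (by omega)).2.2.2, x1 x ox] using i1' _ H⟩⟩)
    (2 * k + 1) (by omega)).1 ⟨p, op, b5⟩
  have o0 : Og Q (2 * k + 3) f g 0 := Og.mk' (by simp) (by simp)
  have b6 : g 0 ∈ core F (AS (NG Q (Cls Q a K)) qs) := by
    have := sub_mem (sub_mem hx (i1' _ hx)) (Submodule.smul_mem _ (b * 2⁻¹) core_self)
    rw [smul_add, act_smul, g1, x1 x ox] at this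
    refine smul_back (mul_ne_zero b0 h2) ?_
    convert this using 1
    module
  have b7 : ∀ i < 2 * (k + 1), g i ∈ core F (AS (NG Q (Cls Q a K)) qs) := fun i hi =>
    (chain (fun i => g i ∈ core F (AS (NG Q (Cls Q a K)) qs)) (h := k + 1) (fun i hi =>
      ⟨fun H => by simpa using i3 1 _ _ 0 (by omega) (w2 i hi).2.2.1 o0 (by simpa using H),
       fun H => by simpa using i3 1 _ _ 0 (by omega) (w2 i hi).2.2.2 o0 (by simpa using H)⟩)
      (fun i hi => ⟨fun H => (w1 i (by omega)).2.2.1 ▸ i1' _ H,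
        fun H => (w1 i (by omega)).2.2.2 ▸ i1' _ H⟩) i hi).2 b6
  have b8 := (Submodule.add_mem_iff_right _ (Submodule.smul_mem _ b (b7 _ (by omega)))).1 b5
  have b9 : r Q y • p ∈ core F (AS (NG Q (Cls Q a K)) qs) := by
    simpa using i3 0 0 1 p (by omega) (w2 0 (by omega)).2.2.1 op (by simpa using b8)
  refine ⟨a, _, _, qs, lift_fin (y := g (2 * k + 2)) (sp _ (fun i hi => ?_) ((lift0 sa).2 b2)
    ((lift0 (op.1 _ (by omega))).2 b8) ((lift0 ((oy' p op).1 _ (by omega))).2 b9)), c3, by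
      simp (disch := omega) only [pl Q, o, dl_eq]; simp⟩
  by_cases e : i = 2 * k + 2
  · rw [e]
    exact ⟨(lift0 (by rw [pself, qs, mul_zero])).2 core_self, mem_lift.2 (by
      simp (disch := omega) only [o, dl_eq]; simp)⟩
  · exact ⟨(lift0 (o.2.2.1 _ _ (by omega) hi)).2 (b3 i (by omega)), (lift0 (by
      simp (disch := omega) only [o, dl_ne])).2 (b7 i (by omega))⟩

theorem span_one [FiniteDimensional F V] {W : Submodule F V} (h2 : (2 : F) ≠ 0) (hW : ND Q W)
    (hd : finrank F W = 1) : ∃ v ∈ W, ∀ M : Submodule F V, v ∈ M → W ≤ M := by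
  obtain ⟨v, hv, qv⟩ := exists_aniso hW hd.ge
  obtain ⟨-, k2, k3⟩ := split1 hW hv (by rw [pself]; exact mul_ne_zero h2 qv)
  exact ⟨v, hv, fun M hM => k3 M hM (le_of_finrank_zero (by omega) _)⟩

theorem orth_odd [Finite F] [FiniteDimensional F V] (hG : NA G) (h2 : (2 : F) ≠ 0) (hQ : ND Q ⊤)
    (h : Img G (commutator (OG Q))) {k : ℕ} (hd : finrank F V = 4 * k + 7 ∨
      (k = 0 ∧ finrank F V = 8) ∨ finrank F V = 4 * k + 9) : 3 ∈ GenSizes G := by
  rcases hd with hd | hd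
  · obtain ⟨Q, f, g, a, e, hQ, o, oa, qa, sp⟩ := exists_odd h2 hQ (m := 2 * k + 3) (by omega)
    exact fam hG h2 hQ (e ▸ h) (by omega) o oa oa (Og.mk' (x := 0) (by simp) (by simp)) qa qa
      (by simp) (Or.inr (r_self qa)) fun M h1 h3 _ _ => sp M h1 h3
  obtain ⟨f, g, W, o, h1, h3, h4, h5⟩ := exists_hy h2 hQ (2 * k + 3) (by omega)
  obtain ⟨a, ha, qa⟩ := universal h1 (by omega) 1
  obtain ⟨k1, k2, k3⟩ := split1 h1 ha (by rwa [pself, qa, mul_one])
  rcases hd with hd | hd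
  · obtain ⟨v, hv, k4⟩ := span_one h2 k1 (by omega)
    exact fam hG h2 hQ h (by omega) o (h4 a ha) (h4 a ha) (h4 v (mem_perp.1 hv).1) qa qa
      (mem_perp.1 hv).2 (Or.inr (r_self qa)) fun M m1 m2 m3 _ => h5 M m1 (k3 M m2 (k4 M m3))
  obtain ⟨u, hu, qu⟩ := universal k1 (by omega) 1
  obtain ⟨j1, j2, j3⟩ := split1 k1 hu (by rwa [pself, qu, mul_one])
  obtain ⟨v, hv, k4⟩ := span_one h2 j1 (by omega)
  obtain ⟨hv, uv⟩ := mem_perp.1 hv
  refine fam hG h2 hQ h (by omega) o (h4 a ha) (h4 u (mem_perp.1 hu).1)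
    (h4 (u + v) (mem_perp.1 (add_mem hu hv)).1) qa qu (mem_perp.1 (add_mem hu hv)).2
    (Or.inl (r_act0 (mem_perp.1 hu).2)) fun M m1 m2 m3 m4 => ?_
  rw [smul_add, r_self qu, r_act0 (pcomm0 uv)] at m4
  have m5 : v ∈ M := smul_back h2 (by convert add_mem m3 m4 using 1; module)
  exact h5 M m1 (k3 M m2 (j3 M ((M.add_mem_iff_left m5).1 m3) (k4 M m5)))

end Pool.Agent.Lib.MP_cad414_al.Cg
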