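import Pool.Agent.Lib.MP_cad414_al.Cg.OB

/-! Orthogonal groups in characteristic two: dimension eight. -/

namespace Pool.Agent.Lib.MP_cad414_al.Cg

set_option linter.unusedSimpArgs false

open QuadraticMap Module Ten

variable {F V : Type} [Field F] [AddCommGroup V] [Module F V] {Q : QuadraticForm F V}
  {G : Type} [Group G] [IsSimpleGroup G] {m : ℕ} {p : ℕ → V}

theorem sw (rt : Rt Q m p) {i j k : ℕ} (H : i < m ∧ j < m ∧ k < m ∧ i ≠ j ∧ k ≠ i ∧ k ≠ j) :
    r Q (p i - p j) • (p k - p i) = p k - p j ∧ r Q (p i - p j) • (p k - p j) = p k - p i ∧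
    r Q (p i - p j) • (p i - p k) = p j - p k ∧ r Q (p i - p j) • (p j - p k) = p i - p k := by
  refine ⟨?_, ?_, ?_, ?_⟩ <;> rw [r_act1 (rt.q i j H.1 H.2.1 H.2.2.2.1)] <;>
    simp (disch := omega) only [rt.rr, dl_ne, dl_eq] <;> module

theorem sw0 (rt : Rt Q m p) {i j k n : ℕ}
    (H : k < m ∧ n < m ∧ i < m ∧ j < m ∧ k ≠ i ∧ k ≠ j ∧ n ≠ i ∧ n ≠ j) :
    r Q (p i - p j) • (p k - p n) = p k - p n := r_act0 (rt.o H)

theorem up' (rt : Rt Q m p) {C : Set V} (hC : Cl Q C) {b i : ℕ} (hb : b + 1 < m) (h1 : Up p C b)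
    (hi : i < b) (h2 : p i - p (b + 1) ∈ C) : Up p C (b + 1) :=
  rt.up hC hb h1 ((sw rt (i := i) (j := b) (k := b + 1) (by omega)).2.2.1 ▸
    hC.refl _ (h1 i b hi.le le_rfl hi.ne) _ h2)

theorem merge (rt : Rt Q m p) (hm : 5 ≤ m) {K : Subgroup (OG Q)} {t : OG Q} (ht : t ∈ K)
    (h1 : r Q (p 1 - p 2) * r Q (p 2 - p 3) ∈ K) (e1 : t • (p 1 - p 2) = p 0 - p 2)
    (e2 : t • (p 2 - p 3) = p 2 - p 4) : Up p (Cls Q (p 1 - p 2) K) 4 := by
  have hC := Cls_cl (p 1 - p 2) K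
  have c0 := Cls_self (rt.q 1 2 (by omega) (by omega) (by omega)) K
  have c1 := Cls_join c0 (rt.q 2 3 (by omega) (by omega) (by omega)) h1
  have c2 := hC.refl _ c0 _ c1
  rw [(sw rt (by omega)).2.2.2] at c2
  have h2 : r Q (p 0 - p 2) * r Q (p 2 - p 4) ∈ K := by
    rw [← e1, ← e2, ← r_conj, ← r_conj]
    convert mul_mem (mul_mem ht h1) (inv_mem ht) using 1
    group
  have h3 := Cls_pr h2 c2 (Or.inl (by
    rw [mul_smul, r_act0 (rt.o (by omega)), r_act0 (rt.o (by omega))]))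
  have c3 := h3 _ c0
  rw [mul_smul, (sw rt (by omega)).1, r_act0 (rt.o (by omega))] at c3
  have c4 := hC.neg (h3 _ c3)
  rw [mul_smul, (sw rt (by omega)).2.1, (sw rt (by omega)).2.1, neg_sub] at c4
  exact up' rt hC (i := 1) (by omega) (rt.up hC (by omega) (rt.up hC (by omega)
    (rt.up hC (b := 0) (by omega) (fun i j hi hj hij => by omega) c4) c0) c1) (by omega) c3

theorem lift_rt {M : Submodule F V} {s : V} {a : ℕ} (H : ∀ i < m,
    (polar Q s (p i - p 0) = 0 ∧ p i - p 0 ∈ M) ∨ (polar Q s (p i - p 0) = 1 ∧ p i - p a ∈ M)) :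
    ∀ i j, i < m → j < m → p i - p j ∈ lift Q M s (p a - p 0) := by
  have key : ∀ i < m, p i - p 0 ∈ lift Q M s (p a - p 0) := fun i hi => by
    rcases H i hi with ⟨h1, h2⟩ | ⟨h1, h2⟩
    · exact (lift0 h1).2 h2
    · rwa [mem_lift, h1, one_smul, sub_sub_sub_cancel_right]
  intro i j hi hj
  simpa using sub_mem (key i hi) (key j hj)

/-- four vectors -/
def qd (a b c d : V) : ℕ → V
  | 0 => a
  | 1 => b
  | 2 => c
  | _ => d

theorem qd_TT (a b c d : V) : TT Q (qd a b c d) 4 = r Q a * (r Q b * (r Q c * r Q d)) := by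
  simp [TT, qd, mul_assoc]

theorem qd_po {a b c d : V} (H : Q a = 1 ∧ Q b = 1 ∧ Q c = 1 ∧ Q d = 1 ∧ polar Q a b = 0 ∧
    polar Q a c = 0 ∧ polar Q a d = 0 ∧ polar Q b c = 0 ∧ polar Q b d = 0 ∧ polar Q c d = 0) :
    PO Q (qd a b c d) 4 := by
  obtain ⟨_, _, _, _, _, _, _, _, _, _⟩ := H
  refine ⟨fun i hi => ?_, fun i hi j hj hij => ?_⟩
  · interval_cases i <;> assumption
  · interval_cases i <;> interval_cases j <;>
      first | contradiction | assumption | exact pcomm0 (by assumption)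

theorem qd_td {a b c d : V} (x y z : V) (H : polar Q b x ≠ 0 ∧ polar Q a x = 0 ∧
    polar Q c y ≠ 0 ∧ polar Q a y = 0 ∧ polar Q b y = 0 ∧ polar Q d z ≠ 0 ∧ polar Q a z = 0 ∧
    polar Q b z = 0 ∧ polar Q c z = 0) : TD Q (qd a b c d) 4 := by
  obtain ⟨h1, _, h2, _, _, h3, _, _, _⟩ := H
  intro j hj j0
  interval_cases j
  exacts [⟨x, h1, fun i hi => by interval_cases i; assumption⟩,
    ⟨y, h2, fun i hi => by interval_cases i <;> assumption⟩,
    ⟨z, h3, fun i hi => by interval_cases i <;> assumption⟩]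

/-- orthogonal to three roots -/
abbrev O3 (Q : QuadraticForm F V) (p : ℕ → V) (x : V) : Prop :=
  polar Q (p 1 - p 2) x = 0 ∧ polar Q (p 2 - p 3) x = 0 ∧ polar Q (p 4 - p 5) x = 0

theorem eight_core [Finite F] [FiniteDimensional F V] (hG : NA G) (hQ : ND Q ⊤)
    (hd : finrank F V = 8) (h : Img G (commutator (OG Q))) {v w x y x' y' : V}
    (o : Tw Q 7 p v w) (qx : Q x = 1) (qy : Q y = 1) (xy : polar Q x y = 0) (ox : O3 Q p x)
    (oy : O3 Q p y) (ox' : O3 Q p x') (oy' : O3 Q p y') (a1 : polar Q (p 0 - p 4) x = 0)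
    (a2 : polar Q (p 0 - p 4) y = 0) (b1 : polar Q x x' ≠ 0) (b2 : polar Q y y' ≠ 0)
    (b3 : polar Q x y' = 0)
    (force : ∀ C, Cl Q C → Up p C 6 → (∀ u ∈ C, r Q v • u ∈ C) →
      (∀ u ∈ C, r Q x • r Q y • u ∈ C) → ∃ s y, Q s = 0 ∧
      (∀ w, polar Q s w = 0 → E Q s w ∈ NG Q C) ∧ y ∈ C ∧ polar Q s y ≠ 0) : 3 ∈ GenSizes G := by
  have rt := o.rt
  have p1 : PO Q (qd (p 1 - p 2) (p 4 - p 5) x y) 4 := qd_po (by
    simp (disch := omega) only [rt.q, rt.o, qx, qy, xy, ox, oy, and_self])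
  have p3 : PO Q (qd (p 2 - p 3) (p 4 - p 5) x y) 4 := qd_po (by
    simp (disch := omega) only [rt.q, rt.o, qx, qy, xy, ox, oy, and_self])
  have p2 : PO Q (qd (p 0 - p 1) (p 3 - p 4) (p 5 - p 6) v) 4 := qd_po (by
    simp (disch := omega) only [rt.q, rt.o, o.qv, o.rv, and_self])
  have d1 : TD Q (qd (p 1 - p 2) (p 4 - p 5) x y) 4 := qd_td (p 0 - p 4) x' y'
    ⟨(rt.u (by omega)).ne, rt.o (by omega), b1, ox'.1, ox'.2.2, b2, oy'.1, oy'.2.2, b3⟩
  have d3 : TD Q (qd (p 2 - p 3) (p 4 - p 5) x y) 4 := qd_td (p 0 - p 4) x' y'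
    ⟨(rt.u (by omega)).ne, rt.o (by omega), b1, ox'.2.1, ox'.2.2, b2, oy'.2.1, oy'.2.2, b3⟩
  have d2 : TD Q (qd (p 0 - p 1) (p 3 - p 4) (p 5 - p 6) v) 4 := qd_td (p 2 - p 3) (p 2 - p 5) w
    ⟨(rt.u (by omega)).ne, rt.o (by omega), (rt.u (by omega)).ne, rt.o (by omega), rt.o (by omega),
      Un.ne (Or.inl o.vw), by simp (disch := omega) only [o.rw', and_self]⟩
  refine hG.fin_nd hQ (by omega) h (TT_sq p1) (fun H => ⟨TT_even (k := 2) p1.1,
    conj_all hQ H (by omega) p1 p2 (fun _ => d1) fun _ => d2,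
    conj_all hQ H (by omega) p1 p3 (fun _ => d1) fun _ => d3⟩) fun K l1 l2 l3 => ⟨p 1 - p 2, ?_⟩
  have hC := Cls_cl (p 1 - p 2) K
  have n1 := TT_neg p1 (i := 0) (by omega)
  have n2 := TT_neg p2 (i := 0) (by omega)
  rw [qd_TT] at l1 l2 l3 n1 n2
  have fv : ∀ i j, i < 7 → j < 7 → r Q v • (p i - p j) = p i - p j := fun i j hi hj =>
    r_act0 (o.rv i j hi hj)
  have u4 := merge rt (by omega) l2 (by
    simpa [r_inv, mul_assoc, r_cancel] using mul_mem l1 (inv_mem l3))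
    (by simp (disch := omega) only [mul_smul, fv, sw0 rt, sw rt])
    (by simp (disch := omega) only [mul_smul, fv, sw0 rt, sw rt])
  have r1 := Cls_pr l1 (u4 1 2 (by omega) (by omega) (by omega)) (Or.inr n1)
  have r2 := Cls_pr l2 (u4 0 1 (by omega) (by omega) (by omega)) (Or.inr n2)
  have u5 := up' rt hC (i := 0) (by omega) u4 (by omega) (by
    simpa (disch := omega) only [mul_smul, r_act0 a1, r_act0 a2, sw0 rt, sw rt] using
      r1 _ (u4 0 4 (by omega) (by omega) (by omega)))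
  have u6 := up' rt hC (i := 2) (by omega) u5 (by omega) (by
    simpa (disch := omega) only [mul_smul, fv, sw0 rt, sw rt] using
      r2 _ (u5 2 5 (by omega) (by omega) (by omega)))
  simp only [mul_smul] at r1 r2
  exact force _ hC u6 (fun u hu => hC.back (u6 5 6 (by omega) (by omega) (by omega))
    (hC.back (u6 3 4 (by omega) (by omega) (by omega))
      (hC.back (u6 0 1 (by omega) (by omega) (by omega)) (r2 u hu))))
    fun u hu => hC.back (u6 4 5 (by omega) (by omega) (by omega))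
      (hC.back (u6 1 2 (by omega) (by omega) (by omega)) (r1 u hu))

theorem eight [Finite F] [FiniteDimensional F V] (hG : NA G) (h2 : (2 : F) = 0) (hQ : ND Q ⊤)
    (hd : finrank F V = 8) (h : Img G (commutator (OG Q))) : 3 ∈ GenSizes G := by
  obtain ⟨p, v, w, o⟩ := exists_tw h2 hQ (j := 3) hd
  have rt := o.rt
  obtain ⟨g, g0, hg⟩ := exists_gen F
  obtain ⟨x, hx⟩ := exists_sq h2 g
  have x0 : x ≠ 0 := fun e => g0 (by rw [← hx, e, mul_zero])
  have S : (∀ i j k n, i < 7 → j < 7 → k < 7 → n < 7 →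
      polar Q (p i - p j) (p k - p n) = dl F i k - dl F i n - dl F j k + dl F j n) ∧
      (∀ i j, i < 7 → j < 7 → i ≠ j → Q (p i - p j) = 1) ∧
      (∀ i j, i < 7 → j < 7 → polar Q (p i - p j) v = 0) ∧
      (∀ i j, i < 7 → j < 7 → polar Q (p i - p j) w = 0) ∧
      (∀ i j, i < 7 → j < 7 → polar Q v (p i - p j) = 0) ∧
      (∀ i j, i < 7 → j < 7 → polar Q w (p i - p j) = 0) ∧ Q v = 1 ∧ polar Q v w = 1 ∧
      polar Q w v = 1 ∧ (∀ x y z, polar Q (x + y) z = polar Q x z + polar Q y z) ∧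
      (∀ x y z, polar Q x (y + z) = polar Q x y + polar Q x z) ∧
      (∀ (a : F) x y, polar Q (a • x) y = a * polar Q x y) ∧
      (∀ (a : F) x y, polar Q x (a • y) = a * polar Q x y) ∧
      (∀ x y, Q (x + y) = Q x + Q y + polar Q x y) ∧ (∀ (a : F) x, Q (a • x) = a * a * Q x) ∧
      (∀ x, polar Q x x = 0) :=
    ⟨rt.rr, rt.q, o.rv, o.rw', o.vr, o.wr, o.qv, o.vw, o.wv, polar_add_left Q, polar_add_right Q,
      polar_smul_left Q, polar_smul_right Q, Qadd, Qsmul, fun x => by rw [pself, h2, zero_mul]⟩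
  by_cases d0 : Q w = 0
  · obtain ⟨a, ha⟩ : ∃ a, a = x⁻¹ • (p 1 - p 2 + (p 3 - p 6)) + x • (p 0 - p 6 + (p 4 - p 5)) :=
      ⟨_, rfl⟩
    have H : Q a = 1 ∧ Q (a + w) = 1 ∧ polar Q a (a + w) = 0 ∧ O3 Q p a ∧ O3 Q p (a + w) ∧
        O3 Q p (p 1 - p 2 + (p 3 - p 6)) ∧ O3 Q p v ∧ polar Q (p 0 - p 4) a = 0 ∧
        polar Q (p 0 - p 4) (a + w) = 0 ∧ polar Q a (p 1 - p 2 + (p 3 - p 6)) = x ∧
        polar Q (a + w) v = 1 ∧ polar Q a v = 0 ∧ polar Q w a = 0 ∧
        polar Q (p 1 - p 6) a = -x ∧ Q (p 1 - p 2 + (p 3 - p 6)) = 0 := by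
      simp (disch := omega) only [ha, O3, S, d0, dl_ne, dl_eq]
      refine ⟨?_, ?_, ?_, ⟨?_, ?_, ?_⟩, ⟨?_, ?_, ?_⟩, ⟨?_, ?_, ?_⟩, by simp, ?_, ?_, ?_, ?_, ?_, ?_,
        ?_, ?_⟩ <;> grind
    obtain ⟨q1, q2, q3, q4, q5, q6, q7, q8, q9, e1, e2, e3, e4, e5, qs⟩ := H
    refine eight_core hG hQ hd h o q1 q2 q3 q4 q5 q6 q7 q8 q9 (e1 ▸ x0) (e2 ▸ one_ne_zero) e3
      fun C hC u hv ha => ?_
    have z1 := ha _ (u 1 6 (by omega) (by omega) (by omega))
    rw [← mul_smul, E_rr d0 q1 e4, E_act d0 e4, e5, o.rw' _ _ (by omega) (by omega)] at z1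
    have z2 := conn (· < 7) (fun i j => p i - p j + x • w ∈ C) (fun i j H => by
      convert hC.neg H using 1
      linear_combination (norm := module) (x * h2) • w) (fun i j k hi hj hk h1 h3 h4 H => by
        have := hC.refl _ (u i k (by omega) (by omega) (by omega)) _ H
        rwa [smul_add, (sw rt (by omega)).2.2.1, r_act0 (x := x • w) (by
          simp (disch := omega) only [S, mul_zero])] at this) (i := 1) (j := 6) (by omega)
      (by omega) (by omega) (by simpa using z1)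
    have z3 := hv _ (z2 2 3 (by omega) (by omega) (by omega))
    rw [r_act1 o.qv] at z3
    simp (disch := omega) only [S, zero_add, mul_one, sub_eq_add_neg _ (x • v), ← neg_smul] at z3
    have sp : ∀ i j, (i = 1 ∨ i = 2 ∨ i = 3 ∨ i = 6 ↔ j = 1 ∨ j = 2 ∨ j = 3 ∨ j = 6) → i < 7 →
        j < 7 → polar Q (p 1 - p 2 + (p 3 - p 6)) (p i - p j) = 0 := fun i j H hi hj => by
      interval_cases i <;> interval_cases j <;>
        first | omega | (simp (disch := omega) only [S, dl_ne, dl_eq]; grind)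
    have sw : polar Q (p 1 - p 2 + (p 3 - p 6)) w = 0 := by simp (disch := omega) only [S, add_zero]
    have sv : polar Q (p 1 - p 2 + (p 3 - p 6)) v = 0 := by simp (disch := omega) only [S, add_zero]
    have sz : ∀ i j, (i = 1 ∨ i = 2 ∨ i = 3 ∨ i = 6 ↔ j = 1 ∨ j = 2 ∨ j = 3 ∨ j = 6) → i < 7 →
        j < 7 → polar Q (p 1 - p 2 + (p 3 - p 6)) (p i - p j + x • w) = 0 := fun i j H hi hj => by
      rw [polar_add_right, sp i j H hi hj, polar_smul_right, sw, smul_zero, add_zero]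
    have sz3 : polar Q (p 1 - p 2 + (p 3 - p 6)) (p 2 - p 3 + x • w + -x • v) = 0 := by
      rw [polar_add_right, sz _ _ (by omega) (by omega) (by omega), polar_smul_right, sv,
        smul_zero, add_zero]
    have c0 := u 1 2 (by omega) (by omega) (by omega)
    have s0 := sp 1 2 (by omega) (by omega) (by omega)
    have z4 := z2 1 6 (by omega) (by omega) (by omega)
    have s4 := sz 1 6 (by omega) (by omega) (by omega)
    have b0 : p 1 - p 2 ∈ core F (AS (NG Q C) qs) := hg _ (by simp) (by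
      rw [one_smul]
      refine AS_rr hC c0 ?_ s0
      convert u 3 6 (by omega) (by omega) (by omega) using 1
      linear_combination (norm := module) h2 • (p 1 - p 2)) fun k hk => by
        convert AS_mul hC c0 s0 rfl (AS_mul hC z3 sz3 rfl (AS_mul hC z4 s4 rfl hk)) using 2
        simp (disch := omega) only [S, d0, dl_ne, dl_eq]
        grind
    have b1 := core_refl hC (u 1 6 (by omega) (by omega) (by omega))
      (sp _ _ (by omega) (by omega) (by omega)) (rt.u (by omega)).ne b0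
    have b2 := core_refl hC (u 2 3 (by omega) (by omega) (by omega))
      (sp _ _ (by omega) (by omega) (by omega)) (rt.u (by omega)).ne b0
    have b3 := core_refl hC z4 s4 (by simp (disch := omega) only [S, dl_ne, dl_eq]; simp) b0
    rw [Submodule.add_mem_iff_right _ b1] at b3
    have b4 := core_refl hC z3 sz3 (by simp (disch := omega) only [S, dl_ne, dl_eq]; simp) b0
    rw [Submodule.add_mem_iff_right _ (add_mem b2 b3)] at b4
    replace b4 := smul_back (neg_ne_zero.2 x0) b4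
    have b5 : ∀ i, i = 4 ∨ i = 5 → p i - p 0 ∈ core F (AS (NG Q C) qs) := fun i hi =>
      (Submodule.add_mem_iff_left _ b3).1 (core_refl hC (z2 i 0 (by omega) (by omega) (by omega))
        (sz _ _ (by omega) (by omega) (by omega))
        (by simp (disch := omega) only [S]; simpa using x0) b4)
    refine ⟨_, _, qs, lift_fin (o.sp _ (lift_rt (a := 1) fun i hi => ?_) ((lift0 sv).2 b4)
      ((lift0 sw).2 (smul_back x0 b3))), u 1 0 (by omega) (by omega) (by omega), by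
        simp (disch := omega) only [S, dl_ne, dl_eq]; simp⟩
    by_cases e : i = 1 ∨ i = 2 ∨ i = 3 ∨ i = 6
    · right
      rcases e with rfl | rfl | rfl | rfl <;>
        refine ⟨by simp (disch := omega) only [S, dl_ne, dl_eq]; grind, ?_⟩
      exacts [by simp, by simpa using neg_mem b0, by simpa using neg_mem (add_mem b0 b2),
        by simpa using neg_mem b1]
    · refine Or.inl ⟨sp _ _ (by omega) hi (by omega), ?_⟩
      by_cases e' : i = 0
      exacts [by simp [e'], b5 i (by omega)]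
  obtain ⟨y, hy⟩ := exists_sq h2 x
  obtain ⟨c, hc⟩ := exists_sq h2 (Q w)⁻¹
  have y0 : y ≠ 0 := fun e => x0 (by rw [← hy, e, mul_zero])
  have c0 : c ≠ 0 := fun e => inv_ne_zero d0 (by rw [← hc, e, mul_zero])
  have hc' : c * c * Q w = 1 := by rw [hc, inv_mul_cancel₀ d0]
  obtain ⟨n, hn⟩ : ∃ n, n = y • (p 1 - p 2 + (p 3 - p 6)) := ⟨_, rfl⟩
  have H : Q (c • w) = 1 ∧ Q (c • w + n) = 1 ∧ polar Q (c • w) (c • w + n) = 0 ∧
      O3 Q p (c • w) ∧ O3 Q p (c • w + n) ∧ O3 Q p v ∧ O3 Q p (p 0 - p 6 + (p 4 - p 5)) ∧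
      polar Q (p 0 - p 4) (c • w) = 0 ∧ polar Q (p 0 - p 4) (c • w + n) = 0 ∧
      polar Q (c • w) v = c ∧ polar Q (c • w + n) (p 0 - p 6 + (p 4 - p 5)) = y ∧
      polar Q (c • w) (p 0 - p 6 + (p 4 - p 5)) = 0 ∧ Q n = 0 ∧ polar Q n (c • w) = 0 ∧
      polar Q (p 0 - p 1) n = y ∧ polar Q (p 0 - p 1) (c • w) = 0 ∧
      Q (p 2 - p 4 + (p 3 - p 5)) = 0 := by
    simp (disch := omega) only [hn, O3, S, dl_ne, dl_eq]
    refine ⟨?_, ?_, ?_, ⟨?_, ?_, ?_⟩, ⟨?_, ?_, ?_⟩, by simp, ⟨?_, ?_, ?_⟩, ?_, ?_, ?_, ?_, ?_, ?_,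
      ?_, ?_, ?_, ?_⟩ <;> grind
  obtain ⟨q1, q2, q3, q4, q5, q6, q7, q8, q9, e1, e2, e3, e4, e5, e6, e7, qs⟩ := H
  refine eight_core hG hQ hd h o q1 q2 q3 q4 q5 q6 q7 q8 q9 (by rwa [e1]) (by rwa [e2]) e3
    fun C hC u hv ha => ?_
  have z1 := ha _ (u 0 1 (by omega) (by omega) (by omega))
  rw [← mul_smul, E_rr e4 q1 e5, E_act e4 e5, e6, e7, q1, one_mul, zero_smul, sub_zero,
    sub_eq_add_neg _ (y • n), ← neg_smul] at z1
  have sp : ∀ i j, (2 ≤ i ∧ i ≤ 5 ↔ 2 ≤ j ∧ j ≤ 5) → i < 7 →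
      j < 7 → polar Q (p 2 - p 4 + (p 3 - p 5)) (p i - p j) = 0 := fun i j H hi hj => by
    interval_cases i <;> interval_cases j <;>
      first | omega | (simp (disch := omega) only [S, dl_ne, dl_eq]; grind)
  have sw : polar Q (p 2 - p 4 + (p 3 - p 5)) w = 0 := by simp (disch := omega) only [S, add_zero]
  have sv : polar Q (p 2 - p 4 + (p 3 - p 5)) v = 0 := by simp (disch := omega) only [S, add_zero]
  have H : polar Q (p 2 - p 4 + (p 3 - p 5)) (p 0 - p 1 + y • c • w + -y • n) = 0 ∧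
      polar Q (p 2 - p 4) (p 0 - p 1 + y • c • w + -y • n) = x ∧
      polar Q (p 0 - p 1 + y • c • w + -y • n) (p 0 - p 1) = x ∧
      polar Q (p 0 - p 1 + y • c • w + -y • n) (p 1 - p 6) = 1 := by
    simp (disch := omega) only [hn, S, dl_ne, dl_eq]
    refine ⟨?_, ?_, ?_, ?_⟩ <;> grind
  obtain ⟨s1, s2, s3, s4⟩ := H
  have c1 := u 2 4 (by omega) (by omega) (by omega)
  have s0 := sp 2 4 (by omega) (by omega) (by omega)
  have b0 : p 2 - p 4 ∈ core F (AS (NG Q C) qs) := hg _ (by simp) (by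
    rw [one_smul]
    refine AS_rr hC c1 ?_ s0
    convert u 3 5 (by omega) (by omega) (by omega) using 1
    linear_combination (norm := module) h2 • (p 2 - p 4)) fun k hk => by
      rw [← hx, ← mul_assoc]
      exact AS_mul hC c1 s0 (by rw [pcomm, s2]) (AS_mul hC z1 s1 s2 hk)
  have b1 := core_refl hC (u 2 3 (by omega) (by omega) (by omega))
    (sp _ _ (by omega) (by omega) (by omega)) (rt.u (by omega)).ne b0
  have b2 := core_refl hC (u 2 5 (by omega) (by omega) (by omega))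
    (sp _ _ (by omega) (by omega) (by omega)) (rt.u (by omega)).ne b0
  have b3 := core_refl hC z1 s1 (by rwa [s2]) b0
  have b4 := core_refl hC (u 0 1 (by omega) (by omega) (by omega))
    (sp _ _ (by omega) (by omega) (by omega)) (by rwa [s3]) b3
  have b5 := core_refl hC (u 1 6 (by omega) (by omega) (by omega))
    (sp _ _ (by omega) (by omega) (by omega)) (by rw [s4]; simp) b3
  have b6 : n ∈ core F (AS (NG Q C) qs) := hn ▸ Submodule.smul_mem _ _ (by
    convert sub_mem b5 b1 using 1; abel)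
  rw [Submodule.add_mem_iff_left _ (Submodule.smul_mem _ _ b6), Submodule.add_mem_iff_right _ b4]
    at b3
  replace b3 := smul_back c0 (smul_back y0 b3)
  have b7 := core_inv hv (Or.inl (r_act0 sv)) b3
  rw [r_act1 o.qv, o.wv, one_smul, Submodule.sub_mem_iff_right _ b3] at b7
  refine ⟨_, _, qs, lift_fin (o.sp _ (lift_rt (a := 2) fun i hi => ?_) ((lift0 sv).2 b7)
    ((lift0 sw).2 b3)), u 2 0 (by omega) (by omega) (by omega), by
      simp (disch := omega) only [S, dl_ne, dl_eq]; simp⟩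
  by_cases e : 2 ≤ i ∧ i ≤ 5
  · right
    obtain ⟨e, e'⟩ := e
    interval_cases i <;> refine ⟨by simp (disch := omega) only [S, dl_ne, dl_eq]; grind, ?_⟩
    exacts [by simp, by simpa using neg_mem b1, by simpa using neg_mem b0,
      by simpa using neg_mem b2]
  · refine Or.inl ⟨sp _ _ (by omega) hi (by omega), ?_⟩
    obtain rfl | rfl | rfl : i = 0 ∨ i = 1 ∨ i = 6 := by omega
    exacts [by simp, by simpa using neg_mem b4, by simpa using neg_mem (add_mem b4 b5)]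

end Pool.Agent.Lib.MP_cad414_al.Cg
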