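import Pool.Agent.Lib.MP_cad414_al.Cg.OE

/-! Orthogonal groups in characteristic two and odd dimension: tools. -/

namespace Pool.Agent.Lib.MP_cad414_al.Cg

set_option linter.unusedSimpArgs false

open QuadraticMap Module Ten
open scoped commutatorElement

variable {F V : Type} [Field F] [AddCommGroup V] [Module F V] {Q : QuadraticForm F V}

theorem gen_fix [FiniteDimensional F V] {Γ : Subgroup (V ≃ₗ[F] V)} (K : Subgroup Γ)
    (H : ∀ (g : Γ) (x : V), g • x ≠ x → ∃ h ∈ K, (∀ f : V, g • f = f → h • f = f) ∧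
      ∃ y : V, g • y ≠ y ∧ h • g • y = y) (g : Γ) : g ∈ K := by
  let P : Γ → Submodule F V := fun g => LinearMap.eqLocus (g.1 : V →ₗ[F] V) LinearMap.id
  have hP : ∀ g x, x ∈ P g ↔ g • x = x := fun _ _ => Iff.rfl
  induction hn : finrank F V - finrank F (P g) using Nat.strong_induction_on generalizing g with
  | _ n ih =>
  by_cases h1 : ∀ x : V, g • x = x
  · rw [show g = 1 from Subtype.ext (LinearEquiv.ext h1)]; exact one_mem _
  obtain ⟨x, hx⟩ := not_forall.1 h1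
  obtain ⟨h, hh, h2, y, hy, h3⟩ := H g x hx
  have hlt : P g < P (h * g) := lt_of_le_of_ne (fun f hf => (hP _ _).2 (by
    rw [mul_smul, (hP _ _).1 hf, h2 f hf])) fun e => hy ((hP _ _).1 (e ▸ (hP _ _).2 (by
      rw [mul_smul, h3])))
  have h3 := Submodule.finrank_lt_finrank_of_lt hlt
  have h4 := Submodule.finrank_le (P (h * g))
  exact (K.mul_mem_cancel_left hh).1 (ih _ (by omega) (h * g) rfl)

theorem both {φ ψ : V →ₗ[F] F} {x y : V} (hx : φ x ≠ 0) (hy : ψ y ≠ 0) :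
    ∃ z, φ z ≠ 0 ∧ ψ z ≠ 0 ∧ (z = x ∨ z = y ∨ z = x + y) := by
  by_cases e : ψ x = 0
  · by_cases e' : φ y = 0
    · exact ⟨x + y, by simpa [e'], by simpa [e], by simp⟩
    · exact ⟨y, e', hy, by simp⟩
  · exact ⟨x, hx, e, by simp⟩

/-- not in the radical -/
def NR (Q : QuadraticForm F V) (x : V) : Prop := ∃ y, polar Q x y ≠ 0

theorem NR.act {x : V} (h : NR Q x) (g : OG Q) : NR Q (g • x) :=
  let ⟨y, hy⟩ := h; ⟨g • y, by rwa [pact]⟩

/-- a radical unit vector of a nonsingular form in characteristic two -/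
structure Rd (Q : QuadraticForm F V) (ρ : V) : Prop where
  two : (2 : F) = 0
  q : Q ρ = 1
  pl0 : ∀ x, polar Q ρ x = 0
  pr : ∀ x, polar Q x ρ = 0
  ns : ∀ v, Q v = 0 → v ≠ 0 → NR Q v

variable {ρ : V}

theorem Rd.adj [Finite F] (o : Rd Q ρ) (x : V) (c : F) : ∃ a : F, Q (x + a • ρ) = c := by
  obtain ⟨a, ha⟩ := exists_sq o.two (c - Q x)
  exact ⟨a, by simp only [pl Q, o.q, o.pr, ha]; ring⟩

theorem Rd.gen [FiniteDimensional F V] (o : Rd Q ρ) (K : Subgroup (OG Q)) (hr : ∀ u, r Q u ∈ K) :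
    ∀ g, g ∈ K := by
  have orth : ∀ (g : OG Q) f y, g • f = f → polar Q f (g • y - y) = 0 := fun g f y hf => by
    rw [polar_sub_right]
    nth_rw 1 [← hf]
    rw [pact, sub_self]
  have key : ∀ (g : OG Q) y, Q (g • y - y) ≠ 0 → r Q (g • y - y) • g • y = y := fun g y hy =>
    r_sub (Qact g y) hy
  refine gen_fix K fun g x hx => ?_
  by_cases h : ∃ y, Q (g • y - y) ≠ 0
  · obtain ⟨y, hy⟩ := h
    exact ⟨_, hr _, fun f hf => r_act0 (orth g f y hf), y, fun e => hy (by simp [e]), key g y hy⟩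
  push Not at h
  obtain ⟨w, hw⟩ := o.ns _ (h x) (sub_ne_zero.2 hx)
  have q1 : Q (g • x - x + ρ) = 1 := by rw [Qadd, h, o.q, o.pr]; ring
  obtain ⟨y, y1, y2, -⟩ := both (φ := polarBilin Q (g • x - x))
    (ψ := polarBilin Q (g⁻¹ • (g • x - x))) (x := w) (y := g⁻¹ • w) hw
    (by rwa [polarBilin_apply_apply, pact])
  rw [polarBilin_apply_apply] at y1 y2
  rw [pact', inv_inv] at y2
  have fx : ∀ f, g • f = f → r Q (g • x - x + ρ) • f = f := fun f hf =>
    r_act0 (by rw [polar_add_right, orth g f x hf, o.pr, add_zero])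
  refine ⟨r Q ((r Q (g • x - x + ρ) * g) • y - y) * r Q (g • x - x + ρ), mul_mem (hr _) (hr _),
    fun f hf => ?_, y, fun e => y1 (pcomm0 (orth g y x e)), ?_⟩
  · rw [mul_smul, fx f hf, r_act0 (orth _ f y (by rw [mul_smul, hf, fx f hf]))]
  · rw [mul_smul, ← mul_smul _ g]
    refine key _ _ fun e => mul_ne_zero y1 y2 ?_
    have e' := h y
    rw [Qsub, Qact, mul_smul, r_act1 q1] at e
    rw [Qsub, Qact] at e'
    generalize g • x - x = a at *
    simp only [pl Q, o.pl0, o.pr, pcomm (g • y) a] at e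
    linear_combination e - e'

/-- products of two nontrivial reflections -/
def N0 (Q : QuadraticForm F V) : Subgroup (OG Q) := NG Q {u | Q u = 1 ∧ NR Q u}

instance N0_normal : (N0 Q).Normal :=
  ⟨fun _ hn g => NG_conj (fun c (hc : Q c = 1 ∧ NR Q c) =>
    show _ ∧ _ from ⟨by rw [Qact, hc.1], hc.2.act g⟩) hn⟩

theorem Rd.par [Finite F] [FiniteDimensional F V] (o : Rd Q ρ) {e : V} (he : Q e = 1)
    (he' : NR Q e) (g : OG Q) : g ∈ N0 Q ∨ g * r Q e ∈ N0 Q := by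
  have h1 : ∀ g : OG Q, g * r Q e ∈ N0 Q ↔ QuotientGroup.mk' (N0 Q) g =
      QuotientGroup.mk' (N0 Q) (r Q e) := fun g => by
    rw [← QuotientGroup.eq_one_iff, ← QuotientGroup.mk'_apply, map_mul, mul_eq_one_iff_eq_inv,
      ← map_inv, r_inv]
  have h2 : QuotientGroup.mk' (N0 Q) (r Q e) * QuotientGroup.mk' (N0 Q) (r Q e) = 1 := by
    rw [← map_mul, r_mul_self, map_one]
  let L : Subgroup (OG Q ⧸ N0 Q) :=
    { carrier := {x | x = 1 ∨ x = QuotientGroup.mk' (N0 Q) (r Q e)}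
      one_mem' := Or.inl rfl
      mul_mem' := by rintro _ _ (rfl | rfl) (rfl | rfl) <;> simp only [Set.mem_ofPred_eq, h2,
        mul_one, one_mul, true_or, or_true]
      inv_mem' := by rintro _ (rfl | rfl) <;> simp only [Set.mem_ofPred_eq, inv_one, ← map_inv,
        r_inv, true_or, or_true] }
  have := o.gen (L.comap (QuotientGroup.mk' (N0 Q))) (fun u => ?_) g
  · exact this.imp (QuotientGroup.eq_one_iff g).1 (h1 g).2
  by_cases h : Q u ≠ 0 ∧ NR Q u
  · obtain ⟨h, y, hy⟩ := h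
    obtain ⟨c, hc⟩ := exists_sq o.two (Q u)⁻¹
    have c0 : c ≠ 0 := fun e => inv_ne_zero h (by rw [← hc, e, mul_zero])
    have q : Q (c • u) = 1 := by rw [Qsmul, hc, inv_mul_cancel₀ h]
    have : r Q u = r Q (c • u) := oext fun x => by
      rw [r_act, r_act1 q, polar_smul_right, smul_smul, div_eq_mul_inv, ← hc, smul_eq_mul]
      congr 2; ring
    exact Or.inr ((h1 _).1 (this ▸ rr_mem ⟨q, y, by simpa [c0]⟩ ⟨he, he'⟩))
  · have : r Q u = 1 := by
      by_cases h0 : Q u = 0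
      · exact r_sing h0
      · exact oext fun x => r_act0 (pcomm0 (by_contra fun e => h ⟨h0, x, e⟩))
    exact this ▸ one_mem _

theorem Rd.move [Finite F] (o : Rd Q ρ) {P : V → Prop} {u v g g' : V} (hu : Q u = 1)
    (hv : Q v = 1) (hg : polar Q u g ≠ 0) (hg' : polar Q v g' ≠ 0)
    (H : ∀ x, P x → polar Q x u = 0 ∧ polar Q x v = 0 ∧ polar Q x g = 0 ∧ polar Q x g' = 0) :
    ∃ n : OG Q, n • u = v ∧ ∀ x, P x → n • x = x := by
  obtain ⟨y, y1, y2, y3⟩ := both (φ := polarBilin Q u) (ψ := polarBilin Q v) hg hg'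
  rw [polarBilin_apply_apply] at y1 y2
  obtain ⟨c, hc⟩ := o.adj y 1
  have h2 := o.two
  refine ⟨r Q (y + c • ρ - v) * r Q (u - (y + c • ρ)), ?_, fun x hx => ?_⟩
  · rw [mul_smul, r_sub (hu.trans hc.symm), r_sub (hc.trans hv.symm)] <;>
      simp only [Qsub, hu, hv, hc, polar_add_left, polar_add_right, polar_smul_left,
        polar_smul_right, o.pl0, o.pr, pcomm y v, smul_zero] <;> grind
  · obtain ⟨a, b, d, e⟩ := H x hx
    have : polar Q x y = 0 := by rcases y3 with e | e | e <;> simp [*]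
    rw [mul_smul, r_act0 (u := u - _), r_act0] <;> simp [*, o.pr]

theorem Rd.omega [Finite F] [FiniteDimensional F V] (o : Rd Q ρ) {e : V} (he : Q e = 1)
    (he' : NR Q e) : Omega Q = N0 Q := by
  apply le_antisymm
  · rw [Omega, commutator_def, Subgroup.commutator_le]
    intro a _ b _
    have h1 : ∀ g, QuotientGroup.mk' (N0 Q) g = 1 ∨
        QuotientGroup.mk' (N0 Q) g = QuotientGroup.mk' (N0 Q) (r Q e)⁻¹ := fun g =>
      (o.par he he' g).imp (QuotientGroup.eq_one_iff g).2 fun h => by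
        rw [map_inv, ← mul_eq_one_iff_eq_inv, ← map_mul]; exact (QuotientGroup.eq_one_iff _).2 h
    rw [← QuotientGroup.eq_one_iff, ← QuotientGroup.mk'_apply, map_commutatorElement]
    rcases h1 a with e | e <;> rcases h1 b with e' | e' <;> rw [e, e'] <;> simp
  · rw [N0, NG, Subgroup.closure_le]
    rintro _ ⟨a, ⟨ha, x, hx⟩, b, ⟨hb, y, hy⟩, rfl⟩
    obtain ⟨n, e, -⟩ := o.move (P := fun _ => False) ha hb hx hy (by simp)
    have : r Q a * r Q b = ⁅r Q a, n⁆ := by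
      rw [commutatorElement_def, r_inv, ← e, ← r_conj]; group
    rw [this]
    exact Subgroup.commutator_mem_commutator (Subgroup.mem_top _) (Subgroup.mem_top _)

/-- triangular duals, including the first vector -/
def TD0 (Q : QuadraticForm F V) (f : ℕ → V) (k : ℕ) : Prop :=
  ∀ j < k, ∃ g, polar Q (f j) g ≠ 0 ∧ ∀ i < j, polar Q (f i) g = 0

theorem TD0.nr {f : ℕ → V} {k j : ℕ} (h : TD0 Q f k) (hj : j < k) : NR Q (f j) :=
  (h j hj).imp fun _ h => h.1

theorem Rd.conj [Finite F] [FiniteDimensional F V] (o : Rd Q ρ) {f f' : ℕ → V} {k : ℕ}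
    (hk : 0 < k) (hf : PO Q f k) (hf' : PO Q f' k) (ht : TD0 Q f k) (ht' : TD0 Q f' k) :
    ∃ n ∈ N0 Q, n * TT Q f k * n⁻¹ = TT Q f' k := by
  have key : ∀ j ≤ k, ∃ n : OG Q, ∀ i < j, n • f i = f' i := by
    intro j
    induction j with
    | zero => exact fun _ => ⟨1, by simp⟩
    | succ j ih =>
      intro hj
      obtain ⟨n, H⟩ := ih (by omega)
      obtain ⟨g, g1, g2⟩ := ht j hj
      obtain ⟨g', g3, g4⟩ := ht' j hj
      obtain ⟨m, e1, e2⟩ := o.move (P := fun x => ∃ i < j, x = f' i) (u := n • f j) (g := n • g)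
        (by rw [Qact, hf.1 j hj]) (hf'.1 j hj) (by rwa [pact]) g3 (by
          rintro _ ⟨i, hi, rfl⟩
          exact ⟨by rw [← H i hi, pact, hf.2 i (by omega) j hj (by omega)],
            hf'.2 i (by omega) j hj (by omega), by rw [← H i hi, pact, g2 i hi], g4 i hi⟩)
      refine ⟨m * n, fun i hi => ?_⟩
      by_cases e : i = j
      · rw [mul_smul, e, e1]
      · rw [mul_smul, H i (by omega), e2 _ ⟨i, by omega, rfl⟩]
  obtain ⟨n, H⟩ := key k le_rfl
  have e : n * TT Q f k * n⁻¹ = TT Q f' k := TT_conj fun i hi => by rw [H i hi]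
  rcases o.par (hf.1 0 hk) (ht.nr hk) n with h | h
  · exact ⟨n, h, e⟩
  · refine ⟨_, h, ?_⟩
    rw [← e, mul_assoc n, ← (comm_of_fix (Or.inr (TT_neg hf hk))).eq]
    group

theorem Rd.mem [Finite F] (o : Rd Q ρ) {f : ℕ → V} {k : ℕ} (hk : 2 ≤ k) (hf : PO Q f k)
    (ht : TD0 Q f k) : TT Q f k ∈ N0 Q := by
  have ev : ∀ n, 2 * n ≤ k → TT Q f (2 * n) ∈ N0 Q := fun n => by
    induction n with
    | zero => exact fun _ => one_mem _
    | succ n ih =>
      intro hn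
      rw [show 2 * (n + 1) = 2 * n + 1 + 1 by ring, TT, TT, mul_assoc]
      exact mul_mem (ih (by omega)) (rr_mem ⟨hf.1 _ (by omega), ht.nr (by omega)⟩
        ⟨hf.1 _ (by omega), ht.nr (by omega)⟩)
  rcases Nat.even_or_odd' k with ⟨n, rfl | rfl⟩
  · exact ev n le_rfl
  refine mul_mem (ev n (by omega)) ?_
  obtain ⟨x, x1, x2⟩ := ht 1 (by omega)
  obtain ⟨y, y1, y2⟩ := ht 2 (by omega)
  have S : Q (f 0) = 1 ∧ Q (f 1) = 1 ∧ Q (f 2) = 1 ∧ Q ρ = 1 ∧ polar Q (f 0) x = 0 ∧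
      polar Q (f 0) y = 0 ∧ polar Q (f 1) y = 0 ∧ (∀ x, polar Q x ρ = 0) ∧
      (∀ x, polar Q ρ x = 0) ∧ ∀ i j, i < 3 → j < 3 → i ≠ j → polar Q (f i) (f j) = 0 :=
    ⟨hf.1 _ (by omega), hf.1 _ (by omega), hf.1 _ (by omega), o.q, x2 _ (by omega),
      y2 _ (by omega), y2 _ (by omega), o.pr, o.pl0,
      fun i j hi hj => hf.2 i (by omega) j (by omega)⟩
  have h2 := o.two
  have H : Q (f 0 + f 1 + ρ) = 1 ∧ Q (f 0 + f 2 + ρ) = 1 ∧ Q (f 1 + f 2 + ρ) = 1 ∧
      Q (f 0 + f 1 + f 2) = 1 := by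
    simp (disch := omega) only [pl Q, S]; grind
  obtain ⟨q1, q2, q3, q4⟩ := H
  have e : r Q (f 0) = r Q (f 1) * r Q (f 2) * (r Q (f 0 + f 1 + ρ) * r Q (f 0 + f 2 + ρ)) *
      (r Q (f 1 + f 2 + ρ) * r Q (f 0 + f 1 + f 2)) := oext fun z => by
    simp only [mul_smul, r_act1 q1, r_act1 q2, r_act1 q3, r_act1 q4, r_act1 S.1, r_act1 S.2.1,
      r_act1 S.2.2.1]
    simp (disch := omega) only [pl Q, S, h2, zero_mul, mul_zero, add_zero, sub_zero]
    match_scalars <;> grind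
  have := mul_mem (mul_mem (mul_mem
    (rr_mem (Q := Q) (C := {u | Q u = 1 ∧ NR Q u}) ⟨S.2.1, x, x1⟩ ⟨S.2.2.1, y, y1⟩)
    (rr_mem ⟨q1, x, by simpa [S]⟩ ⟨q2, y, by simpa [S]⟩))
    (rr_mem ⟨q3, y, by simpa [S]⟩ ⟨q4, y, by simpa [S]⟩))
    (rr_mem ⟨S.1, ht.nr (j := 0) (by omega)⟩ ⟨hf.1 (2 * n) (by omega), ht.nr (by omega)⟩)
  rwa [← e, r_cancel] at this

theorem Rd.step [Finite F] (o : Rd Q ρ) {s t v : V} (hs : Q s = 0) (h1 : polar Q s t = 1)
    (h : polar Q v s ≠ 0 ∨ ∃ x, polar Q s x = 0 ∧ polar Q t x = 0 ∧ polar Q v x ≠ 0) :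
    ∃ w, polar Q s w = 0 ∧ polar Q (E Q s w • v) t = 1 := by
  by_cases e : polar Q v s = 0
  · obtain ⟨x, x1, x2, x3⟩ := h.resolve_left (not_not.2 e)
    have hw : polar Q s (((polar Q v t - 1) / polar Q v x) • x) = 0 := by simp [x1]
    refine ⟨_, hw, ?_⟩
    simp only [E_act hs hw, pl Q, e, h1, pcomm0 x2]
    field_simp; ring
  · obtain ⟨c, hc⟩ := exists_sq o.two ((polar Q v t - 1) / polar Q v s)
    have hw : polar Q s (c • ρ) = 0 := by simp [o.pr]
    refine ⟨_, hw, ?_⟩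
    simp only [E_act hs hw, pl Q, h1, o.pl0, o.pr, o.q, hc]
    field_simp; ring

theorem Rd.all [Finite F] (o : Rd Q ρ) {C : Set V} (hC : Cl Q C) {s y : V} (hs : Q s = 0)
    (hE : ∀ w, polar Q s w = 0 → E Q s w ∈ NG Q C) (hy : y ∈ C) (hsy : polar Q s y = 1) {u : V}
    (hu : Q u = 1) (hu' : NR Q u) : u ∈ C := by
  have hy1 := hC.norm y hy
  have e : r Q y • s = (-1 : F) • (y - s) := by rw [r_act1 hy1, hsy]; module
  have ht : Q (y - s) = 0 := by rw [Qsub, hy1, hs, pcomm, hsy]; ring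
  have h1 : polar Q s (y - s) = 1 := by simp only [pl Q, hs, hsy]; ring
  have h2 : polar Q (y - s) s = 1 := by rw [pcomm, h1]
  have hE' : ∀ w, polar Q (y - s) w = 0 → E Q (y - s) w ∈ NG Q C := fun w hw => by
    have hw2 : polar Q s (r Q y • (-w)) = 0 := by
      rw [← pact (r Q y), r_rr, e]; simp only [pl Q] at hw ⊢; linear_combination hw
    have := NG_conj (g := r Q y) (fun c hc => hC.refl y hy c hc) (hE _ hw2)
    rwa [E_conj hs hw2, r_rr, e, E_smul ht (by rw [polar_neg_right, hw, neg_zero]), neg_one_smul,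
      neg_neg] at this
  generalize y - s = t at *
  have A : ∀ v, (polar Q v t ≠ 0 ∨ ∃ x, polar Q t x = 0 ∧ polar Q s x = 0 ∧ polar Q v x ≠ 0) →
      (v ∈ C ↔ t + Q v • s ∈ C) := fun v hv => by
    obtain ⟨w, hw, h3⟩ := o.step ht h2 hv
    obtain ⟨w', hw', h4⟩ := fin_step hs ht h1 h3
    rw [NG_act hC (hE' w hw), NG_act hC (hE w' hw'), h4, Qact]
  have B : ∀ v, NR Q v → (v ∈ C ↔ t + Q v • s ∈ C) := fun v ⟨x, hx⟩ => by
    by_cases h : polar Q v s = 0
    · obtain ⟨a, b, z, z1, z2, rfl⟩ := dec hs ht h1 x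
      refine A v (or_iff_not_imp_left.2 fun h' => ⟨z, z2, z1, ?_⟩)
      simpa [h, not_not.1 h'] using hx
    · obtain ⟨w, hw, h3⟩ := o.step hs h1 (Or.inl h)
      rw [NG_act hC (hE w hw), A _ (Or.inl (by rw [h3]; simp)), Qact]
  rw [B u hu', hu, ← hy1, ← B y ⟨s, by rw [pcomm, hsy]; simp⟩]
  exact hy

end Pool.Agent.Lib.MP_cad414_al.Cg
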