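import Pool.Agent.Lib.MP_cad414_al.Cg.Sz

/-! Matrix identities for the small Ree groups. -/

set_option autoImplicit false

namespace Pool.Agent.Lib.MP_cad414_al.Cg

open Matrix

variable {F : Type} [Field F]

/-- The general unipotent element, in independent coordinates. -/
def reV (a s b r c w : F) : Matrix (Fin 7) (Fin 7) F :=
  !![1, s, -r, r * s - w, -s ^ 3 * a - b - s * w, -s ^ 3 * a ^ 2 - c - r * w - r ^ 2 * s,
      s ^ 4 * a ^ 2 - a * r * s ^ 3 - b * r + c * s - r * s * w - w ^ 2;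
    0, 1, a, s * a + r, -s ^ 2 * a - w, a * r * s + a * w - r ^ 2,
      -s ^ 3 * a ^ 2 + a * b - a * r * s ^ 2 - a * s * w + c - r * w;
    0, 0, 1, s, -s ^ 2, r * s + w, s ^ 3 * a + b - r * s ^ 2 - s * w;
    0, 0, 0, 1, s, r, r * s - w;
    0, 0, 0, 0, 1, -a, s * a + r;
    0, 0, 0, 0, 0, 1, -s;
    0, 0, 0, 0, 0, 0, 1]

/-- The diagonal elements. -/
def reD (a s : F) : Matrix (Fin 7) (Fin 7) F :=
  diagonal ![s, a / s, s ^ 2 / a, 1, a / s ^ 2, s / a, 1 / s]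

/-- The antidiagonal element. -/
def reW : Matrix (Fin 7) (Fin 7) F := of fun i j => if i = j.rev then -1 else 0

lemma ree_fin {p : Fin 7 → Prop} : (∀ i, p i) ↔ p 0 ∧ p 1 ∧ p 2 ∧ p 3 ∧ p 4 ∧ p 5 ∧ p 6 :=
  ⟨fun h => ⟨h _, h _, h _, h _, h _, h _, h _⟩, fun ⟨_, _, _, _, _, _, _⟩ i => by
    fin_cases i <;> assumption⟩

lemma reV_mul (h3 : (3 : F) = 0) (a s b r c w A S B R C W : F) :
    reV a s b r c w * reV A S B R C W = reV (a + A) (s + S) (b + B - a * S ^ 3) (r + R - s * A)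
      (c + C - A * b + A * S ^ 3 * a - S ^ 3 * a ^ 2) (w + W - S * r + S * A * s - A * s ^ 2) := by
  simp only [← Matrix.ext_iff, ree_fin, Matrix.mul_apply, Fin.sum_univ_seven, reV, of_apply,
    cons_val]
  repeat' constructor
  all_goals first | ring1 | grind

lemma reV_D (a s b r c w : F) {k t : F} (hk : k ≠ 0) (ht : t ≠ 0) :
    reV a s b r c w * reD k t = reD k t * reV (a * (t ^ 3 / k ^ 2)) (s * (k / t ^ 2))
      (b * (k / t ^ 3)) (r * (t / k)) (c / k) (w / t) := by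
  simp only [← Matrix.ext_iff, reD, mul_diagonal, diagonal_mul]
  simp only [ree_fin, reV, of_apply, cons_val, zero_mul, mul_zero, one_mul, mul_one, true_and,
    and_true]
  repeat' constructor
  all_goals field_simp

lemma reV_zero : reV (0 : F) 0 0 0 0 0 = 1 := by
  simp only [← Matrix.ext_iff, ree_fin, reV, of_apply, cons_val, one_apply]
  simp

lemma reD_mul (a s b r : F) : reD a s * reD b r = reD (a * b) (s * r) := by
  rw [reD, reD, reD, diagonal_mul_diagonal]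
  congr 1
  ext i
  fin_cases i <;> simp <;> ring

lemma reD_one : reD (1 : F) 1 = 1 := by
  rw [reD, ← diagonal_one]
  congr 1
  ext i
  fin_cases i <;> simp

lemma reW_mul (m : Matrix (Fin 7) (Fin 7) F) (i j : Fin 7) :
    (reW * m : Matrix (Fin 7) (Fin 7) F) i j = -m i.rev j := by
  rw [mul_apply, Finset.sum_eq_single i.rev] <;>
    simp +contextual [reW, eq_comm (a := i), Fin.rev_eq_iff]

lemma reW_W : (reW : Matrix (Fin 7) (Fin 7) F) * reW = 1 := by
  ext i j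
  rw [reW_mul, one_apply]
  simp only [reW, of_apply, Fin.rev_inj]
  split_ifs <;> simp

lemma reD_W (a s : F) : reD a⁻¹ s⁻¹ * reW = reW * reD a s := by
  ext i j
  rw [reD, reD, diagonal_mul, mul_diagonal, reW, of_apply]
  split_ifs with e
  · subst e
    fin_cases j <;> simp [Fin.rev, div_eq_mul_inv, mul_comm]
  · rw [mul_zero, zero_mul]

lemma ree_seven (h3 : (3 : F) = 0) (t x : Matrix (Fin 7) (Fin 7) F)
    (ht : t = reV 1 1 1 1 0 0 * reD (-1) (-1)) (hx : x = reW * t) :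
    x * x * x * reW = t * (x * x * x) := by
  have : CharP F 3 := (CharP.charP_iff_prime_eq_zero Nat.prime_three).2 h3
  let φ : Matrix (Fin 7) (Fin 7) (ZMod 3) →+* Matrix (Fin 7) (Fin 7) F :=
    (ZMod.castHom (dvd_refl 3) F).mapMatrix
  let t0 : Matrix (Fin 7) (Fin 7) (ZMod 3) :=
    !![-1, 1, 1, 1, -1, 1, 1; 0, 1, -1, -1, 1, 0, 1; 0, 0, -1, 1, 1, 1, -1; 0, 0, 0, 1, -1, 1, -1;
      0, 0, 0, 0, -1, -1, 1; 0, 0, 0, 0, 0, 1, 1; 0, 0, 0, 0, 0, 0, -1]
  let w0 : Matrix (Fin 7) (Fin 7) (ZMod 3) := of fun i j => if i = j.rev then -1 else 0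
  let x3 : Matrix (Fin 7) (Fin 7) (ZMod 3) :=
    !![-1, -1, 1, 0, 0, 1, -1; -1, 0, -1, -1, 1, -1, 0; 1, -1, -1, 1, -1, 1, -1; 0, 1, -1, 1, 1, 1, 1;
      0, 1, -1, -1, 1, 0, -1; 1, -1, 1, -1, 0, 1, 0; -1, 0, -1, -1, -1, 0, -1]
  let x1 : Matrix (Fin 7) (Fin 7) (ZMod 3) :=
    !![0, 0, 0, 0, 0, 0, 1; 0, 0, 0, 0, 0, -1, -1; 0, 0, 0, 0, 1, 1, -1; 0, 0, 0, -1, 1, -1, 1;
      0, 0, 1, -1, -1, -1, 1; 0, -1, 1, 1, -1, 0, -1; 1, -1, -1, -1, 1, -1, -1]
  have e1 : t = φ t0 := by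
    rw [ht]
    simp only [← Matrix.ext_iff, reD, mul_diagonal, φ, RingHom.mapMatrix_apply, map_apply]
    simp only [ree_fin, reV, t0, of_apply, cons_val, map_neg, map_one, map_zero]
    repeat' constructor
    all_goals first | ring1 | grind
  have e2 : reW = φ w0 := by
    ext i j
    simp only [reW, φ, w0, RingHom.mapMatrix_apply, map_apply, of_apply]
    split_ifs <;> simp
  have e3 : w0 * t0 = x1 := by decide +kernel
  have e4 : x1 * x1 * x1 = x3 := by decide +kernel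
  have e5 : x3 * w0 = t0 * x3 := by decide +kernel
  rw [hx, e1, e2]
  simp only [← map_mul]
  rw [e3, e4, e5]

end Pool.Agent.Lib.MP_cad414_al.Cg
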