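import Pool.Agent.Lib.MP_cad414_al.Cg.Base

/-! Matrix calculus for the even-dimensional special linear groups. -/

namespace Pool.Agent.Lib.MP_cad414_al.Cg.SlEven

open Matrix Equiv

variable {ι κ F : Type} [Fintype ι] [DecidableEq ι] [Fintype κ] [DecidableEq κ] [Field F]

variable (F) in
/-- Basis vector. -/
def e (i : ι) : ι → F := Pi.single i 1

lemma e_dot (i : ι) (v : ι → F) : e F i ⬝ᵥ v = v i := by simp [e]

omit [Fintype ι] in
lemma e_self (i : ι) : e F i i = 1 := by simp [e]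

omit [Fintype ι] in
lemma e_ne {i j : ι} (h : j ≠ i) : e F i j = 0 := by simp [e, h]

lemma mat_ext {μ : Type} {A B : Matrix μ ι F} (h : ∀ k, A *ᵥ e F k = B *ᵥ e F k) : A = B :=
  ext_of_mulVec_single h

variable (F) in
/-- The matrix with columns `e (f j)`. -/
def U (f : κ → ι) : Matrix ι κ F := (1 : Matrix ι ι F).submatrix id f

omit [Fintype ι] in
lemma U_e (f : κ → ι) (j : κ) : U F f *ᵥ e F j = e F (f j) := by
  ext x
  simp [U, e, one_apply, Pi.single_apply]

omit [Fintype ι] in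
lemma e_Ut (f : κ → ι) (j : κ) : e F j ᵥ* (U F f)ᵀ = e F (f j) := by
  rw [vecMul_transpose, U_e]

lemma U_mul (f : ι → ι) (g : κ → ι) : U F f * U F g = U F (f ∘ g) :=
  mat_ext fun k => by rw [← mulVec_mulVec, U_e, U_e, U_e, Function.comp_apply]

lemma Ut_U {f : κ → ι} (hf : Function.Injective f) : (U F f)ᵀ * U F f = 1 :=
  mat_ext fun k => by
    rw [← mulVec_mulVec, U_e, one_mulVec]
    ext j
    simp [U, e, one_apply, Pi.single_apply, hf.eq_iff, eq_comm]

omit [Fintype κ] [DecidableEq κ] in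
lemma Ut_e {f : κ → ι} {k : ι} (h : ∀ j, k ≠ f j) : (U F f)ᵀ *ᵥ e F k = 0 := by
  ext j
  simp [U, e, one_apply, (h j).symm]

omit [Fintype κ] [DecidableEq κ] in
lemma e_U {f : κ → ι} {k : ι} (h : ∀ j, k ≠ f j) : e F k ᵥ* U F f = 0 := by
  rw [← mulVec_transpose, Ut_e h]

omit [Fintype ι] [DecidableEq κ] in
lemma U_mulVec (f : κ → ι) (v : κ → F) : U F f *ᵥ v = ∑ i, v i • e F (f i) := by
  ext x
  simp [U, e, mulVec, dotProduct, one_apply, Pi.single_apply, Finset.sum_apply]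

variable (F) in
/-- Permutation matrix. -/
def P (σ : Perm ι) : Matrix ι ι F := U F σ

lemma P_e (σ : Perm ι) (j : ι) : P F σ *ᵥ e F j = e F (σ j) := U_e _ _

lemma P_mul (σ τ : Perm ι) : P F σ * P F τ = P F (σ * τ) := U_mul _ _

omit [Fintype ι] in
lemma P_one : P F (1 : Perm ι) = 1 := rfl

lemma P_inv (σ : Perm ι) : P F σ * P F σ⁻¹ = 1 := by rw [P_mul, mul_inv_cancel, P_one]

lemma P_tr (σ : Perm ι) : (P F σ)ᵀ = P F σ⁻¹ := by
  rw [← mul_one (P F σ)ᵀ, ← P_inv σ, ← mul_assoc, show (P F σ)ᵀ * P F σ = 1 from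
    Ut_U σ.injective, one_mul]

lemma e_P (σ : Perm ι) (j : ι) : e F j ᵥ* P F σ⁻¹ = e F (σ j) := by
  rw [← P_tr]
  exact e_Ut _ _

lemma P_pow (σ : Perm ι) (k : ℕ) : P F σ ^ k = P F (σ ^ k) := by
  induction k with
  | zero => rfl
  | succ k ih => rw [pow_succ, pow_succ, ih, P_mul]

lemma det_P (σ : Perm ι) : (P F σ).det * (P F σ).det = 1 := by
  nth_rewrite 1 [← det_transpose]
  rw [P_tr, ← det_mul, P_mul, inv_mul_cancel, P_one, det_one]

/-- The identity plus a matrix of rank one. -/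
def T (v f : ι → F) : Matrix ι ι F := 1 + vecMulVec v f

lemma T_conj {g g' : Matrix ι ι F} (h : g * g' = 1) (v f : ι → F) :
    g * T v f * g' = T (g *ᵥ v) (f ᵥ* g') := by
  rw [T, T, mul_add, add_mul, mul_one, h, mul_vecMulVec, vecMulVec_mul]

lemma T_mul_left {v w f : ι → F} (h : f ⬝ᵥ w = 0) : T v f * T w f = T (v + w) f := by
  simp only [T, mul_add, add_mul, mul_one, one_mul, vecMulVec_mul_vecMulVec, h, zero_smul,
    vecMulVec_zero, add_vecMulVec]
  abel

lemma T_mul_right {v f g : ι → F} (h : f ⬝ᵥ v = 0) : T v f * T v g = T v (f + g) := by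
  simp only [T, mul_add, add_mul, mul_one, one_mul, vecMulVec_mul_vecMulVec, h, zero_smul,
    vecMulVec_zero, vecMulVec_add]
  abel

lemma T_mulVec (v f x : ι → F) : T v f *ᵥ x = x + (f ⬝ᵥ x) • v := by
  rw [T, add_mulVec, one_mulVec, vecMulVec_mulVec, op_smul_eq_smul]

lemma vecMul_T (v f x : ι → F) : x ᵥ* T v f = x + (x ⬝ᵥ v) • f := by
  rw [T, vecMul_add, vecMul_one, vecMul_vecMulVec]

omit [Fintype ι] in
lemma T_smul (c : F) (v f : ι → F) : T (c • v) f = T v (c • f) := by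
  rw [T, T, smul_vecMulVec, vecMulVec_smul]

omit [Fintype ι] in
lemma T_zero (f : ι → F) : T 0 f = 1 := by simp [T]

lemma det_T (v f : ι → F) : (T v f).det = 1 + f ⬝ᵥ v := by
  rw [T, vecMulVec_eq Unit, det_one_add_replicateCol_mul_replicateRow]

/-- Elementary transvection. -/
def X (i j : ι) (u : F) : Matrix ι ι F := T (u • e F i) (e F j)

lemma X_mulVec (i j : ι) (u : F) (x : ι → F) : X i j u *ᵥ x = x + (u * x j) • e F i := by
  rw [X, T_mulVec, e_dot, smul_smul, mul_comm]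

lemma X_add {i j : ι} (h : i ≠ j) (u v : F) : X i j u * X i j v = X i j (u + v) := by
  rw [X, X, X, T_mul_left (by simp [e_dot, e_ne h.symm]), add_smul]

lemma X_neg {i j : ι} (h : i ≠ j) (u : F) : X i j u * X i j (-u) = 1 := by
  rw [X_add h, add_neg_cancel, X, zero_smul, T_zero]

lemma X_comm {i j k : ι} (hij : i ≠ j) (hik : i ≠ k) (hjk : j ≠ k) (s t : F) :
    X i j s * X j k t * X i j (-s) * X j k (-t) = X i k (s * t) := by
  rw [ext_iff_mulVec]
  intro x
  simp only [← mulVec_mulVec, X_mulVec, Pi.add_apply, Pi.smul_apply, smul_eq_mul, e_self,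
    e_ne hij.symm, e_ne hik.symm, e_ne hjk.symm]
  module

/-- The diagonal matrix with one entry `x`. -/
def D (p : ι) (x : F) : Matrix ι ι F := X p p (x - 1)

lemma det_D (p : ι) (x : F) : (D p x).det = x := by
  simp [D, X, det_T, e_dot, e_self]

lemma P_X (σ : Perm ι) (i j : ι) (u : F) : P F σ * X i j u * P F σ⁻¹ = X (σ i) (σ j) u := by
  rw [X, T_conj (P_inv σ), mulVec_smul, P_e, e_P, X]

lemma comm_of_conj {σ : Perm ι} {A : Matrix ι ι F} (h : P F σ * A * P F σ⁻¹ = A) :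
    Commute (P F σ) A := by
  have h1 := congrArg (· * P F σ) h
  simp only [mul_assoc, P_mul, inv_mul_cancel, P_one, mul_one] at h1
  exact h1

lemma P_D {σ : Perm ι} {p : ι} (h : σ p = p) (x : F) : Commute (P F σ) (D p x) :=
  comm_of_conj (by rw [D, P_X, h])

lemma D_D (p q : ι) (x y : F) : Commute (D p x) (D q y) := by
  rcases eq_or_ne p q with rfl | h
  · change _ * _ = _ * _
    rw [ext_iff_mulVec]
    intro v
    simp only [D, ← mulVec_mulVec, X_mulVec, Pi.add_apply, Pi.smul_apply, smul_eq_mul, e_self]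
    module
  · change _ * _ = _ * _
    rw [ext_iff_mulVec]
    intro v
    simp only [D, ← mulVec_mulVec, X_mulVec, Pi.add_apply, Pi.smul_apply, smul_eq_mul, e_ne h,
      e_ne h.symm]
    module

lemma D_sq (p : ι) {x : F} (h : x * x = 1) : D p x * D p x = 1 := by
  rw [ext_iff_mulVec]
  intro v
  simp only [D, ← mulVec_mulVec, X_mulVec, Pi.add_apply, Pi.smul_apply, smul_eq_mul, e_self,
    one_mulVec, add_assoc, ← add_smul]
  rw [show (x - 1) * v p + (x - 1) * (v p + (x - 1) * v p * 1) = 0 by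
    linear_combination v p * h, zero_smul, add_zero]

/-- A small matrix placed on the coordinates `f i`. -/
def emb (f : κ → ι) (A : Matrix κ κ F) : Matrix ι ι F := 1 + U F f * (A - 1) * (U F f)ᵀ

lemma emb_mul {f : κ → ι} (hf : Function.Injective f) (A B : Matrix κ κ F) :
    emb f A * emb f B = emb f (A * B) := by
  have h : U F f * (A - 1) * (U F f)ᵀ * (U F f * (B - 1) * (U F f)ᵀ) =
      U F f * ((A - 1) * (B - 1)) * (U F f)ᵀ := by
    simp only [Matrix.mul_assoc]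
    rw [← Matrix.mul_assoc (U F f)ᵀ, Ut_U hf, Matrix.one_mul]
  have h2 : A * B - 1 = (A - 1) + (B - 1) + (A - 1) * (B - 1) := by noncomm_ring
  rw [emb, emb, emb, mul_add, add_mul, add_mul, mul_one, mul_one, one_mul, h, h2, Matrix.mul_add,
    Matrix.mul_add, Matrix.add_mul, Matrix.add_mul]
  abel

omit [Fintype ι] in
lemma emb_one (f : κ → ι) : emb f (1 : Matrix κ κ F) = 1 := by simp [emb]

lemma det_emb {f : κ → ι} (hf : Function.Injective f) (A : Matrix κ κ F) :
    (emb f A).det = A.det := by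
  rw [emb, det_one_add_mul_comm, ← Matrix.mul_assoc, Ut_U hf, Matrix.one_mul, add_sub_cancel]

lemma emb_e {f : κ → ι} (hf : Function.Injective f) (A : Matrix κ κ F) (j : κ) :
    emb f A *ᵥ e F (f j) = ∑ i, A i j • e F (f i) := by
  rw [← U_e f j, mulVec_mulVec, emb, Matrix.add_mul, Matrix.one_mul, Matrix.mul_assoc, Ut_U hf,
    Matrix.mul_one, Matrix.mul_sub, Matrix.mul_one, add_sub_cancel, ← mulVec_mulVec, U_mulVec]
  simp [e]

lemma emb_e' {f : κ → ι} (A : Matrix κ κ F) {k : ι} (h : ∀ j, k ≠ f j) :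
    emb f A *ᵥ e F k = e F k := by
  rw [emb, add_mulVec, one_mulVec, ← mulVec_mulVec, Ut_e h, mulVec_zero, add_zero]

omit [Fintype ι] in
lemma emb_tr (f : κ → ι) (A : Matrix κ κ F) : (emb f A)ᵀ = emb f Aᵀ := by
  simp [emb, Matrix.mul_assoc]

lemma e_emb {f : κ → ι} (hf : Function.Injective f) (A : Matrix κ κ F) (i : κ) :
    e F (f i) ᵥ* emb f A = ∑ j, A i j • e F (f j) := by
  rw [← mulVec_transpose, emb_tr, emb_e hf]
  rfl

lemma e_emb' {f : κ → ι} (A : Matrix κ κ F) {k : ι} (h : ∀ j, k ≠ f j) :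
    e F k ᵥ* emb f A = e F k := by
  rw [← mulVec_transpose, emb_tr, emb_e' _ h]

lemma P_emb (σ : Perm ι) (f : κ → ι) (A : Matrix κ κ F) :
    P F σ * emb f A * P F σ⁻¹ = emb (σ ∘ f) A := by
  rw [emb, emb, mul_add, add_mul, mul_one, P_inv, ← U_mul, ← P_tr, transpose_mul]
  simp only [P, Matrix.mul_assoc]

lemma P_comm_emb {σ : Perm ι} {f : κ → ι} (h : ∀ i, σ (f i) = f i) (A : Matrix κ κ F) :
    Commute (P F σ) (emb f A) :=
  comm_of_conj (by rw [P_emb, show σ ∘ f = f from funext h])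

/-- The matrix belongs to the subgroup. -/
def Mm (L : Subgroup (SpecialLinearGroup ι F)) (A : Matrix ι ι F) : Prop :=
  ∃ g ∈ L, (g : Matrix ι ι F) = A

variable {L : Subgroup (SpecialLinearGroup ι F)} {A B : Matrix ι ι F}

lemma Mm.one : Mm L 1 := ⟨1, L.one_mem, rfl⟩

lemma Mm.mul (hA : Mm L A) (hB : Mm L B) : Mm L (A * B) := by
  obtain ⟨g, hg, rfl⟩ := hA
  obtain ⟨h, hh, rfl⟩ := hB
  exact ⟨g * h, L.mul_mem hg hh, rfl⟩

lemma Mm.inv (hA : Mm L A) (h : A * B = 1) : Mm L B := by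
  obtain ⟨g, hg, rfl⟩ := hA
  refine ⟨g⁻¹, L.inv_mem hg, ?_⟩
  have h1 : ((g⁻¹ : SpecialLinearGroup ι F) : Matrix ι ι F) * (g : Matrix ι ι F) = 1 :=
    congrArg Subtype.val (inv_mul_cancel g)
  exact left_inv_eq_right_inv h1 h

lemma Mm.conj {g g' : Matrix ι ι F} (hg : Mm L g) (h : g * g' = 1) {v f : ι → F}
    (hT : Mm L (T v f)) : Mm L (T (g *ᵥ v) (f ᵥ* g')) :=
  T_conj h v f ▸ (hg.mul hT).mul (hg.inv h)

lemma Mm.add_left {v w f : ι → F} (h1 : Mm L (T v f)) (h2 : Mm L (T w f)) (h : f ⬝ᵥ w = 0) :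
    Mm L (T (v + w) f) := T_mul_left h ▸ h1.mul h2

lemma Mm.add_right {v f g : ι → F} (h1 : Mm L (T v f)) (h2 : Mm L (T v g)) (h : f ⬝ᵥ v = 0) :
    Mm L (T v (f + g)) := T_mul_right h ▸ h1.mul h2

lemma Mm.X_neg {i j : ι} (h : i ≠ j) {u : F} (h1 : Mm L (X i j u)) : Mm L (X i j (-u)) :=
  h1.inv (SlEven.X_neg h u)

lemma Mm.X_comm {i j k : ι} (hij : i ≠ j) (hik : i ≠ k) (hjk : j ≠ k) {s t : F}
    (h1 : Mm L (X i j s)) (h2 : Mm L (X j k t)) : Mm L (X i k (s * t)) :=
  SlEven.X_comm hij hik hjk s t ▸ ((h1.mul h2).mul (h1.X_neg hij)).mul (h2.X_neg hjk)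

/-- A subgroup with all elementary transvections is everything. -/
lemma top_of_X [Nontrivial ι] (h : ∀ i j, i ≠ j → ∀ u, Mm L (X i j u)) : L = ⊤ := by
  have key : ∀ g : SpecialLinearGroup ι F, Mm L g → g ∈ L := by
    rintro g ⟨g', hg, e'⟩
    rwa [← Subtype.ext e']
  refine top_le_iff.1 fun g _ => SpecialLinearGroup.diagonal_transvection_induction'
    (· ∈ L) g (fun i j hij c hc => key _ ?_) (fun i j hij u => key _ ?_) fun _ _ => L.mul_mem
  · have e1 : ((SpecialLinearGroup.diag2n hij c hc : SpecialLinearGroup ι F) : Matrix ι ι F) =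
        X i j c * X j i (-c⁻¹) * X i j c * X i j (-1) * X j i 1 * X i j (-1) := by
      rw [ext_iff_mulVec]
      intro x
      ext k
      simp only [SpecialLinearGroup.diag2n_coe, mulVec_diagonal, ← mulVec_mulVec, X_mulVec,
        Pi.add_apply, Pi.smul_apply, smul_eq_mul, e_self, e_ne hij, e_ne hij.symm]
      by_cases h1 : k = i
      · subst h1
        simp only [if_true, e_self, e_ne hij]
        field_simp
        ring
      by_cases h2 : k = j
      · subst h2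
        simp only [if_true, if_neg h1, e_self, e_ne h1]
        field_simp
        ring
      · simp only [if_neg h1, if_neg h2, e_ne h1, e_ne h2]
        ring
    rw [e1]
    exact (((((h i j hij _).mul (h j i hij.symm _)).mul (h i j hij _)).mul (h i j hij _)).mul
      (h j i hij.symm _)).mul (h i j hij _)
  · have e1 : ((SpecialLinearGroup.transvection hij u : SpecialLinearGroup ι F) : Matrix ι ι F) =
        X i j u := by
      rw [SpecialLinearGroup.transvection_coe, X, T, smul_vecMulVec, e, e,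
        ← single_eq_single_vecMulVec_single, smul_single, smul_eq_mul, mul_one]
    rw [e1]
    exact h i j hij u

/-- Conjugate by an invertible matrix. -/
def Cj (A B : Matrix ι ι F) : Prop := ∃ g : Matrix ι ι F, g.det ≠ 0 ∧ g * A = B * g

lemma Cj.trans {C : Matrix ι ι F} (h1 : Cj A B) (h2 : Cj B C) : Cj A C := by
  obtain ⟨g, hg, e1⟩ := h1
  obtain ⟨h, hh, e2⟩ := h2
  exact ⟨h * g, by rw [det_mul]; exact mul_ne_zero hh hg, by
    rw [mul_assoc, e1, ← mul_assoc, e2, mul_assoc]⟩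

lemma Cj.sl {t : SpecialLinearGroup ι F} (h : Cj (t : Matrix ι ι F) B) {p : ι}
    (hp : ∀ x, Commute (D p x) (t : Matrix ι ι F)) :
    ∃ t' c : SpecialLinearGroup ι F, (t' : Matrix ι ι F) = B ∧ c * t * c⁻¹ = t' := by
  obtain ⟨g, hg, e1⟩ := h
  have h1 := congrArg det e1
  rw [det_mul, det_mul, t.2, mul_one] at h1
  have h2 : B.det = 1 := mul_right_cancel₀ hg (by rw [← h1, one_mul])
  refine ⟨⟨B, h2⟩, ⟨g * D p g.det⁻¹, by rw [det_mul, det_D, mul_inv_cancel₀ hg]⟩, rfl,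
    mul_inv_eq_iff_eq_mul.2 (Subtype.ext ?_)⟩
  change g * D p g.det⁻¹ * (t : Matrix ι ι F) = B * (g * D p g.det⁻¹)
  rw [mul_assoc, (hp _).eq, ← mul_assoc, e1, mul_assoc]

end Pool.Agent.Lib.MP_cad414_al.Cg.SlEven
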