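import Pool.Agent.Lib.MP_cad414_al.Cg.SlEvenA

/-! From the alternating group and one more element to all transvections. -/

namespace Pool.Agent.Lib.MP_cad414_al.Cg.SlEven

open Matrix Equiv

variable {ι F : Type} [Fintype ι] [DecidableEq ι] [Field F]

omit [Fintype ι] [DecidableEq ι] in
lemma inj3 {a c d : ι} (hac : a ≠ c) (had : a ≠ d) (hcd : c ≠ d) :
    Function.Injective ![a, c, d] := by
  intro i j h
  fin_cases i <;> fin_cases j <;> simp_all [eq_comm]

omit [Fintype ι] [DecidableEq ι] in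
lemma ne3 {a c d x : ι} (ha : x ≠ a) (hc : x ≠ c) (hd : x ≠ d) : ∀ j, x ≠ ![a, c, d] j := by
  intro j
  fin_cases j
  exacts [ha, hc, hd]

lemma emb3_e {a c d : ι} (hac : a ≠ c) (had : a ≠ d) (hcd : c ≠ d) (A : Matrix (Fin 3) (Fin 3) F)
    (j : Fin 3) :
    emb ![a, c, d] A *ᵥ e F (![a, c, d] j) = A 0 j • e F a + A 1 j • e F c + A 2 j • e F d := by
  rw [emb_e (inj3 hac had hcd), Fin.sum_univ_three]
  rfl

lemma e_emb3 {a c d : ι} (hac : a ≠ c) (had : a ≠ d) (hcd : c ≠ d) (A : Matrix (Fin 3) (Fin 3) F)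
    (i : Fin 3) :
    e F (![a, c, d] i) ᵥ* emb ![a, c, d] A = A i 0 • e F a + A i 1 • e F c + A i 2 • e F d := by
  rw [e_emb (inj3 hac had hcd), Fin.sum_univ_three]
  rfl

/-- The block of the sixth power. -/
def Z0 (l : F) : Matrix (Fin 3) (Fin 3) F := !![-1, l, 0; 0, 1, 0; 0, -2 * l, -1]

/-- The sixth power. -/
def Z (d : ι) (l : F) (i j : ι) : Matrix ι ι F := emb ![i, j, d] (Z0 l)

section
variable {d i j : ι} (l : F) (hij : i ≠ j) (hid : i ≠ d) (hjd : j ≠ d)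
include hij hid hjd

lemma Z_i : Z d l i j *ᵥ e F i = -e F i :=
  (emb3_e hij hid hjd (Z0 l) 0).trans (by simp [Z0])

lemma Z_j : Z d l i j *ᵥ e F j = e F j + l • (e F i - (2 : F) • e F d) := by
  refine (emb3_e hij hid hjd (Z0 l) 1).trans ?_
  simp [Z0]
  module

lemma Z_d : Z d l i j *ᵥ e F d = -e F d :=
  (emb3_e hij hid hjd (Z0 l) 2).trans (by simp [Z0])

lemma i_Z : e F i ᵥ* Z d l i j = -e F i + l • e F j :=
  (e_emb3 hij hid hjd (Z0 l) 0).trans (by simp [Z0])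

lemma j_Z : e F j ᵥ* Z d l i j = e F j :=
  (e_emb3 hij hid hjd (Z0 l) 1).trans (by simp [Z0])

lemma Z_sq : Z d l i j * Z d l i j = 1 := by
  rw [Z, emb_mul (inj3 hij hid hjd), ← emb_one ![i, j, d]]
  congr 1
  ext a b
  fin_cases a <;> fin_cases b <;> simp [Z0, Matrix.mul_apply, Fin.sum_univ_three]

end

lemma Z_o {d i j x : ι} (l : F) (h1 : x ≠ i) (h2 : x ≠ j) (h3 : x ≠ d) :
    Z d l i j *ᵥ e F x = e F x := emb_e' _ (ne3 h1 h2 h3)

lemma o_Z {d i j x : ι} (l : F) (h1 : x ≠ i) (h2 : x ≠ j) (h3 : x ≠ d) :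
    e F x ᵥ* Z d l i j = e F x := e_emb' _ (ne3 h1 h2 h3)

lemma Z_Z {d i j k : ι} (l : F) (hij : i ≠ j) (hik : i ≠ k) (hjk : j ≠ k) (hid : i ≠ d)
    (hjd : j ≠ d) (hkd : k ≠ d) :
    Z d l i j * Z d l i k = T (l • (e F i - (2 : F) • e F d)) (e F j - e F k) := by
  refine mat_ext fun x => ?_
  rw [← mulVec_mulVec, T_mulVec, sub_dotProduct, e_dot, e_dot]
  by_cases h1 : x = i
  · subst h1
    rw [Z_i l hik hid hkd, mulVec_neg, Z_i l hij hid hjd, e_ne hij.symm, e_ne hik.symm]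
    module
  by_cases h2 : x = d
  · subst h2
    rw [Z_d l hik hid hkd, mulVec_neg, Z_d l hij hid hjd, e_ne hjd, e_ne hkd]
    module
  by_cases h3 : x = j
  · subst h3
    rw [Z_o l h1 hjk h2, Z_j l hij hid hjd, e_self, e_ne hjk.symm]
    module
  by_cases h4 : x = k
  · subst h4
    rw [Z_j l hik hid hkd, mulVec_add, mulVec_smul, mulVec_sub, mulVec_smul, Z_o l h1 h3 h2,
      Z_i l hij hid hjd, Z_d l hij hid hjd, e_self, e_ne hjk]
    module
  · rw [Z_o l h1 h4 h2, Z_o l h1 h3 h2, e_ne (Ne.symm h3), e_ne (Ne.symm h4)]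
    module

lemma Z_two {d i j : ι} (l : F) (hij : i ≠ j) (hid : i ≠ d) (hjd : j ≠ d) (h : (2 : F) = 0) :
    Z d l i j = X i j l := by
  have hn : ∀ v : ι → F, -v = v := fun v => by
    rw [neg_eq_iff_add_eq_zero, ← two_smul F, h, zero_smul]
  refine mat_ext fun x => ?_
  rw [X_mulVec]
  by_cases h1 : x = i
  · subst h1
    rw [Z_i l hij hid hjd, e_ne hij.symm, hn, mul_zero, zero_smul, add_zero]
  by_cases h2 : x = d
  · subst h2
    rw [Z_d l hij hid hjd, e_ne hjd, hn, mul_zero, zero_smul, add_zero]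
  by_cases h3 : x = j
  · subst h3
    rw [Z_j l hij hid hjd, e_self, h, zero_smul, sub_zero, mul_one]
  · rw [Z_o l h1 h3 h2, e_ne (Ne.symm h3), mul_zero, zero_smul, add_zero]

lemma P_Z {d : ι} (l : F) (σ : Perm ι) (h : σ d = d) (i j : ι) :
    P F σ * Z d l i j * P F σ⁻¹ = Z d l (σ i) (σ j) := by
  rw [Z, P_emb, Z]
  congr 1
  ext a
  fin_cases a
  exacts [rfl, rfl, h]

lemma fresh (hc : 5 < Fintype.card ι) (a b c d f : ι) :
    ∃ x, x ≠ a ∧ x ≠ b ∧ x ≠ c ∧ x ≠ d ∧ x ≠ f := by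
  obtain ⟨x, -, hx⟩ := Finset.exists_mem_notMem_of_card_lt_card
    (s := ({a, b, c, d, f} : Finset ι)) (t := Finset.univ) (Finset.card_le_five.trans_lt hc)
  exact ⟨x, by simpa [not_or] using hx⟩

variable {L : Subgroup (SpecialLinearGroup ι F)} {d : ι}

/-- All three-cycles that fix `d` are in the subgroup. -/
def Alt (L : Subgroup (SpecialLinearGroup ι F)) (d : ι) : Prop :=
  ∀ x y z, x ≠ d → y ≠ d → z ≠ d → x ≠ y → x ≠ z → y ≠ z → Mm L (P F (swap x y * swap x z))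

lemma spread (hc : 5 < Fintype.card ι) (hA : Alt L d) (Φ : ι → ι → Matrix ι ι F)
    (hΦ : ∀ σ : Perm ι, σ d = d → ∀ i j, P F σ * Φ i j * P F σ⁻¹ = Φ (σ i) (σ j)) {a c : ι}
    (hac : a ≠ c) (had : a ≠ d) (hcd : c ≠ d) (h : Mm L (Φ a c)) :
    ∀ i j, i ≠ j → i ≠ d → j ≠ d → Mm L (Φ i j) := by
  have mv : ∀ i j k, i ≠ j → k ≠ j → i ≠ d → j ≠ d → k ≠ d →
      ∃ σ : Perm ι, Mm L (P F σ) ∧ σ d = d ∧ σ i = k ∧ σ j = j := by
    intro i j k hij hkj hid hjd hkd
    by_cases hik : i = k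
    · exact ⟨1, Mm.one, rfl, hik, rfl⟩
    obtain ⟨x, h1, h2, h3, h4, -⟩ := fresh hc i j k d d
    refine ⟨swap i x * swap i k, hA i x k hid h4 hkd h1.symm hik h3, ?_, ?_, ?_⟩
    · rw [Perm.mul_apply, swap_apply_of_ne_of_ne hid.symm hkd.symm,
        swap_apply_of_ne_of_ne hid.symm h4.symm]
    · rw [Perm.mul_apply, swap_apply_left, swap_apply_of_ne_of_ne (Ne.symm hik) h3.symm]
    · rw [Perm.mul_apply, swap_apply_of_ne_of_ne hij.symm hkj.symm,
        swap_apply_of_ne_of_ne hij.symm h2.symm]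
  have m1 : ∀ i j k, i ≠ j → k ≠ j → i ≠ d → j ≠ d → k ≠ d → Mm L (Φ i j) → Mm L (Φ k j) := by
    intro i j k hij hkj hid hjd hkd h
    obtain ⟨σ, h1, h2, h3, h4⟩ := mv i j k hij hkj hid hjd hkd
    have := (h1.mul h).mul (h1.inv (P_inv σ))
    rwa [hΦ σ h2, h3, h4] at this
  have m2 : ∀ i j k, i ≠ j → i ≠ k → i ≠ d → j ≠ d → k ≠ d → Mm L (Φ i j) → Mm L (Φ i k) := by
    intro i j k hij hik hid hjd hkd h
    obtain ⟨σ, h1, h2, h3, h4⟩ := mv j i k hij.symm hik.symm hjd hid hkd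
    have := (h1.mul h).mul (h1.inv (P_inv σ))
    rwa [hΦ σ h2, h3, h4] at this
  intro i j hij hid hjd
  obtain ⟨x, h1, h2, h3, -, -⟩ := fresh hc c j d d d
  exact m1 x j i h2 hij h3 hjd hid (m2 x c j h1 h2 h3 hcd hjd (m1 a c x hac h1 had hcd h3 h))

lemma all_X [Finite F] (hc : 5 < Fintype.card ι) (hA : Alt L d) {l : F} (hl0 : l ≠ 0)
    (hl2 : l ≠ 2) (hl : ∀ S : Subring F, l ∈ S → S = ⊤) {a c : ι} (hac : a ≠ c) (had : a ≠ d)
    (hcd : c ≠ d) (h : Mm L (Z d l a c)) (u : F) :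
    ∀ i j, i ≠ j → i ≠ d → j ≠ d → Mm L (X i j u) := by
  have hZ := spread hc hA (Z d l) (P_Z l) hac had hcd h
  have hX := fun (u : F) => spread hc hA (fun i j => X i j u) (fun σ _ i j => P_X σ i j u) hac had hcd
  have hZZ : ∀ i j k, i ≠ j → i ≠ k → j ≠ k → i ≠ d → j ≠ d → k ≠ d →
      Mm L (T (l • (e F i - (2 : F) • e F d)) (e F j - e F k)) :=
    fun i j k hij hik hjk hid hjd hkd =>
      Z_Z l hij hik hjk hid hjd hkd ▸ (hZ i j hij hid hjd).mul (hZ i k hik hid hkd)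
  obtain ⟨c0, hc0, h0⟩ : ∃ c0 : F, c0 ≠ 0 ∧ Mm L (X a c c0) := by
    by_cases h2 : (2 : F) = 0
    · exact ⟨l, hl0, Z_two l hac had hcd h2 ▸ h⟩
    refine ⟨2 * l * (2 - l), mul_ne_zero (mul_ne_zero h2 hl0) (sub_ne_zero.2 hl2.symm), ?_⟩
    obtain ⟨k, hka, hkc, hkd, -, -⟩ := fresh hc a c d d d
    obtain ⟨m, hma, hmc, hmk, hmd, -⟩ := fresh hc a c k d d
    have h1 : Mm L (T (-(l • (e F m - (2 : F) • e F d))) (e F c - e F k)) := by
      have := hZZ m k c hmk hmc hkc hmd hkd hcd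
      rwa [← neg_sub (e F c), ← neg_one_smul F (e F c - e F k), ← T_smul, neg_one_smul] at this
    have h2 := (hZZ a c k hac hka.symm hkc.symm had hcd hkd).add_left h1 (by
      simp [sub_dotProduct, e_dot, e_ne hmc.symm, e_ne hmk.symm, e_ne hcd, e_ne hkd])
    rw [show l • (e F a - (2 : F) • e F d) + -(l • (e F m - (2 : F) • e F d)) =
      l • (e F a - e F m) by module] at h2
    have h3 := (hZ m c hmc hmd hcd).conj (Z_sq l hmc hmd hcd) h2
    rw [mulVec_smul, mulVec_sub, Z_o l hma.symm hac had, Z_i l hmc hmd hcd, sub_vecMul,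
      j_Z l hmc hmd hcd, o_Z l hmk.symm hkc hkd] at h3
    have h4 := h2.add_left h3 (by
      simp [sub_dotProduct, e_dot, e_ne hmc.symm, e_ne hmk.symm, e_ne hac.symm, e_ne hka])
    rw [show l • (e F a - e F m) + l • (e F a - -e F m) = (2 * l) • e F a by module] at h4
    have h5 := (hZ k c hkc hkd hcd).conj (Z_sq l hkc hkd hcd) h4
    rw [mulVec_smul, Z_o l hka.symm hac had, sub_vecMul, j_Z l hkc hkd hcd,
      i_Z l hkc hkd hcd] at h5
    have h6 := h4.add_right h5 (by simp [sub_dotProduct, e_dot, e_ne hac.symm, e_ne hka])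
    rwa [show e F c - e F k + (e F c - (-e F k + l • e F c)) = (2 - l) • e F c by module,
      ← T_smul, smul_smul, mul_comm] at h6
  have hmul : ∀ s t : F, Mm L (X a c s) → Mm L (X a c t) → Mm L (X a c (s * t)) := by
    intro s t hs ht
    obtain ⟨k, hka, hkc, hkd, -, -⟩ := fresh hc a c d d d
    exact (hX s hs a k hka.symm had hkd).X_comm hka.symm hac hkc (hX t ht k c hkc hkd hcd)
  have hone : Mm L (X a c (1 : F)) := by
    have hp : ∀ k : ℕ, Mm L (X a c (c0 ^ (k + 1))) := fun k => by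
      induction k with
      | zero => rwa [zero_add, pow_one]
      | succ k ih => rw [pow_succ]; exact hmul _ _ ih h0
    let _ := Fintype.ofFinite F
    have h1 := hp (Fintype.card F - 2)
    have h2 : 1 < Fintype.card F := Fintype.one_lt_card
    rwa [show Fintype.card F - 2 + 1 = Fintype.card F - 1 by omega,
      FiniteField.pow_card_sub_one_eq_one c0 hc0] at h1
  let S : Subring F :=
    { carrier := {u | Mm L (X a c u)}
      mul_mem' := fun hs ht => hmul _ _ hs ht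
      one_mem' := hone
      add_mem' := fun {s t} hs ht => show Mm L (X a c (s + t)) from X_add hac s t ▸ Mm.mul hs ht
      zero_mem' := show Mm L (X a c 0) by rw [X, zero_smul, T_zero]; exact Mm.one
      neg_mem' := fun hs => Mm.X_neg hac hs }
  have hlS : l ∈ S := by
    obtain ⟨k, hka, hkc, hkd, -, -⟩ := fresh hc a c d d d
    have h1 : Mm L (T ((1 : F) • e F a) (e F k)) := hX 1 hone a k hka.symm had hkd
    have h2 := (hZ k c hkc hkd hcd).conj (Z_sq l hkc hkd hcd) h1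
    rw [mulVec_smul, Z_o l hka.symm hac had, i_Z l hkc hkd hcd] at h2
    have h3 := h1.add_right h2 (by simp [e_dot, e_ne hka])
    rw [add_neg_cancel_left, ← T_smul, one_smul] at h3
    exact h3
  exact hX u (show u ∈ S from hl S hlS ▸ Subring.mem_top u)

lemma top_of
    (hX : ∀ (u : F) i j, i ≠ j → i ≠ d → j ≠ d → Mm L (X i j u)) {p q : ι} (hp : p ≠ d)
    (hq : q ≠ d) (h1 : ∀ u : F, Mm L (X q d u)) (h2 : ∀ u : F, Mm L (X d p u)) : L = ⊤ := by
  have : Nontrivial ι := ⟨⟨p, d, hp⟩⟩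
  refine top_of_X fun i j hij u => ?_
  by_cases hi : i = d
  · subst hi
    by_cases hj : j = p
    · exact hj ▸ h2 u
    · have := (h2 u).X_comm hp.symm hij (Ne.symm hj) (hX 1 p j (Ne.symm hj) hp hij.symm)
      rwa [mul_one] at this
  by_cases hj : j = d
  · subst hj
    by_cases hi' : i = q
    · exact hi' ▸ h1 u
    · have := (hX 1 i q hi' hi hq).X_comm hi' hij hq (h1 u)
      rwa [one_mul] at this
  · exact hX u i j hij hi hj

lemma exists_lam [Finite F] : ∃ l : F, l ≠ 0 ∧ l ≠ 2 ∧ ∀ S : Subring F, l ∈ S → S = ⊤ := by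
  obtain ⟨g, hg⟩ := IsCyclic.exists_monoid_generator (α := Fˣ)
  have key : ∀ S : Subring F, (g : F) ∈ S → S = ⊤ := fun S hS => by
    refine top_le_iff.1 fun x _ => ?_
    rcases eq_or_ne x 0 with rfl | hx
    · exact S.zero_mem
    obtain ⟨k, hk⟩ := hg (Units.mk0 x hx)
    have h1 : (g : F) ^ k = x := by simpa using congrArg Units.val hk
    exact h1 ▸ S.pow_mem hS k
  by_cases h : (g : F) = 2
  · refine ⟨1, one_ne_zero, fun e' => one_ne_zero (α := F) (by linear_combination -e'),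
      fun S hS => key S ?_⟩
    rw [h, ← one_add_one_eq_two]
    exact S.add_mem hS hS
  · exact ⟨g, g.ne_zero, h, key⟩

end Pool.Agent.Lib.MP_cad414_al.Cg.SlEven
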