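import Pool.Agent.Lib.MP_cad414_al.Cg.Base

/-! The groups `L_2(q)`, `q > 3`, are generated by three conjugate involutions. -/

namespace Pool.Agent.Lib.MP_cad414_al.Cg

open Matrix

variable {G F : Type} [Group G] [Finite G] [IsSimpleGroup G] [Field F] [Finite F]

namespace SlTwo

theorem sq_add_sq (x : F) : ∃ u v : F, u ^ 2 + v ^ 2 = x := by
  by_cases h : ringChar F = 2
  · obtain ⟨u, hu⟩ := FiniteField.isSquare_of_char_two h x
    exact ⟨u, 0, by rw [hu]; ring⟩
  · have := Fintype.ofFinite F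
    obtain ⟨u, v, e⟩ := FiniteField.exists_root_sum_quadratic (f := Polynomial.X ^ 2)
      (g := Polynomial.X ^ 2 - Polynomial.C x) (Polynomial.degree_X_pow 2)
      (Polynomial.degree_X_pow_sub_C (by norm_num) x) (FiniteField.odd_card_of_char_ne_two h)
    refine ⟨u, v, ?_⟩
    simp only [Polynomial.eval_pow, Polynomial.eval_X, Polynomial.eval_sub, Polynomial.eval_C] at e
    linear_combination e

/-- The matrix with the given entries lies in `L`. -/
def In (L : Subgroup (SpecialLinearGroup (Fin 2) F)) (a b c d : F) : Prop :=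
  ∃ g ∈ L, g.1 = !![a, b; c, d]

variable {L : Subgroup (SpecialLinearGroup (Fin 2) F)} {a b c d a' b' c' d' : F}

omit [Finite F] in
theorem In.congr (h : In L a b c d) (e1 : a = a') (e2 : b = b') (e3 : c = c') (e4 : d = d') :
    In L a' b' c' d' := e1 ▸ e2 ▸ e3 ▸ e4 ▸ h

omit [Finite F] in
theorem val_mul (g g' : SpecialLinearGroup (Fin 2) F) : (g * g').1 = g.1 * g'.1 := rfl

omit [Finite F] in
theorem val_inv (g : SpecialLinearGroup (Fin 2) F) : (g⁻¹).1 = adjugate g.1 := rfl

omit [Finite F] in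
theorem In.mul (h : In L a b c d) (h' : In L a' b' c' d') :
    In L (a * a' + b * c') (a * b' + b * d') (c * a' + d * c') (c * b' + d * d') := by
  obtain ⟨g, hg, e⟩ := h
  obtain ⟨g', hg', e'⟩ := h'
  exact ⟨g * g', L.mul_mem hg hg', by rw [val_mul, e, e', mul_fin_two]⟩

omit [Finite F] in
theorem In.inv (h : In L a b c d) : In L d (-b) (-c) a := by
  obtain ⟨g, hg, e⟩ := h
  exact ⟨g⁻¹, L.inv_mem hg, by rw [val_inv, e, adjugate_fin_two_of]⟩

omit [Finite F] in
theorem In.det (h : In L a b c d) : a * d - b * c = 1 := by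
  obtain ⟨g, -, e⟩ := h
  rw [← det_fin_two_of, ← e, g.2]

omit [Finite F] in
theorem in_one : In L 1 0 0 1 := ⟨1, L.one_mem, one_fin_two⟩

omit [Finite F] in
theorem top_of_all (hu : ∀ x, In L 1 x 0 1) (hl : ∀ x, In L 1 0 x 1) : L = ⊤ := by
  have h1 : ∀ a b c d : F, a * d - b * c = 1 → c ≠ 0 → In L a b c d := fun a b c d e hc => by
    refine (((hu ((a - 1) / c)).mul (hl c)).mul (hu ((d - 1) / c))).congr ?_ ?_ ?_ ?_
    · field_simp
      ring
    · field_simp
      linear_combination e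
    · ring
    · field_simp
      ring
  have h2 : ∀ a b c d : F, a * d - b * c = 1 → In L a b c d := fun a b c d e => by
    by_cases hc : c = 0
    · subst hc
      have hd : d ≠ 0 := by
        rintro rfl
        simp at e
      exact ((h1 (a + b) b d d (by linear_combination e) hd).mul (hl (-1))).congr (by ring)
        (by ring) (by ring) (by ring)
    · exact h1 a b c d e hc
  refine top_le_iff.1 fun g _ => ?_
  obtain ⟨g', hg', e⟩ := h2 (g.1 0 0) (g.1 0 1) (g.1 1 0) (g.1 1 1) (by rw [← det_fin_two, g.2])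
  rwa [← (Subtype.ext (e.trans (eta_fin_two g.1).symm) : g' = g)]

theorem top_of_tri (hw : In L 0 1 (-1) 0) (hh : ∀ m : F, m ≠ 0 → In L m 0 0 m⁻¹)
    (ht : In L a 0 c d) (hc : c ≠ 0) : L = ⊤ := by
  have hdet := ht.det
  have hd : d ≠ 0 := by
    rintro rfl
    simp at hdet
  have h1 : In L 1 0 (c * d) 1 := (ht.mul (hh d hd)).congr (by linear_combination hdet) (by ring)
    (by ring) (by linear_combination mul_inv_cancel₀ hd)
  have h2 : ∀ m : F, In L 1 0 (c * d * m ^ 2) 1 := fun m => by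
    by_cases hm : m = 0
    · exact in_one.congr rfl rfl (by rw [hm]; ring) rfl
    · refine (((hh m hm).inv.mul h1).mul (hh m hm)).congr ?_ (by ring) (by ring) ?_
      · linear_combination mul_inv_cancel₀ hm
      · linear_combination mul_inv_cancel₀ hm
  have h3 : ∀ x : F, In L 1 0 x 1 := fun x => by
    obtain ⟨u, v, e⟩ := sq_add_sq (x / (c * d))
    rw [eq_div_iff (mul_ne_zero hc hd)] at e
    exact ((h2 u).mul (h2 v)).congr (by ring) (by ring) (by linear_combination e) (by ring)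
  exact top_of_all (fun x => ((hw.mul (h3 (-x))).mul hw.inv).congr (by ring) (by ring) (by ring)
    (by ring)) h3

/-- An element given by its entries. -/
def mk (a b c d : F) (h : a * d - b * c = 1) : SpecialLinearGroup (Fin 2) F :=
  ⟨!![a, b; c, d], by rw [det_fin_two_of, h]⟩

/-- The Weyl element. -/
def w : SpecialLinearGroup (Fin 2) F := mk 0 1 (-1) 0 (by ring)

theorem conj (h : a * -a - b * c = 1) (hc : c ≠ 0) : ∃ g : SpecialLinearGroup (Fin 2) F,
    (mk a b c (-a) h)⁻¹ * (g * w * g⁻¹) ∈ Subgroup.center (SpecialLinearGroup (Fin 2) F) := by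
  obtain ⟨u, v, e⟩ := sq_add_sq (-1 / c)
  rw [eq_div_iff hc] at e
  refine ⟨mk (u + v * a) (v - a * u) (v * c) (-(c * u)) (by linear_combination -e), ?_⟩
  have h1 : mk (u + v * a) (v - a * u) (v * c) (-(c * u)) (by linear_combination -e) * w =
      mk a b c (-a) h * mk (u + v * a) (v - a * u) (v * c) (-(c * u))
        (by linear_combination -e) := by
    refine Subtype.ext ((mul_fin_two ..).trans (Eq.trans ?_ (mul_fin_two ..).symm))
    ext i j
    fin_cases i <;> fin_cases j <;> simp only [of_apply, cons_val', cons_val_fin_one,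
      Fin.zero_eta, Fin.mk_one, cons_val_zero, cons_val_one]
    · linear_combination v * h
    · linear_combination (-u) * h
    · ring
    · ring
  rw [h1, mul_inv_cancel_right, inv_mul_cancel]
  exact Subgroup.one_mem _

omit [Finite F] in
theorem w_sq : w * w ∈ Subgroup.center (SpecialLinearGroup (Fin 2) F) := by
  refine Subgroup.mem_center_iff.2 fun g => Subtype.ext ?_
  have h : (w * w : SpecialLinearGroup (Fin 2) F).1 = -1 := by
    refine (mul_fin_two ..).trans ?_
    ext i j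
    fin_cases i <;> fin_cases j <;> simp
  rw [val_mul, val_mul _ g, h, mul_neg_one, neg_one_mul]

omit [Finite G] in
theorem main (hG : NA G) (h : Img G (SpecialLinearGroup (Fin 2) F)) (hd : a * -a - b * 1 = 1)
    (hcl : ∀ L : Subgroup (SpecialLinearGroup (Fin 2) F), In L 0 1 (-1) 0 →
      (∀ m : F, m ≠ 0 → In L m 0 0 m⁻¹) → In L a b 1 (-a) → L = ⊤) : 3 ∈ GenSizes G := by
  obtain ⟨k, hk⟩ := IsCyclic.exists_monoid_generator (α := Fˣ)
  have h2 : (0 : F) * -0 - (k : F)⁻¹ * -k = 1 := by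
    linear_combination mul_inv_cancel₀ k.ne_zero
  obtain ⟨c2, e2⟩ := conj h2 (neg_ne_zero.2 k.ne_zero)
  obtain ⟨c3, e3⟩ := conj hd one_ne_zero
  refine hG.three_of_img h w _ _ c2 c3 w_sq e2 e3 fun L l1 l2 l3 _ => ?_
  have m1 : In L 0 1 (-1) 0 := ⟨_, l1, rfl⟩
  have m2 : In L 0 (k : F)⁻¹ (-k) (-0) := ⟨_, l2, rfl⟩
  have m3 : In L k 0 0 (k : F)⁻¹ := (m1.inv.mul m2).congr (by ring) (by ring) (by ring) (by ring)
  have m4 : ∀ n : ℕ, In L ((k : F) ^ n) 0 0 ((k : F) ^ n)⁻¹ := fun n => by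
    induction n with
    | zero => exact in_one.congr (by ring) rfl rfl (by rw [pow_zero, inv_one])
    | succ n ih => exact (ih.mul m3).congr (by ring) (by ring) (by ring) (by ring)
  rw [hcl L m1 (fun m hm => ?_) ⟨_, l3, rfl⟩]
  · exact le_top
  · obtain ⟨n, hn⟩ := hk (Units.mk0 m hm)
    have h3 : (k : F) ^ n = m := by
      rw [← Units.val_pow_eq_pow_val]
      exact congrArg Units.val hn
    exact h3 ▸ m4 n

theorem exists_ne (h3 : 3 < Nat.card F) : ∃ m : F, m ≠ 0 ∧ m ≠ 1 ∧ m ≠ -1 := by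
  classical
  have := Fintype.ofFinite F
  rw [Nat.card_eq_fintype_card] at h3
  obtain ⟨m, -, hm⟩ := Finset.exists_mem_notMem_of_card_lt_card (s := ({0, 1, -1} : Finset F))
    (t := Finset.univ) (Finset.card_le_three.trans_lt h3)
  exact ⟨m, by simpa using hm⟩

end SlTwo

open SlTwo in
theorem sl_two (hG : NA G) (h3 : 3 < Nat.card F) (h : Img G (SpecialLinearGroup (Fin 2) F)) :
    3 ∈ GenSizes G := by
  by_cases hi : ∃ i : F, i ^ 2 = -1
  · obtain ⟨i, hi⟩ := hi
    exact main hG h (a := i) (b := 0) (by linear_combination -hi)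
      fun L hw hh ht => top_of_tri hw hh ht one_ne_zero
  have key : ∀ a s : F, a ≠ 0 → a ^ 2 + s ^ 2 ≠ 0 := fun a s ha e =>
    hi ⟨s / a, by field_simp; linear_combination e⟩
  have h2 : (2 : F) ≠ 0 := fun e => key 1 1 one_ne_zero (by linear_combination e)
  obtain ⟨m, m0, m1, m2⟩ := exists_ne h3
  obtain ⟨a, s, ha, e⟩ : ∃ a s : F, a ≠ 0 ∧ s ^ 2 = 1 + a ^ 2 := by
    refine ⟨(1 - m) * (1 + m) / (2 * m), (1 + m ^ 2) / (2 * m), div_ne_zero (mul_ne_zero
      (sub_ne_zero.2 m1.symm) fun e => m2 (by linear_combination e)) (mul_ne_zero h2 m0), ?_⟩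
    field_simp
    ring
  have hs : s ≠ 0 := fun e' => key a 1 ha (by rw [e'] at e; linear_combination -e)
  refine main hG h (a := a) (b := -s ^ 2) (by linear_combination e) fun L hw hh ht => ?_
  refine top_of_tri hw hh (c := (a ^ 2 + s ^ 2) * (s ^ 2 - a ^ 2) / (a * s))
    ((((ht.mul (hh (s / a) (div_ne_zero hs ha))).mul ht).mul hw).congr rfl ?_ ?_ rfl) ?_
  · field_simp
    ring
  · field_simp
    ring
  · exact div_ne_zero (mul_ne_zero (key a s ha) (by rw [e]; simp)) (mul_ne_zero ha hs)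

end Pool.Agent.Lib.MP_cad414_al.Cg
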