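import Pool.Agent.Lib.MP_cad414_al.Cg.Base

/-! Symplectic groups: transvections and Heisenberg elements. -/

namespace Pool.Agent.Lib.MP_cad414_al.Cg

open Matrix

variable {l F : Type} [Fintype l] [DecidableEq l] [Field F]

/-- The symplectic form. -/
def sB : (l ⊕ l → F) →ₗ[F] (l ⊕ l → F) →ₗ[F] F := Matrix.toBilin' (J l F)

theorem sB_def (x y : l ⊕ l → F) : sB x y = x ⬝ᵥ J l F *ᵥ y := Matrix.toBilin'_apply' _ _ _

theorem sB_self (x : l ⊕ l → F) : sB x x = 0 := by
  simp [sB_def, J, dotProduct, fromBlocks_mulVec, neg_mulVec, mul_comm]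

theorem sB_comm (x y : l ⊕ l → F) : sB x y = -sB y x := by
  have h := sB_self (x + y)
  simp only [map_add, LinearMap.add_apply, sB_self] at h
  linear_combination h

theorem sB_nd {x : l ⊕ l → F} (h : x ≠ 0) : ∃ y, sB y x ≠ 0 := by
  by_contra hc
  refine h ?_
  have h1 : J l F *ᵥ x = 0 := funext fun i => by
    by_contra e
    exact hc ⟨Pi.single i 1, by simpa [sB_def] using e⟩
  have h2 := congrArg (J l F *ᵥ ·) h1
  simpa [mulVec_mulVec, J_squared, neg_mulVec] using h2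

theorem sB_two {p q : l ⊕ l → F} (hp : p ≠ 0) (hq : q ≠ 0) : ∃ y, sB y p ≠ 0 ∧ sB y q ≠ 0 := by
  obtain ⟨y1, h1⟩ := sB_nd hp
  obtain ⟨y2, h2⟩ := sB_nd hq
  by_cases h3 : sB y1 q = 0
  · by_cases h4 : sB y2 p = 0
    · exact ⟨y1 + y2, by simpa [h4] using h1, by simpa [h3] using h2⟩
    · exact ⟨y2, h4, h2⟩
  · exact ⟨y1, h1, h3⟩

/-- The action on vectors. -/
def sa (g : symplecticGroup l F) : (l ⊕ l → F) →ₗ[F] (l ⊕ l → F) := Matrix.toLin' g.1

theorem sa_def (g : symplecticGroup l F) (x : l ⊕ l → F) : sa g x = g.1 *ᵥ x := rfl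

theorem sa_mul (g h : symplecticGroup l F) (x : l ⊕ l → F) : sa (g * h) x = sa g (sa h x) :=
  (mulVec_mulVec _ _ _).symm

theorem sa_one (x : l ⊕ l → F) : sa 1 x = x := one_mulVec x

theorem sa_inv (g : symplecticGroup l F) (x : l ⊕ l → F) : sa g (sa g⁻¹ x) = x := by
  rw [← sa_mul, mul_inv_cancel, sa_one]

theorem sa_inv' (g : symplecticGroup l F) (x : l ⊕ l → F) : sa g⁻¹ (sa g x) = x := by
  rw [← sa_mul, inv_mul_cancel, sa_one]

theorem sa_ext {g h : symplecticGroup l F} (e : ∀ x, sa g x = sa h x) : g = h :=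
  Subtype.ext (Matrix.toLin'.injective (LinearMap.ext e))

theorem sB_sa (g : symplecticGroup l F) (x y : l ⊕ l → F) : sB (sa g x) (sa g y) = sB x y := by
  rw [sB_def, sB_def, sa_def, sa_def, ← SymplecticGroup.mem_iff'.1 g.2, mulVec_mulVec,
    ← vecMul_transpose, ← dotProduct_mulVec, mulVec_mulVec, SymplecticGroup.mem_iff'.1 g.2,
    ← Matrix.mul_assoc, SymplecticGroup.mem_iff'.1 g.2]

theorem sB_sa' (g : symplecticGroup l F) (x y : l ⊕ l → F) : sB (sa g x) y = sB x (sa g⁻¹ y) := by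
  rw [← sB_sa g x, sa_inv]

theorem sp_mem {A : Matrix (l ⊕ l) (l ⊕ l) F} (h : ∀ x y, sB (A *ᵥ x) (A *ᵥ y) = sB x y) :
    A ∈ symplecticGroup l F := by
  rw [SymplecticGroup.mem_iff']
  refine Matrix.toBilin'.injective (LinearMap.ext₂ fun x y => ?_)
  rw [Matrix.toBilin'_apply', Matrix.toBilin'_apply', ← sB_def x y, ← h, sB_def, mulVec_mulVec,
    ← vecMul_transpose A x, ← dotProduct_mulVec, mulVec_mulVec, Matrix.mul_assoc]

theorem sT_aux (v x : l ⊕ l → F) (a : F) :
    (1 + a • vecMulVec v (J l F *ᵥ v)) *ᵥ x = x + (a * sB x v) • v := by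
  rw [add_mulVec, one_mulVec, smul_mulVec, vecMulVec_mulVec, sB_def, dotProduct_comm, mul_smul,
    op_smul_eq_smul]

/-- A transvection. -/
def sT (v : l ⊕ l → F) (a : F) : symplecticGroup l F :=
  ⟨1 + a • vecMulVec v (J l F *ᵥ v), sp_mem fun x y => by
    simp only [sT_aux, map_add, map_smul, LinearMap.add_apply, LinearMap.smul_apply, sB_self,
      smul_eq_mul, sB_comm v y]
    ring⟩

theorem sT_act (v x : l ⊕ l → F) (a : F) : sa (sT v a) x = x + (a * sB x v) • v := sT_aux v x a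

theorem sp_gen (L : Subgroup (symplecticGroup l F)) (h : ∀ v a, sT v a ∈ L)
    (g : symplecticGroup l F) : g ∈ L := by
  suffices H : ∀ W : Submodule F (l ⊕ l → F), ∀ g, (∀ y ∈ W, sa g y = y) → g ∈ L from
    H ⊥ g fun y hy => by rw [(Submodule.mem_bot F).1 hy, map_zero]
  intro W
  induction W using WellFoundedGT.induction with
  | ind W ih =>
  have fx : ∀ g : symplecticGroup l F, (∀ y ∈ W, sa g y = y) → ∀ x a, ∀ y ∈ W,
      sa (sT (sa g x - x) a * g) y = y := fun g hg x a y hy => by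
    have : sB y (sa g x) = sB y x := by rw [← sB_sa g y x, hg y hy]
    rw [sa_mul, hg y hy, sT_act, map_sub, this, sub_self, mul_zero, zero_smul, add_zero]
  have key : ∀ g : symplecticGroup l F, (∀ y ∈ W, sa g y = y) → ∀ x, sB (sa g x) x ≠ 0 → g ∈ L :=
    fun g hg x hx => by
      have hW : x ∉ W := fun e => hx (by rw [hg x e, sB_self])
      refine (L.mul_mem_cancel_left (h (sa g x - x) (sB (sa g x) x)⁻¹)).1
        (ih (W ⊔ F ∙ x) (lt_of_le_of_ne le_sup_left fun e => hW ?_) _ fun y hy => ?_)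
      · exact e ▸ Submodule.mem_sup_right (Submodule.mem_span_singleton_self x)
      · obtain ⟨w, hw, _, hz, rfl⟩ := Submodule.mem_sup.1 hy
        obtain ⟨c, rfl⟩ := Submodule.mem_span_singleton.1 hz
        rw [map_add, fx g hg _ _ w hw, map_smul, sa_mul, sT_act, map_sub, sB_self, zero_sub,
          mul_neg, inv_mul_cancel₀ hx]
        simp
  intro g hg
  by_cases h1 : ∃ x, sB (sa g x) x ≠ 0
  · exact h1.elim (key g hg)
  by_cases h2 : ∃ x, sa g x - x ≠ 0
  · obtain ⟨x, hx⟩ := h2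
    obtain ⟨y, e1, e2⟩ := sB_two hx (q := sa g⁻¹ (sa g x - x)) fun e => hx (by
      rw [← sa_inv g (sa g x - x), e, map_zero])
    refine (L.mul_mem_cancel_left (h (sa g x - x) 1)).1 (key _ (fx g hg x 1) y ?_)
    have e3 : sB (sa g y) y = 0 := by
      by_contra e
      exact h1 ⟨y, e⟩
    rw [sa_mul, sT_act, map_add, LinearMap.add_apply, e3, zero_add, map_smul, LinearMap.smul_apply,
      one_mul, sB_sa', sB_comm (sa g x - x)]
    exact mul_ne_zero e2 (neg_ne_zero.2 e1)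
  · rw [sa_ext (g := g) (h := 1) fun x => by
      by_contra e
      exact h2 ⟨x, sub_ne_zero.2 (by rwa [sa_one] at e)⟩]
    exact L.one_mem

variable {L : Subgroup (symplecticGroup l F)} {e w w' : l ⊕ l → F} {a a' : F}

/-- `L` contains the Heisenberg element with the given data. -/
def Hs (L : Subgroup (symplecticGroup l F)) (e w : l ⊕ l → F) (a : F) : Prop :=
  sB w e = 0 ∧ ∃ g ∈ L, ∀ x, sa g x = x + sB x e • w + (sB x w + a * sB x e) • e

theorem Hs.zero (e : l ⊕ l → F) : Hs L e 0 0 := ⟨by simp, 1, L.one_mem, by simp [sa_one]⟩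

theorem Hs.mul (h : Hs L e w a) (h' : Hs L e w' a') : Hs L e (w + w') (a + a' + sB w' w) := by
  obtain ⟨e1, g, m, eg⟩ := h
  obtain ⟨e2, g', m', eg'⟩ := h'
  refine ⟨by simp [e1, e2], g * g', L.mul_mem m m', fun x => ?_⟩
  simp only [sa_mul, eg, eg', map_add, map_smul, LinearMap.add_apply, LinearMap.smul_apply, sB_self,
    e1, e2, sB_comm e w, smul_eq_mul]
  module

theorem Hs.neg (h : Hs L e w a) : Hs L e (-w) (-a) := by
  obtain ⟨e1, g, m, eg⟩ := h
  refine ⟨by simp [e1], g⁻¹, L.inv_mem m, fun x => ?_⟩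
  rw [← sa_inv' g (x + _ + _)]
  congr 1
  simp only [eg, map_add, map_smul, map_neg, LinearMap.add_apply, LinearMap.smul_apply,
    LinearMap.neg_apply, sB_self, e1, sB_comm e w, smul_eq_mul]
  module

theorem Hs.conj (h : Hs L e w a) {g : symplecticGroup l F} (hg : g ∈ L) :
    Hs L (sa g e) (sa g w) a := by
  obtain ⟨e1, k, m, ek⟩ := h
  refine ⟨by rw [sB_sa, e1], g * k * g⁻¹, L.mul_mem (L.mul_mem hg m) (L.inv_mem hg), fun x => ?_⟩
  obtain ⟨x, rfl⟩ : ∃ y, x = sa g y := ⟨_, (sa_inv g x).symm⟩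
  simp only [sa_mul, sa_inv', ek, map_add, map_smul, sB_sa]

theorem Hs.swap (h : Hs L e w 0) : Hs L w e 0 := by
  obtain ⟨e1, k, m, ek⟩ := h
  refine ⟨by rw [sB_comm, e1, neg_zero], k, m, fun x => ?_⟩
  rw [ek]
  module

theorem Hs.scale {c : F} (h : Hs L (c • e) w a) (hc : c ≠ 0) : Hs L e (c • w) (c * c * a) := by
  obtain ⟨e1, k, m, ek⟩ := h
  refine ⟨by simpa [hc] using e1, k, m, fun x => ?_⟩
  simp only [ek, map_smul, smul_eq_mul]
  module

theorem Hs.comm (h : Hs L e w a) (h' : Hs L e w' a') : Hs L e 0 (2 * sB w' w) := by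
  convert ((h.mul h').mul h.neg).mul h'.neg using 1
  · abel
  · simp only [map_add, map_neg, LinearMap.neg_apply, sB_self, sB_comm w w']
    ring

theorem hs_iff : Hs L e 0 a ↔ sT e a ∈ L := by
  refine ⟨fun ⟨_, g, m, eg⟩ => ?_, fun h => ⟨by simp, _, h, fun x => by simp [sT_act]⟩⟩
  rwa [← sa_ext (g := g) (h := sT e a) fun x => by simp [eg, sT_act]]

/-- The vectors that occur in Heisenberg elements of `L` with centre `e`. -/
def sW (L : Subgroup (symplecticGroup l F)) (e : l ⊕ l → F) : AddSubgroup (l ⊕ l → F) where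
  carrier := {w | ∃ a, Hs L e w a}
  zero_mem' := ⟨0, Hs.zero e⟩
  add_mem' := fun ⟨_, h⟩ ⟨_, h'⟩ => ⟨_, h.mul h'⟩
  neg_mem' := fun ⟨_, h⟩ => ⟨_, h.neg⟩

theorem sW_act {g : symplecticGroup l F} (hg : g ∈ L) (he : sa g e = e) (h : w ∈ sW L e) :
    sa g w - w ∈ sW L e :=
  sub_mem (h.elim fun a ha => ⟨a, by simpa only [he] using ha.conj hg⟩) h

theorem sW_hs {p r : l ⊕ l → F} (h : Hs L p r a) (h1 : sB e p = 0) (h2 : sB e r = 0)
    (hw : w ∈ sW L e) : sB w p • r + (sB w r + a * sB w p) • p ∈ sW L e := by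
  obtain ⟨-, g, m, eg⟩ := h
  have := sW_act m (by simp [eg, h1, h2]) hw
  rwa [eg, add_assoc, add_sub_cancel_left] at this

/-- All transvections with centre `v` lie in `L`. -/
def sC (L : Subgroup (symplecticGroup l F)) (v : l ⊕ l → F) : Prop := ∀ a, Hs L v 0 a

theorem sC.conj (h : sC L e) {g : symplecticGroup l F} (hg : g ∈ L) : sC L (sa g e) :=
  fun a => by simpa only [map_zero] using (h a).conj hg

theorem sC.smul (h : sC L e) (c : F) : sC L (c • e) := fun a => by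
  rw [hs_iff, sa_ext (g := sT (c • e) a) (h := sT e (c * c * a)) fun x => by
    simp only [sT_act, map_smul, smul_eq_mul]
    module]
  exact hs_iff.1 (h _)

theorem sC.add (h : sC L e) (h' : sC L w) (hb : sB e w ≠ 0) (c : F) : sC L (e + c • w) := by
  have := h.conj (hs_iff.1 (h' (c / sB e w)))
  rwa [sT_act, div_mul_cancel₀ _ hb] at this

theorem sW_smul {f : l ⊕ l → F} (he : sC L e) (hf : sC L f) (h1 : sB f e = 1) (h2 : sB w f = 0)
    (hw : w ∈ sW L e) (c : F) : c • w ∈ sW L e := by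
  by_cases hc : c = 0
  · simp [hc]
  obtain ⟨a, ha⟩ := hw
  have h3 := ha.1
  have h4 := (ha.conj (hs_iff.1 (hf.add he (by simp [h1]) (-1) (-1)))).conj
    (hs_iff.1 (hf.add he (by simp [h1]) (-c) c⁻¹))
  have e1 : sa (sT (f + (-1 : F) • e) (-1)) e = f := by
    simp [sT_act, sB_self, sB_comm e f, h1]
  have e2 : sa (sT (f + (-c) • e) c⁻¹) f = c • e := by
    simp [sT_act, sB_self, h1, hc]
  rw [e1, e2] at h4
  simp only [sT_act, map_add, map_smul, h2, h3, smul_zero, add_zero, mul_zero, zero_smul] at h4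
  exact ⟨_, h4.scale hc⟩

theorem sC_all {f : l ⊕ l → F} (he : sC L e) (hf : sC L f) (h1 : sB f e = 1)
    (hW : ∀ w, sB w e = 0 → w ∈ sW L e) (g : symplecticGroup l F) : g ∈ L := by
  have key : ∀ v, sB v e ≠ 0 → sC L v := fun v hv => by
    obtain ⟨a, -, k, m, ek⟩ := hW ((sB v e)⁻¹ • v - f) (by simp [h1, hv])
    have h2 := hf.conj m
    rw [ek, h1, one_smul, add_sub_cancel] at h2
    have h3 := (h2.add he (by simp [hv, sB_self]) (-(sB f ((sB v e)⁻¹ • v - f) + a * 1))).smul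
      (sB v e)
    rwa [neg_smul, add_neg_cancel_right, smul_smul, mul_inv_cancel₀ hv, one_smul] at h3
  refine sp_gen L (fun v a => hs_iff.1 ?_) g
  by_cases h0 : v = 0
  · exact ⟨by simp, 1, L.one_mem, by simp [sa_one, h0]⟩
  by_cases h2 : sB v e = 0
  · obtain ⟨y, e1, e2⟩ := sB_two h0 (q := e) fun e => by simp [e] at h1
    have := (key (v + y) (by simpa [h2] using e2)).add (key y e2)
      (by simpa [sB_self, sB_comm v y] using e1) (-1)
    simpa using this a
  · exact key v h2 a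

end Pool.Agent.Lib.MP_cad414_al.Cg
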