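import Pool.Agent.Lib.MP_cad414_al.Cg.Mx

/-! Packed arithmetic in dimension 248 over the field with three elements. -/

namespace Pool.Agent.Lib.MP_cad414_al.Cg.Th

open Finset Matrix

set_option exponentiation.threshold 3000
set_option maxHeartbeats 400000

abbrev F := ZMod 3
abbrev V := Fin 248 → ZMod 3
abbrev Mat := Matrix (Fin 248) (Fin 248) (ZMod 3)

def P0 : Par 3 248 := mkPar 3 248 10 2 683 11

theorem ok0 : P0.Ok := ok_of (by decide)

def en (y : V) : ℕ := enc P0 y

def mE : ℕ := msk 20 10 124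
def mQ : ℕ := msk 20 9 124
def mD : ℕ := Nat.pred (Nat.pow 2 2480)
@[irreducible] def mK0 : ℕ := msk 2490 10 248
@[irreducible] def mK : ℕ := Nat.shiftLeft mK0 2480

theorem mK0_eq : mK0 = msk 2490 10 248 := by
  delta mK0
  exact Eq.refl (msk 2490 10 248)

theorem mK_eq : mK = Nat.shiftLeft mK0 2480 := by
  delta mK
  exact Eq.refl (Nat.shiftLeft mK0 2480)

/-- Reduce the 248 digits modulo three. -/
def vred (x : ℕ) : ℕ :=
  Nat.sub x (Nat.mul (Nat.add
    (Nat.land (Nat.shiftRight (Nat.mul (Nat.land x mE) 683) 11) mQ)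
    (Nat.shiftLeft (Nat.land (Nat.shiftRight
      (Nat.mul (Nat.land (Nat.shiftRight x 10) mE) 683) 11) mQ) 10)) 3)

/-- Force the value of `x`; the low bits of the stored number depend on all digits of `x`. -/
def sf {α : Type} (x : ℕ) (k : ℕ → α) : α :=
  frc (Nat.add (Nat.shiftLeft x 64) (Nat.mod x 2305843009213693951)) fun y =>
    k (Nat.shiftRight y 64)

@[simp] theorem sf_eq {α : Type} (x : ℕ) (k : ℕ → α) : sf x k = k x := by
  rw [sf, frc_eq]
  refine congrArg k ?_
  show (x <<< 64 + x % 2305843009213693951) >>> 64 = x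
  have := Nat.mod_lt x (show 0 < 2305843009213693951 by norm_num)
  rw [Nat.shiftLeft_eq, Nat.shiftRight_eq_div_pow]
  omega

/-- Matrix times vector; the matrix is shifted by one digit. -/
def ap (a v : ℕ) : ℕ := sf (Nat.mod (Nat.land (Nat.mul a v) mK) mD) vred

/-- Cyclic shift by `8 * k` digits. -/
def rot (k v : ℕ) : ℕ := Nat.mod (Nat.shiftLeft v (Nat.mul 80 k)) mD

/-- Change the sign of the digits selected by `m`. -/
def sgm (m v : ℕ) : ℕ := sf (Nat.add v (Nat.land v m)) vred

/-- The matrix with rows `f j`. -/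
def rows (f : ℕ → ℕ) : ℕ :=
  Nat.rec (motive := fun _ => ℕ → ℕ) (fun a => a)
    (fun j ih a => frc (Nat.add (Nat.shiftLeft a 2490) (f j)) ih) 248 0

def dg (y : V) (k : ℕ) : ℕ := if h : k < 248 then (y ⟨k, h⟩).val else 0

theorem dg_lt (y : V) (k : ℕ) : dg y k < 3 := enc_lt ok0 y k

theorem en_eq (y : V) : en y = pk 10 (dg y) 248 := rfl

theorem en_inj : Function.Injective en := enc_inj ok0

theorem pk_en {c : ℕ → ℕ} {y : V} (h : ∀ i : Fin 248, (c i : ZMod 3) = y i) :
    pk 10 (fun u => c u % 3) 248 = en y := by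
  rw [en_eq]
  exact pk_congr fun u hu => by rw [dg, dif_pos hu, ← h ⟨u, hu⟩, ZMod.val_natCast]

theorem vred_pk {c : ℕ → ℕ} (hc : ∀ u < 248, c u ≤ 992) :
    vred (pk 10 c 248) = pk 10 (fun u => c u % 3) 248 := by
  have b : ∀ u < 2 * 124, c u < 2 ^ 10 := fun u hu => (hc u hu).trans_lt (by norm_num)
  have e : ∀ r < 2, Nat.land (Nat.shiftRight (pk 10 c (2 * 124)) (10 * r)) (msk (10 * 2) 10 124) =
      pk (10 * 2) (fun u => c (2 * u + r)) 124 := fun r hr => by
    rw [land_msk (by omega) (by omega)]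
    exact pk_congr fun u hu => by
      rw [show 10 * r + 10 * 2 * u = 10 * (2 * u + r) by ring]
      exact sl_pk b (by omega)
  have e0 : Nat.land (pk 10 c 248) mE = _ := e 0 two_pos
  have e1 : Nat.land (Nat.shiftRight (pk 10 c 248) 10) mE = _ := e 1 one_lt_two
  have q : ∀ r < 2, Nat.land (Nat.shiftRight (Nat.mul (pk (10 * 2) (fun u => c (2 * u + r)) 124)
      683) 11) mQ = pk (10 * 2) (fun u => c (2 * u + r) / 3) 124 := fun r hr =>
    ok0.quo (W := 10 * 2) (j := 9) (T := 124)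
      (c := fun u => c (2 * u + r)) (fun u hu => hc _ (by omega)) le_rfl (by decide) (.inl le_rfl)
  rw [vred, e0, e1, q 0 two_pos, q 1 one_lt_two, ← pk_sub]
  refine congrArg (fun t => pk 10 c 248 - t * 3) ?_
  show _ + pk _ _ _ <<< 10 = _
  rw [Nat.shiftLeft_eq, pk_mul, pk_add]
  refine .trans (pk_congr fun u _ => ?_)
    ((pk_nest 10 2 two_pos (fun i r => c (2 * i + r) / 3) 124).trans
      (pk_congr fun u _ => by rw [Nat.div_add_mod]))
  simp [pk, sum_range_succ]

theorem land_shift (x m : ℕ) :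
    Nat.land (x * 2 ^ 10) (m * 2 ^ 2480) = Nat.land (x >>> 2470) m * 2 ^ 2480 := by
  refine Nat.eq_of_testBit_eq fun b => ?_
  show (x * 2 ^ 10 &&& m * 2 ^ 2480).testBit b = ((x >>> 2470 &&& m) * 2 ^ 2480).testBit b
  rw [Nat.testBit_land, Nat.testBit_mul_two_pow, Nat.testBit_mul_two_pow, Nat.testBit_mul_two_pow,
    Nat.testBit_land, Nat.testBit_shiftRight]
  by_cases h : 2480 ≤ b
  · rw [show 2470 + (b - 2480) = b - 10 by omega]
    simp [h, show 10 ≤ b by omega]
  · simp [h]

theorem mD_eq : mD = 2 ^ (10 * 248) - 1 := rfl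

theorem mod_mD (x : ℕ) : x * 2 ^ 2480 % mD = x % mD := by
  have h3 : 2 ^ 2480 ≡ 1 [MOD 2 ^ 2480 - 1] :=
    ((Nat.modEq_iff_dvd' (Nat.two_pow_pos _)).2 dvd_rfl).symm
  have h4 := h3.mul_left x
  rwa [mul_one] at h4

theorem ap_aux (a v m : ℕ) :
    Nat.mod (Nat.land (Nat.mul (Nat.shiftLeft a 10) v) (Nat.shiftLeft m 2480)) mD =
      Nat.land (Nat.shiftRight (a * v) 2470) m % mD := by
  have e1 : Nat.mul (Nat.shiftLeft a 10) v = a * v * 2 ^ 10 := by
    rw [mul_right_comm, ← Nat.shiftLeft_eq]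
    rfl
  have e2 : Nat.shiftLeft m 2480 = m * 2 ^ 2480 := Nat.shiftLeft_eq _ _
  rw [e1, e2, land_shift]
  exact mod_mD _

theorem ap_eq {a : ℕ} (ha : Wf P0 a) (y : V) :
    ap (Nat.shiftLeft a 10) (en y) = en (dec P0 a *ᵥ y) := by
  obtain ⟨c, hc, ha⟩ := ha
  replace ha : a = pk 10 c ((248 + 1) * 248) := ha
  have hdec : ∀ i k, dec P0 a i k = (c (248 - 1 - k + (248 + 1) * i) : ℕ) := fun i k => by
    rw [ha]
    exact dec_pk ok0 hc i k
  have hb : ∀ u, ∑ k ∈ range 248, (if k ≤ u ∧ u < (248 + 1) * 248 + k then c (u - k) else 0) *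
      dg y k ≤ 248 * (3 - 1) * (3 - 1) := fun u => sum_bd (p := 3) (n := 248)
    (f := fun k => if k ≤ u ∧ u < (248 + 1) * 248 + k then c (u - k) else 0) (fun k => by
    split_ifs
    exacts [hc _, by omega]) (dg_lt y)
  have e : Nat.land (Nat.shiftRight (a * en y) 2470) mK0 =
      pk (10 * (248 + 1)) (fun i => ∑ k ∈ range 248, c (248 - 1 - k + (248 + 1) * i) * dg y k)
        248 := by
    rw [mK0_eq, land_msk (by omega) (by omega)]
    refine pk_congr fun i hi => ?_
    rw [show 2470 + 2490 * i = 10 * (248 - 1 + (248 + 1) * i) by ring]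
    show sl _ (a * en y) _ = _
    rw [ha, en_eq, pk_conv, sl_pk (fun u _ => (hb u).trans_lt (by norm_num)) (by omega)]
    refine sum_congr rfl fun k hk => ?_
    have hk := mem_range.1 hk
    rw [if_pos (by omega),
      show 248 - 1 + (248 + 1) * i - k = 248 - 1 - k + (248 + 1) * i by omega]
  have hd : ∀ i < 248, ∑ k ∈ range 248, c (248 - 1 - k + (248 + 1) * i) * dg y k ≤ 992 :=
    fun i _ => sum_bd (p := 3) (n := 248) (fun k => hc _) (dg_lt y)
  have e2 : Nat.mod (Nat.land (Nat.mul (Nat.shiftLeft a 10) (en y)) mK) mD =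
      Nat.land (Nat.shiftRight (a * en y) 2470) mK0 % mD := by
    rw [mK_eq]
    exact ap_aux _ _ _
  rw [ap, sf_eq, e2, e, mD_eq, pk_gather (by omega) fun i hi => by have := hd i hi; omega, vred_pk hd]
  refine pk_en fun i => ?_
  rw [mulVec, dotProduct, ← Fin.sum_univ_eq_sum_range
    (fun k => c (248 - 1 - k + (248 + 1) * i) * dg y k)]
  push_cast
  refine sum_congr rfl fun k _ => ?_
  rw [hdec, dg]
  simp

theorem en_lt (y : V) : en y < mD := by
  have h1 : pk 10 (dg y) 248 + pk 10 (fun _ => 1) 248 < 2 ^ (10 * 248) := by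
    rw [pk_add]
    exact pk_lt fun u _ => by have := dg_lt y u; omega
  have h2 : 1 * 2 ^ (10 * 0) ≤ pk 10 (fun _ => 1) 248 :=
    single_le_sum (f := fun u => 1 * 2 ^ (10 * u)) (fun _ _ => Nat.zero_le _)
      (mem_range.2 (by omega))
  rw [en_eq, mD_eq]
  omega

/-- The shift by eight places. -/
def sE : V ≃ₗ[F] V := LinearEquiv.funCongrLeft F F (Equiv.subRight (8 : Fin 248))

theorem sE_apply (y : V) (i : Fin 248) : sE y i = y (i - 8) := rfl

theorem rot_one (y : V) : en y * 2 ^ 80 % mD = en (sE y) := by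
  have e1 : en y = pk 10 (dg y) 240 + pk 10 (fun u => dg y (240 + u)) 8 * 2 ^ (10 * 240) := by
    rw [en_eq, ← pk_split]
  have e2 : en (sE y) = pk 10 (dg (sE y)) 8 + pk 10 (fun u => dg (sE y) (8 + u)) 240 * 2 ^ (10 * 8) := by
    rw [en_eq, ← pk_split]
  have e3 : pk 10 (dg (sE y)) 8 = pk 10 (fun u => dg y (240 + u)) 8 := pk_congr fun u hu => by
    rw [dg, dg, dif_pos (by omega), dif_pos (by omega), sE_apply]
    refine congrArg (fun i => (y i).val) (Fin.ext ?_)
    rw [Fin.sub_def]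
    show (248 - 8 + u) % 248 = 240 + u
    omega
  have e4 : pk 10 (fun u => dg (sE y) (8 + u)) 240 = pk 10 (dg y) 240 := pk_congr fun u hu => by
    rw [dg, dg, dif_pos (by omega), dif_pos (by omega), sE_apply]
    refine congrArg (fun i => (y i).val) (Fin.ext ?_)
    rw [Fin.sub_def]
    show (248 - 8 + (8 + u)) % 248 = u
    omega
  rw [← Nat.mod_eq_of_lt (en_lt (sE y)), e2, e3, e4, e1, add_mul, mul_assoc, ← pow_add,
    Nat.add_mod, show 10 * 240 + 80 = 2480 from rfl, mod_mD, ← Nat.add_mod, add_comm]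

theorem rot_eq (k : ℕ) (y : V) : rot k (en y) = en ((sE ^ k) y) := by
  show (en y <<< (80 * k)) % mD = _
  rw [Nat.shiftLeft_eq]
  induction k with
  | zero => simpa using Nat.mod_eq_of_lt (en_lt y)
  | succ k ih =>
    rw [pow_succ', LinearEquiv.mul_apply, ← rot_one, ← ih, Nat.mod_mul_mod, mul_assoc, ← pow_add,
      Nat.mul_succ]

/-- The mask with full digits at the places where `b` holds. -/
def mkM (b : ℕ → Bool) : ℕ := pk 10 (fun u => if b u then 1023 else 0) 248

theorem land_mkM (b : ℕ → Bool) (y : V) :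
    Nat.land (en y) (mkM b) = pk 10 (fun u => if b u then dg y u else 0) 248 := by
  refine Nat.eq_of_testBit_eq fun r => ?_
  have hr := Nat.mod_lt r (show 0 < 10 by omega)
  show (en y &&& _).testBit r = _
  rw [← Nat.div_add_mod r 10, Nat.testBit_land, en_eq, mkM,
    testBit_pk (by omega) (fun u _ => (dg_lt y u).trans (by norm_num)) _ _ hr,
    testBit_pk (by omega) (fun u _ => by split_ifs <;> norm_num) _ _ hr,
    testBit_pk (by omega) (fun u _ => by have := dg_lt y u; split_ifs <;> omega) _ _ hr]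
  have h1 : Nat.testBit 1023 (r % 10) = true := by
    rw [show 1023 = 2 ^ 10 - 1 from rfl, Nat.testBit_two_pow_sub_one]
    simpa using hr
  cases b (r / 10) <;> cases decide (r / 10 < 248) <;> simp [h1]

theorem sgm_eq (b : ℕ → Bool) (y : V) :
    sgm (mkM b) (en y) = en fun i => if b i then -y i else y i := by
  rw [sgm, sf_eq, land_mkM]
  show vred (pk 10 (dg y) 248 + _) = _
  rw [pk_add, vred_pk fun u _ => by have := dg_lt y u; split_ifs <;> omega]
  refine pk_en fun i => ?_
  have h : (dg y i : ZMod 3) = y i := by simp [dg]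
  have h3 : ∀ x : ZMod 3, x + x = -x := by decide
  split_ifs <;> simp [h, h3]

theorem supp_of {b : ℕ → Bool} {y : V} (h : Nat.land (en y) (mkM b) = 0) (i : Fin 248)
    (hi : b i = true) : y i = 0 := by
  rw [land_mkM] at h
  have := sl_pk (w := 10) (T := 248) (c := fun u => if b u then dg y u else 0)
    (fun u _ => by have := dg_lt y u; split_ifs <;> omega) i.2
  rw [h, if_pos hi, dg, dif_pos i.2] at this
  exact (ZMod.val_eq_zero _).1 (this.symm.trans (by simp [sl]))

theorem rows_ok {f : ℕ → ℕ} {y : Fin 248 → V} (h : ∀ j : Fin 248, f j = en (y j)) :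
    Wf P0 (rows f) ∧ dec P0 (rows f) = of fun j c => y j c.rev := by
  have e : ∀ n a, Nat.rec (motive := fun _ => ℕ → ℕ) (fun a => a)
      (fun j ih a => frc (Nat.add (Nat.shiftLeft a 2490) (f j)) ih) n a =
      pk 2490 f n + a * 2 ^ (2490 * n) := fun n => by
    induction n with
    | zero => simp [pk]
    | succ n ih =>
      intro a
      show frc (a <<< 2490 + f n) _ = _
      rw [frc_eq, ih, pk_succ, Nat.shiftLeft_eq]
      ring
  set c : ℕ → ℕ → ℕ := fun j k => if h : j < 248 then dg (y ⟨j, h⟩) k else 0 with hc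
  have hl : ∀ j k, c j k < 3 := fun j k => by
    simp only [hc]
    split_ifs
    exacts [dg_lt _ _, by omega]
  have e2 : rows f = pk 10 (fun u => c (u / 249) (u % 249)) (249 * 248) := by
    rw [rows, e, zero_mul, add_zero, ← pk_nest 10 249 (by omega)]
    refine pk_congr fun j hj => ?_
    rw [h ⟨j, hj⟩, pk_succ, en_eq]
    simp only [hc, dif_pos hj]
    rw [show dg (y ⟨j, hj⟩) 248 = 0 from dif_neg (lt_irrefl _), zero_mul, add_zero]
  rw [e2]
  refine ⟨⟨_, fun u => hl _ _, rfl⟩, ext fun j k => ?_⟩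
  have hk := k.2
  rw [show dec P0 (pk 10 _ (249 * 248)) j k = _ from dec_pk ok0 (fun u => hl _ _) j k,
    show (248 - 1 - k + (248 + 1) * j : ℕ) / 249 = j by omega,
    show (248 - 1 - k + (248 + 1) * j : ℕ) % 249 = k.rev by rw [Fin.val_rev]; omega]
  simp only [hc, dif_pos j.2, dg, dif_pos k.rev.2, of_apply, ZMod.natCast_val, ZMod.cast_id', id]

theorem bas_en (k : Fin 248) : bas P0 k = en (Pi.single k 1) := bas_eq ok0 k

theorem add_en (x y : V) : vred (Nat.add (en x) (en y)) = en (x + y) := by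
  show vred (pk 10 (dg x) 248 + pk 10 (dg y) 248) = _
  rw [pk_add, vred_pk fun u _ => by have := dg_lt x u; have := dg_lt y u; omega]
  exact pk_en fun i => by simp [dg]

end Pool.Agent.Lib.MP_cad414_al.Cg.Th
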