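import Pool.Agent.Lib.MP_cad414_al.Cg.ThD

/-! Kernel computations for the Thompson group. -/

namespace Pool.Agent.Lib.MP_cad414_al.Cg.Th

theorem kAut0 : cAut 0 = true := by decide +kernel

theorem kAut1 : cAut 1 = true := by decide +kernel

theorem kAut2 : cAut 2 = true := by decide +kernel

theorem kAut3 : cAut 3 = true := by decide +kernel

end Pool.Agent.Lib.MP_cad414_al.Cg.Th
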