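import Pool.Agent.Lib.MP_cad414_al.Cg.ThD

/-! Kernel computations for the Thompson group. -/

namespace Pool.Agent.Lib.MP_cad414_al.Cg.Th

theorem kAut4 : cAut 4 = true := by decide +kernel

theorem kAut5 : cAut 5 = true := by decide +kernel

theorem kAut6 : cAut 6 = true := by decide +kernel

theorem kAut7 : cAut 7 = true := by decide +kernel

end Pool.Agent.Lib.MP_cad414_al.Cg.Th
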