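import Pool.Agent.Lib.MP_cad414_al.Cg.ThE
import Pool.Agent.Lib.MP_cad414_al.Cg.ThC2
import Pool.Agent.Lib.MP_cad414_al.Cg.ThC3

/-! An invariant bilinear product; identities may be checked on two vectors. -/

namespace Pool.Agent.Lib.MP_cad414_al.Cg.Th

open Finset Matrix

set_option maxHeartbeats 400000

noncomputable section

/-- Reversal of the coordinates. -/
def Jl : V →ₗ[F] V := LinearMap.funLeft F F Fin.rev

def Xi (i : ℕ) : V →ₗ[F] V := Jl ∘ₗ mulVecLin (dec P0 (YM i))

theorem Xi_apply (i : ℕ) (x : V) (c : Fin 248) : Xi i x c = (dec P0 (YM i) *ᵥ x) c.rev := by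
  rw [Xi, LinearMap.comp_apply, mulVecLin_apply, Jl, LinearMap.funLeft_apply]

def T (j : ℕ) (x : V) : V := (sE ^ (j / 8)) (Xi (j % 8) ((sE ^ (31 - j / 8)) x))

def Fm (x : V) : Mat := of fun j c => T j x c

/-- The invariant product. -/
def br (y x : V) : V := (Fm x)ᵀ *ᵥ y

theorem br_single (j : Fin 248) (x : V) : br (Pi.single j 1) x = T j x := by
  rw [br, mulVec_single_one]
  rfl

theorem Fm_add (x y : V) : Fm (x + y) = Fm x + Fm y := by
  ext j c
  simp [Fm, T]

theorem Fm_smul (c : F) (y : V) : Fm (c • y) = c • Fm y := by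
  ext j c
  simp [Fm, T]

def Aut (g : Γ) : Prop := ∀ y x, g (br y x) = br (g y) (g x)

theorem Aut.mul {g h : Γ} (hg : Aut g) (hh : Aut h) : Aut (g * h) := fun y x => by
  rw [LinearEquiv.mul_apply, hh, hg]
  rfl

theorem aut_ev {w : W} (h : ∀ l ∈ w, Aut (el l)) : Aut (ev w) := by
  induction w with
  | nil => exact fun _ _ => rfl
  | cons l w ih =>
    rw [ev_cons]
    exact (h l List.mem_cons_self).mul (ih fun l hl => h l (List.mem_cons_of_mem _ hl))

theorem aut_of {g : Γ} (h : ∀ (j : Fin 248) x, g (T j x) = br (g (Pi.single j 1)) (g x)) :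
    Aut g := fun y x => by
  have : (g : V →ₗ[F] V) ∘ₗ mulVecLin (Fm x)ᵀ = mulVecLin (Fm (g x))ᵀ ∘ₗ (g : V →ₗ[F] V) :=
    (Pi.basisFun F (Fin 248)).ext fun j => by
      rw [Pi.basisFun_apply]
      exact (congrArg g (br_single j x)).trans (h j x)
  exact LinearMap.congr_fun this y

theorem pow_app (a b : ℕ) (x : V) : (sE ^ a) ((sE ^ b) x) = (sE ^ (a + b)) x := by
  rw [pow_add, LinearEquiv.mul_apply]

theorem aut_s : Aut sE := aut_of fun j x => by
  have e : sE (Pi.single j 1) = Pi.single (j + 8) 1 := by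
    ext i
    simp only [sE_apply, Pi.single_apply, sub_eq_iff_eq_add]
  have hj := j.2
  have e2 : ((j + 8 : Fin 248) : ℕ) = (j + 8) % 248 := Fin.val_add _ _
  have e3 : ∀ y, sE y = (sE ^ 1) y := fun y => by rw [pow_one]
  rw [e, br_single, T, T, e2, e3, e3 x, pow_app, pow_app,
    show (j + 8 : ℕ) % 248 % 8 = j % 8 by omega, ← sE_mod (1 + _), ← sE_mod (_ + 1),
    ← sE_mod (31 - j / 8), show (j + 8 : ℕ) % 248 / 8 = (1 + j / 8) % 31 by omega,
    show (31 - (1 + (j : ℕ) / 8) % 31 + 1) % 31 = (31 - j / 8) % 31 by omega]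

theorem aut_pow (k : ℕ) : Aut (sE ^ k) := by
  induction k with
  | zero => exact fun _ _ => rfl
  | succ k ih => rw [pow_succ]; exact ih.mul aut_s

theorem sgn_tau : ∀ m < 32, ∀ k < 31, d5 tauN k < 31 →
    eb m (30 - d5 tauN k) = xor (eb m 0) (eb m k) := by decide +kernel

theorem sgE_single (b : Fin 248 → Bool) (c : Fin 248) :
    sgE b (Pi.single c 1) = (if b c then -1 else 1 : F) • (Pi.single c 1 : V) := by
  ext i
  by_cases h : i = c
  · subst h
    rw [sgE_apply]
    cases b i <;> simp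
  · simp [sgE_apply, h]

theorem dA_Xi {m i : ℕ} (hm : m ≤ 31) (hi : i < 8) (x : V) :
    dA m (Xi i x) = (if eb m 0 then -1 else 1 : F) • Xi i (dA m x) := by
  have : (dA m : V →ₗ[F] V) ∘ₗ Xi i =
      (if eb m 0 then -1 else 1 : F) • (Xi i ∘ₗ (dA m : V →ₗ[F] V)) :=
    (Pi.basisFun F (Fin 248)).ext fun c => by
      rw [Pi.basisFun_apply, LinearMap.comp_apply, LinearMap.smul_apply, LinearMap.comp_apply,
        LinearEquiv.coe_coe]
      have hc := c.2
      have h := allN_iff (allN_iff kSup i hi) (c / 8) (by omega)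
      rw [frc_eq] at h
      have h2 := Nat.eq_of_beq_eq_true (allN_iff h (c % 8) (by omega))
      rw [show Nat.add (Nat.mul 8 (c / 8)) (c % 8) = c from Nat.div_add_mod _ _, bas_en, YS,
        ap_eq (wfs.2.2.2.1 i hi)] at h2
      rw [dA, sgE_single, map_smul]
      ext p
      have hp := p.2
      rw [sgE_apply]
      by_cases e : (p.rev : ℕ) / 8 = d5 tauN (c / 8)
      · rw [Fin.val_rev] at e
        have := sgn_tau m (by omega) (c / 8) (by omega) (by omega)
        rw [show 30 - d5 tauN (c / 8) = p / 8 by omega] at this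
        rw [this]
        cases eb m 0 <;> cases eb m (c / 8) <;> simp
      · have : Xi i (Pi.single c 1) p = 0 :=
          (Xi_apply _ _ _).trans (supp_of h2 p.rev (by
            rw [Bool.not_eq_true', ← Bool.not_eq_true, Nat.beq_eq]; exact e))
        rw [Pi.smul_apply, Pi.smul_apply, this]
        simp
  exact LinearMap.congr_fun this x

theorem aut_a : Aut aE := aut_of fun j x => by
  have hj := j.2
  have e := dA_eq (m := 31 - j / 8) (by omega)
  rw [show 31 - (31 - (j : ℕ) / 8) = j / 8 by omega] at e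
  have e1 : ∀ y, aE ((sE ^ (j / 8 : ℕ)) y) = (sE ^ (j / 8 : ℕ)) (dA (31 - j / 8) y) := fun y => by
    rw [← e, sE_inv (by omega), ← LinearEquiv.mul_apply, ← LinearEquiv.mul_apply]
    congr 1
    group
  have e2 : ∀ y, dA (31 - j / 8) ((sE ^ (31 - j / 8 : ℕ)) y) = (sE ^ (31 - j / 8 : ℕ)) (aE y) :=
    fun y => by
    rw [← e, sE_inv (by omega), ← LinearEquiv.mul_apply, ← LinearEquiv.mul_apply]
    congr 1
    group
  have e3 : eb (31 - j / 8) 0 = b0 j := by
    rw [eb, b0]
    congr 1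
    omega
  rw [T, e1, dA_Xi (by omega) (Nat.mod_lt _ (by omega)), map_smul, e2, aE, sgE_single, br,
    mulVec_smul, ← br, br_single, e3]
  rfl

/-- The vectors for which `g` respects the product. -/
def PP (g : Γ) : Submodule F V where
  carrier := {x | ∀ y, g (br y x) = br (g y) (g x)}
  zero_mem' := fun y => by
    have : Fm 0 = 0 := by simpa using Fm_smul 0 0
    simp [br, this]
  add_mem' := fun {a b} ha hb y => by
    have h1 := ha y
    have h2 := hb y
    simp only [br, map_add, Fm_add, transpose_add, add_mulVec] at *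
    rw [h1, h2]
  smul_mem' := fun c a ha y => by
    have h1 := ha y
    simp only [br, map_smul, Fm_smul, transpose_smul, smul_mulVec] at *
    rw [h1]

theorem PP_inv {g h h' : Γ} (hh : Aut h) (hh' : Aut h') (e : g * h = h' * g) {x : V}
    (hx : x ∈ PP g) : h x ∈ PP g := fun y => by
  obtain ⟨y, rfl⟩ := h.surjective y
  have e' : ∀ v, g (h v) = h' (g v) := fun v => congrArg (fun f : Γ => f v) e
  rw [← hh, e', e', e', hx, hh']

theorem Fx_ok (x : V) : Wf P0 (Fx (en x)) ∧ dec P0 (Fx (en x)) = Fm x := by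
  have := rows_ok (f := fun j => frc (Nat.sub 31 (Nat.div j 8)) fun k => frc (Nat.mod j 8) fun i =>
      rot k (ap (YS i) (rot k (en x))))
    (y := fun j => (sE ^ (31 - j / 8 : ℕ)) (dec P0 (YM (j % 8)) *ᵥ (sE ^ (31 - j / 8 : ℕ)) x))
    fun j => by
      rw [frc_eq, frc_eq, rot_eq, YS, ap_eq (wfs.2.2.2.1 (Nat.mod j 8) (Nat.mod_lt _ (by omega))),
        rot_eq]
      exact congrArg en rfl
  refine ⟨this.1, this.2.trans ?_⟩
  ext j c
  have hj := j.2
  have hc := c.2
  rw [of_apply, sE_pow, Fm, of_apply, T, sE_pow]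
  rw [Xi_apply]
  refine congrArg _ (Fin.ext ?_)
  rw [val_sub _ (by omega), Fin.val_rev, Fin.val_rev, val_sub _ (by omega)]
  omega

theorem PP_base {a : ℕ} (ha : Wf P0 a) (hi : cInv a = true) {x : V}
    (h : cA1 a (Nat.shiftLeft a 10) (en x) (Fx (en x)) = true) :
    x ∈ PP (invE (dec P0 a) (inv_ok ha hi).1) := fun y => by
  rw [cA1, frc_eq, ap_eq ha] at h
  have h2 := congrArg (fun t => (dec P0 t)ᵀ) (Nat.eq_of_beq_eq_true h)
  simp only [(mul_ok ok0 (Fx_ok _).1 ha).2, (mul_ok ok0 ha (Fx_ok _).1).2, (Fx_ok _).2,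
    transpose_mul, (inv_ok ha hi).2] at h2
  show dec P0 a *ᵥ (_ *ᵥ y) = (Fm (dec P0 a *ᵥ x))ᵀ *ᵥ (dec P0 a *ᵥ y)
  rw [mulVec_mulVec, mulVec_mulVec, h2]

theorem bs_sep : ∀ k < 31, ∀ k' < 31, (bs.all fun m => eb m k' == eb m k) = true → k' = k := by
  decide +kernel

theorem bs_lt : ∀ m ∈ bs, m < 31 := by decide +kernel

theorem span_top {P : Submodule F V} (h1 : ∀ m ∈ bs, ∀ x ∈ P, dA m x ∈ P)
    (h2 : ∀ r < 8, xv r ∈ P) (x : V) : x ∈ P := by
  have key : ∀ (L : List ℕ) (k : ℕ) (x : V), (∀ m ∈ L, m ∈ bs) → x ∈ P →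
      (fun i : Fin 248 => if L.all fun m => eb m (i / 8) == eb m k then x i else 0) ∈ P := by
    intro L k x hL hx
    induction L with
    | nil => simpa using hx
    | cons m L ih =>
      have h3 := ih fun m hm => hL m (List.mem_cons_of_mem _ hm)
      have h4 := P.neg_mem (P.add_mem h3 (P.smul_mem (if eb m k then -1 else 1)
        (h1 m (hL m List.mem_cons_self) _ h3)))
      convert h4 using 1
      ext i
      have h5 : ∀ (a b t : Bool) (u : F), (if (a == b && t) then u else 0) =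
          -((if t then u else 0) + (if b then -1 else 1 : F) •
            if a then -(if t then u else 0) else if t then u else 0) := by decide
      rw [List.all_cons, dA, Pi.neg_apply, Pi.add_apply, Pi.smul_apply, sgE_apply]
      exact h5 _ _ _ _
  rw [← (Pi.basisFun F (Fin 248)).sum_repr x]
  refine P.sum_mem fun p _ => P.smul_mem _ ?_
  have hp := p.2
  convert key bs (p / 8) _ (fun _ h => h) (h2 (p % 8) (by omega)) using 1
  ext i
  have hi := i.2
  rw [Pi.basisFun_apply, Pi.single_apply, xv]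
  by_cases e : i = p
  · simp [e]
  · rw [if_neg e]
    split_ifs with e1 e2
    · exact absurd (Fin.ext (by have := bs_sep _ (by omega) _ (by omega) e1; omega)) e
    · rfl
    · rfl

theorem kAut (r : ℕ) (hr : r < 8) : cAut r = true := by
  interval_cases r
  exacts [kAut0, kAut1, kAut2, kAut3, kAut4, kAut5, kAut6, kAut7]

theorem aut_ge {l : ℕ} (h : 2 ≤ l) : Aut (el l) := by
  obtain ⟨k, rfl⟩ := Nat.exists_eq_add_of_le' h
  rcases k with _ | k
  exacts [aut_a, aut_pow k]

theorem aut_dA {m : ℕ} (hm : m < 31) : Aut (dA m) := by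
  rw [← dA_eq hm.le]
  exact ((aut_pow _).mul aut_a).mul (aut_pow _)

theorem pX_lt : ∀ m < 31, d5 pX m < 31 := by decide +kernel

theorem aut_x : Aut xE := fun y x => by
  refine span_top (P := PP xE) (fun m hm x hx => ?_) (fun r hr => ?_) x y
  · have h := fchk_eq (allL_iff kCx m hm)
    have h1 := bs_lt m hm
    rw [ev_cat, ev_cat, ev_aw h1, ev_aw (pX_lt m h1), ev_one] at h
    exact PP_inv (aut_dA h1) (aut_dA (pX_lt m h1)) h hx
  · have h := kAut r hr
    rw [cAut, frc_eq, frc_eq, Bool.and_eq_true, XS] at h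
    exact PP_base wfs.1 kInvX h.1

theorem noz_iff {w : W} (h : noz w = true) : ∀ l ∈ w, l ≠ 1 := fun l hl e => by
  have := allL_iff h l hl
  rw [e] at this
  cases this

theorem aut_noz {w : W} (h : noz w = true) : Aut (ev w) := aut_ev fun l hl => by
  have := noz_iff h l hl
  rcases l with _ | l
  exacts [aut_x, aut_ge (by omega)]

theorem aut_z : Aut zE := fun y x => by
  refine span_top (P := PP zE) (fun m hm x hx => ?_) (fun r hr => ?_) x y
  · obtain ⟨i, hi, rfl⟩ := mem_nth 0 hm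
    have h : cCz i = true := by
      replace hi : i < 5 := hi
      interval_cases i
      exacts [kCz0, kCz1, kCz2, kCz3, kCz4]
    rw [cCz, Bool.and_eq_true] at h
    have h2 := fchk_eq h.2
    rw [ev_cat, ev_cat, ev_aw (bs_lt _ hm), ev_one] at h2
    exact PP_inv (aut_dA (bs_lt _ hm)) (aut_noz h.1) h2 hx
  · have h := kAut r hr
    rw [cAut, frc_eq, frc_eq, Bool.and_eq_true, ZS] at h
    exact PP_base wfs.2.1 kInvZ h.2

theorem aut_all (w : W) : Aut (ev w) := aut_ev fun l _ => by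
  rcases l with _ | _ | l
  exacts [aut_x, aut_z, aut_ge (by omega)]

def v1 : V := Pi.single 0 1
def v2 : V := dv 10 V2

theorem en_v1 : 1 = en v1 := (bas_en 0)
theorem en_v2 : V2 = en v2 := wfs.2.2.2.2.2

theorem chn_succ (k : ℕ) : chn (k + 1) = Bool.rec (motive := fun _ => ℕ)
    (ap NS (ap JS (chn k))) (ap JS (ap (YS 0) (chn k))) (Nat.testBit opsN k) := rfl

theorem step_R (w : V) : ap NS (ap JS (en w)) = en (br w v2) := by
  have hN := rows_ok (f := fun c => ap (Nat.shiftLeft (Fx (en v2)) 10) (bas P0 c))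
    (y := fun c => Fm v2 *ᵥ Pi.single c 1) fun c => by rw [bas_en, ap_eq (Fx_ok _).1, (Fx_ok _).2]
  rw [JS, ap_eq JM_ok.1, NS, frc_eq, en_v2, ap_eq hN.1, hN.2, JM_ok.2]
  refine congrArg en (funext fun c => ?_)
  simp only [br, mulVec_single_one]
  rw [mulVec, mulVec, dotProduct, dotProduct, ← Equiv.sum_comp Fin.revPerm]
  exact sum_congr rfl fun j _ => by simp [Jm_mulVec]

theorem step_T (w : V) : ap JS (ap (YS 0) (en w)) = en (br v1 w) := by
  rw [YS, ap_eq (wfs.2.2.2.1 0 (by omega)), JS, ap_eq JM_ok.1, JM_ok.2, v1, br_single]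
  refine congrArg en (funext fun c => ?_)
  rw [Jm_mulVec, T, show ((0 : Fin 248) : ℕ) / 8 = 0 from rfl, Nat.sub_zero, sE_31, pow_zero,
    LinearEquiv.coe_one, id, id, Xi_apply, show ((0 : Fin 248) : ℕ) % 8 = 0 from rfl]

theorem span_chn {w : ℕ → V} (hw : ∀ k, chn k = en (w k)) (p : Fin 248) :
    (Pi.single p 1 : V) = ∑ j : Fin 248, dec P0 CM p j • w (247 - j) := by
  have hR := rows_ok (f := fun j => frc (Nat.sub 247 j) chn) (y := fun j => w (247 - j))
    fun j => by rw [frc_eq]; exact hw _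
  have h2 := kSep
  rw [cSep] at h2
  replace h2 := congrArg (dec P0) (Nat.eq_of_beq_eq_true h2)
  rw [(mul_ok ok0 wfs.2.2.1 hR.1).2, hR.2, JM_ok.2] at h2
  ext c
  have := congrFun (congrFun h2 p) c.rev
  rw [mul_apply, Jm, of_apply, Fin.rev_rev] at this
  rw [← this, Finset.sum_apply]
  simp only [of_apply, Fin.rev_rev, Pi.smul_apply, smul_eq_mul]

theorem sep {g h : Γ} (hg : Aut g) (hh : Aut h) (e1 : g v1 = h v1) (e2 : g v2 = h v2) : g = h := by
  have cl : ∀ x y, g x = h x → g y = h y → g (br x y) = h (br x y) := fun x y hx hy => by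
    rw [hg, hh, hx, hy]
  have key : ∀ k, ∃ w, chn k = en w ∧ g w = h w := fun k => by
    induction k with
    | zero => exact ⟨v1, en_v1, e1⟩
    | succ k ih =>
      obtain ⟨w, hw, e⟩ := ih
      rw [chn_succ, hw, step_R, step_T]
      cases Nat.testBit opsN k with
      | false => exact ⟨_, rfl, cl _ _ e e2⟩
      | true => exact ⟨_, rfl, cl _ _ e1 e⟩
  choose w hw hw' using key
  refine LinearEquiv.toLinearMap_injective ((Pi.basisFun F (Fin 248)).ext fun p => ?_)
  rw [Pi.basisFun_apply, span_chn hw p, map_sum, map_sum]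
  exact sum_congr rfl fun j _ => by
    rw [map_smul, map_smul, LinearEquiv.coe_coe, LinearEquiv.coe_coe, hw']

theorem chk_eq {a b : W} (h : chk a b = true) : ev a = ev b := by
  rw [chk, Bool.or_eq_true, Bool.and_eq_true] at h
  rcases h with h | h
  · rw [leq_eq h]
  · have h1 := Nat.eq_of_beq_eq_true h.1
    have h2 := Nat.eq_of_beq_eq_true h.2
    rw [en_v1, apw_eq, apw_eq] at h1
    rw [en_v2, apw_eq, apw_eq] at h2
    exact sep (aut_all a) (aut_all b) (en_inj h1) (en_inj h2)

end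

end Pool.Agent.Lib.MP_cad414_al.Cg.Th
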