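import Pool.Agent.Lib.MP_cad414_al.Cg.ThD

/-! Kernel computations for the Thompson group. -/

namespace Pool.Agent.Lib.MP_cad414_al.Cg.Th

theorem kWf : cWf = true := by decide +kernel

theorem kInvX : cInv XM = true := by decide +kernel

theorem kInvZ : cInv ZM = true := by decide +kernel

theorem kSup : allN 8 cSup = true := by decide +kernel

theorem kCx : cCx = true := by decide +kernel

theorem kCz0 : cCz 0 = true := by decide +kernel

theorem kCz1 : cCz 1 = true := by decide +kernel

theorem kCz2 : cCz 2 = true := by decide +kernel

theorem kCz3 : cCz 3 = true := by decide +kernel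

theorem kCz4 : cCz 4 = true := by decide +kernel

theorem kSep : cSep CM = true := by decide +kernel

end Pool.Agent.Lib.MP_cad414_al.Cg.Th
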