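import Pool.Agent.Lib.MP_cad414_al.Cg.ThD

/-! Kernel computations for the Thompson group. -/

namespace Pool.Agent.Lib.MP_cad414_al.Cg.Th

theorem kT0 : tab g0 t0T g1 t0R = true := by decide +kernel

theorem kT1 : tab g1 t1T g2 t1R = true := by decide +kernel

theorem kT2 : tab g2 t2T g3 t2R = true := by decide +kernel

theorem kT3 : tab g3 t3T g4 t3R = true := by decide +kernel

theorem kT4 : tab g4 t4T g5 t4R = true := by decide +kernel

theorem kT5 : tab g5 t5T g6 t5R = true := by decide +kernel

theorem kT6 : tab g6 t6T [] t6R = true := by decide +kernel

theorem kD : cD = true := by decide +kernel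

theorem kC : cC = true := by decide +kernel

theorem kE0 : (allN 4 fun j => cE (0 + j)) = true := by decide +kernel

theorem kE1 : (allN 4 fun j => cE (4 + j)) = true := by decide +kernel

theorem kE2 : (allN 4 fun j => cE (8 + j)) = true := by decide +kernel

theorem kS : allN 11 cS = true := by decide +kernel

theorem kP3 : pch 3 three = true := by decide +kernel

theorem kP5 : pch 5 five = true := by decide +kernel

theorem kP7 : pch 7 seven = true := by decide +kernel

theorem kP13 : pch 13 thirteen = true := by decide +kernel

theorem kF : cF = true := by decide +kernel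

end Pool.Agent.Lib.MP_cad414_al.Cg.Th
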