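import Pool.Agent.Lib.MP_cad414_al.Cg.ThC1

/-! The generators of the Thompson group as linear automorphisms, and words in them. -/

namespace Pool.Agent.Lib.MP_cad414_al.Cg.Th

open Finset Matrix

set_option maxHeartbeats 400000

noncomputable section

theorem allN_iff {n : ℕ} {f : ℕ → Bool} (h : allN n f = true) : ∀ i < n, f i = true := by
  induction n with
  | zero => intro i hi; omega
  | succ n ih =>
    have e : allN (n + 1) f = Bool.rec (motive := fun _ => Bool) false (allN n f) (f n) := rfl
    rw [e] at h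
    cases hf : f n with
    | false => rw [hf] at h; cases h
    | true =>
      rw [hf] at h
      intro i hi
      rcases Nat.lt_succ_iff_lt_or_eq.1 hi with h1 | rfl
      exacts [ih h i h1, hf]

theorem allL_iff {α : Type} {l : List α} {f : α → Bool} (h : allL l f = true) :
    ∀ a ∈ l, f a = true := by
  induction l with
  | nil => intro a ha; cases ha
  | cons b l ih =>
    have e : allL (b :: l) f = Bool.rec (motive := fun _ => Bool) false (allL l f) (f b) := rfl
    rw [e] at h
    cases hf : f b with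
    | false => rw [hf] at h; cases h
    | true =>
      rw [hf] at h
      intro a ha
      rcases List.mem_cons.1 ha with rfl | h1
      exacts [hf, ih h a h1]

theorem nth_mem {α : Type} (d : α) (l : List α) (i : ℕ) : nth d l i = d ∨ nth d l i ∈ l := by
  induction l generalizing i with
  | nil => exact .inl rfl
  | cons a l ih =>
    cases i with
    | zero => exact .inr List.mem_cons_self
    | succ i => exact (ih i).imp id (List.mem_cons_of_mem _)

theorem mem_nth {α : Type} (d : α) {l : List α} {a : α} (h : a ∈ l) :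
    ∃ i < l.length, nth d l i = a := by
  induction l with
  | nil => cases h
  | cons b l ih =>
    rcases List.mem_cons.1 h with rfl | h
    · exact ⟨0, by simp, rfl⟩
    · obtain ⟨i, hi, e⟩ := ih h
      exact ⟨i + 1, by simpa using hi, e⟩

theorem leq_eq {a b : W} (h : leq a b = true) : a = b := by
  induction a generalizing b with
  | nil => cases b with
    | nil => rfl
    | cons _ _ => cases h
  | cons x a ih => cases b with
    | nil => cases h
    | cons y b =>
      have e : leq (x :: a) (y :: b) =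
        Bool.rec (motive := fun _ => Bool) false (leq a b) (Nat.beq x y) := rfl
      rw [e] at h
      cases hf : Nat.beq x y with
      | false => rw [hf] at h; cases h
      | true =>
        rw [hf] at h
        rw [Nat.eq_of_beq_eq_true hf, ih h]

theorem cat_eq (a b : W) : cat a b = a ++ b := by
  induction a with
  | nil => rfl
  | cons x a ih => exact congrArg (x :: ·) ih

theorem rv_eq (a b : W) : rv a b = a.reverse ++ b := by
  induction a generalizing b with
  | nil => rfl
  | cons x a ih => exact (ih (x :: b)).trans (by simp)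

abbrev Γ := V ≃ₗ[F] V

instance finΓ : Finite Γ := Finite.of_injective (fun g : Γ => (g : V → V)) DFunLike.coe_injective

theorem wfs : Wf P0 XM ∧ Wf P0 ZM ∧ Wf P0 CM ∧ (∀ i < 8, Wf P0 (YM i)) ∧ M0 = mkM b0 ∧
    V2 = en (dv 10 V2) := by
  have h := kWf
  simp only [cWf, Bool.and_eq_true] at h
  exact ⟨wf_of ok0 h.1.1.1.1.1, wf_of ok0 h.1.1.1.1.2, wf_of ok0 h.1.1.1.2,
    fun i hi => wf_of ok0 (allN_iff h.1.1.2 i hi), Nat.eq_of_beq_eq_true h.1.2,
    Nat.eq_of_beq_eq_true h.2⟩

/-- The matrix of the reversal of the coordinates. -/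
def Jm : Mat := of fun j c => (Pi.single j 1 : V) c.rev

theorem JM_ok : Wf P0 JM ∧ dec P0 JM = Jm := by
  unfold JM
  exact rows_ok bas_en

theorem mul_Jm (A : Mat) (i c : Fin 248) : (A * Jm) i c = A i c.rev := by
  simp [mul_apply, Jm, Pi.single_apply]

theorem Jm_mulVec (y : V) (i : Fin 248) : (Jm *ᵥ y) i = y i.rev := by
  simp only [mulVec, dotProduct, Jm, of_apply, Pi.single_apply, Fin.rev_eq_iff, ite_mul, one_mul,
    zero_mul, sum_ite_eq', mem_univ, if_true]

theorem inv_ok {a : ℕ} (ha : Wf P0 a) (h : cInv a = true) :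
    dec P0 a * dec P0 a = 1 ∧ (dec P0 a)ᵀ = dec P0 a := by
  simp only [cInv, Bool.and_eq_true] at h
  constructor
  · rw [← (mul_ok ok0 ha ha).2, Nat.eq_of_beq_eq_true h.1, (one_ok ok0).2]
  · have h2 := congrArg (dec P0) (Nat.eq_of_beq_eq_true h.2)
    rw [(mul_ok ok0 ha JM_ok.1).2, JM_ok.2, (rows_ok (y := fun j => dec P0 a *ᵥ Pi.single j 1)
      fun j => by rw [bas_en, ap_eq ha]).2] at h2
    ext i j
    have := congrFun (congrFun h2 j) i.rev
    rw [mul_Jm, of_apply, Fin.rev_rev, mulVec_single_one] at this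
    exact this

/-- The involution with matrix `A`. -/
def invE (A : Mat) (h : A * A = 1) : Γ :=
  LinearEquiv.ofInvolutive (mulVecLin A) fun v => by
    rw [mulVecLin_apply, mulVecLin_apply, mulVec_mulVec, h, one_mulVec]

/-- Sign change. -/
def sgE (b : Fin 248 → Bool) : Γ :=
  LinearEquiv.ofInvolutive
    { toFun := fun y i => if b i then -y i else y i
      map_add' := fun x y => by ext i; by_cases h : b i <;> simp [h, add_comm]
      map_smul' := fun c y => by ext i; by_cases h : b i <;> simp [h] }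
    fun v => by ext i; by_cases h : b i <;> simp [h]

theorem sgE_apply (b : Fin 248 → Bool) (y : V) (i : Fin 248) :
    sgE b y i = if b i then -y i else y i := rfl

theorem sgE_mul (b c : Fin 248 → Bool) : sgE b * sgE c = sgE fun i => xor (b i) (c i) := by
  ext y i
  rw [LinearEquiv.mul_apply, sgE_apply, sgE_apply, sgE_apply]
  cases b i <;> cases c i <;> simp

def xE : Γ := invE (dec P0 XM) (inv_ok wfs.1 kInvX).1
def zE : Γ := invE (dec P0 ZM) (inv_ok wfs.2.1 kInvZ).1
def aE : Γ := sgE fun i => b0 i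

def el (l : ℕ) : Γ := cs l xE zE aE fun k => sE ^ k

def ev (w : W) : Γ := (w.map el).prod

theorem ev_nil : ev [] = 1 := rfl

theorem ev_cons (l : ℕ) (w : W) : ev (l :: w) = el l * ev w := by simp [ev]

theorem ev_one (l : ℕ) : ev [l] = el l := by simp [ev]

theorem ev_cat (a b : W) : ev (cat a b) = ev a * ev b := by simp [ev, cat_eq]

theorem cs0 {α : Type} (x z a : α) (s : ℕ → α) : cs 0 x z a s = x := rfl
theorem cs1 {α : Type} (x z a : α) (s : ℕ → α) : cs (0 + 1) x z a s = z := rfl
theorem cs2 {α : Type} (x z a : α) (s : ℕ → α) : cs (0 + 1 + 1) x z a s = a := rfl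
theorem cs3 {α : Type} (x z a : α) (s : ℕ → α) (k : ℕ) : cs (k + 1 + 1 + 1) x z a s = s k := rfl

theorem el_s (k : ℕ) : el (Nat.add 3 k) = sE ^ k := by
  rw [show Nat.add 3 k = k + 3 from Nat.add_comm 3 k]
  rfl

theorem apl_eq (l : ℕ) (y : V) : apl l (en y) = en (el l y) := by
  rcases l with _ | _ | _ | k
  · rw [apl, el, cs0, cs0, XS, ap_eq wfs.1 y]
    exact congrArg en rfl
  · rw [apl, el, cs1, cs1, ZS, ap_eq wfs.2.1 y]
    exact congrArg en rfl
  · rw [apl, el, cs2, cs2, wfs.2.2.2.2.1, sgm_eq b0 y]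
    exact congrArg en rfl
  · rw [apl, el, cs3, cs3, rot_eq]

theorem go_cons (l : ℕ) (w : W) (v : ℕ) : go (l :: w) v = sf (apl l v) (go w) := rfl

theorem go_eq (w : W) (y : V) : go w (en y) = en (ev w.reverse y) := by
  induction w generalizing y with
  | nil => exact congrArg en rfl
  | cons l w ih =>
    rw [go_cons, sf_eq, apl_eq, ih, List.reverse_cons, ← cat_eq, ev_cat, ev_one,
      LinearEquiv.mul_apply]

theorem apw_eq (w : W) (y : V) : apw w (en y) = en (ev w y) := by
  rw [apw, go_eq, rv_eq, List.append_nil, List.reverse_reverse]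

theorem sE_pow (k : ℕ) (y : V) (i : Fin 248) : (sE ^ k) y i = y (i - k • 8) := by
  induction k generalizing i with
  | zero => simp
  | succ k ih => rw [pow_succ', LinearEquiv.mul_apply, sE_apply, ih, succ_nsmul', sub_sub]

theorem val_sub (k : ℕ) (hk : k ≤ 31) (i : Fin 248) :
    ((i - k • 8 : Fin 248) : ℕ) = (i + 248 - 8 * k) % 248 := by
  induction k with
  | zero =>
    have := i.2
    rw [zero_nsmul, sub_zero]
    omega
  | succ k ih =>
    rw [succ_nsmul, ← sub_sub, Fin.sub_def]
    show (248 - 8 + ((i - k • 8 : Fin 248) : ℕ)) % 248 = _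
    rw [ih (by omega)]
    omega

theorem sE_31 : sE ^ 31 = 1 := by
  ext y i
  rw [sE_pow]
  refine congrArg y (Fin.ext ?_)
  have := i.2
  rw [val_sub 31 le_rfl]
  omega

theorem sE_inv {k : ℕ} (hk : k ≤ 31) : sE ^ (31 - k) = (sE ^ k)⁻¹ :=
  eq_inv_of_mul_eq_one_left (by rw [← pow_add, Nat.sub_add_cancel hk, sE_31])

theorem sE_mod (k : ℕ) : sE ^ (k % 31) = sE ^ k := (pow_eq_pow_mod k sE_31).symm

theorem el_linv (l : ℕ) : el (linv l) = (el l)⁻¹ := by
  rcases l with _ | _ | _ | k
  · rfl
  · rfl
  · rfl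
  · have := Nat.mod_lt k (show 0 < 31 by omega)
    show el (34 - k % 31) = (sE ^ k)⁻¹
    rw [show 34 - k % 31 = Nat.add 3 (31 - k % 31) by show _ = 3 + _; omega, el_s,
      sE_inv this.le, sE_mod]

theorem ev_winv (w : W) : ev (winv w) = (ev w)⁻¹ := by
  have : ∀ a, ev (List.rec (motive := fun _ => W → W) (fun a => a)
      (fun l _ ih a => ih (linv l :: a)) w a) = (ev w)⁻¹ * ev a := by
    induction w with
    | nil => intro a; simp [ev]
    | cons l w ih => intro a; rw [ev_cons, _root_.mul_inv_rev, mul_assoc, ← el_linv, ← ev_cons]; exact ih _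
  exact (this []).trans (mul_one _)

theorem ev_rep (n : ℕ) (w : W) : ev (rep n w) = ev w ^ n := by
  induction n with
  | zero => rfl
  | succ n ih => rw [pow_succ', ← ih, ← ev_cat]; rfl

theorem fl_mem {H : Subgroup Γ} {g : List W} (h : ∀ w ∈ g, ev w ∈ H) (σ : W) :
    ev (fl g σ) ∈ H := by
  have h1 : ∀ i, ev (nth [] g i) ∈ H := fun i => by
    rcases nth_mem [] g i with e | e
    · rw [e]; exact H.one_mem
    · exact h _ e
  induction σ with
  | nil => exact H.one_mem
  | cons i σ ih =>
    show ev (cat (gen g i) (fl g σ)) ∈ H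
    rw [ev_cat]
    refine H.mul_mem ?_ ih
    unfold gen
    cases Nat.mod i 2 with
    | zero => exact h1 _
    | succ _ => exact (ev_winv _).symm ▸ H.inv_mem (h1 _)

theorem fchk_eq {a b : W} (h : fchk a b = true) : ev a = ev b := by
  refine LinearEquiv.toLinearMap_injective ((Pi.basisFun F (Fin 248)).ext fun j => ?_)
  have := Nat.eq_of_beq_eq_true (allN_iff h j j.2)
  rw [bas_en, apw_eq, apw_eq] at this
  rw [Pi.basisFun_apply]
  exact en_inj this

def eb (m k : ℕ) : Bool := Nat.testBit m0 ((k + 31 - m) % 31)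

/-- The elements of the normal subgroup of order 32. -/
def dA (m : ℕ) : Γ := sgE fun i => eb m (i / 8)

theorem dA_eq {m : ℕ} (hm : m ≤ 31) : sE ^ m * aE * sE ^ (31 - m) = dA m := by
  ext y i
  rw [LinearEquiv.mul_apply, LinearEquiv.mul_apply, sE_pow, aE, sgE_apply, dA, sgE_apply, sE_pow]
  have h1 := i.2
  have e1 : i - m • 8 - (31 - m) • 8 = i := Fin.ext (by
    rw [val_sub _ (by omega), val_sub _ hm]; omega)
  have e2 : b0 (i - m • 8 : Fin 248) = eb m (i / 8) := by
    rw [b0, eb, val_sub _ hm]
    congr 1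
    omega
  rw [e1, e2]

theorem ev_aw {m : ℕ} (hm : m < 31) : ev (aw m) = dA m := by
  have e : aw m = [Nat.add 3 m, 2, Nat.add 3 (31 - m)] := by
    rw [aw, show Nat.blt m 31 = true from Nat.blt_eq.mpr hm, show Nat.add 3 (31 - m) = Nat.sub 34 m by show 3 + _ = 34 - m; omega]
  rw [e, ev_cons, ev_cons, ev_one, el_s, el_s, ← mul_assoc]
  exact dA_eq hm.le

theorem ev_aw' {m : ℕ} (hm : ¬ m < 31) : ev (aw m) = 1 := by
  have : Nat.blt m 31 = false := by
    rw [← Bool.not_eq_true, Nat.blt_eq]; exact hm
  rw [aw, this]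
  rfl

end

end Pool.Agent.Lib.MP_cad414_al.Cg.Th
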