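import Pool.Agent.Lib.MP_cad414_al.Cg.ThB
import Pool.Agent.Lib.MP_cad414_al.Cg.ThC4
import Pool.Agent.Lib.MP_cad414_al.Cg.Gq

/-! Coset tables, the Dempwolff subgroup and bounds for orders. -/

namespace Pool.Agent.Lib.MP_cad414_al.Cg.Th

open Subgroup

set_option maxHeartbeats 400000

noncomputable section

theorem tab_cov {S : Set Γ} {H : Subgroup Γ} {ts : Set Γ}
    (h : ∀ x ∈ S, ∀ t ∈ ts, ∃ t' ∈ ts, t'⁻¹ * x * t ∈ H) :
    ∀ g ∈ closure S, ∀ t ∈ ts, ∃ t' ∈ ts, t'⁻¹ * g * t ∈ H :=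
  cl_right S {g | ∀ t ∈ ts, ∃ t' ∈ ts, t'⁻¹ * g * t ∈ H}
    (fun t ht => ⟨t, ht, by simp⟩) fun s hs g hg t ht => by
      obtain ⟨t1, h1, e1⟩ := h s hs t ht
      obtain ⟨t2, h2, e2⟩ := hg t1 h1
      refine ⟨t2, h2, ?_⟩
      have := H.mul_mem e2 e1
      rwa [show t2⁻¹ * g * t1 * (t1⁻¹ * s * t) = t2⁻¹ * (g * s) * t by group] at this

theorem card_cov {K H : Subgroup Γ} {n : ℕ} (t : ℕ → Γ)
    (h : ∀ g ∈ K, ∃ l < n, (t l)⁻¹ * g ∈ H) : Nat.card K ≤ n * Nat.card H := by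
  let f : Fin n × H → Γ := fun q => t q.1 * q.2
  calc Nat.card K ≤ Nat.card (Set.range f) := Nat.card_mono (Set.toFinite _) fun g hg => by
        obtain ⟨l, hl, e⟩ := h g hg
        exact ⟨(⟨l, hl⟩, ⟨_, e⟩), by simp [f]⟩
    _ ≤ Nat.card (Fin n × H) := Finite.card_range_le f
    _ = n * Nat.card H := by simp

theorem low_list {Ω ι : Type} (φ : Γ → Ω) {H K : Subgroup Γ} (hK : K ≤ H)
    (hφ : ∀ g, ∀ k ∈ K, φ (g * k) = φ g) (c : ι → Γ) (l : List ι) (hc : ∀ x, c x ∈ H)
    (hn : (l.map fun x => φ (c x)).Nodup) : l.length * Nat.card K ≤ Nat.card H := by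
  let f : Fin l.length × K → H := fun q => ⟨c l[q.1] * q.2, H.mul_mem (hc _) (hK q.2.2)⟩
  have hinj : Function.Injective f := by
    rintro ⟨i, k⟩ ⟨j, k'⟩ hq
    have e : c l[i] * k = c l[j] * k' := congrArg Subtype.val hq
    have e2 := congrArg φ e
    rw [hφ _ _ k.2, hφ _ _ k'.2] at e2
    have hij : i = j := Fin.ext ((hn.getElem_inj_iff (i := i) (j := j) (hi := by simp)
      (hj := by simp)).1 (by simpa using e2))
    subst hij
    rw [Subtype.ext (mul_left_cancel e : (k : Γ) = k')]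
  simpa using Nat.card_le_card_of_injective f hinj

theorem nth_cons_mem {α : Type} (d : α) (l : List α) (i : ℕ) : nth d (d :: l) i ∈ d :: l := by
  rcases nth_mem d (d :: l) i with e | e
  · rw [e]; exact List.mem_cons_self
  · exact e

/-- The subgroup generated by a list of words. -/
def cl (L : List W) : Subgroup Γ := closure {g | ∃ w ∈ L, ev w = g}

theorem mem_cl {L : List W} {w : W} (h : w ∈ L) : ev w ∈ cl L := subset_closure ⟨w, h, rfl⟩

theorem cl_le {L : List W} {H : Subgroup Γ} (h : ∀ w ∈ L, ev w ∈ H) : cl L ≤ H :=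
  (closure_le _).2 (by rintro _ ⟨w, hw, rfl⟩; exact h w hw)

theorem fl_cl (g : List W) (σ : W) : ev (fl g σ) ∈ cl g := fl_mem (fun _ => mem_cl) σ

def AG : Subgroup Γ := cl bsW
def HA (g : List W) : Subgroup Γ := cl (g ++ bsW)
def DD : Subgroup Γ := HA [[0], [4]]
def GG : Subgroup Γ := HA [[0], [4], [1]]
def BB : Subgroup Γ := HA g0
def CC : Subgroup Γ := cl cG

theorem AG_le (g : List W) : AG ≤ HA g := cl_le fun _ h => mem_cl (List.mem_append_right _ h)

theorem cl_le_HA (g : List W) : cl g ≤ HA g := cl_le fun _ h => mem_cl (List.mem_append_left _ h)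

theorem mem_bsW {w : W} (h : w ∈ bsW) : ∃ m < 31, ev w = dA m := by
  obtain ⟨m, hm, rfl⟩ := List.mem_map.1 h
  exact ⟨m, bs_lt m hm, ev_aw (bs_lt m hm)⟩

theorem sgE_false : (sgE fun _ => false) = 1 := by
  ext y i
  simp [sgE_apply]

theorem aC_k : (allN 31 fun m => allL (nth [] aC m) (fun x => decide (x ∈ bs)) && allN 31 fun k =>
    eb m k == (nth [] aC m).foldr (fun x b => xor (eb x k) b) false) = true := by decide +kernel

theorem aC_ok (m : ℕ) (hm : m < 31) : (∀ x ∈ nth [] aC m, x ∈ bs) ∧ ∀ k < 31,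
    eb m k = (nth [] aC m).foldr (fun x b => xor (eb x k) b) false := by
  have h := allN_iff aC_k m hm
  rw [Bool.and_eq_true] at h
  exact ⟨fun x hx => of_decide_eq_true (allL_iff h.1 x hx),
    fun k hk => eq_of_beq (allN_iff h.2 k hk)⟩

theorem dA_mem {m : ℕ} (hm : m < 31) : dA m ∈ AG := by
  have key : ∀ L : List ℕ, (∀ x ∈ L, x ∈ bs) →
      (sgE fun i => L.foldr (fun x b => xor (eb x (i / 8)) b) false) ∈ AG := fun L hL => by
    induction L with
    | nil => exact sgE_false ▸ AG.one_mem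
    | cons x L ih =>
      have h1 := hL x List.mem_cons_self
      have h2 : ev (aw x) ∈ AG := mem_cl (List.mem_map_of_mem h1)
      rw [ev_aw (bs_lt x h1)] at h2
      have := AG.mul_mem h2 (ih fun y hy => hL y (List.mem_cons_of_mem _ hy))
      rwa [dA, sgE_mul] at this
  have := key _ (aC_ok m hm).1
  rwa [dA, funext fun i : Fin 248 => (aC_ok m hm).2 (i / 8) (by have := i.2; omega)]

theorem aw_mem (m : ℕ) : ev (aw m) ∈ AG := by
  by_cases h : m < 31
  · exact ev_aw h ▸ dA_mem h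
  · exact ev_aw' h ▸ AG.one_mem

theorem a_k : (allN 32 fun n => allL bs fun m => (List.range 32).any fun n' => allN 31 fun k =>
    xor (decide (n < 31) && eb n k) (eb m k) == (decide (n' < 31) && eb n' k)) = true := by
  decide +kernel

theorem a_tab {n m : ℕ} (hn : n < 32) (hm : m ∈ bs) : ∃ n' < 32, ∀ k < 31,
    xor (decide (n < 31) && eb n k) (eb m k) = (decide (n' < 31) && eb n' k) := by
  obtain ⟨n', h1, h2⟩ := List.any_eq_true.1 (allL_iff (allN_iff a_k n hn) m hm)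
  exact ⟨n', List.mem_range.1 h1, fun k hk => eq_of_beq (allN_iff h2 k hk)⟩

theorem card_AG : Nat.card AG ≤ 32 := by
  have := card_cov (K := AG) (H := ⊥) (n := 32)
    (fun n => sgE fun i => decide (n < 31) && eb n (i / 8)) fun g hg => by
      refine cl_right _ {g | ∃ n < 32, (sgE fun i => decide (n < 31) && eb n (i / 8))⁻¹ * g ∈
        (⊥ : Subgroup Γ)} ⟨31, by omega, by simp [sgE_false]⟩ ?_ g hg
      rintro _ ⟨w, hw, rfl⟩ a ⟨n, hn, e⟩
      obtain ⟨m, hm, rfl⟩ := List.mem_map.1 hw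
      have e2 := ev_aw (bs_lt m hm)
      obtain ⟨n', hn', e3⟩ := a_tab hn hm
      refine ⟨n', hn', ?_⟩
      rw [mem_bot, inv_mul_eq_one] at e ⊢
      rw [← e, e2, dA, sgE_mul]
      exact congrArg sgE (funext fun i => (e3 _ (by have := i.2; omega)).symm)
  simpa using this

theorem eb_k : (allN 31 fun m => allN 31 fun m' => Nat.beq m m' ||
    (List.range 31).any fun k => eb m k != eb m' k) = true := by decide +kernel

theorem eb_inj (m : ℕ) (hm : m < 31) (m' : ℕ) (hm' : m' < 31) (h : ∀ k < 31, eb m k = eb m' k) :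
    m = m' := by
  rcases Bool.or_eq_true_iff.1 (allN_iff (allN_iff eb_k m hm) m' hm') with e | e
  · exact Nat.eq_of_beq_eq_true e
  · obtain ⟨k, h1, h2⟩ := List.any_eq_true.1 e
    simp [h k (List.mem_range.1 h1)] at h2

theorem dA_inj {m m' : ℕ} (hm : m < 31) (hm' : m' < 31) (h : dA m = dA m') : m = m' :=
  eb_inj m hm m' hm' fun k hk => by
    have := congrArg (fun g : Γ => g (fun _ => 1) ⟨8 * k, by omega⟩) h
    simp only [dA, sgE_apply, Nat.mul_div_cancel_left k (show 0 < 8 by omega)] at this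
    revert this
    generalize eb m k = a
    generalize eb m' k = b
    revert a b
    decide

theorem aE_eq : aE = dA 0 := by
  rw [← dA_eq (by omega), pow_zero, one_mul, Nat.sub_zero, sE_31, mul_one]

/-- No letter `z`. -/
def ND (w : W) : Prop := ∀ l ∈ w, l ≠ 1

theorem ND.cat {a b : W} (ha : ND a) (hb : ND b) : ND (cat a b) := fun l hl => by
  rw [cat_eq, List.mem_append] at hl
  exact hl.elim (ha l) (hb l)

theorem ND.winv {w : W} (h : ND w) : ND (winv w) := by
  have : ∀ a, ND a → ND (List.rec (motive := fun _ => W → W) (fun a => a)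
      (fun l _ ih a => ih (linv l :: a)) w a) := by
    induction w with
    | nil => exact fun a ha => ha
    | cons l w ih =>
      refine fun a ha => ih (fun x hx => h x (List.mem_cons_of_mem _ hx)) _ fun x hx => ?_
      rcases List.mem_cons.1 hx with rfl | hx
      · have := h l List.mem_cons_self
        rcases l with _ | _ | _ | k
        · decide
        · exact absurd rfl this
        · decide
        · have := Nat.mod_lt k (show 0 < 31 by omega)
          show 34 - k % 31 ≠ 1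
          omega
      · exact ha x hx
  exact this [] fun _ h => by cases h

theorem ND.fl {g : List W} (h : ∀ w ∈ g, ND w) (σ : W) : ND (fl g σ) := by
  have h1 : ∀ i, ND (nth [] g i) := fun i => by
    rcases nth_mem [] g i with e | e
    · rw [e]; exact fun _ h => by cases h
    · exact h _ e
  induction σ with
  | nil => exact fun _ h => by cases h
  | cons i σ ih =>
    refine ND.cat (a := gen g i) ?_ ih
    unfold gen
    cases Nat.mod i 2 with
    | zero => exact h1 _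
    | succ _ => exact (h1 _).winv

theorem ev_mem {H : Subgroup Γ} (hx : xE ∈ H) (ha : aE ∈ H) (hs : sE ∈ H) {w : W}
    (hz : zE ∈ H ∨ ND w) : ev w ∈ H := by
  refine H.list_prod_mem fun g hg => ?_
  obtain ⟨l, hl, rfl⟩ := List.mem_map.1 hg
  rcases l with _ | _ | _ | k
  exacts [hx, hz.elim id fun h => absurd rfl (h _ hl), ha, H.pow_mem hs k]

theorem ev4 : ev [4] = sE := (ev_one 4).trans (pow_one sE)

theorem mem_DD {w : W} (h : ND w) : ev w ∈ DD :=
  ev_mem (show el 0 ∈ DD from ev_one 0 ▸ mem_cl (by simp))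
    (aE_eq ▸ AG_le _ (dA_mem (by omega))) (ev4 ▸ mem_cl (by simp)) (.inr h)

theorem mem_GG (w : W) : ev w ∈ GG :=
  ev_mem (show el 0 ∈ GG from ev_one 0 ▸ mem_cl (by simp))
    (aE_eq ▸ AG_le _ (dA_mem (by omega))) (ev4 ▸ mem_cl (by simp))
    (.inl (show el 1 ∈ GG from ev_one 1 ▸ mem_cl (by simp)))

theorem ND_bsW : ∀ w ∈ bsW, ∀ l ∈ w, l ≠ 1 := by decide +kernel

theorem ND_DD : ∀ w ∈ [[0], [4]] ++ bsW, ND w := fun w hw => by
  rcases List.mem_append.1 hw with h | h
  · revert w; unfold ND; decide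
  · exact ND_bsW w h

theorem kD1 {m : ℕ} (hm : m < 31) : xE * dA m = dA (d5 pX m) * xE ∧
    (sE ^ d5 pX m)⁻¹ * xE * sE ^ m ∈ BB := by
  have h := allN_iff kD m hm
  rw [Bool.and_eq_true] at h
  have h1 := chk_eq h.1
  have h2 := chk_eq h.2
  rw [ev_cat, ev_cat, ev_aw hm, ev_aw (pX_lt m hm), ev_one] at h1
  rw [ev_cons, ev_one, ev_cons, el_s, el_s, ev_cat] at h2
  refine ⟨h1, ?_⟩
  rw [mul_assoc, show xE = el 0 from rfl, h2, inv_mul_cancel_left]
  exact BB.mul_mem (AG_le _ (aw_mem _)) (cl_le_HA _ (fl_cl _ _))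

theorem pl_ok {l m : ℕ} (hl : l ≠ 1) (hm : m < 31) : pl l m < 31 ∧
    el l * dA m = dA (pl l m) * el l ∧ (sE ^ pl l m)⁻¹ * el l * sE ^ m ∈ BB := by
  rcases l with _ | _ | _ | k
  · exact ⟨pX_lt m hm, kD1 hm⟩
  · exact absurd rfl hl
  · refine ⟨hm, ?_, ?_⟩
    · show aE * dA m = dA m * aE
      rw [aE, dA, sgE_mul, sgE_mul]
      simp only [Bool.xor_comm]
    · show (sE ^ m)⁻¹ * aE * sE ^ m ∈ BB
      rcases Nat.eq_zero_or_pos m with rfl | h0
      · rw [pow_zero, inv_one, one_mul, mul_one, aE_eq]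
        exact AG_le _ (dA_mem (by omega))
      · have := dA_eq (m := 31 - m) (by omega)
        rw [sE_inv hm.le, show 31 - (31 - m) = m by omega] at this
        exact this ▸ AG_le _ (dA_mem (by omega))
  · have h1 := Nat.mod_lt (m + k) (show 0 < 31 by omega)
    refine ⟨h1, ?_, ?_⟩
    · show sE ^ k * dA m = dA ((m + k) % 31) * sE ^ k
      rw [← dA_eq hm.le, ← dA_eq h1.le, sE_inv hm.le, sE_inv h1.le, sE_mod]
      group
    · show (sE ^ ((m + k) % 31))⁻¹ * sE ^ k * sE ^ m ∈ BB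
      rw [sE_mod, mul_assoc, ← pow_add, add_comm, inv_mul_cancel]
      exact BB.one_mem

theorem pw_ok {w : W} (h : ND w) {m : ℕ} (hm : m < 31) : pw w m < 31 ∧
    ev w * dA m = dA (pw w m) * ev w ∧ (sE ^ pw w m)⁻¹ * ev w * sE ^ m ∈ BB := by
  induction w with
  | nil => exact ⟨hm, (one_mul _).trans (mul_one _).symm, by
      show (sE ^ m)⁻¹ * 1 * sE ^ m ∈ BB
      simp⟩
  | cons l w ih =>
    obtain ⟨a1, a2, a3⟩ := ih fun x hx => h x (List.mem_cons_of_mem _ hx)
    obtain ⟨b1, b2, b3⟩ := pl_ok (h l List.mem_cons_self) a1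
    refine ⟨b1, ?_, ?_⟩
    · rw [ev_cons, mul_assoc, a2, ← mul_assoc, b2, mul_assoc]
      rfl
    · have := BB.mul_mem b3 a3
      rwa [show (sE ^ pl l (pw w m))⁻¹ * el l * sE ^ pw w m * ((sE ^ pw w m)⁻¹ * ev w * sE ^ m) =
        (sE ^ pl l (pw w m))⁻¹ * (el l * ev w) * sE ^ m by group, ← ev_cons] at this

theorem inB_ok {w : W} (h : inB w = true) : ev w ∈ BB := by
  rw [inB, Bool.and_eq_true] at h
  have := (pw_ok (noz_iff h.1) (m := 0) (by omega)).2.2
  simpa [Nat.eq_of_beq_eq_true h.2] using this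

theorem norm_AG : ∀ d ∈ DD, ∀ a ∈ AG, d * a * d⁻¹ ∈ AG :=
  cl_right _ {d | ∀ a ∈ AG, d * a * d⁻¹ ∈ AG} (fun a ha => by simpa using ha) (by
    rintro _ ⟨w, hw, rfl⟩ d hd a ha
    have := hd _ (conj_cl _ AG (ev w) (ev w)⁻¹ (by simp) (by
      rintro _ ⟨u, hu, rfl⟩
      obtain ⟨m, hm, e⟩ := mem_bsW hu
      have h1 := pw_ok (ND_DD w hw) hm
      rw [e, h1.2.1, mul_inv_cancel_right]
      exact dA_mem h1.1) a ha)
    rwa [show d * (ev w * a * (ev w)⁻¹) * d⁻¹ = d * ev w * a * (d * ev w)⁻¹ by group] at this)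

theorem ex_of {ts : List W} {H : Subgroup Γ} {i : ℕ} {a b c : Γ}
    (e : a * b = ev (nth [] ([] :: ts) i) * c) (hc : c ∈ H) :
    ∃ t' ∈ {u | ∃ t ∈ [] :: ts, ev t = u}, t'⁻¹ * a * b ∈ H :=
  ⟨_, ⟨_, nth_cons_mem [] ts i, rfl⟩, by rwa [mul_assoc, e, inv_mul_cancel_left]⟩

theorem tab_le {g ts g' : List W} {R : List (List (ℕ × ℕ × W))} (h : tab g ts g' R = true) :
    Nat.card (HA g) ≤ (ts.length + 1) * Nat.card (HA g') := by
  simp only [tab, Bool.and_eq_true] at h
  refine card_cov (fun l => ev (nth [] ([] :: ts) l)) fun x hx => ?_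
  obtain ⟨_, ⟨t, ht, rfl⟩, e⟩ := tab_cov (H := HA g') (ts := {u | ∃ t ∈ [] :: ts, ev t = u}) (by
    rintro _ ⟨w, hw, rfl⟩ _ ⟨t, ht, rfl⟩
    rcases List.mem_append.1 hw with hw | hw
    · obtain ⟨k, hk, rfl⟩ := mem_nth [] hw
      obtain ⟨l, hl, rfl⟩ := mem_nth [] ht
      have e := chk_eq (allN_iff (allN_iff h.2 k hk) l hl)
      rw [ev_cat, ev_cat, ev_cat] at e
      exact ex_of e (mul_mem (AG_le _ (aw_mem _)) (cl_le_HA _ (fl_cl _ _)))
    · refine ⟨_, ⟨t, ht, rfl⟩, AG_le _ ?_⟩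
      have ht' : ev t ∈ DD := by
        rcases List.mem_cons.1 ht with rfl | ht
        exacts [DD.one_mem, mem_DD (noz_iff (allL_iff h.1.2 t ht))]
      simpa using norm_AG _ (DD.inv_mem ht') _ (mem_cl hw)) x hx 1 ⟨[], List.mem_cons_self, rfl⟩
  obtain ⟨l, hl, rfl⟩ := mem_nth [] ht
  exact ⟨l, hl, by simpa using e⟩

theorem card_BB : Nat.card BB ≤ 10321920 := by
  have h0 := tab_le kT0
  have h1 := tab_le kT1
  have h2 := tab_le kT2
  have h3 := tab_le kT3
  have h4 := tab_le kT4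
  have h5 := tab_le kT5
  have h6 := tab_le kT6
  have h7 : Nat.card (HA []) ≤ 32 := card_AG
  rw [show t0T.length = 15 from rfl] at h0
  rw [show t1T.length = 7 from rfl] at h1
  rw [show t2T.length = 6 from rfl] at h2
  rw [show t3T.length = 5 from rfl] at h3
  rw [show t4T.length = 4 from rfl] at h4
  rw [show t5T.length = 3 from rfl] at h5
  rw [show t6T.length = 2 from rfl] at h6
  unfold BB
  omega

theorem BB_le : BB ≤ DD := cl_le fun w hw => by
  have h := kT0
  simp only [tab, Bool.and_eq_true] at h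
  exact mem_DD ((List.mem_append.1 hw).elim (fun hw => noz_iff (allL_iff h.1.1 w hw)) (ND_bsW w))

theorem cov_DD : ∀ d ∈ DD, ∃ m < 31, (sE ^ m)⁻¹ * d ∈ BB := fun d hd => by
  obtain ⟨_, ⟨m, hm, rfl⟩, e⟩ := tab_cov (H := BB) (ts := {u | ∃ m < 31, sE ^ m = u}) (by
    rintro _ ⟨w, hw, rfl⟩ _ ⟨m, hm, rfl⟩
    have := pw_ok (ND_DD w hw) hm
    exact ⟨_, ⟨_, this.1, rfl⟩, this.2.2⟩) d hd 1 ⟨0, by omega, pow_zero _⟩
  exact ⟨m, hm, by simpa using e⟩

theorem card_DD_le : Nat.card DD ≤ 319979520 := by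
  have := card_cov (fun m => sE ^ m) cov_DD
  have := card_BB
  omega

theorem BB_le_CC : BB ≤ CC := cl_le fun _ h => mem_cl (List.mem_cons_of_mem _ h)

theorem z_CC : zE ∈ CC := show el 1 ∈ CC from ev_one 1 ▸ mem_cl List.mem_cons_self

theorem zW_mem (l : ℕ) : ev (nth [] zW l) ∈ CC := by
  have h := kC
  rw [cC, Bool.and_eq_true] at h
  rcases List.mem_cons.1 (nth_cons_mem [] (yl.map fun y => cat y [1]) l) with e | e
  · rw [zW, e]
    exact CC.one_mem
  · obtain ⟨y, hy, e⟩ := List.mem_map.1 e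
    rw [zW, ← e, ev_cat, ev_one]
    exact CC.mul_mem (BB_le_CC (inB_ok (allL_iff h.1 y hy))) z_CC

theorem cov_CC : ∀ c ∈ CC, ∃ l < 9, (ev (nth [] zW l))⁻¹ * c ∈ BB := fun c hc => by
  have h := kC
  rw [cC, Bool.and_eq_true] at h
  obtain ⟨_, ⟨t, ht, rfl⟩, e⟩ := tab_cov (H := BB) (ts := {u | ∃ t ∈ zW, ev t = u}) (by
    rintro _ ⟨w, hw, rfl⟩ _ ⟨t, ht, rfl⟩
    obtain ⟨k, hk, rfl⟩ := mem_nth [] hw
    obtain ⟨l, hl, rfl⟩ := mem_nth [] ht
    have e := allN_iff (allN_iff h.2 k hk) l hl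
    rw [Bool.and_eq_true] at e
    have e2 := chk_eq e.2
    rw [ev_cat, ev_cat] at e2
    exact ex_of e2 (inB_ok e.1)) c hc 1 ⟨[], List.mem_cons_self, rfl⟩
  obtain ⟨l, hl, rfl⟩ := mem_nth [] ht
  exact ⟨l, hl, by simpa using e⟩

theorem low_ok {fin : List W} {L : List (ℕ × ℕ × List W)} {g : List W} (hg : ∀ w ∈ g, ND w)
    (h : low fin L g = true) : lowV fin L ≤ Nat.card (cl g) := by
  induction L generalizing g with
  | nil =>
    have h1 : (fin.map fun σ => apw (fl g σ) V2).Nodup := of_decide_eq_true h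
    simp only [en_v2, apw_eq] at h1
    simpa [lowV] using low_list (fun x : Γ => en (x v2)) (K := ⊥) bot_le
      (fun g k hk => by rw [mem_bot.1 hk, mul_one]) _ fin (fl_cl g) h1
  | cons e L ih =>
    have h0 : (Nat.blt e.2.1 31 && allL (g.drop e.1) (fun x => Nat.beq (pw x e.2.1) e.2.1) &&
      decide (e.2.2.map fun σ => pw (fl g σ) e.2.1).Nodup && low fin L (g.drop e.1)) = true := h
    simp only [Bool.and_eq_true, Nat.blt_eq, decide_eq_true_eq] at h0
    obtain ⟨⟨⟨hp, hf⟩, hn⟩, hl⟩ := h0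
    have hg' : ∀ w ∈ g.drop e.1, ND w := fun w hw => hg w (List.mem_of_mem_drop hw)
    have h1 := low_list (fun x : Γ => x * dA e.2.1 * x⁻¹) (H := cl g) (K := cl (g.drop e.1))
      (cl_le fun w hw => mem_cl (List.mem_of_mem_drop hw)) (fun x k hk => by
        have : k ∈ centralizer {dA e.2.1} := cl_le (fun w hw => by
          have := (pw_ok (hg' w hw) hp).2.1
          rw [Nat.eq_of_beq_eq_true (allL_iff hf w hw)] at this
          exact mem_centralizer_singleton_iff.2 this) hk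
        rw [mul_assoc x, mem_centralizer_singleton_iff.1 this]
        group) _ e.2.2 (fl_cl g) (by
        have h2 := hn.map_on (f := dA) fun x hx y hy => by
          obtain ⟨a, -, rfl⟩ := List.mem_map.1 hx
          obtain ⟨b, -, rfl⟩ := List.mem_map.1 hy
          exact dA_inj (pw_ok (ND.fl hg a) hp).1 (pw_ok (ND.fl hg b) hp).1
        rw [List.map_map] at h2
        convert h2 using 2
        ext1 σ
        rw [(pw_ok (ND.fl hg σ) hp).2.1, mul_inv_cancel_right]
        rfl)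
    refine le_trans ?_ ((Nat.mul_le_mul_left _ (ih hg' hl)).trans h1)
    simp [lowV, mul_assoc]

end

end Pool.Agent.Lib.MP_cad414_al.Cg.Th
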