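import Pool.Agent.Lib.MP_cad414_al.Cg.Base
import Pool.Agent.Lib.MP_cad414_al.Cg.U3F

/-! The groups `U3(q)`, `q > 3`, are generated by three conjugate involutions. -/

namespace Pool.Agent.Lib.MP_cad414_al.Cg

open Matrix

namespace U3

variable {F : Type} [Field F] [StarRing F]

omit [Field F] [StarRing F] in
theorem ext3 {a b c d e f g h i a' b' c' d' e' f' g' h' i' : F} (h1 : a = a') (h2 : b = b')
    (h3 : c = c') (h4 : d = d') (h5 : e = e') (h6 : f = f') (h7 : g = g') (h8 : h = h')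
    (h9 : i = i') : !![a, b, c; d, e, f; g, h, i] = !![a', b', c'; d', e', f'; g', h', i'] := by
  subst_vars; rfl

theorem star3 (a b c d e f g h i : F) : star !![a, b, c; d, e, f; g, h, i] =
    !![star a, star d, star g; star b, star e, star h; star c, star f, star i] := by
  ext i j; fin_cases i <;> fin_cases j <;> rfl

def R23 (a b : F) : Matrix (Fin 3) (Fin 3) F := !![1, 0, 0; 0, a, b; 0, -star b, star a]
def R13 (a b : F) : Matrix (Fin 3) (Fin 3) F := !![a, 0, b; 0, 1, 0; -star b, 0, star a]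
def R12 (a b : F) : Matrix (Fin 3) (Fin 3) F := !![a, b, 0; -star b, star a, 0; 0, 0, 1]
def D (z : F) : Matrix (Fin 3) (Fin 3) F := !![star z, 0, 0; 0, z, 0; 0, 0, 1]

theorem su3_all [Finite F] (h : ∃ a : F, star a ≠ a) {c : F} (hc : star c = c) (c0 : c ≠ 0)
    (c1 : c ≠ 1) (M : Submonoid (Matrix (Fin 3) (Fin 3) F))
    (hM : ∀ A ∈ M, A ∈ specialUnitaryGroup (Fin 3) F) (hs : ∀ A ∈ M, star A ∈ M)
    (h23 : ∀ a b, a * star a + b * star b = 1 → R23 a b ∈ M)
    (h13 : ∀ a b, a * star a + b * star b = 1 → R13 a b ∈ M)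
    (h12 : ∀ a b, a * star a + b * star b = 1 → R12 a b ∈ M) :
    ∀ g ∈ specialUnitaryGroup (Fin 3) F, g ∈ M := by
  have red : ∀ R ∈ M, ∀ g ∈ specialUnitaryGroup (Fin 3) F,
      (R * g ∈ specialUnitaryGroup (Fin 3) F → R * g ∈ M) → g ∈ M := fun R hR g hg p => by
    have := M.mul_mem (hs R hR) (p (mul_mem (hM R hR) hg))
    rwa [← mul_assoc, mem_unitaryGroup_iff'.1 (mem_specialUnitaryGroup_iff.1 (hM R hR)).1,
      one_mul] at this
  have col : ∀ g ∈ specialUnitaryGroup (Fin 3) F, ∀ i j,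
      star (g 0 i) * g 0 j + star (g 1 i) * g 1 j + star (g 2 i) * g 2 j =
        if i = j then 1 else 0 := fun g hg i j => by
    have := congrFun (congrFun (mem_unitaryGroup_iff'.1 (mem_specialUnitaryGroup_iff.1 hg).1) i) j
    rwa [mul_apply, Fin.sum_univ_three, one_apply] at this
  have s0 : ∀ g ∈ specialUnitaryGroup (Fin 3) F, g 0 2 = 0 → g 1 2 = 0 → g 2 2 = 1 → g ∈ M :=
    fun g hg e1 e2 e3 => by
      have a20 := col g hg 2 0
      have a21 := col g hg 2 1
      have a00 := col g hg 0 0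
      have a01 := col g hg 0 1
      have a10 := col g hg 1 0
      have a11 := col g hg 1 1
      have d := (mem_specialUnitaryGroup_iff.1 hg).2
      rw [det_fin_three] at d
      simp [e1, e2, e3] at a20 a21
      simp [e1, e2, e3, a20, a21] at a00 a01 a10 a11 d
      have b1 : g 1 1 = star (g 0 0) := by
        linear_combination star (g 0 0) * d - g 1 1 * a00 + g 1 0 * a01
      have b2 : g 1 0 = -star (g 0 1) := by
        linear_combination (-star (g 0 1)) * d - g 1 0 * a11 + g 1 1 * a10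
      have e : g = R12 (g 0 0) (g 0 1) := by
        rw [eta_fin_three g]
        exact ext3 rfl rfl e1 b2 b1 e2 a20 a21 e3
      rw [e]
      exact h12 _ _ (by rw [b1, b2] at d; linear_combination d)
  have s1 : ∀ g ∈ specialUnitaryGroup (Fin 3) F, g 1 2 = 0 → g ∈ M := fun g hg e => by
    have a := col g hg 2 2
    simp [e] at a
    refine red _ (h13 (g 2 2) (-g 0 2) (by rw [star_neg]; linear_combination a)) g hg
      fun p => s0 _ p ?_ ?_ ?_ <;> simp [R13, mul_apply, Fin.sum_univ_three, e]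
    · ring
    · exact a
  have s2 : ∀ g ∈ specialUnitaryGroup (Fin 3) F,
      g 1 2 * star (g 1 2) + g 2 2 * star (g 2 2) ≠ 0 → g ∈ M := fun g hg e => by
    obtain ⟨r, hr⟩ := norm_surj h (s := g 1 2 * star (g 1 2) + g 2 2 * star (g 2 2))
      (by simp [mul_comm])
    have r0 : r ≠ 0 := fun e' => e (by rw [← hr, e', zero_mul])
    have r1 := star_ne_zero.2 r0
    refine red _ (h23 (g 2 2 / r) (-g 1 2 / r) (by
      rw [star_div₀, star_div₀, star_neg]; field_simp; linear_combination -hr)) g hg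
      fun p => s1 _ p ?_
    simp [R23, mul_apply, Fin.sum_univ_three]
    ring
  have s3 : ∀ g ∈ specialUnitaryGroup (Fin 3) F,
      g 0 2 * star (g 0 2) + g 2 2 * star (g 2 2) ≠ 0 → g ∈ M := fun g hg e =>
    red _ (h12 0 1 (by simp)) g hg fun p => s2 _ p (by
      simpa [R12, mul_apply, Fin.sum_univ_three] using e)
  intro g hg
  by_contra hn
  have e1 := not_not.1 fun e => hn (s2 g hg e)
  have e2 := not_not.1 fun e => hn (s3 g hg e)
  have a := col g hg 2 2
  rw [if_pos rfl] at a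
  by_cases h2 : (2 : F) = 0
  · obtain ⟨z, hz, hz'⟩ := exists_sq_ne h
    have n1 : g 1 2 * star (g 1 2) = 1 := by linear_combination a - e2
    have n2 : g 2 2 * star (g 2 2) = -1 := by linear_combination e1 - n1
    refine hn (red _ (h23 (1 + c) (c * z * g 1 2 * star (g 2 2)) (by
      simp only [star_add, star_mul', star_one, star_star, hc]
      linear_combination (c ^ 2 * g 1 2 * star (g 1 2) * g 2 2 * star (g 2 2)) * hz +
        (c ^ 2 * g 2 2 * star (g 2 2)) * n1 + c ^ 2 * n2 + c * h2)) g hg fun p => s3 _ p ?_)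
    have e3 : c * (c - 1) * (star z - z) ≠ 0 :=
      mul_ne_zero (mul_ne_zero c0 (sub_ne_zero.2 c1)) (sub_ne_zero.2 hz')
    simp [R23, mul_apply, Fin.sum_univ_three, hc]
    intro e4
    apply e3
    grind
  · refine hn (red _ (h23 0 1 (by simp)) g hg fun p => s3 _ p ?_)
    simp [R23, mul_apply, Fin.sum_univ_three]
    intro e4
    exact h2 (by linear_combination e4 - 2 * a + e1 + e2)

omit [StarRing F] in
theorem unip_pow {n : Matrix (Fin 3) (Fin 3) F} (hn : n * n = 0) (k : ℕ) :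
    (1 + n) ^ k = 1 + (k : F) • n := by
  induction k with
  | zero => simp
  | succ k ih =>
    rw [pow_succ, ih, add_mul, mul_add, mul_add, smul_mul_assoc, smul_mul_assoc, hn]
    simp [add_smul, add_comm, add_left_comm, add_assoc]

theorem odd_data [Finite F] (h : ∃ a : F, star a ≠ a) (h2 : (2 : F) ≠ 0) {c : F}
    (hc : star c = c) (c0 : c ≠ 0) (c1 : c ≠ 1) (c2 : c ≠ -1) :
    ∃ a b r : F, a * star a + b * star b = 1 ∧ r * star r = 1 ∧ star r ≠ r ∧
      (a * star b + b * star a) * (r + star r) = 2 := by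
  obtain ⟨e, he, e0, e1⟩ : ∃ e : F, star e = -e ∧ e ≠ 0 ∧ 1 + e ^ 2 ≠ 0 := by
    obtain ⟨a, ha⟩ := h
    have p1 : star (a - star a) = -(a - star a) := by rw [star_sub, star_star]; ring
    have p2 : a - star a ≠ 0 := sub_ne_zero.2 ha.symm
    by_cases p3 : 1 + (a - star a) ^ 2 = 0
    · refine ⟨c * (a - star a), by rw [star_mul', hc, p1]; ring, mul_ne_zero c0 p2, fun e => ?_⟩
      have : (c - 1) * (c + 1) = 0 := by linear_combination c ^ 2 * p3 - e
      exact (mul_eq_zero.1 this).elim (fun e => c1 (sub_eq_zero.1 e))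
        fun e => c2 (eq_neg_of_add_eq_zero_left e)
    · exact ⟨_, p1, p2, p3⟩
  have p1 : 1 + e ≠ 0 := fun e' => by
    have e2 := congrArg star e'
    rw [star_add, he, star_one, star_zero] at e2
    exact h2 (by linear_combination e' + e2)
  have p2 : star (1 + e) = 1 - e := by rw [star_add, he, star_one]; ring
  have p3 : 1 - e ≠ 0 := p2 ▸ star_ne_zero.2 p1
  obtain ⟨x, hx⟩ := norm_surj h (s := -1) (by rw [star_neg, star_one])
  obtain ⟨p, hp⟩ := norm_surj h (s := 2 / (1 + e ^ 2)) (by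
    rw [star_div₀, star_add, star_pow, he, star_one, star_ofNat]; ring)
  rw [eq_div_iff e1] at hp
  refine ⟨(p + e * p * x) / 2, (p - e * p * x) / 2, (1 + e) / star (1 + e), ?_, norm_div p1,
    fun e' => ?_, ?_⟩
  · simp only [star_div₀, star_add, star_sub, star_mul', he, star_ofNat]
    field_simp
    linear_combination 2 * hp - 2 * e ^ 2 * p * star p * hx
  · rw [star_div₀, star_star, p2, div_eq_div_iff p1 p3] at e'
    exact mul_ne_zero (mul_ne_zero h2 h2) e0 (by linear_combination -e')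
  · rw [star_div₀ (1 + e), star_star, p2]
    simp only [star_div₀, star_add, star_sub, star_mul', he, star_ofNat]
    field_simp
    linear_combination (4 * (1 - e ^ 2)) * hp + 4 * (1 + e ^ 2) * e ^ 2 * p * star p * hx

/-- The third involution and the torus give a transvection. -/
theorem transv [Finite F] (h : ∃ a : F, star a ≠ a) {c : F}
    (hc : star c = c) (c0 : c ≠ 0) (c1 : c ≠ 1) (c2 : c ≠ -1) :
    ∃ a b : F, a * star a + b * star b = 1 ∧ ∀ M : Submonoid (Matrix (Fin 3) (Fin 3) F),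
      (∀ A ∈ M, A ∈ specialUnitaryGroup (Fin 3) F) → (∀ A ∈ M, star A ∈ M) →
      (∀ y, y * star y = 1 → D y ∈ M) →
      !![-1, 0, 0; 0, a * star b + b * star a, a ^ 2 - b ^ 2;
        0, star (a ^ 2 - b ^ 2), -(a * star b + b * star a)] ∈ M →
      ∃ a0 b0, R23 a0 b0 ∈ M ∧ a0 + star a0 = 2 ∧ a0 ≠ 1 ∧ a0 ≠ 0 := by
  by_cases h2 : (2 : F) = 0
  · obtain ⟨a, ha⟩ := h
    have h3 : a + star a ≠ 0 := fun e => ha (by linear_combination e - a * h2)
    obtain ⟨w, hw⟩ : ∃ w : F, w + star w = (1 + c ^ 2) / c := ⟨a / (a + star a) * ((1 + c ^ 2) / c), by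
      simp only [star_div₀, star_add, star_star, star_mul', star_pow, star_one, hc, add_comm (star a) a]
      field_simp⟩
    rw [eq_div_iff c0] at hw
    have e1 : w * star (w + c) + (w + c) * star w = 1 + c ^ 2 := by
      rw [star_add, hc]; linear_combination hw + w * star w * h2
    refine ⟨w, w + c, by rw [star_add, hc]; linear_combination hw + (w * star w + c ^ 2) * h2,
      fun M _ _ _ m => ⟨1 + c ^ 2, w ^ 2 - (w + c) ^ 2, ?_, ?_, ?_, fun e => c1 ?_⟩⟩
    · rw [e1] at m
      convert m using 1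
      refine ext3 (by linear_combination h2) rfl rfl rfl rfl rfl rfl
        (by linear_combination (-star (w ^ 2 - (w + c) ^ 2)) * h2) ?_
      rw [star_add, star_pow, hc, star_one]
      linear_combination (1 + c ^ 2) * h2
    · rw [star_add, star_pow, hc, star_one]
      linear_combination c ^ 2 * h2
    · simpa using c0
    · exact sub_eq_zero.1 (pow_eq_zero_iff two_ne_zero |>.1 (by linear_combination e - c * h2))
  · obtain ⟨a, b, r, hab, hr, hr', ht⟩ := odd_data h h2 hc c0 c1 c2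
    refine ⟨a, b, hab, fun M hM hs hD m => ?_⟩
    have e1 : star (a * star b + b * star a) = a * star b + b * star a := by
      simp only [star_add, star_mul', star_star]; ring
    have e2 : (a * star b + b * star a) ^ 2 + (a ^ 2 - b ^ 2) * star (a ^ 2 - b ^ 2) = 1 := by
      rw [star_sub, star_pow, star_pow]
      linear_combination (a * star a + b * star b + 1) * hab
    generalize a * star b + b * star a = u at e1 e2 ht m
    generalize a ^ 2 - b ^ 2 = v at e2 m
    have r0 : r ≠ 0 := fun e => by simp [e] at hr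
    refine ⟨u * r, -(star r * v), ?_, by rw [star_mul', e1]; linear_combination ht,
      fun e => hr' ?_, fun e => h2 ?_⟩
    · have m2 := M.mul_mem m (hD (-r ^ 2) (by
        rw [star_neg, star_pow]; linear_combination (r * star r + 1) * hr))
      obtain ⟨n, hn, e3⟩ : ∃ n : Matrix (Fin 3) (Fin 3) F, n * n = 0 ∧
          R23 (u * r) (-(star r * v)) = 1 + n := by
        refine ⟨!![0, 0, 0; 0, u * r - 1, -(star r * v); 0, r * star v, u * star r - 1], ?_, ?_⟩
        · rw [mul_fin_three, eta_fin_three (0 : Matrix (Fin 3) (Fin 3) F)]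
          refine ext3 ?_ ?_ ?_ ?_ ?_ ?_ ?_ ?_ ?_ <;> simp only [Matrix.zero_apply] <;> grind
        · rw [R23, one_fin_three]
          ext i j
          fin_cases i <;> fin_cases j <;> simp [e1]
      have e4 : !![-1, 0, 0; 0, u, v; 0, star v, -u] * D (-r ^ 2) =
          diagonal ![star r ^ 2, -r, -r] * (1 + n) := by
        rw [← e3, D, R23, mul_fin_three]
        ext i j
        fin_cases i <;> fin_cases j <;> simp [e1] <;> grind
      have e5 : Commute (diagonal ![star r ^ 2, -r, -r]) (1 + n) := by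
        rw [← e3, R23]
        ext i j
        fin_cases i <;> fin_cases j <;> simp [mul_comm]
      have := Fintype.ofFinite F
      have m3 := M.pow_mem m2 (Fintype.card F - 1)
      have e6 : diagonal ![star r ^ 2, -r, -r] ^ (Fintype.card F - 1) = 1 := by
        rw [diagonal_pow, ← diagonal_one]
        congr 1
        ext i
        refine FiniteField.pow_card_sub_one_eq_one _ ?_
        fin_cases i <;> simp [r0]
      rw [e4, e5.mul_pow, e6, one_mul] at m3
      have e7 : (1 + n) ^ (Fintype.card F - 1) * (1 + n) = 1 := by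
        rw [← pow_succ, Nat.sub_add_cancel Fintype.card_pos, unip_pow hn, Nat.cast_card_eq_zero,
          zero_smul, add_zero]
      have e8 := mem_unitaryGroup_iff'.1 (mem_specialUnitaryGroup_iff.1 (hM _ m3)).1
      rw [e3, ← left_inv_eq_right_inv e8 e7]
      exact hs _ m3
    · have e3 := congrArg star e
      rw [star_mul', e1, star_one] at e3
      linear_combination r * e3 - star r * e
    · rw [← ht, (mul_eq_zero.1 e).resolve_right r0, zero_mul]

theorem su3_of_transv [Finite F] (h : ∃ a : F, star a ≠ a) {c : F} (hc : star c = c) (c0 : c ≠ 0)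
    (c1 : c ≠ 1) (M : Submonoid (Matrix (Fin 3) (Fin 3) F))
    (hM : ∀ A ∈ M, A ∈ specialUnitaryGroup (Fin 3) F) (hs : ∀ A ∈ M, star A ∈ M)
    (hD : ∀ y, y * star y = 1 → D y ∈ M) (n1 : !![0, 1, 0; 1, 0, 0; 0, 0, -1] ∈ M) {a0 b0 : F}
    (p0 : R23 a0 b0 ∈ M) (p1 : a0 + star a0 = 2) (p2 : a0 ≠ 1) (p3 : a0 ≠ 0) :
    ∀ g ∈ specialUnitaryGroup (Fin 3) F, g ∈ M := by
  have h23 : ∀ a b, a * star a + b * star b = 1 → R23 a b ∈ M := fun a b e =>
    su2_all h (fun a b => R23 a b ∈ M) (fun a b p => by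
      have := (mem_specialUnitaryGroup_iff.1 (hM _ p)).2
      simpa [R23, det_fin_three] using this)
      (fun a b a' b' p q => by
        convert M.mul_mem p q using 1
        rw [R23, R23, R23, mul_fin_three]
        refine ext3 ?_ ?_ ?_ ?_ ?_ ?_ ?_ ?_ ?_ <;> simp <;> ring)
      (fun a b p => by
        convert hs _ p using 1
        simp [R23, star3])
      (fun a b y hy p => by
        convert M.mul_mem (M.mul_mem (hD y hy) p) (hs _ (hD y hy)) using 1
        rw [R23, R23, D, star3, mul_fin_three, mul_fin_three]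
        refine ext3 ?_ ?_ ?_ ?_ ?_ ?_ ?_ ?_ ?_ <;> simp <;> grind)
      p0 p1 p2 p3 e
  have h13 : ∀ a b, a * star a + b * star b = 1 → R13 a b ∈ M := fun a b e => by
    convert M.mul_mem (M.mul_mem n1 (h23 a (-b) (by simpa using e))) n1 using 1
    simp [R13, R23]
  have h12 : ∀ a b, a * star a + b * star b = 1 → R12 a b ∈ M := fun a b e => by
    convert M.mul_mem (M.mul_mem (h23 0 1 (by simp)) (h13 a b e)) (h23 0 (-1) (by simp)) using 1
    simp [R12, R13, R23]
  exact su3_all h hc c0 c1 M hM hs h23 h13 h12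

end U3

open U3 in
theorem uni_three_3 {G F : Type} [Group G] [Finite G] [IsSimpleGroup G] [Field F] [Finite F]
    (hG : NA G) [StarRing F] (h9 : 9 < Nat.card F) (h : Uni G F 3) : 3 ∈ GenSizes G := by
  obtain ⟨h, hI⟩ := h
  obtain ⟨c, hc, c0, c1, c2⟩ := exists_fixed h h9
  obtain ⟨z, hz, hgen⟩ := exists_gen h
  obtain ⟨a, b, hab, htr⟩ := transv h hc c0 c1 c2
  have m1 : !![0, 1, 0; 1, 0, 0; 0, 0, -1] ∈ specialUnitaryGroup (Fin 3) F :=
    mem_specialUnitaryGroup_iff.2 ⟨mem_unitaryGroup_iff.2 (by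
      rw [star3, mul_fin_three, one_fin_three]; simp), by simp [det_fin_three]⟩
  have m2 : !![1, 0, 0; 0, z, 0; 0, 0, star z] ∈ specialUnitaryGroup (Fin 3) F :=
    mem_specialUnitaryGroup_iff.2 ⟨mem_unitaryGroup_iff.2 (by
      rw [star3, mul_fin_three, one_fin_three]; simp [hz, mul_comm (star z)]),
      by simp [det_fin_three, hz]⟩
  have m3 : !![0, 0, 1; a, b, 0; -star b, star a, 0] ∈ specialUnitaryGroup (Fin 3) F :=
    mem_specialUnitaryGroup_iff.2 ⟨mem_unitaryGroup_iff.2 (by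
      rw [star3, mul_fin_three, one_fin_three]
      refine ext3 ?_ ?_ ?_ ?_ ?_ ?_ ?_ ?_ ?_ <;> simp <;> grind),
      by simp [det_fin_three, hab]⟩
  refine hG.three_of_img hI ⟨_, m1⟩ (⟨_, m2⟩ * ⟨_, m1⟩ * (⟨_, m2⟩ : specialUnitaryGroup (Fin 3) F)⁻¹)
    (⟨_, m3⟩ * ⟨_, m1⟩ * (⟨_, m3⟩ : specialUnitaryGroup (Fin 3) F)⁻¹) ⟨_, m2⟩ ⟨_, m3⟩ ?_
    (by rw [inv_mul_cancel]; exact one_mem _) (by rw [inv_mul_cancel]; exact one_mem _)
    fun L l1 l2 l3 _ g _ => ?_
  · have : (⟨_, m1⟩ * ⟨_, m1⟩ : specialUnitaryGroup (Fin 3) F) = 1 := Subtype.ext (by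
      change !![0, 1, 0; 1, 0, 0; 0, 0, -1] * !![0, 1, 0; 1, 0, 0; 0, 0, (-1 : F)] = 1
      rw [mul_fin_three, one_fin_three]; simp)
    rw [this]; exact one_mem _
  let M := L.toSubmonoid.map (specialUnitaryGroup (Fin 3) F).subtype
  have hM : ∀ A ∈ M, A ∈ specialUnitaryGroup (Fin 3) F := by
    rintro _ ⟨x, -, rfl⟩; exact x.2
  have hs : ∀ A ∈ M, star A ∈ M := by
    rintro _ ⟨x, hx, rfl⟩; exact ⟨x⁻¹, L.inv_mem hx, rfl⟩
  have n1 : !![0, 1, 0; 1, 0, 0; 0, 0, -1] ∈ M := ⟨_, l1, rfl⟩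
  have n2 : D z ∈ M := ⟨_, L.mul_mem l2 l1, by
    change !![1, 0, 0; 0, z, 0; 0, 0, star z] * !![0, 1, 0; 1, 0, 0; 0, 0, -1] *
      star !![1, 0, 0; 0, z, 0; 0, 0, star z] * !![0, 1, 0; 1, 0, 0; 0, 0, -1] = _
    rw [star3, D]
    simp [hz, mul_comm (star z)]⟩
  have hD : ∀ y, y * star y = 1 → D y ∈ M := fun y hy => by
    obtain ⟨k, rfl⟩ := hgen y hy
    clear hy
    induction k with
    | zero => rw [pow_zero, D, star_one, ← one_fin_three]; exact M.one_mem
    | succ k ih =>
      convert M.mul_mem ih n2 using 1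
      simp [D, pow_succ]
  obtain ⟨a0, b0, p0, p1, p2, p3⟩ := htr M hM hs hD ⟨_, l3, by
    change !![0, 0, 1; a, b, 0; -star b, star a, 0] * !![0, 1, 0; 1, 0, 0; 0, 0, -1] *
      star !![0, 0, 1; a, b, 0; -star b, star a, 0] = _
    rw [star3, mul_fin_three, mul_fin_three]
    refine ext3 ?_ ?_ ?_ ?_ ?_ ?_ ?_ ?_ ?_ <;> simp <;> ring⟩
  obtain ⟨x, hx, e⟩ := su3_of_transv h hc c0 c1 M hM hs hD n1 p0 p1 p2 p3 g g.2
  exact (Subtype.ext e : x = g) ▸ hx

end Pool.Agent.Lib.MP_cad414_al.Cg
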