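import Pool.Agent.Lib.MP_cad414_al.Cg.Base

/-! Hermitian forms, unitary groups, Eichler maps. -/

namespace Pool.Agent.Lib.MP_cad414_al.Cg.UU

open Module

/-- A hermitian form, linear in the first argument. -/
structure HF (F V : Type) [Field F] [StarRing F] [AddCommGroup V] [Module F V] where
  B : V → V → F
  add_left : ∀ x y z, B (x + y) z = B x z + B y z
  smul_left : ∀ (a : F) x y, B (a • x) y = a * B x y
  symm : ∀ x y, star (B x y) = B y x

variable {F V : Type} [Field F] [StarRing F] [AddCommGroup V] [Module F V]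

instance : CoeFun (HF F V) fun _ => V → V → F := ⟨HF.B⟩

namespace HF
variable (h : HF F V)

attribute [simp] add_left smul_left symm

@[simp] theorem add_right (x y z : V) : h x (y + z) = h x y + h x z := by
  rw [← h.symm, h.add_left, star_add, h.symm, h.symm]

@[simp] theorem smul_right (a : F) (x y : V) : h x (a • y) = star a * h x y := by
  rw [← h.symm, h.smul_left, star_mul', h.symm]

@[simp] theorem zero_left (y : V) : h 0 y = 0 := by simpa using h.smul_left 0 0 y

@[simp] theorem zero_right (x : V) : h x 0 = 0 := by rw [← h.symm, h.zero_left, star_zero]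

@[simp] theorem neg_left (x y : V) : h (-x) y = -h x y := by simpa using h.smul_left (-1) x y

@[simp] theorem neg_right (x y : V) : h x (-y) = -h x y := by simpa using h.smul_right (-1) x y

@[simp] theorem sub_left (x y z : V) : h (x - y) z = h x z - h y z := by
  rw [sub_eq_add_neg, h.add_left, h.neg_left, sub_eq_add_neg]

@[simp] theorem sub_right (x y z : V) : h x (y - z) = h x y - h x z := by
  rw [sub_eq_add_neg, h.add_right, h.neg_right, sub_eq_add_neg]

theorem sum_left {ι : Type} (s : Finset ι) (v : ι → V) (y : V) :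
    h (∑ i ∈ s, v i) y = ∑ i ∈ s, h (v i) y := by
  classical
  induction s using Finset.induction_on with
  | empty => simp
  | insert a s ha ih => rw [Finset.sum_insert ha, Finset.sum_insert ha, h.add_left, ih]

theorem sum_right {ι : Type} (s : Finset ι) (v : ι → V) (x : V) :
    h x (∑ i ∈ s, v i) = ∑ i ∈ s, h x (v i) := by
  rw [← h.symm, h.sum_left, star_sum]; simp

variable {h} in
theorem swap0 {x y : V} (H : h x y = 0) : h y x = 0 := by rw [← h.symm, H, star_zero]

variable {h} in
theorem swap1 {x y : V} (H : h x y = 1) : h y x = 1 := by rw [← h.symm, H, star_one]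

/-- the linear form `x ↦ h x y` -/
def lin (y : V) : V →ₗ[F] F where
  toFun x := h x y
  map_add' a b := h.add_left a b y
  map_smul' a x := h.smul_left a x y

@[simp] theorem lin_apply (x y : V) : h.lin y x = h x y := rfl

end HF

/-- The unitary group of `h`. -/
def UG (h : HF F V) : Subgroup (V ≃ₗ[F] V) where
  carrier := {g | ∀ x y, h (g x) (g y) = h x y}
  one_mem' := fun _ _ => rfl
  mul_mem' := fun {a b} ha hb x y => (ha (b x) (b y)).trans (hb x y)
  inv_mem' := fun {a} ha x y => by
    have := ha (a.symm x) (a.symm y)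
    rw [LinearEquiv.apply_symm_apply, LinearEquiv.apply_symm_apply] at this
    exact this.symm

variable {h : HF F V}

theorem uext {g k : UG h} (H : ∀ x : V, g • x = k • x) : g = k :=
  Subtype.ext (LinearEquiv.ext H)

@[simp] theorem hact (g : UG h) (x y : V) : h (g • x) (g • y) = h x y := g.2 x y

theorem hact' (g : UG h) (x y : V) : h (g⁻¹ • x) y = h x (g • y) := by
  rw [← hact g, smul_inv_smul]

theorem act_smul (g : UG h) (a : F) (x : V) : g • (a • x) = a • (g • x) := g.1.map_smul a x

/-- The determinant. -/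
noncomputable def dt : UG h →* F where
  toFun g := LinearMap.det (g.1 : V →ₗ[F] V)
  map_one' := LinearMap.det_id
  map_mul' a b := by rw [← LinearMap.det_comp]; rfl

/-- The special unitary group. -/
noncomputable def SU (h : HF F V) : Subgroup (UG h) where
  carrier := {g | dt g = 1}
  one_mem' := map_one dt
  mul_mem' := fun {a b} (ha : dt a = 1) (hb : dt b = 1) => by
    change dt (a * b) = 1
    rw [map_mul, ha, hb, one_mul]
  inv_mem' := fun {a} (ha : dt a = 1) => by
    change dt a⁻¹ = 1
    have := map_mul dt a a⁻¹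
    rwa [mul_inv_cancel, map_one, ha, one_mul, eq_comm] at this

theorem mem_SU {g : UG h} : g ∈ SU h ↔ dt g = 1 := Iff.rfl

/-- An element of the unitary group from a linear map with an inverse. -/
def mkU (f g : V →ₗ[F] V) (h1 : ∀ x, f (g x) = x) (h2 : ∀ x, g (f x) = x)
    (h3 : ∀ x y, h (f x) (f y) = h x y) : UG h :=
  ⟨LinearEquiv.ofLinearMap f g (LinearMap.ext h1) (LinearMap.ext h2), h3⟩

theorem mkU_act (f g : V →ₗ[F] V) (h1 h2 h3) (x : V) : (mkU (h := h) f g h1 h2 h3) • x = f x := rfl

theorem dt_eq {g : UG h} {f : V →ₗ[F] V} (H : ∀ x, g • x = f x) : dt g = LinearMap.det f :=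
  congrArg LinearMap.det (LinearMap.ext H)

/-- `x ↦ x + h x u • v` -/
def ro (h : HF F V) (u v : V) : V →ₗ[F] V := LinearMap.transvection (h.lin u) v

theorem ro_apply (u v x : V) : ro h u v x = x + h x u • v := rfl

theorem ro_det [FiniteDimensional F V] (u v : V) : LinearMap.det (ro h u v) = 1 + h v u :=
  LinearMap.transvection.det _ _

/-! ### Scalars -/

open Classical in
/-- the scalar `a` (the identity unless `a` has norm one) -/
noncomputable def sc (h : HF F V) (a : F) : UG h :=
  if H : a * star a = 1 then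
    mkU (a • LinearMap.id) (star a • LinearMap.id)
      (fun x => by simp [smul_smul, mul_comm (star a), H]) (fun x => by simp [smul_smul, H])
      (fun x y => by simp; linear_combination h x y * H)
  else 1

theorem sc_act {a : F} (H : a * star a = 1) (x : V) : sc h a • x = a • x := by
  rw [sc, dif_pos H]; rfl

theorem sc_comm (a : F) (g : UG h) : Commute (sc h a) g := by
  by_cases H : a * star a = 1
  · exact uext fun x => by rw [mul_smul, mul_smul, sc_act H, sc_act H, act_smul]
  · rw [sc, dif_neg H]; exact Commute.one_left g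

theorem sc_dt [FiniteDimensional F V] {a : F} (H : a * star a = 1) :
    dt (sc h a) = a ^ finrank F V := by
  rw [dt_eq (f := a • LinearMap.id) (sc_act H)]; simp

/-! ### Eichler maps -/

/-- admissible data for an Eichler map -/
structure OK (h : HF F V) (s w : V) (c : F) : Prop where
  ss : h s s = 0
  sw : h s w = 0
  tr : c + star c = h w w

theorem OK.ws {s w : V} {c : F} (H : OK h s w c) : h w s = 0 := HF.swap0 H.sw

theorem OK.neg {s w : V} {c : F} (H : OK h s w c) : OK h s (-w) (star c) :=
  ⟨H.ss, by simp [H.sw], by simp [← H.tr, add_comm]⟩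

theorem OK.add {s w w' : V} {c c' : F} (H : OK h s w c) (H' : OK h s w' c') :
    OK h s (w + w') (c + c' + h w' w) :=
  ⟨H.ss, by simp [H.sw, H'.sw], by simp; linear_combination H.tr + H'.tr⟩

theorem OK.act {s w : V} {c : F} (H : OK h s w c) (g : UG h) : OK h (g • s) (g • w) c :=
  ⟨by simp [H.ss], by simp [H.sw], by simp [H.tr]⟩

/-- the linear map behind an Eichler map -/
def el (h : HF F V) (s w : V) (c : F) : V →ₗ[F] V := ro h s (w - c • s) ∘ₗ ro h w (-s)

theorem el_apply {s w : V} (hs : h s s = 0) (c : F) (x : V) :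
    el h s w c x = x + h x s • w - h x w • s - (c * h x s) • s := by
  simp only [el, LinearMap.comp_apply, ro_apply, HF.add_left, HF.smul_left, HF.neg_left, hs]
  module

theorem el_inv {s w : V} {c : F} (H : OK h s w c) (x : V) :
    el h s w c (el h s (-w) (star c) x) = x := by
  simp only [el_apply H.ss, HF.add_left, HF.smul_left, HF.neg_left, HF.sub_left, HF.neg_right,
    H.ss, H.sw, H.ws, ← H.tr]
  module

open Classical in
/-- The Eichler map (the identity if the data are not admissible). -/
noncomputable def T (h : HF F V) (s w : V) (c : F) : UG h :=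
  if H : OK h s w c then
    mkU (el h s w c) (el h s (-w) (star c)) (el_inv H)
      (fun x => by simpa using el_inv H.neg x) (fun x y => by
        simp [el_apply H.ss, H.ss, H.sw, H.ws, ← H.tr]; ring)
  else 1

theorem T_act {s w : V} {c : F} (H : OK h s w c) (x : V) :
    T h s w c • x = x + h x s • w - h x w • s - (c * h x s) • s := by
  rw [T, dif_pos H, mkU_act, el_apply H.ss]

theorem T_mul {s w w' : V} {c c' : F} (H : OK h s w c) (H' : OK h s w' c') :
    T h s w c * T h s w' c' = T h s (w + w') (c + c' + h w' w) := uext fun x => by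
  simp only [mul_smul, T_act H, T_act H', T_act (H.add H'), HF.add_left, HF.smul_left,
    HF.sub_left, HF.add_right, H.ss, H.sw, H'.ws]
  module

theorem T_zero {s : V} (hs : h s s = 0) : T h s 0 0 = 1 := uext fun x => by
  rw [T_act ⟨hs, by simp, by simp⟩]; simp

theorem T_inv {s w : V} {c : F} (H : OK h s w c) : (T h s w c)⁻¹ = T h s (-w) (star c) := by
  rw [inv_eq_iff_mul_eq_one, T_mul H H.neg, add_neg_cancel, HF.neg_left, H.tr, add_neg_cancel,
    T_zero H.ss]

theorem T_conj {s w : V} {c : F} (H : OK h s w c) (g : UG h) :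
    g * T h s w c * g⁻¹ = T h (g • s) (g • w) c := uext fun x => by
  simp only [mul_smul, T_act H, T_act (H.act g), smul_sub, smul_add, act_smul, smul_inv_smul,
    hact']

theorem OK.smul {s w : V} {a c : F} (H : OK h (a • s) w c) (ha : a ≠ 0) :
    OK h s (star a • w) (a * star a * c) := by
  have h1 := H.ss
  have h2 := H.sw
  have h3 := H.tr
  simp [ha] at h1 h2
  exact ⟨h1, by simp [h2], by simp; linear_combination a * star a * h3⟩

theorem T_smul {s w : V} {a c : F} (H : OK h (a • s) w c) (ha : a ≠ 0) :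
    T h (a • s) w c = T h s (star a • w) (a * star a * c) := uext fun x => by
  simp only [T_act H, T_act (H.smul ha), HF.smul_right, star_star]
  module

theorem OK.shift {s w : V} {c : F} (H : OK h s w c) (a : F) :
    OK h s (w + a • s) (c + a - star a) :=
  ⟨H.ss, by simp [H.sw, H.ss], by simp [H.sw, H.ss, H.ws, ← H.tr]; ring⟩

theorem T_shift {s w : V} {c : F} (H : OK h s w c) (a : F) :
    T h s (w + a • s) (c + a - star a) = T h s w c := uext fun x => by
  simp only [T_act H, T_act (H.shift a), HF.add_right, HF.smul_right]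
  module

theorem T_swap {s w : V} (H : OK h s w 0) (H' : OK h w (-s) 0) : T h w (-s) 0 = T h s w 0 :=
  uext fun x => by
    simp only [T_act H, T_act H', HF.neg_right]
    module

theorem T_mem [FiniteDimensional F V] (s w : V) (c : F) : T h s w c ∈ SU h := by
  by_cases H : OK h s w c
  · rw [mem_SU, dt_eq (f := el h s w c) fun x => by rw [T_act H, el_apply H.ss], el,
      LinearMap.det_comp, ro_det, ro_det]
    simp [H.ss, H.sw, H.ws]
  · rw [T, dif_neg H]; exact one_mem _

/-! ### Involutions of rank two -/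

/-- admissible data for `P` -/
structure PK (h : HF F V) (s w : V) : Prop where
  ss : h s s = 0
  ww : h w w = 0
  sw : h s w = 2

theorem PK.ws {s w : V} (H : PK h s w) : h w s = 2 := by rw [← h.symm, H.sw]; simp

theorem PK.act {s w : V} (H : PK h s w) (g : UG h) : PK h (g • s) (g • w) :=
  ⟨by simp [H.ss], by simp [H.ww], by simp [H.sw]⟩

/-- the linear map behind `P` -/
def pl (h : HF F V) (s w : V) : V →ₗ[F] V := ro h w (-s) ∘ₗ ro h s (-w)

theorem pl_apply {s w : V} (hw : h w w = 0) (x : V) :
    pl h s w x = x - h x s • w - h x w • s := by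
  simp only [pl, LinearMap.comp_apply, ro_apply, HF.add_left, HF.smul_left, HF.neg_left, hw]
  module

theorem pl_inv {s w : V} (H : PK h s w) (x : V) : pl h s w (pl h s w x) = x := by
  simp only [pl_apply H.ww, HF.smul_left, HF.sub_left, H.ss, H.sw, H.ws, H.ww]
  module

open Classical in
/-- `x ↦ x - h x s • w - h x w • s` (the identity if the data are not admissible) -/
noncomputable def P (h : HF F V) (s w : V) : UG h :=
  if H : PK h s w then
    mkU (pl h s w) (pl h s w) (pl_inv H) (pl_inv H) (fun x y => by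
      simp [pl_apply H.ww, H.ss, H.sw, H.ws, H.ww]; ring)
  else 1

theorem P_act {s w : V} (H : PK h s w) (x : V) : P h s w • x = x - h x s • w - h x w • s := by
  rw [P, dif_pos H, mkU_act, pl_apply H.ww]

theorem P_sq {s w : V} (H : PK h s w) : P h s w * P h s w = 1 := uext fun x => by
  simpa only [mul_smul, P_act H, pl_apply H.ww, one_smul] using pl_inv H x

theorem P_conj {s w : V} (H : PK h s w) (g : UG h) :
    g * P h s w * g⁻¹ = P h (g • s) (g • w) := uext fun x => by
  simp only [mul_smul, P_act H, P_act (H.act g), smul_sub, act_smul, smul_inv_smul, hact']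

theorem P_mem [FiniteDimensional F V] (s w : V) : P h s w ∈ SU h := by
  by_cases H : PK h s w
  · rw [mem_SU, dt_eq (f := pl h s w) fun x => by rw [P_act H, pl_apply H.ww], pl,
      LinearMap.det_comp, ro_det, ro_det]
    simp only [HF.neg_left, H.sw, H.ws]; ring
  · rw [P, dif_neg H]; exact one_mem _

/-! ### Eichler maps inside a subgroup -/

/-- `L` contains an Eichler map with data `s`, `w` -/
def TA (L : Subgroup (UG h)) (s w : V) : Prop := ∃ c, OK h s w c ∧ T h s w c ∈ L

/-- `L` meets every coset of the centre of the unipotent radical of `s` -/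
def Full (L : Subgroup (UG h)) (s : V) : Prop := ∀ w, h s w = 0 → TA L s w

/-- `t` normalises `L` -/
def Nrm (L : Subgroup (UG h)) (t : UG h) : Prop := ∀ g ∈ L, t * g * t⁻¹ ∈ L

variable {L : Subgroup (UG h)} {s w w' : V}

theorem Nrm.of_mem {t : UG h} (ht : t ∈ L) : Nrm L t := fun _ hg =>
  L.mul_mem (L.mul_mem ht hg) (L.inv_mem ht)

theorem Nrm.mul {t u : UG h} (ht : Nrm L t) (hu : Nrm L u) : Nrm L (t * u) := fun g hg => by
  simpa only [mul_inv_rev, mul_assoc] using ht _ (hu g hg)

theorem TA.zero (hs : h s s = 0) : TA L s 0 :=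
  ⟨0, ⟨hs, by simp, by simp⟩, T_zero hs ▸ L.one_mem⟩

theorem TA.add (H : TA L s w) (H' : TA L s w') : TA L s (w + w') := by
  obtain ⟨c, k, m⟩ := H
  obtain ⟨c', k', m'⟩ := H'
  exact ⟨_, k.add k', T_mul k k' ▸ L.mul_mem m m'⟩

theorem TA.neg (H : TA L s w) : TA L s (-w) := by
  obtain ⟨c, k, m⟩ := H
  exact ⟨_, k.neg, T_inv k ▸ L.inv_mem m⟩

theorem TA.sub (H : TA L s w) (H' : TA L s w') : TA L s (w - w') :=
  sub_eq_add_neg w w' ▸ H.add H'.neg

theorem TA.nat (H : TA L s w) (n : ℕ) : TA L s ((n : F) • w) := by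
  induction n with
  | zero => simpa using TA.zero H.choose_spec.1.ss
  | succ n ih => rw [Nat.cast_succ, add_smul, one_smul]; exact ih.add H

theorem TA.shift (H : TA L s w) (a : F) : TA L s (w + a • s) := by
  obtain ⟨c, k, m⟩ := H
  exact ⟨_, k.shift a, T_shift k a ▸ m⟩

theorem TA.conj (H : TA L s w) {g : UG h} (hg : Nrm L g) : TA L (g • s) (g • w) := by
  obtain ⟨c, k, m⟩ := H
  exact ⟨_, k.act g, T_conj k g ▸ hg _ m⟩

theorem TA.smul {a : F} (H : TA L (a • s) w) (ha : a ≠ 0) : TA L s (star a • w) := by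
  obtain ⟨c, k, m⟩ := H
  exact ⟨_, k.smul ha, T_smul k ha ▸ m⟩

/-- an element that normalises `L` and fixes `s` -/
theorem TA.fix (H : TA L s w) {g : UG h} (hg : Nrm L g) (e : g • s = s) : TA L s (g • w) :=
  e ▸ H.conj hg

/-- an element that normalises `L` and multiplies `s` by `a` -/
theorem TA.fix' (H : TA L s w) {g : UG h} (hg : Nrm L g) {a : F} (ha : a ≠ 0)
    (e : g • s = a • s) : TA L s (star a • g • w) :=
  TA.smul (e ▸ H.conj hg) ha

/-- commutators give transvections -/
theorem TA.comm (H : TA L s w) (H' : TA L s w') : T h s 0 (h w' w - h w w') ∈ L := by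
  obtain ⟨c, k, m⟩ := H
  obtain ⟨c', k', m'⟩ := H'
  have := L.mul_mem (L.mul_mem m m') (L.inv_mem (L.mul_mem m' m))
  rw [T_mul k k', T_mul k' k, T_inv (k'.add k), T_mul (k.add k') (k'.add k).neg] at this
  convert this using 2
  · abel
  · simp; linear_combination -k.tr - k'.tr

theorem Full.conj (H : Full L s) {g : UG h} (hg : Nrm L g) : Full L (g • s) := fun w hw => by
  simpa using (H (g⁻¹ • w) (by rwa [← hact g, smul_inv_smul])).conj hg

theorem Full.smul {a : F} (H : Full L (a • s)) (ha : a ≠ 0) : Full L s := fun w hw => by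
  have := (H ((star a)⁻¹ • w) (by simp [hw])).smul ha
  rwa [smul_smul, mul_inv_cancel₀ (by simpa using ha), one_smul] at this

/-- It suffices to find the multiples of a spanning set. -/
theorem Full.of_span {s' : V} (hs : h s s = 0) (h1 : h s' s = 1) (S : Set V)
    (hS : ∀ M : Submodule F V, s ∈ M → s' ∈ M → S ⊆ M → M = ⊤)
    (H : ∀ v ∈ S, ∀ a : F, TA L s (a • v)) : Full L s := by
  let M : Submodule F V :=
    { carrier := {v | ∀ a : F, TA L s (a • (v - h v s • s'))}
      zero_mem' := fun a => by simpa using TA.zero hs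
      add_mem' := fun {x y} hx hy a => by
        convert (hx a).add (hy a) using 1
        simp only [HF.add_left]; module
      smul_mem' := fun b x hx a => by
        convert hx (a * b) using 1
        simp only [HF.smul_left]; module }
  have hM : M = ⊤ := hS M (fun a => by simpa [hs] using (TA.zero hs).shift a)
    (fun a => by simpa [h1] using TA.zero hs) fun v hv a => by
      have h0 : h v s = 0 := by simpa using (H v hv 1).choose_spec.1.ws
      simpa [h0] using H v hv a
  intro w hw
  simpa [HF.swap0 hw] using (hM ▸ Submodule.mem_top : w ∈ M) 1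

/-! ### Frames -/

/-- two orthogonal hyperbolic pairs -/
structure Blk (h : HF F V) (ea fa eb fb : V) : Prop where
  aa : h ea ea = 0
  ab : h ea eb = 0
  ba : h eb ea = 0
  bb : h eb eb = 0
  aa' : h fa fa = 0
  ab' : h fa fb = 0
  ba' : h fb fa = 0
  bb' : h fb fb = 0
  eaa : h ea fa = 1
  eab : h ea fb = 0
  eba : h eb fa = 0
  ebb : h eb fb = 1
  faa : h fa ea = 1
  fab : h fa eb = 0
  fba : h fb ea = 0
  fbb : h fb eb = 1

/-- a vector of norm `-1` orthogonal to the two pairs -/
structure BlkZ (h : HF F V) (ea fa eb fb z : V) : Prop extends Blk h ea fa eb fb where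
  zz : h z z = -1
  z1 : h z ea = 0
  z2 : h z fa = 0
  z3 : h z eb = 0
  z4 : h z fb = 0
  z1' : h ea z = 0
  z2' : h fa z = 0
  z3' : h eb z = 0
  z4' : h fb z = 0

/-- a family of pairwise orthogonal hyperbolic pairs -/
structure Witt (h : HF F V) {ι : Type} [DecidableEq ι] (e f : ι → V) : Prop where
  ee : ∀ i j, h (e i) (e j) = 0
  ff : ∀ i j, h (f i) (f j) = 0
  ef : ∀ i j, h (e i) (f j) = if i = j then 1 else 0
  fe : ∀ i j, h (f i) (e j) = if i = j then 1 else 0

theorem Witt.blk {ι : Type} [DecidableEq ι] {e f : ι → V} (W : Witt h e f) {a b : ι}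
    (hab : a ≠ b) : Blk h (e a) (f a) (e b) (f b) := by
  constructor <;> simp [W.ee, W.ff, W.ef, W.fe, hab, hab.symm]

/-- two elements that agree on a spanning set -/
theorem ext_span {g k : UG h} (S : Set V) (hS : ∀ M : Submodule F V, S ⊆ M → M = ⊤)
    (H : ∀ v ∈ S, g • v = k • v) : g = k := uext fun x =>
  (hS (LinearMap.eqLocus (g.1 : V →ₗ[F] V) (k.1 : V →ₗ[F] V)) H ▸ Submodule.mem_top :
    x ∈ LinearMap.eqLocus (g.1 : V →ₗ[F] V) (k.1 : V →ₗ[F] V))

/-- `y` is orthogonal to all vectors of `S` -/
def Pp (h : HF F V) (S : Set V) (y : V) : Prop := ∀ v ∈ S, h y v = 0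

/-- two elements that agree on a block and on its orthogonal complement -/
theorem Blk.ext {ea fa eb fb : V} (B : Blk h ea fa eb fb) {g k : UG h} (h1 : g • ea = k • ea)
    (h2 : g • fa = k • fa) (h3 : g • eb = k • eb) (h4 : g • fb = k • fb)
    (H : ∀ y, Pp h {ea, fa, eb, fb} y → g • y = k • y) : g = k := uext fun x => by
  have := H (x - h x fa • ea - h x ea • fa - h x fb • eb - h x eb • fb) (by
    rintro v (rfl | rfl | rfl | rfl) <;>
      simp [B.aa, B.ab, B.ba, B.bb, B.aa', B.ab', B.ba', B.bb', B.eaa, B.eab, B.eba, B.ebb, B.faa,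
        B.fab, B.fba, B.fbb])
  simpa only [smul_sub, act_smul, h1, h2, h3, h4, sub_left_inj] using this

theorem BlkZ.ext {ea fa eb fb z : V} (B : BlkZ h ea fa eb fb z) {g k : UG h}
    (h1 : g • ea = k • ea) (h2 : g • fa = k • fa) (h3 : g • eb = k • eb) (h4 : g • fb = k • fb)
    (h5 : g • z = k • z) (H : ∀ y, Pp h {ea, fa, eb, fb, z} y → g • y = k • y) : g = k :=
  B.toBlk.ext h1 h2 h3 h4 fun y hy => by
    have := H (y + h y z • z) (by
      rintro v (rfl | rfl | rfl | rfl | rfl) <;>
        simp [B.zz, B.z1, B.z2, B.z3, B.z4, hy _ (Or.inl rfl), hy _ (Or.inr (Or.inl rfl)),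
          hy _ (Or.inr (Or.inr (Or.inl rfl))), hy _ (Or.inr (Or.inr (Or.inr rfl)))])
    simpa only [smul_add, act_smul, h5, add_left_inj] using this

/-- nondegenerate -/
def ND (h : HF F V) : Prop := ∀ x, (∀ y, h x y = 0) → x = 0

/-- An element that fixes `S` commutes with an element that fixes the complement of `S`. -/
theorem comm_of (hN : ND h) {S : Set V}
    (hS : ∀ x, ∃ v ∈ Submodule.span F S, Pp h S (x - v)) {c r : UG h}
    (hc : ∀ y, Pp h S y → c • y = y) (hr : ∀ v ∈ S, r • v = v) : Commute c r := by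
  have hr' : ∀ v ∈ Submodule.span F S, r • v = v := fun v hv =>
    Submodule.span_induction (p := fun v _ => r • v = v) hr (smul_zero r)
      (fun x y _ _ hx hy => by rw [smul_add, hx, hy]) (fun a x _ hx => by rw [act_smul, hx]) hv
  have hp : ∀ y, Pp h S y → ∀ v ∈ Submodule.span F S, h y v = 0 := fun y hy v hv =>
    Submodule.span_induction (p := fun v _ => h y v = 0) hy (by simp)
      (fun x y _ _ hx hy => by simp [hx, hy]) (fun a x _ hx => by simp [hx]) hv
  refine uext fun x => ?_
  obtain ⟨v, hv, hy⟩ := hS x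
  obtain ⟨u, hu, hz⟩ := hS (c • v)
  have e : c • v = u := sub_eq_zero.1 (hN _ fun y => by
    obtain ⟨v', hv', hy'⟩ := hS y
    have h1 := hp _ hz _ hv'
    have h2 : h (c • v) (y - v') = 0 := by
      rw [← hc _ hy', hact]; exact HF.swap0 (hp _ hy' _ hv)
    have h3 := HF.swap0 (hp _ hy' _ hu)
    simp only [HF.sub_left, HF.sub_right] at *
    linear_combination h1 + h2 - h3)
  have h4 : Pp h S (r • (x - v)) := fun w hw => by rw [← hr w hw, hact]; exact hy w hw
  rw [← sub_add_cancel x v, mul_smul, mul_smul, smul_add, smul_add, smul_add, smul_add, hc _ h4,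
    hc _ hy, hr' v hv, e, hr' u hu]

theorem Blk.dec {ea fa eb fb : V} (B : Blk h ea fa eb fb) (x : V) :
    ∃ v ∈ Submodule.span F {ea, fa, eb, fb}, Pp h {ea, fa, eb, fb} (x - v) := by
  refine ⟨h x fa • ea + h x ea • fa + h x fb • eb + h x eb • fb, ?_, ?_⟩
  · refine add_mem (add_mem (add_mem ?_ ?_) ?_) ?_ <;>
      exact Submodule.smul_mem _ _ (Submodule.subset_span (by simp))
  · rintro v (rfl | rfl | rfl | rfl) <;>
      simp [B.aa, B.ab, B.ba, B.bb, B.aa', B.ab', B.ba', B.bb', B.eaa, B.eab, B.eba, B.ebb, B.faa,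
        B.fab, B.fba, B.fbb]

theorem BlkZ.dec {ea fa eb fb z : V} (B : BlkZ h ea fa eb fb z) (x : V) :
    ∃ v ∈ Submodule.span F {ea, fa, eb, fb, z}, Pp h {ea, fa, eb, fb, z} (x - v) := by
  refine ⟨h x fa • ea + h x ea • fa + h x fb • eb + h x eb • fb - h x z • z, ?_, ?_⟩
  · refine sub_mem (add_mem (add_mem (add_mem ?_ ?_) ?_) ?_) ?_ <;>
      exact Submodule.smul_mem _ _ (Submodule.subset_span (by simp))
  · rintro v (rfl | rfl | rfl | rfl | rfl) <;>
      simp [B.aa, B.ab, B.ba, B.bb, B.aa', B.ab', B.ba', B.bb', B.eaa, B.eab, B.eba, B.ebb, B.faa,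
        B.fab, B.fba, B.fbb, B.zz, B.z1, B.z2, B.z3, B.z4, B.z1', B.z2', B.z3', B.z4']

/-- conjugate by an element of `SU` that fixes the orthogonal complement of `S` -/
def Cj (S : Set V) (g k : UG h) : Prop :=
  ∃ c ∈ SU h, (∀ y, Pp h S y → c • y = y) ∧ c * g * c⁻¹ = k

theorem Cj.refl (S : Set V) (g : UG h) : Cj S g g := ⟨1, one_mem _, by simp, by simp⟩

theorem Cj.symm {S : Set V} {g k : UG h} (H : Cj S g k) : Cj S k g := by
  obtain ⟨c, m, f, rfl⟩ := H
  exact ⟨c⁻¹, inv_mem m, fun y hy => by rw [inv_smul_eq_iff, f y hy], by group⟩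

theorem Cj.trans {S : Set V} {g k l : UG h} (H : Cj S g k) (H' : Cj S k l) : Cj S g l := by
  obtain ⟨c, m, f, rfl⟩ := H
  obtain ⟨c', m', f', rfl⟩ := H'
  exact ⟨c' * c, mul_mem m' m, fun y hy => by rw [mul_smul, f y hy, f' y hy], by group⟩

theorem Cj.mono {S S' : Set V} (hS : S ⊆ S') {g k : UG h} (H : Cj S g k) : Cj S' g k := by
  obtain ⟨c, m, f, e⟩ := H
  exact ⟨c, m, fun y hy => f y fun v hv => hy v (hS hv), e⟩

/-- normal form of the involutions: `-1` on the pair `eb, fb` times an Eichler map -/
noncomputable def X (h : HF F V) (eb fb w : V) (c : F) : UG h :=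
  P h fb ((2 : F) • eb) * T h fb w c

/-- three conjugate involutions (modulo scalars) that generate two opposite radicals -/
def Tri (h : HF F V) : Prop :=
  ∃ t1 ∈ SU h, ∃ t2 ∈ SU h, ∃ t3 ∈ SU h, ∃ c2 ∈ SU h, ∃ c3 ∈ SU h, (∃ a, t1 * t1 = sc h a) ∧
    c2 * t1 * c2⁻¹ = t2 ∧ c3 * t1 * c3⁻¹ = t3 ∧ ∀ L : Subgroup (UG h), t1 ∈ L → t2 ∈ L → t3 ∈ L →
      ∃ s s', h s s = 0 ∧ h s' s' = 0 ∧ h s s' = 1 ∧ Full L s ∧ Full L s'

/-- `c` generates the field as a ring -/
def Gen (c : F) : Prop := ∀ S : Subring F, c ∈ S → S = ⊤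

omit [StarRing F] in
/-- a set of scalars closed under sums, negatives and multiplication by a generator -/
theorem Gen.all {c : F} (hc : Gen c) (E : F → Prop) (h0 : E 0) (ha : ∀ a b, E a → E b → E (a + b))
    (hn : ∀ a, E a → E (-a)) (hm : ∀ a, E a → E (c * a)) {a : F} (h1 : E a) (b : F) :
    E (b * a) := by
  let S : Subring F :=
    { carrier := {r | ∀ a, E a → E (r * a)}
      zero_mem' := fun a _ => by simpa using h0
      one_mem' := fun a h => by simpa using h
      add_mem' := fun {x y} hx hy a h => by rw [add_mul]; exact ha _ _ (hx a h) (hy a h)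
      neg_mem' := fun {x} hx a h => by rw [neg_mul]; exact hn _ (hx a h)
      mul_mem' := fun {x y} hx hy a h => by rw [mul_assoc]; exact hx _ (hy a h) }
  exact (hc S hm ▸ Subring.mem_top b : b ∈ S) a h1

/-- The standard form. -/
def std (F : Type) [Field F] [StarRing F] (n : ℕ) : HF F (Fin n → F) where
  B x y := ∑ i, x i * star (y i)
  add_left x y z := by simp [add_mul, Finset.sum_add_distrib]
  smul_left a x y := by simp [Finset.mul_sum, mul_assoc]
  symm x y := by simp [star_sum, mul_comm]

theorem std_apply {n : ℕ} (x y : Fin n → F) : std F n x y = ∑ i, x i * star (y i) := rfl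

theorem std_nd (n : ℕ) : ND (std F n) := fun x hx => funext fun i => by
  simpa [std_apply, Pi.single_apply, apply_ite star] using hx (Pi.single i 1)

end Pool.Agent.Lib.MP_cad414_al.Cg.UU
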