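import Pool.Agent.Lib.MP_cad414_al.Cg.UConj

/-! The modified involution on a block. -/

namespace Pool.Agent.Lib.MP_cad414_al.Cg.UU

open Module

variable {F V : Type} [Field F] [StarRing F] [Finite F] [AddCommGroup V] [Module F V]
  [FiniteDimensional F V] {h : HF F V}

variable {ea fa eb fb z : V}

omit [Finite F] [FiniteDimensional F V] in
theorem ublk_conj (hN : ND h) {S : Set V}
    (hS : ∀ x, ∃ v ∈ Submodule.span F S, Pp h S (x - v)) {n x t : UG h} (C : Cj S n x)
    (hr : ∀ v ∈ S, n • v = t • v) : ∃ c ∈ SU h, c * t * c⁻¹ = x * n⁻¹ * t := by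
  obtain ⟨c, m, f, rfl⟩ := C
  have H : Commute c (n⁻¹ * t) := comm_of hN hS f fun v hv => by
    rw [mul_smul, ← hr v hv, inv_smul_smul]
  refine ⟨c, m, ?_⟩
  calc c * t * c⁻¹ = c * n * c⁻¹ * (c * (n⁻¹ * t)) * c⁻¹ := by group
    _ = c * n * c⁻¹ * (n⁻¹ * t * c) * c⁻¹ := by rw [H.eq]
    _ = _ := by group

omit [Finite F] [FiniteDimensional F V] in
theorem ublk_pk (B : Blk h ea fa eb fb) : PK h (fb - ea) (eb - fa) := by
  constructor <;> simp [B.aa, B.ab, B.bb, B.aa', B.ba', B.bb', B.eaa, B.eab, B.eba, B.fab, B.fba,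
    B.fbb]
  ring

omit [Finite F] [FiniteDimensional F V] in
theorem ublk_pk2 (B : Blk h ea fa eb fb) : PK h fb ((2 : F) • eb) := by
  constructor <;> simp [B.bb, B.bb', B.fbb]

omit [Finite F] [FiniteDimensional F V] in
theorem ublk_n (B : Blk h ea fa eb fb) : P h (fb - ea) (eb - fa) • ea = fb ∧
    P h (fb - ea) (eb - fa) • fb = ea ∧ P h (fb - ea) (eb - fa) • eb = fa ∧
    P h (fb - ea) (eb - fa) • fa = eb ∧
    ∀ y, Pp h {ea, fa, eb, fb} y → P h (fb - ea) (eb - fa) • y = y := by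
  refine ⟨?_, ?_, ?_, ?_, fun y hy => ?_⟩ <;> rw [P_act (ublk_pk B)]
  · simp [B.aa, B.ab, B.eaa, B.eab]
  · simp [B.bb', B.fba, B.fbb, B.ba']
  · simp [B.bb, B.ba, B.eba, B.ebb]
  · simp [B.aa', B.ab', B.faa, B.fab]
  · simp [hy ea (by simp), hy fa (by simp), hy eb (by simp), hy fb (by simp)]

omit [Finite F] [FiniteDimensional F V] in
theorem ublk_inv (B : Blk h ea fa eb fb) : (P h (fb - ea) (eb - fa))⁻¹ = P h (fb - ea) (eb - fa) :=
  inv_eq_of_mul_eq_one_right (P_sq (ublk_pk B))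

omit [Finite F] [FiniteDimensional F V] in
theorem ublk_X (B : Blk h ea fa eb fb) {w : V} (k : OK h fb w 0) (we : h w eb = 0) (x : V) :
    X h eb fb w 0 • x = x + h x fb • w - (2 * h x fb) • eb + (h x w - 2 * h x eb) • fb := by
  rw [X, mul_smul, T_act k, P_act (ublk_pk2 B)]
  simp only [HF.add_left, HF.sub_left, HF.smul_left, HF.smul_right, k.ws, B.bb', B.fbb, we,
    star_ofNat]
  module

omit [Finite F] in
theorem ublk_mem (eb fb w s u : V) : X h eb fb w 0 * P h s u ∈ SU h :=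
  mul_mem (mul_mem (P_mem _ _) (T_mem _ _ _)) (P_mem _ _)

omit [Finite F] [FiniteDimensional F V] in
theorem ublk_ok (B : Blk h ea fa eb fb) (a : F) : OK h fb (a • ea) 0 := by
  constructor <;> simp [B.aa, B.bb', B.fba]

omit [Finite F] [FiniteDimensional F V] in
theorem ublk_pow (B : Blk h ea fa eb fb) (a : F) (n : ℕ) :
    T h fb (a • ea) 0 ^ n = T h fb ((n * a) • ea) 0 := by
  induction n with
  | zero => simp [T_zero B.bb']
  | succ n ih =>
    rw [pow_succ, ih, T_mul (ublk_ok B _) (ublk_ok B _), ← add_smul]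
    simp [B.aa, add_mul]

/-- `G = X (l • ea) 0 * n`, `n = P (fb - ea) (eb - fa)`; `G ^ 4 = T fb (-2 • ea) 0`, and
`G ^ 2 = T fb ea 0` in characteristic two. `n⁻¹ * t` fixes the block: use `comm_of`. -/
theorem blk_even (hN : ND h) (B : Blk h ea fa eb fb) {l : F} (hl : l + star l = 1) {t : UG h}
    (h1 : t • ea = fb) (h2 : t • fb = ea) (h3 : t • eb = fa) (h4 : t • fa = eb) :
    ∃ G ∈ SU h, ∃ c ∈ SU h, c * t * c⁻¹ = G * t ∧ (∀ y, Pp h {ea, fa, eb, fb} y → G • y = y) ∧
      G • ea = -fb ∧ G • eb = fa + star l • fb ∧ G • fb = ea ∧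
      ∀ L : Subgroup (UG h), G ∈ L → T h fb ea 0 ∈ L := by
  have hl0 : l ≠ 0 := by
    rintro rfl
    simp at hl
  obtain ⟨n1, n2, n3, n4, n5⟩ := ublk_n B
  obtain ⟨c, m, e⟩ := ublk_conj hN B.dec ((cj_n B).symm.trans (cj_lam B hl0)) (t := t) (by
    rintro v (rfl | rfl | rfl | rfl)
    exacts [n1.trans h1.symm, n4.trans h4.symm, n3.trans h3.symm, n2.trans h2.symm])
  rw [ublk_inv B] at e
  have k := ublk_ok B l
  have hX := ublk_X B k (by simp [B.ab])
  obtain ⟨G, hG⟩ : ∃ G, G = X h eb fb (l • ea) 0 * P h (fb - ea) (eb - fa) := ⟨_, rfl⟩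
  have g0 : ∀ y, Pp h {ea, fa, eb, fb} y → G • y = y := fun y hy => by
    rw [hG, mul_smul, n5 y hy, hX]
    simp [hy ea (by simp), hy eb (by simp), hy fb (by simp)]
  have g1 : G • ea = -fb := by
    rw [hG, mul_smul, n1, hX]
    simp only [HF.smul_right, B.bb', B.fba, B.fbb]
    module
  have g2 : G • eb = fa + star l • fb := by
    rw [hG, mul_smul, n3, hX]
    simp only [HF.smul_right, B.ab', B.faa, B.fab]
    module
  have g3 : G • fb = ea := by
    rw [hG, mul_smul, n2, hX]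
    simp only [HF.smul_right, B.eab, B.aa, B.ab]
    module
  have g4 : G • fa = -eb + l • ea := by
    rw [hG, mul_smul, n4, hX]
    simp only [HF.smul_right, B.ebb, B.ba, B.bb]
    module
  have q0 : ∀ y, Pp h {ea, fa, eb, fb} y → (G * G) • y = y := fun y hy => by
    rw [mul_smul, g0 y hy, g0 y hy]
  have q1 : (G * G) • ea = -ea := by rw [mul_smul, g1, smul_neg, g3]
  have q2 : (G * G) • fb = -fb := by rw [mul_smul, g3, g1]
  have q3 : (G * G) • eb = -eb + ea := by
    rw [mul_smul, g2, smul_add, act_smul, g4, g3]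
    match_scalars
    · ring
    · linear_combination hl
  have q4 : (G * G) • fa = -fa - fb := by
    rw [mul_smul, g4, smul_add, smul_neg, act_smul, g2, g1]
    match_scalars
    · ring
    · linear_combination -hl
  refine ⟨G, hG ▸ ublk_mem _ _ _ _ _, c, m, hG ▸ e, g0, g1, g2, g3, fun L hL => ?_⟩
  by_cases two : (2 : F) = 0
  · have k1 : OK h fb ea 0 := by simpa using ublk_ok B 1
    have : T h fb ea 0 = G * G := by
      refine B.ext ?_ ?_ ?_ ?_ fun y hy => ?_ <;> rw [T_act k1]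
      · rw [q1]
        simp only [B.eab, B.aa]
        match_scalars <;> first | ring1 | linear_combination two
      · rw [q4]
        simp only [B.ab', B.faa]
        match_scalars <;> first | ring1 | linear_combination two
      · rw [q3]
        simp only [B.ebb, B.ba]
        match_scalars <;> first | ring1 | linear_combination two
      · rw [q2]
        simp only [B.bb', B.fba]
        match_scalars <;> first | ring1 | linear_combination two
      · rw [q0 y hy]
        simp [hy ea (by simp), hy fb (by simp)]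
    exact this ▸ L.mul_mem hL hL
  · obtain ⟨n, hn⟩ := exists_half two
    have : T h fb ((-2 : F) • ea) 0 = G * G * (G * G) := by
      refine B.ext ?_ ?_ ?_ ?_ fun y hy => ?_ <;> rw [T_act (ublk_ok B _), mul_smul (G * G)]
      · rw [q1, smul_neg, q1]
        simp [B.eab, B.aa]
      · rw [q4, smul_sub, smul_neg, q4, q2]
        simp only [HF.smul_right, B.ab', B.faa, star_neg, star_ofNat]
        module
      · rw [q3, smul_add, smul_neg, q3, q1]
        simp only [HF.smul_right, B.ebb, B.ba]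
        module
      · rw [q2, smul_neg, q2]
        simp [B.bb', B.fba]
      · rw [q0 y hy, q0 y hy]
        simp [hy ea (by simp), hy fb (by simp)]
    have h5 := L.inv_mem (L.pow_mem (this ▸ L.mul_mem (L.mul_mem hL hL) (L.mul_mem hL hL)) n)
    rw [ublk_pow B, T_inv (ublk_ok B _), mul_neg, hn] at h5
    simpa using h5

/-- `G = X (l • ea - fa + z) 0 * n`; `G ^ 3 = T fb ea 0` -/
theorem blk_odd (hN : ND h) (B : BlkZ h ea fa eb fb z) {l : F} (hl : l + star l = -1) {t : UG h}
    (h1 : t • ea = fb) (h2 : t • fb = ea) (h3 : t • eb = fa) (h4 : t • fa = eb) (h5 : t • z = z) :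
    ∃ G ∈ SU h, ∃ c ∈ SU h, c * t * c⁻¹ = G * t ∧ (∀ y, Pp h {ea, fa, eb, fb, z} y → G • y = y) ∧
      G • ea = -fb ∧ G • eb = fa + star l • fb ∧ G • fb = ea - fb ∧
      G • fa = -eb + l • ea - fa + z ∧ G ^ 3 = T h fb ea 0 := by
  have B' := B.toBlk
  obtain ⟨n1, n2, n3, n4, n5⟩ := ublk_n B'
  have n6 : P h (fb - ea) (eb - fa) • z = z := n5 z (by
    rintro v (rfl | rfl | rfl | rfl)
    exacts [B.z1, B.z2, B.z3, B.z4])
  have sub : ({ea, fa, eb, fb} : Set V) ⊆ {ea, fa, eb, fb, z} := by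
    rintro v (rfl | rfl | rfl | rfl) <;> simp
  obtain ⟨c, m, e⟩ := ublk_conj hN B.dec (((cj_n B').mono sub).symm.trans (cj_z B hl)) (t := t) (by
    rintro v (rfl | rfl | rfl | rfl | rfl)
    exacts [n1.trans h1.symm, n4.trans h4.symm, n3.trans h3.symm, n2.trans h2.symm,
      n6.trans h5.symm])
  rw [ublk_inv B'] at e
  have k : OK h fb (l • ea - fa + z) 0 := by
    refine ⟨B.bb', by simp [B.fba, B.ba', B.z4'], ?_⟩
    simp [B.aa, B.aa', B.eaa, B.faa, B.zz, B.z1, B.z2, B.z1', B.z2']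
    linear_combination hl
  have hX := ublk_X B' k (by simp [B.ab, B.fab, B.z3])
  obtain ⟨G, hG⟩ : ∃ G, G = X h eb fb (l • ea - fa + z) 0 * P h (fb - ea) (eb - fa) := ⟨_, rfl⟩
  have g0 : ∀ y, Pp h {ea, fa, eb, fb, z} y → G • y = y := fun y hy => by
    rw [hG, mul_smul, n5 y fun v hv => hy v (sub hv), hX]
    simp [hy ea (by simp), hy fa (by simp), hy eb (by simp), hy fb (by simp), hy z (by simp)]
  have g1 : G • ea = -fb := by
    rw [hG, mul_smul, n1, hX]
    simp only [HF.smul_right, HF.add_right, HF.sub_right, B.bb', B.fba, B.fbb, B.ba', B.z4']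
    module
  have g2 : G • eb = fa + star l • fb := by
    rw [hG, mul_smul, n3, hX]
    simp only [HF.smul_right, HF.add_right, HF.sub_right, B.ab', B.faa, B.fab, B.aa', B.z2']
    module
  have g3 : G • fb = ea - fb := by
    rw [hG, mul_smul, n2, hX]
    simp only [HF.smul_right, HF.add_right, HF.sub_right, B.eab, B.aa, B.ab, B.eaa, B.z1']
    module
  have g4 : G • fa = -eb + l • ea - fa + z := by
    rw [hG, mul_smul, n4, hX]
    simp only [HF.smul_right, HF.add_right, HF.sub_right, B.ebb, B.ba, B.bb, B.eba, B.z3']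
    module
  have g5 : G • z = z - fb := by
    rw [hG, mul_smul, n6, hX]
    simp only [HF.smul_right, HF.add_right, HF.sub_right, B.z1, B.z2, B.z3, B.z4, B.zz]
    module
  refine ⟨G, hG ▸ ublk_mem _ _ _ _ _, c, m, hG ▸ e, g0, g1, g2, g3, g4, ?_⟩
  have k1 : OK h fb ea 0 := by simpa using ublk_ok B' 1
  have hs : star l = -1 - l := by linear_combination hl
  refine B.ext ?_ ?_ ?_ ?_ ?_ fun y hy => ?_ <;>
    rw [T_act k1, pow_three, mul_smul, mul_smul]
  · simp only [g1, g3, smul_neg, smul_sub, B.eab, B.aa]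
    module
  · simp only [g1, g2, g3, g4, g5, smul_neg, smul_sub, smul_add, act_smul, B.ab', B.faa, hs]
    module
  · simp only [g1, g2, g3, g4, g5, smul_neg, smul_sub, smul_add, act_smul, B.ebb, B.ba, hs]
    module
  · simp only [g1, g3, smul_neg, smul_sub, B.bb', B.fba]
    module
  · simp only [g1, g3, g5, smul_sub, B.z4, B.z1]
    module
  · rw [g0 y hy, g0 y hy, g0 y hy]
    simp [hy ea (by simp), hy fb (by simp)]

/-- `t * P (fb - fa) (eb - ea)` swaps the two pairs in addition -/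
theorem blk_J (hF : ∃ a : F, star a ≠ a) (hN : ND h) (B : Blk h ea fa eb fb) {t : UG h}
    (h1 : t • ea = fa) (h2 : t • fa = ea) (h3 : t • eb = fb) (h4 : t • fb = eb) :
    ∃ c ∈ SU h, c * t * c⁻¹ = t * P h (fb - fa) (eb - ea) := by
  obtain ⟨n1, n2, n3, n4, n5⟩ := ublk_n B
  have k : PK h (fb - fa) (eb - ea) := by
    constructor <;> simp [B.aa, B.ab, B.ba, B.bb, B.aa', B.ab', B.ba', B.bb', B.faa, B.fab, B.fba,
      B.fbb]
    ring
  have p1 : P h (fb - fa) (eb - ea) • ea = eb := by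
    simp [P_act k, B.aa, B.ab, B.eaa, B.eab]
  have p2 : P h (fb - fa) (eb - ea) • eb = ea := by
    simp [P_act k, B.bb, B.ba, B.eba, B.ebb]
  have p3 : P h (fb - fa) (eb - ea) • fa = fb := by
    simp [P_act k, B.aa', B.ab', B.faa, B.fab]
  have p4 : P h (fb - fa) (eb - ea) • fb = fa := by
    simp [P_act k, B.bb', B.ba', B.fba, B.fbb]
  have p5 : ∀ y, Pp h {ea, fa, eb, fb} y → P h (fb - fa) (eb - ea) • y = y := fun y hy => by
    simp [P_act k, hy ea (by simp), hy fa (by simp), hy eb (by simp), hy fb (by simp)]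
  have pp := P_sq k
  generalize P h (fb - fa) (eb - ea) = p at *
  have C := cj_J hF B (J := P h (fb - ea) (eb - fa) * p) (by rw [mul_smul, p1, n3])
    (by rw [mul_smul, p3, n2]) (by rw [mul_smul, p2, n1]) (by rw [mul_smul, p4, n4])
    fun y hy => by rw [mul_smul, p5 y hy, n5 y hy]
  generalize P h (fb - ea) (eb - fa) = n at *
  have hr : ∀ v ∈ ({ea, fa, eb, fb} : Set V), (n * p) • v = t • v := by
    rintro v (rfl | rfl | rfl | rfl)
    · rw [mul_smul, p1, n3, h1]
    · rw [mul_smul, p3, n2, h2]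
    · rw [mul_smul, p2, n1, h3]
    · rw [mul_smul, p4, n4, h4]
  obtain ⟨c, m, e⟩ := ublk_conj hN B.dec C hr
  have H : Commute p ((n * p)⁻¹ * t) := comm_of hN B.dec p5 fun v hv => by
    rw [mul_smul, ← hr v hv, inv_smul_smul]
  refine ⟨c, m, e.trans ?_⟩
  calc n * (n * p)⁻¹ * t = n * (p * p) * ((n * p)⁻¹ * t) := by rw [pp]; group
    _ = n * p * (p * ((n * p)⁻¹ * t)) := by simp only [mul_assoc]
    _ = n * p * ((n * p)⁻¹ * t * p) := by rw [H.eq]
    _ = t * p := by group

end Pool.Agent.Lib.MP_cad414_al.Cg.UU
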