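import Pool.Agent.Lib.MP_cad414_al.Cg.UField

/-! Conjugacy of the involutions of rank two on a block. -/

namespace Pool.Agent.Lib.MP_cad414_al.Cg.UU

open Module

variable {F V : Type} [Field F] [StarRing F] [Finite F] [AddCommGroup V] [Module F V]
  [FiniteDimensional F V] {h : HF F V}

variable {ea fa eb fb z : V}

namespace UConj

/-- in `SU` and trivial on the complement of `S` -/
def Gd (S : Set V) (g : UG h) : Prop := g ∈ SU h ∧ ∀ y, Pp h S y → g • y = y

omit [Finite F] [FiniteDimensional F V] in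
theorem Gd.mul {S : Set V} {g k : UG h} (H : Gd S g) (H' : Gd S k) : Gd S (g * k) :=
  ⟨mul_mem H.1 H'.1, fun y hy => by rw [mul_smul, H'.2 y hy, H.2 y hy]⟩

omit [Finite F] [FiniteDimensional F V] in
theorem pp_span {S : Set V} {y v : V} (hy : Pp h S y) (hv : v ∈ Submodule.span F S) :
    h y v = 0 :=
  Submodule.span_induction (p := fun v _ => h y v = 0) hy (by simp)
    (fun x y _ _ hx hy => by simp [hx, hy]) (fun a x _ hx => by simp [hx]) hv

omit [Finite F] in
theorem gdT {S : Set V} {s w : V} {c : F} (k : OK h s w c) (hs : s ∈ Submodule.span F S)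
    (hw : w ∈ Submodule.span F S) : Gd S (T h s w c) :=
  ⟨T_mem _ _ _, fun y hy => by simp [T_act k, pp_span hy hs, pp_span hy hw]⟩

omit [Finite F] in
theorem gdP {S : Set V} {s w : V} (k : PK h s w) (hs : s ∈ Submodule.span F S)
    (hw : w ∈ Submodule.span F S) : Gd S (P h s w) :=
  ⟨P_mem _ _, fun y hy => by simp [P_act k, pp_span hy hs, pp_span hy hw]⟩

omit [Finite F] [FiniteDimensional F V] in
theorem pk (ff : h fb fb = 0) (ee : h eb eb = 0) (fe : h fb eb = 1) :
    PK h fb ((2 : F) • eb) := ⟨ff, by simp [ee], by simp [fe]⟩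

omit [Finite F] [FiniteDimensional F V] in
theorem X_act (ee : h eb eb = 0) (fe : h fb eb = 1) {w : V} {c : F} (k : OK h fb w c)
    (we : h w eb = 0) (x : V) : X h eb fb w c • x =
      x + h x fb • w + (h x w + c * h x fb - 2 * h x eb) • fb - (2 * h x fb) • eb := by
  rw [X, mul_smul, T_act k, P_act (pk k.ss ee fe)]
  simp only [HF.add_left, HF.sub_left, HF.smul_left, HF.smul_right, k.ss, k.ws, we, fe, star_ofNat]
  module

omit [Finite F] [FiniteDimensional F V] in
/-- conjugation of the normal form -/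
theorem cjX {S : Set V} {g : UG h} (hg : Gd S g) (ee : h eb eb = 0) (fe : h fb eb = 1) {w : V}
    {c : F} (k : OK h fb w c) (we : h w eb = 0) {eb' fb' w' : V} (e1 : g • eb = eb')
    (e2 : g • fb = fb') (e3 : g • w = w') {r : UG h} (hr : ∀ x, r • x =
      x + h x fb' • w' + (h x w' + c * h x fb' - 2 * h x eb') • fb' - (2 * h x fb') • eb') :
    Cj S (X h eb fb w c) r := by
  refine ⟨g, hg.1, hg.2, uext fun x => ?_⟩
  rw [hr, mul_smul, mul_smul, X_act ee fe k we]
  simp only [smul_add, smul_sub, act_smul, smul_inv_smul, hact', e1, e2, e3]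

omit [StarRing F] [Finite F] [FiniteDimensional F V] in
theorem m1 {S : Set V} : ea ∈ Submodule.span F (insert ea S) := Submodule.subset_span (by simp)

omit [StarRing F] [Finite F] [FiniteDimensional F V] in
theorem m2 {S : Set V} : fa ∈ Submodule.span F (insert ea (insert fa S)) :=
  Submodule.subset_span (by simp)

omit [StarRing F] [Finite F] [FiniteDimensional F V] in
theorem m3 {S : Set V} : eb ∈ Submodule.span F (insert ea (insert fa (insert eb S))) :=
  Submodule.subset_span (by simp)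

omit [StarRing F] [Finite F] [FiniteDimensional F V] in
theorem m4 : fb ∈ Submodule.span F {ea, fa, eb, fb} := Submodule.subset_span (by simp)

omit [Finite F] in
/-- the torus -/
theorem torus (B : Blk h ea fa eb fb) {b : F} (hb : b ≠ 0) : ∃ g : UG h, Gd {ea, fa, eb, fb} g ∧
    g • ea = b • ea ∧ g • eb = b⁻¹ • eb ∧ g • fb = star b • fb := by
  have kA : ∀ c : F, OK h fb (c • ea) 0 := fun c => ⟨B.bb', by simp [B.fba], by simp [B.aa]⟩
  have kB : ∀ c : F, OK h fa (c • eb) 0 := fun c => ⟨B.aa', by simp [B.fab], by simp [B.bb]⟩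
  have gA := fun c : F => gdT (S := {ea, fa, eb, fb}) (kA c) m4 (Submodule.smul_mem _ c m1)
  have gB := fun c : F => gdT (S := {ea, fa, eb, fb}) (kB c) m2 (Submodule.smul_mem _ c m3)
  have hb' : star b ≠ 0 := by simpa using hb
  obtain ⟨aa, ab, ba, bb, aa', ab', ba', bb', eaa, eab, eba, ebb, faa, fab, fba, fbb⟩ := B
  refine ⟨_, (gA (b - 1)).mul ((gB 1).mul ((gA (b⁻¹ - 1)).mul (gB (-b)))), ?_, ?_, ?_⟩ <;>
    simp only [mul_smul, T_act (kA _), T_act (kB _)] <;> simp [*] <;> match_scalars <;>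
    field_simp <;> ring

end UConj

open UConj

/-- conjugate by `T eb (-ea) 0` -/
theorem cj_n (B : Blk h ea fa eb fb) :
    Cj {ea, fa, eb, fb} (X h eb fb fa 0) (P h (fb - ea) (eb - fa)) := by
  obtain ⟨aa, ab, ba, bb, aa', ab', ba', bb', eaa, eab, eba, ebb, faa, fab, fba, fbb⟩ := B
  have k : OK h eb (-ea) 0 := ⟨bb, by simp [*], by simp [*]⟩
  have k' : PK h (fb - ea) (eb - fa) := ⟨by simp [*], by simp [*], by simp [*]; norm_num⟩
  refine cjX (gdT k m3 (neg_mem m1)) bb fbb ⟨bb', ba', by simp [*]⟩ fab (eb' := eb)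
    (fb' := fb - ea) (w' := fa + eb) ?_ ?_ ?_ fun x => ?_
  · simp [T_act k, *]
  · simp [T_act k, sub_eq_add_neg, *]
  · simp [T_act k, *]
  · simp only [P_act k', HF.sub_right, HF.add_right]
    module

/-- conjugate by `T eb (-star a • fa) 0` -/
theorem cj_ab (B : Blk h ea fa eb fb) {a : F} (ha : a ≠ 0) :
    Cj {ea, fa, eb, fb} (X h eb fb (a⁻¹ • ea) 0) (P h (fb - star a • fa) (eb - a⁻¹ • ea)) := by
  obtain ⟨aa, ab, ba, bb, aa', ab', ba', bb', eaa, eab, eba, ebb, faa, fab, fba, fbb⟩ := B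
  have ha' : star a ≠ 0 := by simpa using ha
  have k : OK h eb (-(star a • fa)) 0 := ⟨bb, by simp [*], by simp [*]⟩
  have k' : PK h (fb - star a • fa) (eb - a⁻¹ • ea) :=
    ⟨by simp [*], by simp [*], by simp [*]; norm_num⟩
  refine cjX (gdT k m3 (neg_mem (Submodule.smul_mem _ _ m2))) bb fbb
    ⟨bb', by simp [*], by simp [*]⟩ (by simp [*]) (eb' := eb)
    (fb' := fb - star a • fa) (w' := a⁻¹ • ea + eb) ?_ ?_ ?_ fun x => ?_
  · simp [T_act k, *]
  · simp [T_act k, sub_eq_add_neg, *]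
  · simp [T_act k, *]
  · simp only [P_act k', HF.sub_right, HF.add_right]
    module

/-- odd characteristic: conjugate by `T fb (w/2) _` -/
theorem cj_odd (h2 : (2 : F) ≠ 0) {S : Set V} (hb : fb ∈ S) (ff : h fb fb = 0) (ee : h eb eb = 0)
    (fe : h fb eb = 1) {w : V} (hw : w ∈ Submodule.span F S) {c : F} (k : OK h fb w c)
    (hc : star c = c) (we : h w eb = 0) : Cj S (X h eb fb 0 0) (X h eb fb w c) := by
  have h3 := k.tr
  have h4 : (4 : F) ≠ 0 := by rw [show (4 : F) = 2 * 2 by norm_num]; exact mul_ne_zero h2 h2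
  have k' : OK h fb (-((2 : F)⁻¹ • w)) (c / 4) := ⟨ff, by simp [k.sw], by
    simp [← h3, hc]
    field_simp
    ring⟩
  refine cjX (gdT k' (Submodule.subset_span hb) (neg_mem (Submodule.smul_mem _ _ hw))) ee fe
    ⟨ff, by simp, by simp⟩ (by simp) (eb' := eb - (2 : F)⁻¹ • w - (c / 4) • fb) (fb' := fb)
    (w' := 0) ?_ ?_ (smul_zero _) fun x => ?_
  · simp [T_act k', HF.swap0 we, HF.swap1 fe, sub_eq_add_neg]
  · simp [T_act k', ff, k.sw]
  · rw [X_act ee fe k we]
    simp [hc]
    match_scalars <;> field_simp <;> ring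

/-- characteristic two: `P fb 0 = 1`; swap `ea`, `fa` by `T ea 0 1 * T fa 0 1 * T ea 0 1`, then the
torus `ea ↦ b ea, eb ↦ b⁻¹ eb` (a product of Eichler maps `T fb (c • ea) 0`, `T fa (c • eb) 0`)
with `b * b = l` -/
theorem cj_lam (B : Blk h ea fa eb fb) {l : F} (hl : l ≠ 0) :
    Cj {ea, fa, eb, fb} (X h eb fb fa 0) (X h eb fb (l • ea) 0) := by
  have k1 : OK h fb fa 0 := ⟨B.bb', B.ba', by simp [B.aa']⟩
  have k2 : OK h fb (l • ea) 0 := ⟨B.bb', by simp [B.fba], by simp [B.aa]⟩
  by_cases h2 : (2 : F) = 0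
  · obtain ⟨b, rfl⟩ := exists_sqrt h2 l
    obtain ⟨g, hg, g1, g2, g3⟩ := torus B (left_ne_zero_of_mul hl)
    have ka : OK h ea 0 1 := ⟨B.aa, by simp, by simp; linear_combination h2⟩
    have kf : OK h fa 0 1 := ⟨B.aa', by simp, by simp; linear_combination h2⟩
    refine cjX (hg.mul ((gdT kf m2 (zero_mem _)).mul (gdT ka m1 (zero_mem _)))) B.bb B.fbb k1 B.fab
      (eb' := b⁻¹ • eb) (fb' := star b • fb) (w' := b • ea) ?_ ?_ ?_ fun x => ?_
    · simp [mul_smul, T_act ka, T_act kf, B.ba, B.eba, g2]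
    · simp [mul_smul, T_act ka, T_act kf, B.fba, B.ba', g3]
    · rw [mul_smul, mul_smul, ← g1]
      congr 1
      simp [T_act ka, T_act kf, B.faa, B.aa', B.eaa]
      have h2v : ∀ v : V, v + v = 0 := fun v => by rw [← two_smul F v, h2, zero_smul]
      rw [sub_add_eq_add_sub, h2v, zero_sub, neg_eq_iff_add_eq_zero, h2v]
    · rw [X_act B.bb B.fbb k2 (by simp [B.ab])]
      simp [h2]
      module
  · exact (cj_odd h2 (by simp) B.bb' B.bb B.fbb m2 k1 (by simp) B.fab).symm.trans
      (cj_odd h2 (by simp) B.bb' B.bb B.fbb (Submodule.smul_mem _ _ m1) k2 (by simp)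
        (by simp [B.ab]))

/-- characteristic two: `T ea 0 1` maps `fa` to `ea + fa`; conjugation by `T fb (t • ea) 0` with
`t + star t = 1` changes the last parameter by one -/
theorem cj_ef (hF : ∃ a : F, star a ≠ a) (B : Blk h ea fa eb fb) :
    Cj {ea, fa, eb, fb} (X h eb fb fa 0) (X h eb fb (ea + fa) 1) := by
  have k1 : OK h fb fa 0 := ⟨B.bb', B.ba', by simp [B.aa']⟩
  have k2 : OK h fb (ea + fa) 1 :=
    ⟨B.bb', by simp [B.fba, B.ba'], by simp [B.aa, B.aa', B.eaa, B.faa]⟩
  have we : h (ea + fa) eb = 0 := by simp [B.ab, B.fab]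
  by_cases h2 : (2 : F) = 0
  · obtain ⟨t, ht⟩ := exists_tr hF
    have ka : OK h ea 0 1 := ⟨B.aa, by simp, by simp; linear_combination h2⟩
    have kt : OK h fb (t • ea) 0 := ⟨B.bb', by simp [B.fba], by simp [B.aa]⟩
    refine cjX ((gdT kt m4 (Submodule.smul_mem _ _ m1)).mul (gdT ka m1 (zero_mem _))) B.bb B.fbb k1
      B.fab (eb' := eb + t • ea) (fb' := fb) (w' := fa - ea - star t • fb) ?_ ?_ ?_ fun x => ?_
    · simp [mul_smul, T_act ka, T_act kt, B.ba, B.ebb]
    · simp [mul_smul, T_act ka, T_act kt, B.fba, B.bb']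
    · simp [mul_smul, T_act ka, T_act kt, B.faa, B.aa, B.eab, B.ab']
    · rw [X_act B.bb B.fbb k2 we]
      simp [h2]
      match_scalars
      · ring
      · linear_combination h x fb * h2
      · ring
      · linear_combination (h x ea + h x fb) * h2 + h x fb * ht
  · exact (cj_odd h2 (by simp) B.bb' B.bb B.fbb m2 k1 (by simp) B.fab).symm.trans
      (cj_odd h2 (by simp) B.bb' B.bb B.fbb (add_mem m1 m2) k2 (by simp) we)

/-- conjugate by `P fb (2 • eb)` (changes the sign of `w`) and by `T ea (-z) l` -/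
theorem cj_z (B : BlkZ h ea fa eb fb z) {l : F} (hl : l + star l = -1) :
    Cj {ea, fa, eb, fb, z} (X h eb fb fa 0) (X h eb fb (l • ea - fa + z) 0) := by
  obtain ⟨⟨aa, ab, ba, bb, aa', ab', ba', bb', eaa, eab, eba, ebb, faa, fab, fba, fbb⟩,
    zz, z1, z2, z3, z4, z1', z2', z3', z4'⟩ := B
  have k : OK h ea (-z) l := ⟨aa, by simp [z1'], by simp [zz, hl]⟩
  have k' : OK h fb (l • ea - fa + z) 0 :=
    ⟨bb', by simp [*], by
      simp [aa, aa', eaa, faa, zz, z1, z2, z1', z2']; linear_combination hl⟩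
  have kp := pk bb' bb fbb
  refine cjX ((gdP kp (Submodule.subset_span (by simp)) (Submodule.smul_mem _ _ m3)).mul
    (gdT k m1 (neg_mem (Submodule.subset_span (by simp))))) bb fbb ⟨bb', ba', by simp [*]⟩ fab
    (eb' := -eb) (fb' := -fb) (w' := -(l • ea - fa + z)) ?_ ?_ ?_ fun x => ?_
  · simp [mul_smul, T_act k, P_act kp, *]
    module
  · simp [mul_smul, T_act k, P_act kp, *]
    module
  · simp [mul_smul, T_act k, P_act kp, *]
    module
  · rw [X_act bb fbb k' (by simp [*])]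
    simp only [HF.neg_right]
    module

/-- `J = T2 * X (-star b • (ea - fa)) 1 * T2⁻¹` with `T2 = T eb (-b⁻¹ • (ea - fa)) 1` and
`b * star b = -1` (take `b = 1` in characteristic two) -/
theorem cj_J (hF : ∃ a : F, star a ≠ a) (B : Blk h ea fa eb fb) {J : UG h} (h1 : J • ea = fa)
    (h2 : J • fa = ea) (h3 : J • eb = fb) (h4 : J • fb = eb)
    (h5 : ∀ y, Pp h {ea, fa, eb, fb} y → J • y = y) :
    Cj {ea, fa, eb, fb} J (P h (fb - ea) (eb - fa)) := by
  obtain ⟨b, hb, hb2⟩ : ∃ b : F, b * star b = -1 ∧ ((2 : F) = 0 → b = 1) := by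
    by_cases e : (2 : F) = 0
    · exact ⟨1, by simp; linear_combination e, fun _ => rfl⟩
    · obtain ⟨b, hb⟩ := exists_nm hF
      exact ⟨b, hb, fun e' => absurd e' e⟩
  have mu : ea - fa ∈ Submodule.span F {ea, fa, eb, fb} := sub_mem m1 m2
  have k1 : OK h fb fa 0 := ⟨B.bb', B.ba', by simp [B.aa']⟩
  have k : OK h eb (b • (ea - fa)) 1 := ⟨B.bb, by simp [B.ba, B.eba], by
    simp [B.aa, B.aa', B.eaa, B.faa]; linear_combination 2 * hb⟩
  have kw : OK h fb (-(b • (ea - fa))) 1 := ⟨B.bb', by simp [B.fba, B.ba'], by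
    simp [B.aa, B.aa', B.eaa, B.faa]; linear_combination 2 * hb⟩
  have we : h (-(b • (ea - fa))) eb = 0 := by simp [B.ab, B.fab]
  have c1 : Cj {ea, fa, eb, fb} (X h eb fb fa 0) (X h eb fb (-(b • (ea - fa))) 1) := by
    by_cases e : (2 : F) = 0
    · have : -(b • (ea - fa)) = ea + fa := by
        rw [hb2 e]
        match_scalars
        · linear_combination -e
        · ring
      rw [this]
      exact cj_ef hF B
    · exact (cj_odd e (by simp) B.bb' B.bb B.fbb m2 k1 (by simp) B.fab).symm.trans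
        (cj_odd e (by simp) B.bb' B.bb B.fbb (neg_mem (Submodule.smul_mem _ _ mu)) kw (by simp) we)
  refine (Cj.symm (c1.trans ?_)).trans (cj_n B)
  have hd := B.dec
  obtain ⟨aa, ab, ba, bb, aa', ab', ba', bb', eaa, eab, eba, ebb, faa, fab, fba, fbb⟩ := B
  refine cjX (gdT k m3 (Submodule.smul_mem _ _ mu)) bb fbb kw we (eb' := eb)
    (fb' := fb + b • (ea - fa) - eb) (w' := -(b • (ea - fa)) + (2 : F) • eb) ?_ ?_ ?_ fun x => ?_
  · simp [T_act k, ba, eba, bb]
  · simp [T_act k, fba, ba', fbb]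
  · simp [T_act k, ab, fab, aa, aa', eaa, faa]
    match_scalars <;> first | ring1 | linear_combination 2 * hb | linear_combination -2 * hb
  · have e := h5 (x - h x fa • ea - h x ea • fa - h x fb • eb - h x eb • fb) (by
      rintro v (rfl | rfl | rfl | rfl) <;> simp [*])
    simp only [smul_sub, act_smul, h1, h2, h3, h4] at e
    generalize J • x = y at e ⊢
    rw [show y = x - h x fa • ea - h x ea • fa - h x fb • eb - h x eb • fb + h x fa • fa +
      h x ea • ea + h x fb • fb + h x eb • eb by rw [← e]; abel]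
    simp only [HF.add_right, HF.sub_right, HF.neg_right, HF.smul_right, star_ofNat]
    match_scalars <;> first
      | ring1
      | linear_combination (h x ea - h x fa) * hb
      | linear_combination -(h x ea - h x fa) * hb

end Pool.Agent.Lib.MP_cad414_al.Cg.UU
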