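import Pool.Agent.Lib.MP_cad414_al.Cg.UBlk

/-! The two monomial elements on a polygon of hyperbolic pairs. -/

namespace Pool.Agent.Lib.MP_cad414_al.Cg.UU

open Module

variable {F V : Type} [Field F] [StarRing F] [Finite F] [AddCommGroup V] [Module F V]
  [FiniteDimensional F V] {h : HF F V}

section
variable {ι : Type} [Fintype ι] [DecidableEq ι] {e f e' f' : ι → V}

omit [Finite F] [FiniteDimensional F V]

/-- orthogonal to the frame -/
def upoly_Pp (h : HF F V) (e f : ι → V) (y : V) : Prop :=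
  (∀ i, h y (e i) = 0) ∧ ∀ i, h y (f i) = 0

theorem upoly_dec (W : Witt h e f) (x : V) : ∃ (y : V) (a b : ι → F), upoly_Pp h e f y ∧
    x = y + ∑ i, a i • e i + ∑ i, b i • f i := by
  refine ⟨x - ∑ i, h x (f i) • e i - ∑ i, h x (e i) • f i, fun i => h x (f i),
    fun i => h x (e i), ⟨fun k => ?_, fun k => ?_⟩, by abel⟩ <;>
    simp [HF.sum_left, W.ee, W.ff, W.ef, W.fe]

theorem upoly_ext (W : Witt h e f) {φ ψ : V →ₗ[F] V} (h1 : ∀ i, φ (e i) = ψ (e i))
    (h2 : ∀ i, φ (f i) = ψ (f i)) (h3 : ∀ y, upoly_Pp h e f y → φ y = ψ y) (x : V) :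
    φ x = ψ x := by
  obtain ⟨y, a, b, hy, rfl⟩ := upoly_dec W x
  simp only [map_add, map_sum, map_smul, h1, h2, h3 y hy]

theorem upoly_uext (W : Witt h e f) {g k : UG h} (h1 : ∀ i, g • e i = k • e i)
    (h2 : ∀ i, g • f i = k • f i) (h3 : ∀ y, upoly_Pp h e f y → g • y = k • y) : g = k :=
  uext (upoly_ext W (φ := (g.1 : V →ₗ[F] V)) (ψ := (k.1 : V →ₗ[F] V)) h1 h2 h3)

theorem upoly_gram (W : Witt h e f) {x y : V} (hx : upoly_Pp h e f x) (hy : upoly_Pp h e f y)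
    (a b a' b' : ι → F) :
    h (x + ∑ i, a i • e i + ∑ i, b i • f i) (y + ∑ i, a' i • e i + ∑ i, b' i • f i) =
      h x y + ∑ i, star (b' i) * a i + ∑ i, star (a' i) * b i := by
  have h1 : ∀ i, h (e i) y = 0 := fun i => HF.swap0 (hy.1 i)
  have h2 : ∀ i, h (f i) y = 0 := fun i => HF.swap0 (hy.2 i)
  simp [HF.sum_left, HF.sum_right, W.ee, W.ff, W.ef, W.fe, hx.1, hx.2, h1, h2]
  ring

theorem upoly_mk [FiniteDimensional F V] (hN : ND h) (W : Witt h e f) (W' : Witt h e' f')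
    (hp : ∀ y, upoly_Pp h e f y → upoly_Pp h e' f' y) : ∃ g : UG h, (∀ i, g • e i = e' i) ∧
      (∀ i, g • f i = f' i) ∧ ∀ y, upoly_Pp h e f y → g • y = y := by
  obtain ⟨φ, hφ⟩ : ∃ φ : V →ₗ[F] V, ∀ x,
      φ x = x + ∑ i, h x (f i) • (e' i - e i) + ∑ i, h x (e i) • (f' i - f i) :=
    ⟨LinearMap.id + ∑ i, (h.lin (f i)).smulRight (e' i - e i) +
      ∑ i, (h.lin (e i)).smulRight (f' i - f i), fun x => by simp [LinearMap.sum_apply]⟩
  have h1 : ∀ i, φ (e i) = e' i := fun i => by simp [hφ, W.ee, W.ef, ite_smul]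
  have h2 : ∀ i, φ (f i) = f' i := fun i => by simp [hφ, W.ff, W.fe, ite_smul]
  have h3 : ∀ y, upoly_Pp h e f y → φ y = y := fun y hy => by simp [hφ, hy.1, hy.2]
  have h4 : ∀ x y, h (φ x) (φ y) = h x y := fun x y => by
    obtain ⟨x, a, b, hx, rfl⟩ := upoly_dec W x
    obtain ⟨y, a', b', hy, rfl⟩ := upoly_dec W y
    simp only [map_add, map_sum, map_smul, h1, h2, h3 x hx, h3 y hy]
    rw [upoly_gram W hx hy, upoly_gram W' (hp x hx) (hp y hy)]
  have h5 : Function.Injective φ := (injective_iff_map_eq_zero φ).2 fun x hx =>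
    hN x fun y => by rw [← h4, hx, HF.zero_left]
  exact ⟨⟨LinearEquiv.ofInjectiveEndo φ h5, h4⟩, h1, h2, h3⟩

/-- `g` permutes the pairs -/
def upoly_Mon (e f : ι → V) (σ : Equiv.Perm ι) (g : UG h) : Prop :=
  (∀ i, g • e i = e (σ i)) ∧ (∀ i, g • f i = f (σ i)) ∧ ∀ y, upoly_Pp h e f y → g • y = y

/-- `g` permutes the pairs and exchanges the two vectors of each pair -/
def upoly_Tw (e f : ι → V) (j : F) (σ : Equiv.Perm ι) (g : UG h) : Prop :=
  (∀ i, g • e i = j • f (σ i)) ∧ (∀ i, g • f i = (star j)⁻¹ • e (σ i)) ∧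
    ∀ y, upoly_Pp h e f y → g • y = y

omit [Fintype ι] in
theorem upoly_swap (W : Witt h e f) {a b : ι} (hab : a ≠ b) :
    upoly_Mon e f (Equiv.swap a b) (P h (f b - f a) (e b - e a)) := by
  have k : PK h (f b - f a) (e b - e a) :=
    ⟨by simp [W.ff], by simp [W.ee], by simp [W.fe, hab, hab.symm]; norm_num⟩
  refine ⟨fun i => ?_, fun i => ?_, fun y hy => by simp [P_act k, hy.1, hy.2]⟩
  · rw [P_act k, Equiv.swap_apply_def]
    split_ifs with h1 h2
    · simp [W.ee, W.ef, h1, hab]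
    · simp [W.ee, W.ef, h2, hab.symm]
    · simp [W.ee, W.ef, h1, h2]
  · rw [P_act k, Equiv.swap_apply_def]
    split_ifs with h1 h2
    · simp [W.ff, W.fe, h1, hab]
    · simp [W.ff, W.fe, h2, hab.symm]
    · simp [W.ff, W.fe, h1, h2]

theorem upoly_mon [FiniteDimensional F V] (W : Witt h e f) (σ : Equiv.Perm ι) :
    ∃ g ∈ SU h, upoly_Mon e f σ g := by
  induction σ using Equiv.Perm.swap_induction_on with
  | one => exact ⟨1, one_mem _, fun i => one_smul _ _, fun i => one_smul _ _, fun y _ => one_smul _ _⟩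
  | swap_mul σ a b hab ih =>
    obtain ⟨g, hg, h1, h2, h3⟩ := ih
    obtain ⟨k1, k2, k3⟩ := upoly_swap W hab
    exact ⟨P h (f b - f a) (e b - e a) * g, mul_mem (P_mem _ _) hg,
      fun i => by rw [mul_smul, h1, k1]; rfl, fun i => by rw [mul_smul, h2, k2]; rfl,
      fun y hy => by rw [mul_smul, h3 y hy, k3 y hy]⟩

omit [Fintype ι] [DecidableEq ι] in
theorem upoly_Tw.mul {j : F} {σ τ : Equiv.Perm ι} {g c : UG h} (hg : upoly_Tw e f j σ g)
    (hc : upoly_Mon e f τ c) : upoly_Tw e f j (σ * τ) (g * c) :=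
  ⟨fun i => by rw [mul_smul, hc.1, hg.1]; rfl, fun i => by rw [mul_smul, hc.2.1, hg.2.1]; rfl,
    fun y hy => by rw [mul_smul, hc.2.2 y hy, hg.2.2 y hy]⟩

theorem upoly_conj (W : Witt h e f) {j : F} {σ σ' τ : Equiv.Perm ι} {g g' c : UG h}
    (hg : upoly_Tw e f j σ g) (hg' : upoly_Tw e f j σ' g') (hc : upoly_Mon e f τ c)
    (H : ∀ i, τ (σ i) = σ' (τ i)) : c * g * c⁻¹ = g' := by
  rw [mul_inv_eq_iff_eq_mul]
  refine upoly_uext W (fun i => ?_) (fun i => ?_) fun y hy => ?_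
  · rw [mul_smul, mul_smul, hg.1, act_smul, hc.2.1, hc.1, hg'.1, H]
  · rw [mul_smul, mul_smul, hg.2.1, act_smul, hc.1, hc.2.1, hg'.2.1, H]
  · rw [mul_smul, mul_smul, hg.2.2 y hy, hc.2.2 y hy, hg'.2.2 y hy]

omit [Fintype ι] in
theorem upoly_one [FiniteDimensional F V] (W : Witt h e f) {j : F} (hj : j ≠ 0) (a : ι) :
    ∃ φ : V →ₗ[F] V, LinearMap.det φ = -(j / star j) ∧
      ∀ x, φ x = x + h x (f a) • (j • f a - e a) + h x (e a) • ((star j)⁻¹ • e a - f a) := by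
  have hs : star j ≠ 0 := star_ne_zero.2 hj
  refine ⟨ro h (f a) (j • f a) ∘ₗ ro h (e a) (-j⁻¹ • e a) ∘ₗ ro h (f a) (j • f a) ∘ₗ
    ro h (e a) ((-(j / star j) - 1) • f a), ?_, fun x => ?_⟩
  · simp only [LinearMap.det_comp, ro_det, HF.smul_left, W.ee, W.ff, W.fe, if_true]
    ring
  · simp only [LinearMap.comp_apply, ro_apply, HF.add_left, HF.smul_left, W.ff, W.fe, W.ef,
      if_true]
    match_scalars <;> field_simp <;> ring

omit [Fintype ι] in
theorem upoly_det [FiniteDimensional F V] (W : Witt h e f) {j : F} (hj : j ≠ 0) (s : Finset ι) :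
    ∃ φ : V →ₗ[F] V, LinearMap.det φ = (-(j / star j)) ^ s.card ∧
      (∀ i, φ (e i) = if i ∈ s then j • f i else e i) ∧
      (∀ i, φ (f i) = if i ∈ s then (star j)⁻¹ • e i else f i) ∧
      ∀ y, upoly_Pp h e f y → φ y = y := by
  induction s using Finset.induction_on with
  | empty => exact ⟨LinearMap.id, by simp, by simp, by simp, by simp⟩
  | insert a s ha ih =>
    obtain ⟨φ, h1, h2, h3, h4⟩ := ih
    obtain ⟨ψ, k1, k2⟩ := upoly_one W hj a
    refine ⟨ψ ∘ₗ φ, ?_, fun i => ?_, fun i => ?_, fun y hy => ?_⟩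
    · rw [LinearMap.det_comp, h1, k1, Finset.card_insert_of_notMem ha, pow_succ']
    · rw [LinearMap.comp_apply, h2, k2]
      by_cases hi : i = a
      · simp [hi, ha, W.ee, W.ef]
      · by_cases hs : i ∈ s <;> simp [hi, hs, W.ee, W.ef, W.ff, W.fe]
    · rw [LinearMap.comp_apply, h3, k2]
      by_cases hi : i = a
      · simp [hi, ha, W.ff, W.fe]
      · by_cases hs : i ∈ s <;> simp [hi, hs, W.ee, W.ef, W.ff, W.fe]
    · rw [LinearMap.comp_apply, h4 y hy, k2]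
      simp [hy.1, hy.2]

theorem upoly_J [FiniteDimensional F V] (hN : ND h) (W : Witt h e f) {j : F} (hj : j ≠ 0) :
    ∃ J : UG h, dt J = (-(j / star j)) ^ Fintype.card ι ∧ upoly_Tw e f j 1 J := by
  have hs : star j ≠ 0 := star_ne_zero.2 hj
  have W' : Witt h (fun i => j • f i) fun i => (star j)⁻¹ • e i :=
    ⟨fun a b => by simp [W.ff], fun a b => by simp [W.ee], fun a b => by simp [W.fe, hj],
      fun a b => by simp [W.ef, hs]⟩
  obtain ⟨J, h1, h2, h3⟩ := upoly_mk hN W W' fun y hy =>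
    ⟨fun i => by simp [hy.2], fun i => by simp [hy.1]⟩
  obtain ⟨φ, k1, k2, k3, k4⟩ := upoly_det W hj Finset.univ
  refine ⟨J, ?_, h1, h2, h3⟩
  rw [dt_eq (f := φ) (upoly_ext W (φ := (J.1 : V →ₗ[F] V))
    (fun i => (h1 i).trans (by simp [k2])) (fun i => (h2 i).trans (by simp [k3]))
    fun y hy => (h3 y hy).trans (k4 y hy).symm), k1, Finset.card_univ]

theorem upoly_isConj {σ σ' : Equiv.Perm ι} (h1 : ∀ i, σ (σ i) = i) (h2 : ∀ i, σ i ≠ i)
    (h1' : ∀ i, σ' (σ' i) = i) (h2' : ∀ i, σ' i ≠ i) :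
    ∃ τ : Equiv.Perm ι, ∀ i, τ (σ i) = σ' (τ i) := by
  have key : ∀ {ρ : Equiv.Perm ι}, (∀ i, ρ (ρ i) = i) → (∀ i, ρ i ≠ i) →
      ∃ n, ρ.cycleType = Multiset.replicate n 2 ∧ n * 2 = Fintype.card ι := fun {ρ} k1 k2 => by
    have k3 := Equiv.Perm.cycleType_of_pow_prime_eq_one (σ := ρ) (p := 2)
      (by rw [pow_two]; exact Equiv.ext k1)
    have k4 := Equiv.Perm.sum_cycleType ρ
    rw [k3, Multiset.sum_replicate, smul_eq_mul,
      Finset.eq_univ_of_forall fun i => Equiv.Perm.mem_support.2 (k2 i), Finset.card_univ] at k4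
    exact ⟨_, k3, k4⟩
  obtain ⟨n, k1, k2⟩ := key h1 h2
  obtain ⟨n', k1', k2'⟩ := key h1' h2'
  obtain rfl : n = n' := by omega
  obtain ⟨τ, hτ⟩ := isConj_iff.1 (Equiv.Perm.isConj_iff_cycleType_eq.2 (k1.trans k1'.symm))
  exact ⟨τ, fun i => by rw [← hτ]; simp⟩

end

/-- `pi σ : x ↦ x + ∑ h x (f i) • (e (σ i) - e i) + ∑ h x (e i) • (f (σ i) - f i)` is a monoid
homomorphism `Perm ι →* UG h` with values in `SU` (a swap goes to `P (f b - f a) (e b - e a)`);
`J : x ↦ x + ∑ h x (f i) • (j • f i - e i) + ∑ h x (e i) • ((star j)⁻¹ • e i - f i)` commutes with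
it and has determinant `(-(j / star j)) ^ m` (induction over the set of pairs; on one pair it is a
product of three rank one maps `ro`). `t1 = J * pi (1 - ·)`, `t3 = J * pi (-·)`. Conjugacy: `m` odd,
a rotation; `m` even, `blk_J` on the fixed points `0`, `m / 2` of `-·`, then two fixed point free
involutions of `ZMod m` are conjugate. -/
theorem poly (hF : ∃ a : F, star a ≠ a) (hN : ND h) {m : ℕ} [NeZero m] (hm : 3 ≤ m)
    {e f : ZMod m → V} (W : Witt h e f) {j : F} (hj : j ≠ 0) (hm' : j = 1 ∨ Odd m) :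
    ∃ t1 t3 : UG h, ∃ c ∈ SU h, c * t1 * c⁻¹ = t3 ∧ dt t1 = (-(j / star j)) ^ m ∧
      (∀ i, t1 • e i = j • f (1 - i)) ∧ (∀ i, t1 • f i = (star j)⁻¹ • e (1 - i)) ∧
      (∀ i, t3 • e i = j • f (-i)) ∧ (∀ i, t3 • f i = (star j)⁻¹ • e (-i)) ∧
      ∀ y, (∀ i, h y (e i) = 0) → (∀ i, h y (f i) = 0) → t1 • y = y ∧ t3 • y = y := by
  obtain ⟨J, hJ, hT⟩ := upoly_J hN W hj
  obtain ⟨p1, m1, hp1⟩ := upoly_mon W (Equiv.subLeft (1 : ZMod m))
  obtain ⟨p3, m3, hp3⟩ := upoly_mon W (Equiv.neg (ZMod m))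
  have T1 := hT.mul hp1
  have T3 := hT.mul hp3
  rw [one_mul] at T1 T3
  suffices H : ∃ c ∈ SU h, c * (J * p1) * c⁻¹ = J * p3 by
    obtain ⟨c, hc, H⟩ := H
    refine ⟨J * p1, J * p3, c, hc, H, ?_, T1.1, T1.2.1, T3.1, T3.2.1,
      fun y h1 h2 => ⟨T1.2.2 y ⟨h1, h2⟩, T3.2.2 y ⟨h1, h2⟩⟩⟩
    rw [map_mul, hJ, mem_SU.1 m1, mul_one, ZMod.card]
  rcases Nat.even_or_odd m with ⟨r, hr⟩ | ⟨r, hr⟩
  · obtain rfl : j = 1 := hm'.resolve_right (Nat.not_odd_iff_even.2 ⟨r, hr⟩)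
    have hval : (r : ZMod m).val = r := ZMod.val_cast_of_lt (by omega)
    have h0 : (0 : ZMod m) ≠ r := fun h0 => by
      rw [← h0, ZMod.val_zero] at hval
      omega
    have hneg : -(r : ZMod m) = r := (ZMod.neg_eq_self_iff _).2 (Or.inr (by omega))
    obtain ⟨c, hc, H⟩ := blk_J hF hN (W.blk h0) (t := J * p3) (by simp [T3.1]) (by simp [T3.2.1])
      (by simp [T3.1, hneg]) (by simp [T3.2.1, hneg])
    have T4 := T3.mul (upoly_swap W h0)
    rw [← H] at T4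
    have hσ : ∀ i, (Equiv.neg (ZMod m) * Equiv.swap 0 (r : ZMod m)) i =
        if i = 0 then (r : ZMod m) else if i = r then 0 else -i := fun i => by
      rw [Equiv.Perm.mul_apply, Equiv.swap_apply_def]
      split_ifs <;> simp [hneg]
    obtain ⟨τ, hτ⟩ := upoly_isConj (σ := Equiv.subLeft (1 : ZMod m))
      (σ' := Equiv.neg (ZMod m) * Equiv.swap 0 (r : ZMod m)) (fun i => by simp)
      (fun i hi => by
        have h1 : (1 : ZMod m) = 2 * i := by
          rw [two_mul]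
          exact sub_eq_iff_eq_add.1 hi
        have h2 := congrArg (ZMod.castHom (show 2 ∣ m from ⟨r, by omega⟩) (ZMod 2)) h1
        rw [map_one, map_mul, map_ofNat, show (2 : ZMod 2) = 0 from rfl, zero_mul] at h2
        exact one_ne_zero h2)
      (fun i => by
        rw [hσ i]
        split_ifs with h1 h2
        · rw [hσ, if_neg h0.symm, if_pos rfl, h1]
        · rw [hσ, if_pos rfl, h2]
        · rw [hσ, if_neg (neg_ne_zero.2 h1),
            if_neg fun h3 => h2 ((neg_eq_iff_eq_neg.1 h3).trans hneg), neg_neg])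
      fun i hi => by
        rw [hσ i] at hi
        split_ifs at hi with h1 h2
        · exact h0 (h1 ▸ hi).symm
        · exact h1 hi.symm
        · rcases (ZMod.neg_eq_self_iff _).1 hi with h3 | h3
          · exact h1 h3
          · exact h2 (ZMod.val_injective m (by omega))
    obtain ⟨c', hc', hM⟩ := upoly_mon W τ
    refine ⟨c⁻¹ * c', mul_mem (inv_mem hc) hc', ?_⟩
    have h1 := upoly_conj W T1 T4 hM hτ
    rw [mul_inv_rev, inv_inv]
    calc _ = c⁻¹ * (c' * (J * p1) * c'⁻¹) * c := by group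
      _ = J * p3 := by rw [h1]; group
  · obtain ⟨c, hc, hM⟩ := upoly_mon W (Equiv.addRight (r : ZMod m))
    refine ⟨c, hc, upoly_conj W T1 T3 hM fun i => ?_⟩
    have h1 : ((2 * r + 1 : ℕ) : ZMod m) = 0 := by rw [← hr, ZMod.natCast_self]
    push_cast at h1
    simp only [Equiv.subLeft_apply, Equiv.coe_addRight, Equiv.neg_apply]
    linear_combination h1

end Pool.Agent.Lib.MP_cad414_al.Cg.UU
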