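import Pool.Agent.Lib.MP_cad414_al.Cg.UniFourA

/-! The unitary group of degree three over the field with nine elements: decoding. -/

namespace Pool.Agent.Lib.MP_cad414_al.Cg.UniFour

open Matrix

theorem al_iff {n : ℕ} {f : ℕ → Bool} : al n f = true ↔ ∀ k < n, f k = true := by
  induction n with
  | zero => exact ⟨fun _ _ h => absurd h (Nat.not_lt_zero _), fun _ => rfl⟩
  | succ n ih =>
    change (f n && al n f) = true ↔ _
    rw [Bool.and_eq_true, ih, Nat.forall_lt_succ_right, and_comm]

theorem an_iff {n : ℕ} {f : ℕ → Bool} : an n f = true ↔ ∃ k < n, f k = true := by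
  induction n with
  | zero =>
    exact ⟨fun h => absurd h Bool.false_ne_true, fun ⟨_, h, _⟩ => absurd h (Nat.not_lt_zero _)⟩
  | succ n ih =>
    change (f n || an n f) = true ↔ _
    rw [Bool.or_eq_true, ih, Nat.exists_lt_succ_right, or_comm]

theorem T_lt (a b : ℕ) : T a b < 63 := Nat.mod_lt _ (by norm_num)

theorem lt_lt (w k : ℕ) : lt w k < 63 := Nat.mod_lt _ (by norm_num)

theorem run_ind {p : ℕ → Prop}
    (h : ∀ x y, p x → p y → (∀ b < 63, T (T x y) b = T x (T y (T x b))) → p (T x y))
    (l : List (ℕ × ℕ)) : ∀ s : List ℕ, (∀ a ∈ s, p a) → ∀ a ∈ run l s, p a := by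
  induction l with
  | nil => exact fun s hs => hs
  | cons q l ih =>
    intro s hs
    change ∀ a ∈ cond (s.elem q.1 && (s.elem q.2 && al 63 fun b =>
      Nat.beq (T (T q.1 q.2) b) (T q.1 (T q.2 (T q.1 b))))) (run l (T q.1 q.2 :: s)) [], p a
    cases e : (s.elem q.1 && (s.elem q.2 && al 63 fun b =>
      Nat.beq (T (T q.1 q.2) b) (T q.1 (T q.2 (T q.1 b))))) with
    | false => exact fun a ha => absurd ha List.not_mem_nil
    | true =>
      rw [Bool.and_eq_true, Bool.and_eq_true, al_iff] at e
      refine ih _ (List.forall_mem_cons.2 ⟨?_, hs⟩)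
      exact h _ _ (hs _ (List.mem_of_elem_eq_true e.1)) (hs _ (List.mem_of_elem_eq_true e.2.1))
        fun b hb => Nat.eq_of_beq_eq_true (e.2.2 b hb)

theorem all_ind {p : ℕ → Prop} (h0 : ∀ a ∈ Q, p a)
    (h : ∀ x y, p x → p y → (∀ b < 63, T (T x y) b = T x (T y (T x b))) → p (T x y)) :
    ∀ a < 63, p a := fun a ha =>
  run_ind h SL Q h0 a (List.mem_of_elem_eq_true (al_iff.1 c4 a ha))

variable {F : Type} [Field F] [StarRing F] {i : F}

/-- The field is generated by a square root of minus one over the field with three elements. -/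
structure Good (i : F) : Prop where
  sq : i * i = -1
  three : (3 : F) = 0
  star_i : star i = -i
  surj : ∀ x : F, ∃ p ∈ E, x = p.1 + p.2 * i

/-- The value of a pair. -/
def dec (i : F) (x : P) : F := x.1 + x.2 * i

/-- The value of a matrix. -/
def dm (i : F) (A : Mx) : Matrix (Fin 3) (Fin 3) F := of fun r c => dec i (A r c)

omit [StarRing F] in
theorem dec_ad (x y : P) : dec i (ad x y) = dec i x + dec i y := by
  simp only [dec, ad]
  push_cast
  ring

omit [StarRing F] in
theorem dec_one : dec i (1, 0) = 1 := by simp [dec]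

omit [StarRing F] in
theorem dec_zero : dec i (0, 0) = 0 := by simp [dec]

omit [StarRing F] in
theorem dm_mk (a b c d e f g h k : P) : dm i (mk a b c d e f g h k) =
    !![dec i a, dec i b, dec i c; dec i d, dec i e, dec i f; dec i g, dec i h, dec i k] := by
  ext r c
  fin_cases r <;> fin_cases c <;> rfl

omit [StarRing F] in
theorem dm_on : dm i on = 1 := by
  rw [on, dm_mk, dec_one, dec_zero, one_fin_three]

omit [StarRing F] in
theorem cast_mod (h3 : (3 : F) = 0) (a : ℕ) : ((a % 3 : ℕ) : F) = a := by
  conv_rhs => rw [← Nat.mod_add_div a 3]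
  push_cast
  rw [h3, zero_mul, add_zero]

namespace Good

variable (h : Good i)
include h

theorem dec_mu (x y : P) : dec i (mu x y) = dec i x * dec i y := by
  simp only [dec, mu]
  push_cast
  linear_combination (x.2 * y.2 : F) * h.three - (x.2 * y.2 : F) * h.sq

theorem dec_dt (a b c d e f : P) :
    dec i (dt a b c d e f) = dec i a * dec i b + dec i c * dec i d + dec i e * dec i f := by
  rw [dt, dec_ad, dec_ad, h.dec_mu, h.dec_mu, h.dec_mu]

theorem dec_st (x : P) : dec i (st x) = star (dec i x) := by
  simp only [dec, st, star_add, star_mul', star_natCast, h.star_i]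
  push_cast
  linear_combination (x.2 * i : F) * h.three

theorem dec_ng (x : P) : dec i (ng x) = -dec i x := by
  simp only [dec, ng]
  push_cast
  linear_combination (x.1 + x.2 * i : F) * h.three

theorem two_ne : (2 : F) ≠ 0 := fun e => one_ne_zero (α := F) (by linear_combination h.three - e)

theorem cast_inj {a b : ℕ} (e : (a : F) = b) : a % 3 = b % 3 := by
  rw [← cast_mod h.three a, ← cast_mod h.three b] at e
  have h2 := h.two_ne
  have ha := Nat.mod_lt a (show 0 < 3 by norm_num)
  have hb := Nat.mod_lt b (show 0 < 3 by norm_num)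
  generalize a % 3 = x at e ha
  generalize b % 3 = y at e hb
  interval_cases x <;> interval_cases y <;> first
    | rfl
    | exact absurd (by push_cast at e; linear_combination e) h2
    | exact absurd (by push_cast at e; linear_combination -e) h2
    | exact absurd (by push_cast at e; linear_combination 2 * e) h2
    | exact absurd (by push_cast at e; linear_combination -2 * e) h2

theorem eqk_iff {x y : P} : eqk x y = true ↔ dec i x = dec i y := by
  rw [eqk, Bool.and_eq_true, Nat.beq_eq, Nat.beq_eq]
  constructor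
  · rintro ⟨e1, e2⟩
    rw [dec, dec, ← cast_mod h.three x.1, ← cast_mod h.three x.2, e1, e2, cast_mod h.three,
      cast_mod h.three]
  · intro e
    have e' := congrArg star e
    simp only [dec, star_add, star_mul', star_natCast, h.star_i] at e e'
    refine ⟨h.cast_inj ?_, h.cast_inj ?_⟩
    · linear_combination -e - e' + (x.1 - y.1 : F) * h.three
    · linear_combination i * e - i * e' + (x.2 - y.2 : F) * h.three -
        2 * (x.2 - y.2 : F) * h.sq

theorem dm_mm (A B : Mx) : dm i (mm A B) = dm i A * dm i B := by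
  ext r c
  rw [mul_apply, Fin.sum_univ_three]
  exact h.dec_dt _ _ _ _ _ _

theorem dm_ct (A : Mx) : dm i (ct A) = star (dm i A) := by
  ext r c
  exact h.dec_st _

theorem dec_de (A : Mx) : dec i (de A) = (dm i A).det := by
  rw [det_fin_three, de, h.dec_dt]
  simp only [dec_ad, h.dec_mu, h.dec_ng]
  change _ = dec i (A 0 0) * dec i (A 1 1) * dec i (A 2 2) -
    dec i (A 0 0) * dec i (A 1 2) * dec i (A 2 1) - dec i (A 0 1) * dec i (A 1 0) * dec i (A 2 2) +
    dec i (A 0 1) * dec i (A 1 2) * dec i (A 2 0) + dec i (A 0 2) * dec i (A 1 0) * dec i (A 2 1) -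
    dec i (A 0 2) * dec i (A 1 1) * dec i (A 2 0)
  ring

theorem eqm_iff {A B : Mx} : eqm A B = true ↔ dm i A = dm i B := by
  simp only [eqm, Bool.and_eq_true, h.eqk_iff]
  constructor
  · rintro ⟨a, b, c, d, e, f, g, k, l⟩
    ext r s
    fin_cases r <;> fin_cases s
    exacts [a, b, c, d, e, f, g, k, l]
  · intro e
    exact ⟨congrFun₂ e 0 0, congrFun₂ e 0 1, congrFun₂ e 0 2, congrFun₂ e 1 0, congrFun₂ e 1 1,
      congrFun₂ e 1 2, congrFun₂ e 2 0, congrFun₂ e 2 1, congrFun₂ e 2 2⟩

theorem ex (x : F) : ∃ p ∈ E, x = dec i p := h.surj x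

end Good

theorem imp_of {a b : Bool} (h : (!a || b) = true) (ha : a = true) : b = true := by
  rwa [ha] at h

/-- The structure of the field with nine elements. -/
theorem exists_good [Finite F] (h9 : Nat.card F = 9) (hs : ∃ a : F, star a ≠ a) :
    ∃ i : F, Good i := by
  classical
  let _ := Fintype.ofFinite F
  rw [Nat.card_eq_fintype_card] at h9
  have h3 : (3 : F) = 0 := by
    have e := FiniteField.cast_card_eq_zero F
    rw [h9] at e
    have : (3 : F) ^ 2 = 0 := by push_cast at e; linear_combination e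
    exact pow_eq_zero_iff (two_ne_zero) |>.1 this
  have h2 : (2 : F) ≠ 0 := fun e => one_ne_zero (α := F) (by linear_combination h3 - e)
  have key : ∀ j : F, j * j = -1 → ∀ x : F, ∃ p ∈ E, x = p.1 + p.2 * j := by
    intro j hj x
    have e := FiniteField.pow_card x
    rw [h9] at e
    have e' : x * (x - 1) * (x - 2) * (x - j) * (x - (1 + j)) * (x - (2 + j)) * (x - 2 * j) *
        (x - (1 + 2 * j)) * (x - (2 + 2 * j)) = 0 := by
      have a1 : ∀ y : F, y * (y - 1) * (y - 2) = y ^ 3 - y := fun y => by
        linear_combination (-y ^ 2 + y) * h3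
      have a2 : (x - j) ^ 3 = x ^ 3 + j := by
        linear_combination (-x ^ 2 * j + x * j ^ 2) * h3 - j * hj
      have a3 : (x - 2 * j) ^ 3 = x ^ 3 - j := by
        linear_combination (-2 * x ^ 2 * j + 4 * x * j ^ 2 + 3 * j) * h3 - 8 * j * hj
      have b1 := a1 x
      have b2 := a1 (x - j)
      have b3 := a1 (x - 2 * j)
      rw [a2] at b2
      rw [a3] at b3
      have b4 : (x ^ 3 - x) * (x ^ 3 + j - (x - j)) * (x ^ 3 - j - (x - 2 * j)) = 0 := by
        linear_combination e + (-x ^ 7 + x ^ 5 + j * (x ^ 3 - x) ^ 2 - (x ^ 3 - x)) * h3 +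
          2 * (x ^ 3 - x) * hj
      rw [← b1, ← b2, ← b3] at b4
      linear_combination b4
    simp only [mul_eq_zero, sub_eq_zero, or_assoc] at e'
    simp only [E, List.mem_cons, List.not_mem_nil, or_false, exists_eq_or_imp, exists_eq_left]
    simpa using e'
  obtain ⟨a, ha⟩ := hs
  have s1 : star (a - star a) = -(a - star a) := by rw [star_sub, star_star, neg_sub]
  have s0 : a - star a ≠ 0 := fun e => ha (sub_eq_zero.1 e).symm
  generalize a - star a = k at s1 s0
  have e := FiniteField.pow_card_sub_one_eq_one k s0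
  rw [h9] at e
  have e' : (k * k + 1) * ((k - 1) * ((k + 1) * (k * k * (k * k) + 1))) = 0 := by
    linear_combination e
  have hk : k * k = -1 := by
    rcases mul_eq_zero.1 e' with e1 | e1
    · exact eq_neg_of_add_eq_zero_left e1
    exfalso
    rcases mul_eq_zero.1 e1 with e2 | e2
    · rw [sub_eq_zero.1 e2, star_one] at s1
      exact h2 (by linear_combination s1)
    rcases mul_eq_zero.1 e2 with e3 | e3
    · rw [eq_neg_of_add_eq_zero_left e3, star_neg, star_one] at s1
      exact h2 (by linear_combination -s1)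
    · obtain ⟨p, -, hp⟩ := key (k * k) (eq_neg_of_add_eq_zero_left e3) a
      apply ha
      rw [hp, star_add, star_mul', star_mul', star_natCast, star_natCast, s1, neg_mul_neg]
  exact ⟨k, hk, h3, s1, key k hk⟩

end Pool.Agent.Lib.MP_cad414_al.Cg.UniFour
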