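import Mathlib

/-! Root elements of type `E8`: coordinates, signs and the action of `n_a(c)`. -/

namespace Pool.Agent.Lib.MP_cad414_al.Cg.XE

/-- Vectors of the root lattice in the basis of simple roots. -/
structure R where
  a : Int
  b : Int
  c : Int
  d : Int
  e : Int
  f : Int
  g : Int
  h : Int

namespace R

def add (r s : R) : R :=
  ⟨r.a + s.a, r.b + s.b, r.c + s.c, r.d + s.d, r.e + s.e, r.f + s.f, r.g + s.g, r.h + s.h⟩
def neg (r : R) : R := ⟨-r.a, -r.b, -r.c, -r.d, -r.e, -r.f, -r.g, -r.h⟩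
def dot (r s : R) : Int :=
  r.a * s.a + r.b * s.b + r.c * s.c + r.d * s.d + r.e * s.e + r.f * s.f + r.g * s.g + r.h * s.h
def cm (s : R) : R :=
  ⟨2 * s.a - s.c, 2 * s.b - s.d, 2 * s.c - s.a - s.d, 2 * s.d - s.b - s.c - s.e,
    2 * s.e - s.d - s.f, 2 * s.f - s.e - s.g, 2 * s.g - s.f - s.h, 2 * s.h - s.g⟩
def ip (r s : R) : Int := r.dot s.cm
def bf (r s : R) : Int :=
  r.dot s - (r.a * s.c + r.c * s.d + r.b * s.d + r.e * s.d + r.f * s.e + r.g * s.f + r.h * s.g)
def eqb (r s : R) : Bool :=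
  r.a == s.a && (r.b == s.b && (r.c == s.c && (r.d == s.d && (r.e == s.e && (r.f == s.f &&
    (r.g == s.g && r.h == s.h))))))

theorem ext' {r s : R} (h1 : r.a = s.a) (h2 : r.b = s.b) (h3 : r.c = s.c) (h4 : r.d = s.d)
    (h5 : r.e = s.e) (h6 : r.f = s.f) (h7 : r.g = s.g) (h8 : r.h = s.h) : r = s := by
  cases r; cases s; simp_all

theorem eq_of_eqb {r s : R} (h : r.eqb s = true) : r = s := by
  simp only [eqb, Bool.and_eq_true, beq_iff_eq] at h
  exact ext' h.1 h.2.1 h.2.2.1 h.2.2.2.1 h.2.2.2.2.1 h.2.2.2.2.2.1 h.2.2.2.2.2.2.1 h.2.2.2.2.2.2.2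

theorem ip_comm (r s : R) : r.ip s = s.ip r := by simp only [ip, dot, cm]; ring
theorem ip_add (r s t : R) : r.ip (s.add t) = r.ip s + r.ip t := by
  simp only [ip, dot, cm, add]; ring
theorem add_ip (r s t : R) : (s.add t).ip r = s.ip r + t.ip r := by
  simp only [ip, dot, cm, add]; ring
theorem ip_neg (r s : R) : r.ip s.neg = -r.ip s := by simp only [ip, dot, cm, neg]; ring
theorem neg_ip (r s : R) : r.neg.ip s = -r.ip s := by simp only [ip, dot, cm, neg]; ring
theorem bf_add (r s t : R) : r.bf (s.add t) = r.bf s + r.bf t := by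
  simp only [bf, dot, add]; ring
theorem add_bf (r s t : R) : (s.add t).bf r = s.bf r + t.bf r := by
  simp only [bf, dot, add]; ring
theorem bf_neg (r s : R) : r.bf s.neg = -r.bf s := by simp only [bf, dot, neg]; ring
theorem neg_bf (r s : R) : r.neg.bf s = -r.bf s := by simp only [bf, dot, neg]; ring
theorem bf_symm (r s : R) : r.bf s + s.bf r = r.ip s := by simp only [bf, ip, dot, cm]; ring
theorem add_comm' (r s : R) : r.add s = s.add r := by
  apply ext' <;> simp only [add] <;> ring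
theorem neg_neg' (r : R) : r.neg.neg = r := by apply ext' <;> simp [neg]

end R

/-- The sign attached to an integer. -/
def sg (n : Int) : Int := if n % 2 = 0 then 1 else -1

def eps (r s : R) : Int := sg (r.bf s)

theorem sg_mul (m n : Int) : sg m * sg n = sg (m + n) := by
  unfold sg; split_ifs <;> omega

theorem sg_odd {n : Int} (h : n % 2 = 1) : sg n = -1 := by unfold sg; split_ifs <;> omega
theorem sg_even {n : Int} (h : n % 2 = 0) : sg n = 1 := by unfold sg; split_ifs <;> omega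

variable {K S : Type} [Field K] [Group S]

/-- The Steinberg relations in coordinates. -/
structure StR (X : R → K → S) : Prop where
  add : ∀ {r : R}, r.ip r = 2 → ∀ a b, X r (a + b) = X r a * X r b
  cm0 : ∀ {r s : R}, r.ip r = 2 → s.ip s = 2 → 0 ≤ r.ip s → ∀ a b, X r a * X s b = X s b * X r a
  cm1 : ∀ {r s : R}, r.ip r = 2 → s.ip s = 2 → r.ip s = -1 → ∀ a b,
    X r a * X s b = X (r.add s) ((eps r s : K) * a * b) * X s b * X r a

/-- The element `n_a(c)`. -/
def N (X : R → K → S) (a : R) (c : K) : S := X a c * X a.neg c⁻¹ * X a c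

namespace StR

variable {X : R → K → S} (hX : StR X)
include hX

theorem zero {r : R} (hr : r.ip r = 2) : X r 0 = 1 := by
  have := hX.add hr 0 0
  rw [add_zero] at this
  exact left_eq_mul.1 this

theorem neg {r : R} (hr : r.ip r = 2) (a : K) : X r (-a) = (X r a)⁻¹ := by
  rw [eq_inv_iff_mul_eq_one, ← hX.add hr, neg_add_cancel, hX.zero hr]

omit hX in
theorem nrm_add {r s : R} (hr : r.ip r = 2) (hs : s.ip s = 2) (h : r.ip s = -1) :
    (r.add s).ip (r.add s) = 2 := by
  rw [R.ip_add, R.add_ip, R.add_ip, hr, hs, h, R.ip_comm s r, h]; rfl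

omit hX in
theorem nrm_neg {r : R} (hr : r.ip r = 2) : r.neg.ip r.neg = 2 := by
  rw [R.ip_neg, R.neg_ip, hr]; rfl

theorem cj0 {r s : R} (hr : r.ip r = 2) (hs : s.ip s = 2) (h : 0 ≤ r.ip s) (a b : K) :
    X r a * X s b * (X r a)⁻¹ = X s b := by
  rw [hX.cm0 hr hs h, mul_inv_cancel_right]

theorem cj1 {r s : R} (hr : r.ip r = 2) (hs : s.ip s = 2) (h : r.ip s = -1) (a b : K) :
    X r a * X s b * (X r a)⁻¹ = X (r.add s) ((eps r s : K) * a * b) * X s b := by
  rw [hX.cm1 hr hs h, mul_inv_cancel_right]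

theorem swap1 {r s : R} (hr : r.ip r = 2) (hs : s.ip s = 2) (h : r.ip s = -1) (a b : K) :
    X r a * X s b = X s b * X r a * X (r.add s) ((eps r s : K) * a * b) := by
  have hn := nrm_add hr hs h
  rw [hX.cm1 hr hs h, hX.cm0 hn hs (by rw [R.add_ip, h, hs]; decide), mul_assoc (X s b),
    hX.cm0 hn hr (by rw [R.add_ip, hr, R.ip_comm s r, h]; decide), mul_assoc (X s b)]

theorem comm1 {r s : R} (hr : r.ip r = 2) (hs : s.ip s = 2) (h : r.ip s = -1) (a b : K) :
    X r a * X s b * (X r a)⁻¹ * (X s b)⁻¹ = X (r.add s) ((eps r s : K) * a * b) := by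
  rw [hX.cj1 hr hs h, mul_inv_cancel_right]

omit hX in
theorem conj_N (a : R) (c : K) (g : S) : N X a c * g * (N X a c)⁻¹ =
    X a c * (X a.neg c⁻¹ * (X a c * g * (X a c)⁻¹) * (X a.neg c⁻¹)⁻¹) * (X a c)⁻¹ := by
  unfold N; group

omit hX in
theorem cj_mul (g u w : S) : g * (u * w) * g⁻¹ = (g * u * g⁻¹) * (g * w * g⁻¹) := by group

theorem N0 {a s : R} (ha : a.ip a = 2) (hs : s.ip s = 2) (h : a.ip s = 0) (c u : K) :
    N X a c * X s u * (N X a c)⁻¹ = X s u := by
  rw [conj_N, hX.cj0 ha hs h.ge, hX.cj0 (nrm_neg ha) hs (by rw [R.neg_ip, h]; rfl),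
    hX.cj0 ha hs h.ge]

theorem Nm {a s : R} (ha : a.ip a = 2) (hs : s.ip s = 2) (h : a.ip s = -1) {c : K} (hc : c ≠ 0)
    (u : K) : N X a c * X s u * (N X a c)⁻¹ = X (a.add s) ((eps a s : K) * c * u) := by
  have hn := nrm_add ha hs h
  have e1 : a.neg.add (a.add s) = s := by apply R.ext' <;> simp only [R.add, R.neg] <;> ring
  have e2 : eps a.neg (a.add s) * eps a s = -1 := by
    have := R.bf_symm a a
    unfold eps
    rw [sg_mul, R.neg_bf, R.bf_add]
    exact sg_odd (by omega)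
  have e3 : (eps a.neg (a.add s) : K) * c⁻¹ * ((eps a s : K) * c * u) = -u := by
    have : (eps a.neg (a.add s) : K) * (eps a s : K) = -1 := by exact_mod_cast congrArg Int.cast e2
    field_simp
    rw [this]; ring
  rw [conj_N, hX.cj1 ha hs h, cj_mul (X a.neg c⁻¹), hX.cj0 (nrm_neg ha) hs (by rw [R.neg_ip, h]; decide),
    hX.cj1 (nrm_neg ha) hn (by rw [R.neg_ip, R.ip_add, ha, h]; rfl), e1, e3, hX.neg hs,
    mul_assoc (X s u)⁻¹, hX.cm0 hn hs (by rw [R.add_ip, h, hs]; decide), inv_mul_cancel_left,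
    hX.cj0 ha hn (by rw [R.ip_add, ha, h]; decide)]

theorem Np {a s : R} (ha : a.ip a = 2) (hs : s.ip s = 2) (h : a.ip s = 1) {c : K} (hc : c ≠ 0)
    (u : K) : N X a c * X s u * (N X a c)⁻¹ = X (a.neg.add s) ((eps a s : K) * c⁻¹ * u) := by
  have h' : a.neg.ip s = -1 := by rw [R.neg_ip, h]
  have hn := nrm_add (nrm_neg ha) hs h'
  have e1 : a.add (a.neg.add s) = s := by apply R.ext' <;> simp only [R.add, R.neg] <;> ring
  have e0 : eps a.neg s = eps a s := by
    unfold eps sg; rw [R.neg_bf]; split_ifs <;> omega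
  have e2 : eps a (a.neg.add s) * eps a s = -1 := by
    have := R.bf_symm a a
    unfold eps
    rw [sg_mul, R.bf_add, R.bf_neg]
    exact sg_odd (by omega)
  have e3 : (eps a (a.neg.add s) : K) * c * ((eps a s : K) * c⁻¹ * u) = -u := by
    have : (eps a (a.neg.add s) : K) * (eps a s : K) = -1 := by exact_mod_cast congrArg Int.cast e2
    field_simp
    rw [this]; ring
  rw [conj_N, hX.cj0 ha hs (by rw [h]; decide), hX.cj1 (nrm_neg ha) hs h', e0, cj_mul,
    hX.cj0 ha hs (by rw [h]; decide),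
    hX.cj1 ha hn (by rw [R.ip_add, R.ip_neg, ha, h]; rfl), e1, e3, hX.neg hs,
    mul_assoc (X s u)⁻¹, hX.cm0 hn hs (by rw [R.add_ip, h', hs]; decide), inv_mul_cancel_left]

omit hX in
theorem cj_comm (g u w : S) : g * (u * w * u⁻¹ * w⁻¹) * g⁻¹ =
    (g * u * g⁻¹) * (g * w * g⁻¹) * (g * u * g⁻¹)⁻¹ * (g * w * g⁻¹)⁻¹ := by group

theorem N2 {a b : R} (ha : a.ip a = 2) (hb : b.ip b = 2) (h : a.ip b = -1) {c : K} (hc : c ≠ 0)
    (u : K) : N X a c * X a u * (N X a c)⁻¹ = X a.neg (c⁻¹ * c⁻¹ * u) := by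
  have hn := nrm_add ha hb h
  have h' : b.ip a = -1 := by rw [R.ip_comm, h]
  have e1 : (a.add b).add b.neg = a := by apply R.ext' <;> simp only [R.add, R.neg] <;> ring
  have e2 : a.neg.add (a.add b) = b := by apply R.ext' <;> simp only [R.add, R.neg] <;> ring
  have e3 : b.add (a.neg.add b.neg) = a.neg := by
    apply R.ext' <;> simp only [R.add, R.neg] <;> ring
  have k1 := hX.comm1 hn (nrm_neg hb) (by rw [R.ip_neg, R.add_ip, h, hb]; rfl)
    ((eps (a.add b) b.neg : K) * u) 1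
  have s1 : ((eps (a.add b) b.neg : K)) * (eps (a.add b) b.neg : K) = 1 := by
    have : eps (a.add b) b.neg * eps (a.add b) b.neg = 1 := by
      unfold eps; rw [sg_mul]; exact sg_even (by omega)
    exact_mod_cast congrArg (Int.cast : ℤ → K) this
  rw [e1, mul_one, ← mul_assoc, s1, one_mul] at k1
  have s2 : eps b (a.neg.add b.neg) * (eps a (a.add b) * (eps (a.add b) b.neg * eps a b.neg)) = 1 := by
    have := R.bf_symm a a
    have := R.bf_symm a b
    unfold eps
    rw [sg_mul, sg_mul, sg_mul]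
    simp only [R.bf_add, R.add_bf, R.bf_neg]
    exact sg_even (by omega)
  have s3 : (eps b (a.neg.add b.neg) : K) * ((eps a (a.add b) : K) * ((eps (a.add b) b.neg : K) *
      (eps a b.neg : K))) = 1 := by
    exact_mod_cast congrArg (Int.cast : ℤ → K) s2
  rw [← k1, cj_comm, hX.Np ha hn (by rw [R.ip_add, ha, h]; rfl) hc,
    hX.Np ha (nrm_neg hb) (by rw [R.ip_neg, h]; rfl) hc, e2,
    hX.comm1 hb (nrm_add (nrm_neg ha) (nrm_neg hb) (by rw [R.ip_neg, R.neg_ip, h]; rfl))
      (by rw [R.ip_add, R.ip_neg, R.ip_neg, hb, h']; rfl), e3]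
  congr 1
  linear_combination (c⁻¹ * c⁻¹ * u) * s3

theorem N2' {a b : R} (ha : a.ip a = 2) (hb : b.ip b = 2) (h : a.ip b = -1) {c : K} (hc : c ≠ 0)
    (u : K) : N X a c * X a.neg u * (N X a c)⁻¹ = X a (c * c * u) := by
  have hn := nrm_add ha hb h
  have h' : b.ip a = -1 := by rw [R.ip_comm, h]
  have hm := nrm_add (nrm_neg ha) (nrm_neg hb) (by rw [R.ip_neg, R.neg_ip, h]; rfl)
  have e1 : (a.add b).add b.neg = a := by apply R.ext' <;> simp only [R.add, R.neg] <;> ring
  have e2 : a.add (a.neg.add b.neg) = b.neg := by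
    apply R.ext' <;> simp only [R.add, R.neg] <;> ring
  have e3 : b.add (a.neg.add b.neg) = a.neg := by
    apply R.ext' <;> simp only [R.add, R.neg] <;> ring
  have k1 := hX.comm1 hb hm (by rw [R.ip_add, R.ip_neg, R.ip_neg, hb, h']; rfl)
    ((eps b (a.neg.add b.neg) : K) * u) 1
  have s1 : ((eps b (a.neg.add b.neg) : K)) * (eps b (a.neg.add b.neg) : K) = 1 := by
    have : eps b (a.neg.add b.neg) * eps b (a.neg.add b.neg) = 1 := by
      unfold eps; rw [sg_mul]; exact sg_even (by omega)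
    exact_mod_cast congrArg (Int.cast : ℤ → K) this
  rw [e3, mul_one, ← mul_assoc, s1, one_mul] at k1
  have s2 : eps (a.add b) b.neg * (eps a b * (eps b (a.neg.add b.neg) *
      eps a (a.neg.add b.neg))) = 1 := by
    have := R.bf_symm a a
    have := R.bf_symm a b
    unfold eps
    rw [sg_mul, sg_mul, sg_mul]
    simp only [R.bf_add, R.add_bf, R.bf_neg]
    exact sg_even (by omega)
  have s3 : (eps (a.add b) b.neg : K) * ((eps a b : K) * ((eps b (a.neg.add b.neg) : K) *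
      (eps a (a.neg.add b.neg) : K))) = 1 := by
    exact_mod_cast congrArg (Int.cast : ℤ → K) s2
  rw [← k1, cj_comm, hX.Nm ha hb h hc,
    hX.Nm ha hm (by rw [R.ip_add, R.ip_neg, R.ip_neg, ha, h]; rfl) hc, e2,
    hX.comm1 hn (nrm_neg hb) (by rw [R.ip_neg, R.add_ip, h, hb]; rfl), e1]
  congr 1
  linear_combination (c * c * u) * s3

end StR

end Pool.Agent.Lib.MP_cad414_al.Cg.XE
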