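import Pool.Agent.Lib.MP_cad414_al.Cg.XA

/-! Laurent polynomials and words in root elements, with a verified collection process. -/

namespace Pool.Agent.Lib.MP_cad414_al.Cg.XE

abbrev Mono := List Int
abbrev Poly := List (Int × Mono)
abbrev Word := List (R × Poly)

def madd : Mono → Mono → Mono
  | a :: m, b :: n => (a + b) :: madd m n
  | [], n => n
  | m, [] => m

def msc (k : Int) (m : Mono) : Mono := m.map (k * ·)

/-- Comparison: `0` equal, `1` smaller, `2` larger. -/
def mcmp : Mono → Mono → Nat
  | [], [] => 0
  | [], _ :: _ => 1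
  | _ :: _, [] => 2
  | a :: m, b :: n => if a = b then mcmp m n else if a < b then 1 else 2

def pcons (p c : Int) (m : Mono) (f : Poly) : Poly := if c % p = 0 then f else (c % p, m) :: f

def pins (p c : Int) (m : Mono) : Poly → Poly
  | [] => pcons p c m []
  | (d, n) :: f =>
    match mcmp m n with
    | 0 => pcons p (c + d) m f
    | 1 => pcons p c m ((d, n) :: f)
    | _ => (d, n) :: pins p c m f

def padd (p : Int) : Poly → Poly → Poly
  | [], g => g
  | (c, m) :: f, g => pins p c m (padd p f g)

def psc (p c : Int) (m : Mono) : Poly → Poly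
  | [] => []
  | (d, n) :: f => pcons p (c * d) (madd m n) (psc p c m f)

def pmul (p k : Int) : Poly → Poly → Poly
  | [], _ => []
  | (c, m) :: f, g => padd p (psc p (k * c) m g) (pmul p k f g)

def peqb : Poly → Poly → Bool
  | [], [] => true
  | (c, m) :: f, (d, n) :: g => c == d && (mcmp m n == 0 && peqb f g)
  | _, _ => false

def weqb : Word → Word → Bool
  | [], [] => true
  | (r, f) :: w, (s, g) :: u => r.eqb s && (peqb f g && weqb w u)
  | _, _ => false

theorem eq_of_mcmp : ∀ {m n : Mono}, mcmp m n = 0 → m = n
  | [], [], _ => rfl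
  | [], _ :: _, h => by simp [mcmp] at h
  | _ :: _, [], h => by simp [mcmp] at h
  | a :: m, b :: n, h => by
    unfold mcmp at h
    split_ifs at h with h1
    rw [h1, eq_of_mcmp h]

theorem eq_of_peqb : ∀ {f g : Poly}, peqb f g = true → f = g
  | [], [], _ => rfl
  | [], _ :: _, h => by simp [peqb] at h
  | _ :: _, [], h => by simp [peqb] at h
  | (c, m) :: f, (d, n) :: g, h => by
    simp only [peqb, Bool.and_eq_true, beq_iff_eq] at h
    rw [h.1, eq_of_mcmp h.2.1, eq_of_peqb h.2.2]

theorem eq_of_weqb : ∀ {w u : Word}, weqb w u = true → w = u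
  | [], [], _ => rfl
  | [], _ :: _, h => by simp [weqb] at h
  | _ :: _, [], h => by simp [weqb] at h
  | (r, f) :: w, (s, g) :: u, h => by
    simp only [weqb, Bool.and_eq_true] at h
    rw [R.eq_of_eqb h.1, eq_of_peqb h.2.1, eq_of_weqb h.2.2]

variable {K S : Type} [Field K] [Group S]

def evM : List K → Mono → K
  | x :: v, a :: m => x ^ a * evM v m
  | _, _ => 1

def evP (v : List K) : Poly → K
  | [] => 0
  | (c, m) :: f => (c : K) * evM v m + evP v f

def evW (X : R → K → S) (v : List K) : Word → S
  | [] => 1
  | (r, f) :: w => X r (evP v f) * evW X v w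

/-- All letters are roots. -/
def Good (w : Word) : Prop := ∀ l ∈ w, l.1.ip l.1 = 2

def goodb (w : Word) : Bool := w.all fun l => l.1.ip l.1 == 2

theorem good_of_b {w : Word} (h : goodb w = true) : Good w := by
  simpa [goodb, Good] using h

theorem evW_append (X : R → K → S) (v : List K) : ∀ w u : Word,
    evW X v (w ++ u) = evW X v w * evW X v u
  | [], u => by simp [evW]
  | (r, f) :: w, u => by simp [evW, evW_append X v w u, mul_assoc]

theorem Good.append {w u : Word} (h : Good w) (h' : Good u) : Good (w ++ u) := fun l hl =>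
  (List.mem_append.1 hl).elim (h l) (h' l)

theorem Good.cons {r : R} {f : Poly} {w : Word} (h : r.ip r = 2) (h' : Good w) :
    Good ((r, f) :: w) := fun l hl => by
  rcases List.mem_cons.1 hl with rfl | hl
  exacts [h, h' l hl]

theorem Good.head {r : R} {f : Poly} {w : Word} (h : Good ((r, f) :: w)) : r.ip r = 2 :=
  h _ List.mem_cons_self

theorem Good.tail {l : R × Poly} {w : Word} (h : Good (l :: w)) : Good w :=
  fun a ha => h a (List.mem_cons_of_mem _ ha)

theorem Good.nil : Good [] := fun _ h => by simp at h

section
variable {v : List K} (hv : ∀ x ∈ v, x ≠ 0)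
include hv

theorem evM_ne : ∀ m : Mono, evM v m ≠ 0 := by
  induction v with
  | nil => intro m; simp [evM]
  | cons x v ih =>
    intro m
    cases m with
    | nil => simp [evM]
    | cons a m =>
      exact mul_ne_zero (zpow_ne_zero _ (hv x List.mem_cons_self))
        (ih (fun y hy => hv y (List.mem_cons_of_mem _ hy)) m)

theorem evM_add : ∀ m n : Mono, evM v (madd m n) = evM v m * evM v n := by
  induction v with
  | nil => intro m n; simp [evM]
  | cons x v ih =>
    intro m n
    cases m with
    | nil => simp [madd, evM]
    | cons a m =>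
      cases n with
      | nil => simp [madd, evM]
      | cons b n =>
        simp only [madd, evM, zpow_add₀ (hv x List.mem_cons_self),
          ih (fun y hy => hv y (List.mem_cons_of_mem _ hy))]
        ring

omit hv in
theorem evM_sc (k : Int) : ∀ m : Mono, evM v (msc k m) = evM v m ^ k := by
  induction v with
  | nil => intro m; simp [evM]
  | cons x v ih =>
    intro m
    cases m with
    | nil => simp [msc, evM]
    | cons a m =>
      have := ih m
      simp only [msc, List.map_cons, evM] at this ⊢
      rw [this, mul_zpow, ← zpow_mul, mul_comm k a]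

variable {p : Int} (hp : (p : K) = 0)
include hp

omit hv in
theorem cast_mod (c : Int) : ((c % p : Int) : K) = c := by
  rw [Int.emod_def]; push_cast; rw [hp]; ring

omit hv in
theorem evP_cons (c : Int) (m : Mono) (f : Poly) :
    evP v (pcons p c m f) = c * evM v m + evP v f := by
  unfold pcons
  split_ifs with h
  · rw [← cast_mod hp c, h]; simp
  · rw [evP, cast_mod hp]

omit hv in
theorem evP_ins (c : Int) (m : Mono) : ∀ f : Poly,
    evP v (pins p c m f) = c * evM v m + evP v f
  | [] => by rw [pins, evP_cons hp]
  | (d, n) :: f => by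
    unfold pins
    split
    · rename_i h
      rw [evP_cons hp, evP, eq_of_mcmp h]; push_cast; ring
    · rw [evP_cons hp]
    · rw [evP, evP_ins c m f, evP]; ring

omit hv in
theorem evP_add : ∀ f g : Poly, evP v (padd p f g) = evP v f + evP v g
  | [], g => by simp [padd, evP]
  | (c, m) :: f, g => by rw [padd, evP_ins hp, evP_add f g, evP]; ring

theorem evP_sc (c : Int) (m : Mono) : ∀ f : Poly,
    evP v (psc p c m f) = c * evM v m * evP v f
  | [] => by simp [psc, evP]
  | (d, n) :: f => by
    rw [psc, evP_cons hp, evP_sc c m f, evP, evM_add hv]; push_cast; ring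

theorem evP_mul (k : Int) : ∀ f g : Poly, evP v (pmul p k f g) = k * evP v f * evP v g
  | [], g => by simp [pmul, evP]
  | (c, m) :: f, g => by
    rw [pmul, evP_add hp, evP_sc hv hp, evP_mul k f g, evP]; push_cast; ring

end

/-- Value of a reversed word. -/
def evR (X : R → K → S) (v : List K) : Word → S
  | [] => 1
  | (r, f) :: w => evR X v w * X r (evP v f)

theorem evR_rev (X : R → K → S) (v : List K) : ∀ w u : Word,
    evW X v (w.reverseAux u) = evR X v w * evW X v u
  | [], u => by simp [evR, List.reverseAux]
  | (r, f) :: w, u => by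
    rw [List.reverseAux, evR_rev X v w, evW, evR, mul_assoc]

/-- Move the letter `(r, f)` to the left through the reversed word `d`; the letters that were passed
are put in front of `t`. -/
def pass (p : Int) (φ r cr : R) (kr : Int) (f : Poly) : Word → Word → Option (Word × Word)
  | [], t => some ([(r, f)], t)
  | (s, g) :: d, t =>
    if kr < φ.dot s then
      (if s.dot cr = -1 then
        pass p φ r cr kr f d ((s, g) :: (s.add r, pmul p (eps s r) g f) :: t)
      else if 0 ≤ s.dot cr then pass p φ r cr kr f d ((s, g) :: t) else none)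
    else if r.eqb s then
      (match padd p f g with
       | [] => some (d, t)
       | a :: h => some ((r, a :: h) :: d, t))
    else some ((r, f) :: (s, g) :: d, t)

def collect (p : Int) (φ : R) : Nat → Word → Word → Option Word
  | _, d, [] => some (d.reverseAux [])
  | 0, _, _ :: _ => none
  | n + 1, d, (r, f) :: t =>
    match f with
    | [] => collect p φ n d t
    | a :: h =>
      match pass p φ r r.cm (φ.dot r) (a :: h) d t with
      | none => none
      | some (d', t') => collect p φ n d' t'

section
variable {X : R → K → S} (hX : StR X) {v : List K} (hv : ∀ x ∈ v, x ≠ 0) {p : Int}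
  (hp : (p : K) = 0)
include hX hv hp

theorem pass_ok (φ : R) {r : R} (hr : r.ip r = 2) (kr : Int) (f : Poly) :
    ∀ (d t : Word) {d' t' : Word}, Good d → Good t → pass p φ r r.cm kr f d t = some (d', t') →
      Good d' ∧ Good t' ∧
        evR X v d' * evW X v t' = evR X v d * X r (evP v f) * evW X v t
  | [], t, d', t', _, ht, h => by
    simp only [pass, Option.some.injEq, Prod.mk.injEq] at h
    obtain ⟨rfl, rfl⟩ := h
    exact ⟨Good.cons hr Good.nil, ht, by simp [evR]⟩
  | (s, g) :: d, t, d', t', hd, ht, h => by
    have hs := hd.head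
    unfold pass at h
    split_ifs at h with h1 h2 h3 h4
    · obtain ⟨a, b, c⟩ := pass_ok φ hr kr f d _ hd.tail
        (Good.cons hs (Good.cons (StR.nrm_add hs hr h2) ht)) h
      refine ⟨a, b, ?_⟩
      rw [c, evR, evW, evW, evP_mul hv hp, mul_assoc (evR X v d) (X s _), hX.swap1 hs hr h2]
      simp only [mul_assoc]
    · obtain ⟨a, b, c⟩ := pass_ok φ hr kr f d _ hd.tail (Good.cons hs ht) h
      refine ⟨a, b, ?_⟩
      rw [c, evR, evW, mul_assoc (evR X v d) (X s _), hX.cm0 hs hr h3]
      simp only [mul_assoc]
    · obtain rfl := R.eq_of_eqb h4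
      have e := evP_add (v := v) hp f g
      have e2 : evR X v ((r, g) :: d) * X r (evP v f) = evR X v d * X r (evP v (padd p f g)) := by
        rw [evR, mul_assoc, ← hX.add hr, e, add_comm]
      split at h
      · rename_i h5
        simp only [Option.some.injEq, Prod.mk.injEq] at h
        obtain ⟨rfl, rfl⟩ := h
        refine ⟨hd.tail, ht, ?_⟩
        rw [e2, h5, evP, hX.zero hr, mul_one]
      · rename_i h5
        simp only [Option.some.injEq, Prod.mk.injEq] at h
        obtain ⟨rfl, rfl⟩ := h
        refine ⟨Good.cons hr hd.tail, ht, ?_⟩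
        rw [e2, h5, evR]
    · simp only [Option.some.injEq, Prod.mk.injEq] at h
      obtain ⟨rfl, rfl⟩ := h
      exact ⟨Good.cons hr hd, ht, rfl⟩

theorem collect_ok (φ : R) : ∀ (n : Nat) (d t : Word) {w : Word}, Good d → Good t →
    collect p φ n d t = some w → Good w ∧ evW X v w = evR X v d * evW X v t
  | n, d, [], w, hd, _, h => by
    have : d.reverseAux [] = w := by cases n <;> simpa [collect] using h
    subst this
    exact ⟨fun l hl => hd l (by simpa using hl), evR_rev X v d []⟩
  | 0, _, _ :: _, w, _, _, h => by simp [collect] at h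
  | n + 1, d, (r, f) :: t, w, hd, ht, h => by
    unfold collect at h
    split at h
    · obtain ⟨a, b⟩ := collect_ok φ n d t hd ht.tail h
      exact ⟨a, by rw [b, evW, evP, hX.zero ht.head, one_mul]⟩
    · split at h
      · simp at h
      · rename_i h1
        obtain ⟨a, b, c⟩ := pass_ok hX hv hp φ ht.head _ _ d t hd ht.tail h1
        obtain ⟨a', b'⟩ := collect_ok φ n _ _ a b h
        exact ⟨a', by rw [b', c, evW, mul_assoc]⟩

end

end Pool.Agent.Lib.MP_cad414_al.Cg.XE
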