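import Pool.Agent.Lib.MP_cad414_al.Cg.XB

/-! Monomial elements and membership certificates. -/

namespace Pool.Agent.Lib.MP_cad414_al.Cg.XE

/-- The element `n_a(± m)`; `b` is a root with `(a, b) = -1`. -/
structure ME where
  a : R
  b : R
  s : Bool
  m : Mono

def sI (s : Bool) : Int := if s then -1 else 1

def ME.ok (e : ME) : Bool := e.a.ip e.a == 2 && (e.b.ip e.b == 2 && e.a.ip e.b == -1)

def act1 (p : Int) (e : ME) (ca : R) : Word → Option Word
  | [] => some []
  | (r, f) :: w =>
    match act1 p e ca w with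
    | none => none
    | some u =>
      if r.dot ca = 0 then some ((r, f) :: u)
      else if r.dot ca = -1 then some ((e.a.add r, psc p (eps e.a r * sI e.s) e.m f) :: u)
      else if r.dot ca = 1 then
        some ((e.a.neg.add r, psc p (eps e.a r * sI e.s) (msc (-1) e.m) f) :: u)
      else if r.eqb e.a then some ((e.a.neg, psc p 1 (msc (-2) e.m) f) :: u)
      else if r.eqb e.a.neg then some ((e.a, psc p 1 (msc 2 e.m) f) :: u)
      else none

def act (p : Int) : List ME → Word → Option Word
  | [], w => some w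
  | e :: M, w =>
    match act p M w with
    | none => none
    | some u => if e.ok then act1 p e e.a.cm u else none

def nwords (p : Int) : List ME → Word
  | [] => []
  | e :: M => (e.a, pcons p (sI e.s) e.m []) :: (e.a.neg, pcons p (sI e.s) (msc (-1) e.m) []) ::
      (e.a, pcons p (sI e.s) e.m []) :: nwords p M

def winv (p : Int) : Word → Word → Word
  | [], u => u
  | (r, f) :: w, u => winv p w ((r, psc p (-1) [] f) :: u)

def swap1 : Nat → Word → Option Word
  | 0, a :: b :: w => if 0 ≤ a.1.ip b.1 then some (b :: a :: w) else none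
  | n + 1, a :: w => (swap1 n w).map (a :: ·)
  | _, _ => none

def swaps : List Nat → Word → Option Word
  | [], w => some w
  | i :: l, w => (swap1 i w).bind (swaps l)

def cat (p : Int) (T : List Word) : List (Nat × Bool) → Word
  | [] => []
  | (i, b) :: l => if b then winv p (T.getD i []) (cat p T l) else T.getD i [] ++ cat p T l

def acts (p : Int) (Ms : List (List ME)) : List Nat → Word → Option Word
  | [], w => some w
  | i :: l, w => (acts p Ms l w).bind (act p (Ms.getD i []))

/-- Instructions of a certificate. -/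
inductive Ins where
  | ext (w : Word)
  | col (l : List (Nat × Bool)) (φ : R)
  | cat (l : List (Nat × Bool))
  | swp (k : Nat) (l : List Nat)
  | mon (k : Nat) (M : List ME)
  | cnj (l : List Nat) (k : Nat)

def step (p : Int) (ok : Word → Bool) (T : List Word) (Ms : List (List ME)) :
    Ins → Option (List Word × List (List ME))
  | .ext w => if ok w && goodb w then some (w :: T, Ms) else none
  | .col l φ => (collect p φ 100000 [] (cat p T l)).map fun w => (w :: T, Ms)
  | .cat l => some (cat p T l :: T, Ms)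
  | .swp k l => (swaps l (T.getD k [])).map fun w => (w :: T, Ms)
  | .mon k M => if weqb (T.getD k []) (nwords p M) then some (T, M :: Ms) else none
  | .cnj l k => (acts p Ms l (T.getD k [])).map fun w => (w :: T, Ms)

def run (p : Int) (ok : Word → Bool) : List Ins → List Word → List (List ME) → Option (List Word)
  | [], T, _ => some T
  | i :: l, T, Ms =>
    match step p ok T Ms i with
    | none => none
    | some (T', Ms') => run p ok l T' Ms'

def check (p : Int) (ok : Word → Bool) (T : List Word) (l : List Ins) (out : List Word) : Bool :=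
  T.all goodb &&
    match run p ok l T [] with
    | none => false
    | some T' => out.all fun w => T'.any (weqb w)

variable {K S : Type} [Field K] [Group S]
variable {X : R → K → S} (hX : StR X) {v : List K} (hv : ∀ x ∈ v, x ≠ 0) {p : Int}
  (hp : (p : K) = 0)

theorem sI_sq (s : Bool) : (sI s : K) * (sI s : K) = 1 := by cases s <;> simp [sI]

include hX hv hp

theorem act1_ok {e : ME} (he : e.ok = true) : ∀ (w : Word) {u : Word}, Good w →
    act1 p e e.a.cm w = some u → Good u ∧ evW X v u =
      N X e.a (sI e.s * evM v e.m) * evW X v w * (N X e.a (sI e.s * evM v e.m))⁻¹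
  | [], u, _, h => by
    simp only [act1, Option.some.injEq] at h
    subst h
    exact ⟨Good.nil, by simp [evW]⟩
  | (r, f) :: w, u, hw, h => by
    simp only [ME.ok, Bool.and_eq_true, beq_iff_eq] at he
    have hr := hw.head
    have hm := evM_ne hv e.m
    have hs := sI_sq (K := K) e.s
    have hs0 : (sI e.s : K) ≠ 0 := left_ne_zero_of_mul_eq_one hs
    have hsi : (sI e.s : K)⁻¹ = sI e.s := inv_eq_of_mul_eq_one_right hs
    have hc := mul_ne_zero hs0 hm
    unfold act1 at h
    split at h
    · simp at h
    · rename_i u' h0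
      obtain ⟨a, b⟩ := act1_ok (by simp [ME.ok, he]) w hw.tail h0
      rw [evW, StR.cj_mul, ← b]
      have ic : e.a.ip r = r.dot e.a.cm := R.ip_comm _ _
      split_ifs at h with h1 h2 h3 h4 h5 <;> simp only [Option.some.injEq] at h <;> subst h
      · exact ⟨Good.cons hr a, by rw [evW, hX.N0 he.1 hr (ic.trans h1)]⟩
      · refine ⟨Good.cons (StR.nrm_add he.1 hr (ic.trans h2)) a, ?_⟩
        rw [evW, hX.Nm he.1 hr (ic.trans h2) hc, evP_sc hv hp]
        congr 2; push_cast; ring
      · refine ⟨Good.cons (StR.nrm_add (StR.nrm_neg he.1) hr (by rw [R.neg_ip, ic, h3])) a, ?_⟩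
        rw [evW, hX.Np he.1 hr (ic.trans h3) hc, evP_sc hv hp, evM_sc, mul_inv, hsi]
        congr 2; push_cast; rw [zpow_neg_one]; ring
      · obtain rfl := R.eq_of_eqb h4
        refine ⟨Good.cons (StR.nrm_neg he.1) a, ?_⟩
        rw [evW, hX.N2 he.1 he.2.1 he.2.2 hc, evP_sc hv hp, evM_sc, mul_inv, hsi]
        congr 2
        rw [zpow_neg, zpow_two, mul_inv]; push_cast
        linear_combination (-((evM v e.m)⁻¹ * (evM v e.m)⁻¹ * evP v f)) * hs
      · obtain rfl := R.eq_of_eqb h5
        refine ⟨Good.cons he.1 a, ?_⟩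
        rw [evW, hX.N2' he.1 he.2.1 he.2.2 hc, evP_sc hv hp, evM_sc]
        congr 2
        rw [zpow_two]; push_cast
        linear_combination (-(evM v e.m * evM v e.m * evP v f)) * hs

omit hX hv in
theorem evW_nwords (e : ME) (M : List ME) : evW X v (nwords p (e :: M)) =
    N X e.a (sI e.s * evM v e.m) * evW X v (nwords p M) := by
  have hsi : (sI e.s : K)⁻¹ = sI e.s := inv_eq_of_mul_eq_one_right (sI_sq e.s)
  simp only [nwords, evW, evP_cons hp, evP, add_zero, N, evM_sc, mul_inv, hsi, zpow_neg_one,
    mul_assoc]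

theorem act_ok : ∀ (M : List ME) (w : Word) {u : Word}, Good w → act p M w = some u →
    Good u ∧ evW X v u = evW X v (nwords p M) * evW X v w * (evW X v (nwords p M))⁻¹
  | [], w, u, hw, h => by
    simp only [act, Option.some.injEq] at h
    subst h
    exact ⟨hw, by simp [nwords, evW]⟩
  | e :: M, w, u, hw, h => by
    unfold act at h
    split at h
    · simp at h
    · rename_i u' h0
      obtain ⟨a, b⟩ := act_ok M w hw h0
      split_ifs at h with he
      obtain ⟨a', b'⟩ := act1_ok hX hv hp he u' a h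
      refine ⟨a', ?_⟩
      rw [b', b, evW_nwords hp]; group

theorem winv_ok : ∀ w u : Word, Good w → Good u →
    Good (winv p w u) ∧ evW X v (winv p w u) = (evW X v w)⁻¹ * evW X v u
  | [], u, _, hu => ⟨hu, by simp [winv, evW]⟩
  | (r, f) :: w, u, hw, hu => by
    obtain ⟨a, b⟩ := winv_ok w ((r, psc p (-1) [] f) :: u) hw.tail (Good.cons hw.head hu)
    refine ⟨a, ?_⟩
    have : evM v [] = 1 := by cases v <;> rfl
    have e : ((-1 : Int) : K) * 1 * evP v f = -evP v f := by push_cast; ring
    rw [winv, b, evW, evW, evP_sc hv hp, this, e, mul_inv_rev, ← hX.neg hw.head, mul_assoc]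

omit hv hp in
theorem swap1_ok : ∀ (n : Nat) (w : Word) {u : Word}, Good w → swap1 n w = some u →
    Good u ∧ evW X v u = evW X v w
  | 0, [], _, _, h => by simp [swap1] at h
  | 0, [_], _, _, h => by simp [swap1] at h
  | 0, (r, f) :: (s, g) :: w, u, hw, h => by
    unfold swap1 at h
    split_ifs at h with h1
    simp only [Option.some.injEq] at h
    subst h
    refine ⟨Good.cons hw.tail.head (Good.cons hw.head hw.tail.tail), ?_⟩
    rw [evW, evW, evW, evW, ← mul_assoc, ← mul_assoc, hX.cm0 hw.head hw.tail.head h1]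
  | n + 1, [], _, _, h => by simp [swap1] at h
  | n + 1, (r, f) :: w, u, hw, h => by
    simp only [swap1, Option.map_eq_some_iff] at h
    obtain ⟨u', h1, rfl⟩ := h
    obtain ⟨a, b⟩ := swap1_ok n w hw.tail h1
    exact ⟨Good.cons hw.head a, by rw [evW, evW, b]⟩

omit hv hp in
theorem swaps_ok : ∀ (l : List Nat) (w : Word) {u : Word}, Good w → swaps l w = some u →
    Good u ∧ evW X v u = evW X v w
  | [], w, u, hw, h => by
    simp only [swaps, Option.some.injEq] at h
    subst h; exact ⟨hw, rfl⟩
  | i :: l, w, u, hw, h => by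
    simp only [swaps, Option.bind_eq_some_iff] at h
    obtain ⟨u', h1, h2⟩ := h
    obtain ⟨a, b⟩ := swap1_ok (v := v) hX i w hw h1
    obtain ⟨a', b'⟩ := swaps_ok l u' a h2
    exact ⟨a', b'.trans b⟩

omit hX hv hp in
theorem getD_all {α : Type} {P : α → Prop} {T : List α} (h : ∀ w ∈ T, P w) {d : α} (hd : P d)
    (i : Nat) : P (T.getD i d) := by
  rw [List.getD_eq_getElem?_getD]
  cases e : T[i]? with
  | none => exact hd
  | some w => exact h w (List.mem_of_getElem? e)

variable {L : Subgroup S}

theorem cat_ok {T : List Word} (hT : ∀ w ∈ T, Good w ∧ evW X v w ∈ L) :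
    ∀ l : List (Nat × Bool), Good (cat p T l) ∧ evW X v (cat p T l) ∈ L
  | [] => ⟨Good.nil, one_mem L⟩
  | (i, b) :: l => by
    obtain ⟨a1, b1⟩ := cat_ok hT l
    obtain ⟨a2, b2⟩ := getD_all hT (d := []) ⟨Good.nil, one_mem L⟩ i
    unfold cat
    split_ifs
    · obtain ⟨a, b⟩ := winv_ok hX hv hp _ _ a2 a1
      exact ⟨a, b ▸ mul_mem (inv_mem b2) b1⟩
    · exact ⟨a2.append a1, evW_append X v _ _ ▸ mul_mem b2 b1⟩

theorem acts_ok {Ms : List (List ME)} (hM : ∀ M ∈ Ms, evW X v (nwords p M) ∈ L) :
    ∀ (l : List Nat) (w : Word) {u : Word}, Good w ∧ evW X v w ∈ L → acts p Ms l w = some u →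
      Good u ∧ evW X v u ∈ L
  | [], w, u, hw, h => by
    simp only [acts, Option.some.injEq] at h
    subst h; exact hw
  | i :: l, w, u, hw, h => by
    simp only [acts, Option.bind_eq_some_iff] at h
    obtain ⟨u', h1, h2⟩ := h
    obtain ⟨a, b⟩ := acts_ok hM l w hw h1
    obtain ⟨a', b'⟩ := act_ok hX hv hp _ u' a h2
    have := getD_all (P := fun M => evW X v (nwords p M) ∈ L) hM (d := []) (one_mem L) i
    exact ⟨a', b' ▸ mul_mem (mul_mem this b) (inv_mem this)⟩

variable {ok : Word → Bool} (hok : ∀ w, ok w = true → evW X v w ∈ L)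
include hok

theorem run_ok : ∀ (l : List Ins) (T : List Word) (Ms : List (List ME)) {T' : List Word},
    (∀ w ∈ T, Good w ∧ evW X v w ∈ L) → (∀ M ∈ Ms, evW X v (nwords p M) ∈ L) →
      run p ok l T Ms = some T' → ∀ w ∈ T', Good w ∧ evW X v w ∈ L
  | [], T, Ms, T', hT, _, h => by
    simp only [run, Option.some.injEq] at h
    subst h; exact hT
  | i :: l, T, Ms, T', hT, hM, h => by
    unfold run at h
    split at h
    · simp at h
    · rename_i T1 M1 h0
      have key : ∀ {w}, Good w ∧ evW X v w ∈ L → ∀ u ∈ w :: T, Good u ∧ evW X v u ∈ L :=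
        fun hw u hu => (List.mem_cons.1 hu).elim (fun e => e ▸ hw) (hT u)
      have g0 := getD_all hT (d := []) ⟨Good.nil, one_mem L⟩
      suffices (∀ w ∈ T1, Good w ∧ evW X v w ∈ L) ∧ ∀ M ∈ M1, evW X v (nwords p M) ∈ L from
        run_ok l T1 M1 this.1 this.2 h
      cases i with
      | ext w =>
        simp only [step] at h0
        split_ifs at h0 with h1
        simp only [Option.some.injEq, Prod.mk.injEq] at h0
        obtain ⟨rfl, rfl⟩ := h0
        rw [Bool.and_eq_true] at h1
        exact ⟨key ⟨good_of_b h1.2, hok w h1.1⟩, hM⟩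
      | col q φ =>
        simp only [step, Option.map_eq_some_iff, Prod.mk.injEq] at h0
        obtain ⟨w, h1, rfl, rfl⟩ := h0
        obtain ⟨a, b⟩ := cat_ok hX hv hp hT q
        obtain ⟨a', b'⟩ := collect_ok hX hv hp φ _ _ _ Good.nil a h1
        exact ⟨key ⟨a', by rw [b', evR, one_mul]; exact b⟩, hM⟩
      | cat q =>
        simp only [step, Option.some.injEq, Prod.mk.injEq] at h0
        obtain ⟨rfl, rfl⟩ := h0
        exact ⟨key (cat_ok hX hv hp hT q), hM⟩
      | swp k q =>
        simp only [step, Option.map_eq_some_iff, Prod.mk.injEq] at h0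
        obtain ⟨w, h1, rfl, rfl⟩ := h0
        obtain ⟨a, b⟩ := swaps_ok (v := v) hX q _ (g0 k).1 h1
        exact ⟨key ⟨a, b ▸ (g0 k).2⟩, hM⟩
      | mon k M =>
        simp only [step] at h0
        split_ifs at h0 with h1
        simp only [Option.some.injEq, Prod.mk.injEq] at h0
        obtain ⟨rfl, rfl⟩ := h0
        refine ⟨hT, fun M' hM' => (List.mem_cons.1 hM').elim (fun e => ?_) (hM M')⟩
        rw [e, ← eq_of_weqb h1]; exact (g0 k).2
      | cnj q k =>
        simp only [step, Option.map_eq_some_iff, Prod.mk.injEq] at h0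
        obtain ⟨w, h1, rfl, rfl⟩ := h0
        exact ⟨key (acts_ok hX hv hp hM q _ (g0 k) h1), hM⟩

theorem check_ok {T : List Word} {l : List Ins} {out : List Word}
    (h : check p ok T l out = true) (hT : ∀ w ∈ T, evW X v w ∈ L) :
    ∀ w ∈ out, evW X v w ∈ L := by
  unfold check at h
  rw [Bool.and_eq_true, List.all_eq_true] at h
  obtain ⟨h1, h⟩ := h
  split at h
  · simp at h
  · rename_i T' h0
    intro w hw
    obtain ⟨u, hu, e⟩ := List.any_eq_true.1 (List.all_eq_true.1 h w hw)
    rw [eq_of_weqb e]
    exact (run_ok hX hv hp hok l T [] (fun w hw => ⟨good_of_b (h1 w hw), hT w hw⟩)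
      (by simp) h0 u hu).2

end Pool.Agent.Lib.MP_cad414_al.Cg.XE
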