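import Mathlib

/-! Field lemmas for the exceptional groups. -/

namespace Pool.Agent.Lib.MP_cad414_al.Cg.XE

variable {K : Type} [Field K] [Finite K] (θ : RingAut K)

theorem xf_mem {σ α : Type} [SetLike σ α] {L : σ} {a b : α} (h : a ∈ L) (e : b = a) : b ∈ L :=
  e ▸ h

omit [Finite K] in
theorem xf_three (h3 : θ ^ 3 = 1) (x : K) : θ (θ (θ x)) = x := by
  have h := congrArg (fun φ : RingAut K => φ x) h3
  simpa [pow_succ] using h

omit [Finite K] in
theorem xf_ex (h : θ ≠ 1) : ∃ s, θ s ≠ s := by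
  by_contra hn
  push Not at hn
  exact h (RingEquiv.ext hn)

/-- In characteristic two a fixed element has a fixed square root. -/
theorem xf_sqrt (h2 : (2 : K) = 0) {k : K} (hk : θ k = k) : ∃ y, θ y = y ∧ y ^ 2 = k := by
  have hinj : Function.Injective fun y : K => y ^ 2 := fun a b e => by
    have e' : a ^ 2 = b ^ 2 := e
    have h : (a - b) ^ 2 = 0 := by linear_combination e' + (b ^ 2 - a * b) * h2
    exact sub_eq_zero.1 (pow_eq_zero_iff two_ne_zero |>.1 h)
  obtain ⟨y, hy⟩ := Finite.surjective_of_injective hinj k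
  have hy' : y ^ 2 = k := hy
  refine ⟨y, hinj ?_, hy'⟩
  change θ y ^ 2 = y ^ 2
  rw [← map_pow, hy', hk]

/-- A generator of the multiplicative group of the fixed field. -/
theorem exists_gen : ∃ l : K, l ≠ 0 ∧ θ l = l ∧ ∀ c, c ≠ 0 → θ c = c → ∃ n : ℕ, c = l ^ n := by
  let F : Subgroup Kˣ :=
    { carrier := {u | θ (u : K) = u}
      one_mem' := by simp
      mul_mem' := fun {a b} ha hb => by
        have ha' : θ (a : K) = a := ha
        have hb' : θ (b : K) = b := hb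
        change θ ((a * b : Kˣ) : K) = (a * b : Kˣ)
        rw [Units.val_mul, map_mul, ha', hb']
      inv_mem' := fun {a} ha => by
        have ha' : θ (a : K) = a := ha
        change θ ((a⁻¹ : Kˣ) : K) = (a⁻¹ : Kˣ)
        rw [Units.val_inv_eq_inv_val, map_inv₀, ha'] }
  obtain ⟨g, hg⟩ := IsCyclic.exists_monoid_generator (α := F)
  refine ⟨((g : Kˣ) : K), Units.ne_zero _, g.2, fun c hc hθ => ?_⟩
  obtain ⟨n, hn⟩ := hg ⟨Units.mk0 c hc, hθ⟩
  refine ⟨n, ?_⟩
  have h := congrArg (fun u : F => ((u : Kˣ) : K)) hn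
  simpa using h.symm

/-- The multipliers of `A` form a subring, closed under inverses (finite field); it contains `l ^ 2`,
hence all squares of fixed elements, hence (`x = ((x+1)/2)^2 - ((x-1)/2)^2`, or characteristic two,
where `l` has odd order inside the fixed field) all fixed elements. -/
theorem full_of_mult {l m : K} (hl : θ l = l)
    (hgen : ∀ c, c ≠ 0 → θ c = c → ∃ n : ℕ, c = l ^ n) (A : AddSubgroup K) (hm : m ≠ 0)
    {j : ℕ} (hj : j = 1 ∨ j = 2) (h1 : ∀ c ∈ A, m * c ∈ A) (h2 : ∀ c ∈ A, m * l ^ j * c ∈ A) :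
    ∀ k, θ k = k → ∀ c ∈ A, k * c ∈ A := by
  let M : Subring K :=
    { carrier := {k | ∀ c ∈ A, k * c ∈ A}
      one_mem' := fun c hc => by rwa [one_mul]
      zero_mem' := fun c _ => by rw [zero_mul]; exact A.zero_mem
      mul_mem' := fun {a b} ha hb c hc => by rw [mul_assoc]; exact ha _ (hb c hc)
      add_mem' := fun {a b} ha hb c hc => by rw [add_mul]; exact A.add_mem (ha c hc) (hb c hc)
      neg_mem' := fun {a} ha c hc => by rw [neg_mul]; exact A.neg_mem (ha c hc) }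
  have hmM : m ∈ M := h1
  have hml : m * l ^ j ∈ M := h2
  have hlj : l ^ j ∈ M := by
    obtain ⟨n, hn, e⟩ := (isOfFinOrder_of_finite (Units.mk0 m hm)).exists_pow_eq_one
    have e' : m ^ n = 1 := by simpa using congrArg Units.val e
    obtain ⟨n, rfl⟩ := Nat.exists_eq_succ_of_ne_zero hn.ne'
    have h := M.mul_mem (M.pow_mem hmM n) hml
    rwa [← mul_assoc, ← pow_succ, e', one_mul] at h
  have hl2 : l ^ 2 ∈ M := by
    rcases hj with rfl | rfl
    · rw [pow_one] at hlj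
      exact M.pow_mem hlj 2
    · exact hlj
  have hsq : ∀ y, θ y = y → y ^ 2 ∈ M := fun y hy => by
    rcases eq_or_ne y 0 with rfl | h0
    · rw [zero_pow two_ne_zero]
      exact M.zero_mem
    · obtain ⟨n, rfl⟩ := hgen y h0 hy
      rw [← pow_mul, mul_comm, pow_mul]
      exact M.pow_mem hl2 n
  intro k hk
  change k ∈ M
  rcases eq_or_ne (2 : K) 0 with h0 | h0
  · obtain ⟨y, hy, rfl⟩ := xf_sqrt θ h0 hk
    exact hsq y hy
  · have e : k = ((k + 1) / 2) ^ 2 - ((k - 1) / 2) ^ 2 := by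
      field_simp
      ring
    rw [e]
    exact M.sub_mem (hsq _ (by rw [map_div₀, map_add, hk, map_one, map_ofNat]))
      (hsq _ (by rw [map_div₀, map_sub, hk, map_one, map_ofNat]))

omit [Finite K] in
/-- If `θ = 1` take `s = 1`. Otherwise take `s` with `θ s ≠ s` and `θ s ≠ -s` (`s0` or `s0 + 1`),
`c1 = (t s - θ t θ s)/(s^2 - (θ s)^2)`, `c2 = (t θ s - θ t s)/((θ s)^2 - s^2)`. -/
theorem two_full (h2 : θ ^ 2 = 1) : ∃ s : K, s ≠ 0 ∧ ∀ t, ∃ c1 c2, θ c1 = c1 ∧ θ c2 = c2 ∧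
    t = c1 * s + c2 * θ s := by
  have hh : ∀ x, θ (θ x) = x := fun x => by
    have h := congrArg (fun φ : RingAut K => φ x) h2
    simpa [pow_succ] using h
  rcases eq_or_ne θ 1 with rfl | h1
  · exact ⟨1, one_ne_zero, fun t => ⟨t, 0, rfl, rfl, by simp⟩⟩
  obtain ⟨s, hs, hs'⟩ : ∃ s, θ s ≠ s ∧ θ s ≠ -s := by
    obtain ⟨s, hs⟩ := xf_ex θ h1
    by_cases h : θ s = -s
    · refine ⟨s + 1, fun e => hs ?_, fun e => hs ?_⟩
      · rw [map_add, map_one] at e
        exact add_right_cancel e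
      · rw [map_add, map_one, h] at e
        rw [h]
        linear_combination (-s) * e
    · exact ⟨s, hs, h⟩
  have hd : s ^ 2 - θ s ^ 2 ≠ 0 := by
    rw [sq_sub_sq]
    exact mul_ne_zero (fun e => hs' (by linear_combination e)) (sub_ne_zero.2 hs.symm)
  have hd' : θ s ^ 2 - s ^ 2 ≠ 0 := fun e => hd (by linear_combination -e)
  refine ⟨s, fun e => hs (by rw [e, map_zero]), fun t =>
    ⟨(t * s - θ t * θ s) / (s ^ 2 - θ s ^ 2), (θ t * s - t * θ s) / (s ^ 2 - θ s ^ 2), ?_, ?_, ?_⟩⟩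
  · simp only [map_div₀, map_sub, map_mul, map_pow, hh]
    rw [div_eq_div_iff hd' hd]
    ring
  · simp only [map_div₀, map_sub, map_mul, map_pow, hh]
    rw [div_eq_div_iff hd' hd]
    ring
  · rw [div_mul_eq_mul_div, div_mul_eq_mul_div, ← add_div, eq_div_iff hd]
    ring

omit [Finite K] in
/-- Write `s0 s1 s2` for the conjugates, `u# = θ u * θ (θ u)`, `T = s0+s1+s2`, `U = Tr s#`,
`N = s0 s1 s2`. Then `(s + s#)# = s# + N s + (T U - N) - U s - T s#` and
`T U - N = (s0+s1)(s1+s2)(s2+s0) ≠ 0`, so `1 ∈ A`; `1, s, s#` span by Cramer's rule (determinant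
a Vandermonde product, fixed by `θ`). -/
theorem sharp_full (h3 : θ ^ 3 = 1) (A : AddSubgroup K)
    (hK : ∀ k, θ k = k → ∀ c ∈ A, k * c ∈ A) (hs : ∀ c ∈ A, θ c * θ (θ c) ∈ A) {s : K}
    (hsA : s ∈ A) (h0 : s ≠ 0) (h : θ = 1 ∨ θ s ≠ s) (t : K) : t ∈ A := by
  have hh := xf_three θ h3
  rcases h with rfl | h
  · have h1 := hK (t / s) rfl s hsA
    rwa [div_mul_cancel₀ _ h0] at h1
  have d1 : θ s - s ≠ 0 := sub_ne_zero.2 h
  have d2 : θ (θ s) - θ s ≠ 0 := by
    rw [← map_sub]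
    exact (map_ne_zero θ).2 d1
  have d3 : s - θ (θ s) ≠ 0 := by
    have h1 := (map_ne_zero θ).2 d2
    rwa [map_sub, hh] at h1
  have a1 : s + θ s ≠ 0 := fun e => by
    have e' := congrArg θ e
    rw [map_add, map_zero] at e'
    exact d3 (by linear_combination e - e')
  have a2 : θ s + θ (θ s) ≠ 0 := by
    rw [← map_add]
    exact (map_ne_zero θ).2 a1
  have a3 : θ (θ s) + s ≠ 0 := by
    have h1 := (map_ne_zero θ).2 a2
    rwa [map_add, hh] at h1
  have hw := hs s hsA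
  have hW : (s + θ s) * (θ s + θ (θ s)) * (θ (θ s) + s) ∈ A := by
    have h1 := hs _ (A.add_mem hsA hw)
    have h2 := hK (s * θ s + θ s * θ (θ s) + θ (θ s) * s - s * θ s * θ (θ s))
      (by simp only [map_sub, map_add, map_mul, hh]; ring) s hsA
    have h4 := hK (s + θ s + θ (θ s) - 1)
      (by simp only [map_sub, map_add, map_one, hh]; ring) _ hw
    simp only [map_add, map_mul, hh] at h1
    exact xf_mem (A.add_mem (A.add_mem h1 h2) h4) (by ring)
  have hone : (1 : K) ∈ A := by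
    have h1 := hK ((s + θ s) * (θ s + θ (θ s)) * (θ (θ s) + s))⁻¹
      (by simp only [map_inv₀, map_add, map_mul, hh]; congr 1; ring) _ hW
    rwa [inv_mul_cancel₀ (mul_ne_zero (mul_ne_zero a1 a2) a3)] at h1
  have hD : (θ s - s) * (θ (θ s) - θ s) * (s - θ (θ s)) ≠ 0 :=
    mul_ne_zero (mul_ne_zero d1 d2) d3
  have h1 := hK (t * s * (θ (θ s) ^ 2 - θ s ^ 2) + θ t * θ s * (s ^ 2 - θ (θ s) ^ 2) +
    θ (θ t) * θ (θ s) * (θ s ^ 2 - s ^ 2))
    (by simp only [map_sub, map_add, map_mul, map_pow, hh]; ring) _ hone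
  have h2 := hK (t * s * (θ s - θ (θ s)) + θ t * θ s * (θ (θ s) - s) +
    θ (θ t) * θ (θ s) * (s - θ s))
    (by simp only [map_sub, map_add, map_mul, hh]; ring) _ hsA
  have h4 := hK (t * (θ s - θ (θ s)) + θ t * (θ (θ s) - s) + θ (θ t) * (s - θ s))
    (by simp only [map_sub, map_add, map_mul, hh]; ring) _ hw
  have h5 : (θ s - s) * (θ (θ s) - θ s) * (s - θ (θ s)) * t ∈ A :=
    xf_mem (A.add_mem (A.add_mem h1 h2) h4) (by ring)
  have h6 := hK ((θ s - s) * (θ (θ s) - θ s) * (s - θ (θ s)))⁻¹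
    (by simp only [map_inv₀, map_sub, map_mul, hh]; congr 1; ring) _ h5
  rwa [inv_mul_cancel_left₀ hD] at h6

omit [Finite K] in
/-- `θ = 1`: try `s = 1, 2` (in characteristic three `s = 1` works). Otherwise, if it fails for all
`s` outside the fixed field, use `s, s+1, s-1`: characteristic three and trace zero for all such
`s`, also for `s#`, so `s^3 = N` is fixed, and `(θ s - s)^3 = 0`. -/
theorem choose_odd (h3 : θ ^ 3 = 1) (h2 : (2 : K) ≠ 0) {l : K} (hl : l ≠ 0) :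
    ∃ s : K, s ≠ 0 ∧ (θ = 1 ∨ θ s ≠ s) ∧
      4 * (s ^ 2 + θ s ^ 2 + θ (θ s) ^ 2) - l ^ 2 ≠ 0 := by
  have hh := xf_three θ h3
  have hl2 : l ^ 2 ≠ 0 := pow_ne_zero 2 hl
  by_contra hn
  push Not at hn
  rcases eq_or_ne θ 1 with rfl | h1
  · have e1 := hn 1 one_ne_zero (Or.inl rfl)
    have e2 := hn 2 h2 (Or.inl rfl)
    simp only [RingAut.one_apply] at e1 e2
    have e3 : (2 : K) ^ 2 * 3 ^ 2 = 0 := by linear_combination e2 - e1
    have e4 : (3 : K) = 0 :=
      (pow_eq_zero_iff two_ne_zero).1 ((mul_eq_zero.1 e3).resolve_left (pow_ne_zero 2 h2))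
    exact hl2 (by linear_combination 4 * e4 - e1)
  have hQ : ∀ s, θ s ≠ s → 4 * (s ^ 2 + θ s ^ 2 + θ (θ s) ^ 2) - l ^ 2 = 0 := fun s hs =>
    hn s (fun e => hs (by rw [e, map_zero])) (Or.inr hs)
  have hT : ∀ s, θ s ≠ s → s + θ s + θ (θ s) = 0 := fun s hs => by
    have e1 := hQ (s + 1) fun e => hs (by rw [map_add, map_one] at e; exact add_right_cancel e)
    have e2 := hQ (s - 1) fun e => hs (by rw [map_sub, map_one] at e; exact sub_left_injective e)
    simp only [map_add, map_sub, map_one] at e1 e2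
    have e3 : (2 : K) ^ 4 * (s + θ s + θ (θ s)) = 0 := by linear_combination e1 - e2
    exact (mul_eq_zero.1 e3).resolve_left (pow_ne_zero 4 h2)
  obtain ⟨s, hs⟩ := xf_ex θ h1
  have h5 : θ (θ s * θ (θ s)) ≠ θ s * θ (θ s) := fun e => by
    rw [map_mul, hh] at e
    have e' : θ (θ s) * (θ s - s) = 0 := by linear_combination -e
    have e2 := (mul_eq_zero.1 e').resolve_right (sub_ne_zero.2 hs)
    rw [map_eq_zero, map_eq_zero] at e2
    exact hs (by rw [e2, map_zero])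
  have e1 := hQ s hs
  have e2 := hT s hs
  have e3 := hT _ h5
  simp only [map_mul, hh] at e3
  exact hl2 (by linear_combination 4 * (s + θ s + θ (θ s)) * e2 - 8 * e3 - e1)

/-- Characteristic two. `θ = 1`: `s^2 = l + 1` (`l ≠ 1` because `K` has more than two elements).
Otherwise `s = s0 + c` with `s0` not fixed and `c` fixed, `(Tr s0 + c)^2 = l + 1`; if
`s + s#` were fixed then `(s0 - s1)(1 - s2) = 0`. -/
theorem choose_even (h3 : θ ^ 3 = 1) (h2 : (2 : K) = 0) (hc : Nat.card K ≠ 2) {l : K}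
    (hl0 : l ≠ 0) (hl : θ l = l) (hgen : ∀ c, c ≠ 0 → θ c = c → ∃ n : ℕ, c = l ^ n) :
    ∃ s : K, s ≠ 0 ∧ 1 + s ^ 2 + θ s ^ 2 + θ (θ s) ^ 2 = l ∧ s + θ s * θ (θ s) ≠ 0 ∧
      (θ = 1 ∨ θ (s + θ s * θ (θ s)) ≠ s + θ s * θ (θ s)) := by
  have hh := xf_three θ h3
  obtain ⟨y, hy, hy2⟩ := xf_sqrt θ h2 (k := l + 1) (by rw [map_add, hl, map_one])
  rcases eq_or_ne θ 1 with rfl | h1
  · have hl1 : l ≠ 1 := fun e => hc (by
      rw [Nat.card_eq_two_iff' (0 : K)]
      refine ⟨1, one_ne_zero, fun c h0 => ?_⟩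
      obtain ⟨n, hn⟩ := hgen c h0 rfl
      rw [hn, e, one_pow])
    have y0 : y ≠ 0 := fun e => hl1 (by rw [e] at hy2; linear_combination -hy2 - h2)
    have y1 : 1 + y ≠ 0 := fun e => hl0 (by linear_combination (y - 1) * e - hy2)
    refine ⟨y, y0, ?_, ?_, Or.inl rfl⟩
    · simp only [RingAut.one_apply]
      linear_combination hy2 + (y ^ 2 + 1) * h2
    · simp only [RingAut.one_apply]
      rw [show y + y * y = y * (1 + y) by ring]
      exact mul_ne_zero y0 y1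
  obtain ⟨r, hr⟩ := xf_ex θ h1
  obtain ⟨s, hs, hT⟩ : ∃ s, θ s ≠ s ∧ s + θ s + θ (θ s) = y := by
    refine ⟨r + (y + (r + θ r + θ (θ r))), fun e => hr ?_, ?_⟩
    · simp only [map_add, hh, hy] at e
      linear_combination e
    · simp only [map_add, hh, hy]
      linear_combination (y + 2 * (r + θ r + θ (θ r))) * h2
  have h5 : θ (s + θ s * θ (θ s)) ≠ s + θ s * θ (θ s) := fun e => by
    rw [map_add, map_mul, hh] at e
    have e' : (θ s - s) * (1 - θ (θ s)) = 0 := by linear_combination e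
    have e2 := sub_eq_zero.1 ((mul_eq_zero.1 e').resolve_left (sub_ne_zero.2 hs))
    have e3 := congrArg θ e2
    rw [map_one, hh] at e3
    exact hs (by rw [← e3, map_one])
  refine ⟨s, fun e => hs (by rw [e, map_zero]), ?_, fun e => h5 (by rw [e, map_zero]), Or.inr h5⟩
  linear_combination hy2 + (s + θ s + θ (θ s) + y) * hT +
    (1 - s * θ s - θ s * θ (θ s) - θ (θ s) * s) * h2

variable {S : Type} [Group S]

theorem xf_cent (L : Subgroup S) {y : S} (hy : y ∈ Subgroup.normalizer (L : Set S)) :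
    ∃ C : Subgroup S, L ≤ C ∧
      ∀ x, x ∈ C ↔ x ∈ Subgroup.normalizer (L : Set S) ∧ x * y * x⁻¹ * y⁻¹ ∈ L := by
  refine ⟨{ carrier := {x | x ∈ Subgroup.normalizer (L : Set S) ∧ x * y * x⁻¹ * y⁻¹ ∈ L}
            one_mem' := ⟨one_mem _, by simp⟩
            mul_mem' := fun {a b} ha hb => ⟨mul_mem ha.1 hb.1, ?_⟩
            inv_mem' := fun {a} ha => ⟨inv_mem ha.1, ?_⟩ }, fun g hg =>
    ⟨Subgroup.le_normalizer hg, ?_⟩, fun _ => Iff.rfl⟩
  · have h := L.mul_mem ((Subgroup.mem_normalizer_iff.1 ha.1 _).1 hb.2) ha.2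
    exact xf_mem h (by group)
  · have h := (Subgroup.mem_normalizer_iff.1 (inv_mem ha.1) _).1 (L.inv_mem ha.2)
    exact xf_mem h (by group)
  · have h := L.mul_mem hg ((Subgroup.mem_normalizer_iff.1 hy _).1 (L.inv_mem hg))
    exact xf_mem h (by group)

/-- `v s` normalises `L`, these elements commute modulo `L`, and everything is generated by `L` and
the `v s`: the commutator subgroup lies in `L`. -/
theorem comm_le {ι : Type} (L A : Subgroup S) (v : ι → S)
    (h1 : ∀ i, ∀ g ∈ L, v i * g * (v i)⁻¹ ∈ L) (h2 : ∀ i, v i * v i ∈ L)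
    (h3 : ∀ i j, v i * v j * (v i)⁻¹ * (v j)⁻¹ ∈ L)
    (h4 : A ≤ L ⊔ Subgroup.closure (Set.range v)) : ⁅A, A⁆ ≤ L := by
  have hv : ∀ i, v i ∈ Subgroup.normalizer (L : Set S) := fun i =>
    Subgroup.mem_normalizer_iff.2 fun g => ⟨h1 i g, fun hg => by
      have h := L.mul_mem (L.mul_mem (L.inv_mem (h2 i)) (h1 i _ hg)) (h2 i)
      exact xf_mem h (by group)⟩
  have hB : ∀ C : Subgroup S, L ≤ C → (∀ i, v i ∈ C) → A ≤ C := fun C hL hC =>
    h4.trans (sup_le hL ((Subgroup.closure_le C).2 (by rintro _ ⟨i, rfl⟩; exact hC i)))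
  have hN := hB _ Subgroup.le_normalizer hv
  have k1 : ∀ j, ∀ x ∈ A, x * v j * x⁻¹ * (v j)⁻¹ ∈ L := fun j x hx => by
    obtain ⟨C, hL, hC⟩ := xf_cent L (hv j)
    exact ((hC x).1 (hB C hL (fun i => (hC _).2 ⟨hv i, h3 i j⟩) hx)).2
  refine Subgroup.commutator_le.2 fun x hx y hy => ?_
  obtain ⟨C, hL, hC⟩ := xf_cent L (hN hy)
  refine ((hC x).1 (hB C hL (fun i => (hC _).2 ⟨hv i, ?_⟩) hx)).2
  have h := L.inv_mem (k1 i y hy)
  exact xf_mem h (by group)

end Pool.Agent.Lib.MP_cad414_al.Cg.XE
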