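import Pool.Agent.Lib.MP_cad414_al.Cg.Base
import Pool.Agent.Lib.MP_cad414_al.Cg.XC
import Pool.Agent.Lib.MP_cad414_al.Cg.XF

/-! Link between the word engine and the definitions of the exceptional groups. -/

namespace Pool.Agent.Lib.MP_cad414_al.Cg.XE

open Matrix

def R.v (r : R) : Fin 8 → ℤ := ![r.a, r.b, r.c, r.d, r.e, r.f, r.g, r.h]

def sr (i : Fin 8) (e : ℤ) : R :=
  ⟨if i = 0 then e else 0, if i = 1 then e else 0, if i = 2 then e else 0, if i = 3 then e else 0,
    if i = 4 then e else 0, if i = 5 then e else 0, if i = 6 then e else 0, if i = 7 then e else 0⟩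

theorem sr_v (i : Fin 8) (e : ℤ) : Pi.single i e = (sr i e).v := by
  funext j
  fin_cases i <;> fin_cases j <;> simp [sr, R.v]

theorem v_add (r s : R) : r.v + s.v = (r.add s).v := by
  funext j
  fin_cases j <;> simp [R.v, R.add]

theorem v_ip (r s : R) : r.v ⬝ᵥ CartanMatrix.E₈ *ᵥ s.v = r.ip s := by
  simp [R.v, CartanMatrix.E₈, dotProduct, mulVec, Fin.sum_univ_eight, R.ip, R.dot, R.cm]
  ring

theorem v_bf (r s : R) : r.v ⬝ᵥ s.v + ∑ i : Fin 8, ∑ j : Fin 8,
    (if ![2, 1, 1, 0, 1, 2, 3, 4] j < ![2, 1, 1, 0, 1, 2, 3, 4] i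
      then r.v i * CartanMatrix.E₈ i j * s.v j else 0) = r.bf s := by
  simp [R.v, CartanMatrix.E₈, dotProduct, Fin.sum_univ_eight, R.bf, R.dot]
  ring

variable {K S : Type} [Field K] [Group S]

theorem stR {x : (Fin 8 → ℤ) → K → S} (hx : St x) : StR fun r t => x r.v t := by
  have ne : ∀ {r s : R}, r.ip r = 2 → -1 ≤ r.ip s → r.v + s.v ≠ 0 := fun {r s} hr h e => by
    have h1 := v_ip r (r.add s)
    rw [← v_add, e, mulVec_zero, dotProduct_zero, R.ip_add] at h1
    omega
  refine ⟨fun {r} hr a b => (hx r.v r.v (by rw [v_ip, hr]) (by rw [v_ip, hr]) a b).1,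
    fun {r s} hr hs h a b => ?_, fun {r s} hr hs h a b => ?_⟩
  · have := (hx r.v s.v (by rw [v_ip, hr]) (by rw [v_ip, hs]) a b).2 (ne hr (by omega))
    rwa [v_ip, if_neg (by omega), one_mul] at this
  · have := (hx r.v s.v (by rw [v_ip, hr]) (by rw [v_ip, hs]) a b).2 (ne hr (by omega))
    rw [v_ip, if_pos h, v_bf, v_add] at this
    have e : (-1 : K) ^ r.bf s = (eps r s : K) := by
      unfold eps
      rcases Int.even_or_odd (r.bf s) with h | h
      · rw [h.neg_one_zpow, sg_even (Int.even_iff.1 h), Int.cast_one]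
      · rw [h.neg_one_zpow, sg_odd (Int.odd_iff.1 h)]; simp
    rwa [e] at this

/-- Folded root elements. -/
def pY (X : R → K → S) (θ : K → K) : List R → K → S
  | [], _ => 1
  | r :: o, t => X r t * pY X θ o (θ t)

def sigP (p : Int) (τ : Mono → Mono) : Poly → Poly
  | [] => []
  | (c, m) :: f => pins p c (τ m) (sigP p τ f)

/-- `w` is the folded element of the orbit `o` with parameter `f`; returns the next conjugate. -/
def isY (p : Int) (τ : Mono → Mono) : List R → Poly → Word → Option Poly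
  | [], f, [] => some f
  | r :: o, f, (s, g) :: w => if r.eqb s && peqb f g then isY p τ o (sigP p τ f) w else none
  | _, _, _ => none

def okF (p : Int) (τ : Mono → Mono) (O : List (List R)) : Word → Bool
  | [] => false
  | (r, f) :: w => O.any fun o =>
    match isY p τ o f ((r, f) :: w) with
    | none => false
    | some g => peqb g f

def closedb (w : Word) : Bool := w.all fun l => l.2.all fun a => a.2.isEmpty

def fixb (p : Int) (M : List ME) (r : R) : Bool :=
  r.ip r == 2 &&
    match act p M [(r, [(1, [1])])] with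
    | none => false
    | some w => weqb w [(r, [(1, [1])])]

def actb (p : Int) (M : List ME) (w u : Word) : Bool :=
  goodb w &&
    match act p M w with
    | none => false
    | some w => weqb w u

def colb (p : Int) (φ : R) (w u : Word) : Bool :=
  goodb w &&
    match collect p φ 100000 [] w with
    | none => false
    | some w => weqb w u

theorem evM_nil (v : List K) : evM v [] = 1 := by cases v <;> rfl

theorem evM_cons (x : K) (v : List K) (m : Mono) :
    evM (x :: v) m = x ^ m.headD 0 * evM v m.tail := by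
  cases m <;> simp [evM, evM_nil]

theorem evM_zero : ∀ (v : List K) (n : ℕ), evM v (List.replicate n 0) = 1
  | [], _ => rfl
  | _ :: _, 0 => rfl
  | x :: v, n + 1 => by simp [List.replicate_succ, evM, evM_zero v n]

theorem evW_closed (X : R → K → S) (v : List K) : ∀ {w : Word}, closedb w = true →
    evW X v w = evW X [] w
  | [], _ => rfl
  | (r, f) :: w, h => by
    simp only [closedb, List.all_cons, Bool.and_eq_true] at h
    have : ∀ f : Poly, (f.all fun a => a.2.isEmpty) = true → evP v f = evP ([] : List K) f := by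
      intro f
      induction f with
      | nil => intro; rfl
      | cons a f ih =>
        obtain ⟨c, m⟩ := a
        intro h
        simp only [List.all_cons, Bool.and_eq_true, List.isEmpty_iff] at h
        rw [evP, evP, ih h.2, h.1, evM_nil, evM_nil]
    rw [evW, evW, this f h.1, evW_closed X v (w := w) h.2]

theorem nwords_append (p : Int) : ∀ M M' : List ME,
    nwords p (M ++ M') = nwords p M ++ nwords p M'
  | [], _ => rfl
  | e :: M, M' => by simp [nwords, nwords_append p M M']

section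
variable {X : R → K → S} (hX : StR X) {v : List K} (hv : ∀ x ∈ v, x ≠ 0) {p : Int}
  (hp : (p : K) = 0)

include hp in
theorem evP_sig {θ : K →+* K} {τ : Mono → Mono} (hτ : ∀ m, evM v (τ m) = θ (evM v m)) :
    ∀ f : Poly, evP v (sigP p τ f) = θ (evP v f)
  | [] => by simp [sigP, evP]
  | (c, m) :: f => by rw [sigP, evP_ins hp, evP_sig hτ f, evP, hτ]; simp

include hp in
theorem isY_ok {θ : K →+* K} {τ : Mono → Mono} (hτ : ∀ m, evM v (τ m) = θ (evM v m)) :
    ∀ (o : List R) (f : Poly) (w : Word) {g : Poly}, isY p τ o f w = some g →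
      evW X v w = pY X θ o (evP v f) ∧ evP v g = θ^[o.length] (evP v f)
  | [], f, [], g, h => by
    simp only [isY, Option.some.injEq] at h
    subst h; exact ⟨rfl, rfl⟩
  | [], _, _ :: _, _, h => by simp [isY] at h
  | _ :: _, _, [], _, h => by simp [isY] at h
  | r :: o, f, (s, g') :: w, g, h => by
    unfold isY at h
    split_ifs at h with h1
    rw [Bool.and_eq_true] at h1
    obtain ⟨a, b⟩ := isY_ok hτ o _ w h
    rw [evW, pY, a, b, evP_sig hp hτ, R.eq_of_eqb h1.1, eq_of_peqb h1.2]
    exact ⟨rfl, rfl⟩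

include hp in
theorem okF_ok {θ : K →+* K} {τ : Mono → Mono} (hτ : ∀ m, evM v (τ m) = θ (evM v m))
    {O : List (List R)} {L : Subgroup S}
    (hO : ∀ o ∈ O, ∀ t, θ^[o.length] t = t → pY X θ o t ∈ L) :
    ∀ w, okF p τ O w = true → evW X v w ∈ L
  | [], h => by simp [okF] at h
  | (r, f) :: w, h => by
    obtain ⟨o, ho, h1⟩ := List.any_eq_true.1 h
    split at h1
    · simp at h1
    · rename_i g h0
      obtain ⟨a, b⟩ := isY_ok (X := X) hp hτ o _ _ h0
      rw [a]
      exact hO o ho _ (by rw [← b, eq_of_peqb h1])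

include hX hv hp in
theorem actb_ok {M : List ME} {w u : Word} (h : actb p M w u = true) :
    evW X v u = evW X v (nwords p M) * evW X v w * (evW X v (nwords p M))⁻¹ := by
  unfold actb at h
  rw [Bool.and_eq_true] at h
  obtain ⟨h1, h⟩ := h
  split at h
  · simp at h
  · rename_i u' h0
    rw [← eq_of_weqb h]
    exact (act_ok hX hv hp M w (good_of_b h1) h0).2

include hX hv hp in
theorem colb_ok {φ : R} {w u : Word} (h : colb p φ w u = true) : evW X v w = evW X v u := by
  unfold colb at h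
  rw [Bool.and_eq_true] at h
  obtain ⟨h1, h⟩ := h
  split at h
  · simp at h
  · rename_i u' h0
    rw [← eq_of_weqb h, (collect_ok hX hv hp φ _ _ _ Good.nil (good_of_b h1) h0).2, evR, one_mul]

include hX hv hp in
theorem evW_winv {w : Word} (h : goodb w = true) : evW X v (winv p w []) = (evW X v w)⁻¹ := by
  rw [(winv_ok hX hv hp w [] (good_of_b h) Good.nil).2, evW, mul_one]

include hX hp in
theorem fixb_ok {M : List ME} {r : R} (hc : closedb (nwords p M) = true) (h : fixb p M r = true)
    (s : K) : Commute (evW X [] (nwords p M)) (X r s) := by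
  have hr : r.ip r = 2 := by
    simp only [fixb, Bool.and_eq_true, beq_iff_eq] at h; exact h.1
  by_cases hs : s = 0
  · rw [hs, hX.zero hr]; exact Commute.one_right _
  have := actb_ok hX (v := [s]) (by simpa using hs) hp (M := M) (w := [(r, [(1, [1])])])
    (u := [(r, [(1, [1])])]) (by simpa [actb, fixb, goodb] using h)
  rw [evW_closed X _ hc] at this
  simp only [evW, evP, evM, Int.cast_one, zpow_one, mul_one, one_mul, add_zero] at this
  exact eq_mul_inv_iff_mul_eq.1 this |>.symm

end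

variable {G : Type} [Group G] [IsSimpleGroup G]

/-- Three conjugates of a monomial element with central square. -/
theorem three_of {X : R → K → S} (hX : StR X) {p : Int} (hp : (p : K) = 0) (hG : NA G)
    {A : Subgroup S} (h : Img G A) (M : List ME) (nodes : List R)
    (hc : closedb (nwords p (M ++ M)) = true) (hf : nodes.all (fixb p (M ++ M)) = true)
    (hA : ∀ z : S, (∀ r ∈ nodes, ∀ s, Commute z (X r s)) → ∀ g ∈ A, Commute z g)
    {c2 c3 : S} (m1 : evW X [] (nwords p M) ∈ A) (n2 : c2 ∈ A) (n3 : c3 ∈ A)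
    (hL : ∀ L : Subgroup S, evW X [] (nwords p M) ∈ L → c2 * evW X [] (nwords p M) * c2⁻¹ ∈ L →
      c3 * evW X [] (nwords p M) * c3⁻¹ ∈ L → A ≤ L) : 3 ∈ GenSizes G := by
  refine hG.three_of_sub h m1 (mul_mem (mul_mem n2 m1) (inv_mem n2))
    (mul_mem (mul_mem n3 m1) (inv_mem n3)) n2 n3 (hA _ fun r hr s => ?_)
    (fun g _ => by rw [inv_mul_cancel]; exact Commute.one_left g)
    (fun g _ => by rw [inv_mul_cancel]; exact Commute.one_left g)
    fun L l1 l2 l3 _ => (Subgroup.commutator_le_sup A A).trans (by rw [sup_idem]; exact hL L l1 l2 l3)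
  rw [← evW_append, ← nwords_append]
  exact fixb_ok hX hp hc (List.all_eq_true.1 hf r hr) s

/-- The orbits of simple and negative simple roots. -/
def orbs (O : List (List (Fin 8))) : List (List R) :=
  O.map (·.map (sr · 1)) ++ O.map (·.map (sr · (-1)))

theorem pow_iter (θ : RingAut K) : ∀ (n : ℕ) (t : K), (θ ^ n) t = (θ : K →+* K)^[n] t
  | 0, _ => rfl
  | n + 1, t => by rw [pow_succ, Function.iterate_succ_apply, ← pow_iter θ n]; rfl

theorem gen_eq (x : (Fin 8 → ℤ) → K → S) (θ : RingAut K) (e : ℤ) : ∀ (o : List (Fin 8)) (t : K),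
    (o.mapIdx fun j i => x (Pi.single i e) ((θ ^ j) t)).prod =
      pY (fun r t => x r.v t) (θ : K →+* K) (o.map (sr · e)) t
  | [], _ => rfl
  | i :: o, t => by
    rw [List.mapIdx_cons, List.prod_cons, List.map_cons, pY, ← sr_v]
    exact congrArg _ (gen_eq x θ e o (θ t))

theorem fold_le {x : (Fin 8 → ℤ) → K → S} {θ : RingAut K} {O : List (List (Fin 8))}
    {L : Subgroup S} : Fold x θ O ≤ L ↔ ∀ o ∈ orbs O, ∀ t, (θ : K →+* K)^[o.length] t = t →
      pY (fun r t => x r.v t) (θ : K →+* K) o t ∈ L := by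
  rw [Fold, Subgroup.closure_le]
  constructor
  · intro h o ho t ht
    simp only [orbs, List.mem_append, List.mem_map] at ho
    rcases ho with ⟨o, ho, rfl⟩ | ⟨o, ho, rfl⟩
    · exact h ⟨o, ho, 1, t, by rw [pow_iter, ← ht, ht]; simpa using ht, (gen_eq x θ 1 o t).symm⟩
    · exact h ⟨o, ho, -1, t, by rw [pow_iter, ← ht, ht]; simpa using ht,
        (gen_eq x θ (-1) o t).symm⟩
  · rintro h _ ⟨o, ho, e, t, ht, rfl⟩
    rw [gen_eq]
    refine h _ ?_ t (by rw [← pow_iter]; simpa using ht)
    simp only [orbs, List.mem_append, List.mem_map]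
    rcases Int.units_eq_one_or e with rfl | rfl
    exacts [Or.inl ⟨o, ho, rfl⟩, Or.inr ⟨o, ho, rfl⟩]

theorem pY_mem {X : R → K → S} {θ : K → K} {L : Subgroup S} : ∀ {o : List R},
    (∀ r ∈ o, ∀ s, X r s ∈ L) → ∀ t, pY X θ o t ∈ L
  | [], _, _ => one_mem L
  | r :: _, h, t => mul_mem (h r List.mem_cons_self t)
      (pY_mem (fun a ha => h a (List.mem_cons_of_mem _ ha)) _)

theorem fold_comm {x : (Fin 8 → ℤ) → K → S} {θ : RingAut K} {O : List (List (Fin 8))} (z : S)
    (h : ∀ r ∈ (orbs O).flatten, ∀ s, Commute z (x r.v s)) : ∀ g ∈ Fold x θ O, Commute z g := by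
  intro g hg
  have : Fold x θ O ≤ Subgroup.centralizer {z} := fold_le.2 fun o ho t _ =>
    pY_mem (fun r hr s => Subgroup.mem_centralizer_singleton_iff.2
      (h r (List.mem_flatten.2 ⟨o, ho, hr⟩) s).symm.eq) t
  exact (Subgroup.mem_centralizer_singleton_iff.1 (this hg)).symm

/-- The word `x_r(l ^ k * c)`. -/
def lw (n : ℕ) (o : R × ℕ) : Word := [(o.1, [(1, (o.2 : Int) :: 1 :: List.replicate n 0)])]

theorem evW_lw (X : R → K → S) (l c : K) (v : List K) (n : ℕ) (o : R × ℕ) :
    evW X (l :: c :: v) (lw n o) = X o.1 (l ^ o.2 * c) := by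
  simp [lw, evW, evP, evM, evM_zero]

/-- The parameters of a root subgroup that lie in `L`. -/
def par {X : R → K → S} (hX : StR X) (θ : RingAut K) (L : Subgroup S) {r : R} (hr : r.ip r = 2) :
    AddSubgroup K where
  carrier := {c | θ c = c ∧ X r c ∈ L}
  zero_mem' := ⟨map_zero θ, by rw [hX.zero hr]; exact one_mem L⟩
  add_mem' := fun ha hb => ⟨by rw [map_add, ha.1, hb.1], by
    rw [hX.add hr]; exact mul_mem ha.2 hb.2⟩
  neg_mem' := fun ha => ⟨by rw [map_neg, ha.1], by rw [hX.neg hr]; exact inv_mem ha.2⟩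

theorem long_full [Finite K] {X : R → K → S} (hX : StR X) {θ : RingAut K} {L : Subgroup S}
    {l : K} (hl0 : l ≠ 0) (hl : θ l = l) (hgen : ∀ c, c ≠ 0 → θ c = c → ∃ n : ℕ, c = l ^ n)
    {r : R} (hr : r.ip r = 2) {κ : K} (h0 : κ ≠ 0) (h1 : θ κ = κ) (h2 : X r κ ∈ L) {k j n : ℕ}
    (hj : j = 1 ∨ j = 2) {v : List K} {outs : List (R × ℕ)}
    (ho : (outs.all fun o => o.1.ip o.1 == 2) = true)
    (hs : ∀ c, c ≠ 0 → X r c ∈ L → ∀ w ∈ lw n (r, k) :: lw n (r, k + j) :: outs.map (lw n),
      evW X (l :: c :: v) w ∈ L) :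
    ∀ o ∈ outs.map fun o => [o.1], ∀ t, (θ : K →+* K)^[o.length] t = t →
      pY X (θ : K →+* K) o t ∈ L := by
  have key : ∀ i : ℕ, i = k ∨ i = k + j → ∀ c ∈ par hX θ L hr, l ^ i * c ∈ par hX θ L hr := by
    intro i hi c hc
    by_cases e : c = 0
    · rw [e, mul_zero]; exact zero_mem _
    refine ⟨by rw [map_mul, map_pow, hl, hc.1], ?_⟩
    have := hs c e hc.2 (lw n (r, i)) (by rcases hi with rfl | rfl <;> simp)
    rwa [evW_lw] at this
  have full := full_of_mult θ hl hgen (par hX θ L hr) (pow_ne_zero k hl0) hj (key k (Or.inl rfl))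
    fun c hc => by rw [← pow_add]; exact key _ (Or.inr rfl) c hc
  intro o' ho' t ht
  obtain ⟨o, hoo, rfl⟩ := List.mem_map.1 ho'
  replace ht : θ t = t := ht
  rw [pY, pY, mul_one]
  by_cases e : t = 0
  · rw [e, hX.zero (by simpa using List.all_eq_true.1 ho o hoo)]; exact one_mem L
  have hp := pow_ne_zero o.2 hl0
  have h3 := full (t / l ^ o.2 / κ) (by rw [map_div₀, map_div₀, map_pow, ht, hl, h1]) κ ⟨h1, h2⟩
  rw [div_mul_cancel₀ _ h0] at h3
  have := hs _ (div_ne_zero e hp) h3.2 (lw n o) (by simp [List.mem_map_of_mem hoo])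
  rwa [evW_lw, mul_div_cancel₀ _ hp] at this

end Pool.Agent.Lib.MP_cad414_al.Cg.XE
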