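import Pool.Agent.Lib.MP_cad414_al.Cg.XG

/-! The groups of type `E6`. -/

namespace Pool.Agent.Lib.MP_cad414_al.Cg.XE.E6

def M1 : List ME :=
  [⟨⟨1, 0, 0, 0, 0, 0, 0, 0⟩, ⟨-2, -3, -3, -5, -4, -3, -2, -1⟩, false, []⟩, ⟨⟨0, 1, 0, 0, 0, 0,
  0, 0⟩, ⟨-2, -3, -4, -5, -4, -3, -2, -1⟩, false, []⟩, ⟨⟨0, 0, 0, 0, 0, 1, 0, 0⟩, ⟨-2, -3, -4,
  -6, -5, -4, -2, -1⟩, false, []⟩, ⟨⟨0, 0, 1, 0, 0, 0, 0, 0⟩, ⟨-2, -3, -4, -5, -4, -3, -2, -1⟩,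
  false, []⟩, ⟨⟨0, 0, 1, 0, 0, 0, 0, 0⟩, ⟨-2, -3, -4, -5, -4, -3, -2, -1⟩, false, []⟩, ⟨⟨0, 0, 0,
  1, 0, 0, 0, 0⟩, ⟨-2, -3, -4, -6, -4, -3, -2, -1⟩, false, []⟩, ⟨⟨0, 0, 0, 1, 0, 0, 0, 0⟩, ⟨-2,
  -3, -4, -6, -4, -3, -2, -1⟩, false, []⟩, ⟨⟨0, 0, 0, 0, 1, 0, 0, 0⟩, ⟨-2, -3, -4, -6, -5, -3,
  -2, -1⟩, false, []⟩, ⟨⟨0, 0, 0, 0, 1, 0, 0, 0⟩, ⟨-2, -3, -4, -6, -5, -3, -2, -1⟩, false, []⟩]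

def Mg : List ME :=
  [⟨⟨0, 0, 0, 1, 0, 0, 0, 0⟩, ⟨-2, -3, -4, -6, -4, -3, -2, -1⟩, false, []⟩, ⟨⟨0, 1, 0, 0, 0, 0,
  0, 0⟩, ⟨-2, -3, -4, -5, -4, -3, -2, -1⟩, false, []⟩, ⟨⟨0, 0, 0, 0, 1, 0, 0, 0⟩, ⟨-2, -3, -4,
  -6, -5, -3, -2, -1⟩, false, []⟩, ⟨⟨0, 0, 1, 0, 0, 0, 0, 0⟩, ⟨-2, -3, -4, -5, -4, -3, -2, -1⟩,
  false, []⟩]

def M2 : List ME :=
  [⟨⟨1, 0, 1, 1, 0, 0, 0, 0⟩, ⟨-2, -3, -4, -6, -4, -3, -2, -1⟩, false, []⟩, ⟨⟨0, -1, 0, -1, 0, 0,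
  0, 0⟩, ⟨-2, -2, -4, -5, -4, -3, -2, -1⟩, false, []⟩, ⟨⟨0, 0, 0, 1, 1, 1, 0, 0⟩, ⟨-2, -3, -4,
  -6, -5, -4, -2, -1⟩, false, []⟩, ⟨⟨0, 0, -1, -1, 0, 0, 0, 0⟩, ⟨-2, -3, -3, -5, -4, -3, -2, -1⟩,
  false, []⟩, ⟨⟨0, 0, -1, -1, 0, 0, 0, 0⟩, ⟨-2, -3, -3, -5, -4, -3, -2, -1⟩, false, []⟩, ⟨⟨0, 1,
  1, 2, 1, 0, 0, 0⟩, ⟨-2, -3, -4, -6, -5, -3, -2, -1⟩, false, []⟩, ⟨⟨0, 1, 1, 2, 1, 0, 0, 0⟩,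
  ⟨-2, -3, -4, -6, -5, -3, -2, -1⟩, false, []⟩, ⟨⟨0, 0, 0, -1, -1, 0, 0, 0⟩, ⟨-2, -3, -4, -5, -4,
  -3, -2, -1⟩, false, []⟩, ⟨⟨0, 0, 0, -1, -1, 0, 0, 0⟩, ⟨-2, -3, -4, -5, -4, -3, -2, -1⟩, false,
  []⟩]

def y2 : Word :=
  [(⟨0, -1, 0, -1, -1, -1, 0, 0⟩, [(1, [1, 0])])]

def outs : List (R × ℕ) :=
  [(⟨1, 0, 0, 0, 0, 0, 0, 0⟩, 1), (⟨0, 1, 0, 0, 0, 0, 0, 0⟩, 2), (⟨0, 0, 1, 0, 0, 0, 0, 0⟩, 1),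
  (⟨0, 0, 0, 1, 0, 0, 0, 0⟩, 2), (⟨0, 0, 0, 0, 1, 0, 0, 0⟩, 1), (⟨0, 0, 0, 0, 0, 1, 0, 0⟩, 1),
  (⟨-1, 0, 0, 0, 0, 0, 0, 0⟩, 3), (⟨0, -1, 0, 0, 0, 0, 0, 0⟩, 2), (⟨0, 0, -1, 0, 0, 0, 0, 0⟩, 3),
  (⟨0, 0, 0, -1, 0, 0, 0, 0⟩, 0), (⟨0, 0, 0, 0, -1, 0, 0, 0⟩, 3), (⟨0, 0, 0, 0, 0, -1, 0, 0⟩, 2)]

def p0 : List Ins :=
  [.ext [(⟨1, 0, 0, 0, 0, 0, 0, 0⟩, [(1, [])])],
   .ext [(⟨-1, 0, 0, 0, 0, 0, 0, 0⟩, [(1, [])])],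
   .cat [(1, false), (0, false), (1, false)],
   .ext [(⟨0, 1, 0, 0, 0, 0, 0, 0⟩, [(1, [])])],
   .ext [(⟨0, -1, 0, 0, 0, 0, 0, 0⟩, [(1, [])])],
   .cat [(1, false), (0, false), (1, false)],
   .ext [(⟨0, 0, 0, 0, 0, 1, 0, 0⟩, [(1, [])])],
   .ext [(⟨0, 0, 0, 0, 0, -1, 0, 0⟩, [(1, [])])],
   .cat [(1, false), (0, false), (1, false)],
   .ext [(⟨0, 0, 1, 0, 0, 0, 0, 0⟩, [(1, [])])],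
   .ext [(⟨0, 0, -1, 0, 0, 0, 0, 0⟩, [(1, [])])],
   .cat [(1, false), (0, false), (1, false)],
   .ext [(⟨0, 0, 0, 1, 0, 0, 0, 0⟩, [(1, [])])],
   .ext [(⟨0, 0, 0, -1, 0, 0, 0, 0⟩, [(1, [])])],
   .cat [(1, false), (0, false), (1, false)],
   .ext [(⟨0, 0, 0, 0, 1, 0, 0, 0⟩, [(1, [])])],
   .ext [(⟨0, 0, 0, 0, -1, 0, 0, 0⟩, [(1, [])])],
   .cat [(1, false), (0, false), (1, false)],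
   .cat [(15, false), (12, false), (9, false), (6, false), (6, false), (3, false), (3, false),
   (0, false), (0, false)],
   .cat [(4, false), (13, false), (1, false), (7, false)],
   .ext [(⟨0, 0, 0, 0, -1, 0, 0, 0⟩, [(1, [1, 0])])],
   .mon 6 [⟨⟨0, 0, 0, 1, 0, 0, 0, 0⟩, ⟨-2, -3, -4, -6, -4, -3, -2, -1⟩, false, []⟩],
   .cnj [0] 0]

def p1 : List Ins :=
  [.mon 2 [⟨⟨1, 0, 0, 0, 0, 0, 0, 0⟩, ⟨-2, -3, -3, -5, -4, -3, -2, -1⟩, false, []⟩, ⟨⟨0, 1, 0, 0,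
   0, 0, 0, 0⟩, ⟨-2, -3, -4, -5, -4, -3, -2, -1⟩, false, []⟩, ⟨⟨0, 0, 0, 0, 0, 1, 0, 0⟩, ⟨-2, -3,
   -4, -6, -5, -4, -2, -1⟩, false, []⟩, ⟨⟨0, 0, 1, 0, 0, 0, 0, 0⟩, ⟨-2, -3, -4, -5, -4, -3, -2,
   -1⟩, false, []⟩, ⟨⟨0, 0, 1, 0, 0, 0, 0, 0⟩, ⟨-2, -3, -4, -5, -4, -3, -2, -1⟩, false, []⟩, ⟨⟨0,
   0, 0, 1, 0, 0, 0, 0⟩, ⟨-2, -3, -4, -6, -4, -3, -2, -1⟩, false, []⟩, ⟨⟨0, 0, 0, 1, 0, 0, 0, 0⟩,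
   ⟨-2, -3, -4, -6, -4, -3, -2, -1⟩, false, []⟩, ⟨⟨0, 0, 0, 0, 1, 0, 0, 0⟩, ⟨-2, -3, -4, -6, -5,
   -3, -2, -1⟩, false, []⟩, ⟨⟨0, 0, 0, 0, 1, 0, 0, 0⟩, ⟨-2, -3, -4, -6, -5, -3, -2, -1⟩, false,
   []⟩],
   .mon 1 [⟨⟨1, 0, 1, 1, 0, 0, 0, 0⟩, ⟨-2, -3, -4, -6, -4, -3, -2, -1⟩, false, []⟩, ⟨⟨0, -1, 0,
   -1, 0, 0, 0, 0⟩, ⟨-2, -2, -4, -5, -4, -3, -2, -1⟩, false, []⟩, ⟨⟨0, 0, 0, 1, 1, 1, 0, 0⟩, ⟨-2,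
   -3, -4, -6, -5, -4, -2, -1⟩, false, []⟩, ⟨⟨0, 0, -1, -1, 0, 0, 0, 0⟩, ⟨-2, -3, -3, -5, -4, -3,
   -2, -1⟩, false, []⟩, ⟨⟨0, 0, -1, -1, 0, 0, 0, 0⟩, ⟨-2, -3, -3, -5, -4, -3, -2, -1⟩, false,
   []⟩, ⟨⟨0, 1, 1, 2, 1, 0, 0, 0⟩, ⟨-2, -3, -4, -6, -5, -3, -2, -1⟩, false, []⟩, ⟨⟨0, 1, 1, 2, 1,
   0, 0, 0⟩, ⟨-2, -3, -4, -6, -5, -3, -2, -1⟩, false, []⟩, ⟨⟨0, 0, 0, -1, -1, 0, 0, 0⟩, ⟨-2, -3,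
   -4, -5, -4, -3, -2, -1⟩, false, []⟩, ⟨⟨0, 0, 0, -1, -1, 0, 0, 0⟩, ⟨-2, -3, -4, -5, -4, -3, -2,
   -1⟩, false, []⟩],
   .cnj [0, 1, 0, 1, 0, 1, 0, 1, 0] 0,
   .col [(1, false), (0, false), (1, true), (0, true)] ⟨40001, 7, 20049, -39657, 22401, -19987,
   20101, 997⟩,
   .cat [(0, true)]]

def p2 : List Ins :=
  [.mon 3 [⟨⟨1, 0, 0, 0, 0, 0, 0, 0⟩, ⟨-2, -3, -3, -5, -4, -3, -2, -1⟩, false, []⟩, ⟨⟨0, 1, 0, 0,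
   0, 0, 0, 0⟩, ⟨-2, -3, -4, -5, -4, -3, -2, -1⟩, false, []⟩, ⟨⟨0, 0, 0, 0, 0, 1, 0, 0⟩, ⟨-2, -3,
   -4, -6, -5, -4, -2, -1⟩, false, []⟩, ⟨⟨0, 0, 1, 0, 0, 0, 0, 0⟩, ⟨-2, -3, -4, -5, -4, -3, -2,
   -1⟩, false, []⟩, ⟨⟨0, 0, 1, 0, 0, 0, 0, 0⟩, ⟨-2, -3, -4, -5, -4, -3, -2, -1⟩, false, []⟩, ⟨⟨0,
   0, 0, 1, 0, 0, 0, 0⟩, ⟨-2, -3, -4, -6, -4, -3, -2, -1⟩, false, []⟩, ⟨⟨0, 0, 0, 1, 0, 0, 0, 0⟩,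
   ⟨-2, -3, -4, -6, -4, -3, -2, -1⟩, false, []⟩, ⟨⟨0, 0, 0, 0, 1, 0, 0, 0⟩, ⟨-2, -3, -4, -6, -5,
   -3, -2, -1⟩, false, []⟩, ⟨⟨0, 0, 0, 0, 1, 0, 0, 0⟩, ⟨-2, -3, -4, -6, -5, -3, -2, -1⟩, false,
   []⟩],
   .mon 2 [⟨⟨1, 0, 1, 1, 0, 0, 0, 0⟩, ⟨-2, -3, -4, -6, -4, -3, -2, -1⟩, false, []⟩, ⟨⟨0, -1, 0,
   -1, 0, 0, 0, 0⟩, ⟨-2, -2, -4, -5, -4, -3, -2, -1⟩, false, []⟩, ⟨⟨0, 0, 0, 1, 1, 1, 0, 0⟩, ⟨-2,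
   -3, -4, -6, -5, -4, -2, -1⟩, false, []⟩, ⟨⟨0, 0, -1, -1, 0, 0, 0, 0⟩, ⟨-2, -3, -3, -5, -4, -3,
   -2, -1⟩, false, []⟩, ⟨⟨0, 0, -1, -1, 0, 0, 0, 0⟩, ⟨-2, -3, -3, -5, -4, -3, -2, -1⟩, false,
   []⟩, ⟨⟨0, 1, 1, 2, 1, 0, 0, 0⟩, ⟨-2, -3, -4, -6, -5, -3, -2, -1⟩, false, []⟩, ⟨⟨0, 1, 1, 2, 1,
   0, 0, 0⟩, ⟨-2, -3, -4, -6, -5, -3, -2, -1⟩, false, []⟩, ⟨⟨0, 0, 0, -1, -1, 0, 0, 0⟩, ⟨-2, -3,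
   -4, -5, -4, -3, -2, -1⟩, false, []⟩, ⟨⟨0, 0, 0, -1, -1, 0, 0, 0⟩, ⟨-2, -3, -4, -5, -4, -3, -2,
   -1⟩, false, []⟩],
   .cnj [0, 1, 0, 1, 0, 1, 0, 1, 0] 1,
   .col [(2, false), (0, false), (2, true), (0, true)] ⟨40001, 7, 20049, -39657, 22401, -19987,
   20101, 997⟩,
   .cnj [0, 1, 0] 3,
   .col [(3, false), (0, false), (3, true), (0, true)] ⟨1, 7, 49, -19657, 42401, -19987, 101,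
   997⟩,
   .col [(0, false), (5, false), (0, true), (5, true)] ⟨1, 7, 40049, -39657, 22401, -19987,
   20101, 997⟩,
   .cnj [0] 5,
   .col [(0, false), (3, false), (0, true), (3, true)] ⟨40001, -19993, -39951, 20343, 22401,
   -19987, 101, 997⟩,
   .cnj [0, 1] 5,
   .col [(8, false), (0, false), (8, true), (0, true)] ⟨1, 40007, 49, -19657, 2401, 13, 101, 997⟩,
   .cnj [0, 1, 0, 1, 0, 1, 0, 1, 0, 1, 0] 10,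
   .col [(10, false), (0, false), (10, true), (0, true)] ⟨1, 20007, 40049, -19657, -17599, 13,
   101, 997⟩,
   .cnj [1, 0, 1, 0, 1, 0, 1] 9,
   .col [(6, false), (0, false), (6, true), (0, true)] ⟨1, -19993, -19951, 40343, -17599, 13,
   101, 997⟩,
   .cat [(0, true)],
   .cnj [1, 0, 1, 0] 15,
   .col [(9, false), (0, false), (9, true), (0, true)] ⟨1, 7, 49, 343, -17599, 40013, -19899,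
   997⟩,
   .cat [(0, true)],
   .cnj [0, 1, 0, 1, 0, 1, 0] 18,
   .col [(18, false), (0, false), (18, true), (0, true)] ⟨-39999, 7, 20049, -19657, 22401, 20013,
   -19899, 997⟩,
   .col [(0, false), (7, false), (0, true), (7, true)] ⟨-39999, 7, 20049, 343, 2401, 13, 101,
   997⟩,
   .cnj [1] 20,
   .cnj [1, 0, 1] 19,
   .col [(1, false), (0, false), (1, true), (0, true)] ⟨1, -39993, 49, 20343, 2401, 13, 101, 997⟩,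
   .cat [(0, true)],
   .cnj [1, 0] 25,
   .col [(25, false), (0, false), (25, true), (0, true)] ⟨20001, 20007, -19951, -19657, 42401,
   -39987, 20101, 997⟩,
   .col [(0, false), (4, false), (0, true), (4, true)] ⟨20001, 7, -39951, 20343, 2401, 13, 101,
   997⟩,
   .cat [(0, true)],
   .cnj [0, 1, 0, 1, 0] 29,
   .col [(29, false), (0, false), (29, true), (0, true)] ⟨1, 20007, 20049, -19657, -17599, 20013,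
   101, 997⟩,
   .col [(0, false), (8, false), (0, true), (8, true)] ⟨1, 7, 49, 20343, -37599, 20013, 101, 997⟩,
   .cnj [1, 0, 1, 0, 1, 0] 32,
   .col [(28, false), (0, false), (28, true), (0, true)] ⟨-19999, 7, 40049, -19657, 22401,
   -39987, 20101, 997⟩,
   .cat [(0, true)]]

end Pool.Agent.Lib.MP_cad414_al.Cg.XE.E6

namespace Pool.Agent.Lib.MP_cad414_al.Cg

open XE XE.E6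

theorem e6_three {G F : Type} [Group G] [IsSimpleGroup G] [Field F] [Finite F] {S : Type}
    [Group S] {x : (Fin 8 → ℤ) → F → S} {θ : RingAut F} (hG : NA G) (hx : St x) (hθ : θ ^ 1 = 1)
    (h : Img G (Fold x θ [[0], [1], [2], [3], [4], [5]])) : 3 ∈ GenSizes G :=
  split_three hG hx hθ h M1 Mg M2 ⟨0, 0, 0, -1, -1, 0, 0, 0⟩ ⟨0, 0, 0, -1, 0, 0, 0, 0⟩ y2 2 0 2 outs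
    p0 p1 p2 (by decide +kernel) (by decide) rfl

end Pool.Agent.Lib.MP_cad414_al.Cg
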