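import Pool.Agent.Lib.MP_cad414_al.Cg.XG

/-! Certificates for the groups of type `F4` and `2E6`. -/

namespace Pool.Agent.Lib.MP_cad414_al.Cg.XE.F4

def M1 : List ME :=
  [⟨⟨0, 1, 0, 0, 0, 0, 0, 0⟩, ⟨-2, -3, -4, -5, -4, -3, -2, -1⟩, false, []⟩, ⟨⟨1, 0, 0, 0, 0, 0,
  0, 0⟩, ⟨-2, -3, -3, -5, -4, -3, -2, -1⟩, false, []⟩, ⟨⟨0, 0, 0, 0, 0, 1, 0, 0⟩, ⟨-2, -3, -4,
  -6, -5, -4, -2, -1⟩, false, []⟩, ⟨⟨0, 0, 0, 1, 0, 0, 0, 0⟩, ⟨-2, -3, -4, -6, -4, -3, -2, -1⟩,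
  false, []⟩, ⟨⟨0, 0, 0, 1, 0, 0, 0, 0⟩, ⟨-2, -3, -4, -6, -4, -3, -2, -1⟩, false, []⟩, ⟨⟨0, 0, 1,
  0, 0, 0, 0, 0⟩, ⟨-2, -3, -4, -5, -4, -3, -2, -1⟩, false, []⟩, ⟨⟨0, 0, 0, 0, 1, 0, 0, 0⟩, ⟨-2,
  -3, -4, -6, -5, -3, -2, -1⟩, false, []⟩, ⟨⟨0, 0, 1, 0, 0, 0, 0, 0⟩, ⟨-2, -3, -4, -5, -4, -3,
  -2, -1⟩, false, []⟩, ⟨⟨0, 0, 0, 0, 1, 0, 0, 0⟩, ⟨-2, -3, -4, -6, -5, -3, -2, -1⟩, false, []⟩]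

def Mg : List ME :=
  [⟨⟨0, 0, 0, 1, 0, 0, 0, 0⟩, ⟨-2, -3, -4, -6, -4, -3, -2, -1⟩, false, []⟩, ⟨⟨0, 0, 0, 1, 0, 0,
  0, 0⟩, ⟨-2, -3, -4, -6, -4, -3, -2, -1⟩, false, []⟩, ⟨⟨1, 0, 0, 0, 0, 0, 0, 0⟩, ⟨-2, -3, -3,
  -5, -4, -3, -2, -1⟩, false, []⟩, ⟨⟨0, 0, 0, 0, 0, 1, 0, 0⟩, ⟨-2, -3, -4, -6, -5, -4, -2, -1⟩,
  false, []⟩, ⟨⟨0, 0, 1, 0, 0, 0, 0, 0⟩, ⟨-2, -3, -4, -5, -4, -3, -2, -1⟩, false, []⟩, ⟨⟨0, 0, 0,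
  0, 1, 0, 0, 0⟩, ⟨-2, -3, -4, -6, -5, -3, -2, -1⟩, false, []⟩, ⟨⟨0, 0, 0, 1, 0, 0, 0, 0⟩, ⟨-2,
  -3, -4, -6, -4, -3, -2, -1⟩, false, []⟩]

def M2 : List ME :=
  [⟨⟨1, 1, 1, 1, 1, 1, 0, 0⟩, ⟨-2, -3, -4, -6, -5, -4, -2, -1⟩, true, []⟩, ⟨⟨0, 0, 1, 0, 0, 0, 0,
  0⟩, ⟨-2, -3, -4, -5, -4, -3, -2, -1⟩, true, []⟩, ⟨⟨0, 0, 0, 0, 1, 0, 0, 0⟩, ⟨-2, -3, -4, -6,
  -5, -3, -2, -1⟩, true, []⟩, ⟨⟨-1, 0, -1, -1, -1, -1, 0, 0⟩, ⟨-1, -3, -3, -5, -4, -3, -2, -1⟩,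
  false, []⟩, ⟨⟨-1, 0, -1, -1, -1, -1, 0, 0⟩, ⟨-1, -3, -3, -5, -4, -3, -2, -1⟩, false, []⟩, ⟨⟨0,
  0, 0, 1, 1, 1, 0, 0⟩, ⟨-2, -3, -4, -6, -5, -4, -2, -1⟩, true, []⟩, ⟨⟨1, 0, 1, 1, 0, 0, 0, 0⟩,
  ⟨-2, -3, -4, -6, -4, -3, -2, -1⟩, true, []⟩, ⟨⟨0, 0, 0, 1, 1, 1, 0, 0⟩, ⟨-2, -3, -4, -6, -5,
  -4, -2, -1⟩, true, []⟩, ⟨⟨1, 0, 1, 1, 0, 0, 0, 0⟩, ⟨-2, -3, -4, -6, -4, -3, -2, -1⟩, true, []⟩]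

def y : Word :=
  [(⟨1, 0, 1, 1, 1, 1, 0, 0⟩, [(1, [1, 0, 0, 0])]), (⟨0, 0, 0, 0, 1, 0, 0, 0⟩, [(1, [0, 0, 1,
  0])]), (⟨0, 0, 1, 0, 0, 0, 0, 0⟩, [(1, [0, 0, 0, 1])])]

def y2 : Word :=
  [(⟨1, 0, 1, 0, 0, 0, 0, 0⟩, [(-1, [0, 0, 0, 1])]), (⟨0, 0, 0, 0, 1, 1, 0, 0⟩, [(-1, [0, 0, 1,
  0])]), (⟨0, 1, 1, 1, 1, 0, 0, 0⟩, [(1, [1, 0, 0, 0])])]

def r0 : R :=
  ⟨0, 0, 1, 1, 1, 0, 0, 0⟩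

def e0 : ℕ := 2
def k0 : ℕ := 0
def j0 : ℕ := 2
def outs : List (R × ℕ) :=
  [(⟨-1, -2, -2, -3, -2, -1, 0, 0⟩, 3), (⟨-1, -1, -2, -3, -2, -1, 0, 0⟩, 4), (⟨-1, -1, -2, -2,
  -2, -1, 0, 0⟩, 3), (⟨-1, -1, -1, -2, -1, -1, 0, 0⟩, 2), (⟨-1, -1, -1, -1, -1, -1, 0, 0⟩, 1),
  (⟨-1, 0, -1, -1, -1, -1, 0, 0⟩, 3), (⟨0, -1, -1, -2, -1, 0, 0, 0⟩, 2), (⟨0, -1, -1, -1, -1, 0,
  0, 0⟩, 2), (⟨0, -1, 0, -1, 0, 0, 0, 0⟩, 2), (⟨0, -1, 0, 0, 0, 0, 0, 0⟩, 1), (⟨0, 0, -1, -1, -1,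
  0, 0, 0⟩, 1), (⟨0, 0, 0, -1, 0, 0, 0, 0⟩, 2), (⟨0, 0, 0, 1, 0, 0, 0, 0⟩, 2), (⟨0, 0, 1, 1, 1,
  0, 0, 0⟩, 0), (⟨0, 1, 0, 0, 0, 0, 0, 0⟩, 1), (⟨0, 1, 0, 1, 0, 0, 0, 0⟩, 1), (⟨0, 1, 1, 1, 1, 0,
  0, 0⟩, 1), (⟨0, 1, 1, 2, 1, 0, 0, 0⟩, 1), (⟨1, 0, 1, 1, 1, 1, 0, 0⟩, 1), (⟨1, 1, 1, 1, 1, 1, 0,
  0⟩, 0), (⟨1, 1, 1, 2, 1, 1, 0, 0⟩, 0), (⟨1, 1, 2, 2, 2, 1, 0, 0⟩, 2), (⟨1, 1, 2, 3, 2, 1, 0,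
  0⟩, 2), (⟨1, 2, 2, 3, 2, 1, 0, 0⟩, 2)]

def p0 : List Ins :=
  [.ext [(⟨0, 1, 0, 0, 0, 0, 0, 0⟩, [(1, [])])],
   .ext [(⟨0, -1, 0, 0, 0, 0, 0, 0⟩, [(1, [])])],
   .cat [(1, false), (0, false), (1, false)],
   .ext [(⟨1, 0, 0, 0, 0, 0, 0, 0⟩, [(1, [])]), (⟨0, 0, 0, 0, 0, 1, 0, 0⟩, [(1, [])])],
   .ext [(⟨-1, 0, 0, 0, 0, 0, 0, 0⟩, [(1, [])]), (⟨0, 0, 0, 0, 0, -1, 0, 0⟩, [(1, [])])],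
   .cat [(1, false), (0, false), (1, false)],
   .swp 0 [1, 3, 2],
   .ext [(⟨0, 0, 0, 1, 0, 0, 0, 0⟩, [(1, [])])],
   .ext [(⟨0, 0, 0, -1, 0, 0, 0, 0⟩, [(1, [])])],
   .cat [(1, false), (0, false), (1, false)],
   .ext [(⟨0, 0, 1, 0, 0, 0, 0, 0⟩, [(1, [])]), (⟨0, 0, 0, 0, 1, 0, 0, 0⟩, [(1, [])])],
   .ext [(⟨0, 0, -1, 0, 0, 0, 0, 0⟩, [(1, [])]), (⟨0, 0, 0, 0, -1, 0, 0, 0⟩, [(1, [])])],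
   .cat [(1, false), (0, false), (1, false)],
   .swp 0 [1, 3, 2],
   .cat [(11, false), (7, false), (4, false), (4, false), (0, false), (0, false)],
   .cat [(5, false), (5, false), (8, false), (1, false), (5, false)],
   .mon 9 [⟨⟨1, 0, 0, 0, 0, 0, 0, 0⟩, ⟨-2, -3, -3, -5, -4, -3, -2, -1⟩, false, []⟩, ⟨⟨0, 0, 0, 0,
   0, 1, 0, 0⟩, ⟨-2, -3, -4, -6, -5, -4, -2, -1⟩, false, []⟩],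
   .mon 2 [⟨⟨0, 0, 1, 0, 0, 0, 0, 0⟩, ⟨-2, -3, -4, -5, -4, -3, -2, -1⟩, false, []⟩, ⟨⟨0, 0, 0, 0,
   1, 0, 0, 0⟩, ⟨-2, -3, -4, -6, -5, -3, -2, -1⟩, false, []⟩],
   .ext [(⟨0, 0, 0, 1, 0, 0, 0, 0⟩, [(1, [1, 0, 0, 0])])],
   .cnj [1, 0] 0,
   .ext [(⟨0, 0, 1, 0, 0, 0, 0, 0⟩, [(1, [0, 0, 0, 1])]), (⟨0, 0, 0, 0, 1, 0, 0, 0⟩, [(1, [0, 0,
   1, 0])])],
   .swp 0 [0],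
   .cat [(2, false), (0, false)]]

def p1 : List Ins :=
  [.mon 2 [⟨⟨0, 1, 0, 0, 0, 0, 0, 0⟩, ⟨-2, -3, -4, -5, -4, -3, -2, -1⟩, false, []⟩, ⟨⟨1, 0, 0, 0,
   0, 0, 0, 0⟩, ⟨-2, -3, -3, -5, -4, -3, -2, -1⟩, false, []⟩, ⟨⟨0, 0, 0, 0, 0, 1, 0, 0⟩, ⟨-2, -3,
   -4, -6, -5, -4, -2, -1⟩, false, []⟩, ⟨⟨0, 0, 0, 1, 0, 0, 0, 0⟩, ⟨-2, -3, -4, -6, -4, -3, -2,
   -1⟩, false, []⟩, ⟨⟨0, 0, 0, 1, 0, 0, 0, 0⟩, ⟨-2, -3, -4, -6, -4, -3, -2, -1⟩, false, []⟩, ⟨⟨0,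
   0, 1, 0, 0, 0, 0, 0⟩, ⟨-2, -3, -4, -5, -4, -3, -2, -1⟩, false, []⟩, ⟨⟨0, 0, 0, 0, 1, 0, 0, 0⟩,
   ⟨-2, -3, -4, -6, -5, -3, -2, -1⟩, false, []⟩, ⟨⟨0, 0, 1, 0, 0, 0, 0, 0⟩, ⟨-2, -3, -4, -5, -4,
   -3, -2, -1⟩, false, []⟩, ⟨⟨0, 0, 0, 0, 1, 0, 0, 0⟩, ⟨-2, -3, -4, -6, -5, -3, -2, -1⟩, false,
   []⟩],
   .mon 1 [⟨⟨1, 1, 1, 1, 1, 1, 0, 0⟩, ⟨-2, -3, -4, -6, -5, -4, -2, -1⟩, true, []⟩, ⟨⟨0, 0, 1, 0,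
   0, 0, 0, 0⟩, ⟨-2, -3, -4, -5, -4, -3, -2, -1⟩, true, []⟩, ⟨⟨0, 0, 0, 0, 1, 0, 0, 0⟩, ⟨-2, -3,
   -4, -6, -5, -3, -2, -1⟩, true, []⟩, ⟨⟨-1, 0, -1, -1, -1, -1, 0, 0⟩, ⟨-1, -3, -3, -5, -4, -3,
   -2, -1⟩, false, []⟩, ⟨⟨-1, 0, -1, -1, -1, -1, 0, 0⟩, ⟨-1, -3, -3, -5, -4, -3, -2, -1⟩, false,
   []⟩, ⟨⟨0, 0, 0, 1, 1, 1, 0, 0⟩, ⟨-2, -3, -4, -6, -5, -4, -2, -1⟩, true, []⟩, ⟨⟨1, 0, 1, 1, 0,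
   0, 0, 0⟩, ⟨-2, -3, -4, -6, -4, -3, -2, -1⟩, true, []⟩, ⟨⟨0, 0, 0, 1, 1, 1, 0, 0⟩, ⟨-2, -3, -4,
   -6, -5, -4, -2, -1⟩, true, []⟩, ⟨⟨1, 0, 1, 1, 0, 0, 0, 0⟩, ⟨-2, -3, -4, -6, -4, -3, -2, -1⟩,
   true, []⟩],
   .cnj [0, 1, 0, 1, 0, 1, 0, 1, 0] 0,
   .col [(1, false), (0, false), (1, true), (0, true)] ⟨1, -19993, 40049, -39657, 42401, 13,
   -19899, 997⟩]

def p2 : List Ins :=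
  [.mon 3 [⟨⟨0, 1, 0, 0, 0, 0, 0, 0⟩, ⟨-2, -3, -4, -5, -4, -3, -2, -1⟩, false, []⟩, ⟨⟨1, 0, 0, 0,
   0, 0, 0, 0⟩, ⟨-2, -3, -3, -5, -4, -3, -2, -1⟩, false, []⟩, ⟨⟨0, 0, 0, 0, 0, 1, 0, 0⟩, ⟨-2, -3,
   -4, -6, -5, -4, -2, -1⟩, false, []⟩, ⟨⟨0, 0, 0, 1, 0, 0, 0, 0⟩, ⟨-2, -3, -4, -6, -4, -3, -2,
   -1⟩, false, []⟩, ⟨⟨0, 0, 0, 1, 0, 0, 0, 0⟩, ⟨-2, -3, -4, -6, -4, -3, -2, -1⟩, false, []⟩, ⟨⟨0,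
   0, 1, 0, 0, 0, 0, 0⟩, ⟨-2, -3, -4, -5, -4, -3, -2, -1⟩, false, []⟩, ⟨⟨0, 0, 0, 0, 1, 0, 0, 0⟩,
   ⟨-2, -3, -4, -6, -5, -3, -2, -1⟩, false, []⟩, ⟨⟨0, 0, 1, 0, 0, 0, 0, 0⟩, ⟨-2, -3, -4, -5, -4,
   -3, -2, -1⟩, false, []⟩, ⟨⟨0, 0, 0, 0, 1, 0, 0, 0⟩, ⟨-2, -3, -4, -6, -5, -3, -2, -1⟩, false,
   []⟩],
   .mon 2 [⟨⟨1, 1, 1, 1, 1, 1, 0, 0⟩, ⟨-2, -3, -4, -6, -5, -4, -2, -1⟩, true, []⟩, ⟨⟨0, 0, 1, 0,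
   0, 0, 0, 0⟩, ⟨-2, -3, -4, -5, -4, -3, -2, -1⟩, true, []⟩, ⟨⟨0, 0, 0, 0, 1, 0, 0, 0⟩, ⟨-2, -3,
   -4, -6, -5, -3, -2, -1⟩, true, []⟩, ⟨⟨-1, 0, -1, -1, -1, -1, 0, 0⟩, ⟨-1, -3, -3, -5, -4, -3,
   -2, -1⟩, false, []⟩, ⟨⟨-1, 0, -1, -1, -1, -1, 0, 0⟩, ⟨-1, -3, -3, -5, -4, -3, -2, -1⟩, false,
   []⟩, ⟨⟨0, 0, 0, 1, 1, 1, 0, 0⟩, ⟨-2, -3, -4, -6, -5, -4, -2, -1⟩, true, []⟩, ⟨⟨1, 0, 1, 1, 0,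
   0, 0, 0⟩, ⟨-2, -3, -4, -6, -4, -3, -2, -1⟩, true, []⟩, ⟨⟨0, 0, 0, 1, 1, 1, 0, 0⟩, ⟨-2, -3, -4,
   -6, -5, -4, -2, -1⟩, true, []⟩, ⟨⟨1, 0, 1, 1, 0, 0, 0, 0⟩, ⟨-2, -3, -4, -6, -4, -3, -2, -1⟩,
   true, []⟩],
   .cnj [0, 1, 0, 1, 0, 1, 0, 1, 0] 1,
   .col [(2, false), (0, false), (2, true), (0, true)] ⟨1, -19993, 40049, -39657, 42401, 13,
   -19899, 997⟩,
   .cnj [1, 0, 1, 0] 3,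
   .col [(3, false), (0, false), (3, true), (0, true)] ⟨20001, -59993, 49, 20343, 22401, -19987,
   101, 997⟩,
   .col [(0, false), (5, false), (0, true), (5, true)] ⟨-19999, -39993, 60049, -19657, 22401, 13,
   -19899, 997⟩,
   .cat [(0, true)],
   .cnj [1, 0, 1, 0, 1, 0, 1] 4,
   .col [(3, false), (0, false), (3, true), (0, true)] ⟨1, -19993, 49, 343, 2401, 13, 20101, 997⟩,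
   .col [(8, false), (1, false), (8, true), (1, true)] ⟨-19999, 7, 20049, -19657, 22401, -19987,
   20101, 997⟩,
   .cnj [1, 0, 1] 7,
   .col [(1, false), (0, false), (1, true), (0, true)] ⟨1, 20007, 49, -19657, 2401, 13, 20101,
   997⟩,
   .cnj [1, 0, 1, 0, 1, 0, 1, 0] 12,
   .col [(12, false), (0, false), (12, true), (0, true)] ⟨1, -59993, -19951, 60343, -17599, 13,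
   101, 997⟩,
   .col [(0, false), (3, false), (0, true), (3, true)] ⟨1, 7, -19951, 20343, -17599, 13, 20101,
   997⟩,
   .cat [(0, true)],
   .cnj [1, 0, 1, 0, 1, 0, 1] 16,
   .col [(16, false), (0, false), (16, true), (0, true)] ⟨-39999, 60007, 20049, -19657, 22401,
   -39987, 101, 997⟩,
   .col [(0, false), (10, false), (0, true), (10, true)] ⟨-19999, 20007, 49, 343, 2401, -19987,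
   20101, 997⟩,
   .cat [(0, true)],
   .cnj [1] 19,
   .cnj [0, 1, 0, 1, 0, 1] 18,
   .col [(1, false), (0, false), (1, true), (0, true)] ⟨20001, 7, 49, -19657, 2401, 20013, 101,
   997⟩,
   .cat [(0, true)],
   .cnj [0] 23,
   .col [(0, false), (3, false), (0, true), (3, true)] ⟨20001, -19993, -19951, 20343, -17599,
   20013, 101, 997⟩,
   .cnj [1, 0, 1, 0, 1] 23,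
   .col [(26, false), (0, false), (26, true), (0, true)] ⟨1, -19993, 20049, -19657, 22401, 13,
   101, 997⟩,
   .cat [(0, true)],
   .cat [(24, true)],
   .cnj [0, 1, 0, 1, 0, 1, 0] 30,
   .col [(10, false), (0, false), (10, true), (0, true)] ⟨1, 80007, -19951, -19657, -17599, 13,
   20101, 997⟩,
   .cat [(0, true)],
   .cnj [0, 1, 0, 1] 30,
   .col [(13, false), (0, false), (13, true), (0, true)] ⟨1, 20007, 20049, -39657, 22401, 13,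
   101, 997⟩,
   .cnj [0, 1] 32,
   .col [(11, false), (0, false), (11, true), (0, true)] ⟨1, -19993, -19951, 40343, -17599, 13,
   101, 997⟩,
   .cat [(0, true)],
   .cnj [0, 1, 0] 38,
   .col [(18, false), (0, false), (18, true), (0, true)] ⟨-19999, 60007, 20049, -39657, 22401,
   -19987, 101, 997⟩,
   .cnj [0, 1, 0, 1, 0, 1, 0, 1, 0, 1, 0] 40,
   .col [(16, false), (0, false), (16, true), (0, true)] ⟨1, 20007, -39951, 40343, -37599, 13,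
   20101, 997⟩,
   .cat [(0, true)],
   .cnj [1, 0, 1, 0, 1, 0, 1, 0, 1, 0] 43,
   .col [(43, false), (0, false), (43, true), (0, true)] ⟨-19999, 40007, 40049, -59657, 42401,
   -19987, 101, 997⟩,
   .col [(24, false), (43, false), (24, true), (43, true)] ⟨1, -19993, 40049, -39657, 42401, 13,
   -19899, 997⟩,
   .cat [(0, true)],
   .cat [(26, true)],
   .cat [(23, true)],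
   .cnj [1] 46,
   .col [(49, false), (0, false), (49, true), (0, true)] ⟨1, 7, 20049, -19657, 22401, 13, -19899,
   997⟩,
   .cnj [0] 48,
   .col [(51, false), (0, false), (51, true), (0, true)] ⟨1, -19993, 49, 20343, 2401, 13, -19899,
   997⟩,
   .cat [(0, true)],
   .cnj [1, 0] 51,
   .col [(34, false), (0, false), (34, true), (0, true)] ⟨1, 20007, 49, 343, 2401, 13, -19899,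
   997⟩]

def p3 : List Ins :=
  [.mon 2 [⟨⟨0, 1, 0, 0, 0, 0, 0, 0⟩, ⟨-2, -3, -4, -5, -4, -3, -2, -1⟩, false, []⟩, ⟨⟨1, 0, 0, 0,
   0, 0, 0, 0⟩, ⟨-2, -3, -3, -5, -4, -3, -2, -1⟩, false, []⟩, ⟨⟨0, 0, 0, 0, 0, 1, 0, 0⟩, ⟨-2, -3,
   -4, -6, -5, -4, -2, -1⟩, false, []⟩, ⟨⟨0, 0, 0, 1, 0, 0, 0, 0⟩, ⟨-2, -3, -4, -6, -4, -3, -2,
   -1⟩, false, []⟩, ⟨⟨0, 0, 0, 1, 0, 0, 0, 0⟩, ⟨-2, -3, -4, -6, -4, -3, -2, -1⟩, false, []⟩, ⟨⟨0,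
   0, 1, 0, 0, 0, 0, 0⟩, ⟨-2, -3, -4, -5, -4, -3, -2, -1⟩, false, []⟩, ⟨⟨0, 0, 0, 0, 1, 0, 0, 0⟩,
   ⟨-2, -3, -4, -6, -5, -3, -2, -1⟩, false, []⟩, ⟨⟨0, 0, 1, 0, 0, 0, 0, 0⟩, ⟨-2, -3, -4, -5, -4,
   -3, -2, -1⟩, false, []⟩, ⟨⟨0, 0, 0, 0, 1, 0, 0, 0⟩, ⟨-2, -3, -4, -6, -5, -3, -2, -1⟩, false,
   []⟩],
   .mon 1 [⟨⟨1, 1, 1, 1, 1, 1, 0, 0⟩, ⟨-2, -3, -4, -6, -5, -4, -2, -1⟩, true, []⟩, ⟨⟨0, 0, 1, 0,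
   0, 0, 0, 0⟩, ⟨-2, -3, -4, -5, -4, -3, -2, -1⟩, true, []⟩, ⟨⟨0, 0, 0, 0, 1, 0, 0, 0⟩, ⟨-2, -3,
   -4, -6, -5, -3, -2, -1⟩, true, []⟩, ⟨⟨-1, 0, -1, -1, -1, -1, 0, 0⟩, ⟨-1, -3, -3, -5, -4, -3,
   -2, -1⟩, false, []⟩, ⟨⟨-1, 0, -1, -1, -1, -1, 0, 0⟩, ⟨-1, -3, -3, -5, -4, -3, -2, -1⟩, false,
   []⟩, ⟨⟨0, 0, 0, 1, 1, 1, 0, 0⟩, ⟨-2, -3, -4, -6, -5, -4, -2, -1⟩, true, []⟩, ⟨⟨1, 0, 1, 1, 0,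
   0, 0, 0⟩, ⟨-2, -3, -4, -6, -4, -3, -2, -1⟩, true, []⟩, ⟨⟨0, 0, 0, 1, 1, 1, 0, 0⟩, ⟨-2, -3, -4,
   -6, -5, -4, -2, -1⟩, true, []⟩, ⟨⟨1, 0, 1, 1, 0, 0, 0, 0⟩, ⟨-2, -3, -4, -6, -4, -3, -2, -1⟩,
   true, []⟩],
   .col [(0, false)] ⟨-19999, 7, 60049, -39657, 22401, 13, -19899, 997⟩,
   .ext [(⟨1, 0, 1, 1, 1, 1, 0, 0⟩, [(1, [1, 0, 0, 0])])],
   .col [(1, false), (0, true)] ⟨-19999, 7, 60049, -39657, 22401, 13, -19899, 997⟩,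
   .ext [(⟨0, 1, 1, 1, 1, 0, 0, 0⟩, [(1, [1, 0, 0, 0])])],
   .col [(1, false), (0, true)] ⟨-19999, 7, 60049, -39657, 22401, 13, -19899, 997⟩,
   .ext [(⟨1, 1, 2, 2, 2, 1, 0, 0⟩, [(-1, [2, 0, 0, 0])])],
   .col [(1, false), (0, true)] ⟨-19999, 7, 60049, -39657, 22401, 13, -19899, 997⟩,
   .ext [(⟨-1, -1, -1, -1, -1, -1, 0, 0⟩, [(1, [0, 1, 0, 0])])],
   .col [(0, false), (1, false), (0, true), (1, true)] ⟨-39999, -39993, 60049, -39657, 62401,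
   -39987, 20101, 997⟩,
   .ext [(⟨0, -1, 0, -1, 0, 0, 0, 0⟩, [(-1, [0, 1, 1, 1])])],
   .col [(1, false), (0, true)] ⟨-39999, -39993, 60049, -39657, 62401, -39987, 20101, 997⟩,
   .ext [(⟨0, 0, 0, 1, 0, 0, 0, 0⟩, [(1, [])])],
   .ext [(⟨0, 0, 0, -1, 0, 0, 0, 0⟩, [(1, [])])],
   .cat [(1, false), (0, false), (1, false)],
   .mon 0 [⟨⟨0, 0, 0, 1, 0, 0, 0, 0⟩, ⟨-2, -3, -4, -6, -4, -3, -2, -1⟩, false, []⟩],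
   .ext [(⟨0, 0, 1, 1, 1, 0, 0, 0⟩, [(1, [])])],
   .ext [(⟨0, 0, -1, -1, -1, 0, 0, 0⟩, [(1, [])])],
   .cat [(1, false), (0, false), (1, false)],
   .mon 0 [⟨⟨0, 0, 1, 1, 1, 0, 0, 0⟩, ⟨-2, -3, -4, -6, -5, -3, -2, -1⟩, false, []⟩],
   .ext [(⟨1, 0, 1, 1, 1, 1, 0, 0⟩, [(1, [])])],
   .ext [(⟨-1, 0, -1, -1, -1, -1, 0, 0⟩, [(1, [])])],
   .cat [(1, false), (0, false), (1, false)],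
   .mon 0 [⟨⟨1, 0, 1, 1, 1, 1, 0, 0⟩, ⟨-2, -3, -4, -6, -5, -4, -2, -1⟩, false, []⟩],
   .cnj [3, 2, 4] 9,
   .cat [(0, true)],
   .cnj [1, 4] 11,
   .cat [(0, true)],
   .swp 0 [0],
   .cnj [0, 1, 4, 3] 14,
   .swp 0 [0],
   .cnj [3] 16,
   .cat [(0, true)],
   .swp 0 [0],
   .cnj [2, 4] 19,
   .swp 0 [0],
   .cnj [3, 1, 4] 21,
   .cnj [0, 1, 3] 22,
   .cat [(0, true)],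
   .cnj [4, 3] 24]

end Pool.Agent.Lib.MP_cad414_al.Cg.XE.F4
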