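import Pool.Agent.Lib.MP_cad414_al.Cg.XD

/-! The common frame of the proofs for the folded groups. -/

namespace Pool.Agent.Lib.MP_cad414_al.Cg.XE

/-- The second variable does not occur. -/
def nocb (w : Word) : Bool := w.all fun l => l.2.all fun a => a.2.tail.headD 0 == 0

def no (_ : Word) : Bool := false

variable {K S : Type} [Field K] [Group S]

theorem evW_noc (X : R → K → S) (l c : K) (v : List K) : ∀ {w : Word}, nocb w = true →
    evW X (l :: c :: v) w = evW X (l :: 1 :: v) w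
  | [], _ => rfl
  | (r, f) :: w, h => by
    simp only [nocb, List.all_cons, Bool.and_eq_true] at h
    have : ∀ f : Poly, (f.all fun a => a.2.tail.headD 0 == 0) = true →
        evP (l :: c :: v) f = evP (l :: 1 :: v) f := by
      intro f
      induction f with
      | nil => intro; rfl
      | cons a f ih =>
        obtain ⟨d, m⟩ := a
        intro h
        simp only [List.all_cons, Bool.and_eq_true, beq_iff_eq] at h
        rw [evP, evP, ih (by simpa using h.2), evM_cons, evM_cons, evM_cons, evM_cons, h.1,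
          zpow_zero, zpow_zero]
    rw [evW, evW, this f h.1, evW_noc X l c v (w := w) h.2]

theorem no_ok {X : R → K → S} {v : List K} {L : Subgroup S} :
    ∀ w, no w = true → evW X v w ∈ L := fun _ h => by simp [no] at h

theorem ne_env {l c : K} {s : List K} (hv : ∀ a ∈ l :: s, a ≠ 0) (hc : c ≠ 0) :
    ∀ a ∈ l :: c :: s, a ≠ 0 := by
  simp only [List.forall_mem_cons] at hv ⊢
  exact ⟨hv.1, hc, hv.2⟩

/-- The checks that are common to all folded groups. -/
def frameb (p : Int) (nodes : List R) (M1 M2 : List ME) (y y2 : Word) : Bool :=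
  closedb (nwords p (M1 ++ M1)) && nodes.all (fixb p (M1 ++ M1)) && closedb (nwords p M1) &&
    closedb (nwords p M2) && actb p M1 (winv p y []) y2 && goodb y && nocb (y ++ y2)

variable {G : Type} [Group G] [IsSimpleGroup G]

theorem frame {X : R → K → S} (hX : StR X) {p : Int} (hp : (p : K) = 0) (hG : NA G)
    {A : Subgroup S} (h : Img G A) {M1 M2 : List ME} {nodes : List R} {y y2 : Word}
    (hc : frameb p nodes M1 M2 y y2 = true) {l : K} {s : List K} (hv : ∀ a ∈ l :: s, a ≠ 0)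
    (hA : ∀ z : S, (∀ r ∈ nodes, ∀ s, Commute z (X r s)) → ∀ g ∈ A, Commute z g)
    {c2 c3 : S} (m1 : evW X [] (nwords p M1) ∈ A) (n2 : c2 ∈ A) (n3 : c3 ∈ A)
    (e2 : evW X [] (nwords p M2) = c2 * evW X [] (nwords p M1) * c2⁻¹)
    (e3 : evW X (l :: 1 :: s) y * evW X [] (nwords p M1) * (evW X (l :: 1 :: s) y)⁻¹ =
      c3 * evW X [] (nwords p M1) * c3⁻¹)
    (hL : ∀ L : Subgroup S, evW X [] (nwords p M1) ∈ L → evW X [] (nwords p M2) ∈ L →
      evW X (l :: 1 :: s) (y ++ y2) ∈ L →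
      (∀ c, c ≠ 0 → ∀ w ∈ [y ++ y2, nwords p M2, nwords p M1], evW X (l :: c :: s) w ∈ L) →
        A ≤ L) : 3 ∈ GenSizes G := by
  simp only [frameb, Bool.and_eq_true] at hc
  obtain ⟨⟨⟨⟨⟨⟨c1, c2'⟩, c3'⟩, c4⟩, c5⟩, c6⟩, c7⟩ := hc
  have hv1 := ne_env hv one_ne_zero
  refine three_of hX hp hG h M1 nodes c1 c2' hA m1 n2 n3 fun L l1 l2 l3 => ?_
  have l4 : evW X (l :: 1 :: s) (y ++ y2) ∈ L := by
    rw [evW_append, actb_ok hX hv1 hp c5, evW_winv hX hv1 hp c6, evW_closed X _ c3',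
      ← mul_assoc, ← mul_assoc, e3]
    exact mul_mem l3 (inv_mem l1)
  refine hL L l1 (e2 ▸ l2) l4 fun c _ => ?_
  simp only [List.forall_mem_cons]
  exact ⟨evW_noc X l c s c7 ▸ l4, by rw [evW_closed X _ c4, e2]; exact l2,
    by rw [evW_closed X _ c3']; exact l1, by simp⟩

/-- The frame when all conjugating elements come from a certificate. -/
theorem fold_frame {x : (Fin 8 → ℤ) → K → S} (hx : St x) {θ : RingAut K} {p : Int}
    (hp : (p : K) = 0) (hG : NA G) {O : List (List (Fin 8))} (h : Img G (Fold x θ O))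
    {M1 Mg M2 : List ME} {y y2 : Word} {τ : Mono → Mono} {p0 : List Ins}
    (hc : (frameb p (orbs O).flatten M1 M2 y y2 && closedb (nwords p Mg) &&
      actb p Mg (nwords p M1) (nwords p M2) &&
      check p (okF p τ (orbs O)) [] p0 [nwords p M1, nwords p Mg, y]) = true)
    {l : K} {s : List K} (hv : ∀ a ∈ l :: s, a ≠ 0)
    (hτ : ∀ m, evM (l :: 1 :: s) (τ m) = (θ : K →+* K) (evM (l :: 1 :: s) m))
    (hL : ∀ L : Subgroup S, (∀ c, c ≠ 0 → ∀ w ∈ [y ++ y2, nwords p M2, nwords p M1],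
      evW (fun r t => x r.v t) (l :: c :: s) w ∈ L) → Fold x θ O ≤ L) : 3 ∈ GenSizes G := by
  simp only [Bool.and_eq_true] at hc
  obtain ⟨⟨⟨c1, c2⟩, c3⟩, c4⟩ := hc
  have hX := stR hx
  have c5 := c1
  simp only [frameb, Bool.and_eq_true] at c5
  have k := check_ok hX (ne_env hv one_ne_zero) hp (okF_ok hp hτ (fold_le.1 le_rfl)) c4 (by simp)
  simp only [List.forall_mem_cons] at k
  rw [evW_closed _ _ c5.1.1.1.1.2, evW_closed _ _ c2] at k
  exact frame hX hp hG h c1 hv fold_comm k.1 k.2.1 k.2.2.1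
    (actb_ok hX (by simp) hp c3) rfl fun L _ _ _ => hL L

theorem split_three [Finite K] (hG : NA G) {x : (Fin 8 → ℤ) → K → S} (hx : St x) {θ : RingAut K}
    (hθ : θ ^ 1 = 1) {O : List (List (Fin 8))} (h : Img G (Fold x θ O)) (M1 Mg M2 : List ME)
    (r r0 : R) (y2 : Word) (e k j : ℕ) (outs : List (R × ℕ)) (p0 p1 p2 : List Ins)
    (hc : ((frameb 0 (orbs O).flatten M1 M2 [(r, [(1, [1, 0])])] y2 && closedb (nwords 0 Mg) &&
      actb 0 Mg (nwords 0 M1) (nwords 0 M2) &&
      check 0 (okF 0 id (orbs O)) [] p0 [nwords 0 M1, nwords 0 Mg, [(r, [(1, [1, 0])])]]) &&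
      check 0 no [[(r, [(1, [1, 0])])] ++ y2, nwords 0 M2, nwords 0 M1] p1
        [[(r0, [(1, [(e : Int), 0])])]] &&
      check 0 no [[(r0, [(1, [0, 1])])], [(r, [(1, [1, 0])])] ++ y2, nwords 0 M2, nwords 0 M1] p2
        (lw 0 (r0, k) :: lw 0 (r0, k + j) :: outs.map (lw 0)) && r0.ip r0 == 2 &&
      outs.all fun o => o.1.ip o.1 == 2) = true)
    (hj : j = 1 ∨ j = 2) (ho : orbs O = outs.map fun o => [o.1]) : 3 ∈ GenSizes G := by
  rw [pow_one] at hθ
  subst hθ
  rw [Bool.and_eq_true, Bool.and_eq_true, Bool.and_eq_true, Bool.and_eq_true, beq_iff_eq] at hc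
  obtain ⟨⟨⟨⟨c0, c2⟩, c3⟩, c4⟩, c5⟩ := hc
  obtain ⟨l, l0, l1, l2⟩ := exists_gen (1 : RingAut K)
  have hX := stR hx
  have hv : ∀ a ∈ [l], a ≠ 0 := by simpa using l0
  refine fold_frame hx (p := 0) Int.cast_zero hG h c0 hv (fun _ => rfl)
    fun L hL => fold_le.2 ?_
  rw [ho]
  have k1 := check_ok hX (ne_env hv one_ne_zero) Int.cast_zero no_ok c2 (hL 1 one_ne_zero) _
    List.mem_cons_self
  refine long_full hX l0 l1 l2 c4 (pow_ne_zero e l0) rfl (by simpa [evW, evP, evM] using k1) hj c5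
    (v := []) fun c hc hm => check_ok hX (ne_env hv hc) Int.cast_zero no_ok c3 ?_
  rw [List.forall_mem_cons]
  exact ⟨by simpa [evW, evP, evM] using hm, hL c hc⟩

end Pool.Agent.Lib.MP_cad414_al.Cg.XE
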