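import Pool.Agent.Lib.MP_cad414_al.Cg.XG

/-! Certificates for the groups of type `G2` and `3D4`. -/

namespace Pool.Agent.Lib.MP_cad414_al.Cg.XE.G2

def Ms : List ME :=
  [⟨⟨0, -1, 0, 0, 0, 0, 0, 0⟩, ⟨-2, -2, -4, -5, -4, -3, -2, -1⟩, false, []⟩, ⟨⟨0, 0, -1, 0, 0, 0,
  0, 0⟩, ⟨-2, -3, -3, -5, -4, -3, -2, -1⟩, false, []⟩, ⟨⟨0, 0, 0, 0, -1, 0, 0, 0⟩, ⟨-2, -3, -4,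
  -6, -4, -3, -2, -1⟩, false, []⟩, ⟨⟨0, 0, 0, 1, 0, 0, 0, 0⟩, ⟨-2, -3, -4, -6, -4, -3, -2, -1⟩,
  false, []⟩, ⟨⟨0, 0, 0, 1, 0, 0, 0, 0⟩, ⟨-2, -3, -4, -6, -4, -3, -2, -1⟩, false, []⟩]

def s1 : List Ins :=
  [.mon 1 [⟨⟨0, -1, 0, 0, 0, 0, 0, 0⟩, ⟨-2, -2, -4, -5, -4, -3, -2, -1⟩, false, []⟩, ⟨⟨0, 0, -1,
   0, 0, 0, 0, 0⟩, ⟨-2, -3, -3, -5, -4, -3, -2, -1⟩, false, []⟩, ⟨⟨0, 0, 0, 0, -1, 0, 0, 0⟩, ⟨-2,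
   -3, -4, -6, -4, -3, -2, -1⟩, false, []⟩, ⟨⟨0, 0, 0, 1, 0, 0, 0, 0⟩, ⟨-2, -3, -4, -6, -4, -3,
   -2, -1⟩, false, []⟩, ⟨⟨0, 0, 0, 1, 0, 0, 0, 0⟩, ⟨-2, -3, -4, -6, -4, -3, -2, -1⟩, false, []⟩],
   .ext [(⟨0, 0, 0, 1, 0, 0, 0, 0⟩, [(1, [])])],
   .ext [(⟨0, 0, 0, -1, 0, 0, 0, 0⟩, [(1, [])])],
   .cat [(1, false), (0, false), (1, false)],
   .mon 0 [⟨⟨0, 0, 0, 1, 0, 0, 0, 0⟩, ⟨-2, -3, -4, -6, -4, -3, -2, -1⟩, false, []⟩],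
   .ext [(⟨0, 0, 0, 1, 0, 0, 0, 0⟩, [(1, [0, -1, 0, 0, 0])])],
   .ext [(⟨0, 0, 0, -1, 0, 0, 0, 0⟩, [(1, [0, 1, 0, 0, 0])])],
   .cat [(1, false), (0, false), (1, false)],
   .mon 0 [⟨⟨0, 0, 0, 1, 0, 0, 0, 0⟩, ⟨-2, -3, -4, -6, -4, -3, -2, -1⟩, false, [0, -1, 0, 0, 0]⟩],
   .ext [(⟨0, 0, 0, 1, 0, 0, 0, 0⟩, [(-1, [])])],
   .ext [(⟨0, 0, 0, -1, 0, 0, 0, 0⟩, [(-1, [])])],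
   .cat [(1, false), (0, false), (1, false)],
   .mon 0 [⟨⟨0, 0, 0, 1, 0, 0, 0, 0⟩, ⟨-2, -3, -4, -6, -4, -3, -2, -1⟩, true, []⟩],
   .cnj [1, 0] 9,
   .cnj [3] 10,
   .cat [(0, true)],
   .swp 0 [1, 0, 1],
   .ext [(⟨0, 0, 0, 1, 0, 0, 0, 0⟩, [(1, [0, 0, 0, 0, 0])])],
   .col [(14, false), (0, false), (14, true), (0, true)] ⟨-59999, 20007, 20049, 20343, 22401,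
   -59987, 101, 997⟩,
   .ext [(⟨0, 1, 1, 1, 1, 0, 0, 0⟩, [(-1, [0, 0, 1, 1, 1])])],
   .col [(1, false), (0, true)] ⟨-59999, 20007, 20049, 20343, 22401, -59987, 101, 997⟩,
   .ext [(⟨0, 1, 1, 2, 1, 0, 0, 0⟩, [(2, [0, 0, 1, 1, 1])])],
   .col [(1, false), (0, true)] ⟨-59999, 20007, 20049, 20343, 22401, -59987, 101, 997⟩,
   .cnj [2] 19,
   .col [(1, false), (0, false)] ⟨-59999, 20007, 20049, 20343, 22401, -59987, 101, 997⟩,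
   .ext [(⟨0, 1, 1, 2, 1, 0, 0, 0⟩, [(-3, [0, 0, 1, 1, 1])])],
   .col [(1, false), (0, true)] ⟨-59999, 20007, 20049, 20343, 22401, -59987, 101, 997⟩,
   .cnj [2, 3] 0,
   .swp 0 [1, 0, 1]]

def Mm : List ME :=
  [⟨⟨0, 1, 0, 0, 0, 0, 0, 0⟩, ⟨-2, -3, -4, -5, -4, -3, -2, -1⟩, false, []⟩, ⟨⟨0, 0, 1, 0, 0, 0,
  0, 0⟩, ⟨-2, -3, -4, -5, -4, -3, -2, -1⟩, false, []⟩, ⟨⟨0, 0, 0, 0, 1, 0, 0, 0⟩, ⟨-2, -3, -4,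
  -6, -5, -3, -2, -1⟩, false, []⟩]

def Mh : List ME :=
  [⟨⟨0, 0, 0, 1, 0, 0, 0, 0⟩, ⟨-2, -3, -4, -6, -4, -3, -2, -1⟩, false, []⟩, ⟨⟨0, 0, 0, 1, 0, 0,
  0, 0⟩, ⟨-2, -3, -4, -6, -4, -3, -2, -1⟩, false, []⟩]

def Mh2 : List ME :=
  [⟨⟨0, 1, 1, 1, 1, 0, 0, 0⟩, ⟨-2, -3, -4, -6, -5, -3, -2, -1⟩, true, []⟩, ⟨⟨0, 1, 1, 1, 1, 0, 0,
  0⟩, ⟨-2, -3, -4, -6, -5, -3, -2, -1⟩, true, []⟩]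

def Mb : List ME :=
  [⟨⟨0, 0, 0, -1, 0, 0, 0, 0⟩, ⟨-2, -3, -4, -5, -4, -3, -2, -1⟩, false, []⟩]

def Ma : List ME :=
  [⟨⟨0, -1, 0, 0, 0, 0, 0, 0⟩, ⟨-2, -2, -4, -5, -4, -3, -2, -1⟩, false, []⟩, ⟨⟨0, 0, -1, 0, 0, 0,
  0, 0⟩, ⟨-2, -3, -3, -5, -4, -3, -2, -1⟩, false, []⟩, ⟨⟨0, 0, 0, 0, -1, 0, 0, 0⟩, ⟨-2, -3, -4,
  -6, -4, -3, -2, -1⟩, false, []⟩]

def yo : Word :=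
  [(⟨0, 0, 1, 1, 1, 0, 0, 0⟩, [(1, [0, 0, 1, 0, 0])]), (⟨0, 1, 0, 1, 1, 0, 0, 0⟩, [(1, [0, 0, 0,
  1, 0])]), (⟨0, 1, 1, 1, 0, 0, 0, 0⟩, [(1, [0, 0, 0, 0, 1])]), (⟨0, 1, 1, 1, 1, 0, 0, 0⟩, [(1,
  [1, 0, 0, 0, 0])])]

def yo2 : Word :=
  [(⟨0, 1, 1, 2, 1, 0, 0, 0⟩, [(1, [1, 0, 0, 0, 0])]), (⟨0, 1, 1, 1, 0, 0, 0, 0⟩, [(1, [0, 0, 0,
  0, 1])]), (⟨0, 1, 0, 1, 1, 0, 0, 0⟩, [(1, [0, 0, 0, 1, 0])]), (⟨0, 0, 1, 1, 1, 0, 0, 0⟩, [(1,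
  [0, 0, 1, 0, 0])])]

def ro : R :=
  ⟨0, 1, 1, 2, 1, 0, 0, 0⟩

def ko : ℕ := 0
def jo : ℕ := 1

def outso : List (R × ℕ) :=
  [(⟨0, -1, -1, -2, -1, 0, 0, 0⟩, 2), (⟨0, -1, -1, -1, -1, 0, 0, 0⟩, 2), (⟨0, 0, 0, -1, 0, 0, 0,
  0⟩, 1), (⟨0, 0, 0, 1, 0, 0, 0, 0⟩, 1), (⟨0, 1, 1, 1, 1, 0, 0, 0⟩, 0), (⟨0, 1, 1, 2, 1, 0, 0,
  0⟩, 0)]

def q0 : List Ins :=
  [.ext [(⟨0, 1, 0, 0, 0, 0, 0, 0⟩, [(1, [])]), (⟨0, 0, 1, 0, 0, 0, 0, 0⟩, [(1, [])]), (⟨0, 0, 0,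
   0, 1, 0, 0, 0⟩, [(1, [])])],
   .ext [(⟨0, -1, 0, 0, 0, 0, 0, 0⟩, [(1, [])]), (⟨0, 0, -1, 0, 0, 0, 0, 0⟩, [(1, [])]), (⟨0, 0,
   0, 0, -1, 0, 0, 0⟩, [(1, [])])],
   .cat [(1, false), (0, false), (1, false)],
   .swp 0 [2, 1, 5, 4, 3, 2, 4, 6, 5],
   .ext [(⟨0, 0, 0, 1, 0, 0, 0, 0⟩, [(1, [])])],
   .ext [(⟨0, 0, 0, -1, 0, 0, 0, 0⟩, [(1, [])])],
   .cat [(1, false), (0, false), (1, false)],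
   .mon 3 [⟨⟨0, 1, 0, 0, 0, 0, 0, 0⟩, ⟨-2, -3, -4, -5, -4, -3, -2, -1⟩, false, []⟩, ⟨⟨0, 0, 1, 0,
   0, 0, 0, 0⟩, ⟨-2, -3, -4, -5, -4, -3, -2, -1⟩, false, []⟩, ⟨⟨0, 0, 0, 0, 1, 0, 0, 0⟩, ⟨-2, -3,
   -4, -6, -5, -3, -2, -1⟩, false, []⟩],
   .mon 0 [⟨⟨0, 0, 0, 1, 0, 0, 0, 0⟩, ⟨-2, -3, -4, -6, -4, -3, -2, -1⟩, false, []⟩],
   .cat [(1, false), (2, false), (1, false)],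
   .cat [(1, false), (1, false)],
   .cnj [1] 0,
   .cat [(2, false), (0, false)],
   .ext [(⟨0, 1, 0, 0, 0, 0, 0, 0⟩, [(1, [0, 0, 1, 0, 0])]), (⟨0, 0, 1, 0, 0, 0, 0, 0⟩, [(1, [0,
   0, 0, 1, 0])]), (⟨0, 0, 0, 0, 1, 0, 0, 0⟩, [(1, [0, 0, 0, 0, 1])])],
   .cnj [1, 0] 0,
   .ext [(⟨0, 0, 0, 1, 0, 0, 0, 0⟩, [(1, [1, 0, 0, 0, 0])])],
   .cnj [1] 0,
   .cat [(0, true)],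
   .cat [(3, false), (0, false)]]

def q1 : List Ins :=
  [.mon 1 [⟨⟨0, -1, 0, 0, 0, 0, 0, 0⟩, ⟨-2, -2, -4, -5, -4, -3, -2, -1⟩, false, []⟩, ⟨⟨0, 0, -1,
   0, 0, 0, 0, 0⟩, ⟨-2, -3, -3, -5, -4, -3, -2, -1⟩, false, []⟩, ⟨⟨0, 0, 0, 0, -1, 0, 0, 0⟩, ⟨-2,
   -3, -4, -6, -4, -3, -2, -1⟩, false, []⟩, ⟨⟨0, 0, 0, 1, 0, 0, 0, 0⟩, ⟨-2, -3, -4, -6, -4, -3,
   -2, -1⟩, false, []⟩, ⟨⟨0, 0, 0, 1, 0, 0, 0, 0⟩, ⟨-2, -3, -4, -6, -4, -3, -2, -1⟩, false, []⟩],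
   .cnj [0] 0,
   .col [(1, false), (0, false), (1, true), (0, true)] ⟨-19999, 7, 49, 20343, 2401, -19987, 101,
   997⟩]

def q2 : List Ins :=
  [.mon 3 [⟨⟨0, 0, 0, -1, 0, 0, 0, 0⟩, ⟨-2, -3, -4, -5, -4, -3, -2, -1⟩, false, []⟩, ⟨⟨0, 1, 1,
   1, 1, 0, 0, 0⟩, ⟨-2, -3, -4, -6, -5, -3, -2, -1⟩, true, []⟩, ⟨⟨0, 1, 1, 1, 1, 0, 0, 0⟩, ⟨-2,
   -3, -4, -6, -5, -3, -2, -1⟩, true, []⟩],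
   .mon 2 [⟨⟨0, -1, 0, 0, 0, 0, 0, 0⟩, ⟨-2, -2, -4, -5, -4, -3, -2, -1⟩, false, []⟩, ⟨⟨0, 0, -1,
   0, 0, 0, 0, 0⟩, ⟨-2, -3, -3, -5, -4, -3, -2, -1⟩, false, []⟩, ⟨⟨0, 0, 0, 0, -1, 0, 0, 0⟩, ⟨-2,
   -3, -4, -6, -4, -3, -2, -1⟩, false, []⟩, ⟨⟨0, 0, 0, 1, 0, 0, 0, 0⟩, ⟨-2, -3, -4, -6, -4, -3,
   -2, -1⟩, false, []⟩, ⟨⟨0, 0, 0, 1, 0, 0, 0, 0⟩, ⟨-2, -3, -4, -6, -4, -3, -2, -1⟩, false, []⟩],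
   .cnj [1] 0,
   .cnj [0] 2,
   .col [(1, false), (0, false), (1, true), (0, true)] ⟨-19999, 7, 49, 20343, 2401, -19987, 101,
   997⟩,
   .cnj [1, 0, 1, 0] 4,
   .col [(3, false), (0, false), (3, true), (0, true)] ⟨1, 20007, 20049, -39657, 22401, 13, 101,
   997⟩,
   .cnj [0, 1, 0, 1, 0] 6,
   .col [(1, false), (0, false), (1, true), (0, true)] ⟨20001, 7, 49, -19657, 2401, 20013, 101,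
   997⟩,
   .cnj [0, 1, 0] 8,
   .col [(8, false), (0, false), (8, true), (0, true)] ⟨1, -19993, -19951, 60343, -57599, 20013,
   101, 997⟩,
   .col [(0, false), (3, false), (0, true), (3, true)] ⟨20001, -19993, -19951, 20343, -17599,
   20013, 101, 997⟩,
   .cat [(1, true)],
   .cat [(10, true)]]

def q3 : List Ins :=
  [.mon 2 [⟨⟨0, 0, 0, -1, 0, 0, 0, 0⟩, ⟨-2, -3, -4, -5, -4, -3, -2, -1⟩, false, []⟩, ⟨⟨0, 1, 1,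
   1, 1, 0, 0, 0⟩, ⟨-2, -3, -4, -6, -5, -3, -2, -1⟩, true, []⟩, ⟨⟨0, 1, 1, 1, 1, 0, 0, 0⟩, ⟨-2,
   -3, -4, -6, -5, -3, -2, -1⟩, true, []⟩],
   .mon 1 [⟨⟨0, -1, 0, 0, 0, 0, 0, 0⟩, ⟨-2, -2, -4, -5, -4, -3, -2, -1⟩, false, []⟩, ⟨⟨0, 0, -1,
   0, 0, 0, 0, 0⟩, ⟨-2, -3, -3, -5, -4, -3, -2, -1⟩, false, []⟩, ⟨⟨0, 0, 0, 0, -1, 0, 0, 0⟩, ⟨-2,
   -3, -4, -6, -4, -3, -2, -1⟩, false, []⟩, ⟨⟨0, 0, 0, 1, 0, 0, 0, 0⟩, ⟨-2, -3, -4, -6, -4, -3,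
   -2, -1⟩, false, []⟩, ⟨⟨0, 0, 0, 1, 0, 0, 0, 0⟩, ⟨-2, -3, -4, -6, -4, -3, -2, -1⟩, false, []⟩],
   .col [(0, false)] ⟨-19999, 7, 49, 20343, 2401, -19987, 101, 997⟩,
   .ext [(⟨0, 1, 1, 1, 1, 0, 0, 0⟩, [(1, [1, 0, 0, 0, 0])])],
   .col [(1, false), (0, true)] ⟨-19999, 7, 49, 20343, 2401, -19987, 101, 997⟩,
   .ext [(⟨0, 1, 1, 2, 1, 0, 0, 0⟩, [(1, [1, 0, 0, 0, 0])])],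
   .col [(1, false), (0, true)] ⟨-19999, 7, 49, 20343, 2401, -19987, 101, 997⟩,
   .cnj [1, 0] 0,
   .swp 0 [1, 0, 1]]

def swa : List Nat :=
  [2, 1, 5, 4, 3, 2, 4, 6, 5]

def Me2 : List ME :=
  [⟨⟨0, -1, 0, -1, 0, 0, 0, 0⟩, ⟨-2, -2, -4, -5, -4, -3, -2, -1⟩, false, []⟩, ⟨⟨0, 0, -1, -1, 0,
  0, 0, 0⟩, ⟨-2, -3, -3, -5, -4, -3, -2, -1⟩, false, []⟩, ⟨⟨0, 0, 0, -1, -1, 0, 0, 0⟩, ⟨-2, -3,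
  -4, -5, -4, -3, -2, -1⟩, false, []⟩, ⟨⟨0, 0, 0, -1, 0, 0, 0, 0⟩, ⟨-2, -3, -4, -5, -4, -3, -2,
  -1⟩, false, []⟩, ⟨⟨0, 0, 0, -1, 0, 0, 0, 0⟩, ⟨-2, -3, -4, -5, -4, -3, -2, -1⟩, false, []⟩]

def Meg : List ME :=
  [⟨⟨0, 0, 0, 1, 0, 0, 0, 0⟩, ⟨-2, -3, -4, -6, -4, -3, -2, -1⟩, false, []⟩]

def ye : Word :=
  [(⟨0, 1, 0, 1, 0, 0, 0, 0⟩, [(1, [0, 0, 1, 0, 0])]), (⟨0, 0, 1, 1, 0, 0, 0, 0⟩, [(1, [0, 0, 0,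
  1, 0])]), (⟨0, 0, 0, 1, 1, 0, 0, 0⟩, [(1, [0, 0, 0, 0, 1])]), (⟨0, 0, 0, 1, 0, 0, 0, 0⟩, [(1,
  [0, 0, 0, 0, 0])])]

def ye2 : Word :=
  [(⟨0, 1, 1, 1, 1, 0, 0, 0⟩, [(1, [0, 0, 0, 0, 0])]), (⟨0, 1, 1, 1, 0, 0, 0, 0⟩, [(1, [0, 0, 0,
  0, 1])]), (⟨0, 1, 0, 1, 1, 0, 0, 0⟩, [(1, [0, 0, 0, 1, 0])]), (⟨0, 0, 1, 1, 1, 0, 0, 0⟩, [(1,
  [0, 0, 1, 0, 0])])]

def re : R :=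
  ⟨0, 1, 1, 2, 1, 0, 0, 0⟩

def ke : ℕ := 0
def je : ℕ := 1

def outse : List (R × ℕ) :=
  [(⟨0, -1, -1, -2, -1, 0, 0, 0⟩, 1), (⟨0, -1, -1, -1, -1, 0, 0, 0⟩, 0), (⟨0, 0, 0, -1, 0, 0, 0,
  0⟩, 0), (⟨0, 0, 0, 1, 0, 0, 0, 0⟩, 1), (⟨0, 1, 1, 1, 1, 0, 0, 0⟩, 1), (⟨0, 1, 1, 2, 1, 0, 0,
  0⟩, 0)]

def e0 : List Ins :=
  [.ext [(⟨0, 1, 0, 0, 0, 0, 0, 0⟩, [(1, [])]), (⟨0, 0, 1, 0, 0, 0, 0, 0⟩, [(1, [])]), (⟨0, 0, 0,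
   0, 1, 0, 0, 0⟩, [(1, [])])],
   .ext [(⟨0, -1, 0, 0, 0, 0, 0, 0⟩, [(1, [])]), (⟨0, 0, -1, 0, 0, 0, 0, 0⟩, [(1, [])]), (⟨0, 0,
   0, 0, -1, 0, 0, 0⟩, [(1, [])])],
   .ext [(⟨0, 0, 0, 1, 0, 0, 0, 0⟩, [(1, [])])],
   .ext [(⟨0, 0, 0, -1, 0, 0, 0, 0⟩, [(1, [])])],
   .cat [(1, false), (0, false), (1, false)],
   .cat [(3, false), (4, false), (3, false)],
   .swp 0 [2, 1, 5, 4, 3, 2, 4, 6, 5],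
   .mon 2 [⟨⟨0, 0, 0, 1, 0, 0, 0, 0⟩, ⟨-2, -3, -4, -6, -4, -3, -2, -1⟩, false, []⟩],
   .cat [(0, false), (2, false), (2, false)],
   .ext [(⟨0, 1, 0, 0, 0, 0, 0, 0⟩, [(1, [0, 0, 1, 0, 0])]), (⟨0, 0, 1, 0, 0, 0, 0, 0⟩, [(1, [0,
   0, 0, 1, 0])]), (⟨0, 0, 0, 0, 1, 0, 0, 0⟩, [(1, [0, 0, 0, 0, 1])])],
   .cnj [0] 0,
   .ext [(⟨0, 0, 0, 1, 0, 0, 0, 0⟩, [(1, [0, 0, 0, 0, 0])])],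
   .cat [(1, false), (0, false)]]

def e1 : List Ins :=
  [.col [(0, false), (0, false)] ⟨-39999, 7, 49, 40343, 2401, -39987, 101, 997⟩]

def e2 : List Ins :=
  [.mon 4 [⟨⟨0, -1, 0, 0, 0, 0, 0, 0⟩, ⟨-2, -2, -4, -5, -4, -3, -2, -1⟩, false, []⟩, ⟨⟨0, 0, -1,
   0, 0, 0, 0, 0⟩, ⟨-2, -3, -3, -5, -4, -3, -2, -1⟩, false, []⟩, ⟨⟨0, 0, 0, 0, -1, 0, 0, 0⟩, ⟨-2,
   -3, -4, -6, -4, -3, -2, -1⟩, false, []⟩, ⟨⟨0, 0, 0, 1, 0, 0, 0, 0⟩, ⟨-2, -3, -4, -6, -4, -3,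
   -2, -1⟩, false, []⟩, ⟨⟨0, 0, 0, 1, 0, 0, 0, 0⟩, ⟨-2, -3, -4, -6, -4, -3, -2, -1⟩, false, []⟩],
   .mon 3 [⟨⟨0, -1, 0, -1, 0, 0, 0, 0⟩, ⟨-2, -2, -4, -5, -4, -3, -2, -1⟩, false, []⟩, ⟨⟨0, 0, -1,
   -1, 0, 0, 0, 0⟩, ⟨-2, -3, -3, -5, -4, -3, -2, -1⟩, false, []⟩, ⟨⟨0, 0, 0, -1, -1, 0, 0, 0⟩,
   ⟨-2, -3, -4, -5, -4, -3, -2, -1⟩, false, []⟩, ⟨⟨0, 0, 0, -1, 0, 0, 0, 0⟩, ⟨-2, -3, -4, -5, -4,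
   -3, -2, -1⟩, false, []⟩, ⟨⟨0, 0, 0, -1, 0, 0, 0, 0⟩, ⟨-2, -3, -4, -5, -4, -3, -2, -1⟩, false,
   []⟩],
   .cnj [0] 1,
   .col [(1, false), (0, false), (1, true), (0, true)] ⟨-19999, 20007, 20049, -19657, 22401,
   -19987, 101, 997⟩,
   .col [(0, false), (4, false), (0, true), (4, true)] ⟨-39999, 7, 49, 40343, 2401, -39987, 101,
   997⟩,
   .cnj [0] 3,
   .cnj [1, 0] 5,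
   .col [(1, false), (0, false), (1, true), (0, true)] ⟨20001, 7, 49, -19657, 2401, 20013, 101,
   997⟩,
   .cnj [1] 2,
   .col [(7, false), (2, false), (7, true), (2, true)] ⟨1, -19993, -19951, 40343, -17599, 13,
   101, 997⟩]

def e3 : List Ins :=
  [.col [(0, false)] ⟨0, 71, 72, 6300, 74, 0, 0, 0⟩,
   .ext [(⟨0, 0, 0, 1, 0, 0, 0, 0⟩, [(1, [0, 0, 0, 0, 0])])],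
   .col [(1, false), (0, true)] ⟨0, 71, 72, 6300, 74, 0, 0, 0⟩,
   .ext [(⟨0, 1, 1, 1, 1, 0, 0, 0⟩, [(1, [0, 0, 0, 0, 0])])],
   .col [(1, false), (0, true)] ⟨0, 71, 72, 6300, 74, 0, 0, 0⟩,
   .ext [(⟨0, 1, 1, 2, 1, 0, 0, 0⟩, [(1, [0, 0, 0, 0, 0])])],
   .col [(1, false), (0, true)] ⟨0, 71, 72, 6300, 74, 0, 0, 0⟩,
   .ext [(⟨0, 0, 0, 1, 0, 0, 0, 0⟩, [(1, [])])],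
   .ext [(⟨0, 0, 0, -1, 0, 0, 0, 0⟩, [(1, [])])],
   .cat [(1, false), (0, false), (1, false)],
   .mon 0 [⟨⟨0, 0, 0, 1, 0, 0, 0, 0⟩, ⟨-2, -3, -4, -6, -4, -3, -2, -1⟩, false, []⟩],
   .ext [(⟨0, 1, 1, 1, 1, 0, 0, 0⟩, [(1, [])])],
   .ext [(⟨0, -1, -1, -1, -1, 0, 0, 0⟩, [(1, [])])],
   .cat [(1, false), (0, false), (1, false)],
   .mon 0 [⟨⟨0, 1, 1, 1, 1, 0, 0, 0⟩, ⟨-2, -3, -4, -6, -5, -3, -2, -1⟩, false, []⟩],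
   .ext [(⟨0, -1, -1, -1, -1, 0, 0, 0⟩, [(1, [0, 0, 0, 0, 0])])],
   .col [(0, false), (7, false), (0, true), (7, true)] ⟨0, -5929, -5928, 15300, -5926, 0, 0, 0⟩,
   .ext [(⟨0, 1, 1, 2, 1, 0, 0, 0⟩, [(1, [0, 0, 1, 1, 1])])],
   .col [(1, false), (0, true)] ⟨0, -5929, -5928, 15300, -5926, 0, 0, 0⟩,
   .ext [(⟨0, 0, 0, 1, 0, 0, 0, 0⟩, [(1, [0, 0, 0, 0, 2]), (1, [0, 0, 0, 2, 0]), (1, [0, 0, 1, 1,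
   1]), (1, [0, 0, 2, 0, 0])])],
   .col [(1, false), (0, true)] ⟨0, -5929, -5928, 15300, -5926, 0, 0, 0⟩,
   .cnj [0] 12,
   .col [(1, false), (0, true)] ⟨0, -5929, -5928, 15300, -5926, 0, 0, 0⟩,
   .ext [(⟨0, 0, 0, 1, 0, 0, 0, 0⟩, [(1, [0, 0, 1, 1, 1])])],
   .col [(1, false), (0, true)] ⟨0, -5929, -5928, 15300, -5926, 0, 0, 0⟩,
   .cnj [1] 0]

end Pool.Agent.Lib.MP_cad414_al.Cg.XE.G2
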