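import Pool.Agent.Lib.MP_cad414_al.Cg.XRc

/-! The large Ree groups: root elements and the subgroup of index at most two. -/

namespace Pool.Agent.Lib.MP_cad414_al.Cg.XE.RF

def τ (m : Mono) : Mono :=
  if m.isEmpty then [] else
    [2 * m.tail.headD 0, m.headD 0, 2 * m.tail.tail.tail.headD 0, m.tail.tail.headD 0]

def okT (T : List (R × R × R)) : Word → Bool
  | [(r, f), (r', f'), (s, g)] =>
    T.any (fun o => r.eqb o.1 && (r'.eqb o.2.1 && s.eqb o.2.2)) &&
      (peqb f' f && peqb g (sigP 2 τ f))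
  | _ => false

def wt (o : R × R × R) (m : Mono) : Word :=
  [(o.1, [(1, m)]), (o.2.1, [(1, m)]), (o.2.2, [(1, τ m)])]

def gw (e : ℤ) (m : Mono) : Word := [(sr 1 e, [(1, τ m)]), (sr 0 e, [(1, m)]), (sr 5 e, [(1, m)])]

def vw (e : ℤ) (m : Mono) : Word :=
  [(sr 2 e, [(1, m)]), (sr 4 e, [(1, m)]), (sr 3 e, [(1, τ m)]),
    ((sr 2 e).add (sr 3 e), [(1, madd (τ m) m)]), ((sr 3 e).add (sr 4 e), [(1, madd (τ m) m)])]

def tk (k : ℕ) : R × R × R := tm.getD k (sr 0 0, sr 0 0, sr 0 0)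

def comb (φ : R) (a b z : Word) : Bool :=
  goodb a && goodb b && colb 2 φ (a ++ (b ++ winv 2 a (winv 2 b []))) z

def gs : List Word :=
  [wt (tk 8) [], wt (tk 12) [], wt (tk 9) [], wt (tk 13) [], wt (tk 3) [0, 0, 1, 0]]

def nk (i : ℕ) : R × Word := nm.getD i (sr 0 0, [])

variable {K S : Type} [Field K] [Group S]

def WT (X : R → K → S) (φ : K →+* K) (o : R × R × R) (t : K) : S :=
  X o.1 t * (X o.2.1 t * X o.2.2 (φ t))

def GT (X : R → K → S) (φ : K →+* K) (e : ℤ) (t : K) : S :=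
  X (sr 1 e) (φ t) * (X (sr 0 e) t * X (sr 5 e) t)

def VT (X : R → K → S) (φ : K →+* K) (e : ℤ) (t : K) : S :=
  X (sr 2 e) t * (X (sr 4 e) t * (X (sr 3 e) (φ t) * (X ((sr 2 e).add (sr 3 e)) (φ t * t) *
    X ((sr 3 e).add (sr 4 e)) (φ t * t))))

variable {X : R → K → S} {φ : K →+* K}

theorem hτ (hφ : ∀ t, φ (φ t) = t ^ 2) (a c : K) (m : Mono) :
    evM [a, φ a, c, φ c] (τ m) = φ (evM [a, φ a, c, φ c] m) := by
  unfold τ
  split_ifs with h
  · rw [List.isEmpty_iff.1 h]; simp [evM]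
  · rw [evM_cons a _ m, evM_cons (φ a) _ m.tail, evM_cons c _ m.tail.tail,
      evM_cons (φ c) _ m.tail.tail.tail]
    simp only [evM, map_mul, map_zpow₀, hφ, map_one, zpow_mul, zpow_ofNat]
    ring

theorem env_ne {a c : K} (ha : a ≠ 0) (hc : c ≠ 0) : ∀ z ∈ [a, φ a, c, φ c], z ≠ 0 := by
  simp [ha, hc]

theorem wt1 (v : List K) (o : R × R × R) : evW X v (wt o []) = WT X φ o 1 := by
  simp [wt, WT, τ, evW, evP, evM_nil]

theorem wta (a c : K) (o : R × R × R) :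
    evW X [a, φ a, c, φ c] (wt o [1, 0, 0, 0]) = WT X φ o a := by
  simp [wt, WT, τ, evW, evP, evM]

theorem wtc (a c : K) (o : R × R × R) :
    evW X [a, φ a, c, φ c] (wt o [0, 0, 1, 0]) = WT X φ o c := by
  simp [wt, WT, τ, evW, evP, evM]

theorem gw1 (e : ℤ) : evW X [] (gw e []) = GT X φ e 1 := by
  simp [gw, GT, τ, evW, evP, evM]

theorem gwa (a c : K) (e : ℤ) : evW X [a, φ a, c, φ c] (gw e [1, 0, 0, 0]) = GT X φ e a := by
  simp [gw, GT, τ, evW, evP, evM]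

theorem vw1 (e : ℤ) : evW X [] (vw e []) = VT X φ e 1 := by
  simp [vw, VT, τ, evW, evP, evM]

theorem vwa (a c : K) (e : ℤ) : evW X [a, φ a, c, φ c] (vw e [1, 0, 0, 0]) = VT X φ e a := by
  simp [vw, VT, τ, madd, evW, evP, evM, mul_comm]

theorem vwc (a c : K) (e : ℤ) : evW X [a, φ a, c, φ c] (vw e [0, 0, 1, 0]) = VT X φ e c := by
  simp [vw, VT, τ, madd, evW, evP, evM, mul_comm]

theorem okT_ok (hp : ((2 : ℤ) : K) = 0) {v : List K} (ht : ∀ m, evM v (τ m) = φ (evM v m))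
    {T : List (R × R × R)} {L : Subgroup S} (hT : ∀ o ∈ T, ∀ t, WT X φ o t ∈ L) (w : Word)
    (h : okT T w = true) : evW X v w ∈ L := by
  unfold okT at h
  split at h
  · simp only [Bool.and_eq_true, List.any_eq_true] at h
    obtain ⟨⟨o, ho, h1, h2, h3⟩, h4, h5⟩ := h
    rw [R.eq_of_eqb h1, R.eq_of_eqb h2, R.eq_of_eqb h3, eq_of_peqb h4, eq_of_peqb h5]
    simp only [evW, mul_one, evP_sig hp ht]
    exact hT o ho _
  · simp at h

theorem comb_ok (hX : StR X) {v : List K} (hv : ∀ x ∈ v, x ≠ 0) (hp : ((2 : ℤ) : K) = 0) {f : R}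
    {a b z : Word} (h : comb f a b z = true) :
    evW X v a * evW X v b * (evW X v a)⁻¹ * (evW X v b)⁻¹ = evW X v z := by
  simp only [comb, Bool.and_eq_true] at h
  have k := winv_ok hX hv hp b [] (good_of_b h.1.2) Good.nil
  rw [← colb_ok hX hv hp h.2, evW_append, evW_append,
    (winv_ok hX hv hp a _ (good_of_b h.1.1) k.1).2, k.2, evW]
  group

theorem WT_zero (hX : StR X) {o : R × R × R} (ho : o ∈ tm) : WT X φ o 0 = 1 := by
  have : ∀ o ∈ tm, o.1.ip o.1 = 2 ∧ o.2.1.ip o.2.1 = 2 ∧ o.2.2.ip o.2.2 = 2 := by decide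
  obtain ⟨a, b, c⟩ := this o ho
  rw [WT, map_zero, hX.zero a, hX.zero b, hX.zero c]; simp

theorem tk_mem {k : ℕ} (h : k < 16) : tk k ∈ tm := by
  rw [tk, List.getD_eq_getElem _ _ h]
  exact List.getElem_mem _

theorem k3 : check 2 no [wt (tk 3) [1, 0, 0, 0], nwords 2 M2, nwords 2 M1] b3
    ((tm.take 8).map (wt · [1, 0, 0, 0])) = true := by decide +kernel

theorem k4 : check 2 (okT (tm.take 8)) [nwords 2 M2, nwords 2 M1] b4
    ((tm.drop 8).map (wt · [1, 0, 0, 0])) = true := by decide +kernel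

theorem allT (hX : StR X) (hp : ((2 : ℤ) : K) = 0) (hφ : ∀ t, φ (φ t) = t ^ 2) {L : Subgroup S}
    (h1 : evW X [] (nwords 2 M1) ∈ L) (h2 : evW X [] (nwords 2 M2) ∈ L)
    (h3 : ∀ t, WT X φ (tk 3) t ∈ L) : ∀ o ∈ tm, ∀ t, WT X φ o t ∈ L := by
  have b : ∀ v, ∀ w ∈ [nwords 2 M2, nwords 2 M1], evW X v w ∈ L := fun v => by
    simp only [List.forall_mem_cons]
    exact ⟨by rw [evW_closed _ _ (by decide)]; exact h2,
      by rw [evW_closed _ _ (by decide)]; exact h1, by simp⟩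
  have z : ∀ o ∈ tm, ∀ t, (t ≠ 0 → WT X φ o t ∈ L) → WT X φ o t ∈ L := fun o ho t h => by
    by_cases e : t = 0
    · rw [e, WT_zero hX ho]; exact one_mem L
    exact h e
  have od : ∀ o ∈ tm.take 8, ∀ t, WT X φ o t ∈ L := fun o ho t =>
    z o (List.mem_of_mem_take ho) t fun e => wta (X := X) (φ := φ) t 1 o ▸
      check_ok hX (env_ne e one_ne_zero) hp no_ok k3 (by
        rw [List.forall_mem_cons, wta]; exact ⟨h3 t, b _⟩) _ (List.mem_map_of_mem ho)
  intro o ho t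
  rw [← List.take_append_drop 8 tm] at ho
  refine (List.mem_append.1 ho).elim (fun h => od o h t) fun h =>
    z o (List.mem_of_mem_drop h) t fun e => wta (X := X) (φ := φ) t 1 o ▸ ?_
  exact check_ok hX (env_ne e one_ne_zero) hp (okT_ok hp (hτ hφ t 1) od) k4 (b _) _
    (List.mem_map_of_mem h)

theorem k0 : check 2 no (gs.take 4) c0 [nwords 2 M1, nwords 2 M2] = true := by decide +kernel

theorem k1 : (check 2 (okT tm) [] c1 (zz :: zc :: (List.range 5).map fun i => (nk i).2) &&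
    colb 2 f7 (vw 1 [1, 0, 0, 0] ++ vw 1 [1, 0, 0, 0]) zz &&
    comb f7 (vw 1 [1, 0, 0, 0]) (vw 1 [0, 0, 1, 0]) zc &&
    (List.range 5).all fun i => comb (nk i).1 (vw 1 [1, 0, 0, 0]) (gs.getD i []) (nk i).2) =
      true := by decide +kernel

theorem k2 : check 2 (okT tm) [vw 1 [1, 0, 0, 0], nwords 2 M2, nwords 2 M1] c2
    [vw (-1) [1, 0, 0, 0], gw 1 [1, 0, 0, 0], gw (-1) [1, 0, 0, 0]] = true := by decide +kernel

theorem der_le (hX : StR X) (hp : ((2 : ℤ) : K) = 0) (hφ : ∀ t, φ (φ t) = t ^ 2)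
    {H L : Subgroup S} (hH : ∀ B : Subgroup S,
      (∀ e, e = 1 ∨ e = -1 → ∀ t, GT X φ e t ∈ B ∧ VT X φ e t ∈ B) → H ≤ B)
    (hL : ∀ o ∈ tm, ∀ t, WT X φ o t ∈ L) : ⁅H, H⁆ ≤ L := by
  let B := Subgroup.closure
    ({WT X φ (tk 8) 1, WT X φ (tk 12) 1, WT X φ (tk 9) 1, WT X φ (tk 13) 1} ∪
      Set.range (WT X φ (tk 3)))
  have g1 : WT X φ (tk 8) 1 ∈ B := Subgroup.subset_closure (by simp)
  have g2 : WT X φ (tk 12) 1 ∈ B := Subgroup.subset_closure (by simp)
  have g3 : WT X φ (tk 9) 1 ∈ B := Subgroup.subset_closure (by simp)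
  have g4 : WT X φ (tk 13) 1 ∈ B := Subgroup.subset_closure (by simp)
  have g5 : ∀ t, WT X φ (tk 3) t ∈ B := fun t => Subgroup.subset_closure (by simp)
  have t12 := check_ok (L := B) hX (v := []) (by simp) hp no_ok k0 (by
    simp only [gs, List.take, List.forall_mem_cons, wt1 (φ := φ)]
    exact ⟨g1, g2, g3, g4, by simp⟩)
  simp only [List.forall_mem_cons] at t12
  have al := allT hX hp hφ t12.1 t12.2.1 g5
  have c := k1
  rw [Bool.and_eq_true, Bool.and_eq_true, Bool.and_eq_true, List.all_eq_true] at c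
  obtain ⟨⟨⟨c1', c2'⟩, c3'⟩, c4'⟩ := c
  have m : ∀ {a c : K} (ha : a ≠ 0) (hc : c ≠ 0), _ := fun {a c} ha hc =>
    check_ok hX (env_ne (φ := φ) ha hc) hp (okT_ok hp (hτ hφ a c) al) c1' (by simp)
  have n : ∀ {a c : K}, a ≠ 0 → c ≠ 0 → ∀ i ∈ List.range 5, ∀ g,
      evW X [a, φ a, c, φ c] (gs.getD i []) = g → g ∈ B → VT X φ 1 a * g * (VT X φ 1 a)⁻¹ ∈ B :=
    fun {a c} ha hc i hi g e hg => by
      have h1 := comb_ok hX (env_ne (φ := φ) ha hc) hp (c4' i hi)
      rw [vwa, e, mul_inv_eq_iff_eq_mul] at h1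
      rw [h1]
      exact mul_mem (m ha hc _ (List.mem_cons_of_mem _ (List.mem_cons_of_mem _
        (List.mem_map_of_mem hi)))) hg
  refine (comm_le B H (fun s : Kˣ => VT X φ 1 s) (fun s g hg => ?_) (fun s => ?_)
    (fun s s' => ?_) (hH _ ?_)).trans ((Subgroup.closure_le _).2 ?_)
  · have : B ≤ B.comap (MulAut.conj (VT X φ 1 s)).toMonoidHom := (Subgroup.closure_le _).2 (by
      rintro _ ((rfl | rfl | rfl | rfl) | ⟨t, rfl⟩)
      · exact n s.ne_zero one_ne_zero 0 (by decide) _ (wt1 _ _) g1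
      · exact n s.ne_zero one_ne_zero 1 (by decide) _ (wt1 _ _) g2
      · exact n s.ne_zero one_ne_zero 2 (by decide) _ (wt1 _ _) g3
      · exact n s.ne_zero one_ne_zero 3 (by decide) _ (wt1 _ _) g4
      · by_cases e : t = 0
        · rw [e, WT_zero hX (tk_mem (by decide))]; exact one_mem _
        exact n s.ne_zero e 4 (by decide) _ (wtc _ _ _) (g5 t))
    exact this hg
  · have h1 := colb_ok hX (env_ne (φ := φ) s.ne_zero one_ne_zero) hp c2'
    rw [evW_append, vwa] at h1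
    exact h1 ▸ m s.ne_zero one_ne_zero _ List.mem_cons_self
  · have h1 := comb_ok hX (env_ne (φ := φ) s.ne_zero s'.ne_zero) hp c3'
    rw [vwa, vwc] at h1
    exact h1 ▸ m s.ne_zero s'.ne_zero _ (List.mem_cons_of_mem _ List.mem_cons_self)
  · intro e he t
    by_cases t0 : t = 0
    · rcases he with rfl | rfl <;>
      · simp only [t0, GT, VT, map_zero, mul_zero]
        rw [hX.zero (by decide), hX.zero (by decide), hX.zero (by decide), hX.zero (by decide),
          hX.zero (by decide), hX.zero (by decide), hX.zero (by decide), hX.zero (by decide)]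
        simp
    have hv : VT X φ 1 t ∈ B ⊔ Subgroup.closure (Set.range fun s : Kˣ => VT X φ 1 s) :=
      Subgroup.mem_sup_right (Subgroup.subset_closure ⟨Units.mk0 t t0, rfl⟩)
    have h1 := check_ok hX (env_ne (φ := φ) t0 one_ne_zero) hp
      (okT_ok hp (hτ hφ t 1) fun o ho t => Subgroup.mem_sup_left (al o ho t)) k2 (by
        simp only [List.forall_mem_cons, vwa]
        exact ⟨hv, by rw [evW_closed _ _ (by decide)]; exact Subgroup.mem_sup_left t12.2.1,
          by rw [evW_closed _ _ (by decide)]; exact Subgroup.mem_sup_left t12.1, by simp⟩)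
    simp only [List.forall_mem_cons, vwa, gwa] at h1
    rcases he with rfl | rfl
    exacts [⟨h1.2.1, hv⟩, ⟨h1.2.2.1, h1.1⟩]
  · rintro _ ((rfl | rfl | rfl | rfl) | ⟨t, rfl⟩) <;> exact hL _ (tk_mem (by decide)) _

end Pool.Agent.Lib.MP_cad414_al.Cg.XE.RF
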