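import Pool.Agent.Lib.MP_cad414_al.Cg.XG

/-! Certificates for the large Ree groups. -/

namespace Pool.Agent.Lib.MP_cad414_al.Cg.XE.RF

def tm : List (R × R × R) :=
  [(⟨1, 1, 1, 1, 0, 0, 0, 0⟩, ⟨0, 1, 0, 1, 1, 1, 0, 0⟩, ⟨1, 1, 1, 1, 1, 1, 0, 0⟩), (⟨1, 1, 2, 2,
  1, 1, 0, 0⟩, ⟨1, 1, 1, 2, 2, 1, 0, 0⟩, ⟨1, 2, 2, 3, 2, 1, 0, 0⟩), (⟨1, 1, 2, 2, 1, 0, 0, 0⟩,
  ⟨0, 1, 1, 2, 2, 1, 0, 0⟩, ⟨1, 1, 2, 3, 2, 1, 0, 0⟩), (⟨0, 0, 1, 1, 0, 0, 0, 0⟩, ⟨0, 0, 0, 1, 1,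
  0, 0, 0⟩, ⟨0, 0, 1, 1, 1, 0, 0, 0⟩), (⟨0, -1, 0, -1, -1, -1, 0, 0⟩, ⟨-1, -1, -1, -1, 0, 0, 0,
  0⟩, ⟨-1, -1, -1, -1, -1, -1, 0, 0⟩), (⟨-1, -1, -1, -2, -2, -1, 0, 0⟩, ⟨-1, -1, -2, -2, -1, -1,
  0, 0⟩, ⟨-1, -2, -2, -3, -2, -1, 0, 0⟩), (⟨0, -1, -1, -2, -2, -1, 0, 0⟩, ⟨-1, -1, -2, -2, -1, 0,
  0, 0⟩, ⟨-1, -1, -2, -3, -2, -1, 0, 0⟩), (⟨0, 0, -1, -1, 0, 0, 0, 0⟩, ⟨0, 0, 0, -1, -1, 0, 0,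
  0⟩, ⟨0, 0, -1, -1, -1, 0, 0, 0⟩), (⟨1, 0, 0, 0, 0, 0, 0, 0⟩, ⟨0, 0, 0, 0, 0, 1, 0, 0⟩, ⟨0, 1,
  0, 0, 0, 0, 0, 0⟩), (⟨0, 1, 1, 1, 1, 1, 0, 0⟩, ⟨1, 1, 1, 1, 1, 0, 0, 0⟩, ⟨1, 1, 1, 2, 1, 1, 0,
  0⟩), (⟨0, 1, 1, 2, 1, 1, 0, 0⟩, ⟨1, 1, 1, 2, 1, 0, 0, 0⟩, ⟨1, 1, 2, 2, 2, 1, 0, 0⟩), (⟨1, 0, 1,
  1, 1, 0, 0, 0⟩, ⟨0, 0, 1, 1, 1, 1, 0, 0⟩, ⟨0, 1, 1, 2, 1, 0, 0, 0⟩), (⟨-1, 0, 0, 0, 0, 0, 0,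
  0⟩, ⟨0, 0, 0, 0, 0, -1, 0, 0⟩, ⟨0, -1, 0, 0, 0, 0, 0, 0⟩), (⟨0, -1, -1, -1, -1, -1, 0, 0⟩, ⟨-1,
  -1, -1, -1, -1, 0, 0, 0⟩, ⟨-1, -1, -1, -2, -1, -1, 0, 0⟩), (⟨0, -1, -1, -2, -1, -1, 0, 0⟩, ⟨-1,
  -1, -1, -2, -1, 0, 0, 0⟩, ⟨-1, -1, -2, -2, -2, -1, 0, 0⟩), (⟨-1, 0, -1, -1, -1, 0, 0, 0⟩, ⟨0,
  0, -1, -1, -1, -1, 0, 0⟩, ⟨0, -1, -1, -2, -1, 0, 0, 0⟩)]

def M1 : List ME :=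
  [⟨⟨1, 0, 0, 0, 0, 0, 0, 0⟩, ⟨-2, -3, -3, -5, -4, -3, -2, -1⟩, false, []⟩, ⟨⟨0, 0, 0, 0, 0, 1,
  0, 0⟩, ⟨-2, -3, -4, -6, -5, -4, -2, -1⟩, false, []⟩, ⟨⟨0, 1, 0, 0, 0, 0, 0, 0⟩, ⟨-2, -3, -4,
  -5, -4, -3, -2, -1⟩, false, []⟩]

def M2 : List ME :=
  [⟨⟨0, -1, -1, -1, -1, -1, 0, 0⟩, ⟨-2, -2, -3, -5, -4, -3, -2, -1⟩, false, []⟩, ⟨⟨-1, -1, -1,
  -1, -1, 0, 0, 0⟩, ⟨-1, -2, -3, -5, -4, -3, -2, -1⟩, false, []⟩, ⟨⟨-1, -1, -1, -2, -1, -1, 0,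
  0⟩, ⟨-1, -2, -3, -4, -4, -3, -2, -1⟩, false, []⟩]

def ch0 : List R :=
  [⟨80001, 100007, -59951, -79657, -57599, 80013, 80101, 997⟩, ⟨20001, 20007, -39951, -39657,
  -37599, 20013, 140101, 997⟩, ⟨80001, 100007, -59951, -79657, -57599, 80013, 80101, 997⟩,
  ⟨20001, 20007, -39951, -39657, -37599, 20013, 140101, 997⟩, ⟨20001, 20007, 20049, 20343, 22401,
  20013, -159899, 997⟩]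

def rs0 : Word :=
  [(⟨-1, -1, -1, -2, -1, -1, 0, 0⟩, [(1, [])]), (⟨0, -1, -1, -1, -1, -1, 0, 0⟩, [(1, [])]), (⟨-1,
  -1, -1, -1, -1, 0, 0, 0⟩, [(1, [])])]

def ch1 : List R :=
  [⟨-19999, -19993, 40049, 40343, 42401, -19987, -139899, 997⟩, ⟨-79999, -99993, 60049, 80343,
  62401, -79987, -79899, 997⟩, ⟨-19999, -19993, 40049, 40343, 42401, -19987, -139899, 997⟩,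
  ⟨-79999, -99993, 60049, 80343, 62401, -79987, -79899, 997⟩, ⟨-19999, -19993, 40049, 40343,
  42401, -19987, -139899, 997⟩]

def rs1 : Word :=
  [(⟨1, 1, 1, 1, 1, 0, 0, 0⟩, [(1, [])]), (⟨0, 1, 1, 1, 1, 1, 0, 0⟩, [(1, [])]), (⟨1, 1, 1, 2, 1,
  1, 0, 0⟩, [(1, [])])]

def sw1 : List Nat :=
  [2, 1, 5, 4, 3, 2, 4, 6, 5]

def sw2 : List Nat :=
  [0, 3, 2, 1, 6, 5, 4, 3, 2, 3, 4, 7, 6, 5]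

def cms : List (Word × Word × R × Word) :=
  [([(⟨0, 0, 0, 0, -1, 0, 0, 0⟩, [(1, [])]), (⟨0, 0, -1, 0, 0, 0, 0, 0⟩, [(1, [])]), (⟨0, 0, 0,
  -1, 0, 0, 0, 0⟩, [(1, [])]), (⟨0, 0, 0, -1, -1, 0, 0, 0⟩, [(1, [])]), (⟨0, 0, -1, -1, 0, 0, 0,
  0⟩, [(1, [])])], [(⟨1, 0, 1, 0, 0, 0, 0, 0⟩, [(1, [])]), (⟨0, 0, 0, 0, 1, 1, 0, 0⟩, [(1, [])]),
  (⟨0, 1, 0, 1, 0, 0, 0, 0⟩, [(1, [])]), (⟨1, 1, 1, 1, 0, 0, 0, 0⟩, [(1, [])]), (⟨0, 1, 0, 1, 1,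
  1, 0, 0⟩, [(1, [])])], ⟨80001, 100007, -19951, -19657, -17599, 80013, -159899, 997⟩, [(⟨1, 0,
  0, 0, 0, 0, 0, 0⟩, [(1, [])]), (⟨0, 0, 0, 0, 0, 1, 0, 0⟩, [(1, [])]), (⟨0, 1, 0, 0, 0, 0, 0,
  0⟩, [(1, [])])]), ([(⟨0, 0, 1, 0, 0, 0, 0, 0⟩, [(1, [])]), (⟨0, 0, 0, 0, 1, 0, 0, 0⟩, [(1,
  [])]), (⟨0, 0, 0, 1, 0, 0, 0, 0⟩, [(1, [])]), (⟨0, 0, 1, 1, 0, 0, 0, 0⟩, [(1, [])]), (⟨0, 0, 0,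
  1, 1, 0, 0, 0⟩, [(1, [])])], [(⟨0, 0, 0, 0, -1, -1, 0, 0⟩, [(1, [])]), (⟨-1, 0, -1, 0, 0, 0, 0,
  0⟩, [(1, [])]), (⟨0, -1, 0, -1, 0, 0, 0, 0⟩, [(1, [])]), (⟨0, -1, 0, -1, -1, -1, 0, 0⟩, [(1,
  [])]), (⟨-1, -1, -1, -1, 0, 0, 0, 0⟩, [(1, [])])], ⟨-79999, -99993, 20049, 20343, 22401,
  -79987, 160101, 997⟩, [(⟨0, 0, 0, 0, 0, -1, 0, 0⟩, [(1, [])]), (⟨-1, 0, 0, 0, 0, 0, 0, 0⟩, [(1,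
  [])]), (⟨0, -1, 0, 0, 0, 0, 0, 0⟩, [(1, [])])]), ([(⟨1, 0, 0, 0, 0, 0, 0, 0⟩, [(1, [])]), (⟨0,
  0, 0, 0, 0, 1, 0, 0⟩, [(1, [])]), (⟨0, 1, 0, 0, 0, 0, 0, 0⟩, [(1, [])])], [(⟨0, 1, 1, 1, 0, 0,
  0, 0⟩, [(1, [])]), (⟨0, 1, 0, 1, 1, 0, 0, 0⟩, [(1, [])]), (⟨1, 0, 1, 1, 1, 1, 0, 0⟩, [(1,
  [])]), (⟨1, 1, 2, 2, 1, 1, 0, 0⟩, [(1, [])]), (⟨1, 1, 1, 2, 2, 1, 0, 0⟩, [(1, [])])], ⟨20001,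
  20007, 20049, 20343, 22401, 20013, -159899, 997⟩, [(⟨1, 1, 1, 1, 0, 0, 0, 0⟩, [(1, [])]), (⟨0,
  1, 0, 1, 1, 1, 0, 0⟩, [(1, [])]), (⟨1, 1, 1, 1, 1, 1, 0, 0⟩, [(1, [])])]), ([(⟨-1, 0, 0, 0, 0,
  0, 0, 0⟩, [(1, [])]), (⟨0, 0, 0, 0, 0, -1, 0, 0⟩, [(1, [])]), (⟨0, -1, 0, 0, 0, 0, 0, 0⟩, [(1,
  [])])], [(⟨0, -1, 0, -1, -1, 0, 0, 0⟩, [(1, [])]), (⟨0, -1, -1, -1, 0, 0, 0, 0⟩, [(1, [])]),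
  (⟨-1, 0, -1, -1, -1, -1, 0, 0⟩, [(1, [])]), (⟨-1, -1, -1, -2, -2, -1, 0, 0⟩, [(1, [])]), (⟨-1,
  -1, -2, -2, -1, -1, 0, 0⟩, [(1, [])])], ⟨-19999, -19993, -19951, -19657, -17599, -19987,
  160101, 997⟩, [(⟨0, -1, 0, -1, -1, -1, 0, 0⟩, [(1, [])]), (⟨-1, -1, -1, -1, 0, 0, 0, 0⟩, [(1,
  [])]), (⟨-1, -1, -1, -1, -1, -1, 0, 0⟩, [(1, [])])])]

def nm : List (R × Word) :=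
  [(⟨20001, 20007, 20049, 20343, 22401, 20013, -159899, 997⟩, [(⟨1, 0, 1, 0, 0, 0, 0, 0⟩, [(1,
  [1, 0, 0, 0])]), (⟨0, 1, 0, 1, 0, 0, 0, 0⟩, [(1, [0, 1, 0, 0])]), (⟨0, 0, 0, 0, 1, 1, 0, 0⟩,
  [(1, [1, 0, 0, 0])]), (⟨1, 0, 1, 1, 0, 0, 0, 0⟩, [(1, [1, 1, 0, 0])]), (⟨0, 0, 0, 1, 1, 1, 0,
  0⟩, [(1, [1, 1, 0, 0])]), (⟨0, 1, 0, 1, 1, 1, 0, 0⟩, [(1, [1, 1, 0, 0])]), (⟨1, 0, 1, 1, 1, 0,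
  0, 0⟩, [(1, [2, 1, 0, 0])]), (⟨0, 1, 1, 1, 1, 0, 0, 0⟩, [(1, [2, 1, 0, 0])]), (⟨0, 0, 1, 1, 1,
  1, 0, 0⟩, [(1, [2, 1, 0, 0])]), (⟨1, 1, 1, 1, 1, 0, 0, 0⟩, [(1, [2, 1, 0, 0])]), (⟨0, 1, 1, 1,
  1, 1, 0, 0⟩, [(1, [2, 1, 0, 0])]), (⟨0, 1, 1, 2, 1, 0, 0, 0⟩, [(1, [2, 2, 0, 0])]), (⟨1, 1, 1,
  1, 1, 1, 0, 0⟩, [(1, [2, 1, 0, 0])]), (⟨1, 1, 2, 3, 2, 1, 0, 0⟩, [(1, [4, 3, 0, 0])])]),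
  (⟨-79999, -99993, 20049, 20343, 22401, -79987, 160101, 997⟩, []), (⟨-79999, -99993, 60049,
  80343, 62401, -79987, -79899, 997⟩, [(⟨1, 1, 2, 2, 1, 1, 0, 0⟩, [(1, [1, 0, 0, 0])]), (⟨1, 1,
  1, 2, 2, 1, 0, 0⟩, [(1, [1, 0, 0, 0])]), (⟨1, 1, 1, 2, 1, 0, 0, 0⟩, [(1, [0, 1, 0, 0])]), (⟨0,
  1, 1, 2, 1, 1, 0, 0⟩, [(1, [0, 1, 0, 0])]), (⟨1, 2, 2, 3, 2, 1, 0, 0⟩, [(1, [0, 1, 0, 0])]),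
  (⟨1, 1, 2, 2, 2, 1, 0, 0⟩, [(1, [2, 0, 0, 0])])]), (⟨-79999, -99993, 20049, 20343, 22401,
  -79987, 160101, 997⟩, [(⟨0, -1, 0, -1, -1, -1, 0, 0⟩, [(1, [1, 0, 0, 0])]), (⟨-1, -1, -1, -1,
  0, 0, 0, 0⟩, [(1, [1, 0, 0, 0])]), (⟨-1, -1, -1, -1, -1, -1, 0, 0⟩, [(1, [0, 1, 0, 0])])]),
  (⟨-79999, -99993, 20049, 20343, 22401, -79987, 160101, 997⟩, [])]

def y : Word :=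
  [(⟨0, 1, 1, 1, 0, 0, 0, 0⟩, [(1, [1, 0, 0, 0])]), (⟨0, 1, 0, 1, 1, 0, 0, 0⟩, [(1, [1, 0, 0,
  0])]), (⟨1, 0, 1, 1, 1, 1, 0, 0⟩, [(1, [0, 1, 0, 0])]), (⟨1, 1, 2, 2, 1, 1, 0, 0⟩, [(1, [1, 1,
  0, 0])]), (⟨1, 1, 1, 2, 2, 1, 0, 0⟩, [(1, [1, 1, 0, 0])])]

def y2 : Word :=
  [(⟨0, 1, 1, 2, 2, 1, 0, 0⟩, [(1, [1, 1, 0, 0])]), (⟨1, 1, 2, 2, 1, 0, 0, 0⟩, [(1, [1, 1, 0,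
  0])]), (⟨0, 1, 1, 1, 1, 0, 0, 0⟩, [(1, [0, 1, 0, 0])]), (⟨0, 0, 0, 1, 1, 1, 0, 0⟩, [(1, [1, 0,
  0, 0])]), (⟨1, 0, 1, 1, 0, 0, 0, 0⟩, [(1, [1, 0, 0, 0])])]

def zz : Word :=
  [(⟨0, 0, 1, 1, 0, 0, 0, 0⟩, [(1, [1, 1, 0, 0])]), (⟨0, 0, 0, 1, 1, 0, 0, 0⟩, [(1, [1, 1, 0,
  0])]), (⟨0, 0, 1, 1, 1, 0, 0, 0⟩, [(1, [2, 1, 0, 0])])]

def zc : Word :=
  [(⟨0, 0, 1, 1, 0, 0, 0, 0⟩, [(1, [0, 1, 1, 0]), (1, [1, 0, 0, 1])]), (⟨0, 0, 0, 1, 1, 0, 0, 0⟩,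
  [(1, [0, 1, 1, 0]), (1, [1, 0, 0, 1])]), (⟨0, 0, 1, 1, 1, 0, 0, 0⟩, [(1, [0, 1, 2, 0]), (1, [2,
  0, 0, 1])])]

def f7 : R :=
  ⟨-79999, -99993, 20049, 20343, 22401, -79987, 160101, 997⟩

def f0 : R :=
  ⟨20001, 20007, 20049, 20343, 22401, 20013, -159899, 997⟩

def a0 : List Ins :=
  [.swp 0 [0, 1],
   .swp 2 [0, 1],
   .cat [(1, false), (0, false), (1, false)],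
   .swp 0 [2, 1, 5, 4, 3, 2, 4, 6, 5],
   .mon 0 [⟨⟨1, 0, 0, 0, 0, 0, 0, 0⟩, ⟨-2, -3, -3, -5, -4, -3, -2, -1⟩, false, []⟩, ⟨⟨0, 0, 0, 0,
   0, 1, 0, 0⟩, ⟨-2, -3, -4, -6, -5, -4, -2, -1⟩, false, []⟩, ⟨⟨0, 1, 0, 0, 0, 0, 0, 0⟩, ⟨-2, -3,
   -4, -5, -4, -3, -2, -1⟩, false, []⟩],
   .col [(6, false), (6, false)] ⟨-79999, -99993, 20049, 20343, 22401, -79987, 160101, 997⟩,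
   .col [(8, false), (8, false)] ⟨80001, 100007, -19951, -19657, -17599, 80013, -159899, 997⟩,
   .cnj [0] 1,
   .cnj [0] 1]

def a1 : List Ins :=
  [.mon 2 [⟨⟨1, 0, 0, 0, 0, 0, 0, 0⟩, ⟨-2, -3, -3, -5, -4, -3, -2, -1⟩, false, []⟩, ⟨⟨0, 0, 0, 0,
   0, 1, 0, 0⟩, ⟨-2, -3, -4, -6, -5, -4, -2, -1⟩, false, []⟩, ⟨⟨0, 1, 0, 0, 0, 0, 0, 0⟩, ⟨-2, -3,
   -4, -5, -4, -3, -2, -1⟩, false, []⟩],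
   .mon 1 [⟨⟨0, -1, -1, -1, -1, -1, 0, 0⟩, ⟨-2, -2, -3, -5, -4, -3, -2, -1⟩, false, []⟩, ⟨⟨-1,
   -1, -1, -1, -1, 0, 0, 0⟩, ⟨-1, -2, -3, -5, -4, -3, -2, -1⟩, false, []⟩, ⟨⟨-1, -1, -1, -2, -1,
   -1, 0, 0⟩, ⟨-1, -2, -3, -4, -4, -3, -2, -1⟩, false, []⟩],
   .cnj [0, 1, 0, 1] 0,
   .cnj [1] 1,
   .cnj [0, 1, 0] 2,
   .cnj [1, 0] 3,
   .cnj [0, 1] 4]

def a2 : List Ins :=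
  [.swp 1 [0],
   .cat [(1, false), (0, false), (1, false)],
   .swp 0 [2, 1, 5, 4, 3, 2, 4, 6, 5]]

def b1 : List Ins :=
  [.mon 1 [⟨⟨0, -1, -1, -1, -1, -1, 0, 0⟩, ⟨-2, -2, -3, -5, -4, -3, -2, -1⟩, false, []⟩, ⟨⟨-1,
   -1, -1, -1, -1, 0, 0, 0⟩, ⟨-1, -2, -3, -5, -4, -3, -2, -1⟩, false, []⟩, ⟨⟨-1, -1, -1, -2, -1,
   -1, 0, 0⟩, ⟨-1, -2, -3, -4, -4, -3, -2, -1⟩, false, []⟩],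
   .cnj [0] 0,
   .col [(1, false), (0, false), (1, true), (0, true)] ⟨-99999, -139993, 60049, 100343, 62401,
   -99987, -39899, 997⟩,
   .col [(2, false), (0, false), (2, true), (0, true)] ⟨-99999, -139993, 60049, 100343, 62401,
   -99987, -39899, 997⟩,
   .col [(0, false), (3, false), (0, true), (3, true)] ⟨-99999, -139993, 60049, 100343, 62401,
   -99987, -39899, 997⟩,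
   .cnj [0] 0]

def b2 : List Ins :=
  [.mon 3 [⟨⟨1, 0, 0, 0, 0, 0, 0, 0⟩, ⟨-2, -3, -3, -5, -4, -3, -2, -1⟩, false, []⟩, ⟨⟨0, 0, 0, 0,
   0, 1, 0, 0⟩, ⟨-2, -3, -4, -6, -5, -4, -2, -1⟩, false, []⟩, ⟨⟨0, 1, 0, 0, 0, 0, 0, 0⟩, ⟨-2, -3,
   -4, -5, -4, -3, -2, -1⟩, false, []⟩],
   .mon 2 [⟨⟨0, -1, -1, -1, -1, -1, 0, 0⟩, ⟨-2, -2, -3, -5, -4, -3, -2, -1⟩, false, []⟩, ⟨⟨-1,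
   -1, -1, -1, -1, 0, 0, 0⟩, ⟨-1, -2, -3, -5, -4, -3, -2, -1⟩, false, []⟩, ⟨⟨-1, -1, -1, -2, -1,
   -1, 0, 0⟩, ⟨-1, -2, -3, -4, -4, -3, -2, -1⟩, false, []⟩],
   .cnj [0] 1,
   .col [(2, false), (0, false), (2, true), (0, true)] ⟨-99999, -139993, 60049, 100343, 62401,
   -99987, -39899, 997⟩,
   .col [(3, false), (0, false), (3, true), (0, true)] ⟨-99999, -139993, 60049, 100343, 62401,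
   -99987, -39899, 997⟩,
   .col [(0, false), (4, false), (0, true), (4, true)] ⟨-99999, -139993, 60049, 100343, 62401,
   -99987, -39899, 997⟩,
   .col [(1, false), (2, false), (1, true), (2, true)] ⟨-119999, -179993, 60049, 100343, 62401,
   -119987, 40101, 997⟩,
   .cnj [1, 0] 5,
   .col [(0, false), (5, false), (0, true), (5, true)] ⟨-99999, -139993, 60049, 100343, 62401,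
   -99987, -39899, 997⟩,
   .cnj [0, 1] 3,
   .col [(1, false), (0, false), (1, true), (0, true)] ⟨-119999, -179993, 60049, 100343, 62401,
   -119987, 40101, 997⟩,
   .cnj [0, 1] 4,
   .col [(3, false), (0, false), (3, true), (0, true)] ⟨-119999, -179993, 60049, 100343, 62401,
   -119987, 40101, 997⟩]

def b3 : List Ins :=
  [.mon 2 [⟨⟨1, 0, 0, 0, 0, 0, 0, 0⟩, ⟨-2, -3, -3, -5, -4, -3, -2, -1⟩, false, []⟩, ⟨⟨0, 0, 0, 0,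
   0, 1, 0, 0⟩, ⟨-2, -3, -4, -6, -5, -4, -2, -1⟩, false, []⟩, ⟨⟨0, 1, 0, 0, 0, 0, 0, 0⟩, ⟨-2, -3,
   -4, -5, -4, -3, -2, -1⟩, false, []⟩],
   .mon 1 [⟨⟨0, -1, -1, -1, -1, -1, 0, 0⟩, ⟨-2, -2, -3, -5, -4, -3, -2, -1⟩, false, []⟩, ⟨⟨-1,
   -1, -1, -1, -1, 0, 0, 0⟩, ⟨-1, -2, -3, -5, -4, -3, -2, -1⟩, false, []⟩, ⟨⟨-1, -1, -1, -2, -1,
   -1, 0, 0⟩, ⟨-1, -2, -3, -4, -4, -3, -2, -1⟩, false, []⟩],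
   .cnj [1] 0,
   .cnj [1, 0] 1,
   .cnj [0] 2,
   .cnj [0, 1, 0] 3,
   .cnj [0, 1] 4,
   .cnj [1, 0, 1] 5,
   .cnj [0, 1, 0, 1] 6,
   .swp 0 [0]]

def b4 : List Ins :=
  [.mon 1 [⟨⟨1, 0, 0, 0, 0, 0, 0, 0⟩, ⟨-2, -3, -3, -5, -4, -3, -2, -1⟩, false, []⟩, ⟨⟨0, 0, 0, 0,
   0, 1, 0, 0⟩, ⟨-2, -3, -4, -6, -5, -4, -2, -1⟩, false, []⟩, ⟨⟨0, 1, 0, 0, 0, 0, 0, 0⟩, ⟨-2, -3,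
   -4, -5, -4, -3, -2, -1⟩, false, []⟩],
   .mon 0 [⟨⟨0, -1, -1, -1, -1, -1, 0, 0⟩, ⟨-2, -2, -3, -5, -4, -3, -2, -1⟩, false, []⟩, ⟨⟨-1,
   -1, -1, -1, -1, 0, 0, 0⟩, ⟨-1, -2, -3, -5, -4, -3, -2, -1⟩, false, []⟩, ⟨⟨-1, -1, -1, -2, -1,
   -1, 0, 0⟩, ⟨-1, -2, -3, -4, -4, -3, -2, -1⟩, false, []⟩],
   .ext [(⟨1, 1, 1, 1, 0, 0, 0, 0⟩, [(1, [1, 0, 0, 0])]), (⟨0, 1, 0, 1, 1, 1, 0, 0⟩, [(1, [1, 0,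
   0, 0])]), (⟨1, 1, 1, 1, 1, 1, 0, 0⟩, [(1, [0, 1, 0, 0])])],
   .ext [(⟨0, 0, 1, 1, 0, 0, 0, 0⟩, [(1, [])]), (⟨0, 0, 0, 1, 1, 0, 0, 0⟩, [(1, [])]), (⟨0, 0, 1,
   1, 1, 0, 0, 0⟩, [(1, [])])],
   .col [(1, false), (0, false), (1, true), (0, true)] ⟨-19999, -19993, 40049, 40343, 42401,
   -19987, -139899, 997⟩,
   .ext [(⟨1, 1, 2, 2, 1, 1, 0, 0⟩, [(1, [0, 1, 0, 0])]), (⟨1, 1, 1, 2, 2, 1, 0, 0⟩, [(1, [0, 1,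
   0, 0])]), (⟨1, 2, 2, 3, 2, 1, 0, 0⟩, [(1, [2, 0, 0, 0])])],
   .col [(1, false), (0, true)] ⟨-99999, -139993, 60049, 100343, 62401, -99987, -39899, 997⟩,
   .ext [(⟨1, 1, 2, 2, 1, 0, 0, 0⟩, [(1, [1, 0, 0, 0])]), (⟨0, 1, 1, 2, 2, 1, 0, 0⟩, [(1, [1, 0,
   0, 0])]), (⟨1, 1, 2, 3, 2, 1, 0, 0⟩, [(1, [0, 1, 0, 0])])],
   .col [(1, false), (0, true)] ⟨-99999, -139993, 60049, 100343, 62401, -99987, -39899, 997⟩,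
   .ext [(⟨1, 1, 2, 2, 1, 1, 0, 0⟩, [(1, [1, 0, 0, 0])]), (⟨1, 1, 1, 2, 2, 1, 0, 0⟩, [(1, [1, 0,
   0, 0])]), (⟨1, 2, 2, 3, 2, 1, 0, 0⟩, [(1, [0, 1, 0, 0])])],
   .ext [(⟨0, -1, 0, -1, -1, -1, 0, 0⟩, [(1, [])]), (⟨-1, -1, -1, -1, 0, 0, 0, 0⟩, [(1, [])]),
   (⟨-1, -1, -1, -1, -1, -1, 0, 0⟩, [(1, [])])],
   .col [(1, false), (0, false), (1, true), (0, true)] ⟨-99999, -139993, 60049, 100343, 62401,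
   -99987, -39899, 997⟩,
   .ext [(⟨1, 1, 2, 2, 1, 0, 0, 0⟩, [(1, [0, 1, 0, 0])]), (⟨0, 1, 1, 2, 2, 1, 0, 0⟩, [(1, [0, 1,
   0, 0])]), (⟨1, 1, 2, 3, 2, 1, 0, 0⟩, [(1, [2, 0, 0, 0])])],
   .col [(1, false), (0, true)] ⟨-119999, -179993, 60049, 80343, 62401, -119987, 80101, 997⟩,
   .ext [(⟨0, 0, 1, 1, 0, 0, 0, 0⟩, [(1, [1, 0, 0, 0])]), (⟨0, 0, 0, 1, 1, 0, 0, 0⟩, [(1, [1, 0,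
   0, 0])]), (⟨0, 0, 1, 1, 1, 0, 0, 0⟩, [(1, [0, 1, 0, 0])])],
   .col [(1, false), (0, true)] ⟨-119999, -179993, 60049, 80343, 62401, -119987, 80101, 997⟩,
   .cnj [1, 0] 7,
   .cnj [1] 1,
   .swp 9 [0],
   .cnj [0] 10,
   .cnj [0, 1] 4,
   .cnj [0, 1, 0] 12,
   .swp 0 [0],
   .cnj [1, 0, 1] 7]

def c0 : List Ins :=
  [.cat [(0, false), (1, false), (0, false)],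
   .swp 0 [2, 1, 5, 4, 3, 2, 4, 6, 5],
   .cat [(5, false), (4, false), (5, false)],
   .swp 0 [2, 1, 5, 4, 3, 2, 4, 6, 5]]

def c1 : List Ins :=
  [.ext [(⟨-1, 0, -1, -1, -1, 0, 0, 0⟩, [(1, [])]), (⟨0, 0, -1, -1, -1, -1, 0, 0⟩, [(1, [])]),
   (⟨0, -1, -1, -2, -1, 0, 0, 0⟩, [(1, [])])],
   .ext [(⟨1, 1, 2, 2, 1, 0, 0, 0⟩, [(1, [1, 0, 0, 0])]), (⟨0, 1, 1, 2, 2, 1, 0, 0⟩, [(1, [1, 0,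
   0, 0])]), (⟨1, 1, 2, 3, 2, 1, 0, 0⟩, [(1, [0, 1, 0, 0])])],
   .col [(1, false), (0, false), (1, true), (0, true)] ⟨100001, 140007, -39951, -39657, -37599,
   100013, -139899, 997⟩,
   .ext [(⟨0, 0, -1, -1, 0, 0, 0, 0⟩, [(1, [1, 0, 0, 0])]), (⟨0, 0, 0, -1, -1, 0, 0, 0⟩, [(1, [1,
   0, 0, 0])]), (⟨0, 0, -1, -1, -1, 0, 0, 0⟩, [(1, [0, 1, 0, 0])])],
   .col [(1, false), (0, true)] ⟨80001, 100007, -19951, -19657, -17599, 80013, -159899, 997⟩,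
   .ext [(⟨1, 0, 0, 0, 0, 0, 0, 0⟩, [(1, [0, 1, 0, 0])]), (⟨0, 0, 0, 0, 0, 1, 0, 0⟩, [(1, [0, 1,
   0, 0])]), (⟨0, 1, 0, 0, 0, 0, 0, 0⟩, [(1, [2, 0, 0, 0])])],
   .col [(1, false), (0, true)] ⟨80001, 100007, -19951, -19657, -17599, 80013, -159899, 997⟩,
   .ext [(⟨0, 1, 1, 2, 1, 1, 0, 0⟩, [(1, [0, 1, 0, 0])]), (⟨1, 1, 1, 2, 1, 0, 0, 0⟩, [(1, [0, 1,
   0, 0])]), (⟨1, 1, 2, 2, 2, 1, 0, 0⟩, [(1, [2, 0, 0, 0])])],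
   .col [(1, false), (0, true)] ⟨80001, 100007, -19951, -19657, -17599, 80013, -159899, 997⟩,
   .ext [(⟨1, 1, 2, 2, 1, 1, 0, 0⟩, [(1, [1, 1, 0, 0])]), (⟨1, 1, 1, 2, 2, 1, 0, 0⟩, [(1, [1, 1,
   0, 0])]), (⟨1, 2, 2, 3, 2, 1, 0, 0⟩, [(1, [2, 1, 0, 0])])],
   .col [(1, false), (0, true)] ⟨80001, 100007, -19951, -19657, -17599, 80013, -159899, 997⟩,
   .ext [(⟨1, 0, 0, 0, 0, 0, 0, 0⟩, [(1, [-2, -1, 0, 0])]), (⟨0, 0, 0, 0, 0, 1, 0, 0⟩, [(1, [-2,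
   -1, 0, 0])]), (⟨0, 1, 0, 0, 0, 0, 0, 0⟩, [(1, [-2, -2, 0, 0])])],
   .ext [(⟨0, 0, 1, 1, 0, 0, 0, 0⟩, [(1, [3, 2, 0, 0])]), (⟨0, 0, 0, 1, 1, 0, 0, 0⟩, [(1, [3, 2,
   0, 0])]), (⟨0, 0, 1, 1, 1, 0, 0, 0⟩, [(1, [4, 3, 0, 0])])],
   .col [(1, false), (0, false), (1, true), (0, true)] ⟨20001, 20007, 20049, 20343, 22401, 20013,
   -159899, 997⟩,
   .ext [(⟨1, 1, 1, 1, 0, 0, 0, 0⟩, [(1, [-1, -1, 0, 0])]), (⟨0, 1, 0, 1, 1, 1, 0, 0⟩, [(1, [-1,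
   -1, 0, 0])]), (⟨1, 1, 1, 1, 1, 1, 0, 0⟩, [(1, [-2, -1, 0, 0])])],
   .col [(1, false), (0, true)] ⟨-19999, -19993, 40049, 40343, 42401, -19987, -139899, 997⟩,
   .ext [(⟨0, 1, 1, 1, 1, 1, 0, 0⟩, [(1, [0, 0, 0, 0])]), (⟨1, 1, 1, 1, 1, 0, 0, 0⟩, [(1, [0, 0,
   0, 0])]), (⟨1, 1, 1, 2, 1, 1, 0, 0⟩, [(1, [0, 0, 0, 0])])],
   .col [(1, false), (0, true)] ⟨-19999, -19993, 40049, 40343, 42401, -19987, -139899, 997⟩,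
   .ext [(⟨1, 0, 1, 1, 1, 0, 0, 0⟩, [(1, [2, 2, 0, 0])]), (⟨0, 0, 1, 1, 1, 1, 0, 0⟩, [(1, [2, 2,
   0, 0])]), (⟨0, 1, 1, 2, 1, 0, 0, 0⟩, [(1, [4, 2, 0, 0])])],
   .col [(1, false), (0, true)] ⟨-19999, -19993, 40049, 40343, 42401, -19987, -139899, 997⟩,
   .ext [(⟨0, 1, 1, 2, 1, 1, 0, 0⟩, [(1, [2, 1, 0, 0])]), (⟨1, 1, 1, 2, 1, 0, 0, 0⟩, [(1, [2, 1,
   0, 0])]), (⟨1, 1, 2, 2, 2, 1, 0, 0⟩, [(1, [2, 2, 0, 0])])],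
   .col [(1, false), (0, true)] ⟨-19999, -19993, 40049, 40343, 42401, -19987, -139899, 997⟩,
   .ext [(⟨1, 1, 2, 2, 1, 0, 0, 0⟩, [(1, [3, 2, 0, 0])]), (⟨0, 1, 1, 2, 2, 1, 0, 0⟩, [(1, [3, 2,
   0, 0])]), (⟨1, 1, 2, 3, 2, 1, 0, 0⟩, [(1, [4, 3, 0, 0])])],
   .col [(1, false), (0, true)] ⟨-19999, -19993, 40049, 40343, 42401, -19987, -139899, 997⟩,
   .ext [(⟨1, 0, 1, 1, 1, 0, 0, 0⟩, [(1, [2, 1, 0, 0])]), (⟨0, 0, 1, 1, 1, 1, 0, 0⟩, [(1, [2, 1,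
   0, 0])]), (⟨0, 1, 1, 2, 1, 0, 0, 0⟩, [(1, [2, 2, 0, 0])])],
   .ext [(⟨0, 1, 1, 1, 1, 1, 0, 0⟩, [(1, [2, 1, 0, 0])]), (⟨1, 1, 1, 1, 1, 0, 0, 0⟩, [(1, [2, 1,
   0, 0])]), (⟨1, 1, 1, 2, 1, 1, 0, 0⟩, [(1, [2, 2, 0, 0])])],
   .col [(2, false), (16, false), (5, false), (15, false), (0, false), (1, false)] ⟨20001, 20007,
   20049, 20343, 22401, 20013, -159899, 997⟩,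
   .cat [],
   .ext [(⟨1, 1, 2, 2, 1, 1, 0, 0⟩, [(1, [1, 0, 0, 0])]), (⟨1, 1, 1, 2, 2, 1, 0, 0⟩, [(1, [1, 0,
   0, 0])]), (⟨1, 2, 2, 3, 2, 1, 0, 0⟩, [(1, [0, 1, 0, 0])])],
   .col [(21, false), (0, false)] ⟨-79999, -99993, 60049, 80343, 62401, -79987, -79899, 997⟩,
   .ext [(⟨0, -1, 0, -1, -1, -1, 0, 0⟩, [(1, [1, 0, 0, 0])]), (⟨-1, -1, -1, -1, 0, 0, 0, 0⟩, [(1,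
   [1, 0, 0, 0])]), (⟨-1, -1, -1, -1, -1, -1, 0, 0⟩, [(1, [0, 1, 0, 0])])],
   .ext [(⟨0, 0, 1, 1, 0, 0, 0, 0⟩, [(1, [1, 1, 0, 0])]), (⟨0, 0, 0, 1, 1, 0, 0, 0⟩, [(1, [1, 1,
   0, 0])]), (⟨0, 0, 1, 1, 1, 0, 0, 0⟩, [(1, [2, 1, 0, 0])])],
   .ext [(⟨0, 0, 1, 1, 0, 0, 0, 0⟩, [(1, [0, 1, 1, 0]), (1, [1, 0, 0, 1])]), (⟨0, 0, 0, 1, 1, 0,
   0, 0⟩, [(1, [0, 1, 1, 0]), (1, [1, 0, 0, 1])]), (⟨0, 0, 1, 1, 1, 0, 0, 0⟩, [(1, [0, 1, 2, 0]),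
   (1, [2, 0, 0, 1])])]]

def c2 : List Ins :=
  [.mon 2 [⟨⟨1, 0, 0, 0, 0, 0, 0, 0⟩, ⟨-2, -3, -3, -5, -4, -3, -2, -1⟩, false, []⟩, ⟨⟨0, 0, 0, 0,
   0, 1, 0, 0⟩, ⟨-2, -3, -4, -6, -5, -4, -2, -1⟩, false, []⟩, ⟨⟨0, 1, 0, 0, 0, 0, 0, 0⟩, ⟨-2, -3,
   -4, -5, -4, -3, -2, -1⟩, false, []⟩],
   .mon 1 [⟨⟨0, -1, -1, -1, -1, -1, 0, 0⟩, ⟨-2, -2, -3, -5, -4, -3, -2, -1⟩, false, []⟩, ⟨⟨-1,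
   -1, -1, -1, -1, 0, 0, 0⟩, ⟨-1, -2, -3, -5, -4, -3, -2, -1⟩, false, []⟩, ⟨⟨-1, -1, -1, -2, -1,
   -1, 0, 0⟩, ⟨-1, -2, -3, -4, -4, -3, -2, -1⟩, false, []⟩],
   .cnj [0, 1, 0, 1] 0,
   .col [(0, false)] ⟨0, 0, -10, -12, -11, 0, 0, 0⟩,
   .ext [(⟨1, 0, 0, 0, 0, 0, 0, 0⟩, [(1, [1, 0, 0, 0])]), (⟨0, 0, 0, 0, 0, 1, 0, 0⟩, [(1, [1, 0,
   0, 0])]), (⟨0, 1, 0, 0, 0, 0, 0, 0⟩, [(1, [0, 1, 0, 0])])],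
   .swp 0 [1, 0],
   .ext [(⟨-1, 0, 0, 0, 0, 0, 0, 0⟩, [(1, [1, 0, 0, 0])]), (⟨0, 0, 0, 0, 0, -1, 0, 0⟩, [(1, [1,
   0, 0, 0])]), (⟨0, -1, 0, 0, 0, 0, 0, 0⟩, [(1, [0, 1, 0, 0])])],
   .swp 0 [1, 0]]

end Pool.Agent.Lib.MP_cad414_al.Cg.XE.RF
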